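import Pool.Agent.BS.Defs4

/-!
# Module AF0: the global metric
-/

namespace Pool.Agent.BS

open MeasureTheory Topology Set Filter
open scoped ContDiff

noncomputable section

theorem af0_eta_zero {x : E3} (h : ‖x‖ ≤ 2) : eta ‖x‖ = 0 :=
  Real.smoothTransition.zero_of_nonpos (by linarith)

theorem af0_eta_one {x : E3} (h : 3 ≤ ‖x‖) : eta ‖x‖ = 1 :=
  Real.smoothTransition.one_of_one_le (by linarith)

theorem af0_hh_smooth {q : ℝ} {g : E3 → M3} (hg : AFMetric q g) (i j : Fin 3) :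
    ContDiff ℝ ∞ (fun x => hh g x i j) := by
  rw [contDiff_iff_contDiffAt]
  intro x
  rcases lt_or_ge ‖x‖ 2 with h | h
  · have h1 : (fun x => hh g x i j) =ᶠ[𝓝 x] fun _ => 0 := by
      have h2 : ∀ᶠ y : E3 in 𝓝 x, ‖y‖ < 2 := continuous_norm.continuousAt.eventually_lt_const h
      filter_upwards [h2] with y hy
      rw [hh, af0_eta_zero hy.le, zero_mul]
    exact contDiffAt_const.congr_of_eventuallyEq h1
  · have hx : x ≠ 0 := by
      intro h0
      rw [h0, norm_zero] at h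
      linarith
    have h1 : ContDiffAt ℝ ∞ (fun x => g x i j) x :=
      (hg.smooth i j).contDiffAt ((isOpen_lt continuous_const continuous_norm).mem_nhds
        (show (1:ℝ) < ‖x‖ by linarith))
    have h2 : ContDiffAt ℝ ∞ (fun x : E3 => eta ‖x‖) x := by
      have h3 : ContDiffAt ℝ ∞ (fun x : E3 => ‖x‖ - 2) x := (contDiffAt_norm ℝ hx).sub contDiffAt_const
      exact Real.smoothTransition.contDiffAt.comp x h3
    exact h2.mul (h1.sub contDiffAt_const)

theorem af0_hh_symm {q : ℝ} {g : E3 → M3} (hg : AFMetric q g) (x : E3) (i j : Fin 3) :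
    hh g x i j = hh g x j i := by
  have hd : (dl i j : ℝ) = dl j i := by simp [dl, eq_comm]
  rcases le_or_gt ‖x‖ 2 with h | h
  · rw [hh, hh, af0_eta_zero h, zero_mul, zero_mul]
  · rw [hh, hh, hg.symm x (by linarith) i j, hd]

theorem af0_quad_dl (v : E3) : ∑ i, ∑ j, (dl i j : ℝ) * v i * v j = ∑ i, v i ^ 2 := by
  refine Finset.sum_congr rfl fun i _ => ?_
  rw [Finset.sum_eq_single i]
  · simp [dl, sq]
  · intro j _ hj
    simp [dl, Ne.symm hj]
  · simp

theorem af0_quad_pos (v : E3) (hv : v ≠ 0) : 0 < ∑ i, v i ^ 2 := by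
  have h : ∑ i, v i ^ 2 = ‖v‖ ^ 2 := by
    rw [EuclideanSpace.norm_sq_eq]; simp
  rw [h]
  have := norm_pos_iff.2 hv
  positivity

theorem af0_pos {q : ℝ} {g : E3 → M3} (hg : AFMetric q g) (x v : E3) (hv : v ≠ 0) :
    0 < ∑ i, ∑ j, gh g x i j * v i * v j := by
  have h1 : ∑ i, ∑ j, gh g x i j * v i * v j = (1 - eta ‖x‖) * ∑ i, v i ^ 2 +
      eta ‖x‖ * ∑ i, ∑ j, g x i j * v i * v j := by
    rw [← af0_quad_dl v, Finset.mul_sum, Finset.mul_sum, ← Finset.sum_add_distrib]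
    refine Finset.sum_congr rfl fun i _ => ?_
    rw [Finset.mul_sum, Finset.mul_sum, ← Finset.sum_add_distrib]
    refine Finset.sum_congr rfl fun j _ => ?_
    rw [gh, hh]; ring
  rw [h1]
  have h2 := af0_quad_pos v hv
  rcases le_or_gt ‖x‖ 2 with h | h
  · rw [af0_eta_zero h]; simpa using h2
  · have h3 := hg.pos x (by linarith) v hv
    have h4 : eta ‖x‖ ≤ 1 := Real.smoothTransition.le_one _
    have h5 : 0 < eta ‖x‖ := Real.smoothTransition.pos_of_pos (by linarith)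
    have h6 : 0 ≤ (1 - eta ‖x‖) * ∑ i, v i ^ 2 := mul_nonneg (by linarith) h2.le
    have h7 := mul_pos h5 h3
    linarith

/-- the metric `gh g` is a global smooth metric -/
theorem gh_pos {q : ℝ} {g : E3 → M3} (hg : AFMetric q g) : (∀ x, 0 < det3 (gh g x)) ∧
    (∀ x (v : E3), v ≠ 0 → 0 < ∑ i, ∑ j, gh g x i j * v i * v j) ∧
    (∀ x i j, gh g x i j = gh g x j i) ∧ ∀ i j, ContDiff ℝ ∞ (fun x => gh g x i j) := by
  have hsym : ∀ x i j, gh g x i j = gh g x j i := by
    intro x i j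
    have hd : (dl i j : ℝ) = dl j i := by simp [dl, eq_comm]
    rw [gh, gh, af0_hh_symm hg x i j, hd]
  refine ⟨fun x => ?_, fun x v hv => af0_pos hg x v hv, hsym, fun i j =>
    contDiff_const.add (af0_hh_smooth hg i j)⟩
  have hP : (Matrix.of (gh g x)).PosDef := by
    rw [Matrix.posDef_iff_dotProduct_mulVec]
    refine ⟨?_, fun v hv => ?_⟩
    · ext i j
      simp [Matrix.conjTranspose, hsym x i j]
    · have h1 := af0_pos hg x (WithLp.toLp 2 v) (by
        intro h0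
        apply hv
        ext i
        have := congrArg (fun w : E3 => w i) h0
        simpa using this)
      have h2 : star v ⬝ᵥ (Matrix.of (gh g x)).mulVec v =
          ∑ i, ∑ j, gh g x i j * v i * v j := by
        simp only [dotProduct, Matrix.mulVec, star_trivial, Matrix.of_apply, Finset.mul_sum]
        refine Finset.sum_congr rfl fun i _ => Finset.sum_congr rfl fun j _ => ?_
        ring
      rw [h2]
      exact h1
  exact hP.det_pos

theorem af0_det_smooth {a : E3 → M3} (ha : ∀ i j, ContDiff ℝ ∞ (fun x => a x i j)) :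
    ContDiff ℝ ∞ (fun x => det3 (a x)) := by
  unfold det3
  simp only [Matrix.det_fin_three, Matrix.of_apply]
  fun_prop

theorem af0_inv_smooth {a : E3 → M3} (ha : ∀ i j, ContDiff ℝ ∞ (fun x => a x i j))
    (hd : ∀ x, 0 < det3 (a x)) (i j : Fin 3) :
    ContDiff ℝ ∞ (fun x => (Matrix.of (a x))⁻¹ i j) := by
  have h1 : ∀ x, (Matrix.of (a x))⁻¹ i j = (det3 (a x))⁻¹ * (Matrix.of (a x)).adjugate i j := by
    intro x
    rw [Matrix.inv_def, Matrix.smul_apply, Ring.inverse_eq_inv', smul_eq_mul]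
    rfl
  simp_rw [h1]
  refine ((af0_det_smooth ha).inv fun x => (hd x).ne').mul ?_
  simp only [Matrix.adjugate_fin_three, Matrix.of_apply]
  fin_cases i <;> fin_cases j <;> simp <;> fun_prop

theorem HA_smooth {q : ℝ} {g : E3 → M3} (hg : AFMetric q g) :
    (∀ i j, ContDiff ℝ ∞ (fun x => HA g x i j)) ∧ (∀ x i j, HA g x i j = HA g x j i) ∧
    (∀ i j, ContDiff ℝ ∞ (fun x => hh g x i j)) ∧ ∀ x i j, hh g x i j = hh g x j i := by
  obtain ⟨hd, -, hs, hc⟩ := gh_pos hg
  refine ⟨fun i j => ?_, fun x i j => ?_, af0_hh_smooth hg, af0_hh_symm hg⟩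
  · unfold HA Ag sqg ginv
    exact (((af0_det_smooth hc).sqrt fun x => (hd x).ne').mul (af0_inv_smooth hc hd i j)).sub
      contDiff_const
  · have hdl : (dl i j : ℝ) = dl j i := by simp [dl, eq_comm]
    have hT : (Matrix.of (gh g x)).transpose = Matrix.of (gh g x) := by
      ext a b
      exact hs x b a
    have h2 : ginv (gh g) x i j = ginv (gh g) x j i := by
      unfold ginv
      have h3 : ((Matrix.of (gh g x))⁻¹).transpose = (Matrix.of (gh g x))⁻¹ := by
        rw [Matrix.transpose_nonsing_inv, hT]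
      conv_lhs => rw [← h3]
      rfl
    rw [HA, HA, Ag, Ag, h2, hdl]

theorem af0_bound {f : E3 → ℝ} (hf : Continuous f) {C r0 p : ℝ} (hp : 0 ≤ p)
    (h : ∀ x, r0 ≤ ‖x‖ → |f x| ≤ C * ‖x‖ ^ (-p)) :
    ∃ C', 0 ≤ C' ∧ ∀ x, |f x| ≤ C' * (1 + ‖x‖) ^ (-p) := by
  set r := max r0 1 with hr
  have hr1 : 1 ≤ r := le_max_right _ _
  obtain ⟨B, hB⟩ := (isCompact_closedBall (0 : E3) r).exists_bound_of_continuousOn hf.continuousOn
  have hB0 : 0 ≤ B := (norm_nonneg _).trans (hB 0 (by simp; linarith))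
  refine ⟨B * (1 + r) ^ p + |C| * 2 ^ p, by positivity, fun x => ?_⟩
  have hx1 : 0 < 1 + ‖x‖ := by positivity
  have hpos : 0 < (1 + ‖x‖) ^ (-p) := Real.rpow_pos_of_pos hx1 _
  rcases le_or_gt ‖x‖ r with hx | hx
  · have h1 : |f x| ≤ B := hB x (by simpa using hx)
    have h2 : 1 ≤ (1 + r) ^ p * (1 + ‖x‖) ^ (-p) := by
      rw [Real.rpow_neg hx1.le, ← div_eq_mul_inv, one_le_div (Real.rpow_pos_of_pos hx1 _)]
      exact Real.rpow_le_rpow hx1.le (by linarith) hp
    have h3 : 0 ≤ |C| * 2 ^ p * (1 + ‖x‖) ^ (-p) := by positivity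
    calc |f x| ≤ B * 1 := by rw [mul_one]; exact h1
      _ ≤ B * ((1 + r) ^ p * (1 + ‖x‖) ^ (-p)) := mul_le_mul_of_nonneg_left h2 hB0
      _ ≤ _ := by rw [add_mul, mul_assoc]; linarith
  · have hx0 : 0 < ‖x‖ := by linarith
    have h1 := h x ((le_max_left _ _).trans hx.le)
    have h2 : ‖x‖ ^ (-p) ≤ 2 ^ p * (1 + ‖x‖) ^ (-p) := by
      have h3 : (1 + ‖x‖) ^ p ≤ (2 * ‖x‖) ^ p := Real.rpow_le_rpow hx1.le (by linarith) hp
      rw [Real.mul_rpow (by norm_num) hx0.le] at h3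
      rw [Real.rpow_neg hx1.le, Real.rpow_neg hx0.le, ← div_eq_mul_inv,
        le_div_iff₀ (Real.rpow_pos_of_pos hx1 _), inv_mul_le_iff₀ (Real.rpow_pos_of_pos hx0 _)]
      linarith
    have h4 : 0 ≤ B * (1 + r) ^ p * (1 + ‖x‖) ^ (-p) := by positivity
    calc |f x| ≤ C * ‖x‖ ^ (-p) := h1
      _ ≤ |C| * ‖x‖ ^ (-p) := mul_le_mul_of_nonneg_right (le_abs_self C) (by positivity)
      _ ≤ |C| * (2 ^ p * (1 + ‖x‖) ^ (-p)) := mul_le_mul_of_nonneg_left h2 (abs_nonneg C)
      _ ≤ _ := by rw [add_mul, mul_assoc |C|]; linarith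

theorem af0_pd_smooth {f : E3 → ℝ} (hf : ContDiff ℝ ∞ f) (k : Fin 3) : ContDiff ℝ ∞ (pd k f) := by
  have h1 : ContDiff ℝ ∞ (fderiv ℝ f) := hf.fderiv_right (by simp)
  exact h1.clm_apply contDiff_const

theorem hh_decay {q : ℝ} {g : E3 → M3} (hq : 1 / 2 < q) (hg : AFMetric q g) :
    ∃ C, (∀ x i j, |hh g x i j| ≤ C * (1 + ‖x‖) ^ (-q)) ∧
    (∀ x i j k, |pd k (fun y => hh g y i j) x| ≤ C * (1 + ‖x‖) ^ (-q - 1)) ∧
    ∀ x i j k l, |pd l (pd k (fun y => hh g y i j)) x| ≤ C * (1 + ‖x‖) ^ (-q - 2) := by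
  obtain ⟨C, r₀, hC⟩ := hg.decay
  have hsm := af0_hh_smooth hg
  -- equality with `g` far out
  have heq : ∀ x : E3, 3 < ‖x‖ → ∀ i j, (fun y => hh g y i j) =ᶠ[𝓝 x] fun y => g y i j - dl i j := by
    intro x hx i j
    have h2 : ∀ᶠ y : E3 in 𝓝 x, 3 < ‖y‖ := continuous_norm.continuousAt.eventually_const_lt hx
    filter_upwards [h2] with y hy
    rw [hh, af0_eta_one hy.le, one_mul]
  have hpd : ∀ x : E3, 3 < ‖x‖ → ∀ i j k,
      pd k (fun y => hh g y i j) x = pd k (fun y => g y i j) x := by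
    intro x hx i j k
    rw [pd, pd, (heq x hx i j).fderiv_eq, fderiv_sub_const]
  have hpd2 : ∀ x : E3, 3 < ‖x‖ → ∀ i j k l,
      pd l (pd k (fun y => hh g y i j)) x = pd l (pd k (fun y => g y i j)) x := by
    intro x hx i j k l
    have h2 : ∀ᶠ y : E3 in 𝓝 x, 3 < ‖y‖ := continuous_norm.continuousAt.eventually_const_lt hx
    have h3 : pd k (fun y => hh g y i j) =ᶠ[𝓝 x] pd k (fun y => g y i j) := by
      filter_upwards [h2] with y hy
      exact hpd y hy i j k
    rw [pd, pd, h3.fderiv_eq]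
  have k0 : ∀ i j, ∃ C', 0 ≤ C' ∧ ∀ x, |hh g x i j| ≤ C' * (1 + ‖x‖) ^ (-q) := fun i j =>
    af0_bound (hsm i j).continuous (C := C) (r0 := max r₀ 4) (by linarith) fun x hx => by
      have hx3 : 3 < ‖x‖ := by have := (le_max_right r₀ 4).trans hx; linarith
      rw [(heq x hx3 i j).eq_of_nhds]
      exact (hC x ((le_max_left _ _).trans hx) i j).1
  have k1 : ∀ i j k, ∃ C', 0 ≤ C' ∧ ∀ x, |pd k (fun y => hh g y i j) x| ≤
      C' * (1 + ‖x‖) ^ (-(q + 1)) := fun i j k =>
    af0_bound (af0_pd_smooth (hsm i j) k).continuous (C := C) (r0 := max r₀ 4)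
      (by linarith) fun x hx => by
      have hx3 : 3 < ‖x‖ := by have := (le_max_right r₀ 4).trans hx; linarith
      rw [hpd x hx3, neg_add']
      exact (hC x ((le_max_left _ _).trans hx) i j).2.1 k
  have k2 : ∀ i j k l, ∃ C', 0 ≤ C' ∧ ∀ x, |pd l (pd k (fun y => hh g y i j)) x| ≤
      C' * (1 + ‖x‖) ^ (-(q + 2)) := fun i j k l =>
    af0_bound (af0_pd_smooth (af0_pd_smooth (hsm i j) k) l).continuous (C := C) (r0 := max r₀ 4)
      (by linarith) fun x hx => by
      have hx3 : 3 < ‖x‖ := by have := (le_max_right r₀ 4).trans hx; linarith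
      rw [hpd2 x hx3, neg_add']
      exact (hC x ((le_max_left _ _).trans hx) i j).2.2 k l
  choose c0 hc0 h0 using k0
  choose c1 hc1 h1 using k1
  choose c2 hc2 h2 using k2
  set S0 := ∑ i, ∑ j, c0 i j with hS0
  set S1 := ∑ i, ∑ j, ∑ k, c1 i j k with hS1
  set S2' := ∑ i, ∑ j, ∑ k, ∑ l, c2 i j k l with hS2
  have p0 : 0 ≤ S0 := Finset.sum_nonneg fun i _ => Finset.sum_nonneg fun j _ => hc0 i j
  have p1 : 0 ≤ S1 := Finset.sum_nonneg fun i _ => Finset.sum_nonneg fun j _ =>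
    Finset.sum_nonneg fun k _ => hc1 i j k
  have p2 : 0 ≤ S2' := Finset.sum_nonneg fun i _ => Finset.sum_nonneg fun j _ =>
    Finset.sum_nonneg fun k _ => Finset.sum_nonneg fun l _ => hc2 i j k l
  have m0 : ∀ i j, c0 i j ≤ S0 := fun i j =>
    (Finset.single_le_sum (f := fun j => c0 i j) (fun j _ => hc0 i j) (Finset.mem_univ j)).trans
      (Finset.single_le_sum (f := fun i => ∑ j, c0 i j)
        (fun i _ => Finset.sum_nonneg fun j _ => hc0 i j) (Finset.mem_univ i))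
  have m1 : ∀ i j k, c1 i j k ≤ S1 := fun i j k =>
    ((Finset.single_le_sum (f := fun k => c1 i j k) (fun k _ => hc1 i j k)
      (Finset.mem_univ k)).trans
      (Finset.single_le_sum (f := fun j => ∑ k, c1 i j k)
        (fun j _ => Finset.sum_nonneg fun k _ => hc1 i j k) (Finset.mem_univ j))).trans
      (Finset.single_le_sum (f := fun i => ∑ j, ∑ k, c1 i j k)
        (fun i _ => Finset.sum_nonneg fun j _ => Finset.sum_nonneg fun k _ => hc1 i j k)
        (Finset.mem_univ i))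
  have m2 : ∀ i j k l, c2 i j k l ≤ S2' := fun i j k l =>
    (((Finset.single_le_sum (f := fun l => c2 i j k l) (fun l _ => hc2 i j k l)
      (Finset.mem_univ l)).trans
      (Finset.single_le_sum (f := fun k => ∑ l, c2 i j k l)
        (fun k _ => Finset.sum_nonneg fun l _ => hc2 i j k l) (Finset.mem_univ k))).trans
      (Finset.single_le_sum (f := fun j => ∑ k, ∑ l, c2 i j k l)
        (fun j _ => Finset.sum_nonneg fun k _ => Finset.sum_nonneg fun l _ => hc2 i j k l)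
        (Finset.mem_univ j))).trans
      (Finset.single_le_sum (f := fun i => ∑ j, ∑ k, ∑ l, c2 i j k l)
        (fun i _ => Finset.sum_nonneg fun j _ => Finset.sum_nonneg fun k _ =>
          Finset.sum_nonneg fun l _ => hc2 i j k l) (Finset.mem_univ i))
  refine ⟨S0 + S1 + S2', fun x i j => ?_, fun x i j k => ?_, fun x i j k l => ?_⟩
  · refine (h0 i j x).trans (mul_le_mul_of_nonneg_right ?_ (by positivity))
    linarith [m0 i j]
  · rw [← neg_add']
    refine (h1 i j k x).trans (mul_le_mul_of_nonneg_right ?_ (by positivity))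
    linarith [m1 i j k]
  · rw [← neg_add']
    refine (h2 i j k l x).trans (mul_le_mul_of_nonneg_right ?_ (by positivity))
    linarith [m2 i j k l]

end

end Pool.Agent.BS
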