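import Pool.Agent.BS.Defs4

/-!
# Auxiliary estimates for module AFH
-/

namespace Pool.Agent.BS

open MeasureTheory Topology Set Filter
open scoped ContDiff

noncomputable section

section scale

variable {F : Type*} [NormedAddCommGroup F] [NormedSpace ℝ F]

/-- decay of a function and of its derivative -/
structure Dc1 (K p r₀ : ℝ) (f : E3 → F) : Prop where
  b0 : ∀ x, r₀ ≤ ‖x‖ → ‖f x‖ ≤ K * ‖x‖ ^ (-p)
  b1 : ∀ x, r₀ ≤ ‖x‖ → ‖fderiv ℝ f x‖ ≤ K * ‖x‖ ^ (-p - 1)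

theorem afh_low {b y : E3} {R : ℝ} (hR : 0 < R) (hb : ‖b‖ ≤ R / 8) (hy : 1 / 2 < ‖y‖) :
    3 / 4 * R * ‖y‖ ≤ ‖b + R • y‖ := by
  have h1 : ‖R • y‖ ≤ ‖b + R • y‖ + ‖b‖ := by
    calc ‖R • y‖ = ‖(b + R • y) - b‖ := by rw [add_sub_cancel_left]
      _ ≤ _ := norm_sub_le _ _
  rw [norm_smul, Real.norm_of_nonneg hR.le] at h1
  nlinarith

theorem afh_seg {b b' y z : E3} {R R' : ℝ} (hR : 0 < R) (hRR : R ≤ R') (hb : ‖b‖ ≤ R / 8)
    (hb' : ‖b'‖ ≤ R / 8) (hy : 1 / 2 < ‖y‖) (hz : z ∈ segment ℝ (b + R • y) (b' + R' • y)) :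
    3 / 4 * R * ‖y‖ ≤ ‖z‖ := by
  obtain ⟨s, t, hs, ht, hst, rfl⟩ := hz
  have h1 : s • (b + R • y) + t • (b' + R' • y) =
      (s • b + t • b') + (s * R + t * R') • y := by
    simp only [smul_add, smul_smul, add_smul]; abel
  have hRs : R ≤ s * R + t * R' := by
    have : t * R ≤ t * R' := mul_le_mul_of_nonneg_left hRR ht
    have h2 : s * R + t * R = R := by rw [← add_mul, hst, one_mul]
    linarith
  have hbs : ‖s • b + t • b'‖ ≤ (s * R + t * R') / 8 := by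
    have h2 : ‖s • b + t • b'‖ ≤ s * (R / 8) + t * (R / 8) := by
      refine (norm_add_le _ _).trans ?_
      rw [norm_smul, norm_smul, Real.norm_of_nonneg hs, Real.norm_of_nonneg ht]
      exact add_le_add (mul_le_mul_of_nonneg_left hb hs) (mul_le_mul_of_nonneg_left hb' ht)
    have h3 : s * (R / 8) + t * (R / 8) = R / 8 := by rw [← add_mul, hst, one_mul]
    linarith
  rw [h1]
  refine le_trans ?_ (afh_low (by linarith) hbs hy)
  have := norm_nonneg y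
  nlinarith

theorem afh_ns {G : Type*} [NormedAddCommGroup G] [NormedSpace ℝ G] {R : ℝ} (hR : 0 ≤ R) (L : G) :
    ‖R • (R • L)‖ = R * (R * ‖L‖) := by
  rw [norm_smul, norm_smul, Real.norm_of_nonneg hR]

theorem afh_rpow {m x a : ℝ} (hm : 0 < m) (hx : m ≤ x) (ha : a ≤ 0) : x ^ a ≤ m ^ a :=
  Real.rpow_le_rpow_of_nonpos hm hx ha

/-- mean value estimate for the difference of two scaled functions -/
theorem afh_diff {f : E3 → F} (hf : Differentiable ℝ f) {K p r₀ : ℝ} (hK : 0 ≤ K)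
    (hp : 0 < p) (h : ∀ x, r₀ ≤ ‖x‖ → ‖fderiv ℝ f x‖ ≤ K * ‖x‖ ^ (-p - 1)) {R R' : ℝ} {b b' y : E3}
    (hR : 0 < R) (hr : r₀ ≤ 3 / 8 * R) (hRR : R ≤ R') (hb : ‖b‖ ≤ R / 8)
    (hb' : ‖b'‖ ≤ R / 8) (hy : 1 / 2 < ‖y‖) :
    ‖f (b + R • y) - f (b' + R' • y)‖ ≤
      8 / 3 * K * (3 / 4 * R * ‖y‖) ^ (-p) * ((‖b - b'‖ + (R' - R)) / R) := by
  set m := 3 / 4 * R * ‖y‖ with hm
  have hm0 : 0 < m := by positivity
  have hmr : r₀ ≤ m := by
    refine hr.trans ?_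
    rw [hm]; nlinarith
  have hseg : ∀ z ∈ segment ℝ (b + R • y) (b' + R' • y), ‖fderiv ℝ f z‖ ≤ K * m ^ (-p - 1) := by
    intro z hz
    have h1 := afh_seg hR hRR hb hb' hy hz
    refine (h z (hmr.trans h1)).trans (mul_le_mul_of_nonneg_left ?_ hK)
    exact afh_rpow hm0 h1 (by linarith)
  have h2 := (convex_segment (b + R • y) (b' + R' • y)).norm_image_sub_le_of_norm_fderiv_le
    (fun z _ => hf z) hseg (right_mem_segment ℝ _ _) (left_mem_segment ℝ _ _)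
  have hd : ‖b + R • y - (b' + R' • y)‖ ≤ 2 * ‖y‖ * (‖b - b'‖ + (R' - R)) := by
    have h3 : b + R • y - (b' + R' • y) = (b - b') - (R' - R) • y := by
      rw [sub_smul]; abel
    rw [h3]
    refine (norm_sub_le _ _).trans ?_
    rw [norm_smul, Real.norm_of_nonneg (by linarith)]
    have h4 := norm_nonneg (b - b')
    nlinarith
  refine h2.trans ?_
  have h5 : m ^ (-p - 1) = m ^ (-p) / m := Real.rpow_sub_one hm0.ne' _
  have h6 : 0 ≤ m ^ (-p) := Real.rpow_nonneg hm0.le _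
  calc K * m ^ (-p - 1) * ‖b + R • y - (b' + R' • y)‖
      ≤ K * m ^ (-p - 1) * (2 * ‖y‖ * (‖b - b'‖ + (R' - R))) :=
        mul_le_mul_of_nonneg_left hd (mul_nonneg hK (Real.rpow_nonneg hm0.le _))
    _ = 8 / 3 * K * m ^ (-p) * ((‖b - b'‖ + (R' - R)) / R) := by
        rw [h5, hm]
        have hy0 : ‖y‖ ≠ 0 := by positivity
        field_simp
        ring

theorem afh_m {R : ℝ} {y : E3} {p : ℝ} (hR : 0 < R) (hy : 1 / 2 < ‖y‖) (hp : 0 < p) :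
    (3 / 4 * R * ‖y‖) ^ (-p) ≤ (3 / 8 : ℝ) ^ (-p) * R ^ (-p) := by
  rw [← Real.mul_rpow (by norm_num) hR.le]
  exact afh_rpow (by positivity) (by nlinarith) (by linarith)

theorem afh_fderiv {f : E3 → F} (hf : Differentiable ℝ f) (b : E3) (R : ℝ) (y : E3) :
    HasFDerivAt (fun y => f (b + R • y)) (R • fderiv ℝ f (b + R • y)) y := by
  have h1 : HasFDerivAt (fun y : E3 => b + R • y) (R • ContinuousLinearMap.id ℝ E3) y :=
    ((hasFDerivAt_id y).const_smul R).const_add b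
  have h2 := (hf (b + R • y)).hasFDerivAt.comp y h1
  have e : R • fderiv ℝ f (b + R • y) =
      (fderiv ℝ f (b + R • y)).comp (R • ContinuousLinearMap.id ℝ E3) := by
    ext v
    simp
  rw [e]
  exact h2

theorem afh_D2 {f : E3 → F} (hf : Differentiable ℝ f) (hf' : Differentiable ℝ (fderiv ℝ f))
    (b : E3) (R : ℝ) (y : E3) :
    fderiv ℝ (fderiv ℝ (fun y => f (b + R • y))) y =
      R • (R • fderiv ℝ (fderiv ℝ f) (b + R • y)) := by
  have h1 : fderiv ℝ (fun y => f (b + R • y)) = fun y => R • fderiv ℝ f (b + R • y) := by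
    funext z
    exact (afh_fderiv hf b R z).fderiv
  rw [h1]
  exact ((afh_fderiv hf' b R y).const_smul R).fderiv

end scale

/-- scale invariant bounds of a decaying function -/
theorem afh_SB2 {f : E3 → ℝ} (hf : ContDiff ℝ ∞ f) {K p r₀ : ℝ} (hK : 0 ≤ K)
    (hp : 0 < p) (h1 : Dc1 K p r₀ f) (h2 : Dc1 K (p + 1) r₀ (fderiv ℝ f)) {R : ℝ} {b : E3}
    (hR : 0 < R) (hr : r₀ ≤ 3 / 8 * R) (hb : ‖b‖ ≤ R / 8) :
    SB2 (16 / 9 * K * (3 / 8 : ℝ) ^ (-p) * R ^ (-p)) (fun y => f (b + R • y)) := by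
  have hfd : Differentiable ℝ f := hf.differentiable (by simp)
  have hf2 : ContDiff ℝ ∞ (fderiv ℝ f) := hf.fderiv_right (by simp)
  have hfd2 : Differentiable ℝ (fderiv ℝ f) := hf2.differentiable (by simp)
  have key : ∀ y : E3, 1 / 2 < ‖y‖ → r₀ ≤ ‖b + R • y‖ ∧ 0 < 3 / 4 * R * ‖y‖ ∧
      3 / 4 * R * ‖y‖ ≤ ‖b + R • y‖ ∧
      ‖b + R • y‖ ^ (-p) ≤ (3 / 8 : ℝ) ^ (-p) * R ^ (-p) := by
    intro y hy
    have hm := afh_low hR hb hy
    have hm0 : 0 < 3 / 4 * R * ‖y‖ := by positivity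
    refine ⟨?_, hm0, hm, (afh_rpow hm0 hm (by linarith)).trans (afh_m hR hy hp)⟩
    refine hr.trans (le_trans ?_ hm)
    nlinarith
  have hpos : 0 ≤ K * ((3 / 8 : ℝ) ^ (-p) * R ^ (-p)) := by positivity
  refine ⟨?_, ?_, ?_, ?_⟩
  · have : ContDiff ℝ ∞ (fun y : E3 => f (b + R • y)) :=
      hf.comp (contDiff_const.add (contDiff_id.const_smul R))
    have h2' : ContDiff ℝ 2 (fun y : E3 => f (b + R • y)) := by
      exact_mod_cast contDiff_infty.1 this 2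
    exact h2'.contDiffOn
  · intro y hy
    obtain ⟨a1, a2, a3, a4⟩ := key y hy
    have h3 := h1.b0 _ a1
    rw [Real.norm_eq_abs] at h3
    refine h3.trans ((mul_le_mul_of_nonneg_left a4 hK).trans ?_)
    linarith
  · intro y hy
    obtain ⟨a1, a2, a3, a4⟩ := key y hy
    rw [(afh_fderiv hfd b R y).fderiv, norm_smul, Real.norm_of_nonneg hR.le]
    have h3 := h1.b1 _ a1
    set X := ‖b + R • y‖ with hX
    have hX0 : 0 < X := lt_of_lt_of_le a2 a3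
    have h5 : X ^ (-p - 1) = X ^ (-p) / X := Real.rpow_sub_one hX0.ne' _
    have h6 : 0 ≤ X ^ (-p) := Real.rpow_nonneg hX0.le _
    rw [h5] at h3
    have h7 : ‖y‖ * R / X ≤ 4 / 3 := by
      rw [div_le_iff₀ hX0]; linarith
    calc ‖y‖ * (R * ‖fderiv ℝ f (b + R • y)‖) ≤ ‖y‖ * (R * (K * (X ^ (-p) / X))) := by gcongr
      _ = (‖y‖ * R / X) * (K * X ^ (-p)) := by ring
      _ ≤ 4 / 3 * (K * ((3 / 8 : ℝ) ^ (-p) * R ^ (-p))) := by gcongr
      _ ≤ 16 / 9 * K * (3 / 8 : ℝ) ^ (-p) * R ^ (-p) := by linarith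
  · intro y hy
    obtain ⟨a1, a2, a3, a4⟩ := key y hy
    have hns : ‖fderiv ℝ (fderiv ℝ (fun y => f (b + R • y))) y‖ =
        R * (R * ‖fderiv ℝ (fderiv ℝ f) (b + R • y)‖) := by
      rw [afh_D2 hfd hfd2]
      exact afh_ns (G := E3 →L[ℝ] E3 →L[ℝ] ℝ) hR.le _
    rw [hns]
    have h3 := h2.b1 _ a1
    set X := ‖b + R • y‖ with hX
    have hX0 : 0 < X := lt_of_lt_of_le a2 a3
    have h5 : X ^ (-(p + 1) - 1) = X ^ (-p) / X / X := by
      rw [Real.rpow_sub_one hX0.ne']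
      congr 1
      rw [← Real.rpow_sub_one hX0.ne']
      congr 1; ring
    have h6 : 0 ≤ X ^ (-p) := Real.rpow_nonneg hX0.le _
    rw [h5] at h3
    have h7 : ‖y‖ * R / X ≤ 4 / 3 := by
      rw [div_le_iff₀ hX0]; linarith
    have h8 : 0 ≤ ‖y‖ * R / X := by positivity
    calc ‖y‖ ^ 2 * (R * (R * ‖fderiv ℝ (fderiv ℝ f) (b + R • y)‖))
        ≤ ‖y‖ ^ 2 * (R * (R * (K * (X ^ (-p) / X / X)))) := by gcongr
      _ = (‖y‖ * R / X) ^ 2 * (K * X ^ (-p)) := by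
          field_simp
      _ ≤ (4 / 3) ^ 2 * (K * ((3 / 8 : ℝ) ^ (-p) * R ^ (-p))) := by gcongr
      _ = 16 / 9 * K * (3 / 8 : ℝ) ^ (-p) * R ^ (-p) := by ring

/-- scale invariant `C^1` bound of the difference -/
theorem afh_SB1 {f : E3 → ℝ} (hf : ContDiff ℝ ∞ f) {K p r₀ : ℝ} (hK : 0 ≤ K)
    (hp : 0 < p) (h1 : Dc1 K p r₀ f) (h2 : Dc1 K (p + 1) r₀ (fderiv ℝ f)) {R R' : ℝ} {b b' : E3}
    (hR : 0 < R) (hr : r₀ ≤ 3 / 8 * R) (hRR : R ≤ R') (hR2 : R' ≤ 2 * R) (hb : ‖b‖ ≤ R / 8)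
    (hb' : ‖b'‖ ≤ R / 8) :
    SB1 (10 * K * (3 / 8 : ℝ) ^ (-p) * R ^ (-p) * ((‖b - b'‖ + (R' - R)) / R))
      (fun y => f (b + R • y) - f (b' + R' • y)) := by
  have hfd : Differentiable ℝ f := hf.differentiable (by simp)
  have hf2 : ContDiff ℝ ∞ (fderiv ℝ f) := hf.fderiv_right (by simp)
  have hfd2 : Differentiable ℝ (fderiv ℝ f) := hf2.differentiable (by simp)
  have hR'0 : 0 < R' := by linarith
  have hΔ : 0 ≤ (‖b - b'‖ + (R' - R)) / R := by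
    have := norm_nonneg (b - b')
    exact div_nonneg (by linarith) hR.le
  set Δ := (‖b - b'‖ + (R' - R)) / R with hΔd
  refine ⟨?_, ?_, ?_⟩
  · have e1 : ContDiff ℝ ∞ (fun y : E3 => f (b + R • y)) :=
      hf.comp (contDiff_const.add (contDiff_id.const_smul R))
    have e2 : ContDiff ℝ ∞ (fun y : E3 => f (b' + R' • y)) :=
      hf.comp (contDiff_const.add (contDiff_id.const_smul R'))
    have h2' : ContDiff ℝ 1 (fun y : E3 => f (b + R • y) - f (b' + R' • y)) := by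
      exact_mod_cast contDiff_infty.1 (e1.sub e2) 1
    exact h2'.contDiffOn
  · intro y hy
    have h3 := afh_diff hfd hK hp h1.b1 hR hr hRR hb hb' hy
    rw [Real.norm_eq_abs] at h3
    refine h3.trans ?_
    have h4 := afh_m hR hy hp
    have h5 : 0 ≤ (3 / 8 : ℝ) ^ (-p) * R ^ (-p) := by positivity
    calc 8 / 3 * K * (3 / 4 * R * ‖y‖) ^ (-p) * Δ
        ≤ 8 / 3 * K * ((3 / 8 : ℝ) ^ (-p) * R ^ (-p)) * Δ := by gcongr
      _ ≤ 10 * K * ((3 / 8 : ℝ) ^ (-p) * R ^ (-p)) * Δ := by gcongr; norm_num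
      _ = _ := by ring
  · intro y hy
    have hm0 : 0 < 3 / 4 * R * ‖y‖ := by positivity
    have hm := afh_low hR hb hy
    have hmr : r₀ ≤ 3 / 4 * R * ‖y‖ := by
      refine hr.trans ?_
      nlinarith
    have hd : fderiv ℝ (fun y => f (b + R • y) - f (b' + R' • y)) y =
        R • fderiv ℝ f (b + R • y) - R' • fderiv ℝ f (b' + R' • y) :=
      ((afh_fderiv hfd b R y).sub (afh_fderiv hfd b' R' y)).fderiv
    rw [hd]
    have h3 := afh_diff hfd2 hK (by linarith : (0 : ℝ) < p + 1) h2.b1 hR hr hRR hb hb' hy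
    have h4 := h1.b1 _ (hmr.trans hm)
    set m := 3 / 4 * R * ‖y‖ with hmd
    have h5 : ‖b + R • y‖ ^ (-p - 1) ≤ m ^ (-p - 1) := afh_rpow hm0 hm (by linarith)
    have h6 : m ^ (-p - 1) = m ^ (-p) / m := Real.rpow_sub_one hm0.ne' _
    have h6' : m ^ (-(p + 1)) = m ^ (-p) / m := by rw [← h6]; congr 1; ring
    have h7 : 0 ≤ m ^ (-p) := Real.rpow_nonneg hm0.le _
    have h8 : m ^ (-p) ≤ (3 / 8 : ℝ) ^ (-p) * R ^ (-p) := afh_m hR hy hp
    have h9 : ‖y‖ / m = 4 / (3 * R) := by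
      rw [hmd]
      have hy0 : ‖y‖ ≠ 0 := by positivity
      field_simp
    rw [h6'] at h3
    rw [h6] at h5
    have e : R • fderiv ℝ f (b + R • y) - R' • fderiv ℝ f (b' + R' • y) =
        (-(R' - R)) • fderiv ℝ f (b + R • y) +
          R' • (fderiv ℝ f (b + R • y) - fderiv ℝ f (b' + R' • y)) := by
      rw [smul_sub, neg_smul, sub_smul]; abel
    have hnorm : ‖R • fderiv ℝ f (b + R • y) - R' • fderiv ℝ f (b' + R' • y)‖ ≤
        (R' - R) * (K * (m ^ (-p) / m)) + R' * (8 / 3 * K * (m ^ (-p) / m) * Δ) := by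
      rw [e]
      refine (norm_add_le _ _).trans ?_
      rw [norm_smul, norm_smul, norm_neg, Real.norm_of_nonneg (by linarith : 0 ≤ R' - R),
        Real.norm_of_nonneg hR'0.le]
      refine add_le_add ?_ ?_
      · refine mul_le_mul_of_nonneg_left (h4.trans (mul_le_mul_of_nonneg_left h5 hK)) (by linarith)
      · exact mul_le_mul_of_nonneg_left h3 hR'0.le
    have hRΔ : (R' - R) ≤ R * Δ := by
      rw [hΔd, mul_div_cancel₀ _ hR.ne']
      have := norm_nonneg (b - b')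
      linarith
    calc ‖y‖ * ‖R • fderiv ℝ f (b + R • y) - R' • fderiv ℝ f (b' + R' • y)‖
        ≤ ‖y‖ * ((R' - R) * (K * (m ^ (-p) / m)) + R' * (8 / 3 * K * (m ^ (-p) / m) * Δ)) := by
          gcongr
      _ = (‖y‖ / m) * ((R' - R) * (K * m ^ (-p)) + R' * (8 / 3 * K * m ^ (-p) * Δ)) := by ring
      _ ≤ (‖y‖ / m) * ((R * Δ) * (K * m ^ (-p)) + (2 * R) * (8 / 3 * K * m ^ (-p) * Δ)) := by
          have : 0 ≤ ‖y‖ / m := by positivity
          gcongr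
      _ = (4 / 3 + 64 / 9) * K * Δ * m ^ (-p) := by
          rw [h9]; field_simp; ring
      _ ≤ (4 / 3 + 64 / 9) * K * Δ * ((3 / 8 : ℝ) ^ (-p) * R ^ (-p)) := by gcongr
      _ ≤ 10 * K * Δ * ((3 / 8 : ℝ) ^ (-p) * R ^ (-p)) := by
          have : 0 ≤ K * Δ * ((3 / 8 : ℝ) ^ (-p) * R ^ (-p)) := by positivity
          nlinarith
      _ = _ := by ring

/-! ### The coefficient map near zero -/

/-- the coefficient map `h ↦ √det(1+h) (1+h)⁻¹ - 1` -/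
def afn (h : M3) : M3 := fun i j =>
  Real.sqrt (det3 (fun i j => dl i j + h i j)) *
    (Matrix.of (fun i j => dl i j + h i j) : Matrix (Fin 3) (Fin 3) ℝ)⁻¹ i j - dl i j

theorem HA_eq_afn (g : E3 → M3) (x : E3) : HA g x = afn (hh g x) := rfl

theorem afn_det_poly (h : M3) : ∃ c2 c3 : ℝ, ∀ t : ℝ,
    det3 (fun i j => dl i j + (t • h) i j) = 1 + tr3 h * t + c2 * t ^ 2 + c3 * t ^ 3 := by
  refine ⟨h 0 0 * h 1 1 + h 0 0 * h 2 2 + h 1 1 * h 2 2 - h 0 1 * h 1 0 - h 0 2 * h 2 0 -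
    h 1 2 * h 2 1, det3 h, fun t => ?_⟩
  simp only [det3, Matrix.det_fin_three, Matrix.of_apply, tr3, Fin.sum_univ_three, dl,
    Pi.smul_apply, smul_eq_mul]
  simp
  ring

theorem afn_adj_poly (h : M3) (i j : Fin 3) : ∃ c2 : ℝ, ∀ t : ℝ,
    (Matrix.of (fun i j => dl i j + (t • h) i j) : Matrix (Fin 3) (Fin 3) ℝ).adjugate i j =
      dl i j + (tr3 h * dl i j - h i j) * t + c2 * t ^ 2 := by
  refine ⟨(Matrix.of h : Matrix (Fin 3) (Fin 3) ℝ).adjugate i j, fun t => ?_⟩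
  rw [Matrix.adjugate_fin_three, Matrix.adjugate_fin_three]
  fin_cases i <;> fin_cases j <;>
    simp [tr3, Fin.sum_univ_three, dl] <;> ring

theorem afn_inv (a : M3) (i j : Fin 3) :
    (Matrix.of a : Matrix (Fin 3) (Fin 3) ℝ)⁻¹ i j =
      (det3 a)⁻¹ * (Matrix.of a : Matrix (Fin 3) (Fin 3) ℝ).adjugate i j := by
  rw [Matrix.inv_def, Ring.inverse_eq_inv', Matrix.smul_apply, smul_eq_mul]
  rfl

theorem afn_det_smooth : ContDiff ℝ ∞ (fun h : M3 => det3 (fun i j => dl i j + h i j)) := by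
  simp only [det3, Matrix.det_fin_three, Matrix.of_apply]
  fun_prop

theorem afn_adj_smooth (i j : Fin 3) : ContDiff ℝ ∞ (fun h : M3 =>
    (Matrix.of (fun i j => dl i j + h i j) : Matrix (Fin 3) (Fin 3) ℝ).adjugate i j) := by
  simp only [Matrix.adjugate_fin_three]
  fin_cases i <;> fin_cases j <;> simp <;> fun_prop

theorem afn_det_zero : det3 (fun i j => dl i j + (0 : M3) i j) = 1 := by
  simp [det3, Matrix.det_fin_three, dl]

theorem afn_zero (i j : Fin 3) : afn 0 i j = 0 := by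
  unfold afn
  rw [afn_inv, afn_det_zero]
  obtain ⟨c2, hc⟩ := afn_adj_poly 0 i j
  have := hc 0
  simp only [smul_zero] at this
  rw [this]
  simp

theorem afn_contDiffAt (i j : Fin 3) : ContDiffAt ℝ ∞ (fun h : M3 => afn h i j) 0 := by
  unfold afn
  have h1 := afn_det_smooth.contDiffAt (x := (0 : M3))
  have h2 := (afn_adj_smooth i j).contDiffAt (x := (0 : M3))
  have h0 : det3 (fun i j => dl i j + (0 : M3) i j) ≠ 0 := by rw [afn_det_zero]; norm_num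
  simp only [afn_inv]
  exact ((h1.sqrt h0).mul ((h1.inv h0).mul h2)).sub contDiffAt_const

theorem afn_fderiv (i j : Fin 3) (h : M3) :
    fderiv ℝ (fun h : M3 => afn h i j) 0 h = (1 / 2) * tr3 h * dl i j - h i j := by
  have hd : DifferentiableAt ℝ (fun h : M3 => afn h i j) 0 :=
    (afn_contDiffAt i j).differentiableAt (by simp)
  have hl : HasDerivAt (fun t : ℝ => t • h) h 0 := by
    simpa using (hasDerivAt_id (0 : ℝ)).smul_const h
  have h1 : HasDerivAt (fun t : ℝ => afn (t • h) i j)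
      (fderiv ℝ (fun h : M3 => afn h i j) 0 h) 0 := by
    have h2 : HasFDerivAt (fun h : M3 => afn h i j) (fderiv ℝ (fun h : M3 => afn h i j) 0)
        ((0 : ℝ) • h) := by
      rw [zero_smul]; exact hd.hasFDerivAt
    exact h2.comp_hasDerivAt 0 hl
  obtain ⟨c2, c3, hD⟩ := afn_det_poly h
  obtain ⟨d2, hA⟩ := afn_adj_poly h i j
  have hDd : HasDerivAt (fun t : ℝ => 1 + tr3 h * t + c2 * t ^ 2 + c3 * t ^ 3) (tr3 h) 0 := by
    have := ((((hasDerivAt_id (0 : ℝ)).const_mul (tr3 h)).const_add 1).add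
      ((hasDerivAt_pow 2 (0 : ℝ)).const_mul c2)).add ((hasDerivAt_pow 3 (0 : ℝ)).const_mul c3)
    exact this.congr_deriv (by simp)
  have hAd : HasDerivAt (fun t : ℝ => dl i j + (tr3 h * dl i j - h i j) * t + d2 * t ^ 2)
      (tr3 h * dl i j - h i j) 0 := by
    have := (((hasDerivAt_id (0 : ℝ)).const_mul (tr3 h * dl i j - h i j)).const_add (dl i j)).add
      ((hasDerivAt_pow 2 (0 : ℝ)).const_mul d2)
    exact this.congr_deriv (by simp)
  have h3 : HasDerivAt (fun t : ℝ => afn (t • h) i j)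
      ((1 / 2) * tr3 h * dl i j - h i j) 0 := by
    have e : (fun t : ℝ => afn (t • h) i j) = fun t : ℝ =>
        Real.sqrt (1 + tr3 h * t + c2 * t ^ 2 + c3 * t ^ 3) *
          ((1 + tr3 h * t + c2 * t ^ 2 + c3 * t ^ 3)⁻¹ *
            (dl i j + (tr3 h * dl i j - h i j) * t + d2 * t ^ 2)) - dl i j := by
      funext t
      unfold afn
      rw [afn_inv, hD t, hA t]
    rw [e]
    have hne : (1 + tr3 h * (0 : ℝ) + c2 * 0 ^ 2 + c3 * 0 ^ 3) ≠ 0 := by norm_num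
    have h4 := ((hDd.sqrt hne).mul ((hDd.inv hne).mul hAd)).sub_const (dl i j)
    refine h4.congr_deriv ?_
    simp
    ring
  exact h1.unique h3

/-! ### Estimates for functions near zero and their compositions -/

theorem afh_phi {V : Type*} [NormedAddCommGroup V] [NormedSpace ℝ V] {φ : V → ℝ}
    (hφ : ContDiffAt ℝ ∞ φ 0) (h0 : φ 0 = 0) : ∃ ρ K : ℝ, 0 < ρ ∧ 0 < K ∧ ∀ v, ‖v‖ < ρ →
      DifferentiableAt ℝ φ v ∧ DifferentiableAt ℝ (fderiv ℝ φ) v ∧ ‖fderiv ℝ φ v‖ ≤ K ∧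
      ‖fderiv ℝ (fderiv ℝ φ) v‖ ≤ K ∧ ‖φ v‖ ≤ K * ‖v‖ ∧
      ‖fderiv ℝ φ v - fderiv ℝ φ 0‖ ≤ K * ‖v‖ ∧ ‖φ v - fderiv ℝ φ 0 v‖ ≤ K * ‖v‖ ^ 2 := by
  have h3 : ContDiffAt ℝ 3 φ 0 := by exact_mod_cast contDiffAt_infty.1 hφ 3
  have hev3 : ∀ᶠ v in 𝓝 (0 : V), ContDiffAt ℝ 3 φ v := h3.eventually (by decide)
  have hd1 : ContDiffAt ℝ 2 (fderiv ℝ φ) 0 := h3.fderiv_right (by norm_num)
  have hd2 : ContDiffAt ℝ 1 (fderiv ℝ (fderiv ℝ φ)) 0 := hd1.fderiv_right (by norm_num)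
  have hc2 : ContinuousAt (fun v => ‖fderiv ℝ (fderiv ℝ φ) v‖) 0 :=
    ContinuousAt.norm (E := V →L[ℝ] V →L[ℝ] ℝ) hd2.continuousAt
  have hev2 : ∀ᶠ v in 𝓝 (0 : V), ‖fderiv ℝ (fderiv ℝ φ) v‖ < ‖fderiv ℝ (fderiv ℝ φ) 0‖ + 1 :=
    hc2.eventually_lt_const (by linarith)
  obtain ⟨ρ, hρ, hball⟩ := Metric.eventually_nhds_iff_ball.1 (hev3.and hev2)
  set K1 := ‖fderiv ℝ (fderiv ℝ φ) 0‖ + 1 with hK1
  have hK1p : 0 < K1 := by positivity
  set K2 := ‖fderiv ℝ φ 0‖ + K1 * ρ with hK2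
  have hK2n : 0 ≤ K2 := by positivity
  have hmem : ∀ v : V, ‖v‖ < ρ → v ∈ Metric.ball (0 : V) ρ := fun v hv => by
    rwa [mem_ball_zero_iff]
  have hzero : (0 : V) ∈ Metric.ball (0 : V) ρ := Metric.mem_ball_self hρ
  have hdf : ∀ v ∈ Metric.ball (0 : V) ρ, DifferentiableAt ℝ φ v := fun v hv =>
    (hball v hv).1.differentiableAt (by norm_num)
  have hdf2 : ∀ v ∈ Metric.ball (0 : V) ρ, DifferentiableAt ℝ (fderiv ℝ φ) v := fun v hv =>
    ((hball v hv).1.fderiv_right (m := 2) (by norm_num)).differentiableAt (by norm_num)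
  have hlip : ∀ v ∈ Metric.ball (0 : V) ρ, ‖fderiv ℝ φ v - fderiv ℝ φ 0‖ ≤ K1 * ‖v‖ := by
    intro v hv
    have := (convex_ball (0 : V) ρ).norm_image_sub_le_of_norm_fderiv_le hdf2
      (fun z hz => (hball z hz).2.le) hzero hv
    simpa using this
  have hb1 : ∀ v ∈ Metric.ball (0 : V) ρ, ‖fderiv ℝ φ v‖ ≤ K2 := by
    intro v hv
    have h1 := hlip v hv
    have h2 : ‖fderiv ℝ φ v‖ ≤ ‖fderiv ℝ φ v - fderiv ℝ φ 0‖ + ‖fderiv ℝ φ 0‖ := by
      simpa using norm_add_le (fderiv ℝ φ v - fderiv ℝ φ 0) (fderiv ℝ φ 0)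
    have h3 : ‖v‖ < ρ := by rwa [mem_ball_zero_iff] at hv
    have h4 : K1 * ‖v‖ ≤ K1 * ρ := mul_le_mul_of_nonneg_left h3.le hK1p.le
    rw [hK2]; linarith
  refine ⟨ρ, K1 + K2, hρ, by positivity, fun v hv => ?_⟩
  have hv' := hmem v hv
  have hvn := norm_nonneg v
  refine ⟨hdf v hv', hdf2 v hv', (hb1 v hv').trans (by linarith),
    (hball v hv').2.le.trans (by linarith), ?_, ?_, ?_⟩
  · have := (convex_ball (0 : V) ρ).norm_image_sub_le_of_norm_fderiv_le hdf hb1 hzero hv'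
    rw [h0, sub_zero, sub_zero] at this
    nlinarith
  · have := hlip v hv'
    nlinarith
  · -- on the ball of radius `‖v‖`
    have hsub : Metric.closedBall (0 : V) ‖v‖ ⊆ Metric.ball (0 : V) ρ :=
      Metric.closedBall_subset_ball hv
    have hF : ∀ z ∈ Metric.closedBall (0 : V) ‖v‖,
        HasFDerivWithinAt (fun z => φ z - fderiv ℝ φ 0 z) (fderiv ℝ φ z - fderiv ℝ φ 0)
          (Metric.closedBall (0 : V) ‖v‖) z := fun z hz =>
      ((hdf z (hsub hz)).hasFDerivAt.sub (fderiv ℝ φ 0).hasFDerivAt).hasFDerivWithinAt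
    have hbd : ∀ z ∈ Metric.closedBall (0 : V) ‖v‖, ‖fderiv ℝ φ z - fderiv ℝ φ 0‖ ≤ K1 * ‖v‖ := by
      intro z hz
      refine (hlip z (hsub hz)).trans (mul_le_mul_of_nonneg_left ?_ hK1p.le)
      rwa [mem_closedBall_zero_iff] at hz
    have := (convex_closedBall (0 : V) ‖v‖).norm_image_sub_le_of_norm_hasFDerivWithin_le hF hbd
      (Metric.mem_closedBall_self hvn) (by rw [mem_closedBall_zero_iff] : v ∈ _)
    simp only [h0, map_zero, sub_zero] at this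
    have h5 : K1 * ‖v‖ * ‖v‖ = K1 * ‖v‖ ^ 2 := by ring
    rw [h5] at this
    nlinarith [sq_nonneg ‖v‖]

/-! ### Operator norms in terms of components -/

theorem afh_expand {G : Type*} [NormedAddCommGroup G] [NormedSpace ℝ G] (L : E3 →L[ℝ] G)
    (v : E3) : L v = ∑ k, v k • L (bv k) := by
  have h : v = ∑ k, v k • bv k := by
    ext i
    fin_cases i <;> simp [bv, Fin.sum_univ_three]
  conv_lhs => rw [h]
  simp [map_sum]

theorem afh_comp_le (v : E3) (k : Fin 3) : |v k| ≤ ‖v‖ := by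
  have := PiLp.norm_apply_le v k
  rwa [Real.norm_eq_abs] at this

theorem afh_op {G : Type*} [NormedAddCommGroup G] [NormedSpace ℝ G] (L : E3 →L[ℝ] G) {B : ℝ}
    (hB : 0 ≤ B) (h : ∀ k, ‖L (bv k)‖ ≤ B) : ‖L‖ ≤ 3 * B := by
  refine ContinuousLinearMap.opNorm_le_bound _ (by positivity) (fun v => ?_)
  rw [afh_expand L v]
  refine (norm_sum_le _ _).trans ?_
  have : ∀ k, ‖v k • L (bv k)‖ ≤ ‖v‖ * B := fun k => by
    rw [norm_smul, Real.norm_eq_abs]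
    exact mul_le_mul (afh_comp_le v k) (h k) (norm_nonneg _) (norm_nonneg _)
  calc ∑ k, ‖v k • L (bv k)‖ ≤ ∑ _k : Fin 3, ‖v‖ * B := Finset.sum_le_sum (fun k _ => this k)
    _ = 3 * B * ‖v‖ := by simp; ring

theorem afh_M3_norm {a : M3} {B : ℝ} (hB : 0 ≤ B) (h : ∀ i j, |a i j| ≤ B) : ‖a‖ ≤ B := by
  rw [pi_norm_le_iff_of_nonneg hB]
  intro i
  rw [pi_norm_le_iff_of_nonneg hB]
  intro j
  rw [Real.norm_eq_abs]
  exact h i j

/-- the projection to a component -/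
def prM (i j : Fin 3) : M3 →L[ℝ] ℝ :=
  (ContinuousLinearMap.proj (R := ℝ) (φ := fun _ : Fin 3 => ℝ) j).comp
    (ContinuousLinearMap.proj (R := ℝ) (φ := fun _ : Fin 3 => Fin 3 → ℝ) i)

theorem prM_apply (i j : Fin 3) (a : M3) : prM i j a = a i j := rfl

theorem afh_contDiff {h : E3 → M3} (hh : ∀ i j, ContDiff ℝ ∞ (fun x => h x i j)) :
    ContDiff ℝ ∞ h := contDiff_pi.2 (fun i => contDiff_pi.2 (fun j => hh i j))

theorem afh_pd {h : E3 → M3} (hd : Differentiable ℝ h) (x v : E3) (i j : Fin 3) :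
    (fderiv ℝ h x v) i j = fderiv ℝ (fun y => h y i j) x v := by
  have h1 : HasFDerivAt (fun y => prM i j (h y)) ((prM i j).comp (fderiv ℝ h x)) x :=
    (prM i j).hasFDerivAt.comp x (hd x).hasFDerivAt
  have h2 : (fun y => prM i j (h y)) = fun y => h y i j := rfl
  rw [h2] at h1
  rw [h1.fderiv]
  rfl

theorem afh_pd2 {h : E3 → M3} (hd : Differentiable ℝ h) (hd2 : Differentiable ℝ (fderiv ℝ h))
    (x v w : E3) (i j : Fin 3) :
    (fderiv ℝ (fderiv ℝ h) x v w) i j =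
      fderiv ℝ (fun y => fderiv ℝ (fun z => h z i j) y w) x v := by
  have h0 : (fun y => fderiv ℝ (fun z => h z i j) y w) =
      fun y => prM i j (ContinuousLinearMap.apply ℝ M3 w (fderiv ℝ h y)) := by
    funext y
    rw [← afh_pd hd]
    rfl
  rw [h0]
  have h1 : HasFDerivAt (fun y => prM i j (ContinuousLinearMap.apply ℝ M3 w (fderiv ℝ h y)))
      (((prM i j).comp (ContinuousLinearMap.apply ℝ M3 w)).comp (fderiv ℝ (fderiv ℝ h) x)) x :=
    ((prM i j).comp (ContinuousLinearMap.apply ℝ M3 w)).hasFDerivAt.comp x (hd2 x).hasFDerivAt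
  rw [h1.fderiv]
  rfl

theorem afh_Dc {h : E3 → M3} {C q : ℝ} (hq : 0 < q) (hh : ∀ i j, ContDiff ℝ ∞ (fun x => h x i j))
    (h0 : ∀ x i j, |h x i j| ≤ C * (1 + ‖x‖) ^ (-q))
    (h1 : ∀ x i j k, |pd k (fun y => h y i j) x| ≤ C * (1 + ‖x‖) ^ (-q - 1))
    (h2 : ∀ x i j k l, |pd l (pd k (fun y => h y i j)) x| ≤ C * (1 + ‖x‖) ^ (-q - 2)) :
    Dc1 (9 * |C|) q 1 h ∧ Dc1 (9 * |C|) (q + 1) 1 (fderiv ℝ h) := by
  have hc := afh_contDiff hh
  have hd : Differentiable ℝ h := hc.differentiable (by simp)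
  have hc2 : ContDiff ℝ ∞ (fderiv ℝ h) := hc.fderiv_right (by simp)
  have hd2 : Differentiable ℝ (fderiv ℝ h) := hc2.differentiable (by simp)
  have hC := abs_nonneg C
  have cmp1 : ∀ (x : E3) (a : ℝ), 1 ≤ ‖x‖ → a ≤ 0 →
      C * (1 + ‖x‖) ^ a ≤ |C| * ‖x‖ ^ a := by
    intro x a hx ha
    have e1 : (1 + ‖x‖) ^ a ≤ ‖x‖ ^ a := afh_rpow (by linarith) (by linarith) ha
    have e2 : 0 ≤ (1 + ‖x‖) ^ a := Real.rpow_nonneg (by positivity) _
    calc C * (1 + ‖x‖) ^ a ≤ |C| * (1 + ‖x‖) ^ a :=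
          mul_le_mul_of_nonneg_right (le_abs_self C) e2
      _ ≤ |C| * ‖x‖ ^ a := mul_le_mul_of_nonneg_left e1 hC
  have b0 : ∀ x : E3, 1 ≤ ‖x‖ → ‖h x‖ ≤ |C| * ‖x‖ ^ (-q) := fun x hx =>
    afh_M3_norm (by positivity) (fun i j => (h0 x i j).trans (cmp1 x _ hx (by linarith)))
  have b1 : ∀ x : E3, 1 ≤ ‖x‖ → ‖fderiv ℝ h x‖ ≤ 3 * (|C| * ‖x‖ ^ (-q - 1)) := by
    intro x hx
    refine afh_op _ (by positivity) (fun k => ?_)
    refine afh_M3_norm (by positivity) (fun i j => ?_)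
    rw [afh_pd hd]
    exact (h1 x i j k).trans (cmp1 x _ hx (by linarith))
  have b2 : ∀ x : E3, 1 ≤ ‖x‖ → ‖fderiv ℝ (fderiv ℝ h) x‖ ≤ 3 * (3 * (|C| * ‖x‖ ^ (-q - 2))) := by
    intro x hx
    refine afh_op _ (by positivity) (fun l => ?_)
    refine afh_op _ (by positivity) (fun k => ?_)
    refine afh_M3_norm (by positivity) (fun i j => ?_)
    rw [afh_pd2 hd hd2]
    exact (h2 x i j k l).trans (cmp1 x _ hx (by linarith))
  refine ⟨⟨fun x hx => (b0 x hx).trans ?_, fun x hx => (b1 x hx).trans ?_⟩,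
    ⟨fun x hx => (b1 x hx).trans ?_, fun x hx => (b2 x hx).trans ?_⟩⟩
  · have : 0 ≤ |C| * ‖x‖ ^ (-q) := by positivity
    linarith
  · have : 0 ≤ |C| * ‖x‖ ^ (-q - 1) := by positivity
    linarith
  · have e : (-(q + 1) : ℝ) = -q - 1 := by ring
    rw [e]
    have : 0 ≤ |C| * ‖x‖ ^ (-q - 1) := by positivity
    linarith
  · have e : (-(q + 1) - 1 : ℝ) = -q - 2 := by ring
    rw [e]
    linarith

/-! ### Composition -/

theorem afh_compose {V : Type*} [NormedAddCommGroup V] [NormedSpace ℝ V] {φ : V → ℝ}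
    (hφ : ContDiffAt ℝ ∞ φ 0) (h0 : φ 0 = 0) {h : E3 → V} (hh : ContDiff ℝ ∞ h) {K q : ℝ}
    (hK : 0 ≤ K) (hq : 0 < q) (d1 : Dc1 K q 1 h) (d2 : Dc1 K (q + 1) 1 (fderiv ℝ h)) :
    ∃ K' r₀ : ℝ, 0 ≤ K' ∧ 1 ≤ r₀ ∧ Dc1 K' q r₀ (fun x => φ (h x)) ∧
      Dc1 K' (q + 1) r₀ (fderiv ℝ (fun x => φ (h x))) ∧
      Dc1 K' (2 * q) r₀ (fun x => φ (h x) - fderiv ℝ φ 0 (h x)) := by
  obtain ⟨ρ, A, hρ, hA, key⟩ := afh_phi hφ h0
  have hd : Differentiable ℝ h := hh.differentiable (by simp)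
  have hc2 : ContDiff ℝ ∞ (fderiv ℝ h) := hh.fderiv_right (by simp)
  have hd2 : Differentiable ℝ (fderiv ℝ h) := hc2.differentiable (by simp)
  -- the radius
  obtain ⟨r₀, hr1, hr⟩ : ∃ r₀ : ℝ, 1 ≤ r₀ ∧ ∀ x : E3, r₀ ≤ ‖x‖ → ‖h x‖ < ρ := by
    have ht : Tendsto (fun r : ℝ => K * r ^ (-q)) atTop (𝓝 (K * 0)) :=
      (tendsto_rpow_neg_atTop hq).const_mul K
    rw [mul_zero] at ht
    obtain ⟨r, hr⟩ := (ht.eventually_lt_const hρ).exists_forall_of_atTop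
    refine ⟨max r 1, le_max_right _ _, fun x hx => ?_⟩
    exact (d1.b0 x ((le_max_right _ _).trans hx)).trans_lt (hr _ ((le_max_left _ _).trans hx))
  have hone : ∀ x : E3, r₀ ≤ ‖x‖ → 1 ≤ ‖x‖ := fun x hx => hr1.trans hx
  have hD1 : ∀ x : E3, ‖h x‖ < ρ → HasFDerivAt (fun x => φ (h x))
      ((fderiv ℝ φ (h x)).comp (fderiv ℝ h x)) x := fun x hx =>
    (key (h x) hx).1.hasFDerivAt.comp x (hd x).hasFDerivAt
  have hopen : IsOpen {x : E3 | ‖h x‖ < ρ} := isOpen_lt hd.continuous.norm continuous_const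
  have hev : ∀ x : E3, ‖h x‖ < ρ → fderiv ℝ (fun x => φ (h x)) =ᶠ[𝓝 x]
      fun x => (fderiv ℝ φ (h x)).comp (fderiv ℝ h x) := fun x hx => by
    filter_upwards [hopen.mem_nhds hx] with z hz
    exact (hD1 z hz).fderiv
  have hD2 : ∀ x : E3, ‖h x‖ < ρ → ‖fderiv ℝ (fderiv ℝ (fun x => φ (h x))) x‖ ≤
      A * ‖fderiv ℝ (fderiv ℝ h) x‖ + A * ‖fderiv ℝ h x‖ * ‖fderiv ℝ h x‖ := by
    intro x hx
    obtain ⟨k1, k2, k3, k4, k5, k6, k7⟩ := key (h x) hx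
    have e1 : HasFDerivAt (fun x => fderiv ℝ φ (h x))
        ((fderiv ℝ (fderiv ℝ φ) (h x)).comp (fderiv ℝ h x)) x :=
      k2.hasFDerivAt.comp x (hd x).hasFDerivAt
    have e2 := e1.clm_comp (hd2 x).hasFDerivAt
    rw [(hev x hx).fderiv_eq, e2.fderiv]
    refine ContinuousLinearMap.opNorm_le_bound _ (by positivity) (fun v => ?_)
    have e3 : ((((ContinuousLinearMap.compL ℝ E3 V ℝ) (fderiv ℝ φ (h x))).comp
        (fderiv ℝ (fderiv ℝ h) x) +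
        ((ContinuousLinearMap.compL ℝ E3 V ℝ).flip (fderiv ℝ h x)).comp
          ((fderiv ℝ (fderiv ℝ φ) (h x)).comp (fderiv ℝ h x))) v : E3 →L[ℝ] ℝ) =
        (fderiv ℝ φ (h x)).comp (fderiv ℝ (fderiv ℝ h) x v) +
          (fderiv ℝ (fderiv ℝ φ) (h x) (fderiv ℝ h x v)).comp (fderiv ℝ h x) := rfl
    rw [e3]
    have hv := norm_nonneg v
    have n1 : ‖(fderiv ℝ φ (h x)).comp (fderiv ℝ (fderiv ℝ h) x v)‖ ≤
        A * (‖fderiv ℝ (fderiv ℝ h) x‖ * ‖v‖) := by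
      refine (ContinuousLinearMap.opNorm_comp_le _ _).trans ?_
      exact mul_le_mul k3 (ContinuousLinearMap.le_opNorm _ _) (norm_nonneg _) hA.le
    have n2 : ‖(fderiv ℝ (fderiv ℝ φ) (h x) (fderiv ℝ h x v)).comp (fderiv ℝ h x)‖ ≤
        A * (‖fderiv ℝ h x‖ * ‖v‖) * ‖fderiv ℝ h x‖ := by
      refine (ContinuousLinearMap.opNorm_comp_le _ _).trans ?_
      refine mul_le_mul_of_nonneg_right ?_ (norm_nonneg _)
      refine (ContinuousLinearMap.le_opNorm _ _).trans ?_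
      exact mul_le_mul k4 (ContinuousLinearMap.le_opNorm _ _) (norm_nonneg _) hA.le
    refine (norm_add_le _ _).trans ((add_le_add n1 n2).trans (le_of_eq ?_))
    ring
  have hDN : ∀ x : E3, ‖h x‖ < ρ → ‖fderiv ℝ (fun x => φ (h x) - fderiv ℝ φ 0 (h x)) x‖ ≤
      A * ‖h x‖ * ‖fderiv ℝ h x‖ := by
    intro x hx
    obtain ⟨k1, k2, k3, k4, k5, k6, k7⟩ := key (h x) hx
    have e1 : HasFDerivAt (fun x => φ (h x) - fderiv ℝ φ 0 (h x))
        ((fderiv ℝ φ (h x)).comp (fderiv ℝ h x) - (fderiv ℝ φ 0).comp (fderiv ℝ h x)) x :=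
      (hD1 x hx).sub ((fderiv ℝ φ 0).hasFDerivAt.comp x (hd x).hasFDerivAt)
    rw [e1.fderiv, ← ContinuousLinearMap.sub_comp]
    refine (ContinuousLinearMap.opNorm_comp_le _ _).trans ?_
    exact mul_le_mul_of_nonneg_right k6 (norm_nonneg _)
  -- assembly
  refine ⟨A * K + A * K * K, r₀, by positivity, hr1, ⟨?_, ?_⟩, ⟨?_, ?_⟩, ⟨?_, ?_⟩⟩
  · intro x hx
    have hx1 := hone x hx
    have hX : 0 ≤ ‖x‖ ^ (-q) := by positivity
    have := d1.b0 x hx1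
    refine (key (h x) (hr x hx)).2.2.2.2.1.trans ?_
    calc A * ‖h x‖ ≤ A * (K * ‖x‖ ^ (-q)) := by gcongr
      _ ≤ (A * K + A * K * K) * ‖x‖ ^ (-q) := by
        have : 0 ≤ A * K * K * ‖x‖ ^ (-q) := by positivity
        nlinarith
  · intro x hx
    have hx1 := hone x hx
    have hX : 0 ≤ ‖x‖ ^ (-q - 1) := by positivity
    rw [(hD1 x (hr x hx)).fderiv]
    refine (ContinuousLinearMap.opNorm_comp_le _ _).trans ?_
    calc ‖fderiv ℝ φ (h x)‖ * ‖fderiv ℝ h x‖ ≤ A * (K * ‖x‖ ^ (-q - 1)) :=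
          mul_le_mul (key (h x) (hr x hx)).2.2.1 (d1.b1 x hx1) (norm_nonneg _) hA.le
      _ ≤ (A * K + A * K * K) * ‖x‖ ^ (-q - 1) := by
        have : 0 ≤ A * K * K * ‖x‖ ^ (-q - 1) := by positivity
        nlinarith
  · intro x hx
    have hx1 := hone x hx
    have e : (-(q + 1) : ℝ) = -q - 1 := by ring
    rw [e, (hD1 x (hr x hx)).fderiv]
    have hX : 0 ≤ ‖x‖ ^ (-q - 1) := by positivity
    refine (ContinuousLinearMap.opNorm_comp_le _ _).trans ?_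
    calc ‖fderiv ℝ φ (h x)‖ * ‖fderiv ℝ h x‖ ≤ A * (K * ‖x‖ ^ (-q - 1)) :=
          mul_le_mul (key (h x) (hr x hx)).2.2.1 (d1.b1 x hx1) (norm_nonneg _) hA.le
      _ ≤ (A * K + A * K * K) * ‖x‖ ^ (-q - 1) := by
        have : 0 ≤ A * K * K * ‖x‖ ^ (-q - 1) := by positivity
        nlinarith
  · intro x hx
    have hx1 := hone x hx
    refine (hD2 x (hr x hx)).trans ?_
    have a1 := d2.b1 x hx1
    have a2 := d1.b1 x hx1
    have hx0 : 0 < ‖x‖ := by linarith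
    have e1 : ‖x‖ ^ (-q - 1) * ‖x‖ ^ (-q - 1) ≤ ‖x‖ ^ (-(q + 1) - 1) := by
      rw [← Real.rpow_add hx0]
      exact Real.rpow_le_rpow_of_exponent_le hx1 (by linarith)
    have hX : 0 ≤ ‖x‖ ^ (-q - 1) := by positivity
    have hX2 : 0 ≤ ‖x‖ ^ (-(q + 1) - 1) := by positivity
    calc A * ‖fderiv ℝ (fderiv ℝ h) x‖ + A * ‖fderiv ℝ h x‖ * ‖fderiv ℝ h x‖
        ≤ A * (K * ‖x‖ ^ (-(q + 1) - 1)) + A * (K * ‖x‖ ^ (-q - 1)) * (K * ‖x‖ ^ (-q - 1)) := by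
          gcongr
      _ = A * K * ‖x‖ ^ (-(q + 1) - 1) + A * K * K * (‖x‖ ^ (-q - 1) * ‖x‖ ^ (-q - 1)) := by ring
      _ ≤ A * K * ‖x‖ ^ (-(q + 1) - 1) + A * K * K * ‖x‖ ^ (-(q + 1) - 1) := by gcongr
      _ = _ := by ring
  · intro x hx
    have hx1 := hone x hx
    have hx0 : 0 < ‖x‖ := by linarith
    refine (key (h x) (hr x hx)).2.2.2.2.2.2.trans ?_
    have a1 := d1.b0 x hx1
    have e1 : (‖x‖ ^ (-q)) ^ 2 = ‖x‖ ^ (-(2 * q)) := by
      rw [sq, ← Real.rpow_add hx0]; congr 1; ring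
    have hX : 0 ≤ ‖x‖ ^ (-(2 * q)) := by positivity
    calc A * ‖h x‖ ^ 2 ≤ A * (K * ‖x‖ ^ (-q)) ^ 2 := by gcongr
      _ = A * K * K * ‖x‖ ^ (-(2 * q)) := by rw [mul_pow, e1]; ring
      _ ≤ (A * K + A * K * K) * ‖x‖ ^ (-(2 * q)) := by
        have : 0 ≤ A * K * ‖x‖ ^ (-(2 * q)) := by positivity
        nlinarith
  · intro x hx
    have hx1 := hone x hx
    have hx0 : 0 < ‖x‖ := by linarith
    refine (hDN x (hr x hx)).trans ?_
    have a1 := d1.b0 x hx1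
    have a2 := d1.b1 x hx1
    have e1 : ‖x‖ ^ (-q) * ‖x‖ ^ (-q - 1) = ‖x‖ ^ (-(2 * q) - 1) := by
      rw [← Real.rpow_add hx0]; congr 1; ring
    have hX : 0 ≤ ‖x‖ ^ (-(2 * q) - 1) := by positivity
    calc A * ‖h x‖ * ‖fderiv ℝ h x‖ ≤ A * (K * ‖x‖ ^ (-q)) * (K * ‖x‖ ^ (-q - 1)) := by gcongr
      _ = A * K * K * (‖x‖ ^ (-q) * ‖x‖ ^ (-q - 1)) := by ring
      _ = A * K * K * ‖x‖ ^ (-(2 * q) - 1) := by rw [e1]
      _ ≤ (A * K + A * K * K) * ‖x‖ ^ (-(2 * q) - 1) := by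
        have : 0 ≤ A * K * ‖x‖ ^ (-(2 * q) - 1) := by positivity
        nlinarith

end

end Pool.Agent.BS
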