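import Pool.Agent.BS.Af0
import Pool.Agent.BS.AfhAux

/-!
# Module AFH: scale invariant estimates of the coefficient field
-/

namespace Pool.Agent.BS

open MeasureTheory Topology Set Filter
open scoped ContDiff

noncomputable section

theorem Dc1.mono {F : Type*} [NormedAddCommGroup F] [NormedSpace ℝ F] {K K' p r r' : ℝ}
    {f : E3 → F} (h : Dc1 K p r f) (hK : K ≤ K') (hr : r ≤ r') : Dc1 K' p r' f :=
  ⟨fun x hx => (h.b0 x (hr.trans hx)).trans
      (mul_le_mul_of_nonneg_right hK (Real.rpow_nonneg (norm_nonneg _) _)),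
    fun x hx => (h.b1 x (hr.trans hx)).trans
      (mul_le_mul_of_nonneg_right hK (Real.rpow_nonneg (norm_nonneg _) _))⟩

theorem SB2.mono' {ε ε' : ℝ} {f : E3 → ℝ} (h : SB2 ε f) (he : ε ≤ ε') : SB2 ε' f :=
  ⟨h.c2, fun x hx => (h.b0 x hx).trans he, fun x hx => (h.b1 x hx).trans he,
    fun x hx => (h.b2 x hx).trans he⟩

theorem SB1.mono' {ε ε' : ℝ} {f : E3 → ℝ} (h : SB1 ε f) (he : ε ≤ ε') : SB1 ε' f :=
  ⟨h.c1, fun x hx => (h.b0 x hx).trans he, fun x hx => (h.b1 x hx).trans he⟩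

theorem AFH {q : ℝ} {g : E3 → M3} (hq : 1 / 2 < q) (hg : AFMetric q g) :
    ∃ C R₀ : ℝ, 0 < C ∧ 1 ≤ R₀ ∧ ∀ R, R₀ ≤ R → ∀ b : E3, ‖b‖ ≤ R / 8 →
      (∀ i j, SB2 (C * R ^ (-q)) (fun x => HbR (HA g) b R x i j)) ∧
      (∀ y, 1 / 2 < ‖y‖ → ∀ i j, |HbR (HA g) b R y i j - HbR (H1 (hh g)) b R y i j| ≤
        C * R ^ (-(2 * q))) ∧
      ∀ R', R ≤ R' → R' ≤ 2 * R → ∀ b' : E3, ‖b'‖ ≤ R / 8 →
        (∀ i j, SB1 (C * R ^ (-q) * ((‖b - b'‖ + (R' - R)) / R))
          (fun x => HbR (HA g) b R x i j - HbR (HA g) b' R' x i j)) ∧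
        ∀ y, 1 / 2 < ‖y‖ → ∀ i j,
          |(HbR (HA g) b R y i j - HbR (H1 (hh g)) b R y i j) -
            (HbR (HA g) b' R' y i j - HbR (H1 (hh g)) b' R' y i j)| ≤
            C * R ^ (-(2 * q)) * ((‖b - b'‖ + (R' - R)) / R) := by
  obtain ⟨C1, c0, c1, c2⟩ := hh_decay hq hg
  obtain ⟨sH, -, sh, -⟩ := HA_smooth hg
  have hq0 : 0 < q := by linarith
  obtain ⟨dh1, dh2⟩ := afh_Dc hq0 sh c0 c1 c2
  have hcomp : ∀ i j : Fin 3, ∃ K' r₀ : ℝ, 0 ≤ K' ∧ 1 ≤ r₀ ∧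
      Dc1 K' q r₀ (fun x => HA g x i j) ∧ Dc1 K' (q + 1) r₀ (fderiv ℝ (fun x => HA g x i j)) ∧
      Dc1 K' (2 * q) r₀ (fun x => HA g x i j - H1 (hh g) x i j) := by
    intro i j
    obtain ⟨K', r₀, h1, h2, h3, h4, h5⟩ := afh_compose (afn_contDiffAt i j) (afn_zero i j)
      (afh_contDiff sh) (by positivity) hq0 dh1 dh2
    have e : (fun x => afn (hh g x) i j - fderiv ℝ (fun h : M3 => afn h i j) 0 (hh g x)) =
        fun x => HA g x i j - H1 (hh g) x i j := by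
      funext x
      rw [afn_fderiv]
      rfl
    rw [e] at h5
    exact ⟨K', r₀, h1, h2, h3, h4, h5⟩
  choose K r hK hr d1 d2 dN using hcomp
  set K₀ : ℝ := ∑ i, ∑ j, K i j with hK₀
  set r₀ : ℝ := ∑ i, ∑ j, r i j with hr₀
  have hKle : ∀ i j, K i j ≤ K₀ := fun i j =>
    (Finset.single_le_sum (f := fun j => K i j) (fun j _ => hK i j) (Finset.mem_univ j)).trans
      (Finset.single_le_sum (f := fun i => ∑ j, K i j)
        (fun i _ => Finset.sum_nonneg (fun j _ => hK i j)) (Finset.mem_univ i))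
  have hrn : ∀ i j, 0 ≤ r i j := fun i j => zero_le_one.trans (hr i j)
  have hrle : ∀ i j, r i j ≤ r₀ := fun i j =>
    (Finset.single_le_sum (f := fun j => r i j) (fun j _ => hrn i j) (Finset.mem_univ j)).trans
      (Finset.single_le_sum (f := fun i => ∑ j, r i j)
        (fun i _ => Finset.sum_nonneg (fun j _ => hrn i j)) (Finset.mem_univ i))
  have hK0 : 0 ≤ K₀ := (hK 0 0).trans (hKle 0 0)
  have hr1 : 1 ≤ r₀ := (hr 0 0).trans (hrle 0 0)
  have D1 : ∀ i j, Dc1 K₀ q r₀ (fun x => HA g x i j) := fun i j =>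
    (d1 i j).mono (hKle i j) (hrle i j)
  have D2 : ∀ i j, Dc1 K₀ (q + 1) r₀ (fderiv ℝ (fun x => HA g x i j)) := fun i j =>
    (d2 i j).mono (hKle i j) (hrle i j)
  have DN : ∀ i j, Dc1 K₀ (2 * q) r₀ (fun x => HA g x i j - H1 (hh g) x i j) := fun i j =>
    (dN i j).mono (hKle i j) (hrle i j)
  have hdN : ∀ i j, Differentiable ℝ (fun x => HA g x i j - H1 (hh g) x i j) := by
    intro i j
    have h1 : Differentiable ℝ (fun x => HA g x i j) := (sH i j).differentiable (by simp)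
    have h2 : ∀ a b, Differentiable ℝ (fun x => hh g x a b) := fun a b =>
      (sh a b).differentiable (by simp)
    have h3 : Differentiable ℝ (fun x => H1 (hh g) x i j) := by
      have : (fun x => H1 (hh g) x i j) =
          fun x => (1 / 2) * (∑ a, hh g x a a) * dl i j - hh g x i j := rfl
      rw [this]
      exact (((Differentiable.fun_sum (fun a _ => h2 a a)).const_mul _).mul_const _).sub (h2 i j)
    exact h1.sub h3
  set c : ℝ := (3 / 8 : ℝ) ^ (-q) with hc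
  set c' : ℝ := (3 / 8 : ℝ) ^ (-(2 * q)) with hc'
  have hcp : 0 < c := Real.rpow_pos_of_pos (by norm_num) _
  have hcp' : 0 < c' := Real.rpow_pos_of_pos (by norm_num) _
  refine ⟨10 * K₀ * c + 3 * K₀ * c' + 1, 8 / 3 * r₀, by positivity, by linarith, ?_⟩
  intro R hR b hb
  have hRp : 0 < R := by linarith
  have hrR : r₀ ≤ 3 / 8 * R := by linarith
  have hRq : 0 < R ^ (-q) := Real.rpow_pos_of_pos hRp _
  have hRq2 : 0 < R ^ (-(2 * q)) := Real.rpow_pos_of_pos hRp _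
  have hKc : 0 ≤ K₀ * c := by positivity
  have hKc' : 0 ≤ K₀ * c' := by positivity
  refine ⟨fun i j => ?_, fun y hy i j => ?_, fun R' hRR hR2 b' hb' => ⟨fun i j => ?_,
    fun y hy i j => ?_⟩⟩
  · refine (afh_SB2 (sH i j) hK0 hq0 (D1 i j) (D2 i j) hRp hrR hb).mono' ?_
    refine mul_le_mul_of_nonneg_right ?_ hRq.le
    linarith
  · have hm := afh_low hRp hb hy
    have hm0 : 0 < 3 / 4 * R * ‖y‖ := by positivity
    have h1 := (DN i j).b0 (b + R • y) (hrR.trans (le_trans (by nlinarith) hm))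
    rw [Real.norm_eq_abs] at h1
    have h2 : ‖b + R • y‖ ^ (-(2 * q)) ≤ c' * R ^ (-(2 * q)) :=
      (afh_rpow hm0 hm (by linarith)).trans (afh_m hRp hy (by linarith))
    calc |HbR (HA g) b R y i j - HbR (H1 (hh g)) b R y i j|
        ≤ K₀ * ‖b + R • y‖ ^ (-(2 * q)) := h1
      _ ≤ K₀ * (c' * R ^ (-(2 * q))) := by gcongr
      _ = (K₀ * c') * R ^ (-(2 * q)) := by ring
      _ ≤ _ := mul_le_mul_of_nonneg_right (by linarith) hRq2.le
  · refine (afh_SB1 (sH i j) hK0 hq0 (D1 i j) (D2 i j) hRp hrR hRR hR2 hb hb').mono' ?_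
    have hΔ : 0 ≤ (‖b - b'‖ + (R' - R)) / R := by
      have := norm_nonneg (b - b')
      exact div_nonneg (by linarith) hRp.le
    refine mul_le_mul_of_nonneg_right (mul_le_mul_of_nonneg_right ?_ hRq.le) hΔ
    linarith
  · have hΔ : 0 ≤ (‖b - b'‖ + (R' - R)) / R := by
      have := norm_nonneg (b - b')
      exact div_nonneg (by linarith) hRp.le
    have h1 := afh_diff (hdN i j) hK0 (by linarith : 0 < 2 * q) (DN i j).b1 hRp hrR hRR hb hb' hy
    rw [Real.norm_eq_abs] at h1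
    have h2 : (3 / 4 * R * ‖y‖) ^ (-(2 * q)) ≤ c' * R ^ (-(2 * q)) := afh_m hRp hy (by linarith)
    calc |(HbR (HA g) b R y i j - HbR (H1 (hh g)) b R y i j) -
            (HbR (HA g) b' R' y i j - HbR (H1 (hh g)) b' R' y i j)|
        ≤ 8 / 3 * K₀ * (3 / 4 * R * ‖y‖) ^ (-(2 * q)) * ((‖b - b'‖ + (R' - R)) / R) := h1
      _ ≤ 8 / 3 * K₀ * (c' * R ^ (-(2 * q))) * ((‖b - b'‖ + (R' - R)) / R) := by gcongr
      _ = (8 / 3 * (K₀ * c')) * R ^ (-(2 * q)) * ((‖b - b'‖ + (R' - R)) / R) := by ring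
      _ ≤ _ := mul_le_mul_of_nonneg_right (mul_le_mul_of_nonneg_right (by linarith) hRq2.le) hΔ

end

end Pool.Agent.BS
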