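import Pool.Agent.BS.Defs4

/-!
# Module ROT: rotations and cut-off affine maps
-/

namespace Pool.Agent.BS

open MeasureTheory Topology Set Filter
open scoped ContDiff

noncomputable section

theorem rota_inner (x y : E3) : inner ℝ x y = x 0 * y 0 + x 1 * y 1 + x 2 * y 2 := by
  rw [PiLp.inner_apply]
  simp [Fin.sum_univ_three, mul_comm]

theorem rota_cr0 (a b : Fin 3 → ℝ) : cr a b 0 = a 1 * b 2 - a 2 * b 1 := by
  simp [cr, eps, Fin.sum_univ_three]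
  try ring
theorem rota_cr1 (a b : Fin 3 → ℝ) : cr a b 1 = a 2 * b 0 - a 0 * b 2 := by
  simp [cr, eps, Fin.sum_univ_three]
  try ring
theorem rota_cr2 (a b : Fin 3 → ℝ) : cr a b 2 = a 0 * b 1 - a 1 * b 0 := by
  simp [cr, eps, Fin.sum_univ_three]
  try ring

theorem rota_n_sq (θ : S2) : (θ : E3) 0 ^ 2 + (θ : E3) 1 ^ 2 + (θ : E3) 2 ^ 2 = 1 := by
  have h := norm_S2 θ
  have h2 : inner ℝ (θ : E3) (θ : E3) = (1 : ℝ) := by
    rw [real_inner_self_eq_norm_sq, h]; norm_num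
  rw [rota_inner] at h2
  nlinarith [h2]

theorem rota_ne (θ₀ : S2) {v : E3} (hv : ‖v‖ < 1) : (θ₀ : E3) + v ≠ 0 := by
  intro h
  have h1 : (θ₀ : E3) = -v := by rw [eq_neg_iff_add_eq_zero]; exact h
  have h2 := norm_S2 θ₀
  rw [h1, norm_neg] at h2
  linarith

theorem rota_c_pos (θ₀ : S2) {v : E3} (hv : ‖v‖ < 1) :
    0 < inner ℝ (θ₀ : E3) (dirS ((θ₀ : E3) + v) : E3) := by
  have hne := rota_ne θ₀ hv
  rw [dirS_coe hne, inner_smul_right, inner_add_right, real_inner_self_eq_norm_sq, norm_S2]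
  have h1 : |inner ℝ (θ₀ : E3) v| ≤ ‖v‖ := by
    have := abs_real_inner_le_norm (θ₀ : E3) v
    rwa [norm_S2, one_mul] at this
  have h2 := (abs_le.1 h1).1
  have h3 : 0 < ‖(θ₀ : E3) + v‖ := norm_pos_iff.2 hne
  exact mul_pos (inv_pos.2 h3) (by linarith)

theorem rota_apply (θ₀ : S2) (v x : E3) (i : Fin 3) : Rot θ₀ v x i =
    (inner ℝ (θ₀ : E3) (dirS ((θ₀ : E3) + v) : E3)) * x i +
    cr (fun i => cr (fun i => (θ₀ : E3) i) (fun i => (dirS ((θ₀ : E3) + v) : E3) i) i)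
      (fun i => x i) i +
    (inner ℝ (mkE (cr (fun i => (θ₀ : E3) i) (fun i => (dirS ((θ₀ : E3) + v) : E3) i))) x /
      (1 + inner ℝ (θ₀ : E3) (dirS ((θ₀ : E3) + v) : E3))) *
      cr (fun i => (θ₀ : E3) i) (fun i => (dirS ((θ₀ : E3) + v) : E3) i) i := by
  simp only [Rot, PiLp.add_apply, PiLp.smul_apply, smul_eq_mul, mkE_apply]

/-- `Rot` as a linear map -/
def rotaLin (θ₀ : S2) (v : E3) : E3 →ₗ[ℝ] E3 where
  toFun := Rot θ₀ v
  map_add' x y := by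
    ext i
    simp only [PiLp.add_apply]
    rw [rota_apply, rota_apply, rota_apply]
    simp only [PiLp.add_apply, inner_add_right]
    fin_cases i
    · simp only [Fin.zero_eta, Fin.isValue, rota_cr0, rota_cr1, rota_cr2]; ring
    · simp only [Fin.mk_one, Fin.isValue, rota_cr0, rota_cr1, rota_cr2]; ring
    · simp only [Fin.reduceFinMk, Fin.isValue, rota_cr0, rota_cr1, rota_cr2]; ring
  map_smul' r x := by
    ext i
    simp only [PiLp.smul_apply, RingHom.id_apply, smul_eq_mul]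
    rw [rota_apply, rota_apply]
    simp only [PiLp.smul_apply, inner_smul_right, smul_eq_mul]
    fin_cases i
    · simp only [Fin.zero_eta, Fin.isValue, rota_cr0, rota_cr1, rota_cr2]; ring
    · simp only [Fin.mk_one, Fin.isValue, rota_cr0, rota_cr1, rota_cr2]; ring
    · simp only [Fin.reduceFinMk, Fin.isValue, rota_cr0, rota_cr1, rota_cr2]; ring

theorem rota_norm_aux (a0 a1 a2 n0 n1 n2 x0 x1 x2 c : ℝ) (ha : a0 ^ 2 + a1 ^ 2 + a2 ^ 2 = 1)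
    (hn : n0 ^ 2 + n1 ^ 2 + n2 ^ 2 = 1) (hc : c = a0 * n0 + a1 * n1 + a2 * n2) (hc0 : 0 < 1 + c)
    (k0 k1 k2 : ℝ) (hk0 : k0 = a1 * n2 - a2 * n1) (hk1 : k1 = a2 * n0 - a0 * n2)
    (hk2 : k2 = a0 * n1 - a1 * n0) (l : ℝ) (hl : l = (k0 * x0 + k1 * x1 + k2 * x2) / (1 + c)) :
    (c * x0 + (k1 * x2 - k2 * x1) + l * k0) ^ 2 + (c * x1 + (k2 * x0 - k0 * x2) + l * k1) ^ 2 +
      (c * x2 + (k0 * x1 - k1 * x0) + l * k2) ^ 2 = x0 ^ 2 + x1 ^ 2 + x2 ^ 2 := by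
  have hk : k0 ^ 2 + k1 ^ 2 + k2 ^ 2 = 1 - c ^ 2 := by
    rw [hk0, hk1, hk2, hc]
    have : (a1 * n2 - a2 * n1) ^ 2 + (a2 * n0 - a0 * n2) ^ 2 + (a0 * n1 - a1 * n0) ^ 2 =
      (a0 ^ 2 + a1 ^ 2 + a2 ^ 2) * (n0 ^ 2 + n1 ^ 2 + n2 ^ 2) - (a0 * n0 + a1 * n1 + a2 * n2) ^ 2 := by
      ring
    rw [this, ha, hn]; ring
  have hl2 : l * (1 + c) = k0 * x0 + k1 * x1 + k2 * x2 := by
    rw [hl]; field_simp
  have e1 : (c * x0 + (k1 * x2 - k2 * x1) + l * k0) ^ 2 + (c * x1 + (k2 * x0 - k0 * x2) + l * k1) ^ 2 +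
      (c * x2 + (k0 * x1 - k1 * x0) + l * k2) ^ 2 =
      (c ^ 2 + (k0 ^ 2 + k1 ^ 2 + k2 ^ 2)) * (x0 ^ 2 + x1 ^ 2 + x2 ^ 2)
       - (k0 * x0 + k1 * x1 + k2 * x2) ^ 2 + l ^ 2 * (k0 ^ 2 + k1 ^ 2 + k2 ^ 2) +
       2 * c * l * (k0 * x0 + k1 * x1 + k2 * x2) := by ring
  rw [e1, hk, ← hl2]
  ring

theorem rota_norm (θ₀ : S2) {v : E3} (hv : ‖v‖ < 1) (x : E3) : ‖Rot θ₀ v x‖ = ‖x‖ := by
  have h1 : inner ℝ (Rot θ₀ v x) (Rot θ₀ v x) = inner ℝ x x := by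
    rw [rota_inner, rota_inner]
    have hc := rota_c_pos θ₀ hv
    have := rota_norm_aux ((θ₀ : E3) 0) ((θ₀ : E3) 1) ((θ₀ : E3) 2)
      ((dirS ((θ₀ : E3) + v) : E3) 0) ((dirS ((θ₀ : E3) + v) : E3) 1)
      ((dirS ((θ₀ : E3) + v) : E3) 2) (x 0) (x 1) (x 2)
      (inner ℝ (θ₀ : E3) (dirS ((θ₀ : E3) + v) : E3)) (rota_n_sq _) (rota_n_sq _)
      (rota_inner _ _) (by linarith)
      _ _ _ (rota_cr0 _ _) (rota_cr1 _ _) (rota_cr2 _ _)
      (inner ℝ (mkE (cr (fun i => (θ₀ : E3) i) (fun i => (dirS ((θ₀ : E3) + v) : E3) i))) x /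
        (1 + inner ℝ (θ₀ : E3) (dirS ((θ₀ : E3) + v) : E3))) (by rw [rota_inner]; simp only [mkE_apply])
    simp only [rota_apply, rota_cr0, rota_cr1, rota_cr2] at this ⊢
    nlinarith [this]
  rw [real_inner_self_eq_norm_sq, real_inner_self_eq_norm_sq] at h1
  exact (sq_eq_sq₀ (norm_nonneg _) (norm_nonneg _)).1 h1

theorem rota_fderiv (θ₀ : S2) (v x y : E3) : fderiv ℝ (Rot θ₀ v) x y = Rot θ₀ v y := by
  have h : HasFDerivAt (Rot θ₀ v) (LinearMap.toContinuousLinearMap (rotaLin θ₀ v)) x :=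
    (LinearMap.toContinuousLinearMap (rotaLin θ₀ v)).hasFDerivAt
  rw [h.fderiv]
  rfl

theorem Rot_isom (θ₀ : S2) (v : E3) (hv : ‖v‖ < 1) : ∃ ρ : E3 ≃ₗᵢ[ℝ] E3,
    (∀ x, ρ x = Rot θ₀ v x) ∧ Rot θ₀ v (θ₀ : E3) = (dirS ((θ₀ : E3) + v) : E3) ∧
    ∀ x, det3 (DM (Rot θ₀ v) x) = 1 := by
  have hc := rota_c_pos θ₀ hv
  refine ⟨(⟨rotaLin θ₀ v, fun x => rota_norm θ₀ hv x⟩ : E3 →ₗᵢ[ℝ] E3).toLinearIsometryEquiv rfl,
    fun x => rfl, ?_, fun x => ?_⟩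
  · have h1 := rota_n_sq θ₀
    have h2 := rota_inner (θ₀ : E3) (dirS ((θ₀ : E3) + v) : E3)
    have h3 : inner ℝ (mkE (cr (fun i => (θ₀ : E3) i) (fun i => (dirS ((θ₀ : E3) + v) : E3) i)))
        (θ₀ : E3) = (0 : ℝ) := by
      rw [rota_inner]
      simp only [mkE_apply, rota_cr0, rota_cr1, rota_cr2]
      ring
    ext i
    rw [rota_apply, h3, zero_div, zero_mul, add_zero, h2]
    set a0 := (θ₀ : E3) 0
    set a1 := (θ₀ : E3) 1
    set a2 := (θ₀ : E3) 2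
    set n0 := (dirS ((θ₀ : E3) + v) : E3) 0
    set n1 := (dirS ((θ₀ : E3) + v) : E3) 1
    set n2 := (dirS ((θ₀ : E3) + v) : E3) 2
    fin_cases i
    · simp only [Fin.zero_eta, Fin.isValue, rota_cr0, rota_cr1, rota_cr2]
      linear_combination n0 * h1
    · simp only [Fin.mk_one, Fin.isValue, rota_cr0, rota_cr1, rota_cr2]
      linear_combination n1 * h1
    · simp only [Fin.reduceFinMk, Fin.isValue, rota_cr0, rota_cr1, rota_cr2]
      linear_combination n2 * h1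
  · have hD : ∀ i j, DM (Rot θ₀ v) x i j = Rot θ₀ v (bv j) i := fun i j => by
      simp only [DM]; rw [rota_fderiv]
    simp only [det3, Matrix.det_fin_three, Matrix.of_apply, hD]
    have ha := rota_n_sq θ₀
    have hn := rota_n_sq (dirS ((θ₀ : E3) + v))
    have h2 := rota_inner (θ₀ : E3) (dirS ((θ₀ : E3) + v) : E3)
    simp only [rota_apply, rota_cr0, rota_cr1, rota_cr2, rota_inner (mkE _), mkE_apply]
    set c := inner ℝ (θ₀ : E3) (dirS ((θ₀ : E3) + v) : E3)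
    set a0 := (θ₀ : E3) 0
    set a1 := (θ₀ : E3) 1
    set a2 := (θ₀ : E3) 2
    set n0 := (dirS ((θ₀ : E3) + v) : E3) 0
    set n1 := (dirS ((θ₀ : E3) + v) : E3) 1
    set n2 := (dirS ((θ₀ : E3) + v) : E3) 2
    simp only [bv, PiLp.single_apply]
    simp only [Fin.isValue, if_true, if_false, Fin.reduceEq, one_ne_zero, zero_ne_one, mul_zero, mul_one,
      sub_zero, zero_sub, add_zero, zero_add]
    set k0 := a1 * n2 - a2 * n1 with hk0
    set k1 := a2 * n0 - a0 * n2 with hk1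
    set k2 := a0 * n1 - a1 * n0 with hk2
    have hk : k0 ^ 2 + k1 ^ 2 + k2 ^ 2 = 1 - c ^ 2 := by
      rw [hk0, hk1, hk2, h2]
      have : (a1 * n2 - a2 * n1) ^ 2 + (a2 * n0 - a0 * n2) ^ 2 + (a0 * n1 - a1 * n0) ^ 2 =
        (a0 ^ 2 + a1 ^ 2 + a2 ^ 2) * (n0 ^ 2 + n1 ^ 2 + n2 ^ 2) -
          (a0 * n0 + a1 * n1 + a2 * n2) ^ 2 := by ring
      rw [this, ha, hn]; ring
    have hc1 : (1 + c) ≠ 0 := by linarith
    set l := (1 + c)⁻¹ with hl
    have hl1 : l * (1 + c) = 1 := inv_mul_cancel₀ hc1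
    simp only [div_eq_mul_inv]
    rw [← hl]
    have key : (c ^ 2 + (k0 ^ 2 + k1 ^ 2 + k2 ^ 2)) * (c + l * (k0 ^ 2 + k1 ^ 2 + k2 ^ 2)) = 1 := by
      rw [hk]
      have : c + l * (1 - c ^ 2) = 1 := by linear_combination (1 - c) * hl1
      rw [this]; ring
    rw [← key]
    ring

theorem Rot_zero (θ₀ : S2) (x : E3) : Rot θ₀ 0 x = x := by
  have h0 : (dirS ((θ₀ : E3) + 0) : E3) = θ₀ := by rw [add_zero, dirS_S2]
  have h1 : inner ℝ (θ₀ : E3) (θ₀ : E3) = (1 : ℝ) := by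
    rw [real_inner_self_eq_norm_sq, norm_S2]; norm_num
  ext i
  rw [rota_apply, h0, h1]
  fin_cases i <;>
  · simp only [Fin.zero_eta, Fin.mk_one, Fin.reduceFinMk, Fin.isValue, rota_cr0, rota_cr1, rota_cr2]
    ring

theorem rota_dir_smooth (θ₀ : S2) : ContDiffOn ℝ ∞ (fun p : E3 × E3 => (dirS ((θ₀ : E3) + p.1) : E3))
    (Metric.ball 0 1 ×ˢ univ) := by
  have hne : ∀ p ∈ (Metric.ball (0 : E3) 1 ×ˢ (univ : Set E3)), (θ₀ : E3) + p.1 ≠ 0 := fun p hp =>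
    rota_ne θ₀ (mem_ball_zero_iff.1 hp.1)
  have h1 : ContDiffOn ℝ ∞ (fun p : E3 × E3 => (θ₀ : E3) + p.1) (Metric.ball 0 1 ×ˢ univ) := by
    fun_prop
  have h2 : ContDiffOn ℝ ∞ (fun p : E3 × E3 => ‖(θ₀ : E3) + p.1‖⁻¹ • ((θ₀ : E3) + p.1))
      (Metric.ball 0 1 ×ˢ univ) :=
    ((h1.norm ℝ hne).inv (fun p hp => norm_ne_zero_iff.2 (hne p hp))).smul h1
  exact h2.congr (fun p hp => dirS_coe (hne p hp))

theorem Rot_smooth (θ₀ : S2) : ContDiffOn ℝ ∞ (fun p : E3 × E3 => Rot θ₀ p.1 p.2)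
    (Metric.ball 0 1 ×ˢ univ) := by
  have hn := rota_dir_smooth θ₀
  have hni : ∀ i, ContDiffOn ℝ ∞ (fun p : E3 × E3 => (dirS ((θ₀ : E3) + p.1) : E3) i)
      (Metric.ball 0 1 ×ˢ univ) := contDiffOn_euclidean.1 hn
  have hxi : ∀ i, ContDiffOn ℝ ∞ (fun p : E3 × E3 => p.2 i) (Metric.ball 0 1 ×ˢ univ) :=
    contDiffOn_euclidean.1 contDiff_snd.contDiffOn
  have hc : ContDiffOn ℝ ∞ (fun p : E3 × E3 => inner ℝ (θ₀ : E3) (dirS ((θ₀ : E3) + p.1) : E3))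
      (Metric.ball 0 1 ×ˢ univ) := contDiffOn_const.inner ℝ hn
  have h0 := hni 0
  have h1 := hni 1
  have h2 := hni 2
  have x0 := hxi 0
  have x1 := hxi 1
  have x2 := hxi 2
  have hq : ContDiffOn ℝ ∞ (fun p : E3 × E3 =>
      (inner ℝ (mkE (cr (fun i => (θ₀ : E3) i) (fun i => (dirS ((θ₀ : E3) + p.1) : E3) i))) p.2 /
      (1 + inner ℝ (θ₀ : E3) (dirS ((θ₀ : E3) + p.1) : E3)))) (Metric.ball 0 1 ×ˢ univ) := by
    refine ContDiffOn.div ?_ (contDiffOn_const.add hc) (fun p hp => ?_)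
    · simp only [rota_inner, mkE_apply, rota_cr0, rota_cr1, rota_cr2]
      fun_prop
    · have := rota_c_pos θ₀ (mem_ball_zero_iff.1 hp.1)
      positivity
  rw [contDiffOn_euclidean]
  intro i
  simp only [rota_apply]
  fin_cases i
  · simp only [Fin.zero_eta, Fin.mk_one, Fin.reduceFinMk, Fin.isValue, rota_cr0, rota_cr1, rota_cr2]
    fun_prop
  · simp only [Fin.zero_eta, Fin.mk_one, Fin.reduceFinMk, Fin.isValue, rota_cr0, rota_cr1, rota_cr2]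
    fun_prop
  · simp only [Fin.zero_eta, Fin.mk_one, Fin.reduceFinMk, Fin.isValue, rota_cr0, rota_cr1, rota_cr2]
    fun_prop

/-- the cut-off function of `psiL` -/
def rotaChi (y : E3) : ℝ := Real.smoothTransition (3 - ‖y‖)

theorem rotaChi_smooth : ContDiff ℝ ∞ rotaChi := by
  rw [contDiff_iff_contDiffAt]
  intro y
  by_cases hy : y = 0
  · have h1 : rotaChi =ᶠ[𝓝 y] fun _ => 1 := by
      filter_upwards [Metric.ball_mem_nhds y (one_pos)] with z hz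
      rw [hy, mem_ball_zero_iff] at hz
      exact Real.smoothTransition.one_of_one_le (by linarith)
    exact contDiffAt_const.congr_of_eventuallyEq h1
  · exact Real.smoothTransition.contDiff.contDiffAt.comp y
      (contDiffAt_const.sub (contDiffAt_norm ℝ hy))

theorem rotaChi_zero {y : E3} (hy : 3 ≤ ‖y‖) : rotaChi y = 0 :=
  Real.smoothTransition.zero_of_nonpos (by linarith)

theorem rotaChi_one {y : E3} (hy : ‖y‖ ≤ 2) : rotaChi y = 1 :=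
  Real.smoothTransition.one_of_one_le (by linarith)

/-- the perturbation of `psiL` -/
def rotaF (θ₀ : S2) (q : (E3 × ℝ × E3) × E3) : E3 :=
  rotaChi q.2 • (q.1.1 + (1 + q.1.2.1) • Rot θ₀ q.1.2.2 q.2 - q.2)

theorem rotaF_smooth (θ₀ : S2) : ContDiffOn ℝ ∞ (rotaF θ₀) (Metric.ball 0 1 ×ˢ univ) := by
  have hg1 : ContDiffOn ℝ ∞ (fun q : (E3 × ℝ × E3) × E3 => q.1.2.2) (Metric.ball 0 1 ×ˢ univ) :=
    (contDiff_snd.comp (contDiff_snd.comp contDiff_fst)).contDiffOn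
  have hg2 : ContDiffOn ℝ ∞ (fun q : (E3 × ℝ × E3) × E3 => q.2) (Metric.ball 0 1 ×ˢ univ) :=
    contDiff_snd.contDiffOn
  have hg : ContDiffOn ℝ ∞ (fun q : (E3 × ℝ × E3) × E3 => ((q.1.2.2, q.2) : E3 × E3))
      (Metric.ball 0 1 ×ˢ univ) := hg1.prodMk hg2
  have hmaps : MapsTo (fun q : (E3 × ℝ × E3) × E3 => ((q.1.2.2, q.2) : E3 × E3))
      (Metric.ball 0 1 ×ˢ univ) (Metric.ball 0 1 ×ˢ univ) := by
    intro q hq
    have h2 : ‖q.1‖ < 1 := mem_ball_zero_iff.1 hq.1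
    have h3 : ‖q.1.2.2‖ ≤ ‖q.1‖ := (norm_snd_le q.1.2).trans (norm_snd_le q.1)
    exact ⟨mem_ball_zero_iff.2 (h3.trans_lt h2), mem_univ _⟩
  have h1 : ContDiffOn ℝ ∞ (fun q : (E3 × ℝ × E3) × E3 => Rot θ₀ q.1.2.2 q.2)
      (Metric.ball 0 1 ×ˢ univ) := ContDiffOn.comp
        (g := fun p : E3 × E3 => Rot θ₀ p.1 p.2)
        (f := fun q : (E3 × ℝ × E3) × E3 => ((q.1.2.2, q.2) : E3 × E3)) (Rot_smooth θ₀) hg hmaps
  have h2 : ContDiffOn ℝ ∞ (fun q : (E3 × ℝ × E3) × E3 => rotaChi q.2)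
      (Metric.ball 0 1 ×ˢ univ) := (rotaChi_smooth.comp contDiff_snd).contDiffOn
  have h3 : ContDiffOn ℝ ∞ (fun q : (E3 × ℝ × E3) × E3 => q.1.1) (Metric.ball 0 1 ×ˢ univ) :=
    (contDiff_fst.comp contDiff_fst).contDiffOn
  have h4 : ContDiffOn ℝ ∞ (fun q : (E3 × ℝ × E3) × E3 => 1 + q.1.2.1)
      (Metric.ball 0 1 ×ˢ univ) :=
    contDiffOn_const.add (contDiff_fst.comp (contDiff_snd.comp contDiff_fst)).contDiffOn
  exact h2.smul ((h3.add (h4.smul h1)).sub hg2)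

theorem rotaF_zero (θ₀ : S2) (y : E3) : rotaF θ₀ (0, y) = 0 := by
  simp only [rotaF, Prod.fst_zero, Prod.snd_zero, Rot_zero]
  simp

theorem rotaF_far (θ₀ : S2) (p : E3 × ℝ × E3) {y : E3} (hy : 3 ≤ ‖y‖) : rotaF θ₀ (p, y) = 0 := by
  simp only [rotaF, rotaChi_zero hy, zero_smul]

theorem psiL_eq (θ₀ : S2) (p : E3 × ℝ × E3) (y : E3) : psiL θ₀ p y = y + rotaF θ₀ (p, y) := rfl

/-- uniform smallness of the derivative -/
theorem rotaF_small (θ₀ : S2) : ∃ δ : ℝ, 0 < δ ∧ δ ≤ 1 ∧ ∀ p : E3 × ℝ × E3, ‖p‖ < δ → ∀ y,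
    ‖fderiv ℝ (fun y => rotaF θ₀ (p, y)) y‖ ≤ 1 / 2 := by
  have hopen : IsOpen (Metric.ball (0 : E3 × ℝ × E3) 1 ×ˢ (univ : Set E3)) :=
    Metric.isOpen_ball.prod isOpen_univ
  have hF := rotaF_smooth θ₀
  have hFd : ∀ q ∈ (Metric.ball (0 : E3 × ℝ × E3) 1 ×ˢ (univ : Set E3)),
      HasFDerivAt (rotaF θ₀) (fderiv ℝ (rotaF θ₀) q) q := fun q hq =>
    ((hF.contDiffAt (hopen.mem_nhds hq)).differentiableAt (by simp)).hasFDerivAt
  have hc : ContinuousOn (fderiv ℝ (rotaF θ₀)) (Metric.ball (0 : E3 × ℝ × E3) 1 ×ˢ univ) :=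
    hF.continuousOn_fderiv_of_isOpen hopen (by simp)
  -- derivative in y
  have hdy : ∀ (p : E3 × ℝ × E3), ‖p‖ < 1 → ∀ y, fderiv ℝ (fun y => rotaF θ₀ (p, y)) y =
      (fderiv ℝ (rotaF θ₀) (p, y)).comp (ContinuousLinearMap.inr ℝ (E3 × ℝ × E3) E3) := by
    intro p hp y
    have h1 : HasFDerivAt (fun y : E3 => (p, y)) (ContinuousLinearMap.inr ℝ (E3 × ℝ × E3) E3) y :=
      hasFDerivAt_prodMk_right p y
    exact ((hFd (p, y) ⟨mem_ball_zero_iff.2 hp, mem_univ _⟩).comp y h1).fderiv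
  let G : (E3 × ℝ × E3) × E3 → (E3 →L[ℝ] E3) := fun q =>
    (fderiv ℝ (rotaF θ₀) q).comp (ContinuousLinearMap.inr ℝ (E3 × ℝ × E3) E3)
  have hG : ContinuousOn G (Metric.ball (0 : E3 × ℝ × E3) 1 ×ˢ univ) :=
    hc.clm_comp continuousOn_const
  have hG0 : ∀ y, G (0, y) = 0 := by
    intro y
    have h1 := hdy 0 (by simp) y
    show (fderiv ℝ (rotaF θ₀) (0, y)).comp (ContinuousLinearMap.inr ℝ (E3 × ℝ × E3) E3) = 0
    rw [← h1]
    have h2 : (fun y => rotaF θ₀ (0, y)) = fun _ => 0 := funext (rotaF_zero θ₀)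
    rw [h2]
    simp
  -- tube lemma
  let U : Set ((E3 × ℝ × E3) × E3) :=
    (Metric.ball (0 : E3 × ℝ × E3) 1 ×ˢ univ) ∩ G ⁻¹' (Metric.ball 0 (1 / 2))
  have hU : IsOpen U := hG.isOpen_inter_preimage hopen Metric.isOpen_ball
  have hK : ({(0 : E3 × ℝ × E3)} : Set _) ×ˢ Metric.closedBall (0 : E3) 3 ⊆ U := by
    rintro ⟨p, y⟩ ⟨hp, hy⟩
    rw [mem_singleton_iff] at hp
    simp only at hp
    subst hp
    refine ⟨⟨by simp, mem_univ _⟩, ?_⟩
    rw [mem_preimage, hG0]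
    simp
  obtain ⟨u, v, hu, hv, hpu, hyv, huv⟩ := generalized_tube_lemma isCompact_singleton
    (isCompact_closedBall (0 : E3) 3) hU hK
  obtain ⟨δ, hδ, hδu⟩ := Metric.isOpen_iff.1 hu 0 (hpu rfl)
  refine ⟨min δ 1, lt_min hδ one_pos, min_le_right _ _, fun p hp y => ?_⟩
  have hp1 : ‖p‖ < 1 := hp.trans_le (min_le_right _ _)
  have hpδ : ‖p‖ < δ := hp.trans_le (min_le_left _ _)
  by_cases hy : ‖y‖ ≤ 3
  · rw [hdy p hp1 y]
    have h1 : ((p, y) : (E3 × ℝ × E3) × E3) ∈ U :=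
      huv ⟨hδu (mem_ball_zero_iff.2 hpδ), hyv (mem_closedBall_zero_iff.2 hy)⟩
    have h2 := h1.2
    rw [mem_preimage, mem_ball_zero_iff] at h2
    exact h2.le
  · push Not at hy
    have h1 : (fun y => rotaF θ₀ (p, y)) =ᶠ[𝓝 y] fun _ => 0 := by
      have : {z : E3 | 3 < ‖z‖} ∈ 𝓝 y := (isOpen_lt continuous_const continuous_norm).mem_nhds hy
      filter_upwards [this] with z hz
      exact rotaF_far θ₀ p (le_of_lt hz)
    rw [h1.fderiv_eq]
    simp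

theorem rota_det_of_bij (L : E3 →L[ℝ] E3) (a : M3) (ha : ∀ i j, a i j = L (bv j) i)
    (hL : Function.Injective L) : det3 a ≠ 0 := by
  intro h0
  obtain ⟨v, hv, hv0⟩ := Matrix.exists_mulVec_eq_zero_iff.2 h0
  apply hv
  have h1 : L (mkE v) = 0 := by
    have h2 : mkE v = ∑ j, v j • bv j := by
      ext i
      simp [bv, Fin.sum_univ_three, PiLp.add_apply, PiLp.smul_apply]
      fin_cases i <;> simp
    rw [h2, map_sum]
    ext i
    have h3 := congrFun hv0 i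
    simp only [Matrix.mulVec, dotProduct, Matrix.of_apply, Pi.zero_apply] at h3
    rw [PiLp.zero_apply, ← h3]
    simp only [map_smul, Fin.sum_univ_three, PiLp.add_apply, PiLp.smul_apply, smul_eq_mul, ha]
    ring
  have h2 : mkE v = 0 := hL (by rw [h1, map_zero])
  ext i
  have := congrArg (fun x : E3 => x i) h2
  simpa using this

theorem rota_homeo (f : E3 → E3) (hf : ContDiff ℝ 1 f)
    (hd : ∀ y, ‖fderiv ℝ f y - ContinuousLinearMap.id ℝ E3‖ ≤ 1 / 2)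
    (hfar : ∀ y, 3 ≤ ‖y‖ → f y = y) :
    ∃ Φ : E3 ≃ₜ E3, (∀ y, Φ y = f y) ∧ IsGD Φ := by
  have hdiff : Differentiable ℝ f := hf.differentiable (by simp)
  have happ : ApproximatesLinearOn f ((ContinuousLinearEquiv.refl ℝ E3 : E3 ≃L[ℝ] E3) : E3 →L[ℝ] E3)
      univ (1 / 2 : NNReal) := by
    intro x _ y _
    have h1 : ∀ z ∈ (univ : Set E3), HasFDerivWithinAt (fun z => f z - z)
        (fderiv ℝ f z - ContinuousLinearMap.id ℝ E3) univ z := fun z _ =>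
      ((hdiff z).hasFDerivAt.sub (hasFDerivAt_id z)).hasFDerivWithinAt
    have h2 := Convex.norm_image_sub_le_of_norm_hasFDerivWithin_le h1 (fun z _ => hd z)
      convex_univ (mem_univ y) (mem_univ x)
    have h3 : f x - x - (f y - y) = f x - f y - (x - y) := by abel
    rw [h3] at h2
    simpa using h2
  have hN : Subsingleton E3 ∨ (1 / 2 : NNReal) <
      ‖((ContinuousLinearEquiv.refl ℝ E3).symm : E3 →L[ℝ] E3)‖₊⁻¹ := by
    right
    have h1 : ‖((ContinuousLinearEquiv.refl ℝ E3).symm : E3 →L[ℝ] E3)‖₊ ≤ 1 := by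
      rw [← NNReal.coe_le_coe]
      exact ContinuousLinearMap.norm_id_le
    have h2 : (1 : NNReal) ≤ ‖((ContinuousLinearEquiv.refl ℝ E3).symm : E3 →L[ℝ] E3)‖₊⁻¹ := by
      apply (one_le_inv₀ ?_).2 h1
      rw [← NNReal.coe_pos]
      exact norm_pos_iff.2 (by
        intro h
        have := congrArg (fun L : E3 →L[ℝ] E3 => L (bv 0)) h
        simp [bv] at this)
    refine lt_of_lt_of_le ?_ h2
    rw [← NNReal.coe_lt_coe]
    norm_num
  have hlow : ∀ y v, ‖v‖ ≤ 2 * ‖fderiv ℝ f y v‖ := by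
    intro y v
    have h1 := (fderiv ℝ f y - ContinuousLinearMap.id ℝ E3).le_opNorm v
    have h2 : ‖(fderiv ℝ f y - ContinuousLinearMap.id ℝ E3) v‖ ≤ 1 / 2 * ‖v‖ :=
      h1.trans (mul_le_mul_of_nonneg_right (hd y) (norm_nonneg _))
    simp only [sub_apply, ContinuousLinearMap.id_apply] at h2
    have h3 : ‖v‖ ≤ ‖fderiv ℝ f y v‖ + ‖fderiv ℝ f y v - v‖ := by
      have : v = fderiv ℝ f y v - (fderiv ℝ f y v - v) := by abel
      calc ‖v‖ = ‖fderiv ℝ f y v - (fderiv ℝ f y v - v)‖ := by rw [← this]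
        _ ≤ _ := norm_sub_le _ _
    linarith
  have hup : ∀ y v, ‖fderiv ℝ f y v‖ ≤ 2 * ‖v‖ := by
    intro y v
    have h1 := (fderiv ℝ f y - ContinuousLinearMap.id ℝ E3).le_opNorm v
    have h2 : ‖(fderiv ℝ f y - ContinuousLinearMap.id ℝ E3) v‖ ≤ 1 / 2 * ‖v‖ :=
      h1.trans (mul_le_mul_of_nonneg_right (hd y) (norm_nonneg _))
    simp only [sub_apply, ContinuousLinearMap.id_apply] at h2
    have h3 : ‖fderiv ℝ f y v‖ ≤ ‖v‖ + ‖fderiv ℝ f y v - v‖ := by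
      have : fderiv ℝ f y v = v + (fderiv ℝ f y v - v) := by abel
      calc ‖fderiv ℝ f y v‖ = ‖v + (fderiv ℝ f y v - v)‖ := by rw [← this]
        _ ≤ _ := norm_add_le _ _
    linarith [norm_nonneg v]
  have hne : ∀ y, det3 (DM f y) ≠ 0 := by
    intro y
    refine rota_det_of_bij (fderiv ℝ f y) _ (fun i j => rfl) ?_
    rw [injective_iff_map_eq_zero]
    intro v hv
    have := hlow y v
    rw [hv, norm_zero, mul_zero] at this
    exact norm_le_zero_iff.1 this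
  have hcont : Continuous (fun y => det3 (DM f y)) := by
    have h1 : Continuous (fderiv ℝ f) := hf.continuous_fderiv (by simp)
    have h2 : ∀ i j, Continuous (fun y => DM f y i j) := fun i j => by
      have h3 : Continuous (fun y => fderiv ℝ f y (bv j)) := h1.clm_apply continuous_const
      exact (EuclideanSpace.proj i : E3 →L[ℝ] ℝ).continuous.comp h3
    simp only [det3, Matrix.det_fin_three, Matrix.of_apply]
    have a00 := h2 0 0
    have a01 := h2 0 1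
    have a02 := h2 0 2
    have a10 := h2 1 0
    have a11 := h2 1 1
    have a12 := h2 1 2
    have a20 := h2 2 0
    have a21 := h2 2 1
    have a22 := h2 2 2
    fun_prop
  have hone : det3 (DM f ((4 : ℝ) • bv 0)) = 1 := by
    have h4 : ‖(4 : ℝ) • bv 0‖ = 4 := by rw [norm_smul]; simp [bv]
    have h1 : f =ᶠ[𝓝 ((4 : ℝ) • bv 0)] id := by
      have : {z : E3 | 3 < ‖z‖} ∈ 𝓝 ((4 : ℝ) • bv 0) :=
        (isOpen_lt continuous_const continuous_norm).mem_nhds (by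
          show 3 < ‖(4 : ℝ) • bv 0‖
          rw [h4]; norm_num)
      filter_upwards [this] with z hz
      exact hfar z (le_of_lt hz)
    have h2 : ∀ i j, DM f ((4 : ℝ) • bv 0) i j = if i = j then 1 else 0 := by
      intro i j
      simp only [DM]
      rw [h1.fderiv_eq, fderiv_id]
      simp [bv]
    simp only [det3, Matrix.det_fin_three, Matrix.of_apply, h2]
    simp
  have hpos : ∀ y, 0 < det3 (DM f y) := by
    intro y
    by_contra hle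
    push Not at hle
    have hlt : det3 (DM f y) < 0 := lt_of_le_of_ne hle (hne y)
    have hiv := intermediate_value_univ y ((4 : ℝ) • bv 0) hcont
    obtain ⟨z, hz⟩ := hiv (show (0 : ℝ) ∈ Icc _ _ from ⟨hlt.le, by rw [hone]; norm_num⟩)
    exact hne z hz
  refine ⟨happ.toHomeomorph f hN, fun y => rfl, ?_⟩
  have hfun : (⇑(happ.toHomeomorph f hN) : E3 → E3) = f := rfl
  exact ⟨by rw [hfun]; exact hf, by rw [hfun]; exact hpos, ⟨2, by
    rw [hfun]; exact fun y v => ⟨hup y v, hlow y v⟩⟩⟩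

theorem rota_pb {Φ : E3 → E3} (hΦ : ∀ y, 0 < det3 (DM Φ y)) (A : E3 → M3) :
    IsPB Φ 1 A (pbM Φ A) univ := by
  intro y _ i j
  have hdet : IsUnit (Matrix.of (DM Φ y)).det := isUnit_iff_ne_zero.2 (hΦ y).ne'
  set D := Matrix.of (DM Φ y) with hD
  set B := Matrix.of (A (Φ y)) with hB
  have h1 : ∑ k, ∑ l, DM Φ y i k * pbM Φ A y k l * DM Φ y j l =
      det3 (DM Φ y) * (D * (D⁻¹ * B * D⁻¹.transpose) * D.transpose) i j := by
    rw [Matrix.mul_apply]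
    simp only [Matrix.mul_apply (M := D) , Matrix.transpose_apply, Finset.mul_sum, Finset.sum_mul]
    rw [Finset.sum_comm]
    refine Finset.sum_congr rfl (fun l _ => Finset.sum_congr rfl (fun k _ => ?_))
    simp only [pbM, ← hD, ← hB]
    show DM Φ y i k * (det3 (DM Φ y) * (D⁻¹ * B * D⁻¹.transpose) k l) * DM Φ y j l =
      det3 (DM Φ y) * (DM Φ y i k * (D⁻¹ * B * D⁻¹.transpose) k l * DM Φ y j l)
    ring
  rw [h1, one_mul]
  have h2 : D * (D⁻¹ * B * D⁻¹.transpose) * D.transpose = B := by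
    have h3 : D * D⁻¹ = 1 := Matrix.mul_nonsing_inv D hdet
    have h4 : D⁻¹.transpose * D.transpose = 1 := by
      rw [← Matrix.transpose_mul, h3, Matrix.transpose_one]
    calc D * (D⁻¹ * B * D⁻¹.transpose) * D.transpose
        = (D * D⁻¹) * B * (D⁻¹.transpose * D.transpose) := by
          simp only [Matrix.mul_assoc]
      _ = B := by rw [h3, h4, one_mul, mul_one]
  rw [h2]
  rfl

theorem psiL_homeo (θ₀ : S2) : ∃ δ : ℝ, 0 < δ ∧ ∀ p : E3 × ℝ × E3, ‖p‖ < δ →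
    ∃ Φ : E3 ≃ₜ E3, (∀ y, Φ y = psiL θ₀ p y) ∧ IsGD Φ ∧ (∀ y, 3 ≤ ‖y‖ → Φ y = y) ∧
    (∀ y, ‖y‖ ≤ 2 → Φ y = p.1 + (1 + p.2.1) • Rot θ₀ p.2.2 y) ∧
    ∀ A : E3 → M3, IsPB Φ 1 A (pbM (psiL θ₀ p) A) univ := by
  obtain ⟨δ, hδ, hδ1, hsm⟩ := rotaF_small θ₀
  refine ⟨δ, hδ, fun p hp => ?_⟩
  have hF : ContDiff ℝ 1 (fun y => rotaF θ₀ (p, y)) := by
    have h1 : ContDiffOn ℝ ∞ (fun y : E3 => rotaF θ₀ (p, y)) univ :=
      ContDiffOn.comp (g := rotaF θ₀) (f := fun y : E3 => (p, y)) (rotaF_smooth θ₀)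
        (contDiff_prodMk_right p).contDiffOn
        (fun y _ => ⟨mem_ball_zero_iff.2 (hp.trans_le hδ1), mem_univ _⟩)
    exact (contDiffOn_univ.1 h1).of_le (by norm_cast)
  have hf : ContDiff ℝ 1 (psiL θ₀ p) := contDiff_id.add hF
  have hd : ∀ y, ‖fderiv ℝ (psiL θ₀ p) y - ContinuousLinearMap.id ℝ E3‖ ≤ 1 / 2 := by
    intro y
    have h1 : HasFDerivAt (psiL θ₀ p) (ContinuousLinearMap.id ℝ E3 +
        fderiv ℝ (fun y => rotaF θ₀ (p, y)) y) y :=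
      (hasFDerivAt_id y).add ((hF.differentiable (by simp) y).hasFDerivAt)
    rw [h1.fderiv, add_sub_cancel_left]
    exact hsm p hp y
  have hfar : ∀ y, 3 ≤ ‖y‖ → psiL θ₀ p y = y := by
    intro y hy
    rw [psiL_eq, rotaF_far θ₀ p hy, add_zero]
  obtain ⟨Φ, hΦ, hgd⟩ := rota_homeo (psiL θ₀ p) hf hd hfar
  have hfun : (⇑Φ : E3 → E3) = psiL θ₀ p := funext hΦ
  refine ⟨Φ, hΦ, hgd, fun y hy => by rw [hΦ, hfar y hy], fun y hy => ?_, fun A => ?_⟩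
  · rw [hΦ, psiL_eq, rotaF]
    simp only [rotaChi_one hy, one_smul]
    abel
  · have := rota_pb (Φ := Φ) hgd.det A
    rw [hfun] at this ⊢
    exact this

end

end Pool.Agent.BS
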