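import Pool.Agent.BS.Defs4

/-!
# Module KER1: Poisson kernel, smoothness and harmonicity
-/

namespace Pool.Agent.BS

open MeasureTheory Topology Set Filter
open scoped ContDiff

noncomputable section

/-- total mass of the sphere -/
theorem sig_univ : sig univ = ENNReal.ofReal (4 * Real.pi) := by
  rw [sig, Measure.toSphere_apply_univ, EuclideanSpace.volume_ball_fin_three]
  simp only [finrank_euclideanSpace, Fintype.card_fin, ENNReal.ofReal_one, one_pow, one_mul]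
  have h3 : ((3 : ℕ) : ENNReal) = ENNReal.ofReal 3 := by simp
  rw [h3, ← ENNReal.ofReal_mul (by norm_num)]
  congr 1
  ring

/-- joint smoothness on `ball × sphere` -/
def Ker1Sm {F : Type} [NormedAddCommGroup F] [NormedSpace ℝ F] (K : E3 → E3 → F) : Prop :=
  ∀ x y : E3, ‖x‖ < 1 → ‖y‖ = 1 → ContDiffAt ℝ ∞ (Function.uncurry K) (x, y)

theorem Ker1Sm.fderiv {F : Type} [NormedAddCommGroup F] [NormedSpace ℝ F] {K : E3 → E3 → F}
    (hK : Ker1Sm K) : Ker1Sm (fun x y => fderiv ℝ (fun x' => K x' y) x) := by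
  intro x y hx hy
  have h1 : ContDiffAt ℝ ∞ (Function.uncurry (fun (p : E3 × E3) (x' : E3) => K x' p.2))
      (((x, y) : E3 × E3), x) := by
    have h2 : (Function.uncurry (fun (p : E3 × E3) (x' : E3) => K x' p.2)) =
        (Function.uncurry K) ∘ (fun q : (E3 × E3) × E3 => (q.2, q.1.2)) := rfl
    rw [h2]
    refine ContDiffAt.comp _ (hK x y hx hy) ?_
    exact contDiffAt_snd.prodMk (contDiffAt_snd.comp _ contDiffAt_fst)
  exact ContDiffAt.fderiv (f := fun (p : E3 × E3) (x' : E3) => K x' p.2) (g := fun p => p.1)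
    (x₀ := (x, y)) h1 contDiffAt_fst (by simp)

theorem Ker1Sm.slice {F : Type} [NormedAddCommGroup F] [NormedSpace ℝ F] {K : E3 → E3 → F}
    (hK : Ker1Sm K) {x y : E3} (hx : ‖x‖ < 1) (hy : ‖y‖ = 1) :
    ContDiffAt ℝ ∞ (fun x' => K x' y) x := by
  have h2 : (fun x' => K x' y) = (Function.uncurry K) ∘ (fun x' : E3 => (x', y)) := rfl
  rw [h2]
  exact ContDiffAt.comp _ (hK x y hx hy) (contDiffAt_id.prodMk contDiffAt_const)

theorem Ker1Sm.contOn {F : Type} [NormedAddCommGroup F] [NormedSpace ℝ F] {K : E3 → E3 → F}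
    (hK : Ker1Sm K) {x : E3} (hx : ‖x‖ < 1) : Continuous (fun η : S2 => K x η) := by
  rw [continuous_iff_continuousAt]
  intro η
  have h1 : ContinuousAt (Function.uncurry K) (x, (η : E3)) := (hK x η hx (norm_S2 η)).continuousAt
  have h2 : ContinuousAt (fun η : S2 => ((x, (η : E3)) : E3 × E3)) η := by fun_prop
  exact ContinuousAt.comp (f := fun η : S2 => ((x, (η : E3)) : E3 × E3)) h1 h2

theorem ker1_hasFDerivAt {F : Type} [NormedAddCommGroup F] [NormedSpace ℝ F] [CompleteSpace F]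
    {K : E3 → E3 → F} (hK : Ker1Sm K) (f : C(S2, ℝ)) {x : E3} (hx : ‖x‖ < 1) :
    HasFDerivAt (fun x => ∫ η : S2, f η • K x η ∂sig)
      (∫ η : S2, f η • fderiv ℝ (fun x' => K x' η) x ∂sig) x := by
  obtain ⟨ρ, h1, h2⟩ := exists_between hx
  -- bound
  have hcomp : IsCompact (Metric.closedBall (0 : E3) ρ ×ˢ Metric.sphere (0 : E3) 1) :=
    (isCompact_closedBall _ _).prod (isCompact_sphere _ _)
  have hcont : ContinuousOn (fun p : E3 × E3 => fderiv ℝ (fun x' => K x' p.2) p.1)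
      (Metric.closedBall (0 : E3) ρ ×ˢ Metric.sphere (0 : E3) 1) := by
    intro p hp
    have hp1 : ‖p.1‖ < 1 := lt_of_le_of_lt (mem_closedBall_zero_iff.1 hp.1) h2
    have hp2 : ‖p.2‖ = 1 := mem_sphere_zero_iff_norm.1 hp.2
    exact (hK.fderiv p.1 p.2 hp1 hp2).continuousAt.continuousWithinAt
  obtain ⟨C, hC⟩ := hcomp.exists_bound_of_continuousOn hcont
  refine hasFDerivAt_integral_of_dominated_of_fderiv_le (s := Metric.ball 0 ρ)
    (F := fun x η => f η • K x η) (F' := fun x η => f η • fderiv ℝ (fun x' => K x' η) x)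
    (bound := fun _ => ‖f‖ * C) ?_ ?_ ?_ ?_ ?_ ?_ ?_
  · exact Metric.isOpen_ball.mem_nhds (mem_ball_zero_iff.2 h1)
  · filter_upwards [Metric.isOpen_ball.mem_nhds (mem_ball_zero_iff.2 hx)] with y hy
    exact (f.continuous.smul (hK.contOn (mem_ball_zero_iff.1 hy))).aestronglyMeasurable
  · exact (f.continuous.smul (hK.contOn hx)).integrable_of_hasCompactSupport
      (HasCompactSupport.of_compactSpace _)
  · exact (f.continuous.smul (hK.fderiv.contOn hx)).aestronglyMeasurable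
  · refine Eventually.of_forall (fun η y hy => ?_)
    rw [norm_smul]
    have := hC (y, (η : E3)) ⟨Metric.ball_subset_closedBall hy, η.2⟩
    exact mul_le_mul (f.norm_coe_le_norm η) this (norm_nonneg _) (norm_nonneg _)
  · exact integrable_const _
  · refine Eventually.of_forall (fun η y hy => ?_)
    have hy1 : ‖y‖ < 1 := (mem_ball_zero_iff.1 hy).trans h2
    exact (((hK.slice hy1 (norm_S2 η)).differentiableAt (by simp)).hasFDerivAt).const_smul (f η)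

theorem ker1_contDiffOn (f : C(S2, ℝ)) (n : ℕ) : ∀ (F : Type) [NormedAddCommGroup F]
    [NormedSpace ℝ F] [CompleteSpace F] (K : E3 → E3 → F), Ker1Sm K →
    ContDiffOn ℝ n (fun x => ∫ η : S2, f η • K x η ∂sig) (Metric.ball 0 1) := by
  induction n with
  | zero =>
    intro F _ _ _ K hK
    rw [Nat.cast_zero, contDiffOn_zero]
    intro x hx
    exact (ker1_hasFDerivAt hK f (mem_ball_zero_iff.1 hx)).continuousAt.continuousWithinAt
  | succ n ih =>
    intro F _ _ _ K hK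
    rw [Nat.cast_succ, contDiffOn_succ_iff_fderiv_of_isOpen Metric.isOpen_ball]
    refine ⟨fun x hx => (ker1_hasFDerivAt hK f
      (mem_ball_zero_iff.1 hx)).differentiableAt.differentiableWithinAt, by simp, ?_⟩
    refine (ih (E3 →L[ℝ] F) _ hK.fderiv).congr (fun x hx => ?_)
    exact (ker1_hasFDerivAt hK f (mem_ball_zero_iff.1 hx)).fderiv

/-- the Poisson kernel as a function on `E3 × E3` -/
def pk2 (x y : E3) : ℝ := (1 - ‖x‖ ^ 2) / (4 * Real.pi * ‖x - y‖ ^ 3)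

theorem ker1_ne {x y : E3} (hx : ‖x‖ < 1) (hy : ‖y‖ = 1) : x - y ≠ 0 := by
  intro h
  rw [sub_eq_zero.1 h, hy] at hx
  exact lt_irrefl _ hx

theorem ker1_sm : Ker1Sm pk2 := by
  intro x y hx hy
  have hne := ker1_ne hx hy
  have h1 : ContDiffAt ℝ ∞ (fun p : E3 × E3 => ‖p.1 - p.2‖) (x, y) :=
    (contDiffAt_fst.sub contDiffAt_snd).norm ℝ hne
  have h2 : ContDiffAt ℝ ∞ (fun p : E3 × E3 => ‖p.1‖ ^ 2) (x, y) := contDiffAt_fst.norm_sq ℝ
  refine ContDiffAt.div (contDiffAt_const.sub h2) (contDiffAt_const.mul (h1.pow 3)) ?_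
  have : 0 < ‖x - y‖ := norm_pos_iff.2 hne
  have := Real.pi_pos
  positivity

theorem ker1_PE (f : C(S2, ℝ)) : PE f = fun x => ∫ η : S2, f η • pk2 x η ∂sig := by
  funext x
  rw [PE]
  refine integral_congr_ae (Eventually.of_forall (fun η => ?_))
  simp only [pk, pk2, smul_eq_mul]
  ring

theorem PE_smooth (f : C(S2, ℝ)) : ContDiffOn ℝ ∞ (PE f) (Metric.ball 0 1) := by
  rw [ker1_PE, contDiffOn_infty]
  intro n
  exact ker1_contDiffOn f n ℝ _ ker1_sm

theorem Ker1Sm.pd {K : E3 → E3 → ℝ} (hK : Ker1Sm K) (i : Fin 3) :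
    Ker1Sm (fun x y => pd i (fun x' => K x' y) x) := by
  intro x y hx hy
  have := hK.fderiv x y hx hy
  exact this.clm_apply contDiffAt_const

theorem ker1_pd {K : E3 → E3 → ℝ} (hK : Ker1Sm K) (f : C(S2, ℝ)) {x : E3} (hx : ‖x‖ < 1)
    (i : Fin 3) : pd i (fun x => ∫ η : S2, f η • K x η ∂sig) x =
      ∫ η : S2, f η • pd i (fun x' => K x' η) x ∂sig := by
  rw [Pool.Agent.BS.pd, (ker1_hasFDerivAt hK f hx).fderiv, ContinuousLinearMap.integral_apply]
  · rfl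
  · exact (f.continuous.smul (hK.fderiv.contOn hx)).integrable_of_hasCompactSupport
      (HasCompactSupport.of_compactSpace _)

/-- powers of the squared distance -/
theorem ker1_pow_deriv (y : E3) (p : ℝ) {x : E3} (h : x - y ≠ 0) :
    HasFDerivAt (fun x => (‖x - y‖ ^ 2) ^ p)
      ((p * (‖x - y‖ ^ 2) ^ (p - 1) * 2) • innerSL ℝ (x - y)) x := by
  have h1 : HasFDerivAt (fun x => ‖x - y‖ ^ 2) ((2 : ℕ) • (innerSL ℝ (x - y)).comp
      (ContinuousLinearMap.id ℝ E3)) x := by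
    have := ((hasFDerivAt_id x).sub_const y).norm_sq
    simpa using this
  have hne : ‖x - y‖ ^ 2 ≠ 0 := pow_ne_zero 2 (norm_ne_zero_iff.2 h)
  have h2 := h1.rpow_const (p := p) (Or.inl hne)
  refine h2.congr_fderiv ?_
  ext v
  simp only [smul_apply, ContinuousLinearMap.comp_apply,
    ContinuousLinearMap.id_apply, smul_eq_mul, nsmul_eq_mul]
  push_cast
  ring

theorem ker1_inner_bv (x : E3) (i : Fin 3) : inner ℝ x (bv i) = x i := by
  rw [bv, EuclideanSpace.inner_single_right]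
  simp

theorem ker1_inner (x y : E3) : inner ℝ x y = ∑ i, x i * y i := by
  rw [PiLp.inner_apply]
  refine Finset.sum_congr rfl (fun i _ => ?_)
  simp [mul_comm]

/-- first derivatives of the kernel -/
theorem ker1_d1 (y : E3) (i : Fin 3) {x : E3} (h : x - y ≠ 0) :
    pd i (fun x => (1 - ‖x‖ ^ 2) * (‖x - y‖ ^ 2) ^ (-(3 : ℝ) / 2)) x =
      -2 * x i * (‖x - y‖ ^ 2) ^ (-(3 : ℝ) / 2) -
        3 * (1 - ‖x‖ ^ 2) * (x i - y i) * (‖x - y‖ ^ 2) ^ (-(5 : ℝ) / 2) := by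
  have h1 : HasFDerivAt (fun x : E3 => 1 - ‖x‖ ^ 2) (-((2 : ℕ) • (innerSL ℝ x))) x :=
    (hasStrictFDerivAt_norm_sq x).hasFDerivAt.const_sub 1
  have h2 := ker1_pow_deriv y (-(3 : ℝ) / 2) h
  have h3 : HasFDerivAt (fun x => (1 - ‖x‖ ^ 2) * (‖x - y‖ ^ 2) ^ (-(3 : ℝ) / 2)) _ x :=
    h1.mul h2
  rw [pd, h3.fderiv]
  simp only [add_apply, smul_apply, innerSL_apply_apply,
    neg_apply, ker1_inner_bv, smul_eq_mul, nsmul_eq_mul, PiLp.sub_apply]
  rw [show (-(3 : ℝ) / 2 - 1) = -5 / 2 by norm_num]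
  push_cast
  ring

/-- the coordinate function -/
theorem ker1_coord (i : Fin 3) (c : ℝ) (x : E3) :
    HasFDerivAt (fun x : E3 => x i - c) (innerSL ℝ (bv i)) x := by
  have h1 : HasFDerivAt (fun x : E3 => inner ℝ (bv i) x - c) (innerSL ℝ (bv i)) x :=
    ((innerSL ℝ (bv i)).hasFDerivAt).sub_const c
  refine h1.congr_of_eventuallyEq (Eventually.of_forall (fun z => ?_))
  show z i - c = inner ℝ (bv i) z - c
  rw [real_inner_comm, ker1_inner_bv]

/-- second derivatives of the kernel -/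
theorem ker1_d2 (y : E3) (i : Fin 3) {x : E3} (h : x - y ≠ 0) :
    pd i (pd i (fun x => (1 - ‖x‖ ^ 2) * (‖x - y‖ ^ 2) ^ (-(3 : ℝ) / 2))) x =
      -2 * (‖x - y‖ ^ 2) ^ (-(3 : ℝ) / 2) +
      12 * x i * (x i - y i) * (‖x - y‖ ^ 2) ^ (-(5 : ℝ) / 2) -
        3 * (1 - ‖x‖ ^ 2) * (‖x - y‖ ^ 2) ^ (-(5 : ℝ) / 2) +
        15 * (1 - ‖x‖ ^ 2) * (x i - y i) ^ 2 * (‖x - y‖ ^ 2) ^ (-(7 : ℝ) / 2) := by
  have hev : (pd i (fun x => (1 - ‖x‖ ^ 2) * (‖x - y‖ ^ 2) ^ (-(3 : ℝ) / 2))) =ᶠ[𝓝 x]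
      (fun x => (-2) * ((x i - 0) * (‖x - y‖ ^ 2) ^ (-(3 : ℝ) / 2)) -
        3 * ((1 - ‖x‖ ^ 2) * ((x i - y i) * (‖x - y‖ ^ 2) ^ (-(5 : ℝ) / 2)))) := by
    have : ∀ᶠ z in 𝓝 x, z - y ≠ 0 :=
      (continuous_id.sub continuous_const).continuousAt.eventually_ne h
    filter_upwards [this] with z hz
    rw [ker1_d1 y i hz]
    ring
  have h1 : HasFDerivAt (fun x : E3 => 1 - ‖x‖ ^ 2) (-((2 : ℕ) • (innerSL ℝ x))) x :=
    (hasStrictFDerivAt_norm_sq x).hasFDerivAt.const_sub 1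
  have h2 := ker1_pow_deriv y (-(3 : ℝ) / 2) h
  have h3 := ker1_pow_deriv y (-(5 : ℝ) / 2) h
  have h4 : HasFDerivAt (fun x => (-2) * ((x i - 0) * (‖x - y‖ ^ 2) ^ (-(3 : ℝ) / 2)) -
        3 * ((1 - ‖x‖ ^ 2) * ((x i - y i) * (‖x - y‖ ^ 2) ^ (-(5 : ℝ) / 2)))) _ x :=
    ((((ker1_coord i 0 x).mul h2).const_mul (-2)).sub
    ((h1.mul ((ker1_coord i (y i) x).mul h3)).const_mul 3))
  have hb : inner ℝ (bv i) (bv i) = (1 : ℝ) := by
    rw [ker1_inner_bv]; simp [bv]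
  rw [pd, hev.fderiv_eq, h4.fderiv]
  simp only [add_apply, smul_apply, innerSL_apply_apply, Pi.mul_apply,
    neg_apply, sub_apply, ker1_inner_bv, hb, smul_eq_mul,
    nsmul_eq_mul, PiLp.sub_apply]
  rw [show (-(3 : ℝ) / 2 - 1) = -5 / 2 by norm_num, show (-(5 : ℝ) / 2 - 1) = -7 / 2 by norm_num]
  push_cast
  ring

theorem ker1_pk2_eq (y : E3) (x : E3) (h : x - y ≠ 0) : pk2 x y =
    (4 * Real.pi)⁻¹ * ((1 - ‖x‖ ^ 2) * (‖x - y‖ ^ 2) ^ (-(3 : ℝ) / 2)) := by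
  have hp : 0 < ‖x - y‖ := norm_pos_iff.2 h
  have : (‖x - y‖ ^ 2) ^ (-(3 : ℝ) / 2) = (‖x - y‖ ^ 3)⁻¹ := by
    rw [← Real.rpow_natCast, ← Real.rpow_mul hp.le, ← Real.rpow_natCast, ← Real.rpow_neg hp.le]
    congr 1
    norm_num
  rw [pk2, this, div_eq_mul_inv, mul_inv]
  ring

theorem ker1_lap {x y : E3} (hx : ‖x‖ < 1) (hy : ‖y‖ = 1) :
    ∑ i, pd i (fun x => pd i (fun x' => pk2 x' y) x) x = 0 := by
  have h := ker1_ne hx hy
  set k : E3 → ℝ := fun x => (1 - ‖x‖ ^ 2) * (‖x - y‖ ^ 2) ^ (-(3 : ℝ) / 2) with hk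
  have hopen : ∀ᶠ z in 𝓝 x, z - y ≠ 0 :=
    (continuous_id.sub continuous_const).continuousAt.eventually_ne h
  have h1 : ∀ i, ∀ z, z - y ≠ 0 → pd i (fun x' => pk2 x' y) z = (4 * Real.pi)⁻¹ * pd i k z := by
    intro i z hz
    have hev : (fun x' => pk2 x' y) =ᶠ[𝓝 z] (fun x' => (4 * Real.pi)⁻¹ • k x') := by
      have : ∀ᶠ z' in 𝓝 z, z' - y ≠ 0 :=
        (continuous_id.sub continuous_const).continuousAt.eventually_ne hz
      filter_upwards [this] with z' hz'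
      rw [ker1_pk2_eq y z' hz', smul_eq_mul]
    rw [pd, hev.fderiv_eq, fderiv_fun_const_smul]
    · rfl
    · exact (((hasStrictFDerivAt_norm_sq z).hasFDerivAt.const_sub 1).mul
        (ker1_pow_deriv y (-(3 : ℝ) / 2) hz)).differentiableAt
  have h2 : ∀ i, pd i (fun x => pd i (fun x' => pk2 x' y) x) x =
      (4 * Real.pi)⁻¹ * pd i (pd i k) x := by
    intro i
    have hev : (fun x => pd i (fun x' => pk2 x' y) x) =ᶠ[𝓝 x]
        (fun x' => (4 * Real.pi)⁻¹ • pd i k x') := by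
      filter_upwards [hopen] with z' hz'
      rw [h1 i z' hz', smul_eq_mul]
    rw [pd, hev.fderiv_eq, fderiv_fun_const_smul]
    · rfl
    · have hd : (pd i k) =ᶠ[𝓝 x] (fun x => (-2) * ((x i - 0) * (‖x - y‖ ^ 2) ^ (-(3 : ℝ) / 2)) -
          3 * ((1 - ‖x‖ ^ 2) * ((x i - y i) * (‖x - y‖ ^ 2) ^ (-(5 : ℝ) / 2)))) := by
        filter_upwards [hopen] with z hz
        rw [ker1_d1 y i hz]
        ring
      refine (hd.differentiableAt_iff).2 ?_
      exact ((((ker1_coord i 0 x).mul (ker1_pow_deriv y (-(3 : ℝ) / 2) h)).const_mul (-2)).sub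
        ((((hasStrictFDerivAt_norm_sq x).hasFDerivAt.const_sub 1).mul
        ((ker1_coord i (y i) x).mul (ker1_pow_deriv y (-(5 : ℝ) / 2) h))).const_mul
          3)).differentiableAt
  simp only [h2]
  rw [← Finset.mul_sum]
  have h3 : ∑ i, pd i (pd i k) x = 0 := by
    simp only [hk, ker1_d2 y _ h]
    have hp : 0 < ‖x - y‖ ^ 2 := by positivity
    have e1 : (‖x - y‖ ^ 2) ^ (-(3 : ℝ) / 2) = (‖x - y‖ ^ 2) ^ (-(7 : ℝ) / 2) * (‖x - y‖ ^ 2) ^ 2 := by
      rw [← Real.rpow_natCast (‖x - y‖ ^ 2) 2, ← Real.rpow_add hp]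
      congr 1
      norm_num
    have e2 : (‖x - y‖ ^ 2) ^ (-(5 : ℝ) / 2) = (‖x - y‖ ^ 2) ^ (-(7 : ℝ) / 2) * (‖x - y‖ ^ 2) := by
      nth_rewrite 3 [← Real.rpow_one (‖x - y‖ ^ 2)]
      rw [← Real.rpow_add hp]
      congr 1
      norm_num
    have n1 : ‖x - y‖ ^ 2 = ∑ i, (x i - y i) ^ 2 := by
      rw [EuclideanSpace.norm_sq_eq]
      simp
    have n2 : ‖x‖ ^ 2 = ∑ i, (x i) ^ 2 := by
      rw [EuclideanSpace.norm_sq_eq]
      simp
    have n3 : ∑ i, (y i) ^ 2 = 1 := by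
      have : ‖y‖ ^ 2 = ∑ i, (y i) ^ 2 := by
        rw [EuclideanSpace.norm_sq_eq]
        simp
      rw [← this, hy, one_pow]
    rw [e1, e2]
    generalize (‖x - y‖ ^ 2) ^ (-(7 : ℝ) / 2) = P
    rw [n1, n2]
    simp only [Fin.sum_univ_three] at n3 ⊢
    linear_combination (-6 * P * ((x 0 - y 0) ^ 2 + (x 1 - y 1) ^ 2 + (x 2 - y 2) ^ 2)) * n3
  rw [h3, mul_zero]

theorem PE_harm (f : C(S2, ℝ)) (x : E3) (hx : ‖x‖ < 1) : ∑ i, pd i (pd i (PE f)) x = 0 := by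
  have h1 : ∀ i, pd i (pd i (PE f)) x =
      ∫ η : S2, f η • pd i (fun x => pd i (fun x' => pk2 x' η) x) x ∂sig := by
    intro i
    have hev : pd i (PE f) =ᶠ[𝓝 x] fun x => ∫ η : S2, f η • pd i (fun x' => pk2 x' η) x ∂sig := by
      filter_upwards [Metric.isOpen_ball.mem_nhds (mem_ball_zero_iff.2 hx)] with z hz
      rw [ker1_PE]
      exact ker1_pd ker1_sm f (mem_ball_zero_iff.1 hz) i
    rw [← ker1_pd (ker1_sm.pd i) f hx i]
    simp only [pd] at hev ⊢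
    rw [hev.fderiv_eq]
  simp only [h1]
  rw [← integral_finsetSum]
  · have : ∀ η : S2, ∑ i, f η • pd i (fun x => pd i (fun x' => pk2 x' η) x) x = 0 := by
      intro η
      rw [← Finset.smul_sum, ker1_lap hx (norm_S2 η), smul_zero]
    simp only [this, integral_zero]
  · intro i _
    exact (f.continuous.smul (((ker1_sm.pd i).pd i).contOn hx)).integrable_of_hasCompactSupport
      (HasCompactSupport.of_compactSpace _)

end

end Pool.Agent.BS
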