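import Pool.Agent.BS.El
import Pool.Agent.BS.Ker1

/-!
# Module XSP: the spaces X, YP and the projection
-/

namespace Pool.Agent.BS

open MeasureTheory Topology Set Filter
open scoped ContDiff Pointwise

noncomputable section

/-! ### Isometries and the surface measure -/

/-- action of a linear isometry on the sphere -/
def xspAct (ρ : E3 ≃ₗᵢ[ℝ] E3) : S2 ≃ₜ S2 where
  toFun θ := ⟨ρ (θ : E3), by rw [mem_sphere_zero_iff_norm, ρ.norm_map, norm_S2]⟩
  invFun θ := ⟨ρ.symm (θ : E3), by rw [mem_sphere_zero_iff_norm, ρ.symm.norm_map, norm_S2]⟩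
  left_inv θ := by apply Subtype.ext; simp
  right_inv θ := by apply Subtype.ext; simp
  continuous_toFun := Continuous.subtype_mk (ρ.continuous.comp continuous_subtype_val) _
  continuous_invFun := Continuous.subtype_mk (ρ.symm.continuous.comp continuous_subtype_val) _

theorem xspAct_coe (ρ : E3 ≃ₗᵢ[ℝ] E3) (θ : S2) : ((xspAct ρ θ : S2) : E3) = ρ (θ : E3) := rfl

theorem xsp_map (ρ : E3 ≃ₗᵢ[ℝ] E3) : Measure.map (xspAct ρ) sig = sig := by
  apply Measure.ext
  intro s hs
  rw [Measure.map_apply (xspAct ρ).continuous.measurable hs]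
  unfold sig
  rw [Measure.toSphere_apply' _ ((xspAct ρ).continuous.measurable hs),
    Measure.toSphere_apply' _ hs]
  have : Ioo (0:ℝ) 1 • ((↑) '' ((xspAct ρ) ⁻¹' s) : Set E3) =
      ρ ⁻¹' (Ioo (0:ℝ) 1 • ((↑) '' s : Set E3)) := by
    ext x
    simp only [Set.mem_smul, mem_image, mem_preimage]
    constructor
    · rintro ⟨t, ht, _, ⟨θ, hθ, rfl⟩, rfl⟩
      exact ⟨t, ht, _, ⟨xspAct ρ θ, hθ, rfl⟩, by rw [xspAct_coe, map_smul]⟩
    · rintro ⟨t, ht, _, ⟨θ, hθ, rfl⟩, hx⟩
      refine ⟨t, ht, _, ⟨(xspAct ρ).symm θ, by simpa using hθ, rfl⟩, ?_⟩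
      apply ρ.injective
      rw [← hx, map_smul, ← xspAct_coe, Homeomorph.apply_symm_apply]
  rw [this, (ρ.measurePreserving).measure_preimage_emb
    ρ.toHomeomorph.measurableEmbedding]

theorem xsp_integral (ρ : E3 ≃ₗᵢ[ℝ] E3) (f : S2 → ℝ) :
    ∫ θ, f (xspAct ρ θ) ∂sig = ∫ θ, f θ ∂sig := by
  have h : MeasurePreserving (xspAct ρ) sig sig := ⟨(xspAct ρ).continuous.measurable, xsp_map ρ⟩
  exact h.integral_comp (xspAct ρ).measurableEmbedding f

/-- change of sign of a coordinate -/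
def xspFlip (i : Fin 3) : E3 ≃ₗᵢ[ℝ] E3 :=
  LinearIsometryEquiv.piLpCongrRight 2
    (fun j => if j = i then LinearIsometryEquiv.neg ℝ else LinearIsometryEquiv.refl ℝ ℝ)

theorem xspFlip_self (i : Fin 3) (x : E3) : xspFlip i x i = -x i := by
  simp [xspFlip]

theorem xspFlip_ne {i j : Fin 3} (h : j ≠ i) (x : E3) : xspFlip i x j = x j := by
  simp [xspFlip, h]

/-- permutation of the coordinates -/
def xspPerm (e : Fin 3 ≃ Fin 3) : E3 ≃ₗᵢ[ℝ] E3 := LinearIsometryEquiv.piLpCongrLeft 2 ℝ ℝ e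

theorem xspPerm_apply (e : Fin 3 ≃ Fin 3) (x : E3) (i : Fin 3) :
    xspPerm e x i = x (e.symm i) := by
  simp [xspPerm, LinearIsometryEquiv.piLpCongrLeft_apply]
  
theorem xsp_int_coord (i : Fin 3) : ∫ θ : S2, (θ : E3) i ∂sig = 0 := by
  have h := xsp_integral (xspFlip i) (fun θ => (θ : E3) i)
  simp only [xspAct_coe, xspFlip_self] at h
  rw [integral_neg] at h
  linarith

theorem xsp_int_ne {i j : Fin 3} (hij : i ≠ j) : ∫ θ : S2, (θ : E3) i * (θ : E3) j ∂sig = 0 := by
  have h := xsp_integral (xspFlip i) (fun θ => (θ : E3) i * (θ : E3) j)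
  simp only [xspAct_coe, xspFlip_self, xspFlip_ne hij.symm, neg_mul] at h
  rw [integral_neg] at h
  linarith

theorem xsp_sig_real : sig.real univ = 4 * Real.pi := by
  rw [Measure.real, sig_univ, ENNReal.toReal_ofReal (by positivity)]

theorem xsp_sum_sq (θ : S2) : ∑ i, (θ : E3) i * (θ : E3) i = 1 := by
  have h := norm_S2 θ
  rw [EuclideanSpace.norm_eq, Real.sqrt_eq_one] at h
  exact (Finset.sum_congr rfl (fun i _ => by rw [Real.norm_eq_abs, sq_abs, sq])).trans h

theorem xsp_integrable {f : S2 → ℝ} (hf : Continuous f) : Integrable f sig :=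
  hf.integrable_of_hasCompactSupport (HasCompactSupport.of_compactSpace f)

theorem xsp_int_sq (i : Fin 3) : ∫ θ : S2, (θ : E3) i * (θ : E3) i ∂sig = 4 * Real.pi / 3 := by
  have hsw : ∀ a b : Fin 3, ∫ θ : S2, (θ : E3) a * (θ : E3) a ∂sig =
      ∫ θ : S2, (θ : E3) b * (θ : E3) b ∂sig := by
    intro a b
    have h := xsp_integral (xspPerm (Equiv.swap a b)) (fun θ => (θ : E3) b * (θ : E3) b)
    simp only [xspAct_coe, xspPerm_apply, Equiv.symm_swap, Equiv.swap_apply_right] at h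
    exact h
  have hs : ∑ j : Fin 3, ∫ θ : S2, (θ : E3) j * (θ : E3) j ∂sig = 4 * Real.pi := by
    rw [← integral_finsetSum]
    · simp only [xsp_sum_sq]
      simp [xsp_sig_real]
    · intro j _
      exact xsp_integrable (by fun_prop)
  rw [Finset.sum_congr rfl (fun j _ => hsw j i)] at hs
  simp at hs
  linarith

/-! ### Evaluation and integration functionals -/

theorem xsp_continuous_eval (x : Om) : Continuous (fun f : Y => f x) := by
  have : LipschitzWith 1 (fun f : Y => f x) := by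
    refine LipschitzWith.of_dist_le_mul (fun f g => ?_)
    rw [NNReal.coe_one, one_mul, dist_eq_norm, dist_eq_norm, Real.norm_eq_abs]
    exact (f - g).abs_apply_le x
  exact this.continuous

/-- integration against a continuous function on the sphere -/
def xspInt (g : C(S2, ℝ)) : Y →L[ℝ] ℝ :=
  LinearMap.mkContinuous
    { toFun := fun f => ∫ θ, g θ * f (toOm θ) ∂sig
      map_add' := fun f f' => by
        have h1 : Integrable (fun θ => g θ * f (toOm θ)) sig :=
          xsp_integrable (g.continuous.mul (f.continuous.comp continuous_toOm))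
        have h2 : Integrable (fun θ => g θ * f' (toOm θ)) sig :=
          xsp_integrable (g.continuous.mul (f'.continuous.comp continuous_toOm))
        rw [← integral_add h1 h2]
        simp only [Y.add_apply, mul_add]
      map_smul' := fun c f => by
        rw [RingHom.id_apply, smul_eq_mul, ← integral_const_mul]
        congr 1
        ext θ
        rw [Y.smul_apply]
        ring } (‖g‖ * sig.real univ) (fun f => by
    have h := norm_integral_le_of_norm_le_const (μ := sig)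
      (f := fun θ : S2 => g θ * f (toOm θ)) (C := ‖g‖ * ‖f‖)
      (Eventually.of_forall (fun θ => by
        rw [norm_mul]
        exact mul_le_mul (g.norm_coe_le_norm θ) (f.abs_apply_le _) (norm_nonneg _)
          (norm_nonneg _)))
    show ‖∫ θ, g θ * f (toOm θ) ∂sig‖ ≤ _
    calc _ ≤ ‖g‖ * ‖f‖ * sig.real univ := h
      _ = _ := by ring)

theorem xspInt_apply (g : C(S2, ℝ)) (f : Y) : xspInt g f = ∫ θ, g θ * f (toOm θ) ∂sig := rfl

theorem xspInt_one (f : Y) : xspInt 1 f = ∫ θ, f (toOm θ) ∂sig := by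
  rw [xspInt_apply]; simp

theorem xspInt_xi (i : Fin 3) (f : Y) : xspInt (xi i) f = ∫ θ : S2, (θ : E3) i * f (toOm θ) ∂sig :=
  rfl

/-! ### Auxiliary facts about `mkE` -/

theorem xsp_mkE_add (u v : Fin 3 → ℝ) : mkE (fun k => u k + v k) = mkE u + mkE v := by
  ext i; simp

theorem xsp_mkE_smul (c : ℝ) (u : Fin 3 → ℝ) : mkE (fun k => c * u k) = c • mkE u := by
  ext i; simp

theorem xsp_mkE_zero : mkE (fun _ => 0) = 0 := by
  ext i; simp

theorem xsp_mkE_norm_le (v : Fin 3 → ℝ) : ‖mkE v‖ ≤ ∑ k, |v k| := by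
  rw [EuclideanSpace.norm_eq]
  apply Real.sqrt_le_iff.2
  refine ⟨Finset.sum_nonneg (fun _ _ => abs_nonneg _), ?_⟩
  have h1 : ∑ i, ‖mkE v i‖ ^ 2 = ∑ i, |v i| ^ 2 :=
    Finset.sum_congr rfl (fun i _ => by rw [mkE_apply, Real.norm_eq_abs])
  rw [h1]
  exact Finset.sum_sq_le_sq_sum_of_nonneg (fun _ _ => abs_nonneg _)

/-! ### The space `X` -/

theorem IsX.zero : IsX 0 := by
  refine ⟨fun j x => rfl, ⟨fun k => ?_, fun x _ => ?_⟩, ?_, fun i => ?_⟩
  · exact continuous_const
  · have h1 : (fun k : Fin 3 => ((0 : Fin 4 → Y) k.succ) (toOm (dirS x))) = fun _ => 0 := rfl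
    rw [h1, xsp_mkE_zero, smul_zero, map_zero]
    exact hasFDerivAt_const 0 x
  · simp
  · simp

theorem IsX.add {w w' : Fin 4 → Y} (h : IsX w) (h' : IsX w') : IsX (w + w') := by
  obtain ⟨h1, ⟨h2, h3⟩, h4, h5⟩ := h
  obtain ⟨h1', ⟨h2', h3'⟩, h4', h5'⟩ := h'
  refine ⟨fun j x => ?_, ⟨fun k => ?_, fun x hx => ?_⟩, ?_, fun i => ?_⟩
  · exact congrArg₂ (· + ·) (h1 j x) (h1' j x)
  · exact (h2 k).add (h2' k)
  · have h := (h3 x hx).add (h3' x hx)
    rw [← map_add, ← smul_add, ← xsp_mkE_add] at h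
    exact h
  · simp only [Pi.add_apply]
    rw [← xspInt_one, map_add, xspInt_one, xspInt_one, h4, h4', add_zero]
  · simp only [Pi.add_apply]
    rw [← xspInt_xi, map_add, xspInt_xi, xspInt_xi, h5, h5', add_zero]

theorem IsX.smul {w : Fin 4 → Y} (c : ℝ) (h : IsX w) : IsX (c • w) := by
  obtain ⟨h1, ⟨h2, h3⟩, h4, h5⟩ := h
  refine ⟨fun j x => ?_, ⟨fun k => ?_, fun x hx => ?_⟩, ?_, fun i => ?_⟩
  · exact congrArg (c * ·) (h1 j x)
  · exact (h2 k).const_smul c
  · have h := (h3 x hx).const_smul c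
    rw [← map_smul, smul_comm, ← xsp_mkE_smul] at h
    exact h
  · simp only [Pi.smul_apply]
    rw [← xspInt_one, map_smul, xspInt_one, h4, smul_zero]
  · simp only [Pi.smul_apply]
    rw [← xspInt_xi, map_smul, xspInt_xi, h5, smul_zero]

theorem xsp_isClosed_hom0 : IsClosed {f : Y | Hom0 f} := by
  have : {f : Y | Hom0 f} = ⋂ x : Om, {f : Y | f x = f (toOm (dirS (x : E3)))} := by
    ext f; simp [Hom0]
  rw [this]
  exact isClosed_iInter (fun x => isClosed_eq (xsp_continuous_eval _) (xsp_continuous_eval _))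

theorem xsp_isClosed_int (g : C(S2, ℝ)) : IsClosed {f : Y | xspInt g f = 0} :=
  isClosed_eq (xspInt g).continuous continuous_const

theorem xsp_isClosed_c1 : IsClosed {w : Fin 4 → Y |
    IsC1S (fun θ => w 0 (toOm θ)) (fun k θ => w k.succ (toOm θ))} := by
  rw [← isSeqClosed_iff_isClosed]
  intro u w hu hw
  refine ⟨fun k => (w k.succ).continuous.comp continuous_toOm, fun x hx => ?_⟩
  have hxpos : 0 < ‖x‖ := norm_pos_iff.2 hx
  have hball : ∀ y ∈ Metric.ball x (‖x‖ / 2), ‖x‖ / 2 < ‖y‖ := by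
    intro y hy
    rw [Metric.mem_ball, dist_comm, dist_eq_norm] at hy
    have := norm_sub_norm_le x y
    linarith
  refine hasFDerivAt_of_tendstoUniformlyOn (l := atTop) (s := Metric.ball x (‖x‖ / 2))
    (f := fun n y => u n 0 (toOm (dirS y)))
    (f' := fun n y => innerSL ℝ (‖y‖⁻¹ • mkE (fun k => u n k.succ (toOm (dirS y)))))
    (g' := fun y => innerSL ℝ (‖y‖⁻¹ • mkE (fun k => w k.succ (toOm (dirS y)))))
    Metric.isOpen_ball ?_ ?_ ?_ (Metric.mem_ball_self (by positivity))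
  · rw [Metric.tendstoUniformlyOn_iff]
    intro ε hε
    have h1 := Metric.tendsto_atTop.1 hw (ε * ‖x‖ / 12) (by positivity)
    obtain ⟨N, hN⟩ := h1
    filter_upwards [eventually_ge_atTop N] with n hn y hy
    have hn' := hN n hn
    rw [dist_comm, dist_eq_norm] at hn'
    have hy2 := hball y hy
    have hypos : 0 < ‖y‖ := lt_trans (by positivity) hy2
    rw [dist_eq_norm, ← map_sub, ← smul_sub, innerSL_apply_norm, norm_smul, norm_inv, norm_norm]
    have h2 : mkE (fun k => w k.succ (toOm (dirS y))) - mkE (fun k => u n k.succ (toOm (dirS y))) =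
        mkE (fun k => (w - u n) k.succ (toOm (dirS y))) := by
      ext i; simp
    rw [h2]
    have h3 : ‖mkE (fun k => (w - u n) k.succ (toOm (dirS y)))‖ ≤ 3 * ‖w - u n‖ := by
      refine (xsp_mkE_norm_le _).trans ?_
      calc ∑ k : Fin 3, |(w - u n) k.succ (toOm (dirS y))| ≤ ∑ _k : Fin 3, ‖w - u n‖ :=
            Finset.sum_le_sum (fun k _ => (((w - u n) k.succ).abs_apply_le _).trans
              (norm_le_pi_norm (w - u n) k.succ))
        _ = 3 * ‖w - u n‖ := by simp
    have h4 : ‖y‖⁻¹ ≤ 2 / ‖x‖ := by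
      rw [inv_le_comm₀ hypos (by positivity), inv_div]
      exact hy2.le
    calc ‖y‖⁻¹ * ‖mkE (fun k => (w - u n) k.succ (toOm (dirS y)))‖
        ≤ (2 / ‖x‖) * (3 * ‖w - u n‖) :=
          mul_le_mul h4 h3 (norm_nonneg _) (by positivity)
      _ ≤ (2 / ‖x‖) * (3 * (ε * ‖x‖ / 12)) := by gcongr
      _ = ε / 2 := by field_simp; ring
      _ < ε := by linarith
  · intro n y hy
    have hy2 := hball y hy
    have hy0 : y ≠ 0 := norm_pos_iff.1 (lt_trans (by positivity) hy2)
    exact (hu n).2 y hy0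
  · intro y _
    have h1 : Tendsto (fun n => u n 0) atTop (𝓝 (w 0)) := (tendsto_pi_nhds.1 hw) 0
    exact ((xsp_continuous_eval (toOm (dirS y))).tendsto _).comp h1

theorem isClosed_IsX : IsClosed {w : Fin 4 → Y | IsX w} := by
  have : {w : Fin 4 → Y | IsX w} = (⋂ j : Fin 4, (fun w : Fin 4 → Y => w j) ⁻¹' {f | Hom0 f}) ∩
      ({w : Fin 4 → Y | IsC1S (fun θ => w 0 (toOm θ)) (fun k θ => w k.succ (toOm θ))} ∩
      (((fun w : Fin 4 → Y => w 0) ⁻¹' {f | xspInt 1 f = 0}) ∩
      ⋂ i : Fin 3, (fun w : Fin 4 → Y => w 0) ⁻¹' {f | xspInt (xi i) f = 0})) := by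
    ext w
    simp only [mem_ofPred_eq, mem_inter_iff, mem_iInter, mem_preimage, xspInt_one, xspInt_xi]
    rfl
  rw [this]
  refine (isClosed_iInter fun j => xsp_isClosed_hom0.preimage (continuous_apply j)).inter
    (xsp_isClosed_c1.inter (((xsp_isClosed_int 1).preimage (continuous_apply 0)).inter
      (isClosed_iInter fun i => (xsp_isClosed_int (xi i)).preimage (continuous_apply 0))))

theorem IsYP.zero : IsYP 0 := by
  refine ⟨fun x => rfl, ?_, fun i => ?_⟩ <;> simp

theorem IsYP.add {f g : Y} (h : IsYP f) (h' : IsYP g) : IsYP (f + g) := by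
  obtain ⟨h1, h4, h5⟩ := h
  obtain ⟨h1', h4', h5'⟩ := h'
  refine ⟨fun x => ?_, ?_, fun i => ?_⟩
  · exact congrArg₂ (· + ·) (h1 x) (h1' x)
  · rw [← xspInt_one, map_add, xspInt_one, xspInt_one, h4, h4', add_zero]
  · rw [← xspInt_xi, map_add, xspInt_xi, xspInt_xi, h5, h5', add_zero]

theorem IsYP.smul {f : Y} (c : ℝ) (h : IsYP f) : IsYP (c • f) := by
  obtain ⟨h1, h4, h5⟩ := h
  refine ⟨fun x => ?_, ?_, fun i => ?_⟩
  · exact congrArg (c * ·) (h1 x)
  · rw [← xspInt_one, map_smul, xspInt_one, h4, smul_zero]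
  · rw [← xspInt_xi, map_smul, xspInt_xi, h5, smul_zero]

theorem isClosed_IsYP : IsClosed {f : Y | IsYP f} := by
  have : {f : Y | IsYP f} = {f | Hom0 f} ∩
      ({f | xspInt 1 f = 0} ∩ ⋂ i : Fin 3, {f | xspInt (xi i) f = 0}) := by
    ext f
    simp only [mem_ofPred_eq, mem_inter_iff, mem_iInter, xspInt_one, xspInt_xi]
    rfl
  rw [this]
  exact xsp_isClosed_hom0.inter ((xsp_isClosed_int 1).inter
    (isClosed_iInter fun i => xsp_isClosed_int (xi i)))

/-- The space `X` of graph functions (with their gradients). -/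
def Xs : Submodule ℝ (Fin 4 → Y) where
  carrier := {w | IsX w}
  zero_mem' := IsX.zero
  add_mem' := fun h h' => h.add h'
  smul_mem' := fun c _ h => h.smul c

/-- The space of right hand sides. -/
def YPs : Submodule ℝ Y where
  carrier := {f | IsYP f}
  zero_mem' := IsYP.zero
  add_mem' := fun h h' => h.add h'
  smul_mem' := fun c _ h => h.smul c

instance : CompleteSpace Xs := isClosed_IsX.completeSpace_coe
instance : CompleteSpace YPs := isClosed_IsYP.completeSpace_coe

/-- the projection with values in `Y` -/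
def xspP : Y →L[ℝ] Y := trY - (4 * Real.pi)⁻¹ • ContinuousLinearMap.smulRight (xspInt 1) 1 -
  (3 * (4 * Real.pi)⁻¹) • ∑ i, ContinuousLinearMap.smulRight (xspInt (xi i)) (thY i)

theorem xspP_apply (f : Y) (x : Om) : xspP f x = f (toOm (dirS (x : E3))) -
    (4 * Real.pi)⁻¹ * (∫ η : S2, f (toOm η) ∂sig) -
    3 * (4 * Real.pi)⁻¹ * ∑ i, (dirS (x : E3) : E3) i *
      ∫ η : S2, (η : E3) i * f (toOm η) ∂sig := by
  have h : xspP f = trY f - (4 * Real.pi)⁻¹ • (xspInt 1 f • (1 : Y)) -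
      (3 * (4 * Real.pi)⁻¹) • ∑ i, xspInt (xi i) f • thY i := by
    simp [xspP]
  rw [h]
  simp only [Y.sub_apply, Y.smul_apply, Y.sum_apply, Y.one_apply, trY_apply, thY_apply,
    xspInt_one, xspInt_xi, mul_one]
  congr 2
  exact Finset.sum_congr rfl (fun i _ => mul_comm _ _)

theorem xspP_toOm (f : Y) (θ : S2) : xspP f (toOm θ) = f (toOm θ) -
    (4 * Real.pi)⁻¹ * (∫ η : S2, f (toOm η) ∂sig) -
    3 * (4 * Real.pi)⁻¹ * ∑ i, (θ : E3) i * ∫ η : S2, (η : E3) i * f (toOm η) ∂sig := by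
  rw [xspP_apply]
  have : dirS ((toOm θ : Om) : E3) = θ := dirS_S2 θ
  rw [this]

theorem xspP_mem (f : Y) : IsYP (xspP f) := by
  refine ⟨fun x => ?_, ?_, fun j => ?_⟩
  · rw [xspP_toOm, xspP_apply]
  · simp only [xspP_toOm]
    set a := ∫ η : S2, f (toOm η) ∂sig with ha
    set b : Fin 3 → ℝ := fun i => ∫ η : S2, (η : E3) i * f (toOm η) ∂sig with hb
    have i1 : Integrable (fun θ => f (toOm θ)) sig :=
      xsp_integrable (f.continuous.comp continuous_toOm)
    have i3 : Integrable (fun θ : S2 => 3 * (4 * Real.pi)⁻¹ * ∑ i, (θ : E3) i * b i) sig :=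
      xsp_integrable (by fun_prop)
    have i2 : Integrable (fun θ : S2 => f (toOm θ) - (4 * Real.pi)⁻¹ * a) sig :=
      i1.sub (integrable_const _)
    rw [integral_sub i2 i3, integral_sub i1 (integrable_const _), integral_const,
      integral_const_mul, integral_finsetSum _ (fun i _ => xsp_integrable (by fun_prop))]
    simp only [integral_mul_const, xsp_int_coord, zero_mul, Finset.sum_const_zero, mul_zero,
      sub_zero, xsp_sig_real, smul_eq_mul]
    rw [← ha]
    field_simp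
    ring
  · set a := ∫ η : S2, f (toOm η) ∂sig with ha
    set b : Fin 3 → ℝ := fun i => ∫ η : S2, (η : E3) i * f (toOm η) ∂sig with hb
    have hf : Continuous (fun θ => f (toOm θ)) := f.continuous.comp continuous_toOm
    have i1 : Integrable (fun θ : S2 => (θ : E3) j * f (toOm θ)) sig :=
      xsp_integrable (by fun_prop)
    have i2 : Integrable (fun θ : S2 => ((4 * Real.pi)⁻¹ * a) * (θ : E3) j) sig :=
      xsp_integrable (by fun_prop)
    have i3 : Integrable (fun θ : S2 => 3 * (4 * Real.pi)⁻¹ *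
        ∑ i, b i * ((θ : E3) j * (θ : E3) i)) sig :=
      xsp_integrable (by fun_prop)
    have e : (fun θ : S2 => (θ : E3) j * xspP f (toOm θ)) = fun θ : S2 =>
        (θ : E3) j * f (toOm θ) - ((4 * Real.pi)⁻¹ * a) * (θ : E3) j -
        3 * (4 * Real.pi)⁻¹ * ∑ i, b i * ((θ : E3) j * (θ : E3) i) := by
      funext θ
      have : ∑ i, b i * ((θ : E3) j * (θ : E3) i) = (θ : E3) j * ∑ i, (θ : E3) i * b i := by
        rw [Finset.mul_sum]
        exact Finset.sum_congr rfl (fun i _ => by ring)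
      rw [this, xspP_toOm]
      ring
    have i12 : Integrable (fun θ : S2 => (θ : E3) j * f (toOm θ) -
        ((4 * Real.pi)⁻¹ * a) * (θ : E3) j) sig := i1.sub i2
    rw [e, integral_sub i12 i3, integral_sub i1 i2, integral_const_mul, xsp_int_coord,
      integral_const_mul, integral_finsetSum _ (fun i _ => xsp_integrable (by fun_prop))]
    simp only [integral_const_mul]
    rw [Finset.sum_eq_single j]
    · rw [xsp_int_sq]
      show b j - (4 * Real.pi)⁻¹ * a * 0 - 3 * (4 * Real.pi)⁻¹ * (b j * (4 * Real.pi / 3)) = 0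
      field_simp
      ring
    · intro i _ hij
      rw [xsp_int_ne hij.symm, mul_zero]
    · simp

/-- projection to `YPs` -/
theorem pip_exists : ∃ P : Y →L[ℝ] YPs, (∀ f (θ : S2), (P f : Y) (toOm θ) = f (toOm θ) -
    (4 * Real.pi)⁻¹ * (∫ η : S2, f (toOm η) ∂sig) -
    3 * (4 * Real.pi)⁻¹ * ∑ i, (θ : E3) i * ∫ η : S2, (η : E3) i * f (toOm η) ∂sig) ∧
    ∀ f : YPs, P f = f := by
  refine ⟨xspP.codRestrict YPs (fun f => xspP_mem f), fun f θ => xspP_toOm f θ, fun f => ?_⟩
  apply Subtype.ext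
  apply Y.ext
  intro x
  show xspP (f : Y) x = (f : Y) x
  obtain ⟨h1, h2, h3⟩ := f.2
  rw [xspP_apply, h2, h1 x]
  simp only [h3]
  simp

/-- projection to `YPs` -/
def PiP : Y →L[ℝ] YPs := Classical.choose pip_exists

theorem PiP_apply (f : Y) (θ : S2) : (PiP f : Y) (toOm θ) = f (toOm θ) -
    (4 * Real.pi)⁻¹ * (∫ η : S2, f (toOm η) ∂sig) -
    3 * (4 * Real.pi)⁻¹ * ∑ i, (θ : E3) i * ∫ η : S2, (η : E3) i * f (toOm η) ∂sig :=
  (Classical.choose_spec pip_exists).1 f θ

theorem PiP_coe (f : YPs) : PiP f = f := (Classical.choose_spec pip_exists).2 f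

end

end Pool.Agent.BS
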