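import Pool.Agent.BS.Sup
import Pool.Agent.BS.Xsp
import Pool.Agent.BS.Rota

/-!
# Module ANGCMP: smoothness of the coefficient map
-/

namespace Pool.Agent.BS

open MeasureTheory Topology Set Filter
open scoped ContDiff

noncomputable section

/-- if `g` is an element of `Y` then `Y.mk g` is this element -/
theorem angc_mk_coe (F : Y) (g : Om → ℝ) (h : ∀ x, g x = F x) : Y.mk g = F := by
  have hg : g = fun x => F x := funext h
  subst hg
  ext x
  exact Y.mk_apply (norm_nonneg F) F.adm x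

/-- restriction to `Om` of a function with scale invariant bounds -/
theorem angc_adm {ε : ℝ} {f : E3 → ℝ} (h : SB2 ε f) :
    0 ≤ ε ∧ Y.Adm (2 * ε) (fun x : Om => f (x : E3)) := by
  have hε : 0 ≤ ε := by
    have := h.b0 (bv 0) (by simp [bv]; norm_num)
    exact (abs_nonneg _).trans this
  have hopen : IsOpen {x : E3 | 1 / 2 < ‖x‖} := isOpen_lt continuous_const continuous_norm
  refine ⟨hε, ⟨?_, ?_, ?_⟩⟩
  · exact h.c2.continuousOn.comp_continuous continuous_subtype_val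
      (fun x => by have := x.2; show 1 / 2 < ‖(x : E3)‖; linarith)
  · intro x
    have := h.b0 x (by have := x.2; linarith)
    linarith
  · intro x y hxy
    have hd0 : 0 ≤ adist x y := dist_nonneg
    set d := adist x y with hd
    have hx1 : 1 ≤ ‖(x : E3)‖ := x.2
    have hdn : ‖(y : E3) - x‖ = ‖(x : E3)‖ * d := by
      have h1 : (x : E3) = ‖(x : E3)‖ • (dirS (x : E3) : E3) := (norm_smul_dirS (Om_ne_zero x)).symm
      have h2 : (y : E3) = ‖(x : E3)‖ • (dirS (y : E3) : E3) := by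
        rw [hxy]; exact (norm_smul_dirS (Om_ne_zero y)).symm
      have h3 : (y : E3) - x = ‖(x : E3)‖ • ((dirS (y : E3) : E3) - (dirS (x : E3) : E3)) := by
        rw [smul_sub, ← h1, ← h2]
      rw [h3, norm_smul, norm_norm, hd, adist, Subtype.dist_eq, dist_comm, dist_eq_norm]
    by_cases hd1 : d < 1
    · have hseg : ∀ z ∈ segment ℝ (x : E3) y, ‖(x : E3)‖ * (1 / 2) < ‖z‖ := by
        rintro z ⟨a, b, ha, hb, hab, rfl⟩
        have e1 : a • (x : E3) + b • (y : E3) = x + b • ((y : E3) - x) := by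
          have : a = 1 - b := by linarith
          subst this
          module
        have e2 : a • (x : E3) + b • (y : E3) = y - a • ((y : E3) - x) := by
          have : b = 1 - a := by linarith
          subst this
          module
        have hr : 0 < ‖(x : E3)‖ := by linarith
        rcases le_total b (1 / 2) with hb2 | hb2
        · rw [e1]
          have := norm_sub_le_norm_add (x : E3) (b • ((y : E3) - x))
          rw [norm_smul, Real.norm_of_nonneg hb, hdn] at this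
          nlinarith [mul_pos hr (show (0 : ℝ) < 1 - d by linarith),
            mul_nonneg hr.le hd0, mul_nonneg (mul_nonneg hr.le hd0) (show (0 : ℝ) ≤ 1 / 2 - b by linarith)]
        · rw [e2]
          have := norm_sub_norm_le (y : E3) (a • ((y : E3) - x))
          rw [norm_smul, Real.norm_of_nonneg ha, hdn, ← hxy] at this
          nlinarith [mul_pos hr (show (0 : ℝ) < 1 - d by linarith),
            mul_nonneg hr.le hd0, mul_nonneg (mul_nonneg hr.le hd0) (show (0 : ℝ) ≤ 1 / 2 - a by linarith)]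
      have hgt : ∀ z ∈ segment ℝ (x : E3) y, 1 / 2 < ‖z‖ := fun z hz => by
        have := hseg z hz
        linarith
      have hmv := Convex.norm_image_sub_le_of_norm_fderiv_le (𝕜 := ℝ) (f := f)
        (C := 2 * ε / ‖(x : E3)‖) (s := segment ℝ (x : E3) y) (x := x) (y := y)
        (fun z hz => ((h.c2.contDiffAt (hopen.mem_nhds (hgt z hz))).differentiableAt (by norm_num)))
        (fun z hz => ?_) (convex_segment _ _) (left_mem_segment ℝ _ _) (right_mem_segment ℝ _ _)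
      · rw [Real.norm_eq_abs, hdn] at hmv
        have hr : 0 < ‖(x : E3)‖ := by linarith
        have e : 2 * ε / ‖(x : E3)‖ * (‖(x : E3)‖ * d) = 2 * ε * d := by field_simp
        rw [e] at hmv
        rw [abs_sub_comm]
        refine hmv.trans (mul_le_mul_of_nonneg_left ?_ (by positivity))
        exact Real.le_sqrt_of_sq_le (by nlinarith)
      · have h1 := h.b1 z (hgt z hz)
        have h2 := hseg z hz
        have hr : 0 < ‖(x : E3)‖ := by linarith
        rw [le_div_iff₀ hr]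
        nlinarith [norm_nonneg (fderiv ℝ f z)]
    · have h1 := h.b0 x (by linarith)
      have h2 := h.b0 y (by rw [← hxy]; linarith)
      have h3 : |f x - f y| ≤ |f x| + |f y| := abs_sub _ _
      have h4 : 1 ≤ Real.sqrt d := Real.one_le_sqrt.2 (by linarith)
      nlinarith

theorem angc_mat {F : Type*} [NormedAddCommGroup F] [NormedSpace ℝ F] {M : F → M3} {p : F}
    (hM : ∀ i j, ContDiffAt ℝ ∞ (fun x => M x i j) p) :
    ContDiffAt ℝ ∞ (fun x => det3 (M x)) p := by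
  simp only [det3, Matrix.det_fin_three, Matrix.of_apply]
  have := hM
  exact (((((((hM 0 0).mul (hM 1 1)).mul (hM 2 2)).sub (((hM 0 0).mul (hM 1 2)).mul (hM 2 1))).sub
    (((hM 0 1).mul (hM 1 0)).mul (hM 2 2))).add (((hM 0 1).mul (hM 1 2)).mul (hM 2 0))).add
    (((hM 0 2).mul (hM 1 0)).mul (hM 2 1))).sub (((hM 0 2).mul (hM 1 1)).mul (hM 2 0))

theorem angc_adj {F : Type*} [NormedAddCommGroup F] [NormedSpace ℝ F] {M : F → M3} {p : F}
    (hM : ∀ i j, ContDiffAt ℝ ∞ (fun x => M x i j) p) (i j : Fin 3) :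
    ContDiffAt ℝ ∞ (fun x => (Matrix.of (M x)).adjugate i j) p := by
  have h : ∀ a b c d e f g h : Fin 3, ContDiffAt ℝ ∞
      (fun x => M x a b * M x c d - M x e f * M x g h) p := fun a b c d e f g h =>
    ((hM a b).mul (hM c d)).sub ((hM e f).mul (hM g h))
  have h' : ∀ a b c d e f g h : Fin 3, ContDiffAt ℝ ∞
      (fun x => -(M x a b * M x c d) + M x e f * M x g h) p := fun a b c d e f g h =>
    (((hM a b).mul (hM c d)).neg).add ((hM e f).mul (hM g h))
  fin_cases i <;> fin_cases j <;>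
    simp only [Matrix.adjugate_fin_three, Matrix.of_apply, Matrix.cons_val', Matrix.cons_val_zero,
      Matrix.cons_val_one, Matrix.cons_val_fin_one, Matrix.cons_val, Fin.zero_eta, Fin.mk_one,
      Fin.reduceFinMk] <;>
    first | exact h _ _ _ _ _ _ _ _ | exact h' _ _ _ _ _ _ _ _

theorem angc_inv {F : Type*} [NormedAddCommGroup F] [NormedSpace ℝ F] {M : F → M3} {p : F}
    (hM : ∀ i j, ContDiffAt ℝ ∞ (fun x => M x i j) p) (hd : det3 (M p) ≠ 0) (i j : Fin 3) :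
    ContDiffAt ℝ ∞ (fun x => (Matrix.of (M x))⁻¹ i j) p := by
  simp only [Matrix.inv_def, Matrix.smul_apply, smul_eq_mul, Ring.inverse_eq_inv']
  exact ((angc_mat hM).inv hd).mul (angc_adj hM i j)

theorem angc_psi (θ₀ : S2) {p : (E3 × ℝ × E3) × E3} (hv : ‖p.1.2.2‖ < 1) (hz : p.2 ≠ 0) :
    ContDiffAt ℝ ∞ (fun p : (E3 × ℝ × E3) × E3 => psiL θ₀ p.1 p.2) p := by
  have hR : ContDiffAt ℝ ∞ (fun p : (E3 × ℝ × E3) × E3 => Rot θ₀ p.1.2.2 p.2) p := by
    have h1 : ContDiffAt ℝ ∞ (fun p : E3 × E3 => Rot θ₀ p.1 p.2) (p.1.2.2, p.2) :=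
      (Rot_smooth θ₀).contDiffAt ((Metric.isOpen_ball.prod isOpen_univ).mem_nhds
        ⟨by simpa using hv, mem_univ _⟩)
    have h2 : ContDiffAt ℝ ∞ (fun p : (E3 × ℝ × E3) × E3 => (p.1.2.2, p.2)) p := by fun_prop
    exact ContDiffAt.comp (g := fun p : E3 × E3 => Rot θ₀ p.1 p.2)
      (f := fun p : (E3 × ℝ × E3) × E3 => (p.1.2.2, p.2)) p h1 h2
  have hS : ContDiffAt ℝ ∞ (fun p : (E3 × ℝ × E3) × E3 => Real.smoothTransition (3 - ‖p.2‖)) p := by
    have h1 : ContDiffAt ℝ ∞ (fun p : (E3 × ℝ × E3) × E3 => 3 - ‖p.2‖) p :=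
      contDiffAt_const.sub (contDiffAt_snd.norm ℝ hz)
    exact Real.smoothTransition.contDiff.contDiffAt.comp p h1
  have h3 : ContDiffAt ℝ ∞ (fun p : (E3 × ℝ × E3) × E3 => p.2) p := contDiffAt_snd
  have h4 : ContDiffAt ℝ ∞ (fun p : (E3 × ℝ × E3) × E3 => p.1.1) p := by fun_prop
  have h5 : ContDiffAt ℝ ∞ (fun p : (E3 × ℝ × E3) × E3 => 1 + p.1.2.1) p := by fun_prop
  exact h3.add (hS.smul ((h4.add (h5.smul hR)).sub h3))

theorem angc_dm (θ₀ : S2) {p : (E3 × ℝ × E3) × E3} (hv : ‖p.1.2.2‖ < 1) (hz : p.2 ≠ 0)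
    (i j : Fin 3) :
    ContDiffAt ℝ ∞ (fun p : (E3 × ℝ × E3) × E3 => DM (psiL θ₀ p.1) p.2 i j) p := by
  unfold DM
  have h1 : ContDiffAt ℝ ∞ (fun p : (E3 × ℝ × E3) × E3 => fderiv ℝ (psiL θ₀ p.1) p.2) p := by
    refine ContDiffAt.fderiv (m := ∞) (n := ∞) (f := fun p : (E3 × ℝ × E3) × E3 => psiL θ₀ p.1)
      (g := fun p => p.2) ?_ contDiffAt_snd (by simp)
    have h2 : ContDiffAt ℝ ∞ (fun q : ((E3 × ℝ × E3) × E3) × E3 => (q.1.1, q.2)) (p, p.2) := by
      fun_prop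
    have h3 := angc_psi θ₀ (p := (p.1, p.2)) hv hz
    exact ContDiffAt.comp (g := fun p : (E3 × ℝ × E3) × E3 => psiL θ₀ p.1 p.2)
      (f := fun q : ((E3 × ℝ × E3) × E3) × E3 => (q.1.1, q.2)) (p, p.2) h3 h2
  have h4 : ContDiffAt ℝ ∞ (fun p : (E3 × ℝ × E3) × E3 => fderiv ℝ (psiL θ₀ p.1) p.2 (bv j)) p :=
    h1.clm_apply contDiffAt_const
  exact (contDiffAt_euclidean.1 h4) i

theorem angc_HL (θ₀ : S2) {A : E3 → M3} (hA : ∀ i j, ContDiffOn ℝ ∞ (fun x => A x i j) {x | 1 / 4 < ‖x‖})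
    {p : (E3 × ℝ × E3) × E3} (hv : ‖p.1.2.2‖ < 1) (hz : p.2 ≠ 0)
    (hd : det3 (DM (psiL θ₀ p.1) p.2) ≠ 0) (hn : 1 / 4 < ‖psiL θ₀ p.1 p.2‖) (i j : Fin 3) :
    ContDiffAt ℝ ∞ (fun p : (E3 × ℝ × E3) × E3 => HL A θ₀ p.1 p.2 i j) p := by
  have hopen : IsOpen {x : E3 | 1 / 4 < ‖x‖} := isOpen_lt continuous_const continuous_norm
  have hA' : ∀ k l, ContDiffAt ℝ ∞ (fun p : (E3 × ℝ × E3) × E3 => A (psiL θ₀ p.1 p.2) k l) p :=
    fun k l => ContDiffAt.comp (g := fun x : E3 => A x k l)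
      (f := fun p : (E3 × ℝ × E3) × E3 => psiL θ₀ p.1 p.2) p
      ((hA k l).contDiffAt (hopen.mem_nhds hn)) (angc_psi θ₀ hv hz)
  have hM : ∀ i j, ContDiffAt ℝ ∞ (fun p : (E3 × ℝ × E3) × E3 => DM (psiL θ₀ p.1) p.2 i j) p :=
    angc_dm θ₀ hv hz
  have hI := fun k l => angc_inv hM hd k l
  simp only [HL, pbM, Matrix.mul_apply, Matrix.transpose_apply, Matrix.of_apply]
  refine ((angc_mat hM).mul ?_).sub contDiffAt_const
  exact ContDiffAt.sum fun k _ => (ContDiffAt.sum fun l _ => (hI _ _).mul (hA' _ _)).mul (hI _ _)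


/-- the parameters from a point of `ℝ^8` -/
def angcLam (a : Fin 8 → ℝ) : E3 × ℝ × E3 := (mkE ![a 1, a 2, a 3], a 4, mkE ![a 5, a 6, a 7])

theorem angc_lam_smooth : ContDiff ℝ ∞ angcLam := by
  have h : ∀ j : Fin 8, ContDiff ℝ ∞ (fun a : Fin 8 → ℝ => a j) := fun j => contDiff_apply ℝ ℝ j
  refine ContDiff.prodMk ?_ (ContDiff.prodMk (h 4) ?_)
  · refine contDiff_euclidean.2 (fun i => ?_)
    fin_cases i
    · exact h 1
    · exact h 2
    · exact h 3
  · refine contDiff_euclidean.2 (fun i => ?_)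
    fin_cases i
    · exact h 5
    · exact h 6
    · exact h 7

/-- the parameters as elements of `Y` -/
def angcF (q : Xs × (E3 × ℝ × E3)) : Fin 8 → Y :=
  ![(q.1 : Fin 4 → Y) 0, q.2.1 0 • 1, q.2.1 1 • 1, q.2.1 2 • 1, q.2.2.1 • 1, q.2.2.2 0 • 1,
    q.2.2.2 1 • 1, q.2.2.2 2 • 1]

theorem angc_F_smooth : ContDiff ℝ ∞ angcF := by
  have h0 : ContDiff ℝ ∞ (fun q : Xs × (E3 × ℝ × E3) => (q.1 : Fin 4 → Y) 0) := by
    have h1 : ContDiff ℝ ∞ (fun q : Xs × (E3 × ℝ × E3) => (q.1 : Fin 4 → Y)) :=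
      (Xs.subtypeL.contDiff).comp contDiff_fst
    exact (contDiff_apply ℝ Y 0).comp h1
  have h1 : ∀ i : Fin 3, ContDiff ℝ ∞ (fun q : Xs × (E3 × ℝ × E3) => q.2.1 i • (1 : Y)) := fun i => by
    have h : ContDiff ℝ ∞ (fun q : Xs × (E3 × ℝ × E3) => q.2.1) := by fun_prop
    exact (contDiff_euclidean.1 h i).smul contDiff_const
  have h2 : ∀ i : Fin 3, ContDiff ℝ ∞ (fun q : Xs × (E3 × ℝ × E3) => q.2.2.2 i • (1 : Y)) :=
    fun i => by
    have h : ContDiff ℝ ∞ (fun q : Xs × (E3 × ℝ × E3) => q.2.2.2) := by fun_prop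
    exact (contDiff_euclidean.1 h i).smul contDiff_const
  have h3 : ContDiff ℝ ∞ (fun q : Xs × (E3 × ℝ × E3) => q.2.2.1 • (1 : Y)) := by
    have h : ContDiff ℝ ∞ (fun q : Xs × (E3 × ℝ × E3) => q.2.2.1) := by fun_prop
    exact h.smul contDiff_const
  refine contDiff_pi.2 (fun i => ?_)
  fin_cases i
  · exact h0
  · exact h1 0
  · exact h1 1
  · exact h1 2
  · exact h3
  · exact h2 0
  · exact h2 1
  · exact h2 2

theorem angc_F_lam (q : Xs × (E3 × ℝ × E3)) (x : Om) : angcLam (fun i => angcF q i x) = q.2 := by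
  have e : ∀ v : E3, mkE ![(v 0 • (1 : Y)) x, (v 1 • (1 : Y)) x, (v 2 • (1 : Y)) x] = v := by
    intro v
    ext i
    fin_cases i <;> simp [mkE]
  refine Prod.ext (e q.2.1) (Prod.ext ?_ (e q.2.2.2))
  show (q.2.2.1 • (1 : Y)) x = q.2.2.1
  simp

theorem angc_F_zero (q : Xs × (E3 × ℝ × E3)) (x : Om) : angcF q 0 x = (q.1 : Fin 4 → Y) 0 x := rfl

theorem angc_dm_id {Φ : E3 → E3} {y : E3} (h : Φ =ᶠ[𝓝 y] fun z => z) (i j : Fin 3) :
    DM Φ y i j = dl i j := by
  unfold DM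
  rw [h.fderiv_eq]
  simp only [fderiv_fun_id, ContinuousLinearMap.coe_id', id_eq]
  unfold bv dl
  by_cases hij : i = j <;> simp [hij]

theorem angc_pb_id {Φ : E3 → E3} {y : E3} (h : Φ =ᶠ[𝓝 y] fun z => z) (A : E3 → M3) (i j : Fin 3) :
    pbM Φ A y i j = A y i j := by
  have h1 : Matrix.of (DM Φ y) = 1 := by
    ext i j
    rw [Matrix.of_apply, angc_dm_id h, Matrix.one_apply]
    rfl
  unfold pbM det3
  rw [h1, h.self_of_nhds]
  simp

/-- good parameters -/
theorem angc_good (θ₀ : S2) : ∃ r : ℝ, 0 < r ∧ ∀ p : E3 × ℝ × E3, ‖p‖ < r → ‖p.2.2‖ < 1 ∧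
    (∀ z, det3 (DM (psiL θ₀ p) z) ≠ 0) ∧ (∀ z, 2 / 5 < ‖z‖ → 1 / 4 < ‖psiL θ₀ p z‖) ∧
    ∀ z, 3 < ‖z‖ → psiL θ₀ p =ᶠ[𝓝 z] fun z => z := by
  obtain ⟨δ, hδ, h⟩ := psiL_homeo θ₀
  have hfar : ∀ p : E3 × ℝ × E3, ∀ z : E3, 3 ≤ ‖z‖ → psiL θ₀ p z = z := by
    intro p z hz
    unfold psiL
    rw [Real.smoothTransition.zero_of_nonpos (by linarith), zero_smul, add_zero]
  have hzero : ∀ z : E3, psiL θ₀ 0 z = z := by
    intro z
    unfold psiL
    simp [Rot_zero]
  -- tube lemma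
  have hK : IsCompact {z : E3 | 2 / 5 ≤ ‖z‖ ∧ ‖z‖ ≤ 3} := by
    refine Metric.isCompact_of_isClosed_isBounded ?_ ?_
    · exact (isClosed_le continuous_const continuous_norm).inter
        (isClosed_le continuous_norm continuous_const)
    · exact Metric.isBounded_closedBall (x := (0 : E3)) (r := 3) |>.subset
        (fun z hz => by simpa using hz.2)
  have hev : ∀ᶠ p : E3 × ℝ × E3 in 𝓝 0, ∀ z ∈ {z : E3 | 2 / 5 ≤ ‖z‖ ∧ ‖z‖ ≤ 3},
      1 / 4 < ‖psiL θ₀ p z‖ := by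
    refine hK.eventually_forall_of_forall_eventually (fun z hz => ?_)
    have hz0 : z ≠ 0 := by
      intro h0
      have := hz.1
      rw [h0, norm_zero] at this
      norm_num at this
    have hc : ContinuousAt (fun q : (E3 × ℝ × E3) × E3 => psiL θ₀ q.1 q.2) (0, z) :=
      (angc_psi θ₀ (p := (0, z)) (by simp) hz0).continuousAt
    have hc2 := hc.norm
    refine hc2.eventually_const_lt ?_
    show 1 / 4 < ‖psiL θ₀ 0 z‖
    rw [hzero]
    have := hz.1
    linarith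
  obtain ⟨r₁, hr₁, h₁⟩ := Metric.eventually_nhds_iff_ball.1 hev
  refine ⟨min (min δ 1) r₁, by positivity, fun p hp => ?_⟩
  have hpδ : ‖p‖ < δ := hp.trans_le ((min_le_left _ _).trans (min_le_left _ _))
  have hp1 : ‖p‖ < 1 := hp.trans_le ((min_le_left _ _).trans (min_le_right _ _))
  have hpr : ‖p‖ < r₁ := hp.trans_le (min_le_right _ _)
  refine ⟨((norm_snd_le p.2).trans (norm_snd_le p)).trans_lt hp1, ?_, ?_, ?_⟩
  · obtain ⟨Φ, hΦ, hG, _⟩ := h p hpδ
    have e : (Φ : E3 → E3) = psiL θ₀ p := funext hΦ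
    intro z
    have := hG.det z
    rw [e] at this
    exact this.ne'
  · intro z hz
    by_cases hz3 : ‖z‖ ≤ 3
    · exact h₁ p (by simpa using hpr) z ⟨hz.le, hz3⟩
    · rw [hfar p z (by linarith)]
      linarith
  · intro z hz
    filter_upwards [(isOpen_lt continuous_const continuous_norm).mem_nhds hz] with z' hz'
    exact hfar p z' (le_of_lt hz')

/-- the superposition function -/
def angcG (A : E3 → M3) (θ₀ : S2) (i j : Fin 3) (a : Fin 8 → ℝ) (y : E3) : ℝ :=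
  HL A θ₀ (angcLam a) ((1 + chi ‖y‖ * a 0) • y) i j - (A y i j - dl i j)

/-- ANG1: smoothness of the coefficient map -/
theorem ang_cmp : ∃ δ : ℝ, 0 < δ ∧ ∀ (A : E3 → M3) (ε : ℝ) (θ₀ : S2),
    (∀ i j, ContDiffOn ℝ ∞ (fun x => A x i j) {x | 1 / 4 < ‖x‖}) →
    (∀ i j, SB2 ε (fun x => A x i j - dl i j)) → ∀ w : Xs, ‖w‖ < δ →
    ContDiffAt ℝ ∞ (fun q : Xs × (E3 × ℝ × E3) => cmp (HL A θ₀ q.2) q.1.1) (w, 0) ∧
    ∀ᶠ q : Xs × (E3 × ℝ × E3) in 𝓝 (w, 0), ∀ i j (x : Om),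
      cmp (HL A θ₀ q.2) q.1.1 i j x = HL A θ₀ q.2 (Psi (wS q.1.1) (x : E3)) i j := by
  refine ⟨1 / 20, by norm_num, fun A ε θ₀ hA hSB w hw => ?_⟩
  obtain ⟨r, hr, hgood⟩ := angc_good θ₀
  have hopen4 : IsOpen {x : E3 | 1 / 4 < ‖x‖} := isOpen_lt continuous_const continuous_norm
  -- the sets
  set U : Set (Fin 8 → ℝ) := {a | |a 0| < 1 / 10 ∧ ‖angcLam a‖ < r} with hU
  set K : Set (Fin 8 → ℝ) := Set.pi univ (fun i => Icc (if i = 0 then -(1 / 20) else 0)
    (if i = 0 then 1 / 20 else 0)) with hKdef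
  have hUo : IsOpen U := by
    have u1 : IsOpen {a : Fin 8 → ℝ | |a 0| < 1 / 10} :=
      isOpen_lt (continuous_apply 0).abs continuous_const
    have u2 : IsOpen {a : Fin 8 → ℝ | ‖angcLam a‖ < r} :=
      isOpen_lt angc_lam_smooth.continuous.norm continuous_const
    exact u1.inter u2
  have hKc : IsCompact K := isCompact_univ_pi (fun i => isCompact_Icc)
  have hK0 : ∀ a ∈ K, ∀ i, i ≠ 0 → a i = 0 := by
    intro a ha i hi
    have := ha i (mem_univ _)
    simp only [hi, if_false, mem_Icc] at this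
    exact le_antisymm this.2 this.1
  have hKU : K ⊆ U := by
    intro a ha
    refine ⟨?_, ?_⟩
    · have := ha 0 (mem_univ _)
      simp only [if_true, mem_Icc] at this
      rw [abs_lt]
      constructor <;> linarith [this.1, this.2]
    · have h0 : angcLam a = 0 := by
        have e : ∀ v : Fin 3 → ℝ, (∀ i, v i = 0) → mkE v = 0 := by
          intro v hv
          ext i
          simp [hv i]
        refine Prod.ext (e _ ?_) (Prod.ext ?_ (e _ ?_))
        · intro i; fin_cases i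
          · exact hK0 a ha 1 (by decide)
          · exact hK0 a ha 2 (by decide)
          · exact hK0 a ha 3 (by decide)
        · exact hK0 a ha 4 (by decide)
        · intro i; fin_cases i
          · exact hK0 a ha 5 (by decide)
          · exact hK0 a ha 6 (by decide)
          · exact hK0 a ha 7 (by decide)
      rw [h0, norm_zero]
      exact hr
  have hGs : ∀ i j, ContDiffOn ℝ ∞ (fun p : (Fin 8 → ℝ) × E3 => angcG A θ₀ i j p.1 p.2)
      (U ×ˢ {y | 1 / 2 < ‖y‖}) := by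
    intro i j p hp
    obtain ⟨⟨hp0, hpl⟩, hpy⟩ := hp
    have hpy' : 1 / 2 < ‖p.2‖ := hpy
    have hy0 : p.2 ≠ 0 := by
      intro h0
      rw [h0, norm_zero] at hpy'
      norm_num at hpy'
    apply ContDiffAt.contDiffWithinAt
    have hc : ContDiffAt ℝ ∞ (fun p : (Fin 8 → ℝ) × E3 => chi ‖p.2‖) p :=
      chi_smooth.contDiffAt.comp p (contDiffAt_snd.norm ℝ hy0)
    have ha : ContDiffAt ℝ ∞ (fun p : (Fin 8 → ℝ) × E3 => p.1 0) p :=
      (contDiff_apply ℝ ℝ 0).contDiffAt.comp p contDiffAt_fst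
    have hz : ContDiffAt ℝ ∞ (fun p : (Fin 8 → ℝ) × E3 => (1 + chi ‖p.2‖ * p.1 0) • p.2) p :=
      (contDiffAt_const.add (hc.mul ha)).smul contDiffAt_snd
    have hl : ContDiffAt ℝ ∞ (fun p : (Fin 8 → ℝ) × E3 => angcLam p.1) p :=
      angc_lam_smooth.contDiffAt.comp p contDiffAt_fst
    obtain ⟨g1, g2, g3, _⟩ := hgood (angcLam p.1) hpl
    have hfac : 9 / 10 < 1 + chi ‖p.2‖ * p.1 0 := by
      have h1 := chi_nonneg ‖p.2‖
      have h2 := chi_le_one ‖p.2‖
      have h3 : |chi ‖p.2‖ * p.1 0| ≤ |p.1 0| := by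
        rw [abs_mul, abs_of_nonneg h1]
        exact mul_le_of_le_one_left (abs_nonneg _) h2
      have h4 := neg_abs_le (chi ‖p.2‖ * p.1 0)
      linarith
    have hzn : 2 / 5 < ‖(1 + chi ‖p.2‖ * p.1 0) • p.2‖ := by
      rw [norm_smul, Real.norm_of_nonneg (by linarith)]
      nlinarith
    have hz0 : (1 + chi ‖p.2‖ * p.1 0) • p.2 ≠ 0 := by
      intro h0
      rw [h0, norm_zero] at hzn
      norm_num at hzn
    have h1 : ContDiffAt ℝ ∞ (fun q : (E3 × ℝ × E3) × E3 => HL A θ₀ q.1 q.2 i j)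
        (angcLam p.1, (1 + chi ‖p.2‖ * p.1 0) • p.2) :=
      angc_HL θ₀ hA (p := (angcLam p.1, (1 + chi ‖p.2‖ * p.1 0) • p.2)) g1 hz0 (g2 _)
        (g3 _ hzn) i j
    have h2 : ContDiffAt ℝ ∞ (fun p : (Fin 8 → ℝ) × E3 =>
        HL A θ₀ (angcLam p.1) ((1 + chi ‖p.2‖ * p.1 0) • p.2) i j) p :=
      ContDiffAt.comp (g := fun q : (E3 × ℝ × E3) × E3 => HL A θ₀ q.1 q.2 i j)
        (f := fun p : (Fin 8 → ℝ) × E3 => (angcLam p.1, (1 + chi ‖p.2‖ * p.1 0) • p.2)) p h1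
        (hl.prodMk hz)
    have h3 : ContDiffAt ℝ ∞ (fun p : (Fin 8 → ℝ) × E3 => A p.2 i j) p :=
      ContDiffAt.comp (g := fun x : E3 => A x i j) (f := fun p : (Fin 8 → ℝ) × E3 => p.2) p
        ((hA i j).contDiffAt (hopen4.mem_nhds (by show 1 / 4 < ‖p.2‖; linarith))) contDiffAt_snd
    exact h2.sub (h3.sub contDiffAt_const)
  have hG0 : ∀ i j, ∀ a ∈ U, ∀ y, 4 ≤ ‖y‖ → angcG A θ₀ i j a y = 0 := by
    intro i j a ha y hy
    unfold angcG
    rw [chi_eq_zero_right (by linarith), zero_mul, add_zero, one_smul]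
    unfold HL
    rw [angc_pb_id ((hgood (angcLam a) ha.2).2.2.2 y (by linarith)), sub_self]
  have hf0 : ∀ x : Om, (fun i => angcF (w, 0) i x) ∈ K := by
    intro x i _
    have h1 : |(w : Fin 4 → Y) 0 x| ≤ 1 / 20 := by
      have := ((w : Fin 4 → Y) 0).abs_apply_le x
      have h2 : ‖(w : Fin 4 → Y) 0‖ ≤ ‖(w : Fin 4 → Y)‖ := norm_le_pi_norm _ _
      have h3 : ‖(w : Fin 4 → Y)‖ = ‖w‖ := rfl
      linarith
    have h2 := abs_le.1 h1
    fin_cases i
    · simp only [mem_Icc, Fin.zero_eta, if_true]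
      exact h2
    all_goals simp [angcF]
  have hsup : ∀ i j, _ := fun i j => sup_contDiffAt (angcG A θ₀ i j) U K 4 hUo hKc hKU (hGs i j)
    (hG0 i j) (angcF (w, 0)) hf0
  -- the constant part
  have hcst : ∀ i j, ∃ F : Y, ∀ x : Om, F x = A (x : E3) i j - dl i j := by
    intro i j
    obtain ⟨hε, had⟩ := angc_adm (hSB i j)
    exact ⟨Y.mk _, fun x => Y.mk_apply (by positivity) had x⟩
  choose C0 hC0 using hcst
  have hPsi : ∀ (v : Xs) (x : Om), Psi (wS v.1) (x : E3) =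
      (1 + chi ‖(x : E3)‖ * (v : Fin 4 → Y) 0 x) • (x : E3) := by
    intro v x
    unfold Psi wS
    rw [(show IsX (v : Fin 4 → Y) from v.2).1 0 x]
  -- representation
  have hrep : ∀ i j, ∀ᶠ q : Xs × (E3 × ℝ × E3) in 𝓝 (w, 0),
      cmp (HL A θ₀ q.2) q.1.1 i j =
        Y.mk (fun y => angcG A θ₀ i j (fun i => angcF q i y) (y : E3)) + C0 i j ∧
      ∀ x : Om, cmp (HL A θ₀ q.2) q.1.1 i j x = HL A θ₀ q.2 (Psi (wS q.1.1) (x : E3)) i j := by
    intro i j
    have hFc : Tendsto angcF (𝓝 (w, 0)) (𝓝 (angcF (w, 0))) :=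
      angc_F_smooth.continuous.continuousAt
    filter_upwards [hFc.eventually (hsup i j).2] with q hq
    have e : ∀ x : Om, HL A θ₀ q.2 (Psi (wS q.1.1) (x : E3)) i j =
        (Y.mk (fun y => angcG A θ₀ i j (fun i => angcF q i y) (y : E3)) + C0 i j) x := by
      intro x
      have e1 : (Y.mk (fun y => angcG A θ₀ i j (fun i => angcF q i y) (y : E3)) + C0 i j) x =
          angcG A θ₀ i j (fun i => angcF q i x) (x : E3) + (A (x : E3) i j - dl i j) :=
        congrArg₂ (fun s t => s + t) (hq x) (hC0 i j x)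
      refine Eq.trans ?_ e1.symm
      rw [hPsi]
      unfold angcG
      rw [angc_F_lam]
      exact (sub_add_cancel _ _).symm
    have e2 : cmp (HL A θ₀ q.2) q.1.1 i j =
        Y.mk (fun y => angcG A θ₀ i j (fun i => angcF q i y) (y : E3)) + C0 i j :=
      angc_mk_coe _ _ e
    refine ⟨e2, fun x => ?_⟩
    rw [e2, e x]
  refine ⟨?_, ?_⟩
  · refine contDiffAt_pi.2 (fun i => contDiffAt_pi.2 (fun j => ?_))
    have h1 : ContDiffAt ℝ ∞ (fun q : Xs × (E3 × ℝ × E3) =>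
        Y.mk (fun y => angcG A θ₀ i j (fun i => angcF q i y) (y : E3)) + C0 i j) (w, 0) := by
      refine ContDiffAt.add ?_ contDiffAt_const
      exact ContDiffAt.comp
        (g := fun f : Fin 8 → Y => Y.mk (fun y => angcG A θ₀ i j (fun i => f i y) (y : E3)))
        (f := angcF) (w, 0) (hsup i j).1 angc_F_smooth.contDiffAt
    refine h1.congr_of_eventuallyEq ?_
    filter_upwards [hrep i j] with q hq
    exact hq.1
  · have h := Filter.eventually_all.2 (fun i => Filter.eventually_all.2 (fun j => hrep i j))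
    filter_upwards [h] with q hq
    exact fun i j x => (hq i j).2 x

end

end Pool.Agent.BS
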