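import Pool.Agent.BS.Xsp

/-!
# Module COMP: compositions
-/

namespace Pool.Agent.BS

open MeasureTheory Topology Set Filter
open scoped ContDiff

noncomputable section

/-! ### Geometry -/

theorem comp_inner_ge {θ η : S2} (h : dist θ η ≤ 1) : 1 / 2 ≤ inner ℝ (θ : E3) (η : E3) := by
  have h1 : ‖(θ : E3) - (η : E3)‖ ≤ 1 := by
    rw [← dist_eq_norm]; exact h
  have h2 := norm_sub_sq_real (θ : E3) (η : E3)
  rw [norm_S2, norm_S2] at h2
  nlinarith [norm_nonneg ((θ : E3) - (η : E3))]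

theorem comp_seg_norm {r α β : ℝ} {θ η : S2} (hr : 1 ≤ r) (h : dist θ η ≤ 1)
    (hα : 99 / 100 ≤ α) (hβ : 99 / 100 ≤ β) {z : E3}
    (hz : z ∈ segment ℝ ((r * α) • (θ : E3)) ((r * β) • (η : E3))) : r / 2 < ‖z‖ := by
  obtain ⟨s, t, hs, ht, hst, rfl⟩ := hz
  have h1 := comp_inner_ge h
  have hr0 : 0 < r := by linarith
  have h2 : ‖s • (r * α) • (θ : E3) + t • (r * β) • (η : E3)‖ ^ 2 =
      (s * (r * α)) ^ 2 + 2 * (s * (r * α)) * (t * (r * β)) * inner ℝ (θ : E3) (η : E3) +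
        (t * (r * β)) ^ 2 := by
    rw [norm_add_sq_real, smul_smul, smul_smul, norm_smul, norm_smul, norm_S2, norm_S2,
      real_inner_smul_left, real_inner_smul_right, Real.norm_eq_abs, Real.norm_eq_abs, mul_one,
      mul_one, sq_abs, sq_abs]
    ring
  have hα0 : 0 ≤ α := by linarith
  have hβ0 : 0 ≤ β := by linarith
  have h3 : 0 ≤ s * (r * α) := by positivity
  have h4 : 0 ≤ t * (r * β) := by positivity
  have h5 : s * (r * (99 / 100)) ≤ s * (r * α) := by gcongr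
  have h6 : t * (r * (99 / 100)) ≤ t * (r * β) := by gcongr
  have h5' : 0 ≤ s * (r * (99 / 100)) := by positivity
  have h6' : 0 ≤ t * (r * (99 / 100)) := by positivity
  have h7 : (s * (r * (99 / 100))) ^ 2 ≤ (s * (r * α)) ^ 2 := by gcongr
  have h8 : (t * (r * (99 / 100))) ^ 2 ≤ (t * (r * β)) ^ 2 := by gcongr
  have h9 : (s * (r * (99 / 100))) * (t * (r * (99 / 100))) ≤ (s * (r * α)) * (t * (r * β)) := by
    gcongr
  have h10 : (s * (r * α)) * (t * (r * β)) ≤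
      2 * (s * (r * α)) * (t * (r * β)) * inner ℝ (θ : E3) (η : E3) := by
    have : 0 ≤ (s * (r * α)) * (t * (r * β)) := by positivity
    nlinarith
  have h11 : (r / 2) ^ 2 < ‖s • (r * α) • (θ : E3) + t • (r * β) • (η : E3)‖ ^ 2 := by
    rw [h2]
    have ht' : t = 1 - s := by linarith
    subst ht'
    have h12 : 3 / 4 ≤ s ^ 2 + s * (1 - s) + (1 - s) ^ 2 := by nlinarith [sq_nonneg (s - 1 / 2)]
    have h13 : (r / 2) ^ 2 < r ^ 2 * (99 / 100) ^ 2 * (3 / 4) := by nlinarith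
    have h14 : r ^ 2 * (99 / 100) ^ 2 * (3 / 4) ≤
        r ^ 2 * (99 / 100) ^ 2 * (s ^ 2 + s * (1 - s) + (1 - s) ^ 2) := by gcongr
    have h15 : r ^ 2 * (99 / 100) ^ 2 * (s ^ 2 + s * (1 - s) + (1 - s) ^ 2) =
        (s * (r * (99 / 100))) ^ 2 + (s * (r * (99 / 100))) * ((1 - s) * (r * (99 / 100))) +
        ((1 - s) * (r * (99 / 100))) ^ 2 := by ring
    linarith
  exact lt_of_pow_lt_pow_left₀ 2 (norm_nonneg _) h11

theorem comp_dist_le {r α β d : ℝ} {θ η : S2} (hr : 0 ≤ r) (hβ0 : 0 ≤ β) (hβ : β ≤ 101 / 100)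
    (hd : |α - β| ≤ d) :
    ‖(r * α) • (θ : E3) - (r * β) • (η : E3)‖ ≤ r * (d + 101 / 100 * dist θ η) := by
  have h1 : (r * α) • (θ : E3) - (r * β) • (η : E3) =
      r • ((α - β) • (θ : E3) + β • ((θ : E3) - (η : E3))) := by
    module
  rw [h1, norm_smul, Real.norm_of_nonneg hr]
  refine mul_le_mul_of_nonneg_left ?_ hr
  refine (norm_add_le _ _).trans (add_le_add ?_ ?_)
  · rw [norm_smul, norm_S2, mul_one]; exact hd
  · rw [norm_smul, Real.norm_of_nonneg hβ0, ← dist_eq_norm]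
    exact mul_le_mul_of_nonneg_right hβ dist_nonneg

/-! ### Functions with scale invariant bounds -/

theorem comp_isOpen : IsOpen {x : E3 | 1 / 2 < ‖x‖} := isOpen_lt continuous_const continuous_norm

theorem SB1.comp_hasFDerivAt {ε : ℝ} {f : E3 → ℝ} (h : SB1 ε f) {x : E3} (hx : 1 / 2 < ‖x‖) :
    HasFDerivAt f (fderiv ℝ f x) x :=
  ((h.c1.contDiffAt (comp_isOpen.mem_nhds hx)).differentiableAt (by norm_num)).hasFDerivAt

theorem SB2.toSB1 {ε : ℝ} {f : E3 → ℝ} (h : SB2 ε f) : SB1 ε f :=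
  ⟨h.c2.of_le (by norm_num), h.b0, h.b1⟩

theorem SB1.comp_fderiv_le {ε r : ℝ} {f : E3 → ℝ} (h : SB1 ε f) (hr : 1 ≤ r) {x : E3}
    (hx : r / 2 < ‖x‖) : ‖fderiv ℝ f x‖ ≤ 2 * ε / r := by
  have h1 := h.b1 x (by linarith)
  rw [le_div_iff₀ (by linarith)]
  nlinarith [norm_nonneg (fderiv ℝ f x)]

theorem SB1.comp_seg {ε r : ℝ} {f : E3 → ℝ} (h : SB1 ε f) (hr : 1 ≤ r) {a b : E3}
    (hs : ∀ z ∈ segment ℝ a b, r / 2 < ‖z‖) : |f a - f b| ≤ 2 * ε / r * ‖a - b‖ := by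
  have h1 := (convex_segment b a).norm_image_sub_le_of_norm_hasFDerivWithin_le
    (f := f) (f' := fderiv ℝ f) (C := 2 * ε / r) (x := b) (y := a)
    (fun z hz => by
      rw [segment_symm] at hz
      exact (h.comp_hasFDerivAt (by have := hs z hz; linarith)).hasFDerivWithinAt)
    (fun z hz => by
      rw [segment_symm] at hz
      exact h.comp_fderiv_le hr (hs z hz))
    (left_mem_segment ℝ b a) (right_mem_segment ℝ b a)
  exact h1

theorem SB2.comp_hasFDerivAt {ε : ℝ} {f : E3 → ℝ} (h : SB2 ε f) {x : E3} (hx : 1 / 2 < ‖x‖) :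
    HasFDerivAt (fderiv ℝ f) (fderiv ℝ (fderiv ℝ f) x) x := by
  have h1 : ContDiffAt ℝ 1 (fderiv ℝ f) x :=
    (h.c2.contDiffAt (comp_isOpen.mem_nhds hx)).fderiv_right (by norm_num)
  exact (h1.differentiableAt (by norm_num)).hasFDerivAt

theorem SB2.comp_fderiv2_le {ε r : ℝ} {f : E3 → ℝ} (h : SB2 ε f) (hr : 1 ≤ r) {x : E3}
    (hx : r / 2 < ‖x‖) : ‖fderiv ℝ (fderiv ℝ f) x‖ ≤ 4 * ε / r ^ 2 := by
  have h1 := h.b2 x (by linarith)
  rw [le_div_iff₀ (by positivity)]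
  have h2 : r ^ 2 ≤ 4 * ‖x‖ ^ 2 := by nlinarith
  have h3 := norm_nonneg (fderiv ℝ (fderiv ℝ f) x)
  nlinarith

theorem SB2.comp_seg {ε r : ℝ} {f : E3 → ℝ} (h : SB2 ε f) (hr : 1 ≤ r) {a b : E3}
    (hs : ∀ z ∈ segment ℝ a b, r / 2 < ‖z‖) :
    ‖fderiv ℝ f a - fderiv ℝ f b‖ ≤ 4 * ε / r ^ 2 * ‖a - b‖ := by
  exact (convex_segment b a).norm_image_sub_le_of_norm_hasFDerivWithin_le
    (f := fderiv ℝ f) (f' := fderiv ℝ (fderiv ℝ f)) (C := 4 * ε / r ^ 2) (x := b) (y := a)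
    (fun z hz => by
      rw [segment_symm] at hz
      exact (h.comp_hasFDerivAt (by have := hs z hz; linarith)).hasFDerivWithinAt)
    (fun z hz => by
      rw [segment_symm] at hz
      exact h.comp_fderiv2_le hr (hs z hz))
    (left_mem_segment ℝ b a) (right_mem_segment ℝ b a)

/-! ### Functions on the sphere -/

/-- bounded by `A`, with local Lipschitz constant `4A` -/
structure CompG (A : ℝ) (u : S2 → ℝ) : Prop where
  cont : Continuous u
  bdd : ∀ θ, |u θ| ≤ A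
  lip : ∀ θ η, dist θ η ≤ 1 → |u θ - u η| ≤ 4 * A * dist θ η

theorem comp_norm_mkE {v : Fin 3 → ℝ} {A : ℝ} (hA : 0 ≤ A) (h : ∀ i, |v i| ≤ A) :
    ‖mkE v‖ ≤ 2 * A := by
  rw [EuclideanSpace.norm_eq]
  have h1 : ∑ i, ‖mkE v i‖ ^ 2 ≤ (2 * A) ^ 2 := by
    have : ∀ i, ‖mkE v i‖ ^ 2 ≤ A ^ 2 := fun i => by
      rw [mkE_apply, Real.norm_eq_abs]
      exact pow_le_pow_left₀ (abs_nonneg _) (h i) 2
    calc ∑ i, ‖mkE v i‖ ^ 2 ≤ ∑ _i : Fin 3, A ^ 2 := Finset.sum_le_sum (fun i _ => this i)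
      _ = 3 * A ^ 2 := by simp
      _ ≤ (2 * A) ^ 2 := by nlinarith [sq_nonneg A]
  calc Real.sqrt (∑ i, ‖mkE v i‖ ^ 2) ≤ Real.sqrt ((2 * A) ^ 2) := Real.sqrt_le_sqrt h1
    _ = 2 * A := Real.sqrt_sq (by positivity)

theorem comp_isC1S_lip {f : S2 → ℝ} {G : Fin 3 → S2 → ℝ} (h : IsC1S f G) {A : ℝ} (hA : 0 ≤ A)
    (hG : ∀ k θ, |G k θ| ≤ A) (θ η : S2) (hd : dist θ η ≤ 1) :
    |f θ - f η| ≤ 4 * A * dist θ η := by
  have hseg : ∀ z ∈ segment ℝ (η : E3) (θ : E3), 1 / 2 < ‖z‖ := by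
    intro z hz
    have := comp_seg_norm (r := 1) (α := 1) (β := 1) (θ := η) (η := θ) le_rfl
      (by rw [dist_comm]; exact hd) (by norm_num) (by norm_num) (z := z)
      (by simpa using hz)
    exact this
  have h1 := (convex_segment (η : E3) (θ : E3)).norm_image_sub_le_of_norm_hasFDerivWithin_le
    (f := fun y => f (dirS y))
    (f' := fun x => innerSL ℝ (‖x‖⁻¹ • mkE (fun k => G k (dirS x)))) (C := 4 * A)
    (x := (η : E3)) (y := (θ : E3))
    (fun z hz => (h.2 z (fun h0 => by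
      have := hseg z hz
      rw [h0, norm_zero] at this
      norm_num at this)).hasFDerivWithinAt)
    (fun z hz => by
      rw [innerSL_apply_norm, norm_smul, norm_inv, norm_norm]
      have h2 := hseg z hz
      have h3 : ‖z‖⁻¹ ≤ 2 := by
        rw [inv_le_comm₀ (by linarith) (by norm_num)]
        linarith
      have h4 := comp_norm_mkE hA (fun i => hG i (dirS z))
      calc ‖z‖⁻¹ * ‖mkE (fun k => G k (dirS z))‖ ≤ 2 * (2 * A) :=
            mul_le_mul h3 h4 (norm_nonneg _) (by norm_num)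
        _ = 4 * A := by ring)
    (left_mem_segment ℝ _ _) (right_mem_segment ℝ _ _)
  simp only [dirS_S2] at h1
  rw [← dist_eq_norm] at h1
  exact h1

theorem comp_G (w : Xs) : CompG ‖w‖ (wS w.1) := by
  have hX : IsX w.1 := w.2
  have hn : ∀ j, ‖w.1 j‖ ≤ ‖w‖ := fun j => norm_le_pi_norm w.1 j
  refine ⟨(w.1 0).continuous.comp continuous_toOm, fun θ => ?_, fun θ η hd => ?_⟩
  · exact ((w.1 0).abs_apply_le _).trans (hn 0)
  · exact comp_isC1S_lip hX.2.1 (norm_nonneg _)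
      (fun k θ => ((w.1 k.succ).abs_apply_le _).trans (hn _)) θ η hd

theorem CompG.comb {A τ : ℝ} {u u' : S2 → ℝ} (h : CompG A u) (h' : CompG A u') (hτ : 0 ≤ τ)
    (hτ' : τ ≤ 1) : CompG A (fun θ => u' θ + τ * (u θ - u' θ)) := by
  refine ⟨by have := h.cont; have := h'.cont; fun_prop, fun θ => ?_, fun θ η hd => ?_⟩
  · have h1 := h.bdd θ
    have h2 := h'.bdd θ
    rw [abs_le] at h1 h2 ⊢
    constructor <;> nlinarith
  · have h1 := h.lip θ η hd
    have h2 := h'.lip θ η hd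
    rw [abs_le] at h1 h2 ⊢
    constructor <;> nlinarith

/-! ### The graph map -/

/-- the factor -/
def compP (u : S2 → ℝ) (x : Om) : ℝ := 1 + chi ‖(x : E3)‖ * u (dirS (x : E3))

theorem comp_Psi (u : S2 → ℝ) (x : Om) :
    Psi u (x : E3) = (‖(x : E3)‖ * compP u x) • (dirS (x : E3) : E3) := by
  rw [mul_comm, ← smul_smul, norm_smul_dirS (Om_ne_zero x)]
  rfl

theorem comp_chi_abs (r : ℝ) : |chi r| ≤ 1 := by
  rw [abs_of_nonneg (chi_nonneg r)]
  exact chi_le_one r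

theorem CompG.p_bdd {A : ℝ} {u : S2 → ℝ} (h : CompG A u) (x : Om) : |compP u x - 1| ≤ A := by
  have h1 := h.bdd (dirS (x : E3))
  have h2 := comp_chi_abs ‖(x : E3)‖
  unfold compP
  rw [add_sub_cancel_left, abs_mul]
  calc |chi ‖(x : E3)‖| * |u (dirS (x : E3))| ≤ 1 * A :=
        mul_le_mul h2 h1 (abs_nonneg _) zero_le_one
    _ = A := one_mul A

theorem CompG.p_lo {A : ℝ} {u : S2 → ℝ} (h : CompG A u) (hA : A ≤ 1 / 100) (x : Om) :
    99 / 100 ≤ compP u x := by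
  have := h.p_bdd x
  rw [abs_le] at this
  linarith

theorem CompG.p_hi {A : ℝ} {u : S2 → ℝ} (h : CompG A u) (hA : A ≤ 1 / 100) (x : Om) :
    compP u x ≤ 101 / 100 := by
  have := h.p_bdd x
  rw [abs_le] at this
  linarith

theorem comp_seg_Psi {A B : ℝ} {u v : S2 → ℝ} (hu : CompG A u) (hv : CompG B v)
    (hA : A ≤ 1 / 100) (hB : B ≤ 1 / 100) {x y : Om} (hxy : ‖(x : E3)‖ = ‖(y : E3)‖)
    (hd : adist x y ≤ 1) :
    ∀ z ∈ segment ℝ (Psi u (x : E3)) (Psi v (y : E3)), ‖(x : E3)‖ / 2 < ‖z‖ := by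
  intro z hz
  rw [comp_Psi, comp_Psi, ← hxy] at hz
  exact comp_seg_norm x.2 hd (hu.p_lo hA x) (hv.p_lo hB y) hz

theorem CompG.dist_Psi {A : ℝ} {u : S2 → ℝ} (hu : CompG A u) (hA : A ≤ 1 / 100) {x y : Om}
    (hxy : ‖(x : E3)‖ = ‖(y : E3)‖) (hd : adist x y ≤ 1) :
    ‖Psi u (x : E3) - Psi u (y : E3)‖ ≤ 2 * ‖(x : E3)‖ * adist x y := by
  rw [comp_Psi, comp_Psi, ← hxy]
  have h0 : 0 ≤ adist x y := dist_nonneg
  have hA0 : 0 ≤ A := (abs_nonneg _).trans (hu.bdd (dirS (x : E3)))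
  have h1 : |compP u x - compP u y| ≤ 4 * A * adist x y := by
    unfold compP
    rw [← hxy, add_sub_add_left_eq_sub, ← mul_sub, abs_mul]
    calc |chi ‖(x : E3)‖| * |u (dirS (x : E3)) - u (dirS (y : E3))| ≤ 1 * (4 * A * adist x y) :=
          mul_le_mul (comp_chi_abs _) (hu.lip _ _ hd) (abs_nonneg _) zero_le_one
      _ = _ := one_mul _
  refine (comp_dist_le (norm_nonneg _) (by linarith [hu.p_lo hA y]) (hu.p_hi hA y) h1).trans ?_
  have h2 : 4 * A * adist x y + 101 / 100 * dist (dirS (x : E3)) (dirS (y : E3)) ≤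
      2 * adist x y := by
    have : dist (dirS (x : E3)) (dirS (y : E3)) = adist x y := rfl
    rw [this]
    nlinarith
  calc ‖(x : E3)‖ * (4 * A * adist x y + 101 / 100 * dist (dirS (x : E3)) (dirS (y : E3))) ≤
        ‖(x : E3)‖ * (2 * adist x y) := mul_le_mul_of_nonneg_left h2 (norm_nonneg _)
    _ = _ := by ring

theorem CompG.norm_Psi {A : ℝ} {u : S2 → ℝ} (hu : CompG A u) (hA : A ≤ 1 / 100) (x : Om) :
    ‖(x : E3)‖ / 2 < ‖Psi u (x : E3)‖ :=
  comp_seg_Psi hu hu hA hA rfl (by unfold adist; rw [dist_self]; norm_num) _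
    (left_mem_segment ℝ _ _)

theorem CompG.norm_Psi' {A : ℝ} {u : S2 → ℝ} (hu : CompG A u) (hA : A ≤ 1 / 100) (x : Om) :
    1 / 2 < ‖Psi u (x : E3)‖ := by
  have := hu.norm_Psi hA x
  have := x.2
  linarith

theorem CompG.continuous_Psi {A : ℝ} {u : S2 → ℝ} (hu : CompG A u) :
    Continuous (fun x : Om => Psi u (x : E3)) := by
  have h1 : Continuous (fun x : Om => u (dirS (x : E3))) := hu.cont.comp continuous_dirOm
  have h2 : Continuous (fun x : Om => chi ‖(x : E3)‖) :=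
    chi_smooth.continuous.comp (continuous_norm.comp continuous_subtype_val)
  exact (continuous_const.add (h2.mul h1)).smul continuous_subtype_val

theorem comp_le_sqrt {d : ℝ} (h : 0 ≤ d) (h1 : d ≤ 1) : d ≤ Real.sqrt d := by
  apply Real.le_sqrt_of_sq_le
  nlinarith

theorem comp_one_le_sqrt {d : ℝ} (h1 : 1 ≤ d) : 1 ≤ Real.sqrt d := by
  rw [Real.one_le_sqrt]; exact h1

/-- a criterion for the Hoelder bound -/
theorem comp_hol {f : Om → ℝ} {M L : ℝ} (hb : ∀ x, |f x| ≤ M)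
    (hL : ∀ x y : Om, ‖(x : E3)‖ = ‖(y : E3)‖ → adist x y ≤ 1 → |f x - f y| ≤ L * adist x y)
    (hML : 2 * M ≤ L) : HolC L f := by
  intro x y hxy
  have hM : 0 ≤ M := (abs_nonneg _).trans (hb x)
  have h0 : 0 ≤ adist x y := dist_nonneg
  rcases le_total (adist x y) 1 with h | h
  · exact (hL x y hxy h).trans (mul_le_mul_of_nonneg_left (comp_le_sqrt h0 h) (by linarith))
  · have h1 := comp_one_le_sqrt h
    have h2 : |f x - f y| ≤ 2 * M := by
      have := abs_sub (f x) (f y)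
      linarith [hb x, hb y]
    nlinarith

theorem SB1.comp_adm {ε : ℝ} {f : E3 → ℝ} (h : SB1 ε f) (hε : 0 ≤ ε) {A : ℝ} {u : S2 → ℝ}
    (hu : CompG A u) (hA : A ≤ 1 / 100) : Y.Adm (4 * ε) (fun x : Om => f (Psi u (x : E3))) := by
  refine ⟨?_, fun x => ?_, ?_⟩
  · exact h.c1.continuousOn.comp_continuous hu.continuous_Psi (fun x => hu.norm_Psi' hA x)
  · have := h.b0 _ (hu.norm_Psi' hA x)
    linarith
  · refine comp_hol (M := ε) (fun x => h.b0 _ (hu.norm_Psi' hA x)) (fun x y hxy hd => ?_)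
      (by linarith)
    have h1 := h.comp_seg x.2 (comp_seg_Psi hu hu hA hA hxy hd)
    refine h1.trans ?_
    have h2 := hu.dist_Psi hA hxy hd
    have h3 := x.2
    have h4 : 0 < ‖(x : E3)‖ := by linarith
    calc 2 * ε / ‖(x : E3)‖ * ‖Psi u (x : E3) - Psi u (y : E3)‖ ≤
          2 * ε / ‖(x : E3)‖ * (2 * ‖(x : E3)‖ * adist x y) :=
          mul_le_mul_of_nonneg_left h2 (by positivity)
      _ = 4 * ε * adist x y := by field_simp; ring

/-- difference bound, sup norm -/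
theorem SB1.comp_diff {ε : ℝ} {f : E3 → ℝ} (h : SB1 ε f) (hε : 0 ≤ ε) {A B N : ℝ}
    {u v : S2 → ℝ} (hu : CompG A u) (hA : A ≤ 1 / 100) (hv : CompG B v) (hB : B ≤ 1 / 100)
    (hN : ∀ θ, |u θ - v θ| ≤ N) (x : Om) :
    |f (Psi u (x : E3)) - f (Psi v (x : E3))| ≤ 2 * ε * N := by
  have h1 := h.comp_seg x.2 (comp_seg_Psi hu hv hA hB rfl
    (by unfold adist; rw [dist_self]; norm_num))
  refine h1.trans ?_
  have h3 := x.2
  have h4 : 0 < ‖(x : E3)‖ := by linarith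
  have h2 : ‖Psi u (x : E3) - Psi v (x : E3)‖ ≤ N * ‖(x : E3)‖ := by
    have : Psi u (x : E3) - Psi v (x : E3) =
        (chi ‖(x : E3)‖ * (u (dirS (x : E3)) - v (dirS (x : E3)))) • (x : E3) := by
      unfold Psi
      module
    rw [this, norm_smul]
    refine mul_le_mul_of_nonneg_right ?_ (norm_nonneg _)
    rw [norm_mul, Real.norm_eq_abs, Real.norm_eq_abs]
    calc |chi ‖(x : E3)‖| * |u (dirS (x : E3)) - v (dirS (x : E3))| ≤ 1 * N :=
          mul_le_mul (comp_chi_abs _) (hN _) (abs_nonneg _) zero_le_one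
      _ = N := one_mul N
  calc 2 * ε / ‖(x : E3)‖ * ‖Psi u (x : E3) - Psi v (x : E3)‖ ≤
        2 * ε / ‖(x : E3)‖ * (N * ‖(x : E3)‖) := mul_le_mul_of_nonneg_left h2 (by positivity)
    _ = 2 * ε * N := by field_simp

/-- difference bound, Lipschitz part -/
theorem SB2.comp_diff2 {ε : ℝ} {f : E3 → ℝ} (h : SB2 ε f) (hε : 0 ≤ ε) {A N : ℝ}
    {u v : S2 → ℝ} (hu : CompG A u) (hv : CompG A v) (hA : A ≤ 1 / 100)
    (hN : CompG N (fun θ => u θ - v θ)) {x y : Om} (hxy : ‖(x : E3)‖ = ‖(y : E3)‖)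
    (hd : adist x y ≤ 1) :
    |(f (Psi u (x : E3)) - f (Psi v (x : E3))) - (f (Psi u (y : E3)) - f (Psi v (y : E3)))| ≤
      18 * ε * N * adist x y := by
  have hN0 : 0 ≤ N := (abs_nonneg _).trans (hN.bdd (dirS (x : E3)))
  have hd0 : 0 ≤ adist x y := dist_nonneg
  have hr := x.2
  have hr0 : 0 < ‖(x : E3)‖ := by linarith
  set r : ℝ := ‖(x : E3)‖ with hrdef
  let ut : ℝ → S2 → ℝ := fun τ θ => v θ + τ * (u θ - v θ)
  let cx : ℝ := chi r * (u (dirS (x : E3)) - v (dirS (x : E3)))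
  let cy : ℝ := chi r * (u (dirS (y : E3)) - v (dirS (y : E3)))
  have hcx : |cx| ≤ N := by
    show |chi r * _| ≤ N
    rw [abs_mul]
    calc |chi r| * |u (dirS (x : E3)) - v (dirS (x : E3))| ≤ 1 * N :=
          mul_le_mul (comp_chi_abs _) (hN.bdd _) (abs_nonneg _) zero_le_one
      _ = N := one_mul N
  have hcy : |cy| ≤ N := by
    show |chi r * _| ≤ N
    rw [abs_mul]
    calc |chi r| * |u (dirS (y : E3)) - v (dirS (y : E3))| ≤ 1 * N :=
          mul_le_mul (comp_chi_abs _) (hN.bdd _) (abs_nonneg _) zero_le_one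
      _ = N := one_mul N
  have hcxy : |cx - cy| ≤ 4 * N * adist x y := by
    show |chi r * _ - chi r * _| ≤ _
    rw [← mul_sub, abs_mul]
    calc |chi r| * |(u (dirS (x : E3)) - v (dirS (x : E3))) -
          (u (dirS (y : E3)) - v (dirS (y : E3)))| ≤ 1 * (4 * N * adist x y) :=
          mul_le_mul (comp_chi_abs _) (hN.lip _ _ hd) (abs_nonneg _) zero_le_one
      _ = _ := one_mul _
  have hPx : ∀ τ, Psi (ut τ) (x : E3) = Psi v (x : E3) + τ • (cx • (x : E3)) := by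
    intro τ
    show (1 + chi ‖(x : E3)‖ * (v _ + τ * (u _ - v _))) • (x : E3) =
      (1 + chi ‖(x : E3)‖ * v _) • (x : E3) + τ • ((chi ‖(x : E3)‖ * (u _ - v _)) • (x : E3))
    module
  have hPy : ∀ τ, Psi (ut τ) (y : E3) = Psi v (y : E3) + τ • (cy • (y : E3)) := by
    intro τ
    show (1 + chi ‖(y : E3)‖ * (v _ + τ * (u _ - v _))) • (y : E3) =
      (1 + chi ‖(y : E3)‖ * v _) • (y : E3) + τ • ((chi r * (u _ - v _)) • (y : E3))
    rw [← hxy]
    module
  have hG : ∀ τ ∈ Icc (0 : ℝ) 1, CompG A (ut τ) := fun τ hτ => hu.comb hv hτ.1 hτ.2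
  -- derivative in `τ`
  have hderx : ∀ τ ∈ Icc (0 : ℝ) 1, HasDerivAt (fun τ => f (Psi (ut τ) (x : E3)))
      (fderiv ℝ f (Psi (ut τ) (x : E3)) (cx • (x : E3))) τ := by
    intro τ hτ
    have h1 : HasDerivAt (fun τ => Psi (ut τ) (x : E3)) (cx • (x : E3)) τ := by
      simp only [hPx]
      simpa using ((hasDerivAt_id τ).smul_const (cx • (x : E3))).const_add (Psi v (x : E3))
    exact (h.toSB1.comp_hasFDerivAt ((hG τ hτ).norm_Psi' hA x)).comp_hasDerivAt τ h1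
  have hdery : ∀ τ ∈ Icc (0 : ℝ) 1, HasDerivAt (fun τ => f (Psi (ut τ) (y : E3)))
      (fderiv ℝ f (Psi (ut τ) (y : E3)) (cy • (y : E3))) τ := by
    intro τ hτ
    have h1 : HasDerivAt (fun τ => Psi (ut τ) (y : E3)) (cy • (y : E3)) τ := by
      simp only [hPy]
      simpa using ((hasDerivAt_id τ).smul_const (cy • (y : E3))).const_add (Psi v (y : E3))
    exact (h.toSB1.comp_hasFDerivAt ((hG τ hτ).norm_Psi' hA y)).comp_hasDerivAt τ h1
  have hbound : ∀ τ ∈ Icc (0 : ℝ) 1, ‖fderiv ℝ f (Psi (ut τ) (x : E3)) (cx • (x : E3)) -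
      fderiv ℝ f (Psi (ut τ) (y : E3)) (cy • (y : E3))‖ ≤ 18 * ε * N * adist x y := by
    intro τ hτ
    have hg := hG τ hτ
    set a := Psi (ut τ) (x : E3)
    set b := Psi (ut τ) (y : E3)
    have hseg := comp_seg_Psi hg hg hA hA hxy hd
    have ha : ‖fderiv ℝ f a‖ ≤ 2 * ε / r := h.toSB1.comp_fderiv_le hr (hg.norm_Psi hA x)
    have hb : ‖fderiv ℝ f b‖ ≤ 2 * ε / r :=
      h.toSB1.comp_fderiv_le hr (by
        have h' := hg.norm_Psi hA y
        rw [← hxy] at h'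
        exact h')
    have hab : ‖fderiv ℝ f a - fderiv ℝ f b‖ ≤ 4 * ε / r ^ 2 * (2 * r * adist x y) :=
      (h.comp_seg hr hseg).trans
        (mul_le_mul_of_nonneg_left (hg.dist_Psi hA hxy hd) (by positivity))
    have hxyd : ‖(x : E3) - (y : E3)‖ = r * adist x y := by
      have h1 : (x : E3) - (y : E3) = r • ((dirS (x : E3) : E3) - (dirS (y : E3) : E3)) := by
        have e1 : r • (dirS (x : E3) : E3) = (x : E3) := norm_smul_dirS (Om_ne_zero x)
        have e2 : r • (dirS (y : E3) : E3) = (y : E3) := by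
          rw [hxy]; exact norm_smul_dirS (Om_ne_zero y)
        rw [smul_sub, e1, e2]
      rw [h1, norm_smul, Real.norm_of_nonneg hr0.le, ← dist_eq_norm]
      rfl
    have hsplit : fderiv ℝ f a (cx • (x : E3)) - fderiv ℝ f b (cy • (y : E3)) =
        (cx - cy) * fderiv ℝ f a (x : E3) + cy * (fderiv ℝ f a - fderiv ℝ f b) (x : E3) +
          cy * fderiv ℝ f b ((x : E3) - (y : E3)) := by
      rw [map_smul, map_smul, sub_apply, map_sub, smul_eq_mul, smul_eq_mul]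
      ring
    rw [hsplit]
    have t1 : ‖(cx - cy) * fderiv ℝ f a (x : E3)‖ ≤ (4 * N * adist x y) * (2 * ε / r * r) := by
      rw [norm_mul]
      refine mul_le_mul hcxy ?_ (norm_nonneg _) (by positivity)
      exact (ContinuousLinearMap.le_opNorm _ _).trans
        (mul_le_mul_of_nonneg_right ha (norm_nonneg _))
    have t2 : ‖cy * (fderiv ℝ f a - fderiv ℝ f b) (x : E3)‖ ≤
        N * (4 * ε / r ^ 2 * (2 * r * adist x y) * r) := by
      rw [norm_mul]
      refine mul_le_mul hcy ?_ (norm_nonneg _) hN0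
      exact (ContinuousLinearMap.le_opNorm _ _).trans
        (mul_le_mul_of_nonneg_right hab (norm_nonneg _))
    have t3 : ‖cy * fderiv ℝ f b ((x : E3) - (y : E3))‖ ≤ N * (2 * ε / r * (r * adist x y)) := by
      rw [norm_mul]
      refine mul_le_mul hcy ?_ (norm_nonneg _) hN0
      rw [← hxyd]
      exact (ContinuousLinearMap.le_opNorm _ _).trans
        (mul_le_mul_of_nonneg_right hb (norm_nonneg _))
    refine (norm_add₃_le).trans ?_
    have e1 : (4 * N * adist x y) * (2 * ε / r * r) + N * (4 * ε / r ^ 2 * (2 * r * adist x y) * r)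
        + N * (2 * ε / r * (r * adist x y)) = 18 * ε * N * adist x y := by
      field_simp
      ring
    linarith
  have hmv := (convex_Icc (0 : ℝ) 1).norm_image_sub_le_of_norm_hasDerivWithin_le
    (f := fun τ => f (Psi (ut τ) (x : E3)) - f (Psi (ut τ) (y : E3)))
    (f' := fun τ => fderiv ℝ f (Psi (ut τ) (x : E3)) (cx • (x : E3)) -
      fderiv ℝ f (Psi (ut τ) (y : E3)) (cy • (y : E3)))
    (C := 18 * ε * N * adist x y) (x := 0) (y := 1)
    (fun τ hτ => ((hderx τ hτ).sub (hdery τ hτ)).hasDerivWithinAt) hbound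
    (by simp) (by simp)
  have hut1 : ut 1 = u := by
    funext θ
    show v θ + 1 * (u θ - v θ) = u θ
    ring
  have hut0 : ut 0 = v := by
    funext θ
    show v θ + 0 * (u θ - v θ) = v θ
    ring
  simp only [hut1, hut0, sub_zero, norm_one, mul_one, Real.norm_eq_abs] at hmv
  refine le_trans (le_of_eq ?_) hmv
  congr 1
  ring

theorem comp_bounds : ∃ δ C : ℝ, 0 < δ ∧ δ ≤ 1 / 100 ∧ 0 < C ∧
    (∀ (H : E3 → M3) (ε : ℝ), 0 ≤ ε → (∀ i j, SB2 ε (fun x => H x i j)) →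
      ∀ w : Xs, ‖w‖ ≤ δ → ‖cmp H w.1‖ ≤ C * ε ∧
        (∀ i j (x : Om), cmp H w.1 i j x = H (Psi (wS w.1) (x : E3)) i j) ∧
        ∀ w' : Xs, ‖w'‖ ≤ δ → ‖cmp H w.1 - cmp H w'.1‖ ≤ C * ε * ‖w - w'‖) ∧
    (∀ (K : E3 → M3) (ε : ℝ), 0 ≤ ε → (∀ i j, SB1 ε (fun x => K x i j)) →
      ∀ w : Xs, ‖w‖ ≤ δ → ‖cmp K w.1‖ ≤ C * ε ∧
        (∀ i j (x : Om), cmp K w.1 i j x = K (Psi (wS w.1) (x : E3)) i j) ∧
        ∀ (x : Om) i j, |K (Psi (wS w.1) (x : E3)) i j - K (x : E3) i j| ≤ C * ε * ‖w‖) := by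
  have part1 : ∀ (K : E3 → M3) (ε : ℝ), 0 ≤ ε → (∀ i j, SB1 ε (fun x => K x i j)) →
      ∀ w : Xs, ‖w‖ ≤ 1 / 100 → ‖cmp K w.1‖ ≤ 36 * ε ∧
        (∀ i j (x : Om), cmp K w.1 i j x = K (Psi (wS w.1) (x : E3)) i j) := by
    intro K ε hε hK w hw
    have had : ∀ i j, Y.Adm (4 * ε) (fun x : Om => K (Psi (wS w.1) (x : E3)) i j) :=
      fun i j => (hK i j).comp_adm hε (comp_G w) hw
    refine ⟨?_, fun i j x => Y.mk_apply (by positivity) (had i j) x⟩
    rw [pi_norm_le_iff_of_nonneg (by positivity)]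
    intro i
    rw [pi_norm_le_iff_of_nonneg (by positivity)]
    intro j
    refine (Y.norm_mk_le (by positivity) (had i j)).trans ?_
    linarith
  refine ⟨1 / 100, 36, by norm_num, le_rfl, by norm_num, ?_, ?_⟩
  · intro H ε hε hH w hw
    obtain ⟨p1, p2⟩ := part1 H ε hε (fun i j => (hH i j).toSB1) w hw
    refine ⟨p1, p2, fun w' hw' => ?_⟩
    obtain ⟨-, q2⟩ := part1 H ε hε (fun i j => (hH i j).toSB1) w' hw'
    have hN : CompG ‖w - w'‖ (fun θ => wS w.1 θ - wS w'.1 θ) := comp_G (w - w')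
    rw [pi_norm_le_iff_of_nonneg (by positivity)]
    intro i
    rw [pi_norm_le_iff_of_nonneg (by positivity)]
    intro j
    have hval : ∀ x : Om, ((cmp H w.1 - cmp H w'.1) i j).toB x =
        H (Psi (wS w.1) (x : E3)) i j - H (Psi (wS w'.1) (x : E3)) i j := by
      intro x
      rw [← p2, ← q2]
      rfl
    have hsup : ∀ x : Om, |((cmp H w.1 - cmp H w'.1) i j).toB x| ≤ 2 * ε * ‖w - w'‖ := by
      intro x
      rw [hval]
      exact (hH i j).toSB1.comp_diff hε (comp_G w) hw (comp_G w') hw' hN.bdd x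
    have hadm : Y.Adm (18 * ε * ‖w - w'‖) ((cmp H w.1 - cmp H w'.1) i j) := by
      refine ⟨Y.continuous _, fun x => ?_, ?_⟩
      · have := hsup x
        have : 0 ≤ ε * ‖w - w'‖ := by positivity
        nlinarith [hsup x]
      · refine comp_hol hsup (fun x y hxy hd => ?_) ?_
        · rw [hval, hval]
          have hA : max ‖w‖ ‖w'‖ ≤ 1 / 100 := max_le hw hw'
          have m1 : CompG (max ‖w‖ ‖w'‖) (wS w.1) :=
            ⟨(comp_G w).cont, fun θ => ((comp_G w).bdd θ).trans (le_max_left _ _),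
              fun θ η h => ((comp_G w).lip θ η h).trans (by
                have := le_max_left ‖w‖ ‖w'‖
                have h0 : 0 ≤ dist θ η := dist_nonneg
                gcongr)⟩
          have m2 : CompG (max ‖w‖ ‖w'‖) (wS w'.1) :=
            ⟨(comp_G w').cont, fun θ => ((comp_G w').bdd θ).trans (le_max_right _ _),
              fun θ η h => ((comp_G w').lip θ η h).trans (by
                have := le_max_right ‖w‖ ‖w'‖
                have h0 : 0 ≤ dist θ η := dist_nonneg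
                gcongr)⟩
          exact (hH i j).comp_diff2 hε m1 m2 hA hN hxy hd
        · have : 0 ≤ ε * ‖w - w'‖ := by positivity
          nlinarith
    refine (Y.norm_le_of_adm (by positivity) hadm).trans (le_of_eq ?_)
    ring
  · intro K ε hε hK w hw
    obtain ⟨p1, p2⟩ := part1 K ε hε hK w hw
    refine ⟨p1, p2, fun x i j => ?_⟩
    have h0 : CompG 0 (fun _ : S2 => (0 : ℝ)) :=
      ⟨continuous_const, fun θ => by simp, fun θ η _ => by simp⟩
    have h1 := (hK i j).comp_diff hε (comp_G w) hw h0 (by norm_num) (N := ‖w‖)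
      (fun θ => by rw [sub_zero]; exact (comp_G w).bdd θ) x
    have h2 : Psi (fun _ : S2 => (0 : ℝ)) (x : E3) = (x : E3) := by
      unfold Psi
      simp
    rw [h2] at h1
    refine h1.trans ?_
    have : 0 ≤ ε * ‖w‖ := by positivity
    nlinarith

end

end Pool.Agent.BS
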