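import Pool.Agent.BS.Ell
import Pool.Agent.BS.Comp
import Pool.Agent.BS.Ker1

/-!
# Module LS: Lyapunov-Schmidt reduction
-/

namespace Pool.Agent.BS

open MeasureTheory Topology Set Filter
open scoped ContDiff

noncomputable section

/-- the graph `w` solves the Bernoulli equation modulo translations -/
def SolLS (H : E3 → M3) (w : Xs) : Prop := PiP (Gam (w.1, cmp H w.1)) = 0

/-- the remaining translation components -/
def kap (H : E3 → M3) (w : Xs) (i : Fin 3) : ℝ :=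
  ∫ θ : S2, (θ : E3) i * Gam (w.1, cmp H w.1) (toOm θ) ∂sig

/-- The constants of the Lyapunov-Schmidt reduction and their properties. -/
structure LSConst (δ ε₀ C c : ℝ) : Prop where
  δ_pos : 0 < δ
  δ_le : δ ≤ 1 / 100
  ε₀_pos : 0 < ε₀
  C_pos : 0 < C
  c_nonneg : 0 ≤ c
  /-- `c` is at most half of the lower bound of `2 LinE` -/
  lower : ∀ w : Xs, 2 * c * ‖w‖ ≤ ‖(2 : ℝ) • LinE w‖
  ex : ∀ (H : E3 → M3) (ε : ℝ), 0 ≤ ε → ε ≤ ε₀ → (∀ i j, SB2 ε (fun x => H x i j)) →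
    ∃ w : Xs, ‖w‖ ≤ C * ε ∧ ‖w‖ ≤ δ ∧ SolLS H w
  approx : ∀ (H : E3 → M3) (ε : ℝ), 0 ≤ ε → ε ≤ ε₀ → (∀ i j, SB2 ε (fun x => H x i j)) →
    ∀ w w' : Xs, ‖w‖ ≤ δ → ‖w'‖ ≤ δ →
      ‖PiP (Gam (w.1, cmp H w.1)) - PiP (Gam (w'.1, cmp H w'.1)) -
        (2 : ℝ) • LinE (w - w')‖ ≤ c * ‖w - w'‖
  uniq : ∀ (H : E3 → M3) (ε : ℝ), 0 ≤ ε → ε ≤ ε₀ → (∀ i j, SB2 ε (fun x => H x i j)) →
    ∀ w w' : Xs, ‖w‖ ≤ δ → ‖w'‖ ≤ δ → SolLS H w → SolLS H w' → w = w'
  est : ∀ (H : E3 → M3) (ε : ℝ), 0 ≤ ε → ε ≤ ε₀ → (∀ i j, SB2 ε (fun x => H x i j)) →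
    ∀ w : Xs, ‖w‖ ≤ δ → SolLS H w → ‖w‖ ≤ C * ε ∧ ∀ i, |kap H w i - ell i H| ≤ C * ε ^ 2
  diff : ∀ (H H' : E3 → M3) (ε ε' : ℝ), 0 ≤ ε → ε ≤ ε₀ → 0 ≤ ε' →
    (∀ i j, SB2 ε (fun x => H x i j)) → (∀ i j, SB2 ε (fun x => H' x i j)) →
    (∀ i j, SB1 ε' (fun x => H x i j - H' x i j)) →
    ∀ w w' : Xs, ‖w‖ ≤ δ → ‖w'‖ ≤ δ → SolLS H w → SolLS H' w' →
      ‖w - w'‖ ≤ C * ε' ∧ ∀ i, |kap H w i - kap H' w' i -
        ell i (fun x a b => H x a b - H' x a b)| ≤ C * ε * ε'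
  /-- smallness needed by the other modules -/
  small : ∀ (z : Fin 4 → Y) (h : Fin 3 → Fin 3 → Y), ‖z‖ ≤ δ → ‖h‖ ≤ C * ε₀ →
    IsUnit (eY z) ∧ IsUnit (detY (aY z h)) ∧ ‖mY z h‖ < 1 / 2 ∧
    IsUnit (1 - TT.comp (Mop (mY z h))) ∧
    ZZ TT (mY z h) = TT (Mop (mY z h) (thY + ZZ TT (mY z h))) ∧
    (∀ j x, |ZZ TT (mY z h) j x| ≤ 1 / 4) ∧ ContDiffAt ℝ ∞ Gam (z, h)
  cmpH : ∀ (H : E3 → M3) (ε : ℝ), 0 ≤ ε → (∀ i j, SB2 ε (fun x => H x i j)) →
    ∀ w : Xs, ‖w‖ ≤ δ → ‖cmp H w.1‖ ≤ C * ε ∧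
      ∀ i j (x : Om), cmp H w.1 i j x = H (Psi (wS w.1) (x : E3)) i j

/-! ### Preliminaries -/

theorem LS_YPs_ext {f g : YPs} (h : ∀ θ : S2, (f : Y) (toOm θ) = (g : Y) (toOm θ)) : f = g := by
  apply Subtype.ext
  apply Y.ext
  intro x
  have hf : (f : Y) x = (f : Y) (toOm (dirS (x : E3))) := f.2.1 x
  have hg : (g : Y) x = (g : Y) (toOm (dirS (x : E3))) := g.2.1 x
  rw [hf, hg, h]

theorem LS_cont (f : Y) : Continuous (fun θ : S2 => f (toOm θ)) := f.continuous.comp continuous_toOm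

theorem LS_cont_i (i : Fin 3) : Continuous (fun θ : S2 => (θ : E3) i) := (xi i).continuous

theorem LS_int {f : S2 → ℝ} (hf : Continuous f) : Integrable f sig := by
  obtain ⟨C, hC⟩ := IsCompact.exists_bound_of_continuousOn (isCompact_univ (X := S2))
    hf.continuousOn
  exact Integrable.of_bound hf.aestronglyMeasurable C (Eventually.of_forall (fun x => hC x trivial))

theorem LS_sig_real : sig.real univ = 4 * Real.pi := by
  rw [Measure.real, sig_univ, ENNReal.toReal_ofReal (by positivity)]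

/-- the functional `∫ θ_i f` -/
def LSI (i : Fin 3) (f : Y) : ℝ := ∫ θ : S2, (θ : E3) i * f (toOm θ) ∂sig

theorem LS_intg (i : Fin 3) (f : Y) :
    Integrable (fun θ : S2 => (θ : E3) i * f (toOm θ)) sig :=
  LS_int ((LS_cont_i i).mul (LS_cont f))

theorem LSI_add (i : Fin 3) (f g : Y) : LSI i (f + g) = LSI i f + LSI i g := by
  unfold LSI
  rw [← integral_add (LS_intg i f) (LS_intg i g)]
  congr 1
  ext θ
  simp only [Y.add_apply]
  ring

theorem LSI_sub (i : Fin 3) (f g : Y) : LSI i (f - g) = LSI i f - LSI i g := by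
  unfold LSI
  rw [← integral_sub (LS_intg i f) (LS_intg i g)]
  congr 1
  ext θ
  simp only [Y.sub_apply]
  ring

theorem LS_abs_coord (θ : S2) (i : Fin 3) : |(θ : E3) i| ≤ 1 := by
  have h := EuclideanSpace.norm_eq (θ : E3)
  have h1 := norm_S2 θ
  have h2 : |(θ : E3) i| ≤ ‖(θ : E3)‖ := by
    have := PiLp.norm_apply_le (θ : E3) i
    simpa using this
  rw [h1] at h2
  exact h2

theorem LSI_le (i : Fin 3) (f : Y) : |LSI i f| ≤ 4 * Real.pi * ‖f‖ := by
  unfold LSI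
  have h := norm_integral_le_of_norm_le_const (μ := sig) (f := fun θ : S2 => (θ : E3) i * f (toOm θ))
    (C := ‖f‖) (Eventually.of_forall (fun θ => by
      rw [Real.norm_eq_abs, abs_mul]
      calc |(θ : E3) i| * |f (toOm θ)| ≤ 1 * ‖f‖ :=
            mul_le_mul (LS_abs_coord θ i) (f.abs_apply_le _) (abs_nonneg _) zero_le_one
        _ = ‖f‖ := one_mul _))
  rw [Real.norm_eq_abs, LS_sig_real] at h
  linarith

theorem LSI_one (i : Fin 3) : LSI i 1 = 0 := by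
  have h := (PiP 1).2.2.1
  have e : ∀ θ : S2, (PiP 1 : Y) (toOm θ) = -(3 * (4 * Real.pi)⁻¹) *
      ∑ j, (θ : E3) j * LSI j 1 := by
    intro θ
    rw [PiP_apply]
    have h1 : ∫ η : S2, (1 : Y) (toOm η) ∂sig = 4 * Real.pi := by
      simp only [Y.one_apply, integral_const, smul_eq_mul, mul_one, LS_sig_real]
    rw [h1, Y.one_apply, inv_mul_cancel₀ (by positivity)]
    unfold LSI
    ring
  simp_rw [e] at h
  rw [integral_const_mul] at h
  have e3 : ∫ θ : S2, ∑ j, (θ : E3) j * LSI j 1 ∂sig = ∑ j, ∫ θ : S2, (θ : E3) j * LSI j 1 ∂sig :=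
    integral_finsetSum _ (fun j _ => LS_int ((LS_cont_i j).mul continuous_const))
  rw [e3] at h
  simp_rw [integral_mul_const] at h
  have e2 : ∀ j, ∫ θ : S2, (θ : E3) j ∂sig = LSI j 1 := by
    intro j
    unfold LSI
    simp only [Y.one_apply, mul_one]
  simp_rw [e2] at h
  have h3 : ∑ j, LSI j 1 * LSI j 1 = 0 := by
    rcases mul_eq_zero.1 h with h | h
    · exfalso
      have : 0 < 3 * (4 * Real.pi)⁻¹ := by positivity
      linarith
    · exact h
  rw [Fin.sum_univ_three] at h3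
  have a0 := mul_self_nonneg (LSI 0 1)
  have a1 := mul_self_nonneg (LSI 1 1)
  have a2 := mul_self_nonneg (LSI 2 1)
  have b0 : LSI 0 1 = 0 := mul_self_eq_zero.1 (by linarith)
  have b1 : LSI 1 1 = 0 := mul_self_eq_zero.1 (by linarith)
  have b2 : LSI 2 1 = 0 := mul_self_eq_zero.1 (by linarith)
  fin_cases i
  · exact b0
  · exact b1
  · exact b2

theorem LS_PiP_congr {f g : Y} (h : ∀ θ : S2, f (toOm θ) = g (toOm θ)) : PiP f = PiP g := by
  apply LS_YPs_ext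
  intro θ
  rw [PiP_apply, PiP_apply]
  simp_rw [h]

theorem LS_PiP_one : PiP 1 = 0 := by
  apply LS_YPs_ext
  intro θ
  rw [PiP_apply]
  have h1 : ∫ η : S2, (1 : Y) (toOm η) ∂sig = 4 * Real.pi := by
    simp only [Y.one_apply, integral_const, smul_eq_mul, mul_one, LS_sig_real]
  have h2 : ∀ j, ∫ η : S2, (η : E3) j * (1 : Y) (toOm η) ∂sig = 0 := fun j => LSI_one j
  rw [h1, Y.one_apply, inv_mul_cancel₀ (by positivity)]
  simp only [h2, mul_zero, Finset.sum_const_zero, sub_zero, sub_self]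
  rfl

/-- the derivative of `Gam` at zero -/
def LSD : ((Fin 4 → Y) × (Fin 3 → Fin 3 → Y)) →L[ℝ] Y := fderiv ℝ Gam 0

theorem LS_PiP_D (w : Xs) : PiP (LSD (w.1, 0)) = (2 : ℝ) • LinE w := by
  have h : PiP (LSD (w.1, 0)) = PiP (((2 : ℝ) • LinE w : YPs) : Y) := by
    apply LS_PiP_congr
    intro θ
    have := Gam_lin_X w θ
    unfold LSD
    rw [this]
    rfl
  rw [h, PiP_coe]

theorem LSI_D (w : Xs) (i : Fin 3) : LSI i (LSD (w.1, 0)) = 0 := by
  have h : ∀ θ : S2, (LSD (w.1, 0)) (toOm θ) = 2 * (LinE w : Y) (toOm θ) := fun θ => Gam_lin_X w θ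
  have h2 := (LinE w).2.2.2 i
  unfold LSI
  simp_rw [h]
  have : ∀ θ : S2, (θ : E3) i * (2 * (LinE w : Y) (toOm θ)) =
      2 * ((θ : E3) i * (LinE w : Y) (toOm θ)) := fun θ => by ring
  simp_rw [this]
  rw [integral_const_mul, h2, mul_zero]

theorem LSI_Dh (h : Fin 3 → Fin 3 → Y) (i : Fin 3) : LSI i (LSD (0, h)) = ell i (fieldY h) :=
  Gam_lin_h h i

/-- quadratic estimate for `Gam` -/
theorem LS_quad : ∃ δ K : ℝ, 0 < δ ∧ 0 < K ∧
    ∀ p p' : (Fin 4 → Y) × (Fin 3 → Fin 3 → Y), ‖p‖ ≤ δ → ‖p'‖ ≤ δ →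
      ‖Gam p - Gam p' - LSD (p - p')‖ ≤ K * max ‖p‖ ‖p'‖ * ‖p - p'‖ := by
  obtain ⟨δ0, hδ0, hC⟩ := Gam_contDiff
  have h0 : ContDiffAt ℝ ∞ Gam 0 := hC 0 (by simpa using hδ0)
  have h1 : ContDiffAt ℝ 1 (fderiv ℝ Gam) 0 := by
    refine h0.fderiv_right (m := 1) ?_
    norm_cast
  obtain ⟨K, t, ht, hK⟩ := h1.exists_lipschitzOnWith
  obtain ⟨δ1, hδ1, hball⟩ := Metric.mem_nhds_iff.1 ht
  refine ⟨min (δ0 / 2) (δ1 / 2), K + 1, by positivity, by positivity, ?_⟩
  intro p p' hp hp'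
  set ρ := max ‖p‖ ‖p'‖ with hρ
  have hρ0 : 0 ≤ ρ := le_max_of_le_left (norm_nonneg _)
  have hρle : ρ ≤ min (δ0 / 2) (δ1 / 2) := max_le hp hp'
  have hmem : ∀ q ∈ Metric.closedBall (0 : (Fin 4 → Y) × (Fin 3 → Fin 3 → Y)) ρ,
      ‖q‖ ≤ ρ := fun q hq => by simpa using hq
  have hder : ∀ q ∈ Metric.closedBall (0 : (Fin 4 → Y) × (Fin 3 → Fin 3 → Y)) ρ,
      HasFDerivWithinAt Gam (fderiv ℝ Gam q) (Metric.closedBall 0 ρ) q := by
    intro q hq
    have h3 : ‖q‖ < δ0 := by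
      have := hmem q hq
      have h4 := min_le_left (δ0 / 2) (δ1 / 2)
      linarith
    exact ((hC q h3).differentiableAt (by norm_num)).hasFDerivAt.hasFDerivWithinAt
  have hb : ∀ q ∈ Metric.closedBall (0 : (Fin 4 → Y) × (Fin 3 → Fin 3 → Y)) ρ,
      ‖fderiv ℝ Gam q - LSD‖ ≤ (K + 1) * ρ := by
    intro q hq
    have h3 := hmem q hq
    have h5 : ‖q‖ < δ1 := by
      have h4 := min_le_right (δ0 / 2) (δ1 / 2)
      linarith
    have h6 := hK.dist_le_mul q (hball (by simpa using h5)) 0 (hball (by simpa using hδ1))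
    rw [dist_eq_norm, dist_zero_right] at h6
    calc ‖fderiv ℝ Gam q - LSD‖ ≤ K * ‖q‖ := h6
      _ ≤ (K + 1) * ρ := by
        have : (0 : ℝ) ≤ K := K.2
        nlinarith [norm_nonneg q]
  have := (convex_closedBall (0 : (Fin 4 → Y) × (Fin 3 → Fin 3 → Y)) ρ).norm_image_sub_le_of_norm_hasFDerivWithin_le'
    hder hb (x := p') (y := p) (by simp [hρ]) (by simp [hρ])
  exact this


/-! ### The reduced map -/

/-- remainder of `Gam` -/
def LSR (p : (Fin 4 → Y) × (Fin 3 → Fin 3 → Y)) : Y := Gam p - 1 - LSD p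

theorem LS_norm_coe (w : Xs) : ‖(w.1 : Fin 4 → Y)‖ = ‖w‖ := rfl

theorem LS_norm_coe' (f : YPs) : ‖(f : Y)‖ = ‖f‖ := rfl

theorem LS_D_split (w : Fin 4 → Y) (h : Fin 3 → Fin 3 → Y) :
    LSD (w, h) = LSD (w, 0) + LSD (0, h) := by
  rw [← map_add]
  simp

/-- `PiP (Gam (w, h)) = 2 LinE w + PiP D(0,h) + PiP R(w,h)` -/
theorem LS_PiP_Gam (w : Xs) (h : Fin 3 → Fin 3 → Y) :
    PiP (Gam (w.1, h)) = (2 : ℝ) • LinE w + PiP (LSD (0, h)) + PiP (LSR (w.1, h)) := by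
  have e : Gam (w.1, h) = 1 + (LSD (w.1, 0) + LSD (0, h)) + LSR (w.1, h) := by
    unfold LSR
    rw [LS_D_split w.1 h]
    abel
  rw [e, map_add, map_add, map_add, LS_PiP_one, LS_PiP_D, zero_add]

theorem LSI_Gam (w : Xs) (h : Fin 3 → Fin 3 → Y) (i : Fin 3) :
    LSI i (Gam (w.1, h)) = ell i (fieldY h) + LSI i (LSR (w.1, h)) := by
  have e : Gam (w.1, h) = 1 + (LSD (w.1, 0) + LSD (0, h)) + LSR (w.1, h) := by
    unfold LSR
    rw [LS_D_split w.1 h]
    abel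
  rw [e, LSI_add, LSI_add, LSI_add, LSI_one, LSI_D, LSI_Dh]
  ring

theorem LSR_sub (p p' : (Fin 4 → Y) × (Fin 3 → Fin 3 → Y)) :
    LSR p - LSR p' = Gam p - Gam p' - LSD (p - p') := by
  unfold LSR
  rw [map_sub]
  abel

theorem LSR_zero : LSR 0 = 0 := by
  unfold LSR
  rw [Gam_zero, map_zero]
  simp

theorem LS_fieldY_apply (h : Fin 3 → Fin 3 → Y) (x : E3) (hx : 1 ≤ ‖x‖) (i j : Fin 3) :
    fieldY h x i j = h i j ⟨x, hx⟩ := by
  unfold fieldY oext
  rw [dif_pos hx]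

theorem LS_fieldY_cont (h : Fin 3 → Fin 3 → Y) : ContinuousOn (fieldY h) {x | 1 ≤ ‖x‖} := by
  have hsub : {x : E3 | 1 ≤ ‖x‖} ⊆ {0}ᶜ := by
    intro x hx h0
    rw [mem_singleton_iff] at h0
    rw [h0, mem_ofPred_eq, norm_zero] at hx
    linarith
  refine continuousOn_pi.2 (fun i => continuousOn_pi.2 (fun j => ?_))
  exact (oext_continuousOn (h i j)).mono hsub

theorem LS_fieldY_le (h : Fin 3 → Fin 3 → Y) (x : E3) (hx : 1 ≤ ‖x‖) (i j : Fin 3) :
    |fieldY h x i j| ≤ ‖h‖ := by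
  rw [LS_fieldY_apply h x hx]
  exact ((h i j).abs_apply_le _).trans ((norm_le_pi_norm (h i) j).trans (norm_le_pi_norm h i))

theorem LS_SB2_cont {H : E3 → M3} {ε : ℝ} (h : ∀ i j, SB2 ε (fun x => H x i j)) :
    ContinuousOn H {x | 1 ≤ ‖x‖} := by
  refine continuousOn_pi.2 (fun i => continuousOn_pi.2 (fun j => ?_))
  exact (h i j).c2.continuousOn.mono (fun x hx => by
    rw [mem_ofPred_eq] at hx ⊢
    linarith)

theorem LS_SB1_cont {H : E3 → M3} {ε : ℝ} (h : ∀ i j, SB1 ε (fun x => H x i j)) :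
    ContinuousOn H {x | 1 ≤ ‖x‖} := by
  refine continuousOn_pi.2 (fun i => continuousOn_pi.2 (fun j => ?_))
  exact (h i j).c1.continuousOn.mono (fun x hx => by
    rw [mem_ofPred_eq] at hx ⊢
    linarith)

theorem LS_SB21 {ε : ℝ} {f : E3 → ℝ} (h : SB2 ε f) : SB1 ε f :=
  ⟨h.c2.of_le (by norm_num), h.b0, h.b1⟩

/-- difference of two values of `ell` -/
theorem LS_ell_sub {C : ℝ} (hC : ∀ (i : Fin 3) (h : E3 → M3) (B : ℝ), 0 ≤ B →
    (ContinuousOn h {x | 1 ≤ ‖x‖}) → (∀ x, 1 ≤ ‖x‖ → ∀ a b, |h x a b| ≤ B) →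
    |ell i h| ≤ C * B) (i : Fin 3) (h h' : E3 → M3) (B₀ B : ℝ)
    (hc : ContinuousOn h {x | 1 ≤ ‖x‖}) (hb : ∀ x, 1 ≤ ‖x‖ → ∀ a b, |h x a b| ≤ B₀)
    (hc' : ContinuousOn h' {x | 1 ≤ ‖x‖}) (hb' : ∀ x, 1 ≤ ‖x‖ → ∀ a b, |h' x a b| ≤ B₀)
    (hB : 0 ≤ B) (hd : ∀ x, 1 ≤ ‖x‖ → ∀ a b, |h x a b - h' x a b| ≤ B) :
    |ell i h - ell i h'| ≤ C * B := by
  have e := ell_add i h h' B₀ hc hb hc' hb' (-1)
  have e2 : ell i h - ell i h' = ell i (fun x a b => h x a b + -1 * h' x a b) := by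
    rw [e]; ring
  rw [e2]
  refine hC i _ B hB ?_ ?_
  · refine continuousOn_pi.2 (fun a => continuousOn_pi.2 (fun b => ?_))
    exact ((continuousOn_pi.1 (continuousOn_pi.1 hc a) b)).add
      (continuousOn_const.mul (continuousOn_pi.1 (continuousOn_pi.1 hc' a) b))
  · intro x hx a b
    have := hd x hx a b
    have e3 : h x a b + -1 * h' x a b = h x a b - h' x a b := by ring
    rw [e3]
    exact this

/-- inverse of `2 LinE` -/
def LSinv (f : YPs) : Xs := (1 / 2 : ℝ) • LinE.symm f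

theorem LSinv_apply (w : Xs) : LSinv ((2 : ℝ) • LinE w) = w := by
  unfold LSinv
  rw [map_smul, ContinuousLinearEquiv.symm_apply_apply, smul_smul]
  norm_num

theorem LSinv_sub (f g : YPs) : LSinv f - LSinv g = LSinv (f - g) := by
  unfold LSinv
  rw [map_sub, smul_sub]

theorem LSinv_zero {f : YPs} (h : LSinv f = 0) : f = 0 := by
  unfold LSinv at h
  rcases smul_eq_zero.1 h with h | h
  · norm_num at h
  · exact (map_eq_zero_iff LinE.symm LinE.symm.injective).1 h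

theorem LS_main : ∃ δ ε₀ C c : ℝ, LSConst δ ε₀ C c := by
  obtain ⟨δ1, C1, hδ1, hδ1', hC1, hcA, hcB⟩ := comp_bounds
  obtain ⟨δ2, hδ2, hsm⟩ := Gam_small
  obtain ⟨δ3, hδ3, hcd⟩ := Gam_contDiff
  obtain ⟨δ4, K, hδ4, hK, hq⟩ := LS_quad
  obtain ⟨Ce, hCe, heb⟩ := ell_bound
  obtain ⟨a, ha⟩ : ∃ t : ℝ, t = ‖PiP‖ + 1 := ⟨_, rfl⟩
  obtain ⟨d, hd⟩ : ∃ t : ℝ, t = ‖LSD‖ + 1 := ⟨_, rfl⟩
  obtain ⟨A, hA⟩ : ∃ t : ℝ, t = ‖(LinE.symm : YPs →L[ℝ] Xs)‖ + 1 := ⟨_, rfl⟩
  have ha1 : 1 ≤ a := by have := norm_nonneg PiP; linarith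
  have hd1 : 1 ≤ d := by have := norm_nonneg LSD; linarith
  have hA1 : 1 ≤ A := by have := norm_nonneg (LinE.symm : YPs →L[ℝ] Xs); linarith
  have ha0 : 0 < a := by linarith
  have hd0 : 0 < d := by linarith
  have hA0 : 0 < A := by linarith
  obtain ⟨c, hc⟩ : ∃ t : ℝ, t = 1 / A := ⟨_, rfl⟩
  have hc0 : 0 < c := by rw [hc]; positivity
  have hc1 : c ≤ 1 := by rw [hc, div_le_one hA0]; exact hA1
  have hAc : A * c = 1 := by rw [hc]; field_simp
  have hPi : ∀ f : Y, ‖PiP f‖ ≤ a * ‖f‖ := fun f =>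
    (PiP.le_opNorm f).trans (mul_le_mul_of_nonneg_right (by linarith) (norm_nonneg _))
  have hDn : ∀ p, ‖LSD p‖ ≤ d * ‖p‖ := fun p =>
    (LSD.le_opNorm p).trans (mul_le_mul_of_nonneg_right (by linarith) (norm_nonneg _))
  have hDh : ∀ h : Fin 3 → Fin 3 → Y, ‖LSD ((0 : Fin 4 → Y), h)‖ ≤ d * ‖h‖ := fun h => by
    have := hDn ((0 : Fin 4 → Y), h)
    rwa [Prod.norm_mk, norm_zero, max_eq_right (norm_nonneg _)] at this
  have hInv : ∀ f : YPs, ‖LSinv f‖ ≤ A / 2 * ‖f‖ := by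
    intro f
    unfold LSinv
    rw [norm_smul]
    have h1 := (LinE.symm : YPs →L[ℝ] Xs).le_opNorm f
    have h2 : ‖LinE.symm f‖ ≤ A * ‖f‖ := h1.trans
      (mul_le_mul_of_nonneg_right (by linarith) (norm_nonneg _))
    rw [Real.norm_of_nonneg (by norm_num : (0 : ℝ) ≤ 1 / 2)]
    linarith
  have hlow : ∀ w : Xs, 2 * c * ‖w‖ ≤ ‖(2 : ℝ) • LinE w‖ := by
    intro w
    have h1 := hInv ((2 : ℝ) • LinE w)
    rw [LSinv_apply] at h1
    have h2 : c * ‖w‖ ≤ c * (A / 2 * ‖(2 : ℝ) • LinE w‖) := mul_le_mul_of_nonneg_left h1 hc0.le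
    have h3 : c * (A / 2 * ‖(2 : ℝ) • LinE w‖) = ‖(2 : ℝ) • LinE w‖ / 2 := by
      calc c * (A / 2 * ‖(2 : ℝ) • LinE w‖) = (A * c) * (‖(2 : ℝ) • LinE w‖ / 2) := by ring
        _ = ‖(2 : ℝ) • LinE w‖ / 2 := by rw [hAc, one_mul]
    linarith
  -- constants
  obtain ⟨δ, hδ⟩ : ∃ t : ℝ, t = min δ1 (min (δ2 / 2) (min (δ3 / 2) (min δ4 (min 1 (c / (8 * a * K)))))) := ⟨_, rfl⟩
  have hδ0 : 0 < δ := by rw [hδ]; positivity
  have hδ_1 : δ ≤ δ1 := by rw [hδ]; exact min_le_left _ _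
  have hδ_r : δ ≤ min (δ2 / 2) (min (δ3 / 2) (min δ4 (min 1 (c / (8 * a * K))))) := by
    rw [hδ]; exact min_le_right _ _
  have hδ_2 : δ ≤ δ2 / 2 := hδ_r.trans (min_le_left _ _)
  have hδ_r2 : δ ≤ min (δ3 / 2) (min δ4 (min 1 (c / (8 * a * K)))) := hδ_r.trans (min_le_right _ _)
  have hδ_3 : δ ≤ δ3 / 2 := hδ_r2.trans (min_le_left _ _)
  have hδ_r3 : δ ≤ min δ4 (min 1 (c / (8 * a * K))) := hδ_r2.trans (min_le_right _ _)
  have hδ_4 : δ ≤ δ4 := hδ_r3.trans (min_le_left _ _)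
  have hδ_r4 : δ ≤ min 1 (c / (8 * a * K)) := hδ_r3.trans (min_le_right _ _)
  have hδ_5 : δ ≤ 1 := hδ_r4.trans (min_le_left _ _)
  have hδ_6 : δ ≤ c / (8 * a * K) := hδ_r4.trans (min_le_right _ _)
  have haKδ : a * K * δ ≤ c / 8 := by
    calc a * K * δ ≤ a * K * (c / (8 * a * K)) := mul_le_mul_of_nonneg_left hδ_6 (by positivity)
      _ = c / 8 := by field_simp
  have hKδ : K * δ ≤ 1 := by
    have h1 : K * δ ≤ a * K * δ := by
      have h2 : 1 * (K * δ) ≤ a * (K * δ) :=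
        mul_le_mul_of_nonneg_right ha1 (mul_pos hK hδ0).le
      rw [one_mul, ← mul_assoc] at h2
      exact h2
    linarith
  obtain ⟨C3, hC3⟩ : ∃ t : ℝ, t = a * (d + 1) * C1 / c := ⟨_, rfl⟩
  have hC30 : 0 < C3 := by rw [hC3]; positivity
  obtain ⟨S, hS⟩ : ∃ t : ℝ, t = C3 + C1 := ⟨_, rfl⟩
  obtain ⟨C4, hC4⟩ : ∃ t : ℝ, t = C3 + C1 := ⟨_, rfl⟩
  have hC40 : 0 < C4 := by rw [hC4]; positivity
  obtain ⟨C, hC⟩ : ∃ t : ℝ, t = C1 + C3 + Ce * (C1 * C3) + 4 * Real.pi * (K * S * S) +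
    Ce * (C1 * C3 + C1 * C3) + 4 * Real.pi * (K * S * (C3 + C4)) := ⟨_, rfl⟩
  have hpi := Real.pi_pos
  have hS0 : 0 < S := by rw [hS]; positivity
  have hC0 : 0 < C := by rw [hC]; positivity
  have hCC1 : C1 ≤ C := by
    have h1 : 0 ≤ Ce * (C1 * C3) := by positivity
    have h2 : 0 ≤ 4 * Real.pi * (K * S * S) := by positivity
    have h3 : 0 ≤ Ce * (C1 * C3 + C1 * C3) := by positivity
    have h4 : 0 ≤ 4 * Real.pi * (K * S * (C3 + C4)) := by positivity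
    rw [hC]; linarith
  have hCC3 : C3 ≤ C := by
    have h1 : 0 ≤ Ce * (C1 * C3) := by positivity
    have h2 : 0 ≤ 4 * Real.pi * (K * S * S) := by positivity
    have h3 : 0 ≤ Ce * (C1 * C3 + C1 * C3) := by positivity
    have h4 : 0 ≤ 4 * Real.pi * (K * S * (C3 + C4)) := by positivity
    rw [hC]; linarith
  obtain ⟨ε₀, hε⟩ : ∃ t : ℝ, t = min (δ / (2 * C)) (c / (4 * a * d * C1)) := ⟨_, rfl⟩
  have hε0 : 0 < ε₀ := by rw [hε]; positivity
  have hCε : C * ε₀ ≤ δ / 2 := by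
    calc C * ε₀ ≤ C * (δ / (2 * C)) :=
          mul_le_mul_of_nonneg_left (by rw [hε]; exact min_le_left _ _) hC0.le
      _ = δ / 2 := by field_simp
  have hadC : a * d * C1 * ε₀ ≤ c / 4 := by
    calc a * d * C1 * ε₀ ≤ a * d * C1 * (c / (4 * a * d * C1)) :=
          mul_le_mul_of_nonneg_left (by rw [hε]; exact min_le_right _ _) (by positivity)
      _ = c / 4 := by field_simp
  have hC1ε : ∀ ε, 0 ≤ ε → ε ≤ ε₀ → C1 * ε ≤ δ / 2 := fun ε h0 h1 =>
    ((mul_le_mul_of_nonneg_left h1 hC1.le).trans (mul_le_mul_of_nonneg_right hCC1 hε0.le)).trans hCε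
  have hadCε : ∀ ε, 0 ≤ ε → ε ≤ ε₀ → a * d * C1 * ε ≤ c / 4 := fun ε h0 h1 =>
    (mul_le_mul_of_nonneg_left h1 (by positivity)).trans hadC
  -- remainder estimate
  have hR : ∀ (w w' : Fin 4 → Y) (h h' : Fin 3 → Fin 3 → Y) (r : ℝ), r ≤ δ → ‖w‖ ≤ r → ‖w'‖ ≤ r →
      ‖h‖ ≤ r → ‖h'‖ ≤ r → ‖LSR (w, h) - LSR (w', h')‖ ≤ K * r * max ‖w - w'‖ ‖h - h'‖ := by
    intro w w' h h' r hr h1 h2 h3 h4
    rw [LSR_sub]
    have n1 : ‖((w, h) : (Fin 4 → Y) × (Fin 3 → Fin 3 → Y))‖ ≤ r := by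
      rw [Prod.norm_mk]; exact max_le h1 h3
    have n2 : ‖((w', h') : (Fin 4 → Y) × (Fin 3 → Fin 3 → Y))‖ ≤ r := by
      rw [Prod.norm_mk]; exact max_le h2 h4
    have hmain := hq (w, h) (w', h') (n1.trans (hr.trans hδ_4)) (n2.trans (hr.trans hδ_4))
    refine hmain.trans ?_
    have e : ‖((w, h) : (Fin 4 → Y) × (Fin 3 → Fin 3 → Y)) - (w', h')‖ =
        max ‖w - w'‖ ‖h - h'‖ := by
      rw [Prod.mk_sub_mk, Prod.norm_mk]
    rw [e]
    exact mul_le_mul_of_nonneg_right (mul_le_mul_of_nonneg_left (max_le n1 n2) hK.le)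
      (le_max_of_le_left (norm_nonneg _))
  -- estimate of the value at zero
  have hval0 : ∀ (H : E3 → M3) (ε : ℝ), 0 ≤ ε → ε ≤ ε₀ → (∀ i j, SB2 ε (fun x => H x i j)) →
      ‖PiP (Gam ((0 : Xs).1, cmp H (0 : Xs).1))‖ ≤ a * (d + 1) * C1 * ε := by
    intro H ε h0 h1 hH
    have hn := (hcA H ε h0 hH 0 (by rw [norm_zero]; exact hδ1.le)).1
    have hle := hC1ε ε h0 h1
    set h := cmp H (0 : Xs).1
    rw [LS_PiP_Gam, map_zero, smul_zero, zero_add]
    have hr := hR (0 : Xs).1 0 h 0 δ le_rfl (by simp [hδ0.le]) (by simp [hδ0.le])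
      (by linarith) (by simp [hδ0.le])
    have ez : LSR ((0 : Fin 4 → Y), (0 : Fin 3 → Fin 3 → Y)) = 0 := LSR_zero
    rw [ez, sub_zero, sub_zero, sub_zero] at hr
    have hz : ‖((0 : Xs).1 : Fin 4 → Y)‖ = 0 := by simp
    rw [hz, max_eq_right (norm_nonneg _)] at hr
    have t1 := hPi (LSD ((0 : Fin 4 → Y), h))
    have t2 := hPi (LSR ((0 : Xs).1, h))
    have t3 := hDh h
    have t4 : K * δ * ‖h‖ ≤ 1 * ‖h‖ := mul_le_mul_of_nonneg_right hKδ (norm_nonneg _)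
    calc ‖PiP (LSD ((0 : Fin 4 → Y), h)) + PiP (LSR ((0 : Xs).1, h))‖
        ≤ ‖PiP (LSD ((0 : Fin 4 → Y), h))‖ + ‖PiP (LSR ((0 : Xs).1, h))‖ := norm_add_le _ _
      _ ≤ a * (d * ‖h‖) + a * (1 * ‖h‖) := by
          refine add_le_add (t1.trans (mul_le_mul_of_nonneg_left t3 ha0.le))
            (t2.trans (mul_le_mul_of_nonneg_left (hr.trans t4) ha0.le))
      _ = a * (d + 1) * ‖h‖ := by ring
      _ ≤ a * (d + 1) * (C1 * ε) := mul_le_mul_of_nonneg_left hn (by positivity)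
      _ = a * (d + 1) * C1 * ε := by ring
  -- the approximation property
  have happ : ∀ (H : E3 → M3) (ε : ℝ), 0 ≤ ε → ε ≤ ε₀ → (∀ i j, SB2 ε (fun x => H x i j)) →
      ∀ w w' : Xs, ‖w‖ ≤ δ → ‖w'‖ ≤ δ →
      ‖PiP (Gam (w.1, cmp H w.1)) - PiP (Gam (w'.1, cmp H w'.1)) -
        (2 : ℝ) • LinE (w - w')‖ ≤ c * ‖w - w'‖ := by
    intro H ε h0 h1 hH w w' hw hw'
    obtain ⟨hn, -, hdf⟩ := hcA H ε h0 hH w (hw.trans hδ_1)
    have hn' := (hcA H ε h0 hH w' (hw'.trans hδ_1)).1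
    have hdf' := hdf w' (hw'.trans hδ_1)
    have hle := hC1ε ε h0 h1
    have hle2 := hadCε ε h0 h1
    set h := cmp H w.1
    set h' := cmp H w'.1
    rw [LS_PiP_Gam, LS_PiP_Gam]
    have e : (2 : ℝ) • LinE w + PiP (LSD (0, h)) + PiP (LSR (w.1, h)) -
        ((2 : ℝ) • LinE w' + PiP (LSD (0, h')) + PiP (LSR (w'.1, h'))) - (2 : ℝ) • LinE (w - w') =
        PiP (LSD ((0 : Fin 4 → Y), h - h')) + PiP (LSR (w.1, h) - LSR (w'.1, h')) := by
      have e1 : LSD ((0 : Fin 4 → Y), h - h') = LSD (0, h) - LSD (0, h') := by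
        rw [← map_sub, Prod.mk_sub_mk, sub_zero]
      rw [e1, map_sub, map_sub, map_sub, smul_sub]
      abel
    rw [e]
    have hww : ‖w.1 - w'.1‖ = ‖w - w'‖ := rfl
    have hr := hR w.1 w'.1 h h' δ le_rfl hw hw' (by linarith) (by linarith)
    have hhw : ‖h - h'‖ ≤ ‖w - w'‖ := by
      refine hdf'.trans ?_
      have : C1 * ε ≤ 1 := by linarith
      calc C1 * ε * ‖w - w'‖ ≤ 1 * ‖w - w'‖ := mul_le_mul_of_nonneg_right this (norm_nonneg _)
        _ = ‖w - w'‖ := one_mul _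
    rw [hww, max_eq_left hhw] at hr
    have t1 := hPi (LSD ((0 : Fin 4 → Y), h - h'))
    have t2 := hPi (LSR (w.1, h) - LSR (w'.1, h'))
    have t3 := hDh (h - h')
    calc _ ≤ ‖PiP (LSD ((0 : Fin 4 → Y), h - h'))‖ + ‖PiP (LSR (w.1, h) - LSR (w'.1, h'))‖ :=
          norm_add_le _ _
      _ ≤ a * (d * (C1 * ε * ‖w - w'‖)) + a * (K * δ * ‖w - w'‖) := by
          refine add_le_add (t1.trans (mul_le_mul_of_nonneg_left
            (t3.trans (mul_le_mul_of_nonneg_left hdf' hd0.le)) ha0.le))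
            (t2.trans (mul_le_mul_of_nonneg_left hr ha0.le))
      _ = (a * d * C1 * ε + a * K * δ) * ‖w - w'‖ := by ring
      _ ≤ c * ‖w - w'‖ := mul_le_mul_of_nonneg_right (by linarith) (norm_nonneg _)
  -- size of solutions
  have hsize : ∀ (H : E3 → M3) (ε : ℝ), 0 ≤ ε → ε ≤ ε₀ → (∀ i j, SB2 ε (fun x => H x i j)) →
      ∀ w : Xs, ‖w‖ ≤ δ → SolLS H w → ‖w‖ ≤ C3 * ε := by
    intro H ε h0 h1 hH w hw hsol
    have h2 := happ H ε h0 h1 hH w 0 hw (by rw [norm_zero]; exact hδ0.le)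
    have h3 := hval0 H ε h0 h1 hH
    unfold SolLS at hsol
    rw [hsol, sub_zero, zero_sub] at h2
    have h4 := hlow w
    have h5 : ‖(2 : ℝ) • LinE w‖ ≤ ‖-PiP (Gam ((0 : Xs).1, cmp H (0 : Xs).1)) - (2 : ℝ) • LinE w‖ +
        ‖PiP (Gam ((0 : Xs).1, cmp H (0 : Xs).1))‖ := by
      have : (2 : ℝ) • LinE w = -(-PiP (Gam ((0 : Xs).1, cmp H (0 : Xs).1)) - (2 : ℝ) • LinE w) -
        PiP (Gam ((0 : Xs).1, cmp H (0 : Xs).1)) := by abel
      calc ‖(2 : ℝ) • LinE w‖ = ‖-(-PiP (Gam ((0 : Xs).1, cmp H (0 : Xs).1)) - (2 : ℝ) • LinE w) -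
          PiP (Gam ((0 : Xs).1, cmp H (0 : Xs).1))‖ := by rw [← this]
        _ ≤ _ := by
          refine (norm_sub_le _ _).trans ?_
          rw [norm_neg]
    have h6 : c * ‖w‖ ≤ a * (d + 1) * C1 * ε := by linarith
    rw [hC3, div_mul_eq_mul_div, le_div_iff₀ hc0]
    linarith
  have huniq : ∀ (H : E3 → M3) (ε : ℝ), 0 ≤ ε → ε ≤ ε₀ → (∀ i j, SB2 ε (fun x => H x i j)) →
      ∀ w w' : Xs, ‖w‖ ≤ δ → ‖w'‖ ≤ δ → SolLS H w → SolLS H w' → w = w' := by
    intro H ε h0 h1 hH w w' hw hw' hs hs'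
    have h2 := happ H ε h0 h1 hH w w' hw hw'
    unfold SolLS at hs hs'
    rw [hs, hs', sub_zero, zero_sub, norm_neg] at h2
    have h4 := hlow (w - w')
    have h5 : ‖w - w'‖ = 0 := by
      have h6 : c * ‖w - w'‖ ≤ 0 := by linarith
      have h7 := norm_nonneg (w - w')
      refine le_antisymm ?_ h7
      by_contra h8
      have h9 := mul_pos hc0 (not_le.1 h8)
      linarith only [h6, h9]
    exact sub_eq_zero.1 (norm_eq_zero.1 h5)
  have hSC : S ≤ C := by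
    have h1 : 0 ≤ Ce * (C1 * C3) := by positivity
    have h2 : 0 ≤ 4 * Real.pi * (K * S * S) := by positivity
    have h3 : 0 ≤ Ce * (C1 * C3 + C1 * C3) := by positivity
    have h4 : 0 ≤ 4 * Real.pi * (K * S * (C3 + C4)) := by positivity
    rw [hC, hS] at *; linarith
  have hSε : ∀ ε, 0 ≤ ε → ε ≤ ε₀ → S * ε ≤ δ := fun ε h0 h1 => by
    have := (mul_le_mul_of_nonneg_left h1 hS0.le).trans (mul_le_mul_of_nonneg_right hSC hε0.le)
    linarith
  refine ⟨δ, ε₀, C, c, ⟨hδ0, hδ_1.trans hδ1', hε0, hC0, hc0.le, hlow, ?_, happ, huniq, ?_, ?_, ?_,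
    ?_⟩⟩
  · -- existence
    intro H ε h0 h1 hH
    set T : Xs → Xs := fun w => w - LSinv (PiP (Gam (w.1, cmp H w.1))) with hT
    have hTlip : ∀ w w' : Xs, ‖w‖ ≤ δ → ‖w'‖ ≤ δ → ‖T w - T w'‖ ≤ 1 / 2 * ‖w - w'‖ := by
      intro w w' hw hw'
      have h2 := happ H ε h0 h1 hH w w' hw hw'
      have e : T w - T w' = -LSinv (PiP (Gam (w.1, cmp H w.1)) - PiP (Gam (w'.1, cmp H w'.1)) -
          (2 : ℝ) • LinE (w - w')) := by
        rw [← LSinv_sub, ← LSinv_sub, LSinv_apply]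
        show (w - LSinv (PiP (Gam (w.1, cmp H w.1)))) -
          (w' - LSinv (PiP (Gam (w'.1, cmp H w'.1)))) =
          -(LSinv (PiP (Gam (w.1, cmp H w.1))) - LSinv (PiP (Gam (w'.1, cmp H w'.1))) - (w - w'))
        generalize LSinv (PiP (Gam (w.1, cmp H w.1))) = p
        generalize LSinv (PiP (Gam (w'.1, cmp H w'.1))) = q
        abel
      rw [e, norm_neg]
      refine (hInv _).trans ?_
      calc A / 2 * _ ≤ A / 2 * (c * ‖w - w'‖) := mul_le_mul_of_nonneg_left h2 (by positivity)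
        _ = (A * c) / 2 * ‖w - w'‖ := by ring
        _ = 1 / 2 * ‖w - w'‖ := by rw [hAc]
    have hT0 : ‖T 0‖ ≤ δ / 4 := by
      have e : T 0 = - LSinv (PiP (Gam ((0 : Xs).1, cmp H (0 : Xs).1))) := by
        rw [hT]; simp
      rw [e, norm_neg]
      refine (hInv _).trans ?_
      have h3 := hval0 H ε h0 h1 hH
      have h4 : A / 2 * ‖PiP (Gam ((0 : Xs).1, cmp H (0 : Xs).1))‖ ≤ A / 2 * (a * (d + 1) * C1 * ε) :=
        mul_le_mul_of_nonneg_left h3 (by positivity)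
      have h5 : A / 2 * (a * (d + 1) * C1 * ε) = C3 * ε / 2 := by
        have q1 : C3 * c = a * (d + 1) * C1 := by
          rw [hC3]; exact div_mul_cancel₀ _ hc0.ne'
        calc A / 2 * (a * (d + 1) * C1 * ε) = A / 2 * (C3 * c * ε) := by rw [q1]
          _ = (A * c) * (C3 * ε / 2) := by ring
          _ = C3 * ε / 2 := by rw [hAc, one_mul]
      have h6 : C3 * ε ≤ δ / 2 := ((mul_le_mul_of_nonneg_left h1 hC30.le).trans
        (mul_le_mul_of_nonneg_right hCC3 hε0.le)).trans hCε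
      linarith
    have hmaps : MapsTo T (Metric.closedBall (0 : Xs) δ) (Metric.closedBall (0 : Xs) δ) := by
      intro w hw
      rw [mem_closedBall_zero_iff] at hw ⊢
      have h2 := hTlip w 0 hw (by rw [norm_zero]; exact hδ0.le)
      rw [sub_zero] at h2
      have h3 : ‖T w‖ ≤ ‖T w - T 0‖ + ‖T 0‖ := by
        calc ‖T w‖ = ‖(T w - T 0) + T 0‖ := by rw [sub_add_cancel]
          _ ≤ _ := norm_add_le _ _
      linarith
    have hcontr : ContractingWith (1 / 2 : NNReal)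
        (hmaps.restrict T (Metric.closedBall (0 : Xs) δ) (Metric.closedBall (0 : Xs) δ)) := by
      refine ⟨by rw [← NNReal.coe_lt_coe]; norm_num, ?_⟩
      apply LipschitzWith.of_dist_le_mul
      intro w w'
      have h2 := hTlip w.1 w'.1 (mem_closedBall_zero_iff.1 w.2) (mem_closedBall_zero_iff.1 w'.2)
      have e : ((1 / 2 : NNReal) : ℝ) = 1 / 2 := by norm_num
      rw [e]
      show dist (T w.1) (T w'.1) ≤ 1 / 2 * dist w.1 w'.1
      rw [dist_eq_norm, dist_eq_norm]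
      exact h2
    obtain ⟨w, hwm, hfix, -⟩ := ContractingWith.exists_fixedPoint'
      (Metric.isClosed_closedBall.isComplete) hmaps hcontr
      (x := 0) (by simp [hδ0.le]) (edist_ne_top _ _)
    have hw : ‖w‖ ≤ δ := mem_closedBall_zero_iff.1 hwm
    have hsol : SolLS H w := by
      have h2 : w - LSinv (PiP (Gam (w.1, cmp H w.1))) = w := hfix
      have h3 : LSinv (PiP (Gam (w.1, cmp H w.1))) = 0 := by
        have := sub_eq_self.1 h2
        exact this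
      exact LSinv_zero h3
    refine ⟨w, ?_, hw, hsol⟩
    exact (hsize H ε h0 h1 hH w hw hsol).trans (mul_le_mul_of_nonneg_right hCC3 h0)
  · -- estimates
    intro H ε h0 h1 hH w hw hsol
    have hs := hsize H ε h0 h1 hH w hw hsol
    refine ⟨hs.trans (mul_le_mul_of_nonneg_right hCC3 h0), fun i => ?_⟩
    obtain ⟨hn, hv, -⟩ := hcA H ε h0 hH w (hw.trans hδ_1)
    obtain ⟨-, -, hd3⟩ := hcB H ε h0 (fun i j => LS_SB21 (hH i j)) w (hw.trans hδ_1)
    set h := cmp H w.1 with hh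
    have hk : kap H w i = ell i (fieldY h) + LSI i (LSR (w.1, h)) := LSI_Gam w h i
    rw [hk]
    have hell : |ell i (fieldY h) - ell i H| ≤ Ce * (C1 * ε * ‖w‖) := by
      refine LS_ell_sub heb i (fieldY h) H (‖h‖ + ε) _ (LS_fieldY_cont h) ?_ (LS_SB2_cont hH) ?_
        (by positivity) ?_
      · intro x hx a b
        exact (LS_fieldY_le h x hx a b).trans (by linarith)
      · intro x hx a b
        exact ((hH a b).b0 x (by linarith)).trans (by linarith [norm_nonneg h])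
      · intro x hx a b
        rw [LS_fieldY_apply h x hx, hh, hv]
        exact hd3 ⟨x, hx⟩ a b
    have hr := hR w.1 0 h 0 (S * ε) (hSε ε h0 h1)
      (hs.trans (by rw [hS, add_mul]; linarith only [mul_nonneg hC1.le h0]))
      (by rw [norm_zero]; positivity)
      (hn.trans (by rw [hS, add_mul]; linarith only [mul_nonneg hC30.le h0]))
      (by rw [norm_zero]; positivity)
    have ez : LSR ((0 : Fin 4 → Y), (0 : Fin 3 → Fin 3 → Y)) = 0 := LSR_zero
    rw [ez, sub_zero, sub_zero, sub_zero] at hr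
    have hmx : max ‖w.1‖ ‖h‖ ≤ S * ε := by
      refine max_le (hs.trans ?_) (hn.trans ?_)
      · rw [hS, add_mul]; linarith only [mul_nonneg hC1.le h0]
      · rw [hS, add_mul]; linarith only [mul_nonneg hC30.le h0]
    have hr2 : ‖LSR (w.1, h)‖ ≤ K * (S * ε) * (S * ε) :=
      hr.trans (mul_le_mul_of_nonneg_left hmx (by positivity))
    have hi := LSI_le i (LSR (w.1, h))
    have hi2 : |LSI i (LSR (w.1, h))| ≤ 4 * Real.pi * (K * (S * ε) * (S * ε)) :=
      hi.trans (mul_le_mul_of_nonneg_left hr2 (by positivity))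
    have e : ell i (fieldY h) + LSI i (LSR (w.1, h)) - ell i H =
      (ell i (fieldY h) - ell i H) + LSI i (LSR (w.1, h)) := by ring
    rw [e]
    refine (abs_add_le _ _).trans ?_
    have h5 : Ce * (C1 * ε * ‖w‖) ≤ Ce * (C1 * ε * (C3 * ε)) :=
      mul_le_mul_of_nonneg_left (mul_le_mul_of_nonneg_left hs (by positivity)) hCe.le
    have hrest : 0 ≤ C1 + C3 + Ce * (C1 * C3 + C1 * C3) + 4 * Real.pi * (K * S * (C3 + C4)) := by
      positivity
    calc _ ≤ Ce * (C1 * ε * (C3 * ε)) + 4 * Real.pi * (K * (S * ε) * (S * ε)) :=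
          add_le_add (hell.trans h5) hi2
      _ = (Ce * (C1 * C3) + 4 * Real.pi * (K * S * S)) * ε ^ 2 := by ring
      _ ≤ C * ε ^ 2 := mul_le_mul_of_nonneg_right (by rw [hC]; linarith) (sq_nonneg ε)
  · -- differences
    intro H H' ε ε' h0 h1 h0' hH hH' hHH w w' hw hw' hsol hsol'
    have hs := hsize H ε h0 h1 hH w hw hsol
    have hs' := hsize H' ε h0 h1 hH' w' hw' hsol'
    obtain ⟨hn, hv, hdf⟩ := hcA H ε h0 hH w (hw.trans hδ_1)
    obtain ⟨hn2, hv2, -⟩ := hcA H ε h0 hH w' (hw'.trans hδ_1)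
    obtain ⟨hn3, hv3, hdf3⟩ := hcA H' ε h0 hH' w (hw.trans hδ_1)
    obtain ⟨hn', hv', -⟩ := hcA H' ε h0 hH' w' (hw'.trans hδ_1)
    obtain ⟨-, -, hKw⟩ := hcB (fun x i j => H x i j - H' x i j) ε' h0' hHH w (hw.trans hδ_1)
    obtain ⟨hKn, hKv, -⟩ := hcB (fun x i j => H x i j - H' x i j) ε' h0' hHH w' (hw'.trans hδ_1)
    have hdf' := hdf w' (hw'.trans hδ_1)
    have hdf3' := hdf3 w' (hw'.trans hδ_1)
    have hle := hC1ε ε h0 h1
    have hle2 := hadCε ε h0 h1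
    have ecmp : cmp H w'.1 - cmp H' w'.1 = cmp (fun x i j => H x i j - H' x i j) w'.1 := by
      funext i j
      apply Y.ext
      intro x
      have e1 := hv2 i j x
      have e2 := hv' i j x
      have e3 := hKv i j x
      simp only [Pi.sub_apply, Y.sub_apply]
      exact (congrArg₂ (fun p q : ℝ => p - q) e1 e2).trans e3.symm
    set h := cmp H w.1 with hh
    set h' := cmp H' w'.1 with hh'
    set X := ‖w - w'‖ with hX
    have hX0 : 0 ≤ X := norm_nonneg _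
    have hhh : ‖h - h'‖ ≤ C1 * ε * X + C1 * ε' := by
      have e : h - h' = (h - cmp H w'.1) + (cmp H w'.1 - h') := by abel
      rw [e]
      refine (norm_add_le _ _).trans (add_le_add hdf' ?_)
      rw [ecmp]
      exact hKn
    have hX3 : X ≤ C3 * ε' := by
      have e : (2 : ℝ) • LinE (w - w') =
          -(PiP (LSD ((0 : Fin 4 → Y), h - h')) + PiP (LSR (w.1, h) - LSR (w'.1, h'))) := by
        have e1 : LSD ((0 : Fin 4 → Y), h - h') = LSD (0, h) - LSD (0, h') := by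
          rw [← map_sub, Prod.mk_sub_mk, sub_zero]
        have e2 : PiP (Gam (w.1, h)) = 0 := hsol
        have e3 : PiP (Gam (w'.1, h')) = 0 := hsol'
        rw [LS_PiP_Gam] at e2 e3
        rw [e1, map_sub, map_sub, map_sub, smul_sub]
        have e4 : (2 : ℝ) • LinE w = -(PiP (LSD (0, h)) + PiP (LSR (w.1, h))) := by
          rw [add_assoc] at e2
          exact eq_neg_of_add_eq_zero_left e2
        have e5 : (2 : ℝ) • LinE w' = -(PiP (LSD (0, h')) + PiP (LSR (w'.1, h'))) := by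
          rw [add_assoc] at e3
          exact eq_neg_of_add_eq_zero_left e3
        rw [e4, e5]
        abel
      have hr := hR w.1 w'.1 h h' δ le_rfl hw hw' (by linarith) (by linarith)
      have hww : ‖w.1 - w'.1‖ = X := rfl
      rw [hww] at hr
      have hr' : ‖LSR (w.1, h) - LSR (w'.1, h')‖ ≤ K * δ * (X + ‖h - h'‖) :=
        hr.trans (mul_le_mul_of_nonneg_left (max_le (by linarith [norm_nonneg (h - h')])
          (by linarith)) (by positivity))
      have t1 := hPi (LSD ((0 : Fin 4 → Y), h - h'))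
      have t2 := hPi (LSR (w.1, h) - LSR (w'.1, h'))
      have t3 := hDh (h - h')
      have t4 : ‖(2 : ℝ) • LinE (w - w')‖ ≤ a * (d * ‖h - h'‖) + a * (K * δ * (X + ‖h - h'‖)) := by
        rw [e, norm_neg]
        exact (norm_add_le _ _).trans (add_le_add
          (t1.trans (mul_le_mul_of_nonneg_left t3 ha0.le))
          (t2.trans (mul_le_mul_of_nonneg_left hr' ha0.le)))
      have t5 := hlow (w - w')
      rw [← hX] at t5
      -- insert the bound of h - h'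
      have t6 : a * (d * ‖h - h'‖) ≤ a * d * C1 * ε * X + a * d * C1 * ε' := by
        calc a * (d * ‖h - h'‖) ≤ a * (d * (C1 * ε * X + C1 * ε')) :=
              mul_le_mul_of_nonneg_left (mul_le_mul_of_nonneg_left hhh hd0.le) ha0.le
          _ = _ := by ring
      have t7 : a * (K * δ * (X + ‖h - h'‖)) ≤ a * K * δ * (X + (1 * X + C1 * ε')) := by
        have : ‖h - h'‖ ≤ 1 * X + C1 * ε' := hhh.trans (add_le_add_left
          (mul_le_mul_of_nonneg_right (by linarith) hX0) _)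
        calc a * (K * δ * (X + ‖h - h'‖)) = a * K * δ * (X + ‖h - h'‖) := by ring
          _ ≤ _ := mul_le_mul_of_nonneg_left (by linarith) (by positivity)
      have t8 : a * d * C1 * ε * X ≤ c / 4 * X := mul_le_mul_of_nonneg_right hle2 hX0
      have t9 : a * K * δ * (X + (1 * X + C1 * ε')) ≤ c / 4 * X + a * C1 * ε' := by
        have u1 : a * K * δ * (2 * X) ≤ c / 8 * (2 * X) :=
          mul_le_mul_of_nonneg_right haKδ (by linarith)
        have u2 : a * K * δ * (C1 * ε') ≤ a * 1 * (C1 * ε') := by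
          have : a * K * δ ≤ a * 1 := by
            rw [mul_assoc]; exact mul_le_mul_of_nonneg_left hKδ ha0.le
          exact mul_le_mul_of_nonneg_right this (by positivity)
        calc a * K * δ * (X + (1 * X + C1 * ε')) = a * K * δ * (2 * X) + a * K * δ * (C1 * ε') := by
              ring
          _ ≤ c / 8 * (2 * X) + a * 1 * (C1 * ε') := add_le_add u1 u2
          _ = c / 4 * X + a * C1 * ε' := by ring
      have t10 : c * X ≤ a * (d + 1) * C1 * ε' := by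
        have u3 : a * (d + 1) * C1 * ε' = a * d * C1 * ε' + a * C1 * ε' := by ring
        have u4 : 0 ≤ c * X := by positivity
        rw [u3]
        linarith
      rw [hC3, div_mul_eq_mul_div, le_div_iff₀ hc0]
      linarith
    have hh4 : ‖h - h'‖ ≤ C4 * ε' := by
      have u1 : C1 * ε * X ≤ 1 * (C3 * ε') := mul_le_mul (by linarith) hX3 hX0 (by norm_num)
      rw [hC4]
      linarith
    refine ⟨hX3.trans (mul_le_mul_of_nonneg_right hCC3 h0'), fun i => ?_⟩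
    have hk : kap H w i = ell i (fieldY h) + LSI i (LSR (w.1, h)) := LSI_Gam w h i
    have hk' : kap H' w' i = ell i (fieldY h') + LSI i (LSR (w'.1, h')) := LSI_Gam w' h' i
    rw [hk, hk']
    have hbSε : C1 * ε ≤ S * ε := mul_le_mul_of_nonneg_right (by rw [hS]; linarith) h0
    have hcSε : C3 * ε ≤ S * ε := mul_le_mul_of_nonneg_right (by rw [hS]; linarith) h0
    have hr := hR w.1 w'.1 h h' (S * ε) (hSε ε h0 h1) (hs.trans hcSε) (hs'.trans hcSε)
      (hn.trans hbSε) (hn'.trans hbSε)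
    have hww : ‖w.1 - w'.1‖ = X := rfl
    rw [hww] at hr
    have hr2 : ‖LSR (w.1, h) - LSR (w'.1, h')‖ ≤ K * (S * ε) * ((C3 + C4) * ε') := by
      refine hr.trans (mul_le_mul_of_nonneg_left (max_le ?_ ?_) (by positivity))
      · have q1 := mul_nonneg hC40.le h0'
        rw [add_mul]
        linarith only [hX3, q1]
      · have q1 := mul_nonneg hC30.le h0'
        rw [add_mul]
        linarith only [hh4, q1]
    have hi := LSI_le i (LSR (w.1, h) - LSR (w'.1, h'))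
    have hi2 : |LSI i (LSR (w.1, h) - LSR (w'.1, h'))| ≤
        4 * Real.pi * (K * (S * ε) * ((C3 + C4) * ε')) :=
      hi.trans (mul_le_mul_of_nonneg_left hr2 (by positivity))
    -- the `ell` part
    have ef1 : ell i (fieldY h) - ell i (fieldY h') =
        ell i (fun x a b => fieldY h x a b + -1 * fieldY h' x a b) := by
      rw [ell_add i (fieldY h) (fieldY h') (‖h‖ + ‖h'‖) (LS_fieldY_cont h)
        (fun x hx a b => (LS_fieldY_le h x hx a b).trans (by linarith [norm_nonneg h']))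
        (LS_fieldY_cont h')
        (fun x hx a b => (LS_fieldY_le h' x hx a b).trans (by linarith [norm_nonneg h])) (-1)]
      ring
    have hell : |ell i (fun x a b => fieldY h x a b + -1 * fieldY h' x a b) -
        ell i (fun x a b => H x a b - H' x a b)| ≤ Ce * (C1 * ε' * ‖w‖ + C1 * ε * X) := by
      refine LS_ell_sub heb i _ _ (‖h‖ + ‖h'‖ + ε') _ ?_ ?_ (LS_SB1_cont hHH) ?_
        (by positivity) ?_
      · refine continuousOn_pi.2 (fun a => continuousOn_pi.2 (fun b => ?_))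
        exact ((continuousOn_pi.1 (continuousOn_pi.1 (LS_fieldY_cont h) a) b)).add
          (continuousOn_const.mul (continuousOn_pi.1 (continuousOn_pi.1 (LS_fieldY_cont h') a) b))
      · intro x hx a b
        have u1 := LS_fieldY_le h x hx a b
        have u2 := LS_fieldY_le h' x hx a b
        refine (abs_add_le _ _).trans ?_
        rw [abs_mul, abs_neg, abs_one, one_mul]
        linarith
      · intro x hx a b
        exact ((hHH a b).b0 x (by linarith)).trans (by linarith [norm_nonneg h, norm_nonneg h'])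
      · intro x hx a b
        rw [LS_fieldY_apply h x hx, LS_fieldY_apply h' x hx, hh, hh', hv, hv']
        have u1 := hKw ⟨x, hx⟩ a b
        have u2 : |H' (Psi (wS w.1) x) a b - H' (Psi (wS w'.1) x) a b| ≤ C1 * ε * X := by
          have v1 := hv3 a b ⟨x, hx⟩
          have v2 := hv' a b ⟨x, hx⟩
          have v3 : |(cmp H' w.1 - cmp H' w'.1) a b ⟨x, hx⟩| ≤ ‖cmp H' w.1 - cmp H' w'.1‖ :=
            (((cmp H' w.1 - cmp H' w'.1) a b).abs_apply_le _).trans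
              ((norm_le_pi_norm ((cmp H' w.1 - cmp H' w'.1) a) b).trans
                (norm_le_pi_norm (cmp H' w.1 - cmp H' w'.1) a))
          have v4 : (cmp H' w.1 - cmp H' w'.1) a b ⟨x, hx⟩ =
              H' (Psi (wS w.1) x) a b - H' (Psi (wS w'.1) x) a b := by
            simp only [Pi.sub_apply, Y.sub_apply]
            exact congrArg₂ (fun p q : ℝ => p - q) v1 v2
          rw [v4] at v3
          exact v3.trans hdf3'
        have e : H (Psi (wS w.1) x) a b + -1 * H' (Psi (wS w'.1) x) a b - (H x a b - H' x a b) =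
          ((H (Psi (wS w.1) x) a b - H' (Psi (wS w.1) x) a b) - (H x a b - H' x a b)) +
            (H' (Psi (wS w.1) x) a b - H' (Psi (wS w'.1) x) a b) := by ring
        rw [e]
        exact (abs_add_le _ _).trans (add_le_add u1 u2)
    have e : ell i (fieldY h) + LSI i (LSR (w.1, h)) - (ell i (fieldY h') + LSI i (LSR (w'.1, h'))) -
        ell i (fun x a b => H x a b - H' x a b) =
        (ell i (fun x a b => fieldY h x a b + -1 * fieldY h' x a b) -
          ell i (fun x a b => H x a b - H' x a b)) + LSI i (LSR (w.1, h) - LSR (w'.1, h')) := by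
      rw [← ef1, LSI_sub]; ring
    rw [e]
    refine (abs_add_le _ _).trans ?_
    have h5 : Ce * (C1 * ε' * ‖w‖ + C1 * ε * X) ≤ Ce * (C1 * ε' * (C3 * ε) + C1 * ε * (C3 * ε')) := by
      refine mul_le_mul_of_nonneg_left (add_le_add ?_ ?_) hCe.le
      · exact mul_le_mul_of_nonneg_left hs (by positivity)
      · exact mul_le_mul_of_nonneg_left hX3 (by positivity)
    have hrest : 0 ≤ C1 + C3 + Ce * (C1 * C3) + 4 * Real.pi * (K * S * S) := by
      positivity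
    calc _ ≤ Ce * (C1 * ε' * (C3 * ε) + C1 * ε * (C3 * ε')) +
          4 * Real.pi * (K * (S * ε) * ((C3 + C4) * ε')) := add_le_add (hell.trans h5) hi2
      _ = (Ce * (C1 * C3 + C1 * C3) + 4 * Real.pi * (K * S * (C3 + C4))) * (ε * ε') := by ring
      _ ≤ C * (ε * ε') := mul_le_mul_of_nonneg_right (by rw [hC]; linarith) (by positivity)
      _ = C * ε * ε' := by ring
  · -- smallness
    intro z h hz hh
    have hz2 : ‖z‖ < δ2 := by linarith
    have hh2 : ‖h‖ < δ2 := by linarith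
    obtain ⟨s1, s2, s3, s4, s5, s6⟩ := hsm z h hz2 hh2
    refine ⟨s1, s2, s3, s4, s5, s6, hcd (z, h) ?_⟩
    rw [Prod.norm_mk]
    exact max_lt (by linarith) (by linarith)
  · -- compositions
    intro H ε h0 hH w hw
    obtain ⟨hn, hv, -⟩ := hcA H ε h0 hH w (hw.trans hδ_1)
    exact ⟨hn.trans (mul_le_mul_of_nonneg_right hCC1 h0), hv⟩

end

end Pool.Agent.BS
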