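import Pool.Agent.BS.Xsp

/-!
# Module ROTX: rotation of elements of X
-/

namespace Pool.Agent.BS

open MeasureTheory Topology Set Filter
open scoped ContDiff Pointwise

noncomputable section

/-- the isometry restricted to the sphere -/
def rotxS (σ : E3 ≃ₗᵢ[ℝ] E3) (θ : S2) : S2 :=
  ⟨σ θ, by rw [mem_sphere_zero_iff_norm, σ.norm_map, norm_S2]⟩

@[simp] theorem rotxS_coe (σ : E3 ≃ₗᵢ[ℝ] E3) (θ : S2) : (rotxS σ θ : E3) = σ θ := rfl

theorem rotxS_cont (σ : E3 ≃ₗᵢ[ℝ] E3) : Continuous (rotxS σ) :=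
  Continuous.subtype_mk (f := fun θ : S2 => σ (θ : E3)) (by fun_prop) _

theorem rotxS_symm (σ : E3 ≃ₗᵢ[ℝ] E3) (θ : S2) : rotxS σ (rotxS σ.symm θ) = θ := by
  apply Subtype.ext
  simp

theorem rotxS_symm' (σ : E3 ≃ₗᵢ[ℝ] E3) (θ : S2) : rotxS σ.symm (rotxS σ θ) = θ := by
  apply Subtype.ext
  simp

theorem rotxS_mp (σ : E3 ≃ₗᵢ[ℝ] E3) : MeasurePreserving (rotxS σ) sig sig := by
  refine ⟨(rotxS_cont σ).measurable, ?_⟩
  ext s hs
  rw [Measure.map_apply (rotxS_cont σ).measurable hs]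
  unfold sig
  rw [Measure.toSphere_apply' _ hs, Measure.toSphere_apply' _ ((rotxS_cont σ).measurable hs)]
  congr 1
  have h : Ioo (0 : ℝ) 1 • ((↑) '' (rotxS σ ⁻¹' s) : Set E3) =
      σ ⁻¹' (Ioo (0 : ℝ) 1 • ((↑) '' s : Set E3)) := by
    ext x
    simp only [Set.mem_smul, mem_image, mem_preimage]
    constructor
    · rintro ⟨r, hr, y, ⟨θ, hθ, rfl⟩, rfl⟩
      exact ⟨r, hr, _, ⟨rotxS σ θ, hθ, rfl⟩, by simp⟩
    · rintro ⟨r, hr, y, ⟨θ, hθ, rfl⟩, h⟩
      refine ⟨r, hr, _, ⟨rotxS σ.symm θ, ?_, rfl⟩, ?_⟩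
      · rw [rotxS_symm]; exact hθ
      · apply σ.injective
        rw [← h]
        simp
  rw [h]
  exact σ.measurePreserving.measure_preimage_emb σ.toHomeomorph.measurableEmbedding _

theorem rotxS_integral (σ : E3 ≃ₗᵢ[ℝ] E3) (g : S2 → ℝ) :
    ∫ θ, g (rotxS σ θ) ∂sig = ∫ θ, g θ ∂sig := by
  let e : S2 ≃ₜ S2 := 
    { toFun := rotxS σ
      invFun := rotxS σ.symm
      left_inv := rotxS_symm' σ
      right_inv := rotxS_symm σ
      continuous_toFun := rotxS_cont σ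
      continuous_invFun := rotxS_cont σ.symm }
  exact (rotxS_mp σ).integral_comp e.measurableEmbedding g

/-- the isometry restricted to `Om` -/
def rotxO (σ : E3 ≃ₗᵢ[ℝ] E3) (x : Om) : Om := ⟨σ x, by rw [σ.norm_map]; exact x.2⟩

theorem rotxO_cont (σ : E3 ≃ₗᵢ[ℝ] E3) : Continuous (rotxO σ) :=
  Continuous.subtype_mk (f := fun x : Om => σ (x : E3)) (by fun_prop) _

theorem rotx_dirS (σ : E3 ≃ₗᵢ[ℝ] E3) {x : E3} (hx : x ≠ 0) : dirS (σ x) = rotxS σ (dirS x) := by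
  have h2 : σ x ≠ 0 := fun h => hx (by simpa using h)
  apply Subtype.ext
  rw [rotxS_coe, dirS_coe hx, dirS_coe h2, σ.norm_map, map_smul]

theorem rotx_toOm (σ : E3 ≃ₗᵢ[ℝ] E3) (θ : S2) : rotxO σ (toOm θ) = toOm (rotxS σ θ) := rfl

theorem rotx_adist (σ : E3 ≃ₗᵢ[ℝ] E3) (x y : Om) : adist (rotxO σ x) (rotxO σ y) = adist x y := by
  unfold adist
  show dist (dirS (σ x)) (dirS (σ y)) = _
  rw [rotx_dirS σ (Om_ne_zero x), rotx_dirS σ (Om_ne_zero y)]
  show dist (σ (dirS (x : E3) : E3)) (σ (dirS (y : E3) : E3)) = _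
  rw [σ.dist_map]
  rfl

theorem rotx_hol (σ : E3 ≃ₗᵢ[ℝ] E3) {C : ℝ} {f : Om → ℝ} (h : HolC C f) :
    HolC C (fun x => f (rotxO σ x)) := by
  intro x y hxy
  have := h (rotxO σ x) (rotxO σ y) (by
    show ‖σ x‖ = ‖σ y‖
    rw [σ.norm_map, σ.norm_map, hxy])
  rwa [rotx_adist] at this

/-- composition with an isometry -/
def rotY (σ : E3 ≃ₗᵢ[ℝ] E3) (f : Y) : Y :=
  (⟨f.toB.compContinuous ⟨rotxO σ, rotxO_cont σ⟩, by
    obtain ⟨C, hC, h⟩ := f.2
    exact ⟨C, hC, rotx_hol σ h⟩⟩ : Ysub)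

theorem rotY_apply (σ : E3 ≃ₗᵢ[ℝ] E3) (f : Y) (x : Om) : rotY σ f x = f (rotxO σ x) := rfl

theorem rotY_norm (σ : E3 ≃ₗᵢ[ℝ] E3) (f : Y) : ‖rotY σ f‖ ≤ ‖f‖ := by
  rw [Y.norm_def, Y.norm_def]
  have h1 : ‖(rotY σ f).toB‖ ≤ ‖f.toB‖ := by
    refine (BoundedContinuousFunction.norm_le (norm_nonneg _)).2 (fun x => ?_)
    exact f.toB.norm_coe_le_norm (rotxO σ x)
  have h2 : (rotY σ f).hs ≤ f.hs := Y.hs_le f.hs_nonneg (rotx_hol σ f.holC_hs)
  linarith

theorem rotx_sum (σ : E3 ≃ₗᵢ[ℝ] E3) (v : Fin 3 → ℝ) (k : Fin 3) :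
    (σ (mkE v)) k = ∑ j, v j * (σ (bv j)) k := by
  have h : mkE v = ∑ j, v j • bv j := by
    ext i
    fin_cases i <;> simp [bv, Fin.sum_univ_three]
  rw [h, map_sum]
  simp

theorem rotx_sum' (σ : E3 ≃ₗᵢ[ℝ] E3) (v : E3) (k : Fin 3) :
    (σ v) k = ∑ j, v j * (σ (bv j)) k := by
  have h : v = mkE (fun j => v j) := by
    ext i
    rfl
  conv_lhs => rw [h]
  rw [rotx_sum]

theorem rotx_coef (σ : E3 ≃ₗᵢ[ℝ] E3) (j k : Fin 3) : ‖(σ (bv j)) k‖ ≤ 1 := by
  have h := PiLp.norm_apply_le (σ (bv j)) k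
  rw [σ.norm_map] at h
  simpa [bv] using h

theorem rotx_hom (σ : E3 ≃ₗᵢ[ℝ] E3) {f : Y} (h : Hom0 f) : Hom0 (rotY σ f) := by
  intro x
  rw [rotY_apply, rotY_apply, h (rotxO σ x), rotx_toOm]
  show f (toOm (dirS (σ x))) = _
  rw [rotx_dirS σ (Om_ne_zero x)]

theorem rotx_wnorm (w : Xs) (j : Fin 4) : ‖w.1 j‖ ≤ ‖w‖ := norm_le_pi_norm w.1 j

/-- rotation of an element of `X` -/
theorem rot_X (ρ : E3 ≃ₗᵢ[ℝ] E3) (w : Xs) : ∃ w' : Xs, ‖w'‖ ≤ 4 * ‖w‖ ∧
    ∀ θ θ' : S2, ρ (θ : E3) = θ' → wS w'.1 θ' = wS w.1 θ := by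
  have hw : IsX w.1 := w.2
  obtain ⟨h0, ⟨hc, hd⟩, hi0, hi1⟩ := hw
  set σ := ρ.symm with hσ
  let u : Fin 4 → Y := Fin.cons (rotY σ (w.1 0)) (fun k => ∑ j, (ρ (bv j)) k • rotY σ (w.1 j.succ))
  have hu0 : ∀ x, u 0 x = w.1 0 (rotxO σ x) := fun x => rfl
  have hu1 : ∀ (k : Fin 3) x, u k.succ x = ∑ j, (ρ (bv j)) k * w.1 j.succ (rotxO σ x) := by
    intro k x
    show (∑ j, (ρ (bv j)) k • rotY σ (w.1 j.succ) : Y) x = _
    rw [Y.sum_apply]
    rfl
  have hci : ∀ g : S2 → ℝ, Continuous g → Integrable g sig := fun g hg =>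
    hg.integrable_of_hasCompactSupport (HasCompactSupport.of_compactSpace g)
  have hw0c : Continuous (fun θ : S2 => w.1 0 (toOm θ)) := (w.1 0).continuous.comp continuous_toOm
  beta_reduce at hu0 hu1 hw0c hi0 hi1 hd hc
  have hX : IsX u := by
    refine ⟨?_, ⟨?_, ?_⟩, ?_, ?_⟩
    · intro j
      refine Fin.cases ?_ (fun k => ?_) j
      · exact rotx_hom σ (h0 0)
      · intro x
        beta_reduce
        rw [hu1, hu1]
        refine Finset.sum_congr rfl (fun j _ => ?_)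
        congr 1
        exact rotx_hom σ (h0 j.succ) x
    · intro k
      simp only [hu1, rotx_toOm]
      refine continuous_finsetSum _ (fun j _ => continuous_const.mul ?_)
      exact ((w.1 j.succ).continuous.comp continuous_toOm).comp (rotxS_cont σ)
    · intro x hx
      have hx2 : σ x ≠ 0 := fun h => hx (by simpa using h)
      have h1 := (hd (σ x) hx2).comp x (σ.toContinuousLinearEquiv.hasFDerivAt)
      have he : (fun y => u 0 (toOm (dirS y))) =ᶠ[𝓝 x]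
          ((fun y => w.1 0 (toOm (dirS y))) ∘ σ.toContinuousLinearEquiv) := by
        filter_upwards [isOpen_ne.mem_nhds hx] with y hy
        rw [hu0, rotx_toOm, ← rotx_dirS σ hy]
        rfl
      have h2 := h1.congr_of_eventuallyEq he
      refine h2.congr_fderiv ?_
      ext v
      simp only [hu1, rotx_toOm]
      show inner ℝ (‖σ x‖⁻¹ • mkE (fun k => w.1 k.succ (toOm (dirS (σ x))))) (σ v) = _
      rw [← ρ.inner_map_map]
      have h3 : ρ (σ v) = v := by simp [hσ]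
      rw [h3, ρ.map_smul, σ.norm_map, rotx_dirS σ hx]
      rw [innerSL_apply_apply]
      congr 2
      ext k
      rw [rotx_sum]
      show _ = ∑ j, (ρ (bv j)) k * w.1 j.succ (toOm (rotxS σ (dirS x)))
      refine Finset.sum_congr rfl (fun j _ => ?_)
      ring
    · simp only [hu0, rotx_toOm]
      rw [rotxS_integral σ (fun θ => w.1 0 (toOm θ))]
      exact hi0
    · intro i
      simp only [hu0, rotx_toOm]
      have h4 : ∀ θ : S2, (θ : E3) i * w.1 0 (toOm (rotxS σ θ)) =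
          (fun η : S2 => (ρ (η : E3)) i * w.1 0 (toOm η)) (rotxS σ θ) := by
        intro θ
        simp [hσ]
      simp_rw [h4]
      rw [rotxS_integral σ (fun η : S2 => (ρ (η : E3)) i * w.1 0 (toOm η))]
      have h5 : ∀ η : S2, (ρ (η : E3)) i * w.1 0 (toOm η) =
          ∑ j, (ρ (bv j)) i * ((η : E3) j * w.1 0 (toOm η)) := by
        intro η
        rw [rotx_sum', Finset.sum_mul]
        refine Finset.sum_congr rfl (fun j _ => ?_)
        ring
      simp_rw [h5]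
      rw [integral_finsetSum _ (fun j _ => ?_)]
      · refine Finset.sum_eq_zero (fun j _ => ?_)
        rw [integral_const_mul, hi1 j, mul_zero]
      · refine (hci _ ?_).const_mul _
        exact (by fun_prop : Continuous (fun η : S2 => (η : E3) j)).mul hw0c
  refine ⟨⟨u, hX⟩, ?_, ?_⟩
  · have hn := norm_nonneg w
    show ‖u‖ ≤ 4 * ‖w‖
    rw [pi_norm_le_iff_of_nonneg (by positivity)]
    intro j
    refine Fin.cases ?_ (fun k => ?_) j
    · refine (rotY_norm σ (w.1 0)).trans ((rotx_wnorm w 0).trans ?_)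
      linarith
    · show ‖∑ j, (ρ (bv j)) k • rotY σ (w.1 j.succ)‖ ≤ _
      refine (norm_sum_le _ _).trans ?_
      have h6 : ∀ j ∈ (Finset.univ : Finset (Fin 3)),
          ‖(ρ (bv j)) k • rotY σ (w.1 j.succ)‖ ≤ ‖w‖ := by
        intro j _
        rw [norm_smul]
        have h7 := (rotY_norm σ (w.1 j.succ)).trans (rotx_wnorm w j.succ)
        have h8 := rotx_coef ρ j k
        calc ‖(ρ (bv j)) k‖ * ‖rotY σ (w.1 j.succ)‖ ≤ 1 * ‖w‖ :=
              mul_le_mul h8 h7 (norm_nonneg _) zero_le_one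
          _ = ‖w‖ := one_mul _
      refine (Finset.sum_le_sum h6).trans ?_
      simp only [Finset.sum_const, Finset.card_univ, Fintype.card_fin, nsmul_eq_mul]
      push_cast
      linarith
  · intro θ θ' h
    show u 0 (toOm θ') = w.1 0 (toOm θ)
    beta_reduce
    rw [hu0, rotx_toOm]
    congr 2
    apply Subtype.ext
    rw [rotxS_coe, ← h]
    simp [hσ]

end

end Pool.Agent.BS
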