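import Pool.Agent.BS.AngNat
import Pool.Agent.BS.RotX
import Pool.Agent.BS.LS
import Pool.Agent.BS.Ker1

/-!
# Module ANGMAIN: smooth dependence
-/

namespace Pool.Agent.BS

open MeasureTheory Topology Set Filter
open scoped ContDiff

noncomputable section

theorem angMain_ift {E F G : Type*} [NormedAddCommGroup E] [NormedSpace ℝ E] [CompleteSpace E]
    [NormedAddCommGroup F] [NormedSpace ℝ F]
    [NormedAddCommGroup G] [NormedSpace ℝ G] [CompleteSpace G]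
    (f : E × G → F) (a : E) (g : G) (hf : ContDiffAt ℝ ∞ f (a, g)) (L : E ≃L[ℝ] F)
    (hL : ∀ v, fderiv ℝ f (a, g) (v, 0) = L v) :
    ∃ φ : G → E, ContDiffAt ℝ ∞ φ g ∧ φ g = a ∧ ∀ᶠ x in 𝓝 g, f (φ x, x) = f (a, g) := by
  set f' := fderiv ℝ f (a, g) with hf'
  have hd : HasFDerivAt f f' (a, g) :=
    (hf.differentiableAt (by simp)).hasFDerivAt
  set M : G →L[ℝ] F := f'.comp (ContinuousLinearMap.inr ℝ E G) with hM
  have hdec : ∀ v u, f' (v, u) = L v + M u := fun v u => by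
    rw [← hL v]
    have : ((v, u) : E × G) = (v, 0) + (0, u) := by simp
    rw [this, map_add]
    rfl
  let e1 : (E × G) →L[ℝ] (F × G) := f'.prod (ContinuousLinearMap.snd ℝ E G)
  let e2 : (F × G) →L[ℝ] (E × G) :=
    ((L.symm : F →L[ℝ] E).comp (ContinuousLinearMap.fst ℝ F G -
      M.comp (ContinuousLinearMap.snd ℝ F G))).prod (ContinuousLinearMap.snd ℝ F G)
  have h12 : Function.LeftInverse e2 e1 := by
    rintro ⟨v, u⟩
    show (L.symm (f' (v, u) - M u), u) = (v, u)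
    rw [hdec]
    simp
  have h21 : Function.RightInverse e2 e1 := by
    rintro ⟨y, u⟩
    show (f' (L.symm (y - M u), u), u) = (y, u)
    rw [hdec]
    simp
  let e : (E × G) ≃L[ℝ] (F × G) := ContinuousLinearEquiv.equivOfInverse e1 e2 h12 h21
  let Φ : E × G → F × G := fun p => (f p, p.2)
  have hΦ : ContDiffAt ℝ ∞ Φ (a, g) := hf.prodMk contDiffAt_snd
  have hΦ' : HasFDerivAt Φ (e : (E × G) →L[ℝ] (F × G)) (a, g) := by
    have : (e : (E × G) →L[ℝ] (F × G)) = f'.prod (ContinuousLinearMap.snd ℝ E G) := rfl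
    rw [this]
    exact hd.prodMk hasFDerivAt_snd
  have hs := hΦ.hasStrictFDerivAt' hΦ' (by simp)
  let ψ := hΦ.localInverse hΦ' (by simp)
  have hψ : ContDiffAt ℝ ∞ ψ (Φ (a, g)) := hΦ.to_localInverse hΦ' (by simp)
  have hψ0 : ψ (Φ (a, g)) = (a, g) := hΦ.localInverse_apply_image hΦ' (by simp)
  have hev : ∀ᶠ y in 𝓝 (Φ (a, g)), Φ (ψ y) = y := hs.eventually_right_inverse
  have hc : ContDiffAt ℝ ∞ (fun x : G => (f (a, g), x)) g := contDiffAt_const.prodMk contDiffAt_id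
  refine ⟨fun x => (ψ (f (a, g), x)).1, ?_, ?_, ?_⟩
  · have h1 : ContDiffAt ℝ ∞ (fun x : G => ψ (f (a, g), x)) g := by
      refine ContDiffAt.comp (g := ψ) g ?_ hc
      exact hψ
    exact h1.fst
  · show (ψ (Φ (a, g))).1 = a
    rw [hψ0]
  · have hcc : Tendsto (fun x : G => (f (a, g), x)) (𝓝 g) (𝓝 (Φ (a, g))) := hc.continuousAt
    filter_upwards [hcc.eventually hev] with x hx
    have h1 : (ψ (f (a, g), x)).2 = x := congrArg Prod.snd hx
    have h2 : f (ψ (f (a, g), x)) = f (a, g) := congrArg Prod.fst hx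
    have h3 : ((ψ (f (a, g), x)).1, x) = ψ (f (a, g), x) := Prod.ext rfl h1.symm
    rw [h3]
    exact h2

/-- an operator close to an invertible operator is invertible -/
theorem angMain_inv {E F : Type*} [NormedAddCommGroup E] [NormedSpace ℝ E] [CompleteSpace E]
    [NormedAddCommGroup F] [NormedSpace ℝ F] (T : E ≃L[ℝ] F) (L : E →L[ℝ] F) (c : ℝ) (hc : 0 ≤ c)
    (h1 : ∀ v, 2 * c * ‖v‖ ≤ ‖T v‖) (h2 : ∀ v, ‖L v - T v‖ ≤ c * ‖v‖) :
    ∃ L' : E ≃L[ℝ] F, ∀ v, L v = L' v := by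
  let S : E →L[ℝ] E := (T.symm : F →L[ℝ] E).comp (L - (T : E →L[ℝ] F))
  have hS : ∀ v, ‖S v‖ ≤ (1 / 2) * ‖v‖ := fun v => by
    have ha := h1 (S v)
    have hb : T (S v) = L v - T v := by
      show T (T.symm (L v - T v)) = _
      simp
    rw [hb] at ha
    have hd := h2 v
    rcases hc.eq_or_lt with h | h
    · have h0 : L v - T v = 0 := by
        rw [← norm_le_zero_iff]
        rw [← h] at hd
        simpa using hd
      have : S v = 0 := by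
        show T.symm (L v - T v) = 0
        rw [h0, map_zero]
      rw [this, norm_zero]
      positivity
    · have : 2 * c * ‖S v‖ ≤ 2 * c * ((1 / 2) * ‖v‖) := by linarith
      exact le_of_mul_le_mul_left this (by positivity)
  have hS' : ‖-S‖ < 1 := by
    rw [norm_neg]
    refine lt_of_le_of_lt (ContinuousLinearMap.opNorm_le_bound S (by norm_num) hS) (by norm_num)
  let u : (E →L[ℝ] E)ˣ := Units.oneSub (-S) hS'
  refine ⟨(ContinuousLinearEquiv.ofUnit u).trans T, fun v => ?_⟩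
  have hu : (ContinuousLinearEquiv.ofUnit u) v = v + S v := by
    show (u : E →L[ℝ] E) v = _
    simp [u]
  rw [ContinuousLinearEquiv.trans_apply, hu, map_add]
  have hb : T (S v) = L v - T v := by
    show T (T.symm (L v - T v)) = _
    simp
  rw [hb]
  abel

/-- lower bound of the derivative from a lower bound of the function -/
theorem angMain_lower {E F : Type*} [NormedAddCommGroup E] [NormedSpace ℝ E]
    [NormedAddCommGroup F] [NormedSpace ℝ F] (f : E → F) (f' : E →L[ℝ] F) (k : ℝ)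
    (hf : HasFDerivAt f f' 0) (h0 : f 0 = 0) (h : ∀ᶠ x in 𝓝 (0 : E), k * ‖x‖ ≤ ‖f x‖) (v : E) :
    k * ‖v‖ ≤ ‖f' v‖ := by
  have h1 : HasDerivAt (fun t : ℝ => f (t • v)) (f' v) 0 := by
    have h2 : HasDerivAt (fun t : ℝ => t • v) v 0 := by
      simpa using (hasDerivAt_id (0 : ℝ)).smul_const v
    have h3 : HasFDerivAt f f' ((0 : ℝ) • v) := by rwa [zero_smul]
    exact h3.comp_hasDerivAt (0 : ℝ) h2
  have h2 := h1.tendsto_slope_zero_right
  have h3 : Tendsto (fun t : ℝ => ‖t⁻¹ • (f ((0 + t) • v) - f ((0 : ℝ) • v))‖) (𝓝[>] 0)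
      (𝓝 ‖f' v‖) := h2.norm
  refine ge_of_tendsto h3 ?_
  have h4 : Tendsto (fun t : ℝ => t • v) (𝓝[>] 0) (𝓝 (0 : E)) := by
    have : Tendsto (fun t : ℝ => t • v) (𝓝 0) (𝓝 ((0 : ℝ) • v)) := by
      exact (continuous_id.smul continuous_const).tendsto 0
    rw [zero_smul] at this
    exact this.mono_left nhdsWithin_le_nhds
  filter_upwards [h4.eventually h, self_mem_nhdsWithin] with t ht ht0
  have ht0' : (0 : ℝ) < t := ht0
  rw [zero_add, zero_smul, h0, sub_zero, norm_smul, norm_inv, Real.norm_of_nonneg ht0'.le]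
  rw [norm_smul, Real.norm_of_nonneg ht0'.le] at ht
  rw [le_inv_mul_iff₀ ht0']
  linarith


theorem angMain_SB2_mono {ε ε' : ℝ} {f : E3 → ℝ} (h : SB2 ε f) (he : ε ≤ ε') : SB2 ε' f :=
  ⟨h.c2, fun x hx => (h.b0 x hx).trans he, fun x hx => (h.b1 x hx).trans he,
    fun x hx => (h.b2 x hx).trans he⟩

theorem angMain_integrable {g : S2 → ℝ} (hg : Continuous g) : Integrable g sig :=
  hg.integrable_of_hasCompactSupport (HasCompactSupport.of_compactSpace g)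

theorem angMain_cont_toOm (f : Y) : Continuous (fun θ : S2 => f (toOm θ)) :=
  f.continuous.comp continuous_toOm

theorem angMain_cont_coord (i : Fin 3) : Continuous (fun θ : S2 => (θ : E3) i) := (xi i).continuous

theorem angMain_coord_le (θ : S2) (i : Fin 3) : |(θ : E3) i| ≤ 1 := by
  have h := norm_S2 θ
  rw [EuclideanSpace.norm_eq, Real.sqrt_eq_one] at h
  have h2 : ‖(θ : E3) i‖ ^ 2 ≤ ∑ j, ‖(θ : E3) j‖ ^ 2 :=
    Finset.single_le_sum (f := fun j => ‖(θ : E3) j‖ ^ 2) (fun _ _ => sq_nonneg _)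
      (Finset.mem_univ i)
  rw [h] at h2
  rw [← Real.norm_eq_abs]
  nlinarith [norm_nonneg ((θ : E3) i)]

theorem angMain_int_exists (i : Fin 3) : ∃ K : Y →L[ℝ] ℝ, ∀ f : Y,
    K f = ∫ θ : S2, (θ : E3) i * f (toOm θ) ∂sig := by
  have hi : ∀ f : Y, Integrable (fun θ : S2 => (θ : E3) i * f (toOm θ)) sig := fun f =>
    angMain_integrable ((angMain_cont_coord i).mul (angMain_cont_toOm f))
  let K0 : Y →ₗ[ℝ] ℝ :=
    { toFun := fun f => ∫ θ : S2, (θ : E3) i * f (toOm θ) ∂sig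
      map_add' := fun f g => by
        rw [← integral_add (hi f) (hi g)]
        refine integral_congr_ae (ae_of_all _ fun θ => ?_)
        simp only [Y.add_apply]
        ring
      map_smul' := fun c f => by
        rw [RingHom.id_apply, smul_eq_mul, ← integral_const_mul]
        refine integral_congr_ae (ae_of_all _ fun θ => ?_)
        simp only [Y.smul_apply]
        ring }
  refine ⟨K0.mkContinuous (sig.real univ) (fun f => ?_), fun f => rfl⟩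
  show ‖∫ θ : S2, (θ : E3) i * f (toOm θ) ∂sig‖ ≤ _
  have := norm_integral_le_of_norm_le_const (μ := sig)
    (f := fun θ : S2 => (θ : E3) i * f (toOm θ)) (C := ‖f‖) (ae_of_all _ fun θ => by
      rw [norm_mul, Real.norm_eq_abs, Real.norm_eq_abs]
      have h1 := angMain_coord_le θ i
      have h2 := f.abs_apply_le (toOm θ)
      calc |(θ : E3) i| * |f (toOm θ)| ≤ 1 * ‖f‖ :=
            mul_le_mul h1 h2 (abs_nonneg _) zero_le_one
        _ = ‖f‖ := one_mul _)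
  rw [mul_comm]
  exact this

theorem angMain_KK_exists : ∃ K : Y →L[ℝ] E3, ∀ f : Y,
    K f = mkE (fun i => ∫ θ : S2, (θ : E3) i * f (toOm θ) ∂sig) := by
  choose K hK using angMain_int_exists
  refine ⟨((PiLp.continuousLinearEquiv 2 ℝ (fun _ : Fin 3 => ℝ)).symm :
    (Fin 3 → ℝ) →L[ℝ] E3).comp (ContinuousLinearMap.pi K), fun f => ?_⟩
  ext i
  show K i f = _
  rw [hK, mkE_apply]

theorem angMain_real_univ : sig.real univ = 4 * Real.pi := by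
  rw [measureReal_def, sig_univ, ENNReal.toReal_ofReal (by positivity)]

theorem angMain_int_one (c : ℝ) : ∫ _θ : S2, c ∂sig = 4 * Real.pi * c := by
  rw [integral_const, angMain_real_univ, smul_eq_mul]

theorem angMain_mean (i : Fin 3) : ∫ θ : S2, (θ : E3) i ∂sig = 0 := by
  set m : Fin 3 → ℝ := fun i => ∫ θ : S2, (θ : E3) i ∂sig with hm
  have hp : ∀ θ : S2, (PiP 1 : Y) (toOm θ) = - (3 * (4 * Real.pi)⁻¹ * ∑ i, (θ : E3) i * m i) := by
    intro θ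
    rw [PiP_apply]
    have h1 : ∫ η : S2, (1 : Y) (toOm η) ∂sig = 4 * Real.pi := by
      have := angMain_int_one 1
      rw [mul_one] at this
      exact this
    have h2 : ∀ i : Fin 3, ∫ η : S2, (η : E3) i * (1 : Y) (toOm η) ∂sig = m i := fun i => by
      simp [hm]
    rw [h1]
    simp only [Y.one_apply, mul_one]
    have hpi := Real.pi_pos
    field_simp
    ring
  have hy : IsYP (PiP 1 : Y) := (PiP 1).2
  have h0 := hy.2.1
  simp only [hp] at h0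
  rw [integral_neg, neg_eq_zero, integral_const_mul] at h0
  have hpi := Real.pi_pos
  have h1 : ∫ θ : S2, ∑ i, (θ : E3) i * m i ∂sig = 0 := by
    rcases mul_eq_zero.1 h0 with h | h
    · exfalso
      have : 0 < 3 * (4 * Real.pi)⁻¹ := by positivity
      exact this.ne' h
    · exact h
  have hI : ∀ i ∈ (Finset.univ : Finset (Fin 3)),
      Integrable (fun θ : S2 => (θ : E3) i * m i) sig := fun i _ =>
    angMain_integrable ((angMain_cont_coord i).mul continuous_const)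
  rw [integral_finsetSum _ hI] at h1
  have h2 : ∑ i, m i * m i = 0 := by
    rw [← h1]
    refine Finset.sum_congr rfl fun i _ => ?_
    rw [integral_mul_const]
  have h3 := (Finset.sum_eq_zero_iff_of_nonneg (fun i _ => mul_self_nonneg (m i))).1 h2 i
    (Finset.mem_univ i)
  exact mul_self_eq_zero.1 h3

theorem angMain_pip_congr {f g : Y} (h : ∀ θ : S2, f (toOm θ) = g (toOm θ)) : PiP f = PiP g := by
  apply Subtype.ext
  apply Y.ext
  intro x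
  rw [(PiP f).2.1 x, (PiP g).2.1 x, PiP_apply, PiP_apply]
  simp only [h]

theorem angMain_const {f : Y} (h : PiP f = 0) (h' : ∀ i, ∫ θ : S2, (θ : E3) i * f (toOm θ) ∂sig = 0)
    (θ : S2) : f (toOm θ) = (4 * Real.pi)⁻¹ * (∫ η : S2, f (toOm η) ∂sig) := by
  have h1 := PiP_apply f θ
  rw [h] at h1
  simp only [h', mul_zero, Finset.sum_const_zero] at h1
  have h2 : ((0 : YPs) : Y).toB (toOm θ) = 0 := rfl
  rw [h2] at h1
  show f.toB (toOm θ) = (4 * Real.pi)⁻¹ * (∫ η : S2, f.toB (toOm η) ∂sig)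
  linarith

theorem angMain_of_const {f : Y} {c : ℝ} (h : ∀ θ : S2, f (toOm θ) = c) :
    PiP f = 0 ∧ ∀ i, ∫ θ : S2, (θ : E3) i * f (toOm θ) ∂sig = 0 := by
  have h2 : ∀ i : Fin 3, ∫ θ : S2, (θ : E3) i * f (toOm θ) ∂sig = 0 := fun i => by
    simp only [h]
    rw [integral_mul_const, angMain_mean, zero_mul]
  refine ⟨?_, h2⟩
  apply Subtype.ext
  apply Y.ext
  intro x
  rw [(PiP f).2.1 x, PiP_apply]
  simp only [h2, mul_zero, Finset.sum_const_zero]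
  simp only [h]
  rw [angMain_int_one]
  have hpi := Real.pi_pos
  have : ((0 : YPs) : Y).toB x = 0 := rfl
  rw [this]
  field_simp
  ring

theorem angMain_eval_exists (θ : S2) : ∃ K : Xs →L[ℝ] ℝ, ∀ w : Xs, K w = wS w.1 θ := by
  let K0 : Y →ₗ[ℝ] ℝ :=
    { toFun := fun f => f (toOm θ)
      map_add' := fun f g => rfl
      map_smul' := fun c f => rfl }
  let K1 : Y →L[ℝ] ℝ := K0.mkContinuous 1 (fun f => by
    rw [one_mul]
    exact f.abs_apply_le (toOm θ))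
  exact ⟨(K1.comp (ContinuousLinearMap.proj (R := ℝ) (φ := fun _ : Fin 4 => Y) 0)).comp
    Xs.subtypeL, fun w => rfl⟩

theorem angMain_psiL_zero (θ₀ : S2) : psiL θ₀ 0 = fun y => y := by
  funext y
  unfold psiL
  simp [Rot_zero]

theorem angMain_HL_zero (H : E3 → M3) (θ₀ : S2) :
    HL (fun x i j => dl i j + H x i j) θ₀ 0 = H := by
  funext y i j
  have h1 : Matrix.of (DM (fun y : E3 => y) y) = (1 : Matrix (Fin 3) (Fin 3) ℝ) := by
    ext i j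
    show (fderiv ℝ (fun y : E3 => y) y (bv j)) i = _
    rw [fderiv_fun_id]
    simp [bv, Matrix.one_apply]
  unfold HL pbM det3
  rw [angMain_psiL_zero, h1]
  simp


/-- local version of the main statement -/
theorem angMain_local {δ ε₀ C c : ℝ} (hc : LSConst δ ε₀ C c) {ε₁ δa δn : ℝ} (hε : 0 < ε₁)
    (hεε : ε₁ ≤ ε₀) (hεn : ε₁ ≤ δn) (hCδ : 8 * (C * ε₁) ≤ δ) (hCa : C * ε₁ < δa)
    (hCn : C * ε₁ < δn)
    (hcmp : ∀ (A : E3 → M3) (ε : ℝ) (θ₀ : S2),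
      (∀ i j, ContDiffOn ℝ ∞ (fun x => A x i j) {x | 1 / 4 < ‖x‖}) →
      (∀ i j, SB2 ε (fun x => A x i j - dl i j)) → ∀ w : Xs, ‖w‖ < δa →
      ContDiffAt ℝ ∞ (fun q : Xs × (E3 × ℝ × E3) => cmp (HL A θ₀ q.2) q.1.1) (w, 0) ∧
      ∀ᶠ q : Xs × (E3 × ℝ × E3) in 𝓝 (w, 0), ∀ i j (x : Om),
        cmp (HL A θ₀ q.2) q.1.1 i j x = HL A θ₀ q.2 (Psi (wS q.1.1) (x : E3)) i j)
    (hnat : ∀ (H : E3 → M3) (b₁ : E3) (R₁ : ℝ) (θ₀ : S2), 0 < R₁ →
      (∀ i j, ContDiff ℝ ∞ (fun x => H x i j)) →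
      (∀ i j, SB2 δn (fun x => HbR H b₁ R₁ x i j)) →
      ∀ w : Xs, ‖w‖ < δn → ∀ᶠ q : Xs × (E3 × ℝ × E3) in 𝓝 (w, 0),
        ∀ (b : E3) (R : ℝ) (w' : Xs),
        b = b₁ + R₁ • q.2.1 → R = R₁ * (1 + q.2.2.1) →
        (∀ θ θ' : S2, Rot θ₀ q.2.2.2 (θ : E3) = θ' → wS w'.1 θ' = wS q.1.1 θ) →
        ‖w'‖ ≤ 4 * ‖q.1‖ →
        (∀ i j, SB2 δn (fun x => HbR H b R x i j)) →
        ∀ θ θ' : S2, Rot θ₀ q.2.2.2 (θ : E3) = θ' →
          Gam (w'.1, cmp (HbR H b R) w'.1) (toOm θ') = (1 + q.2.2.1) ^ 2 *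
            Gam (q.1.1, cmp (HL (fun x i j => dl i j + HbR H b₁ R₁ x i j) θ₀ q.2) q.1.1)
              (toOm θ))
    (H : E3 → M3) (R₀ : ℝ) (bb : ℝ → E3) (ww : ℝ → Xs) (hR₀ : 0 < R₀)
    (hH : ∀ i j, ContDiff ℝ ∞ (fun x => H x i j))
    (hSB : ∀ (b : E3) (R : ℝ), R₀ < R → ‖b‖ < R / 8 → ∀ i j, SB2 ε₁ (fun x => HbR H b R x i j))
    (hsol : ∀ R, R₀ < R → ‖bb R‖ < R / 8 ∧ ‖ww R‖ ≤ C * ε₁ ∧ SolLS (HbR H (bb R) R) (ww R) ∧
      ∀ i, kap (HbR H (bb R) R) (ww R) i = 0)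
    (huniq : ∀ R, R₀ < R → ∀ (b : E3) (w : Xs), ‖b‖ < R / 8 → ‖w‖ ≤ δ →
      SolLS (HbR H b R) w → (∀ i, kap (HbR H b R) w i = 0) → b = bb R)
    (hlow : ∀ R, R₀ < R → ∃ κ₀ > 0, ∀ (b : E3) (w : Xs), ‖b‖ < R / 8 → ‖w‖ ≤ δ →
      SolLS (HbR H b R) w → κ₀ * ‖b - bb R‖ ≤ ‖mkE (kap (HbR H b R) w)‖)
    (R₁ : ℝ) (hR₁ : R₀ < R₁) (θ₀ : S2) :
    ∃ (W : ℝ × E3 → Xs) (τ : ℝ × E3 → E3), ContDiffAt ℝ ∞ W 0 ∧ ContDiffAt ℝ ∞ τ 0 ∧
      ∀ᶠ x : ℝ × E3 in 𝓝 0, bb (R₁ * (1 + x.1)) = bb R₁ + R₁ • τ x ∧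
        wS (ww (R₁ * (1 + x.1))).1 (dirS ((θ₀ : E3) + x.2)) = wS (W x).1 θ₀ := by
  have hR₁0 : 0 < R₁ := hR₀.trans hR₁
  obtain ⟨hb₁, hw₁, hs₁, hk₁⟩ := hsol R₁ hR₁
  set b₁ := bb R₁ with hb₁def
  set w₁ := ww R₁ with hw₁def
  set H₁ := HbR H b₁ R₁ with hH₁def
  set A : E3 → M3 := fun x i j => dl i j + H₁ x i j with hAdef
  have hA0 : HL A θ₀ 0 = H₁ := angMain_HL_zero H₁ θ₀
  have hSB₁ : ∀ i j, SB2 ε₁ (fun x => H₁ x i j) := hSB b₁ R₁ hR₁ hb₁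
  have hCε : 0 ≤ C * ε₁ := mul_nonneg hc.C_pos.le hε.le
  have hδpos := hc.δ_pos
  have hw₁δ : ‖w₁‖ < δ := by linarith
  -- the map 𝓖
  let GG : Xs × (E3 × ℝ × E3) → Y := fun q => Gam (q.1.1, cmp (HL A θ₀ q.2) q.1.1)
  have hGG : ContDiffAt ℝ ∞ GG (w₁, 0) := by
    have h1 : ContDiffAt ℝ ∞ (fun q : Xs × (E3 × ℝ × E3) => cmp (HL A θ₀ q.2) q.1.1) (w₁, 0) := by
      refine (hcmp A ε₁ θ₀ ?_ ?_ w₁ (lt_of_le_of_lt hw₁ hCa)).1
      · intro i j
        have : ContDiff ℝ ∞ (fun x => A x i j) := by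
          show ContDiff ℝ ∞ (fun x => dl i j + H (b₁ + R₁ • x) i j)
          have h0 : ContDiff ℝ ∞ (fun x : E3 => b₁ + R₁ • x) := by fun_prop
          exact contDiff_const.add ((hH i j).comp h0)
        exact this.contDiffOn
      · intro i j
        have : (fun x => A x i j - dl i j) = fun x => H₁ x i j := by
          funext x
          show dl i j + H₁ x i j - dl i j = _
          ring
        rw [this]
        exact hSB₁ i j
    have h2 : ContDiffAt ℝ ∞ (fun q : Xs × (E3 × ℝ × E3) => (q.1.1 : Fin 4 → Y)) (w₁, 0) :=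
      (Xs.subtypeL.contDiff.comp contDiff_fst).contDiffAt
    have h3 : ContDiffAt ℝ ∞ Gam ((fun q : Xs × (E3 × ℝ × E3) =>
        ((q.1.1 : Fin 4 → Y), cmp (HL A θ₀ q.2) q.1.1)) (w₁, 0)) := by
      show ContDiffAt ℝ ∞ Gam (w₁.1, cmp (HL A θ₀ 0) w₁.1)
      rw [hA0]
      refine (hc.small _ _ ?_ ?_).2.2.2.2.2.2
      · exact hw₁δ.le
      · refine ((hc.cmpH H₁ ε₁ hε.le hSB₁ w₁ hw₁δ.le).1).trans ?_
        exact mul_le_mul_of_nonneg_left hεε hc.C_pos.le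
    exact ContDiffAt.comp (g := Gam) (f := fun q : Xs × (E3 × ℝ × E3) =>
      ((q.1.1 : Fin 4 → Y), cmp (HL A θ₀ q.2) q.1.1)) (w₁, (0 : E3 × ℝ × E3)) h3 (h2.prodMk h1)
  let PP : Xs × (E3 × ℝ × E3) → YPs := fun q => PiP (GG q)
  have hPP : ContDiffAt ℝ ∞ PP (w₁, 0) := PiP.contDiff.contDiffAt.comp _ hGG
  have hPP0 : PP (w₁, 0) = 0 := by
    show PiP (Gam (w₁.1, cmp (HL A θ₀ 0) w₁.1)) = 0
    rw [hA0]
    exact hs₁
  -- invertibility of the derivative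
  have hPPd : HasFDerivAt PP (fderiv ℝ PP (w₁, 0)) (w₁, 0) :=
    (hPP.differentiableAt (by simp)).hasFDerivAt
  let T : Xs ≃L[ℝ] YPs := LinE.trans (ContinuousLinearEquiv.smulLeft (Units.mk0 (2 : ℝ) two_ne_zero))
  have hT : ∀ v, T v = (2 : ℝ) • LinE v := fun v => rfl
  let Lw : Xs →L[ℝ] YPs := (fderiv ℝ PP (w₁, 0)).comp (ContinuousLinearMap.inl ℝ Xs (E3 × ℝ × E3))
  have hLw : HasFDerivAt (fun w : Xs => PP (w, 0)) Lw w₁ := by
    have h1 : HasFDerivAt (fun w : Xs => (w, (0 : E3 × ℝ × E3)))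
        (ContinuousLinearMap.inl ℝ Xs (E3 × ℝ × E3)) w₁ := hasFDerivAt_prodMk_left w₁ 0
    exact HasFDerivAt.comp w₁ (g := PP) hPPd h1
  have hcnn : (0 : ℝ) ≤ c := hc.c_nonneg
  have hLw2 : ‖Lw - (T : Xs →L[ℝ] YPs)‖ ≤ c := by
    have h1 : HasFDerivAt (fun w : Xs => PP (w, 0) - T w) (Lw - (T : Xs →L[ℝ] YPs)) w₁ :=
      hLw.sub (T : Xs →L[ℝ] YPs).hasFDerivAt
    have h2 : LipschitzOnWith ⟨c, hcnn⟩ (fun w : Xs => PP (w, 0) - T w)
        (Metric.closedBall 0 δ) := by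
      refine LipschitzOnWith.of_dist_le_mul (fun w hw w' hw' => ?_)
      rw [mem_closedBall_zero_iff] at hw hw'
      have h3 := hc.approx H₁ ε₁ hε.le hεε hSB₁ w w' hw hw'
      rw [dist_eq_norm, dist_eq_norm]
      have h4 : PP (w, 0) - T w - (PP (w', 0) - T w') =
          PiP (Gam (w.1, cmp H₁ w.1)) - PiP (Gam (w'.1, cmp H₁ w'.1)) -
          (2 : ℝ) • LinE (w - w') := by
        show PiP (Gam (w.1, cmp (HL A θ₀ 0) w.1)) - T w -
          (PiP (Gam (w'.1, cmp (HL A θ₀ 0) w'.1)) - T w') = _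
        rw [hA0, hT, hT, map_sub, smul_sub]
        abel
      rw [h4]
      exact h3
    have h5 : Metric.closedBall (0 : Xs) δ ∈ 𝓝 w₁ := by
      refine Filter.mem_of_superset (Metric.isOpen_ball.mem_nhds ?_) Metric.ball_subset_closedBall
      rwa [mem_ball_zero_iff]
    exact h1.le_of_lipschitzOn h5 h2
  obtain ⟨L', hL'⟩ := angMain_inv T Lw c hcnn (fun v => hc.lower v) (fun v => by
    have := (Lw - (T : Xs →L[ℝ] YPs)).le_opNorm v
    refine this.trans (mul_le_mul_of_nonneg_right hLw2 (norm_nonneg v)))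
  obtain ⟨W0, hW0, hW00, hW0e⟩ := angMain_ift PP w₁ (0 : E3 × ℝ × E3) hPP L' (fun v => by
    rw [← hL']
    rfl)
  rw [hPP0] at hW0e
  -- the reduced map
  obtain ⟨KK, hKK⟩ := angMain_KK_exists
  have hWtend : Tendsto (fun l : E3 × ℝ × E3 => (W0 l, l)) (𝓝 0) (𝓝 (w₁, 0)) := by
    have h1 : ContinuousAt (fun l : E3 × ℝ × E3 => (W0 l, l)) 0 :=
      hW0.continuousAt.prodMk continuousAt_id
    have h2 := h1.tendsto
    rwa [hW00] at h2
  let kk : E3 × (ℝ × E3) → E3 := fun l => KK (GG (W0 l, l))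
  have hkk : ContDiffAt ℝ ∞ kk (0, 0) := by
    have h1 : ContDiffAt ℝ ∞ (fun l : E3 × (ℝ × E3) => (W0 l, l)) (0, 0) :=
      hW0.prodMk contDiffAt_id
    have h2 : ContDiffAt ℝ ∞ GG ((fun l : E3 × (ℝ × E3) => (W0 l, l)) (0, 0)) := by
      show ContDiffAt ℝ ∞ GG (W0 0, 0)
      rw [hW00]
      exact hGG
    exact KK.contDiff.contDiffAt.comp _ (ContDiffAt.comp (g := GG)
      (f := fun l : E3 × (ℝ × E3) => (W0 l, l)) ((0 : E3), (0 : ℝ × E3)) h2 h1)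
  have hkk0 : kk (0, 0) = 0 := by
    show KK (GG (W0 0, 0)) = 0
    rw [hW00, hKK]
    have : (fun i => ∫ θ : S2, (θ : E3) i * GG (w₁, 0) (toOm θ) ∂sig) = fun _ => 0 := by
      funext i
      show ∫ θ : S2, (θ : E3) i * Gam (w₁.1, cmp (HL A θ₀ 0) w₁.1) (toOm θ) ∂sig = 0
      rw [hA0]
      exact hk₁ i
    rw [this]
    rfl
  have hnat1 := hnat H b₁ R₁ θ₀ hR₁0 hH (fun i j => angMain_SB2_mono (hSB₁ i j) hεn) w₁
    (lt_of_le_of_lt hw₁ hCn)
  obtain ⟨κ₀, hκ₀, hκ⟩ := hlow R₁ hR₁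
  -- norms near the point
  have hWsmall : ∀ᶠ l : E3 × ℝ × E3 in 𝓝 0, 4 * ‖W0 l‖ ≤ δ := by
    have h1 : Tendsto (fun l : E3 × ℝ × E3 => 4 * ‖W0 l‖) (𝓝 0) (𝓝 (4 * ‖w₁‖)) := by
      have := hW0.continuousAt.tendsto
      rw [hW00] at this
      exact this.norm.const_mul 4
    have h2 : 4 * ‖w₁‖ < δ := by linarith
    exact (h1.eventually_lt_const h2).mono (fun _ h => h.le)
  -- lower bound of kk
  have hlowkk : ∀ᶠ t : E3 in 𝓝 0, κ₀ * R₁ * ‖t‖ ≤ ‖kk (t, 0)‖ := by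
    have hin : Tendsto (fun t : E3 => ((t, 0) : E3 × ℝ × E3)) (𝓝 0) (𝓝 0) := by
      have : Continuous (fun t : E3 => ((t, 0) : E3 × ℝ × E3)) := by fun_prop
      exact this.tendsto 0
    have hb : ∀ᶠ t : E3 in 𝓝 0, ‖b₁ + R₁ • t‖ < R₁ / 8 := by
      have h1 : Tendsto (fun t : E3 => ‖b₁ + R₁ • t‖) (𝓝 0) (𝓝 ‖b₁ + R₁ • (0 : E3)‖) := by
        have : Continuous (fun t : E3 => ‖b₁ + R₁ • t‖) := by fun_prop
        exact this.tendsto 0
      rw [smul_zero, add_zero] at h1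
      exact h1.eventually_lt_const hb₁
    filter_upwards [(hWtend.comp hin).eventually hnat1, hin.eventually hW0e,
      hin.eventually hWsmall, hb] with t ht1 ht2 ht3 ht4
    have hSBt : ∀ i j, SB2 δn (fun x => HbR H (b₁ + R₁ • t) R₁ x i j) := fun i j =>
      angMain_SB2_mono (hSB _ _ hR₁ ht4 i j) hεn
    have h1 := ht1 (b₁ + R₁ • t) R₁ (W0 (t, 0)) rfl (by
      show R₁ = R₁ * (1 + 0)
      ring) (fun θ θ' h => by
      have h' : Rot θ₀ 0 (θ : E3) = θ' := h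
      rw [Rot_zero] at h'
      have : θ = θ' := Subtype.ext h'
      rw [this]
      rfl) (by
      show ‖W0 (t, 0)‖ ≤ 4 * ‖W0 (t, 0)‖
      linarith [norm_nonneg (W0 (t, 0))]) hSBt
    have h2 : ∀ θ : S2, Gam ((W0 (t, 0)).1, cmp (HbR H (b₁ + R₁ • t) R₁) (W0 (t, 0)).1) (toOm θ) =
        GG (W0 (t, 0), (t, 0)) (toOm θ) := fun θ => by
      refine (h1 θ θ (by
        show Rot θ₀ 0 (θ : E3) = θ
        exact Rot_zero θ₀ _)).trans ?_
      show (1 + 0) ^ 2 * _ = _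
      rw [add_zero, one_pow, one_mul]
      rfl
    have h4 : SolLS (HbR H (b₁ + R₁ • t) R₁) (W0 (t, 0)) := by
      unfold SolLS
      rw [angMain_pip_congr h2]
      exact ht2
    have h5 := hκ (b₁ + R₁ • t) (W0 (t, 0)) ht4 (by linarith [norm_nonneg (W0 (t, 0))]) h4
    have h6 : mkE (kap (HbR H (b₁ + R₁ • t) R₁) (W0 (t, 0))) = kk (t, 0) := by
      show _ = KK (GG (W0 (t, 0), (t, 0)))
      rw [hKK]
      congr 1
      funext i
      unfold kap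
      refine integral_congr_ae (ae_of_all _ fun θ => ?_)
      show (θ : E3) i * _ = _
      rw [h2]
    rw [h6] at h5
    have h7 : b₁ + R₁ • t - b₁ = R₁ • t := by abel
    rw [h7, norm_smul, Real.norm_of_nonneg hR₁0.le] at h5
    linarith
  -- second application of the implicit function theorem
  have hkkd : HasFDerivAt kk (fderiv ℝ kk (0, 0)) (0, 0) :=
    (hkk.differentiableAt (by simp)).hasFDerivAt
  let Lt : E3 →L[ℝ] E3 := (fderiv ℝ kk (0, 0)).comp (ContinuousLinearMap.inl ℝ E3 (ℝ × E3))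
  have hLt : HasFDerivAt (fun t : E3 => kk (t, 0)) Lt 0 :=
    HasFDerivAt.comp (0 : E3) (g := kk) hkkd (hasFDerivAt_prodMk_left 0 0)
  have hLtl := angMain_lower (fun t : E3 => kk (t, 0)) Lt (κ₀ * R₁) hLt hkk0 hlowkk
  have hinj : Function.Injective (Lt : E3 →ₗ[ℝ] E3) := by
    rw [← LinearMap.ker_eq_bot, LinearMap.ker_eq_bot']
    intro v hv
    have hv' : Lt v = 0 := hv
    have h1 := hLtl v
    rw [hv', norm_zero] at h1
    have h2 : 0 < κ₀ * R₁ := mul_pos hκ₀ hR₁0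
    have h3 : ‖v‖ ≤ 0 := by
      by_contra h
      push Not at h
      have := mul_pos h2 h
      linarith
    exact norm_le_zero_iff.1 h3
  let Lt' : E3 ≃L[ℝ] E3 := (LinearEquiv.ofInjectiveEndo (Lt : E3 →ₗ[ℝ] E3) hinj).toContinuousLinearEquiv
  obtain ⟨τ, hτ, hτ0, hτe⟩ := angMain_ift kk (0 : E3) (0 : ℝ × E3) hkk Lt' (fun v => rfl)
  rw [hkk0] at hτe
  -- conclusion
  have hτtend : Tendsto (fun x : ℝ × E3 => ((τ x, x) : E3 × ℝ × E3)) (𝓝 0) (𝓝 0) := by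
    have h1 : ContinuousAt (fun x : ℝ × E3 => ((τ x, x) : E3 × ℝ × E3)) 0 :=
      hτ.continuousAt.prodMk continuousAt_id
    have h2 := h1.tendsto
    rw [hτ0] at h2
    exact h2
  refine ⟨fun x => W0 (τ x, x), τ, ?_, hτ, ?_⟩
  · have h1 : ContDiffAt ℝ ∞ (fun x : ℝ × E3 => ((τ x, x) : E3 × ℝ × E3)) 0 :=
      hτ.prodMk contDiffAt_id
    have h2 : ContDiffAt ℝ ∞ W0 ((fun x : ℝ × E3 => ((τ x, x) : E3 × ℝ × E3)) 0) := by
      show ContDiffAt ℝ ∞ W0 (τ 0, 0)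
      rw [hτ0]
      exact hW0
    exact ContDiffAt.comp (g := W0) (f := fun x : ℝ × E3 => ((τ x, x) : E3 × ℝ × E3))
      (0 : ℝ × E3) h2 h1
  · have hR : ∀ᶠ x : ℝ × E3 in 𝓝 0, R₀ < R₁ * (1 + x.1) := by
      have h1 : Tendsto (fun x : ℝ × E3 => R₁ * (1 + x.1)) (𝓝 0) (𝓝 (R₁ * (1 + (0 : ℝ × E3).1))) := by
        have : Continuous (fun x : ℝ × E3 => R₁ * (1 + x.1)) := by fun_prop
        exact this.tendsto 0
      have h2 : R₁ * (1 + (0 : ℝ × E3).1) = R₁ := by simp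
      rw [h2] at h1
      exact h1.eventually_const_lt hR₁
    have hb : ∀ᶠ x : ℝ × E3 in 𝓝 0, ‖b₁ + R₁ • τ x‖ - R₁ * (1 + x.1) / 8 < 0 := by
      have h1 : Tendsto (fun x : ℝ × E3 => ‖b₁ + R₁ • τ x‖ - R₁ * (1 + x.1) / 8) (𝓝 0)
          (𝓝 (‖b₁ + R₁ • τ 0‖ - R₁ * (1 + (0 : ℝ × E3).1) / 8)) := by
        refine Tendsto.sub ?_ ?_
        · exact (tendsto_const_nhds.add (hτ.continuousAt.tendsto.const_smul R₁)).norm
        · have : Continuous (fun x : ℝ × E3 => R₁ * (1 + x.1) / 8) := by fun_prop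
          exact this.tendsto 0
      refine h1.eventually_lt_const ?_
      rw [hτ0, smul_zero, add_zero]
      show ‖b₁‖ - R₁ * (1 + 0) / 8 < 0
      linarith
    have hv : ∀ᶠ x : ℝ × E3 in 𝓝 0, ‖x.2‖ < 1 := by
      have h1 : Tendsto (fun x : ℝ × E3 => ‖x.2‖) (𝓝 0) (𝓝 ‖(0 : ℝ × E3).2‖) := by
        have : Continuous (fun x : ℝ × E3 => ‖x.2‖) := by fun_prop
        exact this.tendsto 0
      refine h1.eventually_lt_const ?_
      simp
    filter_upwards [(hWtend.comp hτtend).eventually hnat1, hτtend.eventually hW0e,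
      hτtend.eventually hWsmall, hR, hb, hv, hτe] with x hx1 hx2 hx3 hx4 hx5 hx6 hx7
    have hx5' : ‖b₁ + R₁ • τ x‖ < R₁ * (1 + x.1) / 8 := by linarith
    obtain ⟨ρ, hρ1, hρ2, -⟩ := Rot_isom θ₀ x.2 hx6
    obtain ⟨w', hw'1, hw'2⟩ := rot_X ρ (W0 (τ x, x))
    have hSBx : ∀ i j, SB2 ε₁ (fun y => HbR H (b₁ + R₁ • τ x) (R₁ * (1 + x.1)) y i j) :=
      hSB _ _ hx4 hx5'
    have h1 := hx1 (b₁ + R₁ • τ x) (R₁ * (1 + x.1)) w' rfl rfl (fun θ θ' h => by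
      refine hw'2 θ θ' ?_
      rw [hρ1]
      exact h) hw'1 (fun i j => angMain_SB2_mono (hSBx i j) hεn)
    -- GG is constant on the sphere
    have h2 : ∀ i, ∫ θ : S2, (θ : E3) i * GG (W0 (τ x, x), (τ x, x)) (toOm θ) ∂sig = 0 := by
      intro i
      have h3 : KK (GG (W0 (τ x, x), (τ x, x))) = 0 := hx7
      rw [hKK] at h3
      have h4 := congrArg (fun v : E3 => v i) h3
      simpa using h4
    have h3 := angMain_const (f := GG (W0 (τ x, x), (τ x, x))) hx2 h2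
    have h4 : ∀ θ' : S2, Gam (w'.1, cmp (HbR H (b₁ + R₁ • τ x) (R₁ * (1 + x.1))) w'.1) (toOm θ') =
        (1 + x.1) ^ 2 * ((4 * Real.pi)⁻¹ *
          (∫ η : S2, GG (W0 (τ x, x), (τ x, x)) (toOm η) ∂sig)) := by
      intro θ'
      let θ : S2 := ⟨ρ.symm θ', by
        rw [mem_sphere_zero_iff_norm, LinearIsometryEquiv.norm_map, norm_S2]⟩
      have h5 : Rot θ₀ x.2 (θ : E3) = θ' := by
        rw [← hρ1]
        exact ρ.apply_symm_apply _
      refine (h1 θ θ' h5).trans ?_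
      rw [← h3 θ]
      rfl
    obtain ⟨h5, h6⟩ := angMain_of_const h4
    have hw'δ : ‖w'‖ ≤ δ := hw'1.trans hx3
    have h7 : b₁ + R₁ • τ x = bb (R₁ * (1 + x.1)) := huniq _ hx4 _ w' hx5' hw'δ h5 h6
    refine ⟨h7.symm, ?_⟩
    rw [h7] at h5 hSBx
    obtain ⟨-, hwx, hsx, -⟩ := hsol _ hx4
    have h8 : w' = ww (R₁ * (1 + x.1)) := by
      refine hc.uniq _ ε₁ hε.le hεε hSBx w' _ hw'δ ?_ h5 hsx
      exact hwx.trans (by linarith)
    rw [← h8]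
    refine hw'2 θ₀ _ ?_
    rw [hρ1]
    exact hρ2

/-- ANG4: smooth dependence of the Bernoulli surfaces -/
theorem ang_main {δ ε₀ C c : ℝ} (hc : LSConst δ ε₀ C c) : ∃ ε₁ : ℝ, 0 < ε₁ ∧ ε₁ ≤ ε₀ ∧
    ∀ (H : E3 → M3) (R₀ : ℝ) (bb : ℝ → E3) (ww : ℝ → Xs), 0 < R₀ →
    (∀ i j, ContDiff ℝ ∞ (fun x => H x i j)) →
    (∀ (b : E3) (R : ℝ), R₀ < R → ‖b‖ < R / 8 → ∀ i j, SB2 ε₁ (fun x => HbR H b R x i j)) →
    (∀ R, R₀ < R → ‖bb R‖ < R / 8 ∧ ‖ww R‖ ≤ C * ε₁ ∧ SolLS (HbR H (bb R) R) (ww R) ∧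
      ∀ i, kap (HbR H (bb R) R) (ww R) i = 0) →
    (∀ R, R₀ < R → ∀ (b : E3) (w : Xs), ‖b‖ < R / 8 → ‖w‖ ≤ δ → SolLS (HbR H b R) w →
      (∀ i, kap (HbR H b R) w i = 0) → b = bb R) →
    (∀ R, R₀ < R → ∃ κ₀ > 0, ∀ (b : E3) (w : Xs), ‖b‖ < R / 8 → ‖w‖ ≤ δ → SolLS (HbR H b R) w →
      κ₀ * ‖b - bb R‖ ≤ ‖mkE (kap (HbR H b R) w)‖) →
    ContDiffOn ℝ ∞ bb (Ioi R₀) ∧
    ContDiffOn ℝ ∞ (fun p : ℝ × E3 => wS (ww p.1).1 (dirS p.2)) (Ioi R₀ ×ˢ {0}ᶜ) := by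
  obtain ⟨δa, hδa, hcmp⟩ := ang_cmp
  obtain ⟨δn, hδn, hnat⟩ := ang_nat
  have hC := hc.C_pos
  have hδ := hc.δ_pos
  have hε₀ := hc.ε₀_pos
  set μ : ℝ := min δ (min δa δn) with hμ
  have hμ0 : 0 < μ := lt_min hδ (lt_min hδa hδn)
  set ε₁ : ℝ := min (min ε₀ δn) (μ / (8 * C + 1)) with hε₁
  have h8 : 0 < 8 * C + 1 := by positivity
  have hε₁0 : 0 < ε₁ := lt_min (lt_min hε₀ hδn) (div_pos hμ0 h8)
  have hμ1 : 8 * (C * ε₁) < μ := by
    have h1 : ε₁ ≤ μ / (8 * C + 1) := min_le_right _ _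
    have h2 : ε₁ * (8 * C + 1) ≤ μ := by rwa [le_div_iff₀ h8] at h1
    nlinarith
  have hCε : 0 < C * ε₁ := mul_pos hC hε₁0
  have h1 : ε₁ ≤ ε₀ := (min_le_left _ _).trans (min_le_left _ _)
  have h2 : ε₁ ≤ δn := (min_le_left _ _).trans (min_le_right _ _)
  have h3 : 8 * (C * ε₁) ≤ δ := hμ1.le.trans (min_le_left _ _)
  have h4 : C * ε₁ < δa := by
    have : μ ≤ δa := (min_le_right _ _).trans (min_le_left _ _)
    linarith
  have h5 : C * ε₁ < δn := by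
    have : μ ≤ δn := (min_le_right _ _).trans (min_le_right _ _)
    linarith
  refine ⟨ε₁, hε₁0, h1, ?_⟩
  intro H R₀ bb ww hR₀ hH hSB hsol huniq hlow
  have key := angMain_local hc hε₁0 h1 h2 h3 h4 h5 hcmp hnat H R₀ bb ww hR₀ hH hSB hsol huniq hlow
  constructor
  · intro R₁ hR₁
    have hR₁' : R₀ < R₁ := hR₁
    have hR₁0 : 0 < R₁ := hR₀.trans hR₁'
    obtain ⟨W, τ, hW, hτ, hev⟩ := key R₁ hR₁ ⟨bv 0, by simp [bv]⟩
    refine ContDiffAt.contDiffWithinAt ?_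
    have hin : ContDiffAt ℝ ∞ (fun R : ℝ => ((R / R₁ - 1, 0) : ℝ × E3)) R₁ :=
      ((contDiffAt_id.div_const R₁).sub contDiffAt_const).prodMk contDiffAt_const
    have hin0 : (fun R : ℝ => ((R / R₁ - 1, 0) : ℝ × E3)) R₁ = 0 := by
      show ((R₁ / R₁ - 1, 0) : ℝ × E3) = 0
      rw [div_self hR₁0.ne', sub_self]
      rfl
    have h6 : ContDiffAt ℝ ∞ (fun R : ℝ => bb R₁ + R₁ • τ (R / R₁ - 1, 0)) R₁ := by
      have h6a : ContDiffAt ℝ ∞ τ ((fun R : ℝ => ((R / R₁ - 1, 0) : ℝ × E3)) R₁) := by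
        rw [hin0]
        exact hτ
      have h6b : ContDiffAt ℝ ∞ (fun R : ℝ => τ (R / R₁ - 1, 0)) R₁ :=
        ContDiffAt.comp (g := τ) (f := fun R : ℝ => ((R / R₁ - 1, 0) : ℝ × E3)) R₁ h6a hin
      have h6c : ContDiffAt ℝ ∞ (fun R : ℝ => R₁ • τ (R / R₁ - 1, 0)) R₁ :=
        h6b.const_smul R₁
      exact contDiffAt_const.add h6c
    refine h6.congr_of_eventuallyEq ?_
    have h7 : Tendsto (fun R : ℝ => ((R / R₁ - 1, 0) : ℝ × E3)) (𝓝 R₁) (𝓝 0) := by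
      have h7' := hin.continuousAt.tendsto
      change Tendsto _ _ (𝓝 ((fun R : ℝ => ((R / R₁ - 1, 0) : ℝ × E3)) R₁)) at h7'
      rw [hin0] at h7'
      exact h7'
    filter_upwards [h7.eventually hev] with R hR
    have h9 := hR.1
    have h10 : R₁ * (1 + (R / R₁ - 1)) = R := by
      field_simp
      ring
    change bb (R₁ * (1 + (R / R₁ - 1))) = _ at h9
    rw [h10] at h9
    exact h9
  · rintro ⟨R₁, x₁⟩ ⟨hR₁, hx₁⟩
    have hR₁' : R₀ < R₁ := hR₁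
    have hx₁' : x₁ ≠ 0 := hx₁
    have hR₁0 : 0 < R₁ := hR₀.trans hR₁'
    have hx₁0 : 0 < ‖x₁‖ := norm_pos_iff.2 hx₁'
    obtain ⟨W, τ, hW, hτ, hev⟩ := key R₁ hR₁ (dirS x₁)
    obtain ⟨KE, hKE⟩ := angMain_eval_exists (dirS x₁)
    refine ContDiffAt.contDiffWithinAt ?_
    let φ : ℝ × E3 → ℝ × E3 := fun p => (p.1 / R₁ - 1, ‖x₁‖⁻¹ • p.2 - (dirS x₁ : E3))
    have hφ : ContDiffAt ℝ ∞ φ (R₁, x₁) := by
      refine ContDiffAt.prodMk ?_ ?_
      · exact (contDiffAt_fst.div_const R₁).sub contDiffAt_const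
      · have : ContDiff ℝ ∞ (fun p : ℝ × E3 => ‖x₁‖⁻¹ • p.2 - (dirS x₁ : E3)) := by fun_prop
        exact this.contDiffAt
    have hφ0 : φ (R₁, x₁) = 0 := by
      show (R₁ / R₁ - 1, ‖x₁‖⁻¹ • x₁ - (dirS x₁ : E3)) = 0
      rw [dirS_coe hx₁', sub_self, div_self hR₁0.ne', sub_self]
      rfl
    have h6 : ContDiffAt ℝ ∞ (fun p : ℝ × E3 => KE (W (φ p))) (R₁, x₁) := by
      have : ContDiffAt ℝ ∞ W (φ (R₁, x₁)) := by
        rw [hφ0]
        exact hW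
      exact KE.contDiff.contDiffAt.comp _ (this.comp (R₁, x₁) hφ)
    refine h6.congr_of_eventuallyEq ?_
    have h7 : Tendsto φ (𝓝 (R₁, x₁)) (𝓝 0) := by
      have := hφ.continuousAt.tendsto
      rwa [hφ0] at this
    have h8' : ∀ᶠ p : ℝ × E3 in 𝓝 (R₁, x₁), p.2 ≠ 0 := by
      have : Tendsto (fun p : ℝ × E3 => p.2) (𝓝 (R₁, x₁)) (𝓝 x₁) := continuous_snd.tendsto _
      exact this.eventually_ne hx₁'
    filter_upwards [h7.eventually hev, h8'] with p hp hp0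
    have h9 := hp.2
    have h10 : R₁ * (1 + (φ p).1) = p.1 := by
      show R₁ * (1 + (p.1 / R₁ - 1)) = p.1
      field_simp
      ring
    have h11 : (dirS x₁ : E3) + (φ p).2 = ‖x₁‖⁻¹ • p.2 := by
      show (dirS x₁ : E3) + (‖x₁‖⁻¹ • p.2 - (dirS x₁ : E3)) = _
      abel
    rw [h10, h11, dirS_smul hp0 (inv_pos.2 hx₁0)] at h9
    show wS (ww p.1).1 (dirS p.2) = KE (W (φ p))
    rw [hKE, h9]

end

end Pool.Agent.BS
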