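import Pool.Agent.BS.Defs4

/-!
# Module UNIQ: uniqueness of potentials
-/

namespace Pool.Agent.BS

open MeasureTheory Topology Set Filter
open scoped ContDiff

noncomputable section

/-- the truncated square -/
def uniqF (t : ℝ) : ℝ := (max t 0) ^ 2

theorem uniqF_deriv (t : ℝ) : HasDerivAt uniqF (2 * max t 0) t := by
  rcases lt_trichotomy t 0 with h | h | h
  · have h1 : HasDerivAt (fun _ : ℝ => (0 : ℝ)) 0 t := hasDerivAt_const t 0
    rw [max_eq_right h.le, mul_zero]
    refine h1.congr_of_eventuallyEq ?_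
    filter_upwards [Iio_mem_nhds h] with s hs
    have hs' : s < 0 := hs
    simp [uniqF, max_eq_right hs'.le]
  · subst h
    rw [max_self, mul_zero, hasDerivAt_iff_isLittleO]
    have h2 : (fun s : ℝ => s ^ 2) =o[𝓝 0] fun s => s := Asymptotics.isLittleO_pow_id one_lt_two
    have h3 : (fun s : ℝ => uniqF s - uniqF 0 - (s - 0) • (0 : ℝ)) =O[𝓝 0] fun s => s ^ 2 := by
      refine Asymptotics.IsBigO.of_bound 1 (Eventually.of_forall fun s => ?_)
      rcases le_total s 0 with hs | hs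
      · simp [uniqF, max_eq_right hs]
        positivity
      · simp [uniqF, max_eq_left hs]
    have h4 := h3.trans_isLittleO h2
    simpa using h4
  · have h1 : HasDerivAt (fun s : ℝ => s ^ 2) (2 * t) t := by
      simpa using hasDerivAt_pow 2 t
    rw [max_eq_left h.le]
    refine h1.congr_of_eventuallyEq ?_
    filter_upwards [Ioi_mem_nhds h] with s hs
    have hs' : 0 < s := hs
    simp [uniqF, max_eq_left hs'.le]

theorem uniqF_nonneg (t : ℝ) : 0 ≤ uniqF t := sq_nonneg _

theorem uniqF_le {t δ : ℝ} (hδ : 0 < δ) : uniqF (t - δ) ≤ t ^ 2 := by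
  unfold uniqF
  rcases le_total (t - δ) 0 with hs | hs
  · rw [max_eq_right hs]; nlinarith [sq_nonneg t]
  · rw [max_eq_left hs]; nlinarith

open Classical in
/-- the truncated test function -/
def uniqG (D : Set E3) (z : E3 → ℝ) (δ : ℝ) (x : E3) : ℝ := if x ∈ D then uniqF (z x - δ) else 0

open Classical in
/-- its derivative -/
def uniqG' (D : Set E3) (z : E3 → ℝ) (Z : E3 → E3) (δ : ℝ) (x : E3) : E3 →L[ℝ] ℝ :=
  if x ∈ D then (2 * max (z x - δ) 0) • innerSL ℝ (Z x) else 0

section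
variable {D : Set E3} {z : E3 → ℝ} {Z : E3 → E3} {δ : ℝ}

theorem uniq_ev (hD : IsOpen D) (hz0 : ∀ x ∈ frontier D, z x = 0)
    (hzc : ContinuousOn z (closure D)) (hδ : 0 < δ) {x : E3} (hx : x ∉ D) :
    ∀ᶠ y in 𝓝 x, y ∈ D → z y < δ := by
  by_cases hxc : x ∈ closure D
  · have hfr : x ∈ frontier D := by
      rw [frontier, hD.interior_eq]; exact ⟨hxc, hx⟩
    have h1 : ∀ᶠ y in 𝓝[closure D] x, z y < δ := by
      have h2 : Tendsto z (𝓝[closure D] x) (𝓝 (z x)) := hzc x hxc
      rw [hz0 x hfr] at h2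
      exact h2.eventually (Iio_mem_nhds hδ)
    rw [eventually_nhdsWithin_iff] at h1
    filter_upwards [h1] with y hy hyD
    exact hy (subset_closure hyD)
  · have : (closure D)ᶜ ∈ 𝓝 x := isClosed_closure.isOpen_compl.mem_nhds hxc
    filter_upwards [this] with y hy hyD
    exact absurd (subset_closure hyD) hy

theorem uniqG_hasFDerivAt (hD : IsOpen D) (hz0 : ∀ x ∈ frontier D, z x = 0)
    (hzc : ContinuousOn z (closure D)) (hδ : 0 < δ)
    (hz : ∀ x ∈ D, HasFDerivAt z (innerSL ℝ (Z x)) x) (x : E3) :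
    HasFDerivAt (uniqG D z δ) (uniqG' D z Z δ x) x := by
  by_cases hx : x ∈ D
  · have h1 : HasFDerivAt (fun y => uniqF (z y - δ))
        ((2 * max (z x - δ) 0) • innerSL ℝ (Z x)) x := by
      have h2 := (hz x hx).sub_const δ
      exact HasDerivAt.comp_hasFDerivAt (h₂ := uniqF) x (uniqF_deriv (z x - δ)) h2
    rw [uniqG', if_pos hx]
    refine h1.congr_of_eventuallyEq ?_
    filter_upwards [hD.mem_nhds hx] with y hy
    rw [uniqG, if_pos hy]
  · rw [uniqG', if_neg hx]
    refine (hasFDerivAt_const (0 : ℝ) x).congr_of_eventuallyEq ?_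
    filter_upwards [uniq_ev hD hz0 hzc hδ hx] with y hy
    rw [uniqG]
    split_ifs with hyD
    · have := hy hyD
      rw [uniqF, max_eq_right (by linarith)]; simp
    · rfl

theorem uniqG'_cont (hD : IsOpen D) (hz0 : ∀ x ∈ frontier D, z x = 0)
    (hzc : ContinuousOn z (closure D)) (hZc : ContinuousOn Z D) (hδ : 0 < δ) :
    Continuous (uniqG' D z Z δ) := by
  rw [continuous_iff_continuousAt]
  intro x
  by_cases hx : x ∈ D
  · have h1 : ContinuousOn (fun y => (2 * max (z y - δ) 0) • innerSL ℝ (Z y)) D := by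
      have hz1 : ContinuousOn z D := hzc.mono subset_closure
      have h2 : ContinuousOn (fun y => innerSL ℝ (Z y)) D := (innerSL ℝ).continuous.comp_continuousOn hZc
      exact (continuousOn_const.mul ((hz1.sub continuousOn_const).sup continuousOn_const)).smul h2
    refine (h1.continuousAt (hD.mem_nhds hx)).congr ?_
    filter_upwards [hD.mem_nhds hx] with y hy
    rw [uniqG', if_pos hy]
  · have h0 : uniqG' D z Z δ =ᶠ[𝓝 x] fun _ => 0 := by
      filter_upwards [uniq_ev hD hz0 hzc hδ hx] with y hy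
      rw [uniqG']
      split_ifs with hyD
      · have := hy hyD
        rw [max_eq_right (by linarith)]; simp
      · rfl
    exact (continuousAt_const).congr h0.symm

theorem uniqG_tsupport (hD : IsOpen D) (hz0 : ∀ x ∈ frontier D, z x = 0)
    (hzc : ContinuousOn z (closure D)) (hδ : 0 < δ) : tsupport (uniqG D z δ) ⊆ D := by
  have hcl : IsClosed {x | x ∈ closure D ∧ δ ≤ z x} := by
    have := hzc.preimage_isClosed_of_isClosed isClosed_closure (isClosed_Ici (a := δ))
    exact this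
  have hsub : Function.support (uniqG D z δ) ⊆ {x | x ∈ closure D ∧ δ ≤ z x} := by
    intro x hx
    rw [Function.mem_support, uniqG] at hx
    split_ifs at hx with hxD
    · refine ⟨subset_closure hxD, ?_⟩
      by_contra hlt
      push Not at hlt
      apply hx
      rw [uniqF, max_eq_right (by linarith)]; simp
    · exact absurd rfl hx
  intro x hx
  have hx2 := closure_minimal hsub hcl hx
  by_contra hxD
  have hfr : x ∈ frontier D := by
    rw [frontier, hD.interior_eq]; exact ⟨hx2.1, hxD⟩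
  have := hx2.2
  rw [hz0 x hfr] at this
  linarith

end


theorem uniq_int {f : E3 → ℝ} {K D : Set E3} (hK : IsCompact K) (hKD : K ⊆ D) (hD : IsOpen D)
    (hf : ContinuousOn f D) (h0 : ∀ x ∈ D \ K, f x = 0) : IntegrableOn f D :=
  ((hf.mono hKD).integrableOn_compact hK).of_forall_sdiff_eq_zero hD.measurableSet h0

/-- smooth cut-off -/
def uniqB : ContDiffBump (0 : E3) := ⟨1, 2, one_pos, one_lt_two⟩

theorem uniqB_bound : ∃ K : ℝ, 0 ≤ K ∧ ∀ x : E3, ‖fderiv ℝ uniqB x‖ ≤ K := by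
  have h1 : Continuous (fderiv ℝ uniqB) :=
    (uniqB.contDiff (n := 1)).continuous_fderiv one_ne_zero
  have h2 : HasCompactSupport (fderiv ℝ uniqB) := uniqB.hasCompactSupport.fderiv (𝕜 := ℝ)
  obtain ⟨K, hK⟩ := h2.exists_bound_of_continuous h1
  exact ⟨K, (norm_nonneg _).trans (hK 0), hK⟩

/-- rescaled cut-off -/
def uniqBR (R : ℝ) (x : E3) : ℝ := uniqB (R⁻¹ • x)

theorem uniqBR_contDiff (R : ℝ) : ContDiff ℝ 1 (uniqBR R) :=
  (uniqB.contDiff (n := 1)).comp (contDiff_const_smul R⁻¹)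

theorem uniqBR_compact {R : ℝ} (hR : 0 < R) : HasCompactSupport (uniqBR R) := by
  have := uniqB.hasCompactSupport.comp_smul (c := R⁻¹) (inv_ne_zero hR.ne')
  exact this

theorem uniqBR_nonneg (R : ℝ) (x : E3) : 0 ≤ uniqBR R x := uniqB.nonneg

theorem uniqBR_one {R : ℝ} (hR : 0 < R) {x : E3} (hx : ‖x‖ ≤ R) : uniqBR R x = 1 := by
  apply uniqB.one_of_mem_closedBall
  rw [mem_closedBall_zero_iff, norm_smul, norm_inv, Real.norm_of_nonneg hR.le]
  show R⁻¹ * ‖x‖ ≤ 1
  rw [inv_mul_le_iff₀ hR]; linarith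

theorem uniqBR_fderiv (R : ℝ) (x : E3) :
    HasFDerivAt (uniqBR R) (R⁻¹ • fderiv ℝ uniqB (R⁻¹ • x)) x := by
  have h1 : HasFDerivAt uniqB (fderiv ℝ uniqB (R⁻¹ • x)) (R⁻¹ • x) :=
    ((uniqB.contDiff (n := 1)).differentiable one_ne_zero _).hasFDerivAt
  have h2 : HasFDerivAt (fun y : E3 => R⁻¹ • y) (R⁻¹ • ContinuousLinearMap.id ℝ E3) x :=
    (hasFDerivAt_id x).const_smul R⁻¹
  have h3 := h1.comp x h2
  refine h3.congr_fderiv ?_
  ext v
  simp

theorem uniq_abs_bv_le (L : E3 →L[ℝ] ℝ) (i : Fin 3) : |L (bv i)| ≤ ‖L‖ := by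
  have := L.le_opNorm (bv i)
  have h1 : ‖bv i‖ = 1 := by simp [bv]
  rw [h1, mul_one] at this
  exact this

theorem uniq_inner_bv (v : E3) (i : Fin 3) : innerSL ℝ v (bv i) = v i := by
  simp [bv, EuclideanSpace.inner_single_right]

theorem uniq_abs_coord_le (v : E3) (i : Fin 3) : |v i| ≤ ‖v‖ := by
  rw [← uniq_inner_bv v i]
  refine (uniq_abs_bv_le _ i).trans ?_
  rw [innerSL_apply_norm]

section
variable {A : E3 → M3} {D : Set E3} {u u' : E3 → ℝ} {G G' : E3 → E3}

theorem uniq_hz (hD : IsOpen D) (h : IsPot A D u G) (h' : IsPot A D u' G') :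
    ∀ x ∈ D, HasFDerivAt (fun y => u y - u' y) (innerSL ℝ (G x - G' x)) x := by
  intro x hx
  have hn : closure D ∈ 𝓝 x := mem_of_superset (hD.mem_nhds hx) subset_closure
  have h1 := (h.grad x (subset_closure hx)).hasFDerivAt hn
  have h2 := (h'.grad x (subset_closure hx)).hasFDerivAt hn
  rw [map_sub]
  exact h1.sub h2

theorem uniq_zc (h : IsPot A D u G) (h' : IsPot A D u' G') :
    ContinuousOn (fun y => u y - u' y) (closure D) := fun x hx =>
  ((h.grad x hx).continuousWithinAt).sub ((h'.grad x hx).continuousWithinAt)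

theorem uniq_z0 (h : IsPot A D u G) (h' : IsPot A D u' G') :
    ∀ x ∈ frontier D, (fun y => u y - u' y) x = 0 := fun x hx => by
  show u x - u' x = 0
  rw [h.zero x hx, h'.zero x hx, sub_zero]

/-- the test function -/
def uniqPhi (D : Set E3) (z : E3 → ℝ) (δ R : ℝ) (x : E3) : ℝ := uniqBR R x * uniqG D z δ x

theorem uniqPhi_pd {z : E3 → ℝ} {Z : E3 → E3} {δ R : ℝ} {x : E3} (i : Fin 3) (hx : x ∈ D)
    (hg : HasFDerivAt (uniqG D z δ) (uniqG' D z Z δ x) x) :
    pd i (uniqPhi D z δ R) x = uniqBR R x * ((2 * max (z x - δ) 0) * Z x i) +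
      uniqG D z δ x * (R⁻¹ * fderiv ℝ uniqB (R⁻¹ • x) (bv i)) := by
  have h1 : HasFDerivAt (uniqPhi D z δ R) (uniqBR R x • uniqG' D z Z δ x +
      uniqG D z δ x • (R⁻¹ • fderiv ℝ uniqB (R⁻¹ • x))) x := (uniqBR_fderiv R x).mul hg
  rw [pd, h1.fderiv, uniqG', if_pos hx]
  simp only [add_apply, smul_apply, smul_eq_mul, uniq_inner_bv]

/-- the basic energy estimate -/
theorem uniq_energy (hD : IsOpen D) (hA : IsEll A D) (h : IsPot A D u G)
    (h' : IsPot A D u' G') {δ : ℝ} (hδ : 0 < δ) : ∃ C : ℝ, ∀ R > 0,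
    IntegrableOn (fun x => uniqBR R x * ((2 * max (u x - u' x - δ) 0) * ‖G x - G' x‖ ^ 2)) D ∧
    ∫ x in D, uniqBR R x * ((2 * max (u x - u' x - δ) 0) * ‖G x - G' x‖ ^ 2) ≤ C / R := by
  classical
  set z : E3 → ℝ := fun x => u x - u' x with hzdef
  set Z : E3 → E3 := fun x => G x - G' x with hZdef
  have hz := uniq_hz hD h h'
  have hzc := uniq_zc h h'
  have hz0 := uniq_z0 h h'
  have hZc : ContinuousOn Z D := (h.gcont.sub h'.gcont).mono subset_closure
  obtain ⟨Ca, hCa⟩ := h.decay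
  obtain ⟨Cb, hCb⟩ := h'.decay
  obtain ⟨C2, hC2⟩ := hA.bdd
  obtain ⟨c, hc, hell⟩ := hA.ell
  obtain ⟨K, hK0, hK⟩ := uniqB_bound
  set C1 : ℝ := |Ca| + |Cb| with hC1
  have hC1' : 0 ≤ C1 := by positivity
  have hpos : ∀ x : E3, 0 < 1 + ‖x‖ := fun x => by positivity
  have hzb : ∀ x ∈ D, |z x| ≤ C1 / (1 + ‖x‖) := by
    intro x hx
    have h1 := (hCa x hx).1
    have h2 := (hCb x hx).1
    have e : z x = (u x - 1) - (u' x - 1) := by simp only [hzdef]; ring
    rw [e, hC1, add_div]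
    refine (abs_sub _ _).trans (add_le_add (h1.trans ?_) (h2.trans ?_))
    · exact div_le_div_of_nonneg_right (le_abs_self _) (hpos x).le
    · exact div_le_div_of_nonneg_right (le_abs_self _) (hpos x).le
  have hZb : ∀ x ∈ D, ‖Z x‖ ≤ C1 / (1 + ‖x‖) ^ 2 := by
    intro x hx
    have h1 := (hCa x hx).2
    have h2 := (hCb x hx).2
    rw [hC1, add_div]
    refine (norm_sub_le _ _).trans (add_le_add (h1.trans ?_) (h2.trans ?_))
    · exact div_le_div_of_nonneg_right (le_abs_self _) (by positivity)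
    · exact div_le_div_of_nonneg_right (le_abs_self _) (by positivity)
  have hg := uniqG_hasFDerivAt hD hz0 hzc hδ hz
  have hgc := uniqG'_cont hD hz0 hzc hZc hδ
  have hgC1 : ContDiff ℝ 1 (uniqG D z δ) :=
    contDiff_one_iff_hasFDerivAt.2 ⟨_, hgc, hg⟩
  have hInt : Integrable (fun x : E3 => (1 + ‖x‖) ^ (-(4 : ℝ))) := by
    apply integrable_one_add_norm
    simp; norm_num
  set I : ℝ := ∫ x in D, (1 + ‖x‖) ^ (-(4 : ℝ)) with hI
  refine ⟨9 * C1 ^ 3 * |C2| * K * I / c, fun R hR => ?_⟩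
  have hφ : ContDiff ℝ 1 (uniqPhi D z δ R) := (uniqBR_contDiff R).mul hgC1
  have hφc : HasCompactSupport (uniqPhi D z δ R) := (uniqBR_compact hR).mul_right
  have hφs : tsupport (uniqPhi D z δ R) ⊆ D :=
    (tsupport_mul_subset_right).trans (uniqG_tsupport hD hz0 hzc hδ)
  have w1 := h.weak _ hφ hφc hφs
  have w2 := h'.weak _ hφ hφc hφs
  have hpd0 : ∀ i, ∀ x ∈ D \ tsupport (uniqPhi D z δ R), pd i (uniqPhi D z δ R) x = 0 := by
    intro i x hx
    have : fderiv ℝ (uniqPhi D z δ R) x = 0 :=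
      image_eq_zero_of_notMem_tsupport (fun hh => hx.2 (tsupport_fderiv_subset ℝ hh))
    rw [pd, this]; simp
  have hpdc : ∀ i, Continuous (pd i (uniqPhi D z δ R)) := by
    intro i
    exact (hφ.continuous_fderiv one_ne_zero).clm_apply continuous_const
  have hAc : ∀ i j, ContinuousOn (fun x => A x i j) D := fun i j =>
    continuousOn_pi.1 (continuousOn_pi.1 hA.cont i) j
  have hcoord : ∀ (V : E3 → E3), ContinuousOn V D → ∀ j, ContinuousOn (fun x => V x j) D := by
    intro V hV j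
    exact (EuclideanSpace.proj j : E3 →L[ℝ] ℝ).continuous.comp_continuousOn hV
  have hIV : ∀ (V : E3 → E3), ContinuousOn V D → IntegrableOn
      (fun x => ∑ i, ∑ j, A x i j * V x j * pd i (uniqPhi D z δ R) x) D := by
    intro V hV
    refine uniq_int hφc hφs hD ?_ ?_
    · refine continuousOn_finsetSum _ fun i _ => continuousOn_finsetSum _ fun j _ => ?_
      exact ((hAc i j).mul (hcoord V hV j)).mul (hpdc i).continuousOn
    · intro x hx
      simp [hpd0 _ x hx]
  have hG1 : ContinuousOn G D := h.gcont.mono subset_closure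
  have hG2 : ContinuousOn G' D := h'.gcont.mono subset_closure
  have w3 : ∫ x in D, ∑ i, ∑ j, A x i j * Z x j * pd i (uniqPhi D z δ R) x = 0 := by
    have e : ∀ x, ∑ i, ∑ j, A x i j * Z x j * pd i (uniqPhi D z δ R) x =
        (∑ i, ∑ j, A x i j * G x j * pd i (uniqPhi D z δ R) x) -
        ∑ i, ∑ j, A x i j * G' x j * pd i (uniqPhi D z δ R) x := by
      intro x
      rw [← Finset.sum_sub_distrib]
      refine Finset.sum_congr rfl fun i _ => ?_
      rw [← Finset.sum_sub_distrib]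
      refine Finset.sum_congr rfl fun j _ => ?_
      simp only [hZdef, PiLp.sub_apply]
      ring
    simp_rw [e]
    rw [integral_sub (hIV G hG1) (hIV G' hG2), w1, w2, sub_zero]
  have hPint : IntegrableOn (fun x => uniqBR R x * ((2 * max (z x - δ) 0) * ‖Z x‖ ^ 2)) D := by
    refine uniq_int hφc hφs hD ?_ ?_
    · have hzD : ContinuousOn z D := hzc.mono subset_closure
      exact (uniqBR_contDiff R).continuous.continuousOn.mul
        ((continuousOn_const.mul ((hzD.sub continuousOn_const).sup continuousOn_const)).mul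
          (hZc.norm.pow 2))
    · intro x hx
      have h1 : uniqPhi D z δ R x = 0 := image_eq_zero_of_notMem_tsupport hx.2
      rw [uniqPhi, uniqG, if_pos hx.1] at h1
      rcases mul_eq_zero.1 h1 with h2 | h2
      · rw [h2, zero_mul]
      · have h3 : max (z x - δ) 0 = 0 := by
          unfold uniqF at h2
          exact pow_eq_zero_iff two_ne_zero |>.1 h2
        rw [h3]; simp
  refine ⟨hPint, ?_⟩
  have hptw : ∀ x ∈ D, c * (uniqBR R x * ((2 * max (z x - δ) 0) * ‖Z x‖ ^ 2)) -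
      (9 * C1 ^ 3 * |C2| * K / R) * (1 + ‖x‖) ^ (-(4 : ℝ)) ≤
      ∑ i, ∑ j, A x i j * Z x j * pd i (uniqPhi D z δ R) x := by
    intro x hx
    have e1 : ∑ i, ∑ j, A x i j * Z x j * pd i (uniqPhi D z δ R) x =
        uniqBR R x * (2 * max (z x - δ) 0) * (∑ i, ∑ j, A x i j * Z x i * Z x j) +
        ∑ i, ∑ j, A x i j * Z x j * (uniqG D z δ x *
          (R⁻¹ * fderiv ℝ uniqB (R⁻¹ • x) (bv i))) := by
      rw [Finset.mul_sum, ← Finset.sum_add_distrib]
      refine Finset.sum_congr rfl fun i _ => ?_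
      rw [Finset.mul_sum, ← Finset.sum_add_distrib]
      refine Finset.sum_congr rfl fun j _ => ?_
      rw [uniqPhi_pd i hx (hg x)]
      ring
    have e2 : uniqBR R x * (2 * max (z x - δ) 0) * (c * ‖Z x‖ ^ 2) ≤
        uniqBR R x * (2 * max (z x - δ) 0) * (∑ i, ∑ j, A x i j * Z x i * Z x j) := by
      refine mul_le_mul_of_nonneg_left (hell x hx (Z x)) ?_
      exact mul_nonneg (uniqBR_nonneg R x) (by positivity)
    have hx4 : (1 + ‖x‖) ^ (-(4 : ℝ)) = ((1 + ‖x‖) ^ 4)⁻¹ := by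
      rw [Real.rpow_neg (hpos x).le]
      congr 1
      exact_mod_cast Real.rpow_natCast (1 + ‖x‖) 4
    have hterm : ∀ i j, |A x i j * Z x j * (uniqG D z δ x *
          (R⁻¹ * fderiv ℝ uniqB (R⁻¹ • x) (bv i)))| ≤
          (C1 ^ 3 * |C2| * K / R) * (1 + ‖x‖) ^ (-(4 : ℝ)) := by
      intro i j
      have t1 : |A x i j| ≤ |C2| := (hC2 x hx i j).trans (le_abs_self _)
      have t2 : |Z x j| ≤ C1 / (1 + ‖x‖) ^ 2 := (uniq_abs_coord_le _ _).trans (hZb x hx)
      have t3 : |uniqG D z δ x| ≤ (C1 / (1 + ‖x‖)) ^ 2 := by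
        rw [uniqG, if_pos hx, abs_of_nonneg (uniqF_nonneg _)]
        refine (uniqF_le hδ).trans ?_
        rw [← sq_abs]
        exact pow_le_pow_left₀ (abs_nonneg _) (hzb x hx) 2
      have t4 : |R⁻¹ * fderiv ℝ uniqB (R⁻¹ • x) (bv i)| ≤ R⁻¹ * K := by
        rw [abs_mul, abs_of_pos (inv_pos.2 hR)]
        exact mul_le_mul_of_nonneg_left ((uniq_abs_bv_le _ i).trans (hK _)) (inv_pos.2 hR).le
      rw [abs_mul, abs_mul, abs_mul]
      calc |A x i j| * |Z x j| * (|uniqG D z δ x| * |R⁻¹ * fderiv ℝ uniqB (R⁻¹ • x) (bv i)|)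
          ≤ |C2| * (C1 / (1 + ‖x‖) ^ 2) * ((C1 / (1 + ‖x‖)) ^ 2 * (R⁻¹ * K)) := by
            gcongr
        _ = (C1 ^ 3 * |C2| * K / R) * (1 + ‖x‖) ^ (-(4 : ℝ)) := by
            rw [hx4]
            have := (hpos x).ne'
            field_simp
    have e3 : |∑ i, ∑ j, A x i j * Z x j * (uniqG D z δ x *
          (R⁻¹ * fderiv ℝ uniqB (R⁻¹ • x) (bv i)))| ≤
        (9 * C1 ^ 3 * |C2| * K / R) * (1 + ‖x‖) ^ (-(4 : ℝ)) := by
      refine (Finset.abs_sum_le_sum_abs _ _).trans ?_
      have : ∀ i ∈ (Finset.univ : Finset (Fin 3)), |∑ j, A x i j * Z x j * (uniqG D z δ x *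
          (R⁻¹ * fderiv ℝ uniqB (R⁻¹ • x) (bv i)))| ≤
          3 * ((C1 ^ 3 * |C2| * K / R) * (1 + ‖x‖) ^ (-(4 : ℝ))) := by
        intro i _
        refine (Finset.abs_sum_le_sum_abs _ _).trans ?_
        refine (Finset.sum_le_sum fun j _ => hterm i j).trans ?_
        simp
      refine (Finset.sum_le_sum this).trans ?_
      simp only [Finset.sum_const, Finset.card_univ, Fintype.card_fin, nsmul_eq_mul]
      apply le_of_eq
      push_cast
      ring
    rw [e1]
    have e4 := (abs_le.1 e3).1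
    linarith
  have hfin : ∫ x in D, (c * (uniqBR R x * ((2 * max (z x - δ) 0) * ‖Z x‖ ^ 2)) -
      (9 * C1 ^ 3 * |C2| * K / R) * (1 + ‖x‖) ^ (-(4 : ℝ))) ≤ 0 := by
    refine le_trans ?_ w3.le
    refine setIntegral_mono_on ?_ (hIV Z hZc) hD.measurableSet hptw
    exact (hPint.const_mul c).sub (hInt.integrableOn.const_mul _)
  rw [integral_sub (hPint.const_mul c) (hInt.integrableOn.const_mul _), integral_const_mul,
    integral_const_mul] at hfin
  rw [div_div, le_div_iff₀ (by positivity)]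
  have : c * (∫ x in D, uniqBR R x * ((2 * max (z x - δ) 0) * ‖Z x‖ ^ 2)) ≤
      9 * C1 ^ 3 * |C2| * K / R * I := by linarith
  calc (∫ x in D, uniqBR R x * ((2 * max (z x - δ) 0) * ‖Z x‖ ^ 2)) * (c * R)
      = (c * (∫ x in D, uniqBR R x * ((2 * max (z x - δ) 0) * ‖Z x‖ ^ 2))) * R := by ring
    _ ≤ (9 * C1 ^ 3 * |C2| * K / R * I) * R := mul_le_mul_of_nonneg_right this hR.le
    _ = 9 * C1 ^ 3 * |C2| * K * I := by field_simp

end

section
variable {A : E3 → M3} {D : Set E3} {u u' : E3 → ℝ} {G G' : E3 → E3}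

theorem uniq_zero (hD : IsOpen D) (hA : IsEll A D) (h : IsPot A D u G)
    (h' : IsPot A D u' G') {δ : ℝ} (hδ : 0 < δ) {x : E3} (hx : x ∈ D) :
    (2 * max (u x - u' x - δ) 0) * ‖G x - G' x‖ ^ 2 = 0 := by
  obtain ⟨C, hC⟩ := uniq_energy hD hA h h' hδ
  set P : E3 → ℝ := fun y => (2 * max (u y - u' y - δ) 0) * ‖G y - G' y‖ ^ 2 with hP
  have hP0 : ∀ y, 0 ≤ P y := fun y => mul_nonneg (by positivity) (by positivity)
  have hPc : ContinuousOn P D := by
    have hzD : ContinuousOn (fun y => u y - u' y) D := (uniq_zc h h').mono subset_closure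
    have hZc : ContinuousOn (fun y => G y - G' y) D := (h.gcont.sub h'.gcont).mono subset_closure
    exact (continuousOn_const.mul ((hzD.sub continuousOn_const).sup continuousOn_const)).mul
          (hZc.norm.pow 2)
  show P x = 0
  by_contra hne
  have hPx : 0 < P x := lt_of_le_of_ne (hP0 x) (Ne.symm hne)
  have hat : ContinuousAt P x := hPc.continuousAt (hD.mem_nhds hx)
  have h1 : ∀ᶠ y in 𝓝 x, P x / 2 < P y := hat.eventually (Ioi_mem_nhds (by linarith))
  obtain ⟨r, hr, hball⟩ := Metric.eventually_nhds_iff_ball.1 (h1.and (hD.mem_nhds hx))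
  have hvol : 0 < (volume (Metric.ball x r)).toReal :=
    ENNReal.toReal_pos (Metric.measure_ball_pos volume x hr).ne' measure_ball_lt_top.ne
  set V := (volume (Metric.ball x r)).toReal with hV
  set R : ℝ := max (‖x‖ + r) (|C| / (P x / 2 * V) + 1) with hR
  have hRpos : 0 < R := lt_of_lt_of_le (by positivity) (le_max_left _ _)
  obtain ⟨hint, hle⟩ := hC R hRpos
  have hsub : Metric.ball x r ⊆ D := fun y hy => (hball y hy).2
  have h2 : ∫ y in Metric.ball x r, P x / 2 ≤ ∫ y in Metric.ball x r, uniqBR R y * P y := by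
    refine setIntegral_mono_on ?_ (hint.mono_set hsub) measurableSet_ball ?_
    · exact integrableOn_const measure_ball_lt_top.ne
    · intro y hy
      have hyR : ‖y‖ ≤ R := by
        have : ‖y‖ ≤ ‖x‖ + r := by
          have h3 : ‖y - x‖ < r := by rwa [← dist_eq_norm]
          have h4 : ‖y‖ ≤ ‖y - x‖ + ‖x‖ := by simpa using norm_add_le (y - x) x
          linarith
        exact this.trans (le_max_left _ _)
      rw [uniqBR_one hRpos hyR, one_mul]
      exact (hball y hy).1.le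
  have h3 : ∫ y in Metric.ball x r, uniqBR R y * P y ≤ ∫ y in D, uniqBR R y * P y := by
    refine setIntegral_mono_set hint ?_ hsub.eventuallyLE
    exact Eventually.of_forall fun y => mul_nonneg (uniqBR_nonneg R y) (hP0 y)
  have h4 : ∫ y in Metric.ball x r, P x / 2 = P x / 2 * V := by
    rw [setIntegral_const, smul_eq_mul, mul_comm]
    rfl
  have h5 : P x / 2 * V ≤ C / R := by
    rw [← h4]
    exact (h2.trans h3).trans hle
  have h6 : P x / 2 * V * R ≤ C := by rwa [le_div_iff₀ hRpos] at h5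
  have h7 : |C| / (P x / 2 * V) + 1 ≤ R := le_max_right _ _
  have hm : 0 < P x / 2 * V := by positivity
  have h8 : P x / 2 * V * (|C| / (P x / 2 * V) + 1) ≤ P x / 2 * V * R :=
    mul_le_mul_of_nonneg_left h7 hm.le
  have h9 : P x / 2 * V * (|C| / (P x / 2 * V) + 1) = |C| + P x / 2 * V := by
    field_simp
  have := le_abs_self C
  linarith

theorem uniq_le (hD : IsOpen D) (hDc : Dᶜ.Nonempty) (hA : IsEll A D) (h : IsPot A D u G)
    (h' : IsPot A D u' G') {δ : ℝ} (hδ : 0 < δ) {x : E3} (hx : x ∈ D) : u x - u' x ≤ δ := by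
  have hz := uniq_hz hD h h'
  have hg := uniqG_hasFDerivAt hD (uniq_z0 h h') (uniq_zc h h') hδ hz
  have h0 : ∀ y, fderiv ℝ (uniqG D (fun y => u y - u' y) δ) y = 0 := by
    intro y
    rw [(hg y).fderiv, uniqG']
    split_ifs with hy
    · rcases mul_eq_zero.1 (uniq_zero hD hA h h' hδ hy) with h1 | h1
      · rw [h1, zero_smul]
      · have h2 : G y - G' y = 0 := by
          rwa [pow_eq_zero_iff two_ne_zero, norm_eq_zero] at h1
        rw [h2, map_zero, smul_zero]
    · rfl
  have hdiff : Differentiable ℝ (uniqG D (fun y => u y - u' y) δ) := fun y => (hg y).differentiableAt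
  obtain ⟨y, hy⟩ := hDc
  have h1 := is_const_of_fderiv_eq_zero hdiff h0 x y
  have h2 : uniqG D (fun y => u y - u' y) δ y = 0 := by rw [uniqG, if_neg hy]
  rw [h2, uniqG, if_pos hx] at h1
  have h3 : max (u x - u' x - δ) 0 = 0 := by
    unfold uniqF at h1
    exact (pow_eq_zero_iff two_ne_zero).1 h1
  have h4 : u x - u' x - δ ≤ 0 := by
    have := le_max_left (u x - u' x - δ) 0
    linarith
  linarith

theorem uniq_eq (hD : IsOpen D) (hDc : Dᶜ.Nonempty) (hA : IsEll A D) (h : IsPot A D u G)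
    (h' : IsPot A D u' G') {x : E3} (hx : x ∈ D) : u x = u' x := by
  apply le_antisymm
  · refine le_of_forall_pos_le_add fun δ hδ => ?_
    have := uniq_le hD hDc hA h h' hδ hx
    linarith
  · refine le_of_forall_pos_le_add fun δ hδ => ?_
    have := uniq_le hD hDc hA h' h hδ hx
    linarith

end

theorem IsPot.unique {A : E3 → M3} {D : Set E3} {u u' : E3 → ℝ} {G G' : E3 → E3}
    (hD : IsOpen D) (hDc : Dᶜ.Nonempty) (hA : IsEll A D) (h : IsPot A D u G)
    (h' : IsPot A D u' G') : (∀ x ∈ closure D, u x = u' x) ∧ ∀ x ∈ closure D, G x = G' x := by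
  have h1 : ∀ x ∈ D, u x = u' x := fun x hx => uniq_eq hD hDc hA h h' hx
  refine ⟨fun x hx => ?_, ?_⟩
  · by_cases hxD : x ∈ D
    · exact h1 x hxD
    · have hfr : x ∈ frontier D := by
        rw [frontier, hD.interior_eq]; exact ⟨hx, hxD⟩
      rw [h.zero x hfr, h'.zero x hfr]
  · have h2 : Set.EqOn G G' D := by
      intro x hx
      have hn : closure D ∈ 𝓝 x := mem_of_superset (hD.mem_nhds hx) subset_closure
      have d1 := (h.grad x (subset_closure hx)).hasFDerivAt hn
      have d2 := (h'.grad x (subset_closure hx)).hasFDerivAt hn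
      have d3 : HasFDerivAt u (innerSL ℝ (G' x)) x := by
        refine d2.congr_of_eventuallyEq ?_
        filter_upwards [hD.mem_nhds hx] with y hy
        exact h1 y hy
      have d4 := d1.unique d3
      ext i
      have := congrArg (fun L : E3 →L[ℝ] ℝ => L (bv i)) d4
      simp only [uniq_inner_bv] at this
      exact this
    exact h2.of_subset_closure h.gcont h'.gcont subset_closure subset_rfl

end

end Pool.Agent.BS
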