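import Pool.Agent.BS.Par
import Pool.Agent.BS.AngCmp
import Pool.Agent.BS.Uniq
import Pool.Agent.BS.Comp

/-!
# Module ANGNAT: naturality
-/

namespace Pool.Agent.BS

open MeasureTheory Topology Set Filter
open scoped ContDiff

noncomputable section

/-! ### The affine homeomorphism -/

/-- `y ↦ t + s y` -/
def angnatAff (t : E3) (s : ℝ) (hs : s ≠ 0) : E3 ≃ₜ E3 :=
  (Homeomorph.smulOfNeZero s hs).trans (Homeomorph.addLeft t)

theorem angnatAff_apply (t : E3) (s : ℝ) (hs : s ≠ 0) (y : E3) :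
    angnatAff t s hs y = t + s • y := rfl

theorem angnatAff_hasFDerivAt (t : E3) (s : ℝ) (hs : s ≠ 0) (y : E3) :
    HasFDerivAt (angnatAff t s hs) (s • ContinuousLinearMap.id ℝ E3) y := by
  have h : HasFDerivAt (fun y : E3 => t + s • y) (s • ContinuousLinearMap.id ℝ E3) y :=
    ((hasFDerivAt_id y).const_smul s).const_add t
  exact h

theorem angnatAff_DM (t : E3) (s : ℝ) (hs : s ≠ 0) (y : E3) (i j : Fin 3) :
    DM (angnatAff t s hs) y i j = s * dl i j := by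
  rw [DM, (angnatAff_hasFDerivAt t s hs y).fderiv]
  simp [bv, dl]

theorem angnatAff_det (t : E3) (s : ℝ) (hs : s ≠ 0) (y : E3) :
    det3 (DM (angnatAff t s hs) y) = s ^ 3 := by
  rw [det3, Matrix.det_fin_three]
  simp only [Matrix.of_apply, angnatAff_DM, dl]
  simp
  ring

theorem angnatAff_GD (t : E3) (s : ℝ) (hs : 0 < s) : IsGD (angnatAff t s hs.ne') := by
  refine ⟨?_, fun y => ?_, ⟨max s s⁻¹, fun y v => ?_⟩⟩
  · have h : ContDiff ℝ 1 (fun y : E3 => t + s • y) := by fun_prop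
    exact h
  · rw [angnatAff_det]; positivity
  · rw [(angnatAff_hasFDerivAt t s hs.ne' y).fderiv]
    have h1 : ‖(s • ContinuousLinearMap.id ℝ E3) v‖ = s * ‖v‖ := by
      rw [smul_apply, ContinuousLinearMap.id_apply, norm_smul, Real.norm_of_nonneg hs.le]
    rw [h1]
    constructor
    · exact mul_le_mul_of_nonneg_right (le_max_left _ _) (norm_nonneg _)
    · calc ‖v‖ = s⁻¹ * (s * ‖v‖) := by field_simp
        _ ≤ max s s⁻¹ * (s * ‖v‖) :=
          mul_le_mul_of_nonneg_right (le_max_right _ _) (by positivity)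

/-! ### Continuity of the pull-back -/

theorem angnat_pb_cont {Φ : E3 ≃ₜ E3} (hΦ : IsGD Φ) {A : E3 → M3} (hA : Continuous A)
    {ψ : E3 → E3} (hψ : ∀ y, Φ y = ψ y) : Continuous (pbM ψ A) := by
  have e : ψ = Φ := (funext hψ).symm
  rw [e]
  have hM : Continuous (fun y => Matrix.of (DM Φ y)) := by
    refine continuous_matrix (fun i j => ?_)
    have h1 : Continuous (fun y => fderiv ℝ Φ y) := hΦ.c1.continuous_fderiv (by simp)
    have h2 : Continuous (fun y => fderiv ℝ Φ y (bv j)) := h1.clm_apply continuous_const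
    exact (EuclideanSpace.proj (𝕜 := ℝ) i).continuous.comp h2
  have hdet : Continuous (fun y => det3 (DM Φ y)) := by
    show Continuous (fun y => Matrix.det (Matrix.of (DM Φ y)))
    exact hM.matrix_det
  have hinv : Continuous (fun y => (Matrix.of (DM Φ y))⁻¹) := by
    simp only [Matrix.inv_def, Ring.inverse_eq_inv']
    exact (hdet.inv₀ (fun y => (hΦ.det y).ne')).smul hM.matrix_adjugate
  have hA2 : Continuous (fun y => Matrix.of (A (Φ y))) := by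
    refine continuous_matrix (fun i j => ?_)
    exact (continuous_apply_apply i j).comp (hA.comp Φ.continuous)
  refine continuous_pi (fun i => continuous_pi (fun j => ?_))
  refine hdet.mul ?_
  exact ((hinv.mul hA2).mul hinv.matrix_transpose).matrix_elem i j

/-! ### Values at parameter zero -/

theorem angnat_psiL_zero (θ₀ : S2) : psiL θ₀ 0 = id := by
  funext y
  simp only [psiL, Prod.fst_zero, Prod.snd_zero, Rot_zero]
  simp

theorem angnat_DM_id (y : E3) (i j : Fin 3) : DM id y i j = dl i j := by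
  rw [DM, fderiv_id]
  simp [bv, dl]

theorem angnat_HL_zero (A : E3 → M3) (θ₀ : S2) : HL A θ₀ 0 = fun x i j => A x i j - dl i j := by
  funext y i j
  rw [HL, angnat_psiL_zero, pbM]
  have h1 : Matrix.of (DM id y) = 1 := by
    ext i j
    rw [Matrix.of_apply, angnat_DM_id, Matrix.one_apply, dl]
  have h2 : det3 (DM id y) = 1 := by
    rw [det3, h1, Matrix.det_one]
  rw [h2, h1]
  simp

/-! ### The regions -/

theorem angnat_wS_le (w : Xs) (θ : S2) : |wS w.1 θ| ≤ ‖w‖ := by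
  refine ((w.1 0).abs_apply_le _).trans ?_
  exact norm_le_pi_norm w.1 0

theorem angnat_starR_norm {w : Xs} (hw : ‖w‖ ≤ 1) {x : E3} (hx : x ∈ starR 0 1 (wS w.1)) :
    ‖x‖ ≤ 2 := by
  obtain ⟨s, θ, h0, h1, rfl⟩ := hx
  have h2 := abs_le.1 (angnat_wS_le w θ)
  rw [zero_add, norm_smul, norm_S2, mul_one, mul_one, Real.norm_eq_abs, abs_le]
  have h3 : 0 ≤ 1 + wS w.1 θ := by linarith
  have h4 : s * (1 + wS w.1 θ) ≤ 1 * (1 + wS w.1 θ) := mul_le_mul_of_nonneg_right h1 h3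
  constructor
  · have := mul_nonneg h0 h3
    linarith
  · linarith

theorem angnat_closure_Ext {θ : S2} : (θ : E3) ∈ closure Ext := by
  have h1 : Tendsto (fun n : ℕ => (1 + 1 / ((n : ℝ) + 1)) • (θ : E3)) atTop
      (𝓝 ((1 + 0 : ℝ) • (θ : E3))) :=
    (tendsto_const_nhds.add tendsto_one_div_add_atTop_nhds_zero_nat).smul_const _
  rw [add_zero, one_smul] at h1
  refine mem_closure_of_tendsto h1 (Eventually.of_forall (fun n => ?_))
  show 1 < ‖(1 + 1 / ((n : ℝ) + 1)) • (θ : E3)‖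
  have : 0 < 1 / ((n : ℝ) + 1) := by positivity
  rw [norm_smul, norm_S2, mul_one, Real.norm_of_nonneg (by positivity)]
  linarith

theorem angnat_isOpen_Ext : IsOpen Ext := isOpen_lt continuous_const continuous_norm

theorem angnat_Psi_S2 (w : S2 → ℝ) (θ : S2) : Psi w (θ : E3) = (1 + w θ) • (θ : E3) := by
  rw [Psi, norm_S2, dirS_S2, chi_eq_one (by norm_num) (by norm_num), one_mul]

/-- the core of the naturality statement -/
theorem angnat_core {A : E3 → M3} {Al A' : E3 → M3} {Φ Φ' Φp : E3 ≃ₜ E3} {w w' : Xs}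
    {t : E3} {s : ℝ} (hs : 0 < s) (hAc : Continuous A)
    (hGD : IsGD Φp) (hPB : IsPB Φp 1 A Al univ)
    (hΦ : ∀ y, Φ y = Psi (wS w.1) y) (hΦ' : ∀ y, Φ' y = Psi (wS w'.1) y)
    (hE : Φ '' Ext = (starR 0 1 (wS w.1))ᶜ) (hE' : Φ' '' Ext = (starR 0 1 (wS w'.1))ᶜ)
    (hw : ‖w‖ ≤ 1) (ρ : E3 ≃ₗᵢ[ℝ] E3) (hp : ∀ y, ‖y‖ ≤ 2 → Φp y = t + s • ρ y)
    (hww : ∀ θ θ' : S2, ρ (θ : E3) = θ' → wS w'.1 θ' = wS w.1 θ)
    (hA' : ∀ y, A' y = A (t + s • y))
    {u : E3 → ℝ} {G : E3 → E3} (hu : IsPot Al (Φ '' Ext) u G)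
    {u' : E3 → ℝ} {G' : E3 → E3} (hu' : IsPot A' (Φ' '' Ext) u' G')
    (hell : IsEll A' (Φ' '' Ext)) (hdet : ∀ x ∈ closure (Φ' '' Ext), 0 < det3 (A' x))
    (θ θ' : S2) (hθ : ρ (θ : E3) = θ') :
    bq (A' (Φ' θ')) (G' (Φ' θ')) = s ^ 2 * bq (Al (Φ θ)) (G (Φ θ)) := by
  set Ψ := angnatAff t s hs.ne' with hΨ
  have hΨGD : IsGD Ψ := angnatAff_GD t s hs
  have hsi : 0 < s⁻¹ := inv_pos.2 hs
  have hPB' : IsPB Ψ s⁻¹ A A' univ := by
    intro y _ i j
    simp only [hΨ, angnatAff_det, angnatAff_DM, hA', angnatAff_apply]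
    have h1 : ∀ k l : Fin 3, s * dl i k * A (t + s • y) k l * (s * dl j l) =
        if k = i then (if l = j then s ^ 2 * A (t + s • y) i j else 0) else 0 := by
      intro k l
      simp only [dl]
      by_cases hk : k = i
      · subst hk
        by_cases hl : l = j
        · subst hl; simp; ring
        · have hl' : ¬ j = l := fun h => hl h.symm
          simp [hl, hl']
      · rw [if_neg (fun h => hk h.symm), if_neg hk]; simp
    simp only [h1]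
    rw [Finset.sum_eq_single i (by intro k _ hk; simp [hk]) (by simp)]
    simp only [if_true]
    rw [Finset.sum_ite_eq' Finset.univ j, if_pos (Finset.mem_univ _)]
    field_simp
  have hopen : IsOpen (Φ '' Ext) := Φ.isOpenMap _ angnat_isOpen_Ext
  have hopen' : IsOpen (Φ' '' Ext) := Φ'.isOpenMap _ angnat_isOpen_Ext
  obtain ⟨G1, hG1, hG1'⟩ := hu.map Φp hGD one_pos hopen (fun y _ => hPB y (mem_univ y))
  obtain ⟨G2, hG2, hG2'⟩ := hu'.map Ψ hΨGD hsi hopen' (fun y _ => hPB' y (mem_univ y))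
  -- the two domains agree
  have hdom : Ψ '' (Φ' '' Ext) = Φp '' (Φ '' Ext) := by
    rw [hE, hE', image_compl_eq Ψ.bijective, image_compl_eq Φp.bijective]
    congr 1
    ext x
    constructor
    · rintro ⟨y, ⟨r, η, h0, h1, rfl⟩, rfl⟩
      have hn : ‖ρ.symm (η : E3)‖ = 1 := by rw [ρ.symm.norm_map, norm_S2]
      let η0 : S2 := ⟨ρ.symm (η : E3), mem_sphere_zero_iff_norm.2 hn⟩
      have hη : ρ (η0 : E3) = η := ρ.apply_symm_apply _
      have hm : (0 : E3) + (r * 1 * (1 + wS w.1 η0)) • (η0 : E3) ∈ starR 0 1 (wS w.1) :=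
        ⟨r, η0, h0, h1, rfl⟩
      refine ⟨_, hm, ?_⟩
      rw [hp _ (angnat_starR_norm hw hm), hΨ, angnatAff_apply, zero_add, zero_add, map_smul, hη,
        hww η0 η hη]
    · rintro ⟨y, hy, rfl⟩
      have hy2 := angnat_starR_norm hw hy
      obtain ⟨r, η, h0, h1, rfl⟩ := hy
      have hn : ‖ρ (η : E3)‖ = 1 := by rw [ρ.norm_map, norm_S2]
      let η1 : S2 := ⟨ρ (η : E3), mem_sphere_zero_iff_norm.2 hn⟩
      have hη : ρ (η : E3) = η1 := rfl
      refine ⟨(0 : E3) + (r * 1 * (1 + wS w'.1 η1)) • (η1 : E3), ⟨r, η1, h0, h1, rfl⟩, ?_⟩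
      rw [hp _ hy2, hΨ, angnatAff_apply, zero_add, zero_add, map_smul, hη, hww η η1 hη]
  have hDopen : IsOpen (Ψ '' (Φ' '' Ext)) := Ψ.isOpenMap _ hopen'
  have hDc : (Ψ '' (Φ' '' Ext))ᶜ.Nonempty := by
    refine ⟨Ψ (Φ' 0), ?_⟩
    rintro ⟨y, ⟨z, hz, rfl⟩, hy⟩
    have h0 : z = 0 := Φ'.injective (Ψ.injective hy)
    rw [h0] at hz
    have : (1 : ℝ) < ‖(0 : E3)‖ := hz
    rw [norm_zero] at this
    linarith
  have hAΨ : ∀ y, A (Ψ y) = A' y := fun y => (hA' y).symm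
  have hEll : IsEll A (Ψ '' (Φ' '' Ext)) := by
    obtain ⟨_, ⟨C, hC⟩, ⟨c, hc, hc'⟩⟩ := hell
    refine ⟨hAc.continuousOn, ⟨C, ?_⟩, ⟨c, hc, ?_⟩⟩
    · rintro _ ⟨y, hy, rfl⟩ i j
      rw [hAΨ]; exact hC y hy i j
    · rintro _ ⟨y, hy, rfl⟩ v
      rw [hAΨ]; exact hc' y hy v
  rw [← hdom] at hG1
  have huniq := (IsPot.unique hDopen hDc hEll hG1 hG2).2
  -- the boundary point
  have hcl : Φ θ ∈ closure (Φ '' Ext) := by
    rw [← Φ.image_closure]
    exact mem_image_of_mem _ angnat_closure_Ext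
  have hcl' : Φ' θ' ∈ closure (Φ' '' Ext) := by
    rw [← Φ'.image_closure]
    exact mem_image_of_mem _ angnat_closure_Ext
  have hpt : Φp (Φ θ) = Ψ (Φ' θ') := by
    rw [hΦ, hΦ', angnat_Psi_S2, angnat_Psi_S2, hp, hΨ, angnatAff_apply, map_smul, hθ,
      hww θ θ' hθ]
    have h2 := abs_le.1 (angnat_wS_le w θ)
    rw [norm_smul, norm_S2, mul_one, Real.norm_eq_abs, abs_le]
    constructor <;> linarith
  have hclD : Ψ (Φ' θ') ∈ closure (Ψ '' (Φ' '' Ext)) := by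
    rw [← Ψ.image_closure]
    exact mem_image_of_mem _ hcl'
  have hGG : G1 (Φp (Φ θ)) = G2 (Ψ (Φ' θ')) := by
    rw [hpt]; exact huniq _ hclD
  have hdetA : 0 < det3 (A (Ψ (Φ' θ'))) := by
    rw [hAΨ]; exact hdet _ hcl'
  have e1 : bq (Al (Φ θ)) (G (Φ θ)) = (1 : ℝ)⁻¹ ^ 2 * bq (A (Φp (Φ θ))) (G1 (Φp (Φ θ))) :=
    bq_map one_pos (hGD.det _) (by rw [hpt]; exact hdetA) (hPB _ (mem_univ _)) (hG1' _ hcl)
  have e2 : bq (A' (Φ' θ')) (G' (Φ' θ')) =
      (s⁻¹)⁻¹ ^ 2 * bq (A (Ψ (Φ' θ'))) (G2 (Ψ (Φ' θ'))) :=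
    bq_map hsi (hΨGD.det _) hdetA (hPB' _ (mem_univ _)) (hG2' _ hcl')
  rw [e2, e1, hGG, hpt, inv_inv, inv_one, one_pow, one_mul]

/-- ANG3: naturality -/
theorem ang_nat : ∃ δ : ℝ, 0 < δ ∧ ∀ (H : E3 → M3) (b₁ : E3) (R₁ : ℝ) (θ₀ : S2), 0 < R₁ →
    (∀ i j, ContDiff ℝ ∞ (fun x => H x i j)) →
    (∀ i j, SB2 δ (fun x => HbR H b₁ R₁ x i j)) →
    ∀ w : Xs, ‖w‖ < δ → ∀ᶠ q : Xs × (E3 × ℝ × E3) in 𝓝 (w, 0), ∀ (b : E3) (R : ℝ) (w' : Xs),
      b = b₁ + R₁ • q.2.1 → R = R₁ * (1 + q.2.2.1) →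
      (∀ θ θ' : S2, Rot θ₀ q.2.2.2 (θ : E3) = θ' → wS w'.1 θ' = wS q.1.1 θ) → ‖w'‖ ≤ 4 * ‖q.1‖ →
      (∀ i j, SB2 δ (fun x => HbR H b R x i j)) →
      ∀ θ θ' : S2, Rot θ₀ q.2.2.2 (θ : E3) = θ' →
        Gam (w'.1, cmp (HbR H b R) w'.1) (toOm θ') = (1 + q.2.2.1) ^ 2 *
          Gam (q.1.1, cmp (HL (fun x i j => dl i j + HbR H b₁ R₁ x i j) θ₀ q.2) q.1.1)
            (toOm θ) := by
  obtain ⟨δ1, hδ1, hcmp⟩ := ang_cmp
  obtain ⟨δ2, hδ2, hpar⟩ := par_pot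
  obtain ⟨δ3, hδ3, hPsi⟩ := Psi_homeo
  obtain ⟨δ4, C4, hδ4, hδ4', hC4, hcb, -⟩ := comp_bounds
  -- choice of δ
  obtain ⟨δ, hδ, hd1, hd2, hd3, hd4, hd5⟩ : ∃ δ : ℝ, 0 < δ ∧ δ ≤ δ1 ∧ 4 * δ ≤ δ2 ∧ 4 * δ ≤ δ3 ∧
      4 * δ ≤ δ4 ∧ C4 * δ ≤ δ2 / 2 := by
    refine ⟨min (min δ1 (δ2 / 4)) (min (min (δ3 / 4) (δ4 / 4)) (δ2 / 2 / C4)), by positivity,
      ?_, ?_, ?_, ?_, ?_⟩
    · exact (min_le_left _ _).trans (min_le_left _ _)
    · have := (min_le_left (min δ1 (δ2 / 4)) (min (min (δ3 / 4) (δ4 / 4)) (δ2 / 2 / C4))).trans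
        (min_le_right _ _)
      linarith
    · have := (min_le_right (min δ1 (δ2 / 4)) (min (min (δ3 / 4) (δ4 / 4)) (δ2 / 2 / C4))).trans
        ((min_le_left _ _).trans (min_le_left _ _))
      linarith
    · have := (min_le_right (min δ1 (δ2 / 4)) (min (min (δ3 / 4) (δ4 / 4)) (δ2 / 2 / C4))).trans
        ((min_le_left _ _).trans (min_le_right _ _))
      linarith
    · have := (min_le_right (min δ1 (δ2 / 4)) (min (min (δ3 / 4) (δ4 / 4)) (δ2 / 2 / C4))).trans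
        (min_le_right _ _)
      calc C4 * _ ≤ C4 * (δ2 / 2 / C4) := mul_le_mul_of_nonneg_left this hC4.le
        _ = δ2 / 2 := by field_simp
  refine ⟨δ, hδ, fun H b₁ R₁ θ₀ hR₁ hH hSB w hw => ?_⟩
  obtain ⟨δ5, hδ5, hpsi⟩ := psiL_homeo θ₀
  -- the coefficient field
  set A : E3 → M3 := fun x i j => dl i j + HbR H b₁ R₁ x i j with hA
  have hHb : ∀ i j, ContDiff ℝ ∞ (fun x => HbR H b₁ R₁ x i j) := by
    intro i j
    have h1 : ContDiff ℝ ∞ (fun y : E3 => b₁ + R₁ • y) := by fun_prop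
    exact (hH i j).comp h1
  have hAs : ∀ i j, ContDiff ℝ ∞ (fun x => A x i j) := fun i j => contDiff_const.add (hHb i j)
  have hAc : Continuous A := continuous_pi (fun i => continuous_pi (fun j => (hAs i j).continuous))
  have hAd : (fun x i j => A x i j - dl i j) = HbR H b₁ R₁ := by
    funext x i j; simp [hA]
  have hSB' : ∀ i j, SB2 δ (fun x => A x i j - dl i j) := by
    intro i j
    have := hSB i j
    have e : (fun x => A x i j - dl i j) = fun x => HbR H b₁ R₁ x i j := by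
      funext x; simp [hA]
    rw [e]; exact this
  obtain ⟨hc1, hc2⟩ := hcmp A δ θ₀ (fun i j => (hAs i j).contDiffOn) hSB' w (hw.trans_le hd1)
  have hwδ4 : ‖w‖ ≤ δ4 := by linarith
  have hsmall0 : ‖cmp (HL A θ₀ 0) w.1‖ < δ2 := by
    rw [angnat_HL_zero, hAd]
    have := (hcb (HbR H b₁ R₁) δ hδ.le hSB w hwδ4).1
    linarith
  have hev1 : ∀ᶠ q : Xs × (E3 × ℝ × E3) in 𝓝 (w, 0), ‖cmp (HL A θ₀ q.2) q.1.1‖ < δ2 :=
    (hc1.continuousAt.norm).eventually_lt_const hsmall0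
  have hev2 : ∀ᶠ q : Xs × (E3 × ℝ × E3) in 𝓝 (w, 0), ‖q.1‖ < δ :=
    (continuous_fst.norm.continuousAt (x := ((w, 0) : Xs × (E3 × ℝ × E3)))).eventually_lt_const hw
  have hev3 : ∀ᶠ q : Xs × (E3 × ℝ × E3) in 𝓝 (w, 0), ‖q.2‖ < min δ5 1 := by
    have h0 : ‖((w, 0) : Xs × (E3 × ℝ × E3)).2‖ < min δ5 1 := by
      simp only [norm_zero]
      exact lt_min hδ5 one_pos
    exact (continuous_snd.norm.continuousAt (x := ((w, 0) : Xs × (E3 × ℝ × E3)))).eventually_lt_const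
      h0
  filter_upwards [hc2, hev1, hev2, hev3] with q hq1 hq2 hq3 hq4 b R w' hb hR hrot hw' hSBb θ θ' hθ
  have hq5 : ‖q.2‖ < δ5 := hq4.trans_le (min_le_left _ _)
  have hq6 : ‖q.2‖ < 1 := hq4.trans_le (min_le_right _ _)
  have hv : ‖q.2.2.2‖ < 1 :=
    ((norm_snd_le q.2.2).trans (norm_snd_le q.2)).trans_lt hq6
  have hσ : |q.2.2.1| < 1 :=
    ((norm_fst_le q.2.2).trans (norm_snd_le q.2)).trans_lt hq6
  have hs : 0 < 1 + q.2.2.1 := by
    have := (abs_lt.1 hσ).1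
    linarith
  obtain ⟨ρ, hρ, -, -⟩ := Rot_isom θ₀ q.2.2.2 hv
  obtain ⟨Φp, hΦp1, hΦp2, -, hΦp3, hΦp4⟩ := hpsi q.2 hq5
  have hw1 : ‖q.1‖ ≤ δ3 := by linarith
  have hw2 : ‖w'‖ ≤ δ3 := by linarith
  obtain ⟨Φ, hΦ1, hΦ2, -, -, -, hΦ3⟩ := hPsi q.1 hw1
  obtain ⟨Φ', hΦ'1, hΦ'2, -, -, -, hΦ'3⟩ := hPsi w' hw2
  -- potential 1
  have hAl : Continuous (pbM (psiL θ₀ q.2) A) := angnat_pb_cont hΦp2 hAc hΦp1
  obtain ⟨u, G, hu, -, -, -, hG⟩ := hpar q.1 (pbM (psiL θ₀ q.2) A) Φ hΦ2 hΦ1 hAl.continuousOn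
    (by linarith) hq2.le (fun i j x => hq1 i j x)
  -- potential 2
  set A' : E3 → M3 := fun x i j => dl i j + HbR H b R x i j with hA'
  have hA'd : (fun x i j => A' x i j - dl i j) = HbR H b R := by
    funext x i j; simp [hA']
  have hw3 : ‖w'‖ ≤ δ4 := by linarith
  obtain ⟨hn, hf, -⟩ := hcb (HbR H b R) δ hδ.le hSBb w' hw3
  have hHbR : ∀ i j, ContDiff ℝ ∞ (fun x => HbR H b R x i j) := by
    intro i j
    have h1 : ContDiff ℝ ∞ (fun y : E3 => b + R • y) := by fun_prop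
    exact (hH i j).comp h1
  have hA'c : Continuous A' := continuous_pi (fun i => continuous_pi (fun j =>
    (contDiff_const.add (hHbR i j)).continuous))
  obtain ⟨u', G', hu', -, hell, hdet, hG'⟩ := hpar w' A' Φ' hΦ'2 hΦ'1 hA'c.continuousOn
    (by linarith) (by rw [hA'd]; linarith) (by
      intro i j x
      rw [hA'd, hf]
      simp [hA'])
  have hAA' : ∀ y, A' y = A (q.2.1 + (1 + q.2.2.1) • y) := by
    intro y
    funext i j
    have e : b + R • y = b₁ + R₁ • (q.2.1 + (1 + q.2.2.1) • y) := by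
      rw [hb, hR, smul_add, smul_smul, add_assoc]
    simp only [hA', hA, HbR, e]
  have key := angnat_core (A := A) (Al := pbM (psiL θ₀ q.2) A) (A' := A') (Φ := Φ) (Φ' := Φ')
    (Φp := Φp) (w := q.1) (w' := w') (t := q.2.1) (s := 1 + q.2.2.1) hs hAc hΦp2
    (by
      have := hΦp4 A
      exact this) hΦ1 hΦ'1 hΦ3 hΦ'3 (by linarith) ρ (by
      intro y hy
      rw [hΦp3 y hy, hρ]) (by
      intro η η' h
      rw [hρ] at h
      exact hrot η η' h) hAA' hu hu' hell hdet θ θ' (by rw [hρ]; exact hθ)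
  rw [hG θ, hG' θ'] at key
  have e1 : (fun x i j => pbM (psiL θ₀ q.2) A x i j - dl i j) = HL A θ₀ q.2 := rfl
  rw [e1, hA'd] at key
  exact key

end

end Pool.Agent.BS
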