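import Pool.Agent.BS.Defs2

/-!
# Polar coordinates in `E3`
-/

namespace Pool.Agent.BS

open MeasureTheory Topology Set Filter

noncomputable section

theorem polar_finrank : Module.finrank ℝ E3 - 1 = 2 := by simp

theorem polar_mp : MeasurePreserving (homeomorphUnitSphereProd E3)
    ((volume : Measure E3).comap (Subtype.val : ({0}ᶜ : Set E3) → E3))
    (sig.prod (Measure.volumeIoiPow 2)) := by
  have h := (volume : Measure E3).measurePreserving_homeomorphUnitSphereProd
  rw [polar_finrank] at h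
  exact h

theorem polar_integrable {f : E3 → ℝ} (hf : Integrable f) :
    Integrable (fun p : S2 × Ioi (0 : ℝ) => f ((p.2 : ℝ) • (p.1 : E3)))
      (sig.prod (Measure.volumeIoiPow 2)) := by
  have h := polar_mp.integrable_comp_emb (g := fun p : S2 × Ioi (0 : ℝ) => f ((p.2 : ℝ) • (p.1 : E3)))
    (Homeomorph.measurableEmbedding _)
  rw [← h]
  have h2 : ((fun p : S2 × Ioi (0 : ℝ) => f ((p.2 : ℝ) • (p.1 : E3))) ∘
      (homeomorphUnitSphereProd E3)) = fun x : ({0}ᶜ : Set E3) => f x := by
    funext x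
    have hx := congrArg Subtype.val ((homeomorphUnitSphereProd E3).symm_apply_apply x)
    rw [homeomorphUnitSphereProd_symm_apply_coe] at hx
    simp only [Function.comp_apply]
    rw [hx]
  rw [h2]
  exact (integrableOn_iff_comap_subtypeVal (measurableSet_singleton (0 : E3)).compl).1
    hf.integrableOn

theorem polar_integral_prod {f : E3 → ℝ} :
    ∫ x, f x = ∫ p : S2 × Ioi (0 : ℝ), f ((p.2 : ℝ) • (p.1 : E3))
      ∂(sig.prod (Measure.volumeIoiPow 2)) := by
  have h := polar_mp.integral_comp (Homeomorph.measurableEmbedding _)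
    (fun p : S2 × Ioi (0 : ℝ) => f ((p.2 : ℝ) • (p.1 : E3)))
  rw [← h]
  have h2 : ∀ x : ({0}ᶜ : Set E3), f ((((homeomorphUnitSphereProd E3) x).2 : ℝ) •
      (((homeomorphUnitSphereProd E3) x).1 : E3)) = f x := by
    intro x
    have hx := congrArg Subtype.val ((homeomorphUnitSphereProd E3).symm_apply_apply x)
    rw [homeomorphUnitSphereProd_symm_apply_coe] at hx
    rw [hx]
  simp only [h2]
  rw [integral_subtype_comap (measurableSet_singleton (0 : E3)).compl f]
  rw [restrict_compl_singleton]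

theorem polar_wd (g : ℝ → ℝ) : ∫ r : Ioi (0 : ℝ), g r ∂(Measure.volumeIoiPow 2) =
    ∫ r in Ioi (0 : ℝ), r ^ 2 * g r := by
  simp only [Measure.volumeIoiPow, ENNReal.ofReal]
  rw [integral_withDensity_eq_integral_smul]
  · rw [integral_subtype_comap measurableSet_Ioi fun a ↦ Real.toNNReal (a ^ 2) • g a]
    refine setIntegral_congr_fun measurableSet_Ioi fun x hx => ?_
    rw [NNReal.smul_def, Real.coe_toNNReal _ (pow_nonneg (le_of_lt hx) _), smul_eq_mul]
  · exact (measurable_subtype_coe.pow_const _).real_toNNReal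

theorem polar_wd_int (g : ℝ → ℝ) : Integrable (fun r : Ioi (0 : ℝ) => g r)
    (Measure.volumeIoiPow 2) ↔ IntegrableOn (fun r => r ^ 2 * g r) (Ioi 0) := by
  rw [Measure.volumeIoiPow, integrable_withDensity_iff_integrable_smul',
    integrableOn_iff_comap_subtypeVal measurableSet_Ioi]
  · refine integrable_congr (Eventually.of_forall ?_)
    rintro ⟨x, hx : 0 < x⟩
    simp only [Function.comp_apply]
    rw [ENNReal.toReal_ofReal (by positivity), smul_eq_mul]
  · fun_prop
  · simp

/-- integration in polar coordinates -/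
theorem polar_integral {f : E3 → ℝ} (hf : Integrable f) :
    ∫ x, f x = ∫ r in Ioi (0 : ℝ), r ^ 2 * ∫ θ : S2, f (r • (θ : E3)) ∂sig := by
  rw [polar_integral_prod, integral_prod_symm _ (polar_integrable hf)]
  exact polar_wd (fun r => ∫ θ : S2, f (r • (θ : E3)) ∂sig)

theorem polar_integrableOn {f : E3 → ℝ} (hf : Integrable f) :
    IntegrableOn (fun r => r ^ 2 * ∫ θ : S2, f (r • (θ : E3)) ∂sig) (Ioi 0) :=
  (polar_wd_int (fun r => ∫ θ : S2, f (r • (θ : E3)) ∂sig)).1
    (polar_integrable hf).integral_prod_right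

theorem polar_ind (f : E3 → ℝ) (S : Set ℝ) {r : ℝ} (hr : 0 < r) :
    r ^ 2 * ∫ θ : S2, ({x : E3 | ‖x‖ ∈ S}.indicator f) (r • (θ : E3)) ∂sig =
      S.indicator (fun r => r ^ 2 * ∫ θ : S2, f (r • (θ : E3)) ∂sig) r := by
  have h1 : ∀ θ : S2, ‖r • (θ : E3)‖ = r := fun θ => by
    rw [norm_smul, norm_S2, mul_one, Real.norm_of_nonneg hr.le]
  by_cases h : r ∈ S
  · rw [indicator_of_mem h]
    congr 1
    refine integral_congr_ae (Eventually.of_forall fun θ => ?_)
    refine indicator_of_mem ?_ _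
    show ‖r • (θ : E3)‖ ∈ S
    rw [h1]; exact h
  · rw [indicator_of_notMem h]
    have : ∀ θ : S2, ({x : E3 | ‖x‖ ∈ S}.indicator f) (r • (θ : E3)) = 0 := fun θ => by
      refine indicator_of_notMem ?_ _
      show ¬ (‖r • (θ : E3)‖ ∈ S)
      rw [h1]; exact h
    simp only [this, integral_zero, mul_zero]

theorem polar_meas {S : Set ℝ} (hS : MeasurableSet S) : MeasurableSet {x : E3 | ‖x‖ ∈ S} :=
  measurable_norm hS

/-- integration in polar coordinates over `{|x| ∈ S}` -/
theorem polar_setIntegral {f : E3 → ℝ} {S : Set ℝ} (hS : MeasurableSet S) (hS0 : S ⊆ Ioi 0)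
    (hf : IntegrableOn f {x : E3 | ‖x‖ ∈ S}) :
    ∫ x in {x : E3 | ‖x‖ ∈ S}, f x = ∫ r in S, r ^ 2 * ∫ θ : S2, f (r • (θ : E3)) ∂sig := by
  rw [← integral_indicator (polar_meas hS)]
  rw [polar_integral (hf.integrable_indicator (polar_meas hS))]
  rw [setIntegral_congr_fun measurableSet_Ioi (fun r hr => polar_ind f S hr)]
  rw [setIntegral_indicator hS, inter_eq_self_of_subset_right hS0]

theorem polar_setIntegrableOn {f : E3 → ℝ} {S : Set ℝ} (hS : MeasurableSet S) (hS0 : S ⊆ Ioi 0)
    (hf : IntegrableOn f {x : E3 | ‖x‖ ∈ S}) :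
    IntegrableOn (fun r => r ^ 2 * ∫ θ : S2, f (r • (θ : E3)) ∂sig) S := by
  have h := polar_integrableOn (hf.integrable_indicator (polar_meas hS))
  have h2 : IntegrableOn (S.indicator (fun r => r ^ 2 * ∫ θ : S2, f (r • (θ : E3)) ∂sig))
      (Ioi 0) := h.congr_fun (fun r hr => polar_ind f S hr) measurableSet_Ioi
  have h3 := h2.mono_set hS0
  exact h3.congr_fun (fun r hr => indicator_of_mem hr _) hS

end

end Pool.Agent.BS
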