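import Pool.Agent.BS.TMild
import Pool.Agent.BS.Polar

/-!
# Module TWEAK: weak equation
-/

namespace Pool.Agent.BS

open MeasureTheory Topology Set Filter
open scoped ContDiff

noncomputable section

/-! ### integration over the sphere as a continuous linear map -/

theorem tw_integrable (f : C(S2, ℝ)) : Integrable (fun θ => f θ) sig :=
  f.continuous.integrable_of_hasCompactSupport (HasCompactSupport.of_compactSpace _)

/-- integration over the sphere -/
def tw_I : C(S2, ℝ) →L[ℝ] ℝ :=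
  LinearMap.mkContinuous
    { toFun := fun f => ∫ θ, f θ ∂sig
      map_add' := fun f g => by
        simp only [ContinuousMap.add_apply]
        exact integral_add (tw_integrable f) (tw_integrable g)
      map_smul' := fun c f => by
        simp only [ContinuousMap.coe_smul, Pi.smul_apply, RingHom.id_apply]
        exact integral_const_mul c _ }
    (sig.real univ) (fun f => by
      have h := norm_integral_le_of_norm_le_const (μ := sig) (f := fun θ => f θ) (C := ‖f‖)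
        (Eventually.of_forall (fun θ => f.norm_coe_le_norm θ))
      rw [mul_comm] at h
      exact h)

theorem tw_I_apply (f : C(S2, ℝ)) : tw_I f = ∫ θ, f θ ∂sig := rfl

theorem tw_I_mul (f g : C(S2, ℝ)) : tw_I (f * g) = ∫ θ, f θ * g θ ∂sig := rfl

/-! ### test functions -/

section test

variable (φ : E3 → ℝ)

theorem tw_cont_sm : Continuous (fun q : ℝ × S2 => Real.exp q.1 • (q.2 : E3)) := by fun_prop

theorem tw_pd_cont {φ : E3 → ℝ} (hφ : ContDiff ℝ 1 φ) (j : Fin 3) : Continuous (pd j φ) := by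
  unfold pd
  have h := hφ.continuous_fderiv (by norm_num)
  exact h.clm_apply continuous_const

/-- `φ` on the sphere of radius `e^t` -/
def tw_Ph {φ : E3 → ℝ} (hφ : ContDiff ℝ 1 φ) : C(ℝ, C(S2, ℝ)) :=
  ContinuousMap.curry (⟨fun q : ℝ × S2 => φ (Real.exp q.1 • (q.2 : E3)),
    hφ.continuous.comp tw_cont_sm⟩ : C(ℝ × S2, ℝ))

theorem tw_Ph_apply {φ : E3 → ℝ} (hφ : ContDiff ℝ 1 φ) (t : ℝ) (θ : S2) :
    tw_Ph hφ t θ = φ (Real.exp t • (θ : E3)) := rfl

/-- `y · ∇φ` on the sphere of radius `e^t` -/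
def tw_Ph' {φ : E3 → ℝ} (hφ : ContDiff ℝ 1 φ) : C(ℝ, C(S2, ℝ)) :=
  ContinuousMap.curry (⟨fun q : ℝ × S2 => Real.exp q.1 *
    ∑ j, (q.2 : E3) j * pd j φ (Real.exp q.1 • (q.2 : E3)), by
      have h : ∀ j, Continuous (fun q : ℝ × S2 => pd j φ (Real.exp q.1 • (q.2 : E3))) :=
        fun j => (tw_pd_cont hφ j).comp tw_cont_sm
      have h2 : ∀ j : Fin 3, Continuous (fun q : ℝ × S2 => (q.2 : E3) j) := fun j => by fun_prop
      exact (by fun_prop : Continuous (fun q : ℝ × S2 => Real.exp q.1)).mul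
        (continuous_finsetSum _ (fun j _ => (h2 j).mul (h j)))⟩ : C(ℝ × S2, ℝ))

theorem tw_Ph'_apply {φ : E3 → ℝ} (hφ : ContDiff ℝ 1 φ) (t : ℝ) (θ : S2) :
    tw_Ph' hφ t θ = Real.exp t * ∑ j, (θ : E3) j * pd j φ (Real.exp t • (θ : E3)) := rfl

/-- the tangential gradient of `φ` on the sphere of radius `e^t` -/
def tw_G (φ : E3 → ℝ) (t : ℝ) (k : Fin 3) (θ : S2) : ℝ :=
  Real.exp t * (pd k φ (Real.exp t • (θ : E3)) -
    (θ : E3) k * ∑ j, (θ : E3) j * pd j φ (Real.exp t • (θ : E3)))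

/-- `L_k φ` on the sphere of radius `e^t` -/
def tw_LPh {φ : E3 → ℝ} (hφ : ContDiff ℝ 1 φ) (k : Fin 3) : C(ℝ, C(S2, ℝ)) :=
  ContinuousMap.curry (⟨fun q : ℝ × S2 => Real.exp q.1 *
    cr (fun a => (q.2 : E3) a) (fun a => pd a φ (Real.exp q.1 • (q.2 : E3))) k, by
      have h : ∀ j, Continuous (fun q : ℝ × S2 => pd j φ (Real.exp q.1 • (q.2 : E3))) :=
        fun j => (tw_pd_cont hφ j).comp tw_cont_sm
      have h2 : ∀ j : Fin 3, Continuous (fun q : ℝ × S2 => (q.2 : E3) j) := fun j => by fun_prop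
      unfold cr
      refine (by fun_prop : Continuous (fun q : ℝ × S2 => Real.exp q.1)).mul
        (continuous_finsetSum _ (fun i _ => continuous_finsetSum _ (fun j _ => ?_)))
      exact ((h2 i).mul (h j)).const_smul (eps k i j)⟩ : C(ℝ × S2, ℝ))

theorem tw_LPh_apply {φ : E3 → ℝ} (hφ : ContDiff ℝ 1 φ) (k : Fin 3) (t : ℝ) (θ : S2) :
    tw_LPh hφ k t θ = Real.exp t *
    cr (fun a => (θ : E3) a) (fun a => pd a φ (Real.exp t • (θ : E3))) k := rfl

theorem tw_cr_G (φ : E3 → ℝ) (t : ℝ) (k : Fin 3) (θ : S2) :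
    Real.exp t * cr (fun a => (θ : E3) a) (fun a => pd a φ (Real.exp t • (θ : E3))) k =
      cr (fun a => (θ : E3) a) (fun a => tw_G φ t a θ) k := by
  unfold tw_G
  fin_cases k
  · simp [cr, Fin.sum_univ_three, eps]
    ring
  · simp [cr, Fin.sum_univ_three, eps]
    ring
  · simp [cr, Fin.sum_univ_three, eps]
    ring

theorem tw_fderiv_sum (φ : E3 → ℝ) (x v : E3) : fderiv ℝ φ x v = ∑ j, v j * pd j φ x := by
  have h : v = ∑ j, v j • bv j := by
    ext i
    simp [bv, Fin.sum_univ_three]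
    fin_cases i <;> simp
  conv_lhs => rw [h]
  rw [map_sum]
  refine Finset.sum_congr rfl (fun j _ => ?_)
  rw [map_smul, smul_eq_mul]
  rfl

theorem tw_Ph_deriv {φ : E3 → ℝ} (hφ : ContDiff ℝ 1 φ) (t : ℝ) :
    HasDerivAt (fun u => tw_Ph hφ u) (tw_Ph' hφ t) t := by
  have hsc : ∀ (θ : S2) (s : ℝ), HasDerivAt (fun u => tw_Ph hφ u θ) (tw_Ph' hφ s θ) s := by
    intro θ s
    have h1 : HasDerivAt (fun u : ℝ => Real.exp u • (θ : E3)) (Real.exp s • (θ : E3)) s :=
      (Real.hasDerivAt_exp s).smul_const _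
    have h2 := ((hφ.differentiable (by norm_num)) (Real.exp s • (θ : E3))).hasFDerivAt.comp_hasDerivAt
      s h1
    refine h2.congr_deriv ?_
    rw [tw_fderiv_sum, tw_Ph'_apply, Finset.mul_sum]
    refine Finset.sum_congr rfl (fun j _ => ?_)
    simp only [PiLp.smul_apply, smul_eq_mul]
    ring
  have hint : ∀ u, tw_Ph hφ u = tw_Ph hφ t + ∫ s in t..u, tw_Ph' hφ s := by
    intro u
    ext θ
    have hii : IntervalIntegrable (fun s => tw_Ph' hφ s) volume t u :=
      (tw_Ph' hφ).continuous.intervalIntegrable _ _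
    have h := ContinuousLinearMap.intervalIntegral_comp_comm
      (ContinuousMap.evalCLM (M := ℝ) ℝ θ) hii
    have h3 : (∫ s in t..u, tw_Ph' hφ s) θ = ∫ s in t..u, tw_Ph' hφ s θ := h.symm
    rw [ContinuousMap.add_apply, h3]
    rw [intervalIntegral.integral_eq_sub_of_hasDerivAt (fun s _ => hsc θ s)]
    · ring
    · have hc : Continuous (fun s => tw_Ph' hφ s θ) :=
        (ContinuousMap.evalCLM (M := ℝ) ℝ θ).continuous.comp (tw_Ph' hφ).continuous
      exact hc.intervalIntegrable _ _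
  have h4 : HasDerivAt (fun u => tw_Ph hφ t + ∫ s in t..u, tw_Ph' hφ s) (tw_Ph' hφ t) t := by
    refine HasDerivAt.const_add _ ?_
    exact intervalIntegral.integral_hasDerivAt_right
      ((tw_Ph' hφ).continuous.intervalIntegrable _ _)
      ((tw_Ph' hφ).continuous.stronglyMeasurableAtFilter _ _)
      (tw_Ph' hφ).continuous.continuousAt
  exact h4.congr_of_eventuallyEq (Eventually.of_forall hint)

theorem tw_inner_sum (x y : E3) : inner ℝ x y = ∑ i, x i * y i := by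
  simp [PiLp.inner_apply, Fin.sum_univ_three]
  ring

/-- derivative of `y ↦ |y|⁻¹ y` -/
theorem tw_dir_deriv {x : E3} (hx : x ≠ 0) :
    HasFDerivAt (fun y : E3 => ‖y‖⁻¹ • y)
      (‖x‖⁻¹ • (ContinuousLinearMap.id ℝ E3 -
        (innerSL ℝ ((dirS x : E3))).smulRight ((dirS x : E3)))) x := by
  have hx0 : ‖x‖ ≠ 0 := norm_ne_zero_iff.2 hx
  have h1 : HasFDerivAt (fun y : E3 => ‖y‖ ^ 2) (2 • (innerSL ℝ x)) x :=
    (hasStrictFDerivAt_norm_sq x).hasFDerivAt
  have h2 : HasFDerivAt (fun y : E3 => ‖y‖) (‖x‖⁻¹ • (innerSL ℝ x)) x := by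
    have h3 := h1.sqrt (by positivity)
    have h4 : ∀ y : E3, Real.sqrt (‖y‖ ^ 2) = ‖y‖ := fun y => Real.sqrt_sq (norm_nonneg y)
    simp only [h4] at h3
    refine h3.congr_fderiv ?_
    ext v
    simp only [smul_apply, smul_eq_mul, nsmul_eq_mul]
    simp
    field_simp
  have h5 : HasFDerivAt (fun y : E3 => ‖y‖⁻¹) (-(‖x‖ ^ 2)⁻¹ • (‖x‖⁻¹ • (innerSL ℝ x))) x := by
    have := (hasDerivAt_inv hx0).comp_hasFDerivAt x h2
    exact this
  have h6 := h5.smul (hasFDerivAt_id x)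
  refine h6.congr_fderiv ?_
  ext v i
  rw [dirS_coe hx]
  simp
  field_simp
  ring

theorem tw_isC1S {φ : E3 → ℝ} (hφ : ContDiff ℝ 1 φ) (t : ℝ) :
    IsC1S (tw_Ph hφ t) (fun k θ => tw_G φ t k θ) := by
  constructor
  · intro k
    have h : ∀ j, Continuous (fun θ : S2 => pd j φ (Real.exp t • (θ : E3))) :=
      fun j => (tw_pd_cont hφ j).comp (by fun_prop)
    have h2 : ∀ j : Fin 3, Continuous (fun θ : S2 => (θ : E3) j) := fun j => by fun_prop
    unfold tw_G
    exact continuous_const.mul ((h k).sub ((h2 k).mul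
      (continuous_finsetSum _ (fun j _ => (h2 j).mul (h j)))))
  · intro x hx
    have hd := (tw_dir_deriv hx).const_smul (Real.exp t)
    have hφ' := ((hφ.differentiable (by norm_num)) (Real.exp t • ‖x‖⁻¹ • x)).hasFDerivAt
    have hcomp := hφ'.comp x hd
    have hev : (fun y => tw_Ph hφ t (dirS y)) =ᶠ[𝓝 x]
        (φ ∘ fun y : E3 => Real.exp t • ‖y‖⁻¹ • y) := by
      filter_upwards [isOpen_compl_singleton.mem_nhds hx] with y hy
      rw [tw_Ph_apply, dirS_coe hy]
      rfl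
    refine (hcomp.congr_of_eventuallyEq hev).congr_fderiv ?_
    ext v
    have e0 : ‖x‖⁻¹ • x = (dirS x : E3) := (dirS_coe hx).symm
    simp only [ContinuousLinearMap.comp_apply, smul_apply, sub_apply,
      ContinuousLinearMap.id_apply, ContinuousLinearMap.smulRight_apply, innerSL_apply_apply]
    rw [tw_fderiv_sum, tw_inner_sum, tw_inner_sum, e0]
    simp only [PiLp.smul_apply, PiLp.sub_apply, smul_eq_mul, mkE_apply, tw_G, Fin.sum_univ_three]
    ring

end test

/-! ### the tested equation -/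

/-- the tested integrand -/
def tw_k (F : Fin 3 → Y) {φ : E3 → ℝ} (hφ : ContDiff ℝ 1 φ) (ε t : ℝ) : ℝ :=
  tw_I (PD.Po ε (sl (frad (tw_V F)) t) * tw_Ph' hφ t) +
    ∑ k, tw_I (sl (ftan (tw_V F) k) t * PD.Po ε (tw_LPh hφ k t))

theorem tw_k_cont (F : Fin 3 → Y) {φ : E3 → ℝ} (hφ : ContDiff ℝ 1 φ) :
    Continuous (fun q : ℝ × ℝ => tw_k F hφ q.1 q.2) := by
  unfold tw_k
  have h1 : Continuous (fun q : ℝ × ℝ => PD.Po q.1 (sl (frad (tw_V F)) q.2)) :=
    tw_po_cont2.comp (continuous_fst.prodMk ((tw_sl_continuous _).comp continuous_snd))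
  have h2 : ∀ k, Continuous (fun q : ℝ × ℝ => PD.Po q.1 (tw_LPh hφ k q.2)) := fun k =>
    tw_po_cont2.comp (continuous_fst.prodMk ((tw_LPh hφ k).continuous.comp continuous_snd))
  refine (tw_I.continuous.comp (h1.mul ((tw_Ph' hφ).continuous.comp continuous_snd))).add ?_
  exact continuous_finsetSum _ (fun k _ => tw_I.continuous.comp
    (((tw_sl_continuous _).comp continuous_snd).mul (h2 k)))

theorem tw_k_eps (F : Fin 3 → Y) {φ : E3 → ℝ} (hφ : ContDiff ℝ 1 φ) (T : ℝ) (hT : 0 ≤ T)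
    (h0 : tw_Ph hφ 0 = 0) (h1 : tw_Ph hφ T = 0) (ε : ℝ) (hε : 0 < ε) :
    ∫ t in (0 : ℝ)..T, tw_k F hφ ε t = 0 := by
  have hcP : Continuous (fun u => PD.Po ε (sl (frad (tw_V F)) u)) :=
    (PD.Po ε).continuous.comp (tw_sl_continuous _)
  have hcA : Continuous (fun u => tw_I (PD.Po ε (sl (frad (tw_V F)) u) * tw_Ph hφ u)) :=
    tw_I.continuous.comp (hcP.mul (tw_Ph hφ).continuous)
  have hder : ∀ t ∈ Ioo 0 T, HasDerivAt
      (fun u => tw_I (PD.Po ε (sl (frad (tw_V F)) u) * tw_Ph hφ u)) (tw_k F hφ ε t) t := by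
    intro t ht
    have h2 := (tw_eqn F ε t hε ht.1).mul (tw_Ph_deriv hφ t)
    have h3 := tw_I.hasFDerivAt.comp_hasDerivAt t h2
    refine h3.congr_deriv ?_
    rw [map_add, add_comm]
    unfold tw_k
    congr 1
    rw [neg_mul, map_neg, Finset.sum_mul, map_sum, ← Finset.sum_neg_distrib]
    refine Finset.sum_congr rfl (fun k _ => ?_)
    rw [tw_I_mul, tw_I_mul, PD.dk_skew k ε _ _ hε, neg_neg,
      PD.dk_comm k ε (tw_Ph hφ t) (fun k θ => tw_G φ t k θ) (tw_LPh hφ k t) hε (tw_isC1S hφ t)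
        (fun θ => by rw [tw_LPh_apply, tw_cr_G])]
  have hint : IntervalIntegrable (fun t => tw_k F hφ ε t) volume 0 T :=
    ((tw_k_cont F hφ).comp (continuous_const.prodMk continuous_id)).intervalIntegrable _ _
  rw [intervalIntegral.integral_eq_sub_of_hasDerivAt_of_le hT hcA.continuousOn hder hint]
  rw [h0, h1]
  simp

theorem tw_k_zero (F : Fin 3 → Y) {φ : E3 → ℝ} (hφ : ContDiff ℝ 1 φ) (T : ℝ) (hT : 0 ≤ T)
    (h0 : tw_Ph hφ 0 = 0) (h1 : tw_Ph hφ T = 0) :
    ∫ t in (0 : ℝ)..T, tw_k F hφ 0 t = 0 := by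
  have hc : Continuous (fun ε => ∫ t in (0 : ℝ)..T, tw_k F hφ ε t) :=
    intervalIntegral.continuous_parametric_intervalIntegral_of_continuous' (tw_k_cont F hφ) 0 T
  have h2 : Tendsto (fun ε => ∫ t in (0 : ℝ)..T, tw_k F hφ ε t) (𝓝[>] 0)
      (𝓝 (∫ t in (0 : ℝ)..T, tw_k F hφ 0 t)) := (hc.tendsto 0).mono_left nhdsWithin_le_nhds
  have h3 : Tendsto (fun ε => ∫ t in (0 : ℝ)..T, tw_k F hφ ε t) (𝓝[>] 0) (𝓝 0) := by
    refine tendsto_const_nhds.congr' ?_
    filter_upwards [self_mem_nhdsWithin] with ε hε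
    exact (tw_k_eps F hφ T hT h0 h1 ε hε).symm
  exact tendsto_nhds_unique h2 h3

/-- the integrand of the weak equation -/
def tw_Q (F : Fin 3 → Y) (φ : E3 → ℝ) (y : E3) : ℝ :=
  ∑ j, (oext (TT F j) y + oext (F j) y) * (‖y‖ ^ 2)⁻¹ * pd j φ y

theorem tw_lagr (a v g : Fin 3 → ℝ) (h : ∑ j, a j * a j = 1) :
    ∑ j, v j * g j = (∑ j, a j * v j) * (∑ j, a j * g j) + ∑ k, cr a v k * cr a g k := by
  simp only [Fin.sum_univ_three] at h
  have h2 : ∑ j, v j * g j = (a 0 * a 0 + a 1 * a 1 + a 2 * a 2) * ∑ j, v j * g j := by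
    rw [h, one_mul]
  rw [h2]
  simp [cr, Fin.sum_univ_three, eps]
  ring

theorem tw_Q_ray (F : Fin 3 → Y) {φ : E3 → ℝ} (hφ : ContDiff ℝ 1 φ) (t : ℝ) (ht : 0 ≤ t)
    (θ : S2) :
    Real.exp t * (Real.exp t ^ 2 * tw_Q F φ (Real.exp t • (θ : E3))) =
      sl (frad (tw_V F)) t θ * tw_Ph' hφ t θ +
        ∑ k, sl (ftan (tw_V F) k) t θ * tw_LPh hφ k t θ := by
  have hn : ‖Real.exp t • (θ : E3)‖ = Real.exp t := by
    rw [norm_smul, norm_S2, mul_one, Real.norm_of_nonneg (Real.exp_pos _).le]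
  have h1 : 1 ≤ ‖Real.exp t • (θ : E3)‖ := by rw [hn]; exact Real.one_le_exp ht
  have hox : ∀ f : Y, oext f (Real.exp t • (θ : E3)) = f (ray t θ) := fun f => by
    unfold oext
    rw [dif_pos h1]
    congr 1
    exact Subtype.ext (tw_ray_coe ht θ).symm
  have hV : ∀ j, TT F j (ray t θ) + F j (ray t θ) = tw_V F j (ray t θ) := fun j => rfl
  unfold tw_Q
  simp only [hox, hn, hV]
  rw [tw_sl_apply, tw_frad_apply, tw_dirS_ray, tw_Ph'_apply]
  simp only [tw_sl_apply, tw_ftan_apply, tw_dirS_ray, tw_LPh_apply]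
  have hl := tw_lagr (fun a => (θ : E3) a) (fun j => tw_V F j (ray t θ))
    (fun j => pd j φ (Real.exp t • (θ : E3))) (tw_S2_sq θ)
  have he := (Real.exp_pos t).ne'
  have e1 : ∑ j, tw_V F j (ray t θ) * (Real.exp t ^ 2)⁻¹ * pd j φ (Real.exp t • (θ : E3)) =
      (Real.exp t ^ 2)⁻¹ * ∑ j, tw_V F j (ray t θ) * pd j φ (Real.exp t • (θ : E3)) := by
    rw [Finset.mul_sum]
    exact Finset.sum_congr rfl (fun j _ => by ring)
  have e2 : ∀ k, cr (fun a => (θ : E3) a) (fun j => tw_V F j (ray t θ)) k *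
      (Real.exp t * cr (fun a => (θ : E3) a) (fun a => pd a φ (Real.exp t • (θ : E3))) k) =
      Real.exp t * (cr (fun a => (θ : E3) a) (fun j => tw_V F j (ray t θ)) k *
      cr (fun a => (θ : E3) a) (fun a => pd a φ (Real.exp t • (θ : E3))) k) := fun k => by ring
  rw [e1, hl]
  simp only [e2]
  rw [← Finset.mul_sum]
  field_simp

/-- weak equation -/
theorem TT_weak (F : Fin 3 → Y) (φ : E3 → ℝ) (hφ : ContDiff ℝ 1 φ) (hc : HasCompactSupport φ)
    (hs : tsupport φ ⊆ Ext) :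
    ∫ y in Ext, ∑ j, (oext (TT F j) y + oext (F j) y) * (‖y‖ ^ 2)⁻¹ * pd j φ y = 0 := by
  have hφout : ∀ y, y ∉ tsupport φ → φ y = 0 := fun y hy => image_eq_zero_of_notMem_tsupport hy
  have hpdout : ∀ y, y ∉ tsupport φ → ∀ j, pd j φ y = 0 := fun y hy j => by
    have h1 : y ∉ tsupport (fderiv ℝ φ) := fun h => hy (tsupport_fderiv_subset ℝ h)
    have h2 := image_eq_zero_of_notMem_tsupport h1
    unfold pd
    rw [h2]; rfl
  obtain ⟨R, hR⟩ := hc.isBounded.subset_closedBall (0 : E3)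
  set T : ℝ := max 0 (Real.log (R + 1)) with hT
  have hT0 : 0 ≤ T := le_max_left _ _
  -- norms above e^T are out of the support
  have hbig : ∀ t, T ≤ t → ∀ θ : S2, Real.exp t • (θ : E3) ∉ tsupport φ := by
    intro t ht θ hm
    have h1 := hR hm
    rw [mem_closedBall_zero_iff, norm_smul, norm_S2, mul_one,
      Real.norm_of_nonneg (Real.exp_pos _).le] at h1
    have hR1 : 0 < R + 1 := by linarith [Real.exp_pos t]
    have h2 : Real.log (R + 1) ≤ t := (le_max_right _ _).trans ht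
    have h3 : R + 1 ≤ Real.exp t := (Real.log_le_iff_le_exp hR1).1 h2
    linarith
  have hzero : ∀ θ : S2, Real.exp 0 • (θ : E3) ∉ tsupport φ := by
    intro θ hm
    have h1 : 1 < ‖Real.exp 0 • (θ : E3)‖ := hs hm
    rw [norm_smul, norm_S2, Real.exp_zero] at h1
    norm_num at h1
  have hP0 : tw_Ph hφ 0 = 0 := by
    ext θ
    exact hφout _ (hzero θ)
  have hPT : tw_Ph hφ T = 0 := by
    ext θ
    exact hφout _ (hbig T le_rfl θ)
  have hk := tw_k_zero F hφ T hT0 hP0 hPT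
  -- integrability
  have hQsupp : Function.support (tw_Q F φ) ⊆ tsupport φ := by
    intro y hy
    by_contra hcon
    apply hy
    unfold tw_Q
    refine Finset.sum_eq_zero (fun j _ => ?_)
    rw [hpdout y hcon j, mul_zero]
  have hExt0 : Ext ⊆ {0}ᶜ := fun y hy h => by
    have : (1 : ℝ) < ‖y‖ := hy
    rw [mem_singleton_iff.1 h, norm_zero] at this
    linarith
  have hQcont : ContinuousOn (tw_Q F φ) Ext := by
    unfold tw_Q
    refine continuousOn_finsetSum _ (fun j _ => ?_)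
    have c1 := ((oext_continuousOn (TT F j)).mono hExt0).add ((oext_continuousOn (F j)).mono hExt0)
    have c2 : ContinuousOn (fun y : E3 => (‖y‖ ^ 2)⁻¹) Ext := by
      refine ContinuousOn.inv₀ (by fun_prop) (fun y hy => ?_)
      have : (1 : ℝ) < ‖y‖ := hy
      positivity
    exact (c1.mul c2).mul (tw_pd_cont hφ j).continuousOn
  have hQint : Integrable (tw_Q F φ) := by
    rw [← integrableOn_iff_integrable_of_support_subset hQsupp]
    exact (hQcont.mono hs).integrableOn_compact hc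
  have hE : Ext = {x : E3 | ‖x‖ ∈ Ioi (1 : ℝ)} := rfl
  have hpol := polar_setIntegral (f := tw_Q F φ) (S := Ioi (1 : ℝ)) measurableSet_Ioi
    (Ioi_subset_Ioi zero_le_one) hQint.integrableOn
  have hstart : ∫ y in Ext, ∑ j, (oext (TT F j) y + oext (F j) y) * (‖y‖ ^ 2)⁻¹ * pd j φ y =
      ∫ r in Ioi (1 : ℝ), r ^ 2 * ∫ θ : S2, tw_Q F φ (r • (θ : E3)) ∂sig := hpol
  rw [hstart]
  -- change of variables
  have himg : Real.exp '' (Ioi (0 : ℝ)) = Ioi 1 := by
    ext r
    constructor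
    · rintro ⟨t, ht, rfl⟩
      exact Real.one_lt_exp_iff.2 ht
    · intro hr
      have hr' : (1 : ℝ) < r := hr
      exact ⟨Real.log r, Real.log_pos hr', Real.exp_log (by linarith)⟩
  have hcv := integral_image_eq_integral_abs_deriv_smul (s := Ioi (0 : ℝ)) (f := Real.exp)
    (f' := Real.exp) measurableSet_Ioi (fun t _ => (Real.hasDerivAt_exp t).hasDerivWithinAt)
    Real.exp_injective.injOn (fun r => r ^ 2 * ∫ θ : S2, tw_Q F φ (r • (θ : E3)) ∂sig)
  rw [himg] at hcv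
  rw [hcv]
  have hkk : ∀ t, 0 ≤ t → |Real.exp t| • (Real.exp t ^ 2 *
      ∫ θ : S2, tw_Q F φ (Real.exp t • (θ : E3)) ∂sig) = tw_k F hφ 0 t := by
    intro t ht
    rw [abs_of_pos (Real.exp_pos _), smul_eq_mul, ← integral_const_mul, ← integral_const_mul]
    have e1 : ∀ θ : S2, Real.exp t * (Real.exp t ^ 2 * tw_Q F φ (Real.exp t • (θ : E3))) =
      sl (frad (tw_V F)) t θ * tw_Ph' hφ t θ +
        ∑ k, sl (ftan (tw_V F) k) t θ * tw_LPh hφ k t θ := fun θ => tw_Q_ray F hφ t ht θ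
    simp only [e1]
    unfold tw_k
    rw [PD.po_nonpos 0 le_rfl]
    simp only [ContinuousLinearMap.id_apply]
    rw [← map_sum, ← map_add, tw_I_apply]
    refine integral_congr_ae (Eventually.of_forall (fun θ => ?_))
    simp only [ContinuousMap.add_apply, ContinuousMap.mul_apply, ContinuousMap.sum_apply]
  rw [setIntegral_congr_fun measurableSet_Ioi (fun t ht => hkk t (le_of_lt ht))]
  -- restrict to [0,T]
  have hkout : ∀ t, T ≤ t → tw_k F hφ 0 t = 0 := by
    intro t ht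
    have z1 : tw_Ph' hφ t = 0 := by
      ext θ
      rw [tw_Ph'_apply]
      simp only [hpdout _ (hbig t ht θ), mul_zero, Finset.sum_const_zero]
      rfl
    have z2 : ∀ k, tw_LPh hφ k t = 0 := fun k => by
      ext θ
      rw [tw_LPh_apply]
      simp only [cr, hpdout _ (hbig t ht θ), mul_zero, smul_zero, Finset.sum_const_zero]
      rfl
    unfold tw_k
    simp only [z1, z2, mul_zero, map_zero, Finset.sum_const_zero, add_zero]
  have hsub : ∫ t in Ioi (0 : ℝ), tw_k F hφ 0 t = ∫ t in Ioc (0 : ℝ) T, tw_k F hφ 0 t := by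
    refine (setIntegral_eq_of_subset_of_forall_sdiff_eq_zero measurableSet_Ioi
      (fun t ht => ht.1) (fun t ht => ?_))
    refine hkout t ?_
    by_contra hcon
    exact ht.2 ⟨ht.1, (not_le.1 hcon).le⟩
  rw [hsub, ← intervalIntegral.integral_of_le hT0]
  exact hk

end

end Pool.Agent.BS
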