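import Pool.Agent.BS.TGrad
import Pool.Agent.BS.TWeak

/-!
# Module BASE: the potential on the exterior of the unit ball
-/

namespace Pool.Agent.BS

open MeasureTheory Topology Set Filter
open scoped ContDiff

noncomputable section

theorem base_isOpen_Ext : IsOpen Ext := isOpen_lt continuous_const continuous_norm

theorem base_Ext_eq : Ext = (Metric.closedBall (0 : E3) 1)ᶜ := by
  ext x
  simp [Ext]

theorem base_closure : closure Ext = {x : E3 | 1 ≤ ‖x‖} := by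
  rw [base_Ext_eq, closure_compl, interior_closedBall _ one_ne_zero]
  ext x
  simp

theorem base_frontier : frontier Ext = {x : E3 | ‖x‖ = 1} := by
  rw [base_Ext_eq, frontier_compl, frontier_closedBall _ one_ne_zero]
  ext x
  simp

theorem base_oext (f : Y) {x : E3} (h : 1 ≤ ‖x‖) : oext f x = f ⟨x, h⟩ := dif_pos h

theorem base_oext_le (f : Y) (x : E3) : |oext f x| ≤ ‖f‖ := by
  unfold oext
  split_ifs
  · exact f.abs_apply_le _
  · exact f.abs_apply_le _

theorem base_cont (f : Y) : ContinuousOn (oext f) {x : E3 | 1 ≤ ‖x‖} := by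
  refine (oext_continuousOn f).mono fun x hx => ?_
  rintro rfl
  simp at hx
  linarith

theorem base_ne {x : E3} (h : 1 ≤ ‖x‖) : x ≠ 0 := by
  rintro rfl
  simp at h
  linarith

theorem base_norm_fderiv {x : E3} (hx : x ≠ 0) :
    HasFDerivAt (fun y : E3 => ‖y‖) (innerSL ℝ (‖x‖⁻¹ • x)) x := by
  have h1 := (hasStrictFDerivAt_norm_sq x).hasFDerivAt
  have hne : ‖x‖ ^ 2 ≠ 0 := pow_ne_zero 2 (norm_ne_zero_iff.2 hx)
  have h2 := h1.sqrt hne
  have e : (fun y : E3 => Real.sqrt (‖y‖ ^ 2)) = fun y => ‖y‖ := by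
    funext y; exact Real.sqrt_sq (norm_nonneg y)
  rw [e] at h2
  refine h2.congr_fderiv ?_
  rw [Real.sqrt_sq (norm_nonneg x)]
  ext v
  have : ‖x‖ ≠ 0 := norm_ne_zero_iff.2 hx
  simp
  field_simp

theorem base_u0_fderiv {x : E3} (hx : x ≠ 0) :
    HasFDerivAt (fun y : E3 => 1 - 1 / ‖y‖) (innerSL ℝ ((‖x‖ ^ 2)⁻¹ • (dirS x : E3))) x := by
  have h1 := base_norm_fderiv hx
  have hne : ‖x‖ ≠ 0 := norm_ne_zero_iff.2 hx
  have h2 : HasFDerivAt (fun y : E3 => 1 - (‖y‖)⁻¹) (-(-(‖x‖ ^ 2)⁻¹ • innerSL ℝ (‖x‖⁻¹ • x))) x :=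
    ((hasDerivAt_inv hne).comp_hasFDerivAt x h1).const_sub 1
  have e : (fun y : E3 => 1 - 1 / ‖y‖) = fun y => 1 - (‖y‖)⁻¹ := by
    funext y; rw [one_div]
  rw [e]
  refine h2.congr_fderiv ?_
  rw [dirS_coe hx]
  ext v
  simp

/-- the gradient field -/
def baseG (Z : Fin 3 → Y) (x : E3) : E3 :=
  (‖x‖ ^ 2)⁻¹ • mkE (fun j => (dirS x : E3) j + oext (Z j) x)

/-- the potential -/
def baseU (F : Fin 3 → Y) (x : E3) : ℝ := 1 - 1 / ‖x‖ + oext (Nu F) x / ‖x‖

theorem base_grad_in (F : Fin 3 → Y) {x : E3} (hx : 1 < ‖x‖) :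
    HasFDerivAt (baseU F) (innerSL ℝ (baseG (TT F) x)) x := by
  have hne : x ≠ 0 := base_ne hx.le
  have h1 := (base_u0_fderiv hne).add (Nu_grad F x hx)
  have e : baseG (TT F) x = (‖x‖ ^ 2)⁻¹ • (dirS x : E3) +
      (‖x‖ ^ 2)⁻¹ • mkE (fun j => oext (TT F j) x) := by
    rw [baseG, ← smul_add]
    congr 1
  rw [e, map_add]
  exact h1

theorem base_U_cont (F : Fin 3 → Y) : ContinuousOn (baseU F) {x : E3 | 1 ≤ ‖x‖} := by
  have h1 : ContinuousOn (fun x : E3 => ‖x‖) {x : E3 | 1 ≤ ‖x‖} := continuous_norm.continuousOn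
  have h2 : ∀ x ∈ {x : E3 | 1 ≤ ‖x‖}, ‖x‖ ≠ 0 := fun x hx => norm_ne_zero_iff.2 (base_ne hx)
  exact (continuousOn_const.sub (continuousOn_const.div h1 h2)).add ((base_cont (Nu F)).div h1 h2)

theorem base_dirS_cont (j : Fin 3) : ContinuousOn (fun x : E3 => (dirS x : E3) j) {x : E3 | 1 ≤ ‖x‖} := by
  have h1 : ContinuousOn dirS {x : E3 | 1 ≤ ‖x‖} := continuousOn_dirS.mono fun x hx => base_ne hx
  exact ((EuclideanSpace.proj j : E3 →L[ℝ] ℝ).continuous.comp
    continuous_subtype_val).comp_continuousOn h1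

theorem base_mkE_cont {f : E3 → Fin 3 → ℝ} {S : Set E3} (h : ∀ j, ContinuousOn (fun x => f x j) S) :
    ContinuousOn (fun x => mkE (f x)) S := by
  have h1 : ContinuousOn f S := continuousOn_pi.2 h
  exact (PiLp.continuous_toLp 2 (fun _ : Fin 3 => ℝ)).comp_continuousOn h1

theorem base_G_cont (Z : Fin 3 → Y) : ContinuousOn (baseG Z) {x : E3 | 1 ≤ ‖x‖} := by
  have h2 : ∀ x ∈ {x : E3 | 1 ≤ ‖x‖}, ‖x‖ ^ 2 ≠ 0 := fun x hx =>
    pow_ne_zero 2 (norm_ne_zero_iff.2 (base_ne hx))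
  have h3 : ContinuousOn (fun x : E3 => (‖x‖ ^ 2)⁻¹) {x : E3 | 1 ≤ ‖x‖} :=
    (continuous_norm.pow 2).continuousOn.inv₀ h2
  have h4 : ContinuousOn (fun x : E3 => mkE (fun j => (dirS x : E3) j + oext (Z j) x))
      {x : E3 | 1 ≤ ‖x‖} := base_mkE_cont fun j => (base_dirS_cont j).add (base_cont (Z j))
  exact h3.smul h4

theorem base_toOm {x : E3} (h : ‖x‖ = 1) : (⟨x, h.ge⟩ : Om) = toOm (dirS x) := by
  apply Subtype.ext
  show x = (dirS x : E3)
  rw [dirS_coe (base_ne h.ge), h, inv_one, one_smul]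

theorem base_U_bdry (F : Fin 3 → Y) {x : E3} (h : ‖x‖ = 1) : baseU F x = 0 := by
  rw [baseU, base_oext _ h.ge, base_toOm h, Nu_bdry, h]
  norm_num

theorem base_G_bdry (F : Fin 3 → Y) {x : E3} (h : ‖x‖ = 1) :
    baseG (TT F) x = (1 + muc F 0 (dirS x)) • x := by
  have hd : (dirS x : E3) = x := by rw [dirS_coe (base_ne h.ge), h, inv_one, one_smul]
  ext j
  have h1 : oext (TT F j) x = (dirS x : E3) j * muc F 0 (dirS x) := by
    rw [base_oext _ h.ge, base_toOm h, TT_bdry]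
  simp only [baseG, PiLp.smul_apply, mkE_apply, smul_eq_mul]
  rw [h1, hd, h]
  ring

/-- one-dimensional restriction -/
theorem base_ray_deriv (F : Fin 3 → Y) {θ : E3} (hθ : ‖θ‖ = 1) {s : ℝ} (hs : 1 < s) :
    HasDerivAt (fun s : ℝ => baseU F (s • θ)) (inner ℝ (baseG (TT F) (s • θ)) θ) s := by
  have hn : 1 < ‖s • θ‖ := by rw [norm_smul, hθ, mul_one, Real.norm_of_nonneg (by linarith)]; exact hs
  have h1 := base_grad_in F hn
  have h2 : HasDerivAt (fun s : ℝ => s • θ) θ s := by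
    simpa using (hasDerivAt_id s).smul_const θ
  have h3 := h1.comp_hasDerivAt s h2
  exact h3

theorem base_ray_cont (F : Fin 3 → Y) {θ : E3} (hθ : ‖θ‖ = 1) (b : ℝ) :
    ContinuousOn (fun s : ℝ => baseU F (s • θ)) (Icc 1 b) := by
  refine (base_U_cont F).comp (by fun_prop) fun s hs => ?_
  show 1 ≤ ‖s • θ‖
  rw [norm_smul, hθ, mul_one, Real.norm_of_nonneg (by linarith [hs.1])]; exact hs.1

theorem base_dir_dist {x y : E3} (hx : ‖x‖ = 1) (hy : 1 ≤ ‖y‖) :
    ‖(dirS y : E3) - x‖ ≤ 2 * ‖y - x‖ := by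
  have hyn : y ≠ 0 := base_ne hy
  have h1 : ‖(dirS y : E3) - y‖ = ‖y‖ - 1 := by
    have e : (dirS y : E3) - y = (1 - ‖y‖) • (dirS y : E3) := by
      rw [sub_smul, norm_smul_dirS hyn, one_smul]
    rw [e, norm_smul, norm_S2, mul_one, Real.norm_eq_abs, abs_of_nonpos (by linarith)]
    ring
  have h2 : ‖y‖ - 1 ≤ ‖y - x‖ := by
    rw [← hx]; exact norm_sub_norm_le y x
  have h3 : (dirS y : E3) - x = ((dirS y : E3) - y) + (y - x) := by abel
  rw [h3]
  refine (norm_add_le _ _).trans ?_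
  linarith

theorem base_grad_bdry (F : Fin 3 → Y) {x : E3} (hx : ‖x‖ = 1) :
    HasFDerivWithinAt (baseU F) (innerSL ℝ (baseG (TT F) x)) {x : E3 | 1 ≤ ‖x‖} x := by
  rw [hasFDerivWithinAt_iff_isLittleO, Asymptotics.isLittleO_iff]
  intro c hc
  set k : ℝ := 1 + muc F 0 (dirS x) with hk
  have hGx : baseG (TT F) x = k • x := base_G_bdry F hx
  have hcont : ContinuousWithinAt (baseG (TT F)) {x : E3 | 1 ≤ ‖x‖} x :=
    base_G_cont (TT F) x hx.ge
  obtain ⟨ρ, hρ, hρ2⟩ := Metric.continuousWithinAt_iff.1 hcont (c / 4) (by positivity)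
  have hev : ∀ᶠ y in 𝓝[{x : E3 | 1 ≤ ‖x‖}] x, 1 ≤ ‖y‖ ∧ ‖y - x‖ < ρ / 3 ∧
      ‖y - x‖ < c / (8 * (|k| + 1)) := by
    have h1 : ∀ᶠ y in 𝓝 x, ‖y - x‖ < min (ρ / 3) (c / (8 * (|k| + 1))) := by
      have : 0 < min (ρ / 3) (c / (8 * (|k| + 1))) := by
        apply lt_min
        · positivity
        · positivity
      have h2 := Metric.ball_mem_nhds x this
      filter_upwards [h2] with y hy
      rwa [Metric.mem_ball, dist_eq_norm] at hy
    filter_upwards [self_mem_nhdsWithin, mem_nhdsWithin_of_mem_nhds h1] with y hy1 hy2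
    have hy3 : ‖y - x‖ < min (ρ / 3) (c / (8 * (|k| + 1))) := hy2
    exact ⟨hy1, hy3.trans_le (min_le_left _ _), hy3.trans_le (min_le_right _ _)⟩
  filter_upwards [hev] with y ⟨hy1, hy2, hy3⟩
  have hyn : y ≠ 0 := base_ne hy1
  set θ : E3 := (dirS y : E3) with hθdef
  have hθ : ‖θ‖ = 1 := norm_S2 _
  have hyθ : ‖y‖ • θ = y := norm_smul_dirS hyn
  have hd1 : ‖θ - x‖ ≤ 2 * ‖y - x‖ := base_dir_dist hx hy1
  have hr1 : ‖y‖ - 1 ≤ ‖y - x‖ := by rw [← hx]; exact norm_sub_norm_le y x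
  -- radial part
  have hrad : |baseU F y - (‖y‖ - 1) * inner ℝ (baseG (TT F) x) θ| ≤ c / 4 * (‖y‖ - 1) := by
    rcases eq_or_lt_of_le hy1 with h1 | h1
    · rw [base_U_bdry F h1.symm, ← h1]
      simp
    · have hmvt := exists_hasDerivAt_eq_slope (fun s : ℝ => baseU F (s • θ) - s * inner ℝ (baseG (TT F) x) θ)
        (fun s : ℝ => inner ℝ (baseG (TT F) (s • θ)) θ - inner ℝ (baseG (TT F) x) θ) h1
        ((base_ray_cont F hθ ‖y‖).sub (by fun_prop)) (fun s hs => by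
          have e1 := base_ray_deriv F hθ hs.1
          have e2 : HasDerivAt (fun s : ℝ => s * inner ℝ (baseG (TT F) x) θ)
            (inner ℝ (baseG (TT F) x) θ) s := by
            simpa using (hasDerivAt_id s).mul_const (inner ℝ (baseG (TT F) x) θ)
          exact e1.sub e2)
      obtain ⟨s, hs, hs2⟩ := hmvt
      have hpos : 0 < ‖y‖ - 1 := by linarith
      rw [eq_div_iff hpos.ne'] at hs2
      simp only [one_smul, one_mul] at hs2
      rw [hyθ, base_U_bdry F hθ] at hs2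
      have e3 : baseU F y - (‖y‖ - 1) * inner ℝ (baseG (TT F) x) θ =
          (inner ℝ (baseG (TT F) (s • θ)) θ - inner ℝ (baseG (TT F) x) θ) * (‖y‖ - 1) := by
        rw [hs2]; ring
      rw [e3, abs_mul, abs_of_pos hpos]
      refine mul_le_mul_of_nonneg_right ?_ hpos.le
      rw [← inner_sub_left]
      have hsn : 1 ≤ ‖s • θ‖ := by
        rw [norm_smul, hθ, mul_one, Real.norm_of_nonneg (by linarith [hs.1])]; exact hs.1.le
      have hdist : dist (s • θ) x < ρ := by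
        rw [dist_eq_norm]
        have e4 : s • θ - x = (s - 1) • θ + (θ - x) := by rw [sub_smul, one_smul]; abel
        rw [e4]
        refine (norm_add_le _ _).trans_lt ?_
        rw [norm_smul, hθ, mul_one, Real.norm_of_nonneg (by linarith [hs.1])]
        have hs3 := hs.2
        linarith
      have := hρ2 hsn hdist
      rw [dist_eq_norm] at this
      refine (abs_real_inner_le_norm _ _).trans ?_
      rw [hθ, mul_one]
      exact this.le
  have htan : |inner ℝ (baseG (TT F) x) (θ - x)| ≤ c / 4 * ‖y - x‖ := by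
    have e1 : inner ℝ x θ - 1 = -(‖θ - x‖ ^ 2) / 2 := by
      have := norm_sub_sq_real θ x
      rw [hθ, hx, real_inner_comm] at this
      linarith
    have e2 : inner ℝ (baseG (TT F) x) (θ - x) = k * (-(‖θ - x‖ ^ 2) / 2) := by
      rw [hGx, real_inner_smul_left, inner_sub_right, real_inner_self_eq_norm_sq, hx, one_pow, e1]
    rw [e2, abs_mul]
    have e3 : |-(‖θ - x‖ ^ 2) / 2| = ‖θ - x‖ ^ 2 / 2 := by
      rw [neg_div, abs_neg, abs_of_nonneg (by positivity)]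
    rw [e3]
    have e4 : ‖θ - x‖ ^ 2 ≤ 4 * ‖y - x‖ ^ 2 := by
      have := pow_le_pow_left₀ (norm_nonneg _) hd1 2
      linarith [this, mul_pow 2 ‖y - x‖ 2]
    have hk0 : 0 ≤ |k| := abs_nonneg k
    have e5 : ‖y - x‖ * (8 * (|k| + 1)) ≤ c := by
      rw [lt_div_iff₀ (by positivity)] at hy3
      exact hy3.le
    have hn0 := norm_nonneg (y - x)
    calc |k| * (‖θ - x‖ ^ 2 / 2) ≤ |k| * (4 * ‖y - x‖ ^ 2 / 2) := by gcongr
      _ = (|k| * 2 * ‖y - x‖) * ‖y - x‖ := by ring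
      _ ≤ c / 4 * ‖y - x‖ := by
          refine mul_le_mul_of_nonneg_right ?_ hn0
          nlinarith [mul_nonneg hk0 hn0]
  have hsplit : innerSL ℝ (baseG (TT F) x) (y - x) = (‖y‖ - 1) * inner ℝ (baseG (TT F) x) θ +
      inner ℝ (baseG (TT F) x) (θ - x) := by
    rw [innerSL_apply_apply]
    have : y - x = (‖y‖ - 1) • θ + (θ - x) := by rw [sub_smul, one_smul, hyθ]; abel
    conv_lhs => rw [this]
    rw [inner_add_right, real_inner_smul_right]
  rw [base_U_bdry F hx, sub_zero, hsplit, Real.norm_eq_abs]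
  have e6 : baseU F y - ((‖y‖ - 1) * inner ℝ (baseG (TT F) x) θ +
      inner ℝ (baseG (TT F) x) (θ - x)) = (baseU F y - (‖y‖ - 1) * inner ℝ (baseG (TT F) x) θ) -
      inner ℝ (baseG (TT F) x) (θ - x) := by ring
  rw [e6]
  refine (abs_sub _ _).trans ?_
  have hn0 := norm_nonneg (y - x)
  nlinarith

theorem base_grad (F : Fin 3 → Y) {x : E3} (hx : 1 ≤ ‖x‖) :
    HasFDerivWithinAt (baseU F) (innerSL ℝ (baseG (TT F) x)) {x : E3 | 1 ≤ ‖x‖} x := by
  rcases eq_or_lt_of_le hx with h | h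
  · exact base_grad_bdry F h.symm
  · exact (base_grad_in F h).hasFDerivWithinAt

theorem base_inner_expand (Z : Fin 3 → Y) {x : E3} :
    inner ℝ (baseG Z x) (dirS x : E3) =
      (‖x‖ ^ 2)⁻¹ * (1 + ∑ j, (dirS x : E3) j * oext (Z j) x) := by
  rw [baseG, real_inner_smul_left]
  congr 1
  have h1 := norm_S2 (dirS x)
  rw [EuclideanSpace.norm_eq, Real.sqrt_eq_one] at h1
  simp only [Real.norm_eq_abs, sq_abs, Fin.sum_univ_three] at h1
  simp only [EuclideanSpace.inner_eq_star_dotProduct, dotProduct, Fin.sum_univ_three, mkE_apply,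
    Pi.star_apply, star_trivial]
  linear_combination h1

theorem base_pos (m : Fin 3 → Fin 3 → Y) (Z : Fin 3 → Y)
    (hZ : Z = TT (Mop m (thY + Z))) (hs : ∀ j x, |Z j x| ≤ 1 / 4) (x : E3) (hx : 1 < ‖x‖) :
    0 < 1 - 1 / ‖x‖ + oext (Nu (Mop m (thY + Z))) x / ‖x‖ := by
  set F := Mop m (thY + Z) with hF
  have hxn : x ≠ 0 := base_ne hx.le
  set θ : E3 := (dirS x : E3) with hθdef
  have hθ : ‖θ‖ = 1 := norm_S2 _
  have hxθ : ‖x‖ • θ = x := norm_smul_dirS hxn
  have hpos : ∀ s : ℝ, 1 < s → 0 < inner ℝ (baseG (TT F) (s • θ)) θ := by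
    intro s hs1
    have hn : ‖s • θ‖ = s := by
      rw [norm_smul, hθ, mul_one, Real.norm_of_nonneg (by linarith)]
    have hd : (dirS (s • θ) : E3) = θ := by
      rw [hθdef, dirS_smul_S2 _ (by linarith : (0 : ℝ) < s)]
    have h1 := base_inner_expand (TT F) (x := s • θ)
    rw [hd, hn] at h1
    rw [h1]
    apply mul_pos (by positivity)
    have h2 : ∀ j, |oext (TT F j) (s • θ)| ≤ 1 / 4 := by
      intro j
      rw [← hZ, base_oext _ (by rw [hn]; exact hs1.le)]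
      exact hs j _
    have h3 : ∀ j, |θ j| ≤ 1 := fun j => by
      have := PiLp.norm_apply_le θ j
      rw [hθ] at this
      exact this
    have h4 : ∀ j, -(1 / 4) ≤ θ j * oext (TT F j) (s • θ) := by
      intro j
      have := abs_mul (θ j) (oext (TT F j) (s • θ))
      have h5 : |θ j * oext (TT F j) (s • θ)| ≤ 1 / 4 := by
        rw [this]
        calc |θ j| * |oext (TT F j) (s • θ)| ≤ 1 * (1 / 4) :=
              mul_le_mul (h3 j) (h2 j) (abs_nonneg _) zero_le_one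
          _ = 1 / 4 := one_mul _
      exact (abs_le.1 h5).1
    rw [Fin.sum_univ_three]
    linarith [h4 0, h4 1, h4 2]
  have hmono : StrictMonoOn (fun s : ℝ => baseU F (s • θ)) (Icc 1 ‖x‖) := by
    refine strictMonoOn_of_deriv_pos (convex_Icc _ _) (base_ray_cont F hθ _) ?_
    intro s hs'
    rw [interior_Icc] at hs'
    rw [(base_ray_deriv F hθ hs'.1).deriv]
    exact hpos s hs'.1
  have h1 := hmono (left_mem_Icc.2 hx.le) (right_mem_Icc.2 hx.le) hx
  simp only [one_smul] at h1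
  rw [hxθ, base_U_bdry F hθ] at h1
  exact h1

theorem base_quad (m : Fin 3 → Fin 3 → ℝ) (δ : ℝ) (hm : ∀ i j, |m i j| ≤ δ) (v : E3) :
    (1 - 9 * δ) * ‖v‖ ^ 2 ≤ ∑ i, ∑ j, (dl i j + m i j) * v i * v j := by
  have h0 : 0 ≤ δ := (abs_nonneg _).trans (hm 0 0)
  have hv : ∀ i, |v i| ≤ ‖v‖ := fun i => PiLp.norm_apply_le v i
  have h1 : ∀ i j, -(δ * ‖v‖ ^ 2) ≤ m i j * v i * v j := by
    intro i j
    have : |m i j * v i * v j| ≤ δ * ‖v‖ ^ 2 := by
      rw [abs_mul, abs_mul, pow_two, ← mul_assoc]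
      gcongr
      · exact hm i j
      · exact hv i
      · exact hv j
    exact (abs_le.1 this).1
  have h2 : ‖v‖ ^ 2 = v 0 ^ 2 + v 1 ^ 2 + v 2 ^ 2 := by
    rw [EuclideanSpace.norm_sq_eq, Fin.sum_univ_three]
    simp
  simp only [Fin.sum_univ_three, dl]
  simp only [if_true, Fin.isValue]
  have a01 : (0 : Fin 3) ≠ 1 := by decide
  have a02 : (0 : Fin 3) ≠ 2 := by decide
  have a12 : (1 : Fin 3) ≠ 2 := by decide
  rw [if_neg a01, if_neg a02, if_neg a12, if_neg a01.symm, if_neg a02.symm, if_neg a12.symm]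
  have h00 := h1 0 0
  have h01 := h1 0 1
  have h02 := h1 0 2
  have h10 := h1 1 0
  have h11 := h1 1 1
  have h12 := h1 1 2
  have h20 := h1 2 0
  have h21 := h1 2 1
  have h22 := h1 2 2
  have : (1 - 9 * δ) * ‖v‖ ^ 2 = ‖v‖ ^ 2 - 9 * (δ * ‖v‖ ^ 2) := by ring
  rw [this]
  nlinarith

theorem base_det (m : Fin 3 → Fin 3 → ℝ) (hm : ∀ i j, |m i j| ≤ 1 / 100) :
    0 < det3 (fun i j => dl i j + m i j) := by
  have a01 : (0 : Fin 3) ≠ 1 := by decide
  have a02 : (0 : Fin 3) ≠ 2 := by decide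
  have a12 : (1 : Fin 3) ≠ 2 := by decide
  rw [det3, Matrix.det_fin_three]
  simp only [Matrix.of_apply, dl, if_true]
  rw [if_neg a01, if_neg a02, if_neg a12, if_neg a01.symm, if_neg a02.symm, if_neg a12.symm]
  simp only [zero_add]
  have hb : ∀ i j, -(1 / 100) ≤ m i j ∧ m i j ≤ 1 / 100 := fun i j => abs_le.1 (hm i j)
  have key3 : ∀ a b c : ℝ, |a| ≤ 1.01 → |b| ≤ 1 / 100 → |c| ≤ 1 / 100 → |a * b * c| ≤ 0.001 := by
    intro a b c ha hb hc
    rw [abs_mul, abs_mul]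
    calc |a| * |b| * |c| ≤ 1.01 * (1 / 100) * (1 / 100) := by gcongr
      _ ≤ 0.001 := by norm_num
  have hd : ∀ i, |1 + m i i| ≤ 1.01 := fun i => by
    rw [abs_le]; constructor <;> linarith [(hb i i).1, (hb i i).2]
  have hl : ∀ i j, |m i j| ≤ 1.01 := fun i j => (hm i j).trans (by norm_num)
  have t1 := (abs_le.1 (key3 _ _ _ (hd 0) (hm 1 2) (hm 2 1)))
  have t2 : |m 0 1 * m 1 0 * (1 + m 2 2)| ≤ 0.001 := by
    rw [mul_comm, ← mul_assoc]; exact key3 _ _ _ (hd 2) (hm 0 1) (hm 1 0)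
  have t3 := (abs_le.1 (key3 _ _ _ (hl 0 1) (hm 1 2) (hm 2 0)))
  have t4 := (abs_le.1 (key3 _ _ _ (hl 0 2) (hm 1 0) (hm 2 1)))
  have t5 : |m 0 2 * (1 + m 1 1) * m 2 0| ≤ 0.001 := by
    rw [mul_comm (m 0 2)]; exact key3 _ _ _ (hd 1) (hm 0 2) (hm 2 0)
  have t2' := abs_le.1 t2
  have t5' := abs_le.1 t5
  have t6 : 0.9 ≤ (1 + m 0 0) * (1 + m 1 1) * (1 + m 2 2) := by
    have e : ∀ i, 0.99 ≤ 1 + m i i := fun i => by have := (hb i i).1; norm_num at this ⊢; linarith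
    have e1 : (0.98 : ℝ) ≤ (1 + m 0 0) * (1 + m 1 1) := by nlinarith [e 0, e 1]
    nlinarith [e 2, e1]
  linarith [t1.1, t1.2, t3.1, t3.2, t4.1, t4.2, t2'.1, t2'.2, t5'.1, t5'.2]

theorem base_ell : ∃ δ > 0, ∀ m : Fin 3 → Fin 3 → Y, ‖m‖ < δ →
    IsEll (coefY m) Ext ∧ ∀ x, 1 ≤ ‖x‖ → 0 < det3 (coefY m x) := by
  refine ⟨1 / 100, by norm_num, fun m hm => ?_⟩
  have hmij : ∀ i j, ‖m i j‖ ≤ 1 / 100 := fun i j =>
    ((norm_le_pi_norm (m i) j).trans (norm_le_pi_norm m i)).trans hm.le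
  have hx : ∀ (x : E3) i j, |oext (m i j) x| ≤ 1 / 100 := fun x i j =>
    (base_oext_le _ _).trans (hmij i j)
  refine ⟨⟨?_, ?_, ?_⟩, ?_⟩
  · refine continuousOn_pi.2 fun i => continuousOn_pi.2 fun j => ?_
    refine continuousOn_const.add ((base_cont (m i j)).mono ?_)
    intro x hx'
    exact (le_of_lt hx' : 1 ≤ ‖x‖)
  · refine ⟨1 + 1 / 100, fun x _ i j => ?_⟩
    refine (abs_add_le _ _).trans (add_le_add ?_ (hx x i j))
    unfold dl
    split_ifs <;> simp
  · refine ⟨1 - 9 * (1 / 100), by norm_num, fun x _ v => ?_⟩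
    exact base_quad (fun i j => oext (m i j) x) (1 / 100) (hx x) v
  · intro x _
    exact base_det (fun i j => oext (m i j) x) (hx x)

/-- radial integration: `∫ (x · ∇φ) / |x|³ = 0` -/
theorem base_radial {φ : E3 → ℝ} (hφ : ContDiff ℝ 1 φ) (hc : HasCompactSupport φ)
    (hs : tsupport φ ⊆ Ext) :
    ∫ x : E3, fderiv ℝ φ x x / ‖x‖ ^ 3 = 0 := by
  obtain ⟨M, hM, hM2⟩ : ∃ M : ℝ, 0 < M ∧ ∀ x, M < ‖x‖ → φ x = 0 := by
    obtain ⟨M, hM⟩ := hc.isCompact.isBounded.exists_norm_le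
    refine ⟨max M 1, by positivity, fun x hx => ?_⟩
    apply image_eq_zero_of_notMem_tsupport
    intro hx2
    have := hM x hx2
    have := le_max_left M 1
    linarith
  have hM3 : ∀ x, M < ‖x‖ → fderiv ℝ φ x = 0 := by
    intro x hx
    have h1 : φ =ᶠ[𝓝 x] fun _ => 0 := by
      filter_upwards [(isOpen_lt continuous_const continuous_norm).mem_nhds hx] with y hy
      exact hM2 y hy
    rw [h1.fderiv_eq]; simp
  have hsm : ∀ x, ‖x‖ ≤ 1 → φ x = 0 ∧ fderiv ℝ φ x = 0 := by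
    intro x hx
    have h1 : x ∉ tsupport φ := fun h => by
      have : 1 < ‖x‖ := hs h
      linarith
    refine ⟨image_eq_zero_of_notMem_tsupport h1, ?_⟩
    exact image_eq_zero_of_notMem_tsupport (fun hh => h1 (tsupport_fderiv_subset ℝ hh))
  have hdc : Continuous (fderiv ℝ φ) := hφ.continuous_fderiv one_ne_zero
  obtain ⟨K, hK⟩ := (hc.fderiv (𝕜 := ℝ)).exists_bound_of_continuous hdc
  have hK0 : 0 ≤ K := (norm_nonneg _).trans (hK 0)
  -- the function
  set f : E3 → ℝ := fun x => φ x / ‖x‖ ^ 3 with hf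
  have hfc : Continuous f := by
    rw [continuous_iff_continuousAt]
    intro x
    by_cases hx : x = 0
    · have h1 : f =ᶠ[𝓝 x] fun _ => 0 := by
        have : Metric.ball (0 : E3) 1 ∈ 𝓝 x := by rw [hx]; exact Metric.ball_mem_nhds _ one_pos
        filter_upwards [this] with y hy
        rw [mem_ball_zero_iff] at hy
        simp only [hf]
        rw [(hsm y hy.le).1, zero_div]
      exact continuousAt_const.congr h1.symm
    · have : ‖x‖ ^ 3 ≠ 0 := pow_ne_zero 3 (norm_ne_zero_iff.2 hx)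
      exact (hφ.continuous.continuousAt).div (continuous_norm.pow 3).continuousAt this
  have hfs : HasCompactSupport f := by
    have : HasCompactSupport (fun x => φ x * (‖x‖ ^ 3)⁻¹) := hc.mul_right
    exact this
  have hfi : Integrable f := hfc.integrable_of_hasCompactSupport hfs
  -- scaling
  have hscale : ∀ t : ℝ, 0 < t → ∫ x : E3, φ (t • x) / ‖x‖ ^ 3 = ∫ x : E3, f x := by
    intro t ht
    have h1 : ∀ x : E3, φ (t • x) / ‖x‖ ^ 3 = t ^ 3 * f (t • x) := by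
      intro x
      simp only [hf]
      rw [norm_smul, Real.norm_of_nonneg ht.le, mul_pow]
      by_cases hx : ‖x‖ = 0
      · rw [hx]; simp
      · field_simp
    simp_rw [h1]
    rw [integral_const_mul, Measure.integral_comp_smul]
    rw [finrank_euclideanSpace, Fintype.card_fin, smul_eq_mul, ← mul_assoc,
      abs_of_pos (by positivity), mul_inv_cancel₀ (by positivity), one_mul]
  -- derivative
  have hder := hasDerivAt_integral_of_dominated_loc_of_deriv_le (μ := (volume : Measure E3))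
    (F := fun (t : ℝ) (x : E3) => φ (t • x) / ‖x‖ ^ 3)
    (F' := fun (t : ℝ) (x : E3) => fderiv ℝ φ (t • x) x / ‖x‖ ^ 3) (x₀ := 1)
    (s := Metric.ball (1 : ℝ) (1 / 2))
    (bound := (Metric.closedBall (0 : E3) (2 * M)).indicator fun _ => 4 * K)
    (Metric.ball_mem_nhds _ (by norm_num)) ?_ ?_ ?_ ?_ ?_ ?_
  · have h2 : HasDerivAt (fun t : ℝ => ∫ x : E3, φ (t • x) / ‖x‖ ^ 3) 0 1 := by
      refine (hasDerivAt_const (1 : ℝ) (∫ x : E3, f x)).congr_of_eventuallyEq ?_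
      filter_upwards [Ioi_mem_nhds one_pos] with t ht
      exact hscale t ht
    have h3 := hder.2.unique h2
    simp only [one_smul] at h3
    exact h3
  · refine Eventually.of_forall fun t => ?_
    have : Measurable (fun x : E3 => φ (t • x) / ‖x‖ ^ 3) :=
      (hφ.continuous.measurable.comp (measurable_const_smul t)).div (measurable_norm.pow_const 3)
    exact this.aestronglyMeasurable
  · simp only [one_smul]
    exact hfi
  · have : Measurable (fun x : E3 => fderiv ℝ φ ((1 : ℝ) • x) x / ‖x‖ ^ 3) := by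
      have h5 : Continuous (fun x : E3 => fderiv ℝ φ ((1 : ℝ) • x) x) :=
        (hdc.comp (continuous_const_smul _)).clm_apply continuous_id
      exact h5.measurable.div (measurable_norm.pow_const 3)
    exact this.aestronglyMeasurable
  · refine Eventually.of_forall fun x t ht => ?_
    rw [Metric.mem_ball, Real.dist_eq, abs_lt] at ht
    have ht1 : 1 / 2 < t := by linarith [ht.1]
    have ht2 : t < 3 / 2 := by linarith [ht.2]
    have hn : ‖t • x‖ = t * ‖x‖ := by rw [norm_smul, Real.norm_of_nonneg (by linarith)]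
    by_cases hsmall : ‖t • x‖ ≤ 1
    · rw [(hsm _ hsmall).2]
      simp only [zero_apply, zero_div, norm_zero]
      exact indicator_nonneg (fun _ _ => by positivity) x
    · push Not at hsmall
      by_cases hbig : M < ‖t • x‖
      · rw [hM3 _ hbig]
        simp only [zero_apply, zero_div, norm_zero]
        exact indicator_nonneg (fun _ _ => by positivity) x
      · push Not at hbig
        have hx0 : 0 ≤ ‖x‖ := norm_nonneg x
        have hx1 : 2 / 3 ≤ ‖x‖ := by rw [hn] at hsmall; nlinarith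
        have hx2 : ‖x‖ ≤ 2 * M := by rw [hn] at hbig; nlinarith
        rw [indicator_of_mem (by rwa [mem_closedBall_zero_iff])]
        rw [norm_div, norm_pow, norm_norm, div_le_iff₀ (by positivity)]
        have h6 : ‖fderiv ℝ φ (t • x) x‖ ≤ K * ‖x‖ :=
          ((fderiv ℝ φ (t • x)).le_opNorm x).trans (mul_le_mul_of_nonneg_right (hK _) hx0)
        refine h6.trans ?_
        have h7 : 4 / 9 ≤ ‖x‖ ^ 2 := by nlinarith
        have h8 : K * ‖x‖ ≤ K * ‖x‖ * (4 * ‖x‖ ^ 2) := by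
          have : 0 ≤ K * ‖x‖ := by positivity
          nlinarith
        calc K * ‖x‖ ≤ K * ‖x‖ * (4 * ‖x‖ ^ 2) := h8
          _ = 4 * K * ‖x‖ ^ 3 := by ring
  · rw [integrable_indicator_iff measurableSet_closedBall]
    exact integrableOn_const measure_closedBall_lt_top.ne
  · refine Eventually.of_forall fun x t ht => ?_
    have h1 : HasFDerivAt φ (fderiv ℝ φ (t • x)) (t • x) :=
      (hφ.differentiable one_ne_zero _).hasFDerivAt
    have h2 : HasDerivAt (fun t : ℝ => t • x) x t := by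
      simpa using (hasDerivAt_id t).smul_const x
    exact (h1.comp_hasDerivAt t h2).div_const _

theorem base_int {f : E3 → ℝ} {K : Set E3} (hK : IsCompact K) (hKD : K ⊆ Ext)
    (hf : ContinuousOn f Ext) (h0 : ∀ x ∈ Ext \ K, f x = 0) : IntegrableOn f Ext :=
  ((hf.mono hKD).integrableOn_compact hK).of_forall_sdiff_eq_zero
    base_isOpen_Ext.measurableSet h0

theorem base_mkE_norm (v : Fin 3 → ℝ) (B : ℝ) (h : ∀ j, |v j| ≤ B) : ‖mkE v‖ ≤ 3 * B := by
  have hB : 0 ≤ B := (abs_nonneg _).trans (h 0)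
  rw [EuclideanSpace.norm_eq]
  apply Real.sqrt_le_iff.2 ⟨by positivity, ?_⟩
  rw [Fin.sum_univ_three]
  simp only [mkE_apply, Real.norm_eq_abs]
  have h0 := pow_le_pow_left₀ (abs_nonneg _) (h 0) 2
  have h1 := pow_le_pow_left₀ (abs_nonneg _) (h 1) 2
  have h2 := pow_le_pow_left₀ (abs_nonneg _) (h 2) 2
  nlinarith [sq_nonneg B]

theorem base_oext_Mop (m : Fin 3 → Fin 3 → Y) (Z : Fin 3 → Y) (i : Fin 3) {x : E3}
    (hx : 1 ≤ ‖x‖) : oext (Mop m (thY + Z) i) x =
      ∑ j, oext (m i j) x * ((dirS x : E3) j + oext (Z j) x) := by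
  rw [base_oext _ hx]
  have h1 : Mop m (thY + Z) i = ∑ j, m i j * (thY + Z) j := by
    simp [Mop, ContinuousLinearMap.pi_apply]
  rw [h1, Y.sum_apply]
  refine Finset.sum_congr rfl fun j _ => ?_
  rw [Y.mul_apply, Pi.add_apply, Y.add_apply, thY_apply, base_oext _ hx, base_oext _ hx]

theorem base_decay1 (f : Y) {x : E3} (hx1 : 1 < ‖x‖) :
    |1 - 1 / ‖x‖ + oext f x / ‖x‖ - 1| ≤ 2 * (1 + ‖f‖) / (1 + ‖x‖) := by
  have hxp : 0 < ‖x‖ := by linarith
  have e : 1 - 1 / ‖x‖ + oext f x / ‖x‖ - 1 = (oext f x - 1) / ‖x‖ := by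
    field_simp; ring
  rw [e, abs_div, abs_of_pos hxp, div_le_div_iff₀ hxp (by linarith)]
  have h1 : |oext f x - 1| ≤ 1 + ‖f‖ := by
    refine (abs_sub _ _).trans ?_
    rw [abs_one]
    linarith [base_oext_le f x]
  have h2 : 0 ≤ |oext f x - 1| := abs_nonneg _
  have h3 : 0 ≤ 1 + ‖f‖ := h2.trans h1
  have h4 : |oext f x - 1| * (1 + ‖x‖) ≤ (1 + ‖f‖) * (2 * ‖x‖) :=
    mul_le_mul h1 (by linarith) (by positivity) h3
  linarith

theorem base_decay2 (Z : Fin 3 → Y) {x : E3} (hx1 : 1 < ‖x‖) :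
    ‖baseG Z x‖ ≤ 12 * (1 + ∑ j, ‖Z j‖) / (1 + ‖x‖) ^ 2 := by
  have hxp : 0 < ‖x‖ := by linarith
  rw [baseG, norm_smul, norm_inv, norm_pow, norm_norm]
  set B : ℝ := 1 + ∑ j, ‖Z j‖ with hB
  have hB0 : 0 ≤ B := by positivity
  have h1 : ‖mkE (fun j => (dirS x : E3) j + oext (Z j) x)‖ ≤ 3 * B := by
    apply base_mkE_norm
    intro j
    refine (abs_add_le _ _).trans (add_le_add ?_ ?_)
    · have := PiLp.norm_apply_le (dirS x : E3) j
      rw [norm_S2] at this
      exact this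
    · exact (base_oext_le _ _).trans (Finset.single_le_sum (f := fun j => ‖Z j‖)
        (fun _ _ => norm_nonneg _) (Finset.mem_univ j))
  rw [inv_mul_eq_div, div_le_div_iff₀ (by positivity) (by positivity)]
  have h2 : (1 + ‖x‖) ^ 2 ≤ (2 * ‖x‖) ^ 2 := pow_le_pow_left₀ (by positivity) (by linarith) 2
  have h3 := mul_le_mul h1 h2 (by positivity) (by positivity)
  calc ‖mkE (fun j => (dirS x : E3) j + oext (Z j) x)‖ * (1 + ‖x‖) ^ 2
      ≤ (3 * B) * (2 * ‖x‖) ^ 2 := h3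
    _ = 12 * B * ‖x‖ ^ 2 := by ring

theorem base_integrand (m : Fin 3 → Fin 3 → Y) (Z : Fin 3 → Y)
    (hZ : Z = TT (Mop m (thY + Z))) (φ : E3 → ℝ) {x : E3} (hx1 : 1 ≤ ‖x‖) :
    ∑ i, ∑ j, coefY m x i j * (baseG Z x) j * pd i φ x =
        fderiv ℝ φ x x / ‖x‖ ^ 3 +
        ∑ j, (oext (TT (Mop m (thY + Z)) j) x + oext (Mop m (thY + Z) j) x) *
          (‖x‖ ^ 2)⁻¹ * pd j φ x := by
  have hxn : x ≠ 0 := base_ne hx1
  have hn0 : ‖x‖ ≠ 0 := norm_ne_zero_iff.2 hxn
  have h3 : ∀ i, x i = ‖x‖ * (dirS x : E3) i := by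
    intro i
    rw [dirS_coe hxn, PiLp.smul_apply, smul_eq_mul, ← mul_assoc, mul_inv_cancel₀ hn0, one_mul]
  have hx2 : x = ∑ i, x i • bv i := by
    ext k
    simp [bv, Fin.sum_univ_three]
    fin_cases k <;> simp
  have h4 : fderiv ℝ φ x x = ∑ i, x i * pd i φ x := by
    have : fderiv ℝ φ x (∑ i, x i • bv i) = ∑ i, x i * pd i φ x := by
      rw [map_sum]
      refine Finset.sum_congr rfl fun i _ => ?_
      rw [map_smul, smul_eq_mul, pd]
    rw [← this, ← hx2]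
  have e1 : fderiv ℝ φ x x = ‖x‖ * ∑ i, (dirS x : E3) i * pd i φ x := by
    rw [h4, Finset.mul_sum]
    refine Finset.sum_congr rfl fun i _ => ?_
    rw [h3 i]; ring
  have e2 : ∀ j, oext (Mop m (thY + Z) j) x =
      ∑ k, oext (m j k) x * ((dirS x : E3) k + oext (Z k) x) :=
    fun j => base_oext_Mop m Z j hx1
  rw [e1, ← hZ]
  simp only [e2]
  have e3 : ∀ i, ∑ j, coefY m x i j * (baseG Z x) j * pd i φ x =
      (‖x‖ ^ 2)⁻¹ * (((dirS x : E3) i + oext (Z i) x) +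
        ∑ k, oext (m i k) x * ((dirS x : E3) k + oext (Z k) x)) * pd i φ x := by
    intro i
    have e4 : ∑ j, dl i j * ((dirS x : E3) j + oext (Z j) x) = (dirS x : E3) i + oext (Z i) x := by
      simp [dl]
    rw [← e4, ← Finset.sum_add_distrib, Finset.mul_sum, Finset.sum_mul]
    refine Finset.sum_congr rfl fun j _ => ?_
    simp only [coefY, baseG, PiLp.smul_apply, mkE_apply, smul_eq_mul]
    ring
  simp only [e3]
  rw [show ‖x‖ * ∑ i, (dirS x : E3) i * pd i φ x = ∑ i, ‖x‖ * ((dirS x : E3) i * pd i φ x) from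
    Finset.mul_sum _ _ _, Finset.sum_div, ← Finset.sum_add_distrib]
  refine Finset.sum_congr rfl fun i _ => ?_
  field_simp
  ring

theorem base_weak (m : Fin 3 → Fin 3 → Y) (Z : Fin 3 → Y)
    (hZ : Z = TT (Mop m (thY + Z))) (φ : E3 → ℝ) (hφ : ContDiff ℝ 1 φ) (hc : HasCompactSupport φ)
    (hs : tsupport φ ⊆ Ext) :
    ∫ x in Ext, ∑ i, ∑ j, coefY m x i j * (baseG Z x) j * pd i φ x = 0 := by
  have hcl : Ext ⊆ {x : E3 | 1 ≤ ‖x‖} := fun x hx => (le_of_lt hx : 1 ≤ ‖x‖)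
  have hpdc : ∀ i, Continuous (pd i φ) := fun i =>
    (hφ.continuous_fderiv one_ne_zero).clm_apply continuous_const
  have hfd0 : ∀ x, x ∉ tsupport φ → fderiv ℝ φ x = 0 := fun x hx =>
    image_eq_zero_of_notMem_tsupport (fun hh => hx (tsupport_fderiv_subset ℝ hh))
  have hpd0 : ∀ i x, x ∉ tsupport φ → pd i φ x = 0 := by
    intro i x hx
    rw [pd, hfd0 x hx]; simp
  have hw := TT_weak (Mop m (thY + Z)) φ hφ hc hs
  have hr := base_radial hφ hc hs
  have hinv : ContinuousOn (fun x : E3 => (‖x‖ ^ 2)⁻¹) Ext :=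
    (continuous_norm.pow 2).continuousOn.inv₀ fun x hx =>
      pow_ne_zero 2 (norm_ne_zero_iff.2 (base_ne (hcl hx)))
  have i1 : IntegrableOn (fun x : E3 => fderiv ℝ φ x x / ‖x‖ ^ 3) Ext := by
    refine base_int hc hs ?_ ?_
    · refine ContinuousOn.div ?_ (continuous_norm.pow 3).continuousOn fun x hx =>
        pow_ne_zero 3 (norm_ne_zero_iff.2 (base_ne (hcl hx)))
      exact ((hφ.continuous_fderiv one_ne_zero).clm_apply continuous_id).continuousOn
    · intro x hx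
      rw [hfd0 x hx.2]; simp
  have i2 : IntegrableOn (fun y => ∑ j, (oext (TT (Mop m (thY + Z)) j) y +
      oext (Mop m (thY + Z) j) y) * (‖y‖ ^ 2)⁻¹ * pd j φ y) Ext := by
    refine base_int hc hs ?_ ?_
    · refine continuousOn_finsetSum _ fun j _ => ?_
      exact ((((base_cont _).mono hcl).add ((base_cont _).mono hcl)).mul hinv).mul
        (hpdc j).continuousOn
    · intro x hx
      simp [hpd0 _ x hx.2]
  have hr2 : ∫ x in Ext, fderiv ℝ φ x x / ‖x‖ ^ 3 = 0 := by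
    rw [setIntegral_eq_integral_of_forall_compl_eq_zero, hr]
    intro x hx
    rw [hfd0 x (fun h => hx (hs h))]; simp
  rw [setIntegral_congr_fun base_isOpen_Ext.measurableSet
    (fun x hx => base_integrand m Z hZ φ (hcl hx)), integral_add i1 i2, hr2, hw, add_zero]

theorem base_pot (m : Fin 3 → Fin 3 → Y) (hm : ‖m‖ < 1 / 2) (Z : Fin 3 → Y)
    (hZ : Z = TT (Mop m (thY + Z))) :
    IsPot (coefY m) Ext (fun x => 1 - 1 / ‖x‖ + oext (Nu (Mop m (thY + Z))) x / ‖x‖)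
      (fun x => (‖x‖ ^ 2)⁻¹ • mkE (fun j => (dirS x : E3) j + oext (Z j) x)) := by
  refine ⟨?_, ?_, ?_, ?_, ?_⟩
  · intro x hx
    rw [base_frontier] at hx
    exact base_U_bdry _ hx
  · intro x hx
    rw [base_closure] at hx ⊢
    have := base_grad (Mop m (thY + Z)) hx
    rw [← hZ] at this
    exact this
  · rw [base_closure]
    exact base_G_cont Z
  · refine ⟨2 * (1 + ‖Nu (Mop m (thY + Z))‖) + 12 * (1 + ∑ j, ‖Z j‖), fun x hx => ?_⟩
    have hx1 : 1 < ‖x‖ := hx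
    have hB0 : 0 ≤ 12 * (1 + ∑ j, ‖Z j‖) := by positivity
    have hN0 : 0 ≤ 2 * (1 + ‖Nu (Mop m (thY + Z))‖) := by positivity
    constructor
    · refine (base_decay1 _ hx1).trans ?_
      gcongr
      linarith
    · refine (base_decay2 Z hx1).trans ?_
      gcongr
      linarith
  · intro φ hφ hc hs
    exact base_weak m Z hZ φ hφ hc hs

end

end Pool.Agent.BS
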