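import Pool.Agent.BS.Defs3

/-!
# Definitions, part 4
-/

namespace Pool.Agent.BS

open MeasureTheory Topology Set Filter
open scoped ContDiff

noncomputable section

/-- Poisson kernel of the unit ball -/
def pk (x : E3) (η : S2) : ℝ := (1 - ‖x‖ ^ 2) / (4 * Real.pi * ‖x - (η : E3)‖ ^ 3)

/-- Poisson integral -/
def PE (f : C(S2, ℝ)) (x : E3) : ℝ := ∫ η, pk x η * f η ∂sig

/-- radial part of a vector field -/
def frad (F : Fin 3 → Y) : Y := ∑ j, thY j * F j

/-- `θ × F` -/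
def ftan (F : Fin 3 → Y) (k : Fin 3) : Y := cr thY F k

/-- `L_k w` for `w` in `X` -/
def LX (w : Fin 4 → Y) (k : Fin 3) : Y := cr thY (fun a => w a.succ) k

/-- the linearised right hand side `m₁ θ` for a graph `w` -/
def Fw (w : Fin 4 → Y) (j : Fin 3) : Y := (chY - chpY) * w 0 * thY j - chY * w j.succ

/-- the first variation of `mY` -/
def m1Y (z : Fin 4 → Y) (h : Fin 3 → Fin 3 → Y) (i j : Fin 3) : Y :=
  (chY + chpY) * z 0 * dl i j - thY i * qY z j - qY z i * thY j + h i j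

/-- the field on `E3` given by a matrix of elements of `Y` -/
def fieldY (h : Fin 3 → Fin 3 → Y) : E3 → M3 := fun x i j => oext (h i j) x

/-- star-shaped region `{b + s R (1 + w(θ)) θ : 0 ≤ s ≤ 1}` -/
def starR (b : E3) (R : ℝ) (w : S2 → ℝ) : Set E3 :=
  {x | ∃ s : ℝ, ∃ θ : S2, 0 ≤ s ∧ s ≤ 1 ∧ x = b + (s * R * (1 + w θ)) • (θ : E3)}

/-- its boundary -/
def starB (b : E3) (R : ℝ) (w : S2 → ℝ) : Set E3 :=
  {x | ∃ θ : S2, x = b + (R * (1 + w θ)) • (θ : E3)}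

/-- rotation taking `θ₀` to the direction of `θ₀ + v` -/
def Rot (θ₀ : S2) (v x : E3) : E3 :=
  let n : E3 := (dirS ((θ₀ : E3) + v) : E3)
  let c : ℝ := inner ℝ (θ₀ : E3) n
  let k : E3 := mkE (cr (fun i => (θ₀ : E3) i) (fun i => n i))
  c • x + mkE (cr (fun i => k i) (fun i => x i)) + (inner ℝ k x / (1 + c)) • k

/-- cut-off affine map -/
def psiL (θ₀ : S2) (p : E3 × ℝ × E3) (y : E3) : E3 :=
  y + Real.smoothTransition (3 - ‖y‖) • (p.1 + (1 + p.2.1) • Rot θ₀ p.2.2 y - y)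

/-- pull-back of a coefficient field: `J (DΦ)⁻¹ (A ∘ Φ) (DΦ)⁻ᵀ` -/
def pbM (Φ : E3 → E3) (A : E3 → M3) (y : E3) : M3 := fun i j =>
  det3 (DM Φ y) * ((Matrix.of (DM Φ y))⁻¹ * Matrix.of (A (Φ y)) *
    ((Matrix.of (DM Φ y))⁻¹).transpose) i j

/-- the family of coefficient fields (minus the identity) -/
def HL (A : E3 → M3) (θ₀ : S2) (p : E3 × ℝ × E3) : E3 → M3 :=
  fun y i j => pbM (psiL θ₀ p) A y i j - dl i j

/-- translated and rescaled field -/
def HbR (H : E3 → M3) (b : E3) (R : ℝ) : E3 → M3 := fun y => H (b + R • y)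

/-- cut-off near infinity -/
def eta (r : ℝ) : ℝ := Real.smoothTransition (r - 2)

/-- `η (g - δ)` -/
def hh (g : E3 → M3) (x : E3) : M3 := fun i j => eta ‖x‖ * (g x i j - dl i j)

/-- the metric `δ + η (g - δ)` on all of `E3` -/
def gh (g : E3 → M3) (x : E3) : M3 := fun i j => dl i j + hh g x i j

/-- coefficient field `√ĝ ĝ⁻¹` -/
def Ag (g : E3 → M3) (x : E3) : M3 := fun i j => sqg (gh g) x * ginv (gh g) x i j

/-- `√ĝ ĝ⁻¹ - 1` -/
def HA (g : E3 → M3) (x : E3) : M3 := fun i j => Ag g x i j - dl i j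

/-- its first order part `(1/2) tr h - h` -/
def H1 (h : E3 → M3) (x : E3) : M3 := fun i j => (1 / 2) * tr3 (h x) * dl i j - h x i j

end

end Pool.Agent.BS
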