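import Pool.Agent.BS.Polar
import Pool.Agent.BS.Defs4

/-!
# Divergence formula in polar coordinates
`flux_div`: derivative of the flux of a `C^1` vector field (on `E3` minus the origin) through the
sphere of radius `r`.
-/

namespace Pool.Agent.BS

open MeasureTheory Topology Set Filter
open scoped ContDiff

noncomputable section

theorem flux_norm_fd {y : E3} (hy : y ≠ 0) :
    HasFDerivAt (fun y : E3 => ‖y‖) (‖y‖⁻¹ • innerSL ℝ y) y := by
  have h1 : HasFDerivAt (fun x : E3 => ‖x‖ ^ 2) (2 • (innerSL ℝ y)) y :=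
    (hasStrictFDerivAt_norm_sq y).hasFDerivAt
  have h0 : ‖y‖ ≠ 0 := norm_ne_zero_iff.2 hy
  have h2 := h1.sqrt (pow_ne_zero 2 h0)
  have h3 : (fun y : E3 => Real.sqrt (‖y‖ ^ 2)) = fun y : E3 => ‖y‖ := by
    funext z; exact Real.sqrt_sq (norm_nonneg z)
  rw [h3, Real.sqrt_sq (norm_nonneg y)] at h2
  refine h2.congr_fderiv ?_
  ext v
  simp
  field_simp

theorem flux_inv_fd {y : E3} (hy : y ≠ 0) :
    HasFDerivAt (fun y : E3 => ‖y‖⁻¹) (-(‖y‖ ^ 3)⁻¹ • innerSL ℝ y) y := by
  have h0 : ‖y‖ ≠ 0 := norm_ne_zero_iff.2 hy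
  have h := (hasDerivAt_inv h0).comp_hasFDerivAt y (flux_norm_fd hy)
  refine h.congr_fderiv ?_
  ext v
  simp
  field_simp

theorem flux_dir_fd {y : E3} (hy : y ≠ 0) :
    HasFDerivAt (fun y : E3 => ‖y‖⁻¹ • y) (‖y‖⁻¹ • ContinuousLinearMap.id ℝ E3 +
      (-(‖y‖ ^ 3)⁻¹ • innerSL ℝ y).smulRight y) y := by
  exact (flux_inv_fd hy).smul (hasFDerivAt_id y)

theorem flux_chi_contDiff : ContDiff ℝ ∞ chi := by
  unfold chi
  exact (Real.smoothTransition.contDiff.comp (by fun_prop)).mul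
    (Real.smoothTransition.contDiff.comp (by fun_prop))

theorem flux_chi_zero {r : ℝ} (hr : r ≤ 1 / 2) : chi r = 0 := by
  unfold chi
  rw [Real.smoothTransition.zero_of_nonpos (by linarith), zero_mul]

theorem flux_chi_zero' {r : ℝ} (hr : 3 ≤ r) : chi r = 0 := by
  unfold chi
  rw [Real.smoothTransition.zero_of_nonpos (x := 3 - r) (by linarith), mul_zero]

theorem flux_chi_nonneg (r : ℝ) : 0 ≤ chi r := by
  unfold chi
  exact mul_nonneg (Real.smoothTransition.nonneg _) (Real.smoothTransition.nonneg _)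

theorem flux_chi_one : chi 1 = 1 := by
  unfold chi
  rw [Real.smoothTransition.one_of_one_le (by norm_num),
    Real.smoothTransition.one_of_one_le (by norm_num), mul_one]

theorem flux_chi_supp : HasCompactSupport chi := by
  refine HasCompactSupport.intro (isCompact_Icc (a := (1 / 2 : ℝ)) (b := 3)) (fun x hx => ?_)
  by_cases h : x ≤ 1 / 2
  · exact flux_chi_zero h
  · have : ¬ x ≤ 3 := fun h' => hx ⟨(not_le.1 h).le, h'⟩
    exact flux_chi_zero' (not_le.1 this).le

/-- test field -/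
def fluxW (V : E3 → ℝ) (y : E3) : ℝ := chi ‖y‖ * V (‖y‖⁻¹ • y)

theorem fluxW_zero {V : E3 → ℝ} {y : E3} (hy : ‖y‖ ≤ 1 / 2) : fluxW V y = 0 := by
  unfold fluxW
  rw [flux_chi_zero hy, zero_mul]

theorem fluxW_supp (V : E3 → ℝ) : HasCompactSupport (fluxW V) := by
  refine HasCompactSupport.intro (isCompact_closedBall (0 : E3) 3) (fun x hx => ?_)
  have : 3 ≤ ‖x‖ := by
    by_contra h
    apply hx
    rw [mem_closedBall_zero_iff]
    exact (not_le.1 h).le
  unfold fluxW
  rw [flux_chi_zero' this, zero_mul]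

theorem fluxN_ne {y : E3} (hy : y ≠ 0) : ‖y‖⁻¹ • y ≠ 0 :=
  smul_ne_zero (inv_ne_zero (norm_ne_zero_iff.2 hy)) hy

theorem fluxW_contDiff {V : E3 → ℝ} (hV : ContDiffOn ℝ 1 V {0}ᶜ) : ContDiff ℝ 1 (fluxW V) := by
  rw [contDiff_iff_contDiffAt]
  intro y
  by_cases hy : y = 0
  · subst hy
    have h : fluxW V =ᶠ[𝓝 0] fun _ => 0 := by
      filter_upwards [Metric.ball_mem_nhds (0 : E3) (by norm_num : (0 : ℝ) < 1 / 2)] with x hx
      exact fluxW_zero (mem_ball_zero_iff.1 hx).le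
    exact contDiffAt_const.congr_of_eventuallyEq h
  · have h1 : ContDiffAt ℝ 1 (fun y : E3 => ‖y‖) y := contDiffAt_norm ℝ hy
    have h2 : ContDiffAt ℝ 1 (fun y : E3 => ‖y‖⁻¹ • y) y :=
      (h1.inv (norm_ne_zero_iff.2 hy)).smul contDiffAt_id
    have h3 : ContDiffAt ℝ 1 V (‖y‖⁻¹ • y) :=
      hV.contDiffAt (isOpen_compl_singleton.mem_nhds (fluxN_ne hy))
    have h4 : ContDiffAt ℝ 1 (fun y : E3 => chi ‖y‖) y :=
      ContDiffAt.comp y ((flux_chi_contDiff.of_le (by exact_mod_cast le_top)).contDiffAt) h1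
    have h5 : ContDiffAt ℝ 1 (fun y : E3 => V (‖y‖⁻¹ • y)) y := ContDiffAt.comp y h3 h2
    exact h4.mul h5

theorem fluxW_pd {V : E3 → ℝ} (hV : ContDiffOn ℝ 1 V {0}ᶜ) (b : Fin 3) {r : ℝ} (hr : 0 < r)
    (θ : S2) : pd b (fluxW V) (r • (θ : E3)) =
      deriv chi r * ((θ : E3) b * V θ) +
        chi r * r⁻¹ * (fderiv ℝ V θ (bv b) - (θ : E3) b * fderiv ℝ V θ (θ : E3)) := by
  have hθ := S2_ne_zero θ
  have hy : r • (θ : E3) ≠ 0 := smul_ne_zero hr.ne' hθ
  have hn : ‖r • (θ : E3)‖ = r := by rw [norm_smul, norm_S2, mul_one, Real.norm_of_nonneg hr.le]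
  have hN : r⁻¹ • r • (θ : E3) = θ := by rw [smul_smul, inv_mul_cancel₀ hr.ne', one_smul]
  have h1 := flux_norm_fd hy
  have h2 := flux_dir_fd hy
  have hV1 : HasFDerivAt V (fderiv ℝ V (θ : E3)) (θ : E3) :=
    ((hV.contDiffAt (isOpen_compl_singleton.mem_nhds hθ)).differentiableAt
      one_ne_zero).hasFDerivAt
  have hc : HasDerivAt chi (deriv chi r) r :=
    (flux_chi_contDiff.differentiable (by simp)).differentiableAt.hasDerivAt
  rw [hn] at h1 h2
  have h3 : HasFDerivAt (fun y : E3 => chi ‖y‖) (deriv chi r • (r⁻¹ • innerSL ℝ (r • (θ : E3))))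
      (r • (θ : E3)) := by
    have hc' : HasDerivAt chi (deriv chi r) ‖r • (θ : E3)‖ := by rw [hn]; exact hc
    exact hc'.comp_hasFDerivAt _ h1
  have h4 : HasFDerivAt (fun y : E3 => V (‖y‖⁻¹ • y)) ((fderiv ℝ V (θ : E3)).comp
      (r⁻¹ • ContinuousLinearMap.id ℝ E3 +
      (-(r ^ 3)⁻¹ • innerSL ℝ (r • (θ : E3))).smulRight (r • (θ : E3)))) (r • (θ : E3)) := by
    have hV1' : HasFDerivAt V (fderiv ℝ V (θ : E3))
        ((fun y : E3 => ‖y‖⁻¹ • y) (r • (θ : E3))) := by
      simp only [hn, hN]; exact hV1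
    exact HasFDerivAt.comp (f := fun y : E3 => ‖y‖⁻¹ • y) _ hV1' h2
  have h5 := h3.mul h4
  have h6 : fderiv ℝ (fluxW V) (r • (θ : E3)) = _ := h5.fderiv
  unfold pd
  rw [h6]
  simp only [hn, hN]
  have hin : inner ℝ (θ : E3) (bv b) = (θ : E3) b := by
    rw [bv, EuclideanSpace.inner_single_right]; simp
  simp only [add_apply, smul_apply,
    ContinuousLinearMap.comp_apply, ContinuousLinearMap.smulRight_apply,
    ContinuousLinearMap.id_apply, innerSL_apply_apply, map_add, map_smul, smul_eq_mul, hin]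
  simp
  field_simp
  ring

theorem flux_int_pd {W : E3 → ℝ} (hW : ContDiff ℝ 1 W) (hc : HasCompactSupport W) (b : Fin 3) :
    ∫ x, pd b W x = 0 := by
  have h := integral_mul_fderiv_eq_neg_fderiv_mul_of_integrable (μ := (volume : Measure E3))
    (f := fun _ : E3 => (1 : ℝ)) (g := W) (v := bv b) (by simp) ?_ ?_ (fun _ _ => by fun_prop)
    (fun x _ => (hW.differentiable one_ne_zero) x)
  · simpa [pd] using h
  · simp only [one_mul]
    exact ((hW.continuous_fderiv one_ne_zero).clm_apply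
      continuous_const).integrable_of_hasCompactSupport (hc.fderiv_apply ℝ (bv b))
  · simp only [one_mul]
    exact hW.continuous.integrable_of_hasCompactSupport hc

theorem flux_cont1 {V : E3 → ℝ} (hV : ContDiffOn ℝ 1 V {0}ᶜ) : Continuous (fun θ : S2 => V θ) :=
  hV.continuousOn.comp_continuous continuous_subtype_val (fun θ => S2_ne_zero θ)

theorem flux_cont2 {V : E3 → ℝ} (hV : ContDiffOn ℝ 1 V {0}ᶜ) :
    Continuous (fun θ : S2 => fderiv ℝ V (θ : E3)) :=
  (hV.continuousOn_fderiv_of_isOpen isOpen_compl_singleton le_rfl).comp_continuous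
    continuous_subtype_val (fun θ => S2_ne_zero θ)

theorem flux_sig_int {f : S2 → ℝ} (hf : Continuous f) : Integrable f sig :=
  hf.integrable_of_hasCompactSupport (HasCompactSupport.of_compactSpace f)

theorem flux_chi_K : 0 < ∫ r in Ioi (0 : ℝ), r * chi r := by
  have h1 : ∫ r in Ioi (0 : ℝ), r * chi r = ∫ r, r * chi r := by
    refine setIntegral_eq_integral_of_forall_compl_eq_zero (fun x hx => ?_)
    rw [flux_chi_zero (by have := not_lt.1 (fun h => hx (mem_Ioi.2 h)); linarith), mul_zero]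
  rw [h1]
  refine Continuous.integral_pos_of_hasCompactSupport_nonneg_nonzero (x := 1) ?_ ?_ ?_ ?_
  · exact continuous_id.mul flux_chi_contDiff.continuous
  · exact flux_chi_supp.mul_left
  · intro x
    show 0 ≤ x * chi x
    by_cases h : 0 ≤ x
    · exact mul_nonneg h (flux_chi_nonneg x)
    · rw [flux_chi_zero (by linarith), mul_zero]
  · simp [flux_chi_one]

theorem flux_chi_ibp : ∫ r in Ioi (0 : ℝ), r ^ 2 * deriv chi r =
    -2 * ∫ r in Ioi (0 : ℝ), r * chi r := by
  have hcd : Continuous (deriv chi) := flux_chi_contDiff.continuous_deriv (by simp)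
  have hI1 : IntegrableOn (fun r : ℝ => r ^ 2 * deriv chi r) (Ioi 0) :=
    (((continuous_pow 2).mul hcd).integrable_of_hasCompactSupport
      (flux_chi_supp.deriv.mul_left)).integrableOn
  have hI2 : IntegrableOn (fun r : ℝ => r * chi r) (Ioi 0) :=
    ((continuous_id.mul flux_chi_contDiff.continuous).integrable_of_hasCompactSupport
      (flux_chi_supp.mul_left)).integrableOn
  have hd : ∀ r ∈ Ici (0 : ℝ), HasDerivAt (fun r : ℝ => r ^ 2 * chi r)
      (2 * (r * chi r) + r ^ 2 * deriv chi r) r := by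
    intro r _
    have hc : HasDerivAt chi (deriv chi r) r :=
      (flux_chi_contDiff.differentiable (by simp)).differentiableAt.hasDerivAt
    refine ((hasDerivAt_pow 2 r).mul hc).congr_deriv ?_
    push_cast
    ring
  have ht : Tendsto (fun r : ℝ => r ^ 2 * chi r) atTop (𝓝 0) := by
    refine tendsto_const_nhds.congr' ?_
    filter_upwards [eventually_ge_atTop (3 : ℝ)] with r hr
    rw [flux_chi_zero' hr, mul_zero]
  have h := integral_Ioi_of_hasDerivAt_of_tendsto' hd ((hI2.const_mul 2).add hI1) ht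
  rw [integral_add (hI2.const_mul 2) hI1, integral_const_mul] at h
  simp at h
  linarith

/-- divergence formula on the unit sphere -/
theorem flux_sphere {V : Fin 3 → E3 → ℝ} (hV : ∀ j, ContDiffOn ℝ 1 (V j) {0}ᶜ) :
    ∫ θ : S2, ∑ b, pd b (V b) θ ∂sig =
      ∫ θ : S2, ∑ b, (θ : E3) b * fderiv ℝ (V b) θ (θ : E3) ∂sig +
        2 * ∫ θ : S2, ∑ b, (θ : E3) b * V b θ ∂sig := by
  have hcoord : ∀ b : Fin 3, Continuous (fun θ : S2 => (θ : E3) b) := fun b => by fun_prop
  have hc1 : Continuous (fun θ : S2 => ∑ b, (θ : E3) b * V b θ) :=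
    continuous_finsetSum _ (fun b _ => (hcoord b).mul (flux_cont1 (hV b)))
  have hc2 : Continuous (fun θ : S2 => ∑ b, pd b (V b) θ) :=
    continuous_finsetSum _ (fun b _ => (flux_cont2 (hV b)).clm_apply continuous_const)
  have hc3 : Continuous (fun θ : S2 => ∑ b, (θ : E3) b * fderiv ℝ (V b) θ (θ : E3)) :=
    continuous_finsetSum _ (fun b _ => (hcoord b).mul
      ((flux_cont2 (hV b)).clm_apply continuous_subtype_val))
  set c1 := ∫ θ : S2, ∑ b, (θ : E3) b * V b θ ∂sig with hc1d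
  set c2 := ∫ θ : S2, ∑ b, pd b (V b) θ ∂sig with hc2d
  set c3 := ∫ θ : S2, ∑ b, (θ : E3) b * fderiv ℝ (V b) θ (θ : E3) ∂sig with hc3d
  have hW : ∀ b, ContDiff ℝ 1 (fluxW (V b)) := fun b => fluxW_contDiff (hV b)
  have hint : ∀ b, Integrable (fun x => pd b (fluxW (V b)) x) := fun b =>
    (((hW b).continuous_fderiv one_ne_zero).clm_apply
      continuous_const).integrable_of_hasCompactSupport ((fluxW_supp (V b)).fderiv_apply ℝ (bv b))
  have h0 : ∫ x, ∑ b, pd b (fluxW (V b)) x = 0 := by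
    rw [integral_finsetSum _ (fun b _ => hint b)]
    refine Finset.sum_eq_zero (fun b _ => flux_int_pd (hW b) (fluxW_supp (V b)) b)
  rw [polar_integral (integrable_finsetSum _ (fun b _ => hint b))] at h0
  have h1 : ∀ r ∈ Ioi (0 : ℝ), r ^ 2 * ∫ θ : S2, ∑ b, pd b (fluxW (V b)) (r • (θ : E3)) ∂sig =
      c1 * (r ^ 2 * deriv chi r) + (c2 - c3) * (r * chi r) := by
    intro r hr
    have hr0 : (0 : ℝ) < r := hr
    have h2 : ∀ θ : S2, ∑ b, pd b (fluxW (V b)) (r • (θ : E3)) =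
        deriv chi r * (∑ b, (θ : E3) b * V b θ) + chi r * r⁻¹ * ((∑ b, pd b (V b) θ) -
          ∑ b, (θ : E3) b * fderiv ℝ (V b) θ (θ : E3)) := by
      intro θ
      rw [Finset.mul_sum, ← Finset.sum_sub_distrib, Finset.mul_sum, ← Finset.sum_add_distrib]
      exact Finset.sum_congr rfl (fun b _ => fluxW_pd (hV b) b hr0 θ)
    simp only [h2]
    rw [integral_add, integral_const_mul, integral_const_mul, integral_sub]
    · rw [← hc1d, ← hc2d, ← hc3d]
      field_simp
    · exact flux_sig_int hc2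
    · exact flux_sig_int hc3
    · exact flux_sig_int (continuous_const.mul hc1)
    · exact flux_sig_int (continuous_const.mul (hc2.sub hc3))
  have hcd : Continuous (deriv chi) := flux_chi_contDiff.continuous_deriv (by simp)
  have hI1 : IntegrableOn (fun r : ℝ => r ^ 2 * deriv chi r) (Ioi 0) :=
    (((continuous_pow 2).mul hcd).integrable_of_hasCompactSupport
      (flux_chi_supp.deriv.mul_left)).integrableOn
  have hI2 : IntegrableOn (fun r : ℝ => r * chi r) (Ioi 0) :=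
    ((continuous_id.mul flux_chi_contDiff.continuous).integrable_of_hasCompactSupport
      (flux_chi_supp.mul_left)).integrableOn
  rw [setIntegral_congr_fun measurableSet_Ioi h1,
    integral_add (hI1.const_mul c1) (hI2.const_mul (c2 - c3)),
    integral_const_mul, integral_const_mul, flux_chi_ibp] at h0
  have hK := flux_chi_K
  have h3 : (∫ r in Ioi (0 : ℝ), r * chi r) * ((c2 - c3) - 2 * c1) = 0 := by linarith
  rcases mul_eq_zero.1 h3 with h4 | h4
  · exact absurd h4 hK.ne'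
  · linarith

theorem flux_scale_fd {V : E3 → ℝ} (hV : ContDiffOn ℝ 1 V {0}ᶜ) {r : ℝ} (hr : 0 < r) {y : E3}
    (hy : y ≠ 0) : HasFDerivAt (fun y => V (r • y)) (r • fderiv ℝ V (r • y)) y := by
  have h1 : HasFDerivAt V (fderiv ℝ V (r • y)) (r • y) :=
    ((hV.contDiffAt (isOpen_compl_singleton.mem_nhds (smul_ne_zero hr.ne' hy))).differentiableAt
      one_ne_zero).hasFDerivAt
  have h2 : HasFDerivAt (fun y : E3 => r • y) (r • ContinuousLinearMap.id ℝ E3) y :=
    (hasFDerivAt_id y).const_smul r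
  refine (HasFDerivAt.comp (f := fun y : E3 => r • y) y h1 h2).congr_fderiv ?_
  ext v
  simp

theorem flux_scale_cd {V : E3 → ℝ} (hV : ContDiffOn ℝ 1 V {0}ᶜ) {r : ℝ} (hr : 0 < r) :
    ContDiffOn ℝ 1 (fun y => V (r • y)) {0}ᶜ := by
  refine hV.comp (contDiff_const_smul r).contDiffOn (fun y hy => ?_)
  exact smul_ne_zero hr.ne' hy

theorem flux_radial {V : Fin 3 → E3 → ℝ} (hV : ∀ j, ContDiffOn ℝ 1 (V j) {0}ᶜ) {r : ℝ}
    (hr : 0 < r) :
    HasDerivAt (fun r => ∫ θ : S2, ∑ b, (θ : E3) b * V b (r • (θ : E3)) ∂sig)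
      (∫ θ : S2, ∑ b, (θ : E3) b * fderiv ℝ (V b) (r • (θ : E3)) (θ : E3) ∂sig) r := by
  have hcoord : ∀ b : Fin 3, Continuous (fun θ : S2 => (θ : E3) b) := fun b => by fun_prop
  have hne : ∀ s : ℝ, 0 < s → ∀ θ : S2, s • (θ : E3) ∈ ({0}ᶜ : Set E3) := fun s hs θ =>
    smul_ne_zero hs.ne' (S2_ne_zero θ)
  -- uniform bound
  have hcpt : IsCompact (Icc (r / 2) (2 * r) ×ˢ (univ : Set S2)) :=
    isCompact_Icc.prod isCompact_univ
  have hcont : ContinuousOn (fun p : ℝ × S2 =>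
      ∑ b, (p.2 : E3) b * fderiv ℝ (V b) (p.1 • (p.2 : E3)) (p.2 : E3))
      (Icc (r / 2) (2 * r) ×ˢ (univ : Set S2)) := by
    refine continuousOn_finsetSum _ (fun b _ => ?_)
    refine ContinuousOn.mul (by fun_prop) ?_
    refine ContinuousOn.clm_apply ?_ (by fun_prop)
    refine ((hV b).continuousOn_fderiv_of_isOpen isOpen_compl_singleton le_rfl).comp
      (by fun_prop) ?_
    rintro ⟨s, θ⟩ ⟨hs, _⟩
    exact hne s (lt_of_lt_of_le (by linarith) hs.1) θ
  obtain ⟨C, hC⟩ := hcpt.exists_bound_of_continuousOn hcont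
  have hslice : ∀ s : ℝ, 0 < s → Continuous
      (fun θ : S2 => ∑ b, (θ : E3) b * V b (s • (θ : E3))) := fun s hs =>
    continuous_finsetSum _ (fun b _ => (hcoord b).mul
      ((hV b).continuousOn.comp_continuous (by fun_prop) (hne s hs)))
  have hslice' : ∀ s : ℝ, 0 < s → Continuous
      (fun θ : S2 => ∑ b, (θ : E3) b * fderiv ℝ (V b) (s • (θ : E3)) (θ : E3)) := fun s hs =>
    continuous_finsetSum _ (fun b _ => (hcoord b).mul
      ((((hV b).continuousOn_fderiv_of_isOpen isOpen_compl_singleton le_rfl).comp_continuous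
        (by fun_prop) (hne s hs)).clm_apply continuous_subtype_val))
  have hball : ∀ s ∈ Metric.ball r (r / 2), r / 2 < s ∧ s < 2 * r := by
    intro s hs
    rw [Real.ball_eq_Ioo] at hs
    exact ⟨by linarith [hs.1], by linarith [hs.2]⟩
  refine (hasDerivAt_integral_of_dominated_loc_of_deriv_le (μ := sig)
    (F := fun s θ => ∑ b, (θ : E3) b * V b (s • (θ : E3)))
    (F' := fun s θ => ∑ b, (θ : E3) b * fderiv ℝ (V b) (s • (θ : E3)) (θ : E3))
    (bound := fun _ => C) (s := Metric.ball r (r / 2))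
    (Metric.ball_mem_nhds r (by linarith)) ?_ ?_ ?_ ?_ ?_ ?_).2
  · filter_upwards [Metric.ball_mem_nhds r (by linarith : (0 : ℝ) < r / 2)] with s hs
    exact (flux_sig_int (hslice s (by linarith [(hball s hs).1]))).aestronglyMeasurable
  · exact flux_sig_int (hslice r hr)
  · exact (flux_sig_int (hslice' r hr)).aestronglyMeasurable
  · refine Eventually.of_forall (fun θ s hs => ?_)
    have := hball s hs
    exact hC (s, θ) ⟨⟨this.1.le, this.2.le⟩, mem_univ _⟩
  · exact integrable_const _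
  · refine Eventually.of_forall (fun θ s hs => ?_)
    have hs0 : 0 < s := by linarith [(hball s hs).1]
    have h2 : HasDerivAt (fun s : ℝ => s • (θ : E3)) (θ : E3) s := by
      simpa using (hasDerivAt_id s).smul_const (θ : E3)
    refine HasDerivAt.fun_sum (fun b _ => ?_)
    have h1 : HasFDerivAt (V b) (fderiv ℝ (V b) (s • (θ : E3))) (s • (θ : E3)) :=
      (((hV b).contDiffAt (isOpen_compl_singleton.mem_nhds (hne s hs0 θ))).differentiableAt
        one_ne_zero).hasFDerivAt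
    exact (h1.comp_hasDerivAt s h2).const_mul _

/-- derivative of the flux through spheres -/
theorem flux_div {V : Fin 3 → E3 → ℝ} (hV : ∀ j, ContDiffOn ℝ 1 (V j) {0}ᶜ) {r : ℝ}
    (hr : 0 < r) :
    HasDerivAt (fun r => r ^ 2 * ∫ θ : S2, ∑ b, (θ : E3) b * V b (r • (θ : E3)) ∂sig)
      (r ^ 2 * ∫ θ : S2, ∑ b, pd b (V b) (r • (θ : E3)) ∂sig) r := by
  have h1 := flux_radial hV hr
  have h2 := flux_sphere (V := fun b y => V b (r • y)) (fun b => flux_scale_cd (hV b) hr)
  have h3 : ∀ b, ∀ θ : S2, fderiv ℝ (fun y => V b (r • y)) (θ : E3) =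
      r • fderiv ℝ (V b) (r • (θ : E3)) := fun b θ =>
    (flux_scale_fd (hV b) hr (S2_ne_zero θ)).fderiv
  simp only [pd, h3, smul_apply, smul_eq_mul] at h2
  have h4 : ∀ θ : S2, ∑ b, r * fderiv ℝ (V b) (r • (θ : E3)) (bv b) =
      r * ∑ b, fderiv ℝ (V b) (r • (θ : E3)) (bv b) := fun θ => by rw [Finset.mul_sum]
  have h5 : ∀ θ : S2, ∑ b, (θ : E3) b * (r * fderiv ℝ (V b) (r • (θ : E3)) (θ : E3)) =
      r * ∑ b, (θ : E3) b * fderiv ℝ (V b) (r • (θ : E3)) (θ : E3) := fun θ => by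
    rw [Finset.mul_sum]
    exact Finset.sum_congr rfl (fun b _ => by ring)
  simp only [h4, h5] at h2
  rw [integral_const_mul, integral_const_mul] at h2
  refine ((hasDerivAt_pow 2 r).mul h1).congr_deriv ?_
  simp only [pd]
  push_cast
  have h6 : r ^ 2 * ∫ θ : S2, ∑ b, fderiv ℝ (V b) (r • (θ : E3)) (bv b) ∂sig =
      r * (r * ∫ θ : S2, ∑ b, fderiv ℝ (V b) (r • (θ : E3)) (bv b) ∂sig) := by ring
  rw [h6, h2]
  ring

end

end Pool.Agent.BS
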