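import Pool.Agent.BS.Defs4
import Pool.Agent.BS.Div

/-!
# Module FLUX: the flux identity
-/

namespace Pool.Agent.BS

open MeasureTheory Topology Set Filter
open scoped ContDiff

noncomputable section

theorem flux_pd_mul {f g : E3 → ℝ} {y : E3} (hf : DifferentiableAt ℝ f y)
    (hg : DifferentiableAt ℝ g y) (j : Fin 3) :
    pd j (fun x => f x * g x) y = pd j f y * g y + f y * pd j g y := by
  have h := (hf.hasFDerivAt.mul hg.hasFDerivAt).fderiv
  unfold pd
  have h' : fderiv ℝ (fun x => f x * g x) y = _ := h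
  rw [h']
  simp
  ring

theorem flux_pd_sub {f g : E3 → ℝ} {y : E3} (hf : DifferentiableAt ℝ f y)
    (hg : DifferentiableAt ℝ g y) (j : Fin 3) :
    pd j (fun x => f x - g x) y = pd j f y - pd j g y := by
  unfold pd
  rw [fderiv_fun_sub hf hg]
  simp

theorem flux_pd_sum {f : Fin 3 → E3 → ℝ} {y : E3} (hf : ∀ l, DifferentiableAt ℝ (f l) y)
    (j : Fin 3) : pd j (fun x => ∑ l, f l x) y = ∑ l, pd j (f l) y := by
  unfold pd
  rw [fderiv_fun_sum (fun l _ => hf l)]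
  simp

theorem flux_pd_const_mul {f : E3 → ℝ} {y : E3} (hf : DifferentiableAt ℝ f y) (c : ℝ)
    (j : Fin 3) : pd j (fun x => c * f x) y = c * pd j f y := by
  unfold pd
  rw [fderiv_const_mul hf]
  simp

/-- the field `∂_l k_lj - ∂_j tr k` -/
def fluxU (k : E3 → M3) (j : Fin 3) (y : E3) : ℝ :=
  ∑ l, (pd l (fun x => k x l j) y - pd j (fun x => k x l l) y)

/-- the field whose divergence is `ψ Lsc k` minus a zeroth order term -/
def fluxV (k : E3 → M3) (ψ : E3 → ℝ) (j : Fin 3) (y : E3) : ℝ :=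
  ψ y * fluxU k j y - ∑ l, pd l ψ y * (k y l j - dl l j * ∑ m, k y m m)

theorem flux_pd_cd {n : ℕ∞} {f : E3 → ℝ} {s : Set E3} (hs : IsOpen s)
    (hf : ContDiffOn ℝ (n + 1) f s) (l : Fin 3) : ContDiffOn ℝ n (pd l f) s := by
  have h := hf.fderiv_of_isOpen hs (m := n) le_rfl
  exact h.clm_apply contDiffOn_const

theorem fluxU_cd {k : E3 → M3} (hk : ∀ i j, ContDiff ℝ 2 (fun x => k x i j)) (j : Fin 3) :
    ContDiff ℝ 1 (fluxU k j) := by
  unfold fluxU
  have h : ∀ i j l, ContDiff ℝ 1 (pd l (fun x => k x i j)) := fun i j l => by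
    have h1 : ContDiffOn ℝ 1 (pd l (fun x => k x i j)) univ :=
      flux_pd_cd (n := 1) isOpen_univ (by exact_mod_cast (hk i j).contDiffOn) l
    exact contDiffOn_univ.1 h1
  exact ContDiff.sum (fun l _ => (h l j l).sub (h l l j))

theorem fluxV_cd {k : E3 → M3} (hk : ∀ i j, ContDiff ℝ 2 (fun x => k x i j)) {ψ : E3 → ℝ}
    (hψ : ContDiffOn ℝ 2 ψ {0}ᶜ) (j : Fin 3) : ContDiffOn ℝ 1 (fluxV k ψ j) {0}ᶜ := by
  unfold fluxV
  have h1 : ∀ l, ContDiffOn ℝ 1 (pd l ψ) {0}ᶜ := fun l =>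
    flux_pd_cd (n := 1) isOpen_compl_singleton (by exact_mod_cast hψ) l
  have h2 : ∀ i j, ContDiffOn ℝ 1 (fun x => k x i j) {0}ᶜ := fun i j =>
    ((hk i j).of_le (by norm_num)).contDiffOn
  refine ((hψ.of_le (by norm_num)).mul (fluxU_cd hk j).contDiffOn).sub ?_
  refine ContDiffOn.sum (fun l _ => (h1 l).mul ((h2 l j).sub ?_))
  exact contDiffOn_const.mul (ContDiffOn.sum (fun m _ => h2 m m))

theorem fluxV_div {k : E3 → M3} (hk : ∀ i j, ContDiff ℝ 2 (fun x => k x i j))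
    (hsym : ∀ x i j, k x i j = k x j i) {ψ : E3 → ℝ}
    (hψ : ContDiffOn ℝ 2 ψ {0}ᶜ) {y : E3} (hy : y ≠ 0) :
    ∑ j, pd j (fluxV k ψ j) y = ψ y * Lsc k y -
      ∑ j, ∑ l, pd j (pd l ψ) y * (k y l j - dl l j * ∑ m, k y m m) := by
  have hmem : y ∈ ({0}ᶜ : Set E3) := hy
  have h1 : ∀ l, DifferentiableAt ℝ (pd l ψ) y := fun l =>
    ((flux_pd_cd (n := 1) isOpen_compl_singleton (by exact_mod_cast hψ) l).contDiffAt
      (isOpen_compl_singleton.mem_nhds hmem)).differentiableAt one_ne_zero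
  have h0 : DifferentiableAt ℝ ψ y :=
    (hψ.contDiffAt (isOpen_compl_singleton.mem_nhds hmem)).differentiableAt two_ne_zero
  have h2 : ∀ i j, DifferentiableAt ℝ (fun x => k x i j) y := fun i j =>
    (hk i j).contDiffAt.differentiableAt two_ne_zero
  have h3 : ∀ i j l, DifferentiableAt ℝ (pd l (fun x => k x i j)) y := fun i j l => by
    have h1 : ContDiffOn ℝ 1 (pd l (fun x => k x i j)) univ :=
      flux_pd_cd (n := 1) isOpen_univ (by exact_mod_cast (hk i j).contDiffOn) l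
    exact (contDiffOn_univ.1 h1).contDiffAt.differentiableAt one_ne_zero
  have hU : ∀ j, DifferentiableAt ℝ (fluxU k j) y := fun j =>
    (fluxU_cd hk j).contDiffAt.differentiableAt one_ne_zero
  have h4 : ∀ l j, DifferentiableAt ℝ (fun x => k x l j - dl l j * ∑ m, k x m m) y := fun l j =>
    (h2 l j).sub ((differentiableAt_const _).mul (DifferentiableAt.fun_sum (fun m _ => h2 m m)))
  have hV : ∀ j, pd j (fluxV k ψ j) y = pd j ψ y * fluxU k j y + ψ y * pd j (fluxU k j) y -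
      ∑ l, (pd j (pd l ψ) y * (k y l j - dl l j * ∑ m, k y m m) +
        pd l ψ y * (pd j (fun x => k x l j) y - dl l j * ∑ m, pd j (fun x => k x m m) y)) := by
    intro j
    have e1 := flux_pd_sub (y := y) (f := fun x => ψ x * fluxU k j x)
      (g := fun x => ∑ l, pd l ψ x * (k x l j - dl l j * ∑ m, k x m m)) (h0.mul (hU j))
      (DifferentiableAt.fun_sum (fun l _ => (h1 l).mul (h4 l j))) j
    have e0 : pd j (fluxV k ψ j) y = _ := e1
    rw [e0, flux_pd_mul h0 (hU j), flux_pd_sum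
      (f := fun l x => pd l ψ x * (k x l j - dl l j * ∑ m, k x m m))
      (fun l => (h1 l).mul (h4 l j))]
    congr 1
    refine Finset.sum_congr rfl (fun l _ => ?_)
    have h5 : DifferentiableAt ℝ (fun x => ∑ m, k x m m) y :=
      DifferentiableAt.fun_sum (fun m _ => h2 m m)
    have h6 : DifferentiableAt ℝ (fun x => (dl l j : ℝ) * ∑ m, k x m m) y :=
      (differentiableAt_const _).mul h5
    rw [flux_pd_mul (h1 l) (h4 l j), flux_pd_sub (h2 l j) h6,
      flux_pd_const_mul h5, flux_pd_sum (f := fun m x => k x m m) (fun m => h2 m m)]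
  have hUd : ∀ j, pd j (fluxU k j) y = ∑ l, (pd j (pd l (fun x => k x l j)) y -
      pd j (pd j (fun x => k x l l)) y) := by
    intro j
    have e1 := flux_pd_sum (y := y)
      (f := fun l x => pd l (fun x => k x l j) x - pd j (fun x => k x l l) x)
      (fun l => (h3 l j l).sub (h3 l l j)) j
    have e0 : pd j (fluxU k j) y = _ := e1
    rw [e0]
    exact Finset.sum_congr rfl (fun l _ => flux_pd_sub (h3 l j l) (h3 l l j) j)
  have s1 : (fun x => k x 1 0) = fun x => k x 0 1 := funext fun x => hsym x 1 0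
  have s2 : (fun x => k x 2 0) = fun x => k x 0 2 := funext fun x => hsym x 2 0
  have s3 : (fun x => k x 2 1) = fun x => k x 1 2 := funext fun x => hsym x 2 1
  simp only [hV, hUd]
  unfold Lsc fluxU dl
  simp only [Fin.sum_univ_three, s1, s2, s3]
  simp
  ring

/-! ### the two weights -/

/-- `|y|^-2` -/
def fluxQ (y : E3) : ℝ := (‖y‖ ^ 2)⁻¹

/-- `y_i` -/
def fluxP0 (i : Fin 3) (y : E3) : ℝ := y i

/-- `y_i |y|^-4` -/
def fluxP1 (i : Fin 3) (y : E3) : ℝ := y i * fluxQ y ^ 2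

theorem flux_coord_fd (i : Fin 3) (y : E3) :
    HasFDerivAt (fun y : E3 => y i) (EuclideanSpace.proj i : E3 →L[ℝ] ℝ) y :=
  (EuclideanSpace.proj i : E3 →L[ℝ] ℝ).hasFDerivAt

theorem fluxQ_fd {y : E3} (hy : y ≠ 0) :
    HasFDerivAt fluxQ ((-2 * fluxQ y ^ 2) • innerSL ℝ y) y := by
  have h1 : HasFDerivAt (fun x : E3 => ‖x‖ ^ 2) (2 • (innerSL ℝ y)) y :=
    (hasStrictFDerivAt_norm_sq y).hasFDerivAt
  have h0 : ‖y‖ ^ 2 ≠ 0 := pow_ne_zero 2 (norm_ne_zero_iff.2 hy)
  have h := (hasDerivAt_inv h0).comp_hasFDerivAt y h1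
  refine HasFDerivAt.congr_fderiv (f := fluxQ) h ?_
  unfold fluxQ
  ext v
  simp
  ring

theorem flux_inner_bv (y : E3) (b : Fin 3) : inner ℝ y (bv b) = y b := by
  rw [bv, EuclideanSpace.inner_single_right]; simp

theorem flux_bv_apply (i l : Fin 3) : (bv l) i = dl i l := by
  unfold bv dl
  rw [PiLp.single_apply]

theorem fluxP0_pd (i l : Fin 3) (y : E3) : pd l (fluxP0 i) y = dl i l := by
  have h : fderiv ℝ (fluxP0 i) y = _ := (flux_coord_fd i y).fderiv
  unfold pd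
  rw [h]
  exact flux_bv_apply i l

theorem fluxP0_pd2 (i l j : Fin 3) (y : E3) : pd j (pd l (fluxP0 i)) y = 0 := by
  have h : pd l (fluxP0 i) = fun _ => (dl i l : ℝ) := funext (fluxP0_pd i l)
  rw [h]
  unfold pd
  simp

theorem fluxP1_pd (i l : Fin 3) {y : E3} (hy : y ≠ 0) :
    pd l (fluxP1 i) y = dl i l * fluxQ y ^ 2 - 4 * y i * y l * fluxQ y ^ 3 := by
  have h1 := (flux_coord_fd i y).mul ((fluxQ_fd hy).pow 2)
  have h : fderiv ℝ (fluxP1 i) y = _ := h1.fderiv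
  unfold pd
  rw [h]
  simp [flux_inner_bv, flux_bv_apply]
  ring

theorem fluxP1_pd2 (i l j : Fin 3) {y : E3} (hy : y ≠ 0) :
    pd j (pd l (fluxP1 i)) y = -4 * (dl i l * y j + dl i j * y l + dl l j * y i) * fluxQ y ^ 3 +
      24 * y i * y l * y j * fluxQ y ^ 4 := by
  have h0 : pd l (fluxP1 i) =ᶠ[𝓝 y]
      fun y => dl i l * fluxQ y ^ 2 - 4 * (y i * y l * fluxQ y ^ 3) := by
    filter_upwards [isOpen_compl_singleton.mem_nhds (show y ∈ ({0}ᶜ : Set E3) from hy)] with z hz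
    rw [fluxP1_pd i l hz]
    ring
  have h1 := (((fluxQ_fd hy).pow 2).const_mul (dl i l : ℝ)).sub
    (((((flux_coord_fd i y).mul (flux_coord_fd l y))).mul ((fluxQ_fd hy).pow 3)).const_mul 4)
  have h : fderiv ℝ (fun y : E3 => dl i l * fluxQ y ^ 2 - 4 * (y i * y l * fluxQ y ^ 3)) y = _ :=
    h1.fderiv
  unfold pd at h0 ⊢
  rw [h0.fderiv_eq, h]
  simp [flux_inner_bv, flux_bv_apply]
  ring

theorem fluxP0_cd (i : Fin 3) : ContDiffOn ℝ 2 (fluxP0 i) {0}ᶜ := by
  unfold fluxP0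
  exact (EuclideanSpace.proj i : E3 →L[ℝ] ℝ).contDiff.contDiffOn

theorem fluxP1_cd (i : Fin 3) : ContDiffOn ℝ 2 (fluxP1 i) {0}ᶜ := by
  unfold fluxP1 fluxQ
  refine ContDiffOn.mul (EuclideanSpace.proj i : E3 →L[ℝ] ℝ).contDiff.contDiffOn ?_
  refine ContDiffOn.pow ?_ 2
  refine ContDiffOn.inv (contDiff_norm_sq ℝ).contDiffOn (fun x hx => ?_)
  exact pow_ne_zero 2 (norm_ne_zero_iff.2 hx)

theorem fluxQ_smul {r : ℝ} (hr : 0 < r) (θ : S2) : fluxQ (r • (θ : E3)) = (r ^ 2)⁻¹ := by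
  unfold fluxQ
  rw [norm_smul, norm_S2, mul_one, Real.norm_of_nonneg hr.le]

/-! ### bounds -/

theorem flux_abs_sum3 {f : Fin 3 → ℝ} {B : ℝ} (h : ∀ i, |f i| ≤ B) : |∑ i, f i| ≤ 3 * B := by
  refine (Finset.abs_sum_le_sum_abs _ _).trans ?_
  rw [Fin.sum_univ_three]
  linarith [h 0, h 1, h 2]

theorem flux_abs_dl (i j : Fin 3) : |(dl i j : ℝ)| ≤ 1 := by
  unfold dl
  split_ifs <;> simp

theorem flux_abs_coord (θ : S2) (i : Fin 3) : |(θ : E3) i| ≤ 1 := by
  have h := PiLp.norm_apply_le (θ : E3) i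
  rw [norm_S2] at h
  exact h

theorem flux_S2_sq (θ : S2) : (θ : E3) 0 ^ 2 + (θ : E3) 1 ^ 2 + (θ : E3) 2 ^ 2 = 1 := by
  have h := EuclideanSpace.norm_sq_eq (θ : E3)
  rw [norm_S2, Fin.sum_univ_three] at h
  simp only [Real.norm_eq_abs, sq_abs] at h
  linarith

theorem fluxV_bound {k : E3 → M3} {C : ℝ} (h0 : ∀ x i j, |k x i j| ≤ C)
    (h1 : ∀ x i j l, |pd l (fun y => k y i j) x| ≤ C) {ψ : E3 → ℝ} {A B : ℝ} {y : E3}
    (hA : |ψ y| ≤ A) (hB : ∀ l, |pd l ψ y| ≤ B) (b : Fin 3) :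
    |fluxV k ψ b y| ≤ A * (6 * C) + 12 * B * C := by
  have hU : |fluxU k b y| ≤ 6 * C := by
    have := flux_abs_sum3 (f := fun l => pd l (fun x => k x l b) y - pd b (fun x => k x l l) y)
      (B := 2 * C) (fun l => by
        refine (abs_sub _ _).trans ?_
        linarith [h1 y l b l, h1 y l l b])
    unfold fluxU
    linarith
  have hk4 : ∀ l, |k y l b - dl l b * ∑ m, k y m m| ≤ 4 * C := fun l => by
    refine (abs_sub _ _).trans ?_
    rw [abs_mul]
    have e1 := flux_abs_sum3 (fun m => h0 y m m)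
    have e2 := mul_le_mul (flux_abs_dl l b) e1 (abs_nonneg _) zero_le_one
    linarith [h0 y l b]
  have hB0 : 0 ≤ B := (abs_nonneg _).trans (hB 0)
  have hA0 : 0 ≤ A := (abs_nonneg _).trans hA
  have e3 := flux_abs_sum3 (f := fun l => pd l ψ y * (k y l b - dl l b * ∑ m, k y m m))
    (B := B * (4 * C)) (fun l => by
      rw [abs_mul]
      exact mul_le_mul (hB l) (hk4 l) (abs_nonneg _) hB0)
  have e4 : |ψ y * fluxU k b y| ≤ A * (6 * C) := by
    rw [abs_mul]
    exact mul_le_mul hA hU (abs_nonneg _) hA0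
  unfold fluxV
  refine (abs_sub _ _).trans ?_
  linarith

theorem flux_sphere_bound {V : Fin 3 → E3 → ℝ} {r B : ℝ}
    (h : ∀ θ : S2, ∀ b, |V b (r • (θ : E3))| ≤ B) :
    |∫ θ : S2, ∑ b, (θ : E3) b * V b (r • (θ : E3)) ∂sig| ≤ 3 * B * sig.real univ := by
  have h2 := norm_integral_le_of_norm_le_const (μ := sig)
    (f := fun θ : S2 => ∑ b, (θ : E3) b * V b (r • (θ : E3))) (C := 3 * B)
    (Eventually.of_forall (fun θ => by
      rw [Real.norm_eq_abs]
      refine flux_abs_sum3 (fun b => ?_)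
      rw [abs_mul]
      have := mul_le_mul (flux_abs_coord θ b) (h θ b) (abs_nonneg _) zero_le_one
      linarith))
  rw [Real.norm_eq_abs] at h2
  exact h2

/-- flux function -/
def fluxF (k : E3 → M3) (ψ : E3 → ℝ) (r : ℝ) : ℝ :=
  r ^ 2 * ∫ θ : S2, ∑ b, (θ : E3) b * fluxV k ψ b (r • (θ : E3)) ∂sig

theorem fluxF_zero {k : E3 → M3} {C : ℝ} (h0 : ∀ x i j, |k x i j| ≤ C)
    (h1 : ∀ x i j l, |pd l (fun y => k y i j) x| ≤ C) (i : Fin 3) :
    Tendsto (fluxF k (fluxP0 i)) (𝓝[>] 0) (𝓝 0) := by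
  have hb : ∀ r ∈ Ioo (0 : ℝ) 1, ‖fluxF k (fluxP0 i) r‖ ≤
      r ^ 2 * (3 * (1 * (6 * C) + 12 * 1 * C) * sig.real univ) := by
    intro r hr
    unfold fluxF
    rw [Real.norm_eq_abs, abs_mul, abs_of_nonneg (sq_nonneg r)]
    refine mul_le_mul_of_nonneg_left ?_ (sq_nonneg r)
    refine flux_sphere_bound (fun θ b => fluxV_bound h0 h1 ?_ (fun l => ?_) b)
    · show |(r • (θ : E3)) i| ≤ 1
      rw [PiLp.smul_apply, smul_eq_mul, abs_mul, abs_of_pos hr.1]
      have := flux_abs_coord θ i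
      nlinarith [hr.1, hr.2, abs_nonneg ((θ : E3) i)]
    · rw [fluxP0_pd]
      exact flux_abs_dl i l
  refine squeeze_zero_norm' (a := fun r => r ^ 2 * (3 * (1 * (6 * C) + 12 * 1 * C) *
    sig.real univ)) ?_ ?_
  · filter_upwards [Ioo_mem_nhdsGT (zero_lt_one : (0 : ℝ) < 1)] with r hr
    exact hb r hr
  · have : Tendsto (fun r : ℝ => r ^ 2 * (3 * (1 * (6 * C) + 12 * 1 * C) * sig.real univ)) (𝓝 0)
        (𝓝 ((0 : ℝ) ^ 2 * (3 * (1 * (6 * C) + 12 * 1 * C) * sig.real univ))) :=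
      ((continuous_pow 2).mul continuous_const).tendsto 0
    rw [zero_pow two_ne_zero, zero_mul] at this
    exact this.mono_left nhdsWithin_le_nhds

theorem fluxF_top {k : E3 → M3} {C : ℝ} (h0 : ∀ x i j, |k x i j| ≤ C)
    (h1 : ∀ x i j l, |pd l (fun y => k y i j) x| ≤ C) (i : Fin 3) :
    Tendsto (fluxF k (fluxP1 i)) atTop (𝓝 0) := by
  have hb : ∀ r : ℝ, 1 ≤ r → ‖fluxF k (fluxP1 i) r‖ ≤
      r⁻¹ * (3 * (66 * C) * sig.real univ) := by
    intro r hr
    have hr0 : 0 < r := by linarith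
    have hri : r⁻¹ ≤ 1 := inv_le_one_of_one_le₀ hr
    have hri0 : 0 < r⁻¹ := inv_pos.2 hr0
    have hy : ∀ θ : S2, r • (θ : E3) ≠ 0 := fun θ => smul_ne_zero hr0.ne' (S2_ne_zero θ)
    have h3 : |∫ θ : S2, ∑ b, (θ : E3) b * fluxV k (fluxP1 i) b (r • (θ : E3)) ∂sig| ≤
        3 * (r⁻¹ ^ 3 * (66 * C)) * sig.real univ := by
      refine flux_sphere_bound (fun θ b => (fluxV_bound h0 h1 (A := r⁻¹ ^ 3) (B := 5 * r⁻¹ ^ 3)
        ?_ (fun l => ?_) b).trans ?_)
      · unfold fluxP1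
        rw [fluxQ_smul hr0, PiLp.smul_apply, smul_eq_mul]
        have e1 : r * (θ : E3) i * (r ^ 2)⁻¹ ^ 2 = r⁻¹ ^ 3 * (θ : E3) i := by
          field_simp
        rw [e1, abs_mul, abs_of_pos (pow_pos hri0 3)]
        have := flux_abs_coord θ i
        nlinarith [pow_pos hri0 3]
      · rw [fluxP1_pd i l (hy θ), fluxQ_smul hr0, PiLp.smul_apply, PiLp.smul_apply, smul_eq_mul,
          smul_eq_mul]
        have e1 : dl i l * (r ^ 2)⁻¹ ^ 2 - 4 * (r * (θ : E3) i) * (r * (θ : E3) l) * (r ^ 2)⁻¹ ^ 3 =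
            r⁻¹ ^ 4 * (dl i l - 4 * ((θ : E3) i * (θ : E3) l)) := by
          field_simp
        rw [e1, abs_mul, abs_of_pos (pow_pos hri0 4)]
        have e2 : |dl i l - 4 * ((θ : E3) i * (θ : E3) l)| ≤ 5 := by
          refine (abs_sub _ _).trans ?_
          rw [abs_mul, abs_mul]
          have := mul_le_mul (flux_abs_coord θ i) (flux_abs_coord θ l) (abs_nonneg _) zero_le_one
          have h4 : |(4 : ℝ)| = 4 := abs_of_pos (by norm_num)
          rw [h4]
          linarith [flux_abs_dl i l]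
        have e3 : r⁻¹ ^ 4 ≤ r⁻¹ ^ 3 := pow_le_pow_of_le_one hri0.le hri (by norm_num)
        have := mul_le_mul e3 e2 (abs_nonneg _) (pow_pos hri0 3).le
        linarith
      · apply le_of_eq
        ring
    unfold fluxF
    rw [Real.norm_eq_abs, abs_mul, abs_of_nonneg (sq_nonneg r)]
    refine (mul_le_mul_of_nonneg_left h3 (sq_nonneg r)).trans (le_of_eq ?_)
    field_simp
  refine squeeze_zero_norm' (a := fun r => r⁻¹ * (3 * (66 * C) * sig.real univ)) ?_ ?_
  · filter_upwards [eventually_ge_atTop (1 : ℝ)] with r hr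
    exact hb r hr
  · have : Tendsto (fun r : ℝ => r⁻¹ * (3 * (66 * C) * sig.real univ)) atTop
        (𝓝 (0 * (3 * (66 * C) * sig.real univ))) :=
      tendsto_inv_atTop_zero.mul_const _
    rwa [zero_mul] at this

/-! ### assembly -/

theorem fluxF_deriv {k : E3 → M3} (hk : ∀ i j, ContDiff ℝ 2 (fun x => k x i j))
    (hsym : ∀ x i j, k x i j = k x j i) {ψ : E3 → ℝ} (hψ : ContDiffOn ℝ 2 ψ {0}ᶜ) {r : ℝ}
    (hr : 0 < r) :
    HasDerivAt (fluxF k ψ) (r ^ 2 * ∫ θ : S2, (ψ (r • (θ : E3)) * Lsc k (r • (θ : E3)) -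
      ∑ j, ∑ l, pd j (pd l ψ) (r • (θ : E3)) *
        (k (r • (θ : E3)) l j - dl l j * ∑ m, k (r • (θ : E3)) m m)) ∂sig) r := by
  have h := flux_div (fun j => fluxV_cd hk hψ j) hr
  have h2 : ∀ θ : S2, ∑ b, pd b (fluxV k ψ b) (r • (θ : E3)) =
      ψ (r • (θ : E3)) * Lsc k (r • (θ : E3)) -
      ∑ j, ∑ l, pd j (pd l ψ) (r • (θ : E3)) *
        (k (r • (θ : E3)) l j - dl l j * ∑ m, k (r • (θ : E3)) m m) := fun θ =>
    fluxV_div hk hsym hψ (smul_ne_zero hr.ne' (S2_ne_zero θ))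
  simp only [h2] at h
  exact h

/-- the zeroth order integrand -/
def fluxM (i : Fin 3) (a : M3) (θ : E3) : ℝ :=
  (∑ j, a i j * θ j) + tr3 a * θ i - 3 * θ i * hrr a θ

theorem flux_alg (i : Fin 3) (a : M3) (ha : ∀ i j, a i j = a j i) (t : E3)
    (ht : t 0 ^ 2 + t 1 ^ 2 + t 2 ^ 2 = 1) :
    ∑ j, ∑ l, (-4 * (dl i l * t j + dl i j * t l + dl l j * t i) + 24 * t i * t l * t j) *
      (a l j - dl l j * ∑ m, a m m) = -8 * fluxM i a t := by
  unfold fluxM tr3 hrr dl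
  have s1 := ha 1 0
  have s2 := ha 2 0
  have s3 := ha 2 1
  simp only [Fin.sum_univ_three, s1, s2, s3]
  fin_cases i <;> simp <;>
  [skip; rw [s1]; rw [s2, s3]] <;>
  [linear_combination (-24 * t 0 * (a 0 0 + a 1 1 + a 2 2)) * ht;
   linear_combination (-24 * t 1 * (a 0 0 + a 1 1 + a 2 2)) * ht;
   linear_combination (-24 * t 2 * (a 0 0 + a 1 1 + a 2 2)) * ht]

theorem flux_S1 {k : E3 → M3} (hsym : ∀ x i j, k x i j = k x j i) (i : Fin 3) {r : ℝ}
    (hr : 0 < r) (θ : S2) :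
    ∑ j, ∑ l, pd j (pd l (fluxP1 i)) (r • (θ : E3)) *
        (k (r • (θ : E3)) l j - dl l j * ∑ m, k (r • (θ : E3)) m m) =
      r⁻¹ ^ 5 * (-8 * fluxM i (k (r • (θ : E3))) (θ : E3)) := by
  rw [← flux_alg i _ (hsym _) (θ : E3) (flux_S2_sq θ), Finset.mul_sum]
  refine Finset.sum_congr rfl (fun j _ => ?_)
  rw [Finset.mul_sum]
  refine Finset.sum_congr rfl (fun l _ => ?_)
  rw [fluxP1_pd2 i l j (smul_ne_zero hr.ne' (S2_ne_zero θ)), fluxQ_smul hr]
  simp only [PiLp.smul_apply, smul_eq_mul]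
  rw [← mul_assoc (r⁻¹ ^ 5)]
  congr 1
  field_simp

theorem fluxM_cont {k : E3 → M3} (hk : ∀ i j, Continuous (fun x => k x i j)) (i : Fin 3) :
    Continuous (fun p : ℝ × S2 => fluxM i (k (p.1 • (p.2 : E3))) (p.2 : E3)) := by
  have h1 : ∀ a b, Continuous (fun p : ℝ × S2 => k (p.1 • (p.2 : E3)) a b) := fun a b =>
    (hk a b).comp (by fun_prop)
  have h2 : ∀ a : Fin 3, Continuous (fun p : ℝ × S2 => (p.2 : E3) a) := fun a => by fun_prop
  unfold fluxM tr3 hrr
  refine ((continuous_finsetSum _ (fun j _ => (h1 i j).mul (h2 j))).add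
    ((continuous_finsetSum _ (fun j _ => h1 j j)).mul (h2 i))).sub ?_
  refine (continuous_const.mul (h2 i)).mul ?_
  exact continuous_finsetSum _ (fun a _ => continuous_finsetSum _ (fun b _ =>
    ((h1 a b).mul (h2 a)).mul (h2 b)))

theorem fluxM_bound {a : M3} {C : ℝ} (hC : 0 ≤ C) (h0 : ∀ i j, |a i j| ≤ C) (i : Fin 3) (θ : S2) :
    |fluxM i a (θ : E3)| ≤ 33 * C := by
  have hθ := flux_abs_coord θ
  have e1 : |∑ j, a i j * (θ : E3) j| ≤ 3 * C := flux_abs_sum3 (fun j => by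
    rw [abs_mul]
    have := mul_le_mul (h0 i j) (hθ j) (abs_nonneg _) hC
    linarith)
  have e2 : |tr3 a * (θ : E3) i| ≤ 3 * C := by
    rw [abs_mul]
    have h3 : |tr3 a| ≤ 3 * C := flux_abs_sum3 (fun j => h0 j j)
    have := mul_le_mul h3 (hθ i) (abs_nonneg _) (by linarith)
    linarith
  have e3 : |hrr a (θ : E3)| ≤ 9 * C := by
    have : |hrr a (θ : E3)| ≤ 3 * (3 * C) := flux_abs_sum3 (fun p => flux_abs_sum3 (fun q => by
      rw [abs_mul, abs_mul]
      have h4 := mul_le_mul (h0 p q) (hθ p) (abs_nonneg _) hC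
      have h5 := mul_le_mul h4 (hθ q) (abs_nonneg _) (by linarith)
      linarith))
    linarith
  have e4 : |3 * (θ : E3) i * hrr a (θ : E3)| ≤ 27 * C := by
    rw [abs_mul, abs_mul]
    have h3 : |(3 : ℝ)| = 3 := abs_of_pos (by norm_num)
    rw [h3]
    have := mul_le_mul (hθ i) e3 (abs_nonneg _) zero_le_one
    nlinarith [abs_nonneg ((θ : E3) i), abs_nonneg (hrr a (θ : E3))]
  unfold fluxM
  refine (abs_sub _ _).trans ?_
  have := abs_add_le (∑ j, a i j * (θ : E3) j) (tr3 a * (θ : E3) i)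
  linarith

theorem flux_zet_in (i : Fin 3) {r : ℝ} (hr : 0 < r) (hr1 : r ≤ 1) (θ : S2) :
    zet i (r • (θ : E3)) = fluxP0 i (r • (θ : E3)) := by
  unfold zet fluxP0
  have hn : ‖r • (θ : E3)‖ = r := by rw [norm_smul, norm_S2, mul_one, Real.norm_of_nonneg hr.le]
  rw [hn, min_eq_left, mul_one]
  exact (one_le_inv₀ (pow_pos hr 4)).2 (pow_le_one₀ hr.le hr1)

theorem flux_zet_out (i : Fin 3) {r : ℝ} (hr1 : 1 < r) (θ : S2) :
    zet i (r • (θ : E3)) = fluxP1 i (r • (θ : E3)) := by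
  have hr : 0 < r := by linarith
  unfold zet fluxP1
  have hn : ‖r • (θ : E3)‖ = r := by rw [norm_smul, norm_S2, mul_one, Real.norm_of_nonneg hr.le]
  rw [hn, fluxQ_smul hr, min_eq_right]
  · congr 1
    rw [inv_pow]
    congr 1
    ring
  · exact inv_le_one_of_one_le₀ (one_le_pow₀ hr1.le)

theorem flux_zet_bound (i : Fin 3) (y : E3) : |zet i y| ≤ 1 := by
  unfold zet
  have h1 := PiLp.norm_apply_le y i
  rw [Real.norm_eq_abs] at h1
  have h0 : 0 ≤ min 1 (‖y‖ ^ 4)⁻¹ := le_min zero_le_one (by positivity)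
  rw [abs_mul, abs_of_nonneg h0]
  by_cases hy : ‖y‖ ≤ 1
  · have h3 : min 1 (‖y‖ ^ 4)⁻¹ ≤ 1 := min_le_left _ _
    have := mul_le_mul (h1.trans hy) h3 h0 zero_le_one
    linarith
  · have hy1 : 1 < ‖y‖ := not_le.1 hy
    have h3 : min 1 (‖y‖ ^ 4)⁻¹ ≤ (‖y‖ ^ 4)⁻¹ := min_le_right _ _
    have h4 := mul_le_mul h1 h3 h0 (norm_nonneg y)
    refine h4.trans ?_
    have h5 : ‖y‖ * (‖y‖ ^ 4)⁻¹ = (‖y‖ ^ 3)⁻¹ := by field_simp
    rw [h5]
    exact inv_le_one_of_one_le₀ (one_le_pow₀ hy1.le)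

theorem flux_zet_cont (i : Fin 3) : Measurable (zet i) := by
  unfold zet
  have h1 : Measurable (fun z : E3 => z i) := (by fun_prop : Continuous (fun z : E3 => z i)).measurable
  have h2 : Measurable (fun z : E3 => (‖z‖ ^ 4)⁻¹) := ((measurable_norm).pow_const 4).inv
  exact h1.mul (measurable_const.min h2)

/-- `r ↦ ∮ M(rθ)` -/
def fluxMM (k : E3 → M3) (i : Fin 3) (r : ℝ) : ℝ :=
  ∫ θ : S2, fluxM i (k (r • (θ : E3))) (θ : E3) ∂sig

theorem fluxMM_cont {k : E3 → M3} (hk : ∀ i j, Continuous (fun x => k x i j)) (i : Fin 3) :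
    Continuous (fluxMM k i) := by
  have h := continuous_parametric_integral_of_continuous (μ := sig)
    (f := fun (r : ℝ) (θ : S2) => fluxM i (k (r • (θ : E3))) (θ : E3))
    (fluxM_cont hk i) (isCompact_univ (X := S2))
  simp only [Measure.restrict_univ] at h
  exact h

theorem fluxMM_bound {k : E3 → M3} {C : ℝ} (hC : 0 ≤ C) (h0 : ∀ x i j, |k x i j| ≤ C)
    (i : Fin 3) (r : ℝ) : |fluxMM k i r| ≤ 33 * C * sig.real univ := by
  have h := norm_integral_le_of_norm_le_const (μ := sig)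
    (f := fun θ : S2 => fluxM i (k (r • (θ : E3))) (θ : E3)) (C := 33 * C)
    (Eventually.of_forall (fun θ => fluxM_bound hC (h0 _) i θ))
  exact h

theorem fluxMM_int {k : E3 → M3} {C : ℝ} (hC : 0 ≤ C) (hk : ∀ i j, Continuous (fun x => k x i j))
    (h0 : ∀ x i j, |k x i j| ≤ C) (i : Fin 3) :
    IntegrableOn (fun r : ℝ => r⁻¹ ^ 3 * fluxMM k i r) (Ioi 1) := by
  have h1 : IntegrableOn (fun r : ℝ => r ^ (-3 : ℝ)) (Ioi 1) :=
    integrableOn_Ioi_rpow_of_lt (by norm_num) one_pos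
  have h2 : IntegrableOn (fun r : ℝ => r⁻¹ ^ 3) (Ioi 1) := by
    refine h1.congr_fun (fun r hr => ?_) measurableSet_Ioi
    have hr0 : (0 : ℝ) < r := lt_trans one_pos hr
    simp only
    rw [Real.rpow_neg hr0.le, inv_pow]
    norm_cast
  refine Integrable.mono' (h2.mul_const (33 * C * sig.real univ)) ?_ ?_
  · exact (h2.aestronglyMeasurable).mul (fluxMM_cont hk i).aestronglyMeasurable
  · rw [ae_restrict_iff' measurableSet_Ioi]
    refine Eventually.of_forall (fun r hr => ?_)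
    have hr0 : (0 : ℝ) < r := lt_trans one_pos hr
    rw [Real.norm_eq_abs, abs_mul, abs_of_pos (pow_pos (inv_pos.2 hr0) 3)]
    exact mul_le_mul_of_nonneg_left (fluxMM_bound hC h0 i r) (pow_pos (inv_pos.2 hr0) 3).le

theorem flux_Lsc_cont {k : E3 → M3} (hk : ∀ i j, ContDiff ℝ 2 (fun x => k x i j)) :
    Continuous (Lsc k) := by
  have h3 : ∀ i j l m, Continuous (pd m (pd l (fun x => k x i j))) := fun i j l m => by
    have h1 : ContDiffOn ℝ 1 (pd l (fun x => k x i j)) univ :=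
      flux_pd_cd (n := 1) isOpen_univ (by exact_mod_cast (hk i j).contDiffOn) l
    exact ((contDiffOn_univ.1 h1).continuous_fderiv one_ne_zero).clm_apply continuous_const
  unfold Lsc
  exact (continuous_finsetSum _ (fun i _ => continuous_finsetSum _ (fun j _ => h3 i j j i))).sub
    (continuous_finsetSum _ (fun i _ => continuous_finsetSum _ (fun j _ => h3 i i j j)))

theorem flux_integrable {k : E3 → M3} (hL : Integrable (Lsc k)) (i : Fin 3) :
    Integrable (fun y => Lsc k y * zet i y) := by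
  refine Integrable.mono' hL.norm (hL.aestronglyMeasurable.mul
    (flux_zet_cont i).aestronglyMeasurable) (Eventually.of_forall (fun y => ?_))
  rw [norm_mul]
  have := mul_le_mul_of_nonneg_left (flux_zet_bound i y) (norm_nonneg (Lsc k y))
  rw [Real.norm_eq_abs (zet i y)]
  linarith

theorem flux_core1 {k : E3 → M3} {C : ℝ} (hC : 0 ≤ C)
    (hk : ∀ i j, ContDiff ℝ 2 (fun x => k x i j))
    (hsym : ∀ x i j, k x i j = k x j i) (h0 : ∀ x i j, |k x i j| ≤ C)
    (h1 : ∀ x i j l, |pd l (fun y => k y i j) x| ≤ C) (hL : Integrable (Lsc k)) (i : Fin 3) :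
    ∫ y, Lsc k y * zet i y = fluxF k (fluxP0 i) 1 - fluxF k (fluxP1 i) 1 -
      8 * ∫ r in Ioi (1 : ℝ), r⁻¹ ^ 3 * fluxMM k i r := by
  have hkc : ∀ i j, Continuous (fun x => k x i j) := fun i j => (hk i j).continuous
  have hf := flux_integrable hL i
  have hG := polar_integrableOn hf
  rw [polar_integral hf]
  set G : ℝ → ℝ := fun r => r ^ 2 * ∫ θ : S2, Lsc k (r • (θ : E3)) * zet i (r • (θ : E3)) ∂sig
    with hGd
  have hGin : IntegrableOn G (Ioc 0 1) := hG.mono_set Ioc_subset_Ioi_self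
  have hGout : IntegrableOn G (Ioi 1) := hG.mono_set (Ioi_subset_Ioi zero_le_one)
  have hsplit : Ioi (0 : ℝ) = Ioc 0 1 ∪ Ioi 1 := (Ioc_union_Ioi_eq_Ioi zero_le_one).symm
  have hdisj : Disjoint (Ioc (0 : ℝ) 1) (Ioi 1) :=
    disjoint_left.2 (fun x h1 h2 => absurd h1.2 (not_le.2 h2))
  rw [hsplit, setIntegral_union hdisj measurableSet_Ioi hGin hGout]
  -- inner part
  have hd0 : ∀ r : ℝ, 0 < r → r ≤ 1 → HasDerivAt (fluxF k (fluxP0 i)) (G r) r := by
    intro r hr hr1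
    refine (fluxF_deriv hk hsym (fluxP0_cd i) hr).congr_deriv ?_
    rw [hGd]
    simp only
    congr 1
    refine integral_congr_ae (Eventually.of_forall fun θ => ?_)
    simp only
    rw [flux_zet_in i hr hr1 θ]
    simp only [fluxP0_pd2, zero_mul, Finset.sum_const_zero, sub_zero]
    ring
  have hin : ∫ r in Ioc (0 : ℝ) 1, G r = fluxF k (fluxP0 i) 1 := by
    rw [← intervalIntegral.integral_of_le zero_le_one]
    have h := intervalIntegral.integral_eq_sub_of_hasDerivAt_of_tendsto (a := 0) (b := 1)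
      zero_lt_one (f := fluxF k (fluxP0 i)) (f' := G) (fa := 0) (fb := fluxF k (fluxP0 i) 1)
      (fun r hr => hd0 r hr.1 hr.2.le)
      ((intervalIntegrable_iff_integrableOn_Ioc_of_le zero_le_one).2 hGin)
      (fluxF_zero h0 h1 i)
      ((hd0 1 one_pos le_rfl).continuousAt.tendsto.mono_left nhdsWithin_le_nhds)
    rw [h, sub_zero]
  -- outer part
  have hLc := flux_Lsc_cont hk
  have hd1' : ∀ r : ℝ, 0 < r → HasDerivAt (fluxF k (fluxP1 i))
      (r ^ 2 * (∫ θ : S2, fluxP1 i (r • (θ : E3)) * Lsc k (r • (θ : E3)) ∂sig) +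
        8 * (r⁻¹ ^ 3 * fluxMM k i r)) r := by
    intro r hr
    refine (fluxF_deriv hk hsym (fluxP1_cd i) hr).congr_deriv ?_
    have hne : ∀ θ : S2, r • (θ : E3) ∈ ({0}ᶜ : Set E3) := fun θ =>
      smul_ne_zero hr.ne' (S2_ne_zero θ)
    rw [integral_congr_ae (g := fun θ : S2 => fluxP1 i (r • (θ : E3)) * Lsc k (r • (θ : E3)) -
      r⁻¹ ^ 5 * (-8 * fluxM i (k (r • (θ : E3))) (θ : E3)))
      (Eventually.of_forall fun θ => by simp only; rw [flux_S1 hsym i hr θ])]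
    rw [integral_sub, integral_const_mul, integral_const_mul]
    · unfold fluxMM
      field_simp
      ring
    · refine flux_sig_int (Continuous.mul ?_ (hLc.comp (by fun_prop)))
      exact (fluxP1_cd i).continuousOn.comp_continuous (by fun_prop) hne
    · refine flux_sig_int (continuous_const.mul (continuous_const.mul ?_))
      exact (fluxM_cont hkc i).comp (f := fun θ : S2 => (r, θ)) (by fun_prop)
  have hd1 : ∀ r ∈ Ioi (1 : ℝ), HasDerivAt (fluxF k (fluxP1 i))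
      (G r + 8 * (r⁻¹ ^ 3 * fluxMM k i r)) r := by
    intro r hr
    have hr1 : (1 : ℝ) < r := hr
    refine (hd1' r (by linarith)).congr_deriv ?_
    congr 1
    rw [hGd]
    simp only
    congr 1
    refine integral_congr_ae (Eventually.of_forall fun θ => ?_)
    simp only
    rw [flux_zet_out i hr1 θ]
    ring
  have hMM := fluxMM_int hC hkc h0 i
  have hout : ∫ r in Ioi (1 : ℝ), (G r + 8 * (r⁻¹ ^ 3 * fluxMM k i r)) =
      0 - fluxF k (fluxP1 i) 1 :=
    integral_Ioi_of_hasDerivAt_of_tendsto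
      ((hd1' 1 one_pos).continuousAt.continuousWithinAt) hd1 (hGout.add (hMM.const_mul 8))
      (fluxF_top h0 h1 i)
  rw [integral_add hGout (hMM.const_mul 8), integral_const_mul] at hout
  rw [hin]
  linarith

theorem flux_jump {k : E3 → M3} (hk : ∀ i j, ContDiff ℝ 2 (fun x => k x i j))
    (hsym : ∀ x i j, k x i j = k x j i) (i : Fin 3) :
    fluxF k (fluxP0 i) 1 - fluxF k (fluxP1 i) 1 =
      4 * ∫ θ : S2, (θ : E3) i * (tr3 (k θ) - hrr (k θ) θ) ∂sig := by
  have hc : ∀ {ψ : E3 → ℝ}, ContDiffOn ℝ 2 ψ {0}ᶜ →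
      Integrable (fun θ : S2 => ∑ b, (θ : E3) b * fluxV k ψ b θ) sig := by
    intro ψ hψ
    refine flux_sig_int (continuous_finsetSum _ (fun b _ => ?_))
    exact (by fun_prop : Continuous (fun θ : S2 => (θ : E3) b)).mul
      (flux_cont1 (fluxV_cd hk hψ b))
  unfold fluxF
  simp only [one_pow, one_mul, one_smul]
  rw [← integral_sub (hc (fluxP0_cd i)) (hc (fluxP1_cd i)), ← integral_const_mul]
  refine integral_congr_ae (Eventually.of_forall fun θ => ?_)
  simp only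
  have hθ := flux_S2_sq θ
  have hQ : fluxQ (θ : E3) = 1 := by
    have := fluxQ_smul one_pos θ
    rw [one_smul] at this
    rw [this]
    norm_num
  have s1 := hsym (θ : E3) 1 0
  have s2 := hsym (θ : E3) 2 0
  have s3 := hsym (θ : E3) 2 1
  have hp1 := fun l => fluxP1_pd i l (S2_ne_zero θ)
  unfold fluxV
  simp only [fluxP0_pd, hp1, hQ]
  unfold fluxP0 fluxP1 hrr tr3 dl
  rw [hQ]
  simp only [Fin.sum_univ_three, s1, s2, s3]
  fin_cases i <;> simp <;>
  [linear_combination (4 * (θ : E3) 0 * (k θ 0 0 + k θ 1 1 + k θ 2 2)) * hθ;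
   linear_combination (4 * (θ : E3) 1 * (k θ 0 0 + k θ 1 1 + k θ 2 2)) * hθ;
   linear_combination (4 * (θ : E3) 2 * (k θ 0 0 + k θ 1 1 + k θ 2 2)) * hθ]

theorem flux_hrr_H1 (k : E3 → M3) (x : E3) (θ : S2) :
    hrr (H1 k x) (θ : E3) = (1 / 2) * tr3 (k x) - hrr (k x) θ := by
  have hθ := flux_S2_sq θ
  unfold hrr H1 tr3 dl
  simp only [Fin.sum_univ_three]
  simp
  linear_combination ((1 / 2) * (k x 0 0 + k x 1 1 + k x 2 2)) * hθ

theorem flux_tr3_H1 (k : E3 → M3) (x : E3) : tr3 (H1 k x) = (1 / 2) * tr3 (k x) := by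
  unfold H1 tr3 dl
  simp only [Fin.sum_univ_three]
  simp
  ring

theorem flux_M_H1 (k : E3 → M3) (x : E3) (θ : S2) (i : Fin 3) :
    3 * (θ : E3) i * hrr (H1 k x) (θ : E3) - ∑ j, H1 k x i j * (θ : E3) j =
      fluxM i (k x) (θ : E3) := by
  rw [flux_hrr_H1]
  have : ∑ j, H1 k x i j * (θ : E3) j = (1 / 2) * tr3 (k x) * (θ : E3) i -
      ∑ j, k x i j * (θ : E3) j := by
    unfold H1 dl
    simp only [sub_mul, Finset.sum_sub_distrib]
    congr 1
    fin_cases i <;> simp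
  rw [this]
  unfold fluxM
  ring

theorem flux_cov (k : E3 → M3) (i : Fin 3) :
    ∫ r in Ioi (1 : ℝ), r⁻¹ ^ 3 * fluxMM k i r =
      ∫ s in Ioi (0 : ℝ), Real.exp (-(2 * s)) * fluxMM k i (Real.exp s) := by
  have himg : Real.exp '' Ioi (0 : ℝ) = Ioi 1 := by
    ext x
    constructor
    · rintro ⟨s, hs, rfl⟩
      exact Real.one_lt_exp_iff.2 hs
    · intro hx
      have hx1 : (1 : ℝ) < x := hx
      exact ⟨Real.log x, Real.log_pos hx1, Real.exp_log (by linarith)⟩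
  rw [← himg, integral_image_eq_integral_abs_deriv_smul measurableSet_Ioi
    (fun s _ => (Real.hasDerivAt_exp s).hasDerivWithinAt) Real.exp_injective.injOn]
  refine setIntegral_congr_fun measurableSet_Ioi (fun s _ => ?_)
  simp only [smul_eq_mul]
  rw [abs_of_pos (Real.exp_pos s), ← mul_assoc]
  congr 1
  rw [← Real.exp_neg, ← Real.exp_nat_mul, ← Real.exp_add]
  congr 1
  push_cast
  ring

theorem flux_core {k : E3 → M3} {C : ℝ} (hC : 0 ≤ C)
    (hk : ∀ i j, ContDiff ℝ 2 (fun x => k x i j))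
    (hsym : ∀ x i j, k x i j = k x j i) (h0 : ∀ x i j, |k x i j| ≤ C)
    (h1 : ∀ x i j l, |pd l (fun y => k y i j) x| ≤ C) (hL : Integrable (Lsc k)) (i : Fin 3) :
    ell i (H1 k) = -(1 / 4) * ∫ y, Lsc k y * zet i y := by
  rw [flux_core1 hC hk hsym h0 h1 hL i, flux_jump hk hsym i, flux_cov]
  unfold ell
  simp only [flux_M_H1]
  simp only [flux_hrr_H1, flux_tr3_H1]
  have e1 : ∀ θ : S2, (θ : E3) i * (1 / 2 * tr3 (k (θ : E3)) - hrr (k (θ : E3)) θ +
      1 / 2 * tr3 (k (θ : E3))) = (θ : E3) i * (tr3 (k θ) - hrr (k θ) θ) := fun θ => by ring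
  simp only [e1]
  unfold fluxMM
  ring

/-! ### scaling -/

theorem flux_HbR_pd {f : E3 → ℝ} (hf : Differentiable ℝ f) (b : E3) (R : ℝ) (l : Fin 3) (y : E3) :
    pd l (fun y => f (b + R • y)) y = R * pd l f (b + R • y) := by
  have h1 : HasFDerivAt f (fderiv ℝ f (b + R • y)) (b + R • y) := (hf _).hasFDerivAt
  have h2 : HasFDerivAt (fun y : E3 => b + R • y) (R • ContinuousLinearMap.id ℝ E3) y :=
    ((hasFDerivAt_id y).const_smul R).const_add b
  have h3 : fderiv ℝ (fun y => f (b + R • y)) y = _ :=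
    (HasFDerivAt.comp (f := fun y : E3 => b + R • y) y h1 h2).fderiv
  unfold pd
  rw [h3]
  simp

theorem flux_HbR_Lsc {h : E3 → M3} (hs : ∀ i j, ContDiff ℝ 2 (fun x => h x i j)) (b : E3) (R : ℝ)
    (y : E3) : Lsc (HbR h b R) y = R ^ 2 * Lsc h (b + R • y) := by
  have h0 : ∀ i j, Differentiable ℝ (fun x => h x i j) := fun i j =>
    (hs i j).differentiable two_ne_zero
  have h3 : ∀ i j l, Differentiable ℝ (pd l (fun x => h x i j)) := fun i j l => by
    have h1 : ContDiffOn ℝ 1 (pd l (fun x => h x i j)) univ :=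
      flux_pd_cd (n := 1) isOpen_univ (by exact_mod_cast (hs i j).contDiffOn) l
    exact (contDiffOn_univ.1 h1).differentiable one_ne_zero
  have e1 : ∀ i j l, pd l (fun y => HbR h b R y i j) =
      fun y => R * pd l (fun x => h x i j) (b + R • y) := fun i j l =>
    funext (fun y => flux_HbR_pd (h0 i j) b R l y)
  have e2 : ∀ i j l m, pd m (fun y => R * pd l (fun x => h x i j) (b + R • y)) y =
      R ^ 2 * pd m (pd l (fun x => h x i j)) (b + R • y) := fun i j l m => by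
    have hd : DifferentiableAt ℝ (fun y => pd l (fun x => h x i j) (b + R • y)) y :=
      DifferentiableAt.comp (f := fun y : E3 => b + R • y) y ((h3 i j l) _) (by fun_prop)
    rw [flux_pd_const_mul hd, flux_HbR_pd (h3 i j l)]
    ring
  unfold Lsc
  simp only [e1, e2]
  simp only [← Finset.mul_sum]
  ring

end

theorem flux_part (h : E3 → M3) (q C : ℝ) (hq : 0 < q)
    (hs : ∀ i j, ContDiff ℝ 2 (fun x => h x i j)) (hsym : ∀ x i j, h x i j = h x j i)
    (h0 : ∀ x i j, |h x i j| ≤ C * (1 + ‖x‖) ^ (-q))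
    (h1 : ∀ x i j k, |pd k (fun y => h y i j) x| ≤ C * (1 + ‖x‖) ^ (-q - 1))
    (hL : Integrable (Lsc h)) (b : E3) (R : ℝ) (hR : 0 < R) (i : Fin 3) :
    ell i (HbR (H1 h) b R) = -(1 / (4 * R)) * FF (Lsc h) i b R := by
  have hpow : ∀ (x : E3) (p : ℝ), p ≤ 0 → C * (1 + ‖x‖) ^ p ≤ |C| := by
    intro x p hp
    have e1 : (1 + ‖x‖) ^ p ≤ 1 :=
      Real.rpow_le_one_of_one_le_of_nonpos (by linarith [norm_nonneg x]) hp
    have e2 : 0 ≤ (1 + ‖x‖) ^ p := Real.rpow_nonneg (by linarith [norm_nonneg x]) p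
    have := mul_le_mul (le_abs_self C) e1 e2 (abs_nonneg C)
    linarith
  have hfin : Module.finrank ℝ E3 = 3 := by simp
  have hcore := flux_core (k := HbR h b R) (C := |C| * (1 + R)) (by positivity) ?_ ?_ ?_ ?_ ?_ i
  · have e0 : H1 (HbR h b R) = HbR (H1 h) b R := rfl
    rw [e0] at hcore
    rw [hcore]
    have e1 : ∀ y, Lsc (HbR h b R) y * zet i y =
        (fun x => R ^ 2 * (Lsc h x * zet i (R⁻¹ • (x - b)))) (b + R • y) := by
      intro y
      simp only
      rw [flux_HbR_Lsc hs, add_sub_cancel_left, smul_smul, inv_mul_cancel₀ hR.ne', one_smul]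
      ring
    simp only [e1]
    have e2 := Measure.integral_comp_smul (volume : Measure E3)
      (fun y => (fun x => R ^ 2 * (Lsc h x * zet i (R⁻¹ • (x - b)))) (b + y)) R
    simp only at e2
    rw [e2, integral_add_left_eq_self
      (fun x => R ^ 2 * (Lsc h x * zet i (R⁻¹ • (x - b)))) b, integral_const_mul, hfin]
    unfold FF
    rw [abs_of_pos (by positivity), smul_eq_mul]
    field_simp
  · intro i j
    exact (hs i j).comp (f := fun y : E3 => b + R • y) (by fun_prop)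
  · intro x i j
    exact hsym _ i j
  · intro x i j
    refine (h0 (b + R • x) i j).trans ((hpow _ _ (by linarith)).trans ?_)
    nlinarith [abs_nonneg C]
  · intro x i j l
    have e := flux_HbR_pd ((hs i j).differentiable two_ne_zero) b R l x
    have e' : pd l (fun y => HbR h b R y i j) x = _ := e
    rw [e', abs_mul, abs_of_pos hR]
    have := (h1 (b + R • x) i j l).trans (hpow _ _ (by linarith))
    nlinarith [abs_nonneg C]
  · have e1 : Lsc (HbR h b R) = fun y => R ^ 2 * Lsc h (b + R • y) :=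
      funext (flux_HbR_Lsc hs b R)
    rw [e1]
    refine Integrable.const_mul ?_ _
    have e2 : Integrable (fun y => Lsc h (b + y)) := hL.comp_add_left b
    exact e2.comp_smul hR.ne'

end Pool.Agent.BS
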