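import Pool.Agent.BS.Af0

/-!
# Module SCALB: mass as an integral
-/

namespace Pool.Agent.BS

open MeasureTheory Topology Set Filter
open scoped ContDiff

noncomputable section

theorem scb_finrank : Module.finrank ℝ E3 = 3 := by simp

theorem scb_polar (F : E3 → ℝ) (hF : Integrable F) :
    ∫ x, F x = ∫ s in Ioi (0 : ℝ), s ^ 2 * ∫ θ : S2, F (s • (θ : E3)) ∂sig := by
  have hmp := (volume : Measure E3).measurePreserving_homeomorphUnitSphereProd
  rw [scb_finrank] at hmp
  have hemb := (homeomorphUnitSphereProd E3).measurableEmbedding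
  let g : S2 × Ioi (0 : ℝ) → ℝ := fun p => F (p.2.1 • (p.1 : E3))
  have hg : ∀ x : ({0}ᶜ : Set E3), g (homeomorphUnitSphereProd E3 x) = F x := by
    intro x
    simp only [g]
    congr 1
    rw [homeomorphUnitSphereProd_apply_snd_coe, homeomorphUnitSphereProd_apply_fst_coe, smul_smul,
      mul_inv_cancel₀ (norm_ne_zero_iff.2 x.2), one_smul]
  have hint : Integrable g (sig.prod (Measure.volumeIoiPow 2)) := by
    have h1 : Integrable (g ∘ (homeomorphUnitSphereProd E3)) ((volume : Measure E3).comap (↑)) := by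
      have h2 : g ∘ (homeomorphUnitSphereProd E3) = fun x : ({0}ᶜ : Set E3) => F x := funext hg
      rw [h2]
      have h3 : IntegrableOn F ({0}ᶜ : Set E3) := hF.integrableOn
      rw [integrableOn_iff_comap_subtypeVal (measurableSet_singleton _).compl] at h3
      exact h3
    exact (hmp.integrable_comp_emb hemb).1 h1
  calc ∫ x, F x = ∫ x : ({0}ᶜ : Set E3), F x ∂((volume : Measure E3).comap (↑)) := by
        rw [integral_subtype_comap (measurableSet_singleton _).compl F, restrict_compl_singleton]
    _ = ∫ p, g p ∂(sig.prod (Measure.volumeIoiPow 2)) := by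
        have h1 := hmp.integral_comp hemb g
        rw [← show (volume : Measure E3).toSphere = sig from rfl] at *
        rw [← h1]
        exact integral_congr_ae (Eventually.of_forall (fun x => (hg x).symm))
    _ = ∫ s : Ioi (0 : ℝ), ∫ θ : S2, F (s.1 • (θ : E3)) ∂sig ∂(Measure.volumeIoiPow 2) :=
        integral_prod_symm _ hint
    _ = ∫ s in Ioi (0 : ℝ), s ^ 2 * ∫ θ : S2, F (s • (θ : E3)) ∂sig := by
        simp only [Measure.volumeIoiPow, ENNReal.ofReal]
        rw [integral_withDensity_eq_integral_smul,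
          integral_subtype_comap measurableSet_Ioi
            (fun a : ℝ => Real.toNNReal (a ^ 2) • ∫ θ : S2, F (a • (θ : E3)) ∂sig),
          setIntegral_congr_fun measurableSet_Ioi fun x hx => ?_]
        · rw [NNReal.smul_def, Real.coe_toNNReal _ (pow_nonneg (le_of_lt hx) _), smul_eq_mul]
        · exact (measurable_subtype_coe.pow_const _).real_toNNReal

/-- derivative of the smooth transition -/
def scbS (t : ℝ) : ℝ := deriv Real.smoothTransition t

theorem scbS_cont : Continuous scbS :=
  (Real.smoothTransition.contDiff (n := 1)).continuous_deriv (by simp)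

theorem scbS_zero_left {t : ℝ} (h : t ≤ 0) : scbS t = 0 := by
  refine IsLocalMin.deriv_eq_zero (Eventually.of_forall (fun s => ?_))
  rw [Real.smoothTransition.zero_of_nonpos h]
  exact Real.smoothTransition.nonneg s

theorem scbS_zero_right {t : ℝ} (h : 1 ≤ t) : scbS t = 0 := by
  refine IsLocalMax.deriv_eq_zero (Eventually.of_forall (fun s => ?_))
  rw [Real.smoothTransition.one_of_one_le h]
  exact Real.smoothTransition.le_one s

theorem scbS_int : ∫ t, scbS t = 1 := by
  have h1 : ∫ t, scbS t = ∫ t in Ioc (0 : ℝ) 1, scbS t := by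
    symm
    apply setIntegral_eq_integral_of_forall_compl_eq_zero
    intro x hx
    by_cases h : x ≤ 0
    · exact scbS_zero_left h
    · push Not at h
      by_cases h2 : 1 ≤ x
      · exact scbS_zero_right h2
      · push Not at h2
        exact absurd ⟨h, h2.le⟩ hx
  rw [h1, ← intervalIntegral.integral_of_le zero_le_one]
  have hd : Differentiable ℝ Real.smoothTransition :=
    (Real.smoothTransition.contDiff (n := 1)).differentiable (by simp)
  show ∫ t in (0 : ℝ)..1, deriv Real.smoothTransition t = 1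
  rw [intervalIntegral.integral_deriv_eq_sub (fun x _ => hd x)
    (scbS_cont.intervalIntegrable _ _)]
  rw [Real.smoothTransition.one_of_one_le le_rfl, Real.smoothTransition.zero_of_nonpos le_rfl]
  norm_num

/-- the radial cut-off -/
def scbF (r ε : ℝ) (x : E3) : ℝ := Real.smoothTransition ((r - ‖x‖) / ε)

theorem scbF_smooth {r ε : ℝ} (hε : 0 < ε) (hr : ε < r) : ContDiff ℝ 1 (scbF r ε) := by
  rw [contDiff_iff_contDiffAt]
  intro x
  by_cases hx : x = 0
  · have h1 : scbF r ε =ᶠ[𝓝 x] fun _ => 1 := by
      filter_upwards [Metric.ball_mem_nhds x (sub_pos.2 hr)] with z hz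
      rw [hx, mem_ball_zero_iff] at hz
      apply Real.smoothTransition.one_of_one_le
      rw [le_div_iff₀ hε]
      linarith
    exact contDiffAt_const.congr_of_eventuallyEq h1
  · exact Real.smoothTransition.contDiff.contDiffAt.comp x
      ((contDiffAt_const.sub (contDiffAt_norm ℝ hx)).div_const ε)

theorem scbF_zero {r ε : ℝ} (hε : 0 < ε) {x : E3} (hx : r ≤ ‖x‖) : scbF r ε x = 0 :=
  Real.smoothTransition.zero_of_nonpos (div_nonpos_of_nonpos_of_nonneg (by linarith) hε.le)

theorem scbF_one {r ε : ℝ} (hε : 0 < ε) {x : E3} (hx : ‖x‖ ≤ r - ε) : scbF r ε x = 1 := by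
  apply Real.smoothTransition.one_of_one_le
  rw [le_div_iff₀ hε]
  linarith

theorem scbF_compact {r ε : ℝ} (hε : 0 < ε) : HasCompactSupport (scbF r ε) := by
  refine HasCompactSupport.intro (isCompact_closedBall (0 : E3) r) (fun x hx => ?_)
  rw [mem_closedBall_zero_iff, not_le] at hx
  exact scbF_zero hε hx.le

theorem scbF_deriv {r ε : ℝ} (i : Fin 3) {s : ℝ} (hs : 0 < s) (θ : S2) :
    fderiv ℝ (scbF r ε) (s • (θ : E3)) (bv i) = -(ε⁻¹ * scbS ((r - s) / ε)) * (θ : E3) i := by
  have hx : s • (θ : E3) ≠ 0 := smul_ne_zero hs.ne' (S2_ne_zero θ)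
  have hns : ‖s • (θ : E3)‖ = s := by rw [norm_smul, norm_S2, mul_one, Real.norm_of_nonneg hs.le]
  have h1 : HasFDerivAt (fun x : E3 => ‖x‖) (innerSL ℝ (‖s • (θ : E3)‖⁻¹ • (s • (θ : E3)))) (s • (θ : E3)) := by
    have := hasStrictFDerivAt_norm_sq (s • (θ : E3))
    have h2 := (this.hasFDerivAt).sqrt (by
      rw [hns]; positivity)
    have h3 : (fun x : E3 => Real.sqrt (‖x‖ ^ 2)) = fun x => ‖x‖ := by
      ext x; rw [Real.sqrt_sq (norm_nonneg _)]
    rw [h3] at h2
    refine h2.congr_fderiv ?_
    ext y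
    simp only [smul_apply, innerSL_apply_apply, inner_smul_left, smul_eq_mul]
    rw [Real.sqrt_sq (norm_nonneg _)]
    simp
    ring
  have h2 : HasDerivAt Real.smoothTransition (scbS ((r - ‖s • (θ : E3)‖) / ε))
      ((r - ‖s • (θ : E3)‖) / ε) :=
    ((Real.smoothTransition.contDiff (n := 1)).differentiable (by simp) _).hasDerivAt
  have h3 : HasFDerivAt (fun x : E3 => (r - ‖x‖) / ε)
      (ε⁻¹ • (0 - innerSL ℝ (‖s • (θ : E3)‖⁻¹ • (s • (θ : E3))))) (s • (θ : E3)) := by
    have := ((hasFDerivAt_const r (s • (θ : E3))).sub h1).const_smul ε⁻¹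
    refine this.congr_of_eventuallyEq (Eventually.of_forall (fun x => ?_))
    simp [div_eq_inv_mul]
  have h4 := h2.comp_hasFDerivAt (s • (θ : E3)) h3
  have h5 : (Real.smoothTransition ∘ fun x : E3 => (r - ‖x‖) / ε) = scbF r ε := rfl
  rw [h5] at h4
  rw [h4.fderiv, hns]
  have h6 : inner ℝ (θ : E3) (bv i) = (θ : E3) i := by
    simp [bv, EuclideanSpace.inner_single_right]
  simp only [smul_apply, sub_apply, zero_apply, innerSL_apply_apply, inner_smul_left, smul_eq_mul, h6]
  simp
  field_simp

/-- the sphere integral -/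
def scbB (f : E3 → ℝ) (i : Fin 3) (s : ℝ) : ℝ := s ^ 2 * ∫ θ : S2, (θ : E3) i * f (s • (θ : E3)) ∂sig

theorem scb_param {F : ℝ → S2 → ℝ} (hF : Continuous (Function.uncurry F)) :
    Continuous (fun s => ∫ θ, F s θ ∂sig) := by
  have := continuous_parametric_integral_of_continuous (μ := sig) hF (isCompact_univ)
  simpa using this

theorem scbB_cont {f : E3 → ℝ} (hf : Continuous f) (i : Fin 3) : Continuous (scbB f i) := by
  refine (continuous_pow 2).mul (scb_param (F := fun s θ => (θ : E3) i * f (s • (θ : E3))) ?_)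
  simp only [Function.uncurry_def]
  have h1 : Continuous (fun p : ℝ × S2 => ((p.2 : E3) i)) := by fun_prop
  have h2 : Continuous (fun p : ℝ × S2 => f (p.1 • (p.2 : E3))) := hf.comp (by fun_prop)
  exact h1.mul h2

/-- the smoothed identity -/
theorem scb_smoothed {f : E3 → ℝ} (hf : ContDiff ℝ 1 f) (i : Fin 3) {r ε : ℝ} (hε : 0 < ε)
    (hr : ε < r) : ∫ x, scbF r ε x * pd i f x = ∫ t, scbS t * scbB f i (r - ε * t) := by
  have hφ := scbF_smooth hε hr
  have hφc := scbF_compact (r := r) hε
  have hφ' : Continuous (fun x => fderiv ℝ (scbF r ε) x (bv i)) :=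
    (hφ.continuous_fderiv (by simp)).clm_apply continuous_const
  have hφ'c : HasCompactSupport (fun x => fderiv ℝ (scbF r ε) x (bv i)) := by
    refine HasCompactSupport.intro hφc.isCompact (fun x hx => ?_)
    have : fderiv ℝ (scbF r ε) x = 0 := by
      by_contra h
      exact hx (support_fderiv_subset ℝ h)
    rw [this]; rfl
  have hf' : Continuous (fun x => fderiv ℝ f x (bv i)) :=
    (hf.continuous_fderiv (by simp)).clm_apply continuous_const
  have hfc : Continuous f := hf.continuous
  have i1 : Integrable (fun x => fderiv ℝ (scbF r ε) x (bv i) * f x) :=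
    (hφ'.mul hfc).integrable_of_hasCompactSupport hφ'c.mul_right
  have i2 : Integrable (fun x => scbF r ε x * fderiv ℝ f x (bv i)) :=
    (hφ.continuous.mul hf').integrable_of_hasCompactSupport hφc.mul_right
  have i3 : Integrable (fun x => scbF r ε x * f x) :=
    (hφ.continuous.mul hfc).integrable_of_hasCompactSupport hφc.mul_right
  have h1 : ∫ x, scbF r ε x * pd i f x = - ∫ x, fderiv ℝ (scbF r ε) x (bv i) * f x :=
    integral_mul_fderiv_eq_neg_fderiv_mul_of_integrable i1 i2 i3
      (fun x _ => hφ.differentiable (by simp) x) (fun x _ => hf.differentiable (by simp) x)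
  rw [h1, scb_polar _ i1]
  have h2 : ∀ s ∈ Ioi (0 : ℝ), s ^ 2 * ∫ θ : S2, fderiv ℝ (scbF r ε) (s • (θ : E3)) (bv i) *
      f (s • (θ : E3)) ∂sig = -((ε⁻¹ * scbS ((r - s) / ε)) * scbB f i s) := by
    intro s hs
    have h3 : ∀ θ : S2, fderiv ℝ (scbF r ε) (s • (θ : E3)) (bv i) * f (s • (θ : E3)) =
        -(ε⁻¹ * scbS ((r - s) / ε)) * ((θ : E3) i * f (s • (θ : E3))) := fun θ => by
      rw [scbF_deriv i hs θ]; ring
    simp only [h3]
    rw [integral_const_mul, scbB]
    ring
  rw [setIntegral_congr_fun measurableSet_Ioi h2, integral_neg, neg_neg]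
  have h4 : ∫ s in Ioi (0 : ℝ), (ε⁻¹ * scbS ((r - s) / ε)) * scbB f i s =
      ∫ s, (ε⁻¹ * scbS ((r - s) / ε)) * scbB f i s := by
    apply setIntegral_eq_integral_of_forall_compl_eq_zero
    intro s hs
    rw [mem_Ioi, not_lt] at hs
    have : scbS ((r - s) / ε) = 0 := scbS_zero_right (by
      rw [le_div_iff₀ hε]; linarith)
    rw [this, mul_zero, zero_mul]
  rw [h4]
  have h5 := integral_sub_left_eq_self (fun s : ℝ => (ε⁻¹ * scbS (s / ε)) * scbB f i (r - s)) volume r
  have h6 : (fun s : ℝ => (ε⁻¹ * scbS ((r - s) / ε)) * scbB f i (r - (r - s))) =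
      fun s => (ε⁻¹ * scbS ((r - s) / ε)) * scbB f i s := by
    funext s; rw [sub_sub_cancel]
  rw [h6] at h5
  rw [h5]
  have h7 := Measure.integral_comp_div (fun t : ℝ => scbS t * scbB f i (r - ε * t)) ε
  have h8 : (fun s : ℝ => (ε⁻¹ * scbS (s / ε)) * scbB f i (r - s)) =
      fun s => ε⁻¹ * (scbS (s / ε) * scbB f i (r - ε * (s / ε))) := by
    funext s
    rw [mul_div_cancel₀ _ hε.ne']
    ring
  rw [h8, integral_const_mul, h7, abs_of_pos hε, smul_eq_mul, ← mul_assoc, inv_mul_cancel₀ hε.ne',
    one_mul]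

/-- divergence theorem on a ball -/
theorem scb_ball {f : E3 → ℝ} (hf : ContDiff ℝ 1 f) (i : Fin 3) {r : ℝ} (hr : 0 < r) :
    ∫ x in Metric.ball (0 : E3) r, pd i f x =
      r ^ 2 * ∫ θ : S2, (θ : E3) i * f (r • (θ : E3)) ∂sig := by
  have hf' : Continuous (fun x => pd i f x) :=
    (hf.continuous_fderiv (by simp)).clm_apply continuous_const
  let ε : ℕ → ℝ := fun n => r / (n + 2)
  have hε0 : ∀ n, 0 < ε n := fun n => by positivity
  have hεr : ∀ n, ε n < r := fun n => by
    simp only [ε]
    rw [div_lt_iff₀ (by positivity)]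
    nlinarith [hr, (Nat.cast_nonneg n : (0 : ℝ) ≤ n)]
  have hεt : Tendsto ε atTop (𝓝 0) := by
    have h1 : Tendsto (fun n : ℕ => (n : ℝ) + 2) atTop atTop :=
      tendsto_atTop_add_const_right _ _ tendsto_natCast_atTop_atTop
    exact Tendsto.div_atTop tendsto_const_nhds h1
  -- left side
  have hL : Tendsto (fun n => ∫ x, scbF r (ε n) x * pd i f x) atTop
      (𝓝 (∫ x, (Metric.ball (0 : E3) r).indicator (fun x => pd i f x) x)) := by
    refine tendsto_integral_of_dominated_convergence
      ((Metric.ball (0 : E3) r).indicator (fun x => |pd i f x|)) ?_ ?_ ?_ ?_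
    · intro n
      exact ((scbF_smooth (hε0 n) (hεr n)).continuous.mul hf').aestronglyMeasurable
    · rw [integrable_indicator_iff measurableSet_ball]
      exact (hf'.abs.continuousOn.integrableOn_compact (isCompact_closedBall (0 : E3) r)).mono_set
        Metric.ball_subset_closedBall
    · intro n
      refine Eventually.of_forall (fun x => ?_)
      by_cases hx : x ∈ Metric.ball (0 : E3) r
      · rw [indicator_of_mem hx, norm_mul, Real.norm_eq_abs, Real.norm_eq_abs]
        have h1 : |scbF r (ε n) x| ≤ 1 := by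
          unfold scbF
          rw [abs_of_nonneg (Real.smoothTransition.nonneg _)]
          exact Real.smoothTransition.le_one _
        calc |scbF r (ε n) x| * |pd i f x| ≤ 1 * |pd i f x| :=
              mul_le_mul_of_nonneg_right h1 (abs_nonneg _)
          _ = _ := one_mul _
      · rw [indicator_of_notMem hx]
        rw [mem_ball_zero_iff, not_lt] at hx
        rw [scbF_zero (hε0 n) hx, zero_mul, norm_zero]
    · refine Eventually.of_forall (fun x => ?_)
      by_cases hx : x ∈ Metric.ball (0 : E3) r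
      · rw [indicator_of_mem hx]
        rw [mem_ball_zero_iff] at hx
        have h1 : ∀ᶠ n in atTop, ε n < r - ‖x‖ :=
          hεt.eventually (gt_mem_nhds (sub_pos.2 hx))
        refine tendsto_const_nhds.congr' ?_
        filter_upwards [h1] with n hn
        rw [scbF_one (hε0 n) (by linarith), one_mul]
      · rw [indicator_of_notMem hx]
        rw [mem_ball_zero_iff, not_lt] at hx
        refine tendsto_const_nhds.congr' (Eventually.of_forall (fun n => ?_))
        show 0 = scbF r (ε n) x * pd i f x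
        rw [scbF_zero (hε0 n) hx, zero_mul]
  -- right side
  have hBc := scbB_cont hf.continuous i
  obtain ⟨M, hM⟩ : ∃ M, ∀ s ∈ Icc (0 : ℝ) r, |scbB f i s| ≤ M := by
    obtain ⟨M, hM⟩ := (isCompact_Icc (a := (0 : ℝ)) (b := r)).exists_bound_of_continuousOn
      hBc.continuousOn
    exact ⟨M, hM⟩
  have hR : Tendsto (fun n => ∫ t, scbS t * scbB f i (r - ε n * t)) atTop
      (𝓝 (∫ t, scbS t * scbB f i r)) := by
    refine tendsto_integral_of_dominated_convergence (fun t => |scbS t| * M) ?_ ?_ ?_ ?_
    · intro n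
      exact (scbS_cont.mul (hBc.comp (by fun_prop))).aestronglyMeasurable
    · refine Integrable.mul_const ?_ M
      refine Continuous.integrable_of_hasCompactSupport scbS_cont.abs ?_
      refine HasCompactSupport.intro (isCompact_Icc (a := (0 : ℝ)) (b := 1)) (fun t ht => ?_)
      rw [mem_Icc, not_and_or, not_le, not_le] at ht
      rcases ht with h | h
      · rw [scbS_zero_left h.le, abs_zero]
      · rw [scbS_zero_right h.le, abs_zero]
    · intro n
      refine Eventually.of_forall (fun t => ?_)
      rw [norm_mul, Real.norm_eq_abs, Real.norm_eq_abs]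
      by_cases h0 : t ≤ 0
      · rw [scbS_zero_left h0]; simp
      push Not at h0
      by_cases h1 : 1 ≤ t
      · rw [scbS_zero_right h1]; simp
      push Not at h1
      refine mul_le_mul_of_nonneg_left (hM _ ⟨?_, ?_⟩) (abs_nonneg _)
      · nlinarith [hε0 n, hεr n]
      · nlinarith [hε0 n]
    · refine Eventually.of_forall (fun t => ?_)
      refine Tendsto.const_mul _ ?_
      have h1 : Tendsto (fun n => r - ε n * t) atTop (𝓝 (r - 0 * t)) :=
        tendsto_const_nhds.sub (hεt.mul_const t)
      rw [zero_mul, sub_zero] at h1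
      exact (hBc.tendsto r).comp h1
  have hEq : (fun n => ∫ x, scbF r (ε n) x * pd i f x) =
      fun n => ∫ t, scbS t * scbB f i (r - ε n * t) :=
    funext (fun n => scb_smoothed hf i (hε0 n) (hεr n))
  rw [hEq] at hL
  have := tendsto_nhds_unique hL hR
  rw [integral_indicator measurableSet_ball, integral_mul_const, scbS_int, one_mul] at this
  exact this

theorem scb_pd_smooth {f : E3 → ℝ} (hf : ContDiff ℝ ∞ f) (k : Fin 3) : ContDiff ℝ ∞ (pd k f) := by
  have h1 : ContDiff ℝ ∞ (fun x => fderiv ℝ f x) := hf.fderiv_right (by simp)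
  exact h1.clm_apply contDiff_const

theorem scb_pd_gh {g : E3 → M3} {x : E3} (hx : 3 < ‖x‖) (i j k : Fin 3) :
    pd k (fun y => g y i j) x = pd k (fun y => hh g y i j) x := by
  have h1 : (fun y => hh g y i j) =ᶠ[𝓝 x] fun y => g y i j - dl i j := by
    have : {z : E3 | 3 < ‖z‖} ∈ 𝓝 x := (isOpen_lt continuous_const continuous_norm).mem_nhds hx
    filter_upwards [this] with z hz
    have h2 : eta ‖z‖ = 1 := Real.smoothTransition.one_of_one_le (by
      have : 3 < ‖z‖ := hz
      linarith)
    simp only [hh, h2, one_mul]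
  simp only [pd]
  rw [h1.fderiv_eq, fderiv_sub_const]

theorem scb_sphere_int {F : S2 → ℝ} (hF : Continuous F) : Integrable F sig :=
  hF.integrable_of_hasCompactSupport (HasCompactSupport.of_compactSpace F)

/-- the mass flux is the integral of the linearised scalar curvature -/
theorem mass_ball {q : ℝ} {g : E3 → M3} (hg : AFMetric q g) (r : ℝ) (hr : 3 < r) :
    massFlux g r = (1 / (16 * Real.pi)) * ∫ x in Metric.ball (0 : E3) r, Lsc (hh g) x := by
  obtain ⟨-, -, hsm, hsymm⟩ := HA_smooth hg
  have hr0 : 0 < r := by linarith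
  have h1 : ∀ i j k, ContDiff ℝ ∞ (pd k (fun y => hh g y i j)) := fun i j k =>
    scb_pd_smooth (hsm i j) k
  have h1' : ∀ i j k, ContDiff ℝ 1 (pd k (fun y => hh g y i j)) := fun i j k =>
    (h1 i j k).of_le (by norm_cast)
  have h2 : ∀ i j k l, Continuous (pd l (pd k (fun y => hh g y i j))) := fun i j k l =>
    (scb_pd_smooth (h1 i j k) l).continuous
  have hball : ∀ F : E3 → ℝ, Continuous F → IntegrableOn F (Metric.ball (0 : E3) r) := fun F hF =>
    (hF.continuousOn.integrableOn_compact (isCompact_closedBall (0 : E3) r)).mono_set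
        Metric.ball_subset_closedBall
  have hsph : ∀ i j k l, Continuous (fun θ : S2 => (θ : E3) l *
      pd k (fun y => hh g y i j) (r • (θ : E3))) := fun i j k l => by
    have h3 : Continuous (fun θ : S2 => (θ : E3) l) := by fun_prop
    have h4 : Continuous (fun θ : S2 => pd k (fun y => hh g y i j) (r • (θ : E3))) :=
      (h1 i j k).continuous.comp (by fun_prop)
    exact h3.mul h4
  -- the volume side
  have hV : ∫ x in Metric.ball (0 : E3) r, Lsc (hh g) x =
      (∑ i, ∑ j, r ^ 2 * ∫ θ : S2, (θ : E3) i * pd j (fun y => hh g y i j) (r • (θ : E3)) ∂sig) -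
      ∑ i, ∑ j, r ^ 2 * ∫ θ : S2, (θ : E3) j * pd j (fun y => hh g y i i) (r • (θ : E3)) ∂sig := by
    simp only [Lsc]
    rw [integral_sub]
    · rw [integral_finsetSum _ (fun i _ => integrable_finsetSum _ (fun j _ => hball _ (h2 i j j i))),
        integral_finsetSum _ (fun i _ => integrable_finsetSum _ (fun j _ => hball _ (h2 i i j j)))]
      congr 1
      · refine Finset.sum_congr rfl (fun i _ => ?_)
        rw [integral_finsetSum _ (fun j _ => hball _ (h2 i j j i))]
        exact Finset.sum_congr rfl (fun j _ => scb_ball (h1' i j j) i hr0)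
      · refine Finset.sum_congr rfl (fun i _ => ?_)
        rw [integral_finsetSum _ (fun j _ => hball _ (h2 i i j j))]
        exact Finset.sum_congr rfl (fun j _ => scb_ball (h1' i i j) j hr0)
    · exact integrable_finsetSum _ (fun i _ => integrable_finsetSum _ (fun j _ => hball _ (h2 i j j i)))
    · exact integrable_finsetSum _ (fun i _ => integrable_finsetSum _ (fun j _ => hball _ (h2 i i j j)))
  -- the surface side
  have hS : ∫ θ : S2, ∑ i, ∑ j,
    (pd i (fun y => g y i j) (r • (θ : E3)) - pd j (fun y => g y i i) (r • (θ : E3))) *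
      (θ : E3) j ∂sig =
      (∑ i, ∑ j, ∫ θ : S2, (θ : E3) i * pd j (fun y => hh g y i j) (r • (θ : E3)) ∂sig) -
      ∑ i, ∑ j, ∫ θ : S2, (θ : E3) j * pd j (fun y => hh g y i i) (r • (θ : E3)) ∂sig := by
    have h3 : ∀ θ : S2, ∑ i, ∑ j,
        (pd i (fun y => g y i j) (r • (θ : E3)) - pd j (fun y => g y i i) (r • (θ : E3))) *
        (θ : E3) j = (∑ i, ∑ j, (θ : E3) j * pd i (fun y => hh g y i j) (r • (θ : E3))) -
        ∑ i, ∑ j, (θ : E3) j * pd j (fun y => hh g y i i) (r • (θ : E3)) := by
      intro θ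
      have hx : 3 < ‖r • (θ : E3)‖ := by
        rw [norm_smul, norm_S2, mul_one, Real.norm_of_nonneg hr0.le]; exact hr
      rw [← Finset.sum_sub_distrib]
      refine Finset.sum_congr rfl (fun i _ => ?_)
      rw [← Finset.sum_sub_distrib]
      refine Finset.sum_congr rfl (fun j _ => ?_)
      rw [scb_pd_gh (g := g) hx i j i, scb_pd_gh (g := g) hx i i j]
      ring
    have h4 : ∀ i j, (fun y => hh g y i j) = fun y => hh g y j i := fun i j =>
      funext (fun y => hsymm y i j)
    have h5 : (∑ i, ∑ j, ∫ θ : S2, (θ : E3) i * pd j (fun y => hh g y i j) (r • (θ : E3)) ∂sig) =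
        ∑ i, ∑ j, ∫ θ : S2, (θ : E3) j * pd i (fun y => hh g y i j) (r • (θ : E3)) ∂sig := by
      rw [Finset.sum_comm]
      refine Finset.sum_congr rfl (fun i _ => Finset.sum_congr rfl (fun j _ => ?_))
      rw [h4 j i]
    rw [h5]
    simp only [h3]
    rw [integral_sub]
    · rw [integral_finsetSum _ (fun i _ => integrable_finsetSum _ (fun j _ =>
          scb_sphere_int (hsph i j i j))),
        integral_finsetSum _ (fun i _ => integrable_finsetSum _ (fun j _ =>
          scb_sphere_int (hsph i i j j)))]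
      congr 1
      · exact Finset.sum_congr rfl (fun i _ =>
          integral_finsetSum _ (fun j _ => scb_sphere_int (hsph i j i j)))
      · exact Finset.sum_congr rfl (fun i _ =>
          integral_finsetSum _ (fun j _ => scb_sphere_int (hsph i i j j)))
    · exact integrable_finsetSum _ (fun i _ => integrable_finsetSum _ (fun j _ =>
        scb_sphere_int (hsph i j i j)))
    · exact integrable_finsetSum _ (fun i _ => integrable_finsetSum _ (fun j _ =>
        scb_sphere_int (hsph i i j j)))
  rw [massFlux, hS, hV]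
  simp only [← Finset.mul_sum]
  ring

end

end Pool.Agent.BS
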