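import Pool.Agent.BS.ScalA
import Pool.Agent.BS.ScalB

/-!
# Module SCALB (second part): scalar curvature and mass
-/

namespace Pool.Agent.BS

open MeasureTheory Topology Set Filter
open scoped ContDiff

noncomputable section

theorem scal_Lsc_cont {q : ℝ} {g : E3 → M3} (hg : AFMetric q g) : Continuous (Lsc (hh g)) := by
  obtain ⟨-, -, hs, -⟩ := HA_smooth hg
  unfold Lsc
  refine Continuous.sub ?_ ?_
  · exact continuous_finsetSum _ fun i _ => continuous_finsetSum _ fun j _ =>
      (af0_pd_smooth (af0_pd_smooth (hs i j) j) i).continuous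
  · exact continuous_finsetSum _ fun i _ => continuous_finsetSum _ fun j _ =>
      (af0_pd_smooth (af0_pd_smooth (hs i i) j) j).continuous

theorem scal_rpow_int {s ρ : ℝ} (hs : 3 < s) (hρ : 1 ≤ ρ) :
    IntegrableOn (fun x : E3 => ‖x‖ ^ (-s)) {x | ρ < ‖x‖} := by
  have h1 : Integrable (fun x : E3 => (2 : ℝ) ^ s * (1 + ‖x‖) ^ (-s)) :=
    (integrable_one_add_norm (by simpa using hs)).const_mul _
  have hm : MeasurableSet {x : E3 | ρ < ‖x‖} := (isOpen_lt continuous_const continuous_norm).measurableSet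
  refine (h1.integrableOn (s := {x : E3 | ρ < ‖x‖})).mono' ?_ ?_
  · refine ContinuousOn.aestronglyMeasurable (fun x hx => ?_) hm
    have hx' : ρ < ‖x‖ := hx
    exact (continuous_norm.continuousAt.rpow_const (Or.inl (by linarith))).continuousWithinAt
  · refine (ae_restrict_iff' hm).2 (Eventually.of_forall fun x hx => ?_)
    have hx' : ρ < ‖x‖ := hx
    have h0 : 0 < ‖x‖ := by linarith
    rw [Real.norm_of_nonneg (by positivity)]
    have h2 : (2 * ‖x‖) ^ (-s) ≤ (1 + ‖x‖) ^ (-s) :=
      Real.rpow_le_rpow_of_nonpos (by positivity) (by linarith) (by linarith)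
    rw [Real.mul_rpow (by norm_num) h0.le] at h2
    have h3 : (2 : ℝ) ^ s * (2 : ℝ) ^ (-s) = 1 := by
      rw [← Real.rpow_add (by norm_num), add_neg_cancel, Real.rpow_zero]
    calc ‖x‖ ^ (-s) = (2 : ℝ) ^ s * ((2 : ℝ) ^ (-s) * ‖x‖ ^ (-s)) := by
          rw [← mul_assoc, h3, one_mul]
      _ ≤ _ := mul_le_mul_of_nonneg_left h2 (by positivity)

theorem scal_part {q m r₀ : ℝ} {g : E3 → M3} (hq : 1 / 2 < q) (hg : AFMetric q g)
    (hs : IntegrableOn (scal g) {x | r₀ < ‖x‖}) (hm : Tendsto (massFlux g) atTop (𝓝 m)) :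
    Integrable (Lsc (hh g)) ∧ ∫ x, Lsc (hh g) x = 16 * Real.pi * m := by
  have hc := scal_Lsc_cont hg
  obtain ⟨C, r₁, hC, hr₁, hb⟩ := scal_expand hq hg
  have hρ1 : r₀ ≤ max r₀ r₁ := le_max_left _ _
  have hρ2 : r₁ ≤ max r₀ r₁ := le_max_right _ _
  generalize max r₀ r₁ = ρ at hρ1 hρ2
  have hmS : MeasurableSet {x : E3 | ρ < ‖x‖} :=
    (isOpen_lt continuous_const continuous_norm).measurableSet
  have h1 : IntegrableOn (scal g) {x | ρ < ‖x‖} :=
    hs.mono_set (fun x (hx : ρ < ‖x‖) => lt_of_le_of_lt hρ1 hx)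
  have h2 : IntegrableOn (fun x => scal g x - Lsc (hh g) x) {x | ρ < ‖x‖} := by
    refine Integrable.mono' ((scal_rpow_int (s := 2 * q + 2) (ρ := ρ) (by linarith)
      (by linarith)).const_mul C) (h1.aestronglyMeasurable.sub hc.aestronglyMeasurable) ?_
    refine (ae_restrict_iff' hmS).2 (Eventually.of_forall fun x hx => ?_)
    have hx' : ρ < ‖x‖ := hx
    have := hb x (by linarith)
    rw [Real.norm_eq_abs]
    convert this using 3
    ring
  have h3 : IntegrableOn (Lsc (hh g)) {x | ρ < ‖x‖} := by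
    have := h1.sub h2
    refine this.congr (Eventually.of_forall fun x => ?_)
    simp
  have h4 : IntegrableOn (Lsc (hh g)) (Metric.closedBall 0 ρ) :=
    hc.continuousOn.integrableOn_compact (isCompact_closedBall _ _)
  have hI : Integrable (Lsc (hh g)) := by
    rw [← integrableOn_univ]
    refine (h4.union h3).mono_set (fun x _ => ?_)
    by_cases hx : ρ < ‖x‖
    · exact Or.inr hx
    · exact Or.inl (by simpa using hx)
  refine ⟨hI, ?_⟩
  have h5 : Tendsto (fun r : ℝ => ∫ x in Metric.ball (0 : E3) r, Lsc (hh g) x) atTop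
      (𝓝 (∫ x, Lsc (hh g) x)) :=
    AECover.integral_tendsto_of_countably_generated (aecover_ball tendsto_id) hI
  have h6 : Tendsto (fun r : ℝ => ∫ x in Metric.ball (0 : E3) r, Lsc (hh g) x) atTop
      (𝓝 (16 * Real.pi * m)) := by
    refine (hm.const_mul (16 * Real.pi)).congr' ?_
    filter_upwards [eventually_gt_atTop 3] with r hr
    rw [mass_ball hg r hr]
    have := Real.pi_pos
    field_simp
  exact tendsto_nhds_unique h5 h6

end

end Pool.Agent.BS
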