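import Pool.Agent.BS.Defs4

/-!
# Module ZERO: zeros of the force
-/

namespace Pool.Agent.BS

open MeasureTheory Topology Set Filter
open scoped ContDiff

noncomputable section

theorem zero_abs_le (z : E3) (i : Fin 3) : |z i| ≤ ‖z‖ := by
  have := PiLp.norm_apply_le z i
  simpa using this

/-- weight -/
def zero_W (a : ℝ) : ℝ := ((max 1 a) ^ 4)⁻¹

theorem zero_W_pos (a : ℝ) : 0 < zero_W a := by
  unfold zero_W
  have : 0 < max 1 a := lt_of_lt_of_le one_pos (le_max_left _ _)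
  positivity

theorem zero_W_le_one (a : ℝ) : zero_W a ≤ 1 := by
  unfold zero_W
  have : 1 ≤ max 1 a := le_max_left _ _
  exact inv_le_one_of_one_le₀ (one_le_pow₀ this)

theorem zero_zet_eq (i : Fin 3) (z : E3) : zet i z = z i * zero_W ‖z‖ := by
  unfold zet zero_W
  rcases eq_or_ne z 0 with h0 | h0
  · simp [h0]
  · have hz : 0 < ‖z‖ := norm_pos_iff.2 h0
    congr 1
    rcases le_total ‖z‖ 1 with h | h
    · have : 1 ≤ (‖z‖ ^ 4)⁻¹ := by
        rw [one_le_inv₀ (by positivity)]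
        exact pow_le_one₀ hz.le h
      rw [min_eq_left this, max_eq_left h]
      norm_num
    · have : (‖z‖ ^ 4)⁻¹ ≤ 1 := inv_le_one_of_one_le₀ (one_le_pow₀ h)
      rw [min_eq_right this, max_eq_right h]

theorem zero_zet_of_le {i : Fin 3} {z : E3} (h : ‖z‖ ≤ 1) : zet i z = z i := by
  rw [zero_zet_eq]
  unfold zero_W
  rw [max_eq_left h]
  norm_num

theorem zero_zet_le (i : Fin 3) (z : E3) : |zet i z| ≤ 1 := by
  rw [zero_zet_eq, abs_mul, abs_of_pos (zero_W_pos _)]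
  have h1 : |z i| ≤ max 1 ‖z‖ := (zero_abs_le z i).trans (le_max_right _ _)
  have h2 : 1 ≤ max 1 ‖z‖ := le_max_left _ _
  unfold zero_W
  set m := max 1 ‖z‖
  have hm : 0 < m := lt_of_lt_of_le one_pos h2
  rw [mul_inv_le_iff₀ (by positivity), one_mul]
  exact h1.trans (le_self_pow₀ h2 (by norm_num))

theorem zero_meas (i : Fin 3) : Measurable (fun z : E3 => zet i z) := by
  unfold zet
  have h1 : Measurable (fun z : E3 => z i) := by fun_prop
  have h2 : Measurable (fun z : E3 => min 1 (‖z‖ ^ 4)⁻¹) := by fun_prop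
  exact h1.mul h2

/-- key elementary inequality -/
theorem zero_W_sub {a a' : ℝ} (h : a ≤ a') : a' * (zero_W a - zero_W a') ≤ 4 * zero_W a * (a' - a) := by
  unfold zero_W
  have h1 : 1 ≤ max 1 a := le_max_left _ _
  have h2 : max 1 a ≤ max 1 a' := max_le_max le_rfl h
  have h3 : max 1 a' - max 1 a ≤ a' - a := by
    rcases le_total 1 a with h4 | h4 <;> rcases le_total 1 a' with h5 | h5 <;>
      simp [h4, h5] <;> linarith
  have h4 : a' ≤ max 1 a' := le_max_right _ _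
  generalize max 1 a = m at *
  generalize max 1 a' = m' at *
  have hm : 0 < m := by linarith
  have hm' : 0 < m' := by linarith
  have h5 : (m' ^ 4)⁻¹ ≤ (m ^ 4)⁻¹ := by gcongr
  have h6 : m' * ((m ^ 4)⁻¹ - (m' ^ 4)⁻¹) ≤ 4 * (m ^ 4)⁻¹ * (m' - m) := by
    have e1 : 4 * (m ^ 4)⁻¹ * (m' - m) - m' * ((m ^ 4)⁻¹ - (m' ^ 4)⁻¹)
        = (m' - m) * (3 * m' ^ 3 - m' ^ 2 * m - m' * m ^ 2 - m ^ 3) / (m ^ 4 * m' ^ 3) := by
      field_simp
      ring
    have h7 : 0 ≤ 3 * m' ^ 3 - m' ^ 2 * m - m' * m ^ 2 - m ^ 3 := by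
      have i1 : m' ^ 2 * m ≤ m' ^ 2 * m' := by gcongr
      have i2 : m' * m ^ 2 ≤ m' * m' ^ 2 := by gcongr
      have i3 : m ^ 3 ≤ m' ^ 3 := by gcongr
      nlinarith
    have h8 : 0 ≤ (m' - m) * (3 * m' ^ 3 - m' ^ 2 * m - m' * m ^ 2 - m ^ 3) / (m ^ 4 * m' ^ 3) := by
      apply div_nonneg (mul_nonneg (by linarith) h7) (by positivity)
    linarith
  have h9 : a' * ((m ^ 4)⁻¹ - (m' ^ 4)⁻¹) ≤ m' * ((m ^ 4)⁻¹ - (m' ^ 4)⁻¹) := by
    apply mul_le_mul_of_nonneg_right h4; linarith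
  have h10 : 4 * (m ^ 4)⁻¹ * (m' - m) ≤ 4 * (m ^ 4)⁻¹ * (a' - a) := by
    apply mul_le_mul_of_nonneg_left h3; positivity
  linarith

theorem zero_zet_sub_aux (i : Fin 3) {z z' : E3} (h : ‖z‖ ≤ ‖z'‖) :
    |zet i z - zet i z'| ≤ 5 * zero_W ‖z‖ * ‖z - z'‖ := by
  rw [zero_zet_eq, zero_zet_eq]
  have e : z i * zero_W ‖z‖ - z' i * zero_W ‖z'‖
      = (z - z') i * zero_W ‖z‖ + z' i * (zero_W ‖z‖ - zero_W ‖z'‖) := by
    simp only [PiLp.sub_apply]; ring
  rw [e]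
  have hW : zero_W ‖z'‖ ≤ zero_W ‖z‖ := by
    unfold zero_W
    have : 0 < max 1 ‖z‖ := lt_of_lt_of_le one_pos (le_max_left _ _)
    gcongr
  have h1 : |(z - z') i * zero_W ‖z‖| ≤ zero_W ‖z‖ * ‖z - z'‖ := by
    rw [abs_mul, abs_of_pos (zero_W_pos _), mul_comm]
    exact mul_le_mul_of_nonneg_left (zero_abs_le _ _) (zero_W_pos _).le
  have h2 : |z' i * (zero_W ‖z‖ - zero_W ‖z'‖)| ≤ 4 * zero_W ‖z‖ * ‖z - z'‖ := by
    rw [abs_mul, abs_of_nonneg (sub_nonneg.2 hW)]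
    have i1 : |z' i| * (zero_W ‖z‖ - zero_W ‖z'‖) ≤ ‖z'‖ * (zero_W ‖z‖ - zero_W ‖z'‖) :=
      mul_le_mul_of_nonneg_right (zero_abs_le _ _) (sub_nonneg.2 hW)
    have i2 := zero_W_sub h
    have i3 : ‖z'‖ - ‖z‖ ≤ ‖z - z'‖ := by
      rw [norm_sub_rev]; exact norm_sub_norm_le _ _
    have i4 : 4 * zero_W ‖z‖ * (‖z'‖ - ‖z‖) ≤ 4 * zero_W ‖z‖ * ‖z - z'‖ :=
      mul_le_mul_of_nonneg_left i3 (by have := zero_W_pos ‖z‖; positivity)
    linarith
  refine (abs_add_le _ _).trans ?_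
  linarith

theorem zero_zet_sub (i : Fin 3) (z z' : E3) :
    |zet i z - zet i z'| ≤ 5 * max (zero_W ‖z‖) (zero_W ‖z'‖) * ‖z - z'‖ := by
  rcases le_total ‖z‖ ‖z'‖ with h | h
  · refine (zero_zet_sub_aux i h).trans ?_
    gcongr
    exact le_max_left _ _
  · rw [abs_sub_comm, norm_sub_rev]
    refine (zero_zet_sub_aux i h).trans ?_
    gcongr
    exact le_max_right _ _

/-- weight bound -/
theorem zero_W_mul {a y : ℝ} (h : y ≤ 2 * a + 1 / 4) : zero_W a * y ≤ 9 / 4 := by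
  have h1 : 1 ≤ max 1 a := le_max_left _ _
  have h2 : a ≤ max 1 a := le_max_right _ _
  have h3 : y ≤ 9 / 4 * max 1 a := by linarith
  unfold zero_W
  generalize max 1 a = m at *
  have hm : 0 < m := by linarith
  calc (m ^ 4)⁻¹ * y ≤ (m ^ 4)⁻¹ * (9 / 4 * m) := by gcongr
    _ = 9 / 4 * (m ^ 3)⁻¹ := by field_simp
    _ ≤ 9 / 4 * 1 := by
        gcongr
        exact inv_le_one_of_one_le₀ (one_le_pow₀ h1)
    _ = 9 / 4 := by ring

/-- The pointwise estimate for differences. -/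
theorem zero_pt2 (i : Fin 3) (x b b' : E3) {R R' : ℝ} (hR : 0 < R) (hRR : R ≤ R') (hR2 : R' ≤ 2 * R)
    (hb : ‖b‖ ≤ R / 8) (hb' : ‖b'‖ ≤ R / 8) :
    |zet i (R⁻¹ • (x - b)) - zet i (R'⁻¹ • (x - b')) + (R⁻¹ * b i - R'⁻¹ * b' i)| ≤
      20 * min 1 (2 * ‖x‖ / R) * ((R' - R) / R + ‖R⁻¹ • b - R'⁻¹ • b'‖) := by
  have hR' : 0 < R' := lt_of_lt_of_le hR hRR
  set D := ‖R⁻¹ • b - R'⁻¹ • b'‖ with hD
  have hD0 : 0 ≤ D := norm_nonneg _
  set s := (R' - R) / R with hs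
  have hs0 : 0 ≤ s := div_nonneg (by linarith) hR.le
  have hn1 : ‖R⁻¹ • (x - b)‖ = ‖x - b‖ / R := by
    rw [norm_smul, norm_inv, Real.norm_of_nonneg hR.le]; ring
  have hn2 : ‖R'⁻¹ • (x - b')‖ = ‖x - b'‖ / R' := by
    rw [norm_smul, norm_inv, Real.norm_of_nonneg hR'.le]; ring
  have hx0 := norm_nonneg x
  rcases le_or_gt ‖x‖ (R / 2) with hx | hx
  · have h1 : ‖R⁻¹ • (x - b)‖ ≤ 1 := by
      rw [hn1, div_le_one hR]
      refine (norm_sub_le _ _).trans ?_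
      linarith
    have h2 : ‖R'⁻¹ • (x - b')‖ ≤ 1 := by
      rw [hn2, div_le_one hR']
      refine (norm_sub_le _ _).trans ?_
      linarith
    rw [zero_zet_of_le h1, zero_zet_of_le h2]
    have e : (R⁻¹ • (x - b)) i - (R'⁻¹ • (x - b')) i + (R⁻¹ * b i - R'⁻¹ * b' i)
        = x i * (R⁻¹ - R'⁻¹) := by
      simp only [PiLp.smul_apply, PiLp.sub_apply, smul_eq_mul]; ring
    rw [e, abs_mul]
    have h3 : |R⁻¹ - R'⁻¹| ≤ s / R := by
      have : R⁻¹ - R'⁻¹ = (R' - R) / (R * R') := by field_simp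
      rw [this, abs_of_nonneg (div_nonneg (by linarith) (by positivity)), hs, div_div]
      apply div_le_div_of_nonneg_left (by linarith) (by positivity)
      exact mul_le_mul_of_nonneg_left hRR hR.le
    have h4 : min 1 (2 * ‖x‖ / R) = 2 * ‖x‖ / R := by
      apply min_eq_right
      rw [div_le_one hR]; linarith
    rw [h4]
    calc |x i| * |R⁻¹ - R'⁻¹| ≤ ‖x‖ * (s / R) :=
          mul_le_mul (zero_abs_le _ _) h3 (abs_nonneg _) hx0
      _ = (‖x‖ / R) * s := by ring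
      _ ≤ 20 * (2 * ‖x‖ / R) * (s + D) := by
          have h5 : 0 ≤ ‖x‖ / R := by positivity
          have h6 : 20 * (2 * ‖x‖ / R) = 40 * (‖x‖ / R) := by ring
          rw [h6]
          nlinarith [mul_nonneg h5 hD0, mul_nonneg h5 hs0]
  · have h4 : min 1 (2 * ‖x‖ / R) = 1 := by
      apply min_eq_left
      rw [one_le_div hR]; linarith
    rw [h4, mul_one]
    set y := ‖x‖ / R with hy
    have hy0 : 0 ≤ y := by positivity
    have ha : y ≤ 2 * ‖R⁻¹ • (x - b)‖ + 1 / 4 := by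
      rw [hn1, hy]
      have h5 : ‖x‖ ≤ ‖x - b‖ + R / 8 := by
        have := norm_add_le (x - b) b
        rw [sub_add_cancel] at this
        linarith
      have h6 : ‖x‖ / R ≤ (‖x - b‖ + R / 8) / R := by gcongr
      have h7 : (‖x - b‖ + R / 8) / R = ‖x - b‖ / R + 1 / 8 := by field_simp
      have h8 : 0 ≤ ‖x - b‖ / R := by positivity
      linarith
    have ha' : y ≤ 2 * ‖R'⁻¹ • (x - b')‖ + 1 / 4 := by
      rw [hn2, hy]
      have h5 : ‖x‖ ≤ ‖x - b'‖ + R / 8 := by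
        have := norm_add_le (x - b') b'
        rw [sub_add_cancel] at this
        linarith
      have h6 : ‖x‖ / R ≤ (‖x - b'‖ + R / 8) / R := by gcongr
      have h7 : (‖x - b'‖ + R / 8) / R = ‖x - b'‖ / R + 1 / 8 := by field_simp
      have h8 : ‖x - b'‖ / R ≤ 2 * (‖x - b'‖ / R') := by
        rw [div_le_iff₀ hR]
        have : 2 * (‖x - b'‖ / R') * R = ‖x - b'‖ * (2 * R / R') := by ring
        rw [this]
        have h9 : 1 ≤ 2 * R / R' := by rw [one_le_div hR']; exact hR2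
        nlinarith [norm_nonneg (x - b')]
      linarith
    have hW1 := zero_W_mul ha
    have hW2 := zero_W_mul ha'
    have hWy : max (zero_W ‖R⁻¹ • (x - b)‖) (zero_W ‖R'⁻¹ • (x - b')‖) * y ≤ 9 / 4 := by
      rcases max_choice (zero_W ‖R⁻¹ • (x - b)‖) (zero_W ‖R'⁻¹ • (x - b')‖) with h | h <;> rw [h]
      · exact hW1
      · exact hW2
    have hWm : max (zero_W ‖R⁻¹ • (x - b)‖) (zero_W ‖R'⁻¹ • (x - b')‖) ≤ 1 :=
      max_le (zero_W_le_one _) (zero_W_le_one _)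
    have hW0 : 0 ≤ max (zero_W ‖R⁻¹ • (x - b)‖) (zero_W ‖R'⁻¹ • (x - b')‖) :=
      le_max_of_le_left (zero_W_pos _).le
    have hz := zero_zet_sub i (R⁻¹ • (x - b)) (R'⁻¹ • (x - b'))
    set W := max (zero_W ‖R⁻¹ • (x - b)‖) (zero_W ‖R'⁻¹ • (x - b')‖)
    have hdz : ‖R⁻¹ • (x - b) - R'⁻¹ • (x - b')‖ ≤ y * s + D := by
      have e : R⁻¹ • (x - b) - R'⁻¹ • (x - b') = (R⁻¹ - R'⁻¹) • x - (R⁻¹ • b - R'⁻¹ • b') := by
        module
      rw [e]
      refine (norm_sub_le _ _).trans ?_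
      rw [norm_smul]
      have h3 : ‖R⁻¹ - R'⁻¹‖ ≤ s / R := by
        have : R⁻¹ - R'⁻¹ = (R' - R) / (R * R') := by field_simp
        rw [Real.norm_eq_abs, this, abs_of_nonneg (div_nonneg (by linarith) (by positivity)), hs,
          div_div]
        apply div_le_div_of_nonneg_left (by linarith) (by positivity)
        exact mul_le_mul_of_nonneg_left hRR hR.le
      have h5 : ‖R⁻¹ - R'⁻¹‖ * ‖x‖ ≤ (s / R) * ‖x‖ := mul_le_mul_of_nonneg_right h3 hx0
      have h6 : (s / R) * ‖x‖ = y * s := by rw [hy]; ring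
      linarith
    have hz2 : |zet i (R⁻¹ • (x - b)) - zet i (R'⁻¹ • (x - b'))| ≤ 12 * s + 5 * D := by
      calc _ ≤ 5 * W * ‖R⁻¹ • (x - b) - R'⁻¹ • (x - b')‖ := hz
        _ ≤ 5 * W * (y * s + D) := by gcongr
        _ = 5 * (W * y) * s + 5 * W * D := by ring
        _ ≤ 5 * (9 / 4) * s + 5 * 1 * D := by gcongr
        _ ≤ 12 * s + 5 * D := by nlinarith
    have hb3 : |R⁻¹ * b i - R'⁻¹ * b' i| ≤ D := by
      have := zero_abs_le (R⁻¹ • b - R'⁻¹ • b') i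
      simpa [PiLp.smul_apply, PiLp.sub_apply, smul_eq_mul] using this
    refine (abs_add_le _ _).trans ?_
    nlinarith

theorem zero_pt1 (i : Fin 3) (x : E3) {R : ℝ} (hR : 0 < R) :
    |zet i (R⁻¹ • (x - 0))| ≤ 20 * min 1 (2 * ‖x‖ / R) := by
  have hx0 := norm_nonneg x
  rcases le_or_gt ‖x‖ (R / 2) with hx | hx
  · have h4 : min 1 (2 * ‖x‖ / R) = 2 * ‖x‖ / R := by
      apply min_eq_right
      rw [div_le_one hR]; linarith
    have h1 : ‖R⁻¹ • (x - 0)‖ ≤ 1 := by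
      rw [norm_smul, norm_inv, Real.norm_of_nonneg hR.le, sub_zero, inv_mul_le_iff₀ hR]
      linarith
    rw [h4, zero_zet_of_le h1]
    refine (zero_abs_le _ _).trans ?_
    rw [norm_smul, norm_inv, Real.norm_of_nonneg hR.le, sub_zero]
    have h5 : 0 ≤ ‖x‖ / R := by positivity
    have h6 : R⁻¹ * ‖x‖ = ‖x‖ / R := by ring
    have h7 : 20 * (2 * ‖x‖ / R) = 40 * (‖x‖ / R) := by ring
    rw [h6, h7]
    linarith
  · have h4 : min 1 (2 * ‖x‖ / R) = 1 := by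
      apply min_eq_left
      rw [one_le_div hR]; linarith
    rw [h4]
    have := zero_zet_le i (R⁻¹ • (x - 0))
    linarith

/-- the error function -/
def zero_e (ρ : E3 → ℝ) (R : ℝ) : ℝ := ∫ x, |ρ x| * (20 * min 1 (2 * ‖x‖ / R))

theorem zero_int_w {ρ : E3 → ℝ} (hρ : Integrable ρ) {R : ℝ} (hR : 0 < R) :
    Integrable (fun x => |ρ x| * (20 * min 1 (2 * ‖x‖ / R))) := by
  have h1 : AEStronglyMeasurable (fun x : E3 => (20 * min 1 (2 * ‖x‖ / R))) volume := by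
    apply Measurable.aestronglyMeasurable
    fun_prop
  refine Integrable.mono' (hρ.abs.mul_const 20) (hρ.abs.aestronglyMeasurable.mul h1) ?_
  filter_upwards with x
  have h2 : 0 ≤ min 1 (2 * ‖x‖ / R) := le_min zero_le_one (by positivity)
  have h3 : min 1 (2 * ‖x‖ / R) ≤ 1 := min_le_left _ _
  rw [Real.norm_eq_abs, abs_of_nonneg (by positivity)]
  have := abs_nonneg (ρ x)
  nlinarith

theorem zero_e_nonneg (ρ : E3 → ℝ) {R : ℝ} (hR : 0 < R) : 0 ≤ zero_e ρ R := by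
  unfold zero_e
  apply integral_nonneg
  intro x
  have h2 : 0 ≤ min 1 (2 * ‖x‖ / R) := le_min zero_le_one (by positivity)
  show 0 ≤ |ρ x| * (20 * min 1 (2 * ‖x‖ / R))
  positivity

theorem zero_e_tendsto {ρ : E3 → ℝ} (hρ : Integrable ρ) :
    Tendsto (zero_e ρ) atTop (𝓝 0) := by
  have h0 : (0 : ℝ) = ∫ x : E3, (fun _ => (0 : ℝ)) x := by simp
  unfold zero_e
  rw [h0]
  refine tendsto_integral_filter_of_dominated_convergence (fun x => |ρ x| * 20) ?_ ?_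
    (hρ.abs.mul_const 20) ?_
  · filter_upwards [eventually_gt_atTop 0] with R hR
    exact (zero_int_w hρ hR).aestronglyMeasurable
  · filter_upwards [eventually_gt_atTop 0] with R hR
    filter_upwards with x
    have h2 : 0 ≤ min 1 (2 * ‖x‖ / R) := le_min zero_le_one (by positivity)
    have h3 : min 1 (2 * ‖x‖ / R) ≤ 1 := min_le_left _ _
    rw [Real.norm_eq_abs, abs_of_nonneg (by positivity)]
    have := abs_nonneg (ρ x)
    nlinarith
  · filter_upwards with x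
    have h1 : Tendsto (fun R : ℝ => 2 * ‖x‖ / R) atTop (𝓝 0) :=
      tendsto_const_nhds.div_atTop tendsto_id
    have h2 : Tendsto (fun R : ℝ => |ρ x| * (20 * min 1 (2 * ‖x‖ / R))) atTop
        (𝓝 (|ρ x| * (20 * min 1 0))) :=
      ((tendsto_const_nhds.min h1).const_mul 20).const_mul _
    simpa using h2

theorem zero_int_z {ρ : E3 → ℝ} (hρ : Integrable ρ) (i : Fin 3) (b : E3) (R : ℝ) :
    Integrable (fun x => ρ x * zet i (R⁻¹ • (x - b))) := by
  have h1 : AEStronglyMeasurable (fun x : E3 => zet i (R⁻¹ • (x - b))) volume := by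
    apply Measurable.aestronglyMeasurable
    exact (zero_meas i).comp (by fun_prop)
  refine Integrable.mono hρ (hρ.aestronglyMeasurable.mul h1) ?_
  filter_upwards with x
  rw [norm_mul]
  have := zero_zet_le i (R⁻¹ • (x - b))
  rw [← Real.norm_eq_abs] at this
  have h2 := norm_nonneg (ρ x)
  nlinarith

theorem zero_E1 {ρ : E3 → ℝ} (hρ : Integrable ρ) (i : Fin 3) {R : ℝ} (hR : 0 < R) :
    |FF ρ i 0 R| ≤ zero_e ρ R := by
  unfold FF zero_e
  rw [← Real.norm_eq_abs]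
  refine norm_integral_le_of_norm_le (zero_int_w hρ hR) ?_
  filter_upwards with x
  rw [norm_mul, Real.norm_eq_abs, Real.norm_eq_abs]
  exact mul_le_mul_of_nonneg_left (zero_pt1 i x hR) (abs_nonneg _)

theorem zero_E2 {ρ : E3 → ℝ} (hρ : Integrable ρ) {M : ℝ} (hM : ∫ x, ρ x = M) (i : Fin 3)
    (b b' : E3) {R R' : ℝ} (hR : 0 < R) (hRR : R ≤ R') (hR2 : R' ≤ 2 * R)
    (hb : ‖b‖ ≤ R / 8) (hb' : ‖b'‖ ≤ R / 8) :
    |FF ρ i b R - FF ρ i b' R' + M * (R⁻¹ * b i - R'⁻¹ * b' i)| ≤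
      zero_e ρ R * ((R' - R) / R + ‖R⁻¹ • b - R'⁻¹ • b'‖) := by
  have e : FF ρ i b R - FF ρ i b' R' + M * (R⁻¹ * b i - R'⁻¹ * b' i) =
      ∫ x, ρ x * (zet i (R⁻¹ • (x - b)) - zet i (R'⁻¹ • (x - b')) +
        (R⁻¹ * b i - R'⁻¹ * b' i)) := by
    unfold FF
    have i1 : Integrable (fun x => ρ x * zet i (R⁻¹ • (x - b)) - ρ x * zet i (R'⁻¹ • (x - b'))) :=
      (zero_int_z hρ i b R).sub (zero_int_z hρ i b' R')
    rw [← hM, ← integral_sub (zero_int_z hρ i b R) (zero_int_z hρ i b' R'),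
      ← integral_mul_const, ← integral_add i1 (hρ.mul_const _)]
    congr 1
    ext x
    ring
  rw [e]
  unfold zero_e
  rw [← integral_mul_const, ← Real.norm_eq_abs]
  refine norm_integral_le_of_norm_le ((zero_int_w hρ hR).mul_const _) ?_
  filter_upwards with x
  rw [norm_mul, Real.norm_eq_abs, Real.norm_eq_abs, mul_assoc]
  exact mul_le_mul_of_nonneg_left (zero_pt2 i x b b' hR hRR hR2 hb hb') (abs_nonneg _)

/-- vector bound from component bounds -/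
theorem zero_norm_le {v : E3} {c : ℝ} (h : ∀ i, |v i| ≤ c) : ‖v‖ ≤ 2 * c := by
  have hc : 0 ≤ c := (abs_nonneg _).trans (h 0)
  rw [EuclideanSpace.norm_eq, Real.sqrt_le_left (by positivity)]
  have h1 : ∀ i, ‖v i‖ ^ 2 ≤ c ^ 2 := fun i => by
    rw [Real.norm_eq_abs]
    exact pow_le_pow_left₀ (abs_nonneg _) (h i) 2
  rw [Fin.sum_univ_three]
  have := h1 0; have := h1 1; have := h1 2
  nlinarith [sq_nonneg c]

/-- The contraction at a fixed radius. -/
theorem zero_fix (ρ : E3 → ℝ) (hρ : Integrable ρ) (M q C R δ : ℝ) (hM : ∫ x, ρ x = M)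
    (hM0 : M ≠ 0) (kp : E3 → Fin 3 → ℝ) (hR : 0 < R) (hδ : 0 < δ) (hδ1 : δ ≤ 1 / 16)
    (hg : 4 * C * R ^ (1 - 2 * q) ≤ δ / 16 * |M|) (he : zero_e ρ R ≤ δ / 16 * |M|)
    (h1 : ∀ b, ‖b‖ ≤ R / 8 → ∀ i,
      |kp b i + 1 / (4 * R) * FF ρ i b R| ≤ C * R ^ (-(2 * q)))
    (h2 : ∀ b b', ‖b‖ ≤ R / 8 → ‖b'‖ ≤ R / 8 → ∀ i,
      |(kp b i - kp b' i) + (1 / (4 * R) * FF ρ i b R - 1 / (4 * R) * FF ρ i b' R)| ≤
        C * R ^ (-(2 * q)) * (‖b - b'‖ / R)) :
    ∃ b₀ : E3, ‖b₀‖ ≤ δ * R ∧ (∀ i, kp b₀ i = 0) ∧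
      ∃ κ₀ > 0, ∀ b, ‖b‖ ≤ R / 8 → κ₀ * ‖b - b₀‖ ≤ ‖mkE (kp b)‖ := by
  have hMp : 0 < |M| := abs_pos.2 hM0
  have hpow : R ^ (1 - 2 * q) = R * R ^ (-(2 * q)) := by
    rw [sub_eq_add_neg, Real.rpow_add hR, Real.rpow_one]
  set A : ℝ := 4 * R ^ 2 / M with hA
  have hAabs : |A| = 4 * R ^ 2 / |M| := by
    rw [hA, abs_div, abs_of_nonneg (by positivity)]
  -- component estimate
  have key : ∀ b b', ‖b‖ ≤ R / 8 → ‖b'‖ ≤ R / 8 → ∀ i,
      |(b i - b' i) - A * (kp b i - kp b' i)| ≤ δ / 8 * ‖b - b'‖ := by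
    intro b b' hb hb' i
    have e1 := h2 b b' hb hb' i
    have e2 := zero_E2 hρ hM i b b' hR le_rfl (by linarith) hb hb'
    have e3 : ‖R⁻¹ • b - R⁻¹ • b'‖ = ‖b - b'‖ / R := by
      rw [← smul_sub, norm_smul, norm_inv, Real.norm_of_nonneg hR.le]; ring
    rw [e3, sub_self, zero_div, zero_add] at e2
    have e4 : (b i - b' i) - A * (kp b i - kp b' i) =
        A * ((1 / (4 * R)) * (FF ρ i b R - FF ρ i b' R + M * (R⁻¹ * b i - R⁻¹ * b' i)) -
        ((kp b i - kp b' i) + (1 / (4 * R) * FF ρ i b R - 1 / (4 * R) * FF ρ i b' R))) := by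
      rw [hA]; field_simp; ring
    rw [e4, abs_mul, hAabs]
    have e5 : |(1 / (4 * R)) * (FF ρ i b R - FF ρ i b' R + M * (R⁻¹ * b i - R⁻¹ * b' i)) -
        ((kp b i - kp b' i) + (1 / (4 * R) * FF ρ i b R - 1 / (4 * R) * FF ρ i b' R))| ≤
        (1 / (4 * R)) * (zero_e ρ R * (‖b - b'‖ / R)) +
          C * R ^ (-(2 * q)) * (‖b - b'‖ / R) := by
      refine (abs_sub _ _).trans ?_
      rw [abs_mul, abs_of_pos (show 0 < 1 / (4 * R) by positivity)]
      exact add_le_add (mul_le_mul_of_nonneg_left e2 (by positivity)) e1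
    refine (mul_le_mul_of_nonneg_left e5 (by positivity)).trans ?_
    have e6 : 4 * R ^ 2 / |M| * ((1 / (4 * R)) * (zero_e ρ R * (‖b - b'‖ / R)) +
          C * R ^ (-(2 * q)) * (‖b - b'‖ / R)) =
        (zero_e ρ R + 4 * C * R ^ (1 - 2 * q)) / |M| * ‖b - b'‖ := by
      rw [hpow]; field_simp
    rw [e6]
    apply mul_le_mul_of_nonneg_right _ (norm_nonneg _)
    rw [div_le_iff₀ hMp]
    linarith
  have key0 : ∀ i, |A * kp 0 i| ≤ R * (δ / 8) := by
    intro i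
    have e1 := h1 0 (by rw [norm_zero]; positivity) i
    have e2 := zero_E1 hρ i hR
    have e4 : A * kp 0 i =
        A * ((kp 0 i + 1 / (4 * R) * FF ρ i 0 R) - 1 / (4 * R) * FF ρ i 0 R) := by ring
    rw [e4, abs_mul, hAabs]
    have e5 : |(kp 0 i + 1 / (4 * R) * FF ρ i 0 R) - 1 / (4 * R) * FF ρ i 0 R| ≤
        C * R ^ (-(2 * q)) + 1 / (4 * R) * zero_e ρ R := by
      refine (abs_sub _ _).trans ?_
      rw [abs_mul (1 / (4 * R)), abs_of_pos (show 0 < 1 / (4 * R) by positivity)]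
      exact add_le_add e1 (mul_le_mul_of_nonneg_left e2 (by positivity))
    refine (mul_le_mul_of_nonneg_left e5 (by positivity)).trans ?_
    have e6 : 4 * R ^ 2 / |M| * (C * R ^ (-(2 * q)) + 1 / (4 * R) * zero_e ρ R) =
        R * ((zero_e ρ R + 4 * C * R ^ (1 - 2 * q)) / |M|) := by
      rw [hpow]; field_simp; ring
    rw [e6]
    apply mul_le_mul_of_nonneg_left _ hR.le
    rw [div_le_iff₀ hMp]
    linarith
  -- vector form
  set T : E3 → E3 := fun b => b - A • mkE (kp b) with hT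
  have hTl : ∀ b b', ‖b‖ ≤ R / 8 → ‖b'‖ ≤ R / 8 → ‖T b - T b'‖ ≤ δ / 4 * ‖b - b'‖ := by
    intro b b' hb hb'
    have := zero_norm_le (v := T b - T b') (c := δ / 8 * ‖b - b'‖) (fun i => by
      have e : (T b - T b') i = (b i - b' i) - A * (kp b i - kp b' i) := by
        simp only [hT, PiLp.sub_apply, PiLp.smul_apply, smul_eq_mul, mkE_apply]; ring
      rw [e]
      exact key b b' hb hb' i)
    linarith
  have hT0 : ‖T 0‖ ≤ R * (δ / 4) := by
    have := zero_norm_le (v := T 0) (c := R * (δ / 8)) (fun i => by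
      have e : (T 0) i = -(A * kp 0 i) := by
        simp only [hT, PiLp.sub_apply, PiLp.smul_apply, smul_eq_mul, mkE_apply, PiLp.zero_apply]
        ring
      rw [e, abs_neg]
      exact key0 i)
    linarith
  set s : Set E3 := Metric.closedBall 0 (δ * R) with hs
  have hsub : ∀ b ∈ s, ‖b‖ ≤ R / 8 := by
    intro b hb
    rw [hs, mem_closedBall_zero_iff] at hb
    nlinarith
  have hmaps : MapsTo T s s := by
    intro b hb
    have hb8 := hsub b hb
    rw [hs, mem_closedBall_zero_iff] at hb ⊢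
    have e1 := hTl b 0 hb8 (by rw [norm_zero]; positivity)
    rw [sub_zero] at e1
    have e2 : ‖T b‖ ≤ ‖T b - T 0‖ + ‖T 0‖ := by
      have := norm_add_le (T b - T 0) (T 0)
      rwa [sub_add_cancel] at this
    have e3 : δ / 4 * ‖b‖ ≤ δ / 4 * (δ * R) := mul_le_mul_of_nonneg_left hb (by positivity)
    nlinarith [mul_pos hδ hR]
  have hcomplete : IsComplete s := (Metric.isClosed_closedBall).isComplete
  have hcontr : ContractingWith (1 / 2 : NNReal) (hmaps.restrict T s s) := by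
    refine ⟨by norm_num, ?_⟩
    refine LipschitzWith.of_dist_le_mul (fun x y => ?_)
    rw [Subtype.dist_eq, Subtype.dist_eq, dist_eq_norm, dist_eq_norm]
    have e1 := hTl x y (hsub x x.2) (hsub y y.2)
    have e2 : ((hmaps.restrict T s s x : s) : E3) = T x := rfl
    have e3 : ((hmaps.restrict T s s y : s) : E3) = T y := rfl
    rw [e2, e3]
    refine e1.trans ?_
    apply mul_le_mul_of_nonneg_right _ (norm_nonneg _)
    push_cast
    linarith
  have h0s : (0 : E3) ∈ s := by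
    rw [hs, mem_closedBall_zero_iff, norm_zero]; positivity
  obtain ⟨b₀, hb₀s, hfix, -⟩ := hcontr.exists_fixedPoint' hcomplete hmaps h0s (edist_ne_top _ _)
  have hb₀8 := hsub b₀ hb₀s
  have hb₀ : ‖b₀‖ ≤ δ * R := by rwa [hs, mem_closedBall_zero_iff] at hb₀s
  have hA0 : A ≠ 0 := by rw [hA]; positivity
  have hK : mkE (kp b₀) = 0 := by
    have e1 : T b₀ = b₀ := hfix
    have e2 : A • mkE (kp b₀) = 0 := by
      have e3 : b₀ - A • mkE (kp b₀) = b₀ := e1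
      exact sub_eq_self.1 e3
    exact (smul_eq_zero.1 e2).resolve_left hA0
  refine ⟨b₀, hb₀, fun i => ?_, |M| / (8 * R ^ 2), by positivity, fun b hb => ?_⟩
  · have : mkE (kp b₀) i = 0 := by rw [hK]; rfl
    simpa using this
  · have e1 := hTl b b₀ hb hb₀8
    have e2 : T b - T b₀ = (b - b₀) - A • mkE (kp b) := by
      simp only [hT, hK, smul_zero, sub_zero]
      abel
    rw [e2] at e1
    have e3 : ‖b - b₀‖ ≤ ‖(b - b₀) - A • mkE (kp b)‖ + ‖A • mkE (kp b)‖ := by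
      have := norm_add_le ((b - b₀) - A • mkE (kp b)) (A • mkE (kp b))
      rwa [sub_add_cancel] at this
    rw [norm_smul, Real.norm_eq_abs, hAabs] at e3
    have e4 : 1 / 2 * ‖b - b₀‖ ≤ 4 * R ^ 2 / |M| * ‖mkE (kp b)‖ := by
      nlinarith [norm_nonneg (b - b₀)]
    calc |M| / (8 * R ^ 2) * ‖b - b₀‖ = |M| / (4 * R ^ 2) * (1 / 2 * ‖b - b₀‖) := by
          field_simp; ring
      _ ≤ |M| / (4 * R ^ 2) * (4 * R ^ 2 / |M| * ‖mkE (kp b)‖) :=
          mul_le_mul_of_nonneg_left e4 (by positivity)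
      _ = ‖mkE (kp b)‖ := by field_simp

/-- difference of zeros at comparable radii -/
theorem zero_diff (ρ : E3 → ℝ) (hρ : Integrable ρ) (M q C R R' δ : ℝ) (hM : ∫ x, ρ x = M)
    (hM0 : M ≠ 0) (hR : 0 < R) (hRR : R ≤ R') (hR2 : R' ≤ 2 * R) (hδ : 0 < δ) (hδ1 : δ ≤ 1 / 16)
    (hC : 0 ≤ C)
    (hg : 4 * C * R ^ (1 - 2 * q) ≤ δ / 16 * |M|) (hg' : 4 * C * R' ^ (1 - 2 * q) ≤ δ / 16 * |M|)
    (he : zero_e ρ R ≤ δ / 16 * |M|)
    (b b' : E3) (hb : ‖b‖ ≤ δ * R) (hb' : ‖b'‖ ≤ δ * R')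
    (h1 : ∀ i, |1 / (4 * R') * FF ρ i b' R'| ≤ C * R' ^ (-(2 * q)))
    (h2 : ∀ i, |1 / (4 * R) * FF ρ i b R - 1 / (4 * R') * FF ρ i b' R'| ≤
        C * R ^ (-(2 * q)) * ((‖b - b'‖ + (R' - R)) / R)) :
    ‖b - b'‖ ≤ 3 * δ * (R' - R) := by
  have hR' : 0 < R' := lt_of_lt_of_le hR hRR
  have hMp : 0 < |M| := abs_pos.2 hM0
  have hpow : R ^ (1 - 2 * q) = R * R ^ (-(2 * q)) := by
    rw [sub_eq_add_neg, Real.rpow_add hR, Real.rpow_one]
  have hpow' : R' ^ (1 - 2 * q) = R' * R' ^ (-(2 * q)) := by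
    rw [sub_eq_add_neg, Real.rpow_add hR', Real.rpow_one]
  have hb8 : ‖b‖ ≤ R / 8 := by nlinarith
  have hb8' : ‖b'‖ ≤ R / 8 := by nlinarith
  set D := ‖R⁻¹ • b - R'⁻¹ • b'‖ with hD
  have hD0 : 0 ≤ D := norm_nonneg _
  set s := (R' - R) / R with hs
  have hs0 : 0 ≤ s := div_nonneg (by linarith) hR.le
  have hRs : R * s = R' - R := by rw [hs]; field_simp
  -- the difference of the zeros in terms of `D`, `s`
  have hbb : ‖b - b'‖ ≤ R * D + (R' - R) * δ := by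
    have e : b - b' = R • (R⁻¹ • b - R'⁻¹ • b') - ((R' - R) * R'⁻¹) • b' := by
      rw [smul_sub, smul_smul, smul_smul, mul_inv_cancel₀ hR.ne', one_smul, sub_sub, ← add_smul]
      congr 1
      have : R * R'⁻¹ + (R' - R) * R'⁻¹ = 1 := by field_simp; ring
      rw [this, one_smul]
    rw [e]
    refine (norm_sub_le _ _).trans ?_
    rw [norm_smul, norm_smul, Real.norm_of_nonneg hR.le, Real.norm_of_nonneg
      (mul_nonneg (by linarith) (by positivity))]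
    have e2 : (R' - R) * R'⁻¹ * ‖b'‖ ≤ (R' - R) * R'⁻¹ * (δ * R') :=
      mul_le_mul_of_nonneg_left hb' (mul_nonneg (by linarith) (by positivity))
    have e3 : (R' - R) * R'⁻¹ * (δ * R') = (R' - R) * δ := by field_simp
    linarith
  -- bound of components
  have hcomp : ∀ i, |(R⁻¹ • b - R'⁻¹ • b') i| ≤ δ / 16 * (2 * D + 4 * s) := by
    intro i
    have e1 := h2 i
    have e2 := zero_E2 hρ hM i b b' hR hRR hR2 hb8 hb8'
    have e3 := h1 i
    have f3 : |FF ρ i b' R'| ≤ δ / 16 * |M| := by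
      rw [abs_mul, abs_of_pos (show 0 < 1 / (4 * R') by positivity)] at e3
      have : |FF ρ i b' R'| = (4 * R') * (1 / (4 * R') * |FF ρ i b' R'|) := by field_simp
      rw [this]
      refine (mul_le_mul_of_nonneg_left e3 (by positivity)).trans ?_
      refine le_trans (le_of_eq ?_) hg'
      rw [hpow']; ring
    have f1 : |FF ρ i b R - R / R' * FF ρ i b' R'| ≤ δ / 16 * |M| * (D + s * (1 + δ)) := by
      have e4 : FF ρ i b R - R / R' * FF ρ i b' R' =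
          (4 * R) * (1 / (4 * R) * FF ρ i b R - 1 / (4 * R') * FF ρ i b' R') := by
        field_simp
      rw [e4, abs_mul, abs_of_pos (show 0 < 4 * R by positivity)]
      calc 4 * R * |1 / (4 * R) * FF ρ i b R - 1 / (4 * R') * FF ρ i b' R'|
          ≤ 4 * R * (C * R ^ (-(2 * q)) * ((‖b - b'‖ + (R' - R)) / R)) :=
            mul_le_mul_of_nonneg_left e1 (by positivity)
        _ ≤ 4 * R * (C * R ^ (-(2 * q)) * ((R * D + (R' - R) * δ + (R' - R)) / R)) := by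
            gcongr
        _ = 4 * C * R ^ (1 - 2 * q) * (D + s * (1 + δ)) := by
            rw [hpow, hs]; field_simp; ring
        _ ≤ δ / 16 * |M| * (D + s * (1 + δ)) :=
            mul_le_mul_of_nonneg_right hg (by positivity)
    have f2 : |M * (R⁻¹ * b i - R'⁻¹ * b' i)| ≤ |M| * (δ / 16 * (2 * D + 4 * s)) := by
      have e5 : M * (R⁻¹ * b i - R'⁻¹ * b' i) =
          (FF ρ i b R - FF ρ i b' R' + M * (R⁻¹ * b i - R'⁻¹ * b' i)) -
          (FF ρ i b R - R / R' * FF ρ i b' R') + ((R' - R) / R') * FF ρ i b' R' := by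
        field_simp; ring
      rw [e5]
      refine (abs_add_le _ _).trans ?_
      have g1 := abs_sub (FF ρ i b R - FF ρ i b' R' + M * (R⁻¹ * b i - R'⁻¹ * b' i))
          (FF ρ i b R - R / R' * FF ρ i b' R')
      have g2 : |((R' - R) / R') * FF ρ i b' R'| ≤ s * (δ / 16 * |M|) := by
        rw [abs_mul, abs_of_nonneg (div_nonneg (by linarith) hR'.le)]
        have g3 : (R' - R) / R' ≤ s := by
          rw [hs]
          exact div_le_div_of_nonneg_left (by linarith) hR hRR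
        exact mul_le_mul g3 f3 (abs_nonneg _) hs0
      have g4 : zero_e ρ R * (s + D) ≤ δ / 16 * |M| * (s + D) :=
        mul_le_mul_of_nonneg_right he (by positivity)
      have g5 : δ / 16 * |M| * (s + D) + δ / 16 * |M| * (D + s * (1 + δ)) + s * (δ / 16 * |M|)
          ≤ |M| * (δ / 16 * (2 * D + 4 * s)) := by
        have : |M| * (δ / 16 * (2 * D + 4 * s)) - (δ / 16 * |M| * (s + D) +
          δ / 16 * |M| * (D + s * (1 + δ)) + s * (δ / 16 * |M|)) =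
          δ / 16 * |M| * s * (1 - δ) := by ring
        have h7 : 0 ≤ δ / 16 * |M| * s * (1 - δ) :=
          mul_nonneg (by positivity) (by linarith)
        linarith
      linarith
    rw [abs_mul] at f2
    have := le_of_mul_le_mul_left f2 hMp
    simpa [PiLp.smul_apply, PiLp.sub_apply, smul_eq_mul] using this
  have hDle := zero_norm_le hcomp
  have hD2 : D ≤ 2 * δ * s := by nlinarith
  calc ‖b - b'‖ ≤ R * D + (R' - R) * δ := hbb
    _ ≤ R * (2 * δ * s) + (R' - R) * δ := by gcongr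
    _ = 2 * δ * (R * s) + (R' - R) * δ := by ring
    _ = 3 * δ * (R' - R) := by rw [hRs]; ring

/-- `R · κ` is close to the linear function `(M/4) b/R`; zeros of `κ`. -/
theorem zero_part (ρ : E3 → ℝ) (hρ : Integrable ρ) (M q C R₀ : ℝ) (hM : ∫ x, ρ x = M)
    (hM0 : M ≠ 0) (hq : 1 / 2 < q) (kp : E3 → ℝ → Fin 3 → ℝ)
    (h1 : ∀ b R, R₀ ≤ R → ‖b‖ ≤ R / 8 → ∀ i,
      |kp b R i + 1 / (4 * R) * FF ρ i b R| ≤ C * R ^ (-(2 * q)))
    (h2 : ∀ b b' R R', R₀ ≤ R → R ≤ R' → R' ≤ 2 * R → ‖b‖ ≤ R / 8 → ‖b'‖ ≤ R / 8 → ∀ i,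
      |(kp b R i - kp b' R' i) + (1 / (4 * R) * FF ρ i b R - 1 / (4 * R') * FF ρ i b' R')| ≤
        C * R ^ (-(2 * q)) * ((‖b - b'‖ + (R' - R)) / R)) (η : ℝ) (hη : 0 < η) :
    ∃ R₁ : ℝ, R₀ ≤ R₁ ∧ 1 ≤ R₁ ∧ ∃ bb : ℝ → E3,
      (∀ R, R₁ ≤ R → ‖bb R‖ ≤ η * R ∧ ‖bb R‖ < R / 8 ∧ (∀ i, kp (bb R) R i = 0) ∧
        ∃ κ₀ > 0, ∀ b, ‖b‖ ≤ R / 8 → κ₀ * ‖b - bb R‖ ≤ ‖mkE (kp b R)‖) ∧
      ∀ R R', R₁ ≤ R → R ≤ R' → ‖bb R - bb R'‖ ≤ η * (R' - R) := by
  have hMp : 0 < |M| := abs_pos.2 hM0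
  obtain ⟨δ, hδ0, hδη, hδ1⟩ : ∃ δ : ℝ, 0 < δ ∧ δ ≤ η / 3 ∧ δ ≤ 1 / 16 :=
    ⟨min (η / 3) (1 / 16), by positivity, min_le_left _ _, min_le_right _ _⟩
  have hC : 0 ≤ C := by
    set R := max R₀ 1 with hRdef
    have hR : 0 < R := lt_of_lt_of_le one_pos (le_max_right _ _)
    have e := (abs_nonneg _).trans (h1 0 R (le_max_left _ _) (by rw [norm_zero]; positivity) 0)
    have hp : 0 < R ^ (-(2 * q)) := Real.rpow_pos_of_pos hR _
    exact nonneg_of_mul_nonneg_left e hp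
  have ht1 : Tendsto (fun R : ℝ => 4 * C * R ^ (1 - 2 * q)) atTop (𝓝 0) := by
    have e := tendsto_rpow_neg_atTop (y := 2 * q - 1) (by linarith)
    have e2 : (fun R : ℝ => 4 * C * R ^ (1 - 2 * q)) = fun R : ℝ => 4 * C * R ^ (-(2 * q - 1)) := by
      ext R
      congr 2
      ring
    rw [e2]
    simpa using e.const_mul (4 * C)
  have ht2 := zero_e_tendsto hρ
  have hpos : 0 < δ / 16 * |M| := by positivity
  have hev : ∀ᶠ R : ℝ in atTop, 4 * C * R ^ (1 - 2 * q) ≤ δ / 16 * |M| ∧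
      zero_e ρ R ≤ δ / 16 * |M| :=
    (ht1.eventually_le_const hpos).and (ht2.eventually_le_const hpos)
  obtain ⟨R₂, hR₂⟩ := eventually_atTop.1 hev
  set R₁ := max (max R₀ 1) R₂ with hR₁
  have hR₁0 : R₀ ≤ R₁ := (le_max_left _ _).trans (le_max_left _ _)
  have hR₁1 : 1 ≤ R₁ := (le_max_right _ _).trans (le_max_left _ _)
  have hR₁2 : R₂ ≤ R₁ := le_max_right _ _
  have hex : ∀ R : ℝ, ∃ b₀ : E3, R₁ ≤ R → ‖b₀‖ ≤ δ * R ∧ (∀ i, kp b₀ R i = 0) ∧
      ∃ κ₀ > 0, ∀ b, ‖b‖ ≤ R / 8 → κ₀ * ‖b - b₀‖ ≤ ‖mkE (kp b R)‖ := by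
    intro R
    by_cases hRR : R₁ ≤ R
    · have hR : 0 < R := by linarith
      obtain ⟨hg, he⟩ := hR₂ R (hR₁2.trans hRR)
      obtain ⟨b₀, hb⟩ := zero_fix ρ hρ M q C R δ hM hM0 (fun b => kp b R) hR hδ0 hδ1 hg he
        (fun b hb i => h1 b R (hR₁0.trans hRR) hb i) (fun b b' hb hb' i => by
          have e := h2 b b' R R (hR₁0.trans hRR) le_rfl (by linarith) hb hb' i
          rwa [sub_self, add_zero] at e)
      exact ⟨b₀, fun _ => hb⟩
    · exact ⟨0, fun h => absurd h hRR⟩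
  choose bb hbb using hex
  refine ⟨R₁, hR₁0, hR₁1, bb, fun R hR => ?_, ?_⟩
  · obtain ⟨i1, i2, i3⟩ := hbb R hR
    have hRp : 0 < R := by linarith
    refine ⟨?_, ?_, i2, i3⟩
    · nlinarith
    · nlinarith
  · have base : ∀ R R', R₁ ≤ R → R ≤ R' → R' ≤ 2 * R → ‖bb R - bb R'‖ ≤ η * (R' - R) := by
      intro R R' hR hRR hR2
      have hRp : 0 < R := by linarith
      obtain ⟨i1, i2, -⟩ := hbb R hR
      obtain ⟨j1, j2, -⟩ := hbb R' (hR.trans hRR)
      obtain ⟨hg, he⟩ := hR₂ R (hR₁2.trans hR)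
      obtain ⟨hg', he'⟩ := hR₂ R' (hR₁2.trans (hR.trans hRR))
      have hb8 : ‖bb R‖ ≤ R / 8 := by nlinarith
      have hb8' : ‖bb R'‖ ≤ R / 8 := by nlinarith
      have hb8'' : ‖bb R'‖ ≤ R' / 8 := by linarith
      have := zero_diff ρ hρ M q C R R' δ hM hM0 hRp hRR hR2 hδ0 hδ1 hC hg hg' he (bb R) (bb R')
        i1 j1 (fun i => by
          have e := h1 (bb R') R' (hR₁0.trans (hR.trans hRR)) hb8'' i
          rwa [j2 i, zero_add] at e) (fun i => by
          have e := h2 (bb R) (bb R') R R' (hR₁0.trans hR) hRR hR2 hb8 hb8' i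
          rwa [i2 i, j2 i, sub_self, zero_add] at e)
      refine this.trans ?_
      apply mul_le_mul_of_nonneg_right _ (by linarith)
      linarith
    have ind : ∀ n : ℕ, ∀ R R', R₁ ≤ R → R ≤ R' → R' ≤ 2 ^ n * R →
        ‖bb R - bb R'‖ ≤ η * (R' - R) := by
      intro n
      induction n with
      | zero =>
        intro R R' hR hRR h
        exact base R R' hR hRR (by rw [pow_zero, one_mul] at h; linarith)
      | succ n ih =>
        intro R R' hR hRR h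
        rcases le_total R' (2 * R) with h3 | h3
        · exact base R R' hR hRR h3
        · have e1 := base R (2 * R) hR (by linarith) le_rfl
          have e2 := ih (2 * R) R' (by linarith) h3 (by rw [pow_succ] at h; linarith)
          have e3 : ‖bb R - bb R'‖ ≤ ‖bb R - bb (2 * R)‖ + ‖bb (2 * R) - bb R'‖ := by
            have := norm_add_le (bb R - bb (2 * R)) (bb (2 * R) - bb R')
            rwa [sub_add_sub_cancel] at this
          nlinarith
    intro R R' hR hRR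
    have hRp : 0 < R := by linarith
    obtain ⟨n, hn⟩ := pow_unbounded_of_one_lt (R' / R) (one_lt_two)
    refine ind n R R' hR hRR ?_
    rw [div_lt_iff₀ hRp] at hn
    exact hn.le

end

end Pool.Agent.BS
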