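import Pool.Agent.BS.LS
import Pool.Agent.BS.Afh
import Pool.Agent.BS.Scal
import Pool.Agent.BS.Flux
import Pool.Agent.BS.Zero

/-!
# Module CMB: the family of solutions
-/

namespace Pool.Agent.BS

open MeasureTheory Topology Set Filter
open scoped ContDiff

noncomputable section

theorem cmb_ell_sub (i : Fin 3) (h h' : E3 → M3) (B : ℝ)
    (hc : ContinuousOn h {x | 1 ≤ ‖x‖}) (hb : ∀ x, 1 ≤ ‖x‖ → ∀ a b, |h x a b| ≤ B)
    (hc' : ContinuousOn h' {x | 1 ≤ ‖x‖}) (hb' : ∀ x, 1 ≤ ‖x‖ → ∀ a b, |h' x a b| ≤ B) :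
    ell i (fun x a b => h x a b - h' x a b) = ell i h - ell i h' := by
  have := ell_add i h h' B hc hb hc' hb' (-1)
  simpa [sub_eq_add_neg] using this

theorem cmb_SB2_mono {ε ε' : ℝ} {f : E3 → ℝ} (h : SB2 ε f) (he : ε ≤ ε') : SB2 ε' f :=
  ⟨h.c2, fun x hx => (h.b0 x hx).trans he, fun x hx => (h.b1 x hx).trans he,
    fun x hx => (h.b2 x hx).trans he⟩

theorem cmb_cont_HA {q : ℝ} {g : E3 → M3} (hg : AFMetric q g) : Continuous (HA g) :=
  continuous_pi fun i => continuous_pi fun j => ((HA_smooth hg).1 i j).continuous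

theorem cmb_cont_H1 {q : ℝ} {g : E3 → M3} (hg : AFMetric q g) : Continuous (H1 (hh g)) := by
  have h : ∀ i j, Continuous (fun x => hh g x i j) :=
    fun i j => ((HA_smooth hg).2.2.1 i j).continuous
  refine continuous_pi fun i => continuous_pi fun j => ?_
  unfold H1 tr3
  have h1 : Continuous (fun x => ∑ k, hh g x k k) := continuous_finsetSum _ (fun k _ => h k k)
  exact ((continuous_const.mul h1).mul continuous_const).sub (h i j)

theorem cmb_cont_HbR {H : E3 → M3} (hH : Continuous H) (b : E3) (R : ℝ) :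
    Continuous (HbR H b R) :=
  hH.comp (continuous_const.add (continuous_id.const_smul R))

/-- comparison of `ell` for the two fields, single -/
theorem cmb_est1 {Ce : ℝ} (hCe : ∀ (i : Fin 3) (h : E3 → M3) (B : ℝ), 0 ≤ B →
    (ContinuousOn h {x | 1 ≤ ‖x‖}) → (∀ x, 1 ≤ ‖x‖ → ∀ a b, |h x a b| ≤ B) →
    |ell i h| ≤ Ce * B) (F G : E3 → M3) (hF : Continuous F) (hG : Continuous G)
    (B D : ℝ) (hD : 0 ≤ D)
    (hb : ∀ y, 1 / 2 < ‖y‖ → ∀ i j, |F y i j| ≤ B)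
    (hd : ∀ y, 1 / 2 < ‖y‖ → ∀ i j, |F y i j - G y i j| ≤ D) (i : Fin 3) :
    |ell i F - ell i G| ≤ Ce * D := by
  have hlt : ∀ x : E3, 1 ≤ ‖x‖ → 1 / 2 < ‖x‖ := fun x hx => lt_of_lt_of_le (by norm_num) hx
  have h1 : ell i (fun x a b => F x a b - G x a b) = ell i F - ell i G := by
    refine cmb_ell_sub i F G (B + D) hF.continuousOn ?_ hG.continuousOn ?_
    · intro x hx a b
      have := hb x (hlt x hx) a b
      linarith
    · intro x hx a b
      have h2 := hb x (hlt x hx) a b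
      have h3 := hd x (hlt x hx) a b
      have h4 : G x a b = F x a b - (F x a b - G x a b) := by ring
      rw [h4]
      exact (abs_sub _ _).trans (add_le_add h2 h3)
  rw [← h1]
  refine hCe i _ D hD ?_ (fun x hx => hd x (hlt x hx))
  exact ((continuous_pi fun a => continuous_pi fun b =>
    (((continuous_apply b).comp ((continuous_apply a).comp hF)).sub
      ((continuous_apply b).comp ((continuous_apply a).comp hG))))).continuousOn

open Classical in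
/-- the Lyapunov-Schmidt solution -/
def cmbW (δ : ℝ) (H : E3 → M3) : Xs :=
  if h : ∃ w : Xs, ‖w‖ ≤ δ ∧ SolLS H w then h.choose else 0

theorem cmbW_spec {δ : ℝ} {H : E3 → M3} (h : ∃ w : Xs, ‖w‖ ≤ δ ∧ SolLS H w) :
    ‖cmbW δ H‖ ≤ δ ∧ SolLS H (cmbW δ H) := by
  unfold cmbW
  rw [dif_pos h]
  exact h.choose_spec

theorem cmb_wS_le (w : Xs) (θ : S2) : |wS w.1 θ| ≤ ‖w‖ := by
  unfold wS
  exact ((w.1 0).abs_apply_le _).trans (norm_le_pi_norm w.1 0)

/-- estimates of the translation components for one family of parameters -/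
theorem cmb_kap {δ ε₀ C c : ℝ} (hc : LSConst δ ε₀ C c) {q : ℝ} {g : E3 → M3}
    (hq : 1 / 2 < q) (hg : AFMetric q g) (hL : Integrable (Lsc (hh g))) (ε₁ : ℝ) (hε₁ : 0 < ε₁) :
    ∃ K C₁ R₀ : ℝ, 0 < C₁ ∧ 8 ≤ R₀ ∧ (∀ R, R₀ ≤ R → C₁ * R ^ (-q) ≤ ε₁) ∧
      (∀ R, R₀ ≤ R → C₁ * R ^ (-q) ≤ ε₀) ∧
      (∀ R, R₀ ≤ R → ∀ b : E3, ‖b‖ ≤ R / 8 →
        (∀ i j, SB2 (C₁ * R ^ (-q)) (fun x => HbR (HA g) b R x i j)) ∧
        ∃ w : Xs, ‖w‖ ≤ δ ∧ SolLS (HbR (HA g) b R) w) ∧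
      (∀ R, R₀ ≤ R → ∀ b : E3, ‖b‖ ≤ R / 8 → ∀ w : Xs, ‖w‖ ≤ δ → SolLS (HbR (HA g) b R) w →
        ‖w‖ ≤ C * ε₁ ∧ ∀ i, |kap (HbR (HA g) b R) w i + 1 / (4 * R) * FF (Lsc (hh g)) i b R| ≤
          K * R ^ (-(2 * q))) ∧
      ∀ R R', R₀ ≤ R → R ≤ R' → R' ≤ 2 * R → ∀ b b' : E3, ‖b‖ ≤ R / 8 → ‖b'‖ ≤ R / 8 →
        ∀ w w' : Xs, ‖w‖ ≤ δ → ‖w'‖ ≤ δ → SolLS (HbR (HA g) b R) w →
        SolLS (HbR (HA g) b' R') w' →
        ‖w - w'‖ ≤ C * (ε₁ * ((‖b - b'‖ + (R' - R)) / R)) ∧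
        ∀ i, |(kap (HbR (HA g) b R) w i - kap (HbR (HA g) b' R') w' i) +
          (1 / (4 * R) * FF (Lsc (hh g)) i b R - 1 / (4 * R') * FF (Lsc (hh g)) i b' R')| ≤
          K * R ^ (-(2 * q)) * ((‖b - b'‖ + (R' - R)) / R) := by
  obtain ⟨C₁, R₀, hC₁, hR₀, hA⟩ := AFH hq hg
  obtain ⟨Ce, hCe0, hCe⟩ := ell_bound
  obtain ⟨Ch, hh0, hh1, hh2⟩ := hh_decay hq hg
  have hq0 : 0 < q := by linarith
  have hsm := HA_smooth hg
  have hflux : ∀ (b : E3) (R : ℝ), 0 < R → ∀ i,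
      ell i (HbR (H1 (hh g)) b R) = -(1 / (4 * R)) * FF (Lsc (hh g)) i b R := fun b R hR i =>
    flux_part (hh g) q Ch hq0 (fun i j => contDiff_infty.1 (hsm.2.2.1 i j) 2)
      hsm.2.2.2 hh0 hh1 hL b R hR i
  have hlim : Tendsto (fun R : ℝ => C₁ * R ^ (-q)) atTop (𝓝 0) := by
    simpa using (tendsto_rpow_neg_atTop hq0).const_mul C₁
  have hmin : 0 < min ε₁ ε₀ := lt_min hε₁ hc.ε₀_pos
  obtain ⟨R₂, hR₂⟩ := eventually_atTop.1 (hlim.eventually_lt_const hmin)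
  have hbig : ∀ R, max (max R₀ 8) R₂ ≤ R → R₀ ≤ R ∧ 8 ≤ R ∧ C₁ * R ^ (-q) ≤ ε₁ ∧
      C₁ * R ^ (-q) ≤ ε₀ := by
    intro R hR
    have h1 : R₂ ≤ R := (le_max_right _ _).trans hR
    have h2 := hR₂ R h1
    exact ⟨((le_max_left _ _).trans (le_max_left _ _)).trans hR,
      ((le_max_right _ _).trans (le_max_left _ _)).trans hR,
      h2.le.trans (min_le_left _ _), h2.le.trans (min_le_right _ _)⟩
  have hHA := cmb_cont_HA hg
  have hH1 := cmb_cont_H1 hg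
  have hsq : ∀ R : ℝ, 0 < R → (R ^ (-q)) ^ 2 = R ^ (-(2 * q)) := by
    intro R hR
    rw [← Real.rpow_natCast, ← Real.rpow_mul hR.le]
    congr 1
    push_cast
    ring
  refine ⟨C * C₁ ^ 2 + Ce * C₁, C₁, max (max R₀ 8) R₂, hC₁,
    (le_max_right _ _).trans (le_max_left _ _), fun R hR => (hbig R hR).2.2.1,
    fun R hR => (hbig R hR).2.2.2, ?_, ?_, ?_⟩
  · intro R hR b hb
    obtain ⟨h1, h8, h3, h4⟩ := hbig R hR
    have hRp : 0 < R := by linarith
    have hS := (hA R h1 b hb).1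
    refine ⟨hS, ?_⟩
    obtain ⟨w, _, hw2, hw3⟩ := hc.ex (HbR (HA g) b R) (C₁ * R ^ (-q)) (by positivity) h4 hS
    exact ⟨w, hw2, hw3⟩
  · intro R hR b hb w hw hsol
    obtain ⟨h1, h8, h3, h4⟩ := hbig R hR
    have hRp : 0 < R := by linarith
    obtain ⟨hS, hD, _⟩ := hA R h1 b hb
    have hε : 0 ≤ C₁ * R ^ (-q) := by positivity
    obtain ⟨he1, he2⟩ := hc.est (HbR (HA g) b R) (C₁ * R ^ (-q)) hε h4 hS w hw hsol
    refine ⟨he1.trans (mul_le_mul_of_nonneg_left h3 hc.C_pos.le), fun i => ?_⟩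
    have h5 := cmb_est1 hCe (HbR (HA g) b R) (HbR (H1 (hh g)) b R)
      (cmb_cont_HbR hHA b R) (cmb_cont_HbR hH1 b R) (C₁ * R ^ (-q)) (C₁ * R ^ (-(2 * q)))
      (by positivity) (fun y hy i j => (hS i j).b0 y hy) hD i
    rw [hflux b R hRp i] at h5
    have h6 := he2 i
    have h7 : kap (HbR (HA g) b R) w i + 1 / (4 * R) * FF (Lsc (hh g)) i b R =
        (kap (HbR (HA g) b R) w i - ell i (HbR (HA g) b R)) +
        (ell i (HbR (HA g) b R) - -(1 / (4 * R)) * FF (Lsc (hh g)) i b R) := by ring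
    rw [h7]
    refine (abs_add_le _ _).trans ((add_le_add h6 h5).trans (le_of_eq ?_))
    rw [mul_pow, hsq R hRp]
    ring
  · intro R R' hR hRR' hR'2 b b' hb hb' w w' hw hw' hsol hsol'
    obtain ⟨h1, h8, h3, h4⟩ := hbig R hR
    obtain ⟨h1', h8', h3', h4'⟩ := hbig R' (hR.trans hRR')
    have hRp : 0 < R := by linarith
    have hRp' : 0 < R' := by linarith
    obtain ⟨hS, hD, hE⟩ := hA R h1 b hb
    have hb'' : ‖b'‖ ≤ R' / 8 := by linarith
    obtain ⟨hS', hD', _⟩ := hA R' h1' b' hb''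
    obtain ⟨hE1, hE2⟩ := hE R' hRR' hR'2 b' hb'
    have hε : 0 ≤ C₁ * R ^ (-q) := by positivity
    have hmono : C₁ * R' ^ (-q) ≤ C₁ * R ^ (-q) :=
      mul_le_mul_of_nonneg_left (Real.rpow_le_rpow_of_nonpos hRp hRR' (by linarith)) hC₁.le
    have hDn : 0 ≤ (‖b - b'‖ + (R' - R)) / R := by
      have := norm_nonneg (b - b')
      have h9 : 0 ≤ R' - R := by linarith
      positivity
    obtain ⟨hd1, hd2⟩ := hc.diff (HbR (HA g) b R) (HbR (HA g) b' R') (C₁ * R ^ (-q))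
      (C₁ * R ^ (-q) * ((‖b - b'‖ + (R' - R)) / R)) hε h4 (mul_nonneg hε hDn) hS
      (fun i j => cmb_SB2_mono (hS' i j) hmono) hE1 w w' hw hw' hsol hsol'
    refine ⟨hd1.trans (mul_le_mul_of_nonneg_left (mul_le_mul_of_nonneg_right h3 hDn)
      hc.C_pos.le), fun i => ?_⟩
    have hlt : ∀ x : E3, 1 ≤ ‖x‖ → 1 / 2 < ‖x‖ := fun x hx => lt_of_lt_of_le (by norm_num) hx
    have hF := cmb_cont_HbR hHA b R
    have hG := cmb_cont_HbR hH1 b R
    have hF' := cmb_cont_HbR hHA b' R'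
    have hG' := cmb_cont_HbR hH1 b' R'
    have hcF : Continuous (fun x a b_1 => HbR (HA g) b R x a b_1 - HbR (HA g) b' R' x a b_1) :=
      continuous_pi fun a => continuous_pi fun d =>
        (((continuous_apply d).comp ((continuous_apply a).comp hF)).sub
        ((continuous_apply d).comp ((continuous_apply a).comp hF')))
    have hcG : Continuous (fun x a d => HbR (H1 (hh g)) b R x a d -
        HbR (H1 (hh g)) b' R' x a d) :=
      continuous_pi fun a => continuous_pi fun d =>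
        (((continuous_apply d).comp ((continuous_apply a).comp hG)).sub
        ((continuous_apply d).comp ((continuous_apply a).comp hG')))
    have h5 := cmb_est1 hCe (fun x a d => HbR (HA g) b R x a d - HbR (HA g) b' R' x a d)
      (fun x a d => HbR (H1 (hh g)) b R x a d - HbR (H1 (hh g)) b' R' x a d)
      hcF hcG (C₁ * R ^ (-q) + C₁ * R ^ (-q))
      (C₁ * R ^ (-(2 * q)) * ((‖b - b'‖ + (R' - R)) / R)) (by positivity)
      (fun y hy i j => (abs_sub _ _).trans (add_le_add ((hS i j).b0 y hy)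
        (((hS' i j).b0 y hy).trans hmono)))
      (fun y hy i j => by
        have := hE2 y hy i j
        have h10 : HbR (HA g) b R y i j - HbR (HA g) b' R' y i j -
            (HbR (H1 (hh g)) b R y i j - HbR (H1 (hh g)) b' R' y i j) =
            (HbR (HA g) b R y i j - HbR (H1 (hh g)) b R y i j) -
            (HbR (HA g) b' R' y i j - HbR (H1 (hh g)) b' R' y i j) := by ring
        rw [h10]
        exact this) i
    have hbd : ∀ x : E3, 1 ≤ ‖x‖ → ∀ a d, |HbR (H1 (hh g)) b R x a d| ≤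
        C₁ * R ^ (-q) + C₁ * R ^ (-(2 * q)) + (C₁ * R' ^ (-q) + C₁ * R' ^ (-(2 * q))) := by
      intro x hx a d
      have h11 := (hS a d).b0 x (hlt x hx)
      have h12 := hD x (hlt x hx) a d
      have h13 : HbR (H1 (hh g)) b R x a d = HbR (HA g) b R x a d -
        (HbR (HA g) b R x a d - HbR (H1 (hh g)) b R x a d) := by ring
      have h14 : 0 ≤ C₁ * R' ^ (-q) + C₁ * R' ^ (-(2 * q)) := by positivity
      rw [h13]
      refine (abs_sub _ _).trans ((add_le_add h11 h12).trans ?_)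
      linarith
    have hbd' : ∀ x : E3, 1 ≤ ‖x‖ → ∀ a d, |HbR (H1 (hh g)) b' R' x a d| ≤
        C₁ * R ^ (-q) + C₁ * R ^ (-(2 * q)) + (C₁ * R' ^ (-q) + C₁ * R' ^ (-(2 * q))) := by
      intro x hx a d
      have h11 := (hS' a d).b0 x (hlt x hx)
      have h12 := hD' x (hlt x hx) a d
      have h13 : HbR (H1 (hh g)) b' R' x a d = HbR (HA g) b' R' x a d -
        (HbR (HA g) b' R' x a d - HbR (H1 (hh g)) b' R' x a d) := by ring
      have h14 : 0 ≤ C₁ * R ^ (-q) + C₁ * R ^ (-(2 * q)) := by positivity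
      rw [h13]
      refine (abs_sub _ _).trans ((add_le_add h11 h12).trans ?_)
      linarith
    have h6 := cmb_ell_sub i (HbR (H1 (hh g)) b R) (HbR (H1 (hh g)) b' R') _
      hG.continuousOn hbd hG'.continuousOn hbd'
    rw [h6, hflux b R hRp i, hflux b' R' hRp' i] at h5
    have h7 := hd2 i
    have h8 : (kap (HbR (HA g) b R) w i - kap (HbR (HA g) b' R') w' i) +
          (1 / (4 * R) * FF (Lsc (hh g)) i b R - 1 / (4 * R') * FF (Lsc (hh g)) i b' R') =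
        (kap (HbR (HA g) b R) w i - kap (HbR (HA g) b' R') w' i -
          ell i (fun x a d => HbR (HA g) b R x a d - HbR (HA g) b' R' x a d)) +
        (ell i (fun x a d => HbR (HA g) b R x a d - HbR (HA g) b' R' x a d) -
          (-(1 / (4 * R)) * FF (Lsc (hh g)) i b R - -(1 / (4 * R')) * FF (Lsc (hh g)) i b' R')) := by
      ring
    rw [h8]
    refine (abs_add_le _ _).trans ((add_le_add h7 h5).trans (le_of_eq ?_))
    rw [← hsq R hRp]
    ring

theorem AF_solution {δ ε₀ C c : ℝ} (hc : LSConst δ ε₀ C c) {q m r₀ : ℝ} {g : E3 → M3}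
    (hq : 1 / 2 < q) (hg : AFMetric q g) (hs : IntegrableOn (scal g) {x | r₀ < ‖x‖})
    (hm : Tendsto (massFlux g) atTop (𝓝 m)) (hm0 : m ≠ 0) (η : ℝ) (hη : 0 < η) :
    ∃ R₁ : ℝ, 8 ≤ R₁ ∧ ∃ (bb : ℝ → E3) (ww : ℝ → Xs),
      (∀ (b : E3) (R : ℝ), R₁ ≤ R → ‖b‖ ≤ R / 8 → ∀ i j,
        SB2 η (fun x => HbR (HA g) b R x i j)) ∧
      (∀ R, R₁ ≤ R → ‖bb R‖ < R / 8 ∧ ‖bb R‖ ≤ η * R ∧ ‖ww R‖ ≤ η ∧ ‖ww R‖ ≤ δ ∧
        SolLS (HbR (HA g) (bb R) R) (ww R) ∧ ∀ i, kap (HbR (HA g) (bb R) R) (ww R) i = 0) ∧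
      (∀ R, R₁ ≤ R → ∃ κ₀ > 0, ∀ (b : E3) (w : Xs), ‖b‖ < R / 8 → ‖w‖ ≤ δ →
        SolLS (HbR (HA g) b R) w →
        κ₀ * ‖b - bb R‖ ≤ ‖mkE (kap (HbR (HA g) b R) w)‖) ∧
      ∀ R R', R₁ ≤ R → R ≤ R' → ‖bb R - bb R'‖ ≤ η * (R' - R) ∧
        ∀ θ : S2, |R * wS (ww R).1 θ - R' * wS (ww R').1 θ| ≤ η * (R' - R) := by
  obtain ⟨hL, hM⟩ := scal_part hq hg hs hm
  have hC := hc.C_pos
  have hε₁ : 0 < min η (η / (8 * C)) := lt_min hη (by positivity)
  obtain ⟨K, C₁, R₀, hC₁, hR₀, hs1, hs0, hex, hk1, hk2⟩ :=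
    cmb_kap hc hq hg hL (min η (η / (8 * C))) hε₁
  have hCe : C * min η (η / (8 * C)) ≤ η / 8 := by
    calc C * min η (η / (8 * C)) ≤ C * (η / (8 * C)) :=
          mul_le_mul_of_nonneg_left (min_le_right _ _) hC.le
      _ = η / 8 := by field_simp
  -- the functions
  have hM0 : 16 * Real.pi * m ≠ 0 := by
    have := Real.pi_ne_zero
    positivity
  have hη' : 0 < min η (1 / 16) := lt_min hη (by norm_num)
  have hw : ∀ R, R₀ ≤ R → ∀ b : E3, ‖b‖ ≤ R / 8 →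
      ‖cmbW δ (HbR (HA g) b R)‖ ≤ δ ∧ SolLS (HbR (HA g) b R) (cmbW δ (HbR (HA g) b R)) :=
    fun R hR b hb => cmbW_spec (hex R hR b hb).2
  obtain ⟨R₁, hR₁, hR₁1, bb, hbb, hbl⟩ := zero_part (Lsc (hh g)) hL (16 * Real.pi * m) q K R₀
    hM hM0 hq (fun b R => kap (HbR (HA g) b R) (cmbW δ (HbR (HA g) b R)))
    (fun b R hR hb i => (hk1 R hR b hb _ (hw R hR b hb).1 (hw R hR b hb).2).2 i)
    (fun b b' R R' hR hRR' hR2 hb hb' i => by
      have hb'' : ‖b'‖ ≤ R' / 8 := by linarith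
      exact (hk2 R R' hR hRR' hR2 b b' hb hb' _ _ (hw R hR b hb).1
        (hw R' (hR.trans hRR') b' hb'').1 (hw R hR b hb).2
        (hw R' (hR.trans hRR') b' hb'').2).2 i)
    (min η (1 / 16)) hη'
  have hsol : ∀ R, R₁ ≤ R → ‖cmbW δ (HbR (HA g) (bb R) R)‖ ≤ δ ∧
      SolLS (HbR (HA g) (bb R) R) (cmbW δ (HbR (HA g) (bb R) R)) :=
    fun R hR => hw R (hR₁.trans hR) (bb R) (hbb R hR).2.1.le
  have hsm : ∀ R, R₁ ≤ R → ‖cmbW δ (HbR (HA g) (bb R) R)‖ ≤ η / 8 := fun R hR =>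
    ((hk1 R (hR₁.trans hR) (bb R) (hbb R hR).2.1.le _ (hsol R hR).1 (hsol R hR).2).1).trans hCe
  refine ⟨R₁, hR₀.trans hR₁, bb, fun R => cmbW δ (HbR (HA g) (bb R) R), ?_, ?_, ?_, ?_⟩
  · intro b R hR hb i j
    exact cmb_SB2_mono ((hex R (hR₁.trans hR) b hb).1 i j)
      ((hs1 R (hR₁.trans hR)).trans (min_le_left _ _))
  · intro R hR
    obtain ⟨h1, h2, h3, _⟩ := hbb R hR
    have hRp : 0 < R := by linarith
    refine ⟨h2, h1.trans (mul_le_mul_of_nonneg_right (min_le_left _ _) hRp.le), ?_,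
      (hsol R hR).1, (hsol R hR).2, h3⟩
    exact (hsm R hR).trans (by linarith)
  · intro R hR
    obtain ⟨_, _, _, κ₀, hκ, hκ'⟩ := hbb R hR
    refine ⟨κ₀, hκ, fun b w hb hwd hws => ?_⟩
    have h1 := hw R (hR₁.trans hR) b hb.le
    have hRp : 0 < R := by linarith
    have h2 : w = cmbW δ (HbR (HA g) b R) :=
      hc.uniq (HbR (HA g) b R) (C₁ * R ^ (-q)) (by positivity) (hs0 R (hR₁.trans hR))
        (hex R (hR₁.trans hR) b hb.le).1 w _ hwd h1.1 hws h1.2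
    rw [h2]
    exact hκ' b hb.le
  · intro R R' hR hRR'
    have hbR := hbl R R' hR hRR'
    have hRp : 0 < R := by linarith
    have hd : 0 ≤ R' - R := by linarith
    refine ⟨hbR.trans (mul_le_mul_of_nonneg_right (min_le_left _ _) hd), fun θ => ?_⟩
    have hw1 := cmb_wS_le (cmbW δ (HbR (HA g) (bb R) R)) θ
    have hw2 := cmb_wS_le (cmbW δ (HbR (HA g) (bb R') R')) θ
    have hn1 := hsm R hR
    have hn2 := hsm R' (hR.trans hRR')
    by_cases h2 : R' ≤ 2 * R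
    · have hb' : ‖bb R'‖ ≤ R / 8 := by
        have h3 := (hbb R' (hR.trans hRR')).1
        have h4 : min η (1 / 16) * R' ≤ 1 / 16 * R' :=
          mul_le_mul_of_nonneg_right (min_le_right _ _) (by linarith)
        linarith
      have h5 := (hk2 R R' (hR₁.trans hR) hRR' h2 (bb R) (bb R') (hbb R hR).2.1.le hb' _ _
        (hsol R hR).1 (hsol R' (hR.trans hRR')).1 (hsol R hR).2 (hsol R' (hR.trans hRR')).2).1
      have h6 := cmb_wS_le (cmbW δ (HbR (HA g) (bb R) R) - cmbW δ (HbR (HA g) (bb R') R')) θ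
      have h7 : wS (cmbW δ (HbR (HA g) (bb R) R) - cmbW δ (HbR (HA g) (bb R') R')).1 θ =
          wS (cmbW δ (HbR (HA g) (bb R) R)).1 θ - wS (cmbW δ (HbR (HA g) (bb R') R')).1 θ := rfl
      rw [h7] at h6
      have h8 : ‖bb R - bb R'‖ + (R' - R) ≤ 2 * (R' - R) := by
        have h9 : min η (1 / 16) * (R' - R) ≤ 1 / 16 * (R' - R) :=
          mul_le_mul_of_nonneg_right (min_le_right _ _) hd
        linarith
      have h10 : R * (C * (min η (η / (8 * C)) * ((‖bb R - bb R'‖ + (R' - R)) / R))) ≤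
          η / 8 * (2 * (R' - R)) := by
        have h11 : R * (C * (min η (η / (8 * C)) * ((‖bb R - bb R'‖ + (R' - R)) / R))) =
          (C * min η (η / (8 * C))) * (‖bb R - bb R'‖ + (R' - R)) := by
          field_simp
        rw [h11]
        exact mul_le_mul hCe h8 (by positivity) (by positivity)
      have h12 : R * wS (cmbW δ (HbR (HA g) (bb R) R)).1 θ -
          R' * wS (cmbW δ (HbR (HA g) (bb R') R')).1 θ =
          R * (wS (cmbW δ (HbR (HA g) (bb R) R)).1 θ - wS (cmbW δ (HbR (HA g) (bb R') R')).1 θ) -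
          (R' - R) * wS (cmbW δ (HbR (HA g) (bb R') R')).1 θ := by ring
      rw [h12]
      refine (abs_sub _ _).trans ?_
      rw [abs_mul, abs_mul, abs_of_pos hRp, abs_of_nonneg hd]
      have h13 := mul_le_mul_of_nonneg_left (h6.trans h5) hRp.le
      have h14 := mul_le_mul_of_nonneg_left (hw2.trans hn2) hd
      nlinarith [mul_nonneg hη.le hd]
    · push Not at h2
      refine (abs_sub _ _).trans ?_
      rw [abs_mul, abs_mul, abs_of_pos hRp, abs_of_pos (lt_of_lt_of_le hRp hRR')]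
      have h13 := mul_le_mul_of_nonneg_left (hw1.trans hn1) hRp.le
      have h14 := mul_le_mul_of_nonneg_left (hw2.trans hn2) (lt_of_lt_of_le hRp hRR').le
      nlinarith [mul_pos hη hRp, mul_pos hη (sub_pos.2 h2)]

end

end Pool.Agent.BS
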