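import Pool.Agent.BS.Pub

/-!
# Basic objects for the Bernoulli foliation project (MP_eb1919_gt)

`E3` = Euclidean 3-space, `S2` = unit sphere, `sig` = surface measure, `Om` = closed exterior of
the unit ball, `Y` = bounded continuous functions on `Om` which are 1/2-Hoelder in the sphere
variable (a Banach algebra).
-/

namespace Pool.Agent.BS

open MeasureTheory Topology
open scoped ContDiff

noncomputable section

/-- Closed exterior of the unit ball. -/
abbrev Om : Type := {y : E3 // 1 ≤ ‖y‖}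

/-- The direction `x / |x|` (junk at `0`). -/
def dirS (x : E3) : S2 :=
  if h : x = 0 then ⟨bv 0, by simp [bv]⟩ else ⟨‖x‖⁻¹ • x, by
    rw [mem_sphere_zero_iff_norm, norm_smul, norm_inv, norm_norm,
      inv_mul_cancel₀ (norm_ne_zero_iff.2 h)]⟩

theorem dirS_coe {x : E3} (h : x ≠ 0) : (dirS x : E3) = ‖x‖⁻¹ • x := by
  simp [dirS, h]

theorem norm_S2 (θ : S2) : ‖(θ : E3)‖ = 1 := mem_sphere_zero_iff_norm.1 θ.2

theorem S2_ne_zero (θ : S2) : (θ : E3) ≠ 0 := by
  intro h
  have := norm_S2 θ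
  rw [h, norm_zero] at this
  exact zero_ne_one this

theorem Om_ne_zero (x : Om) : (x : E3) ≠ 0 := by
  intro h
  have := x.2
  rw [h, norm_zero] at this
  linarith

theorem dirS_smul {x : E3} (h : x ≠ 0) {t : ℝ} (ht : 0 < t) : dirS (t • x) = dirS x := by
  have h2 : t • x ≠ 0 := smul_ne_zero ht.ne' h
  apply Subtype.ext
  rw [dirS_coe h, dirS_coe h2, norm_smul, Real.norm_of_nonneg ht.le, smul_smul]
  congr 1
  field_simp

theorem dirS_S2 (θ : S2) : dirS (θ : E3) = θ := by
  apply Subtype.ext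
  rw [dirS_coe (S2_ne_zero θ), norm_S2, inv_one, one_smul]

theorem dirS_smul_S2 (θ : S2) {t : ℝ} (ht : 0 < t) : dirS (t • (θ : E3)) = θ := by
  rw [dirS_smul (S2_ne_zero θ) ht, dirS_S2]

theorem norm_smul_dirS {x : E3} (h : x ≠ 0) : ‖x‖ • (dirS x : E3) = x := by
  rw [dirS_coe h, smul_smul, mul_inv_cancel₀ (norm_ne_zero_iff.2 h), one_smul]

theorem continuousOn_dirS : ContinuousOn dirS {0}ᶜ := by
  have hmem : ∀ x : ({0}ᶜ : Set E3), ‖(x : E3)‖⁻¹ • (x : E3) ∈ Metric.sphere (0 : E3) 1 := fun x => by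
    rw [mem_sphere_zero_iff_norm, norm_smul, norm_inv, norm_norm,
      inv_mul_cancel₀ (norm_ne_zero_iff.2 x.2)]
  rw [continuousOn_iff_continuous_domRestrict]
  have h : Continuous (fun x : ({0}ᶜ : Set E3) => (⟨‖(x : E3)‖⁻¹ • (x : E3), hmem x⟩ : S2)) :=
    Continuous.subtype_mk (((continuous_norm.comp continuous_subtype_val).inv₀
      (fun x => norm_ne_zero_iff.2 x.2)).smul continuous_subtype_val) hmem
  refine h.congr (fun x => ?_)
  apply Subtype.ext
  simp only [Set.domRestrict_apply]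
  rw [dirS_coe x.2]

/-- the point of `Om` on the unit sphere -/
def toOm (θ : S2) : Om := ⟨θ, by rw [norm_S2]⟩

/-- the point `e^t θ`, `t ≥ 0` (and `θ` for `t ≤ 0`) -/
def ray (t : ℝ) (θ : S2) : Om := ⟨Real.exp (max t 0) • (θ : E3), by
  rw [norm_smul, norm_S2, mul_one, Real.norm_of_nonneg (Real.exp_pos _).le]
  exact Real.one_le_exp (le_max_right _ _)⟩

theorem continuous_dirOm : Continuous (fun x : Om => dirS (x : E3)) :=
  continuousOn_dirS.comp_continuous continuous_subtype_val (fun x => Om_ne_zero x)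

/-- The angular distance of the directions of two points of `Om`. -/
def adist (x y : Om) : ℝ := dist (dirS (x : E3)) (dirS (y : E3))

/-- `f` is 1/2-Hoelder in the sphere variable with constant `C`. -/
def HolC (C : ℝ) (f : Om → ℝ) : Prop :=
  ∀ x y : Om, ‖(x : E3)‖ = ‖(y : E3)‖ → |f x - f y| ≤ C * Real.sqrt (adist x y)

theorem HolC.mono {C C' : ℝ} {f : Om → ℝ} (h : HolC C f) (hC : C ≤ C') : HolC C' f :=
  fun x y hxy => (h x y hxy).trans (mul_le_mul_of_nonneg_right hC (Real.sqrt_nonneg _))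

/-- The functions of `Y` as a subalgebra of the bounded continuous functions. -/
def Ysub : Subalgebra ℝ (BoundedContinuousFunction Om ℝ) where
  carrier := {f | ∃ C, 0 ≤ C ∧ HolC C f}
  mul_mem' := by
    rintro f g ⟨C, hC, hf⟩ ⟨D, hD, hg⟩
    refine ⟨‖f‖ * D + C * ‖g‖, by positivity, fun x y hxy => ?_⟩
    have h1 := hf x y hxy
    have h2 := hg x y hxy
    have h3 : |f x| ≤ ‖f‖ := f.norm_coe_le_norm x
    have h4 : |g y| ≤ ‖g‖ := g.norm_coe_le_norm y
    have : (f * g) x - (f * g) y = f x * (g x - g y) + (f x - f y) * g y := by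
      simp only [BoundedContinuousFunction.coe_mul, Pi.mul_apply]; ring
    rw [this]
    refine (abs_add_le _ _).trans ?_
    rw [abs_mul, abs_mul, add_mul]
    have hs := Real.sqrt_nonneg (adist x y)
    refine add_le_add ?_ ?_
    · calc |f x| * |g x - g y| ≤ ‖f‖ * (D * Real.sqrt (adist x y)) :=
            mul_le_mul h3 h2 (abs_nonneg _) (norm_nonneg _)
        _ = ‖f‖ * D * Real.sqrt (adist x y) := by ring
    · calc |f x - f y| * |g y| ≤ (C * Real.sqrt (adist x y)) * ‖g‖ :=
            mul_le_mul h1 h4 (abs_nonneg _) (by positivity)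
        _ = C * ‖g‖ * Real.sqrt (adist x y) := by ring
  add_mem' := by
    rintro f g ⟨C, hC, hf⟩ ⟨D, hD, hg⟩
    refine ⟨C + D, by positivity, fun x y hxy => ?_⟩
    have : (f + g) x - (f + g) y = (f x - f y) + (g x - g y) := by
      simp only [BoundedContinuousFunction.coe_add, Pi.add_apply]; ring
    rw [this, add_mul]
    exact (abs_add_le _ _).trans (add_le_add (hf x y hxy) (hg x y hxy))
  algebraMap_mem' := by
    intro r
    refine ⟨0, le_rfl, fun x y _ => ?_⟩
    simp

/-- The Banach algebra `Y`. -/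
def Y : Type := Ysub

namespace Y

instance : CommRing Y := inferInstanceAs (CommRing Ysub)
instance : Algebra ℝ Y := inferInstanceAs (Algebra ℝ Ysub)

/-- the underlying bounded continuous function -/
def toB (f : Y) : BoundedContinuousFunction Om ℝ := f.1

instance : CoeFun Y (fun _ => Om → ℝ) := ⟨fun f x => f.toB x⟩

@[ext] theorem ext {f g : Y} (h : ∀ x, f x = g x) : f = g := by
  apply Subtype.ext
  apply BoundedContinuousFunction.ext
  exact h

@[simp] theorem add_apply (f g : Y) (x : Om) : (f + g) x = f x + g x := rfl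
@[simp] theorem sub_apply (f g : Y) (x : Om) : (f - g) x = f x - g x := rfl
@[simp] theorem neg_apply (f : Y) (x : Om) : (-f) x = - f x := rfl
@[simp] theorem mul_apply (f g : Y) (x : Om) : (f * g) x = f x * g x := rfl
@[simp] theorem zero_apply (x : Om) : (0 : Y) x = 0 := rfl
@[simp] theorem one_apply (x : Om) : (1 : Y) x = 1 := rfl
@[simp] theorem smul_apply (c : ℝ) (f : Y) (x : Om) : (c • f) x = c * f x := rfl

@[simp] theorem sum_apply {ι : Type*} (s : Finset ι) (f : ι → Y) (x : Om) :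
    (∑ i ∈ s, f i) x = ∑ i ∈ s, f i x := by
  classical
  induction s using Finset.induction_on with
  | empty => simp
  | insert a s ha ih => rw [Finset.sum_insert ha, Finset.sum_insert ha, add_apply, ih]

/-- the Hoelder seminorm -/
def hs (f : Y) : ℝ := sInf {C | 0 ≤ C ∧ HolC C f}

theorem hs_set_nonempty (f : Y) : {C | 0 ≤ C ∧ HolC C f}.Nonempty := f.2

theorem hs_bddBelow (f : Y) : BddBelow {C | 0 ≤ C ∧ HolC C f} := ⟨0, fun _ h => h.1⟩

theorem hs_nonneg (f : Y) : 0 ≤ hs f :=
  le_csInf f.hs_set_nonempty (fun _ h => h.1)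

theorem hs_le {f : Y} {C : ℝ} (hC : 0 ≤ C) (h : HolC C f) : hs f ≤ C :=
  csInf_le f.hs_bddBelow ⟨hC, h⟩

theorem holC_hs (f : Y) : HolC (hs f) f := by
  intro x y hxy
  by_cases h0 : Real.sqrt (adist x y) = 0
  · obtain ⟨C, hC, h⟩ := f.hs_set_nonempty
    have := h x y hxy
    rw [h0, mul_zero] at this ⊢
    exact this
  · have hpos : 0 < Real.sqrt (adist x y) := lt_of_le_of_ne (Real.sqrt_nonneg _) (Ne.symm h0)
    rw [← div_le_iff₀ hpos]
    apply le_csInf f.hs_set_nonempty
    intro C hC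
    rw [div_le_iff₀ hpos]
    exact hC.2 x y hxy

/-- the norm of `Y` as a group norm -/
def gnorm : AddGroupNorm Y where
  toFun f := ‖f.toB‖ + hs f
  map_zero' := by
    have h0 : HolC 0 (0 : Y) := fun x y _ => by simp
    have : hs (0 : Y) = 0 := le_antisymm (hs_le le_rfl h0) (hs_nonneg _)
    rw [this, add_zero]
    exact norm_zero
  add_le' f g := by
    have h1 : ‖(f + g).toB‖ ≤ ‖f.toB‖ + ‖g.toB‖ := norm_add_le f.toB g.toB
    have h2 : hs (f + g) ≤ hs f + hs g := by
      refine hs_le (add_nonneg (hs_nonneg f) (hs_nonneg g)) (fun x y hxy => ?_)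
      have : (f + g) x - (f + g) y = (f x - f y) + (g x - g y) := by
        simp only [add_apply]; ring
      rw [this, add_mul]
      exact (abs_add_le _ _).trans (add_le_add (holC_hs f x y hxy) (holC_hs g x y hxy))
    linarith
  neg' f := by
    have h1 : ‖(-f).toB‖ = ‖f.toB‖ := norm_neg f.toB
    have h2 : ∀ g : Y, hs (-g) ≤ hs g := fun g => by
      refine hs_le (hs_nonneg g) (fun x y hxy => ?_)
      have : (-g) x - (-g) y = -(g x - g y) := by simp only [neg_apply]; ring
      rw [this, abs_neg]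
      exact holC_hs g x y hxy
    have h3 : hs (-f) = hs f := le_antisymm (h2 f) (by simpa using h2 (-f))
    rw [h1, h3]
  eq_zero_of_map_eq_zero' f hf := by
    have h1 : ‖f.toB‖ = 0 := by
      have := hs_nonneg f
      have := norm_nonneg f.toB
      linarith
    have h2 : f.toB = 0 := norm_eq_zero.1 h1
    ext x
    show f.toB x = 0
    rw [h2]
    rfl

instance : NormedAddCommGroup Y := gnorm.toNormedAddCommGroup

theorem norm_def (f : Y) : ‖f‖ = ‖f.toB‖ + hs f := rfl

theorem hs_mul_le (f g : Y) : hs (f * g) ≤ ‖f.toB‖ * hs g + hs f * ‖g.toB‖ := by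
  refine hs_le (by have := hs_nonneg f; have := hs_nonneg g; positivity) (fun x y hxy => ?_)
  have h3 : |f x| ≤ ‖f.toB‖ := f.toB.norm_coe_le_norm x
  have h4 : |g y| ≤ ‖g.toB‖ := g.toB.norm_coe_le_norm y
  have : (f * g) x - (f * g) y = f x * (g x - g y) + (f x - f y) * g y := by
    simp only [mul_apply]; ring
  rw [this]
  refine (abs_add_le _ _).trans ?_
  rw [abs_mul, abs_mul, add_mul]
  have hs' := Real.sqrt_nonneg (adist x y)
  have hf0 := hs_nonneg f
  refine add_le_add ?_ ?_
  · calc |f x| * |g x - g y| ≤ ‖f.toB‖ * (hs g * Real.sqrt (adist x y)) :=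
          mul_le_mul h3 (holC_hs g x y hxy) (abs_nonneg _) (norm_nonneg _)
      _ = ‖f.toB‖ * hs g * Real.sqrt (adist x y) := by ring
  · calc |f x - f y| * |g y| ≤ (hs f * Real.sqrt (adist x y)) * ‖g.toB‖ :=
          mul_le_mul (holC_hs f x y hxy) h4 (abs_nonneg _) (by positivity)
      _ = hs f * ‖g.toB‖ * Real.sqrt (adist x y) := by ring

instance : NormedCommRing Y where
  dist_eq _ _ := rfl
  norm_mul_le f g := by
    rw [norm_def, norm_def, norm_def]
    have h1 : ‖(f * g).toB‖ ≤ ‖f.toB‖ * ‖g.toB‖ := norm_mul_le f.toB g.toB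
    have h2 := hs_mul_le f g
    have h3 := hs_nonneg f
    have h4 := hs_nonneg g
    nlinarith [mul_nonneg h3 h4]
  mul_comm := mul_comm

instance : NormedAlgebra ℝ Y where
  norm_smul_le c f := by
    rw [norm_def, norm_def]
    have h1 : ‖(c • f).toB‖ ≤ ‖c‖ * ‖f.toB‖ := norm_smul_le c f.toB
    have h2 : hs (c • f) ≤ ‖c‖ * hs f := by
      refine hs_le (mul_nonneg (norm_nonneg _) (hs_nonneg f)) (fun x y hxy => ?_)
      have : (c • f) x - (c • f) y = c * (f x - f y) := by simp only [smul_apply]; ring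
      rw [this, abs_mul, mul_assoc]
      exact mul_le_mul_of_nonneg_left (holC_hs f x y hxy) (abs_nonneg _)
    linarith

theorem abs_apply_le (f : Y) (x : Om) : |f x| ≤ ‖f‖ := by
  have h1 : |f x| ≤ ‖f.toB‖ := f.toB.norm_coe_le_norm x
  have := hs_nonneg f
  rw [norm_def]; linarith

theorem abs_sub_le (f : Y) {x y : Om} (hxy : ‖(x : E3)‖ = ‖(y : E3)‖) :
    |f x - f y| ≤ ‖f‖ * Real.sqrt (adist x y) := by
  refine (holC_hs f x y hxy).trans (mul_le_mul_of_nonneg_right ?_ (Real.sqrt_nonneg _))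
  rw [norm_def]
  linarith [norm_nonneg f.toB]

theorem continuous (f : Y) : Continuous (fun x : Om => f x) := f.toB.continuous

/-- A function on `Om` is admissible if it is continuous, bounded by `C` and `C`-Hoelder in the
sphere variable. -/
structure Adm (C : ℝ) (f : Om → ℝ) : Prop where
  cont : Continuous f
  bdd : ∀ x, |f x| ≤ C
  hol : HolC C f

/-- the element of `Y` given by an admissible function -/
def ofAdm {C : ℝ} {f : Om → ℝ} (hC : 0 ≤ C) (h : Adm C f) : Y :=
  (⟨BoundedContinuousFunction.ofNormedAddCommGroup f h.cont C h.bdd, ⟨C, hC, h.hol⟩⟩ : Ysub)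

theorem ofAdm_apply {C : ℝ} {f : Om → ℝ} (hC : 0 ≤ C) (h : Adm C f) (x : Om) :
    ofAdm hC h x = f x := rfl

open Classical in
/-- Constructor of elements of `Y` (junk value `0` if the function is not admissible). -/
def mk (f : Om → ℝ) : Y :=
  if h : ∃ C, 0 ≤ C ∧ Adm C f then ofAdm h.choose_spec.1 h.choose_spec.2 else 0

theorem mk_apply {C : ℝ} {f : Om → ℝ} (hC : 0 ≤ C) (h : Adm C f) (x : Om) : mk f x = f x := by
  have h' : ∃ C, 0 ≤ C ∧ Adm C f := ⟨C, hC, h⟩
  have : mk f = ofAdm h'.choose_spec.1 h'.choose_spec.2 := dif_pos h'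
  rw [this]
  rfl

theorem adm (f : Y) : Adm ‖f‖ f :=
  ⟨f.continuous, f.abs_apply_le, fun _ _ hxy => f.abs_sub_le hxy⟩

theorem norm_le_of_adm {C : ℝ} (hC : 0 ≤ C) {f : Y} (h : Adm C f) : ‖f‖ ≤ 2 * C := by
  rw [norm_def]
  have h1 : ‖f.toB‖ ≤ C := (BoundedContinuousFunction.norm_le hC).2 h.bdd
  have h2 : hs f ≤ C := hs_le hC h.hol
  linarith

theorem norm_mk_le {C : ℝ} {f : Om → ℝ} (hC : 0 ≤ C) (h : Adm C f) : ‖mk f‖ ≤ 2 * C := by
  refine norm_le_of_adm hC ?_
  have : (fun x => mk f x) = f := funext (mk_apply hC h)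
  show Adm C (fun x => mk f x)
  rw [this]
  exact h

instance : CompleteSpace Y := by
  refine Metric.complete_of_cauchySeq_tendsto (fun u hu => ?_)
  have hB : CauchySeq (fun n => (u n).toB) := by
    rw [Metric.cauchySeq_iff'] at hu ⊢
    intro ε hε
    obtain ⟨N, hN⟩ := hu ε hε
    refine ⟨N, fun n hn => lt_of_le_of_lt ?_ (hN n hn)⟩
    rw [dist_eq_norm, dist_eq_norm, norm_def (u n - u N)]
    have : (u n - u N).toB = (u n).toB - (u N).toB := rfl
    rw [this]
    linarith [hs_nonneg (u n - u N)]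
  obtain ⟨g, hg⟩ := cauchySeq_tendsto_of_complete hB
  have hpt : ∀ x : Om, Filter.Tendsto (fun n => u n x) Filter.atTop (𝓝 (g x)) := fun x =>
    ((BoundedContinuousFunction.tendsto_iff_tendstoUniformly.1 hg).tendsto_at x)
  -- key: for every ε there is N such that for n ≥ N, g - u n is ε-Hoelder
  have key : ∀ ε > 0, ∃ N, ∀ n ≥ N, HolC ε (fun x => g x - u n x) := by
    intro ε hε
    obtain ⟨N, hN⟩ := Metric.cauchySeq_iff.1 hu ε hε
    refine ⟨N, fun n hn x y hxy => ?_⟩
    have hlim : Filter.Tendsto (fun m => |(u m x - u n x) - (u m y - u n y)|) Filter.atTop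
        (𝓝 |(g x - u n x) - (g y - u n y)|) :=
      (((hpt x).sub_const _).sub ((hpt y).sub_const _)).abs
    refine le_of_tendsto hlim ?_
    filter_upwards [Filter.eventually_ge_atTop N] with m hm
    have h1 : ‖u m - u n‖ < ε := by
      have := hN m hm n hn
      rwa [dist_eq_norm] at this
    have h2 := (u m - u n).abs_sub_le hxy
    simp only [sub_apply] at h2
    exact h2.trans (mul_le_mul_of_nonneg_right h1.le (Real.sqrt_nonneg _))
  obtain ⟨N1, hN1⟩ := key 1 one_pos
  have hgmem : ∃ C, 0 ≤ C ∧ HolC C g := by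
    refine ⟨1 + ‖u N1‖, by positivity, fun x y hxy => ?_⟩
    have h1 := hN1 N1 le_rfl x y hxy
    have h2 := (u N1).abs_sub_le hxy
    have : g x - g y = ((g x - u N1 x) - (g y - u N1 y)) + (u N1 x - u N1 y) := by ring
    rw [this, add_mul]
    exact (abs_add_le _ _).trans (add_le_add h1 h2)
  let G : Y := ⟨g, hgmem⟩
  refine ⟨G, ?_⟩
  rw [Metric.tendsto_atTop]
  intro ε hε
  obtain ⟨N2, hN2⟩ := key (ε / 3) (by positivity)
  obtain ⟨N3, hN3⟩ := Metric.tendsto_atTop.1 hg (ε / 3) (by positivity)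
  refine ⟨max N2 N3, fun n hn => ?_⟩
  rw [dist_comm, dist_eq_norm, norm_def]
  have h1 : ‖(G - u n).toB‖ < ε / 3 := by
    have := hN3 n (le_trans (le_max_right _ _) hn)
    rw [dist_comm, dist_eq_norm] at this
    exact this
  have h2 : hs (G - u n) ≤ ε / 3 :=
    hs_le (by positivity) (hN2 n (le_trans (le_max_left _ _) hn))
  linarith

end Y

end

end Pool.Agent.BS
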