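import Pool.Agent.BS.Defs

/-!
# Interface of the Bernoulli foliation project, part 2

Abstract data (Poisson semigroup, solution operator `T`), spaces `X`, `YP`, the map `Gam`,
compositions, potentials.
-/

namespace Pool.Agent.BS

open MeasureTheory Topology Set
open scoped ContDiff

noncomputable section

instance : IsFiniteMeasure sig := by unfold sig; infer_instance

/-! ### Small helpers -/

/-- Vector of `E3` with given components. -/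
def mkE (v : Fin 3 → ℝ) : E3 := WithLp.toLp 2 v

@[simp] theorem mkE_apply (v : Fin 3 → ℝ) (i : Fin 3) : mkE v i = v i := rfl

/-- Levi-Civita symbol. -/
def eps (k a b : Fin 3) : ℝ :=
  if (k, a, b) = (0, 1, 2) ∨ (k, a, b) = (1, 2, 0) ∨ (k, a, b) = (2, 0, 1) then 1
  else if (k, a, b) = (0, 2, 1) ∨ (k, a, b) = (1, 0, 2) ∨ (k, a, b) = (2, 1, 0) then -1 else 0

/-- Cross product in coordinates, over any real algebra. -/
def cr {R : Type*} [CommRing R] [Algebra ℝ R] (a b : Fin 3 → R) : Fin 3 → R :=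
  fun k => ∑ i, ∑ j, (eps k i j) • (a i * b j)

/-- coordinate function of the sphere -/
def xi (i : Fin 3) : C(S2, ℝ) := ⟨fun θ => (θ : E3) i, by fun_prop⟩

theorem continuous_ray (t : ℝ) : Continuous (ray t) :=
  Continuous.subtype_mk (f := fun θ : S2 => Real.exp (max t 0) • (θ : E3)) (by fun_prop) _

theorem continuous_toOm : Continuous toOm :=
  Continuous.subtype_mk (f := fun θ : S2 => (θ : E3)) (by fun_prop) _

/-- slice of an element of `Y` at radius `e^t` -/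
def sl (f : Y) (t : ℝ) : C(S2, ℝ) := ⟨fun θ => f (ray t θ), f.continuous.comp (continuous_ray t)⟩

/-- extension of `f ∈ Y` to `E3` (by its boundary value along rays inside the unit ball) -/
def oext (f : Y) (x : E3) : ℝ :=
  if h : 1 ≤ ‖x‖ then f ⟨x, h⟩ else f (toOm (dirS x))

/-! ### Cutoff -/

/-- the radial cutoff: `0` for `r ≤ 1/2` and `r ≥ 3`, `1` on `[3/4, 2]` -/
def chi (r : ℝ) : ℝ := Real.smoothTransition (4 * r - 2) * Real.smoothTransition (3 - r)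

/-- `θ_i` as an element of `Y` -/
def thY (i : Fin 3) : Y := Y.mk (fun x => (dirS (x : E3) : E3) i)

/-- `χ(r)` as an element of `Y` -/
def chY : Y := Y.mk (fun x => chi ‖(x : E3)‖)

/-- `r χ'(r)` as an element of `Y` -/
def chpY : Y := Y.mk (fun x => ‖(x : E3)‖ * deriv chi ‖(x : E3)‖)

/-! ### Poisson semigroup of the sphere -/

/-- `f` is `C^1` on the sphere with tangential gradient `G` (components in `E3`). -/
def IsC1S (f : S2 → ℝ) (G : Fin 3 → S2 → ℝ) : Prop :=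
  (∀ k, Continuous (G k)) ∧ ∀ x : E3, x ≠ 0 →
    HasFDerivAt (fun y => f (dirS y)) (innerSL ℝ (‖x‖⁻¹ • mkE (fun k => G k (dirS x)))) x

/-- The Poisson semigroup `Po τ` of the sphere (`τ ≥ 0`), `Dk k τ = L_k ∘ Po τ`, where
`L = x × ∇` are the rotation fields, and `La τ = Λ₀ ∘ Po τ` with `Λ₀ = - d/dτ Po τ` at `0`
(eigenvalue `l` on spherical harmonics of degree `l`). -/
structure PoissonData where
  Po : ℝ → (C(S2, ℝ) →L[ℝ] C(S2, ℝ))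
  Dk : Fin 3 → ℝ → (C(S2, ℝ) →L[ℝ] C(S2, ℝ))
  La : ℝ → (C(S2, ℝ) →L[ℝ] C(S2, ℝ))
  C0 : ℝ
  C0_pos : 0 < C0
  po_nonpos : ∀ τ, τ ≤ 0 → Po τ = ContinuousLinearMap.id ℝ _
  po_add : ∀ σ τ, 0 ≤ σ → 0 ≤ τ → Po (σ + τ) = (Po σ).comp (Po τ)
  po_norm : ∀ τ f, ‖Po τ f‖ ≤ ‖f‖
  po_one : ∀ τ, Po τ 1 = 1
  po_cont : ∀ f, Continuous (fun τ => Po τ f)
  po_symm : ∀ τ f g, ∫ θ, Po τ f θ * g θ ∂sig = ∫ θ, f θ * Po τ g θ ∂sig
  po_xi : ∀ τ i, 0 ≤ τ → Po τ (xi i) = Real.exp (-τ) • xi i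
  po_deriv : ∀ τ f, 0 < τ → HasDerivAt (fun τ => Po τ f) (-(La τ f)) τ
  dk_add : ∀ k σ τ, 0 < σ → 0 ≤ τ → Dk k (σ + τ) = (Dk k σ).comp (Po τ)
  dk_add' : ∀ k σ τ, 0 < σ → 0 ≤ τ → Dk k (σ + τ) = (Po τ).comp (Dk k σ)
  la_add : ∀ σ τ, 0 < σ → 0 ≤ τ → La (σ + τ) = (La σ).comp (Po τ)
  la_add' : ∀ σ τ, 0 < σ → 0 ≤ τ → La (σ + τ) = (Po τ).comp (La σ)
  lap : ∀ σ τ f, 0 < σ → 0 < τ →
    ∑ k, Dk k σ (Dk k τ f) = -(La σ (La τ f) + La (σ + τ) f)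
  dk_norm : ∀ k τ f, 0 < τ → ‖Dk k τ f‖ ≤ C0 * (1 + τ⁻¹) * Real.exp (-τ) * ‖f‖
  la_norm : ∀ τ f, 0 < τ → ‖La τ f‖ ≤ C0 * (1 + τ⁻¹) * Real.exp (-τ) * ‖f‖
  /-- Lipschitz bound in the sphere variable -/
  po_lip : ∀ τ f θ η, 0 < τ →
    |Po τ f θ - Po τ f η| ≤ C0 * (1 + τ⁻¹) * Real.exp (-τ) * ‖f‖ * dist θ η
  /-- gain for 1/2-Hoelder functions -/
  dk_hol : ∀ k τ (f : C(S2, ℝ)) A, 0 < τ → 0 ≤ A → (∀ θ η, |f θ - f η| ≤ A * Real.sqrt (dist θ η)) →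
    ‖Dk k τ f‖ ≤ C0 * (1 + (Real.sqrt τ)⁻¹) * Real.exp (-τ) * A
  la_hol : ∀ τ (f : C(S2, ℝ)) A, 0 < τ → 0 ≤ A → (∀ θ η, |f θ - f η| ≤ A * Real.sqrt (dist θ η)) →
    ‖La τ f‖ ≤ C0 * (1 + (Real.sqrt τ)⁻¹) * Real.exp (-τ) * A
  /-- decay on functions of mean zero -/
  po_decay : ∀ τ f, 0 ≤ τ → ∫ θ, f θ ∂sig = 0 → ‖Po τ f‖ ≤ C0 * Real.exp (-τ) * ‖f‖
  /-- decay on functions orthogonal to `l ≤ 1` -/
  po_decay2 : ∀ τ f, 0 ≤ τ → ∫ θ, f θ ∂sig = 0 → (∀ i, ∫ θ, xi i θ * f θ ∂sig = 0) →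
    ‖Po τ f‖ ≤ C0 * Real.exp (-(2 * τ)) * ‖f‖
  /-- `Po τ f` is `C^1` for `τ > 0`, with gradient `(L f) × θ` -/
  po_c1 : ∀ τ f, 0 < τ →
    IsC1S (Po τ f) (fun k θ => cr (fun a => Dk a τ f θ) (fun a => (θ : E3) a) k)
  /-- `L f` is tangential -/
  dk_perp : ∀ τ f θ, 0 < τ → ∑ k, Dk k τ f θ * (θ : E3) k = 0
  /-- `Dk k τ f = Po τ (L_k f)` for `f` of class `C^1` -/
  dk_comm : ∀ k τ (f : C(S2, ℝ)) (G : Fin 3 → S2 → ℝ) (g : C(S2, ℝ)), 0 < τ → IsC1S f G →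
    (∀ θ, g θ = cr (fun a => (θ : E3) a) (fun a => G a θ) k) → Dk k τ f = Po τ g
  dk_skew : ∀ k τ f g, 0 < τ → ∫ θ, Dk k τ f θ * g θ ∂sig = - ∫ θ, f θ * Dk k τ g θ ∂sig
  la_symm : ∀ τ f g, 0 < τ → ∫ θ, La τ f θ * g θ ∂sig = ∫ θ, f θ * La τ g θ ∂sig

/-! ### Spaces `X` and `YP`, the operator `Λ₀` -/

/-- `f` is constant along rays -/
def Hom0 (f : Y) : Prop := ∀ x : Om, f x = f (toOm (dirS (x : E3)))

/-- `w 0` is (the radially constant extension of) a `C^{1,1/2}` function on the sphere,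
`w 1, w 2, w 3` are the components of its tangential gradient, and `w 0` is orthogonal to
the spherical harmonics of degree `≤ 1`. -/
def IsX (w : Fin 4 → Y) : Prop :=
  (∀ j, Hom0 (w j)) ∧
  IsC1S (fun θ => w 0 (toOm θ)) (fun k θ => w k.succ (toOm θ)) ∧
  (∫ θ, w 0 (toOm θ) ∂sig = 0) ∧ ∀ i, ∫ θ, (θ : E3) i * w 0 (toOm θ) ∂sig = 0

/-- `f` is radially constant and orthogonal to the spherical harmonics of degree `≤ 1`. -/
def IsYP (f : Y) : Prop :=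
  Hom0 f ∧ (∫ θ, f (toOm θ) ∂sig = 0) ∧ ∀ i, ∫ θ, (θ : E3) i * f (toOm θ) ∂sig = 0

/-- value on the unit sphere, extended radially constant, as a bounded linear map -/
def IsTr (tr : Y →L[ℝ] Y) : Prop := ∀ f x, tr f x = f (toOm (dirS (x : E3)))

/-! ### Scale invariant `C^1` and `C^2` bounds on `|x| > 1/2` -/

/-- scale invariant `C^1` bound -/
structure SB1 (ε : ℝ) (f : E3 → ℝ) : Prop where
  c1 : ContDiffOn ℝ 1 f {x | 1 / 2 < ‖x‖}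
  b0 : ∀ x, 1 / 2 < ‖x‖ → |f x| ≤ ε
  b1 : ∀ x, 1 / 2 < ‖x‖ → ‖x‖ * ‖fderiv ℝ f x‖ ≤ ε

/-- scale invariant `C^2` bound -/
structure SB2 (ε : ℝ) (f : E3 → ℝ) : Prop where
  c2 : ContDiffOn ℝ 2 f {x | 1 / 2 < ‖x‖}
  b0 : ∀ x, 1 / 2 < ‖x‖ → |f x| ≤ ε
  b1 : ∀ x, 1 / 2 < ‖x‖ → ‖x‖ * ‖fderiv ℝ f x‖ ≤ ε
  b2 : ∀ x, 1 / 2 < ‖x‖ → ‖x‖ ^ 2 * ‖fderiv ℝ (fderiv ℝ f) x‖ ≤ ε

/-- the graph map `y ↦ (1 + χ(|y|) w(y/|y|)) y` -/
def Psi (w : S2 → ℝ) (y : E3) : E3 := (1 + chi ‖y‖ * w (dirS y)) • y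

/-- the function on the sphere given by the zeroth component of `w` -/
def wS (w : Fin 4 → Y) : S2 → ℝ := fun θ => w 0 (toOm θ)

/-- the composition `H ∘ Psi_w` as elements of `Y` -/
def cmp (H : E3 → M3) (w : Fin 4 → Y) : Fin 3 → Fin 3 → Y :=
  fun i j => Y.mk (fun y => H (Psi (wS w) (y : E3)) i j)

/-! ### The map `Gam` -/

/-- multiplication of a vector field by a matrix field -/
def Mop (m : Fin 3 → Fin 3 → Y) : (Fin 3 → Y) →L[ℝ] (Fin 3 → Y) :=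
  ContinuousLinearMap.pi (fun i => ∑ j, (ContinuousLinearMap.mul ℝ Y (m i j)).comp
    (ContinuousLinearMap.proj j))

/-- The solution `Z = r^2 ∇ v` of `Δ v = - div (m ∇(u₀ + v))`, `Z = T (m (θ + Z))`. -/
def ZZ (T : (Fin 3 → Y) →L[ℝ] (Fin 3 → Y)) (m : Fin 3 → Fin 3 → Y) : Fin 3 → Y :=
  (Ring.inverse (1 - T.comp (Mop m)) : (Fin 3 → Y) →L[ℝ] (Fin 3 → Y)) (T (Mop m thY))

/-- `e = 1 + (rχ)' w` -/
def eY (z : Fin 4 → Y) : Y := 1 + (chY + chpY) * z 0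

/-- `q = r χ' w θ + χ G` -/
def qY (z : Fin 4 → Y) (k : Fin 3) : Y := chpY * z 0 * thY k + chY * z k.succ

/-- the pulled back coefficient matrix `a = (1/e)(e - θ⊗q)(1 + h)(e - q⊗θ)` -/
def aY (z : Fin 4 → Y) (h : Fin 3 → Fin 3 → Y) (i j : Fin 3) : Y :=
  Ring.inverse (eY z) * ∑ k, ∑ l, (eY z * dl i k - thY i * qY z k) * (dl k l + h k l) *
    (eY z * dl j l - thY j * qY z l)

/-- `a - 1` -/
def mY (z : Fin 4 → Y) (h : Fin 3 → Fin 3 → Y) (i j : Fin 3) : Y := aY z h i j - dl i j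

/-- determinant of a 3x3 matrix over `Y` -/
def detY (a : Fin 3 → Fin 3 → Y) : Y := Matrix.det (Matrix.of a)

/-- `|∇u|²` on the surface, as a function of the graph `z = (w, ∇w)` and `h = (A - 1) ∘ Psi_w`
(before taking the trace on the unit sphere) -/
def Gam0 (T : (Fin 3 → Y) →L[ℝ] (Fin 3 → Y)) (z : Fin 4 → Y) (h : Fin 3 → Fin 3 → Y) : Y :=
  (∑ i, ∑ j, thY i * aY z h i j * thY j) * (1 + ∑ j, thY j * ZZ T (mY z h) j) ^ 2 *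
    Ring.inverse (detY (aY z h))

/-! ### The functional `ell` -/

/-- `h_rr` at the point `x` -/
def hrr (h : Fin 3 → Fin 3 → ℝ) (θ : E3) : ℝ := ∑ i, ∑ j, h i j * θ i * θ j

/-- trace -/
def tr3 (h : Fin 3 → Fin 3 → ℝ) : ℝ := ∑ i, h i i

/-- `l = 1` part of the linearisation of `|∇u|²` in the coefficient matrix:
`- ∫ θ_i (h_rr + tr h) + 2 ∫_0^∞ e^{-2s} ∫ (3 θ_i h_rr - (hθ)_i)(e^s θ) dθ ds` -/
def ell (i : Fin 3) (h : E3 → M3) : ℝ :=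
  -(∫ θ : S2, (θ : E3) i * (hrr (h θ) θ + tr3 (h θ)) ∂sig) +
    2 * ∫ s in Ioi (0 : ℝ), Real.exp (-(2 * s)) *
      ∫ θ : S2, (3 * (θ : E3) i * hrr (h (Real.exp s • (θ : E3))) θ -
        ∑ j, h (Real.exp s • (θ : E3)) i j * (θ : E3) j) ∂sig

end

end Pool.Agent.BS
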