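import Pool.Agent.BS.Defs2

/-!
# Interface of the Bernoulli foliation project, part 3

Potentials, changes of variables, asymptotically flat metrics, Bernoulli surfaces.
-/

namespace Pool.Agent.BS

open MeasureTheory Topology Set Filter
open scoped ContDiff

noncomputable section

/-! ### Potentials -/

/-- `u` is the potential of the open exterior domain `D` for the coefficient field `A`
(`div (A ∇u) = 0` weakly in `D`, `u = 0` on the boundary, `u → 1`), with gradient `G`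
continuous up to the boundary. -/
structure IsPot (A : E3 → M3) (D : Set E3) (u : E3 → ℝ) (G : E3 → E3) : Prop where
  zero : ∀ x ∈ frontier D, u x = 0
  grad : ∀ x ∈ closure D, HasFDerivWithinAt u (innerSL ℝ (G x)) (closure D) x
  gcont : ContinuousOn G (closure D)
  decay : ∃ C, ∀ x ∈ D, |u x - 1| ≤ C / (1 + ‖x‖) ∧ ‖G x‖ ≤ C / (1 + ‖x‖) ^ 2
  weak : ∀ φ : E3 → ℝ, ContDiff ℝ 1 φ → HasCompactSupport φ → tsupport φ ⊆ D →
    ∫ x in D, ∑ i, ∑ j, A x i j * G x j * pd i φ x = 0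

/-- `A` is continuous, bounded and uniformly elliptic on `D`. -/
structure IsEll (A : E3 → M3) (D : Set E3) : Prop where
  cont : ContinuousOn A D
  bdd : ∃ C, ∀ x ∈ D, ∀ i j, |A x i j| ≤ C
  ell : ∃ c > 0, ∀ x ∈ D, ∀ v : E3, c * ‖v‖ ^ 2 ≤ ∑ i, ∑ j, A x i j * v i * v j

/-- matrix of the derivative of `Φ` -/
def DM (Φ : E3 → E3) (y : E3) : M3 := fun i j => (fderiv ℝ Φ y (bv j)) i

/-- `Φ` is a bi-Lipschitz `C^1` diffeomorphism of `E3` with positive Jacobian. -/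
structure IsGD (Φ : E3 ≃ₜ E3) : Prop where
  c1 : ContDiff ℝ 1 Φ
  det : ∀ y, 0 < det3 (DM Φ y)
  bdd : ∃ C, ∀ y v, ‖fderiv ℝ Φ y v‖ ≤ C * ‖v‖ ∧ ‖v‖ ≤ C * ‖fderiv ℝ Φ y v‖

/-- `A'` is `c` times the pull-back of the coefficient field `A` by `Φ`:
`DΦ A' DΦ^T = c J (A ∘ Φ)`. -/
def IsPB (Φ : E3 → E3) (c : ℝ) (A A' : E3 → M3) (D : Set E3) : Prop :=
  ∀ y ∈ D, ∀ i j, ∑ k, ∑ l, DM Φ y i k * A' y k l * DM Φ y j l =
    c * det3 (DM Φ y) * A (Φ y) i j

/-- `|∇u|²_g` in terms of the coefficient matrix `A = √g g⁻¹` and the gradient `p`: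
`(p · A p) / det A`. -/
def bq (A : M3) (p : E3) : ℝ := (∑ i, ∑ j, A i j * p i * p j) / det3 A

/-- the coefficient field `1 + m` on `E3` for `m` with entries in `Y` -/
def coefY (m : Fin 3 → Fin 3 → Y) : E3 → M3 := fun x i j => dl i j + oext (m i j) x

/-- the open exterior of the unit ball -/
def Ext : Set E3 := {y | 1 < ‖y‖}

/-- The boundary of the compact set `A` (which contains a neighbourhood of `{|x| ≤ 1}`) is a
Bernoulli surface relative to infinity: there is a `g`-harmonic function `u` on the complement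
of `A`, smooth there and `C^1` up to the boundary, with `u → 1` at infinity, `u = 0` on the
boundary and constant normal derivative on the boundary. -/
structure IsBernoulli (g : E3 → M3) (A : Set E3) : Prop where
  compact : IsCompact A
  ball : Metric.closedBall 0 1 ⊆ interior A
  conn : IsConnected Aᶜ
  pot : ∃ (u : E3 → ℝ) (du : E3 → (E3 →L[ℝ] ℝ)) (c : ℝ),
    ContDiffOn ℝ ∞ u Aᶜ ∧ (∀ x ∈ Aᶜ, lapB g u x = 0) ∧
    Tendsto u (Bornology.cobounded E3) (𝓝 1) ∧ (∀ x ∈ frontier A, u x = 0) ∧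
    (∀ x ∈ closure Aᶜ, HasFDerivWithinAt u (du x) (closure Aᶜ) x) ∧
    ContinuousOn du (closure Aᶜ) ∧
    ∀ x ∈ frontier A, ∀ n, IsUnitNormal g A x n → du x n = c

/-- linearised scalar curvature `∂_i∂_j h_ij - Δ tr h` -/
def Lsc (h : E3 → M3) (x : E3) : ℝ :=
  (∑ i, ∑ j, pd i (pd j (fun y => h y i j)) x) -
    ∑ i, ∑ j, pd j (pd j (fun y => h y i i)) x

/-- `z_i min(1, |z|^-4)` -/
def zet (i : Fin 3) (z : E3) : ℝ := z i * min 1 (‖z‖ ^ 4)⁻¹

/-- the force function `𝔉_i(b,R) = ∫ ρ(x) (x-b)_i min(1,(R/|x-b|)^4) dx`, divided by `R` -/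
def FF (ρ : E3 → ℝ) (i : Fin 3) (b : E3) (R : ℝ) : ℝ :=
  ∫ x, ρ x * zet i (R⁻¹ • (x - b))

end

end Pool.Agent.BS
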