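import Pool.Agent.BS.Xsp

/-!
# Module DIF: the graph diffeomorphism
-/

namespace Pool.Agent.BS

open MeasureTheory Topology Set Filter
open scoped ContDiff

noncomputable section

/-- gradient vector of `w` at the direction of `y` -/
private def difG (w : Fin 4 → Y) (y : E3) : E3 := mkE (fun k => w k.succ (toOm (dirS y)))

/-- derivative of `Psi - id` away from the origin -/
private def difL (w : Fin 4 → Y) (y : E3) : E3 →L[ℝ] E3 :=
  (chi ‖y‖ * wS w (dirS y)) • ContinuousLinearMap.id ℝ E3 +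
    (chi ‖y‖ • innerSL ℝ (‖y‖⁻¹ • difG w y) +
      (wS w (dirS y) * deriv chi ‖y‖) • innerSL ℝ (‖y‖⁻¹ • y)).smulRight y

private theorem dif_norm {y : E3} (hy : y ≠ 0) :
    HasFDerivAt (fun z : E3 => ‖z‖) (innerSL ℝ (‖y‖⁻¹ • y)) y := by
  have h1 : HasFDerivAt (fun z : E3 => ‖z‖ ^ 2) (2 • innerSL ℝ y) y :=
    (hasStrictFDerivAt_norm_sq y).hasFDerivAt
  have h0 : ‖y‖ ≠ 0 := norm_ne_zero_iff.2 hy
  have h2 := h1.sqrt (by positivity)
  have e : (fun z : E3 => Real.sqrt (‖z‖ ^ 2)) = fun z => ‖z‖ := by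
    funext z; exact Real.sqrt_sq (norm_nonneg z)
  rw [e] at h2
  refine h2.congr_fderiv ?_
  rw [Real.sqrt_sq (norm_nonneg y)]
  ext v
  simp
  field_simp

private theorem dif_w (w : Xs) {y : E3} (hy : y ≠ 0) :
    HasFDerivAt (fun z : E3 => wS w.1 (dirS z)) (innerSL ℝ (‖y‖⁻¹ • difG w.1 y)) y :=
  w.2.2.1.2 y hy

private theorem dif_chi (r : ℝ) : HasDerivAt chi (deriv chi r) r :=
  ((chi_smooth.differentiable (by simp)) r).hasDerivAt

/-- `Psi - id` -/
private def difP (w : S2 → ℝ) (y : E3) : E3 := (chi ‖y‖ * w (dirS y)) • y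

private theorem Psi_eq (w : S2 → ℝ) (y : E3) : Psi w y = y + difP w y := by
  rw [Psi, difP, add_smul, one_smul]

private theorem dif_P (w : Xs) {y : E3} (hy : y ≠ 0) :
    HasFDerivAt (difP (wS w.1)) (difL w.1 y) y := by
  have h1 := (dif_chi ‖y‖).comp_hasFDerivAt y (dif_norm hy)
  have h2 := h1.mul (dif_w w hy)
  have h3 := h2.smul (hasFDerivAt_id y)
  refine h3.congr_fderiv ?_
  simp only [difL, Pi.mul_apply, Function.comp, id, smul_smul]

/-- coefficient bounds -/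
private theorem dif_wbd (w : Xs) (j : Fin 4) (x : Om) : |w.1 j x| ≤ ‖w‖ :=
  ((w.1 j).abs_apply_le x).trans (norm_le_pi_norm w.1 j)

private theorem dif_Gbd (w : Xs) (y : E3) : ‖difG w.1 y‖ ≤ 2 * ‖w‖ := by
  rw [EuclideanSpace.norm_eq]
  apply Real.sqrt_le_iff.2
  refine ⟨by positivity, ?_⟩
  have h : ∀ k : Fin 3, ‖difG w.1 y k‖ ^ 2 ≤ ‖w‖ ^ 2 := fun k => by
    rw [Real.norm_eq_abs]
    exact pow_le_pow_left₀ (abs_nonneg _) (dif_wbd w k.succ (toOm (dirS y))) 2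
  calc ∑ k, ‖difG w.1 y k‖ ^ 2 ≤ ∑ _k : Fin 3, ‖w‖ ^ 2 := Finset.sum_le_sum (fun k _ => h k)
    _ = 3 * ‖w‖ ^ 2 := by simp
    _ ≤ (2 * ‖w‖) ^ 2 := by nlinarith [sq_nonneg ‖w‖]

private theorem dif_chp (C : ℝ) (hC : ∀ r, |deriv chi r| ≤ C) (r : ℝ) (_h0 : 0 ≤ r) :
    r * |deriv chi r| ≤ 3 * C := by
  have hC0 : 0 ≤ C := (abs_nonneg _).trans (hC 0)
  by_cases h : r ≤ 3
  · exact mul_le_mul h (hC r) (abs_nonneg _) (by norm_num)
  · push Not at h
    have h1 : chi =ᶠ[𝓝 r] fun _ => (0 : ℝ) := by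
      filter_upwards [Ioi_mem_nhds h] with s hs
      exact chi_eq_zero_right (le_of_lt hs)
    rw [h1.deriv_eq]
    simp only [deriv_const, abs_zero, mul_zero]
    positivity

private theorem dif_Lbd (C : ℝ) (hC : ∀ r, |deriv chi r| ≤ C) (w : Xs) {y : E3} (hy : y ≠ 0) :
    ‖difL w.1 y‖ ≤ (3 + 3 * C) * ‖w‖ := by
  have hC0 : 0 ≤ C := (abs_nonneg _).trans (hC 0)
  have hyn : 0 < ‖y‖ := norm_pos_iff.2 hy
  have hw : |wS w.1 (dirS y)| ≤ ‖w‖ := dif_wbd w 0 (toOm (dirS y))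
  have hG := dif_Gbd w y
  have hc0 := chi_nonneg ‖y‖
  have hc1 := chi_le_one ‖y‖
  have hcp := dif_chp C hC ‖y‖ hyn.le
  have hn0 : 0 ≤ ‖w‖ := norm_nonneg w
  refine ContinuousLinearMap.opNorm_le_bound _ (by positivity) (fun v => ?_)
  have e : difL w.1 y v = (chi ‖y‖ * wS w.1 (dirS y)) • v +
      (chi ‖y‖ * (‖y‖⁻¹ * inner ℝ (difG w.1 y) v) +
        (wS w.1 (dirS y) * deriv chi ‖y‖) * (‖y‖⁻¹ * inner ℝ y v)) • y := by
    simp [difL]
  rw [e]
  refine (norm_add_le _ _).trans ?_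
  rw [norm_smul, norm_smul, Real.norm_eq_abs, Real.norm_eq_abs]
  have h1 : |chi ‖y‖ * wS w.1 (dirS y)| ≤ ‖w‖ := by
    rw [abs_mul, abs_of_nonneg hc0]
    nlinarith [abs_nonneg (wS w.1 (dirS y))]
  have h2 : |chi ‖y‖ * (‖y‖⁻¹ * inner ℝ (difG w.1 y) v)| * ‖y‖ ≤ 2 * ‖w‖ * ‖v‖ := by
    rw [abs_mul, abs_mul, abs_of_nonneg hc0, abs_of_pos (inv_pos.2 hyn)]
    have h3 : |inner ℝ (difG w.1 y) v| ≤ 2 * ‖w‖ * ‖v‖ :=
      (abs_real_inner_le_norm _ _).trans (mul_le_mul_of_nonneg_right hG (norm_nonneg _))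
    have h4 : chi ‖y‖ * (‖y‖⁻¹ * |inner ℝ (difG w.1 y) v|) * ‖y‖ =
        chi ‖y‖ * |inner ℝ (difG w.1 y) v| := by
      field_simp
    rw [h4]
    nlinarith [abs_nonneg (inner ℝ (difG w.1 y) v)]
  have h5 : |(wS w.1 (dirS y) * deriv chi ‖y‖) * (‖y‖⁻¹ * inner ℝ y v)| * ‖y‖ ≤
      3 * C * ‖w‖ * ‖v‖ := by
    rw [abs_mul, abs_mul, abs_mul, abs_of_pos (inv_pos.2 hyn)]
    have h3 : |inner ℝ y v| ≤ ‖y‖ * ‖v‖ := abs_real_inner_le_norm _ _
    have h4 : |wS w.1 (dirS y)| * |deriv chi ‖y‖| * (‖y‖⁻¹ * |inner ℝ y v|) * ‖y‖ =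
        |wS w.1 (dirS y)| * (|deriv chi ‖y‖| * |inner ℝ y v|) := by
      field_simp
    rw [h4]
    have h6 : |deriv chi ‖y‖| * |inner ℝ y v| ≤ 3 * C * ‖v‖ := by
      calc |deriv chi ‖y‖| * |inner ℝ y v| ≤ |deriv chi ‖y‖| * (‖y‖ * ‖v‖) :=
            mul_le_mul_of_nonneg_left h3 (abs_nonneg _)
        _ = ‖y‖ * |deriv chi ‖y‖| * ‖v‖ := by ring
        _ ≤ 3 * C * ‖v‖ := mul_le_mul_of_nonneg_right hcp (norm_nonneg _)
    calc |wS w.1 (dirS y)| * (|deriv chi ‖y‖| * |inner ℝ y v|) ≤ ‖w‖ * (3 * C * ‖v‖) :=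
          mul_le_mul hw h6 (by positivity) hn0
      _ = 3 * C * ‖w‖ * ‖v‖ := by ring
  have h7 := abs_add_le (chi ‖y‖ * (‖y‖⁻¹ * inner ℝ (difG w.1 y) v))
    ((wS w.1 (dirS y) * deriv chi ‖y‖) * (‖y‖⁻¹ * inner ℝ y v))
  have h8 := mul_le_mul_of_nonneg_right h7 hyn.le
  rw [add_mul] at h8
  have h9 := mul_le_mul_of_nonneg_right h1 (norm_nonneg v)
  nlinarith

private theorem dif_near0 (w : S2 → ℝ) {y : E3} (hy : ‖y‖ ≤ 1 / 2) : difP w y = 0 := by
  rw [difP, chi_eq_zero_left hy, zero_mul, zero_smul]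

private theorem dif_P0 (w : S2 → ℝ) : difP w =ᶠ[𝓝 (0 : E3)] fun _ => 0 := by
  filter_upwards [Metric.ball_mem_nhds (0 : E3) (by norm_num : (0 : ℝ) < 1 / 2)] with y hy
  exact dif_near0 w (mem_ball_zero_iff.1 hy).le

private theorem dif_P_diff (w : Xs) : Differentiable ℝ (difP (wS w.1)) := by
  intro y
  by_cases hy : y = 0
  · subst hy
    exact ((differentiableAt_const (0 : E3)).congr_of_eventuallyEq (dif_P0 (wS w.1)))
  · exact (dif_P w hy).differentiableAt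

private theorem dif_P_bd (C : ℝ) (hC : ∀ r, |deriv chi r| ≤ C) (w : Xs) (y : E3) :
    ‖fderiv ℝ (difP (wS w.1)) y‖ ≤ (3 + 3 * C) * ‖w‖ := by
  have hC0 : 0 ≤ C := (abs_nonneg _).trans (hC 0)
  by_cases hy : y = 0
  · subst hy
    rw [(dif_P0 (wS w.1)).fderiv_eq]
    simp only [fderiv_fun_const, Pi.zero_apply, norm_zero]
    positivity
  · rw [(dif_P w hy).fderiv]
    exact dif_Lbd C hC w hy

private theorem dif_P_contDiff (w : Xs) : ContDiff ℝ 1 (difP (wS w.1)) := by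
  rw [contDiff_iff_contDiffAt]
  intro y
  by_cases hy : y = 0
  · subst hy
    exact contDiffAt_const.congr_of_eventuallyEq (dif_P0 (wS w.1))
  · have h1 : ContDiffAt ℝ 1 (fun z : E3 => wS w.1 (dirS z)) y := by
      rw [contDiffAt_one_iff]
      refine ⟨fun z => innerSL ℝ (‖z‖⁻¹ • difG w.1 z), {0}ᶜ,
        isOpen_compl_singleton.mem_nhds hy, ?_, fun z hz => dif_w w hz⟩
      have h2 : ContinuousOn (difG w.1) {0}ᶜ := by
        have h3 : ∀ k : Fin 3, ContinuousOn (fun z : E3 => w.1 k.succ (toOm (dirS z))) {0}ᶜ :=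
          fun k => (w.2.2.1.1 k).comp_continuousOn continuousOn_dirS
        have h4 : ContinuousOn (fun z : E3 => (fun k : Fin 3 => w.1 k.succ (toOm (dirS z)))) {0}ᶜ :=
          continuousOn_pi.2 h3
        exact (PiLp.continuous_toLp 2 (fun _ : Fin 3 => ℝ)).comp_continuousOn h4
      have h5 : ContinuousOn (fun z : E3 => ‖z‖⁻¹ • difG w.1 z) {0}ᶜ := by
        refine ContinuousOn.smul (ContinuousOn.inv₀ continuous_norm.continuousOn ?_) h2
        intro z hz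
        exact norm_ne_zero_iff.2 hz
      exact (innerSL ℝ (E := E3)).continuous.comp_continuousOn h5
    have h6 : ContDiffAt ℝ 1 (fun z : E3 => chi ‖z‖) y :=
      (chi_smooth.contDiffAt.of_le (by decide)).comp y (contDiffAt_norm ℝ hy)
    exact (h6.mul h1).smul contDiffAt_id

private theorem dif_det_pos (m : M3) (hm : ∀ i j, |m i j - dl i j| ≤ 1 / 10) : 0 < det3 m := by
  have h : ∀ i j, -(1 / 10) ≤ m i j - dl i j ∧ m i j - dl i j ≤ 1 / 10 := fun i j =>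
    abs_le.1 (hm i j)
  have h00 := h 0 0
  have h11 := h 1 1
  have h22 := h 2 2
  have h01 := hm 0 1
  have h02 := hm 0 2
  have h10 := hm 1 0
  have h12 := hm 1 2
  have h20 := hm 2 0
  have h21 := hm 2 1
  simp only [dl, if_true] at h00 h11 h22
  simp only [dl, (by decide : (0 : Fin 3) ≠ 1), (by decide : (0 : Fin 3) ≠ 2),
    (by decide : (1 : Fin 3) ≠ 0), (by decide : (1 : Fin 3) ≠ 2), (by decide : (2 : Fin 3) ≠ 0),
    (by decide : (2 : Fin 3) ≠ 1), if_false, sub_zero] at h01 h02 h10 h12 h20 h21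
  have a1 : 9 / 10 ≤ m 0 0 := by linarith
  have a2 : m 0 0 ≤ 11 / 10 := by linarith
  have b1 : 9 / 10 ≤ m 1 1 := by linarith
  have b2 : m 1 1 ≤ 11 / 10 := by linarith
  have c1 : 9 / 10 ≤ m 2 2 := by linarith
  have c2 : m 2 2 ≤ 11 / 10 := by linarith
  have t0 : 729 / 1000 ≤ m 0 0 * m 1 1 * m 2 2 := by
    have : 81 / 100 ≤ m 0 0 * m 1 1 := by nlinarith
    nlinarith
  have key : ∀ a b c : ℝ, |a| ≤ 11 / 10 → |b| ≤ 1 / 10 → |c| ≤ 1 / 10 → |a * b * c| ≤ 11 / 1000 := by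
    intro a b c ha hb hc
    rw [abs_mul, abs_mul]
    calc |a| * |b| * |c| ≤ 11 / 10 * (1 / 10) * (1 / 10) := by
          apply mul_le_mul (mul_le_mul ha hb (abs_nonneg _) (by norm_num)) hc (abs_nonneg _)
            (by norm_num)
      _ = 11 / 1000 := by norm_num
  have A0 : |m 0 0| ≤ 11 / 10 := abs_le.2 ⟨by linarith, a2⟩
  have A1 : |m 1 1| ≤ 11 / 10 := abs_le.2 ⟨by linarith, b2⟩
  have A2 : |m 2 2| ≤ 11 / 10 := abs_le.2 ⟨by linarith, c2⟩
  have t1 := (abs_le.1 (key _ _ _ A0 h12 h21)).2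
  have t2 := (abs_le.1 (key _ _ _ A2 h01 h10)).2
  have t3 := (abs_le.1 (key _ _ _ A1 h02 h20)).2
  have t4 := (abs_le.1 (key (m 0 1) _ _ (h01.trans (by norm_num)) h12 h20)).1
  have t5 := (abs_le.1 (key (m 0 2) _ _ (h02.trans (by norm_num)) h10 h21)).1
  have e : det3 m = m 0 0 * m 1 1 * m 2 2 - m 0 0 * m 1 2 * m 2 1 - m 2 2 * m 0 1 * m 1 0 +
      m 0 1 * m 1 2 * m 2 0 + m 0 2 * m 1 0 * m 2 1 - m 1 1 * m 0 2 * m 2 0 := by
    rw [det3, Matrix.det_fin_three]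
    simp only [Matrix.of_apply]
    ring
  rw [e]
  linarith

theorem Psi_homeo : ∃ δ : ℝ, 0 < δ ∧ ∀ w : Xs, ‖w‖ ≤ δ → ∃ Φ : E3 ≃ₜ E3,
    (∀ y, Φ y = Psi (wS w.1) y) ∧ IsGD Φ ∧ (∀ y, 3 ≤ ‖y‖ → Φ y = y) ∧
    (∀ y, (1 / 2) * ‖y‖ ≤ ‖Φ y‖) ∧
    Φ '' Metric.closedBall 0 1 = starR 0 1 (wS w.1) ∧ Φ '' Ext = (starR 0 1 (wS w.1))ᶜ := by
  obtain ⟨C, hC0, hC⟩ := chi_deriv_bdd
  refine ⟨1 / (10 * (3 + 3 * C)), by positivity, fun w hw => ?_⟩
  have hK : (3 + 3 * C) * ‖w‖ ≤ 1 / 10 := by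
    have h1 : (3 + 3 * C) * ‖w‖ ≤ (3 + 3 * C) * (1 / (10 * (3 + 3 * C))) :=
      mul_le_mul_of_nonneg_left hw (by positivity)
    refine h1.trans (le_of_eq ?_)
    field_simp
  have hn0 : 0 ≤ ‖w‖ := norm_nonneg w
  have hn1 : ‖w‖ ≤ 1 / 10 := by nlinarith
  have hfd : ∀ y, ‖fderiv ℝ (difP (wS w.1)) y‖ ≤ 1 / 10 := fun y =>
    (dif_P_bd C hC w y).trans hK
  have hlip : LipschitzWith (1 / 10) (difP (wS w.1)) := by
    apply lipschitzWith_of_nnnorm_fderiv_le (𝕜 := ℝ) (dif_P_diff w)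
    intro y
    rw [← NNReal.coe_le_coe]
    have := hfd y
    simpa using this
  have hPsi : Psi (wS w.1) = fun y => y + difP (wS w.1) y := funext (Psi_eq (wS w.1))
  have happ : ApproximatesLinearOn (Psi (wS w.1))
      ((ContinuousLinearEquiv.refl ℝ E3 : E3 ≃L[ℝ] E3) : E3 →L[ℝ] E3) univ (1 / 10 : NNReal) := by
    intro x _ y _
    have h1 := hlip.dist_le_mul x y
    rw [dist_eq_norm, dist_eq_norm] at h1
    have h2 : Psi (wS w.1) x - Psi (wS w.1) y -
        ((ContinuousLinearEquiv.refl ℝ E3 : E3 ≃L[ℝ] E3) : E3 →L[ℝ] E3) (x - y) =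
        difP (wS w.1) x - difP (wS w.1) y := by
      rw [Psi_eq, Psi_eq]
      simp
      abel
    rw [h2]
    exact h1
  have hsmall : Subsingleton E3 ∨ (1 / 10 : NNReal) <
      ‖((ContinuousLinearEquiv.refl ℝ E3 : E3 ≃L[ℝ] E3).symm : E3 →L[ℝ] E3)‖₊⁻¹ := by
    right
    have : ‖((ContinuousLinearEquiv.refl ℝ E3 : E3 ≃L[ℝ] E3).symm : E3 →L[ℝ] E3)‖₊ = 1 := by
      simp
    rw [this]
    rw [inv_one, ← NNReal.coe_lt_coe]
    norm_num
  let Φ : E3 ≃ₜ E3 := happ.toHomeomorph (Psi (wS w.1)) hsmall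
  have hΦ : ∀ y, Φ y = Psi (wS w.1) y := fun y => rfl
  have hΦfun : (Φ : E3 → E3) = fun y => y + difP (wS w.1) y := by
    funext y
    rw [hΦ, Psi_eq]
  have hder : ∀ y, HasFDerivAt (Φ : E3 → E3)
      (ContinuousLinearMap.id ℝ E3 + fderiv ℝ (difP (wS w.1)) y) y := by
    intro y
    rw [hΦfun]
    exact (hasFDerivAt_id y).add (dif_P_diff w y).hasFDerivAt
  have hfin : ∀ y v, ‖fderiv ℝ (difP (wS w.1)) y v‖ ≤ 1 / 10 * ‖v‖ := fun y v =>
    ((fderiv ℝ (difP (wS w.1)) y).le_opNorm v).trans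
      (mul_le_mul_of_nonneg_right (hfd y) (norm_nonneg v))
  have hw0 : ∀ θ : S2, |wS w.1 θ| ≤ 1 / 10 := fun θ =>
    (dif_wbd w 0 (toOm θ)).trans hn1
  have hball : Φ '' Metric.closedBall 0 1 = starR 0 1 (wS w.1) := by
    ext x
    constructor
    · rintro ⟨y, hy, rfl⟩
      rw [mem_closedBall_zero_iff] at hy
      by_cases h0 : y = 0
      · refine ⟨0, dirS y, le_rfl, zero_le_one, ?_⟩
        rw [hΦ, Psi, h0]
        simp
      · set θ := dirS y with hθ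
        set r := ‖y‖ with hr
        have hyr : r • (θ : E3) = y := norm_smul_dirS h0
        have hr0 : 0 < r := norm_pos_iff.2 h0
        have h1w : 0 < 1 + wS w.1 θ := by linarith [(abs_le.1 (hw0 θ)).1]
        have hp : 0 < 1 + chi r * wS w.1 θ := by
          have h1 : |chi r * wS w.1 θ| ≤ 1 / 10 := by
            rw [abs_mul, abs_of_nonneg (chi_nonneg r)]
            nlinarith [chi_nonneg r, chi_le_one r, abs_nonneg (wS w.1 θ), hw0 θ]
          linarith [(abs_le.1 h1).1]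
        have hmono : (1 + chi r * wS w.1 θ) * r ≤ 1 + wS w.1 θ := by
          -- Lipschitz bound of `difP` along the ray
          have h2 := hlip.dist_le_mul (r • (θ : E3)) (θ : E3)
          have e1 : difP (wS w.1) (r • (θ : E3)) = (r * (chi r * wS w.1 θ)) • (θ : E3) := by
            rw [difP, dirS_smul_S2 θ hr0, norm_smul, norm_S2, mul_one,
              Real.norm_of_nonneg hr0.le, smul_smul]
            ring_nf
          have e2 : difP (wS w.1) (θ : E3) = (wS w.1 θ) • (θ : E3) := by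
            rw [difP, dirS_S2, norm_S2, chi_eq_one (by norm_num) (by norm_num), one_mul]
          rw [e1, e2, dist_eq_norm, dist_eq_norm, ← sub_smul, norm_smul, norm_S2, mul_one,
            Real.norm_eq_abs] at h2
          have e3 : r • (θ : E3) - (θ : E3) = (r - 1) • (θ : E3) := by
            rw [sub_smul, one_smul]
          rw [e3, norm_smul, norm_S2, mul_one, Real.norm_eq_abs,
            abs_of_nonpos (by linarith : r - 1 ≤ 0)] at h2
          have h3 := (abs_le.1 h2).2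
          have h4 : (((1 / 10 : NNReal) : ℝ)) = 1 / 10 := by norm_num
          rw [h4] at h3
          nlinarith
        refine ⟨(1 + chi r * wS w.1 θ) * r / (1 + wS w.1 θ), θ, by positivity, ?_, ?_⟩
        · rw [div_le_one h1w]; exact hmono
        · rw [hΦ, Psi, zero_add, ← hθ, ← hr]
          conv_lhs => rw [← hyr]
          rw [smul_smul]
          congr 1
          field_simp
    · rintro ⟨s, θ, hs0, hs1, hx⟩
      -- intermediate value theorem along the ray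
      have hcont : Continuous (fun r : ℝ => r * (1 + chi r * wS w.1 θ)) := by
        have := chi_smooth.continuous
        fun_prop
      have h1w : 0 < 1 + wS w.1 θ := by linarith [(abs_le.1 (hw0 θ)).1]
      have hmem : s * (1 + wS w.1 θ) ∈ Icc ((fun r : ℝ => r * (1 + chi r * wS w.1 θ)) 0)
          ((fun r : ℝ => r * (1 + chi r * wS w.1 θ)) 1) := by
        simp only [zero_mul, one_mul]
        rw [chi_eq_one (by norm_num) (by norm_num), one_mul]
        exact ⟨by positivity, by nlinarith⟩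
      obtain ⟨r, hr, hrs⟩ := intermediate_value_Icc zero_le_one hcont.continuousOn hmem
      refine ⟨r • (θ : E3), ?_, ?_⟩
      · rw [mem_closedBall_zero_iff, norm_smul, norm_S2, mul_one, Real.norm_of_nonneg hr.1]
        exact hr.2
      · rcases eq_or_lt_of_le hr.1 with h0 | hpos
        · rw [← h0] at hrs
          simp only [zero_mul] at hrs
          rw [hΦ, Psi, ← h0, hx]
          simp only [zero_smul, smul_zero, mul_one]
          rw [← hrs, zero_smul, zero_add]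
        · rw [hΦ, Psi, dirS_smul_S2 θ hpos, norm_smul, norm_S2, mul_one,
            Real.norm_of_nonneg hr.1, hx, smul_smul, zero_add]
          congr 1
          simp only at hrs
          rw [mul_one, ← hrs]
          ring
  refine ⟨Φ, hΦ, ⟨?_, ?_, ?_⟩, ?_, ?_, hball, ?_⟩
  · rw [hΦfun]
    exact contDiff_id.add (dif_P_contDiff w)
  · intro y
    apply dif_det_pos
    intro i j
    rw [DM, (hder y).fderiv]
    have h1 : (ContinuousLinearMap.id ℝ E3 + fderiv ℝ (difP (wS w.1)) y) (bv j) i - dl i j =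
        fderiv ℝ (difP (wS w.1)) y (bv j) i := by
      have : (bv j) i = (dl i j : ℝ) := by
        simp [bv, dl]
      simp [this]
    rw [h1]
    have h2 := hfin y (bv j)
    have h3 : ‖bv j‖ = 1 := by simp [bv]
    rw [h3, mul_one] at h2
    exact (PiLp.norm_apply_le _ i).trans h2
  · refine ⟨2, fun y v => ?_⟩
    rw [(hder y).fderiv]
    have h1 : (ContinuousLinearMap.id ℝ E3 + fderiv ℝ (difP (wS w.1)) y) v =
        v + fderiv ℝ (difP (wS w.1)) y v := rfl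
    rw [h1]
    have h2 := hfin y v
    have h3 := norm_add_le v (fderiv ℝ (difP (wS w.1)) y v)
    have h4 := norm_sub_le (v + fderiv ℝ (difP (wS w.1)) y v) (fderiv ℝ (difP (wS w.1)) y v)
    rw [add_sub_cancel_right] at h4
    constructor <;> linarith [norm_nonneg v]
  · intro y hy
    rw [hΦ, Psi, chi_eq_zero_right hy, zero_mul, add_zero, one_smul]
  · intro y
    rw [hΦ, Psi, norm_smul]
    have h1 : |chi ‖y‖ * wS w.1 (dirS y)| ≤ 1 / 10 := by
      rw [abs_mul, abs_of_nonneg (chi_nonneg _)]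
      nlinarith [chi_nonneg ‖y‖, chi_le_one ‖y‖, abs_nonneg (wS w.1 (dirS y)), hw0 (dirS y)]
    have h2 : 1 / 2 ≤ ‖1 + chi ‖y‖ * wS w.1 (dirS y)‖ := by
      rw [Real.norm_eq_abs]
      have := le_abs_self (1 + chi ‖y‖ * wS w.1 (dirS y))
      linarith [(abs_le.1 h1).1]
    exact mul_le_mul_of_nonneg_right h2 (norm_nonneg y)
  · rw [← hball]
    have h1 : (Ext : Set E3) = (Metric.closedBall 0 1)ᶜ := by
      ext y
      simp [Ext]
    rw [h1]
    exact image_compl_eq Φ.bijective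

/-- derivative of `Psi` -/
theorem DM_Psi (w : Xs) (y : E3) (hy : y ≠ 0) (i j : Fin 3) :
    DM (Psi (wS w.1)) y i j = (1 + chi ‖y‖ * wS w.1 (dirS y)) * dl i j +
      (dirS y : E3) i * (‖y‖ * deriv chi ‖y‖ * wS w.1 (dirS y) * (dirS y : E3) j +
        chi ‖y‖ * w.1 j.succ (toOm (dirS y))) := by
  have hPsi : Psi (wS w.1) = fun y => y + difP (wS w.1) y := funext (Psi_eq (wS w.1))
  have h1 : HasFDerivAt (Psi (wS w.1)) (ContinuousLinearMap.id ℝ E3 + difL w.1 y) y := by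
    rw [hPsi]
    exact (hasFDerivAt_id y).add (dif_P w hy)
  rw [DM, h1.fderiv]
  have hbv : ∀ k, (bv j) k = (dl k j : ℝ) := fun k => by
    simp [bv, dl]
  have hin : ∀ z : E3, inner ℝ z (bv j) = z j := fun z => by
    simp [bv, EuclideanSpace.inner_single_right]
  have hyn : ‖y‖ ≠ 0 := norm_ne_zero_iff.2 hy
  have hyd : ∀ k, (dirS y : E3) k = ‖y‖⁻¹ * y k := fun k => by
    rw [dirS_coe hy]; simp
  have hGk : difG w.1 y j = w.1 j.succ (toOm (dirS y)) := rfl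
  have e : (ContinuousLinearMap.id ℝ E3 + difL w.1 y) (bv j) i =
      dl i j + (chi ‖y‖ * wS w.1 (dirS y) * dl i j +
      (chi ‖y‖ * (‖y‖⁻¹ * w.1 j.succ (toOm (dirS y))) +
        (wS w.1 (dirS y) * deriv chi ‖y‖) * (‖y‖⁻¹ * y j)) * y i) := by
    simp [difL, hbv, hin, hGk]
  rw [e, hyd i, hyd j]
  field_simp
  ring

end

end Pool.Agent.BS
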