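import Pool.Agent.BS.Defs4

/-!
# Module EL: elementary elements and maps of Y
-/

namespace Pool.Agent.BS

open MeasureTheory Topology Set Filter
open scoped ContDiff

noncomputable section

theorem el_adist_nonneg (x y : Om) : 0 ≤ adist x y := dist_nonneg

theorem el_adist_le_two (x y : Om) : adist x y ≤ 2 := by
  unfold adist
  rw [Subtype.dist_eq, dist_eq_norm]
  refine (norm_sub_le _ _).trans ?_
  rw [norm_S2, norm_S2]
  norm_num

theorem el_le_two_sqrt {d : ℝ} (h0 : 0 ≤ d) (h2 : d ≤ 2) : d ≤ 2 * Real.sqrt d := by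
  have h3 : Real.sqrt d ≤ 2 := by
    rw [show (2 : ℝ) = Real.sqrt 4 by rw [show (4 : ℝ) = 2 ^ 2 by norm_num]; simp]
    exact Real.sqrt_le_sqrt (by linarith)
  nlinarith [Real.mul_self_sqrt h0, Real.sqrt_nonneg d]

theorem el_abs_apply_le (v : E3) (i : Fin 3) : |v i| ≤ ‖v‖ := by
  have := EuclideanSpace.norm_eq v
  rw [this]
  apply Real.le_sqrt_of_sq_le
  have h2 : |v i| ^ 2 = ‖v i‖ ^ 2 := by rw [Real.norm_eq_abs]
  rw [h2]
  exact Finset.single_le_sum (f := fun j => ‖v j‖ ^ 2) (fun _ _ => by positivity)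
    (Finset.mem_univ i)

theorem el_thY_adm (i : Fin 3) : Y.Adm 2 (fun x : Om => (dirS (x : E3) : E3) i) where
  cont := by
    have h1 : Continuous (fun x : Om => ((dirS (x : E3) : S2) : E3)) :=
      continuous_subtype_val.comp continuous_dirOm
    fun_prop
  bdd := fun x => by
    have := el_abs_apply_le (dirS (x : E3) : E3) i
    rw [norm_S2] at this
    linarith
  hol := fun x y _ => by
    have h1 : |(dirS (x : E3) : E3) i - (dirS (y : E3) : E3) i| ≤ adist x y := by
      have := el_abs_apply_le ((dirS (x : E3) : E3) - (dirS (y : E3) : E3)) i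
      unfold adist
      rw [Subtype.dist_eq, dist_eq_norm]
      simpa using this
    exact h1.trans (el_le_two_sqrt (el_adist_nonneg x y) (el_adist_le_two x y))

theorem thY_apply (i : Fin 3) (x : Om) : thY i x = (dirS (x : E3) : E3) i :=
  Y.mk_apply (by norm_num : (0 : ℝ) ≤ 2) (el_thY_adm i) x

theorem chi_smooth : ContDiff ℝ ∞ chi := by
  unfold chi
  have h : ContDiff ℝ ∞ Real.smoothTransition := Real.smoothTransition.contDiff
  exact (h.comp (by fun_prop)).mul (h.comp (by fun_prop))

theorem chi_eq_zero_left {r : ℝ} (h : r ≤ 1 / 2) : chi r = 0 := by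
  unfold chi
  rw [Real.smoothTransition.zero_of_nonpos (by linarith), zero_mul]

theorem chi_eq_one {r : ℝ} (h : 3 / 4 ≤ r) (h' : r ≤ 2) : chi r = 1 := by
  unfold chi
  rw [Real.smoothTransition.one_of_one_le (by linarith),
    Real.smoothTransition.one_of_one_le (by linarith), mul_one]

theorem chi_eq_zero_right {r : ℝ} (h : 3 ≤ r) : chi r = 0 := by
  unfold chi
  rw [Real.smoothTransition.zero_of_nonpos (x := 3 - r) (by linarith), mul_zero]

theorem chi_nonneg (r : ℝ) : 0 ≤ chi r :=
  mul_nonneg (Real.smoothTransition.nonneg _) (Real.smoothTransition.nonneg _)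

theorem chi_le_one (r : ℝ) : chi r ≤ 1 :=
  mul_le_one₀ (Real.smoothTransition.le_one _) (Real.smoothTransition.nonneg _)
    (Real.smoothTransition.le_one _)

theorem el_continuous_deriv_chi : Continuous (deriv chi) :=
  chi_smooth.continuous_deriv (by simp)

theorem el_deriv_chi_left {r : ℝ} (h : r < 1 / 2) : deriv chi r = 0 := by
  have : chi =ᶠ[𝓝 r] fun _ => 0 := by
    filter_upwards [Iio_mem_nhds h] with s hs
    exact chi_eq_zero_left (le_of_lt hs)
  rw [this.deriv_eq, deriv_const]

theorem el_deriv_chi_right {r : ℝ} (h : 3 < r) : deriv chi r = 0 := by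
  have : chi =ᶠ[𝓝 r] fun _ => 0 := by
    filter_upwards [Ioi_mem_nhds h] with s hs
    exact chi_eq_zero_right (le_of_lt hs)
  rw [this.deriv_eq, deriv_const]

theorem chi_deriv_bdd : ∃ C, 0 < C ∧ ∀ r, |deriv chi r| ≤ C := by
  obtain ⟨C, hC⟩ := (isCompact_Icc (a := (1 / 2 : ℝ)) (b := 3)).exists_bound_of_continuousOn
    el_continuous_deriv_chi.continuousOn
  refine ⟨|C| + 1, by positivity, fun r => ?_⟩
  by_cases h1 : r < 1 / 2
  · rw [el_deriv_chi_left h1, abs_zero]; positivity
  by_cases h2 : 3 < r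
  · rw [el_deriv_chi_right h2, abs_zero]; positivity
  · have := hC r ⟨not_lt.1 h1, not_lt.1 h2⟩
    rw [Real.norm_eq_abs] at this
    linarith [le_abs_self C]

theorem el_radial_adm {C : ℝ} {g : ℝ → ℝ} (hC : 0 ≤ C) (hg : Continuous g)
    (hb : ∀ r, 0 ≤ r → |g r| ≤ C) : Y.Adm C (fun x : Om => g ‖(x : E3)‖) where
  cont := hg.comp (continuous_norm.comp continuous_subtype_val)
  bdd := fun x => hb _ (norm_nonneg _)
  hol := fun x y hxy => by
    simp only [hxy, sub_self, abs_zero]
    exact mul_nonneg hC (Real.sqrt_nonneg _)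

theorem chY_apply (x : Om) : chY x = chi ‖(x : E3)‖ :=
  Y.mk_apply zero_le_one (el_radial_adm zero_le_one chi_smooth.continuous
    (fun r _ => by rw [abs_of_nonneg (chi_nonneg r)]; exact chi_le_one r)) x

theorem chpY_apply (x : Om) : chpY x = ‖(x : E3)‖ * deriv chi ‖(x : E3)‖ := by
  obtain ⟨C, hC, hb⟩ := chi_deriv_bdd
  refine Y.mk_apply (C := 3 * C) (by positivity)
    (el_radial_adm (g := fun r => r * deriv chi r) (by positivity)
      (continuous_id.mul el_continuous_deriv_chi) (fun r hr => ?_)) x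
  by_cases h2 : 3 < r
  · simp only [el_deriv_chi_right h2, mul_zero, abs_zero]; positivity
  · simp only [abs_mul, abs_of_nonneg hr]
    exact mul_le_mul (not_lt.1 h2) (hb r) (abs_nonneg _) (by norm_num)

theorem el_adist_toOm (x y : Om) :
    adist (toOm (dirS (x : E3))) (toOm (dirS (y : E3))) = adist x y := by
  unfold adist toOm
  simp only [dirS_S2]

theorem el_norm_toOm (θ : S2) : ‖((toOm θ : Om) : E3)‖ = 1 := norm_S2 θ

theorem el_tr_cont (f : Y) : Continuous (fun x : Om => f (toOm (dirS (x : E3)))) :=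
  f.continuous.comp (continuous_toOm.comp continuous_dirOm)

theorem el_tr_adm (f : Y) : Y.Adm ‖f‖ (fun x : Om => f (toOm (dirS (x : E3)))) where
  cont := el_tr_cont f
  bdd := fun x => f.abs_apply_le _
  hol := fun x y _ => by
    have := f.abs_sub_le (x := toOm (dirS (x : E3))) (y := toOm (dirS (y : E3)))
      (by rw [el_norm_toOm, el_norm_toOm])
    rwa [el_adist_toOm] at this

/-- trace on the unit sphere -/
theorem tr_exists : ∃ tr : Y →L[ℝ] Y, IsTr tr ∧ ∀ f, ‖tr f‖ ≤ ‖f‖ := by
  have happ : ∀ (f : Y) (x : Om), (Y.mk (fun x : Om => f (toOm (dirS (x : E3))))) x =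
      f (toOm (dirS (x : E3))) := fun f x => Y.mk_apply (norm_nonneg f) (el_tr_adm f) x
  let L : Y →ₗ[ℝ] Y :=
    { toFun := fun f => Y.mk (fun x : Om => f (toOm (dirS (x : E3))))
      map_add' := fun f g => by
        apply Y.ext
        intro x
        rw [Y.add_apply, happ, happ, happ, Y.add_apply]
      map_smul' := fun c f => by
        apply Y.ext
        intro x
        rw [RingHom.id_apply, Y.smul_apply, happ, happ, Y.smul_apply] }
  have hL : ∀ f x, L f x = f (toOm (dirS (x : E3))) := fun f x => happ f x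
  have hn : ∀ f, ‖L f‖ ≤ 1 * ‖f‖ := by
    intro f
    rw [one_mul, Y.norm_def, Y.norm_def]
    have h1 : ‖(L f).toB‖ ≤ ‖f.toB‖ := by
      refine (BoundedContinuousFunction.norm_le (norm_nonneg _)).2 (fun x => ?_)
      have : (L f).toB x = f (toOm (dirS (x : E3))) := hL f x
      rw [this]
      exact f.toB.norm_coe_le_norm _
    have h2 : (L f).hs ≤ f.hs := by
      refine Y.hs_le f.hs_nonneg (fun x y _ => ?_)
      rw [hL, hL]
      have := Y.holC_hs f (toOm (dirS (x : E3))) (toOm (dirS (y : E3)))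
        (by rw [el_norm_toOm, el_norm_toOm])
      rwa [el_adist_toOm] at this
    exact add_le_add h1 h2
  refine ⟨L.mkContinuous 1 hn, fun f x => ?_, fun f => ?_⟩
  · exact hL f x
  · have := hn f
    rw [one_mul] at this
    exact this

/-- trace on the unit sphere, extended radially constant -/
def trY : Y →L[ℝ] Y := Classical.choose tr_exists

theorem trY_apply (f : Y) (x : Om) : trY f x = f (toOm (dirS (x : E3))) :=
  (Classical.choose_spec tr_exists).1 f x

theorem trY_norm (f : Y) : ‖trY f‖ ≤ ‖f‖ := (Classical.choose_spec tr_exists).2 f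

theorem oext_continuousOn (f : Y) : ContinuousOn (oext f) {0}ᶜ := by
  have hm : ∀ x : ({0}ᶜ : Set E3), 1 ≤ ‖(max 1 ‖(x : E3)‖) • ((dirS (x : E3) : S2) : E3)‖ := by
    intro x
    rw [norm_smul, norm_S2, mul_one, Real.norm_of_nonneg (le_trans zero_le_one (le_max_left _ _))]
    exact le_max_left _ _
  have hd : Continuous (fun x : ({0}ᶜ : Set E3) => dirS (x : E3)) :=
    continuousOn_iff_continuous_domRestrict.1 continuousOn_dirS
  rw [continuousOn_iff_continuous_domRestrict]
  have hc : Continuous (fun x : ({0}ᶜ : Set E3) =>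
      (⟨(max 1 ‖(x : E3)‖) • ((dirS (x : E3) : S2) : E3), hm x⟩ : Om)) :=
    Continuous.subtype_mk ((continuous_const.max (continuous_norm.comp
      continuous_subtype_val)).smul (continuous_subtype_val.comp hd)) hm
  refine (f.continuous.comp hc).congr (fun x => ?_)
  have hx0 : (x : E3) ≠ 0 := x.2
  simp only [Function.comp_apply, Set.domRestrict_apply]
  unfold oext
  by_cases h : 1 ≤ ‖(x : E3)‖
  · rw [dif_pos h]
    congr 1
    apply Subtype.ext
    show (max 1 ‖(x : E3)‖) • ((dirS (x : E3) : S2) : E3) = (x : E3)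
    rw [max_eq_right h, norm_smul_dirS hx0]
  · rw [dif_neg h]
    congr 1
    apply Subtype.ext
    show (max 1 ‖(x : E3)‖) • ((dirS (x : E3) : S2) : E3) = ((dirS (x : E3) : S2) : E3)
    rw [max_eq_left (not_le.1 h).le, one_smul]

end

end Pool.Agent.BS
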