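import Pool.Agent.BS.PoiC

/-!
# The Poisson semigroup PD and derived objects
-/

namespace Pool.Agent.BS

open MeasureTheory Topology Set Filter
open scoped ContDiff

noncomputable section

theorem poisson_nonempty : Nonempty PoissonData := by
  obtain ⟨C1, h1, p1⟩ := PoM_decay
  obtain ⟨C2, h2, p2⟩ := DkM_norm
  obtain ⟨C3, h3, p3⟩ := PoM_lip
  obtain ⟨C4, h4, p4⟩ := DkM_hol
  obtain ⟨C5, h5, p5⟩ := LaM_hol
  have hm1 : C1 ≤ C1 + C2 + C3 + C4 + C5 := by linarith
  have hm2 : C2 ≤ C1 + C2 + C3 + C4 + C5 := by linarith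
  have hm3 : C3 ≤ C1 + C2 + C3 + C4 + C5 := by linarith
  have hm4 : C4 ≤ C1 + C2 + C3 + C4 + C5 := by linarith
  have hm5 : C5 ≤ C1 + C2 + C3 + C4 + C5 := by linarith
  refine ⟨{ Po := PoM, Dk := DkM, La := LaM, C0 := C1 + C2 + C3 + C4 + C5, C0_pos := by positivity
            po_nonpos := fun τ h => PoM_nonpos h
            po_add := PoM_add
            po_norm := PoM_norm
            po_one := PoM_one
            po_cont := PoM_cont
            po_symm := PoM_symm
            po_xi := PoM_xi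
            po_deriv := PoM_deriv
            dk_add := fun k σ τ h h' => (DkM_add k σ τ h h').1
            dk_add' := fun k σ τ h h' => (DkM_add k σ τ h h').2
            la_add := fun σ τ h h' => (LaM_add σ τ h h').1
            la_add' := fun σ τ h h' => (LaM_add σ τ h h').2
            lap := PoM_lap
            dk_norm := fun k τ f h => ((p2 k τ f h).1).trans (by gcongr)
            la_norm := fun τ f h => ((p2 0 τ f h).2).trans (by gcongr)
            po_lip := fun τ f θ η h => (p3 τ f θ η h).trans (by gcongr)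
            dk_hol := fun k τ f A h hA hf => (p4 k τ f A h hA hf).trans (by gcongr)
            la_hol := fun τ f A h hA hf => (p5 τ f A h hA hf).trans (by gcongr)
            po_decay := fun τ f h hf => ((p1 τ f h hf).1).trans (by gcongr)
            po_decay2 := fun τ f h hf hf' => ((p1 τ f h hf).2 hf').trans (by gcongr)
            po_c1 := PoM_c1
            dk_perp := DkM_perp
            dk_comm := DkM_comm
            dk_skew := DkM_skew
            la_symm := LaM_symm }⟩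

/-- the Poisson semigroup used everywhere -/
def PD : PoissonData := Classical.choice poisson_nonempty

/-- `J(t) = ∫_0^∞ e^{-s} [(1+Λ)P(s) f(t+s) + Σ_k L_k P(s) g_k(t+s)] ds` -/
def Jc (F : Fin 3 → Y) (t : ℝ) : C(S2, ℝ) :=
  ∫ s in Ioi (0 : ℝ), Real.exp (-s) • (PD.Po s (sl (frad F) (t + s)) +
    PD.La s (sl (frad F) (t + s)) + ∑ k, PD.Dk k s (sl (ftan F k) (t + s)))

/-- `μ = J - f` -/
def muc (F : Fin 3 → Y) (t : ℝ) : C(S2, ℝ) := Jc F t - sl (frad F) t

/-- `ν(t) = ∫_0^t P(s) μ(t-s) ds` -/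
def nuc (F : Fin 3 → Y) (t : ℝ) : C(S2, ℝ) := ∫ s in (0 : ℝ)..t, PD.Po s (muc F (t - s))

/-- `L_k ν` -/
def lnc (F : Fin 3 → Y) (k : Fin 3) (t : ℝ) : C(S2, ℝ) :=
  ∫ s in (0 : ℝ)..t, PD.Dk k s (muc F (t - s))

/-- `Λ ν` -/
def lac (F : Fin 3 → Y) (t : ℝ) : C(S2, ℝ) := ∫ s in (0 : ℝ)..t, PD.La s (muc F (t - s))

/-- `Λ₀ w = - Σ_k ∫_0^∞ e^{-s} L_k P(s) (L_k w) ds` -/
def Lam0 (w : Fin 4 → Y) : C(S2, ℝ) :=
  -∑ k, ∫ s in Ioi (0 : ℝ), Real.exp (-s) • PD.Dk k s (sl (LX w k) 0)

end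

end Pool.Agent.BS
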