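import Pool.Agent.BS.Poi
import Pool.Agent.BS.El

/-!
# Common facts for the modules TL1 and TLIN: continuity and integrability
-/

namespace Pool.Agent.BS

open MeasureTheory Topology Set Filter
open scoped ContDiff

noncomputable section

theorem tint_ray_cont : Continuous (fun p : ℝ × S2 => ray p.1 p.2) :=
  Continuous.subtype_mk (f := fun p : ℝ × S2 => Real.exp (max p.1 0) • (p.2 : E3)) (by fun_prop) _

theorem tint_sl_cont (f : Y) : Continuous (fun t => sl f t) := by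
  refine ContinuousMap.continuous_of_continuous_uncurry _ ?_
  exact f.continuous.comp tint_ray_cont

theorem tint_sl_apply (f : Y) (t : ℝ) (θ : S2) : sl f t θ = f (ray t θ) := rfl

theorem tint_dirS_ray (t : ℝ) (θ : S2) : dirS ((ray t θ : Om) : E3) = θ :=
  dirS_smul_S2 θ (Real.exp_pos _)

theorem tint_norm_ray (t : ℝ) (θ : S2) : ‖((ray t θ : Om) : E3)‖ = Real.exp (max t 0) := by
  show ‖Real.exp (max t 0) • (θ : E3)‖ = _
  rw [norm_smul, norm_S2, mul_one, Real.norm_of_nonneg (Real.exp_pos _).le]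

theorem tint_sl_norm (f : Y) (t : ℝ) : ‖sl f t‖ ≤ ‖f‖ :=
  (ContinuousMap.norm_le _ (norm_nonneg f)).2 (fun θ => f.abs_apply_le _)

theorem tint_sl_hol (f : Y) (t : ℝ) (θ η : S2) :
    |sl f t θ - sl f t η| ≤ ‖f‖ * Real.sqrt (dist θ η) := by
  have h := f.abs_sub_le (x := ray t θ) (y := ray t η) (by rw [tint_norm_ray, tint_norm_ray])
  have h2 : adist (ray t θ) (ray t η) = dist θ η := by
    unfold adist
    rw [tint_dirS_ray, tint_dirS_ray]
  rw [h2] at h
  exact h

theorem tint_po_cont : Continuous (fun p : ℝ × C(S2, ℝ) => PD.Po p.1 p.2) := by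
  rw [continuous_iff_continuousAt]
  rintro ⟨τ₀, g₀⟩
  rw [ContinuousAt, tendsto_iff_norm_sub_tendsto_zero]
  have h1 : Tendsto (fun p : ℝ × C(S2, ℝ) => ‖p.2 - g₀‖ + ‖PD.Po p.1 g₀ - PD.Po τ₀ g₀‖)
      (𝓝 (τ₀, g₀)) (𝓝 (‖g₀ - g₀‖ + ‖PD.Po τ₀ g₀ - PD.Po τ₀ g₀‖)) := by
    have hc : Continuous (fun p : ℝ × C(S2, ℝ) => ‖p.2 - g₀‖ + ‖PD.Po p.1 g₀ - PD.Po τ₀ g₀‖) := by
      have := PD.po_cont g₀
      exact ((continuous_snd.sub continuous_const).norm).add
        (((this.comp continuous_fst).sub continuous_const).norm)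
    exact hc.tendsto (τ₀, g₀)
  simp only [sub_self, norm_zero, add_zero] at h1
  refine squeeze_zero (fun _ => norm_nonneg _) (fun p => ?_) h1
  have : PD.Po p.1 p.2 - PD.Po τ₀ g₀ = PD.Po p.1 (p.2 - g₀) + (PD.Po p.1 g₀ - PD.Po τ₀ g₀) := by
    rw [map_sub]; abel
  rw [this]
  exact (norm_add_le _ _).trans (add_le_add (PD.po_norm _ _) le_rfl)

theorem tint_dk_contOn (k : Fin 3) (u : ℝ → C(S2, ℝ)) (hu : Continuous u) :
    ContinuousOn (fun s => PD.Dk k s (u s)) (Ioi 0) := by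
  intro s₀ hs₀
  have hs₀' : 0 < s₀ / 2 := half_pos hs₀
  have h1 : Continuous (fun s => PD.Dk k (s₀ / 2) (PD.Po (s - s₀ / 2) (u s))) :=
    (PD.Dk k (s₀ / 2)).continuous.comp
      (tint_po_cont.comp ((continuous_id.sub continuous_const).prodMk hu))
  refine ContinuousAt.continuousWithinAt (h1.continuousAt.congr ?_)
  have : ∀ᶠ s in 𝓝 s₀, s₀ / 2 < s := eventually_gt_nhds (half_lt_self hs₀)
  filter_upwards [this] with s hs
  have h2 : PD.Dk k s = PD.Dk k (s₀ / 2 + (s - s₀ / 2)) := by congr 1; ring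
  rw [h2, PD.dk_add k _ _ hs₀' (by linarith)]
  rfl

theorem tint_la_contOn (u : ℝ → C(S2, ℝ)) (hu : Continuous u) :
    ContinuousOn (fun s => PD.La s (u s)) (Ioi 0) := by
  intro s₀ hs₀
  have hs₀' : 0 < s₀ / 2 := half_pos hs₀
  have h1 : Continuous (fun s => PD.La (s₀ / 2) (PD.Po (s - s₀ / 2) (u s))) :=
    (PD.La (s₀ / 2)).continuous.comp
      (tint_po_cont.comp ((continuous_id.sub continuous_const).prodMk hu))
  refine ContinuousAt.continuousWithinAt (h1.continuousAt.congr ?_)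
  have : ∀ᶠ s in 𝓝 s₀, s₀ / 2 < s := eventually_gt_nhds (half_lt_self hs₀)
  filter_upwards [this] with s hs
  have h2 : PD.La s = PD.La (s₀ / 2 + (s - s₀ / 2)) := by congr 1; ring
  rw [h2, PD.la_add _ _ hs₀' (by linarith)]
  rfl

/-- the majorant `e^{-s} (1 + s^{-1/2})` -/
theorem tint_major : IntegrableOn (fun s : ℝ => Real.exp (-s) * (1 + (Real.sqrt s)⁻¹)) (Ioi 0) := by
  have h1 := Real.GammaIntegral_convergent (s := 1) one_pos
  have h2 := Real.GammaIntegral_convergent (s := 1 / 2) (by norm_num)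
  have h3 := h1.add h2
  refine h3.congr_fun (fun s hs => ?_) measurableSet_Ioi
  have hs' : (0 : ℝ) < s := hs
  simp only [Pi.add_apply]
  rw [sub_self, Real.rpow_zero, mul_one, mul_add, mul_one]
  congr 2
  rw [show (1 / 2 - 1 : ℝ) = -(1 / 2) by norm_num, Real.rpow_neg hs'.le, Real.sqrt_eq_rpow]

theorem tint_exp_le_one {s : ℝ} (h : 0 < s) : Real.exp (-s) ≤ 1 := by
  rw [Real.exp_le_one_iff]; linarith

theorem tint_bd {K : ℝ → (C(S2, ℝ) →L[ℝ] C(S2, ℝ))}
    (hK : ∀ τ (f : C(S2, ℝ)) A, 0 < τ → 0 ≤ A → (∀ θ η, |f θ - f η| ≤ A * Real.sqrt (dist θ η)) →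
      ‖K τ f‖ ≤ PD.C0 * (1 + (Real.sqrt τ)⁻¹) * Real.exp (-τ) * A)
    (hc : ∀ u : ℝ → C(S2, ℝ), Continuous u → ContinuousOn (fun s => K s (u s)) (Ioi 0))
    (f : Y) (t : ℝ) :
    IntegrableOn (fun s : ℝ => Real.exp (-s) • K s (sl f (t + s))) (Ioi 0) := by
  refine Integrable.mono' (tint_major.const_mul (PD.C0 * ‖f‖)) ?_ ?_
  · refine ContinuousOn.aestronglyMeasurable ?_ measurableSet_Ioi
    refine ContinuousOn.smul (Real.continuous_exp.comp continuous_neg).continuousOn (hc _ ?_)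
    exact (tint_sl_cont f).comp (continuous_const.add continuous_id)
  · refine (ae_restrict_iff' measurableSet_Ioi).2 (Eventually.of_forall (fun s hs => ?_))
    have hs' : (0 : ℝ) < s := hs
    have h1 := hK s (sl f (t + s)) ‖f‖ hs' (norm_nonneg _) (tint_sl_hol f (t + s))
    rw [norm_smul, Real.norm_of_nonneg (Real.exp_pos _).le]
    have h2 : PD.C0 * (1 + (Real.sqrt s)⁻¹) * Real.exp (-s) * ‖f‖ ≤
        PD.C0 * (1 + (Real.sqrt s)⁻¹) * 1 * ‖f‖ := by
      have := PD.C0_pos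
      gcongr
      exact tint_exp_le_one hs'
    calc Real.exp (-s) * ‖K s (sl f (t + s))‖
        ≤ Real.exp (-s) * (PD.C0 * (1 + (Real.sqrt s)⁻¹) * 1 * ‖f‖) :=
          mul_le_mul_of_nonneg_left (h1.trans h2) (Real.exp_pos _).le
      _ = PD.C0 * ‖f‖ * (Real.exp (-s) * (1 + (Real.sqrt s)⁻¹)) := by ring

theorem tint_dk (k : Fin 3) (f : Y) (t : ℝ) :
    IntegrableOn (fun s : ℝ => Real.exp (-s) • PD.Dk k s (sl f (t + s))) (Ioi 0) :=
  tint_bd (PD.dk_hol k) (tint_dk_contOn k) f t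

theorem tint_la (f : Y) (t : ℝ) :
    IntegrableOn (fun s : ℝ => Real.exp (-s) • PD.La s (sl f (t + s))) (Ioi 0) :=
  tint_bd PD.la_hol tint_la_contOn f t

theorem tint_exp : IntegrableOn (fun s : ℝ => Real.exp (-s)) (Ioi 0) := by
  have h1 := Real.GammaIntegral_convergent (s := 1) one_pos
  refine h1.congr_fun (fun s _ => ?_) measurableSet_Ioi
  simp only
  rw [sub_self, Real.rpow_zero, mul_one]

theorem tint_po (f : Y) (t : ℝ) :
    IntegrableOn (fun s : ℝ => Real.exp (-s) • PD.Po s (sl f (t + s))) (Ioi 0) := by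
  refine Integrable.mono' (tint_exp.const_mul ‖f‖) ?_ ?_
  · refine ContinuousOn.aestronglyMeasurable ?_ measurableSet_Ioi
    refine ContinuousOn.smul (Real.continuous_exp.comp continuous_neg).continuousOn ?_
    have h2 : Continuous (fun s => sl f (t + s)) :=
      (tint_sl_cont f).comp (continuous_const.add continuous_id)
    exact (tint_po_cont.comp (continuous_id.prodMk h2)).continuousOn
  · refine (ae_restrict_iff' measurableSet_Ioi).2 (Eventually.of_forall (fun s hs => ?_))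
    rw [norm_smul, Real.norm_of_nonneg (Real.exp_pos _).le, mul_comm]
    exact mul_le_mul_of_nonneg_right ((PD.po_norm _ _).trans (tint_sl_norm _ _))
      (Real.exp_pos _).le

theorem tint_add {E : Type*} [NormedAddCommGroup E] {f g : ℝ → E} {S : Set ℝ}
    (hf : IntegrableOn f S) (hg : IntegrableOn g S) : IntegrableOn (fun x => f x + g x) S :=
  Integrable.add hf hg

theorem tint_sum {E : Type*} [NormedAddCommGroup E] {f : Fin 3 → ℝ → E} {S : Set ℝ}
    (h : ∀ k, IntegrableOn (f k) S) : IntegrableOn (fun x => ∑ k, f k x) S :=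
  integrable_finsetSum _ (fun k _ => h k)

/-- The integrand of `Jc` is integrable. -/
theorem tint_Jc (F : Fin 3 → Y) (t : ℝ) :
    IntegrableOn (fun s : ℝ => Real.exp (-s) • (PD.Po s (sl (frad F) (t + s)) +
      PD.La s (sl (frad F) (t + s)) + ∑ k, PD.Dk k s (sl (ftan F k) (t + s)))) (Ioi 0) := by
  have h : (fun s : ℝ => Real.exp (-s) • (PD.Po s (sl (frad F) (t + s)) +
      PD.La s (sl (frad F) (t + s)) + ∑ k, PD.Dk k s (sl (ftan F k) (t + s)))) =
      fun s : ℝ => (Real.exp (-s) • PD.Po s (sl (frad F) (t + s)) +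
      Real.exp (-s) • PD.La s (sl (frad F) (t + s))) +
        ∑ k, Real.exp (-s) • PD.Dk k s (sl (ftan F k) (t + s)) := by
    funext s
    rw [smul_add, smul_add, Finset.smul_sum]
  rw [h]
  refine tint_add (tint_add (tint_po (frad F) t) (tint_la (frad F) t)) ?_
  exact tint_sum (fun k => tint_dk k (ftan F k) t)

end

end Pool.Agent.BS
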