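import Pool.Agent.BS.Poi
import Pool.Agent.BS.El
import Pool.Agent.BS.TIntAux

/-!
# Module TLIN: the special right hand side
-/

namespace Pool.Agent.BS

open MeasureTheory Topology Set Filter
open scoped ContDiff

noncomputable section

theorem tlin_norm_sq (θ : S2) : (θ : E3) 0 ^ 2 + (θ : E3) 1 ^ 2 + (θ : E3) 2 ^ 2 = 1 := by
  have h := norm_S2 θ
  have h2 : ‖(θ : E3)‖ ^ 2 = 1 := by rw [h]; norm_num
  rw [EuclideanSpace.real_norm_sq_eq, Fin.sum_univ_three] at h2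
  exact h2

theorem tlin_ray_zero (θ : S2) : ray 0 θ = toOm θ := by
  apply Subtype.ext
  show Real.exp (max 0 0) • (θ : E3) = θ
  rw [max_self, Real.exp_zero, one_smul]

theorem tlin_hom (f : Y) (hf : Hom0 f) (s : ℝ) (θ : S2) : f (ray s θ) = f (toOm θ) := by
  rw [hf (ray s θ), tint_dirS_ray]

theorem tlin_sl_hom (f : Y) (hf : Hom0 f) (s : ℝ) : sl f s = sl f 0 := by
  ext θ
  show f (ray s θ) = f (ray 0 θ)
  rw [tlin_hom f hf, tlin_hom f hf]

/-- `La (s+c+ε) = La (s + c) (Po ..)` version needed for the derivative -/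
theorem tlin_la_split (ε : ℝ) (hε : 0 < ε) (f : C(S2, ℝ)) (s : ℝ) (hs : 0 ≤ s) :
    PD.La (s + ε) f = PD.Po (s + ε / 2) (PD.La (ε / 2) f) := by
  have h : PD.La (s + ε) = PD.La (ε / 2 + (s + ε / 2)) := by congr 1; ring
  rw [h, PD.la_add' _ _ (by linarith) (by linarith)]
  rfl

theorem tlin_deriv_po (ε : ℝ) (hε : 0 < ε) (f : C(S2, ℝ)) (s : ℝ) (hs : 0 < s) :
    HasDerivAt (fun s => PD.Po (s + ε) f) (-(PD.La (s + ε) f)) s := by
  have h1 := PD.po_deriv (s + ε) f (by linarith)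
  have h2 : HasDerivAt (fun s : ℝ => s + ε) 1 s := (hasDerivAt_id s).add_const ε
  have h3 := h1.scomp s h2
  rw [one_smul] at h3
  exact h3

theorem tlin_deriv_la (ε : ℝ) (hε : 0 < ε) (f : C(S2, ℝ)) (s : ℝ) (hs : 0 < s) :
    HasDerivAt (fun s => PD.La (s + ε) f) (-(PD.La (s + ε / 2) (PD.La (ε / 2) f))) s := by
  have h1 := tlin_deriv_po (ε / 2) (by linarith) (PD.La (ε / 2) f) s hs
  refine h1.congr_of_eventuallyEq ?_
  filter_upwards [eventually_gt_nhds hs] with τ hτ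
  exact tlin_la_split ε hε f τ hτ.le

theorem tlin_cont_po (ε : ℝ) (f : C(S2, ℝ)) : Continuous (fun s => PD.Po (s + ε) f) :=
  (PD.po_cont f).comp (continuous_id.add continuous_const)

theorem tlin_cont_la (ε : ℝ) (hε : 0 < ε) (f : C(S2, ℝ)) :
    ContinuousOn (fun s => PD.La (s + ε) f) (Ici 0) := by
  refine (tlin_cont_po (ε / 2) (PD.La (ε / 2) f)).continuousOn.congr (fun s hs => ?_)
  exact tlin_la_split ε hε f s hs

/-- `L_k w` generates: `Dk k τ w₀ = Po τ (L_k w)` -/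
theorem tlin_dk (w : Fin 4 → Y) (hw : IsX w) (k : Fin 3) (τ : ℝ) (hτ : 0 < τ) :
    PD.Dk k τ (sl (w 0) 0) = PD.Po τ (sl (LX w k) 0) := by
  have h1 : IsC1S (sl (w 0) 0) (fun a θ => w a.succ (toOm θ)) := by
    have : ((sl (w 0) 0 : C(S2, ℝ)) : S2 → ℝ) = fun θ => w 0 (toOm θ) := by
      funext θ
      show w 0 (ray 0 θ) = _
      rw [tlin_ray_zero]
    rw [this]
    exact hw.2.1
  refine PD.dk_comm k τ _ _ _ hτ h1 (fun θ => ?_)
  show LX w k (ray 0 θ) = _
  unfold LX cr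
  rw [Y.sum_apply]
  refine Finset.sum_congr rfl (fun a _ => ?_)
  rw [Y.sum_apply]
  refine Finset.sum_congr rfl (fun b _ => ?_)
  rw [Y.smul_apply, Y.mul_apply, thY_apply, tint_dirS_ray, tlin_ray_zero, smul_eq_mul]

/-- the sum of the tangential terms -/
theorem tlin_sum_dk (w : Fin 4 → Y) (hw : IsX w) (ε : ℝ) (hε : 0 < ε) (s : ℝ) (hs : 0 < s) :
    ∑ k, PD.Po ε (PD.Dk k s (sl (LX w k) 0)) =
      -(PD.La (s + ε / 2) (PD.La (ε / 2) (sl (w 0) 0)) + PD.La (s + ε) (sl (w 0) 0)) := by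
  have h1 : ∀ k, PD.Po ε (PD.Dk k s (sl (LX w k) 0)) =
      PD.Dk k (s + ε / 2) (PD.Dk k (ε / 2) (sl (w 0) 0)) := by
    intro k
    rw [tlin_dk w hw k (ε / 2) (by linarith)]
    have e1 : PD.Po ε (PD.Dk k s (sl (LX w k) 0)) = PD.Dk k (s + ε) (sl (LX w k) 0) := by
      rw [PD.dk_add' k s ε hs hε.le]
      rfl
    have e2 : PD.Dk k (s + ε / 2) (PD.Po (ε / 2) (sl (LX w k) 0)) =
        PD.Dk k (s + ε / 2 + ε / 2) (sl (LX w k) 0) := by
      rw [PD.dk_add k (s + ε / 2) (ε / 2) (by linarith) (by linarith)]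
      rfl
    rw [e1, e2]
    congr 2
    ring
  simp only [h1]
  rw [PD.lap _ _ _ (by linarith) (by linarith)]
  congr 3
  ring_nf

/-- boundedness of the shifted operators -/
theorem tlin_la_bd (ε : ℝ) (hε : 0 < ε) (f : C(S2, ℝ)) (s : ℝ) (hs : 0 ≤ s) :
    ‖PD.La (s + ε) f‖ ≤ ‖PD.La (ε / 2) f‖ := by
  rw [tlin_la_split ε hε f s hs]
  exact PD.po_norm _ _

/-- the key integral: `∫_0^∞ d/ds [c(s) e^{-s} Q(s)] = - c(0) Q(0)` -/
theorem tlin_ftc (Q Q' : ℝ → C(S2, ℝ)) (c c' : ℝ → ℝ) (B D : ℝ)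
    (hc : ∀ s, 0 < s → HasDerivAt c (c' s) s) (hcc : Continuous c) (hc'c : Continuous c')
    (hcb : ∀ s, 0 ≤ s → |c s| ≤ D) (hcb' : ∀ s, 0 ≤ s → |c' s| ≤ D)
    (hQ : ∀ s, 0 < s → HasDerivAt Q (Q' s) s) (hQc : ContinuousOn Q (Ici 0))
    (hQ'c : ContinuousOn Q' (Ioi 0))
    (hQb : ∀ s, 0 ≤ s → ‖Q s‖ ≤ B) (hQb' : ∀ s, 0 < s → ‖Q' s‖ ≤ B) :
    ∫ s in Ioi (0 : ℝ), Real.exp (-s) • ((c s - c' s) • Q s - c s • Q' s) = c 0 • Q 0 := by
  have hB : 0 ≤ B := (norm_nonneg _).trans (hQb 0 le_rfl)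
  have hD : 0 ≤ D := (abs_nonneg _).trans (hcb 0 le_rfl)
  have hexp : Continuous (fun s : ℝ => Real.exp (-s)) := Real.continuous_exp.comp continuous_neg
  have hder : ∀ s ∈ Ioi (0 : ℝ), HasDerivAt (fun s => (-(Real.exp (-s) * c s)) • Q s)
      (Real.exp (-s) • ((c s - c' s) • Q s - c s • Q' s)) s := by
    intro s hs
    have h1 : HasDerivAt (fun s : ℝ => Real.exp (-s)) (-Real.exp (-s)) s := by
      have := (hasDerivAt_neg s).exp
      simpa using this
    have h2 := ((h1.mul (hc s hs)).neg).smul (hQ s hs)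
    refine h2.congr_deriv ?_
    simp only [Pi.neg_apply, Pi.mul_apply]
    module
  have hcont : ContinuousWithinAt (fun s => (-(Real.exp (-s) * c s)) • Q s) (Ici 0) 0 := by
    have : ContinuousOn (fun s => (-(Real.exp (-s) * c s)) • Q s) (Ici 0) :=
      ((hexp.mul hcc).neg.continuousOn).smul hQc
    exact this 0 self_mem_Ici
  have hint : IntegrableOn (fun s => Real.exp (-s) • ((c s - c' s) • Q s - c s • Q' s))
      (Ioi 0) := by
    refine Integrable.mono' (tint_exp.const_mul (3 * D * B)) ?_ ?_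
    · refine ContinuousOn.aestronglyMeasurable ?_ measurableSet_Ioi
      refine hexp.continuousOn.smul (ContinuousOn.sub ?_ ?_)
      · exact (hcc.sub hc'c).continuousOn.smul (hQc.mono Ioi_subset_Ici_self)
      · exact hcc.continuousOn.smul hQ'c
    · refine (ae_restrict_iff' measurableSet_Ioi).2 (Eventually.of_forall (fun s hs => ?_))
      have hs' : (0 : ℝ) < s := hs
      rw [norm_smul, Real.norm_of_nonneg (Real.exp_pos _).le, mul_comm]
      refine mul_le_mul_of_nonneg_right ?_ (Real.exp_pos _).le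
      refine (norm_sub_le _ _).trans ?_
      rw [norm_smul, norm_smul, Real.norm_eq_abs, Real.norm_eq_abs]
      have e1 : |c s - c' s| ≤ 2 * D := by
        refine (abs_sub _ _).trans ?_
        have := hcb s hs'.le
        have := hcb' s hs'.le
        linarith
      have e2 := mul_le_mul e1 (hQb s hs'.le) (norm_nonneg _) (by positivity)
      have e3 := mul_le_mul (hcb s hs'.le) (hQb' s hs') (norm_nonneg _) hD
      linarith
  have hlim : Tendsto (fun s => (-(Real.exp (-s) * c s)) • Q s) atTop (𝓝 0) := by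
    rw [tendsto_zero_iff_norm_tendsto_zero]
    have hl : Tendsto (fun s : ℝ => Real.exp (-s) * (D * B)) atTop (𝓝 0) := by
      have := (Real.tendsto_exp_neg_atTop_nhds_zero).mul_const (D * B)
      rwa [zero_mul] at this
    refine squeeze_zero' (Eventually.of_forall (fun _ => norm_nonneg _)) ?_ hl
    filter_upwards [eventually_ge_atTop (0 : ℝ)] with s hs
    rw [norm_smul, norm_neg, norm_mul, Real.norm_of_nonneg (Real.exp_pos _).le, mul_assoc,
      Real.norm_eq_abs]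
    exact mul_le_mul_of_nonneg_left (mul_le_mul (hcb s hs) (hQb s hs) (norm_nonneg _) hD)
      (Real.exp_pos _).le
  have := integral_Ioi_of_hasDerivAt_of_tendsto hcont hder hint hlim
  rw [this]
  simp

theorem tlin_LX_apply (w : Fin 4 → Y) (k : Fin 3) (x : Om) :
    LX w k x = ∑ a, ∑ b, eps k a b * ((dirS (x : E3) : E3) a * w b.succ x) := by
  unfold LX cr
  rw [Y.sum_apply]
  refine Finset.sum_congr rfl (fun a _ => ?_)
  rw [Y.sum_apply]
  refine Finset.sum_congr rfl (fun b _ => ?_)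
  rw [Y.smul_apply, Y.mul_apply, thY_apply]

theorem tlin_LX_hom (w : Fin 4 → Y) (hw : IsX w) (k : Fin 3) : Hom0 (LX w k) := by
  intro x
  rw [tlin_LX_apply, tlin_LX_apply]
  refine Finset.sum_congr rfl (fun a _ => Finset.sum_congr rfl (fun b _ => ?_))
  have h : dirS ((toOm (dirS (x : E3)) : Om) : E3) = dirS (x : E3) := dirS_S2 _
  rw [h, hw.1 b.succ x]

theorem Lam0_reg (w : Fin 4 → Y) (hw : IsX w) (ε : ℝ) (hε : 0 < ε) :
    PD.Po ε (Lam0 w) = PD.La ε (sl (w 0) 0) := by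
  have hLX : ∀ k, Hom0 (LX w k) := tlin_LX_hom w hw
  have hint : ∀ k, IntegrableOn (fun s : ℝ => Real.exp (-s) • PD.Dk k s (sl (LX w k) 0))
      (Ioi 0) := by
    intro k
    refine (tint_dk k (LX w k) 0).congr_fun (fun s _ => ?_) measurableSet_Ioi
    simp only [zero_add]
    rw [tlin_sl_hom _ (hLX k) s]
  have h1 : Lam0 w = -∫ s in Ioi (0 : ℝ), ∑ k, Real.exp (-s) • PD.Dk k s (sl (LX w k) 0) := by
    unfold Lam0
    rw [integral_finsetSum _ (fun k _ => hint k)]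
  have h2 := ContinuousLinearMap.integral_comp_comm (PD.Po ε) (tint_sum hint)
  rw [h1, map_neg, ← h2, ← integral_neg]
  have h3 := tlin_ftc (fun s => PD.La (s + ε) (sl (w 0) 0))
    (fun s => -(PD.La (s + ε / 2) (PD.La (ε / 2) (sl (w 0) 0)))) (fun _ => 1) (fun _ => 0)
    (max ‖PD.La (ε / 2) (sl (w 0) 0)‖ ‖PD.La (ε / 2 / 2) (PD.La (ε / 2) (sl (w 0) 0))‖) 1
    (fun s _ => hasDerivAt_const s 1) continuous_const continuous_const (by simp) (by simp)
    (fun s hs => tlin_deriv_la ε hε _ s hs) (tlin_cont_la ε hε _)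
    ((tlin_cont_la (ε / 2) (by linarith) _).neg.mono Ioi_subset_Ici_self)
    (fun s hs => (tlin_la_bd ε hε _ s hs).trans (le_max_left _ _))
    (fun s hs => by
      rw [norm_neg]
      exact (tlin_la_bd (ε / 2) (by linarith) _ s hs.le).trans (le_max_right _ _))
  simp only [zero_add, one_smul, sub_zero] at h3
  rw [← h3]
  refine setIntegral_congr_fun measurableSet_Ioi (fun s hs => ?_)
  have hs' : (0 : ℝ) < s := hs
  have h4 := tlin_sum_dk w hw ε hε s hs'
  simp only [map_sum, map_smul]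
  rw [← Finset.smul_sum, h4]
  simp only [smul_neg, neg_neg, sub_neg_eq_add]
  rw [add_comm (PD.La (s + ε) _)]

/-- the gradient is tangential -/
theorem tlin_tang (w : Fin 4 → Y) (hw : IsX w) (θ : S2) :
    ∑ j : Fin 3, (θ : E3) j * w j.succ (toOm θ) = 0 := by
  have h1 := hw.2.1.2 (θ : E3) (S2_ne_zero θ)
  have h2 : HasDerivAt (fun t : ℝ => (1 + t) • (θ : E3)) (θ : E3) 0 := by
    have : HasDerivAt (fun t : ℝ => 1 + t) 1 0 := (hasDerivAt_id 0).const_add 1
    simpa using this.smul_const (θ : E3)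
  have h3 : HasFDerivAt (fun y => w 0 (toOm (dirS y)))
      (innerSL ℝ (‖(θ : E3)‖⁻¹ • mkE (fun k => w k.succ (toOm (dirS (θ : E3))))))
      ((1 + (0 : ℝ)) • (θ : E3)) := by
    rw [add_zero, one_smul]
    exact h1
  have h4 := h3.comp_hasDerivAt (0 : ℝ) h2
  have h5 : (fun y => w 0 (toOm (dirS y))) ∘ (fun t : ℝ => (1 + t) • (θ : E3)) =ᶠ[𝓝 0]
      fun _ => w 0 (toOm θ) := by
    filter_upwards [eventually_gt_nhds (show (-1 : ℝ) < 0 by norm_num)] with t ht
    show w 0 (toOm (dirS ((1 + t) • (θ : E3)))) = _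
    rw [dirS_smul_S2 θ (by linarith)]
  have h6 : HasDerivAt ((fun y => w 0 (toOm (dirS y))) ∘ (fun t : ℝ => (1 + t) • (θ : E3)))
      0 0 := (hasDerivAt_const (0 : ℝ) (w 0 (toOm θ))).congr_of_eventuallyEq h5
  have h7 := h4.unique h6
  rw [norm_S2, inv_one, one_smul, dirS_S2, innerSL_apply_apply, PiLp.inner_apply] at h7
  simp only [mkE_apply, RCLike.inner_apply, conj_trivial] at h7
  exact h7

theorem tlin_frad (w : Fin 4 → Y) (hw : IsX w) (x : Om) :
    frad (Fw w) x = (chY x - chpY x) * w 0 x := by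
  have h1 := tlin_norm_sq (dirS (x : E3))
  have h2 := tlin_tang w hw (dirS (x : E3))
  have h3 : ∀ j : Fin 3, w j.succ x = w j.succ (toOm (dirS (x : E3))) := fun j => hw.1 _ x
  unfold frad Fw
  rw [Y.sum_apply]
  simp only [Y.mul_apply, Y.sub_apply, thY_apply, Fin.sum_univ_three, h3] at h2 ⊢
  linear_combination ((chY x - chpY x) * w 0 x) * h1 - chY x * h2

theorem tlin_ftan (w : Fin 4 → Y) (k : Fin 3) (x : Om) :
    ftan (Fw w) k x = -(chY x * LX w k x) := by
  have h : ftan (Fw w) k x = ∑ a, ∑ b, eps k a b * ((dirS (x : E3) : E3) a *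
      ((chY x - chpY x) * w 0 x * (dirS (x : E3) : E3) b - chY x * w b.succ x)) := by
    unfold ftan cr
    rw [Y.sum_apply]
    refine Finset.sum_congr rfl (fun a _ => ?_)
    rw [Y.sum_apply]
    refine Finset.sum_congr rfl (fun b _ => ?_)
    rw [Y.smul_apply, Y.mul_apply, thY_apply]
    unfold Fw
    rw [Y.sub_apply, Y.mul_apply, Y.mul_apply, Y.mul_apply, Y.sub_apply, thY_apply]
  rw [h, tlin_LX_apply]
  simp only [Fin.sum_univ_three]
  fin_cases k <;> simp [eps] <;> ring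

/-- radial profile -/
def tlinC (s : ℝ) : ℝ := chi (Real.exp s)

/-- derivative of the radial profile -/
def tlinC' (s : ℝ) : ℝ := Real.exp s * deriv chi (Real.exp s)

theorem tlinC_deriv (s : ℝ) : HasDerivAt tlinC (tlinC' s) s := by
  have h1 : HasDerivAt chi (deriv chi (Real.exp s)) (Real.exp s) :=
    ((chi_smooth.differentiable (by simp)) _).hasDerivAt
  have h2 := h1.comp s (Real.hasDerivAt_exp s)
  rw [mul_comm] at h2
  exact h2

theorem tlinC_cont : Continuous tlinC := chi_smooth.continuous.comp Real.continuous_exp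

theorem tlinC'_cont : Continuous tlinC' :=
  Real.continuous_exp.mul ((chi_smooth.continuous_deriv (by simp)).comp Real.continuous_exp)

theorem tlin_ch (s : ℝ) (hs : 0 ≤ s) (θ : S2) : chY (ray s θ) = tlinC s := by
  rw [chY_apply, tint_norm_ray, max_eq_left hs]
  rfl

theorem tlin_chp (s : ℝ) (hs : 0 ≤ s) (θ : S2) : chpY (ray s θ) = tlinC' s := by
  rw [chpY_apply, tint_norm_ray, max_eq_left hs]
  rfl

theorem tlinC_zero : tlinC 0 = 1 := by
  unfold tlinC
  rw [Real.exp_zero]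
  exact chi_eq_one (by norm_num) (by norm_num)

theorem tlinC'_zero : tlinC' 0 = 0 := by
  unfold tlinC'
  rw [Real.exp_zero, one_mul]
  have h : chi =ᶠ[𝓝 1] fun _ => (1 : ℝ) := by
    filter_upwards [eventually_gt_nhds (show (3 / 4 : ℝ) < 1 by norm_num),
      eventually_lt_nhds (show (1 : ℝ) < 2 by norm_num)] with r h1 h2
    exact chi_eq_one h1.le h2.le
  rw [h.deriv_eq, deriv_const]

/-- regularised boundary value -/
theorem tlin_Jc (w : Fin 4 → Y) (hw : IsX w) (ε : ℝ) (hε : 0 < ε) :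
    PD.Po ε (Jc (Fw w) 0) = PD.Po ε (sl (w 0) 0) + PD.La ε (sl (w 0) 0) := by
  have θ₀ : S2 := dirS 0
  have h2 := ContinuousLinearMap.integral_comp_comm (PD.Po ε) (tint_Jc (Fw w) 0)
  unfold Jc
  rw [← h2]
  have hB1 : 0 ≤ ‖sl (w 0) 0‖ := norm_nonneg _
  have hB2 : 0 ≤ ‖PD.La (ε / 2) (sl (w 0) 0)‖ := norm_nonneg _
  have hB3 : 0 ≤ ‖PD.La (ε / 2 / 2) (PD.La (ε / 2) (sl (w 0) 0))‖ := norm_nonneg _
  have h3 := tlin_ftc (fun s => PD.Po (s + ε) (sl (w 0) 0) + PD.La (s + ε) (sl (w 0) 0))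
    (fun s => -(PD.La (s + ε) (sl (w 0) 0)) +
      -(PD.La (s + ε / 2) (PD.La (ε / 2) (sl (w 0) 0)))) tlinC tlinC'
    (‖sl (w 0) 0‖ + ‖PD.La (ε / 2) (sl (w 0) 0)‖ +
      ‖PD.La (ε / 2 / 2) (PD.La (ε / 2) (sl (w 0) 0))‖) (‖chY‖ + ‖chpY‖)
    (fun s _ => tlinC_deriv s) tlinC_cont tlinC'_cont
    (fun s hs => by
      rw [← tlin_ch s hs θ₀]
      exact (chY.abs_apply_le _).trans (by linarith [norm_nonneg chpY]))
    (fun s hs => by
      rw [← tlin_chp s hs θ₀]
      exact (chpY.abs_apply_le _).trans (by linarith [norm_nonneg chY]))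
    (fun s hs => (tlin_deriv_po ε hε _ s hs).add (tlin_deriv_la ε hε _ s hs))
    ((tlin_cont_po ε _).continuousOn.add (tlin_cont_la ε hε _))
    (((tlin_cont_la ε hε _).neg.mono Ioi_subset_Ici_self).add
      ((tlin_cont_la (ε / 2) (by linarith) _).neg.mono Ioi_subset_Ici_self))
    (fun s hs => by
      have e1 := PD.po_norm (s + ε) (sl (w 0) 0)
      have e2 := tlin_la_bd ε hε (sl (w 0) 0) s hs
      exact (norm_add_le _ _).trans (by linarith))
    (fun s hs => by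
      have e1 := tlin_la_bd ε hε (sl (w 0) 0) s hs.le
      have e2 := tlin_la_bd (ε / 2) (by linarith) (PD.La (ε / 2) (sl (w 0) 0)) s hs.le
      refine (norm_add_le _ _).trans ?_
      rw [norm_neg, norm_neg]
      linarith)
  rw [tlinC_zero, one_smul, zero_add] at h3
  rw [← h3]
  refine setIntegral_congr_fun measurableSet_Ioi (fun s hs => ?_)
  have hs' : (0 : ℝ) < s := hs
  have h4 := tlin_sum_dk w hw ε hε s hs'
  have e1 : sl (frad (Fw w)) s = (tlinC s - tlinC' s) • sl (w 0) 0 := by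
    ext θ
    show frad (Fw w) (ray s θ) = (tlinC s - tlinC' s) * w 0 (ray 0 θ)
    rw [tlin_frad w hw, tlin_ch s hs'.le, tlin_chp s hs'.le, tlin_hom _ (hw.1 0),
      tlin_hom _ (hw.1 0)]
  have e2 : ∀ k, sl (ftan (Fw w) k) s = (-tlinC s) • sl (LX w k) 0 := by
    intro k
    ext θ
    show ftan (Fw w) k (ray s θ) = -tlinC s * LX w k (ray 0 θ)
    rw [tlin_ftan, tlin_ch s hs'.le, tlin_hom _ (tlin_LX_hom w hw k),
      tlin_hom _ (tlin_LX_hom w hw k)]
    ring
  have e3 : PD.Po ε (PD.Po s (sl (w 0) 0)) = PD.Po (s + ε) (sl (w 0) 0) := by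
    rw [add_comm s ε, PD.po_add ε s hε.le hs'.le]
    rfl
  have e4 : PD.Po ε (PD.La s (sl (w 0) 0)) = PD.La (s + ε) (sl (w 0) 0) := by
    rw [PD.la_add' s ε hs' hε.le]
    rfl
  simp only [zero_add, e1, e2, map_smul, map_add, map_sum]
  rw [← Finset.smul_sum, h4, e3, e4]
  module

/-- Module TLIN: boundary value for the special right hand side -/
theorem muc_Fw (w : Fin 4 → Y) (hw : IsX w) (θ : S2) : muc (Fw w) 0 θ = Lam0 w θ := by
  have h0 : sl (frad (Fw w)) 0 = sl (w 0) 0 := by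
    ext θ
    show frad (Fw w) (ray 0 θ) = w 0 (ray 0 θ)
    rw [tlin_frad w hw, tlin_ch 0 le_rfl, tlin_chp 0 le_rfl, tlinC_zero, tlinC'_zero]
    ring
  have h1 : ∀ ε : ℝ, 0 < ε → PD.Po ε (muc (Fw w) 0) = PD.Po ε (Lam0 w) := by
    intro ε hε
    unfold muc
    rw [map_sub, tlin_Jc w hw ε hε, Lam0_reg w hw ε hε, h0]
    abel
  have h2 : ∀ g : C(S2, ℝ), Tendsto (fun ε => PD.Po ε g) (𝓝[>] 0) (𝓝 g) := by
    intro g
    have h3 := (PD.po_cont g).tendsto 0
    have h4 : PD.Po 0 g = g := by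
      rw [PD.po_nonpos 0 le_rfl]
      rfl
    rw [h4] at h3
    exact h3.mono_left nhdsWithin_le_nhds
  have h3 : muc (Fw w) 0 = Lam0 w := by
    refine tendsto_nhds_unique (h2 _) ((h2 (Lam0 w)).congr' ?_)
    filter_upwards [self_mem_nhdsWithin] with ε hε
    exact (h1 ε hε).symm
  rw [h3]

end

end Pool.Agent.BS
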