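import Pool.Agent.BS.Xsp
import Pool.Agent.BS.Poi
import Pool.Agent.BS.TLin

/-!
# Auxiliary results for module LIN
-/

namespace Pool.Agent.BS

open MeasureTheory Topology Set Filter
open scoped ContDiff

noncomputable section

/-- the basic weight -/
def linW (s : ℝ) : ℝ := (1 + (Real.sqrt s)⁻¹) * Real.exp (-(s / 2))

theorem lin_sqrt_inv {s : ℝ} (hs : 0 < s) : (Real.sqrt s)⁻¹ = s ^ (-(1 / 2) : ℝ) := by
  rw [Real.rpow_neg hs.le, Real.sqrt_eq_rpow]

theorem linW_nonneg (s : ℝ) : 0 ≤ linW s := by unfold linW; positivity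

theorem linW_int : IntegrableOn linW (Ioi 0) := by
  have h1 : IntegrableOn (fun s : ℝ => Real.exp (-(s / 2))) (Ioi 0) := by
    have := integrableOn_exp_mul_Ioi (a := -(1 / 2)) (by norm_num) 0
    refine this.congr_fun (fun s _ => ?_) measurableSet_Ioi
    show Real.exp (-(1 / 2) * s) = Real.exp (-(s / 2))
    congr 1; ring
  have h2 : IntegrableOn (fun s : ℝ => (Real.sqrt s)⁻¹ * Real.exp (-(s / 2))) (Ioi 0) := by
    have := integrableOn_rpow_mul_exp_neg_mul_rpow (p := 1) (s := -(1 / 2)) (b := 1 / 2)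
      (by norm_num) (by norm_num) (by norm_num)
    refine this.congr_fun (fun s hs => ?_) measurableSet_Ioi
    show s ^ (-(1 / 2) : ℝ) * Real.exp (-(1 / 2) * s ^ (1 : ℝ)) = _
    rw [lin_sqrt_inv hs, Real.rpow_one]
    congr 2; ring
  have h3 := h1.add h2
  refine h3.congr_fun (fun s _ => ?_) measurableSet_Ioi
  show Real.exp (-(s / 2)) + (Real.sqrt s)⁻¹ * Real.exp (-(s / 2)) = linW s
  unfold linW; ring

theorem lin_dist_le (θ η : S2) : dist θ η ≤ 2 := by
  have h : dist θ η = ‖(θ : E3) - (η : E3)‖ := by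
    rw [← dist_eq_norm]; rfl
  rw [h]
  calc ‖(θ : E3) - (η : E3)‖ ≤ ‖(θ : E3)‖ + ‖(η : E3)‖ := norm_sub_le _ _
    _ = 2 := by rw [norm_S2, norm_S2]; norm_num

/-- Curves `K : ℝ → C(S2)` with a weak singularity at `0`. -/
structure LinCurve (B : ℝ) (K : ℝ → C(S2, ℝ)) : Prop where
  cont : ContinuousOn K (Ioi 0)
  bdd : ∀ s, 0 < s → ‖K s‖ ≤ B * linW s
  lip : ∀ s, 0 < s → ∀ θ η, |K s θ - K s η| ≤ B * s ^ (-(3 / 2) : ℝ) * dist θ η

theorem LinCurve.int {B : ℝ} {K : ℝ → C(S2, ℝ)} (h : LinCurve B K) : IntegrableOn K (Ioi 0) := by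
  refine Integrable.mono' (linW_int.const_mul B) (h.cont.aestronglyMeasurable measurableSet_Ioi) ?_
  refine (ae_restrict_iff' measurableSet_Ioi).2 (Filter.Eventually.of_forall (fun s hs => ?_))
  exact h.bdd s hs

theorem lin_eval {K : ℝ → C(S2, ℝ)} (h : IntegrableOn K (Ioi 0)) (θ : S2) :
    (∫ s in Ioi (0 : ℝ), K s) θ = ∫ s in Ioi (0 : ℝ), K s θ :=
  ((ContinuousMap.evalCLM ℝ θ : C(S2, ℝ) →L[ℝ] ℝ).integral_comp_comm h).symm

theorem lin_eval_int {K : ℝ → C(S2, ℝ)} (h : IntegrableOn K (Ioi 0)) (θ : S2) :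
    IntegrableOn (fun s => K s θ) (Ioi 0) :=
  (ContinuousMap.evalCLM ℝ θ : C(S2, ℝ) →L[ℝ] ℝ).integrable_comp h

/-- the constant of the integral of `linW` -/
def linI : ℝ := ∫ s in Ioi (0 : ℝ), linW s

theorem linI_nonneg : 0 ≤ linI := setIntegral_nonneg measurableSet_Ioi (fun s _ => linW_nonneg s)

theorem LinCurve.norm {B : ℝ} {K : ℝ → C(S2, ℝ)} (h : LinCurve B K) :
    ‖∫ s in Ioi (0 : ℝ), K s‖ ≤ B * linI := by
  have : B * linI = ∫ s in Ioi (0 : ℝ), B * linW s := by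
    rw [linI, integral_const_mul]
  rw [this]
  refine norm_integral_le_of_norm_le (linW_int.const_mul B) ?_
  refine (ae_restrict_iff' measurableSet_Ioi).2 (Filter.Eventually.of_forall (fun s hs => ?_))
  exact h.bdd s hs

theorem LinCurve.hol {B : ℝ} (hB : 0 ≤ B) {K : ℝ → C(S2, ℝ)} (h : LinCurve B K) (θ η : S2) :
    |(∫ s in Ioi (0 : ℝ), K s) θ - (∫ s in Ioi (0 : ℝ), K s) η| ≤
      14 * B * Real.sqrt (dist θ η) := by
  rcases eq_or_ne θ η with rfl | hne
  · simp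
  have hd : 0 < dist θ η := dist_pos.2 hne
  set d := dist θ η with hdd
  have hd2 : d ≤ 2 := lin_dist_le θ η
  rw [lin_eval h.int, lin_eval h.int, ← integral_sub (lin_eval_int h.int θ) (lin_eval_int h.int η)]
  have hi : IntegrableOn (fun s => K s θ - K s η) (Ioi 0) :=
    (lin_eval_int h.int θ).sub (lin_eval_int h.int η)
  have hsplit : Ioi (0 : ℝ) = Ioc 0 d ∪ Ioi d := (Ioc_union_Ioi_eq_Ioi hd.le).symm
  rw [hsplit, setIntegral_union (by
      rw [Set.disjoint_left]; intro x hx hx'; exact absurd hx.2 (not_le.2 hx')) measurableSet_Ioi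
      (hi.mono_set (fun x hx => hx.1)) (hi.mono_set (fun x hx => lt_trans hd hx))]
  have h1 : |∫ s in Ioc (0 : ℝ) d, (K s θ - K s η)| ≤ ∫ s in Ioc (0 : ℝ) d, 6 * B * s ^ (-(1 / 2) : ℝ) := by
    rw [← Real.norm_eq_abs]
    have hint : IntegrableOn (fun s : ℝ => 6 * B * s ^ (-(1 / 2) : ℝ)) (Ioc 0 d) := by
      have h0 : IntervalIntegrable (fun s : ℝ => s ^ (-(1 / 2) : ℝ)) volume 0 d :=
        intervalIntegral.intervalIntegrable_rpow' (by norm_num)
      have := h0.const_mul (6 * B)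
      rwa [intervalIntegrable_iff_integrableOn_Ioc_of_le hd.le] at this
    refine norm_integral_le_of_norm_le hint ?_
    refine (ae_restrict_iff' measurableSet_Ioc).2 (Filter.Eventually.of_forall (fun s hs => ?_))
    have hs0 : 0 < s := hs.1
    have ha : |K s θ| ≤ ‖K s‖ := (K s).norm_coe_le_norm θ
    have hb : |K s η| ≤ ‖K s‖ := (K s).norm_coe_le_norm η
    have hc := h.bdd s hs0
    have hle : linW s ≤ 3 * s ^ (-(1 / 2) : ℝ) := by
      rw [← lin_sqrt_inv hs0]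
      unfold linW
      have he : Real.exp (-(s / 2)) ≤ 1 := Real.exp_le_one_iff.2 (by linarith)
      have hsq : Real.sqrt s ≤ 2 := by
        rw [Real.sqrt_le_left (by norm_num)]
        have := hs.2
        nlinarith
      have hsp : 0 < Real.sqrt s := Real.sqrt_pos.2 hs0
      have : 1 ≤ 2 * (Real.sqrt s)⁻¹ := by
        rw [← div_eq_mul_inv, le_div_iff₀ hsp]; linarith
      have hpos : 0 ≤ 1 + (Real.sqrt s)⁻¹ := by positivity
      calc (1 + (Real.sqrt s)⁻¹) * Real.exp (-(s / 2)) ≤ (1 + (Real.sqrt s)⁻¹) * 1 :=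
            mul_le_mul_of_nonneg_left he hpos
        _ ≤ 3 * (Real.sqrt s)⁻¹ := by linarith
    rw [Real.norm_eq_abs]
    calc |K s θ - K s η| ≤ |K s θ| + |K s η| := abs_sub _ _
      _ ≤ 2 * (B * linW s) := by linarith
      _ ≤ 2 * (B * (3 * s ^ (-(1 / 2) : ℝ))) := by gcongr
      _ = 6 * B * s ^ (-(1 / 2) : ℝ) := by ring
  have h2 : |∫ s in Ioi d, (K s θ - K s η)| ≤ ∫ s in Ioi d, B * d * s ^ (-(3 / 2) : ℝ) := by
    rw [← Real.norm_eq_abs]
    have hint : IntegrableOn (fun s : ℝ => B * d * s ^ (-(3 / 2) : ℝ)) (Ioi d) :=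
      (integrableOn_Ioi_rpow_of_lt (by norm_num) hd).const_mul _
    refine norm_integral_le_of_norm_le hint ?_
    refine (ae_restrict_iff' measurableSet_Ioi).2 (Filter.Eventually.of_forall (fun s hs => ?_))
    have hs0 : 0 < s := lt_trans hd hs
    rw [Real.norm_eq_abs]
    calc |K s θ - K s η| ≤ B * s ^ (-(3 / 2) : ℝ) * d := h.lip s hs0 θ η
      _ = B * d * s ^ (-(3 / 2) : ℝ) := by ring
  have e1 : ∫ s in Ioc (0 : ℝ) d, 6 * B * s ^ (-(1 / 2) : ℝ) = 12 * B * Real.sqrt d := by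
    rw [integral_const_mul, ← intervalIntegral.integral_of_le hd.le,
      integral_rpow (Or.inl (by norm_num))]
    rw [Real.sqrt_eq_rpow, Real.zero_rpow (by norm_num)]
    norm_num
    ring
  have e2 : ∫ s in Ioi d, B * d * s ^ (-(3 / 2) : ℝ) = 2 * B * Real.sqrt d := by
    rw [integral_const_mul, integral_Ioi_rpow_of_lt (by norm_num) hd]
    have : (-(3 / 2) + 1 : ℝ) = -(1 / 2) := by norm_num
    rw [this, ← lin_sqrt_inv hd]
    have hsp : 0 < Real.sqrt d := Real.sqrt_pos.2 hd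
    have hdd' : d = Real.sqrt d * Real.sqrt d := (Real.mul_self_sqrt hd.le).symm
    have : d * (Real.sqrt d)⁻¹ = Real.sqrt d := by
      nth_rewrite 1 [hdd']
      rw [mul_assoc, mul_inv_cancel₀ hsp.ne', mul_one]
    calc B * d * (-(Real.sqrt d)⁻¹ / (-(1 / 2))) = 2 * B * (d * (Real.sqrt d)⁻¹) := by ring
      _ = 2 * B * Real.sqrt d := by rw [this]
  calc |(∫ s in Ioc (0 : ℝ) d, (K s θ - K s η)) + ∫ s in Ioi d, (K s θ - K s η)|
      ≤ |∫ s in Ioc (0 : ℝ) d, (K s θ - K s η)| + |∫ s in Ioi d, (K s θ - K s η)| := abs_add_le _ _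
    _ ≤ 12 * B * Real.sqrt d + 2 * B * Real.sqrt d := by
        rw [← e1, ← e2]; exact add_le_add h1 h2
    _ = 14 * B * Real.sqrt d := by ring


/-! ### Numerical bounds -/

theorem lin_num {s : ℝ} (hs : 0 < s) :
    Real.exp (-(s / 2)) * (1 + 2 / s) * (1 + 2 * (Real.sqrt s)⁻¹) ≤ 12 * s ^ (-(3 / 2) : ℝ) := by
  have hsp : 0 < Real.sqrt s := Real.sqrt_pos.2 hs
  have h1 : s + 2 ≤ 4 * Real.exp (s / 4) := by
    have := Real.add_one_le_exp (s / 4)
    linarith
  have h2 : Real.sqrt s + 2 ≤ 3 * Real.exp (s / 4) := by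
    have h := Real.add_one_le_exp (s / 4)
    have h3 : Real.sqrt s ≤ 1 + s / 4 := by
      have := Real.sq_sqrt hs.le
      nlinarith [sq_nonneg (Real.sqrt s - 2)]
    linarith
  have h3 : s ^ (-(3 / 2) : ℝ) = (s * Real.sqrt s)⁻¹ := by
    rw [Real.rpow_neg hs.le, Real.sqrt_eq_rpow]
    congr 1
    have : s * s ^ ((1 : ℝ) / 2) = s ^ (1 : ℝ) * s ^ ((1 : ℝ) / 2) := by rw [Real.rpow_one]
    rw [this, ← Real.rpow_add hs]
    norm_num
  have h4 : (s + 2) * (Real.sqrt s + 2) ≤ 12 * Real.exp (s / 2) := by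
    have : (s + 2) * (Real.sqrt s + 2) ≤ (4 * Real.exp (s / 4)) * (3 * Real.exp (s / 4)) :=
      mul_le_mul h1 h2 (by positivity) (by positivity)
    have h5 : Real.exp (s / 4) * Real.exp (s / 4) = Real.exp (s / 2) := by
      rw [← Real.exp_add]; congr 1; ring
    calc (s + 2) * (Real.sqrt s + 2) ≤ (4 * Real.exp (s / 4)) * (3 * Real.exp (s / 4)) := this
      _ = 12 * (Real.exp (s / 4) * Real.exp (s / 4)) := by ring
      _ = 12 * Real.exp (s / 2) := by rw [h5]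
  have h5 : (1 + 2 / s) * (1 + 2 * (Real.sqrt s)⁻¹) =
      (s + 2) * (Real.sqrt s + 2) * (s * Real.sqrt s)⁻¹ := by
    field_simp
  rw [mul_assoc, h5, h3, ← mul_assoc]
  refine mul_le_mul_of_nonneg_right ?_ (by positivity)
  calc Real.exp (-(s / 2)) * ((s + 2) * (Real.sqrt s + 2))
      ≤ Real.exp (-(s / 2)) * (12 * Real.exp (s / 2)) :=
        mul_le_mul_of_nonneg_left h4 (Real.exp_pos _).le
    _ = 12 * (Real.exp (-(s / 2)) * Real.exp (s / 2)) := by ring
    _ = 12 := by rw [← Real.exp_add]; simp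

theorem lin_sqrt_half {s : ℝ} (hs : 0 < s) : (Real.sqrt (s / 2))⁻¹ ≤ 2 * (Real.sqrt s)⁻¹ := by
  have h1 : 0 < Real.sqrt s := Real.sqrt_pos.2 hs
  have h2 : 0 < Real.sqrt (s / 2) := Real.sqrt_pos.2 (by linarith)
  have h3 : Real.sqrt s ≤ 2 * Real.sqrt (s / 2) := by
    rw [← Real.sqrt_sq (show (0 : ℝ) ≤ 2 by norm_num), ← Real.sqrt_mul (by norm_num)]
    exact Real.sqrt_le_sqrt (by nlinarith)
  rw [← div_eq_mul_inv, le_div_iff₀ h1, inv_mul_le_iff₀ h2]
  linarith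

/-! ### Continuity in `s` -/

theorem lin_dk_cont (k : Fin 3) (g : C(S2, ℝ)) : ContinuousOn (fun s => PD.Dk k s g) (Ioi 0) := by
  intro s₀ hs₀
  have hs₀' : 0 < s₀ := hs₀
  refine ContinuousAt.continuousWithinAt ?_
  have h1 : ContinuousAt (fun s => PD.Dk k (s₀ / 2) (PD.Po (s - s₀ / 2) g)) s₀ := by
    refine ((PD.Dk k (s₀ / 2)).continuous.comp ?_).continuousAt
    exact (PD.po_cont g).comp (by fun_prop)
  refine h1.congr ?_
  filter_upwards [Ioi_mem_nhds (show s₀ / 2 < s₀ by linarith)] with s hs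
  have := PD.dk_add k (s₀ / 2) (s - s₀ / 2) (by linarith) (by linarith [mem_Ioi.1 hs])
  rw [show s₀ / 2 + (s - s₀ / 2) = s by ring] at this
  rw [this]
  rfl

theorem lin_la_cont (g : C(S2, ℝ)) : ContinuousOn (fun s => PD.La s g) (Ioi 0) := by
  intro s₀ hs₀
  have hs₀' : 0 < s₀ := hs₀
  refine ContinuousAt.continuousWithinAt ?_
  have h1 : ContinuousAt (fun s => PD.La (s₀ / 2) (PD.Po (s - s₀ / 2) g)) s₀ := by
    refine ((PD.La (s₀ / 2)).continuous.comp ?_).continuousAt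
    exact (PD.po_cont g).comp (by fun_prop)
  refine h1.congr ?_
  filter_upwards [Ioi_mem_nhds (show s₀ / 2 < s₀ by linarith)] with s hs
  have := PD.la_add (s₀ / 2) (s - s₀ / 2) (by linarith) (by linarith [mem_Ioi.1 hs])
  rw [show s₀ / 2 + (s - s₀ / 2) = s by ring] at this
  rw [this]
  rfl

/-- orthogonality to spherical harmonics of degree `≤ 1` -/
def LinOrth (f : C(S2, ℝ)) : Prop :=
  ∫ θ, f θ ∂sig = 0 ∧ ∀ i, ∫ θ, xi i θ * f θ ∂sig = 0

/-- Hoelder bound -/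
def LinHol (A : ℝ) (f : C(S2, ℝ)) : Prop := ∀ θ η, |f θ - f η| ≤ A * Real.sqrt (dist θ η)

/-- Curve (A) -/
theorem lin_curveA (k : Fin 3) {g : C(S2, ℝ)} {A : ℝ} (hA : 0 ≤ A) (hg : LinHol A g) :
    LinCurve ((PD.C0 + 12 * PD.C0 ^ 2) * A) (fun s => Real.exp (-s) • PD.Dk k s g) := by
  have hC := PD.C0_pos
  refine ⟨?_, ?_, ?_⟩
  · exact ContinuousOn.smul (Real.continuous_exp.comp continuous_neg).continuousOn (lin_dk_cont k g)
  · intro s hs
    rw [norm_smul, Real.norm_of_nonneg (Real.exp_pos _).le]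
    have h1 := PD.dk_hol k s g A hs hA hg
    have h2 : Real.exp (-s) * Real.exp (-s) ≤ Real.exp (-(s / 2)) := by
      rw [← Real.exp_add]; exact Real.exp_le_exp.2 (by linarith)
    calc Real.exp (-s) * ‖PD.Dk k s g‖
        ≤ Real.exp (-s) * (PD.C0 * (1 + (Real.sqrt s)⁻¹) * Real.exp (-s) * A) :=
          mul_le_mul_of_nonneg_left h1 (Real.exp_pos _).le
      _ = PD.C0 * A * ((1 + (Real.sqrt s)⁻¹) * (Real.exp (-s) * Real.exp (-s))) := by ring
      _ ≤ PD.C0 * A * ((1 + (Real.sqrt s)⁻¹) * Real.exp (-(s / 2))) := by gcongr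
      _ ≤ (PD.C0 + 12 * PD.C0 ^ 2) * A * linW s := by
          unfold linW
          have : 0 ≤ 12 * PD.C0 ^ 2 * A * ((1 + (Real.sqrt s)⁻¹) * Real.exp (-(s / 2))) := by
            positivity
          nlinarith
  · intro s hs θ η
    have hs2 : 0 < s / 2 := by linarith
    have h0 : PD.Dk k s g = PD.Po (s / 2) (PD.Dk k (s / 2) g) := by
      have := PD.dk_add' k (s / 2) (s / 2) hs2 hs2.le
      rw [show s / 2 + s / 2 = s by ring] at this
      rw [this]; rfl
    have h1 := PD.po_lip (s / 2) (PD.Dk k (s / 2) g) θ η hs2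
    rw [← h0] at h1
    have h2 := PD.dk_hol k (s / 2) g A hs2 hA hg
    have h3 := lin_sqrt_half hs
    have h4 : (s / 2)⁻¹ = 2 / s := by rw [inv_div]
    have h5 := lin_num hs
    have e1 : Real.exp (-s) ≤ 1 := Real.exp_le_one_iff.2 (by linarith)
    have e2 : Real.exp (-(s / 2)) ≤ 1 := Real.exp_le_one_iff.2 (by linarith)
    have hval : (Real.exp (-s) • PD.Dk k s g) θ - (Real.exp (-s) • PD.Dk k s g) η =
        Real.exp (-s) * (PD.Dk k s g θ - PD.Dk k s g η) := by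
      simp only [ContinuousMap.coe_smul, Pi.smul_apply, smul_eq_mul]; ring
    rw [hval, abs_mul, abs_of_pos (Real.exp_pos _)]
    have hd := dist_nonneg (x := θ) (y := η)
    calc Real.exp (-s) * |PD.Dk k s g θ - PD.Dk k s g η|
        ≤ 1 * (PD.C0 * (1 + (s / 2)⁻¹) * Real.exp (-(s / 2)) * ‖PD.Dk k (s / 2) g‖ * dist θ η) :=
          mul_le_mul e1 h1 (abs_nonneg _) zero_le_one
      _ ≤ 1 * (PD.C0 * (1 + (s / 2)⁻¹) * Real.exp (-(s / 2)) *
            (PD.C0 * (1 + 2 * (Real.sqrt s)⁻¹) * 1 * A) * dist θ η) := by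
          have hh : ‖PD.Dk k (s / 2) g‖ ≤ PD.C0 * (1 + 2 * (Real.sqrt s)⁻¹) * 1 * A :=
            h2.trans (by gcongr)
          gcongr
      _ = PD.C0 ^ 2 * A * (Real.exp (-(s / 2)) * (1 + 2 / s) * (1 + 2 * (Real.sqrt s)⁻¹)) *
            dist θ η := by rw [h4]; ring
      _ ≤ PD.C0 ^ 2 * A * (12 * s ^ (-(3 / 2) : ℝ)) * dist θ η := by gcongr
      _ ≤ (PD.C0 + 12 * PD.C0 ^ 2) * A * s ^ (-(3 / 2) : ℝ) * dist θ η := by
          have : 0 ≤ PD.C0 * A * s ^ (-(3 / 2) : ℝ) * dist θ η := by positivity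
          nlinarith

/-- decay of `Dk` on orthogonal functions -/
theorem lin_dk_orth (k : Fin 3) {f : C(S2, ℝ)} {A : ℝ} (hA : 0 ≤ A) (hf : LinHol A f)
    (ho : LinOrth f) {τ : ℝ} (hτ : 0 < τ) :
    ‖PD.Dk k τ f‖ ≤ (3 * PD.C0 + 6 * PD.C0 ^ 2) * (A + ‖f‖) * (1 + (Real.sqrt τ)⁻¹) *
      Real.exp (-(2 * τ)) := by
  have hC := PD.C0_pos
  have hnf := norm_nonneg f
  have hsq : 0 ≤ (Real.sqrt τ)⁻¹ := by positivity
  have he3 : Real.exp 1 ≤ 3 := Real.exp_one_lt_three.le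
  rcases le_or_gt τ 1 with h | h
  · have h1 := PD.dk_hol k τ f A hτ hA hf
    have h2 : Real.exp (-τ) ≤ 3 * Real.exp (-(2 * τ)) := by
      have : Real.exp (-τ) = Real.exp τ * Real.exp (-(2 * τ)) := by
        rw [← Real.exp_add]; congr 1; ring
      rw [this]
      exact mul_le_mul_of_nonneg_right ((Real.exp_le_exp.2 h).trans he3) (Real.exp_pos _).le
    calc ‖PD.Dk k τ f‖ ≤ PD.C0 * (1 + (Real.sqrt τ)⁻¹) * Real.exp (-τ) * A := h1
      _ ≤ PD.C0 * (1 + (Real.sqrt τ)⁻¹) * (3 * Real.exp (-(2 * τ))) * A := by gcongr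
      _ = (3 * PD.C0) * A * (1 + (Real.sqrt τ)⁻¹) * Real.exp (-(2 * τ)) := by ring
      _ ≤ (3 * PD.C0 + 6 * PD.C0 ^ 2) * (A + ‖f‖) * (1 + (Real.sqrt τ)⁻¹) *
            Real.exp (-(2 * τ)) := by
          gcongr
          · nlinarith [sq_nonneg PD.C0]
          · linarith
  · have h0 : PD.Dk k τ f = PD.Dk k 1 (PD.Po (τ - 1) f) := by
      have := PD.dk_add k 1 (τ - 1) one_pos (by linarith)
      rw [show 1 + (τ - 1) = τ by ring] at this
      rw [this]; rfl
    have h1 := PD.dk_norm k 1 (PD.Po (τ - 1) f) one_pos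
    have h2 := PD.po_decay2 (τ - 1) f (by linarith) ho.1 ho.2
    have h3 : Real.exp (-(2 * (τ - 1))) = Real.exp 1 * Real.exp 1 * Real.exp (-(2 * τ)) := by
      rw [← Real.exp_add, ← Real.exp_add]; congr 1; ring
    have h4 : Real.exp (-1) * (Real.exp 1 * Real.exp 1) = Real.exp 1 := by
      rw [← Real.exp_add, ← Real.exp_add]; congr 1; ring
    rw [h0]
    calc ‖PD.Dk k 1 (PD.Po (τ - 1) f)‖ ≤ PD.C0 * (1 + 1⁻¹) * Real.exp (-1) * ‖PD.Po (τ - 1) f‖ := h1
      _ ≤ PD.C0 * (1 + 1⁻¹) * Real.exp (-1) * (PD.C0 * Real.exp (-(2 * (τ - 1))) * ‖f‖) := by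
          gcongr
      _ = 2 * PD.C0 ^ 2 * ‖f‖ * (Real.exp (-1) * (Real.exp 1 * Real.exp 1)) *
            Real.exp (-(2 * τ)) := by rw [h3]; ring
      _ = 2 * PD.C0 ^ 2 * ‖f‖ * Real.exp 1 * Real.exp (-(2 * τ)) := by rw [h4]
      _ ≤ 2 * PD.C0 ^ 2 * ‖f‖ * 3 * Real.exp (-(2 * τ)) := by gcongr
      _ = (6 * PD.C0 ^ 2) * ‖f‖ * 1 * Real.exp (-(2 * τ)) := by ring
      _ ≤ (3 * PD.C0 + 6 * PD.C0 ^ 2) * (A + ‖f‖) * (1 + (Real.sqrt τ)⁻¹) *
            Real.exp (-(2 * τ)) := by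
          gcongr
          · linarith
          · linarith
          · linarith

/-- Curve (B) -/
theorem lin_curveB (k : Fin 3) {f : C(S2, ℝ)} {A : ℝ} (hA : 0 ≤ A) (hf : LinHol A f)
    (ho : LinOrth f) :
    ∃ B, 0 ≤ B ∧ LinCurve B (fun s => Real.exp s • PD.Dk k s f) := by
  have hC := PD.C0_pos
  have hnf := norm_nonneg f
  set C1 := (3 * PD.C0 + 6 * PD.C0 ^ 2) * (A + ‖f‖) with hC1
  have hC1' : 0 ≤ C1 := by positivity
  refine ⟨C1 + 12 * PD.C0 * C1, by positivity, ?_, ?_, ?_⟩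
  · exact ContinuousOn.smul Real.continuous_exp.continuousOn (lin_dk_cont k f)
  · intro s hs
    rw [norm_smul, Real.norm_of_nonneg (Real.exp_pos _).le]
    have h1 := lin_dk_orth k hA hf ho hs
    have h2 : Real.exp s * Real.exp (-(2 * s)) ≤ Real.exp (-(s / 2)) := by
      rw [← Real.exp_add]; exact Real.exp_le_exp.2 (by linarith)
    calc Real.exp s * ‖PD.Dk k s f‖
        ≤ Real.exp s * (C1 * (1 + (Real.sqrt s)⁻¹) * Real.exp (-(2 * s))) :=
          mul_le_mul_of_nonneg_left h1 (Real.exp_pos _).le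
      _ = C1 * ((1 + (Real.sqrt s)⁻¹) * (Real.exp s * Real.exp (-(2 * s)))) := by ring
      _ ≤ C1 * ((1 + (Real.sqrt s)⁻¹) * Real.exp (-(s / 2))) := by gcongr
      _ ≤ (C1 + 12 * PD.C0 * C1) * linW s := by
          unfold linW
          have : 0 ≤ 12 * PD.C0 * C1 * ((1 + (Real.sqrt s)⁻¹) * Real.exp (-(s / 2))) := by
            positivity
          nlinarith
  · intro s hs θ η
    have hs2 : 0 < s / 2 := by linarith
    have h0 : PD.Dk k s f = PD.Po (s / 2) (PD.Dk k (s / 2) f) := by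
      have := PD.dk_add' k (s / 2) (s / 2) hs2 hs2.le
      rw [show s / 2 + s / 2 = s by ring] at this
      rw [this]; rfl
    have h1 := PD.po_lip (s / 2) (PD.Dk k (s / 2) f) θ η hs2
    rw [← h0] at h1
    have h2 := lin_dk_orth k hA hf ho hs2
    rw [show 2 * (s / 2) = s by ring] at h2
    have h3 := lin_sqrt_half hs
    have h4 : (s / 2)⁻¹ = 2 / s := by rw [inv_div]
    have h5 := lin_num hs
    have hval : (Real.exp s • PD.Dk k s f) θ - (Real.exp s • PD.Dk k s f) η =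
        Real.exp s * (PD.Dk k s f θ - PD.Dk k s f η) := by
      simp only [ContinuousMap.coe_smul, Pi.smul_apply, smul_eq_mul]; ring
    rw [hval, abs_mul, abs_of_pos (Real.exp_pos _)]
    have hd := dist_nonneg (x := θ) (y := η)
    have e1 : Real.exp s * Real.exp (-s) = 1 := by rw [← Real.exp_add]; simp
    calc Real.exp s * |PD.Dk k s f θ - PD.Dk k s f η|
        ≤ Real.exp s * (PD.C0 * (1 + (s / 2)⁻¹) * Real.exp (-(s / 2)) *
            ‖PD.Dk k (s / 2) f‖ * dist θ η) := mul_le_mul_of_nonneg_left h1 (Real.exp_pos _).le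
      _ ≤ Real.exp s * (PD.C0 * (1 + (s / 2)⁻¹) * Real.exp (-(s / 2)) *
            (C1 * (1 + 2 * (Real.sqrt s)⁻¹) * Real.exp (-s)) * dist θ η) := by
          have hh : ‖PD.Dk k (s / 2) f‖ ≤ C1 * (1 + 2 * (Real.sqrt s)⁻¹) * Real.exp (-s) :=
            h2.trans (by gcongr)
          gcongr
      _ = PD.C0 * C1 * (Real.exp (-(s / 2)) * (1 + 2 / s) * (1 + 2 * (Real.sqrt s)⁻¹)) *
            dist θ η * (Real.exp s * Real.exp (-s)) := by rw [h4]; ring
      _ = PD.C0 * C1 * (Real.exp (-(s / 2)) * (1 + 2 / s) * (1 + 2 * (Real.sqrt s)⁻¹)) *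
            dist θ η := by rw [e1, mul_one]
      _ ≤ PD.C0 * C1 * (12 * s ^ (-(3 / 2) : ℝ)) * dist θ η := by gcongr
      _ ≤ (C1 + 12 * PD.C0 * C1) * s ^ (-(3 / 2) : ℝ) * dist θ η := by
          have : 0 ≤ C1 * s ^ (-(3 / 2) : ℝ) * dist θ η := by positivity
          nlinarith

/-- Curve (C) -/
theorem lin_curveC {f : C(S2, ℝ)} (ho : LinOrth f) :
    ∃ B, 0 ≤ B ∧ LinCurve B (fun s => Real.exp s • PD.Po s f) := by
  have hC := PD.C0_pos
  have hnf := norm_nonneg f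
  refine ⟨PD.C0 * ‖f‖ + 12 * PD.C0 ^ 2 * ‖f‖, by positivity, ?_, ?_, ?_⟩
  · exact ContinuousOn.smul Real.continuous_exp.continuousOn (PD.po_cont f).continuousOn
  · intro s hs
    rw [norm_smul, Real.norm_of_nonneg (Real.exp_pos _).le]
    have h1 := PD.po_decay2 s f hs.le ho.1 ho.2
    have h2 : Real.exp s * Real.exp (-(2 * s)) ≤ Real.exp (-(s / 2)) := by
      rw [← Real.exp_add]; exact Real.exp_le_exp.2 (by linarith)
    have hsq : 0 ≤ (Real.sqrt s)⁻¹ := by positivity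
    calc Real.exp s * ‖PD.Po s f‖
        ≤ Real.exp s * (PD.C0 * Real.exp (-(2 * s)) * ‖f‖) :=
          mul_le_mul_of_nonneg_left h1 (Real.exp_pos _).le
      _ = PD.C0 * ‖f‖ * (1 * (Real.exp s * Real.exp (-(2 * s)))) := by ring
      _ ≤ PD.C0 * ‖f‖ * ((1 + (Real.sqrt s)⁻¹) * Real.exp (-(s / 2))) := by
          gcongr
          linarith
      _ ≤ (PD.C0 * ‖f‖ + 12 * PD.C0 ^ 2 * ‖f‖) * linW s := by
          unfold linW
          have : 0 ≤ 12 * PD.C0 ^ 2 * ‖f‖ * ((1 + (Real.sqrt s)⁻¹) * Real.exp (-(s / 2))) := by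
            positivity
          nlinarith
  · intro s hs θ η
    have hs2 : 0 < s / 2 := by linarith
    have h0 : PD.Po s f = PD.Po (s / 2) (PD.Po (s / 2) f) := by
      have := PD.po_add (s / 2) (s / 2) hs2.le hs2.le
      rw [show s / 2 + s / 2 = s by ring] at this
      rw [this]; rfl
    have h1 := PD.po_lip (s / 2) (PD.Po (s / 2) f) θ η hs2
    rw [← h0] at h1
    have h2 := PD.po_decay2 (s / 2) f hs2.le ho.1 ho.2
    rw [show 2 * (s / 2) = s by ring] at h2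
    have h4 : (s / 2)⁻¹ = 2 / s := by rw [inv_div]
    have h5 := lin_num hs
    have hval : (Real.exp s • PD.Po s f) θ - (Real.exp s • PD.Po s f) η =
        Real.exp s * (PD.Po s f θ - PD.Po s f η) := by
      simp only [ContinuousMap.coe_smul, Pi.smul_apply, smul_eq_mul]; ring
    rw [hval, abs_mul, abs_of_pos (Real.exp_pos _)]
    have hd := dist_nonneg (x := θ) (y := η)
    have hsq : 0 ≤ (Real.sqrt s)⁻¹ := by positivity
    have e1 : Real.exp s * Real.exp (-s) = 1 := by rw [← Real.exp_add]; simp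
    calc Real.exp s * |PD.Po s f θ - PD.Po s f η|
        ≤ Real.exp s * (PD.C0 * (1 + (s / 2)⁻¹) * Real.exp (-(s / 2)) *
            ‖PD.Po (s / 2) f‖ * dist θ η) := mul_le_mul_of_nonneg_left h1 (Real.exp_pos _).le
      _ ≤ Real.exp s * (PD.C0 * (1 + (s / 2)⁻¹) * Real.exp (-(s / 2)) *
            (PD.C0 * Real.exp (-s) * ‖f‖) * dist θ η) := by gcongr
      _ = PD.C0 ^ 2 * ‖f‖ * (Real.exp (-(s / 2)) * (1 + 2 / s) * 1) *
            dist θ η * (Real.exp s * Real.exp (-s)) := by rw [h4]; ring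
      _ = PD.C0 ^ 2 * ‖f‖ * (Real.exp (-(s / 2)) * (1 + 2 / s) * 1) * dist θ η := by
          rw [e1, mul_one]
      _ ≤ PD.C0 ^ 2 * ‖f‖ * (Real.exp (-(s / 2)) * (1 + 2 / s) * (1 + 2 * (Real.sqrt s)⁻¹)) *
            dist θ η := by
          gcongr
          linarith
      _ ≤ PD.C0 ^ 2 * ‖f‖ * (12 * s ^ (-(3 / 2) : ℝ)) * dist θ η := by gcongr
      _ ≤ (PD.C0 * ‖f‖ + 12 * PD.C0 ^ 2 * ‖f‖) * s ^ (-(3 / 2) : ℝ) * dist θ η := by
          have : 0 ≤ PD.C0 * ‖f‖ * s ^ (-(3 / 2) : ℝ) * dist θ η := by positivity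
          nlinarith

theorem lin_ray0 (θ : S2) : ray 0 θ = toOm θ := by
  apply Subtype.ext
  simp [ray, toOm]

theorem lin_sl0 (f : Y) (θ : S2) : sl f 0 θ = f (toOm θ) := by
  show f (ray 0 θ) = _
  rw [lin_ray0]

theorem lin_dirS_toOm (θ : S2) : dirS ((toOm θ : Om) : E3) = θ := dirS_S2 θ

theorem lin_hol_sl (f : Y) : LinHol ‖f‖ (sl f 0) := by
  intro θ η
  rw [lin_sl0, lin_sl0]
  have h := f.abs_sub_le (x := toOm θ) (y := toOm η) (by
    show ‖(θ : E3)‖ = ‖(η : E3)‖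
    rw [norm_S2, norm_S2])
  unfold adist at h
  rwa [lin_dirS_toOm, lin_dirS_toOm] at h

theorem lin_norm_sl (f : Y) : ‖sl f 0‖ ≤ ‖f‖ := by
  rw [ContinuousMap.norm_le _ (norm_nonneg _)]
  intro θ
  rw [lin_sl0, Real.norm_eq_abs]
  exact f.abs_apply_le _

/-- radially constant extension -/
def linExt (u : C(S2, ℝ)) : Y := Y.mk (fun x => u (dirS (x : E3)))

theorem lin_adm {u : C(S2, ℝ)} {A : ℝ} (h1 : ‖u‖ ≤ A) (h2 : LinHol A u) :
    Y.Adm A (fun x => u (dirS (x : E3))) := by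
  refine ⟨u.continuous.comp continuous_dirOm, fun x => ?_, fun x y _ => h2 _ _⟩
  exact (u.norm_coe_le_norm _).trans h1

theorem linExt_apply {u : C(S2, ℝ)} {A : ℝ} (h1 : ‖u‖ ≤ A) (h2 : LinHol A u) (x : Om) :
    linExt u x = u (dirS (x : E3)) :=
  Y.mk_apply ((norm_nonneg u).trans h1) (lin_adm h1 h2) x

theorem linExt_toOm {u : C(S2, ℝ)} {A : ℝ} (h1 : ‖u‖ ≤ A) (h2 : LinHol A u) (θ : S2) :
    linExt u (toOm θ) = u θ := by
  rw [linExt_apply h1 h2, lin_dirS_toOm]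

theorem linExt_hom0 {u : C(S2, ℝ)} {A : ℝ} (h1 : ‖u‖ ≤ A) (h2 : LinHol A u) :
    Hom0 (linExt u) := by
  intro x
  rw [linExt_apply h1 h2, linExt_toOm h1 h2]

theorem linExt_norm {u : C(S2, ℝ)} {A : ℝ} (h1 : ‖u‖ ≤ A) (h2 : LinHol A u) :
    ‖linExt u‖ ≤ 2 * A :=
  Y.norm_mk_le ((norm_nonneg u).trans h1) (lin_adm h1 h2)

/-! ### The operator Lam0 -/

/-- constant in the bound of LX -/
def linCX : ℝ := ∑ k : Fin 3, ∑ i : Fin 3, ∑ j : Fin 3, |eps k i j| * ‖thY i‖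

theorem linCX_nonneg : 0 ≤ linCX := by
  unfold linCX
  positivity

theorem lin_LX_norm (w : Fin 4 → Y) (k : Fin 3) : ‖LX w k‖ ≤ linCX * ‖w‖ := by
  have h1 : ‖LX w k‖ ≤ ∑ i : Fin 3, ∑ j : Fin 3, |eps k i j| * ‖thY i‖ * ‖w‖ := by
    unfold LX cr
    refine (norm_sum_le _ _).trans (Finset.sum_le_sum (fun i _ => ?_))
    refine (norm_sum_le _ _).trans (Finset.sum_le_sum (fun j _ => ?_))
    refine (norm_smul_le _ _).trans ?_
    rw [Real.norm_eq_abs, mul_assoc]
    refine mul_le_mul_of_nonneg_left ?_ (abs_nonneg _)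
    exact (norm_mul_le _ _).trans
      (mul_le_mul_of_nonneg_left (norm_le_pi_norm w _) (norm_nonneg _))
  refine h1.trans ?_
  have h2 : ∑ i : Fin 3, ∑ j : Fin 3, |eps k i j| * ‖thY i‖ * ‖w‖ =
      (∑ i : Fin 3, ∑ j : Fin 3, |eps k i j| * ‖thY i‖) * ‖w‖ := by
    simp only [Finset.sum_mul]
  rw [h2]
  refine mul_le_mul_of_nonneg_right ?_ (norm_nonneg _)
  unfold linCX
  exact Finset.single_le_sum (f := fun k : Fin 3 => ∑ i : Fin 3, ∑ j : Fin 3, |eps k i j| * ‖thY i‖)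
    (fun _ _ => by positivity) (Finset.mem_univ k)

theorem lin_LX_curve (w : Fin 4 → Y) (k : Fin 3) :
    LinCurve ((PD.C0 + 12 * PD.C0 ^ 2) * ‖LX w k‖)
      (fun s => Real.exp (-s) • PD.Dk k s (sl (LX w k) 0)) :=
  lin_curveA k (norm_nonneg _) (lin_hol_sl (LX w k))

theorem lin_LX_add (w w' : Fin 4 → Y) (k : Fin 3) : LX (w + w') k = LX w k + LX w' k := by
  unfold LX cr
  simp only [Pi.add_apply, mul_add, smul_add, Finset.sum_add_distrib]

theorem lin_LX_smul (c : ℝ) (w : Fin 4 → Y) (k : Fin 3) : LX (c • w) k = c • LX w k := by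
  unfold LX cr
  simp only [Pi.smul_apply, Finset.smul_sum]
  refine Finset.sum_congr rfl (fun i _ => Finset.sum_congr rfl (fun j _ => ?_))
  rw [mul_smul_comm, smul_comm]

theorem lin_sl_add (f g : Y) (t : ℝ) : sl (f + g) t = sl f t + sl g t := by
  ext θ; rfl

theorem lin_sl_smul (c : ℝ) (f : Y) (t : ℝ) : sl (c • f) t = c • sl f t := by
  ext θ; rfl

theorem lin_Lam0_add (w w' : Fin 4 → Y) : Lam0 (w + w') = Lam0 w + Lam0 w' := by
  unfold Lam0
  rw [← neg_add, ← Finset.sum_add_distrib]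
  congr 1
  refine Finset.sum_congr rfl (fun k _ => ?_)
  rw [← integral_add (lin_LX_curve w k).int (lin_LX_curve w' k).int]
  refine integral_congr_ae (Filter.Eventually.of_forall (fun s => ?_))
  simp only [lin_LX_add, lin_sl_add, map_add, smul_add]

theorem lin_Lam0_smul (c : ℝ) (w : Fin 4 → Y) : Lam0 (c • w) = c • Lam0 w := by
  unfold Lam0
  rw [smul_neg, Finset.smul_sum]
  congr 1
  refine Finset.sum_congr rfl (fun k _ => ?_)
  rw [← integral_smul]
  refine integral_congr_ae (Filter.Eventually.of_forall (fun s => ?_))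
  simp only [lin_LX_smul, lin_sl_smul, map_smul]
  rw [smul_comm]

/-- the constant in the bound of Lam0 -/
def linCL : ℝ := 3 * ((linI + 14) * ((PD.C0 + 12 * PD.C0 ^ 2) * linCX))

theorem linCL_nonneg : 0 ≤ linCL := by
  have := PD.C0_pos
  have := linCX_nonneg
  have := linI_nonneg
  unfold linCL
  positivity

theorem lin_Lam0_norm (w : Fin 4 → Y) : ‖Lam0 w‖ ≤ linCL * ‖w‖ := by
  have hC := PD.C0_pos
  have hX := linCX_nonneg
  have hI := linI_nonneg
  have h1 : ∀ k : Fin 3, ‖∫ s in Ioi (0 : ℝ), Real.exp (-s) • PD.Dk k s (sl (LX w k) 0)‖ ≤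
      (linI + 14) * ((PD.C0 + 12 * PD.C0 ^ 2) * linCX) * ‖w‖ := by
    intro k
    refine (lin_LX_curve w k).norm.trans ?_
    have h2 := lin_LX_norm w k
    have h3 : (PD.C0 + 12 * PD.C0 ^ 2) * ‖LX w k‖ ≤ (PD.C0 + 12 * PD.C0 ^ 2) * (linCX * ‖w‖) :=
      mul_le_mul_of_nonneg_left h2 (by positivity)
    calc (PD.C0 + 12 * PD.C0 ^ 2) * ‖LX w k‖ * linI
        ≤ (PD.C0 + 12 * PD.C0 ^ 2) * (linCX * ‖w‖) * (linI + 14) :=
          mul_le_mul h3 (by linarith) hI (by positivity)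
      _ = (linI + 14) * ((PD.C0 + 12 * PD.C0 ^ 2) * linCX) * ‖w‖ := by ring
  unfold Lam0
  rw [norm_neg]
  refine (norm_sum_le _ _).trans ?_
  refine (Finset.sum_le_sum (fun k _ => h1 k)).trans (le_of_eq ?_)
  simp only [Finset.sum_const, Finset.card_univ, Fintype.card_fin, nsmul_eq_mul]
  unfold linCL
  push_cast
  ring

theorem lin_Lam0_hol (w : Fin 4 → Y) : LinHol (linCL * ‖w‖) (Lam0 w) := by
  intro θ η
  have hC := PD.C0_pos
  have hX := linCX_nonneg
  have hI := linI_nonneg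
  have h1 : ∀ k : Fin 3, |(∫ s in Ioi (0 : ℝ), Real.exp (-s) • PD.Dk k s (sl (LX w k) 0)) θ -
      (∫ s in Ioi (0 : ℝ), Real.exp (-s) • PD.Dk k s (sl (LX w k) 0)) η| ≤
      (linI + 14) * ((PD.C0 + 12 * PD.C0 ^ 2) * linCX) * ‖w‖ * Real.sqrt (dist θ η) := by
    intro k
    refine ((lin_LX_curve w k).hol (by positivity) θ η).trans ?_
    refine mul_le_mul_of_nonneg_right ?_ (Real.sqrt_nonneg _)
    have h2 := lin_LX_norm w k
    have h3 : (PD.C0 + 12 * PD.C0 ^ 2) * ‖LX w k‖ ≤ (PD.C0 + 12 * PD.C0 ^ 2) * (linCX * ‖w‖) :=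
      mul_le_mul_of_nonneg_left h2 (by positivity)
    calc 14 * ((PD.C0 + 12 * PD.C0 ^ 2) * ‖LX w k‖)
        ≤ (linI + 14) * ((PD.C0 + 12 * PD.C0 ^ 2) * (linCX * ‖w‖)) :=
          mul_le_mul (by linarith) h3 (by positivity) (by positivity)
      _ = (linI + 14) * ((PD.C0 + 12 * PD.C0 ^ 2) * linCX) * ‖w‖ := by ring
  have h2 : Lam0 w θ - Lam0 w η =
      -∑ k, ((∫ s in Ioi (0 : ℝ), Real.exp (-s) • PD.Dk k s (sl (LX w k) 0)) θ -
        (∫ s in Ioi (0 : ℝ), Real.exp (-s) • PD.Dk k s (sl (LX w k) 0)) η) := by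
    unfold Lam0
    rw [ContinuousMap.neg_apply, ContinuousMap.neg_apply, ContinuousMap.sum_apply,
      ContinuousMap.sum_apply, Finset.sum_sub_distrib]
    ring
  rw [h2, abs_neg]
  refine (Finset.abs_sum_le_sum_abs _ _).trans ?_
  refine (Finset.sum_le_sum (fun k _ => h1 k)).trans (le_of_eq ?_)
  simp only [Finset.sum_const, Finset.card_univ, Fintype.card_fin, nsmul_eq_mul]
  unfold linCL
  push_cast
  ring

theorem lin_cont_int (f : C(S2, ℝ)) : Integrable (fun θ => f θ) sig := by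
  have : Integrable (fun _ : S2 => ‖f‖) sig := integrable_const _
  exact this.mono' f.continuous.aestronglyMeasurable
    (Filter.Eventually.of_forall (fun θ => f.norm_coe_le_norm θ))

/-- pairing with `h` -/
def linFun (h : C(S2, ℝ)) : C(S2, ℝ) →L[ℝ] ℝ :=
  LinearMap.mkContinuous
    { toFun := fun u => ∫ θ, h θ * u θ ∂sig
      map_add' := fun u v => by
        have h0 := integral_add (lin_cont_int (h * u)) (lin_cont_int (h * v))
        refine Eq.trans (integral_congr_ae (Filter.Eventually.of_forall (fun θ => ?_))) h0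
        simp only [ContinuousMap.add_apply, ContinuousMap.mul_apply]
        ring
      map_smul' := fun c u => by
        rw [RingHom.id_apply, smul_eq_mul, ← integral_const_mul]
        refine integral_congr_ae (Filter.Eventually.of_forall (fun θ => ?_))
        simp only [ContinuousMap.smul_apply, smul_eq_mul]
        ring } (sig.real univ * ‖h‖) (fun u => by
        have h1 : ‖∫ θ, h θ * u θ ∂sig‖ ≤ (‖h‖ * ‖u‖) * sig.real univ := by
          refine norm_integral_le_of_norm_le_const (Filter.Eventually.of_forall (fun θ => ?_))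
          rw [norm_mul]
          exact mul_le_mul (h.norm_coe_le_norm θ) (u.norm_coe_le_norm θ) (norm_nonneg _)
            (norm_nonneg _)
        refine h1.trans (le_of_eq ?_)
        ring)

theorem linFun_apply (h u : C(S2, ℝ)) : linFun h u = ∫ θ, h θ * u θ ∂sig := rfl

theorem linOrth_iff (u : C(S2, ℝ)) : LinOrth u ↔ linFun 1 u = 0 ∧ ∀ i, linFun (xi i) u = 0 := by
  unfold LinOrth
  simp only [linFun_apply, ContinuousMap.one_apply, one_mul]

theorem lin_fun_po (τ : ℝ) (h u : C(S2, ℝ)) : linFun h (PD.Po τ u) = linFun (PD.Po τ h) u := by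
  rw [linFun_apply, linFun_apply, PD.po_symm]

theorem lin_fun_la (τ : ℝ) (hτ : 0 < τ) (h u : C(S2, ℝ)) :
    linFun h (PD.La τ u) = linFun (PD.La τ h) u := by
  rw [linFun_apply, linFun_apply, PD.la_symm τ h u hτ]

theorem lin_fun_smul (c : ℝ) (h u : C(S2, ℝ)) : linFun (c • h) u = c * linFun h u := by
  rw [linFun_apply, linFun_apply, ← integral_const_mul]
  refine integral_congr_ae (Filter.Eventually.of_forall (fun θ => ?_))
  simp only [ContinuousMap.smul_apply, smul_eq_mul]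
  ring

theorem lin_fun_zero (u : C(S2, ℝ)) : linFun 0 u = 0 := by
  rw [linFun_apply]
  simp

theorem lin_la_one (τ : ℝ) (hτ : 0 < τ) : PD.La τ 1 = 0 := by
  have h1 := PD.po_deriv τ 1 hτ
  have h2 : HasDerivAt (fun τ => PD.Po τ (1 : C(S2, ℝ))) 0 τ := by
    have : (fun τ => PD.Po τ (1 : C(S2, ℝ))) = fun _ => (1 : C(S2, ℝ)) :=
      funext (fun τ => PD.po_one τ)
    rw [this]
    exact hasDerivAt_const _ _
  have h3 := h1.unique h2
  exact neg_eq_zero.1 h3

theorem lin_la_xi (τ : ℝ) (hτ : 0 < τ) (i : Fin 3) : PD.La τ (xi i) = Real.exp (-τ) • xi i := by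
  have h1 := PD.po_deriv τ (xi i) hτ
  have h2 : HasDerivAt (fun τ => PD.Po τ (xi i)) (-(Real.exp (-τ) • xi i)) τ := by
    have h3 : HasDerivAt (fun τ : ℝ => Real.exp (-τ) • xi i) ((Real.exp (-τ) * (-1)) • xi i) τ :=
      ((Real.hasDerivAt_exp (-τ)).comp τ (hasDerivAt_neg τ)).smul_const (xi i)
    have h4 : (Real.exp (-τ) * (-1)) • xi i = -(Real.exp (-τ) • xi i) := by
      rw [mul_neg_one, neg_smul]
    rw [h4] at h3
    refine h3.congr_of_eventuallyEq ?_
    filter_upwards [Ioi_mem_nhds hτ] with t ht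
    exact PD.po_xi t i (le_of_lt ht)
  have h3 := h1.unique h2
  exact neg_injective h3

/-- the restriction to the sphere of an element of X -/
theorem lin_orth_X {w : Fin 4 → Y} (hw : IsX w) : LinOrth (sl (w 0) 0) := by
  refine ⟨?_, fun i => ?_⟩
  · simp only [lin_sl0]
    exact hw.2.2.1
  · simp only [lin_sl0]
    exact hw.2.2.2 i

theorem lin_orth_YP {f : Y} (hf : IsYP f) : LinOrth (sl f 0) := by
  refine ⟨?_, fun i => ?_⟩
  · simp only [lin_sl0]
    exact hf.2.1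
  · simp only [lin_sl0]
    exact hf.2.2 i

theorem lin_Lam0_orth {w : Fin 4 → Y} (hw : IsX w) : LinOrth (Lam0 w) := by
  have ho := (linOrth_iff _).1 (lin_orth_X hw)
  have hreg := Lam0_reg w hw 1 one_pos
  rw [linOrth_iff]
  refine ⟨?_, fun i => ?_⟩
  · have h1 : linFun 1 (Lam0 w) = linFun (PD.Po 1 1) (Lam0 w) := by rw [PD.po_one]
    rw [h1, ← lin_fun_po, hreg, lin_fun_la 1 one_pos, lin_la_one 1 one_pos, lin_fun_zero]
  · have h1 : linFun (PD.Po 1 (xi i)) (Lam0 w) = 0 := by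
      rw [← lin_fun_po, hreg, lin_fun_la 1 one_pos, lin_la_xi 1 one_pos, lin_fun_smul, ho.2 i,
        mul_zero]
    rw [PD.po_xi 1 i zero_le_one, lin_fun_smul] at h1
    exact (mul_eq_zero.1 h1).resolve_left (Real.exp_pos _).ne'

/-- the forward map, as an element of Y -/
def linEY (w : Fin 4 → Y) : Y := linExt (Lam0 w) - w 0

theorem linEY_toOm (w : Fin 4 → Y) (θ : S2) :
    linEY w (toOm θ) = Lam0 w θ - w 0 (toOm θ) := by
  unfold linEY
  rw [Y.sub_apply, linExt_toOm (lin_Lam0_norm w) (lin_Lam0_hol w)]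

theorem lin_isYP_EY {w : Fin 4 → Y} (hw : IsX w) : IsYP (linEY w) := by
  have hL := lin_Lam0_orth hw
  have hX := lin_orth_X hw
  have hsub : LinOrth (Lam0 w - sl (w 0) 0) := by
    rw [linOrth_iff] at hL hX ⊢
    refine ⟨?_, fun i => ?_⟩
    · rw [map_sub, hL.1, hX.1, sub_zero]
    · rw [map_sub, hL.2 i, hX.2 i, sub_zero]
  have hval : ∀ θ, (Lam0 w - sl (w 0) 0) θ = linEY w (toOm θ) := by
    intro θ
    rw [linEY_toOm, ContinuousMap.sub_apply, lin_sl0]
  refine ⟨?_, ?_, fun i => ?_⟩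
  · intro x
    unfold linEY
    rw [Y.sub_apply, Y.sub_apply, linExt_hom0 (lin_Lam0_norm w) (lin_Lam0_hol w) x, hw.1 0 x]
  · have := hsub.1
    simp only [hval] at this
    exact this
  · have := hsub.2 i
    simp only [hval] at this
    exact this

theorem lin_EY_add (w w' : Fin 4 → Y) : linEY (w + w') = linEY w + linEY w' := by
  ext x
  unfold linEY
  rw [Y.sub_apply, Y.add_apply, Y.sub_apply, Y.sub_apply,
    linExt_apply (lin_Lam0_norm (w + w')) (lin_Lam0_hol (w + w')),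
    linExt_apply (lin_Lam0_norm w) (lin_Lam0_hol w),
    linExt_apply (lin_Lam0_norm w') (lin_Lam0_hol w'), lin_Lam0_add, ContinuousMap.add_apply,
    Pi.add_apply, Y.add_apply]
  ring

theorem lin_EY_smul (c : ℝ) (w : Fin 4 → Y) : linEY (c • w) = c • linEY w := by
  ext x
  unfold linEY
  rw [Y.sub_apply, Y.smul_apply, Y.sub_apply,
    linExt_apply (lin_Lam0_norm (c • w)) (lin_Lam0_hol (c • w)),
    linExt_apply (lin_Lam0_norm w) (lin_Lam0_hol w), lin_Lam0_smul, ContinuousMap.smul_apply,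
    smul_eq_mul, Pi.smul_apply, Y.smul_apply]
  ring

theorem lin_EY_norm (w : Fin 4 → Y) : ‖linEY w‖ ≤ (2 * linCL + 1) * ‖w‖ := by
  unfold linEY
  have h1 := linExt_norm (lin_Lam0_norm w) (lin_Lam0_hol w)
  have h2 : ‖w 0‖ ≤ ‖w‖ := norm_le_pi_norm w 0
  calc ‖linExt (Lam0 w) - w 0‖ ≤ ‖linExt (Lam0 w)‖ + ‖w 0‖ := norm_sub_le _ _
    _ ≤ 2 * (linCL * ‖w‖) + ‖w‖ := add_le_add h1 h2
    _ = (2 * linCL + 1) * ‖w‖ := by ring

/-- the forward map -/
def linE0 : Xs →L[ℝ] YPs :=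
  LinearMap.mkContinuous
    { toFun := fun w => ⟨linEY w.1, lin_isYP_EY w.2⟩
      map_add' := fun w w' => Subtype.ext (lin_EY_add w.1 w'.1)
      map_smul' := fun c w => Subtype.ext (lin_EY_smul c w.1) } (2 * linCL + 1)
    (fun w => lin_EY_norm w.1)

theorem linE0_apply (w : Xs) (θ : S2) :
    (linE0 w : Y) (toOm θ) = Lam0 w.1 θ - w.1 0 (toOm θ) := linEY_toOm w.1 θ

/-! ### Limit at `0` of the semigroup -/

theorem lin_po_zero (u : C(S2, ℝ)) : Tendsto (fun ε => PD.Po ε u) (𝓝[>] 0) (𝓝 u) := by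
  have h1 : Tendsto (fun ε => PD.Po ε u) (𝓝 0) (𝓝 (PD.Po 0 u)) := (PD.po_cont u).tendsto 0
  have h2 : PD.Po 0 u = u := by
    rw [PD.po_nonpos 0 le_rfl]; rfl
  rw [h2] at h1
  exact h1.mono_left nhdsWithin_le_nhds

theorem lin_po_ext {u v : C(S2, ℝ)} (h : ∀ ε, 0 < ε → PD.Po ε u = PD.Po ε v) : u = v := by
  refine tendsto_nhds_unique (lin_po_zero u) ((lin_po_zero v).congr' ?_)
  filter_upwards [self_mem_nhdsWithin] with ε hε
  exact (h ε hε).symm

/-! ### Injectivity -/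

theorem lin_inj0 {u : C(S2, ℝ)} (ho : LinOrth u) (h : ∀ ε, 0 < ε → PD.Po ε u = PD.La ε u) :
    u = 0 := by
  have hC := PD.C0_pos
  -- the function exp(ε) Po ε u is constant
  have hder : ∀ τ, 0 < τ → HasDerivAt (fun τ => Real.exp τ • PD.Po τ u) 0 τ := by
    intro τ hτ
    have h1 := (Real.hasDerivAt_exp τ).smul (PD.po_deriv τ u hτ)
    rw [← h τ hτ] at h1
    have h2 : Real.exp τ • -(PD.Po τ) u + Real.exp τ • (PD.Po τ) u = 0 := by
      rw [smul_neg, neg_add_cancel]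
    rw [h2] at h1
    exact h1
  have hconst : ∀ s t, 0 < s → 0 < t → Real.exp s • PD.Po s u = Real.exp t • PD.Po t u := by
    intro s t hs ht
    exact (convex_Ioi (0 : ℝ)).is_const_of_fderivWithin_eq_zero (𝕜 := ℝ)
      (fun x hx => (hder x hx).differentiableAt.differentiableWithinAt)
      (fun x hx => by
        rw [fderivWithin_of_isOpen isOpen_Ioi hx]
        have := (hder x hx).hasFDerivAt.fderiv
        rw [this]
        ext
        simp) hs ht
  have hlim : Tendsto (fun t => Real.exp t • PD.Po t u) atTop (𝓝 0) := by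
    rw [tendsto_zero_iff_norm_tendsto_zero]
    have h1 : Tendsto (fun t : ℝ => PD.C0 * ‖u‖ * Real.exp (-t)) atTop (𝓝 (PD.C0 * ‖u‖ * 0)) :=
      (Real.tendsto_exp_neg_atTop_nhds_zero).const_mul _
    rw [mul_zero] at h1
    refine squeeze_zero' (Filter.Eventually.of_forall (fun t => norm_nonneg _)) ?_ h1
    filter_upwards [eventually_ge_atTop (0 : ℝ)] with t ht
    rw [norm_smul, Real.norm_of_nonneg (Real.exp_pos _).le]
    have h2 := PD.po_decay2 t u ht ho.1 ho.2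
    calc Real.exp t * ‖PD.Po t u‖ ≤ Real.exp t * (PD.C0 * Real.exp (-(2 * t)) * ‖u‖) :=
          mul_le_mul_of_nonneg_left h2 (Real.exp_pos _).le
      _ = PD.C0 * ‖u‖ * (Real.exp t * Real.exp (-(2 * t))) := by ring
      _ = PD.C0 * ‖u‖ * Real.exp (-t) := by
          rw [← Real.exp_add]; congr 2; ring
  refine lin_po_ext (fun ε hε => ?_)
  rw [map_zero]
  have h3 : Tendsto (fun t => Real.exp t • PD.Po t u) atTop (𝓝 (Real.exp ε • PD.Po ε u)) := by
    refine tendsto_const_nhds.congr' ?_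
    filter_upwards [eventually_gt_atTop (0 : ℝ)] with t ht
    exact hconst ε t hε ht
  have h4 := tendsto_nhds_unique h3 hlim
  exact (smul_eq_zero.1 h4).resolve_left (Real.exp_pos _).ne'

theorem lin_mkE_norm (v : Fin 3 → ℝ) : ‖mkE v‖ ≤ ∑ k, |v k| := by
  rw [EuclideanSpace.norm_eq]
  apply Real.sqrt_le_iff.2
  refine ⟨by positivity, ?_⟩
  simp only [mkE_apply, Real.norm_eq_abs, Fin.sum_univ_three]
  have h0 := abs_nonneg (v 0)
  have h1 := abs_nonneg (v 1)
  have h2 := abs_nonneg (v 2)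
  nlinarith [mul_nonneg h0 h1, mul_nonneg h0 h2, mul_nonneg h1 h2]

theorem lin_eps_le (k i j : Fin 3) : |eps k i j| ≤ 1 := by
  unfold eps
  split_ifs <;> norm_num

theorem lin_S2_coord (θ : S2) (j : Fin 3) : |(θ : E3) j| ≤ 1 := by
  have h := EuclideanSpace.norm_eq (θ : E3)
  have h1 : ‖(θ : E3) j‖ ≤ ‖(θ : E3)‖ := PiLp.norm_apply_le (θ : E3) j
  rw [norm_S2, Real.norm_eq_abs] at h1
  exact h1

theorem lin_cr_norm (d : Fin 3 → ℝ) (θ : S2) :
    ‖mkE (fun k => cr d (fun a => (θ : E3) a) k)‖ ≤ 9 * ∑ a, |d a| := by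
  refine (lin_mkE_norm _).trans ?_
  have h1 : ∀ k : Fin 3, |cr d (fun a => (θ : E3) a) k| ≤ 3 * ∑ a, |d a| := by
    intro k
    unfold cr
    have h2 : ∀ i j : Fin 3, |eps k i j • (d i * (θ : E3) j)| ≤ |d i| := by
      intro i j
      rw [smul_eq_mul, abs_mul, abs_mul]
      have ha := lin_eps_le k i j
      have hb := lin_S2_coord θ j
      have hc := abs_nonneg (d i)
      calc |eps k i j| * (|d i| * |(θ : E3) j|) ≤ 1 * (|d i| * 1) := by gcongr
        _ = |d i| := by ring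
    calc |∑ i, ∑ j, eps k i j • (d i * (θ : E3) j)|
        ≤ ∑ i, |∑ j, eps k i j • (d i * (θ : E3) j)| := Finset.abs_sum_le_sum_abs _ _
      _ ≤ ∑ i, ∑ j, |eps k i j • (d i * (θ : E3) j)| :=
          Finset.sum_le_sum (fun i _ => Finset.abs_sum_le_sum_abs _ _)
      _ ≤ ∑ i : Fin 3, ∑ _j : Fin 3, |d i| :=
          Finset.sum_le_sum (fun i _ => Finset.sum_le_sum (fun j _ => h2 i j))
      _ = 3 * ∑ a, |d a| := by
          simp only [Finset.sum_const, Finset.card_univ, Fintype.card_fin, nsmul_eq_mul,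
            Finset.mul_sum]
          push_cast
          rfl
  refine (Finset.sum_le_sum (fun k _ => h1 k)).trans (le_of_eq ?_)
  simp only [Finset.sum_const, Finset.card_univ, Fintype.card_fin, nsmul_eq_mul]
  push_cast
  ring

theorem lin_cr_sub (a a' b : Fin 3 → ℝ) (k : Fin 3) :
    cr a b k - cr a' b k = cr (fun i => a i - a' i) b k := by
  unfold cr
  rw [← Finset.sum_sub_distrib]
  refine Finset.sum_congr rfl (fun i _ => ?_)
  rw [← Finset.sum_sub_distrib]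
  refine Finset.sum_congr rfl (fun j _ => ?_)
  simp only [smul_eq_mul]
  ring

/-- closure of the class `C^1` under the regularisation -/
theorem lin_c1_closure {u : C(S2, ℝ)} {v : Fin 3 → C(S2, ℝ)}
    (h : ∀ ε, 0 < ε → ∀ a, PD.Dk a ε u = PD.Po ε (v a)) :
    IsC1S u (fun k θ => cr (fun a => v a θ) (fun a => (θ : E3) a) k) := by
  refine ⟨fun k => ?_, fun x hx => ?_⟩
  · unfold cr
    fun_prop
  have hnx : 0 < ‖x‖ := norm_pos_iff.2 hx
  have hball : ∀ y ∈ Metric.ball x (‖x‖ / 2), ‖x‖ / 2 < ‖y‖ := by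
    intro y hy
    have h1 : ‖x - y‖ < ‖x‖ / 2 := by
      rw [← dist_eq_norm, dist_comm]; exact hy
    have h2 : ‖x‖ ≤ ‖x - y‖ + ‖y‖ := by
      calc ‖x‖ = ‖(x - y) + y‖ := by rw [sub_add_cancel]
        _ ≤ _ := norm_add_le _ _
    linarith
  have hball0 : ∀ y ∈ Metric.ball x (‖x‖ / 2), y ≠ 0 := by
    intro y hy h0
    have := hball y hy
    rw [h0, norm_zero] at this
    linarith
  have hεpos : ∀ n : ℕ, 0 < 1 / ((n : ℝ) + 1) := fun n => by positivity
  have hεlim : Tendsto (fun n : ℕ => 1 / ((n : ℝ) + 1)) atTop (𝓝[>] 0) := by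
    rw [tendsto_nhdsWithin_iff]
    exact ⟨tendsto_one_div_add_atTop_nhds_zero_nat, Filter.Eventually.of_forall (fun n => hεpos n)⟩
  refine hasFDerivAt_of_tendstoUniformlyOn (l := (atTop : Filter ℕ))
    (f := fun n y => PD.Po (1 / ((n : ℝ) + 1)) u (dirS y))
    (f' := fun n y => innerSL ℝ (‖y‖⁻¹ • mkE (fun k =>
      cr (fun a => PD.Po (1 / ((n : ℝ) + 1)) (v a) (dirS y)) (fun a => (dirS y : E3) a) k)))
    (g' := fun y => innerSL ℝ (‖y‖⁻¹ • mkE (fun k =>
      cr (fun a => v a (dirS y)) (fun a => (dirS y : E3) a) k)))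
    (s := Metric.ball x (‖x‖ / 2)) Metric.isOpen_ball ?_ ?_ ?_ (Metric.mem_ball_self (by linarith))
  · rw [Metric.tendstoUniformlyOn_iff]
    intro δ hδ
    have hsum : Tendsto (fun n : ℕ => ∑ a : Fin 3, ‖v a - PD.Po (1 / ((n : ℝ) + 1)) (v a)‖) atTop
        (𝓝 (∑ a : Fin 3, (0 : ℝ))) := by
      refine tendsto_finsetSum _ (fun a _ => ?_)
      have h1 : Tendsto (fun n : ℕ => v a - PD.Po (1 / ((n : ℝ) + 1)) (v a)) atTop
          (𝓝 (v a - v a)) := ((lin_po_zero (v a)).comp hεlim).const_sub (v a)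
      rw [sub_self] at h1
      have h2 := h1.norm
      rwa [norm_zero] at h2
    rw [Finset.sum_const_zero] at hsum
    have hδ' : 0 < δ * (‖x‖ / 2) / 10 := by positivity
    filter_upwards [hsum.eventually (gt_mem_nhds hδ')] with n hn y hy
    have hy1 := hball y hy
    have hypos : 0 < ‖y‖ := by linarith
    rw [dist_eq_norm, ← map_sub, innerSL_apply_norm, ← smul_sub, norm_smul, norm_inv, norm_norm]
    have h3 : mkE (fun k => cr (fun a => v a (dirS y)) (fun a => (dirS y : E3) a) k) -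
        mkE (fun k => cr (fun a => PD.Po (1 / ((n : ℝ) + 1)) (v a) (dirS y))
          (fun a => (dirS y : E3) a) k) =
        mkE (fun k => cr (fun a => v a (dirS y) - PD.Po (1 / ((n : ℝ) + 1)) (v a) (dirS y))
          (fun a => (dirS y : E3) a) k) := by
      ext k
      rw [PiLp.sub_apply, mkE_apply, mkE_apply, mkE_apply, lin_cr_sub]
    rw [h3]
    have h4 := lin_cr_norm
      (fun a => v a (dirS y) - PD.Po (1 / ((n : ℝ) + 1)) (v a) (dirS y)) (dirS y)
    have h5 : ∑ a : Fin 3, |v a (dirS y) - PD.Po (1 / ((n : ℝ) + 1)) (v a) (dirS y)| ≤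
        ∑ a : Fin 3, ‖v a - PD.Po (1 / ((n : ℝ) + 1)) (v a)‖ := by
      refine Finset.sum_le_sum (fun a _ => ?_)
      exact (v a - PD.Po (1 / ((n : ℝ) + 1)) (v a)).norm_coe_le_norm (dirS y)
    have h6 : ‖y‖⁻¹ ≤ (‖x‖ / 2)⁻¹ := inv_anti₀ (by linarith) hy1.le
    calc ‖y‖⁻¹ * ‖mkE (fun k => cr (fun a => v a (dirS y) -
            PD.Po (1 / ((n : ℝ) + 1)) (v a) (dirS y)) (fun a => (dirS y : E3) a) k)‖
        ≤ (‖x‖ / 2)⁻¹ * (9 * ∑ a : Fin 3, ‖v a - PD.Po (1 / ((n : ℝ) + 1)) (v a)‖) := by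
          refine mul_le_mul h6 (h4.trans (mul_le_mul_of_nonneg_left h5 (by norm_num)))
            (norm_nonneg _) (by positivity)
      _ ≤ (‖x‖ / 2)⁻¹ * (9 * (δ * (‖x‖ / 2) / 10)) := by
          refine mul_le_mul_of_nonneg_left ?_ (by positivity)
          exact mul_le_mul_of_nonneg_left hn.le (by norm_num)
      _ = δ * (9 / 10) := by field_simp
      _ < δ := by linarith
  · intro n y hy
    have h1 := (PD.po_c1 (1 / ((n : ℝ) + 1)) u (hεpos n)).2 y (hball0 y hy)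
    simp only [h _ (hεpos n)] at h1
    exact h1
  · intro y _
    have h1 : Tendsto (fun n : ℕ => PD.Po (1 / ((n : ℝ) + 1)) u) atTop (𝓝 u) :=
      (lin_po_zero u).comp hεlim
    exact ((ContinuousMap.evalCLM ℝ (dirS y) : C(S2, ℝ) →L[ℝ] ℝ).continuous.tendsto u).comp h1

/-! ### The inverse -/

theorem lin_dk_po (a : Fin 3) {ε s : ℝ} (hε : 0 < ε) (hs : 0 < s) (f : C(S2, ℝ)) :
    PD.Dk a ε (PD.Po s f) = PD.Po ε (PD.Dk a s f) := by
  have h1 := PD.dk_add a ε s hε hs.le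
  have h2 := PD.dk_add' a s ε hs hε.le
  rw [add_comm s ε, h1] at h2
  have := congrArg (fun T : C(S2, ℝ) →L[ℝ] C(S2, ℝ) => T f) h2
  simpa using this

/-- the resolvent -/
def linR (f : C(S2, ℝ)) : C(S2, ℝ) := ∫ s in Ioi (0 : ℝ), Real.exp s • PD.Po s f

/-- rotation derivatives of the resolvent -/
def linRa (a : Fin 3) (f : C(S2, ℝ)) : C(S2, ℝ) := ∫ s in Ioi (0 : ℝ), Real.exp s • PD.Dk a s f

theorem lin_R_int {f : C(S2, ℝ)} (ho : LinOrth f) :
    IntegrableOn (fun s => Real.exp s • PD.Po s f) (Ioi 0) := by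
  obtain ⟨B, _, h⟩ := lin_curveC ho
  exact h.int

theorem lin_Ra_int (a : Fin 3) {f : C(S2, ℝ)} {A : ℝ} (hA : 0 ≤ A) (hf : LinHol A f)
    (ho : LinOrth f) : IntegrableOn (fun s => Real.exp s • PD.Dk a s f) (Ioi 0) := by
  obtain ⟨B, _, h⟩ := lin_curveB a hA hf ho
  exact h.int

theorem lin_R_bdd {f : C(S2, ℝ)} (ho : LinOrth f) :
    ∃ A, ‖linR f‖ ≤ A ∧ LinHol A (linR f) := by
  obtain ⟨B, hB, h⟩ := lin_curveC ho
  have hI := linI_nonneg
  refine ⟨(linI + 14) * B, ?_, ?_⟩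
  · refine h.norm.trans ?_
    nlinarith
  · intro θ η
    refine (h.hol hB θ η).trans (mul_le_mul_of_nonneg_right ?_ (Real.sqrt_nonneg _))
    nlinarith

theorem lin_Ra_bdd (a : Fin 3) {f : C(S2, ℝ)} {A : ℝ} (hA : 0 ≤ A) (hf : LinHol A f)
    (ho : LinOrth f) : ∃ A, ‖linRa a f‖ ≤ A ∧ LinHol A (linRa a f) := by
  obtain ⟨B, hB, h⟩ := lin_curveB a hA hf ho
  have hI := linI_nonneg
  refine ⟨(linI + 14) * B, ?_, ?_⟩
  · refine h.norm.trans ?_
    nlinarith
  · intro θ η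
    refine (h.hol hB θ η).trans (mul_le_mul_of_nonneg_right ?_ (Real.sqrt_nonneg _))
    nlinarith

theorem lin_R_dk (a : Fin 3) {f : C(S2, ℝ)} {A : ℝ} (hA : 0 ≤ A) (hf : LinHol A f)
    (ho : LinOrth f) {ε : ℝ} (hε : 0 < ε) :
    PD.Dk a ε (linR f) = PD.Po ε (linRa a f) := by
  unfold linR linRa
  have h1 := (PD.Dk a ε).integral_comp_comm (lin_R_int ho)
  have h2 := (PD.Po ε).integral_comp_comm (lin_Ra_int a hA hf ho)
  rw [← h1, ← h2]
  refine setIntegral_congr_fun measurableSet_Ioi (fun s hs => ?_)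
  simp only [map_smul]
  rw [lin_dk_po a hε hs f]

theorem lin_R_c1 {f : C(S2, ℝ)} {A : ℝ} (hA : 0 ≤ A) (hf : LinHol A f)
    (ho : LinOrth f) :
    IsC1S (linR f) (fun k θ => cr (fun a => linRa a f θ) (fun a => (θ : E3) a) k) :=
  lin_c1_closure (v := fun a => linRa a f) (fun _ hε a => lin_R_dk a hA hf ho hε)

theorem lin_R_orth {f : C(S2, ℝ)} (ho : LinOrth f) : LinOrth (linR f) := by
  have ho' := (linOrth_iff f).1 ho
  have hint := lin_R_int ho
  rw [linOrth_iff]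
  refine ⟨?_, fun i => ?_⟩
  · unfold linR
    rw [← (linFun 1).integral_comp_comm hint]
    have : ∀ s ∈ Ioi (0 : ℝ), linFun 1 (Real.exp s • PD.Po s f) = 0 := by
      intro s _
      rw [map_smul, lin_fun_po, PD.po_one, ho'.1, smul_zero]
    rw [setIntegral_congr_fun measurableSet_Ioi this, integral_zero]
  · unfold linR
    rw [← (linFun (xi i)).integral_comp_comm hint]
    have : ∀ s ∈ Ioi (0 : ℝ), linFun (xi i) (Real.exp s • PD.Po s f) = 0 := by
      intro s hs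
      rw [map_smul, lin_fun_po, PD.po_xi s i (le_of_lt hs), lin_fun_smul, ho'.2 i, mul_zero,
        smul_zero]
    rw [setIntegral_congr_fun measurableSet_Ioi this, integral_zero]

/-- the equation of the resolvent -/
theorem lin_R_eq {f : C(S2, ℝ)} (ho : LinOrth f) {ε : ℝ} (hε : 0 < ε) :
    PD.La ε (linR f) = PD.Po ε (linR f + f) := by
  have hC := PD.C0_pos
  have hint := lin_R_int ho
  have h1 := (PD.La ε).integral_comp_comm hint
  have h2 := (PD.Po ε).integral_comp_comm hint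
  have i1 := (PD.La ε).integrable_comp hint
  have i2 := (PD.Po ε).integrable_comp hint
  have e1 : ∀ s ∈ Ioi (0 : ℝ), PD.La ε (Real.exp s • PD.Po s f) = Real.exp s • PD.La (s + ε) f := by
    intro s hs
    have := PD.la_add ε s hε (le_of_lt hs)
    rw [add_comm ε s] at this
    rw [map_smul, this]
    rfl
  have e2 : ∀ s ∈ Ioi (0 : ℝ), PD.Po ε (Real.exp s • PD.Po s f) = Real.exp s • PD.Po (s + ε) f := by
    intro s hs
    have := PD.po_add ε s hε.le (le_of_lt hs)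
    rw [add_comm ε s] at this
    rw [map_smul, this]
    rfl
  have hder : ∀ s ∈ Ioi (0 : ℝ), HasDerivAt (fun s => Real.exp s • PD.Po (s + ε) f)
      (PD.Po ε (Real.exp s • PD.Po s f) - PD.La ε (Real.exp s • PD.Po s f)) s := by
    intro s hs
    have hs' : 0 < s + ε := add_pos hs hε
    have h3 : HasDerivAt (fun s => PD.Po (s + ε) f) (-(PD.La (s + ε) f)) s := by
      have h30 := (PD.po_deriv (s + ε) f hs').scomp s ((hasDerivAt_id s).add_const ε)
      rw [one_smul] at h30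
      exact h30
    have h4 := (Real.hasDerivAt_exp s).smul h3
    rw [e1 s hs, e2 s hs]
    have h5 : Real.exp s • -(PD.La (s + ε)) f + Real.exp s • (PD.Po (s + ε)) f =
        Real.exp s • PD.Po (s + ε) f - Real.exp s • PD.La (s + ε) f := by
      rw [smul_neg]; abel
    rw [h5] at h4
    exact h4
  have hcont : ContinuousWithinAt (fun s => Real.exp s • PD.Po (s + ε) f) (Ici 0) 0 := by
    refine Continuous.continuousWithinAt ?_
    exact Real.continuous_exp.smul ((PD.po_cont f).comp (continuous_id.add continuous_const))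
  have hlim : Tendsto (fun s => Real.exp s • PD.Po (s + ε) f) atTop (𝓝 0) := by
    rw [tendsto_zero_iff_norm_tendsto_zero]
    have h1 : Tendsto (fun t : ℝ => PD.C0 * ‖f‖ * Real.exp (-t)) atTop (𝓝 (PD.C0 * ‖f‖ * 0)) :=
      (Real.tendsto_exp_neg_atTop_nhds_zero).const_mul _
    rw [mul_zero] at h1
    refine squeeze_zero' (Filter.Eventually.of_forall (fun t => norm_nonneg _)) ?_ h1
    filter_upwards [eventually_ge_atTop (0 : ℝ)] with t ht
    rw [norm_smul, Real.norm_of_nonneg (Real.exp_pos _).le]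
    have h2 := PD.po_decay2 (t + ε) f (by linarith) ho.1 ho.2
    have h3 : Real.exp (-(2 * (t + ε))) ≤ Real.exp (-(2 * t)) := Real.exp_le_exp.2 (by linarith)
    calc Real.exp t * ‖PD.Po (t + ε) f‖ ≤ Real.exp t * (PD.C0 * Real.exp (-(2 * (t + ε))) * ‖f‖) :=
          mul_le_mul_of_nonneg_left h2 (Real.exp_pos _).le
      _ ≤ Real.exp t * (PD.C0 * Real.exp (-(2 * t)) * ‖f‖) := by gcongr
      _ = PD.C0 * ‖f‖ * (Real.exp t * Real.exp (-(2 * t))) := by ring
      _ = PD.C0 * ‖f‖ * Real.exp (-t) := by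
          rw [← Real.exp_add]; congr 2; ring
  have hftc := integral_Ioi_of_hasDerivAt_of_tendsto hcont hder (i2.sub i1) hlim
  rw [integral_sub i2 i1, h1, h2, Real.exp_zero, one_smul, zero_add] at hftc
  unfold linR
  rw [map_add]
  have := sub_eq_iff_eq_add.1 hftc
  rw [this]
  abel

/-- the candidate preimage -/
def linPre (f : C(S2, ℝ)) : Fin 4 → Y :=
  Fin.cons (linExt (linR f)) (fun k => cr (fun a => linExt (linRa a f)) thY k)

theorem lin_cr_apply (a b : Fin 3 → Y) (k : Fin 3) (x : Om) :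
    (cr a b k) x = cr (fun i => a i x) (fun i => b i x) k := by
  unfold cr
  simp only [Y.sum_apply, Y.smul_apply, Y.mul_apply, smul_eq_mul]

theorem lin_thY_toOm (i : Fin 3) (θ : S2) : thY i (toOm θ) = (θ : E3) i := by
  rw [thY_apply, lin_dirS_toOm]

theorem linPre_zero (f : C(S2, ℝ)) : linPre f 0 = linExt (linR f) := rfl

theorem linPre_succ (f : C(S2, ℝ)) (k : Fin 3) :
    linPre f k.succ = cr (fun a => linExt (linRa a f)) thY k := rfl

theorem lin_isX_pre {f : C(S2, ℝ)} {A : ℝ} (hA : 0 ≤ A) (hf : LinHol A f)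
    (ho : LinOrth f) : IsX (linPre f) := by
  obtain ⟨A0, hA1, hA2⟩ := lin_R_bdd ho
  have hRa := fun a => lin_Ra_bdd a hA hf ho
  choose Aa hAa1 hAa2 using hRa
  have hv0 : (fun θ => linPre f 0 (toOm θ)) = linR f := by
    funext θ
    rw [linPre_zero, linExt_toOm hA1 hA2]
  have hvk : (fun (k : Fin 3) (θ : S2) => linPre f k.succ (toOm θ)) =
      (fun (k : Fin 3) (θ : S2) => cr (fun a => linRa a f θ) (fun a => (θ : E3) a) k) := by
    funext k θ
    rw [linPre_succ, lin_cr_apply]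
    congr 1
    · funext i
      exact linExt_toOm (hAa1 i) (hAa2 i) θ
    · funext i
      exact lin_thY_toOm i θ
  have horth := lin_R_orth ho
  refine ⟨?_, ?_, ?_, fun i => ?_⟩
  · intro j
    refine Fin.cases ?_ (fun k => ?_) j
    · rw [linPre_zero]
      exact linExt_hom0 hA1 hA2
    · rw [linPre_succ]
      intro x
      rw [lin_cr_apply, lin_cr_apply]
      congr 1
      · funext i
        exact linExt_hom0 (hAa1 i) (hAa2 i) x
      · funext i
        rw [thY_apply, thY_apply, lin_dirS_toOm]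
  · rw [hv0, hvk]
    exact lin_R_c1 hA hf ho
  · rw [hv0]
    exact horth.1
  · have : (fun θ : S2 => (θ : E3) i * linPre f 0 (toOm θ)) = fun θ : S2 => xi i θ * linR f θ := by
      funext θ
      rw [linPre_zero, linExt_toOm hA1 hA2]
      rfl
    rw [this]
    exact horth.2 i

theorem lin_surj (f : YPs) : ∃ w : Xs, linE0 w = f := by
  have ho := lin_orth_YP f.2
  have hf := lin_hol_sl (f : Y)
  have hX := lin_isX_pre (norm_nonneg (f : Y)) hf ho
  obtain ⟨A0, hA1, hA2⟩ := lin_R_bdd ho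
  refine ⟨⟨linPre (sl (f : Y) 0), hX⟩, ?_⟩
  apply Subtype.ext
  apply Y.ext
  intro x
  have h1 : Hom0 (linE0 ⟨linPre (sl (f : Y) 0), hX⟩ : Y) := (linE0 ⟨linPre (sl (f : Y) 0), hX⟩).2.1
  have h2 : Hom0 (f : Y) := f.2.1
  rw [h1 x, h2 x, linE0_apply]
  have hsl : sl (linPre (sl (f : Y) 0) 0) 0 = linR (sl (f : Y) 0) := by
    ext θ
    rw [lin_sl0, linPre_zero, linExt_toOm hA1 hA2]
  have h3 : Lam0 (linPre (sl (f : Y) 0)) = linR (sl (f : Y) 0) + sl (f : Y) 0 := by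
    refine lin_po_ext (fun ε hε => ?_)
    rw [Lam0_reg _ hX ε hε, hsl, lin_R_eq ho hε]
  show Lam0 (linPre (sl (f : Y) 0)) (dirS x) - linPre (sl (f : Y) 0) 0 (toOm (dirS x)) = _
  rw [h3, ContinuousMap.add_apply, lin_sl0, linPre_zero, linExt_toOm hA1 hA2]
  ring

/-! ### Injectivity -/

theorem lin_inj (w : Xs) (h : linE0 w = 0) : w = 0 := by
  have hw := w.2
  have ho := lin_orth_X hw
  have h0 : Lam0 w.1 = sl (w.1 0) 0 := by
    ext θ
    have h1 := linE0_apply w θ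
    rw [h] at h1
    have h2 : ((0 : YPs) : Y) (toOm θ) = 0 := rfl
    rw [h2] at h1
    rw [lin_sl0]
    linarith
  have hzero : sl (w.1 0) 0 = 0 := by
    refine lin_inj0 ho (fun ε hε => ?_)
    have := Lam0_reg w.1 hw ε hε
    rw [h0] at this
    exact this
  have hz : ∀ θ, w.1 0 (toOm θ) = 0 := by
    intro θ
    rw [← lin_sl0, hzero]
    rfl
  have hz0 : w.1 0 = 0 := by
    apply Y.ext
    intro x
    rw [hw.1 0 x, hz]
    rfl
  have hk : ∀ k : Fin 3, w.1 k.succ = 0 := by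
    intro k
    apply Y.ext
    intro x
    rw [hw.1 k.succ x]
    show w.1 k.succ (toOm (dirS x)) = 0
    have hc1 := hw.2.1.2 (dirS (x : E3) : E3) (S2_ne_zero _)
    have hfun : (fun y : E3 => w.1 0 (toOm (dirS y))) = fun _ => (0 : ℝ) := by
      funext y
      exact hz _
    rw [hfun] at hc1
    have h2 := hc1.unique (hasFDerivAt_const (0 : ℝ) (dirS (x : E3) : E3))
    have h3 : (‖(dirS (x : E3) : E3)‖⁻¹ • mkE (fun k => w.1 k.succ (toOm (dirS (dirS (x : E3) : E3))))) = 0 := by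
      have h4 : ‖innerSL ℝ (‖(dirS (x : E3) : E3)‖⁻¹ •
          mkE (fun k => w.1 k.succ (toOm (dirS (dirS (x : E3) : E3)))))‖ = 0 := by
        rw [h2, norm_zero]
      rw [innerSL_apply_norm] at h4
      exact norm_eq_zero.1 h4
    rw [norm_S2, inv_one, one_smul, dirS_S2] at h3
    have h5 := congrArg (fun v : E3 => v k) h3
    exact h5
  apply Subtype.ext
  funext j
  refine Fin.cases ?_ (fun k => ?_) j
  · exact hz0
  · exact hk k

theorem lin_main : ∃ E : Xs ≃L[ℝ] YPs, ∀ (w : Xs) (θ : S2),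
    (E w : Y) (toOm θ) = Lam0 w.1 θ - w.1 0 (toOm θ) := by
  have hker : LinearMap.ker (linE0 : Xs →ₗ[ℝ] YPs) = ⊥ := by
    rw [LinearMap.ker_eq_bot']
    intro w hw
    exact lin_inj w hw
  have hran : LinearMap.range (linE0 : Xs →ₗ[ℝ] YPs) = ⊤ := by
    rw [LinearMap.range_eq_top]
    intro f
    exact lin_surj f
  refine ⟨ContinuousLinearEquiv.ofBijective linE0 hker hran, fun w θ => ?_⟩
  exact linE0_apply w θ

end

end Pool.Agent.BS
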