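import Pool.Agent.BS.Xsp
import Pool.Agent.BS.Poi
import Pool.Agent.BS.TLin
import Pool.Agent.BS.LinAux

/-!
# Module LIN: inversion of Λ₀ - 1
-/

namespace Pool.Agent.BS

open MeasureTheory Topology Set Filter
open scoped ContDiff

noncomputable section

/-- Module LIN: `Λ₀ - 1 : X → YP` is an isomorphism -/
theorem lin_exists : ∃ E : Xs ≃L[ℝ] YPs, ∀ (w : Xs) (θ : S2),
    (E w : Y) (toOm θ) = Lam0 w.1 θ - w.1 0 (toOm θ) := lin_main

/-- `Λ₀ - 1 : X → YP` -/
def LinE : Xs ≃L[ℝ] YPs := Classical.choose lin_exists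

theorem LinE_apply (w : Xs) (θ : S2) :
    (LinE w : Y) (toOm θ) = Lam0 w.1 θ - w.1 0 (toOm θ) :=
  Classical.choose_spec lin_exists w θ

end

end Pool.Agent.BS
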