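import Pool.Agent.BS.TOp
import Pool.Agent.BS.El

/-!
# Module TBD: boundary values of T
-/

namespace Pool.Agent.BS

open MeasureTheory Topology Set Filter
open scoped ContDiff

noncomputable section

theorem tbd_ray_zero (θ : S2) : ray 0 θ = toOm θ := by
  apply Subtype.ext
  simp [ray, toOm]

/-- boundary values -/
theorem Nu_bdry (F : Fin 3 → Y) (θ : S2) : Nu F (toOm θ) = 0 := by
  rw [← tbd_ray_zero, (TT_spec F 0 θ le_rfl).1]
  simp [nuc]

theorem TT_bdry (F : Fin 3 → Y) (θ : S2) (j : Fin 3) :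
    TT F j (toOm θ) = (θ : E3) j * muc F 0 θ := by
  rw [← tbd_ray_zero, (TT_spec F 0 θ le_rfl).2 j]
  simp [nuc, lac, lnc, cr]

end

end Pool.Agent.BS
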