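import Pool.Agent.BS.Poi
import Pool.Agent.BS.El
import Pool.Agent.BS.TIntAux

/-!
# Module TL1: l = 1 projection
-/

namespace Pool.Agent.BS

open MeasureTheory Topology Set Filter
open scoped ContDiff

noncomputable section

theorem tl1_ray_zero (θ : S2) : ray 0 θ = toOm θ := by
  apply Subtype.ext
  show Real.exp (max 0 0) • (θ : E3) = θ
  rw [max_self, Real.exp_zero, one_smul]

theorem tl1_int (h : C(S2, ℝ)) : Integrable (fun θ : S2 => h θ) sig :=
  h.continuous.integrable_of_hasCompactSupport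
    (HasCompactSupport.of_compactSpace _)

/-- the linear functional `h ↦ ∫ θ_i h` -/
def tl1phi (i : Fin 3) : C(S2, ℝ) →L[ℝ] ℝ :=
  LinearMap.mkContinuous
    { toFun := fun h => ∫ θ : S2, xi i θ * h θ ∂sig
      map_add' := fun h h' => by
        rw [← integral_add]
        · refine integral_congr_ae (Eventually.of_forall (fun θ => ?_))
          show xi i θ * (h θ + h' θ) = xi i θ * h θ + xi i θ * h' θ
          ring
        · exact tl1_int (xi i * h)
        · exact tl1_int (xi i * h')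
      map_smul' := fun c h => by
        rw [RingHom.id_apply, smul_eq_mul, ← integral_const_mul]
        refine integral_congr_ae (Eventually.of_forall (fun θ => ?_))
        show xi i θ * (c * h θ) = c * (xi i θ * h θ)
        ring }
    (‖xi i‖ * sig.real univ) (fun h => by
      show ‖∫ θ : S2, xi i θ * h θ ∂sig‖ ≤ _
      have := norm_integral_le_of_norm_le_const (μ := sig) (f := fun θ : S2 => xi i θ * h θ)
        (C := ‖xi i‖ * ‖h‖) (Eventually.of_forall (fun θ => by
          rw [norm_mul]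
          exact mul_le_mul ((xi i).norm_coe_le_norm θ) (h.norm_coe_le_norm θ) (norm_nonneg _)
            (norm_nonneg _)))
      calc ‖∫ θ : S2, xi i θ * h θ ∂sig‖ ≤ ‖xi i‖ * ‖h‖ * sig.real univ := this
        _ = ‖xi i‖ * sig.real univ * ‖h‖ := by ring)

theorem tl1phi_apply (i : Fin 3) (h : C(S2, ℝ)) : tl1phi i h = ∫ θ : S2, xi i θ * h θ ∂sig := rfl

theorem tl1_po (s : ℝ) (hs : 0 < s) (i : Fin 3) (f : C(S2, ℝ)) :
    tl1phi i (PD.Po s f) = Real.exp (-s) * ∫ θ, xi i θ * f θ ∂sig := by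
  rw [tl1phi_apply, ← PD.po_symm, PD.po_xi s i hs.le, ← integral_const_mul]
  refine integral_congr_ae (Eventually.of_forall (fun θ => ?_))
  show (Real.exp (-s) * xi i θ) * f θ = Real.exp (-s) * (xi i θ * f θ)
  ring

theorem tl1_la_xi (s : ℝ) (hs : 0 < s) (i : Fin 3) : PD.La s (xi i) = Real.exp (-s) • xi i := by
  have h1 := PD.po_deriv s (xi i) hs
  have h2 : HasDerivAt (fun τ : ℝ => Real.exp (-τ) • xi i) ((-Real.exp (-s)) • xi i) s := by
    have h3 : HasDerivAt (fun τ : ℝ => Real.exp (-τ)) (-Real.exp (-s)) s := by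
      have := (hasDerivAt_neg s).exp
      simpa using this
    exact h3.smul_const (xi i)
  have h4 : (fun τ => PD.Po τ (xi i)) =ᶠ[𝓝 s] (fun τ : ℝ => Real.exp (-τ) • xi i) := by
    filter_upwards [eventually_gt_nhds hs] with τ hτ
    exact PD.po_xi τ i hτ.le
  have h5 := h1.unique (h2.congr_of_eventuallyEq h4)
  rw [neg_smul] at h5
  exact neg_injective h5

theorem tl1_la (s : ℝ) (hs : 0 < s) (i : Fin 3) (f : C(S2, ℝ)) :
    tl1phi i (PD.La s f) = Real.exp (-s) * ∫ θ, xi i θ * f θ ∂sig := by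
  rw [tl1phi_apply, ← PD.la_symm s _ _ hs, tl1_la_xi s hs, ← integral_const_mul]
  refine integral_congr_ae (Eventually.of_forall (fun θ => ?_))
  show (Real.exp (-s) * xi i θ) * f θ = Real.exp (-s) * (xi i θ * f θ)
  ring

theorem tl1_norm_sq (θ : S2) : (θ : E3) 0 ^ 2 + (θ : E3) 1 ^ 2 + (θ : E3) 2 ^ 2 = 1 := by
  have h := norm_S2 θ
  have h2 : ‖(θ : E3)‖ ^ 2 = 1 := by rw [h]; norm_num
  rw [EuclideanSpace.real_norm_sq_eq, Fin.sum_univ_three] at h2
  exact h2

theorem tl1_xi_c1 (i : Fin 3) : IsC1S (xi i)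
    (fun a θ => (dl a i : ℝ) - (θ : E3) a * (θ : E3) i) := by
  refine ⟨fun a => by fun_prop, fun x hx => ?_⟩
  have hx' : ‖x‖ ≠ 0 := norm_ne_zero_iff.2 hx
  have h1 : (fun y : E3 => xi i (dirS y)) =ᶠ[𝓝 x] (fun y : E3 => ‖y‖⁻¹ * y i) := by
    filter_upwards [isOpen_ne.mem_nhds hx] with y hy
    show (dirS y : E3) i = _
    rw [dirS_coe hy]
    rfl
  have h2 : HasFDerivAt (fun y : E3 => ‖y‖) (‖x‖⁻¹ • innerSL ℝ x) x := by
    have h := (hasStrictFDerivAt_norm_sq x).hasFDerivAt.sqrt (by positivity)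
    have e1 : (fun y : E3 => Real.sqrt (‖y‖ ^ 2)) = (fun y : E3 => ‖y‖) := by
      funext y
      exact Real.sqrt_sq (norm_nonneg y)
    rw [e1] at h
    refine h.congr_fderiv ?_
    rw [Real.sqrt_sq (norm_nonneg x), ← Nat.cast_smul_eq_nsmul ℝ, smul_smul]
    congr 1
    field_simp
    norm_num
  have h3 : HasFDerivAt (fun y : E3 => ‖y‖⁻¹) (-(‖x‖ ^ 2)⁻¹ • (‖x‖⁻¹ • innerSL ℝ x)) x :=
    (hasDerivAt_inv hx').comp_hasFDerivAt x h2
  have h4 : HasFDerivAt (fun y : E3 => y i) (EuclideanSpace.proj i : E3 →L[ℝ] ℝ) x :=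
    (EuclideanSpace.proj i : E3 →L[ℝ] ℝ).hasFDerivAt
  have h5 := h3.mul h4
  refine (h5.congr_of_eventuallyEq h1).congr_fderiv ?_
  ext v
  simp only [add_apply, smul_apply, innerSL_apply_apply,
    smul_eq_mul, inner_smul_left]
  have e2 : inner ℝ (mkE fun k => (dl k i : ℝ) - (dirS x : E3) k * (dirS x : E3) i) v =
      v i - (∑ k, (dirS x : E3) k * v k) * (dirS x : E3) i := by
    rw [PiLp.inner_apply]
    simp only [mkE_apply, Fin.sum_univ_three, RCLike.inner_apply, conj_trivial]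
    fin_cases i <;> simp [dl] <;> ring
  have e3 : inner ℝ x v = ∑ k, x k * v k := by
    rw [PiLp.inner_apply]
    simp only [Fin.sum_univ_three, RCLike.inner_apply, conj_trivial]
    ring
  have e4 : (EuclideanSpace.proj i : E3 →L[ℝ] ℝ) v = v i := rfl
  rw [e2, e3, e4, dirS_coe hx]
  simp only [PiLp.smul_apply, smul_eq_mul, Fin.sum_univ_three, conj_trivial]
  field_simp
  ring

theorem tl1_dk_xi (k i : Fin 3) (s : ℝ) (hs : 0 < s) :
    PD.Dk k s (xi i) = Real.exp (-s) • ∑ a, eps k a i • xi a := by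
  have h := PD.dk_comm k s (xi i) _ (∑ a, eps k a i • xi a) hs (tl1_xi_c1 i) (fun θ => by
    have h1 := tl1_norm_sq θ
    have e : (∑ a, eps k a i • xi a) θ = ∑ a, eps k a i * (θ : E3) a := by
      rw [ContinuousMap.sum_apply]
      rfl
    rw [e]
    simp only [cr, Fin.sum_univ_three, smul_eq_mul]
    fin_cases k <;> fin_cases i <;> simp [eps, dl] <;> ring)
  rw [h, map_sum]
  have : ∀ a, PD.Po s (eps k a i • xi a) = Real.exp (-s) • (eps k a i • xi a) := fun a => by
    rw [map_smul, PD.po_xi s a hs.le, smul_comm]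
  simp only [this]
  rw [Finset.smul_sum]

theorem tl1_dk (k i : Fin 3) (s : ℝ) (hs : 0 < s) (g : C(S2, ℝ)) :
    tl1phi i (PD.Dk k s g) =
      Real.exp (-s) * ∫ θ, -(∑ a, eps k a i * (θ : E3) a) * g θ ∂sig := by
  have h1 : tl1phi i (PD.Dk k s g) = ∫ θ, PD.Dk k s g θ * xi i θ ∂sig := by
    rw [tl1phi_apply]
    refine integral_congr_ae (Eventually.of_forall (fun θ => ?_))
    exact mul_comm _ _
  rw [h1, PD.dk_skew k s _ _ hs, tl1_dk_xi k i s hs, ← integral_neg, ← integral_const_mul]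
  refine integral_congr_ae (Eventually.of_forall (fun θ => ?_))
  have e : (∑ a, eps k a i • xi a) θ = ∑ a, eps k a i * (θ : E3) a := by
    rw [ContinuousMap.sum_apply]
    rfl
  show -(g θ * (Real.exp (-s) * (∑ a, eps k a i • xi a) θ)) = _
  rw [e]
  ring

theorem tl1_alg (F : Fin 3 → Y) (i : Fin 3) (s : ℝ) (θ : S2) :
    ∑ k, -(∑ a, eps k a i * (θ : E3) a) * ftan F k (ray s θ) =
      (θ : E3) i * frad F (ray s θ) - F i (ray s θ) := by
  have h1 := tl1_norm_sq θ
  have hth : ∀ a, thY a (ray s θ) = (θ : E3) a := fun a => by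
    rw [thY_apply, tint_dirS_ray]
  have h2 : frad F (ray s θ) = ∑ j, (θ : E3) j * F j (ray s θ) := by
    unfold frad
    rw [Y.sum_apply]
    refine Finset.sum_congr rfl (fun j _ => ?_)
    rw [Y.mul_apply, hth]
  have h3 : ∀ k, ftan F k (ray s θ) = ∑ a, ∑ b, eps k a b * ((θ : E3) a * F b (ray s θ)) := by
    intro k
    unfold ftan cr
    rw [Y.sum_apply]
    refine Finset.sum_congr rfl (fun a _ => ?_)
    rw [Y.sum_apply]
    refine Finset.sum_congr rfl (fun b _ => ?_)
    rw [Y.smul_apply, Y.mul_apply, hth]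
  rw [h2]
  simp only [h3, Fin.sum_univ_three]
  fin_cases i
  · simp [eps]
    linear_combination (-(F 0 (ray s θ))) * h1
  · simp [eps]
    linear_combination (-(F 1 (ray s θ))) * h1
  · simp [eps]
    linear_combination (-(F 2 (ray s θ))) * h1

/-- Module TL1: `l = 1` projection of the boundary value -/
theorem muc_l1 (F : Fin 3 → Y) (i : Fin 3) :
    ∫ θ : S2, (θ : E3) i * muc F 0 θ ∂sig = -(∫ θ : S2, (θ : E3) i * frad F (toOm θ) ∂sig) +
      ∫ s in Ioi (0 : ℝ), Real.exp (-(2 * s)) *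
        ∫ θ : S2, (3 * (θ : E3) i * frad F (ray s θ) - F i (ray s θ)) ∂sig := by
  have h0 : ∫ θ : S2, (θ : E3) i * muc F 0 θ ∂sig = tl1phi i (muc F 0) := rfl
  have h1 : tl1phi i (muc F 0) = tl1phi i (Jc F 0) - tl1phi i (sl (frad F) 0) := by
    unfold muc
    rw [map_sub]
  have h2 : tl1phi i (sl (frad F) 0) = ∫ θ : S2, (θ : E3) i * frad F (toOm θ) ∂sig := by
    rw [tl1phi_apply]
    refine integral_congr_ae (Eventually.of_forall (fun θ => ?_))
    show (θ : E3) i * frad F (ray 0 θ) = _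
    rw [tl1_ray_zero]
  have h3 : tl1phi i (Jc F 0) = ∫ s in Ioi (0 : ℝ), Real.exp (-(2 * s)) *
        ∫ θ : S2, (3 * (θ : E3) i * frad F (ray s θ) - F i (ray s θ)) ∂sig := by
    unfold Jc
    rw [← ContinuousLinearMap.integral_comp_comm _ (tint_Jc F 0)]
    refine setIntegral_congr_fun measurableSet_Ioi (fun s hs => ?_)
    have hs' : (0 : ℝ) < s := hs
    simp only [zero_add]
    rw [map_smul, map_add, map_add, map_sum, tl1_po s hs', tl1_la s hs', smul_eq_mul]
    simp only [tl1_dk _ _ s hs']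
    rw [← Finset.mul_sum, ← mul_add, ← mul_add, ← mul_assoc, ← Real.exp_add,
      show -s + -s = -(2 * s) by ring]
    congr 1
    have hint : ∀ k : Fin 3, Integrable (fun θ : S2 =>
        -(∑ a, eps k a i * (θ : E3) a) * sl (ftan F k) s θ) sig := fun k =>
      tl1_int ⟨fun θ : S2 => -(∑ a, eps k a i * (θ : E3) a) * sl (ftan F k) s θ, by fun_prop⟩
    rw [← integral_add, ← integral_finsetSum, ← integral_add]
    · refine integral_congr_ae (Eventually.of_forall (fun θ => ?_))
      have := tl1_alg F i s θ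
      show ((θ : E3) i * frad F (ray s θ) + (θ : E3) i * frad F (ray s θ)) +
        ∑ k, -(∑ a, eps k a i * (θ : E3) a) * ftan F k (ray s θ) = _
      rw [this]
      ring
    · exact (tl1_int (xi i * sl (frad F) s)).add (tl1_int (xi i * sl (frad F) s))
    · exact integrable_finsetSum _ (fun k _ => hint k)
    · exact fun k _ => hint k
    · exact tl1_int (xi i * sl (frad F) s)
    · exact tl1_int (xi i * sl (frad F) s)
  rw [h0, h1, h2, h3]
  ring

end

end Pool.Agent.BS
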