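import Pool.Agent.BS.Gam
import Pool.Agent.BS.Lin
import Pool.Agent.BS.TBd
import Pool.Agent.BS.TL1

/-!
# Module ELL: the linearisation of Gam and the functional ell
-/

namespace Pool.Agent.BS

open MeasureTheory Topology Set Filter
open scoped ContDiff

noncomputable section

/-! ### Elementary facts -/

theorem Ell_dirS_toOm (θ : S2) : dirS ((toOm θ : Om) : E3) = θ := dirS_S2 θ

theorem Ell_dirS_ray (s : ℝ) (θ : S2) : dirS ((ray s θ : Om) : E3) = θ :=
  dirS_smul_S2 θ (Real.exp_pos _)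

theorem Ell_sum_sq (θ : S2) : ∑ j, (θ : E3) j * (θ : E3) j = 1 := by
  have h := norm_S2 θ
  rw [EuclideanSpace.norm_eq] at h
  have h2 : ∑ j, ‖(θ : E3) j‖ ^ 2 = 1 := by
    have := congrArg (fun t => t ^ 2) h
    simp only at this
    rw [Real.sq_sqrt (Finset.sum_nonneg (fun i _ => sq_nonneg _))] at this
    rw [this]; norm_num
  refine Eq.trans (Finset.sum_congr rfl (fun j _ => ?_)) h2
  rw [Real.norm_eq_abs, sq_abs, sq]

theorem Ell_thY_sq : ∑ j, thY j * thY j = 1 := by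
  ext x
  rw [Y.sum_apply, Y.one_apply]
  refine Eq.trans (Finset.sum_congr rfl (fun j _ => ?_)) (Ell_sum_sq (dirS (x : E3)))
  rw [Y.mul_apply, thY_apply]

theorem Ell_abs_coord (θ : S2) (i : Fin 3) : |(θ : E3) i| ≤ 1 := by
  have h := Ell_sum_sq θ
  have h1 : (θ : E3) i * (θ : E3) i ≤ ∑ j, (θ : E3) j * (θ : E3) j :=
    Finset.single_le_sum (f := fun j => (θ : E3) j * (θ : E3) j)
      (fun j _ => mul_self_nonneg _) (Finset.mem_univ i)
  rw [h] at h1
  exact abs_le_one_iff_mul_self_le_one.2 h1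

/-- the gradient of an element of `X` is tangential -/
theorem Ell_perp {w : Fin 4 → Y} (hw : IsX w) : ∑ j, thY j * w j.succ = 0 := by
  ext x
  rw [Y.sum_apply, Y.zero_apply]
  set θ : S2 := dirS (x : E3) with hθ
  have h0 := hw.2.1.2 (θ : E3) (S2_ne_zero θ)
  have hcomp : HasDerivAt (fun t : ℝ => w 0 (toOm (dirS (t • (θ : E3)))))
      ((innerSL ℝ (‖(θ : E3)‖⁻¹ • mkE (fun k => w k.succ (toOm (dirS (θ : E3)))))) (θ : E3)) 1 := by
    have hl : HasDerivAt (fun t : ℝ => t • (θ : E3)) ((1 : ℝ) • (θ : E3)) 1 :=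
      (hasDerivAt_id (1 : ℝ)).smul_const _
    rw [one_smul] at hl
    have h1 : HasFDerivAt (fun y => w 0 (toOm (dirS y)))
      (innerSL ℝ (‖(θ : E3)‖⁻¹ • mkE (fun k => w k.succ (toOm (dirS (θ : E3))))))
      ((1 : ℝ) • (θ : E3)) := by rw [one_smul]; exact h0
    exact h1.comp_hasDerivAt (1 : ℝ) hl
  have hconst : HasDerivAt (fun t : ℝ => w 0 (toOm (dirS (t • (θ : E3))))) 0 1 := by
    have : (fun t : ℝ => w 0 (toOm (dirS (t • (θ : E3))))) =ᶠ[𝓝 1]
        fun _ => w 0 (toOm θ) := by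
      filter_upwards [lt_mem_nhds (zero_lt_one (α := ℝ))] with t ht
      rw [dirS_smul_S2 θ ht]
    exact (hasDerivAt_const (1 : ℝ) (w 0 (toOm θ))).congr_of_eventuallyEq this
  have h2 := hcomp.unique hconst
  rw [norm_S2, inv_one, one_smul, dirS_S2, innerSL_apply_apply, PiLp.inner_apply] at h2
  rw [← h2]
  refine Finset.sum_congr rfl (fun j _ => ?_)
  rw [Y.mul_apply, thY_apply, hw.1 j.succ x, ← hθ]
  simp

theorem Ell_chY (θ : S2) : chY (toOm θ) = 1 := by
  rw [chY_apply]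
  show chi ‖(θ : E3)‖ = 1
  rw [norm_S2]
  exact chi_eq_one (by norm_num) (by norm_num)

theorem Ell_chpY (θ : S2) : chpY (toOm θ) = 0 := by
  rw [chpY_apply]
  show ‖(θ : E3)‖ * deriv chi ‖(θ : E3)‖ = 0
  rw [norm_S2, one_mul]
  have : chi =ᶠ[𝓝 1] fun _ => (1 : ℝ) := by
    filter_upwards [Ioo_mem_nhds (show (3 / 4 : ℝ) < 1 by norm_num)
      (show (1 : ℝ) < 2 by norm_num)] with t ht
    exact chi_eq_one ht.1.le ht.2.le
  rw [this.deriv_eq, deriv_const]

theorem Ell_dl_mul (f : Fin 3 → Y) (i : Fin 3) : ∑ j, (dl i j : Y) * f j = f i := by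
  simp only [dl, ite_mul, one_mul, zero_mul]
  simp

theorem Ell_qth {w : Fin 4 → Y} (hw : IsX w) : ∑ j, qY w j * thY j = chpY * w 0 := by
  have h1 : ∑ j, qY w j * thY j = chpY * w 0 * (∑ j, thY j * thY j) +
      chY * ∑ j, thY j * w j.succ := by
    rw [Finset.mul_sum, Finset.mul_sum, ← Finset.sum_add_distrib]
    refine Finset.sum_congr rfl (fun j _ => ?_)
    unfold qY
    ring
  rw [h1, Ell_thY_sq, Ell_perp hw]
  ring

theorem Ell_Mop {w : Fin 4 → Y} (hw : IsX w) : Mop (m1Y w 0) thY = Fw w := by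
  funext i
  have h1 : Mop (m1Y w 0) thY i = ∑ j, m1Y w 0 i j * thY j := by
    simp [Mop]
  have h2 : ∑ j, m1Y w 0 i j * thY j = (chY + chpY) * w 0 * (∑ j, (dl i j : Y) * thY j) -
      thY i * (∑ j, qY w j * thY j) - qY w i * ∑ j, thY j * thY j := by
    rw [Finset.mul_sum, Finset.mul_sum, Finset.mul_sum, ← Finset.sum_sub_distrib,
      ← Finset.sum_sub_distrib]
    refine Finset.sum_congr rfl (fun j _ => ?_)
    simp only [m1Y, Pi.zero_apply]
    ring
  rw [h1, h2, Ell_dl_mul, Ell_qth hw, Ell_thY_sq]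
  unfold Fw qY
  ring

theorem Ell_rad {w : Fin 4 → Y} (hw : IsX w) : ∑ i, thY i * Fw w i = (chY - chpY) * w 0 := by
  have h1 : ∑ i, thY i * Fw w i = (chY - chpY) * w 0 * (∑ j, thY j * thY j) -
      chY * ∑ j, thY j * w j.succ := by
    rw [Finset.mul_sum, Finset.mul_sum, ← Finset.sum_sub_distrib]
    refine Finset.sum_congr rfl (fun j _ => ?_)
    unfold Fw
    ring
  rw [h1, Ell_thY_sq, Ell_perp hw]
  ring

theorem Ell_trace {w : Fin 4 → Y} (hw : IsX w) :
    ∑ i, m1Y w 0 i i = 3 * (chY + chpY) * w 0 - 2 * (chpY * w 0) := by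
  have h1 : ∑ i, m1Y w 0 i i = (∑ i : Fin 3, (chY + chpY) * w 0 * (dl i i : Y)) -
      2 * ∑ j, qY w j * thY j := by
    rw [Finset.mul_sum, ← Finset.sum_sub_distrib]
    refine Finset.sum_congr rfl (fun j _ => ?_)
    simp only [m1Y, Pi.zero_apply]
    ring
  rw [h1, Ell_qth hw]
  simp only [dl, if_true, mul_one, Finset.sum_const, Finset.card_univ, Fintype.card_fin]
  rw [nsmul_eq_mul]
  push_cast
  ring

theorem Ell_two_apply (f : Y) (x : Om) : (2 * f) x = 2 * f x := by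
  rw [two_mul, Y.add_apply, two_mul]

theorem Ell_three_apply (f : Y) (x : Om) : (3 * f) x = 3 * f x := by
  have : (3 : Y) * f = f + f + f := by ring
  rw [this, Y.add_apply, Y.add_apply]
  ring

theorem Ell_TT_sum (F : Fin 3 → Y) (θ : S2) :
    (∑ j, thY j * TT F j) (toOm θ) = muc F 0 θ := by
  rw [Y.sum_apply]
  have : ∀ j, (thY j * TT F j) (toOm θ) = ((θ : E3) j * (θ : E3) j) * muc F 0 θ := fun j => by
    rw [Y.mul_apply, thY_apply, Ell_dirS_toOm, TT_bdry]
    ring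
  rw [Finset.sum_congr rfl (fun j _ => this j), ← Finset.sum_mul, Ell_sum_sq, one_mul]

theorem Gam_lin_X (w : Xs) (θ : S2) :
    (fderiv ℝ Gam 0 (w.1, 0)) (toOm θ) = 2 * (LinE w : Y) (toOm θ) := by
  rw [Gam_fderiv, trY_apply, Ell_dirS_toOm, Y.sub_apply, Y.add_apply, Y.smul_apply, Ell_TT_sum,
    Ell_Mop w.2, muc_Fw w.1 w.2, LinE_apply]
  have h2 : ∑ i, ∑ j, thY i * m1Y w.1 0 i j * thY j = (chY - chpY) * w.1 0 := by
    rw [← Ell_rad w.2]
    refine Finset.sum_congr rfl (fun i _ => ?_)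
    rw [← Ell_Mop w.2]
    have h1 : Mop (m1Y w.1 0) thY i = ∑ j, m1Y w.1 0 i j * thY j := by
      simp [Mop]
    rw [h1, Finset.mul_sum]
    exact Finset.sum_congr rfl (fun j _ => by ring)
  rw [h2, Ell_trace w.2, Y.mul_apply, Y.sub_apply, Y.sub_apply, mul_assoc, Ell_three_apply,
    Ell_two_apply, Y.mul_apply, Y.mul_apply, Y.add_apply, Ell_chY, Ell_chpY]
  ring

/-! ### The functional ell -/

theorem Ell_integrable {f : S2 → ℝ} (hf : Continuous f) : Integrable f sig := by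
  obtain ⟨C, hC⟩ := (isCompact_univ (X := S2)).exists_bound_of_continuousOn hf.continuousOn
  exact (integrable_const C).mono' hf.aestronglyMeasurable
    (Filter.Eventually.of_forall (fun x => hC x (mem_univ x)))

theorem Ell_oext (f : Y) (θ : S2) : oext f (θ : E3) = f (toOm θ) := by
  have h : 1 ≤ ‖(θ : E3)‖ := (norm_S2 θ).ge
  simp only [oext, h, dif_pos]
  rfl

theorem Ell_oext_ray (f : Y) {s : ℝ} (hs : 0 ≤ s) (θ : S2) :
    oext f (Real.exp s • (θ : E3)) = f (ray s θ) := by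
  have h0 : ‖Real.exp s • (θ : E3)‖ = Real.exp s := by
    rw [norm_smul, norm_S2, mul_one, Real.norm_of_nonneg (Real.exp_pos _).le]
  have h : 1 ≤ ‖Real.exp s • (θ : E3)‖ := by
    rw [h0]; exact Real.one_le_exp hs
  simp only [oext, h, dif_pos]
  have : (⟨Real.exp s • (θ : E3), h⟩ : Om) = ray s θ := by
    apply Subtype.ext
    show Real.exp s • (θ : E3) = Real.exp (max s 0) • (θ : E3)
    rw [max_eq_left hs]
  rw [this]

theorem Ell_m1Y_h (h : Fin 3 → Fin 3 → Y) : m1Y 0 h = h := by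
  funext i j
  simp only [m1Y, qY, Pi.zero_apply]
  ring

theorem Ell_Mop_apply (h : Fin 3 → Fin 3 → Y) (i : Fin 3) :
    Mop h thY i = ∑ j, h i j * thY j := by
  simp [Mop]

theorem Ell_frad_toOm (h : Fin 3 → Fin 3 → Y) (x : Om) (θ : S2) (hx : dirS (x : E3) = θ) :
    frad (Mop h thY) x = hrr (fun i j => h i j x) θ := by
  unfold frad hrr
  rw [Y.sum_apply]
  refine Finset.sum_congr rfl (fun i _ => ?_)
  rw [Y.mul_apply, thY_apply, hx, Ell_Mop_apply, Y.sum_apply, Finset.mul_sum]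
  refine Finset.sum_congr rfl (fun j _ => ?_)
  rw [Y.mul_apply, thY_apply, hx]
  ring

theorem Ell_lin_h_apply (h : Fin 3 → Fin 3 → Y) (θ : S2) :
    (fderiv ℝ Gam 0 (0, h)) (toOm θ) = 2 * muc (Mop h thY) 0 θ +
      hrr (fun i j => h i j (toOm θ)) θ - tr3 (fun i j => h i j (toOm θ)) := by
  rw [Gam_fderiv, trY_apply, Ell_dirS_toOm, Y.sub_apply, Y.add_apply, Y.smul_apply, Ell_TT_sum,
    Ell_m1Y_h]
  have h2 : (∑ i, ∑ j, thY i * h i j * thY j) (toOm θ) =
      hrr (fun i j => h i j (toOm θ)) θ := by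
    unfold hrr
    rw [Y.sum_apply]
    refine Finset.sum_congr rfl (fun i _ => ?_)
    rw [Y.sum_apply]
    refine Finset.sum_congr rfl (fun j _ => ?_)
    rw [Y.mul_apply, Y.mul_apply, thY_apply, thY_apply, Ell_dirS_toOm]
    ring
  rw [h2, Y.sum_apply]
  rfl

theorem Ell_cont_coord (i : Fin 3) : Continuous (fun θ : S2 => (θ : E3) i) := by fun_prop

theorem Ell_cont_hrr {h : S2 → M3} (hc : Continuous h) :
    Continuous (fun θ : S2 => hrr (h θ) θ) := by
  unfold hrr
  refine continuous_finsetSum _ (fun i _ => continuous_finsetSum _ (fun j _ => ?_))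
  exact ((((continuous_apply_apply i j).comp hc)).mul (Ell_cont_coord i)).mul (Ell_cont_coord j)

theorem Ell_cont_tr {h : S2 → M3} (hc : Continuous h) :
    Continuous (fun θ : S2 => tr3 (h θ)) := by
  unfold tr3
  exact continuous_finsetSum _ (fun i _ => (continuous_apply_apply i i).comp hc)

theorem Gam_lin_h (h : Fin 3 → Fin 3 → Y) (i : Fin 3) :
    ∫ θ : S2, (θ : E3) i * (fderiv ℝ Gam 0 (0, h)) (toOm θ) ∂sig = ell i (fieldY h) := by
  have hcY : Continuous (fun θ : S2 => (fun a b => h a b (toOm θ) : M3)) := by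
    refine continuous_pi (fun a => continuous_pi (fun b => ?_))
    exact (h a b).continuous.comp continuous_toOm
  have hI1 : Integrable (fun θ : S2 => (θ : E3) i * muc (Mop h thY) 0 θ) sig :=
    Ell_integrable ((Ell_cont_coord i).mul (muc (Mop h thY) 0).continuous)
  have hI2 : Integrable (fun θ : S2 => (θ : E3) i * hrr (fun a b => h a b (toOm θ)) θ) sig :=
    Ell_integrable ((Ell_cont_coord i).mul (Ell_cont_hrr hcY))
  have hI3 : Integrable (fun θ : S2 => (θ : E3) i * tr3 (fun a b => h a b (toOm θ))) sig :=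
    Ell_integrable ((Ell_cont_coord i).mul (Ell_cont_tr hcY))
  have h1 : ∫ θ : S2, (θ : E3) i * (fderiv ℝ Gam 0 (0, h)) (toOm θ) ∂sig =
      2 * (∫ θ : S2, (θ : E3) i * muc (Mop h thY) 0 θ ∂sig) +
      (∫ θ : S2, (θ : E3) i * hrr (fun a b => h a b (toOm θ)) θ ∂sig) -
      ∫ θ : S2, (θ : E3) i * tr3 (fun a b => h a b (toOm θ)) ∂sig := by
    have hI12 : Integrable (fun θ : S2 => 2 * ((θ : E3) i * muc (Mop h thY) 0 θ) +
      (θ : E3) i * hrr (fun a b => h a b (toOm θ)) θ) sig := (hI1.const_mul 2).add hI2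
    rw [← integral_const_mul, ← integral_add (hI1.const_mul 2) hI2, ← integral_sub
      hI12 hI3]
    refine integral_congr_ae (Filter.Eventually.of_forall (fun θ => ?_))
    show (θ : E3) i * (fderiv ℝ Gam 0 (0, h)) (toOm θ) = _
    rw [Ell_lin_h_apply]
    ring
  have h2 : ell i (fieldY h) =
      -(∫ θ : S2, (θ : E3) i * (hrr (fun a b => h a b (toOm θ)) θ +
        tr3 (fun a b => h a b (toOm θ))) ∂sig) +
      2 * ∫ s in Ioi (0 : ℝ), Real.exp (-(2 * s)) *
      ∫ θ : S2, (3 * (θ : E3) i * frad (Mop h thY) (ray s θ) - Mop h thY i (ray s θ)) ∂sig := by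
    unfold ell
    congr 1
    · congr 1
      refine integral_congr_ae (Filter.Eventually.of_forall (fun θ => ?_))
      have : fieldY h (θ : E3) = fun a b => h a b (toOm θ) := by
        funext a b
        exact Ell_oext (h a b) θ
      simp only [this]
    · congr 1
      refine setIntegral_congr_fun measurableSet_Ioi (fun s hs => ?_)
      simp only
      congr 1
      refine integral_congr_ae (Filter.Eventually.of_forall (fun θ => ?_))
      have : fieldY h (Real.exp s • (θ : E3)) = fun a b => h a b (ray s θ) := by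
        funext a b
        exact Ell_oext_ray (h a b) (le_of_lt hs) θ
      show 3 * (θ : E3) i * hrr (fieldY h (Real.exp s • (θ : E3))) θ -
        ∑ j, fieldY h (Real.exp s • (θ : E3)) i j * (θ : E3) j =
        3 * (θ : E3) i * frad (Mop h thY) (ray s θ) - Mop h thY i (ray s θ)
      rw [this, Ell_frad_toOm h (ray s θ) θ (Ell_dirS_ray s θ), Ell_Mop_apply, Y.sum_apply]
      congr 1
      refine Finset.sum_congr rfl (fun j _ => ?_)
      rw [Y.mul_apply, thY_apply, Ell_dirS_ray]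
  have h3 : ∫ θ : S2, (θ : E3) i * frad (Mop h thY) (toOm θ) ∂sig =
      ∫ θ : S2, (θ : E3) i * hrr (fun a b => h a b (toOm θ)) θ ∂sig := by
    refine integral_congr_ae (Filter.Eventually.of_forall (fun θ => ?_))
    show (θ : E3) i * frad (Mop h thY) (toOm θ) = _
    rw [Ell_frad_toOm h (toOm θ) θ (Ell_dirS_toOm θ)]
  have h4 : ∫ θ : S2, (θ : E3) i * (hrr (fun a b => h a b (toOm θ)) θ +
        tr3 (fun a b => h a b (toOm θ))) ∂sig =
      (∫ θ : S2, (θ : E3) i * hrr (fun a b => h a b (toOm θ)) θ ∂sig) +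
      ∫ θ : S2, (θ : E3) i * tr3 (fun a b => h a b (toOm θ)) ∂sig := by
    rw [← integral_add hI2 hI3]
    refine integral_congr_ae (Filter.Eventually.of_forall (fun θ => ?_))
    simp only
    ring
  rw [h1, h2, muc_l1, h3, h4]
  ring

/-! ### Bounds and linearity -/

theorem Ell_hrr_le {a : M3} {B : ℝ} (hB : 0 ≤ B) (h : ∀ i j, |a i j| ≤ B) (θ : S2) :
    |hrr a θ| ≤ 9 * B := by
  have h1 : |hrr a θ| ≤ ∑ i : Fin 3, ∑ j : Fin 3, B := by
    unfold hrr
    refine (Finset.abs_sum_le_sum_abs _ _).trans (Finset.sum_le_sum (fun i _ => ?_))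
    refine (Finset.abs_sum_le_sum_abs _ _).trans (Finset.sum_le_sum (fun j _ => ?_))
    rw [abs_mul, abs_mul]
    calc |a i j| * |(θ : E3) i| * |(θ : E3) j| ≤ B * 1 * 1 := by
          have := Ell_abs_coord θ i
          have := Ell_abs_coord θ j
          have := h i j
          gcongr
      _ = B := by ring
  refine h1.trans (le_of_eq ?_)
  simp only [Finset.sum_const, Finset.card_univ, Fintype.card_fin, nsmul_eq_mul]
  push_cast
  ring

theorem Ell_tr_le {a : M3} {B : ℝ} (h : ∀ i j, |a i j| ≤ B) : |tr3 a| ≤ 3 * B := by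
  have h1 : |tr3 a| ≤ ∑ i : Fin 3, B := by
    unfold tr3
    exact (Finset.abs_sum_le_sum_abs _ _).trans (Finset.sum_le_sum (fun i _ => h i i))
  refine h1.trans (le_of_eq ?_)
  simp only [Finset.sum_const, Finset.card_univ, Fintype.card_fin, nsmul_eq_mul]
  push_cast
  ring

theorem Ell_row_le {a : M3} {B : ℝ} (hB : 0 ≤ B) (h : ∀ i j, |a i j| ≤ B) (θ : S2) (i : Fin 3) :
    |∑ j, a i j * (θ : E3) j| ≤ 3 * B := by
  have h1 : |∑ j, a i j * (θ : E3) j| ≤ ∑ j : Fin 3, B := by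
    refine (Finset.abs_sum_le_sum_abs _ _).trans (Finset.sum_le_sum (fun j _ => ?_))
    rw [abs_mul]
    calc |a i j| * |(θ : E3) j| ≤ B * 1 := by
          have := Ell_abs_coord θ j
          have := h i j
          gcongr
      _ = B := by ring
  refine h1.trans (le_of_eq ?_)
  simp only [Finset.sum_const, Finset.card_univ, Fintype.card_fin, nsmul_eq_mul]
  push_cast
  ring

theorem Ell_one_le_exp {s : ℝ} (hs : 0 ≤ s) (θ : S2) : 1 ≤ ‖Real.exp s • (θ : E3)‖ := by
  rw [norm_smul, norm_S2, mul_one, Real.norm_of_nonneg (Real.exp_pos _).le]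
  exact Real.one_le_exp hs

/-- the inner integrand of `ell` -/
def Ell_in (i : Fin 3) (h : E3 → M3) (s : ℝ) (θ : S2) : ℝ :=
  3 * (θ : E3) i * hrr (h (Real.exp s • (θ : E3))) θ -
        ∑ j, h (Real.exp s • (θ : E3)) i j * (θ : E3) j

theorem Ell_in_le (i : Fin 3) {h : E3 → M3} {B : ℝ} (hB : 0 ≤ B)
    (hb : ∀ x, 1 ≤ ‖x‖ → ∀ a b, |h x a b| ≤ B) {s : ℝ} (hs : 0 ≤ s) (θ : S2) :
    |Ell_in i h s θ| ≤ 30 * B := by
  unfold Ell_in
  have h1 := Ell_hrr_le hB (hb _ (Ell_one_le_exp hs θ)) θ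
  have h2 := Ell_row_le hB (hb _ (Ell_one_le_exp hs θ)) θ i
  have h3 := Ell_abs_coord θ i
  refine (abs_sub _ _).trans ?_
  rw [abs_mul, abs_mul, abs_of_nonneg (show (0 : ℝ) ≤ 3 by norm_num)]
  have h4 : 3 * |(θ : E3) i| * |hrr (h (Real.exp s • (θ : E3))) θ| ≤ 3 * 1 * (9 * B) := by
    gcongr
  linarith

theorem Ell_int_le (i : Fin 3) {h : E3 → M3} {B : ℝ} (hB : 0 ≤ B)
    (hb : ∀ x, 1 ≤ ‖x‖ → ∀ a b, |h x a b| ≤ B) {s : ℝ} (hs : 0 ≤ s) :
    |∫ θ : S2, Ell_in i h s θ ∂sig| ≤ 30 * B * sig.real univ := by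
  have := norm_integral_le_of_norm_le_const (μ := sig) (f := Ell_in i h s) (C := 30 * B)
    (Filter.Eventually.of_forall (fun θ => by
      rw [Real.norm_eq_abs]; exact Ell_in_le i hB hb hs θ))
  rwa [Real.norm_eq_abs] at this

theorem ell_bound : ∃ C, 0 < C ∧ ∀ (i : Fin 3) (h : E3 → M3) (B : ℝ), 0 ≤ B →
    (ContinuousOn h {x | 1 ≤ ‖x‖}) → (∀ x, 1 ≤ ‖x‖ → ∀ a b, |h x a b| ≤ B) →
    |ell i h| ≤ C * B := by
  refine ⟨12 * sig.real univ + 2 * (30 * sig.real univ *
    ∫ s in Ioi (0 : ℝ), Real.exp (-(2 * s))) + 1, ?_, fun i h B hB _ hb => ?_⟩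
  · have h1 : 0 ≤ sig.real univ := measureReal_nonneg
    have h2 : 0 ≤ ∫ s in Ioi (0 : ℝ), Real.exp (-(2 * s)) :=
      integral_nonneg (fun s => (Real.exp_pos _).le)
    positivity
  have hS : 0 ≤ sig.real univ := measureReal_nonneg
  have hexp : IntegrableOn (fun s : ℝ => Real.exp (-(2 * s))) (Ioi 0) := by
    have := exp_neg_integrableOn_Ioi (0 : ℝ) (zero_lt_two (α := ℝ))
    simpa [neg_mul] using this
  have h1 : |∫ θ : S2, (θ : E3) i * (hrr (h θ) θ + tr3 (h θ)) ∂sig| ≤ 12 * B * sig.real univ := by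
    have := norm_integral_le_of_norm_le_const (μ := sig)
      (f := fun θ : S2 => (θ : E3) i * (hrr (h θ) θ + tr3 (h θ))) (C := 12 * B)
      (Filter.Eventually.of_forall (fun θ => by
        rw [Real.norm_eq_abs, abs_mul]
        have hθ : 1 ≤ ‖(θ : E3)‖ := (norm_S2 θ).ge
        have h1 := Ell_hrr_le hB (hb _ hθ) θ
        have h2 := Ell_tr_le (hb _ hθ)
        have h3 := Ell_abs_coord θ i
        calc |(θ : E3) i| * |hrr (h θ) θ + tr3 (h θ)| ≤ 1 * (9 * B + 3 * B) := by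
              refine mul_le_mul h3 ((abs_add_le _ _).trans (add_le_add h1 h2)) (abs_nonneg _)
                zero_le_one
          _ = 12 * B := by ring))
    rwa [Real.norm_eq_abs] at this
  have h2 : |∫ s in Ioi (0 : ℝ), Real.exp (-(2 * s)) * ∫ θ : S2, Ell_in i h s θ ∂sig| ≤
      30 * B * sig.real univ * ∫ s in Ioi (0 : ℝ), Real.exp (-(2 * s)) := by
    rw [← integral_const_mul, ← Real.norm_eq_abs]
    refine norm_integral_le_of_norm_le (hexp.const_mul _) ?_
    refine (ae_restrict_iff' measurableSet_Ioi).2 (Filter.Eventually.of_forall (fun s hs => ?_))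
    rw [Real.norm_eq_abs, abs_mul, abs_of_pos (Real.exp_pos _), mul_comm]
    exact mul_le_mul_of_nonneg_right (Ell_int_le i hB hb (le_of_lt hs)) (Real.exp_pos _).le
  have h3 : ell i h = -(∫ θ : S2, (θ : E3) i * (hrr (h θ) θ + tr3 (h θ)) ∂sig) +
    2 * ∫ s in Ioi (0 : ℝ), Real.exp (-(2 * s)) * ∫ θ : S2, Ell_in i h s θ ∂sig := rfl
  rw [h3]
  refine (abs_add_le _ _).trans ?_
  rw [abs_neg, abs_mul, abs_of_nonneg (show (0 : ℝ) ≤ 2 by norm_num)]
  have h4 : (12 * sig.real univ + 2 * (30 * sig.real univ *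
    ∫ s in Ioi (0 : ℝ), Real.exp (-(2 * s))) + 1) * B = 12 * B * sig.real univ +
      2 * (30 * B * sig.real univ * ∫ s in Ioi (0 : ℝ), Real.exp (-(2 * s))) + B := by ring
  rw [h4]
  linarith only [h1, h2, hB]

theorem Ell_cont_sph {h : E3 → M3} (hc : ContinuousOn h {x | 1 ≤ ‖x‖}) {s : ℝ} (hs : 0 ≤ s) :
    Continuous (fun θ : S2 => h (Real.exp s • (θ : E3))) :=
  hc.comp_continuous (by fun_prop) (fun θ => Ell_one_le_exp hs θ)

theorem Ell_cont_in (i : Fin 3) {h : E3 → M3} (hc : ContinuousOn h {x | 1 ≤ ‖x‖}) {s : ℝ}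
    (hs : 0 ≤ s) : Continuous (Ell_in i h s) := by
  unfold Ell_in
  have h1 := Ell_cont_sph hc hs
  refine (((continuous_const.mul (Ell_cont_coord i)).mul (Ell_cont_hrr h1))).sub ?_
  exact continuous_finsetSum _ (fun j _ =>
    ((continuous_apply_apply i j).comp h1).mul (Ell_cont_coord j))

theorem Ell_cont_int (i : Fin 3) {h : E3 → M3} {B : ℝ} (hB : 0 ≤ B)
    (hc : ContinuousOn h {x | 1 ≤ ‖x‖})
    (hb : ∀ x, 1 ≤ ‖x‖ → ∀ a b, |h x a b| ≤ B) :
    Continuous (fun s : ℝ => ∫ θ : S2, Ell_in i h (max s 0) θ ∂sig) := by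
  refine continuous_of_dominated (bound := fun _ => 30 * B)
    (fun s => (Ell_cont_in i hc (le_max_right s 0)).aestronglyMeasurable)
    (fun s => Filter.Eventually.of_forall (fun θ => by
      rw [Real.norm_eq_abs]; exact Ell_in_le i hB hb (le_max_right s 0) θ))
    (integrable_const _) (Filter.Eventually.of_forall (fun θ => ?_))
  have h1 : Continuous (fun s : ℝ => h (Real.exp (max s 0) • (θ : E3))) :=
    hc.comp_continuous (by fun_prop) (fun s => Ell_one_le_exp (le_max_right s 0) θ)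
  unfold Ell_in hrr
  refine (continuous_const.mul (continuous_finsetSum _ (fun a _ =>
    continuous_finsetSum _ (fun b _ => ?_)))).sub (continuous_finsetSum _ (fun b _ => ?_))
  · exact ((((continuous_apply_apply a b).comp h1)).mul continuous_const).mul continuous_const
  · exact (((continuous_apply_apply i b).comp h1)).mul continuous_const

theorem Ell_integrable_out (i : Fin 3) {h : E3 → M3} {B : ℝ} (hB : 0 ≤ B)
    (hc : ContinuousOn h {x | 1 ≤ ‖x‖})
    (hb : ∀ x, 1 ≤ ‖x‖ → ∀ a b, |h x a b| ≤ B) :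
    IntegrableOn (fun s : ℝ => Real.exp (-(2 * s)) * ∫ θ : S2, Ell_in i h s θ ∂sig) (Ioi 0) := by
  have hexp : IntegrableOn (fun s : ℝ => Real.exp (-(2 * s))) (Ioi 0) := by
    have := exp_neg_integrableOn_Ioi (0 : ℝ) (zero_lt_two (α := ℝ))
    simpa [neg_mul] using this
  have h1 : IntegrableOn (fun s : ℝ => Real.exp (-(2 * s)) *
      ∫ θ : S2, Ell_in i h (max s 0) θ ∂sig) (Ioi 0) := by
    refine (hexp.const_mul (30 * B * sig.real univ)).mono' ?_ ?_
    · exact (Continuous.mul (by fun_prop) (Ell_cont_int i hB hc hb)).aestronglyMeasurable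
    · refine Filter.Eventually.of_forall (fun s => ?_)
      rw [Real.norm_eq_abs, abs_mul, abs_of_pos (Real.exp_pos _), mul_comm]
      exact mul_le_mul_of_nonneg_right (Ell_int_le i hB hb (le_max_right s 0))
        (Real.exp_pos _).le
  refine h1.congr_fun (fun s hs => ?_) measurableSet_Ioi
  simp only
  rw [max_eq_left (le_of_lt hs)]

theorem ell_add (i : Fin 3) (h h' : E3 → M3) (B : ℝ)
    (hc : ContinuousOn h {x | 1 ≤ ‖x‖}) (hb : ∀ x, 1 ≤ ‖x‖ → ∀ a b, |h x a b| ≤ B)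
    (hc' : ContinuousOn h' {x | 1 ≤ ‖x‖}) (hb' : ∀ x, 1 ≤ ‖x‖ → ∀ a b, |h' x a b| ≤ B) (c : ℝ) :
    ell i (fun x a b => h x a b + c * h' x a b) = ell i h + c * ell i h' := by
  have hB : 0 ≤ B := (abs_nonneg _).trans (hb (bv 0) (by simp [bv]) 0 0)
  have hθ1 : ∀ θ : S2, 1 ≤ ‖(θ : E3)‖ := fun θ => (norm_S2 θ).ge
  have hS : Continuous (fun θ : S2 => h (θ : E3)) := hc.comp_continuous (by fun_prop) hθ1
  have hS' : Continuous (fun θ : S2 => h' (θ : E3)) := hc'.comp_continuous (by fun_prop) hθ1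
  have hhrr : ∀ (a b : M3) (θ : E3), hrr (fun i j => a i j + c * b i j) θ =
      hrr a θ + c * hrr b θ := by
    intro a b θ
    unfold hrr
    simp only [Finset.mul_sum, ← Finset.sum_add_distrib]
    refine Finset.sum_congr rfl (fun i _ => Finset.sum_congr rfl (fun j _ => ?_))
    ring
  have htr : ∀ (a b : M3), tr3 (fun i j => a i j + c * b i j) = tr3 a + c * tr3 b := by
    intro a b
    unfold tr3
    simp only [Finset.mul_sum, ← Finset.sum_add_distrib]
  have hI : ∀ {g : E3 → M3}, Continuous (fun θ : S2 => g (θ : E3)) →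
      Integrable (fun θ : S2 => (θ : E3) i * (hrr (g θ) θ + tr3 (g θ))) sig := fun hg =>
    Ell_integrable ((Ell_cont_coord i).mul ((Ell_cont_hrr hg).add (Ell_cont_tr hg)))
  have h1 : ∫ θ : S2, (θ : E3) i * (hrr (fun a b => h (θ : E3) a b + c * h' (θ : E3) a b) θ +
      tr3 (fun a b => h (θ : E3) a b + c * h' (θ : E3) a b)) ∂sig =
      (∫ θ : S2, (θ : E3) i * (hrr (h θ) θ + tr3 (h θ)) ∂sig) +
      c * ∫ θ : S2, (θ : E3) i * (hrr (h' θ) θ + tr3 (h' θ)) ∂sig := by
    rw [← integral_const_mul, ← integral_add (hI hS) ((hI hS').const_mul c)]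
    refine integral_congr_ae (Filter.Eventually.of_forall (fun θ => ?_))
    simp only
    rw [hhrr, htr]
    ring
  have h2 : ∀ s : ℝ, 0 ≤ s → ∫ θ : S2, Ell_in i (fun x a b => h x a b + c * h' x a b) s θ ∂sig =
      (∫ θ : S2, Ell_in i h s θ ∂sig) + c * ∫ θ : S2, Ell_in i h' s θ ∂sig := by
    intro s hs
    rw [← integral_const_mul, ← integral_add (Ell_integrable (Ell_cont_in i hc hs))
      ((Ell_integrable (Ell_cont_in i hc' hs)).const_mul c)]
    refine integral_congr_ae (Filter.Eventually.of_forall (fun θ => ?_))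
    simp only [Ell_in]
    rw [hhrr]
    have : ∑ j, (h (Real.exp s • (θ : E3)) i j + c * h' (Real.exp s • (θ : E3)) i j) *
        (θ : E3) j = (∑ j, h (Real.exp s • (θ : E3)) i j * (θ : E3) j) +
        c * ∑ j, h' (Real.exp s • (θ : E3)) i j * (θ : E3) j := by
      rw [Finset.mul_sum, ← Finset.sum_add_distrib]
      exact Finset.sum_congr rfl (fun j _ => by ring)
    rw [this]
    ring
  have h3 : ∫ s in Ioi (0 : ℝ), Real.exp (-(2 * s)) *
      ∫ θ : S2, Ell_in i (fun x a b => h x a b + c * h' x a b) s θ ∂sig =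
      (∫ s in Ioi (0 : ℝ), Real.exp (-(2 * s)) * ∫ θ : S2, Ell_in i h s θ ∂sig) +
      c * ∫ s in Ioi (0 : ℝ), Real.exp (-(2 * s)) * ∫ θ : S2, Ell_in i h' s θ ∂sig := by
    rw [← integral_const_mul, ← integral_add (Ell_integrable_out i hB hc hb)
      ((Ell_integrable_out i hB hc' hb').const_mul c)]
    refine setIntegral_congr_fun measurableSet_Ioi (fun s hs => ?_)
    show Real.exp (-(2 * s)) *
      ∫ θ : S2, Ell_in i (fun x a b => h x a b + c * h' x a b) s θ ∂sig = _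
    rw [h2 s (le_of_lt hs)]
    ring
  have e1 : ∀ g : E3 → M3, ell i g = -(∫ θ : S2, (θ : E3) i * (hrr (g θ) θ + tr3 (g θ)) ∂sig) +
    2 * ∫ s in Ioi (0 : ℝ), Real.exp (-(2 * s)) * ∫ θ : S2, Ell_in i g s θ ∂sig :=
    fun g => rfl
  rw [e1, e1, e1, h3, h1]
  ring

theorem ell_congr (i : Fin 3) (h h' : E3 → M3) (H : ∀ x, 1 ≤ ‖x‖ → h x = h' x) :
    ell i h = ell i h' := by
  unfold ell
  congr 1
  · congr 1
    refine integral_congr_ae (Filter.Eventually.of_forall (fun θ => ?_))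
    show (θ : E3) i * (hrr (h (θ : E3)) θ + tr3 (h (θ : E3))) = _
    rw [H _ (norm_S2 θ).ge]
  · congr 1
    refine setIntegral_congr_fun measurableSet_Ioi (fun s hs => ?_)
    congr 1
    refine integral_congr_ae (Filter.Eventually.of_forall (fun θ => ?_))
    show 3 * (θ : E3) i * hrr (h (Real.exp s • (θ : E3))) θ -
        ∑ j, h (Real.exp s • (θ : E3)) i j * (θ : E3) j = _
    rw [H _ (Ell_one_le_exp (le_of_lt hs) θ)]

end

end Pool.Agent.BS
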