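import Pool.Agent.BS.Defs4

/-!
# Module FOL: the foliation
-/

namespace Pool.Agent.BS

open MeasureTheory Topology Set Filter
open scoped ContDiff

noncomputable section

theorem fol_radial {y y' : E3} (h : ‖y‖ ≤ ‖y'‖) :
    ‖y‖ * dist (dirS y) (dirS y') ≤ ‖y - y'‖ := by
  by_cases hy : y = 0
  · subst hy
    simp
  have hy' : y' ≠ 0 := by
    intro h0
    rw [h0, norm_zero] at h
    exact hy (norm_le_zero_iff.1 h)
  have hn : 0 < ‖y‖ := norm_pos_iff.2 hy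
  have hn' : 0 < ‖y'‖ := norm_pos_iff.2 hy'
  set t : ℝ := ‖y‖ / ‖y'‖ with ht
  have ht1 : t ≤ 1 := by rw [ht, div_le_one hn']; exact h
  have ht0 : 0 ≤ t := by positivity
  have e1 : ‖y‖ * dist (dirS y) (dirS y') = ‖y - t • y'‖ := by
    have : y - t • y' = ‖y‖ • ((dirS y : E3) - (dirS y' : E3)) := by
      rw [smul_sub, norm_smul_dirS hy, dirS_coe hy', smul_smul, ht]
      rfl
    rw [this, norm_smul, norm_norm, Subtype.dist_eq, dist_eq_norm]
  rw [e1]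
  have hin : inner ℝ y y' ≤ t * ‖y'‖ ^ 2 := by
    have := real_inner_le_norm y y'
    have h2 : t * ‖y'‖ ^ 2 = ‖y‖ * ‖y'‖ := by
      rw [ht]; field_simp
    rw [h2]; exact this
  have a1 : ‖y - t • y'‖ ^ 2 = ‖y‖ ^ 2 - 2 * (t * inner ℝ y y') + t ^ 2 * ‖y'‖ ^ 2 := by
    rw [norm_sub_sq_real, real_inner_smul_right, norm_smul, Real.norm_of_nonneg ht0]
    ring
  have a2 : ‖y - y'‖ ^ 2 = ‖y‖ ^ 2 - 2 * inner ℝ y y' + ‖y'‖ ^ 2 := norm_sub_sq_real y y'
  have a3 : ‖y - t • y'‖ ^ 2 ≤ ‖y - y'‖ ^ 2 := by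
    rw [a1, a2]
    have h1t : 0 ≤ 1 - t := by linarith
    nlinarith [mul_le_mul_of_nonneg_left hin h1t, sq_nonneg ((1 - t) * ‖y'‖)]
  exact (sq_le_sq₀ (norm_nonneg _) (norm_nonneg _)).1 a3

theorem fol_w {η r : ℝ} (hr : 0 ≤ r) (w : S2 → ℝ) (hw : ∀ θ, |w θ| ≤ η)
    (hw' : ∀ θ θ', |w θ - w θ'| ≤ η * dist θ θ') (θ θ' : S2) :
    ‖(r * w θ) • (θ : E3) - (r * w θ') • (θ' : E3)‖ ≤ 2 * η * (r * dist θ θ') := by
  have e : (r * w θ) • (θ : E3) - (r * w θ') • (θ' : E3) =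
      r • ((w θ - w θ') • (θ : E3) + w θ' • ((θ : E3) - (θ' : E3))) := by
    module
  rw [e, norm_smul, Real.norm_of_nonneg hr]
  have h1 : ‖(w θ - w θ') • (θ : E3)‖ ≤ η * dist θ θ' := by
    rw [norm_smul, norm_S2, mul_one]
    exact hw' θ θ'
  have h2 : ‖w θ' • ((θ : E3) - (θ' : E3))‖ ≤ η * dist θ θ' := by
    rw [norm_smul, Subtype.dist_eq, dist_eq_norm]
    exact mul_le_mul_of_nonneg_right (hw θ') (norm_nonneg _)
  calc r * ‖(w θ - w θ') • (θ : E3) + w θ' • ((θ : E3) - (θ' : E3))‖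
      ≤ r * (η * dist θ θ' + η * dist θ θ') :=
        mul_le_mul_of_nonneg_left ((norm_add_le _ _).trans (add_le_add h1 h2)) hr
    _ = 2 * η * (r * dist θ θ') := by ring

/-- the perturbation, extended to the whole space -/
def folP (R₁ : ℝ) (bb : ℝ → E3) (ws : ℝ → S2 → ℝ) (y : E3) : E3 :=
  (min 1 (‖y‖ / R₁)) • bb (max ‖y‖ R₁) + (‖y‖ * ws (max ‖y‖ R₁) (dirS y)) • (dirS y : E3)

theorem fol_lip1 {η R₁ : ℝ} (hη : 0 ≤ η) (hR : 0 < R₁) {bb : ℝ → E3} {ws : ℝ → S2 → ℝ}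
    (h1 : ∀ R, R₁ ≤ R → ‖bb R‖ ≤ η * R ∧ (∀ θ, |ws R θ| ≤ η) ∧
      ∀ θ θ', |ws R θ - ws R θ'| ≤ η * dist θ θ')
    (h2 : ∀ R R', R₁ ≤ R → R ≤ R' → ‖bb R - bb R'‖ ≤ η * (R' - R) ∧
      ∀ θ, |R * ws R θ - R' * ws R' θ| ≤ η * (R' - R))
    {y y' : E3} (hyy : ‖y‖ ≤ ‖y'‖) :
    ‖folP R₁ bb ws y - folP R₁ bb ws y'‖ ≤ 5 * η * ‖y - y'‖ := by
  set r := ‖y‖ with hr
  set r' := ‖y'‖ with hr'
  set ρ := max r R₁ with hρ
  set ρ' := max r' R₁ with hρ'
  have hr0 : 0 ≤ r := norm_nonneg _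
  have hr0' : 0 ≤ r' := norm_nonneg _
  have hρR : R₁ ≤ ρ := le_max_right _ _
  have hρR' : R₁ ≤ ρ' := le_max_right _ _
  have hρρ : ρ ≤ ρ' := max_le_max_right _ hyy
  have hρd : ρ' - ρ ≤ r' - r := by
    rw [hρ, hρ']
    rcases le_total r' R₁ with h | h
    · rw [max_eq_right h, max_eq_right (hyy.trans h)]; linarith
    · rw [max_eq_left h]
      have := le_max_left r R₁
      linarith
  have hd : r' - r ≤ ‖y - y'‖ := by
    have := abs_norm_sub_norm_le y' y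
    rw [norm_sub_rev y' y] at this
    exact (le_abs_self _).trans this
  -- first part
  have hs1 : min 1 (r / R₁) ≤ 1 := min_le_left _ _
  have hs0 : 0 ≤ min 1 (r / R₁) := le_min zero_le_one (by positivity)
  have hsd : |min 1 (r / R₁) - min 1 (r' / R₁)| * ρ' ≤ r' - r := by
    rcases le_total R₁ r with h | h
    · have e1 : min 1 (r / R₁) = 1 := min_eq_left ((one_le_div hR).2 h)
      have e2 : min 1 (r' / R₁) = 1 := min_eq_left ((one_le_div hR).2 (h.trans hyy))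
      rw [e1, e2]; simp; linarith
    · have e1 : min 1 (r / R₁) = r / R₁ := min_eq_right ((div_le_one hR).2 h)
      rcases le_total R₁ r' with h' | h'
      · have e2 : min 1 (r' / R₁) = 1 := min_eq_left ((one_le_div hR).2 h')
        have e3 : ρ' = r' := max_eq_left h'
        rw [e1, e2, e3, abs_sub_comm, abs_of_nonneg (sub_nonneg.2 ((div_le_one hR).2 h))]
        have : r ≤ r / R₁ * r' := by
          rw [div_mul_eq_mul_div, le_div_iff₀ hR]
          exact mul_le_mul_of_nonneg_left h' hr0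
        linarith
      · have e2 : min 1 (r' / R₁) = r' / R₁ := min_eq_right ((div_le_one hR).2 h')
        have e3 : ρ' = R₁ := max_eq_right h'
        rw [e1, e2, e3, ← sub_div, abs_div, abs_of_pos hR, div_mul_cancel₀ _ hR.ne',
          abs_sub_comm, abs_of_nonneg (sub_nonneg.2 hyy)]
  have p1 : ‖(min 1 (r / R₁)) • bb ρ - (min 1 (r' / R₁)) • bb ρ'‖ ≤ η * (r' - r) + η * (r' - r) := by
    have e : (min 1 (r / R₁)) • bb ρ - (min 1 (r' / R₁)) • bb ρ' =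
        (min 1 (r / R₁)) • (bb ρ - bb ρ') + (min 1 (r / R₁) - min 1 (r' / R₁)) • bb ρ' := by
      simp only [smul_sub, sub_smul]; abel
    rw [e]
    refine (norm_add_le _ _).trans (add_le_add ?_ ?_)
    · rw [norm_smul, Real.norm_of_nonneg hs0]
      calc min 1 (r / R₁) * ‖bb ρ - bb ρ'‖ ≤ 1 * (η * (ρ' - ρ)) :=
            mul_le_mul hs1 (h2 ρ ρ' hρR hρρ).1 (norm_nonneg _) zero_le_one
        _ ≤ η * (r' - r) := by
            rw [one_mul]; exact mul_le_mul_of_nonneg_left hρd hη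
    · rw [norm_smul, Real.norm_eq_abs]
      calc |min 1 (r / R₁) - min 1 (r' / R₁)| * ‖bb ρ'‖
          ≤ |min 1 (r / R₁) - min 1 (r' / R₁)| * (η * ρ') :=
            mul_le_mul_of_nonneg_left (h1 ρ' hρR').1 (abs_nonneg _)
        _ = η * (|min 1 (r / R₁) - min 1 (r' / R₁)| * ρ') := by ring
        _ ≤ η * (r' - r) := mul_le_mul_of_nonneg_left hsd hη
  -- second part
  have p2 : ‖(r * ws ρ (dirS y)) • (dirS y : E3) - (r * ws ρ (dirS y')) • (dirS y' : E3)‖ ≤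
      2 * η * ‖y - y'‖ := by
    refine (fol_w hr0 (ws ρ) (h1 ρ hρR).2.1 (h1 ρ hρR).2.2 _ _).trans ?_
    exact mul_le_mul_of_nonneg_left (fol_radial hyy) (by positivity)
  have hw3 : |r * ws ρ (dirS y') - r' * ws ρ' (dirS y')| ≤ η * (r' - r) := by
    rcases le_total R₁ r with h | h
    · have e1 : ρ = r := max_eq_left h
      have e2 : ρ' = r' := max_eq_left (h.trans hyy)
      rw [e1, e2]
      exact (h2 r r' h hyy).2 _
    · have e1 : ρ = R₁ := max_eq_right h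
      rcases le_total R₁ r' with h' | h'
      · have e2 : ρ' = r' := max_eq_left h'
        rw [e1, e2]
        have b1 : |r * ws R₁ (dirS y') - R₁ * ws R₁ (dirS y')| ≤ η * (R₁ - r) := by
          rw [← sub_mul, abs_mul, abs_sub_comm, abs_of_nonneg (sub_nonneg.2 h), mul_comm η]
          exact mul_le_mul_of_nonneg_left ((h1 R₁ le_rfl).2.1 _) (sub_nonneg.2 h)
        have b2 := (h2 R₁ r' le_rfl h').2 (dirS y')
        calc |r * ws R₁ (dirS y') - r' * ws r' (dirS y')|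
            = |(r * ws R₁ (dirS y') - R₁ * ws R₁ (dirS y')) +
              (R₁ * ws R₁ (dirS y') - r' * ws r' (dirS y'))| := by congr 1; ring
          _ ≤ η * (R₁ - r) + η * (r' - R₁) := (abs_add_le _ _).trans (add_le_add b1 b2)
          _ = η * (r' - r) := by ring
      · have e2 : ρ' = R₁ := max_eq_right h'
        rw [e1, e2, ← sub_mul, abs_mul, abs_sub_comm, abs_of_nonneg (sub_nonneg.2 hyy), mul_comm η]
        exact mul_le_mul_of_nonneg_left ((h1 R₁ le_rfl).2.1 _) (sub_nonneg.2 hyy)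
  have p3 : ‖(r * ws ρ (dirS y')) • (dirS y' : E3) - (r' * ws ρ' (dirS y')) • (dirS y' : E3)‖ ≤
      η * (r' - r) := by
    rw [← sub_smul, norm_smul, norm_S2, mul_one]
    exact hw3
  have e : folP R₁ bb ws y - folP R₁ bb ws y' =
      ((min 1 (r / R₁)) • bb ρ - (min 1 (r' / R₁)) • bb ρ') +
      ((r * ws ρ (dirS y)) • (dirS y : E3) - (r * ws ρ (dirS y')) • (dirS y' : E3)) +
      ((r * ws ρ (dirS y')) • (dirS y' : E3) - (r' * ws ρ' (dirS y')) • (dirS y' : E3)) := by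
    unfold folP
    abel
  rw [e]
  have := mul_le_mul_of_nonneg_left hd hη
  calc _ ≤ (η * (r' - r) + η * (r' - r)) + 2 * η * ‖y - y'‖ + η * (r' - r) :=
        (norm_add_le _ _).trans (add_le_add ((norm_add_le _ _).trans (add_le_add p1 p2)) p3)
    _ ≤ 5 * η * ‖y - y'‖ := by linarith

theorem fol_lip {η R₁ : ℝ} (hη : 0 ≤ η) (hR : 0 < R₁) {bb : ℝ → E3} {ws : ℝ → S2 → ℝ}
    (h1 : ∀ R, R₁ ≤ R → ‖bb R‖ ≤ η * R ∧ (∀ θ, |ws R θ| ≤ η) ∧
      ∀ θ θ', |ws R θ - ws R θ'| ≤ η * dist θ θ')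
    (h2 : ∀ R R', R₁ ≤ R → R ≤ R' → ‖bb R - bb R'‖ ≤ η * (R' - R) ∧
      ∀ θ, |R * ws R θ - R' * ws R' θ| ≤ η * (R' - R))
    (y y' : E3) :
    ‖folP R₁ bb ws y - folP R₁ bb ws y'‖ ≤ 5 * η * ‖y - y'‖ := by
  rcases le_total ‖y‖ ‖y'‖ with h | h
  · exact fol_lip1 hη hR h1 h2 h
  · rw [norm_sub_rev, norm_sub_rev y]
    exact fol_lip1 hη hR h1 h2 h

/-- the frozen perturbation -/
def folQ (b : E3) (w : S2 → ℝ) (y : E3) : E3 := b + (‖y‖ * w (dirS y)) • (dirS y : E3)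

theorem folQ_lip {η : ℝ} (hη : 0 ≤ η) (b : E3) {w : S2 → ℝ} (hw : ∀ θ, |w θ| ≤ η)
    (hw' : ∀ θ θ', |w θ - w θ'| ≤ η * dist θ θ') (y y' : E3) :
    ‖folQ b w y - folQ b w y'‖ ≤ 3 * η * ‖y - y'‖ := by
  have key : ∀ y y' : E3, ‖y‖ ≤ ‖y'‖ → ‖folQ b w y - folQ b w y'‖ ≤ 3 * η * ‖y - y'‖ := by
    intro y y' hyy
    have hd : ‖y'‖ - ‖y‖ ≤ ‖y - y'‖ := by
      have := abs_norm_sub_norm_le y' y
      rw [norm_sub_rev y' y] at this
      exact (le_abs_self _).trans this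
    have e : folQ b w y - folQ b w y' =
        ((‖y‖ * w (dirS y)) • (dirS y : E3) - (‖y‖ * w (dirS y')) • (dirS y' : E3)) +
        ((‖y‖ * w (dirS y')) • (dirS y' : E3) - (‖y'‖ * w (dirS y')) • (dirS y' : E3)) := by
      unfold folQ; abel
    have p2 : ‖(‖y‖ * w (dirS y)) • (dirS y : E3) - (‖y‖ * w (dirS y')) • (dirS y' : E3)‖ ≤
        2 * η * ‖y - y'‖ := by
      refine (fol_w (norm_nonneg _) w hw hw' _ _).trans ?_
      exact mul_le_mul_of_nonneg_left (fol_radial hyy) (by positivity)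
    have p3 : ‖(‖y‖ * w (dirS y')) • (dirS y' : E3) - (‖y'‖ * w (dirS y')) • (dirS y' : E3)‖ ≤
        η * (‖y'‖ - ‖y‖) := by
      rw [← sub_smul, norm_smul, norm_S2, mul_one, ← sub_mul, norm_mul, Real.norm_eq_abs,
        Real.norm_eq_abs, abs_sub_comm, abs_of_nonneg (sub_nonneg.2 hyy), mul_comm η]
      exact mul_le_mul_of_nonneg_left (hw _) (sub_nonneg.2 hyy)
    rw [e]
    have := mul_le_mul_of_nonneg_left hd hη
    calc _ ≤ 2 * η * ‖y - y'‖ + η * (‖y'‖ - ‖y‖) := (norm_add_le _ _).trans (add_le_add p2 p3)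
      _ ≤ 3 * η * ‖y - y'‖ := by linarith
  rcases le_total ‖y‖ ‖y'‖ with h | h
  · exact key _ _ h
  · rw [norm_sub_rev, norm_sub_rev y]
    exact key _ _ h

/-- identity plus a small Lipschitz map is a homeomorphism -/
theorem fol_homeo (P : E3 → E3) (hP : ∀ y y', ‖P y - P y'‖ ≤ 1 / 4 * ‖y - y'‖) :
    ∃ F : E3 ≃ₜ E3, ∀ y, F y = y + P y := by
  have hA : ApproximatesLinearOn (fun y => y + P y)
      ((ContinuousLinearEquiv.refl ℝ E3 : E3 ≃L[ℝ] E3) : E3 →L[ℝ] E3) univ (1 / 4) := by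
    intro x _ y _
    have : x + P x - (y + P y) - ((ContinuousLinearEquiv.refl ℝ E3 : E3 ≃L[ℝ] E3) : E3 →L[ℝ] E3)
        (x - y) = P x - P y := by
      simp
      abel
    rw [this]
    simpa using hP x y
  have hc : Subsingleton E3 ∨ (1 / 4 : NNReal) <
      ‖((ContinuousLinearEquiv.refl ℝ E3 : E3 ≃L[ℝ] E3).symm : E3 →L[ℝ] E3)‖₊⁻¹ := by
    right
    have : ‖((ContinuousLinearEquiv.refl ℝ E3 : E3 ≃L[ℝ] E3).symm : E3 →L[ℝ] E3)‖₊ = 1 := by
      have h1 : ((ContinuousLinearEquiv.refl ℝ E3 : E3 ≃L[ℝ] E3).symm : E3 →L[ℝ] E3) =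
        ContinuousLinearMap.id ℝ E3 := rfl
      rw [h1]
      apply NNReal.eq
      simp
    rw [this, inv_one]
    exact NNReal.coe_lt_coe.1 (by norm_num)
  exact ⟨hA.toHomeomorph _ hc, fun y => rfl⟩

theorem fol_cross {r : ℝ} {y z : E3} (hz : ‖z‖ ≤ r) (hy : r < ‖y‖) :
    ∃ m : E3, ‖m‖ = r ∧ ‖y - m‖ + ‖m - z‖ = ‖y - z‖ := by
  have hc : ContinuousOn (fun t : ℝ => ‖z + t • (y - z)‖) (Icc 0 1) := by fun_prop
  have hiv := intermediate_value_Icc (zero_le_one' ℝ) hc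
  have hmem : r ∈ Icc ((fun t : ℝ => ‖z + t • (y - z)‖) 0) ((fun t : ℝ => ‖z + t • (y - z)‖) 1) := by
    constructor
    · simpa using hz
    · simpa using hy.le
  obtain ⟨t, ht, htr⟩ := hiv hmem
  refine ⟨z + t • (y - z), htr, ?_⟩
  have e1 : y - (z + t • (y - z)) = (1 - t) • (y - z) := by module
  have e2 : z + t • (y - z) - z = t • (y - z) := by module
  rw [e1, e2, norm_smul, norm_smul, Real.norm_of_nonneg (sub_nonneg.2 ht.2),
    Real.norm_of_nonneg ht.1]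
  ring

theorem fol_sep (P Q : E3 → E3) (hP : ∀ y y', ‖P y - P y'‖ ≤ 1 / 4 * ‖y - y'‖)
    (hQ : ∀ y y', ‖Q y - Q y'‖ ≤ 1 / 4 * ‖y - y'‖) {r : ℝ} (hPQ : ∀ m, ‖m‖ = r → P m = Q m)
    {y z : E3} (hz : ‖z‖ ≤ r) (hy : r < ‖y‖) : y + P y ≠ z + Q z := by
  obtain ⟨m, hm, hmd⟩ := fol_cross hz hy
  intro h
  have e : y - z = (Q z - Q m) + (P m - P y) := by
    have h1 : y - z = Q z - P y := by
      rw [sub_eq_sub_iff_add_eq_add, h]
      abel
    rw [h1, hPQ m hm]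
    abel
  have hne : 0 < ‖y - z‖ := by
    rw [norm_pos_iff, sub_ne_zero]
    rintro rfl
    linarith
  have h2 : ‖y - z‖ ≤ 1 / 4 * ‖y - m‖ + 1 / 4 * ‖m - z‖ := by
    calc ‖y - z‖ = ‖(Q z - Q m) + (P m - P y)‖ := by rw [← e]
      _ ≤ ‖Q z - Q m‖ + ‖P m - P y‖ := norm_add_le _ _
      _ ≤ 1 / 4 * ‖z - m‖ + 1 / 4 * ‖m - y‖ := add_le_add (hQ _ _) (hP _ _)
      _ = 1 / 4 * ‖y - m‖ + 1 / 4 * ‖m - z‖ := by
          rw [norm_sub_rev z m, norm_sub_rev m y]; ring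
  linarith

theorem fol_conn (r : ℝ) (hr : 0 ≤ r) : IsConnected {y : E3 | r < ‖y‖} := by
  have hrank : 1 < Module.rank ℝ E3 := by
    rw [← Module.finrank_eq_rank, finrank_euclideanSpace]
    simp
  have h1 : IsConnected (Metric.sphere (0 : E3) 1) := isConnected_sphere hrank 0 zero_le_one
  have h2 : IsConnected (Ioi r) := isConnected_Ioi
  have h3 : IsConnected (Ioi r ×ˢ Metric.sphere (0 : E3) 1) := h2.prod h1
  have h4 : (fun p : ℝ × E3 => p.1 • p.2) '' (Ioi r ×ˢ Metric.sphere (0 : E3) 1) =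
      {y : E3 | r < ‖y‖} := by
    ext y
    simp only [mem_image, mem_prod, mem_Ioi, mem_sphere_zero_iff_norm, Prod.exists, mem_ofPred_eq]
    constructor
    · rintro ⟨t, v, ⟨ht, hv⟩, rfl⟩
      rw [norm_smul, hv, mul_one]
      exact lt_of_lt_of_le ht (le_abs_self t)
    · intro hy
      have hy0 : y ≠ 0 := by
        rintro rfl
        rw [norm_zero] at hy
        linarith
      exact ⟨‖y‖, dirS y, ⟨hy, norm_S2 _⟩, norm_smul_dirS hy0⟩
  rw [← h4]
  exact h3.image _ (by fun_prop)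

theorem fol_star (b : E3) {r : ℝ} (hr : 0 < r) (w : S2 → ℝ) (G : E3 ≃ₜ E3)
    (hG : ∀ y, G y = y + folQ b w y) :
    G '' Metric.closedBall 0 r = starR b r w ∧ G '' Metric.sphere 0 r = starB b r w := by
  have hG' : ∀ y : E3, y ≠ 0 → G y = b + (‖y‖ * (1 + w (dirS y))) • (dirS y : E3) := by
    intro y hy
    rw [hG, folQ]
    conv_lhs => rw [← norm_smul_dirS hy]
    rw [norm_smul, norm_norm, norm_S2, mul_one, dirS_smul_S2 _ (norm_pos_iff.2 hy)]
    module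
  constructor
  · ext x
    constructor
    · rintro ⟨y, hy, rfl⟩
      rw [mem_closedBall_zero_iff] at hy
      by_cases hy0 : y = 0
      · subst hy0
        refine ⟨0, dirS 0, le_rfl, zero_le_one, ?_⟩
        rw [hG, folQ]
        simp
      · refine ⟨‖y‖ / r, dirS y, by positivity, (div_le_one hr).2 hy, ?_⟩
        rw [hG' y hy0, div_mul_cancel₀ _ hr.ne']
    · rintro ⟨s, θ, hs0, hs1, rfl⟩
      rcases hs0.eq_or_lt with h | h
      · subst h
        refine ⟨0, by simpa using hr.le, ?_⟩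
        rw [hG, folQ]
        simp
      · have hsr : 0 < s * r := by positivity
        refine ⟨(s * r) • (θ : E3), ?_, ?_⟩
        · rw [mem_closedBall_zero_iff, norm_smul, norm_S2, mul_one, Real.norm_of_nonneg hsr.le]
          nlinarith
        · rw [hG' _ (smul_ne_zero hsr.ne' (S2_ne_zero θ)), norm_smul, norm_S2, mul_one,
            Real.norm_of_nonneg hsr.le, dirS_smul_S2 _ hsr]
  · ext x
    constructor
    · rintro ⟨y, hy, rfl⟩
      rw [mem_sphere_zero_iff_norm] at hy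
      have hy0 : y ≠ 0 := by
        rintro rfl
        rw [norm_zero] at hy
        exact hr.ne hy
      exact ⟨dirS y, by rw [hG' y hy0, hy]⟩
    · rintro ⟨θ, rfl⟩
      refine ⟨r • (θ : E3), ?_, ?_⟩
      · rw [mem_sphere_zero_iff_norm, norm_smul, norm_S2, mul_one, Real.norm_of_nonneg hr.le]
      · rw [hG' _ (smul_ne_zero hr.ne' (S2_ne_zero θ)), norm_smul, norm_S2, mul_one,
            Real.norm_of_nonneg hr.le, dirS_smul_S2 _ hr]

theorem fol_part : ∃ η : ℝ, 0 < η ∧ ∀ (R₁ : ℝ) (bb : ℝ → E3) (ws : ℝ → S2 → ℝ), 1 ≤ R₁ →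
    (∀ R, R₁ ≤ R → ‖bb R‖ ≤ η * R ∧ (∀ θ, |ws R θ| ≤ η) ∧
      ∀ θ θ', |ws R θ - ws R θ'| ≤ η * dist θ θ') →
    (∀ R R', R₁ ≤ R → R ≤ R' → ‖bb R - bb R'‖ ≤ η * (R' - R) ∧
      ∀ θ, |R * ws R θ - R' * ws R' θ| ≤ η * (R' - R)) →
    ContDiffOn ℝ ∞ bb (Ioi R₁) →
    ContDiffOn ℝ ∞ (fun p : ℝ × E3 => ws p.1 (dirS p.2)) (Ioi R₁ ×ˢ {0}ᶜ) →
    ∃ F : OpenPartialHomeomorph E3 E3, F.source = {y | R₁ < ‖y‖} ∧
      IsCompact F.targetᶜ ∧ F.target ⊆ {x | R₁ / 2 < ‖x‖} ∧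
      (∀ y, R₁ < ‖y‖ → F y = bb ‖y‖ + (‖y‖ * (1 + ws ‖y‖ (dirS y))) • (dirS y : E3)) ∧
      ContDiffOn ℝ ∞ F F.source ∧ ContDiffOn ℝ ∞ F.symm F.target ∧
      ∀ r, R₁ < r → F '' {y | r < ‖y‖} = (starR (bb r) r (ws r))ᶜ ∧
        frontier (starR (bb r) r (ws r)) = starB (bb r) r (ws r) ∧
        F '' Metric.sphere 0 r = starB (bb r) r (ws r) ∧
        IsCompact (starR (bb r) r (ws r)) ∧ IsConnected (starR (bb r) r (ws r))ᶜ ∧
        Metric.closedBall 0 (r / 2) ⊆ interior (starR (bb r) r (ws r)) := by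
  refine ⟨1 / 20, by norm_num, ?_⟩
  intro R₁ bb ws hR h1 h2 hbb hws
  have hR0 : 0 < R₁ := by linarith
  have hPl : ∀ y y', ‖folP R₁ bb ws y - folP R₁ bb ws y'‖ ≤ 1 / 4 * ‖y - y'‖ := by
    intro y y'
    have := fol_lip (by norm_num : (0 : ℝ) ≤ 1 / 20) hR0 h1 h2 y y'
    linarith
  obtain ⟨H, hH⟩ := fol_homeo _ hPl
  have hU : IsOpen {y : E3 | R₁ < ‖y‖} := isOpen_lt continuous_const continuous_norm
  -- formula for `folP`
  have hPf : ∀ y : E3, R₁ < ‖y‖ → folP R₁ bb ws y = folQ (bb ‖y‖) (ws ‖y‖) y := by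
    intro y hy
    have e1 : min 1 (‖y‖ / R₁) = 1 := min_eq_left ((one_le_div hR0).2 hy.le)
    have e2 : max ‖y‖ R₁ = ‖y‖ := max_eq_left hy.le
    rw [folP, folQ, e1, e2, one_smul]
  have hHf : ∀ y : E3, R₁ < ‖y‖ →
      H y = bb ‖y‖ + (‖y‖ * (1 + ws ‖y‖ (dirS y))) • (dirS y : E3) := by
    intro y hy
    have hy0 : y ≠ 0 := by
      rintro rfl
      rw [norm_zero] at hy
      linarith
    rw [hH, hPf y hy, folQ]
    conv_lhs => arg 1; rw [← norm_smul_dirS hy0]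
    module
  -- smoothness
  have hsm : ContDiffOn ℝ ∞ H {y : E3 | R₁ < ‖y‖} := by
    intro y hy
    have hy0 : y ≠ 0 := by
      rintro rfl
      have hx1 : R₁ < ‖(0 : E3)‖ := hy
      rw [norm_zero] at hx1
      linarith
    have hn : ContDiffAt ℝ ∞ (fun x : E3 => ‖x‖) y := contDiffAt_norm ℝ hy0
    have hb : ContDiffAt ℝ ∞ (fun x : E3 => bb ‖x‖) y :=
      (hbb.contDiffAt (Ioi_mem_nhds hy)).comp y hn
    have hw : ContDiffAt ℝ ∞ (fun x : E3 => ws ‖x‖ (dirS x)) y := by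
      have hop : IsOpen (Ioi R₁ ×ˢ ({0}ᶜ : Set E3)) := isOpen_Ioi.prod isOpen_compl_singleton
      have := hws.contDiffAt (hop.mem_nhds (⟨hy, hy0⟩ : (‖y‖, y) ∈ Ioi R₁ ×ˢ ({0}ᶜ : Set E3)))
      exact ContDiffAt.comp (g := fun p : ℝ × E3 => ws p.1 (dirS p.2)) (f := fun x : E3 => (‖x‖, x))
        y this (hn.prodMk contDiffAt_id)
    have hd : ContDiffAt ℝ ∞ (fun x : E3 => ‖x‖⁻¹ • x) y :=
      (hn.inv (norm_ne_zero_iff.2 hy0)).smul contDiffAt_id
    have hall : ContDiffAt ℝ ∞ (fun x : E3 => bb ‖x‖ + (‖x‖ * (1 + ws ‖x‖ (dirS x))) •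
        (‖x‖⁻¹ • x)) y := hb.add ((hn.mul (contDiffAt_const.add hw)).smul hd)
    refine (hall.congr_of_eventuallyEq ?_).contDiffWithinAt
    filter_upwards [hU.mem_nhds hy] with x hx
    have hx0 : x ≠ 0 := by
      rintro rfl
      have hx1 : R₁ < ‖(0 : E3)‖ := hx
      rw [norm_zero] at hx1
      linarith
    rw [hHf x hx, dirS_coe hx0]
  have hsymm : ∀ y : E3, R₁ < ‖y‖ → ContDiffAt ℝ ∞ H.symm (H y) := by
    intro y hy
    have hc : ContDiffAt ℝ ∞ H y := hsm.contDiffAt (hU.mem_nhds hy)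
    have hdH : DifferentiableAt ℝ H y := hc.differentiableAt (by simp)
    have hlip : LipschitzWith (1 / 4) (fun y => folP R₁ bb ws y) := by
      refine LipschitzWith.of_dist_le_mul (fun x x' => ?_)
      rw [dist_eq_norm, dist_eq_norm]
      simpa using hPl x x'
    have hPe : (fun y => folP R₁ bb ws y) = fun y => H y - y := by
      funext x
      rw [hH]
      simp
    have hfd : fderiv ℝ (fun y => folP R₁ bb ws y) y = fderiv ℝ H y - ContinuousLinearMap.id ℝ E3 := by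
      rw [hPe]
      have h3 := hdH.hasFDerivAt.sub (hasFDerivAt_id y)
      exact h3.fderiv
    have hnorm : ‖fderiv ℝ (fun y => folP R₁ bb ws y) y‖ ≤ 1 / 4 := by
      have := norm_fderiv_le_of_lipschitz ℝ hlip (x₀ := y)
      simpa using this
    have hinj : Function.Injective (fderiv ℝ H y : E3 →ₗ[ℝ] E3) := by
      rw [injective_iff_map_eq_zero]
      intro v hv
      have h3 : fderiv ℝ (fun y => folP R₁ bb ws y) y v = -v := by
        rw [hfd]
        have : fderiv ℝ H y v = 0 := hv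
        simp [this]
      have h4 := (fderiv ℝ (fun y => folP R₁ bb ws y) y).le_opNorm v
      rw [h3, norm_neg] at h4
      have h5 : ‖v‖ ≤ 1 / 4 * ‖v‖ := h4.trans (mul_le_mul_of_nonneg_right hnorm (norm_nonneg _))
      exact norm_le_zero_iff.1 (by linarith [norm_nonneg v])
    let L : E3 ≃L[ℝ] E3 := (LinearEquiv.ofInjectiveEndo _ hinj).toContinuousLinearEquiv
    have hL : (L : E3 →L[ℝ] E3) = fderiv ℝ H y := by
      ext v
      rfl
    have := OpenPartialHomeomorph.contDiffAt_symm (𝕜 := ℝ) (n := ∞) H.toOpenPartialHomeomorph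
      (f₀' := L) (a := H y) (mem_univ _) (by
        rw [hL]
        have e : H.toOpenPartialHomeomorph.symm (H y) = y := H.symm_apply_apply y
        rw [e]
        exact hdH.hasFDerivAt) (by
        have e : H.toOpenPartialHomeomorph.symm (H y) = y := H.symm_apply_apply y
        rw [e]
        exact hc)
    exact this
  -- the frozen maps
  have hfro : ∀ r, R₁ < r → ∃ G : E3 ≃ₜ E3, (∀ y, G y = y + folQ (bb r) (ws r) y) ∧
      H '' {y | r < ‖y‖} = (G '' Metric.closedBall 0 r)ᶜ ∧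
      H '' Metric.sphere 0 r = G '' Metric.sphere 0 r := by
    intro r hr
    have hQl : ∀ y y', ‖folQ (bb r) (ws r) y - folQ (bb r) (ws r) y'‖ ≤ 1 / 4 * ‖y - y'‖ := by
      intro y y'
      have := folQ_lip (by norm_num : (0 : ℝ) ≤ 1 / 20) (bb r) (h1 r hr.le).2.1
        (h1 r hr.le).2.2 y y'
      linarith [norm_nonneg (y - y')]
    obtain ⟨G, hG⟩ := fol_homeo _ hQl
    have hPQ : ∀ m : E3, ‖m‖ = r → folP R₁ bb ws m = folQ (bb r) (ws r) m := by
      intro m hm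
      rw [hPf m (by rw [hm]; exact hr), hm]
    refine ⟨G, hG, ?_, ?_⟩
    · ext x
      constructor
      · rintro ⟨y, hy, rfl⟩ ⟨z, hz, hzy⟩
        rw [mem_closedBall_zero_iff] at hz
        rw [hG, hH] at hzy
        exact fol_sep _ _ hPl hQl hPQ hz hy hzy.symm
      · intro hx
        obtain ⟨y, rfl⟩ := H.surjective x
        refine ⟨y, ?_, rfl⟩
        by_contra hy
        rw [mem_ofPred_eq, not_lt] at hy
        obtain ⟨z, hz⟩ := G.surjective (H y)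
        have hzr : r < ‖z‖ := by
          by_contra hzr
          exact hx ⟨z, mem_closedBall_zero_iff.2 (not_lt.1 hzr), hz⟩
        rw [hG, hH] at hz
        exact fol_sep _ _ hQl hPl (fun m hm => (hPQ m hm).symm) hy hzr hz
    · ext x
      constructor
      · rintro ⟨y, hy, rfl⟩
        refine ⟨y, hy, ?_⟩
        rw [hG, hH, hPQ y (mem_sphere_zero_iff_norm.1 hy)]
      · rintro ⟨y, hy, rfl⟩
        refine ⟨y, hy, ?_⟩
        rw [hG, hH, hPQ y (mem_sphere_zero_iff_norm.1 hy)]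
  let F : OpenPartialHomeomorph E3 E3 := H.toOpenPartialHomeomorph.restrOpen {y : E3 | R₁ < ‖y‖} hU
  have hFs : F.source = {y | R₁ < ‖y‖} := by
    show univ ∩ {y : E3 | R₁ < ‖y‖} = _
    rw [univ_inter]
  have hFc : ∀ y, F y = H y := fun y => rfl
  have hFt : F.target = H '' {y | R₁ < ‖y‖} := by
    rw [← F.image_source_eq_target, hFs]
    rfl
  refine ⟨F, hFs, ?_, ?_, ?_, ?_, ?_, ?_⟩
  · have e : F.targetᶜ = H '' Metric.closedBall 0 R₁ := by
      rw [hFt, ← H.image_compl]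
      congr 1
      ext y
      simp
    rw [e]
    exact (isCompact_closedBall 0 R₁).image H.continuous
  · rw [hFt]
    rintro x ⟨y, hy, rfl⟩
    rw [mem_ofPred_eq] at hy ⊢
    rw [hH, hPf y hy, folQ]
    have b1 := (h1 ‖y‖ hy.le).1
    have b2 : ‖(‖y‖ * ws ‖y‖ (dirS y)) • (dirS y : E3)‖ ≤ 1 / 20 * ‖y‖ := by
      rw [norm_smul, norm_S2, mul_one, norm_mul, norm_norm, mul_comm]
      exact mul_le_mul_of_nonneg_right ((h1 ‖y‖ hy.le).2.1 _) (norm_nonneg _)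
    have b3 : ‖y‖ ≤ ‖y + (bb ‖y‖ + (‖y‖ * ws ‖y‖ (dirS y)) • (dirS y : E3))‖ +
        ‖bb ‖y‖ + (‖y‖ * ws ‖y‖ (dirS y)) • (dirS y : E3)‖ := by
      have := norm_sub_le (y + (bb ‖y‖ + (‖y‖ * ws ‖y‖ (dirS y)) • (dirS y : E3)))
        (bb ‖y‖ + (‖y‖ * ws ‖y‖ (dirS y)) • (dirS y : E3))
      rwa [add_sub_cancel_right] at this
    have b4 := norm_add_le (bb ‖y‖) ((‖y‖ * ws ‖y‖ (dirS y)) • (dirS y : E3))
    linarith
  · intro y hy
    exact hHf y hy
  · rw [hFs]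
    exact hsm
  · intro x hx
    rw [hFt] at hx
    obtain ⟨y, hy, rfl⟩ := hx
    exact (hsymm y hy).contDiffWithinAt
  · intro r hr
    have hr0 : 0 < r := hR0.trans hr
    obtain ⟨G, hG, hG1, hG2⟩ := hfro r hr
    obtain ⟨s1, s2⟩ := fol_star (bb r) hr0 (ws r) G hG
    have e1 : F '' {y | r < ‖y‖} = (starR (bb r) r (ws r))ᶜ := by
      rw [← s1, ← hG1]
      rfl
    refine ⟨e1, ?_, ?_, ?_, ?_, ?_⟩
    · rw [← s1, ← s2, ← G.image_frontier, frontier_closedBall _ hr0.ne']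
    · rw [← s2, ← hG2]
      rfl
    · rw [← s1]
      exact (isCompact_closedBall 0 r).image G.continuous
    · rw [← e1]
      exact (fol_conn r hr0.le).image _ H.continuous.continuousOn
    · rw [← s1, ← G.image_interior, interior_closedBall _ hr0.ne']
      intro x hx
      rw [mem_closedBall_zero_iff] at hx
      obtain ⟨z, rfl⟩ := G.surjective x
      refine ⟨z, ?_, rfl⟩
      rw [mem_ball_zero_iff]
      rw [hG, folQ] at hx
      have b1 := (h1 r hr.le).1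
      have b2 : ‖(‖z‖ * ws r (dirS z)) • (dirS z : E3)‖ ≤ 1 / 20 * ‖z‖ := by
        rw [norm_smul, norm_S2, mul_one, norm_mul, norm_norm, mul_comm]
        exact mul_le_mul_of_nonneg_right ((h1 r hr.le).2.1 _) (norm_nonneg _)
      have b3 : ‖z‖ ≤ ‖z + (bb r + (‖z‖ * ws r (dirS z)) • (dirS z : E3))‖ +
          ‖bb r + (‖z‖ * ws r (dirS z)) • (dirS z : E3)‖ := by
        have := norm_sub_le (z + (bb r + (‖z‖ * ws r (dirS z)) • (dirS z : E3)))
          (bb r + (‖z‖ * ws r (dirS z)) • (dirS z : E3))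
        rwa [add_sub_cancel_right] at this
      have b4 := norm_add_le (bb r) ((‖z‖ * ws r (dirS z)) • (dirS z : E3))
      linarith

end

end Pool.Agent.BS
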