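import Pool.Agent.BS.FinA
import Pool.Agent.BS.Fol
import Pool.Agent.BS.Cmb
import Pool.Agent.BS.AngMain

/-!
# Module FIN: main theorem
-/

namespace Pool.Agent.BS

open MeasureTheory Topology Set Filter
open scoped ContDiff

noncomputable section

/-- the sup bound of the graph function and of its gradient -/
theorem fin_comp_le (w : Xs) (j : Fin 4) (x : Om) : |w.1 j x| ≤ ‖w‖ := by
  have h1 := (w.1 j).abs_apply_le x
  have h2 : ‖w.1 j‖ ≤ ‖w.1‖ := norm_le_pi_norm w.1 j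
  exact h1.trans h2

theorem fin_wS_le (w : Xs) (θ : S2) : |wS w.1 θ| ≤ ‖w‖ := fin_comp_le w 0 (toOm θ)

/-- the norm of a vector of `E3` with small components -/
theorem fin_mkE_le {v : Fin 3 → ℝ} {B : ℝ} (hB : 0 ≤ B) (h : ∀ k, |v k| ≤ B) :
    ‖mkE v‖ ≤ 2 * B := by
  rw [EuclideanSpace.norm_eq]
  refine Real.sqrt_le_iff.2 ⟨by positivity, ?_⟩
  rw [Fin.sum_univ_three]
  have hk : ∀ k, ‖(mkE v) k‖ ^ 2 ≤ B ^ 2 := by
    intro k
    rw [mkE_apply, Real.norm_eq_abs]
    have := h k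
    have h0 := abs_nonneg (v k)
    nlinarith
  have h0 := hk 0
  have h1 := hk 1
  have h2 := hk 2
  nlinarith [sq_nonneg B]

/-- Lipschitz bound of the graph function on the sphere -/
theorem fin_wS_lip (w : Xs) (θ θ' : S2) : |wS w.1 θ - wS w.1 θ'| ≤ 4 * ‖w‖ * dist θ θ' := by
  have hX : IsX w.1 := w.2
  obtain ⟨-, ⟨-, hC1⟩, -, -⟩ := hX
  by_cases hd : dist θ θ' ≤ 1
  · -- the segment stays away from the origin
    have hseg : ∀ x ∈ segment ℝ (θ : E3) (θ' : E3), 1 / 2 ≤ ‖x‖ := by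
      rintro x ⟨a, b, ha, hb, hab, rfl⟩
      have hdist : ‖(θ : E3) - (θ' : E3)‖ ≤ 1 := by
        rw [← dist_eq_norm]; exact hd
      rcases le_total a (1 / 2) with h | h
      · have e : (θ' : E3) = (a • (θ : E3) + b • (θ' : E3)) - a • ((θ : E3) - (θ' : E3)) := by
          rw [smul_sub]
          have : b = 1 - a := by linarith
          rw [this, sub_smul, one_smul]
          abel
        have h1 : ‖(θ' : E3)‖ ≤ ‖a • (θ : E3) + b • (θ' : E3)‖ + ‖a • ((θ : E3) - (θ' : E3))‖ := by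
          conv_lhs => rw [e]
          exact norm_sub_le _ _
        rw [norm_S2, norm_smul, Real.norm_of_nonneg ha] at h1
        nlinarith [norm_nonneg ((θ : E3) - (θ' : E3))]
      · have hb2 : b ≤ 1 / 2 := by linarith
        have e : (θ : E3) = (a • (θ : E3) + b • (θ' : E3)) + b • ((θ : E3) - (θ' : E3)) := by
          rw [smul_sub]
          have : a = 1 - b := by linarith
          rw [this, sub_smul, one_smul]
          abel
        have h1 : ‖(θ : E3)‖ ≤ ‖a • (θ : E3) + b • (θ' : E3)‖ + ‖b • ((θ : E3) - (θ' : E3))‖ := by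
          conv_lhs => rw [e]
          exact norm_add_le _ _
        rw [norm_S2, norm_smul, Real.norm_of_nonneg hb] at h1
        nlinarith [norm_nonneg ((θ : E3) - (θ' : E3))]
    have hne : ∀ x ∈ segment ℝ (θ : E3) (θ' : E3), x ≠ 0 := by
      intro x hx h0
      have := hseg x hx
      rw [h0, norm_zero] at this
      linarith
    have hbound : ∀ x ∈ segment ℝ (θ : E3) (θ' : E3),
        ‖innerSL ℝ (‖x‖⁻¹ • mkE (fun k => w.1 k.succ (toOm (dirS x))))‖ ≤ 4 * ‖w‖ := by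
      intro x hx
      rw [innerSL_apply_norm, norm_smul, norm_inv, norm_norm]
      have h1 : ‖x‖⁻¹ ≤ 2 := by
        rw [inv_le_comm₀ (norm_pos_iff.2 (hne x hx)) two_pos]
        have := hseg x hx
        linarith
      have h2 := fin_mkE_le (norm_nonneg w) (fun k : Fin 3 => fin_comp_le w k.succ (toOm (dirS x)))
      calc ‖x‖⁻¹ * ‖mkE (fun k => w.1 k.succ (toOm (dirS x)))‖ ≤ 2 * (2 * ‖w‖) :=
            mul_le_mul h1 h2 (norm_nonneg _) two_pos.le
        _ = 4 * ‖w‖ := by ring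
    have key := (convex_segment (θ : E3) (θ' : E3)).norm_image_sub_le_of_norm_hasFDerivWithin_le
      (f := fun y => w.1 0 (toOm (dirS y)))
      (fun x hx => (hC1 x (hne x hx)).hasFDerivWithinAt) hbound
      (right_mem_segment ℝ (θ : E3) (θ' : E3)) (left_mem_segment ℝ (θ : E3) (θ' : E3))
    simp only [dirS_S2] at key
    rw [Real.norm_eq_abs, ← dist_eq_norm] at key
    exact key
  · push Not at hd
    have h1 := fin_wS_le w θ
    have h2 := fin_wS_le w θ'
    have h3 := abs_sub (wS w.1 θ) (wS w.1 θ')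
    have h4 := norm_nonneg w
    nlinarith

theorem fin_sb2_mono {ε ε' : ℝ} {f : E3 → ℝ} (h : SB2 ε f) (he : ε ≤ ε') : SB2 ε' f :=
  ⟨h.c2, fun x hx => (h.b0 x hx).trans he, fun x hx => (h.b1 x hx).trans he,
    fun x hx => (h.b2 x hx).trans he⟩

/-- **Main theorem** -/
theorem bernoulli_foliation {q m r₀ : ℝ} {g : E3 → M3} (hq : 1 / 2 < q) (hg : AFMetric q g)
    (hs : IntegrableOn (scal g) {x | r₀ < ‖x‖}) (hm : Tendsto (massFlux g) atTop (𝓝 m))
    (hm0 : m ≠ 0) :
    ∃ (R : ℝ) (F : OpenPartialHomeomorph E3 E3), 0 < R ∧ F.source = {y | R < ‖y‖} ∧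
      F.target ⊆ {x | 1 < ‖x‖} ∧ IsCompact F.targetᶜ ∧
      ContDiffOn ℝ ∞ F F.source ∧ ContDiffOn ℝ ∞ F.symm F.target ∧
      ∀ r, R < r → IsBernoulli g (F '' {y | r < ‖y‖})ᶜ ∧
        frontier (F '' {y | r < ‖y‖})ᶜ = F '' Metric.sphere 0 r := by
  obtain ⟨δ, ε₀, C, c, hc⟩ := LS_main
  obtain ⟨εA, hεA, hεA₀, hA⟩ := ang_main hc
  obtain ⟨εB, hεB, hB⟩ := fin_bernoulli hc
  obtain ⟨η₀, hη₀, hF⟩ := fol_part
  have hCpos := hc.C_pos
  set η : ℝ := min (min εA εB) (min (C * εA) (η₀ / 4)) with hη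
  have hηpos : 0 < η := by
    rw [hη]
    exact lt_min (lt_min hεA hεB) (lt_min (mul_pos hCpos hεA) (by positivity))
  have hηA : η ≤ εA := (min_le_left _ _).trans (min_le_left _ _)
  have hηB : η ≤ εB := (min_le_left _ _).trans (min_le_right _ _)
  have hηC : η ≤ C * εA := (min_le_right _ _).trans (min_le_left _ _)
  have hη4 : 4 * η ≤ η₀ := by
    have : η ≤ η₀ / 4 := (min_le_right _ _).trans (min_le_right _ _)
    linarith
  have hηη : η ≤ η₀ := by linarith
  obtain ⟨R₁, hR₁, bb, ww, hSB, hprop, hκ, hdiff⟩ :=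
    AF_solution hc hq hg hs hm hm0 η hηpos
  obtain ⟨hHA, -, -, -⟩ := HA_smooth hg
  obtain ⟨hbs, hws⟩ := hA (HA g) R₁ bb ww (by linarith) hHA
    (fun b R hR hb i j => fin_sb2_mono (hSB b R hR.le hb.le i j) hηA)
    (fun R hR => by
      obtain ⟨h1, -, h3, -, h5, h6⟩ := hprop R hR.le
      exact ⟨h1, h3.trans hηC, h5, h6⟩)
    (fun R hR b w hb hw hsol hk => by
      obtain ⟨κ₀, hκ₀, h⟩ := hκ R hR.le
      have h1 := h b w hb hw hsol
      have h2 : mkE (kap (HbR (HA g) b R) w) = 0 := by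
        ext i
        rw [mkE_apply, hk i]
        rfl
      rw [h2, norm_zero] at h1
      have h3 : ‖b - bb R‖ = 0 := by
        have := norm_nonneg (b - bb R)
        nlinarith
      exact sub_eq_zero.1 (norm_eq_zero.1 h3))
    (fun R hR => hκ R hR.le)
  obtain ⟨F, hFs, hFc, hFt, -, hF1, hF2, hF3⟩ := hF R₁ bb (fun R θ => wS (ww R).1 θ) (by linarith)
    (fun R hR => by
      obtain ⟨-, h2, h3, -, -, -⟩ := hprop R hR
      refine ⟨h2.trans (by gcongr; linarith), fun θ => ((fin_wS_le _ θ).trans h3).trans hηη,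
        fun θ θ' => (fin_wS_lip (ww R) θ θ').trans ?_⟩
      refine mul_le_mul_of_nonneg_right ?_ dist_nonneg
      linarith)
    (fun R R' hR hRR' => by
      obtain ⟨h1, h2⟩ := hdiff R R' hR hRR'
      have h0 : 0 ≤ R' - R := by linarith
      exact ⟨h1.trans (by gcongr), fun θ => (h2 θ).trans (by gcongr)⟩)
    hbs hws
  refine ⟨R₁, F, by linarith, hFs, ?_, hFc, hF1, hF2, ?_⟩
  · intro x hx
    have := hFt hx
    simp only [mem_ofPred_eq] at this ⊢
    linarith
  · intro r hr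
    obtain ⟨e1, e2, e3, e4, e5, e6⟩ := hF3 r hr
    have e7 : (F '' {y | r < ‖y‖})ᶜ = starR (bb r) r (wS (ww r).1) := by
      rw [e1, compl_compl]
    rw [e7, e3]
    refine ⟨?_, e2⟩
    obtain ⟨h1, h2, h3, h4, h5, h6⟩ := hprop r hr.le
    refine hB hg (bb r) r (ww r) (by linarith) h1.le (h3.trans hηB)
      (fun i j => fin_sb2_mono (hSB (bb r) r hr.le h1.le i j) hηB) ?_ h5 h6 e4 e5 e2 ?_
    · have : (fun x => wS (ww r).1 (dirS x)) =
          (fun p : ℝ × E3 => wS (ww p.1).1 (dirS p.2)) ∘ (fun x => (r, x)) := rfl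
      rw [this]
      refine hws.comp (contDiff_const.prodMk contDiff_id).contDiffOn ?_
      intro x hx
      exact ⟨hr, hx⟩
    · refine Subset.trans (Metric.closedBall_subset_closedBall ?_) e6
      linarith

end

end Pool.Agent.BS
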