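import Pool.Agent.BS.TOp
import Pool.Agent.BS.El

/-!
# Module GAM: the map Gam
-/

namespace Pool.Agent.BS

open MeasureTheory Topology Set Filter
open scoped ContDiff

noncomputable section

/-- The map `Gam`: `|∇u|²` on the surface as a function of graph and coefficients. -/
def Gam (p : (Fin 4 → Y) × (Fin 3 → Fin 3 → Y)) : Y := trY (Gam0 TT p.1 p.2)

/-! ### Auxiliary lemmas -/

/-- the parameter space -/
abbrev GAMP : Type := (Fin 4 → Y) × (Fin 3 → Fin 3 → Y)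

theorem GAM_eY_contDiff : ContDiff ℝ ∞ (fun p : GAMP => eY p.1) := by
  unfold eY
  fun_prop

theorem GAM_qY_contDiff (k : Fin 3) : ContDiff ℝ ∞ (fun p : GAMP => qY p.1 k) := by
  unfold qY
  fun_prop

theorem GAM_inv_contDiffAt {f : GAMP → Y} {p : GAMP} (hf : ContDiffAt ℝ ∞ f p)
    (hu : IsUnit (f p)) : ContDiffAt ℝ ∞ (fun p => Ring.inverse (f p)) p := by
  obtain ⟨u, hu⟩ := hu
  have h1 : ContDiffAt ℝ ∞ Ring.inverse (f p) := by
    rw [← hu]
    exact contDiffAt_ringInverse ℝ u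
  exact h1.comp p hf

theorem GAM_aY_contDiffAt {p : GAMP} (hu : IsUnit (eY p.1)) (i j : Fin 3) :
    ContDiffAt ℝ ∞ (fun p : GAMP => aY p.1 p.2 i j) p := by
  unfold aY
  refine (GAM_inv_contDiffAt GAM_eY_contDiff.contDiffAt hu).mul ?_
  refine ContDiff.contDiffAt ?_
  refine ContDiff.sum (fun k _ => ContDiff.sum (fun l _ => ?_))
  have h1 := GAM_eY_contDiff
  have h2 := GAM_qY_contDiff k
  have h3 := GAM_qY_contDiff l
  fun_prop

theorem GAM_det_contDiffAt {p : GAMP} (hu : IsUnit (eY p.1)) :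
    ContDiffAt ℝ ∞ (fun p : GAMP => detY (aY p.1 p.2)) p := by
  have h := fun i j => GAM_aY_contDiffAt hu i j
  unfold detY
  simp only [Matrix.det_fin_three, Matrix.of_apply]
  have h00 := h 0 0
  have h01 := h 0 1
  have h02 := h 0 2
  have h10 := h 1 0
  have h11 := h 1 1
  have h12 := h 1 2
  have h20 := h 2 0
  have h21 := h 2 1
  have h22 := h 2 2
  fun_prop

theorem GAM_mY_contDiffAt {p : GAMP} (hu : IsUnit (eY p.1)) :
    ContDiffAt ℝ ∞ (fun p : GAMP => mY p.1 p.2) p := by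
  rw [contDiffAt_pi]
  intro i
  rw [contDiffAt_pi]
  intro j
  unfold mY
  exact (GAM_aY_contDiffAt hu i j).sub contDiffAt_const

theorem GAM_Mop_eq (m : Fin 3 → Fin 3 → Y) :
    Mop m = ∑ i, ∑ j, (ContinuousLinearMap.single ℝ (fun _ : Fin 3 => Y) i).comp
      ((ContinuousLinearMap.mul ℝ Y (m i j)).comp (ContinuousLinearMap.proj j)) := by
  apply ContinuousLinearMap.ext
  intro v
  funext i
  simp only [Mop, ContinuousLinearMap.pi_apply, sum_apply,
    ContinuousLinearMap.comp_apply, ContinuousLinearMap.proj_apply, Finset.sum_apply,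
    ContinuousLinearMap.single_apply, ContinuousLinearMap.mul_apply']
  symm
  rw [Finset.sum_eq_single i]
  · refine Finset.sum_congr rfl (fun j _ => ?_)
    rw [Pi.single_eq_same]
  · intro b _ hb
    refine Finset.sum_eq_zero (fun j _ => ?_)
    rw [Pi.single_eq_of_ne (Ne.symm hb)]
  · intro h
    exact absurd (Finset.mem_univ i) h

theorem GAM_Mop_contDiff : ContDiff ℝ ∞ Mop := by
  have : Mop = fun m => ∑ i, ∑ j, (ContinuousLinearMap.single ℝ (fun _ : Fin 3 => Y) i).comp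
      ((ContinuousLinearMap.mul ℝ Y (m i j)).comp (ContinuousLinearMap.proj j)) :=
    funext GAM_Mop_eq
  rw [this]
  refine ContDiff.sum (fun i _ => ContDiff.sum (fun j _ => ?_))
  refine ContDiff.clm_comp contDiff_const (ContDiff.clm_comp ?_ contDiff_const)
  refine (ContinuousLinearMap.contDiff (ContinuousLinearMap.mul ℝ Y)).comp ?_
  fun_prop

theorem GAM_Mop_apply (m : Fin 3 → Fin 3 → Y) (v : Fin 3 → Y) (i : Fin 3) :
    Mop m v i = ∑ j, m i j * v j := by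
  simp only [Mop, ContinuousLinearMap.pi_apply, sum_apply,
    ContinuousLinearMap.comp_apply, ContinuousLinearMap.proj_apply, ContinuousLinearMap.mul_apply']


theorem GAM_ZZ_contDiffAt {p : GAMP} (hu : IsUnit (eY p.1))
    (hT : IsUnit (1 - TT.comp (Mop (mY p.1 p.2)))) :
    ContDiffAt ℝ ∞ (fun p : GAMP => ZZ TT (mY p.1 p.2)) p := by
  unfold ZZ
  have hm := GAM_mY_contDiffAt hu
  have hM : ContDiffAt ℝ ∞ (fun p : GAMP => Mop (mY p.1 p.2)) p :=
    (GAM_Mop_contDiff.contDiffAt).comp p hm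
  have h1 : ContDiffAt ℝ ∞ (fun p : GAMP => (1 - TT.comp (Mop (mY p.1 p.2)) :
      (Fin 3 → Y) →L[ℝ] (Fin 3 → Y))) p :=
    contDiffAt_const.sub (contDiffAt_const.clm_comp hM)
  have h2 : ContDiffAt ℝ ∞ (fun p : GAMP => (Ring.inverse (1 - TT.comp (Mop (mY p.1 p.2))) :
      (Fin 3 → Y) →L[ℝ] (Fin 3 → Y))) p := by
    obtain ⟨u, hu'⟩ := hT
    have h3 : ContDiffAt ℝ ∞ (Ring.inverse : ((Fin 3 → Y) →L[ℝ] (Fin 3 → Y)) → _)
        (1 - TT.comp (Mop (mY p.1 p.2))) := by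
      rw [← hu']
      exact contDiffAt_ringInverse (R := (Fin 3 → Y) →L[ℝ] (Fin 3 → Y)) ℝ u
    exact h3.comp p h1
  refine h2.clm_apply ?_
  exact (TT.contDiff.contDiffAt).comp p (hM.clm_apply contDiffAt_const)

theorem GAM_contDiffAt {p : GAMP} (hu : IsUnit (eY p.1))
    (hT : IsUnit (1 - TT.comp (Mop (mY p.1 p.2)))) (hd : IsUnit (detY (aY p.1 p.2))) :
    ContDiffAt ℝ ∞ Gam p := by
  unfold Gam Gam0
  refine (trY.contDiff.contDiffAt).comp p ?_
  have ha := fun i j => GAM_aY_contDiffAt hu i j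
  have hZ := GAM_ZZ_contDiffAt hu hT
  have hZ' : ∀ j, ContDiffAt ℝ ∞ (fun p : GAMP => ZZ TT (mY p.1 p.2) j) p :=
    fun j => (contDiffAt_pi.1 hZ) j
  have hdet := GAM_inv_contDiffAt (GAM_det_contDiffAt hu) hd
  refine ContDiffAt.mul (ContDiffAt.mul ?_ (ContDiffAt.pow ?_ 2)) hdet
  · refine ContDiffAt.sum (fun i _ => ContDiffAt.sum (fun j _ => ?_))
    exact (contDiffAt_const.mul (ha i j)).mul contDiffAt_const
  · refine contDiffAt_const.add (ContDiffAt.sum (fun j _ => ?_))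
    exact contDiffAt_const.mul (hZ' j)

theorem GAM_eY_zero : eY 0 = 1 := by
  simp [eY]

theorem GAM_qY_zero (k : Fin 3) : qY 0 k = 0 := by
  simp [qY]

theorem GAM_aY_zero (i j : Fin 3) : aY 0 0 i j = dl i j := by
  unfold aY
  rw [GAM_eY_zero]
  simp only [GAM_qY_zero, Ring.inverse_one, one_mul, mul_zero, sub_zero, Pi.zero_apply, add_zero]
  simp only [dl]
  fin_cases i <;> fin_cases j <;> simp

theorem GAM_mY_zero : mY 0 0 = 0 := by
  funext i j
  unfold mY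
  rw [GAM_aY_zero]
  simp

theorem GAM_det_zero : detY (aY 0 0) = 1 := by
  unfold detY
  have : (Matrix.of (aY 0 0) : Matrix (Fin 3) (Fin 3) Y) = 1 := by
    ext1 i j
    rw [Matrix.of_apply, GAM_aY_zero, Matrix.one_apply]
    rfl
  rw [this, Matrix.det_one]

theorem GAM_Mop_zero : Mop 0 = 0 := by
  apply ContinuousLinearMap.ext
  intro v
  funext i
  rw [GAM_Mop_apply]
  simp

theorem GAM_one_sub_zero : (1 - TT.comp (Mop (mY 0 0)) : (Fin 3 → Y) →L[ℝ] (Fin 3 → Y)) = 1 := by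
  rw [GAM_mY_zero, GAM_Mop_zero, ContinuousLinearMap.comp_zero, sub_zero]

theorem GAM_ZZ_zero : ZZ TT (mY 0 0) = 0 := by
  unfold ZZ
  rw [GAM_mY_zero, GAM_Mop_zero]
  simp

theorem GAM_sum_thY_sq : ∑ i, thY i * thY i = 1 := by
  apply Y.ext
  intro x
  rw [Y.sum_apply]
  simp only [Y.mul_apply, thY_apply, Y.one_apply]
  have h := norm_S2 (dirS (x : E3))
  have h2 : ‖(dirS (x : E3) : E3)‖ ^ 2 = 1 := by rw [h]; norm_num
  rw [EuclideanSpace.norm_sq_eq] at h2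
  simp only [Real.norm_eq_abs, sq_abs] at h2
  refine (Finset.sum_congr rfl (fun i _ => ?_)).trans h2
  ring

theorem GAM_sum_dl (v : Fin 3 → Y) (i : Fin 3) : ∑ j, (dl i j : Y) * v j = v i := by
  simp [dl]

theorem GAM_quad_zero : ∑ i, ∑ j, thY i * aY 0 0 i j * thY j = 1 := by
  rw [← GAM_sum_thY_sq]
  refine Finset.sum_congr rfl (fun i _ => ?_)
  simp only [GAM_aY_zero, mul_assoc]
  rw [← Finset.mul_sum, GAM_sum_dl]

theorem GAM_zero_unit1 : IsUnit (eY (0 : GAMP).1) := by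
  rw [Prod.fst_zero, GAM_eY_zero]
  exact isUnit_one

theorem GAM_zero_unit2 : IsUnit (1 - TT.comp (Mop (mY (0 : GAMP).1 (0 : GAMP).2))) := by
  rw [Prod.fst_zero, Prod.snd_zero, GAM_one_sub_zero]
  exact isUnit_one

theorem GAM_zero_unit3 : IsUnit (detY (aY (0 : GAMP).1 (0 : GAMP).2)) := by
  rw [Prod.fst_zero, Prod.snd_zero, GAM_det_zero]
  exact isUnit_one

theorem GAM_ZZ_eq {m : Fin 3 → Fin 3 → Y} (hT : IsUnit (1 - TT.comp (Mop m))) :
    ZZ TT m = TT (Mop m (thY + ZZ TT m)) := by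
  have h1 : (1 - TT.comp (Mop m)) * Ring.inverse (1 - TT.comp (Mop m)) = 1 :=
    Ring.mul_inverse_cancel _ hT
  have h2 : (1 - TT.comp (Mop m)) (ZZ TT m) = TT (Mop m thY) := by
    have := congrArg (fun L : (Fin 3 → Y) →L[ℝ] (Fin 3 → Y) => L (TT (Mop m thY))) h1
    exact this
  have h3 : (1 - TT.comp (Mop m)) (ZZ TT m) = ZZ TT m - TT (Mop m (ZZ TT m)) := rfl
  rw [h3] at h2
  rw [map_add, map_add, ← h2]
  abel

/-- on small arguments everything is invertible -/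
theorem Gam_small : ∃ δ > 0, ∀ (z : Fin 4 → Y) (h : Fin 3 → Fin 3 → Y), ‖z‖ < δ → ‖h‖ < δ →
    IsUnit (eY z) ∧ IsUnit (detY (aY z h)) ∧ ‖mY z h‖ < 1 / 2 ∧
    IsUnit (1 - TT.comp (Mop (mY z h))) ∧
    ZZ TT (mY z h) = TT (Mop (mY z h) (thY + ZZ TT (mY z h))) ∧
    ∀ j x, |ZZ TT (mY z h) j x| ≤ 1 / 4 := by
  have E1 : ∀ᶠ p : GAMP in 𝓝 0, IsUnit (eY p.1) :=
    (GAM_eY_contDiff.contDiffAt (x := 0)).continuousAt.eventually
      (Units.isOpen.mem_nhds GAM_zero_unit1)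
  have E2 : ∀ᶠ p : GAMP in 𝓝 0, IsUnit (detY (aY p.1 p.2)) :=
    (GAM_det_contDiffAt GAM_zero_unit1).continuousAt.eventually
      (Units.isOpen.mem_nhds GAM_zero_unit3)
  have E3 : ∀ᶠ p : GAMP in 𝓝 0, ‖mY p.1 p.2‖ < 1 / 2 := by
    have hc := (GAM_mY_contDiffAt GAM_zero_unit1).continuousAt.norm
    refine hc.eventually_lt continuousAt_const ?_
    rw [Prod.fst_zero, Prod.snd_zero, GAM_mY_zero, norm_zero]
    norm_num
  have E4 : ∀ᶠ p : GAMP in 𝓝 0, IsUnit (1 - TT.comp (Mop (mY p.1 p.2))) := by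
    have hM : ContinuousAt (fun p : GAMP => (1 - TT.comp (Mop (mY p.1 p.2)) :
        (Fin 3 → Y) →L[ℝ] (Fin 3 → Y))) 0 := by
      have hM' : ContDiffAt ℝ ∞ (fun p : GAMP => Mop (mY p.1 p.2)) 0 :=
        (GAM_Mop_contDiff.contDiffAt).comp 0 (GAM_mY_contDiffAt GAM_zero_unit1)
      have h1 : ContDiffAt ℝ ∞ (fun p : GAMP => (1 - TT.comp (Mop (mY p.1 p.2)) :
          (Fin 3 → Y) →L[ℝ] (Fin 3 → Y))) 0 :=
        contDiffAt_const.sub (contDiffAt_const.clm_comp hM')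
      exact h1.continuousAt
    exact hM.eventually ((Units.isOpen (R := (Fin 3 → Y) →L[ℝ] (Fin 3 → Y))).mem_nhds
      GAM_zero_unit2)
  have E5 : ∀ᶠ p : GAMP in 𝓝 0, ‖ZZ TT (mY p.1 p.2)‖ < 1 / 4 := by
    have hc := (GAM_ZZ_contDiffAt GAM_zero_unit1 GAM_zero_unit2).continuousAt.norm
    refine hc.eventually_lt continuousAt_const ?_
    rw [Prod.fst_zero, Prod.snd_zero, GAM_ZZ_zero, norm_zero]
    norm_num
  have E := E1.and (E2.and (E3.and (E4.and E5)))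
  rw [Metric.eventually_nhds_iff] at E
  obtain ⟨δ, hδ, H⟩ := E
  refine ⟨δ, hδ, fun z h hz hh => ?_⟩
  have hp : dist ((z, h) : GAMP) 0 < δ := by
    rw [dist_zero_right, Prod.norm_def]
    exact max_lt hz hh
  obtain ⟨h1, h2, h3, h4, h5⟩ := H hp
  refine ⟨h1, h2, h3, h4, GAM_ZZ_eq h4, fun j x => ?_⟩
  have h6 : |ZZ TT (mY z h) j x| ≤ ‖ZZ TT (mY z h) j‖ := Y.abs_apply_le _ x
  have h7 : ‖ZZ TT (mY z h) j‖ ≤ ‖ZZ TT (mY z h)‖ := norm_le_pi_norm _ j
  exact (h6.trans h7).trans h5.le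

theorem Gam_contDiff : ∃ δ > 0, ∀ p : (Fin 4 → Y) × (Fin 3 → Fin 3 → Y), ‖p‖ < δ →
    ContDiffAt ℝ ∞ Gam p := by
  obtain ⟨δ, hδ, H⟩ := Gam_small
  refine ⟨δ, hδ, fun p hp => ?_⟩
  obtain ⟨h1, h2, -, h4, -⟩ := H p.1 p.2 ((norm_fst_le p).trans_lt hp) ((norm_snd_le p).trans_lt hp)
  exact GAM_contDiffAt h1 h4 h2

theorem Gam_zero : Gam 0 = 1 := by
  unfold Gam Gam0
  rw [Prod.fst_zero, Prod.snd_zero, GAM_quad_zero, GAM_ZZ_zero, GAM_det_zero]
  simp only [Pi.zero_apply, mul_zero, Finset.sum_const_zero, add_zero, one_pow, mul_one,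
    Ring.inverse_one]
  apply Y.ext
  intro x
  rw [trY_apply]
  rfl

/-! ### The derivative at zero -/

theorem GAM_d_inv {f : ℝ → Y} {c : Y} (hf : HasDerivAt f c 0) (h0 : f 0 = 1) :
    HasDerivAt (fun t => Ring.inverse (f t)) (-c) 0 := by
  have h1 : HasFDerivAt Ring.inverse (-ContinuousLinearMap.mulLeftRight ℝ Y ↑(1 : Yˣ)⁻¹ ↑(1 : Yˣ)⁻¹)
      (f 0) := by
    rw [h0]
    exact hasFDerivAt_ringInverse (1 : Yˣ)
  have h2 := h1.comp_hasDerivAt 0 hf
  refine HasDerivAt.congr_deriv (f := fun t => Ring.inverse (f t)) h2 ?_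
  simp

theorem GAM_d_lin (c : Y) : HasDerivAt (fun t : ℝ => t • c) c 0 := by
  have := (hasDerivAt_id (0 : ℝ)).smul_const c
  simpa using this

theorem GAM_eY_smul (z : Fin 4 → Y) (t : ℝ) : eY (t • z) = 1 + t • ((chY + chpY) * z 0) := by
  unfold eY
  rw [Pi.smul_apply, mul_smul_comm]

theorem GAM_qY_smul (z : Fin 4 → Y) (t : ℝ) (k : Fin 3) : qY (t • z) k = t • qY z k := by
  unfold qY
  rw [Pi.smul_apply, Pi.smul_apply, mul_smul_comm, smul_mul_assoc, mul_smul_comm, smul_add]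

theorem GAM_d_eY (z : Fin 4 → Y) :
    HasDerivAt (fun t : ℝ => eY (t • z)) ((chY + chpY) * z 0) 0 := by
  simp only [GAM_eY_smul]
  exact (GAM_d_lin _).const_add 1

theorem GAM_d_qY (z : Fin 4 → Y) (k : Fin 3) :
    HasDerivAt (fun t : ℝ => qY (t • z) k) (qY z k) 0 := by
  simp only [GAM_qY_smul]
  exact GAM_d_lin _

theorem GAM_d_aY (z : Fin 4 → Y) (h : Fin 3 → Fin 3 → Y) (i j : Fin 3) :
    HasDerivAt (fun t : ℝ => aY (t • z) (t • h) i j) (m1Y z h i j) 0 := by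
  unfold aY
  have hA : ∀ k, HasDerivAt (fun t : ℝ => eY (t • z) * dl i k - thY i * qY (t • z) k)
      ((chY + chpY) * z 0 * dl i k - thY i * qY z k) 0 := fun k =>
    ((GAM_d_eY z).mul_const _).sub ((GAM_d_qY z k).const_mul _)
  have hB : ∀ l, HasDerivAt (fun t : ℝ => eY (t • z) * dl j l - thY j * qY (t • z) l)
      ((chY + chpY) * z 0 * dl j l - thY j * qY z l) 0 := fun l =>
    ((GAM_d_eY z).mul_const _).sub ((GAM_d_qY z l).const_mul _)
  have hC : ∀ k l, HasDerivAt (fun t : ℝ => (dl k l : Y) + (t • h) k l) (h k l) 0 := fun k l =>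
    (GAM_d_lin (h k l)).const_add _
  have hS := HasDerivAt.fun_sum (u := Finset.univ) (fun k (_ : k ∈ Finset.univ) =>
    HasDerivAt.fun_sum (u := Finset.univ) (fun l (_ : l ∈ Finset.univ) =>
      ((hA k).mul (hC k l)).mul (hB l)))
  have hI := GAM_d_inv (GAM_d_eY z) (by rw [zero_smul, GAM_eY_zero])
  have hP := hI.mul hS
  refine hP.congr_deriv ?_
  simp only [Pi.mul_apply, zero_smul, GAM_eY_zero, GAM_qY_zero, Ring.inverse_one, one_mul, mul_zero,
    sub_zero, Pi.zero_apply, add_zero, m1Y, dl]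
  fin_cases i <;> fin_cases j <;> simp [Fin.sum_univ_three] <;> ring

theorem GAM_d_det (z : Fin 4 → Y) (h : Fin 3 → Fin 3 → Y) :
    HasDerivAt (fun t : ℝ => detY (aY (t • z) (t • h))) (∑ i, m1Y z h i i) 0 := by
  have H := GAM_d_aY z h
  unfold detY
  simp only [Matrix.det_fin_three, Matrix.of_apply]
  have h1 := ((H 0 0).mul (H 1 1)).mul (H 2 2)
  have h2 := ((H 0 0).mul (H 1 2)).mul (H 2 1)
  have h3 := ((H 0 1).mul (H 1 0)).mul (H 2 2)
  have h4 := ((H 0 1).mul (H 1 2)).mul (H 2 0)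
  have h5 := ((H 0 2).mul (H 1 0)).mul (H 2 1)
  have h6 := ((H 0 2).mul (H 1 1)).mul (H 2 0)
  have hP := ((((h1.sub h2).sub h3).add h4).add h5).sub h6
  refine HasDerivAt.congr_deriv (f := _) hP ?_
  simp only [Pi.mul_apply, zero_smul, GAM_aY_zero]
  simp [dl, Fin.sum_univ_three]
  try ring

theorem GAM_d_Mop (z : Fin 4 → Y) (h : Fin 3 → Fin 3 → Y) (v : Fin 3 → Y) :
    HasDerivAt (fun t : ℝ => Mop (mY (t • z) (t • h)) v) (Mop (m1Y z h) v) 0 := by
  rw [hasDerivAt_pi]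
  intro i
  simp only [GAM_Mop_apply]
  refine HasDerivAt.fun_sum (fun j _ => ?_)
  refine HasDerivAt.mul_const ?_ _
  unfold mY
  exact (GAM_d_aY z h i j).sub_const _

theorem GAM_line {E F : Type*} [NormedAddCommGroup E] [NormedSpace ℝ E] [NormedAddCommGroup F]
    [NormedSpace ℝ F] {f : E → F} {g : ℝ → E} {g' : E} {x : E} (hf : DifferentiableAt ℝ f x)
    (hg : HasDerivAt g g' 0) (hx : g 0 = x) : ∃ c, HasDerivAt (fun t => f (g t)) c 0 := by
  subst hx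
  exact ⟨_, hf.hasFDerivAt.comp_hasDerivAt 0 hg⟩

theorem GAM_hline (z : Fin 4 → Y) (h : Fin 3 → Fin 3 → Y) :
    HasDerivAt (fun t : ℝ => ((t • z, t • h) : GAMP)) (z, h) 0 := by
  have := (hasDerivAt_id (0 : ℝ)).smul_const ((z, h) : GAMP)
  simpa using this

theorem GAM_line0 (z : Fin 4 → Y) (h : Fin 3 → Fin 3 → Y) :
    (fun t : ℝ => ((t • z, t • h) : GAMP)) 0 = 0 := by
  simp

theorem GAM_ZZ_diff : DifferentiableAt ℝ (fun p : GAMP => ZZ TT (mY p.1 p.2)) 0 := by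
  have h := GAM_ZZ_contDiffAt GAM_zero_unit1 GAM_zero_unit2
  exact h.differentiableAt (by simp)

theorem GAM_ZZ_line (z : Fin 4 → Y) (h : Fin 3 → Fin 3 → Y) :
    ∃ c, HasDerivAt (fun t : ℝ => (fun p : GAMP => ZZ TT (mY p.1 p.2)) ((t • z, t • h) : GAMP))
      c 0 := by
  exact GAM_line (E := GAMP) (F := Fin 3 → Y) (f := fun p : GAMP => ZZ TT (mY p.1 p.2))
    (g := fun t : ℝ => ((t • z, t • h) : GAMP)) (g' := (z, h)) (x := 0) GAM_ZZ_diff
    (GAM_hline z h) (GAM_line0 z h)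

theorem GAM_d_ZZ (z : Fin 4 → Y) (h : Fin 3 → Fin 3 → Y) :
    HasDerivAt (fun t : ℝ => ZZ TT (mY (t • z) (t • h))) (TT (Mop (m1Y z h) thY)) 0 := by
  obtain ⟨ζ, hζ⟩ := GAM_ZZ_line z h
  have hζ' : ∀ j, HasDerivAt (fun t : ℝ => ZZ TT (mY (t • z) (t • h)) j) (ζ j) 0 :=
    hasDerivAt_pi.1 hζ
  -- the equation
  have h1 : HasDerivAt (fun t : ℝ => Mop (mY (t • z) (t • h))
      (thY + ZZ TT (mY (t • z) (t • h)))) (Mop (m1Y z h) thY) 0 := by
    rw [hasDerivAt_pi]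
    intro i
    simp only [GAM_Mop_apply]
    refine HasDerivAt.fun_sum (fun j _ => ?_)
    have h2 : HasDerivAt (fun t : ℝ => mY (t • z) (t • h) i j) (m1Y z h i j) 0 := by
      unfold mY
      exact (GAM_d_aY z h i j).sub_const _
    have h3 : HasDerivAt (fun t : ℝ => (thY + ZZ TT (mY (t • z) (t • h))) j) (ζ j) 0 :=
      (hζ' j).const_add (thY j)
    have h4 := h2.mul h3
    refine HasDerivAt.congr_deriv (f := _) h4 ?_
    rw [zero_smul, zero_smul, GAM_ZZ_zero, GAM_mY_zero]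
    simp
  have h2 : HasDerivAt (fun t : ℝ => TT (Mop (mY (t • z) (t • h))
      (thY + ZZ TT (mY (t • z) (t • h))))) (TT (Mop (m1Y z h) thY)) 0 :=
    TT.hasFDerivAt.comp_hasDerivAt 0 h1
  refine h2.congr_of_eventuallyEq ?_
  obtain ⟨δ, hδ, H⟩ := Gam_small
  have h5 : ∀ᶠ t : ℝ in 𝓝 0, ‖t • z‖ < δ := by
    have hc : ContinuousAt (fun t : ℝ => ‖t • z‖) 0 := by fun_prop
    refine hc.eventually_lt continuousAt_const ?_
    rw [zero_smul, norm_zero]
    exact hδ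
  have h6 : ∀ᶠ t : ℝ in 𝓝 0, ‖t • h‖ < δ := by
    have hc : ContinuousAt (fun t : ℝ => ‖t • h‖) 0 := by fun_prop
    refine hc.eventually_lt continuousAt_const ?_
    rw [zero_smul, norm_zero]
    exact hδ
  filter_upwards [h5, h6] with t ht1 ht2
  exact (H _ _ ht1 ht2).2.2.2.2.1

theorem Gam_fderiv (z : Fin 4 → Y) (h : Fin 3 → Fin 3 → Y) :
    fderiv ℝ Gam 0 (z, h) = trY ((2 : ℝ) • (∑ j, thY j * TT (Mop (m1Y z h) thY) j) +
      (∑ i, ∑ j, thY i * m1Y z h i j * thY j) - ∑ i, m1Y z h i i) := by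
  have hG : DifferentiableAt ℝ Gam 0 :=
    (GAM_contDiffAt GAM_zero_unit1 GAM_zero_unit2 GAM_zero_unit3).differentiableAt (by simp)
  have hline : HasDerivAt (fun t : ℝ => ((t • z, t • h) : GAMP)) (z, h) 0 := by
    have := (hasDerivAt_id (0 : ℝ)).smul_const ((z, h) : GAMP)
    simpa using this
  have h1 : HasDerivAt (fun t : ℝ => Gam (t • z, t • h)) (fderiv ℝ Gam 0 (z, h)) 0 := by
    have h4 : HasFDerivAt Gam (fderiv ℝ Gam 0) ((fun t : ℝ => ((t • z, t • h) : GAMP)) 0) := by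
      have : ((fun t : ℝ => ((t • z, t • h) : GAMP)) 0) = 0 := by simp
      rw [this]
      exact hG.hasFDerivAt
    exact h4.comp_hasDerivAt 0 hline
  refine h1.unique ?_
  unfold Gam Gam0
  have hQ : HasDerivAt (fun t : ℝ => ∑ i, ∑ j, thY i * aY (t • z) (t • h) i j * thY j)
      (∑ i, ∑ j, thY i * m1Y z h i j * thY j) 0 :=
    HasDerivAt.fun_sum (fun i _ => HasDerivAt.fun_sum (fun j _ =>
      ((GAM_d_aY z h i j).const_mul _).mul_const _))
  have hZ' : ∀ j, HasDerivAt (fun t : ℝ => ZZ TT (mY (t • z) (t • h)) j)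
      (TT (Mop (m1Y z h) thY) j) 0 := hasDerivAt_pi.1 (GAM_d_ZZ z h)
  have hZ : HasDerivAt (fun t : ℝ => 1 + ∑ j, thY j * ZZ TT (mY (t • z) (t • h)) j)
      (∑ j, thY j * TT (Mop (m1Y z h) thY) j) 0 :=
    (HasDerivAt.fun_sum (fun j _ => (hZ' j).const_mul _)).const_add 1
  have hD := GAM_d_inv (GAM_d_det z h) (by rw [zero_smul, zero_smul, GAM_det_zero])
  have hP := (hQ.mul (hZ.pow 2)).mul hD
  have hT := trY.hasFDerivAt.comp_hasDerivAt 0 hP
  refine HasDerivAt.congr_deriv (f := _) hT ?_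
  congr 1
  simp only [Pi.mul_apply, Pi.pow_apply, zero_smul, GAM_quad_zero, GAM_ZZ_zero, GAM_det_zero,
    Pi.zero_apply, mul_zero, Finset.sum_const_zero, add_zero, one_pow, mul_one,
    Ring.inverse_one, one_mul]
  rw [two_smul]
  norm_num
  ring

end

end Pool.Agent.BS
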