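import Pool.Agent.BS.Defs4

/-!
# Module TRA: change of variables for potentials
-/

namespace Pool.Agent.BS

open MeasureTheory Topology Set Filter
open scoped ContDiff

noncomputable section

/-! ### linear algebra -/

theorem tra_sum_bv (v : E3) : v = ∑ j, v j • bv j := by
  ext i
  simp [bv, Fin.sum_univ_three, PiLp.single_apply]
  fin_cases i <;> simp

theorem tra_clm_apply (T : E3 →L[ℝ] E3) (v : E3) (i : Fin 3) :
    T v i = ∑ j, (T (bv j)) i * v j := by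
  conv_lhs => rw [tra_sum_bv v, map_sum]
  simp [mul_comm]

theorem tra_inner (p v : E3) : inner ℝ p v = ∑ i, p i * v i := by
  simp [PiLp.inner_apply, mul_comm]

theorem tra_det (T : E3 →L[ℝ] E3) : T.det = det3 (fun i j => (T (bv j)) i) := by
  unfold det3
  rw [ContinuousLinearMap.det, ← LinearMap.det_toMatrix (EuclideanSpace.basisFun (Fin 3) ℝ).toBasis]
  congr 1

theorem bq_map {A A' J : M3} {c : ℝ} {p p' : E3} (hc : 0 < c) (hJ : 0 < det3 J)
    (hA : 0 < det3 A)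
    (h : ∀ i j, ∑ k, ∑ l, J i k * A' k l * J j l = c * det3 J * A i j)
    (hp : ∀ j, ∑ i, J i j * p' i = p j) : bq A' p = c⁻¹ ^ 2 * bq A p' := by
  have hmat : Matrix.of J * Matrix.of A' * (Matrix.of J).transpose =
      (c * det3 J) • Matrix.of A := by
    ext i j
    rw [Matrix.mul_apply]
    simp only [Matrix.mul_apply, Matrix.transpose_apply, Matrix.smul_apply, Matrix.of_apply,
      smul_eq_mul]
    rw [← h i j, Finset.sum_comm]
    refine Finset.sum_congr rfl fun k _ => ?_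
    rw [Finset.sum_mul]
  have hdet : det3 J ^ 2 * det3 A' = (c * det3 J) ^ 3 * det3 A := by
    have := congrArg Matrix.det hmat
    rw [Matrix.det_mul, Matrix.det_mul, Matrix.det_transpose, Matrix.det_smul,
      Fintype.card_fin] at this
    unfold det3 at this ⊢
    linarith
  have hdet' : det3 A' = c ^ 3 * det3 J * det3 A := by
    have h2 : det3 J ^ 2 ≠ 0 := by positivity
    apply mul_left_cancel₀ h2
    rw [hdet]; ring
  have hnum : ∑ i, ∑ j, A' i j * p i * p j = c * det3 J * ∑ i, ∑ j, A i j * p' i * p' j := by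
    have e1 : c * det3 J * ∑ i, ∑ j, A i j * p' i * p' j =
        ∑ i, ∑ j, (∑ k, ∑ l, J i k * A' k l * J j l) * p' i * p' j := by
      simp only [h, Finset.mul_sum]
      refine Finset.sum_congr rfl fun i _ => Finset.sum_congr rfl fun j _ => by ring
    rw [e1]
    simp only [← hp, Fin.sum_univ_three]
    ring
  unfold bq
  rw [hnum, hdet']
  have hA' := hA.ne'
  have hJ' := hJ.ne'
  have hc' := hc.ne'
  field_simp

/-! ### bi-Lipschitz diffeomorphisms -/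

theorem tra_equiv {Φ : E3 ≃ₜ E3} (hΦ : IsGD Φ) :
    ∃ L : E3 → E3 ≃L[ℝ] E3, ∀ y, (L y : E3 →L[ℝ] E3) = fderiv ℝ Φ y := by
  obtain ⟨C, hC⟩ := hΦ.bdd
  have hinj : ∀ y, Function.Injective (fderiv ℝ Φ y : E3 →ₗ[ℝ] E3) := by
    intro y
    rw [injective_iff_map_eq_zero]
    intro v hv
    have := (hC y v).2
    have hv' : fderiv ℝ Φ y v = 0 := hv
    rw [hv', norm_zero, mul_zero] at this
    exact norm_le_zero_iff.1 this
  refine ⟨fun y => (LinearEquiv.ofInjectiveEndo _ (hinj y)).toContinuousLinearEquiv, fun y => ?_⟩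
  ext v
  rfl

theorem tra_const {Φ : E3 ≃ₜ E3} (hΦ : IsGD Φ) :
    ∃ C > 0, ∀ y v, ‖fderiv ℝ Φ y v‖ ≤ C * ‖v‖ ∧ ‖v‖ ≤ C * ‖fderiv ℝ Φ y v‖ := by
  obtain ⟨C, hC⟩ := hΦ.bdd
  refine ⟨C, ?_, hC⟩
  have h1 := (hC 0 (bv 0)).2
  have h2 : ‖bv 0‖ = 1 := by simp [bv]
  rw [h2] at h1
  by_contra hneg
  rw [not_lt] at hneg
  have := mul_nonpos_of_nonpos_of_nonneg hneg (norm_nonneg (fderiv ℝ Φ 0 (bv 0)))
  linarith

theorem tra_hasFDerivAt {Φ : E3 ≃ₜ E3} (hΦ : IsGD Φ) (y : E3) :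
    HasFDerivAt Φ (fderiv ℝ Φ y) y :=
  ((hΦ.c1.differentiable (by norm_num)) y).hasFDerivAt

theorem tra_symm_hasFDerivAt {Φ : E3 ≃ₜ E3} (hΦ : IsGD Φ) {L : E3 → E3 ≃L[ℝ] E3}
    (hL : ∀ y, (L y : E3 →L[ℝ] E3) = fderiv ℝ Φ y) (x : E3) :
    HasFDerivAt Φ.symm ((L (Φ.symm x)).symm : E3 →L[ℝ] E3) x := by
  refine HasFDerivAt.of_local_left_inverse (f := Φ) Φ.symm.continuous.continuousAt ?_ ?_
  · rw [hL]; exact tra_hasFDerivAt hΦ _
  · exact Eventually.of_forall fun y => Φ.apply_symm_apply y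

theorem IsGD.symm {Φ : E3 ≃ₜ E3} (hΦ : IsGD Φ) : IsGD Φ.symm := by
  obtain ⟨L, hL⟩ := tra_equiv hΦ
  obtain ⟨C, hC0, hC⟩ := tra_const hΦ
  have hd := tra_symm_hasFDerivAt hΦ hL
  refine ⟨?_, fun x => ?_, C, fun x v => ?_⟩
  · exact Φ.contDiff_symm (f₀' := L) (fun a => by rw [hL]; exact tra_hasFDerivAt hΦ a) hΦ.c1
  · have h1 := hΦ.det (Φ.symm x)
    have e1 : det3 (DM Φ (Φ.symm x)) = (L (Φ.symm x) : E3 →L[ℝ] E3).det := by
      rw [tra_det, hL]; rfl
    have e2 : det3 (DM Φ.symm x) = ((L (Φ.symm x)).symm : E3 →L[ℝ] E3).det := by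
      rw [tra_det, ← (hd x).fderiv]; rfl
    rw [e1] at h1
    rw [e2]
    have h3 : (L (Φ.symm x) : E3 →L[ℝ] E3).det * ((L (Φ.symm x)).symm : E3 →L[ℝ] E3).det = 1 := by
      have := (L (Φ.symm x)).toLinearEquiv.det_mul_det_symm
      exact this
    by_contra hneg
    rw [not_lt] at hneg
    nlinarith
  · rw [(hd x).fderiv]
    have h1 := hC (Φ.symm x) ((L (Φ.symm x)).symm v)
    rw [← hL] at h1
    have e : (L (Φ.symm x) : E3 →L[ℝ] E3) ((L (Φ.symm x)).symm v) = v :=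
      (L (Φ.symm x)).apply_symm_apply v
    rw [e] at h1
    exact ⟨h1.2, h1.1⟩

theorem tra_growth {Φ : E3 ≃ₜ E3} (hΦ : IsGD Φ) :
    ∃ K > 0, ∀ y, 1 + ‖Φ y‖ ≤ K * (1 + ‖y‖) := by
  obtain ⟨C, hC0, hC⟩ := tra_const hΦ
  refine ⟨1 + ‖Φ 0‖ + C, by positivity, fun y => ?_⟩
  have h1 : ‖Φ y - Φ 0‖ ≤ C * ‖y - 0‖ := by
    refine (convex_univ (𝕜 := ℝ)).norm_image_sub_le_of_norm_fderiv_le (𝕜 := ℝ)
      (fun x _ => (hΦ.c1.differentiable (by norm_num)) x) (fun x _ => ?_) (mem_univ 0)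
      (mem_univ y)
    exact ContinuousLinearMap.opNorm_le_bound _ hC0.le (fun v => (hC x v).1)
  rw [sub_zero] at h1
  have h2 : ‖Φ y‖ ≤ ‖Φ y - Φ 0‖ + ‖Φ 0‖ := by
    have := norm_add_le (Φ y - Φ 0) (Φ 0)
    rwa [sub_add_cancel] at this
  have h3 := norm_nonneg y
  have h4 := norm_nonneg (Φ 0)
  nlinarith

/-- congruence for the gradient -/
theorem IsPot.congr_grad {A : E3 → M3} {D : Set E3} {u : E3 → ℝ} {G G' : E3 → E3}
    (hD : IsOpen D) (h : IsPot A D u G) (hG : ∀ x ∈ closure D, G x = G' x) :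
    IsPot A D u G' := by
  refine ⟨h.zero, fun x hx => ?_, h.gcont.congr (fun x hx => (hG x hx).symm), ?_, ?_⟩
  · rw [← hG x hx]; exact h.grad x hx
  · obtain ⟨C, hC⟩ := h.decay
    refine ⟨C, fun x hx => ?_⟩
    rw [← hG x (subset_closure hx)]
    exact hC x hx
  · intro φ h1 h2 h3
    rw [← h.weak φ h1 h2 h3]
    refine setIntegral_congr_fun hD.measurableSet (fun x hx => ?_)
    simp only [hG x (subset_closure hx)]

theorem IsPot.map {A A' : E3 → M3} {D : Set E3} {u : E3 → ℝ} {G : E3 → E3} (Φ : E3 ≃ₜ E3)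
    (hΦ : IsGD Φ) {c : ℝ} (hc : 0 < c) (hD : IsOpen D) (hPB : IsPB Φ c A A' D)
    (h : IsPot A' D u G) : ∃ G' : E3 → E3, IsPot A (Φ '' D) (u ∘ Φ.symm) G' ∧
      ∀ y ∈ closure D, ∀ j, ∑ i, DM Φ y i j * G' (Φ y) i = G y j := by
  obtain ⟨L, hL⟩ := tra_equiv hΦ
  obtain ⟨C, hC0, hC⟩ := tra_const hΦ
  obtain ⟨K, hK0, hK⟩ := tra_growth hΦ
  have hd := tra_symm_hasFDerivAt hΦ hL
  have hs := hΦ.symm
  have hcl : closure (Φ '' D) = Φ '' closure D := (Φ.image_closure D).symm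
  have hmem : ∀ x ∈ closure (Φ '' D), Φ.symm x ∈ closure D := by
    intro x hx
    rw [hcl] at hx
    obtain ⟨y, hy, rfl⟩ := hx
    rwa [Φ.symm_apply_apply]
  let G' : E3 → E3 := fun x => ContinuousLinearMap.adjoint (fderiv ℝ Φ.symm x) (G (Φ.symm x))
  have hG'inner : ∀ x v, inner ℝ (G' x) v = inner ℝ (G (Φ.symm x)) (fderiv ℝ Φ.symm x v) :=
    fun x v => ContinuousLinearMap.adjoint_inner_left _ _ _
  have hG' : ∀ y v, inner ℝ (G' (Φ y)) (fderiv ℝ Φ y v) = inner ℝ (G y) v := by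
    intro y v
    rw [hG'inner, (hd (Φ y)).fderiv, Φ.symm_apply_apply, ← hL]
    congr 1
    exact (L y).symm_apply_apply v
  have hcomp : ∀ y j, ∑ i, DM Φ y i j * G' (Φ y) i = G y j := by
    intro y j
    have h1 := hG' y (bv j)
    rw [tra_inner, tra_inner] at h1
    have h2 : ∑ i, G y i * (bv j) i = G y j := by
      simp [bv, PiLp.single_apply]
    rw [h2] at h1
    rw [← h1]
    exact Finset.sum_congr rfl fun i _ => mul_comm _ _
  refine ⟨G', ⟨?_, ?_, ?_, ?_, ?_⟩, fun y _ j => hcomp y j⟩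
  · intro x hx
    have hfr : frontier (Φ '' D) = Φ '' frontier D := (Φ.image_frontier D).symm
    rw [hfr] at hx
    obtain ⟨y, hy, rfl⟩ := hx
    show u (Φ.symm (Φ y)) = 0
    rw [Φ.symm_apply_apply]
    exact h.zero y hy
  · intro x hx
    have h1 := h.grad (Φ.symm x) (hmem x hx)
    have h2 := (hd x).hasFDerivWithinAt (s := closure (Φ '' D))
    have h3 := h1.comp x h2 (fun z hz => hmem z hz)
    have h4 : innerSL ℝ (G' x) =
        (innerSL ℝ (G (Φ.symm x))).comp ((L (Φ.symm x)).symm : E3 →L[ℝ] E3) := by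
      ext v
      rw [innerSL_apply_apply, hG'inner, (hd x).fderiv]
      rfl
    rw [h4]
    exact h3
  · have hf : Continuous (fderiv ℝ Φ.symm) := hs.c1.continuous_fderiv (by norm_num)
    have hf2 : Continuous (fun x => ContinuousLinearMap.adjoint (fderiv ℝ Φ.symm x)) :=
      (ContinuousLinearMap.adjoint (𝕜 := ℝ) (E := E3) (F := E3)).continuous.comp hf
    have hf3 : ContinuousOn (fun x => G (Φ.symm x)) (closure (Φ '' D)) :=
      h.gcont.comp Φ.symm.continuous.continuousOn (fun x hx => hmem x hx)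
    exact hf2.continuousOn.clm_apply hf3
  · obtain ⟨B, hB⟩ := h.decay
    refine ⟨|B| * K + C * (|B| * K ^ 2), ?_⟩
    rintro x ⟨y, hy, rfl⟩
    have hy1 := hB y hy
    have hky := hK y
    have p1 : 0 < 1 + ‖y‖ := by positivity
    have p2 : 0 < 1 + ‖Φ y‖ := by positivity
    have e1 : (1 + ‖y‖)⁻¹ ≤ K * (1 + ‖Φ y‖)⁻¹ := by
      rw [← div_eq_mul_inv, inv_le_comm₀ p1 (by positivity), inv_div]
      rw [div_le_iff₀ hK0]
      linarith
    have e1' : 0 ≤ (1 + ‖y‖)⁻¹ := by positivity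
    have e2 : ((1 + ‖y‖)⁻¹) ^ 2 ≤ K ^ 2 * ((1 + ‖Φ y‖)⁻¹) ^ 2 := by
      rw [← mul_pow]
      exact pow_le_pow_left₀ e1' e1 2
    have hBa : B ≤ |B| := le_abs_self B
    have q1 : |(u ∘ Φ.symm) (Φ y) - 1| ≤ |B| * K * (1 + ‖Φ y‖)⁻¹ := by
      show |u (Φ.symm (Φ y)) - 1| ≤ _
      rw [Φ.symm_apply_apply]
      refine hy1.1.trans ?_
      rw [div_eq_mul_inv]
      calc B * (1 + ‖y‖)⁻¹ ≤ |B| * (1 + ‖y‖)⁻¹ := mul_le_mul_of_nonneg_right hBa e1'
        _ ≤ |B| * (K * (1 + ‖Φ y‖)⁻¹) := mul_le_mul_of_nonneg_left e1 (abs_nonneg _)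
        _ = _ := by ring
    have q2 : ‖G' (Φ y)‖ ≤ C * (|B| * K ^ 2) * ((1 + ‖Φ y‖)⁻¹) ^ 2 := by
      have h1 : ‖G' (Φ y)‖ ≤ C * ‖G y‖ := by
        have h2 : ‖ContinuousLinearMap.adjoint (fderiv ℝ Φ.symm (Φ y))‖ ≤ C := by
          rw [LinearIsometryEquiv.norm_map]
          refine ContinuousLinearMap.opNorm_le_bound _ hC0.le (fun v => ?_)
          rw [(hd (Φ y)).fderiv]
          have h3 := (hC (Φ.symm (Φ y)) ((L (Φ.symm (Φ y))).symm v)).2
          rw [← hL] at h3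
          have e : (L (Φ.symm (Φ y)) : E3 →L[ℝ] E3) ((L (Φ.symm (Φ y))).symm v) = v :=
            (L (Φ.symm (Φ y))).apply_symm_apply v
          rw [e] at h3
          exact h3
        have h4 := ContinuousLinearMap.le_of_opNorm_le _ h2 (G (Φ.symm (Φ y)))
        rw [Φ.symm_apply_apply] at h4
        simpa [G', Φ.symm_apply_apply] using h4
      refine h1.trans ?_
      have h5 : ‖G y‖ ≤ |B| * ((1 + ‖y‖)⁻¹) ^ 2 := by
        refine hy1.2.trans ?_
        rw [div_eq_mul_inv, inv_pow]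
        exact mul_le_mul_of_nonneg_right hBa (by positivity)
      calc C * ‖G y‖ ≤ C * (|B| * ((1 + ‖y‖)⁻¹) ^ 2) := mul_le_mul_of_nonneg_left h5 hC0.le
        _ ≤ C * (|B| * (K ^ 2 * ((1 + ‖Φ y‖)⁻¹) ^ 2)) := by gcongr
        _ = _ := by ring
    constructor
    · refine q1.trans ?_
      rw [div_eq_mul_inv, add_mul]
      have : 0 ≤ C * (|B| * K ^ 2) * (1 + ‖Φ y‖)⁻¹ := by positivity
      linarith
    · refine q2.trans ?_
      rw [div_eq_mul_inv, add_mul, inv_pow]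
      have : 0 ≤ |B| * K * ((1 + ‖Φ y‖) ^ 2)⁻¹ := by positivity
      linarith
  · intro φ hφ hcs hts
    have hφd : ∀ x, HasFDerivAt φ (fderiv ℝ φ x) x :=
      fun x => ((hφ.differentiable (by norm_num)) x).hasFDerivAt
    -- change of variables
    rw [integral_image_eq_integral_abs_det_fderiv_smul volume hD.measurableSet
      (fun x _ => (tra_hasFDerivAt hΦ x).hasFDerivWithinAt) Φ.injective.injOn]
    have h1 := h.weak (φ ∘ Φ) (hφ.comp hΦ.c1) (hcs.comp_homeomorph Φ) (by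
      intro y hy
      rw [tsupport_comp_eq_preimage φ Φ] at hy
      obtain ⟨z, hz, hzy⟩ := hts hy
      rwa [← Φ.injective hzy])
    have h2 : ∀ y ∈ D, |(fderiv ℝ Φ y).det| • ∑ i, ∑ j, A (Φ y) i j * G' (Φ y) j * pd i φ (Φ y) =
        c⁻¹ * ∑ i, ∑ j, A' y i j * G y j * pd i (φ ∘ Φ) y := by
      intro y hy
      have hdet : (fderiv ℝ Φ y).det = det3 (DM Φ y) := tra_det _
      have hpos := hΦ.det y
      have hpd : ∀ k, pd k (φ ∘ Φ) y = ∑ i, pd i φ (Φ y) * DM Φ y i k := by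
        intro k
        unfold pd
        rw [((hφd (Φ y)).comp y (tra_hasFDerivAt hΦ y)).fderiv]
        show fderiv ℝ φ (Φ y) (fderiv ℝ Φ y (bv k)) = _
        rw [tra_sum_bv (fderiv ℝ Φ y (bv k)), map_sum]
        refine Finset.sum_congr rfl fun i _ => ?_
        rw [map_smul, smul_eq_mul, mul_comm]
        rfl
      rw [hdet, abs_of_pos hpos, smul_eq_mul]
      have hpb := hPB y hy
      have e1 : det3 (DM Φ y) * ∑ i, ∑ j, A (Φ y) i j * G' (Φ y) j * pd i φ (Φ y) =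
          c⁻¹ * ∑ i, ∑ j, (∑ k, ∑ l, DM Φ y i k * A' y k l * DM Φ y j l) *
            G' (Φ y) j * pd i φ (Φ y) := by
        simp only [hpb, Finset.mul_sum]
        refine Finset.sum_congr rfl fun i _ => Finset.sum_congr rfl fun j _ => ?_
        field_simp
      rw [e1]
      congr 1
      simp only [hpd, ← hcomp y, Fin.sum_univ_three]
      ring
    rw [setIntegral_congr_fun hD.measurableSet h2, integral_const_mul, h1, mul_zero]

theorem tra_mat {J A B : M3} {s : ℝ} :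
    (∀ i j, ∑ k, ∑ l, J i k * A k l * J j l = s * B i j) ↔
      Matrix.of J * Matrix.of A * (Matrix.of J).transpose = s • Matrix.of B := by
  constructor
  · intro h
    ext i j
    rw [Matrix.mul_apply]
    simp only [Matrix.mul_apply, Matrix.transpose_apply, Matrix.smul_apply, Matrix.of_apply,
      smul_eq_mul]
    rw [← h i j, Finset.sum_comm]
    refine Finset.sum_congr rfl fun k _ => ?_
    rw [Finset.sum_mul]
  · intro h i j
    have := congrFun (congrFun h i) j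
    rw [Matrix.mul_apply] at this
    simp only [Matrix.mul_apply, Matrix.transpose_apply, Matrix.smul_apply, Matrix.of_apply,
      smul_eq_mul] at this
    rw [← this, Finset.sum_comm]
    refine Finset.sum_congr rfl fun k _ => ?_
    rw [Finset.sum_mul]

theorem tra_inv {Φ : E3 ≃ₜ E3} (hΦ : IsGD Φ) (y : E3) :
    Matrix.of (DM Φ.symm (Φ y)) * Matrix.of (DM Φ y) = 1 := by
  obtain ⟨L, hL⟩ := tra_equiv hΦ
  have hd := tra_symm_hasFDerivAt hΦ hL
  ext i j
  have h2 : fderiv ℝ Φ.symm (Φ y) (fderiv ℝ Φ y (bv j)) = bv j := by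
    rw [(hd (Φ y)).fderiv, Φ.symm_apply_apply, ← hL]
    exact (L y).symm_apply_apply (bv j)
  rw [Matrix.mul_apply]
  have h3 := tra_clm_apply (fderiv ℝ Φ.symm (Φ y)) (fderiv ℝ Φ y (bv j)) i
  rw [h2] at h3
  simp only [Matrix.of_apply]
  have h4 : (1 : Matrix (Fin 3) (Fin 3) ℝ) i j = (bv j) i := by
    rw [Matrix.one_apply]
    simp [bv, PiLp.single_apply]
  rw [h4]
  exact h3.symm

theorem IsPB.symm {A A' : E3 → M3} {D : Set E3} {Φ : E3 ≃ₜ E3} (hΦ : IsGD Φ) {c : ℝ}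
    (hc : 0 < c) (hPB : IsPB Φ c A A' D) : IsPB Φ.symm c⁻¹ A' A (Φ '' D) := by
  rintro x ⟨y, hy, rfl⟩
  have h1 := tra_mat.1 (hPB y hy)
  apply tra_mat.2
  rw [Φ.symm_apply_apply]
  have hJ := tra_inv hΦ y
  have hdet : det3 (DM Φ.symm (Φ y)) * det3 (DM Φ y) = 1 := by
    unfold det3
    rw [← Matrix.det_mul, hJ, Matrix.det_one]
  have hpos := (hΦ.det y).ne'
  have hc' := hc.ne'
  have h5 : Matrix.of (DM Φ.symm (Φ y)) * ((c * det3 (DM Φ y)) • Matrix.of (A (Φ y))) *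
      (Matrix.of (DM Φ.symm (Φ y))).transpose = Matrix.of (A' y) := by
    rw [← h1]
    have h6 : (Matrix.of (DM Φ y)).transpose * (Matrix.of (DM Φ.symm (Φ y))).transpose = 1 := by
      rw [← Matrix.transpose_mul, hJ, Matrix.transpose_one]
    calc Matrix.of (DM Φ.symm (Φ y)) * (Matrix.of (DM Φ y) * Matrix.of (A' y) *
          (Matrix.of (DM Φ y)).transpose) * (Matrix.of (DM Φ.symm (Φ y))).transpose =
          (Matrix.of (DM Φ.symm (Φ y)) * Matrix.of (DM Φ y)) * Matrix.of (A' y) *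
          ((Matrix.of (DM Φ y)).transpose * (Matrix.of (DM Φ.symm (Φ y))).transpose) := by
          simp only [Matrix.mul_assoc]
      _ = _ := by rw [hJ, h6, Matrix.one_mul, Matrix.mul_one]
  have h7 : c⁻¹ * det3 (DM Φ.symm (Φ y)) = (c * det3 (DM Φ y))⁻¹ := by
    rw [mul_inv]
    congr 1
    exact eq_inv_of_mul_eq_one_left hdet
  rw [h7, ← h5, Matrix.mul_smul, Matrix.smul_mul, smul_smul, inv_mul_cancel₀ (by positivity),
    one_smul]

theorem IsPot.comap {A A' : E3 → M3} {D : Set E3} {u : E3 → ℝ} {G : E3 → E3} (Φ : E3 ≃ₜ E3)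
    (hΦ : IsGD Φ) {c : ℝ} (hc : 0 < c) (hD : IsOpen D) (hPB : IsPB Φ c A A' D)
    (h : IsPot A (Φ '' D) u G) : IsPot A' D (u ∘ Φ)
      (fun y => mkE (fun j => ∑ i, DM Φ y i j * G (Φ y) i)) := by
  obtain ⟨G', h1, h2⟩ := h.map Φ.symm hΦ.symm (inv_pos.2 hc) ((Φ.isOpen_image).2 hD)
    (hPB.symm hΦ hc)
  have e1 : Φ.symm '' (Φ '' D) = D := by
    rw [← image_comp]; simp
  rw [e1] at h1
  have e2 : u ∘ Φ.symm.symm = u ∘ Φ := rfl
  rw [e2] at h1
  refine h1.congr_grad hD (fun y hy => ?_)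
  have h3 := h2 (Φ y) (by
    rw [← Φ.image_closure]; exact mem_image_of_mem _ hy)
  rw [Φ.symm_apply_apply] at h3
  have hJ := tra_inv hΦ y
  ext j
  rw [mkE_apply]
  simp only [← h3]
  have h5 : ∀ k, ∑ i, DM Φ.symm (Φ y) k i * DM Φ y i j = if k = j then 1 else 0 := by
    intro k
    have := congrFun (congrFun hJ k) j
    rw [Matrix.mul_apply, Matrix.one_apply] at this
    exact this
  have h6 : ∑ i, DM Φ y i j * ∑ k, DM Φ.symm (Φ y) k i * G' y k =
      ∑ k, (∑ i, DM Φ.symm (Φ y) k i * DM Φ y i j) * G' y k := by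
    simp only [Finset.mul_sum, Finset.sum_mul]
    rw [Finset.sum_comm]
    refine Finset.sum_congr rfl fun k _ => Finset.sum_congr rfl fun i _ => by ring
  rw [h6]
  simp [h5]

end

end Pool.Agent.BS
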