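import Pool.Agent.BS.Base
import Pool.Agent.BS.Gam
import Pool.Agent.BS.Dif
import Pool.Agent.BS.Tra

/-!
# Module PAR: potential outside a graph
-/

namespace Pool.Agent.BS

open MeasureTheory Topology Set Filter
open scoped ContDiff

noncomputable section

/-! ### Point evaluation -/

/-- evaluation at a point as a ring homomorphism -/
def parEv (x : Om) : Y →+* ℝ where
  toFun f := f x
  map_one' := rfl
  map_mul' _ _ := rfl
  map_zero' := rfl
  map_add' _ _ := rfl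

theorem parEv_apply (x : Om) (f : Y) : parEv x f = f x := rfl

theorem par_inverse_apply {f : Y} (h : IsUnit f) (x : Om) : (Ring.inverse f : Y) x * f x = 1 := by
  have h1 := Ring.inverse_mul_cancel f h
  have h2 := congrArg (fun g : Y => g x) h1
  simpa using h2

theorem par_dl_apply (i j : Fin 3) (x : Om) : (dl i j : Y) x = (dl i j : ℝ) := by
  unfold dl
  split_ifs
  · rfl
  · rfl

theorem par_detY_apply (a : Fin 3 → Fin 3 → Y) (x : Om) :
    (detY a : Y) x = det3 (fun i j => a i j x) := by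
  have h := RingHom.map_det (parEv x) (Matrix.of a)
  rw [parEv_apply] at h
  unfold detY det3
  rw [h]
  congr 1

theorem par_oext {f : Y} {y : E3} (hy : 1 ≤ ‖y‖) : oext f y = f ⟨y, hy⟩ := by
  unfold oext
  rw [dif_pos hy]

theorem par_eY_apply (z : Fin 4 → Y) (x : Om) :
    (eY z : Y) x = 1 + (chY x + chpY x) * z 0 x := rfl

theorem par_qY_apply (z : Fin 4 → Y) (k : Fin 3) (x : Om) :
    (qY z k : Y) x = chpY x * z 0 x * thY k x + chY x * z k.succ x := rfl

theorem par_aY_apply (z : Fin 4 → Y) (h : Fin 3 → Fin 3 → Y) (i j : Fin 3) (x : Om) :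
    (aY z h i j : Y) x = (Ring.inverse (eY z) : Y) x *
      ∑ k, ∑ l, (eY z x * dl i k - thY i x * qY z k x) * (dl k l + h k l x) *
        (eY z x * dl j l - thY j x * qY z l x) := by
  unfold aY
  rw [Y.mul_apply, Y.sum_apply]
  congr 1
  refine Finset.sum_congr rfl (fun k _ => ?_)
  rw [Y.sum_apply]
  refine Finset.sum_congr rfl (fun l _ => ?_)
  simp only [Y.mul_apply, Y.sub_apply, Y.add_apply, par_dl_apply]

theorem par_mY_apply (z : Fin 4 → Y) (h : Fin 3 → Fin 3 → Y) (i j : Fin 3) (x : Om) :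
    (dl i j : ℝ) + mY z h i j x = aY z h i j x := by
  unfold mY
  rw [Y.sub_apply, par_dl_apply]
  ring

/-! ### The gradient of a function on the sphere is tangential -/

theorem par_perp {f : S2 → ℝ} {G : Fin 3 → S2 → ℝ} (h : IsC1S f G) (θ : S2) :
    ∑ k, (θ : E3) k * G k θ = 0 := by
  have h1 := h.2 θ (S2_ne_zero θ)
  have h2 : HasDerivAt (fun t : ℝ => (1 + t) • (θ : E3)) (θ : E3) 0 := by
    simpa using ((hasDerivAt_id (0 : ℝ)).const_add 1).smul_const (θ : E3)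
  have h1' : HasFDerivAt (fun y => f (dirS y))
      (innerSL ℝ (‖(θ : E3)‖⁻¹ • mkE (fun k => G k (dirS (θ : E3))))) ((1 + (0 : ℝ)) • (θ : E3)) := by
    rw [add_zero, one_smul]
    exact h1
  have h3 := h1'.comp_hasDerivAt (0 : ℝ) h2
  have h4 : HasDerivAt ((fun y => f (dirS y)) ∘ fun t : ℝ => (1 + t) • (θ : E3)) 0 0 := by
    have h5 : HasDerivAt (fun _ : ℝ => f θ) 0 0 := hasDerivAt_const _ _
    refine h5.congr_of_eventuallyEq ?_
    have : Set.Ioi (-1 : ℝ) ∈ 𝓝 (0 : ℝ) := Ioi_mem_nhds (by norm_num)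
    filter_upwards [this] with t ht
    have ht' : 0 < 1 + t := by
      have := Set.mem_Ioi.1 ht
      linarith
    simp only [Function.comp_apply]
    rw [dirS_smul_S2 θ ht']
  have h6 := h3.unique h4
  rw [innerSL_apply_apply, norm_S2, inv_one, one_smul, dirS_S2] at h6
  rw [← h6, PiLp.inner_apply]
  refine Finset.sum_congr rfl (fun k _ => ?_)
  simp only [mkE_apply]
  simp [mul_comm]

theorem par_theta_sq (θ : S2) : ∑ k, (θ : E3) k * (θ : E3) k = 1 := by
  have h := norm_S2 θ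
  have h2 : ‖(θ : E3)‖ ^ 2 = 1 := by rw [h]; norm_num
  rw [EuclideanSpace.norm_sq_eq] at h2
  refine Eq.trans (Finset.sum_congr rfl (fun k _ => ?_)) h2
  rw [Real.norm_eq_abs, sq_abs]
  ring

/-! ### Matrix algebra -/

theorem par_det (θ q : Fin 3 → ℝ) (p : ℝ) :
    det3 (fun i j => p * dl i j + θ i * q j) = p ^ 2 * (p + ∑ k, θ k * q k) := by
  unfold det3
  rw [Matrix.det_fin_three]
  simp only [Matrix.of_apply, Fin.sum_univ_three, dl]
  simp
  ring

theorem par_key (θ q : Fin 3 → ℝ) (p e : ℝ) (he : e = p + ∑ k, θ k * q k) (i r : Fin 3) :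
    ∑ k, (p * dl i k + θ i * q k) * (e * dl k r - θ k * q r) = p * e * dl i r := by
  rw [he]
  simp only [Fin.sum_univ_three, dl]
  fin_cases i <;> fin_cases r <;> simp <;> ring

theorem par_alg (θ q : Fin 3 → ℝ) (p e ei : ℝ) (A : M3) (he : e = p + ∑ k, θ k * q k)
    (hei : ei * e = 1) (i j : Fin 3) :
    ∑ k, ∑ l, (p * dl i k + θ i * q k) * (ei * ∑ r, ∑ s, (e * dl k r - θ k * q r) * A r s *
      (e * dl l s - θ l * q s)) * (p * dl j l + θ j * q l) =
    det3 (fun i j => p * dl i j + θ i * q j) * A i j := by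
  have h1 : ∀ k l, (p * dl i k + θ i * q k) * (ei * ∑ r, ∑ s, (e * dl k r - θ k * q r) * A r s *
      (e * dl l s - θ l * q s)) * (p * dl j l + θ j * q l) =
      ∑ r, ∑ s, ei * (((p * dl i k + θ i * q k) * (e * dl k r - θ k * q r)) * A r s *
        ((p * dl j l + θ j * q l) * (e * dl l s - θ l * q s))) := by
    intro k l
    rw [Finset.mul_sum, Finset.mul_sum, Finset.sum_mul]
    refine Finset.sum_congr rfl (fun r _ => ?_)
    rw [Finset.mul_sum, Finset.mul_sum, Finset.sum_mul]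
    refine Finset.sum_congr rfl (fun s _ => ?_)
    ring
  simp only [h1]
  have h2 : ∑ k, ∑ l, ∑ r, ∑ s, ei * (((p * dl i k + θ i * q k) * (e * dl k r - θ k * q r)) *
        A r s * ((p * dl j l + θ j * q l) * (e * dl l s - θ l * q s))) =
      ∑ r, ∑ s, ei * ((∑ k, (p * dl i k + θ i * q k) * (e * dl k r - θ k * q r)) * A r s *
        (∑ l, (p * dl j l + θ j * q l) * (e * dl l s - θ l * q s))) := by
    have h3 : ∀ k, ∑ l, ∑ r, ∑ s, ei * (((p * dl i k + θ i * q k) * (e * dl k r - θ k * q r)) *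
        A r s * ((p * dl j l + θ j * q l) * (e * dl l s - θ l * q s))) =
        ∑ r, ∑ s, ei * (((p * dl i k + θ i * q k) * (e * dl k r - θ k * q r)) * A r s *
          (∑ l, (p * dl j l + θ j * q l) * (e * dl l s - θ l * q s))) := by
      intro k
      rw [Finset.sum_comm]
      refine Finset.sum_congr rfl (fun r _ => ?_)
      rw [Finset.sum_comm]
      refine Finset.sum_congr rfl (fun s _ => ?_)
      rw [Finset.mul_sum, Finset.mul_sum]
    simp only [h3]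
    rw [Finset.sum_comm]
    refine Finset.sum_congr rfl (fun r _ => ?_)
    rw [Finset.sum_comm]
    refine Finset.sum_congr rfl (fun s _ => ?_)
    rw [← Finset.mul_sum, ← Finset.sum_mul, ← Finset.sum_mul]
  rw [h2]
  simp only [par_key θ q p e he]
  rw [par_det, ← he]
  have h4 : ∑ r, ∑ s, ei * (p * e * dl i r * A r s * (p * e * dl j s)) =
      ei * (p * e * A i j * (p * e)) := by
    rw [Finset.sum_eq_single i, Finset.sum_eq_single j]
    · simp [dl]
    · intro s _ hs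
      simp [dl, Ne.symm hs]
    · simp
    · intro r _ hr
      simp [dl, Ne.symm hr]
    · simp
  rw [h4]
  calc ei * (p * e * A i j * (p * e)) = (ei * e) * (p ^ 2 * e * A i j) := by ring
    _ = p ^ 2 * e * A i j := by rw [hei, one_mul]

theorem PB_Psi {w : Xs} {A : E3 → M3} {Φ : E3 ≃ₜ E3} (hΦ : ∀ y, Φ y = Psi (wS w.1) y)
    (hA : ∀ i j (x : Om), cmp (fun x i j => A x i j - dl i j) w.1 i j x =
      A (Psi (wS w.1) (x : E3)) i j - dl i j) (he : IsUnit (eY w.1)) :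
    IsPB Φ 1 A (coefY (mY w.1 (cmp (fun x i j => A x i j - dl i j) w.1))) {x | 1 ≤ ‖x‖} := by
  intro y hy i j
  have hy1 : 1 ≤ ‖y‖ := hy
  have hy0 : y ≠ 0 := by
    intro h0
    rw [h0, norm_zero] at hy1
    linarith
  have hfun : (Φ : E3 → E3) = Psi (wS w.1) := funext hΦ
  rw [hfun]
  set h : Fin 3 → Fin 3 → Y := cmp (fun x i j => A x i j - dl i j) w.1 with hh
  let x : Om := ⟨y, hy1⟩
  have hx : (x : E3) = y := rfl
  -- values
  have hcoef : ∀ k l, coefY (mY w.1 h) y k l = aY w.1 h k l x := by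
    intro k l
    unfold coefY
    rw [par_oext hy1]
    exact par_mY_apply _ _ _ _ _
  have hX : IsX w.1 := w.2
  have hw : ∀ j, w.1 j x = w.1 j (toOm (dirS y)) := fun j => hX.1 j x
  set p : ℝ := 1 + chi ‖y‖ * wS w.1 (dirS y) with hp
  set q : Fin 3 → ℝ := fun j => ‖y‖ * deriv chi ‖y‖ * wS w.1 (dirS y) * (dirS y : E3) j +
        chi ‖y‖ * w.1 j.succ (toOm (dirS y)) with hq
  set th : Fin 3 → ℝ := fun j => (dirS y : E3) j with hth
  have hDM : ∀ i j, DM (Psi (wS w.1)) y i j = p * dl i j + th i * q j := fun i j =>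
    DM_Psi w y hy0 i j
  have hqx : ∀ k, qY w.1 k x = q k := by
    intro k
    rw [par_qY_apply, chpY_apply, chY_apply, thY_apply, hw, hw, hx]
    rfl
  have hex : eY w.1 x = p + ∑ k, th k * q k := by
    rw [par_eY_apply, chpY_apply, chY_apply, hw, hx]
    have h1 := par_perp hX.2.1 (dirS y)
    have h2 := par_theta_sq (dirS y)
    have h3 : ∑ k, th k * q k = ‖y‖ * deriv chi ‖y‖ * wS w.1 (dirS y) *
        (∑ k, (dirS y : E3) k * (dirS y : E3) k) +
        chi ‖y‖ * ∑ k, (dirS y : E3) k * w.1 k.succ (toOm (dirS y)) := by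
      rw [Finset.mul_sum, Finset.mul_sum, ← Finset.sum_add_distrib]
      refine Finset.sum_congr rfl (fun k _ => ?_)
      simp only [hth, hq]
      ring
    rw [h3, h1, h2, hp]
    simp only [wS]
    ring
  have hei := par_inverse_apply he x
  have hfin := par_alg th q p (eY w.1 x) ((Ring.inverse (eY w.1) : Y) x)
    (fun i j => A (Psi (wS w.1) y) i j) hex hei i j
  have hDM' : DM (Psi (wS w.1)) y = fun i j => p * dl i j + th i * q j := by
    funext i j
    exact hDM i j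
  rw [hDM', one_mul, ← hfin]
  refine Finset.sum_congr rfl (fun k _ => Finset.sum_congr rfl (fun l _ => ?_))
  rw [hcoef k l, par_aY_apply]
  congr 3
  refine Finset.sum_congr rfl (fun r _ => Finset.sum_congr rfl (fun s _ => ?_))
  have hA' : (dl r s : ℝ) + h r s x = A (Psi (wS w.1) y) r s := by
    rw [hA r s x, hx]
    ring
  rw [hA', thY_apply, thY_apply, hqx, hqx, hx]

/-! ### Matrices close to the identity -/

theorem par_norm_sq (v : E3) : ‖v‖ ^ 2 = v 0 ^ 2 + v 1 ^ 2 + v 2 ^ 2 := by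
  rw [EuclideanSpace.norm_sq_eq, Fin.sum_univ_three]
  simp only [Real.norm_eq_abs, sq_abs]

theorem par_ell {a : M3} (ha : ∀ i j, |a i j - dl i j| ≤ 1 / 100) (v : E3) :
    (1 / 2) * ‖v‖ ^ 2 ≤ ∑ i, ∑ j, a i j * v i * v j := by
  have h1 : ∀ i j, -(1 / 100) * ((v i ^ 2 + v j ^ 2) / 2) ≤ (a i j - dl i j) * v i * v j := by
    intro i j
    have h2 := abs_le.1 (ha i j)
    have h3 : |(a i j - dl i j) * (v i * v j)| ≤ (1 / 100) * ((v i ^ 2 + v j ^ 2) / 2) := by
      rw [abs_mul]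
      refine mul_le_mul (ha i j) ?_ (abs_nonneg _) (by norm_num)
      rw [abs_le]
      constructor
      · nlinarith [sq_nonneg (v i + v j)]
      · nlinarith [sq_nonneg (v i - v j)]
    have h4 := (abs_le.1 h3).1
    nlinarith
  have h2 : ∑ i, ∑ j, a i j * v i * v j =
      (∑ i, ∑ j, (a i j - dl i j) * v i * v j) + (v 0 ^ 2 + v 1 ^ 2 + v 2 ^ 2) := by
    simp only [Fin.sum_univ_three, dl]
    simp
    ring
  have h3 : ∑ i, ∑ j, -(1 / 100) * ((v i ^ 2 + v j ^ 2) / 2) ≤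
      ∑ i, ∑ j, (a i j - dl i j) * v i * v j :=
    Finset.sum_le_sum (fun i _ => Finset.sum_le_sum (fun j _ => h1 i j))
  rw [h2, par_norm_sq]
  simp only [Fin.sum_univ_three] at h3 ⊢
  nlinarith [sq_nonneg (v 0), sq_nonneg (v 1), sq_nonneg (v 2)]

theorem par_det_pos {a : M3} (ha : ∀ i j, |a i j - dl i j| ≤ 1 / 100) : 0 < det3 a := by
  unfold det3
  rw [Matrix.det_fin_three]
  simp only [Matrix.of_apply]
  have h00 := abs_le.1 (ha 0 0)
  have h11 := abs_le.1 (ha 1 1)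
  have h22 := abs_le.1 (ha 2 2)
  have h01 : |a 0 1| ≤ 1 / 100 := by simpa [dl] using ha 0 1
  have h02 : |a 0 2| ≤ 1 / 100 := by simpa [dl] using ha 0 2
  have h10 : |a 1 0| ≤ 1 / 100 := by simpa [dl] using ha 1 0
  have h12 : |a 1 2| ≤ 1 / 100 := by simpa [dl] using ha 1 2
  have h20 : |a 2 0| ≤ 1 / 100 := by simpa [dl] using ha 2 0
  have h21 : |a 2 1| ≤ 1 / 100 := by simpa [dl] using ha 2 1
  simp only [dl, if_true] at h00 h11 h22
  have g00 : |a 0 0| ≤ 2 := abs_le.2 ⟨by linarith, by linarith⟩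
  have g11 : |a 1 1| ≤ 2 := abs_le.2 ⟨by linarith, by linarith⟩
  have g22 : |a 2 2| ≤ 2 := abs_le.2 ⟨by linarith, by linarith⟩
  have hm : ∀ {x y z A B C : ℝ}, |x| ≤ A → |y| ≤ B → |z| ≤ C → |x * y * z| ≤ A * B * C := by
    intro x y z A B C hx hy hz
    have hA : 0 ≤ A := (abs_nonneg _).trans hx
    have hB : 0 ≤ B := (abs_nonneg _).trans hy
    rw [abs_mul, abs_mul]
    exact mul_le_mul (mul_le_mul hx hy (abs_nonneg _) hA) hz (abs_nonneg _) (mul_nonneg hA hB)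
  have t1 := (abs_le.1 (hm g00 h12 h21)).2
  have t2 := (abs_le.1 (hm h01 h10 g22)).2
  have t3 := (abs_le.1 (hm h01 h12 h20)).1
  have t4 := (abs_le.1 (hm h02 h10 h21)).1
  have t5 := (abs_le.1 (hm h02 g11 h20)).2
  have t0 : (99 / 100) * (99 / 100) * (99 / 100) ≤ a 0 0 * a 1 1 * a 2 2 := by
    have e0 : (99 / 100 : ℝ) ≤ a 0 0 := by linarith
    have e1 : (99 / 100 : ℝ) ≤ a 1 1 := by linarith
    have e2 : (99 / 100 : ℝ) ≤ a 2 2 := by linarith
    gcongr
  nlinarith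

/-! ### The domain -/

theorem par_closure_Ext : closure Ext = {y : E3 | 1 ≤ ‖y‖} := by
  have h1 : Ext = (Metric.closedBall (0 : E3) 1)ᶜ := by
    ext y
    simp [Ext]
  rw [h1, closure_compl, interior_closedBall _ one_ne_zero]
  ext y
  simp

theorem par_isOpen_Ext : IsOpen Ext := isOpen_lt continuous_const continuous_norm

theorem par_Psi_norm {w : Xs} (hw : ‖w‖ ≤ 1 / 100) {y : E3} (hy : 1 ≤ ‖y‖) :
    1 / 2 < ‖Psi (wS w.1) y‖ := by
  unfold Psi
  rw [norm_smul, Real.norm_eq_abs]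
  have h1 : |wS w.1 (dirS y)| ≤ 1 / 100 := by
    have h2 : |w.1 0 (toOm (dirS y))| ≤ ‖w.1 0‖ := (w.1 0).abs_apply_le _
    have h3 : ‖w.1 0‖ ≤ ‖w.1‖ := norm_le_pi_norm _ 0
    have h4 : ‖w.1‖ = ‖w‖ := rfl
    exact h2.trans (h3.trans (h4.le.trans hw))
  have h2 : |chi ‖y‖ * wS w.1 (dirS y)| ≤ 1 / 100 := by
    rw [abs_mul, abs_of_nonneg (chi_nonneg _)]
    calc chi ‖y‖ * |wS w.1 (dirS y)| ≤ 1 * (1 / 100) :=
          mul_le_mul (chi_le_one _) h1 (abs_nonneg _) (by norm_num)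
      _ = 1 / 100 := by norm_num
  have h3 := (abs_le.1 h2).1
  have h4 : (99 / 100 : ℝ) ≤ |1 + chi ‖y‖ * wS w.1 (dirS y)| := by
    refine le_trans ?_ (le_abs_self _)
    linarith
  nlinarith [abs_nonneg (1 + chi ‖y‖ * wS w.1 (dirS y))]

/-! ### The value of `bq` on the unit sphere -/

theorem par_bq (z : Fin 4 → Y) (h : Fin 3 → Fin 3 → Y) (hd : IsUnit (detY (aY z h)))
    (hZ : ZZ TT (mY z h) = TT (Mop (mY z h) (thY + ZZ TT (mY z h)))) (θ : S2) :
    bq (coefY (mY z h) (θ : E3)) ((‖(θ : E3)‖ ^ 2)⁻¹ • mkE (fun j => (dirS (θ : E3) : E3) j +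
      oext (ZZ TT (mY z h) j) (θ : E3))) = Gam (z, h) (toOm θ) := by
  set Z := ZZ TT (mY z h) with hZdef
  have hθ : (1 : ℝ) ≤ ‖(θ : E3)‖ := by rw [norm_S2]
  have hx : (⟨(θ : E3), hθ⟩ : Om) = toOm θ := rfl
  have hcoef : ∀ k l, coefY (mY z h) (θ : E3) k l = aY z h k l (toOm θ) := by
    intro k l
    unfold coefY
    rw [par_oext hθ, hx]
    exact par_mY_apply _ _ _ _ _
  have hcoef' : coefY (mY z h) (θ : E3) = fun k l => aY z h k l (toOm θ) := by
    funext k l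
    exact hcoef k l
  obtain ⟨μ, hμ⟩ : ∃ μ : ℝ, ∀ j, Z j (toOm θ) = (θ : E3) j * μ := by
    refine ⟨muc (Mop (mY z h) (thY + Z)) 0 θ, fun j => ?_⟩
    rw [← TT_bdry, ← hZ]
  have hG : Gam (z, h) (toOm θ) = Gam0 TT z h (toOm θ) := by
    unfold Gam
    rw [trY_apply]
    congr 2
    exact dirS_S2 θ
  have hsum : ∑ j, (θ : E3) j * Z j (toOm θ) = μ := by
    have h2 := par_theta_sq θ
    calc ∑ j, (θ : E3) j * Z j (toOm θ) = μ * ∑ j, (θ : E3) j * (θ : E3) j := by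
          rw [Finset.mul_sum]
          refine Finset.sum_congr rfl (fun j _ => ?_)
          rw [hμ]; ring
      _ = μ := by rw [h2, mul_one]
  have hdet := par_inverse_apply hd (toOm θ)
  rw [par_detY_apply] at hdet
  have hdet0 : det3 (fun i j => aY z h i j (toOm θ)) ≠ 0 := right_ne_zero_of_mul_eq_one hdet
  have hinv : (Ring.inverse (detY (aY z h)) : Y) (toOm θ) =
      (det3 (fun i j => aY z h i j (toOm θ)))⁻¹ := eq_inv_of_mul_eq_one_left hdet
  have hth : ∀ i, thY i (toOm θ) = (θ : E3) i := by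
    intro i
    rw [thY_apply]
    have : ((toOm θ : Om) : E3) = (θ : E3) := rfl
    rw [this, dirS_S2]
  rw [hG, hcoef']
  unfold bq Gam0
  rw [Y.mul_apply, Y.mul_apply, hinv, div_eq_mul_inv]
  congr 1
  have h3 : ((1 + ∑ j, thY j * ZZ TT (mY z h) j) ^ 2 : Y) (toOm θ) = (1 + μ) ^ 2 := by
    rw [pow_two, Y.mul_apply, Y.add_apply, Y.one_apply, Y.sum_apply, pow_two]
    have : ∑ i, (thY i * ZZ TT (mY z h) i) (toOm θ) = μ := by
      rw [← hsum]
      refine Finset.sum_congr rfl (fun j _ => ?_)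
      rw [Y.mul_apply, hth]
    rw [this]
  rw [h3, Y.sum_apply, Finset.sum_mul]
  refine Finset.sum_congr rfl (fun i _ => ?_)
  rw [Y.sum_apply, Finset.sum_mul]
  refine Finset.sum_congr rfl (fun j _ => ?_)
  rw [Y.mul_apply, Y.mul_apply, hth, hth]
  have h4 : ∀ k, ((‖(θ : E3)‖ ^ 2)⁻¹ • mkE (fun j => (dirS (θ : E3) : E3) j +
      oext (Z j) (θ : E3))) k = (θ : E3) k * (1 + μ) := by
    intro k
    rw [norm_S2, one_pow, inv_one, one_smul, mkE_apply, par_oext hθ, hx, hμ, dirS_S2]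
    ring
  rw [h4, h4]
  ring

theorem par_pot : ∃ δ > 0, ∀ (w : Xs) (A : E3 → M3) (Φ : E3 ≃ₜ E3), IsGD Φ →
    (∀ y, Φ y = Psi (wS w.1) y) → ContinuousOn A {x | 1 / 2 < ‖x‖} → ‖w‖ ≤ δ →
    ‖cmp (fun x i j => A x i j - dl i j) w.1‖ ≤ δ →
    (∀ i j (x : Om), cmp (fun x i j => A x i j - dl i j) w.1 i j x =
      A (Psi (wS w.1) (x : E3)) i j - dl i j) →
    ∃ (u : E3 → ℝ) (G : E3 → E3), IsPot A (Φ '' Ext) u G ∧ (∀ x ∈ Φ '' Ext, 0 < u x) ∧
      IsEll A (Φ '' Ext) ∧ (∀ x ∈ closure (Φ '' Ext), 0 < det3 (A x)) ∧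
      ∀ θ : S2, bq (A (Φ θ)) (G (Φ θ)) =
        Gam (w.1, cmp (fun x i j => A x i j - dl i j) w.1) (toOm θ) := by
  obtain ⟨δ₀, hδ₀, hsmall⟩ := Gam_small
  refine ⟨min (δ₀ / 2) (1 / 100), lt_min (half_pos hδ₀) (by norm_num), ?_⟩
  intro w A Φ hGD hΦ hAc hw hh hval
  set h : Fin 3 → Fin 3 → Y := cmp (fun x i j => A x i j - dl i j) w.1 with hhdef
  have hw1 : ‖w‖ ≤ 1 / 100 := hw.trans (min_le_right _ _)
  have hh1 : ‖h‖ ≤ 1 / 100 := hh.trans (min_le_right _ _)
  have hw2 : ‖w.1‖ < δ₀ := by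
    have : ‖w.1‖ = ‖w‖ := rfl
    rw [this]
    exact (hw.trans (min_le_left _ _)).trans_lt (half_lt_self hδ₀)
  have hh2 : ‖h‖ < δ₀ := (hh.trans (min_le_left _ _)).trans_lt (half_lt_self hδ₀)
  obtain ⟨he, hd, hm, -, hZ, hZs⟩ := hsmall w.1 h hw2 hh2
  -- closeness of A to the identity
  have hclose : ∀ y : E3, 1 ≤ ‖y‖ → ∀ i j, |A (Φ y) i j - dl i j| ≤ 1 / 100 := by
    intro y hy i j
    have h1 := hval i j ⟨y, hy⟩
    rw [hΦ y]
    rw [← h1]
    have h2 : ‖h i j‖ ≤ ‖h‖ := (norm_le_pi_norm (h i) j).trans (norm_le_pi_norm h i)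
    exact ((h i j).abs_apply_le _).trans (h2.trans hh1)
  have hcl : closure (Φ '' Ext) = Φ '' {y : E3 | 1 ≤ ‖y‖} := by
    rw [← Φ.image_closure, par_closure_Ext]
  have hbase := base_pot (mY w.1 h) hm (ZZ TT (mY w.1 h)) hZ
  have hPB : IsPB Φ 1 A (coefY (mY w.1 h)) {x | 1 ≤ ‖x‖} := PB_Psi hΦ hval he
  have hPB' : IsPB Φ 1 A (coefY (mY w.1 h)) Ext := fun y hy =>
    hPB y (show (1 : ℝ) ≤ ‖y‖ from le_of_lt hy)
  obtain ⟨G', hpot, hG'⟩ := IsPot.map Φ hGD one_pos par_isOpen_Ext hPB' hbase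
  refine ⟨_, G', hpot, ?_, ?_, ?_, ?_⟩
  · rintro x ⟨y, hy, rfl⟩
    rw [Function.comp_apply, Φ.symm_apply_apply]
    exact base_pos (mY w.1 h) (ZZ TT (mY w.1 h)) hZ hZs y hy
  · refine ⟨?_, ⟨2, ?_⟩, ⟨1 / 2, by norm_num, ?_⟩⟩
    · refine hAc.mono ?_
      rintro x ⟨y, hy, rfl⟩
      rw [Set.mem_ofPred_eq, hΦ y]
      exact par_Psi_norm hw1 (le_of_lt hy)
    · rintro x ⟨y, hy, rfl⟩ i j
      have h1 := hclose y (le_of_lt hy) i j
      have h2 : |(dl i j : ℝ)| ≤ 1 := by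
        unfold dl
        split_ifs <;> simp
      have h3 : A (Φ y) i j = (A (Φ y) i j - dl i j) + dl i j := by ring
      rw [h3]
      refine (abs_add_le _ _).trans ?_
      linarith
    · rintro x ⟨y, hy, rfl⟩ v
      exact par_ell (hclose y (le_of_lt hy)) v
  · intro x hx
    rw [hcl] at hx
    obtain ⟨y, hy, rfl⟩ := hx
    exact par_det_pos (hclose y hy)
  · intro θ
    have hθ : (1 : ℝ) ≤ ‖(θ : E3)‖ := by rw [norm_S2]
    have hmem : (θ : E3) ∈ closure Ext := by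
      rw [par_closure_Ext]
      exact hθ
    have h1 := bq_map (A := A (Φ θ)) (A' := coefY (mY w.1 h) (θ : E3)) (J := DM Φ (θ : E3))
      (c := 1) one_pos (hGD.det θ) (par_det_pos (hclose θ hθ)) (hPB θ hθ) (hG' θ hmem)
    rw [← par_bq w.1 h hd hZ θ, h1]
    norm_num

end

end Pool.Agent.BS
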