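import Pool.Agent.BS.Defs4

/-!
# Module SMUB: smooth weak solutions are classical
-/

namespace Pool.Agent.BS

open MeasureTheory Topology Set Filter
open scoped ContDiff

noncomputable section

theorem smub_int {D : Set E3} (hD : IsOpen D) {f g : E3 → ℝ} (hf : ContinuousOn f D)
    (hg : Continuous g) (hc : HasCompactSupport g) (hs : tsupport g ⊆ D) :
    Integrable (fun x => f x * g x) := by
  have hcont : Continuous fun x => f x * g x := by
    rw [continuous_iff_continuousAt]
    intro x
    by_cases hx : x ∈ D
    · exact (hf.continuousAt (hD.mem_nhds hx)).mul hg.continuousAt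
    · have hx' : x ∉ tsupport g := fun h => hx (hs h)
      have h1 : g =ᶠ[𝓝 x] 0 := notMem_tsupport_iff_eventuallyEq.1 hx'
      have h2 : (fun x => f x * g x) =ᶠ[𝓝 x] fun _ => 0 := by
        filter_upwards [h1] with y hy
        rw [hy]; simp
      exact continuousAt_const.congr h2.symm
  exact hcont.integrable_of_hasCompactSupport hc.mul_left

theorem smub_pd {D : Set E3} (hD : IsOpen D) {f : E3 → ℝ} (hf : ContDiffOn ℝ ∞ f D) (k : Fin 3) :
    ContDiffOn ℝ ∞ (pd k f) D := by
  have h1 : ContDiffOn ℝ ∞ (fderiv ℝ f) D := hf.fderiv_of_isOpen hD (by simp)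
  exact h1.clm_apply contDiffOn_const

/-- a smooth weak solution is a classical solution -/
theorem weak_classical {A : E3 → M3} {D : Set E3} {u : E3 → ℝ} {G : E3 → E3} (hD : IsOpen D)
    (hA : ∀ i j, ContDiffOn ℝ ∞ (fun x => A x i j) D) (hu : ContDiffOn ℝ ∞ u D)
    (h : IsPot A D u G) (x : E3) (hx : x ∈ D) :
    ∑ i, pd i (fun y => ∑ j, A y i j * pd j u y) x = 0 := by
  set V : Fin 3 → E3 → ℝ := fun i y => ∑ j, A y i j * pd j u y with hV
  have hVs : ∀ i, ContDiffOn ℝ ∞ (V i) D := fun i =>
    ContDiffOn.sum fun j _ => (hA i j).mul (smub_pd hD hu j)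
  have hG : ∀ x ∈ D, ∀ j, G x j = pd j u x := by
    intro x hx j
    have h1 := h.grad x (subset_closure hx)
    have h2 : HasFDerivAt u (innerSL ℝ (G x)) x :=
      h1.hasFDerivAt (mem_of_superset (hD.mem_nhds hx) subset_closure)
    rw [pd, h2.fderiv]
    simp [bv, EuclideanSpace.inner_single_right]
  have key : ∀ φ : E3 → ℝ, ContDiff ℝ ∞ φ → HasCompactSupport φ → tsupport φ ⊆ D →
      ∫ x, φ x • (∑ i, pd i (V i) x) = 0 := by
    intro φ hφ hc hs
    have hφ1 : ContDiff ℝ 1 φ := hφ.of_le (by simp)
    have h1 := h.weak φ hφ1 hc hs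
    have hpc : ∀ i, Continuous (pd i φ) := fun i =>
      (hφ.continuous_fderiv (by simp)).clm_apply continuous_const
    have hts : ∀ i, tsupport (pd i φ) ⊆ tsupport φ := by
      intro i
      refine closure_minimal ?_ (isClosed_tsupport φ)
      intro y hy
      by_contra hn
      apply hy
      have h2 : φ =ᶠ[𝓝 y] 0 := notMem_tsupport_iff_eventuallyEq.1 hn
      have h3 : fderiv ℝ φ y = fderiv ℝ (0 : E3 → ℝ) y := h2.fderiv_eq
      rw [pd, h3]
      simp
    have hpcs : ∀ i, HasCompactSupport (pd i φ) := fun i =>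
      hc.of_isClosed_subset (isClosed_tsupport _) (hts i)
    -- the weak equation over the whole space
    have h2 : ∫ x, ∑ i, V i x * pd i φ x = 0 := by
      rw [← h1, ← setIntegral_eq_integral_of_forall_compl_eq_zero (s := D)]
      · refine setIntegral_congr_fun hD.measurableSet fun y hy => ?_
        simp only [hV]
        refine Finset.sum_congr rfl fun i _ => ?_
        rw [Finset.sum_mul]
        refine Finset.sum_congr rfl fun j _ => ?_
        rw [hG y hy j]
      · intro y hy
        refine Finset.sum_eq_zero fun i _ => ?_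
        have : pd i φ y = 0 := image_eq_zero_of_notMem_tsupport fun hn => hy (hs (hts i hn))
        rw [this, mul_zero]
    have i1 : ∀ i, Integrable (fun x => V i x * pd i φ x) := fun i =>
      smub_int hD (hVs i).continuousOn (hpc i) (hpcs i) ((hts i).trans hs)
    have i2 : ∀ i, Integrable (fun x => pd i (V i) x * φ x) := fun i =>
      smub_int hD (smub_pd hD (hVs i) i).continuousOn hφ.continuous hc hs
    have i3 : ∀ i, Integrable (fun x => V i x * φ x) := fun i =>
      smub_int hD (hVs i).continuousOn hφ.continuous hc hs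
    have h3 : ∀ i, ∫ x, V i x * pd i φ x = -∫ x, pd i (V i) x * φ x := by
      intro i
      refine integral_mul_fderiv_eq_neg_fderiv_mul_of_integrable (f := V i) (g := φ) (v := bv i)
        (i2 i) (i1 i) (i3 i) ?_ ?_
      · intro y hy
        exact ((hVs i).contDiffAt (hD.mem_nhds (hs hy))).differentiableAt (by simp)
      · intro y _
        exact hφ.differentiable (by simp) y
    rw [integral_finsetSum _ fun i _ => i1 i] at h2
    simp_rw [h3] at h2
    rw [Finset.sum_neg_distrib, neg_eq_zero, ← integral_finsetSum _ fun i _ => i2 i] at h2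
    rw [← h2]
    refine integral_congr_ae (Eventually.of_forall fun y => ?_)
    simp only [smul_eq_mul]
    rw [Finset.mul_sum]
    exact Finset.sum_congr rfl fun i _ => mul_comm _ _
  have hK : ContinuousOn (fun x => ∑ i, pd i (V i) x) D :=
    continuousOn_finsetSum _ fun i _ => (smub_pd hD (hVs i) i).continuousOn
  have h4 := hD.ae_eq_zero_of_integral_contDiff_smul_eq_zero
    (hK.locallyIntegrableOn hD.measurableSet) key
  have h5 : (fun x => ∑ i, pd i (V i) x) =ᵐ[volume.restrict D] fun _ => 0 := by
    rw [Filter.EventuallyEq, ae_restrict_iff' hD.measurableSet]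
    exact h4
  exact Measure.eqOn_open_of_ae_eq h5 hD hK continuousOn_const hx

end

end Pool.Agent.BS
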