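import Pool.Agent.BS.SmuA
import Pool.Agent.BS.SmuB
import Pool.Agent.BS.Par
import Pool.Agent.BS.LS
import Pool.Agent.BS.Af0

/-!
# Module FINA: Bernoulli surfaces
-/

namespace Pool.Agent.BS

open MeasureTheory Topology Set Filter
open scoped ContDiff

noncomputable section

/-! ### smoothness of the pulled back coefficients -/

theorem finA_norm : ContDiffOn ℝ ∞ (fun x : E3 => ‖x‖) {0}ᶜ := fun _ hx =>
  (contDiffAt_norm ℝ hx).contDiffWithinAt

theorem finA_chi : ContDiffOn ℝ ∞ (fun x : E3 => chi ‖x‖) {0}ᶜ :=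
  chi_smooth.comp_contDiffOn finA_norm

theorem finA_dchi : ContDiffOn ℝ ∞ (fun x : E3 => ‖x‖ * deriv chi ‖x‖) {0}ᶜ :=
  finA_norm.mul ((contDiff_infty_iff_deriv.1 chi_smooth).2.comp_contDiffOn finA_norm)

theorem finA_coord (i : Fin 3) : ContDiff ℝ ∞ (fun x : E3 => x i) :=
  (EuclideanSpace.proj (𝕜 := ℝ) i).contDiff

theorem finA_dir (i : Fin 3) : ContDiffOn ℝ ∞ (fun x : E3 => (dirS x : E3) i) {0}ᶜ := by
  have h1 : ContDiffOn ℝ ∞ (fun x : E3 => ‖x‖⁻¹ * x i) {0}ᶜ :=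
    (finA_norm.inv (fun x hx => norm_ne_zero_iff.2 hx)).mul (finA_coord i).contDiffOn
  refine h1.congr (fun x hx => ?_)
  rw [dirS_coe hx]
  simp

theorem finA_W (w : Xs) (x : E3) (hx : x ≠ 0) :
    HasFDerivAt (fun y => wS w.1 (dirS y))
      (innerSL ℝ (‖x‖⁻¹ • mkE (fun k => w.1 k.succ (toOm (dirS x))))) x :=
  w.2.2.1.2 x hx

theorem finA_inner_bv (p : E3) (k : Fin 3) : inner ℝ p (bv k) = p k := by
  simp [bv, PiLp.inner_apply, PiLp.single_apply]

theorem finA_G (w : Xs) (hw : ContDiffOn ℝ ∞ (fun x => wS w.1 (dirS x)) {0}ᶜ) (k : Fin 3) :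
    ContDiffOn ℝ ∞ (fun x : E3 => w.1 k.succ (toOm (dirS x))) {0}ᶜ := by
  have h1 : ContDiffOn ℝ ∞ (fun x => ‖x‖ * fderiv ℝ (fun y => wS w.1 (dirS y)) x (bv k)) {0}ᶜ :=
    finA_norm.mul ((hw.fderiv_of_isOpen isOpen_compl_singleton (by simp)).clm_apply
      contDiffOn_const)
  refine h1.congr (fun x hx => ?_)
  have hx' : ‖x‖ ≠ 0 := norm_ne_zero_iff.2 hx
  rw [(finA_W w x hx).fderiv, innerSL_apply_apply, finA_inner_bv, PiLp.smul_apply, mkE_apply,
    smul_eq_mul, mul_inv_cancel_left₀ hx']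

theorem finA_Psi (w : Xs) (hw : ContDiffOn ℝ ∞ (fun x => wS w.1 (dirS x)) {0}ᶜ) :
    ContDiffOn ℝ ∞ (Psi (wS w.1)) {0}ᶜ :=
  (contDiffOn_const.add (finA_chi.mul hw)).smul contDiffOn_id

theorem finA_inv {f : Y} (hf : IsUnit f) (x : Om) : f x ≠ 0 ∧ Ring.inverse f x = (f x)⁻¹ := by
  have h := Ring.mul_inverse_cancel f hf
  have h2 : f x * Ring.inverse f x = 1 := by
    rw [← Y.mul_apply, h, Y.one_apply]
  have h3 : f x ≠ 0 := by
    intro h0
    rw [h0, zero_mul] at h2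
    exact zero_ne_one h2
  exact ⟨h3, eq_inv_of_mul_eq_one_right h2⟩

theorem finA_dl (i j : Fin 3) (x : Om) : (dl i j : Y) x = dl i j := by
  unfold dl
  split_ifs
  · rfl
  · rfl

theorem finA_msmooth (w : Xs) (H : E3 → M3) (hH : ∀ i j, ContDiff ℝ ∞ (fun x => H x i j))
    (hw : ContDiffOn ℝ ∞ (fun x => wS w.1 (dirS x)) {0}ᶜ) (he : IsUnit (eY w.1))
    (hc : ∀ i j (x : Om), cmp H w.1 i j x = H (Psi (wS w.1) (x : E3)) i j) (i j : Fin 3) :
    ContDiffOn ℝ ∞ (oext (mY w.1 (cmp H w.1) i j)) Ext := by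
  have hsub : Ext ⊆ ({0}ᶜ : Set E3) := by
    intro x hx h0
    rw [mem_singleton_iff] at h0
    subst h0
    simp [Ext] at hx
    linarith
  have hE : ContDiffOn ℝ ∞ (fun x : E3 => 1 + (chi ‖x‖ + ‖x‖ * deriv chi ‖x‖) *
      wS w.1 (dirS x)) {0}ᶜ := contDiffOn_const.add ((finA_chi.add finA_dchi).mul hw)
  have hq : ∀ k : Fin 3, ContDiffOn ℝ ∞ (fun x : E3 => (‖x‖ * deriv chi ‖x‖) *
      wS w.1 (dirS x) * (dirS x : E3) k + chi ‖x‖ * w.1 k.succ (toOm (dirS x))) {0}ᶜ := fun k =>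
    ((finA_dchi.mul hw).mul (finA_dir k)).add (finA_chi.mul (finA_G w hw k))
  have hHP : ∀ k l, ContDiffOn ℝ ∞ (fun x => H (Psi (wS w.1) x) k l) {0}ᶜ := fun k l =>
    (hH k l).comp_contDiffOn (finA_Psi w hw)
  -- pointwise formulas
  have h0 : ∀ x : Om, w.1 0 x = wS w.1 (dirS (x : E3)) := fun x => w.2.1 0 x
  have hk : ∀ (k : Fin 3) (x : Om), w.1 k.succ x = w.1 k.succ (toOm (dirS (x : E3))) :=
    fun k x => w.2.1 k.succ x
  have e1 : ∀ x : Om, eY w.1 x = 1 + (chi ‖(x : E3)‖ + ‖(x : E3)‖ * deriv chi ‖(x : E3)‖) *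
      wS w.1 (dirS (x : E3)) := by
    intro x
    simp only [eY, Y.add_apply, Y.mul_apply, Y.one_apply, chY_apply, chpY_apply, h0]
  have e2 : ∀ (k : Fin 3) (x : Om), qY w.1 k x = (‖(x : E3)‖ * deriv chi ‖(x : E3)‖) *
      wS w.1 (dirS (x : E3)) * (dirS (x : E3) : E3) k +
        chi ‖(x : E3)‖ * w.1 k.succ (toOm (dirS (x : E3))) := by
    intro k x
    simp only [qY, Y.add_apply, Y.mul_apply, chY_apply, chpY_apply, thY_apply, h0]
    have h5 := hk k x
    beta_reduce at h5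
    rw [h5]
  let e : E3 → ℝ := fun x => 1 + (chi ‖x‖ + ‖x‖ * deriv chi ‖x‖) * wS w.1 (dirS x)
  let qq : Fin 3 → E3 → ℝ := fun k x => (‖x‖ * deriv chi ‖x‖) *
      wS w.1 (dirS x) * (dirS x : E3) k + chi ‖x‖ * w.1 k.succ (toOm (dirS x))
  let F : E3 → ℝ := fun x => (e x)⁻¹ * (∑ k, ∑ l, (e x * dl i k - (dirS x : E3) i * qq k x) *
    (dl k l + H (Psi (wS w.1) x) k l) * (e x * dl j l - (dirS x : E3) j * qq l x)) - dl i j
  have hne : ∀ x ∈ Ext, e x ≠ 0 := by
    intro x hx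
    have := (finA_inv he ⟨x, le_of_lt hx⟩).1
    rw [e1] at this
    exact this
  have hF : ContDiffOn ℝ ∞ F Ext := by
    have hE' : ContDiffOn ℝ ∞ e Ext := hE.mono hsub
    have hq' : ∀ k, ContDiffOn ℝ ∞ (qq k) Ext := fun k => (hq k).mono hsub
    have hd' : ∀ k, ContDiffOn ℝ ∞ (fun x : E3 => (dirS x : E3) k) Ext :=
      fun k => (finA_dir k).mono hsub
    refine ContDiffOn.sub ((hE'.inv hne).mul ?_) contDiffOn_const
    refine ContDiffOn.sum fun k _ => ContDiffOn.sum fun l _ => ?_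
    exact (((hE'.mul contDiffOn_const).sub ((hd' i).mul (hq' k))).mul
      (contDiffOn_const.add ((hHP k l).mono hsub))).mul
      ((hE'.mul contDiffOn_const).sub ((hd' j).mul (hq' l)))
  refine hF.congr (fun x hx => ?_)
  have hx1 : 1 ≤ ‖x‖ := le_of_lt hx
  have h3 := (finA_inv he ⟨x, hx1⟩).2
  simp only [oext, hx1, dif_pos]
  simp only [mY, aY, Y.sub_apply, Y.mul_apply, Y.sum_apply, Y.add_apply, finA_dl, thY_apply,
    h3, e1, e2, hc, F, e, qq]

/-! ### the surface -/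

theorem finA_norm_deriv (θ : S2) : HasFDerivAt (fun z : E3 => ‖z‖) (innerSL ℝ (θ : E3)) (θ : E3) := by
  have h1 := (hasStrictFDerivAt_norm_sq (θ : E3)).hasFDerivAt
  have h2 := h1.sqrt (by rw [norm_S2]; norm_num)
  have h3 : (fun z : E3 => Real.sqrt (‖z‖ ^ 2)) = fun z => ‖z‖ :=
    funext fun z => Real.sqrt_sq (norm_nonneg z)
  rw [h3] at h2
  have h4 : (1 / (2 * Real.sqrt (‖(θ : E3)‖ ^ 2))) • 2 • innerSL ℝ (θ : E3) =
      innerSL ℝ (θ : E3) := by
    rw [norm_S2]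
    ext v
    simp
  rw [h4] at h2
  exact h2

theorem finA_dirS_deriv (θ : S2) : ∃ L : E3 →L[ℝ] E3,
    HasFDerivAt (fun z : E3 => ‖z‖⁻¹ • z) L (θ : E3) ∧
    ∀ τ, L τ = τ - (inner ℝ (θ : E3) τ) • (θ : E3) := by
  have h1 := finA_norm_deriv θ
  have h0 : ‖(θ : E3)‖ ≠ 0 := by rw [norm_S2]; exact one_ne_zero
  have h2 : HasFDerivAt (fun z : E3 => ‖z‖⁻¹) (-(‖(θ : E3)‖ ^ 2)⁻¹ • innerSL ℝ (θ : E3)) (θ : E3) := by
    have := (hasDerivAt_inv h0).comp_hasFDerivAt (θ : E3) h1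
    exact this
  have h3 := h2.smul (hasFDerivAt_id (θ : E3))
  refine ⟨_, h3, fun τ => ?_⟩
  simp
  module

theorem finA_F (w : Xs) (b : E3) (R : ℝ) (θ : S2) : ∃ L : E3 →L[ℝ] E3,
    HasFDerivAt (fun z => b + (R * (1 + wS w.1 (dirS z))) • (‖z‖⁻¹ • z)) L (θ : E3) ∧
    ∀ τ, L τ = (R * (1 + wS w.1 θ)) • (τ - (inner ℝ (θ : E3) τ) • (θ : E3)) +
      (R * inner ℝ (mkE fun k => w.1 k.succ (toOm θ)) τ) • (θ : E3) := by
  obtain ⟨L₁, h1, e1⟩ := finA_dirS_deriv θ
  have h2 := finA_W w (θ : E3) (S2_ne_zero θ)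
  have h3 : HasFDerivAt (fun z => R * (1 + wS w.1 (dirS z))) (R • (innerSL ℝ
      (‖(θ : E3)‖⁻¹ • mkE (fun k => w.1 k.succ (toOm (dirS (θ : E3))))))) (θ : E3) :=
    (h2.const_add 1).const_mul R
  have h4 := (h3.smul h1).const_add b
  refine ⟨_, h4, fun τ => ?_⟩
  rw [dirS_S2, norm_S2]
  simp [e1]

theorem finA_mem (w : Xs) (b : E3) (R : ℝ) (z : E3) (hz : z ≠ 0) :
    b + (R * (1 + wS w.1 (dirS z))) • (‖z‖⁻¹ • z) ∈ starB b R (wS w.1) := by
  refine ⟨dirS z, ?_⟩
  rw [dirS_coe hz]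

/-- tangent vectors of the surface -/
theorem finA_tangent (w : Xs) (b : E3) (R : ℝ) (θ : S2) {L : E3 →L[ℝ] E3}
    (hL : HasFDerivAt (fun z => b + (R * (1 + wS w.1 (dirS z))) • (‖z‖⁻¹ • z)) L (θ : E3))
    (τ : E3) : L τ ∈ tangentConeAt ℝ (starB b R (wS w.1)) (b + (R * (1 + wS w.1 θ)) • (θ : E3)) := by
  have h1 := (hL.hasFDerivWithinAt (s := ({0}ᶜ : Set E3))).mapsTo_tangent_cone
  have h2 : tangentConeAt ℝ ({0}ᶜ : Set E3) (θ : E3) = univ :=
    tangentConeAt_of_mem_nhds (isOpen_compl_singleton.mem_nhds (S2_ne_zero θ))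
  rw [h2] at h1
  have h3 := h1 (mem_univ τ)
  beta_reduce at h3
  rw [dirS_S2, norm_S2, inv_one, one_smul] at h3
  refine tangentConeAt_mono ?_ h3
  rintro _ ⟨z, hz, rfl⟩
  exact finA_mem w b R z hz

/-- covectors annihilating the tangent vectors are multiples of one of them -/
theorem finA_ann {w : Xs} {R : ℝ} {θ : S2} {L : E3 →L[ℝ] E3} (hR : R ≠ 0)
    (h1 : 1 + wS w.1 θ ≠ 0)
    (hL : ∀ τ, L τ = (R * (1 + wS w.1 θ)) • (τ - (inner ℝ (θ : E3) τ) • (θ : E3)) +
      (R * inner ℝ (mkE fun k => w.1 k.succ (toOm θ)) τ) • (θ : E3)) (a : E3)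
    (ha : ∀ τ, inner ℝ a (L τ) = 0) :
    a = (inner ℝ a (θ : E3)) • ((θ : E3) -
      (1 + wS w.1 θ)⁻¹ • (mkE fun k => w.1 k.succ (toOm θ))) := by
  apply ext_inner_right ℝ
  intro τ
  have h2 := ha τ
  rw [hL τ, inner_add_right, inner_smul_right, inner_smul_right, inner_sub_right,
    inner_smul_right] at h2
  rw [inner_smul_left, inner_sub_left, inner_smul_left]
  simp only [RCLike.conj_to_real]
  have h3 : (1 + wS w.1 θ) * (inner ℝ a τ - inner ℝ (θ : E3) τ * inner ℝ a (θ : E3)) +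
      inner ℝ (mkE fun k => w.1 k.succ (toOm θ)) τ * inner ℝ a (θ : E3) = 0 := by
    have h4 : R * ((1 + wS w.1 θ) * (inner ℝ a τ - inner ℝ (θ : E3) τ * inner ℝ a (θ : E3)) +
      inner ℝ (mkE fun k => w.1 k.succ (toOm θ)) τ * inner ℝ a (θ : E3)) = 0 := by
      rw [← h2]; ring
    exact (mul_eq_zero.1 h4).resolve_left hR
  field_simp
  linarith

/-- matrix computation: `(p · A p) / det A` for `A = √g g⁻¹` -/
theorem finA_bq {M A : M3} {s : ℝ} (hs : 0 < s) (hM : det3 M = s ^ 2)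
    (hA : ∀ i j, A i j = s * (Matrix.of M)⁻¹ i j) (n a p : E3)
    (hsym : ∀ i j, M i j = M j i)
    (ha : ∀ j, a j = ∑ i, M i j * n i) (hn : inner ℝ a n = (1 : ℝ)) (l : ℝ) (hp : p = l • a) :
    bq A p = l ^ 2 := by
  have hdet : (Matrix.of M).det = s ^ 2 := hM
  have hu : IsUnit (Matrix.of M).det := by
    rw [hdet]; exact (pow_ne_zero 2 hs.ne').isUnit
  have hAm : Matrix.of A = s • (Matrix.of M)⁻¹ := by
    ext i j; simp [hA]
  have hdA : det3 A = s := by
    show (Matrix.of A).det = s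
    rw [hAm, Matrix.det_smul, Matrix.det_nonsing_inv, hdet, Fintype.card_fin,
      Ring.inverse_eq_inv']
    have := hs.ne'
    field_simp
  -- `M⁻¹ a = n`
  have hinv : ∀ i, ∑ j, (Matrix.of M)⁻¹ i j * a j = n i := by
    intro i
    have h1 : Matrix.mulVec (Matrix.of M)⁻¹ (Matrix.mulVec (Matrix.of M) (fun i => n i)) i = n i := by
      rw [Matrix.mulVec_mulVec, Matrix.nonsing_inv_mul _ hu, Matrix.one_mulVec]
    rw [← h1]
    simp only [Matrix.mulVec, dotProduct]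
    refine Finset.sum_congr rfl fun j _ => ?_
    rw [ha j]
    congr 1
    refine Finset.sum_congr rfl fun k _ => ?_
    rw [hsym k j]
    rfl
  have hnum : ∑ i, ∑ j, A i j * p i * p j = s * l ^ 2 := by
    have h2 : ∑ i, ∑ j, A i j * p i * p j =
        s * l ^ 2 * ∑ i, a i * ∑ j, (Matrix.of M)⁻¹ i j * a j := by
      simp only [hA, hp, Finset.mul_sum]
      refine Finset.sum_congr rfl fun i _ => Finset.sum_congr rfl fun j _ => ?_
      simp only [PiLp.smul_apply, smul_eq_mul]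
      ring
    rw [h2]
    simp only [hinv]
    rw [← tra_inner, hn, mul_one]
  unfold bq
  rw [hnum, hdA]
  have := hs.ne'
  field_simp

/-! ### the potential in rescaled coordinates -/

theorem finA_const {H : E3 → M3} {w : Xs} (h1 : SolLS H w) (h2 : ∀ i, kap H w i = 0) (θ : S2) :
    Gam (w.1, cmp H w.1) (toOm θ) =
      (4 * Real.pi)⁻¹ * ∫ η : S2, Gam (w.1, cmp H w.1) (toOm η) ∂sig := by
  have h3 := PiP_apply (Gam (w.1, cmp H w.1)) θ
  have h4 : (PiP (Gam (w.1, cmp H w.1)) : Y) = 0 := by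
    have : PiP (Gam (w.1, cmp H w.1)) = 0 := h1
    rw [this]; rfl
  rw [h4] at h3
  have h5 : ∑ i, (θ : E3) i * ∫ η : S2, (η : E3) i * Gam (w.1, cmp H w.1) (toOm η) ∂sig = 0 := by
    refine Finset.sum_eq_zero fun i _ => ?_
    have := h2 i
    unfold kap at this
    rw [this, mul_zero]
  rw [h5] at h3
  simp only [Y.zero_apply] at h3
  linarith

theorem finA_mY_zero : mY 0 0 = 0 := by
  have he : eY (0 : Fin 4 → Y) = 1 := by simp [eY]
  have hq : ∀ k, qY (0 : Fin 4 → Y) k = 0 := fun k => by simp [qY]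
  funext i j
  simp only [mY, aY, he, hq, Ring.inverse_one, mul_zero, sub_zero, one_mul, Pi.zero_apply,
    add_zero]
  have : ∑ k : Fin 3, ∑ l : Fin 3, (dl i k : Y) * dl k l * dl j l = dl i j := by
    simp [dl, eq_comm]
  rw [this, sub_self]

theorem finA_mY_cont : ContinuousAt (fun p : (Fin 4 → Y) × (Fin 3 → Fin 3 → Y) => mY p.1 p.2) 0 := by
  have hz : ∀ k : Fin 4, Continuous (fun p : (Fin 4 → Y) × (Fin 3 → Fin 3 → Y) => p.1 k) :=
    fun k => (continuous_apply k).comp continuous_fst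
  have hh : ∀ i j : Fin 3, Continuous (fun p : (Fin 4 → Y) × (Fin 3 → Fin 3 → Y) => p.2 i j) :=
    fun i j => (continuous_apply j).comp ((continuous_apply i).comp continuous_snd)
  have he : Continuous (fun p : (Fin 4 → Y) × (Fin 3 → Fin 3 → Y) => eY p.1) :=
    continuous_const.add (continuous_const.mul (hz 0))
  have hq : ∀ k, Continuous (fun p : (Fin 4 → Y) × (Fin 3 → Fin 3 → Y) => qY p.1 k) := fun k =>
    ((continuous_const.mul (hz 0)).mul continuous_const).add (continuous_const.mul (hz k.succ))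
  have hinv : ContinuousAt (fun p : (Fin 4 → Y) × (Fin 3 → Fin 3 → Y) => Ring.inverse (eY p.1)) 0 := by
    have h1 : eY ((0 : (Fin 4 → Y) × (Fin 3 → Fin 3 → Y)).1) = ((1 : Yˣ) : Y) := by simp [eY]
    refine ContinuousAt.comp (g := Ring.inverse) ?_ he.continuousAt
    rw [h1]
    exact NormedRing.inverse_continuousAt 1
  refine continuousAt_pi.2 fun i => continuousAt_pi.2 fun j => ?_
  refine ContinuousAt.sub (hinv.mul ?_) continuousAt_const
  refine Continuous.continuousAt ?_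
  refine continuous_finsetSum _ fun k _ => continuous_finsetSum _ fun l _ => ?_
  exact (((he.mul continuous_const).sub (continuous_const.mul (hq k))).mul
    (continuous_const.add (hh k l))).mul ((he.mul continuous_const).sub
      (continuous_const.mul (hq l)))

theorem finA_mY_small (δ' : ℝ) (hδ' : 0 < δ') : ∃ δ'' > 0, ∀ (z : Fin 4 → Y)
    (h : Fin 3 → Fin 3 → Y), ‖z‖ < δ'' → ‖h‖ < δ'' → ‖mY z h‖ < δ' := by
  obtain ⟨d, hd, h1⟩ := Metric.continuousAt_iff.1 finA_mY_cont δ' hδ'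
  refine ⟨d, hd, fun z h hz hh => ?_⟩
  have h2 := h1 (x := (z, h)) (by
    rw [dist_zero_right, Prod.norm_def]
    exact max_lt hz hh)
  have h3 : mY (0 : (Fin 4 → Y) × (Fin 3 → Fin 3 → Y)).1
      (0 : (Fin 4 → Y) × (Fin 3 → Fin 3 → Y)).2 = 0 := finA_mY_zero
  rw [h3, dist_zero_right] at h2
  exact h2

theorem finA_isOpen_Ext : IsOpen Ext := isOpen_lt continuous_const continuous_norm

/-- the coefficient field in rescaled coordinates -/
def finAA (H : E3 → M3) : E3 → M3 := fun x i j => dl i j + H x i j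

theorem finA_setup {δ ε₀ C c : ℝ} (hc : LSConst δ ε₀ C c) : ∃ ε₁ : ℝ, 0 < ε₁ ∧
    ∀ (H : E3 → M3) (w : Xs), (∀ i j, ContDiff ℝ ∞ (fun x => H x i j)) → ‖w‖ ≤ ε₁ →
    (∀ i j, SB2 ε₁ (fun x => H x i j)) →
    ContDiffOn ℝ ∞ (fun x => wS w.1 (dirS x)) {0}ᶜ →
    SolLS H w → (∀ i, kap H w i = 0) →
    IsOpen (starR 0 1 (wS w.1))ᶜ ∧ (∀ θ, |wS w.1 θ| ≤ 1 / 2) ∧
    ∃ (u : E3 → ℝ) (G : E3 → E3) (c₀ : ℝ), IsPot (finAA H) (starR 0 1 (wS w.1))ᶜ u G ∧
      (∀ x ∈ (starR 0 1 (wS w.1))ᶜ, 0 < u x) ∧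
      ContDiffOn ℝ ∞ u (starR 0 1 (wS w.1))ᶜ ∧
      ∀ θ : S2, bq (finAA H ((1 + wS w.1 θ) • (θ : E3))) (G ((1 + wS w.1 θ) • (θ : E3))) = c₀ := by
  obtain ⟨δP, hδP, hpar⟩ := par_pot
  obtain ⟨δD, hδD, hPsi⟩ := Psi_homeo
  obtain ⟨δG, hδG, hGs⟩ := Gam_small
  obtain ⟨δS, hδS, hbs⟩ := base_smooth
  obtain ⟨δB, hδB, hbe⟩ := base_ell
  obtain ⟨δM, hδM, hmy⟩ := finA_mY_small (min δS δB) (lt_min hδS hδB)
  have hC := hc.C_pos
  have hδ := hc.δ_pos
  obtain ⟨d, hd0, hd1, hd2, hd3, hd4, hd5, hd6⟩ : ∃ d : ℝ, 0 < d ∧ d ≤ δ ∧ d ≤ δP ∧ d ≤ δD ∧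
      d < δG ∧ d < δM ∧ d ≤ 1 / 2 := by
    refine ⟨min (min (min δ δP) (min δD (δG / 2))) (min (δM / 2) (1 / 2)), by positivity, ?_, ?_,
      ?_, ?_, ?_, ?_⟩
    · exact (min_le_left _ _).trans ((min_le_left _ _).trans (min_le_left _ _))
    · exact (min_le_left _ _).trans ((min_le_left _ _).trans (min_le_right _ _))
    · exact (min_le_left _ _).trans ((min_le_right _ _).trans (min_le_left _ _))
    · have h1 : min (min (min δ δP) (min δD (δG / 2))) (min (δM / 2) (1 / 2)) ≤ δG / 2 :=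
        (min_le_left _ _).trans ((min_le_right _ _).trans (min_le_right _ _))
      linarith
    · have h1 : min (min (min δ δP) (min δD (δG / 2))) (min (δM / 2) (1 / 2)) ≤ δM / 2 :=
        (min_le_right _ _).trans (min_le_left _ _)
      linarith
    · exact (min_le_right _ _).trans (min_le_right _ _)
  refine ⟨min d (d / C), by positivity, ?_⟩
  intro H w hH hw hSB hws hsol hkap
  have hwd : ‖w‖ ≤ d := hw.trans (min_le_left _ _)
  have hε0 : 0 ≤ min d (d / C) := by positivity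
  have hCε : C * min d (d / C) ≤ d := by
    have h1 : min d (d / C) ≤ d / C := min_le_right _ _
    have h2 : C * min d (d / C) ≤ C * (d / C) := mul_le_mul_of_nonneg_left h1 hC.le
    rwa [mul_div_cancel₀ _ hC.ne'] at h2
  obtain ⟨hcn, hcv⟩ := hc.cmpH H _ hε0 hSB w (hwd.trans hd1)
  have hcn' : ‖cmp H w.1‖ ≤ d := hcn.trans hCε
  have hwn : ‖w.1‖ ≤ d := hwd
  obtain ⟨Φ, hΦ, hGD, hfix, hhalf, hball, hExt⟩ := hPsi w (hwd.trans hd3)
  have hAH : (fun x i j => finAA H x i j - dl i j) = H := by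
    funext x i j
    simp [finAA]
  have hHc : ∀ i j, Continuous (fun x => H x i j) := fun i j => (hH i j).continuous
  have hAc : Continuous (finAA H) :=
    continuous_pi fun i => continuous_pi fun j => continuous_const.add (hHc i j)
  obtain ⟨u, G, hpot, hpos, hell, hdet, hbq⟩ := hpar w (finAA H) Φ hGD hΦ hAc.continuousOn
    (hwd.trans hd2) (by rw [hAH]; exact hcn'.trans hd2) (by
      rw [hAH]; intro i j x; rw [hcv]; simp [finAA])
  rw [hAH] at hbq
  obtain ⟨he, hdetu, hmn, hinv, hZ, hZs⟩ := hGs w.1 (cmp H w.1) (hwn.trans_lt hd4)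
    (hcn'.trans_lt hd4)
  have hPB := PB_Psi (w := w) (A := finAA H) hΦ (by
    rw [hAH]; intro i j x; rw [hcv]; simp [finAA]) he
  rw [hAH] at hPB
  have hsubE : Ext ⊆ {x : E3 | 1 ≤ ‖x‖} := by
    intro x hx
    have h1 : 1 < ‖x‖ := hx
    exact h1.le
  have hcomap := hpot.comap Φ hGD one_pos finA_isOpen_Ext (fun y hy => hPB y (hsubE hy))
  have hbase := base_pot (mY w.1 (cmp H w.1)) hmn _ hZ
  have hms := hmy w.1 (cmp H w.1) (hwn.trans_lt hd5) (hcn'.trans_lt hd5)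
  have hellE := (hbe _ (hms.trans_le (min_le_right _ _))).1
  have huniq := IsPot.unique finA_isOpen_Ext ⟨0, by simp [Ext]⟩ hellE hcomap hbase
  have hsm := hbs Ext (mY w.1 (cmp H w.1)) finA_isOpen_Ext subset_rfl
    (hms.trans_le (min_le_left _ _)) (finA_msmooth w H hH hws he hcv) _ hZ
  have hbound : ∀ θ, |wS w.1 θ| ≤ 1 / 2 := by
    intro θ
    have h1 : |w.1 0 (toOm θ)| ≤ ‖w.1 0‖ := (w.1 0).abs_apply_le _
    have h2 : ‖w.1 0‖ ≤ ‖w.1‖ := norm_le_pi_norm w.1 0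
    exact h1.trans (h2.trans (hwn.trans hd6))
  have hopen : IsOpen (Φ '' Ext) := Φ.isOpen_image.2 finA_isOpen_Ext
  rw [hExt] at hopen hpot hpos
  refine ⟨hopen, hbound, u, G, (4 * Real.pi)⁻¹ * ∫ η : S2, Gam (w.1, cmp H w.1) (toOm η) ∂sig,
    hpot, hpos, ?_, ?_⟩
  · -- smoothness
    rw [← hExt]
    rintro _ ⟨y, hy, rfl⟩
    have hy0 : y ≠ 0 := by
      rintro rfl
      simp only [Ext, mem_ofPred_eq, norm_zero] at hy
      linarith
    obtain ⟨L, hL⟩ := tra_equiv hGD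
    have h1 : ContDiffAt ℝ ∞ Φ.symm (Φ y) := by
      have := Φ.toOpenPartialHomeomorph.contDiffAt_symm (n := ∞) (f₀' := L y) (a := Φ y)
        (mem_univ _) (by
          have h2 : Φ.toOpenPartialHomeomorph.symm (Φ y) = y := Φ.symm_apply_apply y
          rw [h2, hL]
          exact tra_hasFDerivAt hGD y) (by
          have h2 : Φ.toOpenPartialHomeomorph.symm (Φ y) = y := Φ.symm_apply_apply y
          rw [h2]
          have h3 : ContDiffAt ℝ ∞ (Psi (wS w.1)) y :=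
            (finA_Psi w hws).contDiffAt (isOpen_compl_singleton.mem_nhds hy0)
          exact h3.congr_of_eventuallyEq (Eventually.of_forall hΦ))
      exact this
    have h4 : ContDiffAt ℝ ∞ (fun x => 1 - 1 / ‖x‖ + oext (Nu (Mop (mY w.1 (cmp H w.1))
        (thY + ZZ TT (mY w.1 (cmp H w.1))))) x / ‖x‖) (Φ.symm (Φ y)) := by
      rw [Φ.symm_apply_apply]
      exact hsm.contDiffAt (finA_isOpen_Ext.mem_nhds hy)
    have h5 := h4.comp (Φ y) h1
    refine ContDiffAt.contDiffWithinAt (h5.congr_of_eventuallyEq ?_)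
    have hopen' : IsOpen (Φ '' Ext) := Φ.isOpen_image.2 finA_isOpen_Ext
    filter_upwards [hopen'.mem_nhds (mem_image_of_mem Φ hy)] with x hx
    obtain ⟨z, hz, rfl⟩ := hx
    have h6 := huniq.1 z (subset_closure hz)
    simp only [Function.comp_apply, Φ.symm_apply_apply] at h6 ⊢
    exact h6
  · intro θ
    have h1 := hbq θ
    rw [finA_const hsol hkap θ] at h1
    have h2 : Φ θ = (1 + wS w.1 θ) • (θ : E3) := by
      rw [hΦ, Psi, norm_S2, dirS_S2, chi_eq_one (by norm_num) (by norm_num), one_mul]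
    rw [h2] at h1
    exact h1

/-! ### scaling -/

/-- the rescaling `x ↦ (x - b) / R` -/
def finAT (b : E3) (R : ℝ) (hR : R ≠ 0) : E3 ≃ₜ E3 :=
  (Homeomorph.addRight (-b)).trans (Homeomorph.smulOfNeZero R⁻¹ (inv_ne_zero hR))

theorem finAT_apply (b : E3) (R : ℝ) (hR : R ≠ 0) (x : E3) :
    finAT b R hR x = R⁻¹ • (x - b) := by
  simp [finAT, sub_eq_add_neg]

theorem finAT_deriv (b : E3) (R : ℝ) (hR : R ≠ 0) (x : E3) :
    HasFDerivAt (finAT b R hR) (R⁻¹ • ContinuousLinearMap.id ℝ E3) x := by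
  have h1 : HasFDerivAt (fun x : E3 => R⁻¹ • (x - b)) (R⁻¹ • ContinuousLinearMap.id ℝ E3) x :=
    ((hasFDerivAt_id x).sub_const b).const_smul R⁻¹
  have h2 : (finAT b R hR : E3 → E3) = fun x : E3 => R⁻¹ • (x - b) :=
    funext (finAT_apply b R hR)
  rw [h2]
  exact h1

theorem finAT_smooth (b : E3) (R : ℝ) (hR : R ≠ 0) : ContDiff ℝ ∞ (finAT b R hR) := by
  have h2 : (finAT b R hR : E3 → E3) = fun x : E3 => R⁻¹ • (x - b) :=
    funext (finAT_apply b R hR)
  rw [h2]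
  exact (contDiff_id.sub contDiff_const).const_smul _

theorem finAT_back (b : E3) (R : ℝ) (hR : R ≠ 0) (x : E3) : b + R • finAT b R hR x = x := by
  rw [finAT_apply, smul_smul, mul_inv_cancel₀ hR, one_smul]
  abel

theorem finA_star (b : E3) (R : ℝ) (hR : R ≠ 0) (w : S2 → ℝ) (x : E3) :
    x ∈ starR b R w ↔ finAT b R hR x ∈ starR 0 1 w := by
  rw [finAT_apply]
  constructor
  · rintro ⟨s, θ, h0, h1, rfl⟩
    refine ⟨s, θ, h0, h1, ?_⟩
    rw [add_sub_cancel_left, smul_smul, zero_add]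
    congr 1
    field_simp
  · rintro ⟨s, θ, h0, h1, h2⟩
    refine ⟨s, θ, h0, h1, ?_⟩
    have h3 : x = b + R • (R⁻¹ • (x - b)) := by
      rw [smul_smul, mul_inv_cancel₀ hR, one_smul]; abel
    rw [h3, h2, zero_add, smul_smul]
    congr 2
    ring

theorem finA_pd_comp (b : E3) (R : ℝ) (hR : R ≠ 0) (f : E3 → ℝ) (j : Fin 3) (x : E3)
    (hf : DifferentiableAt ℝ f (finAT b R hR x)) :
    pd j (fun y => f (finAT b R hR y)) x = R⁻¹ * pd j f (finAT b R hR x) := by
  unfold pd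
  have h1 := hf.hasFDerivAt.comp x (finAT_deriv b R hR x)
  have h2 : HasFDerivAt (fun y => f (finAT b R hR y)) ((fderiv ℝ f (finAT b R hR x)).comp
    (R⁻¹ • ContinuousLinearMap.id ℝ E3)) x := h1
  rw [h2.fderiv]
  simp

theorem finA_gh {g : E3 → M3} {x : E3} (hx : 3 ≤ ‖x‖) : gh g x = g x := by
  have h1 : eta ‖x‖ = 1 := by
    unfold eta
    exact Real.smoothTransition.one_of_one_le (by linarith)
  funext i j
  simp only [gh, hh, h1, one_mul]
  ring

theorem finA_coef {g : E3 → M3} {b : E3} {R : ℝ} (hR : R ≠ 0) {x : E3} (hx : 3 ≤ ‖x‖)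
    (i j : Fin 3) : finAA (HbR (HA g) b R) (finAT b R hR x) i j = sqg g x * ginv g x i j := by
  have h1 := finA_gh (g := g) hx
  simp only [finAA, HbR, finAT_back, HA, Ag]
  have h2 : sqg (gh g) x = sqg g x := by simp only [sqg, h1]
  have h3 : ginv (gh g) x i j = ginv g x i j := by simp only [ginv, h1]
  rw [h2, h3]
  ring

/-- derivative of the potential in the outward direction is nonnegative -/
theorem finA_nonneg {u : E3 → ℝ} {du : E3 →L[ℝ] ℝ} {D : Set E3} {x n : E3}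
    (hx : u x = 0) (hpos : ∀ y ∈ D, 0 < u y) (hd : HasFDerivWithinAt u du (closure D) x)
    (hn : ∀ᶠ t in 𝓝[>] (0 : ℝ), x + t • n ∈ D) : 0 ≤ du n := by
  let s : Set ℝ := {t | 0 < t ∧ x + t • n ∈ D}
  have hγ : HasDerivWithinAt (fun t : ℝ => x + t • n) n s 0 := by
    have := ((hasDerivAt_id (0 : ℝ)).smul_const n).const_add x
    simp only [one_smul] at this
    exact this.hasDerivWithinAt
  have hd' : HasFDerivWithinAt u du (closure D) ((fun t : ℝ => x + t • n) 0) := by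
    simpa using hd
  have h1 : HasDerivWithinAt (u ∘ fun t : ℝ => x + t • n) (du n) s 0 :=
    hd'.comp_hasDerivWithinAt 0 hγ (fun t ht => subset_closure ht.2)
  rw [hasDerivWithinAt_iff_tendsto_slope] at h1
  have h2 : s ∈ 𝓝[>] (0 : ℝ) := by
    filter_upwards [hn, self_mem_nhdsWithin] with t ht ht0
    exact ⟨ht0, ht⟩
  have h3 : (𝓝[s \ {0}] (0 : ℝ)).NeBot := by
    have h4 : 𝓝[>] (0 : ℝ) ≤ 𝓝[s \ {0}] (0 : ℝ) := by
      rw [nhdsWithin_le_iff]
      filter_upwards [h2] with t ht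
      exact ⟨ht, fun h0 => by
        rw [mem_singleton_iff] at h0
        exact absurd ht.1 (by rw [h0]; exact lt_irrefl 0)⟩
    exact NeBot.mono inferInstance h4
  refine ge_of_tendsto h1 ?_
  filter_upwards [self_mem_nhdsWithin] with t ht
  have ht1 : 0 < t := ht.1.1
  have h5 : 0 < u (x + t • n) := hpos _ ht.1.2
  simp only [slope, vsub_eq_sub, Function.comp_apply, zero_smul, add_zero, sub_zero, hx,
    smul_eq_mul]
  positivity

theorem finA_lap {g : E3 → M3} {b : E3} {R : ℝ} (hR : R ≠ 0) {S : Set E3} {D : Set E3}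
    {u : E3 → ℝ} (hS : IsOpen Sᶜ) (hSD : ∀ x, x ∈ Sᶜ → finAT b R hR x ∈ D) (hD : IsOpen D)
    (h3 : ∀ x ∈ Sᶜ, 3 ≤ ‖x‖)
    (hsm : ContDiffOn ℝ ∞ u D)
    (hA : ∀ i j, ContDiff ℝ ∞ (fun x => finAA (HbR (HA g) b R) x i j))
    (hcl : ∀ y ∈ D, ∑ i, pd i (fun z => ∑ j, finAA (HbR (HA g) b R) z i j * pd j u z) y = 0)
    (x : E3) (hx : x ∈ Sᶜ) : lapB g (fun x => u (finAT b R hR x)) x = 0 := by
  have hud : ∀ y ∈ D, DifferentiableAt ℝ u y := fun y hy =>
    (hsm.contDiffAt (hD.mem_nhds hy)).differentiableAt (by simp)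
  have hpds : ∀ j, ContDiffOn ℝ ∞ (fun z => pd j u z) D := fun j =>
    (hsm.fderiv_of_isOpen hD (by simp)).clm_apply contDiffOn_const
  have hQ : ∀ i, ∀ y ∈ D, DifferentiableAt ℝ
      (fun z => ∑ j, finAA (HbR (HA g) b R) z i j * pd j u z) y := by
    intro i y hy
    have h1 : ContDiffOn ℝ ∞ (fun z => ∑ j, finAA (HbR (HA g) b R) z i j * pd j u z) D :=
      ContDiffOn.sum fun j _ => (hA i j).contDiffOn.mul (hpds j)
    exact (h1.contDiffAt (hD.mem_nhds hy)).differentiableAt (by simp)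
  have key : ∀ i, pd i (fun y => sqg g y * ∑ j, ginv g y i j *
      pd j (fun x => u (finAT b R hR x)) y) x =
      R⁻¹ * (R⁻¹ * pd i (fun z => ∑ j, finAA (HbR (HA g) b R) z i j * pd j u z)
        (finAT b R hR x)) := by
    intro i
    have h1 : (fun y => sqg g y * ∑ j, ginv g y i j * pd j (fun x => u (finAT b R hR x)) y)
        =ᶠ[𝓝 x] fun y => R⁻¹ * (fun z => ∑ j, finAA (HbR (HA g) b R) z i j * pd j u z)
          (finAT b R hR y) := by
      filter_upwards [hS.mem_nhds hx] with y hy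
      simp only [finA_coef hR (h3 y hy)]
      rw [Finset.mul_sum, Finset.mul_sum]
      refine Finset.sum_congr rfl fun j _ => ?_
      rw [finA_pd_comp b R hR u j y (hud _ (hSD y hy))]
      ring
    have h2 : pd i (fun y => sqg g y * ∑ j, ginv g y i j *
        pd j (fun x => u (finAT b R hR x)) y) x = pd i (fun y => R⁻¹ *
        (fun z => ∑ j, finAA (HbR (HA g) b R) z i j * pd j u z) (finAT b R hR y)) x := by
      unfold pd
      unfold pd at h1
      rw [h1.fderiv_eq]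
    rw [h2, ← finA_pd_comp b R hR _ i x (hQ i _ (hSD x hx))]
    have h4 : DifferentiableAt ℝ (fun y => (fun z => ∑ j, finAA (HbR (HA g) b R) z i j *
        pd j u z) (finAT b R hR y)) x :=
      (hQ i _ (hSD x hx)).comp x (finAT_deriv b R hR x).differentiableAt
    have h5 := h4.hasFDerivAt.const_mul R⁻¹
    show fderiv ℝ _ x (bv i) = R⁻¹ * fderiv ℝ _ x (bv i)
    rw [h5.fderiv]
    rfl
  unfold lapB
  rw [Finset.sum_congr rfl fun i _ => key i, ← Finset.mul_sum, ← Finset.mul_sum,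
    hcl _ (hSD x hx)]
  simp

/-- a radial graph with smooth data whose potential has constant `bq` is a Bernoulli surface -/
theorem fin_bernoulli {δ ε₀ C c : ℝ} (hc : LSConst δ ε₀ C c) : ∃ ε₁ : ℝ, 0 < ε₁ ∧
    ∀ {q : ℝ} {g : E3 → M3}, AFMetric q g → ∀ (b : E3) (R : ℝ) (w : Xs),
    8 ≤ R → ‖b‖ ≤ R / 8 → ‖w‖ ≤ ε₁ → (∀ i j, SB2 ε₁ (fun x => HbR (HA g) b R x i j)) →
    ContDiffOn ℝ ∞ (fun x => wS w.1 (dirS x)) {0}ᶜ →
    SolLS (HbR (HA g) b R) w → (∀ i, kap (HbR (HA g) b R) w i = 0) →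
    IsCompact (starR b R (wS w.1)) → IsConnected (starR b R (wS w.1))ᶜ →
    frontier (starR b R (wS w.1)) = starB b R (wS w.1) →
    Metric.closedBall 0 3 ⊆ interior (starR b R (wS w.1)) →
    IsBernoulli g (starR b R (wS w.1)) := by
  obtain ⟨ε₁, hε₁, hset⟩ := finA_setup hc
  refine ⟨ε₁, hε₁, ?_⟩
  intro q g hg b R w hR8 hb hw hSB hws hsol hkap hcomp hconn hfr hball
  have hR : R ≠ 0 := by linarith
  have hR0 : 0 < R := by linarith
  have hHAs := HA_smooth hg
  have hHs : ∀ i j, ContDiff ℝ ∞ (fun x => HbR (HA g) b R x i j) := by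
    intro i j
    have h1 : ContDiff ℝ ∞ (fun x : E3 => b + R • x) :=
      contDiff_const.add (contDiff_id.const_smul R)
    exact (hHAs.1 i j).comp h1
  obtain ⟨hopen, hbound, u₁, G₁, c₀, hpot, hpos, hsm, hbq⟩ :=
    hset (HbR (HA g) b R) w hHs hw hSB hws hsol hkap
  have hAs : ∀ i j, ContDiff ℝ ∞ (fun x => finAA (HbR (HA g) b R) x i j) := fun i j =>
    contDiff_const.add (hHs i j)
  set S := starR b R (wS w.1) with hS
  set D := (starR 0 1 (wS w.1))ᶜ with hD
  set T := finAT b R hR with hT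
  have hSD : ∀ x, x ∈ Sᶜ ↔ T x ∈ D := fun x => not_congr (finA_star b R hR (wS w.1) x)
  have hpre : T ⁻¹' D = Sᶜ := by ext x; exact (hSD x).symm
  have hSopen : IsOpen Sᶜ := by rw [← hpre]; exact hopen.preimage T.continuous
  have hcl : closure Sᶜ = T ⁻¹' closure D := by rw [← hpre, T.preimage_closure]
  have hfrD : frontier S = T ⁻¹' frontier D := by
    rw [← frontier_compl, ← hpre, T.preimage_frontier]
  have h3 : ∀ x ∈ closure Sᶜ, 3 < ‖x‖ := by
    intro x hx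
    rw [closure_compl] at hx
    by_contra hle
    rw [not_lt] at hle
    exact hx (hball (by simpa using hle))
  have hTd := finAT_deriv b R hR
  have hgradx : ∀ x ∈ closure Sᶜ, HasFDerivWithinAt (fun x => u₁ (T x))
      (R⁻¹ • innerSL ℝ (G₁ (T x))) (closure Sᶜ) x := by
    intro x hx
    rw [hcl] at hx
    have h4 := hpot.grad (T x) hx
    have h5 := h4.comp x (hTd x).hasFDerivWithinAt (s := closure Sᶜ) (by
      rw [hcl]; exact fun z hz => hz)
    have h6 : R⁻¹ • innerSL ℝ (G₁ (T x)) =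
        (innerSL ℝ (G₁ (T x))).comp (R⁻¹ • ContinuousLinearMap.id ℝ E3) := by
      ext v
      simp
    rw [h6]
    exact h5
  refine ⟨hcomp, ?_, hconn, ?_⟩
  · refine subset_trans ?_ hball
    exact Metric.closedBall_subset_closedBall (by norm_num)
  refine ⟨fun x => u₁ (T x), fun x => R⁻¹ • innerSL ℝ (G₁ (T x)), R⁻¹ * Real.sqrt c₀,
    ?_, ?_, ?_, ?_, ?_, ?_, ?_⟩
  · exact hsm.comp (finAT_smooth b R hR).contDiffOn (fun x hx => (hSD x).1 hx)
  · intro x hx
    exact finA_lap hR hSopen (fun x hx => (hSD x).1 hx) hopen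
      (fun x hx => (h3 x (subset_closure hx)).le) hsm hAs
      (fun y hy => weak_classical hopen (fun i j => (hAs i j).contDiffOn) hsm hpot y hy) x hx
  · -- limit at infinity
    obtain ⟨B, hB⟩ := hpot.decay
    have hev : ∀ᶠ x in Bornology.cobounded E3, x ∈ Sᶜ := by
      have := hcomp.isBounded
      exact Bornology.isBounded_def.1 this
    have hlim : Tendsto (fun x : E3 => |B| / (R⁻¹ * (‖x‖ - ‖b‖))) (Bornology.cobounded E3) (𝓝 0) := by
      refine Tendsto.const_div_atTop ?_ _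
      refine Tendsto.const_mul_atTop (inv_pos.2 hR0) ?_
      exact tendsto_atTop_add_const_right _ _ tendsto_norm_cobounded_atTop
    have hev2 : ∀ᶠ x in Bornology.cobounded E3, ‖b‖ < ‖x‖ :=
      tendsto_norm_cobounded_atTop.eventually_gt_atTop ‖b‖
    have hz : Tendsto (fun x => u₁ (T x) - 1) (Bornology.cobounded E3) (𝓝 0) := by
      refine squeeze_zero_norm' ?_ hlim
      filter_upwards [hev, hev2] with x hx hxb
      have h4 := (hB (T x) ((hSD x).1 hx)).1
      rw [Real.norm_eq_abs]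
      have h5 : R⁻¹ * (‖x‖ - ‖b‖) ≤ ‖T x‖ := by
        rw [hT, finAT_apply, norm_smul, Real.norm_of_nonneg (inv_pos.2 hR0).le]
        exact mul_le_mul_of_nonneg_left (norm_sub_norm_le x b) (inv_pos.2 hR0).le
      have h6 : 0 < R⁻¹ * (‖x‖ - ‖b‖) := mul_pos (inv_pos.2 hR0) (by linarith)
      calc |u₁ (T x) - 1| ≤ B / (1 + ‖T x‖) := h4
        _ ≤ |B| / (1 + ‖T x‖) := by gcongr; exact le_abs_self B
        _ ≤ |B| / (R⁻¹ * (‖x‖ - ‖b‖)) := by
          apply div_le_div_of_nonneg_left (abs_nonneg _) h6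
          linarith
    have := hz.add_const 1
    simpa using this
  · intro x hx
    rw [hfrD] at hx
    exact hpot.zero _ hx
  · exact fun x hx => hgradx x hx
  · have h4 : ContinuousOn (fun x => G₁ (T x)) (closure Sᶜ) :=
      hpot.gcont.comp T.continuous.continuousOn (by rw [hcl]; exact fun z hz => hz)
    exact ((innerSL ℝ).continuous.comp_continuousOn h4).const_smul R⁻¹
  · intro x hx n hn
    have hxcl : x ∈ closure Sᶜ := by
      rw [← frontier_compl] at hx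
      exact frontier_subset_closure hx
    have hx3 := h3 x hxcl
    have hxz : u₁ (T x) = 0 := by
      rw [hfrD] at hx
      exact hpot.zero _ hx
    have hxB : x ∈ starB b R (wS w.1) := by rw [← hfr]; exact hx
    obtain ⟨θ, hθ⟩ := hxB
    have hTx : T x = (1 + wS w.1 θ) • (θ : E3) := by
      rw [hT, finAT_apply, hθ, add_sub_cancel_left, smul_smul]
      congr 1
      field_simp
    obtain ⟨L, hL1, hL2⟩ := finA_F w b R θ
    have hw1 : 1 + wS w.1 θ ≠ 0 := by
      have := abs_le.1 (hbound θ)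
      linarith [this.1]
    -- the two covectors
    let a : E3 := mkE (fun j => ∑ i, g x i j * n i)
    have han : inner ℝ a n = (1 : ℝ) := by
      rw [tra_inner, ← hn.unit]
      simp only [a, mkE_apply, Finset.sum_mul]
      rw [Finset.sum_comm]
    have haL : ∀ τ, inner ℝ a (L τ) = 0 := by
      intro τ
      have h4 := finA_tangent w b R θ hL1 τ
      rw [← hθ, ← hfr] at h4
      have h5 := hn.normal _ h4
      rw [tra_inner, ← h5]
      simp only [a, mkE_apply, Finset.sum_mul]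
      rw [Finset.sum_comm]
    have hpL : ∀ τ, inner ℝ (G₁ (T x)) (L τ) = 0 := by
      intro τ
      have h4 : HasFDerivWithinAt (fun z => b + (R * (1 + wS w.1 (dirS z))) • (‖z‖⁻¹ • z)) L
          ({0}ᶜ : Set E3) (θ : E3) := hL1.hasFDerivWithinAt
      have hval : (fun z : E3 => b + (R * (1 + wS w.1 (dirS z))) • (‖z‖⁻¹ • z)) (θ : E3) = x := by
        beta_reduce
        rw [dirS_S2, norm_S2, inv_one, one_smul, hθ]
      have hmaps : MapsTo (fun z : E3 => b + (R * (1 + wS w.1 (dirS z))) • (‖z‖⁻¹ • z))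
          ({0}ᶜ : Set E3) (closure Sᶜ) := by
        intro z hz
        have h5 := finA_mem w b R z hz
        rw [← hfr, ← frontier_compl] at h5
        exact frontier_subset_closure h5
      have h6 : HasFDerivWithinAt (fun x => u₁ (T x)) (R⁻¹ • innerSL ℝ (G₁ (T x))) (closure Sᶜ)
          ((fun z : E3 => b + (R * (1 + wS w.1 (dirS z))) • (‖z‖⁻¹ • z)) (θ : E3)) := by
        rw [hval]; exact hgradx x hxcl
      have h7 := h6.comp (θ : E3) h4 hmaps
      have h8 : HasFDerivWithinAt ((fun x => u₁ (T x)) ∘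
          fun z : E3 => b + (R * (1 + wS w.1 (dirS z))) • (‖z‖⁻¹ • z)) (0 : E3 →L[ℝ] ℝ)
          ({0}ᶜ : Set E3) (θ : E3) := by
        have h5 : ∀ z ∈ ({0}ᶜ : Set E3), ((fun x => u₁ (T x)) ∘
            fun z : E3 => b + (R * (1 + wS w.1 (dirS z))) • (‖z‖⁻¹ • z)) z = 0 := by
          intro z hz
          have h5 := finA_mem w b R z hz
          rw [← hfr, hfrD] at h5
          exact hpot.zero _ h5
        exact (hasFDerivWithinAt_const (0 : ℝ) (θ : E3) ({0}ᶜ : Set E3)).congr h5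
          (h5 _ (S2_ne_zero θ))
      have hopen0 : IsOpen ({0}ᶜ : Set E3) := isOpen_compl_singleton
      have h9 := (h7.hasFDerivAt (hopen0.mem_nhds (S2_ne_zero θ))).unique
        (h8.hasFDerivAt (hopen0.mem_nhds (S2_ne_zero θ)))
      have h10 := congrArg (fun (F : E3 →L[ℝ] ℝ) => F τ) h9
      simp only [ContinuousLinearMap.comp_apply, smul_apply,
        innerSL_apply_apply, zero_apply, smul_eq_mul] at h10
      exact (mul_eq_zero.1 h10).resolve_left (inv_ne_zero hR)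
    have ea := finA_ann hR hw1 hL2 a haL
    have ep := finA_ann hR hw1 hL2 (G₁ (T x)) hpL
    have ha0 : inner ℝ a (θ : E3) ≠ 0 := by
      intro h0
      rw [h0, zero_smul] at ea
      rw [ea, inner_zero_left] at han
      exact zero_ne_one han
    set l : ℝ := inner ℝ (G₁ (T x)) (θ : E3) / inner ℝ a (θ : E3) with hl
    have hpl : G₁ (T x) = l • a := by
      have e1 : inner ℝ (G₁ (T x)) (θ : E3) = l * inner ℝ a (θ : E3) := by
        rw [hl]; field_simp
      rw [e1, mul_smul, ← ea] at ep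
      exact ep
    have hgp := gh_pos hg
    have hghx := finA_gh (g := g) hx3.le
    have hdet : 0 < det3 (g x) := by
      have := hgp.1 x
      rwa [hghx] at this
    have hbqx := hbq θ
    rw [← hTx] at hbqx
    have hbql := finA_bq (M := g x) (A := finAA (HbR (HA g) b R) (T x)) (s := sqg g x)
      (Real.sqrt_pos.2 hdet) (by unfold sqg; rw [Real.sq_sqrt hdet.le])
      (fun i j => finA_coef hR hx3.le i j) n a (G₁ (T x))
      (fun i j => hg.symm x (by linarith) i j) (fun j => rfl) han l hpl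
    rw [hbqx] at hbql
    have hdu : (R⁻¹ • innerSL ℝ (G₁ (T x))) n = R⁻¹ * l := by
      simp only [smul_apply, innerSL_apply_apply, smul_eq_mul]
      rw [hpl, inner_smul_left, han]
      simp
    have hnn := finA_nonneg (u := fun x => u₁ (T x)) (x := x) (n := n) (D := Sᶜ) hxz
      (fun y hy => hpos _ ((hSD y).1 hy)) (hgradx x hxcl) hn.outward
    rw [hdu] at hnn ⊢
    have hl0 : 0 ≤ l := by
      have := (mul_nonneg_iff_of_pos_left (inv_pos.2 hR0)).1 hnn
      exact this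
    rw [hbql, Real.sqrt_sq hl0]

end

end Pool.Agent.BS
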