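import Pool.Agent.BS.Ker1

/-!
# Module KER2: Poisson kernel, estimates
-/

namespace Pool.Agent.BS

open MeasureTheory Topology Set Filter
open scoped ContDiff Pointwise

noncomputable section


/-! ### Cross product with a basis vector -/

theorem ker2_cx_eq (k : Fin 3) (x : E3) :
    mkE (cr (fun a => (bv k) a) (fun a => x a)) =
      mkE (fun i => if k = 0 then ![0, -x 2, x 1] i else if k = 1 then ![x 2, 0, -x 0] i
        else ![-x 1, x 0, 0] i) := by
  ext i
  fin_cases k <;> fin_cases i <;>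
    simp [cr, eps, bv, Fin.sum_univ_three]

theorem ker2_inner (x y : E3) : inner ℝ x y = x 0 * y 0 + x 1 * y 1 + x 2 * y 2 := by
  rw [PiLp.inner_apply, Fin.sum_univ_three]
  simp [mul_comm]

theorem ker2_normsq (x : E3) : ‖x‖ ^ 2 = x 0 ^ 2 + x 1 ^ 2 + x 2 ^ 2 := by
  rw [EuclideanSpace.norm_sq_eq, Fin.sum_univ_three]
  simp [sq_abs]

/-- `e_k × x` -/
def cxL (k : Fin 3) : E3 →L[ℝ] E3 := LinearMap.toContinuousLinearMap
  { toFun := fun x => mkE (cr (fun a => (bv k) a) (fun a => x a))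
    map_add' := fun x y => by
      ext i
      fin_cases k <;> fin_cases i <;> simp [cr, eps, bv, Fin.sum_univ_three] <;> ring
    map_smul' := fun c x => by
      ext i
      fin_cases k <;> fin_cases i <;> simp [cr, eps, bv, Fin.sum_univ_three] }

theorem cxL_apply (k : Fin 3) (x : E3) :
    cxL k x = mkE (cr (fun a => (bv k) a) (fun a => x a)) := rfl

/-- rotation about `e_k` by the angle `s` -/
def rotF (k : Fin 3) (s : ℝ) (x : E3) : E3 :=
  Real.cos s • x + Real.sin s • cxL k x + ((1 - Real.cos s) * x k) • bv k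

theorem rotF_norm (k : Fin 3) (s : ℝ) (x : E3) : ‖rotF k s x‖ = ‖x‖ := by
  have h : ‖rotF k s x‖ ^ 2 = ‖x‖ ^ 2 := by
    have hcs := Real.sin_sq_add_cos_sq s
    rw [ker2_normsq, ker2_normsq]
    simp only [rotF, cxL_apply, ker2_cx_eq]
    fin_cases k <;> simp [bv] <;> 
      first
      | linear_combination (x 1 ^ 2 + x 2 ^ 2) * hcs
      | linear_combination (x 0 ^ 2 + x 2 ^ 2) * hcs
      | linear_combination (x 0 ^ 2 + x 1 ^ 2) * hcs
  nlinarith [norm_nonneg (rotF k s x), norm_nonneg x, sq_nonneg (‖rotF k s x‖ - ‖x‖),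
    sq_nonneg (‖rotF k s x‖ + ‖x‖)]

/-- rotation as a linear isometry -/
def rotI (k : Fin 3) (s : ℝ) : E3 ≃ₗᵢ[ℝ] E3 :=
  LinearIsometry.toLinearIsometryEquiv
    { toFun := rotF k s
      map_add' := fun x y => by
        simp only [rotF, map_add, smul_add, PiLp.add_apply, mul_add, add_smul]
        abel
      map_smul' := fun c x => by
        simp only [rotF, map_smul, PiLp.smul_apply, smul_eq_mul, RingHom.id_apply, smul_add,
          smul_smul]
        ring_nf
      norm_map' := rotF_norm k s } rfl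

theorem rotI_apply (k : Fin 3) (s : ℝ) (x : E3) : rotI k s x = rotF k s x := rfl

theorem rotF_zero (k : Fin 3) (x : E3) : rotF k 0 x = x := by
  simp [rotF]

theorem rotF_deriv (k : Fin 3) (s : ℝ) (x : E3) :
    HasDerivAt (fun s => rotF k s x) (cxL k (rotF k s x)) s := by
  have h1 : HasDerivAt (fun s => rotF k s x)
      ((-Real.sin s) • x + Real.cos s • cxL k x + ((0 - (-Real.sin s)) * x k) • bv k) s := by
    unfold rotF
    exact (((Real.hasDerivAt_cos s).smul_const x).add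
      ((Real.hasDerivAt_sin s).smul_const _)).add
      ((((hasDerivAt_const s (1 : ℝ)).sub (Real.hasDerivAt_cos s)).mul_const (x k)).smul_const _)
  refine h1.congr_deriv ?_
  simp only [cxL_apply, ker2_cx_eq, rotF]
  ext i
  fin_cases k <;> fin_cases i <;> simp [bv] <;> ring



theorem ker2_ne {x : E3} (hx : ‖x‖ < 1) (η : S2) : x - (η : E3) ≠ 0 := by
  intro h
  have := sub_eq_zero.1 h
  rw [this, norm_S2] at hx
  exact lt_irrefl _ hx

theorem ker2_dist {x : E3} (η : S2) : 1 - ‖x‖ ≤ ‖x - (η : E3)‖ := by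
  have h := norm_sub_norm_le (η : E3) x
  rw [norm_S2, norm_sub_rev] at h
  exact h

/-- gradient of the Poisson kernel -/
def pkG (x : E3) (η : S2) : E3 :=
  -((2 / (4 * Real.pi * ‖x - (η : E3)‖ ^ 3)) • x) -
    (3 * (1 - ‖x‖ ^ 2) / (4 * Real.pi * ‖x - (η : E3)‖ ^ 5)) • (x - (η : E3))

theorem pk_hasFDerivAt (x : E3) (η : S2) (h : x - (η : E3) ≠ 0) :
    HasFDerivAt (fun y => pk y η) (innerSL ℝ (pkG x η)) x := by
  have hN : ‖x - (η : E3)‖ ≠ 0 := norm_ne_zero_iff.2 h
  have hNp : 0 < ‖x - (η : E3)‖ := norm_pos_iff.2 h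
  -- derivative of the norm
  have h1 : HasFDerivAt (fun y : E3 => ‖y - (η : E3)‖ ^ 2) (2 • innerSL ℝ (x - (η : E3))) x := by
    have := ((hasFDerivAt_id x).sub_const (η : E3)).norm_sq
    simpa using this
  have h2 : HasFDerivAt (fun y : E3 => ‖y - (η : E3)‖)
      ((‖x - (η : E3)‖)⁻¹ • innerSL ℝ (x - (η : E3))) x := by
    have h3 := h1.sqrt (by positivity)
    have h4 : (fun y : E3 => Real.sqrt (‖y - (η : E3)‖ ^ 2)) = fun y : E3 => ‖y - (η : E3)‖ := by
      funext y
      exact Real.sqrt_sq (norm_nonneg _)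
    rw [h4] at h3
    refine h3.congr_fderiv ?_
    rw [Real.sqrt_sq (norm_nonneg _)]
    ext v
    simp
    field_simp
  have h5 : HasDerivAt (fun r : ℝ => (4 * Real.pi * r ^ 3)⁻¹)
      (-(4 * Real.pi * (3 * ‖x - (η : E3)‖ ^ 2)) / (4 * Real.pi * ‖x - (η : E3)‖ ^ 3) ^ 2)
      (‖x - (η : E3)‖) := by
    have hp : HasDerivAt (fun r : ℝ => 4 * Real.pi * r ^ 3)
        (4 * Real.pi * (3 * ‖x - (η : E3)‖ ^ 2)) (‖x - (η : E3)‖) := by
      simpa using (hasDerivAt_pow 3 (‖x - (η : E3)‖)).const_mul (4 * Real.pi)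
    exact hp.inv (by positivity)
  have h6 := h5.comp_hasFDerivAt x h2
  have h7 : HasFDerivAt (fun y : E3 => 1 - ‖y‖ ^ 2) (-(2 • innerSL ℝ x)) x := by
    have := (hasFDerivAt_id x).norm_sq.const_sub 1
    simpa using this
  have h8 := h7.mul h6
  have h9 : (fun y => pk y η) = fun y => (1 - ‖y‖ ^ 2) * ((fun r : ℝ => (4 * Real.pi * r ^ 3)⁻¹) ∘
      fun y : E3 => ‖y - (η : E3)‖) y := by
    funext y
    simp [pk, div_eq_mul_inv]
  rw [h9]
  refine h8.congr_fderiv ?_
  ext v
  simp only [pkG, _root_.add_apply, _root_.smul_apply, innerSL_apply_apply,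
    smul_eq_mul, _root_.neg_apply, Function.comp_apply, inner_sub_left, inner_neg_left,
    real_inner_smul_left, nsmul_eq_mul]
  field_simp
  ring

theorem ker2_continuous_pk_right {x : E3} (hx : ‖x‖ < 1) : Continuous (fun η : S2 => pk x η) := by
  have hne : ∀ η : S2, ‖x - (η : E3)‖ ≠ 0 := fun η => norm_ne_zero_iff.2 (ker2_ne hx η)
  have hpi := Real.pi_pos.ne'
  have hc : Continuous (fun η : S2 => ‖x - (η : E3)‖) := by fun_prop
  unfold pk
  exact continuous_const.div (continuous_const.mul (hc.pow 3))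
    (fun η => mul_ne_zero (mul_ne_zero (by norm_num) hpi) (pow_ne_zero 3 (hne η)))

theorem ker2_continuous_pkG_right {x : E3} (hx : ‖x‖ < 1) : Continuous (fun η : S2 => pkG x η) := by
  have hne : ∀ η : S2, ‖x - (η : E3)‖ ≠ 0 := fun η => norm_ne_zero_iff.2 (ker2_ne hx η)
  have hpi := Real.pi_pos.ne'
  have hc : Continuous (fun η : S2 => ‖x - (η : E3)‖) := by fun_prop
  unfold pkG
  have h1 : Continuous (fun η : S2 => 2 / (4 * Real.pi * ‖x - (η : E3)‖ ^ 3)) :=
    continuous_const.div (continuous_const.mul (hc.pow 3))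
      (fun η => mul_ne_zero (mul_ne_zero (by norm_num) hpi) (pow_ne_zero 3 (hne η)))
  have h2 : Continuous (fun η : S2 => 3 * (1 - ‖x‖ ^ 2) / (4 * Real.pi * ‖x - (η : E3)‖ ^ 5)) :=
    continuous_const.div (continuous_const.mul (hc.pow 5))
      (fun η => mul_ne_zero (mul_ne_zero (by norm_num) hpi) (pow_ne_zero 5 (hne η)))
  exact (h1.smul continuous_const).neg.sub (h2.smul (continuous_const.sub continuous_subtype_val))

theorem ker2_pk_pos {x : E3} (hx : ‖x‖ < 1) (η : S2) : 0 < pk x η := by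
  have h1 := norm_pos_iff.2 (ker2_ne hx η)
  have h2 : 0 < 1 - ‖x‖ ^ 2 := by nlinarith [norm_nonneg x]
  have := Real.pi_pos
  unfold pk
  positivity

theorem ker2_pkG_le {x : E3} (hx : ‖x‖ < 1) (η : S2) : ‖pkG x η‖ ≤ 4 / (1 - ‖x‖) * pk x η := by
  have hN := norm_pos_iff.2 (ker2_ne hx η)
  have hd := ker2_dist (x := x) η
  have hx0 := norm_nonneg x
  have h1x : 0 < 1 - ‖x‖ := by linarith
  have h1x2 : 0 < 1 - ‖x‖ ^ 2 := by nlinarith
  have hpi := Real.pi_pos
  set N := ‖x - (η : E3)‖ with hNdef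
  have hb : ‖pkG x η‖ ≤ 2 / (4 * Real.pi * N ^ 3) * ‖x‖ +
      3 * (1 - ‖x‖ ^ 2) / (4 * Real.pi * N ^ 5) * N := by
    unfold pkG
    refine (norm_sub_le _ _).trans ?_
    rw [norm_neg, norm_smul, norm_smul, ← hNdef, Real.norm_of_nonneg (by positivity),
      Real.norm_of_nonneg (by positivity)]
  refine hb.trans ?_
  have e1 : 2 / (4 * Real.pi * N ^ 3) * ‖x‖ ≤ 1 / (1 - ‖x‖) * pk x η := by
    unfold pk
    rw [← hNdef]
    have : 1 / (1 - ‖x‖) * ((1 - ‖x‖ ^ 2) / (4 * Real.pi * N ^ 3)) =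
        (1 + ‖x‖) / (4 * Real.pi * N ^ 3) := by
      field_simp
      ring
    rw [this, div_mul_eq_mul_div]
    gcongr
    linarith
  have e2 : 3 * (1 - ‖x‖ ^ 2) / (4 * Real.pi * N ^ 5) * N ≤ 3 / (1 - ‖x‖) * pk x η := by
    unfold pk
    rw [← hNdef]
    have : 3 * (1 - ‖x‖ ^ 2) / (4 * Real.pi * N ^ 5) * N =
        3 / N * ((1 - ‖x‖ ^ 2) / (4 * Real.pi * N ^ 3)) := by
      field_simp
    rw [this]
    gcongr
  calc _ ≤ 1 / (1 - ‖x‖) * pk x η + 3 / (1 - ‖x‖) * pk x η := add_le_add e1 e2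
    _ = 4 / (1 - ‖x‖) * pk x η := by ring

theorem ker2_pk_le {x : E3} (hx : ‖x‖ < 1) (η : S2) : pk x η ≤ 1 / (1 - ‖x‖) ^ 3 := by
  have hN := norm_pos_iff.2 (ker2_ne hx η)
  have hd := ker2_dist (x := x) η
  have hx0 := norm_nonneg x
  have h1x : 0 < 1 - ‖x‖ := by linarith
  have hpi := Real.pi_gt_three
  unfold pk
  refine div_le_div₀ (by norm_num) (by nlinarith) (by positivity) ?_
  calc (1 - ‖x‖) ^ 3 ≤ ‖x - (η : E3)‖ ^ 3 := by gcongr
    _ ≤ 4 * Real.pi * ‖x - (η : E3)‖ ^ 3 := by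
        have : 0 < ‖x - (η : E3)‖ ^ 3 := by positivity
        nlinarith

theorem PE_hasFDerivAt (f : C(S2, ℝ)) (x : E3) (hx : ‖x‖ < 1) :
    HasFDerivAt (PE f) (innerSL ℝ (∫ η, f η • pkG x η ∂sig)) x ∧
      Integrable (fun η => f η • pkG x η) sig := by
  have hpos : 0 < 1 - ‖x‖ := by linarith
  set δ := (1 - ‖x‖) / 2 with hδ
  have hδpos : 0 < δ := by positivity
  have hball : ∀ y ∈ Metric.ball x δ, ‖y‖ < 1 ∧ δ ≤ 1 - ‖y‖ := by
    intro y hy
    have h1 : ‖y - x‖ < δ := by simpa [dist_eq_norm] using hy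
    have h2 : ‖y‖ ≤ ‖y - x‖ + ‖x‖ := by
      have := norm_add_le (y - x) x
      simpa using this
    constructor <;> linarith
  have hint : Integrable (fun η => f η • pkG x η) sig := by
    have hc : Continuous (fun η => f η • pkG x η) :=
      f.continuous.smul (ker2_continuous_pkG_right hx)
    obtain ⟨C, hC⟩ := isCompact_univ.exists_bound_of_continuousOn hc.continuousOn
    exact Integrable.of_bound hc.aestronglyMeasurable C
      (Eventually.of_forall (fun η => hC η (mem_univ _)))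
  refine ⟨?_, hint⟩
  have hmain := hasFDerivAt_integral_of_dominated_of_fderiv_le (𝕜 := ℝ) (μ := sig)
    (F := fun y η => pk y η * f η) (F' := fun y η => f η • innerSL ℝ (pkG y η)) (x₀ := x)
    (s := Metric.ball x δ) (bound := fun _ => ‖f‖ * (4 / δ * (1 / δ ^ 3)))
    (Metric.ball_mem_nhds x hδpos) ?_ ?_ ?_ ?_ ?_ ?_
  · have heq : (∫ η, f η • innerSL ℝ (pkG x η) ∂sig) = innerSL ℝ (∫ η, f η • pkG x η ∂sig) := by
      rw [← ContinuousLinearMap.integral_comp_comm (innerSL ℝ) hint]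
      simp
    rw [heq] at hmain
    exact hmain
  · filter_upwards [Metric.ball_mem_nhds x hδpos] with y hy
    exact ((ker2_continuous_pk_right (hball y hy).1).mul f.continuous).aestronglyMeasurable
  · have hc : Continuous (fun η => pk x η * f η) := (ker2_continuous_pk_right hx).mul f.continuous
    obtain ⟨C, hC⟩ := isCompact_univ.exists_bound_of_continuousOn hc.continuousOn
    exact Integrable.of_bound hc.aestronglyMeasurable C
      (Eventually.of_forall (fun η => hC η (mem_univ _)))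
  · exact (f.continuous.smul ((innerSL ℝ).continuous.comp
      (ker2_continuous_pkG_right hx))).aestronglyMeasurable
  · refine Eventually.of_forall (fun η y hy => ?_)
    obtain ⟨h1, h2⟩ := hball y hy
    rw [norm_smul, innerSL_apply_norm]
    have h3 := ker2_pkG_le h1 η
    have h4 := ker2_pk_le h1 η
    have h5 : 0 < 1 - ‖y‖ := by linarith
    have h6 := f.norm_coe_le_norm η
    have h7 : 4 / (1 - ‖y‖) * pk y η ≤ 4 / δ * (1 / δ ^ 3) := by
      have := ker2_pk_pos h1 η
      gcongr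
      exact h4.trans (by gcongr)
    exact mul_le_mul h6 (h3.trans h7) (norm_nonneg _) (norm_nonneg _)
  · exact integrable_const _
  · refine Eventually.of_forall (fun η y hy => ?_)
    obtain ⟨h1, h2⟩ := hball y hy
    have := (pk_hasFDerivAt y η (ker2_ne h1 η)).mul_const (f η)
    exact this


/-! ### Rotation invariance of the surface measure -/

/-- action of a linear isometry on the sphere -/
def rotS (ρ : E3 ≃ₗᵢ[ℝ] E3) (θ : S2) : S2 :=
  ⟨ρ (θ : E3), by rw [mem_sphere_zero_iff_norm, ρ.norm_map, norm_S2]⟩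

theorem rotS_coe (ρ : E3 ≃ₗᵢ[ℝ] E3) (θ : S2) : (rotS ρ θ : E3) = ρ (θ : E3) := rfl

theorem continuous_rotS (ρ : E3 ≃ₗᵢ[ℝ] E3) : Continuous (rotS ρ) :=
  Continuous.subtype_mk (ρ.continuous.comp continuous_subtype_val) _

theorem sig_rotS (ρ : E3 ≃ₗᵢ[ℝ] E3) : MeasurePreserving (rotS ρ) sig sig := by
  refine ⟨(continuous_rotS ρ).measurable, ?_⟩
  ext s hs
  rw [Measure.map_apply (continuous_rotS ρ).measurable hs]
  unfold sig
  rw [Measure.toSphere_apply' _ hs,
    Measure.toSphere_apply' _ ((continuous_rotS ρ).measurable hs)]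
  congr 1
  have hpre : (Ioo (0 : ℝ) 1 • (Subtype.val '' ((rotS ρ) ⁻¹' s)) : Set E3) =
      ρ ⁻¹' (Ioo (0 : ℝ) 1 • (Subtype.val '' s)) := by
    ext x
    simp only [Set.mem_smul, Set.mem_preimage, Set.mem_image]
    constructor
    · rintro ⟨t, ht, y, ⟨θ, hθ, rfl⟩, rfl⟩
      exact ⟨t, ht, ρ (θ : E3), ⟨rotS ρ θ, hθ, rfl⟩, by rw [map_smul]⟩
    · rintro ⟨t, ht, y, ⟨θ, hθ, rfl⟩, hx⟩
      refine ⟨t, ht, ρ.symm (θ : E3), ⟨rotS ρ.symm θ, ?_, rfl⟩, ?_⟩
      · have : rotS ρ (rotS ρ.symm θ) = θ := by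
          apply Subtype.ext
          rw [rotS_coe, rotS_coe, ρ.apply_symm_apply]
        simpa [this] using hθ
      · rw [← map_smul, hx, ρ.symm_apply_apply]
  rw [hpre]
  exact (LinearIsometryEquiv.measurePreserving ρ).measure_preimage_equiv (f := ρ.toMeasurableEquiv) _

theorem sig_integral_rotS (ρ : E3 ≃ₗᵢ[ℝ] E3) (g : S2 → ℝ) :
    ∫ θ, g (rotS ρ θ) ∂sig = ∫ θ, g θ ∂sig := by
  have he : MeasurableEmbedding (rotS ρ) := by
    have h : ∀ θ, rotS ρ.symm (rotS ρ θ) = θ := fun θ => by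
      apply Subtype.ext
      rw [rotS_coe, rotS_coe, ρ.symm_apply_apply]
    have h' : ∀ θ, rotS ρ (rotS ρ.symm θ) = θ := fun θ => by
      apply Subtype.ext
      rw [rotS_coe, rotS_coe, ρ.apply_symm_apply]
    exact (Homeomorph.measurableEmbedding ⟨⟨rotS ρ, rotS ρ.symm, h, h'⟩, continuous_rotS ρ,
      continuous_rotS ρ.symm⟩)
  exact (sig_rotS ρ).integral_comp he g

theorem pk_rotS (ρ : E3 ≃ₗᵢ[ℝ] E3) (x : E3) (η : S2) : pk (ρ x) (rotS ρ η) = pk x η := by
  unfold pk
  rw [rotS_coe, ρ.norm_map, ← map_sub, ρ.norm_map]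

theorem PE_rotS (ρ : E3 ≃ₗᵢ[ℝ] E3) (f g : C(S2, ℝ)) (hg : ∀ θ, g θ = f (rotS ρ θ)) (x : E3) :
    PE g x = PE f (ρ x) := by
  unfold PE
  rw [← sig_integral_rotS ρ (fun η => pk (ρ x) η * f η)]
  refine integral_congr_ae (Eventually.of_forall (fun η => ?_))
  simp only
  rw [pk_rotS, hg]

/-! ### The second order identity -/

theorem ker2_fderiv_comp {u : E3 → ℝ} {y : E3} (hu : ContDiffAt ℝ 2 u y) (c : E3 →L[ℝ] E3) (v : E3) :
    HasFDerivAt (fun z => fderiv ℝ u z (c z))
      ((fderiv ℝ u y).comp c + (fderiv ℝ (fderiv ℝ u) y).flip (c y)) y ∧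
    fderiv ℝ (fun z => fderiv ℝ u z (c z)) y v =
      fderiv ℝ (fderiv ℝ u) y v (c y) + fderiv ℝ u y (c v) := by
  have h1 : DifferentiableAt ℝ (fderiv ℝ u) y := by
    have : ContDiffAt ℝ 1 (fderiv ℝ u) y := hu.fderiv_right (by norm_num)
    exact this.differentiableAt (by norm_num)
  have h2 := h1.hasFDerivAt.clm_apply c.hasFDerivAt
  refine ⟨h2, ?_⟩
  rw [h2.fderiv]
  simp [add_comm]

theorem ker2_lap_id {u : E3 → ℝ} {y : E3} (hu : ContDiffAt ℝ 2 u y) :
    (∑ k, fderiv ℝ (fun z => fderiv ℝ u z (cxL k z)) y (cxL k y)) +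
      fderiv ℝ (fun z => fderiv ℝ u z z) y y + fderiv ℝ u y y =
      ‖y‖ ^ 2 * ∑ i, pd i (pd i u) y := by
  have h1 : DifferentiableAt ℝ (fderiv ℝ u) y := by
    have : ContDiffAt ℝ 1 (fderiv ℝ u) y := hu.fderiv_right (by norm_num)
    exact this.differentiableAt (by norm_num)
  have hpd : ∀ i, pd i (pd i u) y = fderiv ℝ (fderiv ℝ u) y (bv i) (bv i) := fun i => by
    have h2 := h1.hasFDerivAt.clm_apply (hasFDerivAt_const (bv i) y)
    unfold pd
    rw [h2.fderiv]
    simp
  have hE : fderiv ℝ (fun z => fderiv ℝ u z z) y y =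
      fderiv ℝ (fderiv ℝ u) y y y + fderiv ℝ u y y := by
    have := (ker2_fderiv_comp hu (ContinuousLinearMap.id ℝ E3) y).2
    simpa using this
  have hcx : ∀ k, fderiv ℝ (fun z => fderiv ℝ u z (cxL k z)) y (cxL k y) =
      fderiv ℝ (fderiv ℝ u) y (cxL k y) (cxL k y) + fderiv ℝ u y (cxL k (cxL k y)) := fun k =>
    (ker2_fderiv_comp hu (cxL k) (cxL k y)).2
  have hy : y = y 0 • bv 0 + y 1 • bv 1 + y 2 • bv 2 := by
    ext i
    fin_cases i <;> simp [bv]
  have c0 : cxL 0 y = y 1 • bv 2 - y 2 • bv 1 := by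
    rw [cxL_apply, ker2_cx_eq]; ext i; fin_cases i <;> simp [bv]
  have c1 : cxL 1 y = y 2 • bv 0 - y 0 • bv 2 := by
    rw [cxL_apply, ker2_cx_eq]; ext i; fin_cases i <;> simp [bv]
  have c2 : cxL 2 y = y 0 • bv 1 - y 1 • bv 0 := by
    rw [cxL_apply, ker2_cx_eq]; ext i; fin_cases i <;> simp [bv]
  have d0 : cxL 0 (cxL 0 y) = -(y 1 • bv 1 + y 2 • bv 2) := by
    rw [c0, cxL_apply, ker2_cx_eq]; ext i; fin_cases i <;> simp [bv]
  have d1 : cxL 1 (cxL 1 y) = -(y 0 • bv 0 + y 2 • bv 2) := by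
    rw [c1, cxL_apply, ker2_cx_eq]; ext i; fin_cases i <;> simp [bv]
  have d2 : cxL 2 (cxL 2 y) = -(y 0 • bv 0 + y 1 • bv 1) := by
    rw [c2, cxL_apply, ker2_cx_eq]; ext i; fin_cases i <;> simp [bv]
  rw [Fin.sum_univ_three, Fin.sum_univ_three, hcx, hcx, hcx, hE, hpd, hpd, hpd, d0, d1, d2, c0, c1, c2,
    ker2_normsq]
  set B := fderiv ℝ (fderiv ℝ u) y with hB
  set D := fderiv ℝ u y with hD
  have hBy : B y y = B (y 0 • bv 0 + y 1 • bv 1 + y 2 • bv 2) (y 0 • bv 0 + y 1 • bv 1 + y 2 • bv 2) := by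
    rw [← hy]
  have hDy : D y = D (y 0 • bv 0 + y 1 • bv 1 + y 2 • bv 2) := by rw [← hy]
  rw [hBy, hDy]
  simp only [map_add, map_sub, map_smul, map_neg, _root_.add_apply, _root_.sub_apply,
    _root_.smul_apply, smul_eq_mul]
  ring


/-! ### The statements of the module -/

theorem ker2_contDiffAt (f : C(S2, ℝ)) {x : E3} (hx : ‖x‖ < 1) : ContDiffAt ℝ ∞ (PE f) x :=
  (PE_smooth f).contDiffAt (Metric.isOpen_ball.mem_nhds (mem_ball_zero_iff.2 hx))

theorem ker2_ball_nhds {x : E3} (hx : ‖x‖ < 1) : {y : E3 | ‖y‖ < 1} ∈ 𝓝 x :=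
  (isOpen_lt continuous_norm continuous_const).mem_nhds hx

theorem ker2_rot_one (k : Fin 3) {x : E3} (hx : ‖x‖ < 1) : fderiv ℝ (PE 1) x (cxL k x) = 0 := by
  have h1 : ∀ s, PE 1 (rotF k s x) = PE 1 x := fun s =>
    (PE_rotS (rotI k s) 1 1 (fun _ => rfl) x).symm
  have h2 : HasDerivAt (fun s => PE 1 (rotF k s x)) (fderiv ℝ (PE 1) x (cxL k x)) 0 := by
    have h3 : HasFDerivAt (PE 1) (fderiv ℝ (PE 1) x) (rotF k 0 x) := by
      rw [rotF_zero]
      exact ((ker2_contDiffAt 1 hx).differentiableAt (by simp)).hasFDerivAt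
    have h4 := h3.comp_hasDerivAt (0 : ℝ) (rotF_deriv k 0 x)
    rw [rotF_zero] at h4
    exact h4
  have h5 : HasDerivAt (fun s => PE 1 (rotF k s x)) 0 0 := by
    have : (fun s => PE 1 (rotF k s x)) = fun _ => PE 1 x := funext h1
    rw [this]
    exact hasDerivAt_const _ _
  exact h2.unique h5

theorem ker2_euler_one {x : E3} (hx : ‖x‖ < 1) :
    fderiv ℝ (fun z => fderiv ℝ (PE 1) z z) x x + fderiv ℝ (PE 1) x x = 0 := by
  have h := ker2_lap_id (u := PE 1) (y := x) ((ker2_contDiffAt 1 hx).of_le (WithTop.coe_le_coe.mpr le_top))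
  rw [PE_harm 1 x hx, mul_zero] at h
  have h0 : ∀ k, fderiv ℝ (fun z => fderiv ℝ (PE 1) z (cxL k z)) x (cxL k x) = 0 := fun k => by
    have : (fun z => fderiv ℝ (PE 1) z (cxL k z)) =ᶠ[𝓝 x] fun _ => (0 : ℝ) := by
      filter_upwards [ker2_ball_nhds hx] with z hz
      exact ker2_rot_one k hz
    rw [this.fderiv_eq]
    simp
  simp only [h0, Finset.sum_const_zero, zero_add] at h
  exact h

theorem ker2_diff_e {x : E3} (hx : ‖x‖ < 1) :
    HasFDerivAt (fun z => fderiv ℝ (PE 1) z z) (fderiv ℝ (fun z => fderiv ℝ (PE 1) z z) x) x := by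
  have h := (ker2_fderiv_comp (u := PE 1) (y := x) ((ker2_contDiffAt 1 hx).of_le
    (WithTop.coe_le_coe.mpr le_top)) (ContinuousLinearMap.id ℝ E3) 0).1
  have h2 : HasFDerivAt (fun z => fderiv ℝ (PE 1) z z) _ x := h
  exact h2.differentiableAt.hasFDerivAt

theorem ker2_norm_smul_lt {x : E3} (hx : ‖x‖ < 1) {r : ℝ} (h0 : 0 ≤ r) (h1 : r ≤ 1) :
    ‖r • x‖ < 1 := by
  rw [norm_smul, Real.norm_of_nonneg h0]
  calc r * ‖x‖ ≤ 1 * ‖x‖ := by gcongr
    _ < 1 := by rw [one_mul]; exact hx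

theorem ker2_e_zero {x : E3} (hx : ‖x‖ < 1) : fderiv ℝ (PE 1) x x = 0 := by
  have hd : ∀ r : ℝ, 0 ≤ r → r ≤ 1 → HasDerivAt (fun r : ℝ => r * fderiv ℝ (PE 1) (r • x) (r • x)) 0 r := by
    intro r h0 h1
    have hr := ker2_norm_smul_lt hx h0 h1
    have h2 : HasDerivAt (fun r : ℝ => r • x) x r := by simpa using (hasDerivAt_id r).smul_const x
    have h3 : HasDerivAt (fun r : ℝ => fderiv ℝ (PE 1) (r • x) (r • x))
        (fderiv ℝ (fun z => fderiv ℝ (PE 1) z z) (r • x) x) r :=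
      HasFDerivAt.comp_hasDerivAt (l := fun z => fderiv ℝ (PE 1) z z) (f := fun r : ℝ => r • x) r
        (ker2_diff_e hr) h2
    have h4 := (hasDerivAt_id r).mul h3
    refine h4.congr_deriv ?_
    have h5 := ker2_euler_one hr
    have h6 : fderiv ℝ (fun z => fderiv ℝ (PE 1) z z) (r • x) (r • x) =
        r * fderiv ℝ (fun z => fderiv ℝ (PE 1) z z) (r • x) x := by
      rw [map_smul, smul_eq_mul]
    rw [h6] at h5
    simp only [id]
    linarith
  obtain ⟨c, -, hc⟩ := exists_hasDerivAt_eq_slope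
    (fun r : ℝ => r * fderiv ℝ (PE 1) (r • x) (r • x)) (fun _ => 0) zero_lt_one
    (fun r hr => (hd r hr.1 hr.2).continuousAt.continuousWithinAt)
    (fun r hr => hd r hr.1.le hr.2.le)
  simpa using hc.symm

theorem ker2_PE_zero : PE 1 0 = 1 := by
  unfold PE
  have h : ∀ η : S2, pk 0 η * (1 : C(S2, ℝ)) η = 1 / (4 * Real.pi) := fun η => by
    unfold pk
    rw [zero_sub, norm_neg, norm_S2]
    simp
  simp only [h]
  rw [integral_const, Measure.real, sig_univ, ENNReal.toReal_ofReal (by positivity), smul_eq_mul]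
  have := Real.pi_pos
  field_simp

theorem PE_one (x : E3) (hx : ‖x‖ < 1) : PE 1 x = 1 := by
  have hd : ∀ r : ℝ, 0 ≤ r → r ≤ 1 → HasDerivAt (fun r : ℝ => PE 1 (r • x))
      (fderiv ℝ (PE 1) (r • x) x) r := by
    intro r h0 h1
    have hr := ker2_norm_smul_lt hx h0 h1
    have h2 : HasDerivAt (fun r : ℝ => r • x) x r := by simpa using (hasDerivAt_id r).smul_const x
    exact (((ker2_contDiffAt 1 hr).differentiableAt (by simp)).hasFDerivAt).comp_hasDerivAt r h2
  obtain ⟨c, hc0, hc⟩ := exists_hasDerivAt_eq_slope (fun r : ℝ => PE 1 (r • x))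
    (fun r => fderiv ℝ (PE 1) (r • x) x) zero_lt_one
    (fun r hr => (hd r hr.1 hr.2).continuousAt.continuousWithinAt)
    (fun r hr => hd r hr.1.le hr.2.le)
  have h3 := ker2_e_zero (ker2_norm_smul_lt hx hc0.1.le hc0.2.le)
  rw [map_smul, smul_eq_mul] at h3
  have h4 : fderiv ℝ (PE 1) (c • x) x = 0 := (mul_eq_zero.1 h3).resolve_left hc0.1.ne'
  simp only [h4, one_smul, zero_smul, sub_zero, div_one] at hc
  have := ker2_PE_zero
  linarith

theorem ker2_int_pk {x : E3} (hx : ‖x‖ < 1) : ∫ η, pk x η ∂sig = 1 := by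
  have := PE_one x hx
  unfold PE at this
  simpa using this

theorem ker2_integrable {F : Type*} [NormedAddCommGroup F] {g : S2 → F} (hg : Continuous g) :
    Integrable g sig := by
  obtain ⟨C, hC⟩ := isCompact_univ.exists_bound_of_continuousOn hg.continuousOn
  exact Integrable.of_bound hg.aestronglyMeasurable C
    (Eventually.of_forall (fun η => hC η (mem_univ _)))

theorem PE_fderiv (f : C(S2, ℝ)) (x : E3) (hx : ‖x‖ < 1) :
    fderiv ℝ (PE f) x = innerSL ℝ (∫ η, f η • pkG x η ∂sig) := (PE_hasFDerivAt f x hx).1.fderiv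

theorem PE_fderiv_apply (f : C(S2, ℝ)) (x v : E3) (hx : ‖x‖ < 1) :
    fderiv ℝ (PE f) x v = ∫ η, f η * inner ℝ (pkG x η) v ∂sig := by
  rw [PE_fderiv f x hx, innerSL_apply_apply, real_inner_comm, ← integral_inner (PE_hasFDerivAt f x hx).2 v]
  refine integral_congr_ae (Eventually.of_forall (fun η => ?_))
  simp only
  rw [inner_smul_right, real_inner_comm]

theorem PE_grad (f : C(S2, ℝ)) (x : E3) (hx : ‖x‖ < 1) :
    ‖fderiv ℝ (PE f) x‖ ≤ 5 * ‖f‖ / (1 - ‖x‖) := by
  have h1x : 0 < 1 - ‖x‖ := by linarith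
  rw [PE_fderiv f x hx, innerSL_apply_norm]
  have hi : Integrable (fun η => 4 * ‖f‖ / (1 - ‖x‖) * pk x η) sig :=
    (ker2_integrable (ker2_continuous_pk_right hx)).const_mul _
  calc ‖∫ η, f η • pkG x η ∂sig‖ ≤ ∫ η, 4 * ‖f‖ / (1 - ‖x‖) * pk x η ∂sig := by
        refine norm_integral_le_of_norm_le hi (Eventually.of_forall (fun η => ?_))
        rw [norm_smul]
        calc ‖f η‖ * ‖pkG x η‖ ≤ ‖f‖ * (4 / (1 - ‖x‖) * pk x η) :=
              mul_le_mul (f.norm_coe_le_norm η) (ker2_pkG_le hx η) (norm_nonneg _) (norm_nonneg _)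
          _ = 4 * ‖f‖ / (1 - ‖x‖) * pk x η := by ring
    _ = 4 * ‖f‖ / (1 - ‖x‖) := by rw [integral_const_mul, ker2_int_pk hx, mul_one]
    _ ≤ 5 * ‖f‖ / (1 - ‖x‖) := by gcongr; norm_num

/-- gain for Hoelder data, tangential derivatives -/
theorem PE_hol (f : C(S2, ℝ)) (A : ℝ) (hA : 0 ≤ A)
    (hf : ∀ θ η, |f θ - f η| ≤ A * Real.sqrt (dist θ η)) (x v : E3) (hx : ‖x‖ < 1)
    (hv : inner ℝ v x = 0) :
    |fderiv ℝ (PE f) x v| ≤ 5 * A * ‖v‖ / Real.sqrt (1 - ‖x‖) := by
  have h1x : 0 < 1 - ‖x‖ := by linarith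
  have hsq : 0 < Real.sqrt (1 - ‖x‖) := Real.sqrt_pos.2 h1x
  set θ₀ := dirS x with hθ₀
  have hdist : ‖x - (θ₀ : E3)‖ = 1 - ‖x‖ := by
    by_cases h0 : x = 0
    · rw [h0, zero_sub, norm_neg, norm_S2, norm_zero, sub_zero]
    · have h2 : x - (θ₀ : E3) = (‖x‖ - 1) • (θ₀ : E3) := by
        rw [sub_smul, one_smul, hθ₀, norm_smul_dirS h0]
      rw [h2, norm_smul, norm_S2, mul_one, Real.norm_eq_abs, abs_sub_comm, abs_of_pos h1x]
  -- the derivative of PE 1 vanishes
  have hone : ∫ η, (1 : C(S2, ℝ)) η * inner ℝ (pkG x η) v ∂sig = 0 := by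
    rw [← PE_fderiv_apply 1 x v hx]
    have : PE 1 =ᶠ[𝓝 x] fun _ => (1 : ℝ) := by
      filter_upwards [ker2_ball_nhds hx] with z hz
      exact PE_one z hz
    rw [this.fderiv_eq]
    simp
  have hcont : Continuous (fun η : S2 => inner ℝ (pkG x η) v) :=
    (ker2_continuous_pkG_right hx).inner continuous_const
  have hrep : fderiv ℝ (PE f) x v = ∫ η, (f η - f θ₀) * inner ℝ (pkG x η) v ∂sig := by
    rw [PE_fderiv_apply f x v hx]
    have hi1 : Integrable (fun η => f η * inner ℝ (pkG x η) v) sig :=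
      ker2_integrable (f.continuous.mul hcont)
    have hi2 : Integrable (fun η => f θ₀ * ((1 : C(S2, ℝ)) η * inner ℝ (pkG x η) v)) sig :=
      ker2_integrable (continuous_const.mul ((1 : C(S2, ℝ)).continuous.mul hcont))
    have h3 : ∫ η, (f η - f θ₀) * inner ℝ (pkG x η) v ∂sig =
        (∫ η, f η * inner ℝ (pkG x η) v ∂sig) - f θ₀ * ∫ η, (1 : C(S2, ℝ)) η * inner ℝ (pkG x η) v ∂sig := by
      rw [← integral_const_mul]
      refine Eq.trans ?_ (integral_sub hi1 hi2)
      refine integral_congr_ae (Eventually.of_forall (fun η => ?_))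
      simp [sub_mul]
    rw [h3, hone, mul_zero, sub_zero]
  rw [hrep, ← Real.norm_eq_abs]
  have hi : Integrable (fun η => 5 * A * ‖v‖ / Real.sqrt (1 - ‖x‖) * pk x η) sig :=
    (ker2_integrable (ker2_continuous_pk_right hx)).const_mul _
  calc ‖∫ η, (f η - f θ₀) * inner ℝ (pkG x η) v ∂sig‖
      ≤ ∫ η, 5 * A * ‖v‖ / Real.sqrt (1 - ‖x‖) * pk x η ∂sig := by
        refine norm_integral_le_of_norm_le hi (Eventually.of_forall (fun η => ?_))
        have hN := norm_pos_iff.2 (ker2_ne hx η)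
        have hd := ker2_dist (x := x) η
        set N := ‖x - (η : E3)‖ with hNdef
        have hpi := Real.pi_pos
        have h1x2 : 0 < 1 - ‖x‖ ^ 2 := by nlinarith [norm_nonneg x]
        -- Hoelder bound
        have e1 : |f η - f θ₀| ≤ A * Real.sqrt (2 * N) := by
          refine (hf η θ₀).trans (mul_le_mul_of_nonneg_left (Real.sqrt_le_sqrt ?_) hA)
          calc dist η θ₀ = ‖((η : E3) - x) + (x - (θ₀ : E3))‖ := by
                rw [Subtype.dist_eq, dist_eq_norm]; congr 1; abel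
            _ ≤ ‖(η : E3) - x‖ + ‖x - (θ₀ : E3)‖ := norm_add_le _ _
            _ ≤ N + N := by rw [norm_sub_rev, hdist, ← hNdef]; linarith
            _ = 2 * N := by ring
        -- kernel bound
        have hxv : inner ℝ x v = 0 := by rw [real_inner_comm]; exact hv
        have e2 : inner ℝ (pkG x η) v = -(3 / N ^ 2 * pk x η * inner ℝ (x - (η : E3)) v) := by
          unfold pkG pk
          rw [inner_sub_left, inner_neg_left, real_inner_smul_left, real_inner_smul_left, hxv, ← hNdef]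
          field_simp
          ring
        have e3 : |inner ℝ (x - (η : E3)) v| ≤ N * ‖v‖ := abs_real_inner_le_norm _ _
        have hpk := ker2_pk_pos hx η
        have hsN : 0 < Real.sqrt N := Real.sqrt_pos.2 hN
        have hs2 : Real.sqrt 2 ≤ 5 / 3 := by
          rw [show (5 / 3 : ℝ) = Real.sqrt ((5 / 3) ^ 2) by rw [Real.sqrt_sq (by norm_num)]]
          exact Real.sqrt_le_sqrt (by norm_num)
        rw [norm_mul, Real.norm_eq_abs, Real.norm_eq_abs, e2, abs_neg, abs_mul,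
          abs_of_pos (by positivity : 0 < 3 / N ^ 2 * pk x η)]
        calc |f η - f θ₀| * (3 / N ^ 2 * pk x η * |inner ℝ (x - (η : E3)) v|)
            ≤ (A * Real.sqrt (2 * N)) * (3 / N ^ 2 * pk x η * (N * ‖v‖)) := by gcongr
          _ = 3 * A * ‖v‖ * pk x η * (Real.sqrt 2 * (Real.sqrt N / N)) := by
              rw [Real.sqrt_mul (by norm_num)]
              field_simp
          _ = 3 * A * ‖v‖ * pk x η * (Real.sqrt 2 * (1 / Real.sqrt N)) := by
              congr 2
              rw [div_eq_div_iff hN.ne' hsN.ne', Real.mul_self_sqrt hN.le, one_mul]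
          _ ≤ 3 * A * ‖v‖ * pk x η * (5 / 3 * (1 / Real.sqrt (1 - ‖x‖))) := by
              gcongr
          _ = 5 * A * ‖v‖ / Real.sqrt (1 - ‖x‖) * pk x η := by ring
    _ = 5 * A * ‖v‖ / Real.sqrt (1 - ‖x‖) := by rw [integral_const_mul, ker2_int_pk hx, mul_one]

theorem PE_bdry (f : C(S2, ℝ)) (ε : ℝ) (hε : 0 < ε) :
    ∃ r : ℝ, r < 1 ∧ ∀ s : ℝ, r < s → s < 1 → ∀ θ : S2, |PE f (s • (θ : E3)) - f θ| ≤ ε := by
  have huc : UniformContinuous f := CompactSpace.uniformContinuous_of_continuous f.continuous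
  obtain ⟨δ, hδ, hd⟩ := Metric.uniformContinuous_iff.1 huc (ε / 2) (by positivity)
  set B := 32 * ‖f‖ / δ ^ 3 with hB
  have hB0 : 0 ≤ B := by positivity
  refine ⟨max (max 0 (1 - δ / 2)) (1 - ε / (2 * (B + 1))), ?_, ?_⟩
  · refine max_lt (max_lt one_pos (by linarith)) ?_
    have : 0 < ε / (2 * (B + 1)) := by positivity
    linarith
  · intro s hs hs1 θ
    have hs0 : 0 < s := lt_of_le_of_lt ((le_max_left _ _).trans (le_max_left _ _)) hs
    have hs2 : 1 - δ / 2 < s := lt_of_le_of_lt ((le_max_right _ _).trans (le_max_left _ _)) hs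
    have hs3 : 1 - ε / (2 * (B + 1)) < s := lt_of_le_of_lt (le_max_right _ _) hs
    have hpi := Real.pi_pos
    set x : E3 := s • (θ : E3) with hx
    have hxn : ‖x‖ = s := by rw [hx, norm_smul, norm_S2, mul_one, Real.norm_of_nonneg hs0.le]
    have hx1 : ‖x‖ < 1 := by rw [hxn]; exact hs1
    have hcp := ker2_continuous_pk_right hx1
    have hrep : PE f x - f θ = ∫ η, pk x η * (f η - f θ) ∂sig := by
      have hi1 : Integrable (fun η => pk x η * f η) sig := ker2_integrable (hcp.mul f.continuous)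
      have hi2 : Integrable (fun η => pk x η * f θ) sig := ker2_integrable (hcp.mul continuous_const)
      have h1 : ∫ η, pk x η * (f η - f θ) ∂sig = PE f x - (∫ η, pk x η ∂sig) * f θ := by
        unfold PE
        rw [← integral_mul_const]
        refine Eq.trans ?_ (integral_sub hi1 hi2)
        refine integral_congr_ae (Eventually.of_forall (fun η => ?_))
        simp only
        ring
      rw [h1, ker2_int_pk hx1, one_mul]
    set D := 2 * ‖f‖ * ((1 - s ^ 2) / (4 * Real.pi * (δ / 2) ^ 3)) with hD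
    have h1s : 0 < 1 - s ^ 2 := by nlinarith
    have hD0 : 0 ≤ D := by positivity
    rw [hrep, ← Real.norm_eq_abs]
    have hi : Integrable (fun η => ε / 2 * pk x η + D) sig :=
      ((ker2_integrable hcp).const_mul _).add (integrable_const _)
    calc ‖∫ η, pk x η * (f η - f θ) ∂sig‖ ≤ ∫ η, (ε / 2 * pk x η + D) ∂sig := by
          refine norm_integral_le_of_norm_le hi (Eventually.of_forall (fun η => ?_))
          have hpk := ker2_pk_pos hx1 η
          rw [norm_mul, Real.norm_of_nonneg hpk.le, Real.norm_eq_abs]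
          by_cases hη : dist η θ < δ
          · have h2 : |f η - f θ| < ε / 2 := by
              have := hd hη
              rwa [Real.dist_eq] at this
            calc pk x η * |f η - f θ| ≤ pk x η * (ε / 2) := by gcongr
              _ ≤ ε / 2 * pk x η + D := by linarith
          · rw [not_lt] at hη
            have h2 : δ / 2 ≤ ‖x - (η : E3)‖ := by
              have h3 : dist η θ ≤ ‖x - (η : E3)‖ + ‖x - (θ : E3)‖ := by
                calc dist η θ = ‖-(x - (η : E3)) + (x - (θ : E3))‖ := by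
                      rw [Subtype.dist_eq, dist_eq_norm]; congr 1; abel
                  _ ≤ ‖-(x - (η : E3))‖ + ‖x - (θ : E3)‖ := norm_add_le _ _
                  _ = _ := by rw [norm_neg]
              have h4 : ‖x - (θ : E3)‖ = 1 - s := by
                have : x - (θ : E3) = (s - 1) • (θ : E3) := by rw [hx, sub_smul, one_smul]
                rw [this, norm_smul, norm_S2, mul_one, Real.norm_eq_abs, abs_sub_comm,
                  abs_of_pos (by linarith)]
              linarith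
            have h3 : |f η - f θ| ≤ 2 * ‖f‖ := by
              have a := f.norm_coe_le_norm η
              have b := f.norm_coe_le_norm θ
              rw [Real.norm_eq_abs] at a b
              calc |f η - f θ| ≤ |f η| + |f θ| := abs_sub _ _
                _ ≤ 2 * ‖f‖ := by linarith
            have h4 : pk x η ≤ (1 - s ^ 2) / (4 * Real.pi * (δ / 2) ^ 3) := by
              unfold pk
              rw [hxn]
              gcongr
            calc pk x η * |f η - f θ| ≤ ((1 - s ^ 2) / (4 * Real.pi * (δ / 2) ^ 3)) * (2 * ‖f‖) := by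
                  gcongr
              _ = D := by rw [hD]; ring
              _ ≤ ε / 2 * pk x η + D := by
                  have : 0 ≤ ε / 2 * pk x η := by positivity
                  linarith
      _ = ε / 2 + D * (4 * Real.pi) := by
          rw [integral_add ((ker2_integrable hcp).const_mul _) (integrable_const _),
            integral_const_mul, ker2_int_pk hx1, mul_one, integral_const, Measure.real, sig_univ,
            ENNReal.toReal_ofReal (by positivity), smul_eq_mul]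
          ring
      _ ≤ ε := by
          have h5 : D * (4 * Real.pi) = 16 * ‖f‖ / δ ^ 3 * ((1 - s) * (1 + s)) := by
            rw [hD]
            field_simp
            ring
          have h6 : (1 - s) * (1 + s) ≤ (1 - s) * 2 := by nlinarith
          have h7 : D * (4 * Real.pi) ≤ B * (1 - s) := by
            rw [h5]
            calc 16 * ‖f‖ / δ ^ 3 * ((1 - s) * (1 + s)) ≤ 16 * ‖f‖ / δ ^ 3 * ((1 - s) * 2) := by gcongr
              _ = B * (1 - s) := by rw [hB]; ring
          have h8 : B * (1 - s) ≤ ε / 2 := by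
            have h9 : 1 - s < ε / (2 * (B + 1)) := by linarith
            calc B * (1 - s) ≤ (B + 1) * (ε / (2 * (B + 1))) := by
                  have : 0 < 1 - s := by linarith
                  gcongr
                  linarith
              _ = ε / 2 := by field_simp
          linarith

end

end Pool.Agent.BS
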