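import Pool.Agent.BS.Defs3

/-!
# Unit normals of the leaves exist
-/

namespace Pool.Agent.BS

open MeasureTheory Topology Set Filter
open scoped ContDiff

noncomputable section

theorem norm_exists_dual {G : M3}
    (hpos : ∀ v : E3, v ≠ 0 → 0 < ∑ i, ∑ j, G i j * v i * v j) (p : E3 →L[ℝ] ℝ) (hp : p ≠ 0) :
    ∃ n : E3, (∑ i, ∑ j, G i j * n i * n j = 1) ∧ 0 < p n ∧
      ∀ v : E3, p v = 0 → ∑ i, ∑ j, G i j * n i * v j = 0 := by
  classical
  -- the linear map `v ↦ G v`
  let T : E3 →ₗ[ℝ] (E3 →ₗ[ℝ] ℝ) := LinearMap.mk₂ ℝ (fun a b : E3 => ∑ i, ∑ j, G i j * a i * b j)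
    (by
      intro a a' b
      simp only [PiLp.add_apply, mul_add, add_mul, Finset.sum_add_distrib])
    (by
      intro c a b
      simp only [PiLp.smul_apply, smul_eq_mul, Finset.mul_sum]
      refine Finset.sum_congr rfl fun i _ => Finset.sum_congr rfl fun j _ => ?_
      ring)
    (by
      intro a b b'
      simp only [PiLp.add_apply, mul_add, Finset.sum_add_distrib])
    (by
      intro c a b
      simp only [PiLp.smul_apply, smul_eq_mul, Finset.mul_sum]
      refine Finset.sum_congr rfl fun i _ => Finset.sum_congr rfl fun j _ => ?_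
      ring)
  have hT : ∀ a b : E3, T a b = ∑ i, ∑ j, G i j * a i * b j := fun a b => rfl
  have hinj : Function.Injective T := by
    rw [injective_iff_map_eq_zero]
    intro a ha
    by_contra hne
    have h1 := hpos a hne
    have h2 : T a a = 0 := by rw [ha]; rfl
    rw [hT] at h2
    exact absurd h2 h1.ne'
  have hsurj : Function.Surjective T := by
    have hd : Module.finrank ℝ E3 = Module.finrank ℝ (E3 →ₗ[ℝ] ℝ) :=
      (Subspace.dual_finrank_eq (K := ℝ) (V := E3)).symm
    exact (LinearMap.injective_iff_surjective_of_finrank_eq_finrank hd).mp hinj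
  obtain ⟨n0, hn0⟩ := hsurj p.toLinearMap
  have hn0' : ∀ v : E3, ∑ i, ∑ j, G i j * n0 i * v j = p v := fun v => by
    rw [← hT, hn0]; rfl
  have hne : n0 ≠ 0 := by
    rintro rfl
    apply hp
    ext v
    rw [← hn0' v]
    simp
  have hpn : 0 < p n0 := by
    rw [← hn0' n0]; exact hpos n0 hne
  have hs : 0 < Real.sqrt (p n0) := Real.sqrt_pos.mpr hpn
  refine ⟨(Real.sqrt (p n0))⁻¹ • n0, ?_, ?_, ?_⟩
  · have : ∑ i, ∑ j, G i j * ((Real.sqrt (p n0))⁻¹ • n0) i * ((Real.sqrt (p n0))⁻¹ • n0) j =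
        ((Real.sqrt (p n0))⁻¹) ^ 2 * ∑ i, ∑ j, G i j * n0 i * n0 j := by
      simp only [PiLp.smul_apply, smul_eq_mul, Finset.mul_sum]
      refine Finset.sum_congr rfl fun i _ => Finset.sum_congr rfl fun j _ => ?_
      ring
    rw [this, hn0' n0, inv_pow, Real.sq_sqrt hpn.le, inv_mul_cancel₀ hpn.ne']
  · rw [map_smul, smul_eq_mul]; positivity
  · intro v hv
    have : ∑ i, ∑ j, G i j * ((Real.sqrt (p n0))⁻¹ • n0) i * v j =
        ((Real.sqrt (p n0))⁻¹) * ∑ i, ∑ j, G i j * n0 i * v j := by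
      simp only [PiLp.smul_apply, smul_eq_mul, Finset.mul_sum]
      refine Finset.sum_congr rfl fun i _ => Finset.sum_congr rfl fun j _ => ?_
      ring
    rw [this, hn0' v, hv, mul_zero]

/-- the leaves have unit normals pointing out of the enclosed region -/
theorem exists_unitNormal {q R r : ℝ} {g : E3 → M3} (hg : AFMetric q g)
    (F : OpenPartialHomeomorph E3 E3) (hR : 0 < R) (hs : F.source = {y | R < ‖y‖})
    (ht : F.target ⊆ {x | 1 < ‖x‖})
    (h1 : ContDiffOn ℝ ∞ F F.source) (h2 : ContDiffOn ℝ ∞ F.symm F.target) (hr : R < r)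
    (hf : frontier (F '' {y | r < ‖y‖})ᶜ = F '' Metric.sphere 0 r) :
    ∀ x ∈ frontier (F '' {y | r < ‖y‖})ᶜ, ∃ n, IsUnitNormal g (F '' {y | r < ‖y‖})ᶜ x n := by
  intro x hx
  have hx' := hx
  rw [hf] at hx'
  obtain ⟨y0, hy0, rfl⟩ := hx'
  have hy0n : ‖y0‖ = r := by simpa using hy0
  have hsphere : Metric.sphere (0 : E3) r ⊆ F.source := by
    intro y hy
    rw [hs]
    have : ‖y‖ = r := by simpa using hy
    change R < ‖y‖
    rw [this]; exact hr
  have hy0s : y0 ∈ F.source := hsphere hy0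
  have hxt : F y0 ∈ F.target := F.map_source hy0s
  -- derivatives
  have hD2 : DifferentiableAt ℝ F.symm (F y0) :=
    (h2.differentiableOn (by simp)).differentiableAt (F.open_target.mem_nhds hxt)
  have hD1 : DifferentiableAt ℝ F y0 :=
    (h1.differentiableOn (by simp)).differentiableAt (F.open_source.mem_nhds hy0s)
  set D := fderiv ℝ F.symm (F y0) with hD
  set D' := fderiv ℝ F y0 with hD'
  have hcomp : D.comp D' = ContinuousLinearMap.id ℝ E3 := by
    have h3 : HasFDerivAt (fun y => F.symm (F y)) (D.comp D') y0 :=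
      hD2.hasFDerivAt.comp y0 hD1.hasFDerivAt
    have h4 : (fun y => F.symm (F y)) =ᶠ[𝓝 y0] fun y => y := by
      filter_upwards [F.open_source.mem_nhds hy0s] with y hy
      exact F.left_inv hy
    have h5 : HasFDerivAt (fun y : E3 => y) (D.comp D') y0 := h3.congr_of_eventuallyEq h4.symm
    exact h5.unique (hasFDerivAt_id y0)
  have hsy : F.symm (F y0) = y0 := F.left_inv hy0s
  -- the defining function
  have hrho : HasFDerivAt (fun z => ‖F.symm z‖ ^ 2) ((2 • (innerSL ℝ y0)).comp D) (F y0) := by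
    have h3 : HasFDerivAt (fun y : E3 => ‖y‖ ^ 2) (2 • (innerSL ℝ (F.symm (F y0)))) (F.symm (F y0)) :=
      (hasStrictFDerivAt_norm_sq (F.symm (F y0))).hasFDerivAt
    have h4 := h3.comp (F y0) hD2.hasFDerivAt
    rw [hsy] at h4
    exact h4
  set p : E3 →L[ℝ] ℝ := (2 • (innerSL ℝ y0)).comp D with hpdef
  have hy0ne : y0 ≠ 0 := by
    rintro rfl
    rw [norm_zero] at hy0n
    linarith
  have hpne : p ≠ 0 := by
    intro h0
    have h3 : p (D' y0) = 0 := by rw [h0]; rfl
    have h4 : D (D' y0) = y0 := by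
      have := congrArg (fun L : E3 →L[ℝ] E3 => L y0) hcomp
      simpa using this
    have h5 : p (D' y0) = 2 * ‖y0‖ ^ 2 := by
      rw [hpdef]
      simp only [ContinuousLinearMap.comp_apply, h4]
      simp
    rw [h5] at h3
    have : 0 < ‖y0‖ := norm_pos_iff.mpr hy0ne
    nlinarith
  have hx1 : 1 < ‖F y0‖ := ht hxt
  obtain ⟨n, hn1, hn2, hn3⟩ := norm_exists_dual (G := g (F y0)) (hg.pos _ hx1) p hpne
  refine ⟨n, hn1, ?_, ?_⟩
  · intro v hv
    apply hn3
    have hconst : HasFDerivWithinAt (fun z => ‖F.symm z‖ ^ 2) (0 : E3 →L[ℝ] ℝ)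
        (frontier (F '' {y | r < ‖y‖})ᶜ) (F y0) := by
      refine (hasFDerivWithinAt_const (r ^ 2) (F y0) _).congr ?_ ?_
      · intro z hz
        rw [hf] at hz
        obtain ⟨y, hy, rfl⟩ := hz
        change ‖F.symm (F y)‖ ^ 2 = r ^ 2
        rw [F.left_inv (hsphere hy)]
        have : ‖y‖ = r := by simpa using hy
        rw [this]
      · change ‖F.symm (F y0)‖ ^ 2 = r ^ 2
        rw [hsy, hy0n]
    have := (hrho.hasFDerivWithinAt (s := frontier (F '' {y | r < ‖y‖})ᶜ)).unique_on hconst hv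
    simpa using this
  · have hline : HasDerivAt (fun t : ℝ => ‖F.symm (F y0 + t • n)‖ ^ 2) (p n) 0 := by
      have h3 : HasDerivAt (fun t : ℝ => F y0 + t • n) n 0 := by
        simpa using ((hasDerivAt_id (0 : ℝ)).smul_const n).const_add (F y0)
      have h4 : HasFDerivAt (fun z => ‖F.symm z‖ ^ 2) p ((fun t : ℝ => F y0 + t • n) 0) := by
        simpa using hrho
      exact h4.comp_hasDerivAt (0 : ℝ) h3
    have hev1 : ∀ᶠ t in 𝓝[>] (0 : ℝ), r ^ 2 < ‖F.symm (F y0 + t • n)‖ ^ 2 := by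
      have h3 := (hasDerivAt_iff_tendsto_slope.mp hline)
      have h4 : ∀ᶠ t in 𝓝[≠] (0 : ℝ), 0 < slope (fun t : ℝ => ‖F.symm (F y0 + t • n)‖ ^ 2) 0 t :=
        h3.eventually (lt_mem_nhds hn2)
      have h5 : ∀ᶠ t in 𝓝[>] (0 : ℝ), 0 < slope (fun t : ℝ => ‖F.symm (F y0 + t • n)‖ ^ 2) 0 t :=
        h4.filter_mono (nhdsWithin_mono _ fun t (ht : 0 < t) => ht.ne')
      filter_upwards [h5, self_mem_nhdsWithin] with t h6 h7
      have h7' : 0 < t := h7
      rw [slope_def_field] at h6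
      have h8 : ‖F.symm (F y0 + (0 : ℝ) • n)‖ ^ 2 = r ^ 2 := by
        rw [zero_smul, add_zero, hsy, hy0n]
      rw [h8, sub_zero] at h6
      have := (div_pos_iff_of_pos_right h7').mp h6
      linarith
    have hev2 : ∀ᶠ t in 𝓝[>] (0 : ℝ), F y0 + t • n ∈ F.target := by
      have h3 : Tendsto (fun t : ℝ => F y0 + t • n) (𝓝 0) (𝓝 (F y0)) := by
        have : Continuous fun t : ℝ => F y0 + t • n := by fun_prop
        simpa using this.tendsto 0
      exact (h3.eventually (F.open_target.mem_nhds hxt)).filter_mono nhdsWithin_le_nhds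
    filter_upwards [hev1, hev2] with t h3 h4
    rw [compl_compl]
    refine ⟨F.symm (F y0 + t • n), ?_, F.right_inv h4⟩
    change r < ‖F.symm (F y0 + t • n)‖
    have hr0 : 0 < r := hR.trans hr
    exact lt_of_pow_lt_pow_left₀ 2 (norm_nonneg _) h3

end

end Pool.Agent.BS
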