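import Pool.Agent.BS.Fin
import Pool.Agent.BS.Norm

/-!
# Module MAN: statement on a Riemannian manifold
-/

namespace Pool.Agent.BS

open MeasureTheory Topology Set Filter
open scoped ContDiff Manifold

noncomputable section

variable {H : Type*} [TopologicalSpace H] {I : ModelWithCorners ℝ E3 H}
  {M : Type*} [TopologicalSpace M] [ChartedSpace H M]

variable {q : ℝ}

theorem man_bilin {V : Type*} [AddCommGroup V] [Module ℝ V] {b : V → V → ℝ} (hb : IsInner b)
    (D : E3 → V) (hadd : ∀ v w, D (v + w) = D v + D w) (hsmul : ∀ (a : ℝ) v, D (a • v) = a • D v)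
    (v : E3) : b (D v) (D v) = ∑ i, ∑ j, b (D (bv i)) (D (bv j)) * v i * v j := by
  have hvs : v = ∑ i, v i • bv i := by
    ext k
    fin_cases k <;> simp [bv, Fin.sum_univ_three]
  have hr : ∀ x y z, b x (y + z) = b x y + b x z := fun x y z => by
    rw [hb.symm x, hb.add_left, hb.symm y, hb.symm z]
  have hs : ∀ (a : ℝ) x y, b x (a • y) = a * b x y := fun a x y => by
    rw [hb.symm x, hb.smul_left, hb.symm y]
  conv_lhs => rw [hvs]
  simp only [Fin.sum_univ_three, hadd, hsmul, hr, hs, hb.add_left, hb.smul_left]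
  ring

theorem AFManifold.metric (X : AFManifold I M q) : AFMetric q X.gij := by
  refine ⟨?_, ?_, ?_, X.decay⟩
  · intro i j
    have h := X.smooth i j
    rw [X.inf.target_eq] at h
    exact h
  · intro x _ i j
    exact (X.g.isInner _).symm _ _
  · intro x hx v hv
    have hxt : x ∈ X.e.target := by
      show x ∈ X.inf.e.target
      rw [X.inf.target_eq]; exact hx
    have hs : X.e.symm x ∈ X.e.source := X.e.map_target hxt
    have s1 : ContMDiffOn 𝓘(ℝ, E3) I ∞ X.e.symm X.e.target := X.inf.smooth_symm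
    have s2 : ContMDiffOn I 𝓘(ℝ, E3) ∞ X.e X.e.source := X.inf.smooth
    have hd1 : MDifferentiableAt 𝓘(ℝ, E3) I X.e.symm x :=
      (s1.contMDiffAt (X.e.open_target.mem_nhds hxt)).mdifferentiableAt (by simp)
    have hd2 : MDifferentiableAt I 𝓘(ℝ, E3) X.e (X.e.symm x) :=
      (s2.contMDiffAt (X.e.open_source.mem_nhds hs)).mdifferentiableAt (by simp)
    have hv' : mfderiv 𝓘(ℝ, E3) I X.e.symm x v ≠ 0 := by
      intro h0
      apply hv
      have h1 : mfderiv 𝓘(ℝ, E3) 𝓘(ℝ, E3) (X.e ∘ X.e.symm) x =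
          (mfderiv I 𝓘(ℝ, E3) X.e (X.e.symm x)).comp (mfderiv 𝓘(ℝ, E3) I X.e.symm x) :=
        mfderiv_comp x hd2 hd1
      have h2 : (X.e ∘ X.e.symm) =ᶠ[𝓝 x] id := by
        filter_upwards [X.e.open_target.mem_nhds hxt] with y hy
        exact X.e.right_inv hy
      rw [h2.mfderiv_eq, mfderiv_id] at h1
      have h3 := congrArg (fun L => L v) h1
      simp only [ContinuousLinearMap.comp_apply] at h3
      rw [h0, map_zero] at h3
      exact h3
    have hpos := (X.g.isInner (X.e.symm x)).pos (mfderiv 𝓘(ℝ, E3) I X.e.symm x v) hv'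
    have hexp : X.g.inn (X.e.symm x) (mfderiv 𝓘(ℝ, E3) I X.e.symm x v)
        (mfderiv 𝓘(ℝ, E3) I X.e.symm x v) = ∑ i, ∑ j, X.gij x i j * v i * v j :=
      man_bilin (X.g.isInner (X.e.symm x)) (fun v => mfderiv 𝓘(ℝ, E3) I X.e.symm x v)
        (fun v w => map_add _ v w) (fun a v => map_smul _ a v) v
    rw [← hexp]
    exact hpos

theorem AFManifold.target_eq (X : AFManifold I M q) : X.e.target = {x | 1 < ‖x‖} :=
  X.inf.target_eq

theorem AFManifold.isCompact_core (X : AFManifold I M q) :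
    ∀ ρ, 1 < ρ → IsCompact {p | p ∈ X.e.source → ‖X.e p‖ ≤ ρ} := X.inf.isCompact_core

theorem AFManifold.isOpen_core (X : AFManifold I M q) :
    ∀ ρ, 1 < ρ → IsOpen {p | p ∈ X.e.source → ‖X.e p‖ < ρ} := X.inf.isOpen_core

section topo

theorem man_closed (X : AFManifold I M q) {Z : Set E3} {ρ : ℝ} (hρ : 1 < ρ)
    (hZ : IsClosed Z) (hZt : Z ⊆ {x | ρ ≤ ‖x‖}) : IsClosed (X.e.symm '' Z) := by
  have ht : Z ⊆ X.e.target := by
    intro x hx
    rw [X.target_eq]
    exact lt_of_lt_of_le hρ (hZt hx)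
  have heq : (X.e.symm '' Z)ᶜ = {p | p ∈ X.e.source → ‖X.e p‖ < ρ} ∪
      (X.e.source ∩ X.e ⁻¹' Zᶜ) := by
    ext p
    constructor
    · intro hp
      by_cases hs : p ∈ X.e.source
      · right
        refine ⟨hs, fun hz => hp ⟨X.e p, hz, X.e.left_inv hs⟩⟩
      · left
        exact fun h => absurd h hs
    · rintro (hp | hp)
      · rintro ⟨x, hx, rfl⟩
        have h1 := hp (X.e.map_target (ht hx))
        rw [X.e.right_inv (ht hx)] at h1
        have h2 : ρ ≤ ‖x‖ := hZt hx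
        linarith
      · rintro ⟨x, hx, rfl⟩
        have h1 : X.e (X.e.symm x) ∈ Zᶜ := hp.2
        rw [X.e.right_inv (ht hx)] at h1
        exact h1 hx
  rw [← isOpen_compl_iff, heq]
  exact (X.isOpen_core ρ hρ).union
    (X.e.isOpen_inter_preimage hZ.isOpen_compl)

/-- the compact subset of `M` given by a compact subset of `E3` containing a neighbourhood of the
unit ball -/
theorem man_transfer (X : AFManifold I M q) {A' : Set E3}
    (hA : IsCompact A') (hb : Metric.closedBall 0 1 ⊆ interior A') :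
    IsCompact (X.e.symm '' A'ᶜ)ᶜ ∧ X.e.sourceᶜ ⊆ interior (X.e.symm '' A'ᶜ)ᶜ ∧
      frontier (X.e.symm '' A'ᶜ)ᶜ = X.e.symm '' frontier A' ∧
      X.e '' (X.e.symm '' A'ᶜ) = A'ᶜ ∧ A'ᶜ ⊆ X.e.target := by
  obtain ⟨δ, hδ, hδ2⟩ := (isCompact_closedBall (0 : E3) 1).exists_cthickening_subset_open
    isOpen_interior hb
  rw [cthickening_closedBall hδ.le zero_le_one] at hδ2
  have hs : (1 : ℝ) < δ + 1 := by linarith
  have hU : A'ᶜ ⊆ {x | δ + 1 < ‖x‖} := by
    intro x hx
    by_contra hlt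
    apply hx
    exact interior_subset (hδ2 (by rw [mem_closedBall_zero_iff]; exact not_lt.mp hlt))
  have hUo : IsOpen A'ᶜ := hA.isClosed.isOpen_compl
  have ht : A'ᶜ ⊆ X.e.target := by
    intro x hx
    rw [X.target_eq]
    exact hs.trans (hU hx)
  have hcl' : closure A'ᶜ ⊆ {x | δ + 1 ≤ ‖x‖} :=
    closure_minimal (hU.trans fun x hx => le_of_lt (show δ + 1 < ‖x‖ from hx))
      (isClosed_le continuous_const continuous_norm)
  have hcl : closure A'ᶜ ⊆ X.e.target := by
    intro x hx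
    rw [X.target_eq]
    exact lt_of_lt_of_le hs (hcl' hx)
  have hinj : InjOn X.e.symm X.e.target := X.e.symm.injOn
  have himo : IsOpen (X.e.symm '' A'ᶜ) := X.e.symm.isOpen_image_of_subset_source hUo ht
  have hclo : IsClosed (X.e.symm '' closure A'ᶜ) := man_closed X hs isClosed_closure hcl'
  have hclosure : closure (X.e.symm '' A'ᶜ) = X.e.symm '' closure A'ᶜ := by
    apply subset_antisymm
    · exact closure_minimal (image_mono subset_closure) hclo
    · rintro _ ⟨x, hx, rfl⟩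
      have hc : ContinuousAt X.e.symm x := X.e.symm.continuousAt (hcl hx)
      exact mem_closure_image hc hx
  refine ⟨?_, ?_, ?_, ?_, ht⟩
  · have heq : (X.e.symm '' A'ᶜ)ᶜ = {p | p ∈ X.e.source → ‖X.e p‖ ≤ δ + 1} ∪
        X.e.symm '' (A' ∩ {x | δ + 1 ≤ ‖x‖}) := by
      ext p
      constructor
      · intro hp
        by_cases hp2 : p ∈ X.e.source → ‖X.e p‖ ≤ δ + 1
        · left; exact hp2
        · right
          push Not at hp2
          refine ⟨X.e p, ⟨?_, hp2.2.le⟩, X.e.left_inv hp2.1⟩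
          by_contra hxA
          exact hp ⟨X.e p, hxA, X.e.left_inv hp2.1⟩
      · rintro (hp | hp)
        · rintro ⟨x, hx, rfl⟩
          have h1 := hp (X.e.map_target (ht hx))
          rw [X.e.right_inv (ht hx)] at h1
          have h2 : δ + 1 < ‖x‖ := hU hx
          linarith
        · obtain ⟨x, ⟨hx1, hx2⟩, rfl⟩ := hp
          rintro ⟨y, hy, hxy⟩
          have hxt : x ∈ X.e.target := by
            rw [X.target_eq]
            exact lt_of_lt_of_le hs hx2
          have := hinj (ht hy) hxt hxy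
          subst this
          exact hy hx1
    rw [heq]
    apply (X.isCompact_core _ hs).union
    have hc : IsCompact (A' ∩ {x : E3 | δ + 1 ≤ ‖x‖}) :=
      hA.inter_right (isClosed_le continuous_const continuous_norm)
    apply hc.image_of_continuousOn
    apply X.e.symm.continuousOn.mono
    intro x hx
    change x ∈ X.e.target
    rw [X.target_eq]
    exact lt_of_lt_of_le hs hx.2
  · rw [interior_compl, hclosure]
    apply compl_subset_compl.mpr
    rintro _ ⟨x, hx, rfl⟩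
    exact X.e.map_target (hcl hx)
  · rw [frontier_compl, frontier, hclosure, himo.interior_eq]
    rw [← frontier_compl A', frontier, hUo.interior_eq]
    exact ((hinj.mono hcl).image_sdiff_subset subset_closure).symm
  · rw [image_image]
    ext x
    constructor
    · rintro ⟨y, hy, rfl⟩
      change X.e (X.e.symm y) ∈ A'ᶜ
      rw [X.e.right_inv (ht hy)]
      exact hy
    · intro hx
      exact ⟨x, hx, X.e.right_inv (ht hx)⟩

end topo

/-- **Main theorem.** -/
theorem bernoulli_foliation_manifold_aux {m r₀ : ℝ} (hq : 1 / 2 < q) (X : AFManifold I M q)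
    (hs : IntegrableOn (scal X.gij) {x | r₀ < ‖x‖})
    (hm : Tendsto (massFlux X.gij) atTop (𝓝 m)) (hm0 : m ≠ 0) :
    ∃ (K : Set M) (R : ℝ) (F : OpenPartialHomeomorph E3 M), IsCompact K ∧ 0 < R ∧
      F.source = {y | R < ‖y‖} ∧ F.target = Kᶜ ∧ IsDiffeo I F ∧
      ∀ r, R < r → X.IsBernoulli (F '' {y | r < ‖y‖})ᶜ ∧
        frontier (F '' {y | r < ‖y‖})ᶜ = F '' Metric.sphere 0 r := by
  obtain ⟨R, F, hR, hFs, hFt, hFc, hF1, hF2, hF⟩ := bernoulli_foliation hq X.metric hs hm hm0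
  -- restrict to |y| > R + 1
  have hopen : IsOpen {y : E3 | R + 1 < ‖y‖} := isOpen_lt continuous_const continuous_norm
  have hsub : {y : E3 | R + 1 < ‖y‖} ⊆ F.source := by
    intro y hy
    rw [hFs]
    have hy' : R + 1 < ‖y‖ := hy
    change R < ‖y‖
    linarith
  have hFt' : F.target ⊆ X.e.target := by rw [X.target_eq]; exact hFt
  let Ψ : OpenPartialHomeomorph E3 M := (F.restrOpen _ hopen).trans X.e.symm
  have hΨs : Ψ.source = {y | R + 1 < ‖y‖} := by
    ext y
    simp only [Ψ, OpenPartialHomeomorph.trans_source, OpenPartialHomeomorph.restrOpen_source,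
      OpenPartialHomeomorph.symm_source, mem_inter_iff, mem_preimage]
    constructor
    · rintro ⟨⟨-, h⟩, -⟩; exact h
    · intro hy
      exact ⟨⟨hsub hy, hy⟩, hFt' (F.map_source (hsub hy))⟩
  have hΨ : ∀ y, Ψ y = X.e.symm (F y) := fun y => rfl
  have himg : ∀ S : Set E3, Ψ '' S = X.e.symm '' (F '' S) := fun S => by
    rw [image_image]; rfl
  have htgt : Ψ.target = X.e.symm '' (F '' {y | R + 1 < ‖y‖}) := by
    rw [← Ψ.image_source_eq_target, hΨs, himg]
  have key : ∀ r, R < r → X.IsBernoulli (X.e.symm '' (F '' {y | r < ‖y‖}))ᶜ ∧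
      frontier (X.e.symm '' (F '' {y | r < ‖y‖}))ᶜ = X.e.symm '' (F '' Metric.sphere 0 r) := by
    intro r hr
    obtain ⟨h1, h2⟩ := hF r hr
    obtain ⟨t1, t2, t3, t4, t5⟩ := man_transfer X h1.compact h1.ball
    rw [compl_compl] at t1 t2 t3 t4 t5
    have hn := exists_unitNormal X.metric F hR hFs hFt hF1 hF2 hr h2
    obtain ⟨u, du, c, p1, p2, p3, p4, p5, p6, p7⟩ := h1.pot
    refine ⟨⟨t1, t2, ?_, u, du, c, ?_, ?_⟩, ?_⟩
    · rw [compl_compl]
      have hc := h1.conn
      rw [compl_compl] at hc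
      apply hc.image
      exact X.e.symm.continuousOn.mono t5
    · rw [compl_compl, t4]; exact ⟨p1, p2, p3, p4⟩
    · rw [compl_compl, t4]; exact ⟨p5, p6, hn, p7⟩
    · rw [t3, h2]
  refine ⟨Ψ.targetᶜ, R + 1, Ψ, ?_, by linarith, hΨs, (compl_compl _).symm, ⟨?_, ?_⟩, ?_⟩
  · rw [htgt]
    exact (key (R + 1) (by linarith)).1.compact
  · show ContMDiffOn 𝓘(ℝ, E3) I ∞ Ψ Ψ.source
    rw [hΨs]
    have h1 : ContMDiffOn 𝓘(ℝ, E3) 𝓘(ℝ, E3) ∞ F {y : E3 | R + 1 < ‖y‖} :=
      (hF1.mono hsub).contMDiffOn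
    exact (show ContMDiffOn 𝓘(ℝ, E3) I ∞ X.e.symm X.e.target from X.inf.smooth_symm).comp h1 fun y hy => hFt' (F.map_source (hsub hy))
  · have h1 : ContMDiffOn 𝓘(ℝ, E3) 𝓘(ℝ, E3) ∞ F.symm F.target := hF2.contMDiffOn
    have h2 : Ψ.target ⊆ X.e.source ∩ X.e ⁻¹' F.target := by
      rw [htgt]
      rintro _ ⟨_, ⟨y, hy, rfl⟩, rfl⟩
      have hy' := F.map_source (hsub hy)
      refine ⟨X.e.map_target (hFt' hy'), ?_⟩
      change X.e (X.e.symm (F y)) ∈ F.target
      rw [X.e.right_inv (hFt' hy')]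
      exact hy'
    have h3 : ContMDiffOn I 𝓘(ℝ, E3) ∞ (F.symm ∘ X.e) Ψ.target :=
      h1.comp ((show ContMDiffOn I 𝓘(ℝ, E3) ∞ X.e X.e.source from X.inf.smooth).mono
        fun p hp => (h2 hp).1) fun p hp => (h2 hp).2
    exact h3
  · intro r hr
    rw [himg, himg]
    exact key r (by linarith)

/-- **Main theorem.** -/
theorem bernoulli_foliation_manifold {m : ℝ} (hq : 1 / 2 < q) (X : AFManifold I M q)
    (hs : ScalIntegrable X.gij) (hm : HasMass X.gij m) (hm0 : m ≠ 0) :
    ∃ (K : Set M) (R : ℝ) (F : OpenPartialHomeomorph E3 M), IsBernoulliFoliation X K R F := by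
  obtain ⟨r₀, hs⟩ := hs
  obtain ⟨K, R, F, h1, h2, h3, h4, h5, h6⟩ := bernoulli_foliation_manifold_aux hq X hs hm hm0
  exact ⟨K, R, F, h1, h2, h3, h4, h5, fun r hr => (h6 r hr).1, fun r hr => (h6 r hr).2⟩

end

end Pool.Agent.BS
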