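import Pool.Agent.BS.Semi

/-!
# Module POIA: the Poisson operators
-/

namespace Pool.Agent.BS

open MeasureTheory Topology Set Filter
open scoped ContDiff

noncomputable section

theorem poia_norm_sub_pos {x : E3} (hx : ‖x‖ < 1) (η : S2) : 0 < ‖x - (η : E3)‖ := by
  have h := norm_S2 η
  have := norm_sub_norm_le (η : E3) x
  rw [norm_sub_rev]
  linarith

theorem poia_pk_cont {x : E3} (hx : ‖x‖ < 1) : Continuous (pk x) := by
  unfold pk
  refine Continuous.div (by fun_prop) (by fun_prop) (fun η => ?_)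
  have := poia_norm_sub_pos hx η
  have := Real.pi_pos
  positivity

theorem poia_pk_nonneg {x : E3} (hx : ‖x‖ < 1) (η : S2) : 0 ≤ pk x η := by
  unfold pk
  have := poia_norm_sub_pos hx η
  have := Real.pi_pos
  have h1 : 0 ≤ 1 - ‖x‖ ^ 2 := by nlinarith [norm_nonneg x]
  positivity

theorem poia_int {f : S2 → ℝ} (hf : Continuous f) : Integrable f sig :=
  hf.integrable_of_hasCompactSupport (HasCompactSupport.of_compactSpace f)

theorem poia_PE_add (f g : C(S2, ℝ)) {x : E3} (hx : ‖x‖ < 1) :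
    PE (f + g) x = PE f x + PE g x := by
  unfold PE
  have := integral_add (μ := sig) (f := fun η => pk x η * f η) (g := fun η => pk x η * g η)
    (poia_int ((poia_pk_cont hx).mul f.continuous))
    (poia_int ((poia_pk_cont hx).mul g.continuous))
  rw [← this]
  congr 1
  ext η
  simp [mul_add]

theorem poia_PE_smul (c : ℝ) (f : C(S2, ℝ)) (x : E3) : PE (c • f) x = c * PE f x := by
  unfold PE
  rw [← integral_const_mul]
  congr 1
  ext η
  simp
  ring

theorem poia_PE_bound (f : C(S2, ℝ)) {x : E3} (hx : ‖x‖ < 1) : |PE f x| ≤ ‖f‖ := by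
  have h1 := PE_one x hx
  unfold PE at *
  calc |∫ η, pk x η * f η ∂sig| ≤ ∫ η, |pk x η * f η| ∂sig := abs_integral_le_integral_abs
    _ ≤ ∫ η, pk x η * (1 : C(S2, ℝ)) η * ‖f‖ ∂sig := by
        refine integral_mono (poia_int ((poia_pk_cont hx).mul f.continuous).abs)
          (poia_int (((poia_pk_cont hx).mul (1 : C(S2, ℝ)).continuous).mul continuous_const))
          (fun η => ?_)
        show |pk x η * f η| ≤ pk x η * (1 : C(S2, ℝ)) η * ‖f‖
        rw [abs_mul, abs_of_nonneg (poia_pk_nonneg hx η), ContinuousMap.one_apply, mul_one]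
        exact mul_le_mul_of_nonneg_left (f.norm_coe_le_norm η) (poia_pk_nonneg hx η)
    _ = ‖f‖ := by rw [integral_mul_const, h1, one_mul]

theorem poia_norm_exp {τ : ℝ} (h : 0 < τ) (θ : S2) : ‖Real.exp (-τ) • (θ : E3)‖ < 1 := by
  rw [norm_smul, norm_S2, mul_one, Real.norm_of_nonneg (Real.exp_pos _).le]
  exact Real.exp_lt_one_iff.2 (by linarith)

theorem poia_mem {τ : ℝ} (h : 0 < τ) (θ : S2) :
    Real.exp (-τ) • (θ : E3) ∈ Metric.ball (0 : E3) 1 := by
  rw [mem_ball_zero_iff]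
  exact poia_norm_exp h θ

theorem poia_PE_cont {τ : ℝ} (h : 0 < τ) (f : C(S2, ℝ)) :
    Continuous (fun θ : S2 => PE f (Real.exp (-τ) • (θ : E3))) :=
  (PE_smooth f).continuousOn.comp_continuous (by fun_prop) (fun θ => poia_mem h θ)

/-- the Poisson operator `P(τ)` -/
theorem poM_exists (τ : ℝ) : ∃ P : C(S2, ℝ) →L[ℝ] C(S2, ℝ),
    (τ ≤ 0 → P = ContinuousLinearMap.id ℝ _) ∧
    (0 < τ → ∀ f (θ : S2), P f θ = PE f (Real.exp (-τ) • (θ : E3))) ∧ ∀ f, ‖P f‖ ≤ ‖f‖ := by
  rcases le_or_gt τ 0 with h | h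
  · exact ⟨ContinuousLinearMap.id ℝ _, fun _ => rfl, fun h' => absurd h' (not_lt.2 h),
      fun f => le_rfl⟩
  · let L : C(S2, ℝ) →ₗ[ℝ] C(S2, ℝ) :=
      { toFun := fun f => ⟨fun θ : S2 => PE f (Real.exp (-τ) • (θ : E3)), poia_PE_cont h f⟩
        map_add' := fun f g => by
          ext θ
          exact poia_PE_add f g (poia_norm_exp h θ)
        map_smul' := fun c f => by
          ext θ
          exact poia_PE_smul c f _ }
    have hb : ∀ f, ‖L f‖ ≤ 1 * ‖f‖ := fun f => by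
      rw [one_mul]
      refine (ContinuousMap.norm_le _ (norm_nonneg f)).2 (fun θ => ?_)
      exact poia_PE_bound f (poia_norm_exp h θ)
    refine ⟨L.mkContinuous 1 hb, fun h' => absurd h (not_lt.2 h'), fun _ f θ => rfl, fun f => ?_⟩
    have := hb f
    rw [one_mul] at this
    exact this

/-- the Poisson operator `P(τ)` -/
def PoM (τ : ℝ) : C(S2, ℝ) →L[ℝ] C(S2, ℝ) := Classical.choose (poM_exists τ)

theorem PoM_nonpos {τ : ℝ} (h : τ ≤ 0) : PoM τ = ContinuousLinearMap.id ℝ _ :=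
  (Classical.choose_spec (poM_exists τ)).1 h

theorem PoM_apply {τ : ℝ} (h : 0 < τ) (f : C(S2, ℝ)) (θ : S2) :
    PoM τ f θ = PE f (Real.exp (-τ) • (θ : E3)) :=
  (Classical.choose_spec (poM_exists τ)).2.1 h f θ

theorem PoM_norm (τ : ℝ) (f : C(S2, ℝ)) : ‖PoM τ f‖ ≤ ‖f‖ :=
  (Classical.choose_spec (poM_exists τ)).2.2 f

theorem poia_diffAt (f : C(S2, ℝ)) {x : E3} (hx : ‖x‖ < 1) : DifferentiableAt ℝ (PE f) x :=
  ((PE_smooth f).contDiffAt (Metric.isOpen_ball.mem_nhds (mem_ball_zero_iff.2 hx))).differentiableAt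
    (by simp)

theorem poia_fderiv_add (f g : C(S2, ℝ)) {x : E3} (hx : ‖x‖ < 1) :
    fderiv ℝ (PE (f + g)) x = fderiv ℝ (PE f) x + fderiv ℝ (PE g) x := by
  have h : PE (f + g) =ᶠ[𝓝 x] (fun y => PE f y + PE g y) := by
    filter_upwards [Metric.isOpen_ball.mem_nhds (mem_ball_zero_iff.2 hx)] with y hy
    exact poia_PE_add f g (mem_ball_zero_iff.1 hy)
  rw [h.fderiv_eq]
  exact fderiv_fun_add (poia_diffAt f hx) (poia_diffAt g hx)

theorem poia_fderiv_smul (c : ℝ) (f : C(S2, ℝ)) {x : E3} (hx : ‖x‖ < 1) :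
    fderiv ℝ (PE (c • f)) x = c • fderiv ℝ (PE f) x := by
  have h : PE (c • f) = (fun y => c * PE f y) := funext (fun y => poia_PE_smul c f y)
  rw [h]
  exact fderiv_const_mul (poia_diffAt f hx) c

theorem poia_gen (τ : ℝ) (V : S2 → E3) (hV : Continuous V) : ∃ P : C(S2, ℝ) →L[ℝ] C(S2, ℝ),
    0 < τ → ∀ f (θ : S2), P f θ = fderiv ℝ (PE f) (Real.exp (-τ) • (θ : E3)) (V θ) := by
  rcases le_or_gt τ 0 with h | h
  · exact ⟨0, fun h' => absurd h' (not_lt.2 h)⟩
  · obtain ⟨B, hB⟩ := (isCompact_range hV).isBounded.exists_norm_le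
    have hB' : ∀ θ, ‖V θ‖ ≤ |B| := fun θ => (hB _ (mem_range_self θ)).trans (le_abs_self B)
    have hc : ∀ f : C(S2, ℝ), Continuous
        (fun θ : S2 => fderiv ℝ (PE f) (Real.exp (-τ) • (θ : E3)) (V θ)) := fun f =>
      (((PE_smooth f).continuousOn_fderiv_of_isOpen Metric.isOpen_ball
        (by simp)).comp_continuous (by fun_prop) (fun θ => poia_mem h θ)).clm_apply hV
    let L : C(S2, ℝ) →ₗ[ℝ] C(S2, ℝ) :=
      { toFun := fun f => ⟨fun θ : S2 => fderiv ℝ (PE f) (Real.exp (-τ) • (θ : E3)) (V θ), hc f⟩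
        map_add' := fun f g => by
          ext θ
          show fderiv ℝ (PE (f + g)) (Real.exp (-τ) • (θ : E3)) (V θ) = _
          rw [poia_fderiv_add f g (poia_norm_exp h θ)]
          rfl
        map_smul' := fun c f => by
          ext θ
          show fderiv ℝ (PE (c • f)) (Real.exp (-τ) • (θ : E3)) (V θ) = _
          rw [poia_fderiv_smul c f (poia_norm_exp h θ)]
          rfl }
    have he : 0 < 1 - Real.exp (-τ) := by
      have := Real.exp_lt_one_iff.2 (show -τ < 0 by linarith)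
      linarith
    have hb : ∀ f, ‖L f‖ ≤ (5 / (1 - Real.exp (-τ)) * |B|) * ‖f‖ := fun f => by
      refine (ContinuousMap.norm_le _ (by positivity)).2 (fun θ => ?_)
      show ‖fderiv ℝ (PE f) (Real.exp (-τ) • (θ : E3)) (V θ)‖ ≤ _
      have h1 := PE_grad f _ (poia_norm_exp h θ)
      have h2 : ‖Real.exp (-τ) • (θ : E3)‖ = Real.exp (-τ) := by
        rw [norm_smul, norm_S2, mul_one, Real.norm_of_nonneg (Real.exp_pos _).le]
      rw [h2] at h1
      calc ‖fderiv ℝ (PE f) (Real.exp (-τ) • (θ : E3)) (V θ)‖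
          ≤ ‖fderiv ℝ (PE f) (Real.exp (-τ) • (θ : E3))‖ * ‖V θ‖ :=
            ContinuousLinearMap.le_opNorm _ _
        _ ≤ (5 * ‖f‖ / (1 - Real.exp (-τ))) * |B| := by
            gcongr
            exact hB' θ
        _ = (5 / (1 - Real.exp (-τ)) * |B|) * ‖f‖ := by ring
    exact ⟨L.mkContinuous _ hb, fun _ f θ => rfl⟩

/-- `L_k P(τ)` -/
theorem dkM_exists (k : Fin 3) (τ : ℝ) : ∃ P : C(S2, ℝ) →L[ℝ] C(S2, ℝ),
    0 < τ → ∀ f (θ : S2), P f θ = fderiv ℝ (PE f) (Real.exp (-τ) • (θ : E3))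
      (Real.exp (-τ) • mkE (cr (fun a => (bv k) a) (fun a => (θ : E3) a))) := by
  refine poia_gen τ (fun θ => Real.exp (-τ) • mkE (cr (fun a => (bv k) a)
    (fun a => (θ : E3) a))) ?_
  have hc : Continuous (fun θ : S2 => mkE (cr (fun a => (bv k) a) (fun a => (θ : E3) a))) := by
    unfold mkE cr
    refine (PiLp.continuous_toLp 2 _).comp ?_
    refine continuous_pi (fun i => ?_)
    refine continuous_finsetSum _ (fun a _ => continuous_finsetSum _ (fun b _ => ?_))
    fun_prop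
  exact hc.const_smul (Real.exp (-τ))

/-- `L_k P(τ)` -/
def DkM (k : Fin 3) (τ : ℝ) : C(S2, ℝ) →L[ℝ] C(S2, ℝ) := Classical.choose (dkM_exists k τ)

theorem DkM_apply (k : Fin 3) {τ : ℝ} (h : 0 < τ) (f : C(S2, ℝ)) (θ : S2) :
    DkM k τ f θ = fderiv ℝ (PE f) (Real.exp (-τ) • (θ : E3))
      (Real.exp (-τ) • mkE (cr (fun a => (bv k) a) (fun a => (θ : E3) a))) :=
  Classical.choose_spec (dkM_exists k τ) h f θ

/-- `Λ₀ P(τ)` -/
theorem laM_exists (τ : ℝ) : ∃ P : C(S2, ℝ) →L[ℝ] C(S2, ℝ),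
    0 < τ → ∀ f (θ : S2), P f θ = fderiv ℝ (PE f) (Real.exp (-τ) • (θ : E3))
      (Real.exp (-τ) • (θ : E3)) :=
  poia_gen τ (fun θ => Real.exp (-τ) • (θ : E3)) (by fun_prop)

/-- `Λ₀ P(τ)` -/
def LaM (τ : ℝ) : C(S2, ℝ) →L[ℝ] C(S2, ℝ) := Classical.choose (laM_exists τ)

theorem LaM_apply {τ : ℝ} (h : 0 < τ) (f : C(S2, ℝ)) (θ : S2) :
    LaM τ f θ = fderiv ℝ (PE f) (Real.exp (-τ) • (θ : E3)) (Real.exp (-τ) • (θ : E3)) :=
  Classical.choose_spec (laM_exists τ) h f θ

theorem PoM_add (σ τ : ℝ) (hσ : 0 ≤ σ) (hτ : 0 ≤ τ) : PoM (σ + τ) = (PoM σ).comp (PoM τ) := by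
  rcases hσ.eq_or_lt with h0 | hσ
  · rw [← h0, zero_add, PoM_nonpos le_rfl, ContinuousLinearMap.id_comp]
  rcases hτ.eq_or_lt with h0 | hτ
  · rw [← h0, add_zero, PoM_nonpos (τ := 0) le_rfl, ContinuousLinearMap.comp_id]
  ext f θ
  rw [ContinuousLinearMap.comp_apply, PoM_apply (by positivity), PoM_apply hσ,
    PE_semi f (PoM τ f) (Real.exp (-τ)) (Real.exp_pos _).le (Real.exp_lt_one_iff.2 (by linarith))
      (fun η => PoM_apply hτ f η) _ (poia_norm_exp hσ θ), smul_smul, ← Real.exp_add]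
  congr 3
  ring

theorem PoM_one (τ : ℝ) : PoM τ 1 = 1 := by
  rcases le_or_gt τ 0 with h | h
  · rw [PoM_nonpos h]
    rfl
  · ext θ
    rw [PoM_apply h, PE_one _ (poia_norm_exp h θ)]
    rfl

theorem poia_small (f : C(S2, ℝ)) (ε : ℝ) (hε : 0 < ε) :
    ∃ δ > 0, ∀ h < δ, ‖PoM h f - f‖ ≤ ε := by
  obtain ⟨r, hr, H⟩ := PE_bdry f ε hε
  have hc : Tendsto (fun h : ℝ => Real.exp (-h)) (𝓝 0) (𝓝 1) := by
    have : Continuous (fun h : ℝ => Real.exp (-h)) := by fun_prop
    have := this.tendsto 0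
    simpa using this
  obtain ⟨δ, hδ, h2⟩ := Metric.eventually_nhds_iff.1 (hc.eventually (Ioi_mem_nhds hr))
  refine ⟨δ, hδ, fun h hh => ?_⟩
  rcases le_or_gt h 0 with h0 | h0
  · rw [PoM_nonpos h0]
    simp [hε.le]
  · refine (ContinuousMap.norm_le _ hε.le).2 (fun θ => ?_)
    rw [ContinuousMap.sub_apply, PoM_apply h0]
    refine H _ (h2 ?_) (Real.exp_lt_one_iff.2 (by linarith)) θ
    rw [Real.dist_eq, sub_zero, abs_of_pos h0]
    exact hh

theorem poia_max (τ : ℝ) : PoM τ = PoM (max τ 0) := by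
  rcases le_total τ 0 with h | h
  · rw [max_eq_right h, PoM_nonpos h, PoM_nonpos le_rfl]
  · rw [max_eq_left h]

theorem PoM_cont (f : C(S2, ℝ)) : Continuous (fun τ => PoM τ f) := by
  have key : ∀ s t : ℝ, s ≤ t → ‖PoM t f - PoM s f‖ ≤ ‖PoM (max t 0 - max s 0) f - f‖ := by
    intro s t hst
    have h1 : max s 0 ≤ max t 0 := max_le_max_right 0 hst
    have h2 : max t 0 = max s 0 + (max t 0 - max s 0) := by ring
    have h3 : PoM t f = PoM (max s 0) (PoM (max t 0 - max s 0) f) := by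
      rw [poia_max t]
      conv_lhs => rw [h2]
      rw [PoM_add _ _ (le_max_right _ _) (by linarith)]
      rfl
    rw [h3, poia_max s, ← map_sub]
    exact PoM_norm _ _
  refine Metric.continuous_iff.2 (fun t ε hε => ?_)
  obtain ⟨δ, hδ, H⟩ := poia_small f (ε / 2) (by positivity)
  refine ⟨δ, hδ, fun s hs => ?_⟩
  rw [Real.dist_eq] at hs
  have hmax : |max s 0 - max t 0| ≤ |s - t| := abs_max_sub_max_le_abs s t 0
  rcases le_total s t with h | h
  · rw [dist_comm, dist_eq_norm]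
    refine (key s t h).trans_lt ((H _ ?_).trans_lt (by linarith))
    rw [abs_sub_comm] at hmax
    exact (le_abs_self _).trans_lt (hmax.trans_lt hs)
  · rw [dist_eq_norm]
    refine (key t s h).trans_lt ((H _ ?_).trans_lt (by linarith))
    exact (le_abs_self _).trans_lt (hmax.trans_lt hs)

theorem poia_pk_symm (r : ℝ) (θ η : S2) : pk (r • (θ : E3)) η = pk (r • (η : E3)) θ := by
  have h : ‖r • (θ : E3) - (η : E3)‖ = ‖r • (η : E3) - (θ : E3)‖ := by
    have h1 : ‖r • (θ : E3) - (η : E3)‖ ^ 2 = ‖r • (η : E3) - (θ : E3)‖ ^ 2 := by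
      rw [norm_sub_sq_real, norm_sub_sq_real, norm_smul, norm_smul, norm_S2, norm_S2,
        real_inner_smul_left, real_inner_smul_left, real_inner_comm]
    exact (pow_left_inj₀ (norm_nonneg _) (norm_nonneg _) two_ne_zero).1 h1
  unfold pk
  rw [h, norm_smul, norm_smul, norm_S2, norm_S2]

theorem PoM_symm (τ : ℝ) (f g : C(S2, ℝ)) :
    ∫ θ, PoM τ f θ * g θ ∂sig = ∫ θ, f θ * PoM τ g θ ∂sig := by
  rcases le_or_gt τ 0 with h | h
  · rw [PoM_nonpos h]
    rfl
  · have h1 : ∀ θ, PoM τ f θ * g θ = ∫ η, pk (Real.exp (-τ) • (θ : E3)) η * f η * g θ ∂sig := by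
      intro θ
      rw [PoM_apply h, integral_mul_const]
      rfl
    have h2 : ∀ θ, f θ * PoM τ g θ = ∫ η, pk (Real.exp (-τ) • (η : E3)) θ * f θ * g η ∂sig := by
      intro θ
      rw [PoM_apply h, PE, ← integral_const_mul]
      congr 1
      ext η
      rw [poia_pk_symm _ η θ]
      ring
    simp_rw [h1, h2]
    refine integral_integral_swap ?_
    have hc : Continuous (fun p : S2 × S2 =>
        pk (Real.exp (-τ) • (p.1 : E3)) p.2 * f p.2 * g p.1) := by
      refine Continuous.mul (Continuous.mul ?_ (by fun_prop)) (by fun_prop)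
      unfold pk
      refine Continuous.div (by fun_prop) (by fun_prop) (fun p => ?_)
      have := poia_norm_sub_pos (poia_norm_exp h p.1) p.2
      have := Real.pi_pos
      positivity
    exact hc.integrable_of_hasCompactSupport (HasCompactSupport.of_compactSpace _)

theorem poia_second {v : E3 → ℝ} {x : E3} (hv : ContDiffAt ℝ 2 v x) (hm : IsLocalMax v x)
    (i : Fin 3) : pd i (pd i v) x ≤ 0 := by
  by_contra hcon
  push Not at hcon
  set g : ℝ → ℝ := fun t => v (x + t • bv i) with hg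
  have hl : Continuous (fun t : ℝ => x + t • bv i) := by fun_prop
  have hl0 : Tendsto (fun t : ℝ => x + t • bv i) (𝓝 0) (𝓝 x) := by
    have := hl.tendsto 0
    simpa using this
  have hline : ∀ t : ℝ, HasDerivAt (fun t : ℝ => x + t • bv i) (bv i) t := fun t => by
    simpa using ((hasDerivAt_id t).smul_const (bv i)).const_add x
  have hgmax : IsLocalMax g 0 := by
    have : ∀ᶠ t in 𝓝 (0 : ℝ), v (x + t • bv i) ≤ v x := hl0.eventually hm
    filter_upwards [this] with t ht
    simpa [hg] using ht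
  have hev : ∀ᶠ y in 𝓝 x, DifferentiableAt ℝ v y := by
    have := hv.eventually (by simp)
    filter_upwards [this] with y hy
    exact hy.differentiableAt (by simp)
  have hd1 : ∀ᶠ t in 𝓝 (0 : ℝ), deriv g t = pd i v (x + t • bv i) := by
    filter_upwards [hl0.eventually hev] with t ht
    exact (ht.hasFDerivAt.comp_hasDerivAt t (hline t)).deriv
  have hdd : DifferentiableAt ℝ (pd i v) x := by
    have h1 : ContDiffAt ℝ 1 (fderiv ℝ v) x := hv.fderiv_right (by norm_num)
    have h2 : DifferentiableAt ℝ (fderiv ℝ v) x := h1.differentiableAt (by simp)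
    exact h2.clm_apply (differentiableAt_const _)
  have hx0 : x + (0 : ℝ) • bv i = x := by simp
  have hd2 : deriv (deriv g) 0 = pd i (pd i v) x := by
    rw [Filter.EventuallyEq.deriv_eq hd1]
    have hdd' : HasFDerivAt (pd i v) (fderiv ℝ (pd i v) x) (x + (0 : ℝ) • bv i) := by
      rw [hx0]
      exact hdd.hasFDerivAt
    exact (hdd'.comp_hasDerivAt 0 (hline 0)).deriv
  have hg0 : deriv g 0 = 0 := hgmax.deriv_eq_zero
  have hgc : ContinuousAt g 0 := by
    have : ContinuousAt v (x + (0 : ℝ) • bv i) := by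
      rw [hx0]
      exact hv.continuousAt
    exact ContinuousAt.comp (g := v) (f := fun t : ℝ => x + t • bv i) this hl.continuousAt
  have hmin : IsLocalMin g 0 := isLocalMin_of_deriv_deriv_pos (by rw [hd2]; exact hcon) hg0 hgc
  have hconst : g =ᶠ[𝓝 0] fun _ => g 0 := by
    filter_upwards [hgmax, hmin] with t h1 h2
    exact le_antisymm h1 h2
  have h3 : deriv g =ᶠ[𝓝 0] fun _ => 0 := by
    have := hconst.deriv
    refine this.trans (Eventually.of_forall (fun t => ?_))
    simp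
  have h4 : deriv (deriv g) 0 = 0 := by
    rw [h3.deriv_eq]
    simp
  rw [hd2] at h4
  exact hcon.ne' h4

theorem poia_pd_normsq (y : E3) : HasFDerivAt (fun y : E3 => ‖y‖ ^ 2)
    (2 • innerSL ℝ y) y := by
  exact (hasStrictFDerivAt_norm_sq y).hasFDerivAt

/-- maximum principle on the ball of radius `s < 1` -/
theorem poia_maxp (u : E3 → ℝ) (hu : ContDiffOn ℝ 2 u (Metric.ball 0 1))
    (hh : ∀ x, ‖x‖ < 1 → ∑ i, pd i (pd i u) x = 0) (s M : ℝ) (hs : 0 < s) (hs1 : s < 1)
    (hM : ∀ θ : S2, u (s • (θ : E3)) ≤ M) (x : E3) (hx : ‖x‖ ≤ s) : u x ≤ M := by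
  refine le_of_forall_pos_le_add (fun ε hε => ?_)
  set v : E3 → ℝ := fun y => u y + ε * ‖y‖ ^ 2 with hv
  have hK : IsCompact (Metric.closedBall (0 : E3) s) := isCompact_closedBall _ _
  have hsub : Metric.closedBall (0 : E3) s ⊆ Metric.ball 0 1 := Metric.closedBall_subset_ball hs1
  have hvc : ContinuousOn v (Metric.closedBall 0 s) :=
    (hu.continuousOn.mono hsub).add (by fun_prop)
  obtain ⟨x0, hx0, hmax⟩ := hK.exists_isMaxOn ⟨x, mem_closedBall_zero_iff.2 hx⟩ hvc
  have hx0' : ‖x0‖ ≤ s := mem_closedBall_zero_iff.1 hx0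
  have hvx : v x ≤ v x0 := hmax (mem_closedBall_zero_iff.2 hx)
  have hux : u x ≤ v x := by
    simp only [hv]
    have : 0 ≤ ε * ‖x‖ ^ 2 := by positivity
    linarith
  rcases hx0'.eq_or_lt with h | h
  · have hne : x0 ≠ 0 := by
      intro h0
      rw [h0, norm_zero] at h
      exact hs.ne h
    have h1 := hM (dirS x0)
    have h2 : s • (dirS x0 : E3) = x0 := by
      rw [← h]
      exact norm_smul_dirS hne
    rw [h2] at h1
    have h3 : v x0 ≤ M + ε := by
      simp only [hv]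
      have : ε * ‖x0‖ ^ 2 ≤ ε * 1 := by
        refine mul_le_mul_of_nonneg_left ?_ hε.le
        rw [h]
        nlinarith
      linarith
    linarith
  · exfalso
    have hx01 : ‖x0‖ < 1 := h.trans hs1
    have hnh : ∀ᶠ y in 𝓝 x0, ‖y‖ < 1 :=
      (Metric.isOpen_ball.mem_nhds (mem_ball_zero_iff.2 hx01) : Metric.ball (0 : E3) 1 ∈ 𝓝 x0)
        |> fun hb => by
          filter_upwards [hb] with y hy
          exact mem_ball_zero_iff.1 hy
    have huat : ∀ y : E3, ‖y‖ < 1 → ContDiffAt ℝ 2 u y := fun y hy =>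
      hu.contDiffAt (Metric.isOpen_ball.mem_nhds (mem_ball_zero_iff.2 hy))
    have hvat : ContDiffAt ℝ 2 v x0 :=
      (huat x0 hx01).add (contDiffAt_const.mul (contDiff_norm_sq ℝ).contDiffAt)
    have hlm : IsLocalMax v x0 := by
      have : Metric.closedBall (0 : E3) s ∈ 𝓝 x0 :=
        mem_of_superset (Metric.isOpen_ball.mem_nhds (mem_ball_zero_iff.2 h))
          Metric.ball_subset_closedBall
      filter_upwards [this] with y hy
      exact hmax hy
    have h1 : ∀ i, ∀ y : E3, ‖y‖ < 1 → pd i v y = pd i u y + ε * (2 * y i) := by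
      intro i y hy
      have ha : HasFDerivAt u (fderiv ℝ u y) y :=
        ((huat y hy).differentiableAt (by simp)).hasFDerivAt
      have hb := ((poia_pd_normsq y).const_mul ε)
      have := (ha.add hb).fderiv
      unfold pd
      rw [show fderiv ℝ v y = _ from this]
      simp [bv, EuclideanSpace.inner_single_right]
    have h2 : ∀ i, pd i (pd i v) x0 = pd i (pd i u) x0 + ε * 2 := by
      intro i
      have he : pd i v =ᶠ[𝓝 x0] fun y => pd i u y + ε * (2 * y i) := by
        filter_upwards [hnh] with y hy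
        exact h1 i y hy
      have hdu : HasFDerivAt (pd i u) (fderiv ℝ (pd i u) x0) x0 := by
        have h1 : ContDiffAt ℝ 1 (fderiv ℝ u) x0 := (huat x0 hx01).fderiv_right (by norm_num)
        have h2 : DifferentiableAt ℝ (fderiv ℝ u) x0 := h1.differentiableAt (by simp)
        exact (h2.clm_apply (differentiableAt_const _)).hasFDerivAt
      have hpr : HasFDerivAt (fun y : E3 => y i) (EuclideanSpace.proj i : E3 →L[ℝ] ℝ) x0 :=
        (EuclideanSpace.proj i : E3 →L[ℝ] ℝ).hasFDerivAt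
      have := (hdu.add ((hpr.const_mul 2).const_mul ε)).fderiv
      unfold pd at *
      rw [he.fderiv_eq, show fderiv ℝ (fun y => fderiv ℝ u y (bv i) + ε * (2 * y i)) x0 = _ from this]
      simp [bv]
    have h3 : ∑ i, pd i (pd i v) x0 = 6 * ε := by
      simp_rw [h2]
      rw [Finset.sum_add_distrib, hh x0 hx01]
      simp
      ring
    have h4 : ∑ i, pd i (pd i v) x0 ≤ 0 :=
      Finset.sum_nonpos (fun i _ => poia_second hvat hlm i)
    rw [h3] at h4
    linarith

theorem poia_xi (i : Fin 3) (x : E3) (hx : ‖x‖ < 1) : PE (xi i) x = x i := by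
  -- harmonic functions `c (PE (xi i) y - y i)`
  have hsm : ContDiffOn ℝ 2 (PE (xi i)) (Metric.ball 0 1) := by
    exact_mod_cast contDiffOn_infty.1 (PE_smooth (xi i)) 2
  have hFat : ∀ y : E3, ‖y‖ < 1 → ContDiffAt ℝ 2 (PE (xi i)) y := fun y hy =>
    hsm.contDiffAt (Metric.isOpen_ball.mem_nhds (mem_ball_zero_iff.2 hy))
  have hpr : ∀ y : E3, HasFDerivAt (fun y : E3 => y i) (EuclideanSpace.proj i : E3 →L[ℝ] ℝ) y :=
    fun y => (EuclideanSpace.proj i : E3 →L[ℝ] ℝ).hasFDerivAt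
  have hcd : ∀ c : ℝ, ContDiffOn ℝ 2 (fun y => c * (PE (xi i) y - y i)) (Metric.ball 0 1) :=
    fun c => contDiffOn_const.mul (hsm.sub (by fun_prop))
  have hpd : ∀ (c : ℝ) (k : Fin 3) (y : E3), ‖y‖ < 1 →
      pd k (fun y => c * (PE (xi i) y - y i)) y = c * (pd k (PE (xi i)) y - (bv k) i) := by
    intro c k y hy
    have ha := ((hFat y hy).differentiableAt (by simp)).hasFDerivAt
    have := ((ha.sub (hpr y)).const_mul c).fderiv
    unfold pd
    rw [show fderiv ℝ (fun y => c * (PE (xi i) y - y i)) y = _ from this]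
    simp
  have hharm : ∀ c : ℝ, ∀ y : E3, ‖y‖ < 1 →
      ∑ k, pd k (pd k (fun y => c * (PE (xi i) y - y i))) y = 0 := by
    intro c y hy
    have h2 : ∀ k, pd k (pd k (fun y => c * (PE (xi i) y - y i))) y =
        c * pd k (pd k (PE (xi i))) y := by
      intro k
      have he : pd k (fun y => c * (PE (xi i) y - y i)) =ᶠ[𝓝 y]
          fun y => c * (pd k (PE (xi i)) y - (bv k) i) := by
        filter_upwards [Metric.isOpen_ball.mem_nhds (mem_ball_zero_iff.2 hy)] with z hz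
        exact hpd c k z (mem_ball_zero_iff.1 hz)
      have hdu : HasFDerivAt (pd k (PE (xi i))) (fderiv ℝ (pd k (PE (xi i))) y) y := by
        have h1 : ContDiffAt ℝ 1 (fderiv ℝ (PE (xi i))) y := (hFat y hy).fderiv_right (by norm_num)
        have h2 : DifferentiableAt ℝ (fderiv ℝ (PE (xi i))) y := h1.differentiableAt (by simp)
        exact (h2.clm_apply (differentiableAt_const _)).hasFDerivAt
      have := ((hdu.sub_const ((bv k) i)).const_mul c).fderiv
      unfold pd at *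
      rw [he.fderiv_eq, show fderiv ℝ (fun y => c * (fderiv ℝ (PE (xi i)) y (bv k) - (bv k) i)) y
        = _ from this]
      simp
    simp_rw [h2]
    rw [← Finset.mul_sum, PE_harm (xi i) y hy, mul_zero]
  have key : ∀ ε : ℝ, 0 < ε → |PE (xi i) x - x i| ≤ 2 * ε := by
    intro ε hε
    obtain ⟨r, hr, H⟩ := PE_bdry (xi i) ε hε
    obtain ⟨s, hs, hs1⟩ := exists_between (max_lt (max_lt hr hx) (show 1 - ε < 1 by linarith))
    have hsr : r < s := (le_max_left r ‖x‖).trans_lt ((le_max_left _ _).trans_lt hs)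
    have hsx : ‖x‖ < s := (le_max_right r ‖x‖).trans_lt ((le_max_left _ _).trans_lt hs)
    have hse : 1 - ε < s := (le_max_right _ _).trans_lt hs
    have hs0 : 0 < s := (norm_nonneg x).trans_lt hsx
    have hb : ∀ θ : S2, |PE (xi i) (s • (θ : E3)) - (s • (θ : E3)) i| ≤ 2 * ε := by
      intro θ
      have h1 := H s hsr hs1 θ
      have h2 : (s • (θ : E3)) i = s * (θ : E3) i := by simp
      have h3 : xi i θ = (θ : E3) i := rfl
      have h4 : |(θ : E3) i| ≤ 1 := by
        have := EuclideanSpace.norm_eq (θ : E3)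
        have h5 : ‖(θ : E3) i‖ ≤ ‖(θ : E3)‖ := PiLp.norm_apply_le (θ : E3) i
        rw [norm_S2] at h5
        exact h5
      rw [h3] at h1
      rw [h2]
      have h6 : PE (xi i) (s • (θ : E3)) - s * (θ : E3) i =
          (PE (xi i) (s • (θ : E3)) - (θ : E3) i) + (1 - s) * (θ : E3) i := by ring
      rw [h6]
      refine (abs_add_le _ _).trans ?_
      rw [abs_mul, abs_of_pos (show 0 < 1 - s by linarith)]
      have : (1 - s) * |(θ : E3) i| ≤ (1 - s) * 1 :=
        mul_le_mul_of_nonneg_left h4 (by linarith)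
      linarith
    have hp := poia_maxp _ (hcd 1) (hharm 1) s (2 * ε) hs0 hs1
      (fun θ => by
        show 1 * (PE (xi i) (s • (θ : E3)) - (s • (θ : E3)) i) ≤ 2 * ε
        rw [one_mul]
        exact (abs_le.1 (hb θ)).2) x hsx.le
    have hm := poia_maxp _ (hcd (-1)) (hharm (-1)) s (2 * ε) hs0 hs1
      (fun θ => by
        show -1 * (PE (xi i) (s • (θ : E3)) - (s • (θ : E3)) i) ≤ 2 * ε
        have := (abs_le.1 (hb θ)).1
        linarith) x hsx.le
    rw [abs_le]
    constructor <;> linarith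
  have h0 : |PE (xi i) x - x i| ≤ 0 := by
    refine le_of_forall_pos_le_add (fun ε hε => ?_)
    have := key (ε / 2) (by positivity)
    linarith
  have := abs_nonpos_iff.1 h0
  linarith

theorem PoM_xi (τ : ℝ) (i : Fin 3) (hτ : 0 ≤ τ) : PoM τ (xi i) = Real.exp (-τ) • xi i := by
  rcases hτ.eq_or_lt with h0 | h0
  · rw [← h0, PoM_nonpos le_rfl]
    simp
  · ext θ
    rw [PoM_apply h0, poia_xi i _ (poia_norm_exp h0 θ)]
    simp [xi]

end

end Pool.Agent.BS
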