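import Pool.Agent.BS.PoiA

/-!
# Module POIB: differential identities of the Poisson operators
-/

namespace Pool.Agent.BS

open MeasureTheory Topology Set Filter
open scoped ContDiff

noncomputable section

theorem pb_exp_lt {τ : ℝ} (h : 0 < τ) : Real.exp (-τ) < 1 := by
  rw [Real.exp_lt_one_iff]; linarith

theorem pb_norm (τ : ℝ) (θ : S2) : ‖Real.exp (-τ) • (θ : E3)‖ = Real.exp (-τ) := by
  rw [norm_smul, norm_S2, mul_one, Real.norm_of_nonneg (Real.exp_pos _).le]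

theorem pb_norm_lt {τ : ℝ} (h : 0 < τ) (θ : S2) : ‖Real.exp (-τ) • (θ : E3)‖ < 1 := by
  rw [pb_norm]; exact pb_exp_lt h

theorem pb_Dk (k : Fin 3) {τ : ℝ} (h : 0 < τ) (f : C(S2, ℝ)) (θ : S2) :
    DkM k τ f θ = fderiv ℝ (PE f) (Real.exp (-τ) • (θ : E3)) (cxL k (Real.exp (-τ) • (θ : E3))) := by
  rw [DkM_apply k h]
  congr 1
  rw [map_smul (cxL k), cxL_apply]

theorem pb_inner_pkG (x : E3) (η : S2) (v : E3) : inner ℝ (pkG x η) v =
    -(2 / (4 * Real.pi * ‖x - (η : E3)‖ ^ 3) * inner ℝ x v) -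
      3 * (1 - ‖x‖ ^ 2) / (4 * Real.pi * ‖x - (η : E3)‖ ^ 5) * (inner ℝ x v - inner ℝ (η : E3) v) := by
  unfold pkG
  rw [inner_sub_left, inner_neg_left, real_inner_smul_left, real_inner_smul_left, inner_sub_left]

instance pb_open : Measure.IsOpenPosMeasure sig := by
  unfold sig; infer_instance

instance pb_fin : IsFiniteMeasure sig := by
  unfold sig; infer_instance

/-- nondegeneracy of the pairing -/
theorem pb_dual {f g : C(S2, ℝ)} (h : ∀ p : C(S2, ℝ), ∫ θ, f θ * p θ ∂sig = ∫ θ, g θ * p θ ∂sig) :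
    f = g := by
  have h1 : ∫ θ, (f θ - g θ) * (f θ - g θ) ∂sig = 0 := by
    have hi1 : Integrable (fun θ => f θ * (f - g) θ) sig :=
      ker2_integrable (f.continuous.mul (f - g).continuous)
    have hi2 : Integrable (fun θ => g θ * (f - g) θ) sig :=
      ker2_integrable (g.continuous.mul (f - g).continuous)
    have h2 : ∫ θ, (f θ - g θ) * (f θ - g θ) ∂sig =
        ∫ θ, f θ * (f - g) θ ∂sig - ∫ θ, g θ * (f - g) θ ∂sig := by
      refine Eq.trans ?_ (integral_sub hi1 hi2)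
      refine integral_congr_ae (Eventually.of_forall (fun θ => ?_))
      simp only [ContinuousMap.sub_apply]
      ring
    rw [h2, h (f - g), sub_self]
  have hc : Continuous (fun θ => (f θ - g θ) * (f θ - g θ)) :=
    (f.continuous.sub g.continuous).mul (f.continuous.sub g.continuous)
  have h3 := (integral_eq_zero_iff_of_nonneg (fun θ => mul_self_nonneg (f θ - g θ))
    (ker2_integrable hc)).1 h1
  have h4 : (fun θ => (f θ - g θ) * (f θ - g θ)) = 0 :=
    Continuous.ae_eq_iff_eq sig hc continuous_const |>.1 h3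
  ext θ
  have h5 := congrFun h4 θ
  simp only [Pi.zero_apply, mul_self_eq_zero] at h5
  linarith

/-- Fubini for continuous kernels -/
theorem pb_swap {K : S2 → S2 → ℝ} (hK : Continuous (Function.uncurry K)) (f g : C(S2, ℝ)) :
    ∫ θ, (∫ η, f η * K θ η ∂sig) * g θ ∂sig = ∫ η, f η * (∫ θ, K θ η * g θ ∂sig) ∂sig := by
  have h1 : ∫ θ, (∫ η, f η * K θ η ∂sig) * g θ ∂sig = ∫ θ, ∫ η, f η * K θ η * g θ ∂sig ∂sig := by
    refine integral_congr_ae (Eventually.of_forall (fun θ => ?_))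
    simp only
    rw [integral_mul_const]
  have h2 : ∫ η, f η * (∫ θ, K θ η * g θ ∂sig) ∂sig = ∫ η, ∫ θ, f η * K θ η * g θ ∂sig ∂sig := by
    refine integral_congr_ae (Eventually.of_forall (fun η => ?_))
    simp only
    rw [← integral_const_mul]
    refine integral_congr_ae (Eventually.of_forall (fun θ => ?_))
    simp only
    ring
  rw [h1, h2]
  refine integral_integral_swap_of_hasCompactSupport (f := fun θ η => f η * K θ η * g θ) ?_ ?_
  · exact ((f.continuous.comp continuous_snd).mul hK).mul (g.continuous.comp continuous_fst)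
  · exact HasCompactSupport.of_compactSpace _

theorem pb_normsq (r : ℝ) (θ η : S2) :
    ‖r • (θ : E3) - (η : E3)‖ ^ 2 = 1 + r ^ 2 - 2 * r * inner ℝ (θ : E3) (η : E3) := by
  rw [@norm_sub_sq_real, norm_smul, norm_S2, norm_S2, real_inner_smul_left, Real.norm_eq_abs, mul_one,
    sq_abs]
  ring

theorem pb_norm_comm (r : ℝ) (θ η : S2) :
    ‖r • (θ : E3) - (η : E3)‖ = ‖r • (η : E3) - (θ : E3)‖ := by
  have h : ‖r • (θ : E3) - (η : E3)‖ ^ 2 = ‖r • (η : E3) - (θ : E3)‖ ^ 2 := by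
    rw [pb_normsq, pb_normsq, real_inner_comm]
  exact (sq_eq_sq₀ (norm_nonneg _) (norm_nonneg _)).1 h

theorem pb_cx_perp (k : Fin 3) (x : E3) : inner ℝ x (cxL k x) = 0 := by
  rw [ker2_inner, cxL_apply, ker2_cx_eq]
  fin_cases k <;> simp <;> ring

theorem pb_cx_anti (k : Fin 3) (x y : E3) : inner ℝ x (cxL k y) = - inner ℝ y (cxL k x) := by
  rw [ker2_inner, ker2_inner, cxL_apply, cxL_apply, ker2_cx_eq, ker2_cx_eq]
  fin_cases k <;> simp <;> ring

theorem pb_contG {r : ℝ} (hr0 : 0 < r) (hr : r < 1) :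
    Continuous (fun p : S2 × S2 => pkG (r • (p.1 : E3)) p.2) := by
  have hne : ∀ p : S2 × S2, ‖r • (p.1 : E3) - (p.2 : E3)‖ ≠ 0 := fun p =>
    norm_ne_zero_iff.2 (ker2_ne (by rw [norm_smul, norm_S2, mul_one, Real.norm_of_nonneg hr0.le]; exact hr) p.2)
  have hpi := Real.pi_pos.ne'
  have hc0 : Continuous (fun p : S2 × S2 => r • (p.1 : E3) - (p.2 : E3)) := by fun_prop
  have hc : Continuous (fun p : S2 × S2 => ‖r • (p.1 : E3) - (p.2 : E3)‖) := hc0.norm
  have hc2 : Continuous (fun p : S2 × S2 => r • (p.1 : E3)) := by fun_prop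
  unfold pkG
  have h1 : Continuous (fun p : S2 × S2 => 2 / (4 * Real.pi * ‖r • (p.1 : E3) - (p.2 : E3)‖ ^ 3)) :=
    continuous_const.div (continuous_const.mul (hc.pow 3))
      (fun η => mul_ne_zero (mul_ne_zero (by norm_num) hpi) (pow_ne_zero 3 (hne η)))
  have h2 : Continuous (fun p : S2 × S2 => 3 * (1 - ‖r • (p.1 : E3)‖ ^ 2) /
      (4 * Real.pi * ‖r • (p.1 : E3) - (p.2 : E3)‖ ^ 5)) :=
    (continuous_const.mul (continuous_const.sub (hc2.norm.pow 2))).div (continuous_const.mul (hc.pow 5))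
      (fun η => mul_ne_zero (mul_ne_zero (by norm_num) hpi) (pow_ne_zero 5 (hne η)))
  exact (h1.smul hc2).neg.sub (h2.smul hc0)

theorem DkM_perp (τ : ℝ) (f : C(S2, ℝ)) (θ : S2) (hτ : 0 < τ) :
    ∑ k, DkM k τ f θ * (θ : E3) k = 0 := by
  have h1 : ∀ k, DkM k τ f θ * (θ : E3) k =
      fderiv ℝ (PE f) (Real.exp (-τ) • (θ : E3)) ((θ : E3) k • cxL k (Real.exp (-τ) • (θ : E3))) := by
    intro k
    rw [pb_Dk k hτ, map_smul (fderiv ℝ (PE f) (Real.exp (-τ) • (θ : E3))), smul_eq_mul, mul_comm]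
  simp only [h1]
  rw [← map_sum]
  have h2 : ∑ k, (θ : E3) k • cxL k (Real.exp (-τ) • (θ : E3)) = 0 := by
    rw [Fin.sum_univ_three]
    simp only [cxL_apply, ker2_cx_eq]
    ext i
    fin_cases i <;> simp <;> ring
  rw [h2, map_zero]

theorem DkM_skew (k : Fin 3) (τ : ℝ) (f g : C(S2, ℝ)) (hτ : 0 < τ) :
    ∫ θ, DkM k τ f θ * g θ ∂sig = - ∫ θ, f θ * DkM k τ g θ ∂sig := by
  set r := Real.exp (-τ) with hr
  have hr0 : 0 < r := Real.exp_pos _
  have hr1 : r < 1 := pb_exp_lt hτ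
  set K : S2 → S2 → ℝ := fun θ η => inner ℝ (pkG (r • (θ : E3)) η) (cxL k (r • (θ : E3))) with hK
  have hKc : Continuous (Function.uncurry K) := by
    have : Continuous (fun p : S2 × S2 => cxL k (r • (p.1 : E3))) :=
      (cxL k).continuous.comp (by fun_prop)
    exact (pb_contG hr0 hr1).inner this
  have hrep : ∀ (f : C(S2, ℝ)) θ, DkM k τ f θ = ∫ η, f η * K θ η ∂sig := fun f θ => by
    rw [pb_Dk k hτ, PE_fderiv_apply f _ _ (pb_norm_lt hτ θ)]
  have hanti : ∀ θ η, K θ η = - K η θ := fun θ η => by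
    have hk : ∀ θ η : S2, K θ η = 3 * (1 - r ^ 2) / (4 * Real.pi * ‖r • (θ : E3) - (η : E3)‖ ^ 5) *
        (r * inner ℝ (η : E3) (cxL k (θ : E3))) := fun θ η => by
      simp only [hK]
      rw [pb_inner_pkG, pb_cx_perp, norm_smul, norm_S2, mul_one, Real.norm_of_nonneg hr0.le, map_smul,
        real_inner_smul_right]
      ring
    rw [hk, hk, pb_norm_comm, pb_cx_anti]
    ring
  simp only [hrep]
  rw [pb_swap hKc, ← integral_neg]
  refine integral_congr_ae (Eventually.of_forall (fun η => ?_))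
  simp only
  rw [← mul_neg, ← integral_neg]
  congr 1
  refine integral_congr_ae (Eventually.of_forall (fun θ => ?_))
  simp only
  rw [hanti θ η]
  ring

theorem LaM_symm (τ : ℝ) (f g : C(S2, ℝ)) (hτ : 0 < τ) :
    ∫ θ, LaM τ f θ * g θ ∂sig = ∫ θ, f θ * LaM τ g θ ∂sig := by
  set r := Real.exp (-τ) with hr
  have hr0 : 0 < r := Real.exp_pos _
  have hr1 : r < 1 := pb_exp_lt hτ
  set K : S2 → S2 → ℝ := fun θ η => inner ℝ (pkG (r • (θ : E3)) η) (r • (θ : E3)) with hK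
  have hKc : Continuous (Function.uncurry K) := by
    have : Continuous (fun p : S2 × S2 => (r • (p.1 : E3))) := by fun_prop
    exact (pb_contG hr0 hr1).inner this
  have hrep : ∀ (f : C(S2, ℝ)) θ, LaM τ f θ = ∫ η, f η * K θ η ∂sig := fun f θ => by
    rw [LaM_apply hτ, PE_fderiv_apply f _ _ (pb_norm_lt hτ θ)]
  have hsym : ∀ θ η, K θ η = K η θ := fun θ η => by
    have hk : ∀ θ η : S2, K θ η = -(2 / (4 * Real.pi * ‖r • (θ : E3) - (η : E3)‖ ^ 3) * r ^ 2) -
        3 * (1 - r ^ 2) / (4 * Real.pi * ‖r • (θ : E3) - (η : E3)‖ ^ 5) *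
        (r ^ 2 - r * inner ℝ (η : E3) (θ : E3)) := fun θ η => by
      simp only [hK]
      rw [pb_inner_pkG, real_inner_self_eq_norm_sq, norm_smul, norm_S2,
        mul_one, Real.norm_of_nonneg hr0.le, real_inner_smul_right]
    rw [hk, hk, pb_norm_comm, real_inner_comm]
  simp only [hrep]
  rw [pb_swap hKc]
  refine integral_congr_ae (Eventually.of_forall (fun η => ?_))
  simp only
  congr 1
  refine integral_congr_ae (Eventually.of_forall (fun θ => ?_))
  simp only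
  rw [hsym θ η]
  ring

/-- the Poisson integral of `PoM τ f` -/
theorem pb_PE_PoM (τ : ℝ) (hτ : 0 ≤ τ) (f : C(S2, ℝ)) {x : E3} (hx : ‖x‖ < 1) :
    PE (PoM τ f) x = PE f (Real.exp (-τ) • x) := by
  rcases hτ.eq_or_lt with h | h
  · rw [← h, PoM_nonpos le_rfl]
    simp
  · exact PE_semi f (PoM τ f) _ (Real.exp_pos _).le (pb_exp_lt h) (fun θ => PoM_apply h f θ) x hx

theorem pb_smul_lt (τ : ℝ) (hτ : 0 ≤ τ) {x : E3} (hx : ‖x‖ < 1) : ‖Real.exp (-τ) • x‖ < 1 :=
  ker2_norm_smul_lt hx (Real.exp_pos _).le (Real.exp_le_one_iff.2 (by linarith))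

theorem pb_diff (f : C(S2, ℝ)) {x : E3} (hx : ‖x‖ < 1) :
    HasFDerivAt (PE f) (fderiv ℝ (PE f) x) x :=
  ((ker2_contDiffAt f hx).differentiableAt (by simp)).hasFDerivAt

/-- chain rule for a dilation -/
theorem pb_fderiv_smul {u w : E3 → ℝ} {c : ℝ} {x : E3} (hu : DifferentiableAt ℝ u (c • x))
    (h : w =ᶠ[𝓝 x] fun y => u (c • y)) (v : E3) :
    fderiv ℝ w x v = fderiv ℝ u (c • x) (c • v) := by
  rw [h.fderiv_eq]
  have h1 : HasFDerivAt (fun y : E3 => c • y) (c • ContinuousLinearMap.id ℝ E3) x :=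
    (hasFDerivAt_id x).const_smul c
  have h2 := hu.hasFDerivAt.comp x h1
  have h3 : fderiv ℝ (fun y => u (c • y)) x = _ := h2.fderiv
  rw [h3]
  simp

theorem pb_fderiv_PoM (τ : ℝ) (hτ : 0 ≤ τ) (f : C(S2, ℝ)) {x : E3} (hx : ‖x‖ < 1) (v : E3) :
    fderiv ℝ (PE (PoM τ f)) x v = fderiv ℝ (PE f) (Real.exp (-τ) • x) (Real.exp (-τ) • v) := by
  refine pb_fderiv_smul (pb_diff f (pb_smul_lt τ hτ hx)).differentiableAt ?_ v
  filter_upwards [ker2_ball_nhds hx] with y hy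
  exact pb_PE_PoM τ hτ f hy

theorem pb_Dk_left (k : Fin 3) (σ τ : ℝ) (hσ : 0 < σ) (hτ : 0 ≤ τ) :
    DkM k (σ + τ) = (DkM k σ).comp (PoM τ) := by
  ext f θ
  rw [ContinuousLinearMap.comp_apply, pb_Dk k (by linarith), pb_Dk k hσ,
    pb_fderiv_PoM τ hτ f (pb_norm_lt hσ θ), smul_smul, ← Real.exp_add, ← map_smul (cxL k), smul_smul,
    ← Real.exp_add]
  congr 3 <;> ring_nf

theorem pb_La_left (σ τ : ℝ) (hσ : 0 < σ) (hτ : 0 ≤ τ) :
    LaM (σ + τ) = (LaM σ).comp (PoM τ) := by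
  ext f θ
  rw [ContinuousLinearMap.comp_apply, LaM_apply (by linarith), LaM_apply hσ,
    pb_fderiv_PoM τ hτ f (pb_norm_lt hσ θ), smul_smul, ← Real.exp_add]
  congr 3 <;> ring_nf

theorem DkM_add (k : Fin 3) (σ τ : ℝ) (hσ : 0 < σ) (hτ : 0 ≤ τ) :
    DkM k (σ + τ) = (DkM k σ).comp (PoM τ) ∧ DkM k (σ + τ) = (PoM τ).comp (DkM k σ) := by
  refine ⟨pb_Dk_left k σ τ hσ hτ, ?_⟩
  refine ContinuousLinearMap.ext (fun f => pb_dual (fun p => ?_))
  rw [ContinuousLinearMap.comp_apply, PoM_symm, DkM_skew k σ f (PoM τ p) hσ,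
    DkM_skew k (σ + τ) f p (by linarith), pb_Dk_left k σ τ hσ hτ, ContinuousLinearMap.comp_apply]

theorem LaM_add (σ τ : ℝ) (hσ : 0 < σ) (hτ : 0 ≤ τ) :
    LaM (σ + τ) = (LaM σ).comp (PoM τ) ∧ LaM (σ + τ) = (PoM τ).comp (LaM σ) := by
  refine ⟨pb_La_left σ τ hσ hτ, ?_⟩
  refine ContinuousLinearMap.ext (fun f => pb_dual (fun p => ?_))
  rw [ContinuousLinearMap.comp_apply, PoM_symm, LaM_symm σ f (PoM τ p) hσ,
    LaM_symm (σ + τ) f p (by linarith), pb_La_left σ τ hσ hτ, ContinuousLinearMap.comp_apply]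

theorem pb_La_cont (f : C(S2, ℝ)) {τ : ℝ} (hτ : 0 < τ) : ContinuousAt (fun ξ => LaM ξ f) τ := by
  have h1 : (fun ξ => LaM ξ f) =ᶠ[𝓝 τ] fun ξ => LaM (τ / 2) (PoM (ξ - τ / 2) f) := by
    filter_upwards [Ioi_mem_nhds (by linarith : τ / 2 < τ)] with ξ hξ
    have hξ' : τ / 2 < ξ := hξ
    have := pb_La_left (τ / 2) (ξ - τ / 2) (by linarith) (by linarith)
    rw [add_sub_cancel] at this
    rw [this, ContinuousLinearMap.comp_apply]
  refine ContinuousAt.congr ?_ h1.symm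
  exact ((LaM (τ / 2)).continuous.comp ((PoM_cont f).comp (by fun_prop))).continuousAt

theorem pb_Po_pt (f : C(S2, ℝ)) (θ : S2) {τ : ℝ} (hτ : 0 < τ) :
    HasDerivAt (fun ξ => PoM ξ f θ) (-(LaM τ f θ)) τ := by
  have h1 : (fun ξ => PoM ξ f θ) =ᶠ[𝓝 τ] fun ξ => PE f (Real.exp (-ξ) • (θ : E3)) := by
    filter_upwards [Ioi_mem_nhds hτ] with ξ hξ
    exact PoM_apply hξ f θ
  refine HasDerivAt.congr_of_eventuallyEq ?_ h1
  have h2 : HasDerivAt (fun ξ => Real.exp (-ξ) • (θ : E3)) (-(Real.exp (-τ) • (θ : E3))) τ := by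
    have h3 : HasDerivAt (fun ξ => Real.exp (-ξ)) (-Real.exp (-τ)) τ := by
      simpa using (hasDerivAt_neg τ).exp
    have := h3.smul_const (θ : E3)
    rwa [neg_smul] at this
  have h4 := HasFDerivAt.comp_hasDerivAt (l := PE f) (f := fun ξ => Real.exp (-ξ) • (θ : E3)) τ
    (pb_diff f (pb_norm_lt hτ θ)) h2
  rw [map_neg] at h4
  rw [LaM_apply hτ]
  exact h4

theorem PoM_deriv (τ : ℝ) (f : C(S2, ℝ)) (hτ : 0 < τ) :
    HasDerivAt (fun τ => PoM τ f) (-(LaM τ f)) τ := by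
  rw [hasDerivAt_iff_isLittleO, Asymptotics.isLittleO_iff]
  intro c hc
  have h1 := Metric.continuousAt_iff.1 (pb_La_cont f hτ) c hc
  obtain ⟨δ, hδ, hd⟩ := h1
  have hmin : 0 < min δ τ := lt_min hδ hτ
  filter_upwards [Metric.ball_mem_nhds τ hmin] with ξ hξ
  have hball : ∀ ζ ∈ Metric.ball τ (min δ τ), 0 < ζ ∧ ‖LaM ζ f - LaM τ f‖ ≤ c := by
    intro ζ hζ
    rw [Metric.mem_ball] at hζ
    have h2 : dist ζ τ < δ := lt_of_lt_of_le hζ (min_le_left _ _)
    have h3 : dist ζ τ < τ := lt_of_lt_of_le hζ (min_le_right _ _)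
    refine ⟨?_, ?_⟩
    · rw [Real.dist_eq, abs_lt] at h3
      linarith
    · have := hd h2
      rw [dist_eq_norm] at this
      exact this.le
  rw [ContinuousMap.norm_le _ (by positivity)]
  intro θ
  have h4 := Convex.norm_image_sub_le_of_norm_hasDerivWithin_le (𝕜 := ℝ)
    (f := fun ζ => PoM ζ f θ + ζ * LaM τ f θ) (f' := fun ζ => -(LaM ζ f θ) + 1 * LaM τ f θ)
    (C := c) (s := Metric.ball τ (min δ τ)) (x := τ) (y := ξ) ?_ ?_ (convex_ball _ _)
    (Metric.mem_ball_self hmin) hξ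
  · have h5 : (PoM ξ f - PoM τ f - (ξ - τ) • -(LaM τ f)) θ =
        PoM ξ f θ + ξ * LaM τ f θ - (PoM τ f θ + τ * LaM τ f θ) := by
      simp only [ContinuousMap.sub_apply, ContinuousMap.smul_apply, ContinuousMap.neg_apply,
        smul_eq_mul]
      ring
    rw [h5]
    exact h4
  · intro ζ hζ
    exact ((pb_Po_pt f θ (hball ζ hζ).1).add ((hasDerivAt_id ζ).mul_const _)).hasDerivWithinAt
  · intro ζ hζ
    have h6 : -(LaM ζ f θ) + 1 * LaM τ f θ = -((LaM ζ f - LaM τ f) θ) := by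
      simp only [ContinuousMap.sub_apply]
      ring
    rw [h6, norm_neg]
    exact ((LaM ζ f - LaM τ f).norm_coe_le_norm θ).trans (hball ζ hζ).2

/-! ### The second order identity -/

/-- Poisson integral of `DkM k τ f` off the origin -/
theorem pb_PE_Dk (k : Fin 3) {τ : ℝ} (hτ : 0 < τ) (f : C(S2, ℝ)) {x : E3} (hx : ‖x‖ < 1)
    (h0 : x ≠ 0) :
    PE (DkM k τ f) x = fderiv ℝ (PE f) (Real.exp (-τ) • x) (cxL k (Real.exp (-τ) • x)) := by
  set σ := -Real.log ‖x‖ with hσ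
  have hn : 0 < ‖x‖ := norm_pos_iff.2 h0
  have hσ0 : 0 < σ := by
    have := Real.log_neg hn hx
    linarith
  have hx2 : Real.exp (-σ) • (dirS x : E3) = x := by
    rw [hσ, neg_neg, Real.exp_log hn, norm_smul_dirS h0]
  have h1 : PE (DkM k τ f) x = PoM σ (DkM k τ f) (dirS x) := by
    rw [PoM_apply hσ0, hx2]
  rw [h1, ← ContinuousLinearMap.comp_apply, ← (DkM_add k τ σ hτ hσ0.le).2, pb_Dk k (by linarith)]
  have h2 : Real.exp (-(τ + σ)) • (dirS x : E3) = Real.exp (-τ) • x := by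
    rw [neg_add, Real.exp_add, ← smul_smul, hx2]
  rw [h2]

theorem pb_PE_La {τ : ℝ} (hτ : 0 < τ) (f : C(S2, ℝ)) {x : E3} (hx : ‖x‖ < 1)
    (h0 : x ≠ 0) :
    PE (LaM τ f) x = fderiv ℝ (PE f) (Real.exp (-τ) • x) (Real.exp (-τ) • x) := by
  set σ := -Real.log ‖x‖ with hσ
  have hn : 0 < ‖x‖ := norm_pos_iff.2 h0
  have hσ0 : 0 < σ := by
    have := Real.log_neg hn hx
    linarith
  have hx2 : Real.exp (-σ) • (dirS x : E3) = x := by
    rw [hσ, neg_neg, Real.exp_log hn, norm_smul_dirS h0]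
  have h1 : PE (LaM τ f) x = PoM σ (LaM τ f) (dirS x) := by
    rw [PoM_apply hσ0, hx2]
  rw [h1, ← ContinuousLinearMap.comp_apply, ← (LaM_add τ σ hτ hσ0.le).2, LaM_apply (by linarith)]
  have h2 : Real.exp (-(τ + σ)) • (dirS x : E3) = Real.exp (-τ) • x := by
    rw [neg_add, Real.exp_add, ← smul_smul, hx2]
  rw [h2]

theorem PoM_lap (σ τ : ℝ) (f : C(S2, ℝ)) (hσ : 0 < σ) (hτ : 0 < τ) :
    ∑ k, DkM k σ (DkM k τ f) = -(LaM σ (LaM τ f) + LaM (σ + τ) f) := by
  ext θ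
  set x := Real.exp (-σ) • (θ : E3) with hx
  have hx1 : ‖x‖ < 1 := pb_norm_lt hσ θ
  have hx0 : x ≠ 0 := smul_ne_zero (Real.exp_pos _).ne' (S2_ne_zero θ)
  set y := Real.exp (-τ) • x with hy
  have hy1 : ‖y‖ < 1 := pb_smul_lt τ hτ.le hx1
  have hnear : ∀ᶠ z in 𝓝 x, ‖z‖ < 1 ∧ z ≠ 0 := by
    filter_upwards [ker2_ball_nhds hx1, isOpen_ne.mem_nhds hx0] with z hz1 hz2
    exact ⟨hz1, hz2⟩
  have hc2 : ContDiffAt ℝ 2 (PE f) y := (ker2_contDiffAt f hy1).of_le (WithTop.coe_le_coe.mpr le_top)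
  have hk : ∀ k, DkM k σ (DkM k τ f) θ =
      fderiv ℝ (fun z => fderiv ℝ (PE f) z (cxL k z)) y (cxL k y) := fun k => by
    rw [pb_Dk k hσ, ← hx]
    rw [pb_fderiv_smul (u := fun z => fderiv ℝ (PE f) z (cxL k z)) (c := Real.exp (-τ)) (x := x)
      (w := PE (DkM k τ f)) ?_ ?_ (cxL k x), ← map_smul (cxL k)]
    · exact (ker2_fderiv_comp hc2 (cxL k) 0).1.differentiableAt
    · filter_upwards [hnear] with z hz
      exact pb_PE_Dk k hτ f hz.1 hz.2
  have hl : LaM σ (LaM τ f) θ = fderiv ℝ (fun z => fderiv ℝ (PE f) z z) y y := by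
    rw [LaM_apply hσ, ← hx]
    rw [pb_fderiv_smul (u := fun z => fderiv ℝ (PE f) z z) (c := Real.exp (-τ)) (x := x)
      (w := PE (LaM τ f)) ?_ ?_ x]
    · have := (ker2_fderiv_comp hc2 (ContinuousLinearMap.id ℝ E3) 0).1.differentiableAt
      exact this
    · filter_upwards [hnear] with z hz
      exact pb_PE_La hτ f hz.1 hz.2
  have ha : LaM (σ + τ) f θ = fderiv ℝ (PE f) y y := by
    rw [LaM_apply (by linarith)]
    have : Real.exp (-(σ + τ)) • (θ : E3) = y := by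
      rw [hy, hx, smul_smul, ← Real.exp_add]
      congr 2
      ring
    rw [this]
  have hid := ker2_lap_id hc2
  rw [PE_harm f y hy1, mul_zero] at hid
  simp only [ContinuousMap.coe_sum, Finset.sum_apply, ContinuousMap.neg_apply,
    ContinuousMap.add_apply]
  simp only [hk, hl, ha]
  linarith

/-! ### `PoM τ f` is continuously differentiable -/

theorem pb_deriv_dir {x : E3} (h : x ≠ 0) :
    HasFDerivAt (fun y : E3 => ‖y‖⁻¹ • y) (‖x‖⁻¹ • ContinuousLinearMap.id ℝ E3 -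
      (‖x‖⁻¹ ^ 3 • innerSL ℝ x).smulRight x) x := by
  have hN : 0 < ‖x‖ := norm_pos_iff.2 h
  have h1 : HasFDerivAt (fun y : E3 => ‖y‖ ^ 2) (2 • innerSL ℝ x) x := by
    simpa using (hasFDerivAt_id x).norm_sq
  have h2 : HasFDerivAt (fun y : E3 => ‖y‖) (‖x‖⁻¹ • innerSL ℝ x) x := by
    have h3 := h1.sqrt (by positivity)
    have h4 : (fun y : E3 => Real.sqrt (‖y‖ ^ 2)) = fun y : E3 => ‖y‖ := by
      funext y
      exact Real.sqrt_sq (norm_nonneg _)
    rw [h4] at h3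
    refine h3.congr_fderiv ?_
    rw [Real.sqrt_sq (norm_nonneg _)]
    ext v
    simp
    field_simp
  have h5 := (hasDerivAt_inv hN.ne').comp_hasFDerivAt x h2
  have h6 := h5.smul (hasFDerivAt_id x)
  refine h6.congr_fderiv ?_
  ext1 v
  simp only [Function.comp_apply, id, _root_.add_apply, _root_.smul_apply, _root_.sub_apply,
    ContinuousLinearMap.smulRight_apply, innerSL_apply_apply, ContinuousLinearMap.id_apply, smul_eq_mul]
  rw [sub_eq_add_neg, ← neg_smul]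
  congr 2
  field_simp

theorem PoM_c1 (τ : ℝ) (f : C(S2, ℝ)) (hτ : 0 < τ) :
    IsC1S (PoM τ f) (fun k θ => cr (fun a => DkM a τ f θ) (fun a => (θ : E3) a) k) := by
  refine ⟨fun k => ?_, fun x hx => ?_⟩
  · unfold cr
    refine continuous_finsetSum _ (fun i _ => continuous_finsetSum _ (fun j _ => ?_))
    have h1 : Continuous (fun θ : S2 => DkM i τ f θ) := (DkM i τ f).continuous
    have h2 : Continuous (fun θ : S2 => (θ : E3) j) := by fun_prop
    exact (h1.mul h2).const_smul (eps k i j)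
  · set r := Real.exp (-τ) with hr
    set θ := dirS x with hθ
    have hN : 0 < ‖x‖ := norm_pos_iff.2 hx
    have hθx : (θ : E3) = ‖x‖⁻¹ • x := dirS_coe hx
    have h1 : (fun y => PoM τ f (dirS y)) =ᶠ[𝓝 x] fun y => PE f (r • (‖y‖⁻¹ • y)) := by
      filter_upwards [isOpen_ne.mem_nhds hx] with y hy
      rw [PoM_apply hτ, dirS_coe hy]
    refine HasFDerivAt.congr_of_eventuallyEq ?_ h1
    have h2 : HasFDerivAt (fun y : E3 => r • (‖y‖⁻¹ • y)) (r • (‖x‖⁻¹ • ContinuousLinearMap.id ℝ E3 -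
      (‖x‖⁻¹ ^ 3 • innerSL ℝ x).smulRight x)) x := (pb_deriv_dir hx).const_smul r
    have h3 : HasFDerivAt (PE f) (fderiv ℝ (PE f) (r • (θ : E3))) (r • (‖x‖⁻¹ • x)) := by
      rw [← hθx]
      exact pb_diff f (pb_norm_lt hτ θ)
    have h4 := HasFDerivAt.comp (g := PE f) (f := fun y : E3 => r • (‖y‖⁻¹ • y)) x h3 h2
    refine HasFDerivAt.congr_fderiv h4 ?_
    ext1 v
    set D := fderiv ℝ (PE f) (r • (θ : E3)) with hD
    have hDk : ∀ a, DkM a τ f θ = D (cxL a (r • (θ : E3))) := fun a => pb_Dk a hτ f θ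
    have hv : v = v 0 • bv 0 + v 1 • bv 1 + v 2 • bv 2 := by
      ext i
      fin_cases i <;> simp [bv]
    have hθ2 : (θ : E3) = (θ : E3) 0 • bv 0 + (θ : E3) 1 • bv 1 + (θ : E3) 2 • bv 2 := by
      ext i
      fin_cases i <;> simp [bv]
    have hxθ : x = ‖x‖ • (θ : E3) := (norm_smul_dirS hx).symm
    have hsq : (θ : E3) 0 ^ 2 + (θ : E3) 1 ^ 2 + (θ : E3) 2 ^ 2 = 1 := by
      rw [← ker2_normsq, norm_S2, one_pow]
    have c0 : cxL 0 (r • (θ : E3)) = (r * (θ : E3) 1) • bv 2 - (r * (θ : E3) 2) • bv 1 := by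
      rw [cxL_apply, ker2_cx_eq]; ext i; fin_cases i <;> simp [bv]
    have c1 : cxL 1 (r • (θ : E3)) = (r * (θ : E3) 2) • bv 0 - (r * (θ : E3) 0) • bv 2 := by
      rw [cxL_apply, ker2_cx_eq]; ext i; fin_cases i <;> simp [bv]
    have c2 : cxL 2 (r • (θ : E3)) = (r * (θ : E3) 0) • bv 1 - (r * (θ : E3) 1) • bv 0 := by
      rw [cxL_apply, ker2_cx_eq]; ext i; fin_cases i <;> simp [bv]
    have hDv : D v = v 0 * D (bv 0) + v 1 * D (bv 1) + v 2 * D (bv 2) := by
      conv_lhs => rw [hv]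
      simp only [map_add, map_smul, smul_eq_mul]
    have hDθ : D (θ : E3) = (θ : E3) 0 * D (bv 0) + (θ : E3) 1 * D (bv 1) + (θ : E3) 2 * D (bv 2) := by
      conv_lhs => rw [hθ2]
      simp only [map_add, map_smul, smul_eq_mul]
    have hinx : inner ℝ x v = ‖x‖ * ((θ : E3) 0 * v 0 + (θ : E3) 1 * v 1 + (θ : E3) 2 * v 2) := by
      conv_lhs => rw [hxθ]
      rw [real_inner_smul_left, ker2_inner]
    have hDx : D x = ‖x‖ * D (θ : E3) := by
      conv_lhs => rw [hxθ]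
      rw [map_smul, smul_eq_mul]
    have hL : (D.comp (r • (‖x‖⁻¹ • ContinuousLinearMap.id ℝ E3 -
        (‖x‖⁻¹ ^ 3 • innerSL ℝ x).smulRight x))) v =
        r * (‖x‖⁻¹ * D v - ‖x‖⁻¹ ^ 3 * inner ℝ x v * D x) := by
      simp only [ContinuousLinearMap.comp_apply, _root_.smul_apply, _root_.sub_apply,
        ContinuousLinearMap.smulRight_apply, innerSL_apply_apply, ContinuousLinearMap.id_apply, smul_eq_mul,
        map_smul, map_sub]
    refine hL.trans ?_
    rw [innerSL_apply_apply, real_inner_smul_left,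
      ker2_inner (mkE (fun k => cr (fun a => DkM a τ f θ) (fun a => (θ : E3) a) k)) v]
    simp only [mkE_apply]
    have g0 : cr (fun a => DkM a τ f θ) (fun a => (θ : E3) a) 0 =
        DkM 1 τ f θ * (θ : E3) 2 - DkM 2 τ f θ * (θ : E3) 1 := by
      simp [cr, eps, Fin.sum_univ_three]; ring
    have g1 : cr (fun a => DkM a τ f θ) (fun a => (θ : E3) a) 1 =
        DkM 2 τ f θ * (θ : E3) 0 - DkM 0 τ f θ * (θ : E3) 2 := by
      simp [cr, eps, Fin.sum_univ_three]; ring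
    have g2 : cr (fun a => DkM a τ f θ) (fun a => (θ : E3) a) 2 =
        DkM 0 τ f θ * (θ : E3) 1 - DkM 1 τ f θ * (θ : E3) 0 := by
      simp [cr, eps, Fin.sum_univ_three]; ring
    rw [g0, g1, g2, hDk, hDk, hDk, c0, c1, c2, hinx, hDx, hDθ, hDv]
    simp only [map_sub, map_smul, smul_eq_mul]
    have hcoef : ∀ A B : ℝ, ‖x‖⁻¹ ^ 3 * (‖x‖ * A) * (‖x‖ * B) = ‖x‖⁻¹ * (A * B) := fun A B => by
      field_simp
    rw [hcoef]
    set t0 := (θ : E3) 0
    set t1 := (θ : E3) 1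
    set t2 := (θ : E3) 2
    linear_combination (-(r * ‖x‖⁻¹ * (v 0 * D (bv 0) + v 1 * D (bv 1) + v 2 * D (bv 2)))) * hsq

/-! ### Commutation -/

theorem pb_norm_rot (k : Fin 3) (s : ℝ) (θ : S2) : ‖rotF k s (θ : E3)‖ = 1 := by
  rw [rotF_norm, norm_S2]

theorem pb_comm_f (k : Fin 3) {f : C(S2, ℝ)} {G : Fin 3 → S2 → ℝ} {g : C(S2, ℝ)}
    (hf : IsC1S f G) (hg : ∀ θ, g θ = cr (fun a => (θ : E3) a) (fun a => G a θ) k) (θ : S2) (s : ℝ) :
    HasDerivAt (fun s => f (rotS (rotI k s) θ)) (g (rotS (rotI k s) θ)) s := by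
  set φ := rotS (rotI k s) θ with hφ
  have h1 := hf.2 (rotF k s (θ : E3)) (by
    intro h
    have := pb_norm_rot k s θ
    rw [h, norm_zero] at this
    exact zero_ne_one this)
  have hdir : ∀ s, dirS (rotF k s (θ : E3)) = rotS (rotI k s) θ := fun s => dirS_S2 (rotS (rotI k s) θ)
  have h2 := HasFDerivAt.comp_hasDerivAt (l := fun y => f (dirS y)) (f := fun s => rotF k s (θ : E3)) s
    h1 (rotF_deriv k s (θ : E3))
  have h3 : ((fun y => f (dirS y)) ∘ fun s => rotF k s (θ : E3)) = fun s => f (rotS (rotI k s) θ) := by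
    funext s
    simp only [Function.comp_apply, hdir]
  rw [h3, hdir s, ← hφ, pb_norm_rot, inv_one, one_smul] at h2
  refine h2.congr_deriv ?_
  have h4 : rotF k s (θ : E3) = (φ : E3) := rfl
  rw [h4, hg, innerSL_apply_apply, ker2_inner, cxL_apply, ker2_cx_eq]
  fin_cases k <;> simp [cr, eps, Fin.sum_univ_three] <;> ring

theorem pb_comm_p (k : Fin 3) {τ : ℝ} (hτ : 0 < τ) (h : C(S2, ℝ)) (θ : S2) (s : ℝ) :
    HasDerivAt (fun s => PoM τ h (rotS (rotI k s) θ)) (DkM k τ h (rotS (rotI k s) θ)) s := by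
  have h1 : (fun s => PoM τ h (rotS (rotI k s) θ)) = fun s => PE h (Real.exp (-τ) • rotF k s (θ : E3)) := by
    funext s
    rw [PoM_apply hτ]
    rfl
  rw [h1]
  have h2 : HasDerivAt (fun s => Real.exp (-τ) • rotF k s (θ : E3))
      (Real.exp (-τ) • cxL k (rotF k s (θ : E3))) s := (rotF_deriv k s (θ : E3)).const_smul (Real.exp (-τ))
  have h3 := HasFDerivAt.comp_hasDerivAt (l := PE h)
    (f := fun s => Real.exp (-τ) • rotF k s (θ : E3)) s
    (pb_diff h (pb_norm_lt hτ (rotS (rotI k s) θ))) h2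
  rw [pb_Dk k hτ, map_smul (cxL k)]
  exact h3

theorem DkM_comm (k : Fin 3) (τ : ℝ) (f : C(S2, ℝ)) (G : Fin 3 → S2 → ℝ) (g : C(S2, ℝ))
    (hτ : 0 < τ) (hf : IsC1S f G)
    (hg : ∀ θ, g θ = cr (fun a => (θ : E3) a) (fun a => G a θ) k) : DkM k τ f = PoM τ g := by
  refine pb_dual (fun h => ?_)
  rw [DkM_skew k τ f h hτ, PoM_symm]
  set p := PoM τ h with hp
  set q := DkM k τ h with hq
  -- the integral of the derivative of `f * p` vanishes
  set Φ : C(S2, ℝ) := g * p + f * q with hΦ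
  have hder : ∀ θ s, HasDerivAt (fun s => f (rotS (rotI k s) θ) * p (rotS (rotI k s) θ))
      (Φ (rotS (rotI k s) θ)) s := fun θ s => by
    have := (pb_comm_f k hf hg θ s).mul (pb_comm_p k hτ h θ s)
    exact this
  have hmain := hasDerivAt_integral_of_dominated_loc_of_deriv_le (𝕜 := ℝ) (μ := sig)
    (F := fun s θ => f (rotS (rotI k s) θ) * p (rotS (rotI k s) θ))
    (F' := fun s θ => Φ (rotS (rotI k s) θ)) (x₀ := 0) (s := univ) (bound := fun _ => ‖Φ‖)
    univ_mem ?_ ?_ ?_ ?_ ?_ ?_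
  · have hconst : ∀ s, ∫ θ, f (rotS (rotI k s) θ) * p (rotS (rotI k s) θ) ∂sig =
        ∫ θ, f θ * p θ ∂sig := fun s => sig_integral_rotS (rotI k s) (fun θ => f θ * p θ)
    have h1 : HasDerivAt (fun s => ∫ θ, f (rotS (rotI k s) θ) * p (rotS (rotI k s) θ) ∂sig) 0 0 := by
      have : (fun s => ∫ θ, f (rotS (rotI k s) θ) * p (rotS (rotI k s) θ) ∂sig) =
          fun _ => ∫ θ, f θ * p θ ∂sig := funext hconst
      rw [this]
      exact hasDerivAt_const _ _
    have h2 := hmain.2.unique h1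
    rw [sig_integral_rotS (rotI k 0) (fun θ => Φ θ)] at h2
    have hi1 : Integrable (fun θ => g θ * p θ) sig := ker2_integrable (g.continuous.mul p.continuous)
    have hi2 : Integrable (fun θ => f θ * q θ) sig := ker2_integrable (f.continuous.mul q.continuous)
    have h3 : ∫ θ, Φ θ ∂sig = ∫ θ, g θ * p θ ∂sig + ∫ θ, f θ * q θ ∂sig := integral_add hi1 hi2
    rw [h3] at h2
    linarith
  · exact Eventually.of_forall (fun s => ((f.continuous.comp (continuous_rotS _)).mul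
      (p.continuous.comp (continuous_rotS _))).aestronglyMeasurable)
  · exact ker2_integrable ((f.continuous.comp (continuous_rotS _)).mul
      (p.continuous.comp (continuous_rotS _)))
  · exact (Φ.continuous.comp (continuous_rotS _)).aestronglyMeasurable
  · exact Eventually.of_forall (fun θ s _ => Φ.norm_coe_le_norm _)
  · exact integrable_const _
  · exact Eventually.of_forall (fun θ s _ => hder θ s)

end

end Pool.Agent.BS
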