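import Pool.Agent.BS.PoiB

/-!
# Module POIC: bounds of the Poisson operators
-/

namespace Pool.Agent.BS

open MeasureTheory Topology Set Filter
open scoped ContDiff

noncomputable section

theorem poic_norm_le (g : C(S2, ℝ)) {B : ℝ} (hB : 0 ≤ B) (h : ∀ θ, |g θ| ≤ B) : ‖g‖ ≤ B :=
  (ContinuousMap.norm_le g hB).2 h

theorem poic_sq (θ : S2) : (θ : E3) 0 ^ 2 + (θ : E3) 1 ^ 2 + (θ : E3) 2 ^ 2 = 1 := by
  have h := norm_S2 θ
  have h2 := EuclideanSpace.norm_sq_eq (θ : E3)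
  rw [h, Fin.sum_univ_three] at h2
  simp only [Real.norm_eq_abs, sq_abs] at h2
  linarith

theorem poic_cross (k : Fin 3) (θ : S2) :
    ‖mkE (cr (fun a => (bv k) a) (fun a => (θ : E3) a))‖ ≤ 1 := by
  have h2 := EuclideanSpace.norm_sq_eq (mkE (cr (fun a => (bv k) a) (fun a => (θ : E3) a)))
  rw [Fin.sum_univ_three] at h2
  simp only [Real.norm_eq_abs, sq_abs, mkE_apply] at h2
  have hs := poic_sq θ
  have h3 : ‖mkE (cr (fun a => (bv k) a) (fun a => (θ : E3) a))‖ ^ 2 ≤ 1 := by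
    rw [h2]
    fin_cases k <;> simp [cr, eps, bv, Fin.sum_univ_three] <;>
      nlinarith [sq_nonneg ((θ : E3) 0), sq_nonneg ((θ : E3) 1), sq_nonneg ((θ : E3) 2)]
  have h4 := norm_nonneg (mkE (cr (fun a => (bv k) a) (fun a => (θ : E3) a)))
  nlinarith

theorem poic_inner (k : Fin 3) (θ : S2) :
    inner ℝ (mkE (cr (fun a => (bv k) a) (fun a => (θ : E3) a))) (θ : E3) = 0 := by
  rw [PiLp.inner_apply, Fin.sum_univ_three]
  fin_cases k <;> simp [cr, eps, bv, Fin.sum_univ_three] <;> ring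

theorem poic_exp_lt {τ : ℝ} (h : 0 < τ) : Real.exp (-τ) < 1 := by
  rw [Real.exp_lt_one_iff]; linarith

theorem poic_inv {τ : ℝ} (h : 0 < τ) : (1 - Real.exp (-τ))⁻¹ ≤ 1 + τ⁻¹ := by
  have h1 := Real.add_one_le_exp τ
  have h2 := poic_exp_lt h
  have h3 : Real.exp (-τ) * Real.exp τ = 1 := by rw [← Real.exp_add]; simp
  have h4 := Real.exp_pos (-τ)
  have h5 : Real.exp (-τ) * (τ + 1) ≤ 1 := by
    calc Real.exp (-τ) * (τ + 1) ≤ Real.exp (-τ) * Real.exp τ := by gcongr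
      _ = 1 := h3
  rw [inv_le_comm₀ (by linarith) (by positivity)]
  have h6 : (1 + τ⁻¹)⁻¹ = τ / (τ + 1) := by field_simp
  rw [h6, div_le_iff₀ (by linarith)]
  nlinarith

theorem poic_norm_smul (τ : ℝ) (θ : S2) : ‖Real.exp (-τ) • (θ : E3)‖ = Real.exp (-τ) := by
  rw [norm_smul, norm_S2, mul_one, Real.norm_of_nonneg (Real.exp_pos _).le]

theorem poic_grad {τ : ℝ} (h : 0 < τ) (f : C(S2, ℝ)) (x : E3) (hx : ‖x‖ ≤ Real.exp (-τ)) :
    ‖fderiv ℝ (PE f) x‖ ≤ 5 * (1 + τ⁻¹) * ‖f‖ := by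
  have h1 := poic_exp_lt h
  have h2 := PE_grad f x (hx.trans_lt h1)
  refine h2.trans ?_
  have h3 := poic_inv h
  have h4 : (1 - ‖x‖)⁻¹ ≤ (1 - Real.exp (-τ))⁻¹ := by
    apply inv_anti₀ (by linarith) (by linarith)
  rw [div_eq_mul_inv]
  have h5 := norm_nonneg f
  calc 5 * ‖f‖ * (1 - ‖x‖)⁻¹ ≤ 5 * ‖f‖ * (1 + τ⁻¹) := by gcongr; exact h4.trans h3
    _ = 5 * (1 + τ⁻¹) * ‖f‖ := by ring

/-- expansion of the kernel -/
theorem poic_poly (r c D : ℝ) (hr0 : 0 ≤ r) (hr : r ≤ 1 / 2) (hc : |c| ≤ 1) (hD0 : 0 ≤ D)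
    (hD : D ^ 2 = 1 - 2 * r * c + r ^ 2) :
    |(1 - r ^ 2) / D ^ 3 - 1 - 3 * r * c| ≤ 200 * r ^ 2 := by
  obtain ⟨hc1, hc2⟩ := abs_le.1 hc
  have hs : |r * c| ≤ r := by
    rw [abs_mul, abs_of_nonneg hr0]
    nlinarith
  obtain ⟨hs1, hs2⟩ := abs_le.1 hs
  set s := r * c with hsdef
  have hD' : D ^ 2 = 1 - 2 * s + r ^ 2 := by rw [hD, hsdef]; ring
  have hDlow : 1 / 2 ≤ D := by
    by_contra hcon
    push Not at hcon
    nlinarith
  have hs3 : s ^ 2 ≤ r ^ 2 := by nlinarith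
  -- δ
  obtain ⟨δ, hδ⟩ : ∃ δ, δ = D - (1 - s) := ⟨_, rfl⟩
  have hδe : δ * (D + (1 - s)) = r ^ 2 - s ^ 2 := by
    rw [hδ]; linear_combination hD'
  have hden : 1 ≤ D + (1 - s) := by linarith
  have hδ0 : 0 ≤ δ := by
    by_contra hcon
    push Not at hcon
    nlinarith
  have hδ1 : δ ≤ r ^ 2 := by nlinarith [sq_nonneg s]
  have hDs : D = 1 - s + δ := by rw [hδ]; ring
  have hD3 : D ^ 3 = (1 - 2 * s + r ^ 2) * (1 - s + δ) := by
    calc D ^ 3 = D ^ 2 * D := by ring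
      _ = _ := by rw [hD', ← hDs]
  have hD3pos : 1 / 8 ≤ D ^ 3 := by
    calc (1 / 8 : ℝ) = (1 / 2) ^ 3 := by norm_num
      _ ≤ D ^ 3 := by gcongr
  have hkey : (1 - r ^ 2) / D ^ 3 - 1 - 3 * r * c
      = ((1 - r ^ 2) - (1 + 3 * s) * D ^ 3) / D ^ 3 := by
    have : D ^ 3 ≠ 0 := by linarith
    rw [hsdef]
    field_simp
    ring
  rw [hkey, abs_div, abs_of_pos (by linarith : 0 < D ^ 3), div_le_iff₀ (by linarith)]
  have hE : (1 - r ^ 2) - (1 + 3 * s) * D ^ 3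
      = -r ^ 2 + 7 * s ^ 2 - 6 * s ^ 3 - (1 + 3 * s) * (r ^ 2 * (1 - s + δ) + (1 - 2 * s) * δ) := by
    rw [hD3]; ring
  have hb1 : |s ^ 3| ≤ r ^ 2 := by
    rw [abs_pow]
    calc |s| ^ 3 ≤ r ^ 3 := by gcongr
      _ ≤ r ^ 2 := by nlinarith [sq_nonneg r]
  have hb2 : 0 ≤ r ^ 2 * (1 - s + δ) + (1 - 2 * s) * δ := by
    have : 0 ≤ 1 - s + δ := by linarith
    have : 0 ≤ 1 - 2 * s := by linarith
    positivity
  have hb3 : r ^ 2 * (1 - s + δ) + (1 - 2 * s) * δ ≤ 4 * r ^ 2 := by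
    have h1 : 1 - s + δ ≤ 2 := by nlinarith
    have h2 : (1 - 2 * s) * δ ≤ 2 * r ^ 2 := by
      calc (1 - 2 * s) * δ ≤ 2 * δ := by gcongr; linarith
        _ ≤ 2 * r ^ 2 := by gcongr
    have h3 : r ^ 2 * (1 - s + δ) ≤ r ^ 2 * 2 := by gcongr
    linarith
  have hb4 : |(1 + 3 * s) * (r ^ 2 * (1 - s + δ) + (1 - 2 * s) * δ)| ≤ 3 * (4 * r ^ 2) := by
    rw [abs_mul, abs_of_nonneg hb2]
    have : |1 + 3 * s| ≤ 3 := by rw [abs_le]; constructor <;> linarith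
    gcongr
  obtain ⟨k1, k2⟩ := abs_le.1 hb1
  obtain ⟨k3, k4⟩ := abs_le.1 hb4
  have hr2 : 0 ≤ r ^ 2 := sq_nonneg r
  have hs2' : 0 ≤ s ^ 2 := sq_nonneg s
  have hfin : |(1 - r ^ 2) - (1 + 3 * s) * D ^ 3| ≤ 25 * r ^ 2 := by
    rw [hE, abs_le]
    constructor <;> linarith
  calc |(1 - r ^ 2) - (1 + 3 * s) * D ^ 3| ≤ 25 * r ^ 2 := hfin
    _ = 200 * r ^ 2 * (1 / 8) := by ring
    _ ≤ 200 * r ^ 2 * D ^ 3 := by gcongr

theorem poic_kernel (r : ℝ) (hr0 : 0 ≤ r) (hr : r ≤ 1 / 2) (θ η : S2) :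
    |pk (r • (θ : E3)) η - (4 * Real.pi)⁻¹ - (4 * Real.pi)⁻¹ * (3 * r) * inner ℝ (θ : E3) (η : E3)|
      ≤ 20 * r ^ 2 := by
  have hc : |inner ℝ (θ : E3) (η : E3)| ≤ 1 := by
    have := abs_real_inner_le_norm (θ : E3) (η : E3)
    rwa [norm_S2, norm_S2, mul_one] at this
  have hD : ‖r • (θ : E3) - (η : E3)‖ ^ 2 = 1 - 2 * r * inner ℝ (θ : E3) (η : E3) + r ^ 2 := by
    rw [norm_sub_sq_real, norm_smul, norm_S2, norm_S2, inner_smul_left]
    simp
    ring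
  have h := poic_poly r _ _ hr0 hr hc (norm_nonneg (r • (θ : E3) - (η : E3))) hD
  have hpi : 3 < Real.pi := Real.pi_gt_three
  have hn : ‖r • (θ : E3)‖ = r := by rw [norm_smul, norm_S2, mul_one, Real.norm_of_nonneg hr0]
  have he : pk (r • (θ : E3)) η - (4 * Real.pi)⁻¹
      - (4 * Real.pi)⁻¹ * (3 * r) * inner ℝ (θ : E3) (η : E3)
      = (4 * Real.pi)⁻¹ * ((1 - r ^ 2) / ‖r • (θ : E3) - (η : E3)‖ ^ 3 - 1
        - 3 * r * inner ℝ (θ : E3) (η : E3)) := by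
    unfold pk
    rw [hn, mul_sub, mul_sub, mul_one, div_mul_eq_div_div_swap]
    ring
  rw [he, abs_mul, abs_of_pos (by positivity)]
  have h12 : (4 * Real.pi)⁻¹ ≤ 1 / 12 := by
    rw [inv_le_comm₀ (by positivity) (by norm_num)]
    norm_num
    linarith
  calc (4 * Real.pi)⁻¹ * |(1 - r ^ 2) / ‖r • (θ : E3) - (η : E3)‖ ^ 3 - 1
        - 3 * r * inner ℝ (θ : E3) (η : E3)| ≤ 1 / 12 * (200 * r ^ 2) := by gcongr
    _ ≤ 20 * r ^ 2 := by nlinarith [sq_nonneg r]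

theorem poic_integrable {g : S2 → ℝ} (hg : Continuous g) : Integrable g sig :=
  hg.integrable_of_hasCompactSupport (HasCompactSupport.of_compactSpace g)

theorem poic_pk_cont (x : E3) (hx : ‖x‖ < 1) : Continuous (fun η : S2 => pk x η) := by
  unfold pk
  refine Continuous.div continuous_const (by fun_prop) ?_
  intro η
  have h1 : x - (η : E3) ≠ 0 := by
    intro h0
    have h2 : x = η := sub_eq_zero.1 h0
    rw [h2, norm_S2] at hx
    exact lt_irrefl _ hx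
  have h3 : 0 < ‖x - (η : E3)‖ := norm_pos_iff.2 h1
  have := Real.pi_pos
  positivity

theorem poic_split (r : ℝ) (hr0 : 0 ≤ r) (hr : r ≤ 1 / 2) (θ : S2) (f : C(S2, ℝ))
    (h0 : ∫ θ, f θ ∂sig = 0) :
    |PE f (r • (θ : E3)) - (4 * Real.pi)⁻¹ * (3 * r) * ∑ i, (θ : E3) i * ∫ η, xi i η * f η ∂sig|
      ≤ 20 * r ^ 2 * ‖f‖ * sig.real univ := by
  have hx : ‖r • (θ : E3)‖ < 1 := by
    rw [norm_smul, norm_S2, mul_one, Real.norm_of_nonneg hr0]; linarith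
  have c1 := poic_pk_cont _ hx
  have i1 : Integrable (fun η : S2 => pk (r • (θ : E3)) η * f η) sig :=
    poic_integrable (c1.mul f.continuous)
  have i2 : Integrable (fun η : S2 => (4 * Real.pi)⁻¹ * f η) sig :=
    poic_integrable (by fun_prop)
  have i3 : ∀ i ∈ (Finset.univ : Finset (Fin 3)), Integrable
      (fun η : S2 => (θ : E3) i * (xi i η * f η)) sig :=
    fun i _ => poic_integrable (by fun_prop)
  have i4 : Integrable (fun η : S2 => (4 * Real.pi)⁻¹ * (3 * r) *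
      ∑ i, (θ : E3) i * (xi i η * f η)) sig := poic_integrable (by fun_prop)
  have e1 : PE f (r • (θ : E3)) - (4 * Real.pi)⁻¹ * (3 * r) *
      ∑ i, (θ : E3) i * ∫ η, xi i η * f η ∂sig = ∫ η, (pk (r • (θ : E3)) η * f η -
        (4 * Real.pi)⁻¹ * f η - (4 * Real.pi)⁻¹ * (3 * r) *
        ∑ i, (θ : E3) i * (xi i η * f η)) ∂sig := by
    have i12 : Integrable (fun η : S2 => pk (r • (θ : E3)) η * f η -
      (4 * Real.pi)⁻¹ * f η) sig := i1.sub i2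
    rw [integral_sub i12 i4, integral_sub i1 i2, integral_const_mul, h0,
      integral_const_mul, integral_finsetSum _ i3]
    simp only [integral_const_mul]
    unfold PE
    ring
  rw [e1]
  have hb : ∀ η : S2, ‖pk (r • (θ : E3)) η * f η - (4 * Real.pi)⁻¹ * f η -
      (4 * Real.pi)⁻¹ * (3 * r) * ∑ i, (θ : E3) i * (xi i η * f η)‖ ≤ 20 * r ^ 2 * ‖f‖ := by
    intro η
    have hk := poic_kernel r hr0 hr θ η
    have hin : inner ℝ (θ : E3) (η : E3) = ∑ i, (θ : E3) i * xi i η := by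
      rw [PiLp.inner_apply]
      apply Finset.sum_congr rfl
      intro i _
      simp [xi, mul_comm]
    have he : pk (r • (θ : E3)) η * f η - (4 * Real.pi)⁻¹ * f η -
      (4 * Real.pi)⁻¹ * (3 * r) * ∑ i, (θ : E3) i * (xi i η * f η) =
      (pk (r • (θ : E3)) η - (4 * Real.pi)⁻¹
        - (4 * Real.pi)⁻¹ * (3 * r) * inner ℝ (θ : E3) (η : E3)) * f η := by
      rw [hin]
      have : ∑ i, (θ : E3) i * (xi i η * f η) = (∑ i, (θ : E3) i * xi i η) * f η := by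
        rw [Finset.sum_mul]
        apply Finset.sum_congr rfl
        intro i _
        ring
      rw [this]
      ring
    rw [he, Real.norm_eq_abs, abs_mul]
    have hf := f.norm_coe_le_norm η
    rw [Real.norm_eq_abs] at hf
    gcongr
  exact norm_integral_le_of_norm_le_const (Eventually.of_forall hb)

theorem poic_xi_bound (f : C(S2, ℝ)) (i : Fin 3) :
    |∫ η, xi i η * f η ∂sig| ≤ ‖f‖ * sig.real univ := by
  rw [← Real.norm_eq_abs]
  refine norm_integral_le_of_norm_le_const (μ := sig) (Eventually.of_forall fun η => ?_)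
  rw [norm_mul]
  have hf := f.norm_coe_le_norm η
  have h1 : ‖xi i η‖ ≤ 1 := by
    have := PiLp.norm_apply_le (η : E3) i
    rw [norm_S2] at this
    exact this
  calc ‖xi i η‖ * ‖f η‖ ≤ 1 * ‖f‖ := by gcongr
    _ = ‖f‖ := one_mul _

theorem PoM_decay : ∃ C : ℝ, 0 < C ∧ ∀ (τ : ℝ) (f : C(S2, ℝ)), 0 ≤ τ → ∫ θ, f θ ∂sig = 0 →
    ‖PoM τ f‖ ≤ C * Real.exp (-τ) * ‖f‖ ∧ ((∀ i, ∫ θ, xi i θ * f θ ∂sig = 0) →
      ‖PoM τ f‖ ≤ C * Real.exp (-(2 * τ)) * ‖f‖) := by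
  set S : ℝ := sig.real univ with hS
  have hS0 : 0 ≤ S := measureReal_nonneg
  refine ⟨4 + 30 * S, by positivity, fun τ f hτ h0 => ?_⟩
  have hr0 := Real.exp_pos (-τ)
  have hr1 : Real.exp (-τ) ≤ 1 := by rw [Real.exp_le_one_iff]; linarith
  have hr2 : Real.exp (-(2 * τ)) = Real.exp (-τ) ^ 2 := by
    rw [← Real.exp_nat_mul]; congr 1; push_cast; ring
  have hf0 := norm_nonneg f
  rw [hr2]
  rcases le_or_gt (Real.exp (-τ)) (1 / 2) with hr | hr
  · have hτ0 : 0 < τ := by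
      rcases hτ.lt_or_eq with h | h
      · exact h
      · rw [← h] at hr; norm_num at hr
    have hpi : 3 < Real.pi := Real.pi_gt_three
    have h12 : (4 * Real.pi)⁻¹ ≤ 1 / 12 := by
      rw [inv_le_comm₀ (by positivity) (by norm_num)]
      norm_num
      linarith
    refine ⟨poic_norm_le _ (by positivity) fun θ => ?_, fun h1 =>
      poic_norm_le _ (by positivity) fun θ => ?_⟩
    · rw [PoM_apply hτ0]
      have h2 := poic_split _ hr0.le hr θ f h0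
      have h3 : |(4 * Real.pi)⁻¹ * (3 * Real.exp (-τ)) *
          ∑ i, (θ : E3) i * ∫ η, xi i η * f η ∂sig| ≤ 1 / 12 * (3 * Real.exp (-τ)) *
          (3 * (‖f‖ * S)) := by
        rw [abs_mul, abs_of_nonneg (a := (4 * Real.pi)⁻¹ * (3 * Real.exp (-τ))) (by positivity)]
        have h4 : |∑ i, (θ : E3) i * ∫ η, xi i η * f η ∂sig| ≤ 3 * (‖f‖ * S) := by
          refine (Finset.abs_sum_le_sum_abs _ _).trans ?_
          calc ∑ i, |(θ : E3) i * ∫ η, xi i η * f η ∂sig| ≤ ∑ i : Fin 3, (‖f‖ * S) := by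
                apply Finset.sum_le_sum
                intro i _
                rw [abs_mul]
                have h5 := PiLp.norm_apply_le (θ : E3) i
                rw [norm_S2, Real.norm_eq_abs] at h5
                have h6 := poic_xi_bound f i
                calc |(θ : E3) i| * |∫ η, xi i η * f η ∂sig| ≤ 1 * (‖f‖ * S) := by gcongr
                  _ = ‖f‖ * S := one_mul _
            _ = 3 * (‖f‖ * S) := by simp
        gcongr
      have h7 : |PE f (Real.exp (-τ) • (θ : E3))| ≤ 20 * Real.exp (-τ) ^ 2 * ‖f‖ * S +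
          1 / 12 * (3 * Real.exp (-τ)) * (3 * (‖f‖ * S)) := by
        have h8 := abs_add_le (PE f (Real.exp (-τ) • (θ : E3)) - (4 * Real.pi)⁻¹ *
          (3 * Real.exp (-τ)) * ∑ i, (θ : E3) i * ∫ η, xi i η * f η ∂sig) ((4 * Real.pi)⁻¹ *
          (3 * Real.exp (-τ)) * ∑ i, (θ : E3) i * ∫ η, xi i η * f η ∂sig)
        rw [sub_add_cancel] at h8
        linarith
      refine h7.trans ?_
      have h9 : Real.exp (-τ) ^ 2 ≤ Real.exp (-τ) * (1 / 2) := by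
        rw [sq]; gcongr
      calc 20 * Real.exp (-τ) ^ 2 * ‖f‖ * S + 1 / 12 * (3 * Real.exp (-τ)) * (3 * (‖f‖ * S))
          ≤ 20 * (Real.exp (-τ) * (1 / 2)) * ‖f‖ * S +
            1 / 12 * (3 * Real.exp (-τ)) * (3 * (‖f‖ * S)) := by gcongr
        _ = (43 / 4 * S) * Real.exp (-τ) * ‖f‖ := by ring
        _ ≤ (4 + 30 * S) * Real.exp (-τ) * ‖f‖ := by gcongr; linarith
    · rw [PoM_apply hτ0]
      have h2 := poic_split _ hr0.le hr θ f h0
      simp only [h1, mul_zero, Finset.sum_const_zero, sub_zero] at h2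
      refine h2.trans ?_
      calc 20 * Real.exp (-τ) ^ 2 * ‖f‖ * S = (20 * S) * Real.exp (-τ) ^ 2 * ‖f‖ := by ring
        _ ≤ (4 + 30 * S) * Real.exp (-τ) ^ 2 * ‖f‖ := by gcongr; linarith
  · have h1 := PoM_norm τ f
    have hr3 : 1 ≤ 4 * Real.exp (-τ) ^ 2 := by nlinarith
    have hr4 : 1 ≤ 4 * Real.exp (-τ) := by linarith
    refine ⟨h1.trans ?_, fun _ => h1.trans ?_⟩
    · calc ‖f‖ = 1 * ‖f‖ := (one_mul _).symm
        _ ≤ 4 * Real.exp (-τ) * ‖f‖ := by gcongr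
        _ ≤ (4 + 30 * S) * Real.exp (-τ) * ‖f‖ := by gcongr; linarith [hS0]
    · calc ‖f‖ = 1 * ‖f‖ := (one_mul _).symm
        _ ≤ 4 * Real.exp (-τ) ^ 2 * ‖f‖ := by gcongr
        _ ≤ (4 + 30 * S) * Real.exp (-τ) ^ 2 * ‖f‖ := by gcongr; linarith [hS0]

theorem poic_DkM_norm (k : Fin 3) (τ : ℝ) (f : C(S2, ℝ)) (hτ : 0 < τ) :
    ‖DkM k τ f‖ ≤ 5 * (1 + τ⁻¹) * Real.exp (-τ) * ‖f‖ := by
  refine poic_norm_le _ (by positivity) fun θ => ?_
  rw [DkM_apply k hτ]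
  have h1 := poic_grad hτ f _ (poic_norm_smul τ θ).le
  have h2 := poic_cross k θ
  have h3 := (fderiv ℝ (PE f) (Real.exp (-τ) • (θ : E3))).le_opNorm
    (Real.exp (-τ) • mkE (cr (fun a => (bv k) a) (fun a => (θ : E3) a)))
  rw [norm_smul, Real.norm_of_nonneg (Real.exp_pos _).le] at h3
  refine h3.trans ?_
  calc ‖fderiv ℝ (PE f) (Real.exp (-τ) • (θ : E3))‖ *
        (Real.exp (-τ) * ‖mkE (cr (fun a => (bv k) a) (fun a => (θ : E3) a))‖)
      ≤ (5 * (1 + τ⁻¹) * ‖f‖) * (Real.exp (-τ) * 1) := by gcongr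
    _ = 5 * (1 + τ⁻¹) * Real.exp (-τ) * ‖f‖ := by ring

theorem poic_LaM_norm (τ : ℝ) (f : C(S2, ℝ)) (hτ : 0 < τ) :
    ‖LaM τ f‖ ≤ 5 * (1 + τ⁻¹) * Real.exp (-τ) * ‖f‖ := by
  refine poic_norm_le _ (by positivity) fun θ => ?_
  rw [LaM_apply hτ]
  have h1 := poic_grad hτ f _ (poic_norm_smul τ θ).le
  have h3 := (fderiv ℝ (PE f) (Real.exp (-τ) • (θ : E3))).le_opNorm (Real.exp (-τ) • (θ : E3))
  rw [poic_norm_smul] at h3
  refine h3.trans ?_
  calc ‖fderiv ℝ (PE f) (Real.exp (-τ) • (θ : E3))‖ * Real.exp (-τ)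
      ≤ (5 * (1 + τ⁻¹) * ‖f‖) * Real.exp (-τ) := by gcongr
    _ = 5 * (1 + τ⁻¹) * Real.exp (-τ) * ‖f‖ := by ring

theorem DkM_norm : ∃ C : ℝ, 0 < C ∧ ∀ (k : Fin 3) (τ : ℝ) (f : C(S2, ℝ)), 0 < τ →
    ‖DkM k τ f‖ ≤ C * (1 + τ⁻¹) * Real.exp (-τ) * ‖f‖ ∧
    ‖LaM τ f‖ ≤ C * (1 + τ⁻¹) * Real.exp (-τ) * ‖f‖ :=
  ⟨5, by norm_num, fun k τ f hτ => ⟨poic_DkM_norm k τ f hτ, poic_LaM_norm τ f hτ⟩⟩

theorem PoM_lip : ∃ C : ℝ, 0 < C ∧ ∀ (τ : ℝ) (f : C(S2, ℝ)) (θ η : S2), 0 < τ →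
    |PoM τ f θ - PoM τ f η| ≤ C * (1 + τ⁻¹) * Real.exp (-τ) * ‖f‖ * dist θ η := by
  refine ⟨5, by norm_num, fun τ f θ η hτ => ?_⟩
  rw [PoM_apply hτ, PoM_apply hτ]
  have hlt := poic_exp_lt hτ
  have hconv : Convex ℝ (Metric.closedBall (0 : E3) (Real.exp (-τ))) := convex_closedBall _ _
  have hdiff : ∀ x ∈ Metric.closedBall (0 : E3) (Real.exp (-τ)), DifferentiableAt ℝ (PE f) x := by
    intro x hx
    rw [mem_closedBall_zero_iff] at hx
    have hxb : x ∈ Metric.ball (0 : E3) 1 := by rw [mem_ball_zero_iff]; linarith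
    exact ((PE_smooth f).differentiableOn (by simp)).differentiableAt
      (Metric.isOpen_ball.mem_nhds hxb)
  have h1 := hconv.norm_image_sub_le_of_norm_fderiv_le (𝕜 := ℝ) (f := PE f)
    (C := 5 * (1 + τ⁻¹) * ‖f‖) hdiff
    (fun x hx => poic_grad hτ f x (by rwa [mem_closedBall_zero_iff] at hx))
    (x := Real.exp (-τ) • (η : E3)) (y := Real.exp (-τ) • (θ : E3))
    (by rw [mem_closedBall_zero_iff, poic_norm_smul])
    (by rw [mem_closedBall_zero_iff, poic_norm_smul])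
  rw [← smul_sub, norm_smul, Real.norm_of_nonneg (Real.exp_pos _).le] at h1
  rw [Real.norm_eq_abs] at h1
  refine h1.trans (le_of_eq ?_)
  have : dist θ η = ‖(θ : E3) - (η : E3)‖ := by rw [Subtype.dist_eq, dist_eq_norm]
  rw [this]
  ring

theorem poic_sqrt_inv {τ : ℝ} (h : 0 < τ) :
    (Real.sqrt (1 - Real.exp (-τ)))⁻¹ ≤ 1 + (Real.sqrt τ)⁻¹ := by
  have h1 := poic_inv h
  have h2 := poic_exp_lt h
  rw [← Real.sqrt_inv]
  have h3 : Real.sqrt (1 - Real.exp (-τ))⁻¹ ≤ Real.sqrt (1 + τ⁻¹) := Real.sqrt_le_sqrt h1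
  refine h3.trans ?_
  rw [Real.sqrt_le_left (by positivity), ← Real.sqrt_inv]
  have h4 := Real.sq_sqrt (x := τ⁻¹) (by positivity)
  nlinarith [Real.sqrt_nonneg τ⁻¹]

theorem poic_DkM_hol (k : Fin 3) (τ : ℝ) (f : C(S2, ℝ)) (A : ℝ) (hτ : 0 < τ) (hA : 0 ≤ A)
    (hf : ∀ θ η, |f θ - f η| ≤ A * Real.sqrt (dist θ η)) :
    ‖DkM k τ f‖ ≤ 5 * (1 + (Real.sqrt τ)⁻¹) * Real.exp (-τ) * A := by
  refine poic_norm_le _ (by positivity) fun θ => ?_
  rw [DkM_apply k hτ]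
  have hlt := poic_exp_lt hτ
  have h1 := PE_hol f A hA hf (Real.exp (-τ) • (θ : E3))
    (Real.exp (-τ) • mkE (cr (fun a => (bv k) a) (fun a => (θ : E3) a)))
    (by rw [poic_norm_smul]; exact hlt)
    (by rw [inner_smul_left, inner_smul_right, poic_inner, mul_zero, mul_zero])
  refine h1.trans ?_
  rw [poic_norm_smul, norm_smul, Real.norm_of_nonneg (Real.exp_pos _).le, div_eq_mul_inv]
  have h2 := poic_cross k θ
  have h3 := poic_sqrt_inv hτ
  calc 5 * A * (Real.exp (-τ) * ‖mkE (cr (fun a => (bv k) a) (fun a => (θ : E3) a))‖) *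
        (Real.sqrt (1 - Real.exp (-τ)))⁻¹
      ≤ 5 * A * (Real.exp (-τ) * 1) * (1 + (Real.sqrt τ)⁻¹) := by gcongr
    _ = 5 * (1 + (Real.sqrt τ)⁻¹) * Real.exp (-τ) * A := by ring

theorem DkM_hol : ∃ C : ℝ, 0 < C ∧ ∀ (k : Fin 3) (τ : ℝ) (f : C(S2, ℝ)) (A : ℝ), 0 < τ → 0 ≤ A →
    (∀ θ η, |f θ - f η| ≤ A * Real.sqrt (dist θ η)) →
    ‖DkM k τ f‖ ≤ C * (1 + (Real.sqrt τ)⁻¹) * Real.exp (-τ) * A :=
  ⟨5, by norm_num, fun k τ f A hτ hA hf => poic_DkM_hol k τ f A hτ hA hf⟩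

/-- derivative of `s ↦ La s f` -/
theorem poic_LaM_deriv (s : ℝ) (f : C(S2, ℝ)) (hs : 0 < s) :
    HasDerivAt (fun t => LaM t f) (-(LaM (s / 2) (LaM (s / 2) f))) s := by
  have h1 : HasDerivAt (fun t => PoM t f) (-(LaM (s / 2) f)) (s - s / 2) := by
    have h := PoM_deriv (s / 2) f (by positivity)
    have e : s - s / 2 = s / 2 := by ring
    rw [e]; exact h
  have h2 : HasDerivAt (fun t : ℝ => t - s / 2) 1 s := (hasDerivAt_id s).sub_const _
  have h3 := h1.scomp s h2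
  have h4 := (LaM (s / 2)).hasFDerivAt.comp_hasDerivAt s h3
  have h5 : (fun t => LaM t f) =ᶠ[𝓝 s] (LaM (s / 2) ∘ (fun t => PoM t f) ∘ fun t => t - s / 2) := by
    have : ∀ᶠ t in 𝓝 s, s / 2 < t := lt_mem_nhds (by linarith)
    filter_upwards [this] with t ht
    have h6 := (LaM_add (s / 2) (t - s / 2) (by positivity) (by linarith)).1
    have e : s / 2 + (t - s / 2) = t := by ring
    rw [e] at h6
    rw [h6]
    rfl
  have h7 := h4.congr_of_eventuallyEq h5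
  simpa using h7

theorem poic_anti {g g' : ℝ → ℝ} {τ : ℝ} (h : ∀ s, τ ≤ s → HasDerivAt g (g' s) s)
    (h' : ∀ s, τ ≤ s → g' s ≤ 0) {T : ℝ} (hT : τ ≤ T) : g T ≤ g τ := by
  have h1 : AntitoneOn g (Ici τ) := antitoneOn_of_deriv_nonpos (convex_Ici τ)
    (fun s hs => (h s hs).continuousAt.continuousWithinAt)
    (fun s hs => (h s (interior_subset hs)).differentiableAt.differentiableWithinAt)
    (fun s hs => by rw [(h s (interior_subset hs)).deriv]; exact h' s (interior_subset hs))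
  exact h1 self_mem_Ici hT hT

/-- bound of the derivative -/
theorem poic_der_bound (s : ℝ) (f : C(S2, ℝ)) (A : ℝ) (hs : 0 < s) (hA : 0 ≤ A)
    (hf : ∀ θ η, |f θ - f η| ≤ A * Real.sqrt (dist θ η)) :
    ‖LaM (s / 2) (LaM (s / 2) f) + LaM s f‖ ≤
      600 * (1 + (Real.sqrt s)⁻¹ ^ 3) * Real.exp (-s) * A := by
  have hlap := PoM_lap (s / 2) (s / 2) f (by positivity) (by positivity)
  rw [add_halves] at hlap
  have h1 : LaM (s / 2) (LaM (s / 2) f) + LaM s f = -∑ k, DkM k (s / 2) (DkM k (s / 2) f) := by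
    rw [hlap, neg_neg]
  rw [h1, norm_neg]
  have hs2 : 0 < s / 2 := by positivity
  set y := (Real.sqrt s)⁻¹ with hy
  have hsq : Real.sqrt s ^ 2 = s := Real.sq_sqrt hs.le
  have hsp : 0 < Real.sqrt s := Real.sqrt_pos.2 hs
  have hy0 : 0 < y := inv_pos.2 hsp
  have hy2 : (s / 2)⁻¹ = 2 * y ^ 2 := by
    rw [hy, inv_pow, hsq]; field_simp
  have hy1 : (Real.sqrt (s / 2))⁻¹ ≤ 2 * y := by
    rw [← Real.sqrt_inv, hy2, Real.sqrt_le_left (by positivity)]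
    nlinarith
  have hk : ∀ k, ‖DkM k (s / 2) (DkM k (s / 2) f)‖ ≤ 200 * (1 + y ^ 3) * Real.exp (-s) * A := by
    intro k
    have e1 := poic_DkM_norm k (s / 2) (DkM k (s / 2) f) hs2
    have e2 := poic_DkM_hol k (s / 2) f A hs2 hA hf
    have e3 : Real.exp (-(s / 2)) * Real.exp (-(s / 2)) = Real.exp (-s) := by
      rw [← Real.exp_add]; congr 1; ring
    have e4 : (1 + 2 * y ^ 2) * (1 + 2 * y) ≤ 8 * (1 + y ^ 3) := by
      nlinarith [mul_nonneg (sq_nonneg (y - 1)) (by linarith : (0 : ℝ) ≤ y + 1),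
        mul_nonneg (sq_nonneg (y - 1)) (by linarith : (0 : ℝ) ≤ y + 2), sq_nonneg (y - 1)]
    calc ‖DkM k (s / 2) (DkM k (s / 2) f)‖
        ≤ 5 * (1 + (s / 2)⁻¹) * Real.exp (-(s / 2)) * ‖DkM k (s / 2) f‖ := e1
      _ ≤ 5 * (1 + (s / 2)⁻¹) * Real.exp (-(s / 2)) *
          (5 * (1 + (Real.sqrt (s / 2))⁻¹) * Real.exp (-(s / 2)) * A) := by gcongr
      _ ≤ 5 * (1 + 2 * y ^ 2) * Real.exp (-(s / 2)) *
          (5 * (1 + 2 * y) * Real.exp (-(s / 2)) * A) := by rw [hy2]; gcongr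
      _ = 25 * ((1 + 2 * y ^ 2) * (1 + 2 * y)) *
          (Real.exp (-(s / 2)) * Real.exp (-(s / 2))) * A := by ring
      _ ≤ 25 * (8 * (1 + y ^ 3)) * (Real.exp (-(s / 2)) * Real.exp (-(s / 2))) * A := by gcongr
      _ = 200 * (1 + y ^ 3) * Real.exp (-s) * A := by rw [e3]; ring
  calc ‖∑ k, DkM k (s / 2) (DkM k (s / 2) f)‖ ≤ ∑ k, ‖DkM k (s / 2) (DkM k (s / 2) f)‖ :=
        norm_sum_le _ _
    _ ≤ ∑ _k : Fin 3, 200 * (1 + y ^ 3) * Real.exp (-s) * A :=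
        Finset.sum_le_sum fun k _ => hk k
    _ = 600 * (1 + y ^ 3) * Real.exp (-s) * A := by simp; ring

theorem LaM_hol : ∃ C : ℝ, 0 < C ∧ ∀ (τ : ℝ) (f : C(S2, ℝ)) (A : ℝ), 0 < τ → 0 ≤ A →
    (∀ θ η, |f θ - f η| ≤ A * Real.sqrt (dist θ η)) →
    ‖LaM τ f‖ ≤ C * (1 + (Real.sqrt τ)⁻¹) * Real.exp (-τ) * A := by
  refine ⟨1200, by norm_num, fun τ f A hτ hA hf => ?_⟩
  refine poic_norm_le _ (by positivity) fun θ => ?_
  -- the function φ
  have hφ : ∀ s, τ ≤ s → HasDerivAt (fun t => Real.exp (-t) * LaM t f θ)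
      (-(Real.exp (-s) * (LaM (s / 2) (LaM (s / 2) f) + LaM s f) θ)) s := by
    intro s hs
    have hs0 : 0 < s := lt_of_lt_of_le hτ hs
    have h1 := poic_LaM_deriv s f hs0
    have h2 : HasDerivAt (fun t => LaM t f θ) (-(LaM (s / 2) (LaM (s / 2) f)) θ) s := by
      have h3 := (ContinuousMap.evalCLM ℝ θ : C(S2, ℝ) →L[ℝ] ℝ).hasFDerivAt.comp_hasDerivAt s h1
      simpa [Function.comp_def] using h3
    have h4 : HasDerivAt (fun t : ℝ => Real.exp (-t)) (-Real.exp (-s)) s := by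
      have := (hasDerivAt_neg s).exp
      simpa using this
    refine (h4.mul h2).congr_deriv ?_
    rw [ContinuousMap.add_apply]
    ring
  have hψ : ∀ s, τ ≤ s → HasDerivAt (fun t => 600 * A * (1 / 2 * Real.exp (-(2 * t)) +
      2 * Real.exp (-(2 * τ)) * (Real.sqrt t)⁻¹))
      (-(600 * A * (Real.exp (-(2 * s)) + Real.exp (-(2 * τ)) * (Real.sqrt s)⁻¹ ^ 3))) s := by
    intro s hs
    have hs0 : 0 < s := lt_of_lt_of_le hτ hs
    have hsp : 0 < Real.sqrt s := Real.sqrt_pos.2 hs0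
    have h1 : HasDerivAt (fun t : ℝ => Real.exp (-(2 * t))) (-(2 * Real.exp (-(2 * s)))) s := by
      have h2 : HasDerivAt (fun t : ℝ => -(2 * t)) (-(2 * 1)) s :=
        ((hasDerivAt_id s).const_mul 2).neg
      refine h2.exp.congr_deriv ?_
      ring
    have h3 : HasDerivAt (fun t : ℝ => (Real.sqrt t)⁻¹) (-(1 / 2 * (Real.sqrt s)⁻¹ ^ 3)) s := by
      refine ((Real.hasDerivAt_sqrt hs0.ne').inv hsp.ne').congr_deriv ?_
      field_simp
    refine (((h1.const_mul (1 / 2)).add (h3.const_mul (2 * Real.exp (-(2 * τ))))).const_mul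
      (600 * A)).congr_deriv ?_
    ring
  have hbd : ∀ s, τ ≤ s → |Real.exp (-s) * (LaM (s / 2) (LaM (s / 2) f) + LaM s f) θ| ≤
      600 * A * (Real.exp (-(2 * s)) + Real.exp (-(2 * τ)) * (Real.sqrt s)⁻¹ ^ 3) := by
    intro s hs
    have hs0 : 0 < s := lt_of_lt_of_le hτ hs
    have hsp : 0 < Real.sqrt s := Real.sqrt_pos.2 hs0
    have h1 := poic_der_bound s f A hs0 hA hf
    have h2 := (LaM (s / 2) (LaM (s / 2) f) + LaM s f).norm_coe_le_norm θ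
    rw [abs_mul, abs_of_pos (Real.exp_pos _)]
    rw [Real.norm_eq_abs] at h2
    have h3 : Real.exp (-s) * Real.exp (-s) = Real.exp (-(2 * s)) := by
      rw [← Real.exp_add]; congr 1; ring
    have h4 : Real.exp (-(2 * s)) ≤ Real.exp (-(2 * τ)) := by
      apply Real.exp_le_exp.2; linarith
    calc Real.exp (-s) * |(LaM (s / 2) (LaM (s / 2) f) + LaM s f) θ|
        ≤ Real.exp (-s) * (600 * (1 + (Real.sqrt s)⁻¹ ^ 3) * Real.exp (-s) * A) := by
          gcongr; exact h2.trans h1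
      _ = 600 * A * ((Real.exp (-s) * Real.exp (-s)) +
          (Real.exp (-s) * Real.exp (-s)) * (Real.sqrt s)⁻¹ ^ 3) := by ring
      _ = 600 * A * (Real.exp (-(2 * s)) + Real.exp (-(2 * s)) * (Real.sqrt s)⁻¹ ^ 3) := by
          rw [h3]
      _ ≤ 600 * A * (Real.exp (-(2 * s)) + Real.exp (-(2 * τ)) * (Real.sqrt s)⁻¹ ^ 3) := by
          gcongr
  set G : ℝ → ℝ := fun t => 600 * A * (1 / 2 * Real.exp (-(2 * t)) +
      2 * Real.exp (-(2 * τ)) * (Real.sqrt t)⁻¹) with hG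
  set φ : ℝ → ℝ := fun t => Real.exp (-t) * LaM t f θ with hφdef
  have hGnn : ∀ t, 0 ≤ G t := fun t => by rw [hG]; positivity
  have hup : ∀ T, τ ≤ T → G T + φ T ≤ G τ + φ τ := by
    intro T hT
    refine poic_anti (g := fun t => G t + φ t) (fun s hs => (hψ s hs).add (hφ s hs))
      (fun s hs => ?_) hT
    have := (abs_le.1 (hbd s hs)).1
    linarith
  have hdn : ∀ T, τ ≤ T → G T - φ T ≤ G τ - φ τ := by
    intro T hT
    refine poic_anti (g := fun t => G t - φ t) (fun s hs => (hψ s hs).sub (hφ s hs))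
      (fun s hs => ?_) hT
    have := (abs_le.1 (hbd s hs)).2
    linarith
  have hlim : Tendsto φ atTop (𝓝 0) := by
    have h1 : ∀ᶠ t in atTop, |φ t| ≤ (10 * ‖f‖) * Real.exp (-t) := by
      filter_upwards [eventually_ge_atTop (1 : ℝ)] with t ht
      have ht0 : 0 < t := by linarith
      have h2 := poic_LaM_norm t f ht0
      have h3 := (LaM t f).norm_coe_le_norm θ
      rw [Real.norm_eq_abs] at h3
      have h4 : Real.exp (-t) ≤ 1 := by rw [Real.exp_le_one_iff]; linarith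
      have h5 : t⁻¹ ≤ 1 := inv_le_one_of_one_le₀ ht
      show |Real.exp (-t) * LaM t f θ| ≤ _
      rw [abs_mul, abs_of_pos (Real.exp_pos _)]
      calc Real.exp (-t) * |LaM t f θ| ≤ Real.exp (-t) * (5 * (1 + t⁻¹) * Real.exp (-t) * ‖f‖) := by
            gcongr; exact h3.trans h2
        _ ≤ Real.exp (-t) * (5 * (1 + 1) * 1 * ‖f‖) := by gcongr
        _ = (10 * ‖f‖) * Real.exp (-t) := by ring
    have h2 : Tendsto (fun t : ℝ => (10 * ‖f‖) * Real.exp (-t)) atTop (𝓝 0) := by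
      have := (Real.tendsto_exp_neg_atTop_nhds_zero).const_mul (10 * ‖f‖)
      simpa using this
    exact squeeze_zero_norm' (by simpa [Real.norm_eq_abs] using h1) h2
  have k1 : 0 ≤ G τ + φ τ := by
    refine le_of_tendsto hlim ?_
    filter_upwards [eventually_ge_atTop τ] with T hT
    have := hup T hT
    have := hGnn T
    linarith
  have k2 : 0 ≤ G τ - φ τ := by
    have hlim' : Tendsto (fun t => -φ t) atTop (𝓝 0) := by simpa using hlim.neg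
    refine le_of_tendsto hlim' ?_
    filter_upwards [eventually_ge_atTop τ] with T hT
    have := hdn T hT
    have := hGnn T
    linarith
  have k3 : |φ τ| ≤ G τ := abs_le.2 ⟨by linarith, by linarith⟩
  have k4 : LaM τ f θ = Real.exp τ * φ τ := by
    rw [hφdef]
    simp only
    rw [← mul_assoc, ← Real.exp_add]
    simp
  rw [k4, abs_mul, abs_of_pos (Real.exp_pos _)]
  have k5 : Real.exp τ * Real.exp (-(2 * τ)) = Real.exp (-τ) := by
    rw [← Real.exp_add]; congr 1; ring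
  calc Real.exp τ * |φ τ| ≤ Real.exp τ * G τ := by gcongr
    _ = 600 * (1 / 2 + 2 * (Real.sqrt τ)⁻¹) * (Real.exp τ * Real.exp (-(2 * τ))) * A := by
        rw [hG]; ring
    _ = 600 * (1 / 2 + 2 * (Real.sqrt τ)⁻¹) * Real.exp (-τ) * A := by rw [k5]
    _ ≤ 600 * (2 + 2 * (Real.sqrt τ)⁻¹) * Real.exp (-τ) * A := by gcongr; norm_num
    _ = 1200 * (1 + (Real.sqrt τ)⁻¹) * Real.exp (-τ) * A := by ring

end

end Pool.Agent.BS
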