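import Mathlib

/-!
# Definitions used in the statement of the main theorem (MP_eb1919_gt)
-/

namespace Pool.Agent.BS

open MeasureTheory Topology Set Filter
open scoped ContDiff Manifold

noncomputable section

/-- Euclidean 3-space. -/
abbrev E3 : Type := EuclideanSpace ℝ (Fin 3)

/-- The unit sphere. -/
abbrev S2 : Type := Metric.sphere (0 : E3) 1

/-- `3 x 3` matrices (with the sup norm). -/
abbrev M3 : Type := Fin 3 → Fin 3 → ℝ

/-- Standard basis vector. -/
def bv (i : Fin 3) : E3 := EuclideanSpace.single i 1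

/-- Surface measure of the unit sphere (total mass `4π`). -/
def sig : Measure S2 := (volume : Measure E3).toSphere

/-- Kronecker delta. -/
def dl {R : Type*} [CommRing R] (i j : Fin 3) : R := if i = j then 1 else 0

/-- The partial derivative `∂_k f`. -/
def pd (k : Fin 3) (f : E3 → ℝ) (x : E3) : ℝ := fderiv ℝ f x (bv k)

/-- determinant of a matrix `M3` -/
def det3 (a : M3) : ℝ := Matrix.det (Matrix.of a)

/-! ### Asymptotically flat metrics -/

/-- A smooth Riemannian metric on the end `{|x| > 1}` (in the coordinates at infinity), asymptotically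
flat of order `q`: `g_ij - δ_ij = O(|x|^-q)`, `∂g = O(|x|^(-q-1))`, `∂²g = O(|x|^(-q-2))`. -/
structure AFMetric (q : ℝ) (g : E3 → M3) : Prop where
  smooth : ∀ i j, ContDiffOn ℝ ∞ (fun x => g x i j) {x | 1 < ‖x‖}
  symm : ∀ x, 1 < ‖x‖ → ∀ i j, g x i j = g x j i
  pos : ∀ x, 1 < ‖x‖ → ∀ v : E3, v ≠ 0 → 0 < ∑ i, ∑ j, g x i j * v i * v j
  decay : ∃ C r₀ : ℝ, ∀ x, r₀ ≤ ‖x‖ → ∀ i j,
    |g x i j - dl i j| ≤ C * ‖x‖ ^ (-q) ∧
    (∀ k, |pd k (fun y => g y i j) x| ≤ C * ‖x‖ ^ (-q - 1)) ∧
    ∀ k l, |pd l (pd k (fun y => g y i j)) x| ≤ C * ‖x‖ ^ (-q - 2)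

/-- inverse matrix `g^{ij}` -/
def ginv (g : E3 → M3) (x : E3) (i j : Fin 3) : ℝ := (Matrix.of (g x))⁻¹ i j

/-- `√(det g)` -/
def sqg (g : E3 → M3) (x : E3) : ℝ := Real.sqrt (det3 (g x))

/-- Christoffel symbols `Γ^k_{ij}` -/
def chris (g : E3 → M3) (k i j : Fin 3) (x : E3) : ℝ :=
  (1 / 2) * ∑ l, ginv g x k l * (pd i (fun y => g y j l) x + pd j (fun y => g y i l) x -
    pd l (fun y => g y i j) x)

/-- scalar curvature -/
def scal (g : E3 → M3) (x : E3) : ℝ :=
  ∑ j, ∑ k, ginv g x j k * ∑ i, (pd i (chris g i j k) x - pd j (chris g i i k) x +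
    ∑ l, (chris g i i l x * chris g l j k x - chris g i j l x * chris g l i k x))

/-- Laplace-Beltrami operator -/
def lapB (g : E3 → M3) (u : E3 → ℝ) (x : E3) : ℝ :=
  (sqg g x)⁻¹ * ∑ i, pd i (fun y => sqg g y * ∑ j, ginv g y i j * pd j u y) x

/-- `(1/16π) ∫_{|x|=r} (∂_i g_ij - ∂_j g_ii) ν_j dσ` -/
def massFlux (g : E3 → M3) (r : ℝ) : ℝ :=
  (1 / (16 * Real.pi)) * (r ^ 2 * ∫ θ : S2, ∑ i, ∑ j,
    (pd i (fun y => g y i j) (r • (θ : E3)) - pd j (fun y => g y i i) (r • (θ : E3))) *
      (θ : E3) j ∂sig)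

/-- `n` is the unit normal (for `g`) of the boundary of `A` at `x` pointing out of `A`. -/
structure IsUnitNormal (g : E3 → M3) (A : Set E3) (x n : E3) : Prop where
  unit : ∑ i, ∑ j, g x i j * n i * n j = 1
  normal : ∀ v ∈ tangentConeAt ℝ (frontier A) x, ∑ i, ∑ j, g x i j * n i * v j = 0
  outward : ∀ᶠ t in 𝓝[>] (0 : ℝ), x + t • n ∈ Aᶜ

/-! ### Bernoulli surfaces in coordinates -/

/-- Linear functionals on `E3`. -/
abbrev L3 : Type := E3 →L[ℝ] ℝ

/-- `u` is differentiable at `x` within `s`, with derivative `L`. -/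
def DerivWithin (u : E3 → ℝ) (L : L3) (s : Set E3) (x : E3) : Prop := HasFDerivWithinAt u L s x

/-- `u` is a smooth `g`-harmonic function on the complement of `A`, with limit `1` at infinity
and boundary values `0`. -/
structure IsPotential (g : E3 → M3) (A : Set E3) (u : E3 → ℝ) : Prop where
  smooth : ContDiffOn ℝ ∞ u Aᶜ
  harmonic : ∀ x ∈ Aᶜ, lapB g u x = 0
  lim : Tendsto u (Bornology.cobounded E3) (𝓝 1)
  boundary : ∀ x ∈ frontier A, u x = 0

/-- `u` is `C^1` up to the boundary of `A` from outside (with derivative `du`), unit normals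
exist at every boundary point and the normal derivative of `u` is the constant `c`. -/
structure HasNormalDeriv (g : E3 → M3) (A : Set E3) (u : E3 → ℝ) (du : E3 → L3) (c : ℝ) :
    Prop where
  deriv : ∀ x ∈ closure Aᶜ, DerivWithin u (du x) (closure Aᶜ) x
  cont : ContinuousOn du (closure Aᶜ)
  exists_normal : ∀ x ∈ frontier A, ∃ n, IsUnitNormal g A x n
  normal : ∀ x ∈ frontier A, ∀ n, IsUnitNormal g A x n → du x n = c

/-! ### Manifolds -/

/-- The model of the manifold `E3`. -/
abbrev I3 : ModelWithCorners ℝ E3 E3 := 𝓘(ℝ, E3)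

variable {H : Type*} [TopologicalSpace H] {I : ModelWithCorners ℝ E3 H}
  {M : Type*} [TopologicalSpace M] [ChartedSpace H M]

/-- `f` is smooth on `s ⊆ ℝ³` as a map to the manifold `M`. -/
def SmoothTo (I : ModelWithCorners ℝ E3 H) (f : E3 → M) (s : Set E3) : Prop :=
  ContMDiffOn I3 I ∞ f s

/-- `f` is smooth on `s ⊆ M` as a map to `ℝ³`. -/
def SmoothFrom (I : ModelWithCorners ℝ E3 H) (f : M → E3) (s : Set M) : Prop :=
  ContMDiffOn I I3 ∞ f s

/-- `b` is an inner product on `V`. -/
structure IsInner {V : Type*} [AddCommGroup V] [Module ℝ V] (b : V → V → ℝ) : Prop where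
  add_left : ∀ v v' w, b (v + v') w = b v w + b v' w
  smul_left : ∀ (a : ℝ) v w, b (a • v) w = a * b v w
  symm : ∀ v w, b v w = b w v
  pos : ∀ v, v ≠ 0 → 0 < b v v

variable (I M) in
/-- A Riemannian metric on `M`: an inner product on each tangent space
(smoothness on the end is part of `AFManifold`). -/
structure RMetric where
  inn : ∀ p : M, TangentSpace I p → TangentSpace I p → ℝ
  isInner : ∀ p, IsInner (inn p)

/-- `∂f/∂x_i` at `x`: the image of the `i`-th coordinate vector under the derivative of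
`f : ℝ³ → M`. -/
def dvec (I : ModelWithCorners ℝ E3 H) (f : E3 → M) (i : Fin 3) (x : E3) : TangentSpace I (f x) :=
  (tangentMap I3 I f ⟨x, bv i⟩).2

/-- The components `g(∂f/∂x_i, ∂f/∂x_j)` of the metric in the coordinates given by `f`. -/
def RMetric.comp (g : RMetric I M) (f : E3 → M) (x : E3) : M3 := fun i j =>
  g.inn (f x) (dvec I f i x) (dvec I f j x)

variable (I M) in
/-- Coordinates at infinity: a diffeomorphism `e` of the complement of a compact core onto
`{|x| > 1}` such that for all `ρ > 1` the set `core ∪ {|e| ≤ ρ}` is compact and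
`core ∪ {|e| < ρ}` is open. -/
structure EndChart where
  e : OpenPartialHomeomorph M E3
  target_eq : e.target = {x | 1 < ‖x‖}
  smooth : SmoothFrom I e e.source
  smooth_symm : SmoothTo I e.symm e.target
  isCompact_core : ∀ ρ, 1 < ρ → IsCompact {p | p ∈ e.source → ‖e p‖ ≤ ρ}
  isOpen_core : ∀ ρ, 1 < ρ → IsOpen {p | p ∈ e.source → ‖e p‖ < ρ}

/-- `g_ij - δ_ij = O(|x|^-q)`, `∂g_ij = O(|x|^(-q-1))`, `∂²g_ij = O(|x|^(-q-2))`. -/
def DecayAF (q : ℝ) (g : E3 → M3) : Prop := ∃ C r₀ : ℝ, ∀ x, r₀ ≤ ‖x‖ → ∀ i j,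
    |g x i j - dl i j| ≤ C * ‖x‖ ^ (-q) ∧
    (∀ k, |pd k (fun y => g y i j) x| ≤ C * ‖x‖ ^ (-q - 1)) ∧
    ∀ k l, |pd l (pd k (fun y => g y i j)) x| ≤ C * ‖x‖ ^ (-q - 2)

variable (I M) in
/-- An asymptotically flat 3-manifold of order `q` with one end (the model `I` may have a
boundary): a Riemannian metric and coordinates at infinity, in which the metric is smooth and
asymptotically flat of order `q`. -/
structure AFManifold (q : ℝ) where
  g : RMetric I M
  inf : EndChart I M
  smooth : ∀ i j, ContDiffOn ℝ ∞ (fun x => g.comp inf.e.symm x i j) inf.e.target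
  decay : DecayAF q (g.comp inf.e.symm)

variable {q : ℝ}

/-- The coordinates at infinity. -/
def AFManifold.e (X : AFManifold I M q) : OpenPartialHomeomorph M E3 := X.inf.e

/-- The metric in the coordinates at infinity. -/
def AFManifold.gij (X : AFManifold I M q) : E3 → M3 := X.g.comp X.e.symm

/-- `A` is a compact subset of `M` containing a neighbourhood of the core, with connected
complement, and its boundary is a Bernoulli surface relative to infinity: in the coordinates at
infinity there is a `g`-harmonic function `u` on the complement of `A` with `u → 1` at infinity,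
`u = 0` on the boundary and constant normal derivative on the boundary. -/
structure AFManifold.IsBernoulli (X : AFManifold I M q) (A : Set M) : Prop where
  compact : IsCompact A
  core : X.e.sourceᶜ ⊆ interior A
  conn : IsConnected Aᶜ
  pot : ∃ u du c, IsPotential X.gij (X.e '' Aᶜ)ᶜ u ∧ HasNormalDeriv X.gij (X.e '' Aᶜ)ᶜ u du c

/-- The partial homeomorphism `F` from `ℝ³` to `M` is a diffeomorphism of its source onto its
target. -/
structure IsDiffeo (I : ModelWithCorners ℝ E3 H) (F : OpenPartialHomeomorph E3 M) : Prop where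
  smooth : SmoothTo I F F.source
  smooth_symm : SmoothFrom I F.symm F.target

/-- The scalar curvature is integrable near infinity. -/
def ScalIntegrable (g : E3 → M3) : Prop := ∃ r₀ : ℝ, IntegrableOn (scal g) {x | r₀ < ‖x‖}

/-- The ADM mass is `m`. -/
def HasMass (g : E3 → M3) (m : ℝ) : Prop := Tendsto (massFlux g) atTop (𝓝 m)

/-- `M ∖ F({|y| > r})` -/
def inside (F : OpenPartialHomeomorph E3 M) (r : ℝ) : Set M := (F '' {y | r < ‖y‖})ᶜ

/-- `K` is compact and `F` is a diffeomorphism from `{|y| > R}` onto `M ∖ K` which maps every sphere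
`{|y| = r}`, `r > R`, onto a Bernoulli surface, the boundary of `M ∖ F({|y| > r})`. -/
structure IsBernoulliFoliation (X : AFManifold I M q) (K : Set M) (R : ℝ)
    (F : OpenPartialHomeomorph E3 M) : Prop where
  compact : IsCompact K
  pos : 0 < R
  source_eq : F.source = {y | R < ‖y‖}
  target_eq : F.target = Kᶜ
  diffeo : IsDiffeo I F
  bernoulli : ∀ r, R < r → X.IsBernoulli (inside F r)
  leaf : ∀ r, R < r → frontier (inside F r) = F '' Metric.sphere 0 r

end

end Pool.Agent.BS
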