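import Pool.Agent.BS.Af0

/-!
# Module SCALA: expansion of the scalar curvature
-/

namespace Pool.Agent.BS

open MeasureTheory Topology Set Filter
open scoped ContDiff

noncomputable section

/-- entries of the inverse as functions of the matrix -/
def scalaInv (i j : Fin 3) (a : M3) : ℝ := (Matrix.of a)⁻¹ i j

theorem scala_inv_contDiffAt (i j : Fin 3) {a : M3} (ha : det3 a ≠ 0) :
    ContDiffAt ℝ ∞ (scalaInv i j) a := by
  have h1 : scalaInv i j = fun a : M3 => (det3 a)⁻¹ * (Matrix.adjugate (Matrix.of a)) i j := by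
    funext b
    unfold scalaInv det3
    rw [Matrix.inv_def]
    simp [Ring.inverse_eq_inv']
  rw [h1]
  have h2 : ContDiff ℝ ∞ det3 := by
    unfold det3
    simp only [Matrix.det_fin_three, Matrix.of_apply]
    fun_prop
  have h3 : ContDiff ℝ ∞ (fun a : M3 => (Matrix.adjugate (Matrix.of a)) i j) := by
    simp only [Matrix.adjugate_apply, Matrix.det_fin_three, Matrix.updateRow_apply,
      Matrix.of_apply, Pi.single_apply]
    fin_cases i <;> fin_cases j <;> simp <;> fun_prop
  exact (h2.contDiffAt.inv ha).mul h3.contDiffAt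

/-- the filter at infinity -/
abbrev scalaL : Filter E3 := comap (fun x : E3 => ‖x‖) atTop

/-- derivative of `g` as a map to matrices -/
theorem scala_contDiffAt {q : ℝ} {g : E3 → M3} (hg : AFMetric q g) {x : E3} (hx : 1 < ‖x‖)
    (i j : Fin 3) : ContDiffAt ℝ ∞ (fun y => g y i j) x :=
  (hg.smooth i j).contDiffAt ((isOpen_lt continuous_const continuous_norm).mem_nhds hx)

theorem scala_pd_contDiffAt {f : E3 → ℝ} {x : E3} (h : ContDiffAt ℝ ∞ f x) (k : Fin 3) :
    ContDiffAt ℝ ∞ (pd k f) x := by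
  have h1 : ContDiffAt ℝ ∞ (fderiv ℝ f) x := h.fderiv_right (by simp)
  exact h1.clm_apply contDiffAt_const

/-- the three orders of decay -/
theorem scala_basic {q : ℝ} {g : E3 → M3} (hg : AFMetric q g) :
    (∀ i j, (fun x => g x i j - dl i j) =O[scalaL] fun x => ‖x‖ ^ (-q)) ∧
    (∀ k i j, (fun x => pd k (fun y => g y i j) x) =O[scalaL] fun x => ‖x‖ ^ (-q - 1)) ∧
    ∀ l k i j, (fun x => pd l (pd k (fun y => g y i j)) x) =O[scalaL]
      fun x => ‖x‖ ^ (-q - 2) := by
  obtain ⟨C, r₀, h⟩ := hg.decay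
  have hev : ∀ᶠ x in scalaL, r₀ ≤ ‖x‖ := tendsto_comap.eventually (eventually_ge_atTop r₀)
  refine ⟨fun i j => ?_, fun k i j => ?_, fun l k i j => ?_⟩
  · refine Asymptotics.IsBigO.of_bound C (hev.mono (fun x hx => ?_))
    rw [Real.norm_eq_abs, Real.norm_of_nonneg (Real.rpow_nonneg (norm_nonneg x) _)]
    exact (h x hx i j).1
  · refine Asymptotics.IsBigO.of_bound C (hev.mono (fun x hx => ?_))
    rw [Real.norm_eq_abs, Real.norm_of_nonneg (Real.rpow_nonneg (norm_nonneg x) _)]
    exact (h x hx i j).2.1 k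
  · refine Asymptotics.IsBigO.of_bound C (hev.mono (fun x hx => ?_))
    rw [Real.norm_eq_abs, Real.norm_of_nonneg (Real.rpow_nonneg (norm_nonneg x) _)]
    exact (h x hx i j).2.2 k l

/-- identity matrix -/
def scalaId : M3 := fun i j => dl i j

theorem scalaInv_id (i j : Fin 3) : scalaInv i j scalaId = dl i j := by
  have h : Matrix.of scalaId = (1 : Matrix (Fin 3) (Fin 3) ℝ) := by
    ext i j
    simp [scalaId, dl, Matrix.one_apply]
  unfold scalaInv
  rw [h, inv_one, Matrix.one_apply]
  rfl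

theorem det3_id : det3 scalaId = 1 := by
  have h : Matrix.of scalaId = (1 : Matrix (Fin 3) (Fin 3) ℝ) := by
    ext i j
    simp [scalaId, dl, Matrix.one_apply]
  unfold det3
  rw [h, Matrix.det_one]

theorem scala_mat {q : ℝ} {g : E3 → M3} (hg : AFMetric q g) :
    (fun x => g x - scalaId) =O[scalaL] fun x => ‖x‖ ^ (-q) := by
  rw [Asymptotics.isBigO_pi]
  intro i
  rw [Asymptotics.isBigO_pi]
  intro j
  exact (scala_basic hg).1 i j

theorem scala_tendsto_zero {p : ℝ} (hp : 0 < p) :
    Tendsto (fun x : E3 => ‖x‖ ^ (-p)) scalaL (𝓝 0) :=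
  (tendsto_rpow_neg_atTop hp).comp tendsto_comap

theorem scala_tendsto {q : ℝ} {g : E3 → M3} (hq : 1 / 2 < q) (hg : AFMetric q g) :
    Tendsto g scalaL (𝓝 scalaId) := by
  have h1 : Tendsto (fun x => g x - scalaId) scalaL (𝓝 0) :=
    (scala_mat hg).trans_tendsto (scala_tendsto_zero (by linarith))
  have h2 := h1.add_const scalaId
  simpa using h2

theorem scala_inv {q : ℝ} {g : E3 → M3} (hq : 1 / 2 < q) (hg : AFMetric q g) (i j : Fin 3) :
    (fun x => ginv g x i j - dl i j) =O[scalaL] fun x => ‖x‖ ^ (-q) := by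
  have h1 : HasFDerivAt (scalaInv i j) (fderiv ℝ (scalaInv i j) scalaId) scalaId :=
    ((scala_inv_contDiffAt i j (by rw [det3_id]; exact one_ne_zero)).differentiableAt
      (by simp)).hasFDerivAt
  have h2 := h1.isBigO_sub.comp_tendsto (scala_tendsto hq hg)
  rw [scalaInv_id] at h2
  exact h2.trans (scala_mat hg)

theorem scala_inv_one {q : ℝ} {g : E3 → M3} (hq : 1 / 2 < q) (hg : AFMetric q g) (i j : Fin 3) :
    (fun x => ginv g x i j) =O[scalaL] fun _ => (1 : ℝ) := by
  have h1 : Tendsto (fun x => ginv g x i j - dl i j) scalaL (𝓝 0) :=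
    (scala_inv hq hg i j).trans_tendsto (scala_tendsto_zero (by linarith))
  have h2 : Tendsto (fun x => ginv g x i j) scalaL (𝓝 (dl i j)) := by
    simpa using h1.add_const (dl i j)
  exact h2.isBigO_one ℝ

theorem scala_det_ev {q : ℝ} {g : E3 → M3} (hq : 1 / 2 < q) (hg : AFMetric q g) :
    ∀ᶠ x in scalaL, det3 (g x) ≠ 0 := by
  have h2 : Continuous det3 := by
    unfold det3
    simp only [Matrix.det_fin_three, Matrix.of_apply]
    fun_prop
  have h3 := (h2.tendsto scalaId).comp (scala_tendsto hq hg)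
  rw [det3_id] at h3
  exact h3.eventually_ne one_ne_zero

theorem scala_gcontDiffAt {q : ℝ} {g : E3 → M3} (hg : AFMetric q g) {x : E3} (hx : 1 < ‖x‖) :
    ContDiffAt ℝ ∞ g x := by
  rw [contDiffAt_pi]
  intro i
  rw [contDiffAt_pi]
  intro j
  exact scala_contDiffAt hg hx i j

theorem scala_ginv_contDiffAt {q : ℝ} {g : E3 → M3} (hg : AFMetric q g) {x : E3} (hx : 1 < ‖x‖)
    (hd : det3 (g x) ≠ 0) (i j : Fin 3) : ContDiffAt ℝ ∞ (fun y => ginv g y i j) x :=
  ContDiffAt.comp x (scala_inv_contDiffAt i j hd) (scala_gcontDiffAt hg hx)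

theorem scala_big {q : ℝ} {g : E3 → M3} (hg : AFMetric q g) (m : Fin 3) :
    (fun x => fderiv ℝ g x (bv m)) =O[scalaL] fun x => ‖x‖ ^ (-q - 1) := by
  rw [Asymptotics.isBigO_pi]
  intro i
  rw [Asymptotics.isBigO_pi]
  intro j
  refine ((scala_basic hg).2.1 m i j).congr' ?_ EventuallyEq.rfl
  have hev : ∀ᶠ x in scalaL, 1 < ‖x‖ := tendsto_comap.eventually (eventually_gt_atTop 1)
  refine hev.mono (fun x hx => ?_)
  have h1 : HasFDerivAt g (fderiv ℝ g x) x :=
    ((scala_gcontDiffAt hg hx).differentiableAt (by simp)).hasFDerivAt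
  have h2 := (hasFDerivAt_pi'.1 ((hasFDerivAt_pi'.1 h1) i)) j
  show pd m (fun y => g y i j) x = _
  unfold pd
  have h3 : HasFDerivAt (fun y => g y i j) ((ContinuousLinearMap.proj (R := ℝ) (φ := fun _ : Fin 3 => ℝ) j).comp
      ((ContinuousLinearMap.proj (R := ℝ) (φ := fun _ : Fin 3 => Fin 3 → ℝ) i).comp (fderiv ℝ g x))) x := h2
  rw [h3.fderiv]
  rfl

theorem scala_dinv {q : ℝ} {g : E3 → M3} (hq : 1 / 2 < q) (hg : AFMetric q g) (m i j : Fin 3) :
    (fun x => pd m (fun y => ginv g y i j) x) =O[scalaL] fun x => ‖x‖ ^ (-q - 1) := by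
  have hc : ContinuousAt (fderiv ℝ (scalaInv i j)) scalaId :=
    (((scala_inv_contDiffAt i j (by rw [det3_id]; exact one_ne_zero)).fderiv_right
      (m := 0) (by simp))).continuousAt
  have h1 : (fun x => fderiv ℝ (scalaInv i j) (g x)) =O[scalaL] fun _ => (1 : ℝ) :=
    (hc.tendsto.comp (scala_tendsto hq hg)).isBigO_one ℝ
  have h2 := scala_big hg m
  have hev : ∀ᶠ x in scalaL, 1 < ‖x‖ := tendsto_comap.eventually (eventually_gt_atTop 1)
  have h3 : (fun x => pd m (fun y => ginv g y i j) x) =ᶠ[scalaL]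
      fun x => fderiv ℝ (scalaInv i j) (g x) (fderiv ℝ g x (bv m)) := by
    filter_upwards [hev, scala_det_ev hq hg] with x hx hd
    have h4 : HasFDerivAt g (fderiv ℝ g x) x :=
      ((scala_gcontDiffAt hg hx).differentiableAt (by simp)).hasFDerivAt
    have h5 : HasFDerivAt (scalaInv i j) (fderiv ℝ (scalaInv i j) (g x)) (g x) :=
      ((scala_inv_contDiffAt i j hd).differentiableAt (by simp)).hasFDerivAt
    have h6 : HasFDerivAt (fun y => ginv g y i j) _ x := h5.comp x h4
    unfold pd
    rw [h6.fderiv]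
    rfl
  refine h3.trans_isBigO ?_
  have h7 : (fun x => fderiv ℝ (scalaInv i j) (g x) (fderiv ℝ g x (bv m))) =O[scalaL]
      fun x => (1 : ℝ) * ‖x‖ ^ (-q - 1) := by
    refine Asymptotics.IsBigO.trans ?_ ((h1.norm_left).mul h2.norm_left)
    refine Asymptotics.IsBigO.of_bound 1 (Eventually.of_forall (fun x => ?_))
    rw [one_mul]
    refine ((fderiv ℝ (scalaInv i j) (g x)).le_opNorm _).trans ?_
    simp
  simpa using h7

/-- the metric derivatives in the Christoffel symbols -/
def scalaP (g : E3 → M3) (i j l : Fin 3) (x : E3) : ℝ :=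
  pd i (fun y => g y j l) x + pd j (fun y => g y i l) x - pd l (fun y => g y i j) x

/-- their derivatives -/
def scalaDP (g : E3 → M3) (m i j l : Fin 3) (x : E3) : ℝ :=
  pd m (pd i (fun y => g y j l)) x + pd m (pd j (fun y => g y i l)) x -
    pd m (pd l (fun y => g y i j)) x

theorem scala_P {q : ℝ} {g : E3 → M3} (hg : AFMetric q g) (i j l : Fin 3) :
    (scalaP g i j l) =O[scalaL] fun x => ‖x‖ ^ (-q - 1) :=
  (((scala_basic hg).2.1 i j l).add ((scala_basic hg).2.1 j i l)).sub ((scala_basic hg).2.1 l i j)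

theorem scala_DP {q : ℝ} {g : E3 → M3} (hg : AFMetric q g) (m i j l : Fin 3) :
    (scalaDP g m i j l) =O[scalaL] fun x => ‖x‖ ^ (-q - 2) :=
  (((scala_basic hg).2.2 m i j l).add ((scala_basic hg).2.2 m j i l)).sub
    ((scala_basic hg).2.2 m l i j)

theorem scala_hasP {q : ℝ} {g : E3 → M3} (hg : AFMetric q g) (m i j l : Fin 3) {x : E3}
    (hx : 1 < ‖x‖) : DifferentiableAt ℝ (scalaP g i j l) x ∧
      pd m (scalaP g i j l) x = scalaDP g m i j l x := by
  have h1 : ∀ a b c : Fin 3, HasFDerivAt (pd a (fun y => g y b c))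
      (fderiv ℝ (pd a (fun y => g y b c)) x) x := fun a b c =>
    ((scala_pd_contDiffAt (scala_contDiffAt hg hx b c) a).differentiableAt (by simp)).hasFDerivAt
  have h2 : HasFDerivAt (scalaP g i j l) _ x := ((h1 i j l).add (h1 j i l)).sub (h1 l i j)
  refine ⟨h2.differentiableAt, ?_⟩
  unfold pd at h2 ⊢
  rw [h2.fderiv]
  rfl

theorem scala_chris {q : ℝ} {g : E3 → M3} (hq : 1 / 2 < q) (hg : AFMetric q g) (k i j : Fin 3) :
    (chris g k i j) =O[scalaL] fun x => ‖x‖ ^ (-q - 1) := by
  have h1 : (fun x => (1 / 2 : ℝ) * ∑ l, ginv g x k l * scalaP g i j l x) =O[scalaL]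
      fun x => ‖x‖ ^ (-q - 1) := by
    refine Asymptotics.IsBigO.const_mul_left ?_ _
    refine Asymptotics.IsBigO.fun_sum (fun l _ => ?_)
    have h2 := (scala_inv_one hq hg k l).mul (scala_P hg i j l)
    simpa using h2
  exact h1

theorem scala_dchris {q : ℝ} {g : E3 → M3} (hq : 1 / 2 < q) (hg : AFMetric q g)
    (m k i j : Fin 3) :
    (fun x => pd m (chris g k i j) x - (1 / 2) * scalaDP g m i j k x) =O[scalaL]
      fun x => ‖x‖ ^ (-(2 * q) - 2) := by
  have hev : ∀ᶠ x in scalaL, 1 < ‖x‖ := tendsto_comap.eventually (eventually_gt_atTop 1)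
  have h3 : (fun x => pd m (chris g k i j) x - (1 / 2) * scalaDP g m i j k x) =ᶠ[scalaL]
      fun x => (1 / 2) * ∑ l, (pd m (fun y => ginv g y k l) x * scalaP g i j l x +
        (ginv g x k l - dl k l) * scalaDP g m i j l x) := by
    filter_upwards [hev, scala_det_ev hq hg] with x hx hd
    have h5 : ∀ l, HasFDerivAt (fun y => ginv g y k l) (fderiv ℝ (fun y => ginv g y k l) x) x :=
      fun l => ((scala_ginv_contDiffAt hg hx hd k l).differentiableAt (by simp)).hasFDerivAt
    have h6 : ∀ l, HasFDerivAt (scalaP g i j l) (fderiv ℝ (scalaP g i j l) x) x :=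
      fun l => (scala_hasP hg m i j l hx).1.hasFDerivAt
    have h7 : HasFDerivAt (fun y => ∑ l, ginv g y k l * scalaP g i j l y)
        (∑ l, (ginv g x k l • fderiv ℝ (scalaP g i j l) x +
          scalaP g i j l x • fderiv ℝ (fun y => ginv g y k l) x)) x :=
      HasFDerivAt.fun_sum (fun l _ => (h5 l).mul (h6 l))
    have h8 : HasFDerivAt (chris g k i j)
        ((1 / 2 : ℝ) • (∑ l, (ginv g x k l • fderiv ℝ (scalaP g i j l) x +
          scalaP g i j l x • fderiv ℝ (fun y => ginv g y k l) x))) x := h7.const_mul (1 / 2 : ℝ)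
    have h9 : pd m (chris g k i j) x = (1 / 2) * ∑ l, (ginv g x k l * scalaDP g m i j l x +
        scalaP g i j l x * pd m (fun y => ginv g y k l) x) := by
      have h10 : pd m (chris g k i j) x = (fderiv ℝ (chris g k i j) x) (bv m) := rfl
      rw [h10, h8.fderiv]
      simp only [FunLike.coe_smul, Pi.smul_apply, FunLike.coe_sum, Finset.sum_apply,
        FunLike.coe_add, Pi.add_apply, smul_eq_mul]
      congr 1
      refine Finset.sum_congr rfl (fun l _ => ?_)
      rw [← (scala_hasP hg m i j l hx).2]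
      rfl
    rw [h9]
    have h11 : scalaDP g m i j k x = ∑ l, dl k l * scalaDP g m i j l x := by
      simp [dl]
    rw [h11, ← mul_sub, ← Finset.sum_sub_distrib]
    congr 1
    refine Finset.sum_congr rfl (fun l _ => ?_)
    ring
  refine h3.trans_isBigO ?_
  refine Asymptotics.IsBigO.const_mul_left ?_ _
  refine Asymptotics.IsBigO.fun_sum (fun l _ => Asymptotics.IsBigO.add ?_ ?_)
  · refine ((scala_dinv hq hg m k l).mul (scala_P hg i j l)).congr' EventuallyEq.rfl ?_
    filter_upwards [hev] with x hx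
    rw [← Real.rpow_add (by linarith)]
    congr 1
    ring
  · refine ((scala_inv hq hg k l).mul (scala_DP hg m i j l)).congr' EventuallyEq.rfl ?_
    filter_upwards [hev] with x hx
    rw [← Real.rpow_add (by linarith)]
    congr 1
    ring

theorem scala_quad {q : ℝ} {g : E3 → M3} (hq : 1 / 2 < q) (hg : AFMetric q g)
    (a b c d e f : Fin 3) :
    (fun x => chris g a b c x * chris g d e f x) =O[scalaL] fun x => ‖x‖ ^ (-(2 * q) - 2) := by
  have hev : ∀ᶠ x in scalaL, 1 < ‖x‖ := tendsto_comap.eventually (eventually_gt_atTop 1)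
  refine ((scala_chris hq hg a b c).mul (scala_chris hq hg d e f)).congr' EventuallyEq.rfl ?_
  filter_upwards [hev] with x hx
  rw [← Real.rpow_add (by linarith)]
  congr 1
  ring

/-- symmetry of second derivatives in the matrix indices -/
theorem scala_symm {q : ℝ} {g : E3 → M3} (hg : AFMetric q g) {x : E3} (hx : 1 < ‖x‖)
    (m k i j : Fin 3) :
    pd m (pd k (fun y => g y i j)) x = pd m (pd k (fun y => g y j i)) x := by
  have hU : {y : E3 | 1 < ‖y‖} ∈ 𝓝 x := (isOpen_lt continuous_const continuous_norm).mem_nhds hx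
  have h1 : (fun y => g y i j) =ᶠ[𝓝 x] fun y => g y j i := by
    filter_upwards [hU] with y hy
    exact hg.symm y hy i j
  have h2 : pd k (fun y => g y i j) =ᶠ[𝓝 x] pd k (fun y => g y j i) := by
    have := h1.fderiv (𝕜 := ℝ)
    filter_upwards [this] with y hy
    unfold pd
    rw [hy]
  unfold pd at h2 ⊢
  rw [h2.fderiv_eq]

theorem scala_hh {g : E3 → M3} {x : E3} (hx : 3 < ‖x‖)
    (m k i j : Fin 3) :
    pd m (pd k (fun y => hh g y i j)) x = pd m (pd k (fun y => g y i j)) x := by
  have hU : {y : E3 | 3 < ‖y‖} ∈ 𝓝 x := (isOpen_lt continuous_const continuous_norm).mem_nhds hx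
  have h1 : (fun y => hh g y i j) =ᶠ[𝓝 x] fun y => g y i j - dl i j := by
    filter_upwards [hU] with y hy
    have hy' : (3 : ℝ) < ‖y‖ := hy
    have : eta ‖y‖ = 1 := Real.smoothTransition.one_of_one_le (by linarith)
    unfold hh
    rw [this, one_mul]
  have h2 : pd k (fun y => hh g y i j) =ᶠ[𝓝 x] pd k (fun y => g y i j) := by
    have := h1.fderiv (𝕜 := ℝ)
    filter_upwards [this] with y hy
    unfold pd
    rw [hy, fderiv_sub_const]
  unfold pd at h2 ⊢
  rw [h2.fderiv_eq]

theorem scala_lin {q : ℝ} {g : E3 → M3} (hg : AFMetric q g) {x : E3} (hx : 3 < ‖x‖) :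
    ∑ j, ∑ k, dl j k * ∑ i, ((1 / 2) * scalaDP g i j k i x - (1 / 2) * scalaDP g j i k i x) =
      Lsc (hh g) x := by
  have hx1 : 1 < ‖x‖ := by linarith
  unfold Lsc
  have e1 : ∀ m k i j, pd m (pd k (fun y => hh g y i j)) x = pd m (pd k (fun y => g y i j)) x :=
    scala_hh hx
  simp only [e1]
  unfold scalaDP
  have s1 := fun m k => scala_symm hg hx1 m k 1 0
  have s2 := fun m k => scala_symm hg hx1 m k 2 0
  have s3 := fun m k => scala_symm hg hx1 m k 2 1
  simp only [Fin.sum_univ_three, dl, s1, s2, s3]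
  simp
  ring

/-- expansion of the scalar curvature -/
theorem scal_expand {q : ℝ} {g : E3 → M3} (hq : 1 / 2 < q) (hg : AFMetric q g) :
    ∃ C r₁ : ℝ, 0 < C ∧ 3 ≤ r₁ ∧ ∀ x, r₁ ≤ ‖x‖ →
      |scal g x - Lsc (hh g) x| ≤ C * ‖x‖ ^ (-(2 * q) - 2) := by
  have hev : ∀ᶠ x in scalaL, 3 < ‖x‖ := tendsto_comap.eventually (eventually_gt_atTop 3)
  have key : (fun x => scal g x - Lsc (hh g) x) =O[scalaL] fun x => ‖x‖ ^ (-(2 * q) - 2) := by
    have h3 : (fun x => scal g x - Lsc (hh g) x) =ᶠ[scalaL]
        fun x => ∑ j, ∑ k, (ginv g x j k * ∑ i, ((pd i (chris g i j k) x -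
            (1 / 2) * scalaDP g i j k i x) - (pd j (chris g i i k) x -
            (1 / 2) * scalaDP g j i k i x) +
            ∑ l, (chris g i i l x * chris g l j k x - chris g i j l x * chris g l i k x)) +
          (ginv g x j k - dl j k) * ∑ i, ((1 / 2) * scalaDP g i j k i x -
            (1 / 2) * scalaDP g j i k i x)) := by
      filter_upwards [hev] with x hx
      rw [← scala_lin hg hx]
      unfold scal
      rw [← Finset.sum_sub_distrib]
      refine Finset.sum_congr rfl (fun j _ => ?_)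
      rw [← Finset.sum_sub_distrib]
      refine Finset.sum_congr rfl (fun k _ => ?_)
      have h4 : ∑ i, (pd i (chris g i j k) x - pd j (chris g i i k) x +
          ∑ l, (chris g i i l x * chris g l j k x - chris g i j l x * chris g l i k x)) =
          ∑ i, ((pd i (chris g i j k) x -
            (1 / 2) * scalaDP g i j k i x) - (pd j (chris g i i k) x -
            (1 / 2) * scalaDP g j i k i x) +
            ∑ l, (chris g i i l x * chris g l j k x - chris g i j l x * chris g l i k x)) +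
          ∑ i, ((1 / 2) * scalaDP g i j k i x - (1 / 2) * scalaDP g j i k i x) := by
        rw [← Finset.sum_add_distrib]
        refine Finset.sum_congr rfl (fun i _ => ?_)
        ring
      rw [h4]
      ring
    refine h3.trans_isBigO ?_
    refine Asymptotics.IsBigO.fun_sum (fun j _ => Asymptotics.IsBigO.fun_sum (fun k _ =>
      Asymptotics.IsBigO.add ?_ ?_))
    · have h5 : (fun x => ∑ i, ((pd i (chris g i j k) x -
            (1 / 2) * scalaDP g i j k i x) - (pd j (chris g i i k) x -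
            (1 / 2) * scalaDP g j i k i x) +
            ∑ l, (chris g i i l x * chris g l j k x - chris g i j l x * chris g l i k x)))
          =O[scalaL] fun x => ‖x‖ ^ (-(2 * q) - 2) := by
        refine Asymptotics.IsBigO.fun_sum (fun i _ => Asymptotics.IsBigO.add
          ((scala_dchris hq hg i i j k).sub (scala_dchris hq hg j i i k))
          (Asymptotics.IsBigO.fun_sum (fun l _ => (scala_quad hq hg i i l l j k).sub
            (scala_quad hq hg i j l l i k))))
      simpa using (scala_inv_one hq hg j k).mul h5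
    · have h6 : (fun x => ∑ i, ((1 / 2) * scalaDP g i j k i x -
            (1 / 2) * scalaDP g j i k i x)) =O[scalaL] fun x => ‖x‖ ^ (-q - 2) :=
        Asymptotics.IsBigO.fun_sum (fun i _ => ((scala_DP hg i j k i).const_mul_left _).sub
          ((scala_DP hg j i k i).const_mul_left _))
      refine ((scala_inv hq hg j k).mul h6).congr' EventuallyEq.rfl ?_
      filter_upwards [hev] with x hx
      rw [← Real.rpow_add (by linarith)]
      congr 1
      ring
  obtain ⟨C, hC, h⟩ := key.exists_pos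
  rw [Asymptotics.isBigOWith_iff, eventually_comap, eventually_atTop] at h
  obtain ⟨r, hr⟩ := h
  refine ⟨C, max r 3, hC, le_max_right _ _, fun x hx => ?_⟩
  have := hr ‖x‖ ((le_max_left _ _).trans hx) x rfl
  rwa [Real.norm_eq_abs, Real.norm_of_nonneg (Real.rpow_nonneg (norm_nonneg x) _)] at this

end

end Pool.Agent.BS
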