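import Pool.Agent.BS.Ker2

/-!
# Module SEMI: semigroup property of the Poisson integral
-/

namespace Pool.Agent.BS

open MeasureTheory Topology Set Filter
open scoped ContDiff

noncomputable section

/-- at an interior local maximum the second derivative is nonpositive -/
private theorem semi_second {φ ψ : ℝ → ℝ} {a : ℝ} (hmax : IsLocalMax φ 0)
    (h1 : ∀ᶠ t in 𝓝 (0 : ℝ), HasDerivAt φ (ψ t) t) (h2 : HasDerivAt ψ a 0) : a ≤ 0 := by
  by_contra hneg
  push Not at hneg
  have hd : deriv φ =ᶠ[𝓝 0] ψ := h1.mono (fun t ht => ht.deriv)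
  have h0 : deriv φ 0 = 0 := hmax.deriv_eq_zero
  have hdd : deriv (deriv φ) 0 = a := by
    rw [hd.deriv_eq, h2.deriv]
  have hmin : IsLocalMin φ 0 := by
    apply isLocalMin_of_deriv_deriv_pos
    · rw [hdd]; exact hneg
    · exact h0
    · exact h1.self_of_nhds.continuousAt
  have hc : φ =ᶠ[𝓝 0] fun _ => φ 0 := by
    filter_upwards [hmax, hmin] with t ht1 ht2
    exact le_antisymm ht1 ht2
  have h3 : deriv φ =ᶠ[𝓝 0] fun _ => (0 : ℝ) := by
    have h4 : ∀ᶠ t in 𝓝 (0 : ℝ), φ =ᶠ[𝓝 t] fun _ => φ 0 := hc.eventuallyEq_nhds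
    filter_upwards [h4] with t ht
    rw [ht.deriv_eq]
    simp
  have h5 : deriv (deriv φ) 0 = 0 := by
    rw [h3.deriv_eq]
    simp
  rw [hdd] at h5
  linarith

private theorem semi_d1 {h : E3 → ℝ} (hs : ContDiffOn ℝ ∞ h (Metric.ball 0 1)) {y b : E3} {t : ℝ}
    (hy : y + t • b ∈ Metric.ball (0 : E3) 1) :
    HasDerivAt (fun s : ℝ => h (y + s • b)) (fderiv ℝ h (y + t • b) b) t := by
  have h1 : HasFDerivAt h (fderiv ℝ h (y + t • b)) (y + t • b) :=
    ((hs.differentiableOn (by norm_num)).differentiableAt (Metric.isOpen_ball.mem_nhds hy)).hasFDerivAt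
  have h2 : HasDerivAt (fun s : ℝ => y + s • b) b t := by
    simpa using ((hasDerivAt_id t).smul_const b).const_add y
  exact h1.comp_hasDerivAt t h2

private theorem semi_d2 {h : E3 → ℝ} (hs : ContDiffOn ℝ ∞ h (Metric.ball 0 1)) {y b : E3}
    (hy : y ∈ Metric.ball (0 : E3) 1) :
    HasDerivAt (fun s : ℝ => fderiv ℝ h (y + s • b) b)
      (fderiv ℝ (fun z => fderiv ℝ h z b) y b) 0 := by
  have h0 : ContDiffOn ℝ 1 (fun z => fderiv ℝ h z b) (Metric.ball 0 1) := by
    have : ContDiffOn ℝ 1 (fderiv ℝ h) (Metric.ball 0 1) :=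
      hs.fderiv_of_isOpen Metric.isOpen_ball (by decide)
    exact this.clm_apply contDiffOn_const
  have h1 : HasFDerivAt (fun z => fderiv ℝ h z b) (fderiv ℝ (fun z => fderiv ℝ h z b) y)
      (y + (0 : ℝ) • b) := by
    rw [zero_smul, add_zero]
    exact ((h0.differentiableOn (by simp)).differentiableAt
      (Metric.isOpen_ball.mem_nhds hy)).hasFDerivAt
  have h2 : HasDerivAt (fun s : ℝ => y + s • b) b 0 := by
    simpa using ((hasDerivAt_id (0 : ℝ)).smul_const b).const_add y
  exact h1.comp_hasDerivAt (0 : ℝ) h2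

private theorem semi_max {G F : E3 → ℝ} {r s ε : ℝ} (hr0 : 0 ≤ r) (hr1 : r < 1)
    (hs0 : 0 < s) (hs1 : s < 1) (hG : ContDiffOn ℝ ∞ G (Metric.ball 0 1))
    (hF : ContDiffOn ℝ ∞ F (Metric.ball 0 1))
    (hG2 : ∀ x : E3, ‖x‖ < 1 → ∑ i, pd i (pd i G) x = 0)
    (hF2 : ∀ x : E3, ‖x‖ < 1 → ∑ i, pd i (pd i F) x = 0)
    (hb : ∀ x : E3, ‖x‖ = s → G x - F (r • x) ≤ ε) (x : E3) (hx : ‖x‖ ≤ s) :
    G x - F (r • x) ≤ ε := by
  have hrb : ∀ z : E3, z ∈ Metric.ball (0 : E3) 1 → r • z ∈ Metric.ball (0 : E3) 1 := by
    intro z hz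
    rw [mem_ball_zero_iff] at hz ⊢
    rw [norm_smul, Real.norm_of_nonneg hr0]
    nlinarith [norm_nonneg z]
  have key : ∀ δ > 0, G x - F (r • x) ≤ ε + δ := by
    intro δ hδ
    set v : E3 → ℝ := fun z => G z - F (r • z) + δ * ‖z‖ ^ 2 with hv
    have hsub : Metric.closedBall (0 : E3) s ⊆ Metric.ball 0 1 :=
      Metric.closedBall_subset_ball hs1
    have hcont : ContinuousOn v (Metric.closedBall 0 s) := by
      have h1 : ContinuousOn G (Metric.closedBall 0 s) := hG.continuousOn.mono hsub
      have h2 : ContinuousOn (fun z => F (r • z)) (Metric.closedBall 0 s) :=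
        hF.continuousOn.comp (by fun_prop) (fun z hz => hrb z (hsub hz))
      have h3 : ContinuousOn (fun z : E3 => δ * ‖z‖ ^ 2) (Metric.closedBall 0 s) := by fun_prop
      exact (h1.sub h2).add h3
    obtain ⟨x0, hx0, hmax⟩ := (isCompact_closedBall (0 : E3) s).exists_isMaxOn
      ⟨0, by simp [hs0.le]⟩ hcont
    have hx0s : ‖x0‖ = s := by
      by_contra hne
      have hlt : ‖x0‖ < s := lt_of_le_of_ne (by simpa using hx0) hne
      have hx01 : x0 ∈ Metric.ball (0 : E3) 1 := by
        rw [mem_ball_zero_iff]; linarith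
      have hloc : ∀ᶠ z in 𝓝 x0, v z ≤ v x0 := by
        have : Metric.ball (0 : E3) s ∈ 𝓝 x0 :=
          Metric.isOpen_ball.mem_nhds (by simpa using hlt)
        filter_upwards [this] with z hz
        exact hmax (Metric.ball_subset_closedBall hz)
      have hi : ∀ i, pd i (pd i G) x0 - r * (r * pd i (pd i F) (r • x0)) + 2 * δ ≤ 0 := by
        intro i
        have hpath : Continuous (fun t : ℝ => x0 + t • bv i) := by fun_prop
        have hev : ∀ᶠ t in 𝓝 (0 : ℝ), x0 + t • bv i ∈ Metric.ball (0 : E3) 1 := by
          apply hpath.continuousAt.eventually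
          simp only [zero_smul, add_zero]
          exact Metric.isOpen_ball.mem_nhds hx01
        have hn : ∀ t : ℝ, ‖x0 + t • bv i‖ ^ 2 = ‖x0‖ ^ 2 + 2 * x0 i * t + t ^ 2 := by
          intro t
          rw [norm_add_sq_real, norm_smul, mul_pow]
          have e1 : inner ℝ x0 (t • bv i) = t * x0 i := by
            rw [inner_smul_right]
            congr 1
            simp [bv, EuclideanSpace.inner_single_right]
          have e2 : ‖bv i‖ = 1 := by simp [bv]
          rw [e1, e2]
          simp
          ring
        refine semi_second (φ := fun t : ℝ => v (x0 + t • bv i))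
          (ψ := fun t : ℝ => fderiv ℝ G (x0 + t • bv i) (bv i) -
            r * fderiv ℝ F (r • x0 + (r * t) • bv i) (bv i) + δ * (2 * x0 i + 2 * t)) ?_ ?_ ?_
        · have h3 : Tendsto (fun t : ℝ => x0 + t • bv i) (𝓝 0) (𝓝 x0) := by
            have := hpath.tendsto 0
            simpa using this
          have h4 := h3.eventually hloc
          filter_upwards [h4] with t ht
          simpa using ht
        · filter_upwards [hev] with t ht
          have h5 := semi_d1 hG ht
          have h6 : HasDerivAt (fun t : ℝ => F (r • x0 + (r * t) • bv i))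
              (r * fderiv ℝ F (r • x0 + (r * t) • bv i) (bv i)) t := by
            have h7 : r • x0 + (r * t) • bv i ∈ Metric.ball (0 : E3) 1 := by
              have := hrb _ ht
              rwa [smul_add, smul_smul] at this
            have h8 := semi_d1 hF h7
            have h9 : HasDerivAt (fun t : ℝ => r * t) r t := by
              simpa using (hasDerivAt_id t).const_mul r
            have h10 := h8.comp t h9
            rw [mul_comm]
            exact h10
          have h11 : HasDerivAt (fun t : ℝ => δ * (‖x0‖ ^ 2 + 2 * x0 i * t + t ^ 2))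
              (δ * (2 * x0 i + 2 * t)) t := by
            have ha : HasDerivAt (fun t : ℝ => ‖x0‖ ^ 2 + 2 * x0 i * t + t ^ 2)
                (2 * x0 i + 2 * t) t := by
              have h12 := (hasDerivAt_id t).const_mul (2 * x0 i)
              have h13 := hasDerivAt_pow 2 t
              have h14 := (h12.const_add (‖x0‖ ^ 2)).add h13
              refine h14.congr_deriv ?_
              simp
            exact ha.const_mul δ
          have h15 := (h5.sub h6).add h11
          refine h15.congr_of_eventuallyEq ?_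
          filter_upwards with t'
          simp only [hv]
          rw [hn t', smul_add, smul_smul]
          rfl
        · have h5 := semi_d2 (b := bv i) hG hx01
          have h6 : HasDerivAt (fun t : ℝ => r * fderiv ℝ F (r • x0 + (r * t) • bv i) (bv i))
              (r * (r * pd i (pd i F) (r • x0))) 0 := by
            have h7 := semi_d2 (b := bv i) hF (hrb x0 hx01)
            have h9 : HasDerivAt (fun t : ℝ => r * t) r 0 := by
              simpa using (hasDerivAt_id (0 : ℝ)).const_mul r
            have h7' : HasDerivAt (fun s : ℝ => fderiv ℝ F (r • x0 + s • bv i) (bv i))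
                (fderiv ℝ (fun z => fderiv ℝ F z (bv i)) (r • x0) (bv i)) (r * (0 : ℝ)) := by
              rw [mul_zero]; exact h7
            have h10 := (h7'.comp (0 : ℝ) h9).const_mul r
            refine h10.congr_deriv ?_
            show r * (fderiv ℝ (fun z => fderiv ℝ F z (bv i)) (r • x0) (bv i) * r) =
              r * (r * fderiv ℝ (fun z => fderiv ℝ F z (bv i)) (r • x0) (bv i))
            ring
          have h11 : HasDerivAt (fun t : ℝ => δ * (2 * x0 i + 2 * t)) (2 * δ) 0 := by
            have h12 := (((hasDerivAt_id (0 : ℝ)).const_mul 2).const_add (2 * x0 i)).const_mul δ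
            refine h12.congr_deriv ?_
            ring
          exact (h5.sub h6).add h11
      have hsum := Finset.sum_le_sum (s := Finset.univ) (fun i _ => hi i)
      have hr2 : ‖r • x0‖ < 1 := by simpa using hrb x0 hx01
      have hx02 : ‖x0‖ < 1 := by simpa using hx01
      rw [Finset.sum_const_zero, Finset.sum_add_distrib, Finset.sum_sub_distrib,
        ← Finset.mul_sum, ← Finset.mul_sum, hG2 x0 hx02, hF2 _ hr2] at hsum
      simp only [Finset.sum_const, Finset.card_univ, Fintype.card_fin] at hsum
      norm_num at hsum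
      linarith
    have h1 : v x ≤ v x0 := hmax (by simpa using hx)
    have h2 := hb x0 hx0s
    simp only [hv] at h1
    rw [hx0s] at h1
    have h3 : 0 ≤ δ * ‖x‖ ^ 2 := by positivity
    have h4 : δ * s ^ 2 ≤ δ := by
      have : s ^ 2 ≤ 1 := by nlinarith
      nlinarith
    linarith
  by_contra hneg
  push Not at hneg
  have := key ((G x - F (r • x) - ε) / 2) (by linarith)
  linarith

theorem PE_semi (f g : C(S2, ℝ)) (r : ℝ) (h0 : 0 ≤ r) (h1 : r < 1)
    (hg : ∀ θ : S2, g θ = PE f (r • (θ : E3))) (x : E3) (hx : ‖x‖ < 1) :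
    PE g x = PE f (r • x) := by
  have hG := PE_smooth g
  have hF := PE_smooth f
  -- uniform continuity of `PE f` on the closed ball of radius `r`
  have hsub : Metric.closedBall (0 : E3) r ⊆ Metric.ball 0 1 := Metric.closedBall_subset_ball h1
  have huc : UniformContinuousOn (PE f) (Metric.closedBall 0 r) :=
    (isCompact_closedBall (0 : E3) r).uniformContinuousOn_of_continuous (hF.continuousOn.mono hsub)
  have key : ∀ ε > 0, ∃ s, ‖x‖ < s ∧ 0 < s ∧ s < 1 ∧ ∀ z : E3, ‖z‖ = s →
      |PE g z - PE f (r • z)| ≤ ε := by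
    intro ε hε
    obtain ⟨r1, hr1, hb⟩ := PE_bdry g (ε / 2) (by positivity)
    obtain ⟨δ, hδ, hu⟩ := Metric.uniformContinuousOn_iff.1 huc (ε / 2) (by positivity)
    obtain ⟨s, hs1, hs2⟩ : ∃ s, max (max r1 ‖x‖) (max 0 (1 - δ)) < s ∧ s < 1 := by
      apply exists_between
      simp [hr1, hx, hδ]
    simp only [max_lt_iff] at hs1
    obtain ⟨⟨ha, hb'⟩, hc, hd⟩ := hs1
    refine ⟨s, hb', hc, hs2, fun z hz => ?_⟩
    have hz0 : z ≠ 0 := by
      intro h; rw [h, norm_zero] at hz; linarith
    have hzd : s • (dirS z : E3) = z := by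
      rw [← hz]; exact norm_smul_dirS hz0
    have e1 := hb s ha hs2 (dirS z)
    rw [hzd] at e1
    have e2 : |PE f (r • z) - g (dirS z)| < ε / 2 := by
      rw [hg (dirS z), ← Real.dist_eq]
      apply hu
      · rw [mem_closedBall_zero_iff, norm_smul, Real.norm_of_nonneg h0, hz]
        nlinarith
      · rw [mem_closedBall_zero_iff, norm_smul, Real.norm_of_nonneg h0, norm_S2, mul_one]
      · rw [dist_eq_norm, ← smul_sub, norm_smul, Real.norm_of_nonneg h0]
        have e3 : z - (dirS z : E3) = (s - 1) • (dirS z : E3) := by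
          rw [sub_smul, one_smul, hzd]
        rw [e3, norm_smul, norm_S2, mul_one, Real.norm_eq_abs, abs_of_nonpos (by linarith)]
        nlinarith
    have e4 : PE g z - PE f (r • z) = (PE g z - g (dirS z)) - (PE f (r • z) - g (dirS z)) := by
      ring
    rw [e4]
    have e5 := abs_sub (PE g z - g (dirS z)) (PE f (r • z) - g (dirS z))
    linarith
  have hle : ∀ ε > 0, |PE g x - PE f (r • x)| ≤ ε := by
    intro ε hε
    obtain ⟨s, hs0, hs1, hs2, hs3⟩ := key ε hε
    rw [abs_le]
    constructor
    · -- apply the maximum principle to the negative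
      have hneg := semi_max (G := fun z => - PE g z) (F := fun z => - PE f z) (ε := ε) h0 h1 hs1
        hs2 hG.neg hF.neg ?_ ?_ ?_ x hs0.le
      · linarith
      · intro z hz
        have : ∀ i, pd i (pd i (fun z => - PE g z)) z = - pd i (pd i (PE g)) z := by
          intro i
          have e1 : pd i (fun z => - PE g z) = fun z => - pd i (PE g) z := by
            funext y
            simp only [pd]
            rw [fderiv_fun_neg]
            simp
          rw [e1]
          show fderiv ℝ (fun z => - pd i (PE g) z) z (bv i) = - fderiv ℝ (pd i (PE g)) z (bv i)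
          rw [fderiv_fun_neg]
          simp
        simp only [this, Finset.sum_neg_distrib, PE_harm g z hz, neg_zero]
      · intro z hz
        have : ∀ i, pd i (pd i (fun z => - PE f z)) z = - pd i (pd i (PE f)) z := by
          intro i
          have e1 : pd i (fun z => - PE f z) = fun z => - pd i (PE f) z := by
            funext y
            simp only [pd]
            rw [fderiv_fun_neg]
            simp
          rw [e1]
          show fderiv ℝ (fun z => - pd i (PE f) z) z (bv i) = - fderiv ℝ (pd i (PE f)) z (bv i)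
          rw [fderiv_fun_neg]
          simp
        simp only [this, Finset.sum_neg_distrib, PE_harm f z hz, neg_zero]
      · intro z hz
        have := (abs_le.1 (hs3 z hz)).1
        linarith
    · exact semi_max h0 h1 hs1 hs2 hG hF (PE_harm g) (PE_harm f)
        (fun z hz => (abs_le.1 (hs3 z hz)).2) x hs0.le
  have h2 : |PE g x - PE f (r • x)| ≤ 0 := le_of_forall_pos_le_add (fun ε hε => by
    have := hle ε hε
    linarith)
  have h3 := abs_nonpos_iff.1 h2
  linarith

end

end Pool.Agent.BS
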