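import Pool.Agent.BS.Defs4

/-!
# Module SUP: superposition operators on Y
-/

namespace Pool.Agent.BS

open MeasureTheory Topology Set Filter
open scoped ContDiff

noncomputable section

namespace SUP

section general

variable {E F : Type*} [NormedAddCommGroup E] [NormedSpace ℝ E] [FiniteDimensional ℝ E]
  [NormedAddCommGroup F] [NormedSpace ℝ F]

/-- a `C^1` function is bounded and Lipschitz on balls -/
theorem lip_ball {G : E → F} (hG : ContDiff ℝ 1 G) (R : ℝ) : ∃ K, 0 ≤ K ∧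
    (∀ a, ‖a‖ ≤ R → ‖G a‖ ≤ K) ∧ ∀ a b, ‖a‖ ≤ R → ‖b‖ ≤ R → ‖G a - G b‖ ≤ K * ‖a - b‖ := by
  have hc : IsCompact (Metric.closedBall (0 : E) R) := isCompact_closedBall 0 R
  obtain ⟨K1, hK1⟩ := hc.exists_bound_of_continuousOn hG.continuous.continuousOn
  obtain ⟨K2, hK2⟩ := hc.exists_bound_of_continuousOn
    (hG.continuous_fderiv one_ne_zero).continuousOn
  refine ⟨max 0 (max K1 K2), le_max_left _ _, fun a ha => ?_, fun a b ha hb => ?_⟩
  · exact (hK1 a (by simpa using ha)).trans ((le_max_left _ _).trans (le_max_right _ _))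
  · refine (convex_closedBall (0 : E) R).norm_image_sub_le_of_norm_fderiv_le (𝕜 := ℝ)
      (fun x _ => (hG.differentiable one_ne_zero) x) (fun x hx => ?_) (by simpa using hb)
      (by simpa using ha)
    exact (hK2 x hx).trans ((le_max_right _ _).trans (le_max_right _ _))

/-- the Taylor remainder of order two -/
def rem (G : E → F) (a b : E) : F := G (a + b) - G a - fderiv ℝ G a b

theorem rem_bound {G : E → F} (hG : ContDiff ℝ 3 G) (R : ℝ) : ∃ C, 0 ≤ C ∧
    ∀ δ : ℝ, 0 ≤ δ → δ ≤ 1 → ∀ a a' b b' : E, ‖a‖ ≤ R → ‖a'‖ ≤ R → ‖b‖ ≤ δ → ‖b'‖ ≤ δ →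
      ‖rem G a b‖ ≤ C * δ ^ 2 ∧
      ‖rem G a b - rem G a' b'‖ ≤ C * (δ ^ 2 * ‖a - a'‖ + δ * ‖b - b'‖) := by
  have h2 : ContDiff ℝ 2 (fderiv ℝ G) := hG.fderiv_right (m := 2) (by norm_num)
  have h1 : ContDiff ℝ 1 (fderiv ℝ (fderiv ℝ G)) := h2.fderiv_right (m := 1) (by norm_num)
  obtain ⟨K1, hK1, -, hL1⟩ := lip_ball (h2.of_le (by norm_num)) (R + 1)
  obtain ⟨K2, hK2, -, hL2⟩ := lip_ball h1 (R + 1)
  have hd : Differentiable ℝ G := hG.differentiable (by norm_num)
  have hd1 : Differentiable ℝ (fderiv ℝ G) := h2.differentiable (by norm_num)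
  -- derivative of the remainder in `b`
  have hrem : ∀ a b : E, HasFDerivAt (fun b => rem G a b) (fderiv ℝ G (a + b) - fderiv ℝ G a) b := by
    intro a b
    have e1 : HasFDerivAt (fun b => G (a + b)) (fderiv ℝ G (a + b)) b := by
      have := (hd (a + b)).hasFDerivAt.comp b ((hasFDerivAt_id b).const_add a)
      simpa [Function.comp_def] using this
    exact (e1.sub_const (G a)).sub (fderiv ℝ G a).hasFDerivAt
  have hconv : ∀ δ : ℝ, Convex ℝ (Metric.closedBall (0 : E) δ) := fun δ => convex_closedBall _ _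
  refine ⟨K1 + K2, by positivity, fun δ hδ hδ1 a a' b b' ha ha' hb hb' => ?_⟩
  have hsum : ∀ a b : E, ‖a‖ ≤ R → ‖b‖ ≤ δ → ‖a + b‖ ≤ R + 1 := fun a b ha hb =>
    (norm_add_le _ _).trans (by linarith)
  -- Lipschitz in `b`
  have stepb : ∀ a' b b' : E, ‖a'‖ ≤ R → ‖b‖ ≤ δ → ‖b'‖ ≤ δ →
      ‖rem G a' b - rem G a' b'‖ ≤ K1 * δ * ‖b - b'‖ := by
    intro a' b b' ha' hb hb'
    refine (hconv δ).norm_image_sub_le_of_norm_hasFDerivWithin_le
      (f := fun b => rem G a' b) (f' := fun b => fderiv ℝ G (a' + b) - fderiv ℝ G a')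
      (fun x _ => (hrem a' x).hasFDerivWithinAt) (fun x hx => ?_)
      (by simpa using hb') (by simpa using hb)
    have hx' : ‖x‖ ≤ δ := by simpa using hx
    refine (hL1 _ _ (hsum a' x ha' hx') (ha'.trans (by linarith))).trans ?_
    rw [add_sub_cancel_left]
    exact mul_le_mul_of_nonneg_left hx' hK1
  -- Lipschitz in `a`
  have stepa : ‖rem G a b - rem G a' b‖ ≤ K2 * ‖a - a'‖ * δ * δ := by
    have hq0 : rem G a 0 - rem G a' 0 = 0 := by simp [rem]
    have h3 : ∀ x : E, ‖x‖ ≤ δ →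
        ‖(fderiv ℝ G (a + x) - fderiv ℝ G a) - (fderiv ℝ G (a' + x) - fderiv ℝ G a')‖
          ≤ K2 * ‖a - a'‖ * δ := by
      intro x hx
      have e : ∀ c y : E, HasFDerivAt (fun y => fderiv ℝ G (c + y)) (fderiv ℝ (fderiv ℝ G) (c + y)) y := by
        intro c y
        have := (hd1 (c + y)).hasFDerivAt.comp y ((hasFDerivAt_id y).const_add c)
        simpa [Function.comp_def] using this
      have := (hconv δ).norm_image_sub_le_of_norm_hasFDerivWithin_le
        (f := fun y => fderiv ℝ G (a + y) - fderiv ℝ G (a' + y))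
        (f' := fun y => fderiv ℝ (fderiv ℝ G) (a + y) - fderiv ℝ (fderiv ℝ G) (a' + y))
        (C := K2 * ‖a - a'‖)
        (fun y _ => ((e a y).sub (e a' y)).hasFDerivWithinAt) (fun y hy => ?_)
        (x := 0) (y := x) (by simpa using hδ) (by simpa using hx)
      · rw [sub_zero] at this
        have e2 : (fderiv ℝ G (a + x) - fderiv ℝ G a) - (fderiv ℝ G (a' + x) - fderiv ℝ G a') =
            fderiv ℝ G (a + x) - fderiv ℝ G (a' + x) - (fderiv ℝ G (a + 0) - fderiv ℝ G (a' + 0)) := by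
          rw [add_zero, add_zero]; abel
        rw [e2]
        exact this.trans (mul_le_mul_of_nonneg_left hx (by positivity))
      · have hy' : ‖y‖ ≤ δ := by simpa using hy
        refine (hL2 _ _ (hsum a y ha hy') (hsum a' y ha' hy')).trans ?_
        rw [add_sub_add_right_eq_sub]
    have := (hconv δ).norm_image_sub_le_of_norm_hasFDerivWithin_le
      (f := fun b => rem G a b - rem G a' b)
      (f' := fun x => (fderiv ℝ G (a + x) - fderiv ℝ G a) - (fderiv ℝ G (a' + x) - fderiv ℝ G a'))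
      (C := K2 * ‖a - a'‖ * δ)
      (fun x _ => ((hrem a x).sub (hrem a' x)).hasFDerivWithinAt)
      (fun x hx => h3 x (by simpa using hx)) (x := 0) (y := b) (by simpa using hδ) (by simpa using hb)
    rw [sub_zero, hq0, sub_zero] at this
    exact this.trans (mul_le_mul_of_nonneg_left hb (by positivity))
  constructor
  · have h4 := stepb a b 0 ha hb (by simpa using hδ)
    have h5 : rem G a 0 = 0 := by simp [rem]
    rw [h5, sub_zero, sub_zero] at h4
    refine h4.trans ?_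
    calc K1 * δ * ‖b‖ ≤ K1 * δ * δ := mul_le_mul_of_nonneg_left hb (by positivity)
      _ ≤ (K1 + K2) * δ ^ 2 := by nlinarith [mul_nonneg hK2 (sq_nonneg δ)]
  · have h4 := stepb a' b b' ha' hb hb'
    have e3 : rem G a b - rem G a' b' = (rem G a b - rem G a' b) + (rem G a' b - rem G a' b') := by abel
    rw [e3]
    refine (norm_add_le _ _).trans ((add_le_add stepa h4).trans ?_)
    have n1 : 0 ≤ K1 * (δ ^ 2 * ‖a - a'‖) := by positivity
    have n2 : 0 ≤ K2 * (δ * ‖b - b'‖) := by positivity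
    nlinarith

end general

/-- superposition -/
def S {ι : Type*} (G : (ι → ℝ) → ℝ) (f : ι → Y) : Y := Y.mk (fun x => G (fun i => f i x))

variable {ι : Type*} [Fintype ι]

theorem norm_pt_le (f : ι → Y) (x : Om) : ‖fun i => f i x‖ ≤ ‖f‖ :=
  (pi_norm_le_iff_of_nonneg (norm_nonneg _)).2 fun i =>
    ((f i).abs_apply_le x).trans (norm_le_pi_norm f i)

theorem norm_pt_sub_le (f : ι → Y) {x y : Om} (hxy : ‖(x : E3)‖ = ‖(y : E3)‖) :
    ‖(fun i => f i x) - (fun i => f i y)‖ ≤ ‖f‖ * Real.sqrt (adist x y) :=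
  (pi_norm_le_iff_of_nonneg (by positivity)).2 fun i =>
    ((f i).abs_sub_le hxy).trans (mul_le_mul_of_nonneg_right (norm_le_pi_norm f i)
      (Real.sqrt_nonneg _))

omit [Fintype ι] in
theorem continuous_pt (f : ι → Y) : Continuous (fun x : Om => (fun i => f i x)) :=
  continuous_pi fun i => (f i).continuous

theorem adm_S {G : (ι → ℝ) → ℝ} (hG : ContDiff ℝ 1 G) (f : ι → Y) :
    ∃ C, 0 ≤ C ∧ Y.Adm C (fun x => G (fun i => f i x)) := by
  obtain ⟨K, hK, h1, h2⟩ := lip_ball hG ‖f‖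
  refine ⟨K * (1 + ‖f‖), by positivity, hG.continuous.comp (continuous_pt f), fun x => ?_,
    fun x y hxy => ?_⟩
  · have := h1 _ (norm_pt_le f x)
    rw [Real.norm_eq_abs] at this
    nlinarith [mul_nonneg hK (norm_nonneg f)]
  · have := h2 _ _ (norm_pt_le f x) (norm_pt_le f y)
    rw [Real.norm_eq_abs] at this
    refine this.trans ((mul_le_mul_of_nonneg_left (norm_pt_sub_le f hxy) hK).trans ?_)
    have : 0 ≤ K * Real.sqrt (adist x y) := mul_nonneg hK (Real.sqrt_nonneg _)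
    nlinarith

theorem S_apply {G : (ι → ℝ) → ℝ} (hG : ContDiff ℝ 1 G) (f : ι → Y) (x : Om) :
    S G f x = G (fun i => f i x) := by
  obtain ⟨C, hC, h⟩ := adm_S hG f
  exact Y.mk_apply hC h x

variable [DecidableEq ι]

/-- the derivative in the direction of a basis vector -/
def pd (G : (ι → ℝ) → ℝ) (j : ι) (a : ι → ℝ) : ℝ := fderiv ℝ G a (Pi.single j 1)

theorem contDiff_pd {G : (ι → ℝ) → ℝ} (hG : ContDiff ℝ ∞ G) (j : ι) : ContDiff ℝ ∞ (pd G j) := by
  have : ContDiff ℝ ∞ (fderiv ℝ G) := (contDiff_infty_iff_fderiv.1 hG).2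
  exact this.clm_apply contDiff_const

theorem fderiv_eq_sum (G : (ι → ℝ) → ℝ) (a b : ι → ℝ) : fderiv ℝ G a b = ∑ j, pd G j a * b j := by
  conv_lhs => rw [pi_eq_sum_univ' b]
  rw [map_sum]
  refine Finset.sum_congr rfl fun j _ => ?_
  rw [map_smul, smul_eq_mul, mul_comm]
  rfl

/-- the derivative -/
def DS (G : (ι → ℝ) → ℝ) (f : ι → Y) : (ι → Y) →L[ℝ] Y :=
  ∑ j, (ContinuousLinearMap.mul ℝ Y (S (pd G j) f)).comp (ContinuousLinearMap.proj j)

theorem hasFDerivAt_S {G : (ι → ℝ) → ℝ} (hG : ContDiff ℝ ∞ G) (f : ι → Y) :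
    HasFDerivAt (S G) (DS G f) f := by
  have hG1 : ContDiff ℝ 1 G := hG.of_le (by exact_mod_cast le_top)
  have hG3 : ContDiff ℝ 3 G := contDiff_infty.1 hG 3
  obtain ⟨C, hC, hb⟩ := rem_bound hG3 ‖f‖
  rw [hasFDerivAt_iff_isLittleO_nhds_zero]
  refine Asymptotics.IsBigO.trans_isLittleO (g := fun h : ι → Y => ‖h‖ ^ 2) ?_
    (Asymptotics.isLittleO_norm_pow_id one_lt_two)
  refine Asymptotics.IsBigO.of_bound (2 * (C * (1 + ‖f‖))) ?_
  have hev : ∀ᶠ h : ι → Y in 𝓝 0, ‖h‖ ≤ 1 := by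
    filter_upwards [Metric.closedBall_mem_nhds (0 : ι → Y) one_pos] with h hh
    simpa using hh
  filter_upwards [hev] with h hh
  set q : Y := S G (f + h) - S G f - DS G f h with hq
  have hpt : ∀ x : Om, q x = rem G (fun i => f i x) (fun i => h i x) := by
    intro x
    have e1 : DS G f h = ∑ j, S (pd G j) f * h j := by
      rw [DS, sum_apply]
      rfl
    have e2 : (DS G f h : Y) x = ∑ j, pd G j (fun i => f i x) * h j x := by
      rw [e1, Y.sum_apply]
      refine Finset.sum_congr rfl fun j _ => ?_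
      rw [Y.mul_apply, S_apply ((contDiff_pd hG j).of_le (by exact_mod_cast le_top))]
    rw [hq, Y.sub_apply, Y.sub_apply, e2, S_apply hG1, S_apply hG1, rem, fderiv_eq_sum]
    rfl
  have hpt' : ∀ x : Om, q.toB x = rem G (fun i => f i x) (fun i => h i x) := hpt
  have hn := norm_nonneg h
  have hf := norm_nonneg f
  have hadm : Y.Adm (C * (1 + ‖f‖) * ‖h‖ ^ 2) q := by
    refine ⟨Y.continuous _, fun x => ?_, fun x y hxy => ?_⟩
    · rw [hpt']
      have := (hb ‖h‖ hn hh _ _ _ _ (norm_pt_le f x) (norm_pt_le f x) (norm_pt_le h x)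
        (norm_pt_le h x)).1
      rw [Real.norm_eq_abs] at this
      refine this.trans ?_
      have : 0 ≤ C * ‖f‖ * ‖h‖ ^ 2 := by positivity
      nlinarith
    · rw [hpt', hpt']
      have := (hb ‖h‖ hn hh _ _ _ _ (norm_pt_le f x) (norm_pt_le f y) (norm_pt_le h x)
        (norm_pt_le h y)).2
      rw [Real.norm_eq_abs] at this
      refine this.trans ?_
      have h1 := mul_le_mul_of_nonneg_left (norm_pt_sub_le f hxy) (sq_nonneg ‖h‖)
      have h2 := mul_le_mul_of_nonneg_left (norm_pt_sub_le h hxy) hn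
      refine (mul_le_mul_of_nonneg_left (add_le_add h1 h2) hC).trans (le_of_eq ?_)
      ring
  have hle := Y.norm_le_of_adm (by positivity) hadm
  rw [Real.norm_of_nonneg (by positivity)]
  refine hle.trans (le_of_eq ?_)
  ring

theorem contDiff_S_nat (m : ℕ) : ∀ G : (ι → ℝ) → ℝ, ContDiff ℝ ∞ G → ContDiff ℝ m (S G) := by
  induction m with
  | zero => 
    intro G hG
    rw [Nat.cast_zero, contDiff_zero]
    exact continuous_iff_continuousAt.2 fun f => (hasFDerivAt_S hG f).continuousAt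
  | succ m ih =>
    intro G hG
    rw [Nat.cast_succ, contDiff_succ_iff_hasFDerivAt]
    refine ⟨DS G, ?_, hasFDerivAt_S hG⟩
    unfold DS
    refine ContDiff.sum fun j _ => ?_
    have h1 := ih (pd G j) (contDiff_pd hG j)
    have h2 : ContDiff ℝ m (fun f : ι → Y => ContinuousLinearMap.mul ℝ Y (S (pd G j) f)) :=
      (ContinuousLinearMap.mul ℝ Y).contDiff.comp h1
    exact h2.clm_comp contDiff_const

theorem contDiff_S {G : (ι → ℝ) → ℝ} (hG : ContDiff ℝ ∞ G) : ContDiff ℝ ∞ (S G) :=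
  contDiff_infty.2 fun m => contDiff_S_nat m G hG

theorem norm_sub_Om {x y : Om} (hxy : ‖(x : E3)‖ = ‖(y : E3)‖) :
    ‖(x : E3) - (y : E3)‖ = ‖(x : E3)‖ * adist x y := by
  have h1 := norm_smul_dirS (Om_ne_zero x)
  have h2 := norm_smul_dirS (Om_ne_zero y)
  rw [adist, Subtype.dist_eq, dist_eq_norm]
  conv_lhs => rw [← h1, ← h2, ← hxy, ← smul_sub, norm_smul, norm_norm]

theorem adist_le (x y : Om) : adist x y ≤ 2 := by
  rw [adist, Subtype.dist_eq, dist_eq_norm]
  refine (norm_sub_le _ _).trans ?_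
  rw [norm_S2, norm_S2]; norm_num

theorem adist_le_sqrt (x y : Om) : adist x y ≤ 2 * Real.sqrt (adist x y) := by
  have h0 : 0 ≤ adist x y := dist_nonneg
  have h1 := Real.sq_sqrt h0
  have h2 : Real.sqrt (adist x y) ≤ 2 := by
    rw [Real.sqrt_le_left (by norm_num)]
    linarith [adist_le x y]
  nlinarith [Real.sqrt_nonneg (adist x y)]

/-- the inversion -/
def inv (z : E3) : E3 := (‖z‖ ^ 2)⁻¹ • z

theorem norm_inv (z : E3) : ‖inv z‖ = ‖z‖⁻¹ := by
  rcases eq_or_ne z 0 with rfl | hz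
  · simp [inv]
  · have : ‖z‖ ≠ 0 := norm_ne_zero_iff.2 hz
    rw [inv, norm_smul, _root_.norm_inv, norm_pow, norm_norm]
    field_simp

theorem inv_inv {z : E3} (hz : z ≠ 0) : inv (inv z) = z := by
  have : ‖z‖ ≠ 0 := norm_ne_zero_iff.2 hz
  rw [inv, norm_inv, inv, smul_smul]
  have : ((‖z‖⁻¹ ^ 2)⁻¹ * (‖z‖ ^ 2)⁻¹) = 1 := by field_simp
  rw [this, one_smul]

theorem contDiffAt_inv {z : E3} (hz : z ≠ 0) : ContDiffAt ℝ ∞ inv z := by
  have h1 : ContDiffAt ℝ ∞ (fun z : E3 => ‖z‖ ^ 2) z := (contDiff_norm_sq ℝ).contDiffAt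
  exact (h1.inv (by simpa using hz)).smul contDiffAt_id

/-- the coordinates of the inverted point as elements of `Y` -/
def invc (j : Fin 3) : Y := Y.mk (fun y => inv (y : E3) j)

theorem adm_invc (j : Fin 3) : Y.Adm 2 (fun y : Om => inv (y : E3) j) := by
  have hj : ∀ v : E3, |v j| ≤ ‖v‖ := fun v => by
    rw [← Real.norm_eq_abs]; exact PiLp.norm_apply_le v j
  refine ⟨?_, fun x => ?_, fun x y hxy => ?_⟩
  · have h1 : Continuous (fun y : Om => inv (y : E3)) := by
      refine Continuous.smul (Continuous.inv₀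
        ((continuous_norm.comp continuous_subtype_val).pow 2) fun x => ?_) continuous_subtype_val
      have := Om_ne_zero x
      simpa using this
    exact (EuclideanSpace.proj j : E3 →L[ℝ] ℝ).continuous.comp h1
  · refine (hj _).trans ?_
    rw [norm_inv]
    have := inv_le_one_of_one_le₀ x.2
    linarith
  · have e : inv (x : E3) j - inv (y : E3) j = (inv (x : E3) - inv (y : E3)) j := rfl
    rw [e]
    refine (hj _).trans ?_
    rw [inv, inv, ← hxy, ← smul_sub, norm_smul, norm_sub_Om hxy]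
    have hx := x.2
    have hx0 : 0 < ‖(x : E3)‖ := by linarith
    have h0 : 0 ≤ adist x y := dist_nonneg
    rw [_root_.norm_inv, norm_pow, norm_norm]
    have : (‖(x : E3)‖ ^ 2)⁻¹ * (‖(x : E3)‖ * adist x y) = ‖(x : E3)‖⁻¹ * adist x y := by
      field_simp
    rw [this]
    have h1 := mul_le_mul_of_nonneg_right (inv_le_one_of_one_le₀ hx) h0
    rw [one_mul] at h1
    exact h1.trans (adist_le_sqrt x y)

theorem invc_apply (j : Fin 3) (y : Om) : invc j y = inv (y : E3) j :=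
  Y.mk_apply (by norm_num) (adm_invc j) y

/-- the point of `E3` encoded in the last coordinates -/
def ZZp {n : ℕ} (p : Fin n ⊕ Fin 3 → ℝ) : E3 := WithLp.toLp 2 (fun j => p (Sum.inr j))

theorem contDiff_ZZp {n : ℕ} : ContDiff ℝ ∞ (ZZp : (Fin n ⊕ Fin 3 → ℝ) → E3) := by
  rw [contDiff_euclidean]
  intro i
  exact contDiff_apply ℝ ℝ (Sum.inr i)

theorem contDiff_AAp {n : ℕ} :
    ContDiff ℝ ∞ (fun (p : Fin n ⊕ Fin 3 → ℝ) => fun i : Fin n => p (Sum.inl i)) :=
  contDiff_pi.2 fun i => contDiff_apply ℝ ℝ (Sum.inl i)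

theorem exists_cutoff {V : Type*} [NormedAddCommGroup V] [NormedSpace ℝ V] [FiniteDimensional ℝ V]
    {s t : Set V} (hs : IsClosed s) (hst : s ⊆ interior t) : ∃ f : V → ℝ, ContDiff ℝ ∞ f ∧
      (∀ᶠ x in 𝓝ˢ s, f x = 1) ∧ ∀ x, x ∉ t → f x = 0 := by
  obtain ⟨f, h1, h2, -⟩ := exists_contMDiffMap_one_nhds_of_subset_interior (n := ⊤)
    (modelWithCornersSelf ℝ V) hs hst
  exact ⟨f, f.contMDiff.contDiff, h1, h2⟩

end SUP

/-- Superposition operators on `Y` are smooth. -/
theorem sup_contDiff {n : ℕ} (G : (Fin n → ℝ) → ℝ) (hG : ContDiff ℝ ∞ G) :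
    ∃ S : (Fin n → Y) → Y, (∀ f x, S f x = G (fun i => f i x)) ∧ ContDiff ℝ ∞ S :=
  ⟨SUP.S G, SUP.S_apply (hG.of_le (by exact_mod_cast le_top)), SUP.contDiff_S hG⟩

/-- Superposition with dependence on the point, compactly supported. -/
theorem sup_contDiffAt {n : ℕ} (G : (Fin n → ℝ) → E3 → ℝ) (U K : Set (Fin n → ℝ)) (ρ : ℝ)
    (hU : IsOpen U) (hK : IsCompact K) (hKU : K ⊆ U)
    (hG : ContDiffOn ℝ ∞ (fun p : (Fin n → ℝ) × E3 => G p.1 p.2) (U ×ˢ {y | 1 / 2 < ‖y‖}))
    (hρ : ∀ a ∈ U, ∀ y, ρ ≤ ‖y‖ → G a y = 0)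
    (f₀ : Fin n → Y) (h₀ : ∀ x, (fun i => f₀ i x) ∈ K) :
    ContDiffAt ℝ ∞ (fun f : Fin n → Y => Y.mk (fun y => G (fun i => f i y) (y : E3))) f₀ ∧
    ∀ᶠ f in 𝓝 f₀, ∀ y : Om, Y.mk (fun y => G (fun i => f i y) (y : E3)) y =
      G (fun i => f i y) (y : E3) := by
  obtain ⟨L, hL, hKL, hLU⟩ := exists_compact_between hK hU hKU
  obtain ⟨c1, hc1, hc11, hc10⟩ := SUP.exists_cutoff hK.isClosed hKL
  set r : ℝ := max ρ 1 with hr
  have hr1 : 1 ≤ r := le_max_right _ _
  have hr0 : 0 < r := by linarith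
  set A : Set E3 := {z | r⁻¹ ≤ ‖z‖ ∧ ‖z‖ ≤ 1} with hA
  set B : Set E3 := {z | r⁻¹ / 2 ≤ ‖z‖ ∧ ‖z‖ ≤ 3 / 2} with hB
  have hAc : IsClosed A := (isClosed_le continuous_const continuous_norm).inter
    (isClosed_le continuous_norm continuous_const)
  have hBc : IsClosed B := (isClosed_le continuous_const continuous_norm).inter
    (isClosed_le continuous_norm continuous_const)
  have hri : 0 < r⁻¹ := inv_pos.2 hr0
  have hAB : A ⊆ interior B := by
    have ho : IsOpen {z : E3 | r⁻¹ / 2 < ‖z‖ ∧ ‖z‖ < 3 / 2} :=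
      (isOpen_lt continuous_const continuous_norm).inter
        (isOpen_lt continuous_norm continuous_const)
    refine subset_trans ?_ (interior_maximal (fun z hz => ⟨hz.1.le, hz.2.le⟩) ho)
    exact fun z hz => ⟨by linarith [hz.1], by linarith [hz.2]⟩
  obtain ⟨c2, hc2, hc21, hc20⟩ := SUP.exists_cutoff hAc hAB
  set H : (Fin n ⊕ Fin 3 → ℝ) → ℝ := fun p => c1 (fun i => p (Sum.inl i)) * c2 (SUP.ZZp p) *
    G (fun i => p (Sum.inl i)) (SUP.inv (SUP.ZZp p)) with hH
  have hHs : ContDiff ℝ ∞ H := by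
    rw [contDiff_iff_contDiffAt]
    intro p
    by_cases hp : (fun i => p (Sum.inl i)) ∈ L ∧ SUP.ZZp p ∈ B
    · obtain ⟨hp1, hp2⟩ := hp
      have hz0 : SUP.ZZp p ≠ 0 := by
        intro h
        have := hp2.1
        rw [h, norm_zero] at this
        linarith
      have hzpos : 0 < ‖SUP.ZZp p‖ := norm_pos_iff.2 hz0
      have hmem : ((fun i => p (Sum.inl i)), SUP.inv (SUP.ZZp p)) ∈ U ×ˢ {y : E3 | 1 / 2 < ‖y‖} := by
        refine ⟨hLU hp1, ?_⟩
        show 1 / 2 < ‖SUP.inv (SUP.ZZp p)‖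
        rw [SUP.norm_inv, lt_inv_comm₀ (by norm_num) hzpos]
        have := hp2.2
        linarith
      have ho : IsOpen (U ×ˢ {y : E3 | 1 / 2 < ‖y‖}) :=
        hU.prod (isOpen_lt continuous_const continuous_norm)
      have h1 := hG.contDiffAt (ho.mem_nhds hmem)
      have h2 : ContDiffAt ℝ ∞ (fun p : Fin n ⊕ Fin 3 → ℝ =>
          ((fun i => p (Sum.inl i)), SUP.inv (SUP.ZZp p))) p :=
        SUP.contDiff_AAp.contDiffAt.prodMk
          ((SUP.contDiffAt_inv hz0).comp p SUP.contDiff_ZZp.contDiffAt)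
      have h3 := ContDiffAt.comp p h1 h2
      exact ((hc1.comp SUP.contDiff_AAp).contDiffAt.mul
        (hc2.comp SUP.contDiff_ZZp).contDiffAt).mul h3
    · have hev : H =ᶠ[𝓝 p] fun _ => 0 := by
        rw [not_and_or] at hp
        rcases hp with hp | hp
        · have := (SUP.contDiff_AAp (n := n)).continuous.continuousAt.preimage_mem_nhds
            (hL.isClosed.isOpen_compl.mem_nhds hp)
          filter_upwards [this] with q hq
          simp only [hH]
          rw [hc10 _ hq, zero_mul, zero_mul]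
        · have := (SUP.contDiff_ZZp (n := n)).continuous.continuousAt.preimage_mem_nhds
            (hBc.isOpen_compl.mem_nhds hp)
          filter_upwards [this] with q hq
          simp only [hH]
          rw [hc20 _ hq, mul_zero, zero_mul]
      exact contDiffAt_const.congr_of_eventuallyEq hev
  have hS := SUP.contDiff_S hHs
  have hH1 : ContDiff ℝ 1 H := hHs.of_le (by exact_mod_cast le_top)
  set Φ : (Fin n → Y) → Y := fun f => SUP.S H (Sum.elim f SUP.invc) with hΦ
  have hΦs : ContDiff ℝ ∞ Φ := by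
    refine hS.comp (contDiff_pi.2 fun i => ?_)
    rcases i with i | i
    · exact contDiff_apply ℝ Y i
    · exact contDiff_const
  -- the neighbourhood
  obtain ⟨V, hV, hKV, hV1⟩ := (mem_nhdsSet_iff_exists.1
    (hc11.and (hU.mem_nhdsSet.2 hKU)))
  obtain ⟨ε, hε, hεV⟩ := hK.exists_thickening_subset_open hV hKV
  have hev : ∀ᶠ f in 𝓝 f₀, ∀ y : Om, Φ f y = G (fun i => f i y) (y : E3) := by
    filter_upwards [Metric.ball_mem_nhds f₀ hε] with f hf y
    have hfy : (fun i => f i y) ∈ V := by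
      apply hεV
      rw [Metric.mem_thickening_iff]
      refine ⟨_, h₀ y, ?_⟩
      rw [dist_eq_norm]
      refine lt_of_le_of_lt ?_ (mem_ball_iff_norm.1 hf)
      exact SUP.norm_pt_le (f - f₀) y
    obtain ⟨hfy1, hfyU⟩ := hV1 hfy
    have e0 : Φ f y = H (fun i => (Sum.elim f SUP.invc i : Y) y) := SUP.S_apply hH1 _ y
    have e1 : SUP.ZZp (fun i => (Sum.elim f SUP.invc i : Y) y) = SUP.inv (y : E3) := by
      ext j
      exact SUP.invc_apply j y
    refine e0.trans ?_
    rw [hH]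
    show c1 (fun i => f i y) * c2 (SUP.ZZp (fun i => (Sum.elim f SUP.invc i : Y) y)) *
      G (fun i => f i y) (SUP.inv (SUP.ZZp (fun i => (Sum.elim f SUP.invc i : Y) y))) = _
    rw [e1, SUP.inv_inv (Om_ne_zero y)]
    have h1 : c1 (fun i => f i y) = 1 := hfy1
    rw [h1, one_mul]
    rcases le_total ‖(y : E3)‖ r with hy | hy
    · have : SUP.inv (y : E3) ∈ A := by
        have hy1 := y.2
        refine ⟨?_, ?_⟩
        · rw [SUP.norm_inv]
          exact inv_anti₀ (by linarith) hy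
        · rw [SUP.norm_inv]
          exact inv_le_one_of_one_le₀ hy1
      rw [hc21.self_of_nhdsSet _ this, one_mul]
    · rw [hρ _ hfyU y ((le_max_left _ _).trans hy), mul_zero]
  have hmk : ∀ᶠ f in 𝓝 f₀, Y.mk (fun y => G (fun i => f i y) (y : E3)) = Φ f := by
    filter_upwards [hev] with f hf
    have e : (fun y : Om => G (fun i => f i y) (y : E3)) = fun y => Φ f y :=
      funext fun y => (hf y).symm
    rw [e]
    ext y
    exact Y.mk_apply (norm_nonneg _) (Y.adm (Φ f)) y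
  refine ⟨hΦs.contDiffAt.congr_of_eventuallyEq hmk, ?_⟩
  filter_upwards [hev, hmk] with f h1 h2 y
  rw [h2]
  exact h1 y

end

end Pool.Agent.BS
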