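import Pool.Agent.BS.Base
import Pool.Agent.BS.Sup
import Pool.Agent.BS.Tra
import Pool.Agent.BS.Uniq
import Pool.Agent.BS.Gam

/-!
# Module SMUA: interior smoothness of potentials
-/

namespace Pool.Agent.BS

open MeasureTheory Topology Set Filter
open scoped ContDiff

noncomputable section

/-! ### smooth dependence of the solution on the coefficients -/

theorem smua_Mop_eq (m : Fin 3 → Fin 3 → Y) : Mop m = ∑ i, ∑ j,
    ((ContinuousLinearMap.single ℝ (fun _ : Fin 3 => Y) i).comp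
      ((ContinuousLinearMap.mul ℝ Y (m i j)).comp (ContinuousLinearMap.proj j))) := by
  ext F k x
  have h1 : Mop m F k = ∑ j, m k j * F j := by
    simp only [Mop, ContinuousLinearMap.pi_apply, sum_apply,
      ContinuousLinearMap.comp_apply, ContinuousLinearMap.proj_apply,
      ContinuousLinearMap.mul_apply']
  have h2 : (∑ i, ∑ j, ((ContinuousLinearMap.single ℝ (fun _ : Fin 3 => Y) i).comp
      ((ContinuousLinearMap.mul ℝ Y (m i j)).comp (ContinuousLinearMap.proj j)))) F k =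
      ∑ i, ∑ j, (Pi.single i (m i j * F j) : Fin 3 → Y) k := by
    simp only [sum_apply, Finset.sum_apply]
    rfl
  have h3 : ∑ i, ∑ j, (Pi.single i (m i j * F j) : Fin 3 → Y) k = ∑ j, m k j * F j := by
    rw [Finset.sum_eq_single k]
    · simp only [Pi.single_eq_same]
    · intro b _ hb
      refine Finset.sum_eq_zero (fun j _ => ?_)
      exact Pi.single_eq_of_ne (Ne.symm hb) _
    · intro h
      exact absurd (Finset.mem_univ k) h
  rw [h1, h2, h3]

theorem smua_Mop_contDiff : ContDiff ℝ ∞ (fun m : Fin 3 → Fin 3 → Y => Mop m) := by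
  have h : (fun m : Fin 3 → Fin 3 → Y => Mop m) = fun m => ∑ i, ∑ j,
      ((ContinuousLinearMap.single ℝ (fun _ : Fin 3 => Y) i).comp
      ((ContinuousLinearMap.mul ℝ Y (m i j)).comp (ContinuousLinearMap.proj j))) :=
    funext smua_Mop_eq
  rw [h]
  refine ContDiff.sum (fun i _ => ContDiff.sum (fun j _ => ?_))
  refine contDiff_const.clm_comp (ContDiff.clm_comp ?_ contDiff_const)
  exact (ContinuousLinearMap.mul ℝ Y).contDiff.comp
    ((contDiff_apply_apply ℝ Y i j))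

theorem smua_Mop_zero : Mop (0 : Fin 3 → Fin 3 → Y) = 0 := by
  rw [smua_Mop_eq]
  ext F k x
  simp

theorem smua_unit : ∃ δ > 0, ∀ m : Fin 3 → Fin 3 → Y, ‖m‖ < δ →
    IsUnit (1 - TT.comp (Mop m)) := by
  have hc : Continuous (fun m : Fin 3 → Fin 3 → Y => ‖TT.comp (Mop m)‖) :=
    (continuous_const.clm_comp smua_Mop_contDiff.continuous).norm
  have h0 : ‖TT.comp (Mop (0 : Fin 3 → Fin 3 → Y))‖ < 1 := by
    rw [smua_Mop_zero, ContinuousLinearMap.comp_zero, norm_zero]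
    exact one_pos
  have hev : ∀ᶠ m : Fin 3 → Fin 3 → Y in 𝓝 0, ‖TT.comp (Mop m)‖ < 1 :=
    hc.continuousAt.eventually_lt continuousAt_const h0
  obtain ⟨δ, hδ, h⟩ := Metric.eventually_nhds_iff.1 hev
  refine ⟨δ, hδ, fun m hm => ?_⟩
  have := h (y := m) (by rwa [dist_zero_right])
  exact isUnit_one_sub_of_norm_lt_one (R := (Fin 3 → Y) →L[ℝ] (Fin 3 → Y)) this

theorem smua_ZZ_eq {m : Fin 3 → Fin 3 → Y} (h : IsUnit (1 - TT.comp (Mop m))) :
    ZZ TT m = TT (Mop m (thY + ZZ TT m)) := by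
  have h1 : (1 - TT.comp (Mop m)) (ZZ TT m) = TT (Mop m thY) := by
    have h2 : (1 - TT.comp (Mop m)) * Ring.inverse (1 - TT.comp (Mop m)) = 1 :=
      Ring.mul_inverse_cancel _ h
    have h3 := congrArg (fun L : (Fin 3 → Y) →L[ℝ] (Fin 3 → Y) => L (TT (Mop m thY))) h2
    exact h3
  have h2 : (1 - TT.comp (Mop m)) (ZZ TT m) = ZZ TT m - TT (Mop m (ZZ TT m)) := rfl
  rw [h2] at h1
  rw [map_add, map_add, ← h1]
  abel

theorem smua_Z_unique {m : Fin 3 → Fin 3 → Y} (h : IsUnit (1 - TT.comp (Mop m))) {Z : Fin 3 → Y}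
    (hZ : Z = TT (Mop m (thY + Z))) : Z = ZZ TT m := by
  have h1 : (1 - TT.comp (Mop m)) Z = TT (Mop m thY) := by
    have h2 : (1 - TT.comp (Mop m)) Z = Z - TT (Mop m Z) := rfl
    rw [h2]
    conv_lhs => enter [1]; rw [hZ]
    rw [map_add, map_add]
    abel
  have h2 : Ring.inverse (1 - TT.comp (Mop m)) * (1 - TT.comp (Mop m)) = 1 :=
    Ring.inverse_mul_cancel _ h
  have h3 := congrArg (fun L : (Fin 3 → Y) →L[ℝ] (Fin 3 → Y) => L Z) h2
  have h4 : (Ring.inverse (1 - TT.comp (Mop m)) : (Fin 3 → Y) →L[ℝ] (Fin 3 → Y))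
      ((1 - TT.comp (Mop m)) Z) = Z := h3
  rw [h1] at h4
  exact h4.symm

theorem smua_ZZ_contDiffAt {m : Fin 3 → Fin 3 → Y} (h : IsUnit (1 - TT.comp (Mop m))) :
    ContDiffAt ℝ ∞ (fun m => ZZ TT m) m := by
  obtain ⟨u, hu⟩ := h
  have h1 : ContDiffAt ℝ ∞ (fun m : Fin 3 → Fin 3 → Y =>
      (1 - TT.comp (Mop m) : (Fin 3 → Y) →L[ℝ] (Fin 3 → Y))) m :=
    (contDiff_const.sub (contDiff_const.clm_comp smua_Mop_contDiff)).contDiffAt
  have h2 : ContDiffAt ℝ ∞ (fun m : Fin 3 → Fin 3 → Y =>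
      (Ring.inverse (1 - TT.comp (Mop m)) : (Fin 3 → Y) →L[ℝ] (Fin 3 → Y))) m := by
    refine ContDiffAt.comp m (g := Ring.inverse) ?_ h1
    rw [← hu]
    exact contDiffAt_ringInverse (R := (Fin 3 → Y) →L[ℝ] (Fin 3 → Y)) ℝ u
  have h3 : ContDiffAt ℝ ∞ (fun m : Fin 3 → Fin 3 → Y => TT (Mop m thY)) m :=
    (TT.contDiff.comp (smua_Mop_contDiff.clm_apply contDiff_const)).contDiffAt
  exact h2.clm_apply h3

/-- evaluation at a point -/
def smuaEv (x : Om) : Y →L[ℝ] ℝ :=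
  LinearMap.mkContinuous
    { toFun := fun f => f x
      map_add' := fun _ _ => rfl
      map_smul' := fun _ _ => rfl } 1 (fun f => by
        rw [one_mul]
        exact f.abs_apply_le x)

theorem smuaEv_apply (x : Om) (f : Y) : smuaEv x f = f x := rfl

theorem smua_val_contDiffAt {m : Fin 3 → Fin 3 → Y} (h : IsUnit (1 - TT.comp (Mop m))) (x : Om) :
    ContDiffAt ℝ ∞ (fun m => Nu (Mop m (thY + ZZ TT m)) x) m := by
  have h1 : ContDiffAt ℝ ∞ (fun m : Fin 3 → Fin 3 → Y => Mop m (thY + ZZ TT m)) m :=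
    (smua_Mop_contDiff.contDiffAt).clm_apply (contDiffAt_const.add (smua_ZZ_contDiffAt h))
  exact (smuaEv x).contDiff.contDiffAt.comp m (Nu.contDiff.contDiffAt.comp m h1)


/-! ### the family of diffeomorphisms -/

/-- `y + ζ(y) s` -/
def smuaPsi (ζ : E3 → ℝ) (s : E3) (y : E3) : E3 := y + ζ y • s

theorem smua_fderiv {ζ : E3 → ℝ} (hζ : ContDiff ℝ ∞ ζ) (s y v : E3) :
    fderiv ℝ (smuaPsi ζ s) y v = v + (fderiv ℝ ζ y v) • s := by
  have h1 : HasFDerivAt ζ (fderiv ℝ ζ y) y :=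
    (hζ.differentiable (by simp) y).hasFDerivAt
  have h2 : HasFDerivAt (smuaPsi ζ s)
      (ContinuousLinearMap.id ℝ E3 + (fderiv ℝ ζ y).smulRight s) y :=
    (hasFDerivAt_id y).add (h1.smul_const s)
  rw [h2.fderiv]
  rfl

theorem smua_bv (i j : Fin 3) : (bv i : E3) j = dl j i := by
  simp only [bv, dl, PiLp.single_apply]

theorem smua_DM {ζ : E3 → ℝ} (hζ : ContDiff ℝ ∞ ζ) (s y : E3) (i j : Fin 3) :
    DM (smuaPsi ζ s) y i j = dl i j + s i * pd j ζ y := by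
  rw [DM, smua_fderiv hζ]
  simp only [PiLp.add_apply, PiLp.smul_apply, smul_eq_mul, smua_bv, pd]
  ring

theorem smua_fderiv_sum (ζ : E3 → ℝ) (s y : E3) : fderiv ℝ ζ y s = ∑ k, s k * pd k ζ y := by
  have h : s = ∑ k, s k • bv k := by
    ext j
    simp only [WithLp.ofLp_sum, Finset.sum_apply, WithLp.ofLp_smul, Pi.smul_apply, smul_eq_mul]
    rw [Finset.sum_eq_single j]
    · rw [smua_bv]; simp [dl]
    · intro b _ hb
      rw [smua_bv]; simp [dl, Ne.symm hb]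
    · intro h
      exact absurd (Finset.mem_univ j) h
  conv_lhs => rw [h]
  rw [map_sum]
  refine Finset.sum_congr rfl (fun k _ => ?_)
  rw [map_smul, smul_eq_mul]
  rfl

theorem smua_det {ζ : E3 → ℝ} (hζ : ContDiff ℝ ∞ ζ) (s y : E3) :
    det3 (DM (smuaPsi ζ s) y) = 1 + fderiv ℝ ζ y s := by
  rw [smua_fderiv_sum]
  have h : DM (smuaPsi ζ s) y = fun i j => dl i j + s i * pd j ζ y :=
    funext fun i => funext fun j => smua_DM hζ s y i j
  rw [h, det3, Matrix.det_fin_three]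
  simp only [Matrix.of_apply, Fin.sum_univ_three, dl]
  simp
  ring

/-- the pulled back coefficient matrix -/
def smuaA (B : M3) (p : Fin 3 → ℝ) (σ : ℝ) (s : Fin 3 → ℝ) (i j : Fin 3) : ℝ :=
  (1 + σ)⁻¹ * ∑ k, ∑ l, ((1 + σ) * dl i k - s i * p k) * B k l * ((1 + σ) * dl j l - s j * p l)

theorem smuaA_zero (B : M3) (s : Fin 3 → ℝ) (i j : Fin 3) : smuaA B 0 0 s i j = B i j := by
  simp only [smuaA, Pi.zero_apply, mul_zero, sub_zero, add_zero, inv_one, one_mul]
  rw [Finset.sum_eq_single i, Finset.sum_eq_single j]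
  · simp [dl]
  · intro b _ hb
    simp [dl, Ne.symm hb]
  · intro h
    exact absurd (Finset.mem_univ j) h
  · intro b _ hb
    simp [dl, Ne.symm hb]
  · intro h
    exact absurd (Finset.mem_univ i) h

theorem smuaA_zero' (B : M3) (p : Fin 3 → ℝ) (i j : Fin 3) : smuaA B p 0 0 i j = B i j := by
  have : smuaA B p 0 0 i j = smuaA B 0 0 0 i j := by
    simp only [smuaA, Pi.zero_apply, zero_mul, mul_zero]
  rw [this, smuaA_zero]

theorem smuaA_alg (B : M3) (p s : Fin 3 → ℝ) (σ : ℝ) (hσ : σ = ∑ k, s k * p k) (h : 1 + σ ≠ 0)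
    (i j : Fin 3) :
    ∑ k, ∑ l, (dl i k + s i * p k) * smuaA B p σ s k l * (dl j l + s j * p l) =
      (1 + σ) * B i j := by
  have hmat : (1 + Matrix.vecMulVec s p) * ((1 + σ) • (1 : Matrix (Fin 3) (Fin 3) ℝ) -
      Matrix.vecMulVec s p) = (1 + σ) • 1 := by
    ext a b
    simp only [hσ, Matrix.mul_apply, Matrix.add_apply, Matrix.sub_apply, Matrix.smul_apply,
      Matrix.vecMulVec_apply, Fin.sum_univ_three, Matrix.one_apply, smul_eq_mul]
    fin_cases a <;> fin_cases b <;> simp <;> ring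
  set P : Matrix (Fin 3) (Fin 3) ℝ := 1 + Matrix.vecMulVec s p with hP
  set Q : Matrix (Fin 3) (Fin 3) ℝ := (1 + σ) • (1 : Matrix (Fin 3) (Fin 3) ℝ) -
      Matrix.vecMulVec s p with hQ
  have hA : ∀ k l, smuaA B p σ s k l = ((1 + σ)⁻¹ • (Q * Matrix.of B * Q.transpose)) k l := by
    intro k l
    rw [smuaA, Matrix.smul_apply, smul_eq_mul]
    congr 1
    simp only [Matrix.mul_apply, Finset.sum_mul, Matrix.transpose_apply, Matrix.of_apply]
    rw [Finset.sum_comm]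
    simp only [hQ, Matrix.sub_apply, Matrix.smul_apply, Matrix.vecMulVec_apply, smul_eq_mul,
      Matrix.one_apply, dl]
  have hL : ∑ k, ∑ l, (dl i k + s i * p k) * smuaA B p σ s k l * (dl j l + s j * p l) =
      (P * ((1 + σ)⁻¹ • (Q * Matrix.of B * Q.transpose)) * P.transpose) i j := by
    simp only [hA]
    simp only [Matrix.mul_apply (M := P * _), Matrix.mul_apply (M := P), Finset.sum_mul,
      Matrix.transpose_apply]
    rw [Finset.sum_comm]
    simp only [hP, Matrix.add_apply, Matrix.vecMulVec_apply, Matrix.one_apply, dl]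
  rw [hL, Matrix.mul_smul, Matrix.smul_mul]
  have hR : P * (Q * Matrix.of B * Q.transpose) * P.transpose =
      (P * Q) * Matrix.of B * (P * Q).transpose := by
    rw [Matrix.transpose_mul]
    simp only [Matrix.mul_assoc]
  rw [hR, hmat, Matrix.transpose_smul, Matrix.transpose_one, Matrix.smul_mul, Matrix.one_mul,
    Matrix.mul_smul, Matrix.mul_one]
  simp only [Matrix.smul_apply, smul_eq_mul, Matrix.of_apply]
  field_simp


theorem smua_lip {ζ : E3 → ℝ} (hζ : ContDiff ℝ ∞ ζ) {L : ℝ}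
    (hb : ∀ y, ‖fderiv ℝ ζ y‖ ≤ L) (x y : E3) : |ζ x - ζ y| ≤ L * ‖x - y‖ := by
  have := Convex.norm_image_sub_le_of_norm_fderiv_le (𝕜 := ℝ) (f := ζ) (s := univ) (x := y)
    (y := x) (fun z _ => hζ.differentiable (by simp) z) (fun z _ => hb z) convex_univ
    (mem_univ _) (mem_univ _)
  rwa [Real.norm_eq_abs] at this

theorem smua_homeo {ζ : E3 → ℝ} (hζ : ContDiff ℝ ∞ ζ) {L : ℝ}
    (hb : ∀ y, ‖fderiv ℝ ζ y‖ ≤ L) (s : E3) (hs : L * ‖s‖ ≤ 1 / 2) :
    ∃ Φ : E3 ≃ₜ E3, (∀ y, Φ y = smuaPsi ζ s y) ∧ IsGD Φ := by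
  have hAL : ApproximatesLinearOn (smuaPsi ζ s)
      ((ContinuousLinearEquiv.refl ℝ E3 : E3 ≃L[ℝ] E3) : E3 →L[ℝ] E3) univ (1 / 2) := by
    intro x _ y _
    have h1 : smuaPsi ζ s x - smuaPsi ζ s y -
        ((ContinuousLinearEquiv.refl ℝ E3 : E3 ≃L[ℝ] E3) : E3 →L[ℝ] E3) (x - y) =
        (ζ x - ζ y) • s := by
      simp only [smuaPsi, ContinuousLinearEquiv.coe_coe, ContinuousLinearEquiv.coe_refl', id]
      rw [sub_smul]
      abel
    rw [h1, norm_smul, Real.norm_eq_abs]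
    have h2 := smua_lip hζ hb x y
    calc |ζ x - ζ y| * ‖s‖ ≤ (L * ‖x - y‖) * ‖s‖ := mul_le_mul_of_nonneg_right h2 (norm_nonneg _)
      _ = (L * ‖s‖) * ‖x - y‖ := by ring
      _ ≤ (1 / 2) * ‖x - y‖ := mul_le_mul_of_nonneg_right hs (norm_nonneg _)
      _ = ((1 / 2 : NNReal) : ℝ) * ‖x - y‖ := by norm_num
  have hN : Subsingleton E3 ∨ (1 / 2 : NNReal) <
      ‖((ContinuousLinearEquiv.refl ℝ E3 : E3 ≃L[ℝ] E3).symm : E3 →L[ℝ] E3)‖₊⁻¹ := by
    right
    have h2 : ‖((ContinuousLinearEquiv.refl ℝ E3 : E3 ≃L[ℝ] E3).symm : E3 →L[ℝ] E3)‖₊ = 1 :=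
      NNReal.eq (ContinuousLinearMap.norm_id (𝕜 := ℝ) (E := E3))
    rw [h2]
    norm_num
  refine ⟨hAL.toHomeomorph _ hN, fun y => rfl, ?_, ?_, 2, ?_⟩
  · show ContDiff ℝ 1 (smuaPsi ζ s)
    exact (contDiff_id.add (hζ.smul contDiff_const)).of_le (by simp)
  · intro y
    show 0 < det3 (DM (smuaPsi ζ s) y)
    rw [smua_det hζ]
    have h1 : |fderiv ℝ ζ y s| ≤ 1 / 2 := by
      refine ((fderiv ℝ ζ y).le_opNorm s).trans (le_trans ?_ hs)
      exact mul_le_mul_of_nonneg_right (hb y) (norm_nonneg _)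
    have := (abs_le.1 h1).1
    linarith
  · intro y v
    show ‖fderiv ℝ (smuaPsi ζ s) y v‖ ≤ 2 * ‖v‖ ∧ ‖v‖ ≤ 2 * ‖fderiv ℝ (smuaPsi ζ s) y v‖
    rw [smua_fderiv hζ]
    have h1 : ‖(fderiv ℝ ζ y v) • s‖ ≤ 1 / 2 * ‖v‖ := by
      rw [norm_smul]
      calc ‖fderiv ℝ ζ y v‖ * ‖s‖ ≤ (L * ‖v‖) * ‖s‖ :=
            mul_le_mul_of_nonneg_right (((fderiv ℝ ζ y).le_opNorm v).trans
              (mul_le_mul_of_nonneg_right (hb y) (norm_nonneg _))) (norm_nonneg _)
        _ = (L * ‖s‖) * ‖v‖ := by ring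
        _ ≤ (1 / 2) * ‖v‖ := mul_le_mul_of_nonneg_right hs (norm_nonneg _)
    have h2 := norm_add_le v ((fderiv ℝ ζ y v) • s)
    have h3 : ‖v‖ ≤ ‖v + (fderiv ℝ ζ y v) • s‖ + ‖(fderiv ℝ ζ y v) • s‖ := by
      have := norm_sub_le (v + (fderiv ℝ ζ y v) • s) ((fderiv ℝ ζ y v) • s)
      rwa [add_sub_cancel_right] at this
    have h4 := norm_nonneg v
    constructor <;> linarith

theorem smua_image {ζ : E3 → ℝ} {s : E3} {D : Set E3} {Φ : E3 ≃ₜ E3}
    (hΦ : ∀ y, Φ y = smuaPsi ζ s y) (h0 : ∀ y ∉ D, ζ y = 0) : Φ '' D = D := by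
  have hfix : ∀ y ∉ D, Φ y = y := fun y hy => by
    rw [hΦ, smuaPsi, h0 y hy, zero_smul, add_zero]
  ext x
  constructor
  · rintro ⟨y, hy, rfl⟩
    by_contra hx
    have h1 := hfix _ hx
    have h2 := Φ.injective h1
    rw [h2] at hx
    exact hx hy
  · intro hx
    refine ⟨Φ.symm x, ?_, Φ.apply_symm_apply x⟩
    by_contra hy
    have h1 := hfix _ hy
    rw [Φ.apply_symm_apply] at h1
    rw [← h1] at hy
    exact hy hx

/-- the perturbation of the coefficients -/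
def smuaG (m : Fin 3 → Fin 3 → Y) (ζ : E3 → ℝ) (i j : Fin 3) (a : Fin 3 → ℝ) (y : E3) : ℝ :=
  smuaA (coefY m (y + ζ y • mkE a)) (fun k => pd k ζ y) (fderiv ℝ ζ y (mkE a)) a i j -
    coefY m y i j

theorem smua_mkE_contDiff : ContDiff ℝ ∞ (fun a : Fin 3 → ℝ => mkE a) :=
  (PiLp.continuousLinearEquiv 2 ℝ (fun _ : Fin 3 => ℝ)).symm.contDiff

theorem smuaG_zero (m : Fin 3 → Fin 3 → Y) {ζ : E3 → ℝ} (y₀ : E3) (r : ℝ)
    (hz : ∀ y, r ≤ dist y y₀ → ζ y = 0) (i j : Fin 3) (a : Fin 3 → ℝ) (y : E3)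
    (hp : r < dist y y₀) : smuaG m ζ i j a y = 0 := by
  have hz0 : ζ y = 0 := hz _ hp.le
  have hzd : fderiv ℝ ζ y = 0 := by
    have h2 : ζ =ᶠ[𝓝 y] fun _ => 0 := by
      have hcont : ContinuousAt (fun z : E3 => dist z y₀) y :=
        (continuous_id.dist continuous_const).continuousAt
      filter_upwards [hcont.eventually_const_lt hp] with z hz'
      exact hz _ hz'.le
    rw [h2.fderiv_eq]
    simp
  have hpd : (fun k => pd k ζ y) = 0 := by
    funext k
    simp only [pd, hzd]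
    rfl
  rw [smuaG, hpd, hzd, hz0, zero_smul, add_zero]
  rw [zero_apply, smuaA_zero, sub_self]

theorem smuaG_smooth (m : Fin 3 → Fin 3 → Y) (V : Set E3) (hV : IsOpen V)
    (hm : ∀ i j, ContDiffOn ℝ ∞ (oext (m i j)) V) {ζ : E3 → ℝ} (hζ : ContDiff ℝ ∞ ζ) {L : ℝ}
    (hb : ∀ y, ‖fderiv ℝ ζ y‖ ≤ L) (y₀ : E3) (r : ℝ) (hr : 0 < r)
    (hball : Metric.ball y₀ (3 * r) ⊆ V) (hz : ∀ y, r ≤ dist y y₀ → ζ y = 0)
    (hz1 : ∀ y, |ζ y| ≤ 1) (i j : Fin 3) (κ : ℝ) (hκ : κ ≤ r) (hκL : L * κ ≤ 1 / 2) (hL : 0 ≤ L)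
    (W : Set E3) :
    ContDiffOn ℝ ∞ (fun p : (Fin 3 → ℝ) × E3 => smuaG m ζ i j p.1 p.2)
      ({a | ‖mkE a‖ < κ} ×ˢ W) := by
  rintro ⟨a, y⟩ ⟨ha, -⟩
  apply ContDiffAt.contDiffWithinAt
  simp only [mem_ofPred_eq] at ha
  by_cases hy : dist y y₀ < 2 * r
  · -- composition
    have hcoef : ∀ x ∈ V, ∀ k l, ContDiffAt ℝ ∞ (fun x => coefY m x k l) x := by
      intro x hx k l
      exact contDiffAt_const.add ((hm k l).contDiffAt (hV.mem_nhds hx))
    have hyV : y ∈ V := hball (by rw [Metric.mem_ball]; linarith)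
    have hyV' : y + ζ y • mkE a ∈ V := by
      apply hball
      rw [Metric.mem_ball]
      calc dist (y + ζ y • mkE a) y₀ ≤ dist (y + ζ y • mkE a) y + dist y y₀ := dist_triangle _ _ _
        _ < r + 2 * r := by
          refine add_lt_add ?_ hy
          rw [dist_eq_norm, add_sub_cancel_left, norm_smul, Real.norm_eq_abs]
          calc |ζ y| * ‖mkE a‖ ≤ 1 * ‖mkE a‖ := mul_le_mul_of_nonneg_right (hz1 y) (norm_nonneg _)
            _ = ‖mkE a‖ := one_mul _
            _ < r := lt_of_lt_of_le ha hκ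
        _ = 3 * r := by ring
    have hmk : ContDiffAt ℝ ∞ (fun p : (Fin 3 → ℝ) × E3 => mkE p.1) (a, y) :=
      (smua_mkE_contDiff.comp contDiff_fst).contDiffAt
    have hζ2 : ContDiffAt ℝ ∞ (fun p : (Fin 3 → ℝ) × E3 => ζ p.2) (a, y) :=
      (hζ.comp contDiff_snd).contDiffAt
    have hshift : ContDiffAt ℝ ∞ (fun p : (Fin 3 → ℝ) × E3 => p.2 + ζ p.2 • mkE p.1) (a, y) :=
      contDiffAt_snd.add (hζ2.smul hmk)
    have hB : ∀ k l, ContDiffAt ℝ ∞ (fun p : (Fin 3 → ℝ) × E3 =>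
        coefY m (p.2 + ζ p.2 • mkE p.1) k l) (a, y) := fun k l =>
      ContDiffAt.comp (a, y) (g := fun x => coefY m x k l) (hcoef _ hyV' k l) hshift
    have hfd : ContDiff ℝ ∞ (fun p : (Fin 3 → ℝ) × E3 => fderiv ℝ ζ p.2) :=
      (hζ.fderiv_right (m := ∞) (by simp)).comp contDiff_snd
    have hσ : ContDiffAt ℝ ∞ (fun p : (Fin 3 → ℝ) × E3 => fderiv ℝ ζ p.2 (mkE p.1)) (a, y) :=
      hfd.contDiffAt.clm_apply hmk
    have hp : ∀ k, ContDiffAt ℝ ∞ (fun p : (Fin 3 → ℝ) × E3 => pd k ζ p.2) (a, y) := fun k =>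
      hfd.contDiffAt.clm_apply contDiffAt_const
    have ha' : ∀ k, ContDiffAt ℝ ∞ (fun p : (Fin 3 → ℝ) × E3 => p.1 k) (a, y) := fun k =>
      ((contDiff_apply ℝ ℝ k).comp contDiff_fst).contDiffAt
    have h1σ : (1 : ℝ) + fderiv ℝ ζ y (mkE a) ≠ 0 := by
      have h1 : |fderiv ℝ ζ y (mkE a)| ≤ 1 / 2 := by
        refine ((fderiv ℝ ζ y).le_opNorm _).trans (le_trans ?_ hκL)
        exact mul_le_mul (hb y) ha.le (norm_nonneg _) hL
      have := (abs_le.1 h1).1
      intro h0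
      linarith
    unfold smuaG smuaA
    refine ContDiffAt.sub ?_ (ContDiffAt.comp (a, y) (g := fun x => coefY m x i j)
      (hcoef _ hyV i j) contDiffAt_snd)
    refine ContDiffAt.mul ((contDiffAt_const.add hσ).inv h1σ) ?_
    refine ContDiffAt.sum (fun k _ => ContDiffAt.sum (fun l _ => ?_))
    refine ContDiffAt.mul (ContDiffAt.mul ?_ (hB k l)) ?_
    · exact ((contDiffAt_const.add hσ).mul contDiffAt_const).sub ((ha' i).mul (hp k))
    · exact ((contDiffAt_const.add hσ).mul contDiffAt_const).sub ((ha' j).mul (hp l))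
  · -- zero near the point
    have hev : ∀ᶠ p : (Fin 3 → ℝ) × E3 in 𝓝 (a, y), smuaG m ζ i j p.1 p.2 = 0 := by
      have h1 : ∀ᶠ p : (Fin 3 → ℝ) × E3 in 𝓝 (a, y), r < dist p.2 y₀ := by
        have hcont : ContinuousAt (fun p : (Fin 3 → ℝ) × E3 => dist p.2 y₀) (a, y) :=
          (continuous_snd.dist continuous_const).continuousAt
        refine hcont.eventually_const_lt ?_
        show r < dist y y₀
        push Not at hy
        linarith
      filter_upwards [h1] with p hp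
      exact smuaG_zero m y₀ r hz i j _ _ hp
    exact (contDiffAt_const (c := (0 : ℝ))).congr_of_eventuallyEq hev


theorem smua_oext_apply (f : Y) {x : E3} (hx : 1 ≤ ‖x‖) : oext f x = f ⟨x, hx⟩ := by
  rw [oext, dif_pos hx]

theorem smua_isOpen_Ext : IsOpen Ext := isOpen_lt continuous_const continuous_norm

theorem base_smooth : ∃ δ : ℝ, 0 < δ ∧
    ∀ (V : Set E3) (m : Fin 3 → Fin 3 → Y), IsOpen V → V ⊆ Ext → ‖m‖ < δ →
    (∀ i j, ContDiffOn ℝ ∞ (oext (m i j)) V) → ∀ Z : Fin 3 → Y, Z = TT (Mop m (thY + Z)) →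
    ContDiffOn ℝ ∞ (fun x => 1 - 1 / ‖x‖ + oext (Nu (Mop m (thY + Z))) x / ‖x‖) V := by
  obtain ⟨δ₁, hδ₁, hell⟩ := base_ell
  obtain ⟨δ₂, hδ₂, hunit⟩ := smua_unit
  refine ⟨min (min δ₁ δ₂) (1 / 2), by positivity, ?_⟩
  intro V m hV hVE hm hsm Z hZ y₀ hy₀
  apply ContDiffAt.contDiffWithinAt
  have hunit0 : IsUnit (1 - TT.comp (Mop m)) :=
    hunit m (lt_of_lt_of_le hm ((min_le_left _ _).trans (min_le_right _ _)))
  have hZ0 : Z = ZZ TT m := smua_Z_unique hunit0 hZ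
  -- the bump function
  obtain ⟨R, hR, hRV⟩ := Metric.isOpen_iff.1 hV y₀ hy₀
  set r : ℝ := R / 3 with hr
  have hr0 : 0 < r := by positivity
  have hball : Metric.ball y₀ (3 * r) ⊆ V := by
    have : 3 * r = R := by rw [hr]; ring
    rwa [this]
  let ζb : ContDiffBump y₀ := ⟨r / 2, r, by positivity, by linarith⟩
  set ζ : E3 → ℝ := fun x => ζb x with hζdef
  have hζ : ContDiff ℝ ∞ ζ := ζb.contDiff
  have hζ1 : ζ y₀ = 1 := ζb.one_of_mem_closedBall (Metric.mem_closedBall_self (by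
    show 0 ≤ r / 2
    positivity))
  have hz : ∀ y, r ≤ dist y y₀ → ζ y = 0 := fun y hy => ζb.zero_of_le_dist hy
  have hz1 : ∀ y, |ζ y| ≤ 1 := fun y => by
    rw [abs_of_nonneg ζb.nonneg]
    exact ζb.le_one
  have hcs : HasCompactSupport ζ := ζb.hasCompactSupport
  obtain ⟨L₀, hL₀⟩ := (hcs.fderiv (𝕜 := ℝ)).exists_bound_of_continuous
    (hζ.continuous_fderiv (by simp))
  set L : ℝ := max L₀ 1 with hLdef
  have hb : ∀ y, ‖fderiv ℝ ζ y‖ ≤ L := fun y => (hL₀ y).trans (le_max_left _ _)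
  have hL1 : 1 ≤ L := le_max_right _ _
  have hL : 0 ≤ L := by linarith
  set κ : ℝ := min r (1 / (2 * L)) with hκdef
  have hκ0 : 0 < κ := by positivity
  have hκr : κ ≤ r := min_le_left _ _
  have hκL : L * κ ≤ 1 / 2 := by
    calc L * κ ≤ L * (1 / (2 * L)) := mul_le_mul_of_nonneg_left (min_le_right _ _) hL
      _ = 1 / 2 := by field_simp
  -- superposition
  have hUopen : IsOpen {a : Fin 3 → ℝ | ‖mkE a‖ < κ} :=
    isOpen_lt smua_mkE_contDiff.continuous.norm continuous_const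
  have hsup : ∀ i j, _ := fun i j => sup_contDiffAt (n := 3) (smuaG m ζ i j)
    {a : Fin 3 → ℝ | ‖mkE a‖ < κ} {0} (‖y₀‖ + 2 * r) hUopen isCompact_singleton
    (by
      intro a ha
      rw [mem_singleton_iff] at ha
      rw [ha]
      show ‖mkE 0‖ < κ
      have : mkE (0 : Fin 3 → ℝ) = 0 := rfl
      rw [this, norm_zero]
      exact hκ0)
    (smuaG_smooth m V hV hsm hζ hb y₀ r hr0 hball hz hz1 i j κ hκr hκL hL _)
    (by
      intro a ha y hy
      apply smuaG_zero m y₀ r hz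
      rw [dist_eq_norm]
      have := norm_sub_norm_le y y₀
      linarith)
    (0 : Fin 3 → Y) (fun x => by
      rw [mem_singleton_iff]
      rfl)
  -- the coefficient family
  set Sop : Fin 3 → Fin 3 → (Fin 3 → Y) → Y := fun i j f =>
    Y.mk (fun y => smuaG m ζ i j (fun k => f k y) (y : E3)) with hSop
  set cst : E3 → (Fin 3 → Y) := fun s k => s k • (1 : Y) with hcst
  have hcst_cd : ContDiff ℝ ∞ cst := by
    rw [contDiff_pi]
    intro k
    have hpr : ContDiff ℝ ∞ (fun s : E3 => s k) :=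
      (PiLp.proj (𝕜 := ℝ) 2 (fun _ : Fin 3 => ℝ) k : E3 →L[ℝ] ℝ).contDiff
    exact hpr.smul contDiff_const
  have hcst0 : cst 0 = 0 := by
    funext k
    simp [hcst]
  set M : E3 → (Fin 3 → Fin 3 → Y) := fun s i j => m i j + Sop i j (cst s) with hM
  have hMcd : ContDiffAt ℝ ∞ M 0 := by
    rw [contDiffAt_pi]
    intro i
    rw [contDiffAt_pi]
    intro j
    refine contDiffAt_const.add ?_
    refine ContDiffAt.comp (0 : E3) (g := Sop i j) ?_ hcst_cd.contDiffAt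
    rw [hcst0]
    exact (hsup i j).1
  have hMeq : ∀ᶠ s in 𝓝 (0 : E3), ∀ i j (x : Om), M s i j x =
      smuaA (coefY m (smuaPsi ζ s x)) (fun k => pd k ζ x) (fderiv ℝ ζ x s) (fun k => s k) i j -
        dl i j := by
    have h1 : ∀ i j, ∀ᶠ s in 𝓝 (0 : E3), ∀ x : Om, Sop i j (cst s) x =
        smuaG m ζ i j (fun k => cst s k x) (x : E3) := by
      intro i j
      have hc : Tendsto cst (𝓝 0) (𝓝 0) := by
        have := hcst_cd.continuous.tendsto (0 : E3)
        rwa [hcst0] at this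
      exact hc.eventually (hsup i j).2
    have h2 : ∀ᶠ s in 𝓝 (0 : E3), ∀ i j, ∀ x : Om, Sop i j (cst s) x =
        smuaG m ζ i j (fun k => cst s k x) (x : E3) := by
      rw [eventually_all]
      intro i
      rw [eventually_all]
      intro j
      exact h1 i j
    filter_upwards [h2] with s hs i j x
    have h3 : (fun k => cst s k x) = fun k => s k := by
      funext k
      simp [hcst]
    have h4 : mkE (fun k => s k) = s := rfl
    have h5 : Sop i j (cst s) x = smuaG m ζ i j (fun k => s k) (x : E3) :=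
      (hs i j x).trans (congrArg (fun a => smuaG m ζ i j a (x : E3)) h3)
    have h6 : coefY m (x : E3) i j = dl i j + m i j x := by
      rw [coefY, smua_oext_apply _ x.2]
    calc M s i j x = m i j x + Sop i j (cst s) x := rfl
      _ = m i j x + smuaG m ζ i j (fun k => s k) (x : E3) := congrArg (fun t => m i j x + t) h5
      _ = m i j x + (smuaA (coefY m (smuaPsi ζ s x)) (fun k => pd k ζ x) (fderiv ℝ ζ x s)
            (fun k => s k) i j - (dl i j + m i j x)) := by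
          rw [smuaG, h4, h6]
          rfl
      _ = _ := by ring
  have hM0 : M 0 = m := by
    funext i j
    ext x
    refine (hMeq.self_of_nhds i j x).trans ?_
    have h1 : (fun k => (0 : E3) k) = (0 : Fin 3 → ℝ) := rfl
    rw [map_zero, h1, smuaA_zero', smuaPsi, smul_zero, add_zero, coefY, smua_oext_apply _ x.2]
    ring
  have hMsmall : ∀ᶠ s in 𝓝 (0 : E3), ‖M s‖ < min (min δ₁ δ₂) (1 / 2) := by
    refine hMcd.continuousAt.norm.eventually_lt_const ?_
    show ‖M 0‖ < _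
    rw [hM0]
    exact hm
  have hssmall : ∀ᶠ s in 𝓝 (0 : E3), L * ‖s‖ < 1 / 2 := by
    have : ContinuousAt (fun s : E3 => L * ‖s‖) 0 :=
      (continuous_const.mul continuous_norm).continuousAt
    refine this.eventually_lt_const ?_
    show L * ‖(0 : E3)‖ < 1 / 2
    rw [norm_zero, mul_zero]
    norm_num
  set Uf : E3 → ℝ := fun x => 1 - 1 / ‖x‖ + oext (Nu (Mop m (thY + Z))) x / ‖x‖ with hUf
  have hy₀E : y₀ ∈ Ext := hVE hy₀
  have hy₀1 : 1 ≤ ‖y₀‖ := (show 1 < ‖y₀‖ from hy₀E).le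
  -- the identity
  have hkey : ∀ᶠ s in 𝓝 (0 : E3), Uf (y₀ + s) =
      1 - 1 / ‖y₀‖ + Nu (Mop (M s) (thY + ZZ TT (M s))) ⟨y₀, hy₀1⟩ / ‖y₀‖ := by
    filter_upwards [hMeq, hMsmall, hssmall] with s hs1 hs2 hs3
    have hu : IsUnit (1 - TT.comp (Mop (M s))) :=
      hunit _ (lt_of_lt_of_le hs2 ((min_le_left _ _).trans (min_le_right _ _)))
    have hpot_s := base_pot (M s) (lt_of_lt_of_le hs2 (min_le_right _ _)) (ZZ TT (M s))
      (smua_ZZ_eq hu)
    have hpot := base_pot m (lt_of_lt_of_le hm (min_le_right _ _)) Z hZ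
    obtain ⟨Φ, hΦ, hGD⟩ := smua_homeo hζ hb s hs3.le
    have himg : Φ '' Ext = Ext := smua_image hΦ (fun y hy => by
      apply hz
      by_contra hlt
      push Not at hlt
      exact hy (hVE (hball (by rw [Metric.mem_ball]; linarith))))
    have hPB : IsPB Φ 1 (coefY m) (coefY (M s)) Ext := by
      intro y hy i j
      have hy1 : 1 ≤ ‖y‖ := (show 1 < ‖y‖ from hy).le
      have hfun : (Φ : E3 → E3) = smuaPsi ζ s := funext hΦ
      have hσ : (1 : ℝ) + fderiv ℝ ζ y s ≠ 0 := by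
        have h1 : |fderiv ℝ ζ y s| ≤ 1 / 2 := by
          refine ((fderiv ℝ ζ y).le_opNorm s).trans (le_trans ?_ hs3.le)
          exact mul_le_mul_of_nonneg_right (hb y) (norm_nonneg _)
        have := (abs_le.1 h1).1
        intro h0
        linarith
      rw [hfun, smua_det hζ, one_mul]
      rw [← smuaA_alg (coefY m (smuaPsi ζ s y)) (fun k => pd k ζ y) (fun k => s k)
        (fderiv ℝ ζ y s) (smua_fderiv_sum ζ s y) hσ i j]
      refine Finset.sum_congr rfl (fun k _ => Finset.sum_congr rfl (fun l _ => ?_))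
      have e1 : coefY (M s) y k l = smuaA (coefY m (smuaPsi ζ s y)) (fun k => pd k ζ y)
          (fderiv ℝ ζ y s) (fun k => s k) k l := by
        rw [coefY, smua_oext_apply _ hy1]
        have e2 := hs1 k l ⟨y, hy1⟩
        calc dl k l + M s k l ⟨y, hy1⟩ = dl k l + (smuaA (coefY m (smuaPsi ζ s y))
              (fun k => pd k ζ y) (fderiv ℝ ζ y s) (fun k => s k) k l - dl k l) :=
              congrArg (fun t => dl k l + t) e2
          _ = _ := by ring
      rw [smua_DM hζ, smua_DM hζ, e1]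
    have hcomap := IsPot.comap (A := coefY m) (A' := coefY (M s)) (D := Ext) Φ hGD one_pos
      smua_isOpen_Ext hPB (by rw [himg]; exact hpot)
    have hE := (hell (M s) (lt_of_lt_of_le hs2 ((min_le_left _ _).trans (min_le_left _ _)))).1
    have huniq := (IsPot.unique smua_isOpen_Ext ⟨0, by simp [Ext]⟩ hE hcomap hpot_s).1 y₀
      (subset_closure hy₀E)
    have h1 : Φ y₀ = y₀ + s := by
      rw [hΦ, smuaPsi, hζ1, one_smul]
    have h2 : (Uf ∘ Φ) y₀ = Uf (y₀ + s) := by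
      show Uf (Φ y₀) = _
      rw [h1]
    rw [← h2]
    refine huniq.trans ?_
    show 1 - 1 / ‖y₀‖ + oext _ y₀ / ‖y₀‖ = _
    rw [smua_oext_apply _ hy₀1]
  have hcdR : ContDiffAt ℝ ∞ (fun s : E3 => 1 - 1 / ‖y₀‖ +
      Nu (Mop (M s) (thY + ZZ TT (M s))) ⟨y₀, hy₀1⟩ / ‖y₀‖) 0 := by
    refine contDiffAt_const.add (ContDiffAt.div_const ?_ _)
    refine ContDiffAt.comp (0 : E3)
      (g := fun m' : Fin 3 → Fin 3 → Y => Nu (Mop m' (thY + ZZ TT m')) ⟨y₀, hy₀1⟩) ?_ hMcd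
    rw [hM0]
    exact smua_val_contDiffAt hunit0 _
  have hcdU : ContDiffAt ℝ ∞ (fun s : E3 => Uf (y₀ + s)) 0 :=
    hcdR.congr_of_eventuallyEq hkey
  have hfin : ContDiffAt ℝ ∞ (fun y : E3 => Uf (y₀ + (y - y₀))) y₀ := by
    refine ContDiffAt.comp y₀ (g := fun s : E3 => Uf (y₀ + s)) (f := fun y => y - y₀) ?_
      (contDiffAt_id.sub contDiffAt_const)
    rw [sub_self]
    exact hcdU
  have hid : (fun y : E3 => Uf (y₀ + (y - y₀))) = Uf := by
    funext y
    rw [add_sub_cancel]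
  rw [hid] at hfin
  exact hfin

end

end Pool.Agent.BS
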