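import Pool.Agent.BS.TGradB

/-!
# Module TGRAD: gradient of the potential
-/

namespace Pool.Agent.BS

open MeasureTheory Topology Set Filter
open scoped ContDiff

noncomputable section

theorem tg_log_norm {y : E3} (hy : y ≠ 0) :
    HasFDerivAt (fun x : E3 => Real.log ‖x‖) (innerSL ℝ ((‖y‖ ^ 2)⁻¹ • y)) y := by
  have hy0 : ‖y‖ ≠ 0 := norm_ne_zero_iff.2 hy
  have h1 : HasFDerivAt (fun x : E3 => ‖x‖ ^ 2) (2 • innerSL ℝ y) y :=
    (hasStrictFDerivAt_norm_sq y).hasFDerivAt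
  have h2 := (h1.log (by positivity)).const_mul (1 / 2 : ℝ)
  have e1 : (fun x : E3 => (1 / 2 : ℝ) * Real.log (‖x‖ ^ 2)) = fun x => Real.log ‖x‖ := by
    funext x
    rw [Real.log_pow]
    push_cast
    ring
  rw [e1] at h2
  have e2 : (1 / 2 : ℝ) • ((‖y‖ ^ 2)⁻¹ • (2 • innerSL ℝ y)) = innerSL ℝ ((‖y‖ ^ 2)⁻¹ • y) := by
    ext v
    simp only [_root_.smul_apply, innerSL_apply_apply, real_inner_smul_left,
      smul_eq_mul, nsmul_eq_mul]
    push_cast
    ring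
  rw [e2] at h2
  exact h2

theorem tg_chain {Γ : ℝ → C(S2, ℝ)} {Γ' : C(S2, ℝ)} {G : Fin 3 → S2 → ℝ} {y : E3} (hy : y ≠ 0)
    (hΓ : HasDerivAt Γ Γ' (Real.log ‖y‖)) (hG : IsC1S (Γ (Real.log ‖y‖)) G) :
    HasFDerivAt (fun x => Γ (Real.log ‖x‖) (dirS x))
      (innerSL ℝ (‖y‖⁻¹ • mkE (fun k => G k (dirS y))) +
        Γ' (dirS y) • innerSL ℝ ((‖y‖ ^ 2)⁻¹ • y)) y := by
  set t0 := Real.log ‖y‖ with ht0
  have hL := tg_log_norm hy
  have hlogc : Tendsto (fun x : E3 => Real.log ‖x‖) (𝓝 y) (𝓝 t0) := hL.continuousAt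
  have hdir : ContinuousAt dirS y :=
    continuousOn_dirS.continuousAt (isOpen_compl_singleton.mem_nhds hy)
  have h1 : HasFDerivAt (fun x => Γ t0 (dirS x))
      (innerSL ℝ (‖y‖⁻¹ • mkE (fun k => G k (dirS y)))) y := hG.2 y hy
  have h2 : HasFDerivAt (fun x => (Real.log ‖x‖ - t0) * Γ' (dirS y))
      (Γ' (dirS y) • innerSL ℝ ((‖y‖ ^ 2)⁻¹ • y)) y := (hL.sub_const t0).mul_const _
  have hO : (fun x : E3 => Real.log ‖x‖ - t0) =O[𝓝 y] (fun x => x - y) := hL.isBigO_sub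
  set R : E3 → ℝ := fun x => Γ (Real.log ‖x‖) (dirS x) - Γ t0 (dirS x) -
    (Real.log ‖x‖ - t0) * Γ' (dirS y) with hR
  have h3 : R =o[𝓝 y] (fun x => x - y) := by
    have e : ∀ x, (Γ (Real.log ‖x‖) - Γ t0 - (Real.log ‖x‖ - t0) • Γ') (dirS x) +
        (Real.log ‖x‖ - t0) * (Γ' (dirS x) - Γ' (dirS y)) = R x := fun x => by
      rw [hR]
      simp only [ContinuousMap.sub_apply, ContinuousMap.smul_apply, smul_eq_mul]
      ring
    refine (Asymptotics.IsLittleO.add ?_ ?_).congr_left e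
    · have h4 := (hasDerivAt_iff_isLittleO.1 hΓ).comp_tendsto hlogc
      refine Asymptotics.IsBigO.trans_isLittleO ?_ (h4.trans_isBigO hO)
      refine Asymptotics.isBigO_of_le _ (fun x => ?_)
      exact ContinuousMap.norm_coe_le_norm _ _
    · have h5 : Tendsto (fun x => Γ' (dirS x) - Γ' (dirS y)) (𝓝 y) (𝓝 0) := by
        have h6 : Tendsto (fun x => Γ' (dirS x)) (𝓝 y) (𝓝 (Γ' (dirS y))) :=
          Γ'.continuous.continuousAt.comp hdir
        have h7 := h6.sub_const (Γ' (dirS y))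
        rw [sub_self] at h7
        exact h7
      have h9 : (fun x : E3 => (Real.log ‖x‖ - t0) * (Γ' (dirS x) - Γ' (dirS y))) =o[𝓝 y]
          (fun x : E3 => ‖x - y‖ * (1 : ℝ)) :=
        (hO.norm_right).mul_isLittleO ((Asymptotics.isLittleO_one_iff ℝ).2 h5)
      simp only [mul_one] at h9
      exact h9.of_norm_right
  have hRy : R y = 0 := by
    rw [hR]
    show Γ t0 (dirS y) - Γ t0 (dirS y) - (t0 - t0) * Γ' (dirS y) = 0
    ring
  have h6 : HasFDerivAt R (0 : E3 →L[ℝ] ℝ) y := by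
    rw [hasFDerivAt_iff_isLittleO]
    refine h3.congr_left (fun x => ?_)
    rw [hRy]
    simp
  have h7 := (h1.add h2).add h6
  rw [add_zero] at h7
  refine h7.congr_of_eventuallyEq (Eventually.of_forall (fun x => ?_))
  show Γ (Real.log ‖x‖) (dirS x) = Γ t0 (dirS x) + (Real.log ‖x‖ - t0) * Γ' (dirS y) + R x
  rw [hR]
  ring

/-- division by the norm -/
theorem tg_div_norm {g : E3 → ℝ} {v : E3} {y : E3} (hy : y ≠ 0)
    (hg : HasFDerivAt g (innerSL ℝ v) y) :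
    HasFDerivAt (fun x => g x / ‖x‖) (innerSL ℝ (‖y‖⁻¹ • v - (g y * ‖y‖⁻¹ ^ 3) • y)) y := by
  have hy0 : 0 < ‖y‖ := norm_pos_iff.2 hy
  have h1 := ((tg_log_norm hy).neg).exp
  have h2 := hg.mul h1
  have e1 : Real.exp (-Real.log ‖y‖) = ‖y‖⁻¹ := by
    rw [Real.exp_neg, Real.exp_log hy0]
  have h3 : HasFDerivAt (fun x => g x * Real.exp (-Real.log ‖x‖))
      (innerSL ℝ (‖y‖⁻¹ • v - (g y * ‖y‖⁻¹ ^ 3) • y)) y := by
    refine h2.congr_fderiv ?_
    ext w
    simp only [_root_.add_apply, _root_.smul_apply,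
      _root_.neg_apply, innerSL_apply_apply, real_inner_smul_left, smul_eq_mul,
      inner_sub_left]
    have e0 : Real.exp ((-fun x : E3 => Real.log ‖x‖) y) = ‖y‖⁻¹ := e1
    rw [e0, ← inv_pow]
    ring
  refine h3.congr_of_eventuallyEq ?_
  filter_upwards [isOpen_compl_singleton.mem_nhds hy] with x hx
  have hx0 : 0 < ‖x‖ := norm_pos_iff.2 hx
  rw [Real.exp_neg, Real.exp_log hx0, div_eq_mul_inv]

/-- the curve `μ - Λν - ν` -/
def tgA (F : Fin 3 → Y) (t : ℝ) : C(S2, ℝ) := ∑ j, xi j * sl (TT F j) t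

/-- the curve `L_k ν` -/
def tgB (F : Fin 3 → Y) (k : Fin 3) (t : ℝ) : C(S2, ℝ) := cr xi (fun j => sl (TT F j) t) k

theorem tgA_cont (F : Fin 3 → Y) : Continuous (tgA F) := by
  unfold tgA
  exact continuous_finsetSum _ (fun j _ => continuous_const.mul (tg_sl_cont _))

theorem tgB_cont (F : Fin 3 → Y) (k : Fin 3) : Continuous (tgB F k) := by
  unfold tgB cr
  refine continuous_finsetSum _ (fun i _ => continuous_finsetSum _ (fun j _ => ?_))
  have h : Continuous (fun t => xi i * sl (TT F j) t) := continuous_const.mul (tg_sl_cont _)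
  exact h.const_smul (eps k i j)

theorem tgA_eq (F : Fin 3 → Y) {t : ℝ} (ht : 0 ≤ t) : tgA F t = muc F t - lac F t - nuc F t := by
  ext θ
  rw [ContinuousMap.sub_apply, ContinuousMap.sub_apply, tg_a_eq F ht θ]
  unfold tgA
  rw [ContinuousMap.sum_apply]
  rfl

theorem tgB_eq (F : Fin 3 → Y) (k : Fin 3) {t : ℝ} (ht : 0 ≤ t) : tgB F k t = lnc F k t := by
  ext θ
  rw [tg_b_eq F ht k θ]
  unfold tgB cr
  rw [ContinuousMap.sum_apply]
  refine Finset.sum_congr rfl (fun i _ => ?_)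
  rw [ContinuousMap.sum_apply]
  rfl

/-- the regularised gradient -/
def tgH (F : Fin 3 → Y) (ε : ℝ) (y : E3) (j : Fin 3) : ℝ :=
  (dirS y : E3) j * PD.Po ε (tgA F (Real.log ‖y‖)) (dirS y) -
    cr (fun a => (dirS y : E3) a) (fun a => PD.Po ε (tgB F a (Real.log ‖y‖)) (dirS y)) j

theorem tg_cr_anti (a b : Fin 3 → ℝ) (k : Fin 3) : cr a b k = - cr b a k := by
  have hk : k = 0 ∨ k = 1 ∨ k = 2 := by
    fin_cases k
    · exact Or.inl rfl
    · exact Or.inr (Or.inl rfl)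
    · exact Or.inr (Or.inr rfl)
  rcases hk with rfl | rfl | rfl
  · rw [tg_cr0, tg_cr0]; ring
  · rw [tg_cr1, tg_cr1]; ring
  · rw [tg_cr2, tg_cr2]; ring

theorem tg_reg (F : Fin 3 → Y) {ε : ℝ} (hε : 0 < ε) {y : E3} (hy : 1 < ‖y‖) :
    HasFDerivAt (fun x => PD.Po ε (nuc F (Real.log ‖x‖)) (dirS x) / ‖x‖)
      (innerSL ℝ ((‖y‖ ^ 2)⁻¹ • mkE (tgH F ε y))) y := by
  have hy0 : y ≠ 0 := fun h => by
    rw [h, norm_zero] at hy
    linarith
  have hyp : 0 < ‖y‖ := by linarith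
  have ht : 0 < Real.log ‖y‖ := Real.log_pos hy
  have h1 := tg_chain hy0 (tg_G_deriv F hε ht) (PD.po_c1 ε (nuc F (Real.log ‖y‖)) hε)
  rw [← ContinuousLinearMap.map_smul, ← ContinuousLinearMap.map_add] at h1
  have h2 := tg_div_norm hy0 h1
  refine h2.congr_fderiv ?_
  congr 1
  have hyd : y = ‖y‖ • (dirS y : E3) := (norm_smul_dirS hy0).symm
  have hA : PD.Po ε (tgA F (Real.log ‖y‖)) (dirS y) =
      PD.Po ε (muc F (Real.log ‖y‖)) (dirS y) - PD.La ε (nuc F (Real.log ‖y‖)) (dirS y) -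
        PD.Po ε (nuc F (Real.log ‖y‖)) (dirS y) := by
    rw [tgA_eq F ht.le, ContinuousLinearMap.map_sub, ContinuousLinearMap.map_sub,
      tg_po_lac F hε ht.le]
    rfl
  have hB : ∀ a, PD.Po ε (tgB F a (Real.log ‖y‖)) (dirS y) =
      PD.Dk a ε (nuc F (Real.log ‖y‖)) (dirS y) := fun a => by
    rw [tgB_eq F a ht.le, tg_po_lnc F a hε ht.le]
  ext j
  have hyj : y j = ‖y‖ * (dirS y : E3) j := by
    have := congrArg (fun v : E3 => v j) hyd
    simpa using this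
  simp only [PiLp.sub_apply, PiLp.smul_apply, PiLp.add_apply, smul_eq_mul, mkE_apply]
  unfold tgH
  rw [hA, tg_cr_anti (fun a => (dirS y : E3) a)]
  simp only [hB]
  rw [hyj, ContinuousMap.sub_apply]
  field_simp
  ring

/-- joint continuity of the regularised gradient -/
theorem tg_H_cont (F : Fin 3 → Y) (j : Fin 3) :
    Continuous (fun p : ℝ × {y : E3 // 1 < ‖y‖} => tgH F p.1 (p.2 : E3) j) := by
  have hd : Continuous (fun p : ℝ × {y : E3 // 1 < ‖y‖} => dirS (p.2 : E3)) := by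
    refine continuousOn_dirS.comp_continuous (continuous_subtype_val.comp continuous_snd)
      (fun p => ?_)
    intro h
    have h2 : (p.2 : E3) = 0 := h
    have := p.2.2
    rw [h2, norm_zero] at this
    linarith
  have hl : Continuous (fun p : ℝ × {y : E3 // 1 < ‖y‖} => Real.log ‖(p.2 : E3)‖) := by
    refine Continuous.log ((continuous_subtype_val.comp continuous_snd).norm) (fun p => ?_)
    have := p.2.2
    show ‖(p.2 : E3)‖ ≠ 0
    linarith
  have hev : ∀ {c : ℝ → C(S2, ℝ)}, Continuous c →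
      Continuous (fun p : ℝ × {y : E3 // 1 < ‖y‖} =>
        PD.Po p.1 (c (Real.log ‖(p.2 : E3)‖)) (dirS (p.2 : E3))) := fun {c} hc => by
    have h1 : Continuous (fun p : ℝ × {y : E3 // 1 < ‖y‖} =>
        PD.Po p.1 (c (Real.log ‖(p.2 : E3)‖))) :=
      tg_po_cont₂.comp (continuous_fst.prodMk (hc.comp hl))
    exact h1.eval hd
  have hdj : ∀ a, Continuous (fun p : ℝ × {y : E3 // 1 < ‖y‖} => (dirS (p.2 : E3) : E3) a) :=
    fun a => by
      have h := continuous_subtype_val.comp hd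
      exact (by fun_prop : Continuous (fun v : E3 => v a)).comp h
  unfold tgH cr
  refine ((hdj j).mul (hev (tgA_cont F))).sub ?_
  refine continuous_finsetSum _ (fun a _ => continuous_finsetSum _ (fun b _ => ?_))
  have h := (hdj a).mul (hev (tgB_cont F b))
  exact Continuous.const_smul (M := ℝ) (α := ℝ) h (eps j a b)

theorem tgH_zero (F : Fin 3 → Y) {y : E3} (hy : 1 < ‖y‖) (j : Fin 3) :
    tgH F 0 y j = oext (TT F j) y := by
  have ht : 0 ≤ Real.log ‖y‖ := (Real.log_pos hy).le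
  rw [tg_oext _ y hy.le, tg_sl_apply, (TT_spec F _ (dirS y) ht).2 j]
  unfold tgH
  rw [PD.po_nonpos 0 le_rfl, tgA_eq F ht]
  simp only [tgB_eq F _ ht]
  rfl

/-- gradient -/
theorem Nu_grad (F : Fin 3 → Y) (y : E3) (hy : 1 < ‖y‖) :
    HasFDerivAt (fun x => oext (Nu F) x / ‖x‖)
      (innerSL ℝ ((‖y‖ ^ 2)⁻¹ • mkE (fun j => oext (TT F j) y))) y := by
  set s : Set E3 := {x | 1 < ‖x‖} with hs
  have hso : IsOpen s := isOpen_lt continuous_const continuous_norm
  set e : ℕ → ℝ := fun n => 1 / ((n : ℝ) + 1) with he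
  have he0 : ∀ n, 0 < e n := fun n => by rw [he]; positivity
  have het : Tendsto e atTop (𝓝 0) := tendsto_one_div_add_atTop_nhds_zero_nat
  have hC : Continuous (fun p : ℝ × {y : E3 // 1 < ‖y‖} =>
      innerSL ℝ ((‖(p.2 : E3)‖ ^ 2)⁻¹ • mkE (tgH F p.1 (p.2 : E3)))) := by
    refine (innerSL ℝ).continuous.comp ?_
    have h1 : Continuous (fun p : ℝ × {y : E3 // 1 < ‖y‖} => (‖(p.2 : E3)‖ ^ 2)⁻¹) := by
      refine Continuous.inv₀ (((continuous_subtype_val.comp continuous_snd).norm).pow 2)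
        (fun p => ?_)
      have := p.2.2
      show ‖(p.2 : E3)‖ ^ 2 ≠ 0
      positivity
    have h2 : Continuous (fun p : ℝ × {y : E3 // 1 < ‖y‖} => mkE (tgH F p.1 (p.2 : E3))) := by
      have h3 : Continuous (fun v : Fin 3 → ℝ => mkE v) := by
        unfold mkE
        fun_prop
      exact h3.comp (continuous_pi (fun j => tg_H_cont F j))
    exact h1.smul h2
  have key : TendstoLocallyUniformlyOn (fun (n : ℕ) (x : E3) =>
      innerSL ℝ ((‖x‖ ^ 2)⁻¹ • mkE (tgH F (e n) x)))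
      (fun x => innerSL ℝ ((‖x‖ ^ 2)⁻¹ • mkE (tgH F 0 x))) atTop s := by
    rw [tendstoLocallyUniformlyOn_iff_tendstoLocallyUniformly_comp_coe]
    have h1 := (ContinuousMap.curry ⟨_, hC⟩).continuous.tendsto 0
    have h2 := h1.comp het
    have : LocallyCompactSpace {y : E3 // 1 < ‖y‖} := hso.locallyCompactSpace
    rw [ContinuousMap.tendsto_iff_tendstoLocallyUniformly] at h2
    exact h2
  have hf : ∀ n : ℕ, ∀ x ∈ s, HasFDerivAt (fun x => PD.Po (e n) (nuc F (Real.log ‖x‖)) (dirS x) / ‖x‖)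
      (innerSL ℝ ((‖x‖ ^ 2)⁻¹ • mkE (tgH F (e n) x))) x := fun n x hx => tg_reg F (he0 n) hx
  have hfg : ∀ x ∈ s, Tendsto (fun n : ℕ => PD.Po (e n) (nuc F (Real.log ‖x‖)) (dirS x) / ‖x‖) atTop
      (𝓝 (oext (Nu F) x / ‖x‖)) := fun x hx => by
    have hx' : 1 < ‖x‖ := hx
    have h1 : Tendsto (fun n => PD.Po (e n) (nuc F (Real.log ‖x‖))) atTop
        (𝓝 (PD.Po 0 (nuc F (Real.log ‖x‖)))) :=
      ((PD.po_cont (nuc F (Real.log ‖x‖))).tendsto 0).comp het
    have h2 : Tendsto (fun n => PD.Po (e n) (nuc F (Real.log ‖x‖)) (dirS x)) atTop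
        (𝓝 (PD.Po 0 (nuc F (Real.log ‖x‖)) (dirS x))) :=
      ((continuous_eval_const (dirS x)).tendsto _).comp h1
    have h3 : PD.Po 0 (nuc F (Real.log ‖x‖)) (dirS x) = oext (Nu F) x := by
      rw [PD.po_nonpos 0 le_rfl, tg_oext _ x hx'.le, ← tg_nuc_sl F (Real.log_pos hx').le]
      rfl
    rw [h3] at h2
    exact h2.div_const _
  have main := hasFDerivAt_of_tendstoLocallyUniformlyOn hso key hf hfg (show y ∈ s from hy)
  have e2 : (fun j => oext (TT F j) y) = tgH F 0 y := by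
    funext j
    exact (tgH_zero F hy j).symm
  rw [e2]
  exact main

end

end Pool.Agent.BS
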