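import Pool.Agent.BS.TBd

/-!
# Module TGRAD, auxiliary file: the curves `muc`, `nuc`, `lnc`, `lac`
-/

namespace Pool.Agent.BS

open MeasureTheory Topology Set Filter
open scoped ContDiff

noncomputable section

/-! ### slices -/

theorem tg_ray_cont : Continuous (fun p : ℝ × S2 => ray p.1 p.2) :=
  Continuous.subtype_mk (f := fun p : ℝ × S2 => Real.exp (max p.1 0) • (p.2 : E3)) (by fun_prop) _

theorem tg_ray_coe (t : ℝ) (θ : S2) (ht : 0 ≤ t) : ((ray t θ : Om) : E3) = Real.exp t • (θ : E3) := by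
  show Real.exp (max t 0) • (θ : E3) = _
  rw [max_eq_left ht]

theorem tg_norm_ray (t : ℝ) (θ : S2) : ‖((ray t θ : Om) : E3)‖ = Real.exp (max t 0) := by
  show ‖Real.exp (max t 0) • (θ : E3)‖ = _
  rw [norm_smul, norm_S2, mul_one, Real.norm_of_nonneg (Real.exp_pos _).le]

theorem tg_dirS_ray (t : ℝ) (θ : S2) : dirS ((ray t θ : Om) : E3) = θ :=
  dirS_smul_S2 θ (Real.exp_pos _)

theorem tg_sl_apply (f : Y) (t : ℝ) (θ : S2) : sl f t θ = f (ray t θ) := rfl

theorem tg_sl_cont (f : Y) : Continuous (fun t : ℝ => sl f t) := by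
  have h : Continuous (fun p : ℝ × S2 => f (ray p.1 p.2)) := f.continuous.comp tg_ray_cont
  exact (ContinuousMap.curry ⟨_, h⟩).continuous

theorem tg_sl_norm (f : Y) (t : ℝ) : ‖sl f t‖ ≤ ‖f‖ :=
  (ContinuousMap.norm_le _ (norm_nonneg _)).2 (fun θ => by
    rw [Real.norm_eq_abs]
    exact f.abs_apply_le _)

theorem tg_sl_hol (f : Y) (t : ℝ) (θ η : S2) :
    |sl f t θ - sl f t η| ≤ ‖f‖ * Real.sqrt (dist θ η) := by
  have h := f.abs_sub_le (x := ray t θ) (y := ray t η) (by rw [tg_norm_ray, tg_norm_ray])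
  rw [adist, tg_dirS_ray, tg_dirS_ray] at h
  exact h

theorem tg_frad_ray (F : Fin 3 → Y) (t : ℝ) (θ : S2) :
    frad F (ray t θ) = ∑ j, (θ : E3) j * F j (ray t θ) := by
  unfold frad
  rw [Y.sum_apply]
  refine Finset.sum_congr rfl (fun j _ => ?_)
  rw [Y.mul_apply, thY_apply, tg_dirS_ray]

theorem tg_ftan_ray (F : Fin 3 → Y) (k : Fin 3) (t : ℝ) (θ : S2) :
    ftan F k (ray t θ) = ∑ i, ∑ j, eps k i j * ((θ : E3) i * F j (ray t θ)) := by
  unfold ftan cr
  rw [Y.sum_apply]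
  refine Finset.sum_congr rfl (fun i _ => ?_)
  rw [Y.sum_apply]
  refine Finset.sum_congr rfl (fun j _ => ?_)
  rw [Y.smul_apply, Y.mul_apply, thY_apply, tg_dirS_ray]

/-! ### joint continuity -/

theorem tg_po_cont₂ : Continuous (fun p : ℝ × C(S2, ℝ) => PD.Po p.1 p.2) := by
  rw [continuous_iff_continuousAt]
  rintro ⟨s, g⟩
  have h1 : Tendsto (fun p : ℝ × C(S2, ℝ) => PD.Po p.1 g) (𝓝 (s, g)) (𝓝 (PD.Po s g)) :=
    ((PD.po_cont g).tendsto s).comp (continuous_fst.tendsto (s, g))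
  have h4 : Tendsto (fun p : ℝ × C(S2, ℝ) => ‖p.2 - g‖) (𝓝 (s, g)) (𝓝 0) := by
    have hc : Continuous (fun p : ℝ × C(S2, ℝ) => ‖p.2 - g‖) :=
      (continuous_snd.sub continuous_const).norm
    have h5 := hc.tendsto (s, g)
    have h6 : ‖(s, g).2 - g‖ = 0 := by
      show ‖g - g‖ = 0
      rw [sub_self, norm_zero]
    rw [h6] at h5
    exact h5
  have h7 : ∀ p : ℝ × C(S2, ℝ), ‖PD.Po p.1 p.2 - PD.Po p.1 g‖ ≤ ‖p.2 - g‖ := fun p => by
    have h8 := PD.po_norm p.1 (p.2 - g)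
    rw [ContinuousLinearMap.map_sub] at h8
    exact h8
  have h2 : Tendsto (fun p : ℝ × C(S2, ℝ) => PD.Po p.1 p.2 - PD.Po p.1 g) (𝓝 (s, g)) (𝓝 0) :=
    squeeze_zero_norm h7 h4
  have h3 := h1.add h2
  rw [add_zero] at h3
  refine h3.congr (fun p => ?_)
  exact add_sub_cancel _ _

/-- `K (σ + τ) = K σ ∘ Po τ` -/
def TgK (K : ℝ → (C(S2, ℝ) →L[ℝ] C(S2, ℝ))) : Prop :=
  ∀ σ τ, 0 < σ → 0 ≤ τ → K (σ + τ) = (K σ).comp (PD.Po τ)

theorem tg_K_la : TgK PD.La := PD.la_add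

theorem tg_K_dk (k : Fin 3) : TgK (PD.Dk k) := PD.dk_add k

theorem tg_K_contAt {K : ℝ → (C(S2, ℝ) →L[ℝ] C(S2, ℝ))} (hK : TgK K) {s : ℝ} (hs : 0 < s)
    (g : C(S2, ℝ)) : ContinuousAt (fun p : ℝ × C(S2, ℝ) => K p.1 p.2) (s, g) := by
  have h : Continuous (fun p : ℝ × C(S2, ℝ) => K (s / 2) (PD.Po (p.1 - s / 2) p.2)) :=
    (K (s / 2)).continuous.comp (tg_po_cont₂.comp
      (by fun_prop : Continuous fun p : ℝ × C(S2, ℝ) => (p.1 - s / 2, p.2)))
  refine h.continuousAt.congr ?_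
  have hev : ∀ᶠ p : ℝ × C(S2, ℝ) in 𝓝 (s, g), s / 2 < p.1 :=
    (continuous_fst.tendsto (s, g)).eventually (lt_mem_nhds (by show s / 2 < s; linarith))
  filter_upwards [hev] with p hp
  have h1 := hK (s / 2) (p.1 - s / 2) (by positivity) (by linarith)
  have e : s / 2 + (p.1 - s / 2) = p.1 := by ring
  rw [e] at h1
  rw [h1]
  rfl

theorem tg_K_comp_contOn {K : ℝ → (C(S2, ℝ) →L[ℝ] C(S2, ℝ))} (hK : TgK K) {a : ℝ → ℝ}
    {c : ℝ → C(S2, ℝ)} (ha : Continuous a) (hc : Continuous c) :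
    ContinuousOn (fun s => K (a s) (c s)) {s | 0 < a s} := by
  intro s hs
  have h1 : ContinuousAt (fun p : ℝ × C(S2, ℝ) => K p.1 p.2) (a s, c s) := tg_K_contAt hK hs _
  have h2 : ContinuousAt (fun s => (a s, c s)) s := (ha.prodMk hc).continuousAt
  exact (ContinuousAt.comp (f := fun s => (a s, c s)) h1 h2).continuousWithinAt

theorem tg_K_meas {K : ℝ → (C(S2, ℝ) →L[ℝ] C(S2, ℝ))} (hK : TgK K)
    {c : ℝ → C(S2, ℝ)} (hc : Continuous c) :
    AEStronglyMeasurable (fun s => K s (c s)) (volume.restrict (Ioi 0)) := by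
  have h := tg_K_comp_contOn hK continuous_id hc
  exact ContinuousOn.aestronglyMeasurable (f := fun s => K s (c s)) h measurableSet_Ioi

/-! ### the integrable bound -/

/-- the bound `(1 + s^{-1/2}) e^{-s}` -/
def tgb (s : ℝ) : ℝ := (1 + (Real.sqrt s)⁻¹) * Real.exp (-s)

theorem tgb_nonneg (s : ℝ) : 0 ≤ tgb s := by
  unfold tgb
  have := Real.sqrt_nonneg s
  positivity

theorem tgb_int : IntegrableOn tgb (Ioi 0) := by
  have h1 : IntegrableOn (fun x : ℝ => Real.exp (-x) * x ^ ((1 : ℝ) - 1)) (Ioi 0) :=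
    Real.GammaIntegral_convergent one_pos
  have h2 : IntegrableOn (fun x : ℝ => Real.exp (-x) * x ^ ((1 / 2 : ℝ) - 1)) (Ioi 0) :=
    Real.GammaIntegral_convergent (by norm_num)
  refine (h1.add h2).congr_fun (fun x hx => ?_) measurableSet_Ioi
  have hx' : (0 : ℝ) < x := hx
  have e1 : x ^ ((1 : ℝ) - 1) = 1 := by simp
  have e2 : x ^ ((1 / 2 : ℝ) - 1) = (Real.sqrt x)⁻¹ := by
    rw [Real.sqrt_eq_rpow, ← Real.rpow_neg hx'.le]
    norm_num
  show Real.exp (-x) * x ^ ((1 : ℝ) - 1) + Real.exp (-x) * x ^ ((1 / 2 : ℝ) - 1) = tgb x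
  rw [e1, e2]
  unfold tgb
  ring

/-- bound for Hoelder functions -/
def TgH (K : ℝ → (C(S2, ℝ) →L[ℝ] C(S2, ℝ))) : Prop :=
  ∀ τ (f : C(S2, ℝ)) A, 0 < τ → 0 ≤ A → (∀ θ η, |f θ - f η| ≤ A * Real.sqrt (dist θ η)) →
    ‖K τ f‖ ≤ PD.C0 * tgb τ * A

theorem tg_H_la : TgH PD.La := fun τ f A h hA hf => by
  have := PD.la_hol τ f A h hA hf
  unfold tgb
  linarith [this, mul_assoc PD.C0 (1 + (Real.sqrt τ)⁻¹) (Real.exp (-τ))]

theorem tg_H_dk (k : Fin 3) : TgH (PD.Dk k) := fun τ f A h hA hf => by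
  have := PD.dk_hol k τ f A h hA hf
  unfold tgb
  linarith [this, mul_assoc PD.C0 (1 + (Real.sqrt τ)⁻¹) (Real.exp (-τ))]

theorem tg_K_int {K : ℝ → (C(S2, ℝ) →L[ℝ] C(S2, ℝ))} (hK : TgK K) (hH : TgH K)
    {c : ℝ → C(S2, ℝ)} (hc : Continuous c) {B t : ℝ} (hB : 0 ≤ B) (ht : 0 ≤ t)
    (hol : ∀ s, 0 < s → s ≤ t → ∀ θ η, |c s θ - c s η| ≤ B * Real.sqrt (dist θ η)) :
    IntervalIntegrable (fun s => K s (c s)) volume 0 t := by
  rw [intervalIntegrable_iff_integrableOn_Ioc_of_le ht]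
  have hsub : Ioc (0 : ℝ) t ⊆ Ioi 0 := fun s hs => hs.1
  have hb : IntegrableOn (fun s => PD.C0 * tgb s * B) (Ioc 0 t) := by
    have := (tgb_int.mono_set hsub).const_mul (PD.C0 * B)
    refine this.congr (Eventually.of_forall (fun s => ?_))
    show PD.C0 * B * tgb s = PD.C0 * tgb s * B
    ring
  refine Integrable.mono' hb ?_ ?_
  · exact (tg_K_meas hK hc).mono_measure (Measure.restrict_mono hsub le_rfl)
  · refine (ae_restrict_mem measurableSet_Ioc).mono (fun s hs => ?_)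
    exact hH s (c s) B hs.1 hB (hol s hs.1 hs.2)

/-! ### continuity of `muc` -/

theorem tg_Jc_cont (F : Fin 3 → Y) : Continuous (Jc F) := by
  unfold Jc
  set M : ℝ := ‖frad F‖ + PD.C0 * ‖frad F‖ + ∑ k, PD.C0 * ‖ftan F k‖ with hM
  refine continuous_of_dominated (bound := fun s => M * tgb s) (fun t => ?_) (fun t => ?_) ?_ ?_
  · have hsl : ∀ f : Y, Continuous (fun s => sl f (t + s)) := fun f =>
      (tg_sl_cont f).comp (by fun_prop)
    have hexp : Continuous (fun s : ℝ => Real.exp (-s)) := by fun_prop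
    refine AEStronglyMeasurable.smul (hexp.aestronglyMeasurable) ?_
    refine (AEStronglyMeasurable.add ?_ (tg_K_meas tg_K_la (hsl _))).add ?_
    · exact (tg_po_cont₂.comp (continuous_id.prodMk (hsl (frad F)))).aestronglyMeasurable
    · refine Finset.aestronglyMeasurable_fun_sum _ (fun k _ => ?_)
      exact tg_K_meas (tg_K_dk k) (hsl _)
  · refine (ae_restrict_mem measurableSet_Ioi).mono (fun s hs => ?_)
    have hs' : (0 : ℝ) < s := hs
    rw [norm_smul, Real.norm_of_nonneg (Real.exp_pos _).le]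
    have h1 : ‖PD.Po s (sl (frad F) (t + s))‖ ≤ ‖frad F‖ :=
      (PD.po_norm _ _).trans (tg_sl_norm _ _)
    have h2 : ‖PD.La s (sl (frad F) (t + s))‖ ≤ PD.C0 * tgb s * ‖frad F‖ :=
      tg_H_la s _ _ hs' (norm_nonneg _) (tg_sl_hol _ _)
    have h3 : ‖∑ k, PD.Dk k s (sl (ftan F k) (t + s))‖ ≤ ∑ k, PD.C0 * tgb s * ‖ftan F k‖ :=
      (norm_sum_le _ _).trans (Finset.sum_le_sum (fun k _ =>
        tg_H_dk k s _ _ hs' (norm_nonneg _) (tg_sl_hol _ _)))
    have h4 : ‖PD.Po s (sl (frad F) (t + s)) + PD.La s (sl (frad F) (t + s)) +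
        ∑ k, PD.Dk k s (sl (ftan F k) (t + s))‖ ≤
        ‖frad F‖ + PD.C0 * tgb s * ‖frad F‖ + ∑ k, PD.C0 * tgb s * ‖ftan F k‖ :=
      (norm_add_le _ _).trans (add_le_add ((norm_add_le _ _).trans (add_le_add h1 h2)) h3)
    have he0 := Real.exp_pos (-s)
    have he1 : Real.exp (-s) ≤ 1 := Real.exp_le_one_iff.2 (by linarith)
    have hb0 := tgb_nonneg s
    have hb1 : Real.exp (-s) ≤ tgb s := by
      unfold tgb
      have : 0 ≤ (Real.sqrt s)⁻¹ := inv_nonneg.2 (Real.sqrt_nonneg s)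
      nlinarith
    have hC := PD.C0_pos
    refine (mul_le_mul_of_nonneg_left h4 he0.le).trans ?_
    rw [mul_add, mul_add, hM, add_mul, add_mul]
    refine add_le_add (add_le_add ?_ ?_) ?_
    · rw [mul_comm]
      exact mul_le_mul_of_nonneg_left hb1 (norm_nonneg _)
    · calc Real.exp (-s) * (PD.C0 * tgb s * ‖frad F‖) ≤ 1 * (PD.C0 * tgb s * ‖frad F‖) :=
            mul_le_mul_of_nonneg_right he1 (by positivity)
        _ = PD.C0 * ‖frad F‖ * tgb s := by ring
    · calc Real.exp (-s) * ∑ k, PD.C0 * tgb s * ‖ftan F k‖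
          ≤ 1 * ∑ k, PD.C0 * tgb s * ‖ftan F k‖ :=
            mul_le_mul_of_nonneg_right he1 (Finset.sum_nonneg (fun k _ => by positivity))
        _ = (∑ k, PD.C0 * ‖ftan F k‖) * tgb s := by
            rw [one_mul, Finset.sum_mul]
            exact Finset.sum_congr rfl (fun k _ => by ring)
  · exact tgb_int.const_mul M
  · refine Eventually.of_forall (fun s => ?_)
    have hsl : ∀ f : Y, Continuous (fun t => sl f (t + s)) := fun f =>
      (tg_sl_cont f).comp (by fun_prop)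
    have hA : Continuous (fun t => PD.Po s (sl (frad F) (t + s)) + PD.La s (sl (frad F) (t + s)) +
        ∑ k, PD.Dk k s (sl (ftan F k) (t + s))) :=
      (((PD.Po s).continuous.comp (hsl _)).add ((PD.La s).continuous.comp (hsl _))).add
        (continuous_finsetSum _ (fun k _ => (PD.Dk k s).continuous.comp (hsl _)))
    exact hA.const_smul (Real.exp (-s))

theorem tg_muc_cont (F : Fin 3 → Y) : Continuous (muc F) :=
  (tg_Jc_cont F).sub (tg_sl_cont _)

/-! ### shifts -/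

/-- dilation of points -/
def tgDil (T : ℝ) (x : Om) : Om := ⟨Real.exp (max T 0) • (x : E3), by
  rw [norm_smul, Real.norm_of_nonneg (Real.exp_pos _).le]
  have h1 : 1 ≤ Real.exp (max T 0) := Real.one_le_exp (le_max_right _ _)
  nlinarith [x.2]⟩

theorem tgDil_cont (T : ℝ) : Continuous (tgDil T) :=
  Continuous.subtype_mk (f := fun x : Om => Real.exp (max T 0) • (x : E3)) (by fun_prop) _

theorem tgDil_adm (T : ℝ) (f : Y) : Y.Adm ‖f‖ (fun x => f (tgDil T x)) := by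
  refine ⟨f.continuous.comp (tgDil_cont T), fun x => f.abs_apply_le _, fun x y hxy => ?_⟩
  have h := f.abs_sub_le (x := tgDil T x) (y := tgDil T y) (by
    show ‖Real.exp (max T 0) • (x : E3)‖ = ‖Real.exp (max T 0) • (y : E3)‖
    rw [norm_smul, norm_smul, hxy])
  have e : adist (tgDil T x) (tgDil T y) = adist x y := by
    unfold adist
    have e1 : ∀ z : Om, dirS ((tgDil T z : Om) : E3) = dirS (z : E3) := fun z =>
      dirS_smul (Om_ne_zero z) (Real.exp_pos _)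
    rw [e1, e1]
  rw [e] at h
  exact h

/-- shifted function -/
def tgSh (T : ℝ) (f : Y) : Y := Y.mk (fun x => f (tgDil T x))

theorem tgSh_apply (T : ℝ) (f : Y) (x : Om) : tgSh T f x = f (tgDil T x) :=
  Y.mk_apply (norm_nonneg _) (tgDil_adm T f) x

theorem tgSh_norm (T : ℝ) (f : Y) : ‖tgSh T f‖ ≤ 2 * ‖f‖ :=
  Y.norm_mk_le (norm_nonneg _) (tgDil_adm T f)

theorem tgDil_ray {T t : ℝ} (hT : 0 ≤ T) (ht : 0 ≤ t) (θ : S2) :
    tgDil T (ray t θ) = ray (T + t) θ := by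
  apply Subtype.ext
  show Real.exp (max T 0) • (Real.exp (max t 0) • (θ : E3)) = Real.exp (max (T + t) 0) • (θ : E3)
  rw [smul_smul, max_eq_left hT, max_eq_left ht, max_eq_left (by positivity), Real.exp_add]

theorem tg_sl_frad_sh (F : Fin 3 → Y) {T t : ℝ} (hT : 0 ≤ T) (ht : 0 ≤ t) :
    sl (frad (fun j => tgSh T (F j))) t = sl (frad F) (T + t) := by
  ext θ
  rw [tg_sl_apply, tg_sl_apply, tg_frad_ray, tg_frad_ray]
  refine Finset.sum_congr rfl (fun j _ => ?_)
  rw [tgSh_apply, tgDil_ray hT ht]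

theorem tg_sl_ftan_sh (F : Fin 3 → Y) (k : Fin 3) {T t : ℝ} (hT : 0 ≤ T) (ht : 0 ≤ t) :
    sl (ftan (fun j => tgSh T (F j)) k) t = sl (ftan F k) (T + t) := by
  ext θ
  rw [tg_sl_apply, tg_sl_apply, tg_ftan_ray, tg_ftan_ray]
  refine Finset.sum_congr rfl (fun i _ => Finset.sum_congr rfl (fun j _ => ?_))
  rw [tgSh_apply, tgDil_ray hT ht]

theorem tg_muc_sh (F : Fin 3 → Y) {T : ℝ} (hT : 0 ≤ T) :
    muc (fun j => tgSh T (F j)) 0 = muc F T := by
  unfold muc
  congr 1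
  · unfold Jc
    refine setIntegral_congr_fun measurableSet_Ioi (fun s hs => ?_)
    have hs' : (0 : ℝ) ≤ 0 + s := by
      have : (0 : ℝ) < s := hs
      linarith
    have e : T + (0 + s) = T + s := by ring
    show Real.exp (-s) • _ = Real.exp (-s) • _
    rw [tg_sl_frad_sh F hT hs', e]
    congr 2
    refine Finset.sum_congr rfl (fun k _ => ?_)
    rw [tg_sl_ftan_sh F k hT hs', e]
  · rw [tg_sl_frad_sh F hT le_rfl, add_zero]

/-! ### Hoelder bound of `muc` -/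

theorem tg_sum_sq (θ : S2) : ∑ j, (θ : E3) j * (θ : E3) j = 1 := by
  have h := norm_S2 θ
  have h2 : ‖(θ : E3)‖ ^ 2 = ∑ j, (θ : E3) j * (θ : E3) j := by
    rw [EuclideanSpace.norm_sq_eq]
    refine Finset.sum_congr rfl (fun j _ => ?_)
    rw [Real.norm_eq_abs, sq_abs, sq]
  rw [← h2, h, one_pow]

theorem tg_coord_abs (θ : S2) (j : Fin 3) : |(θ : E3) j| ≤ 1 := by
  have h := PiLp.norm_apply_le (θ : E3) j
  rw [norm_S2, Real.norm_eq_abs] at h
  exact h

theorem tg_coord_sub (θ η : S2) (j : Fin 3) : |(θ : E3) j - (η : E3) j| ≤ dist θ η := by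
  have h := PiLp.norm_apply_le ((θ : E3) - (η : E3)) j
  rw [Real.norm_eq_abs] at h
  rw [Subtype.dist_eq, dist_eq_norm]
  exact h

theorem tg_dist_le (θ η : S2) : dist θ η ≤ 2 * Real.sqrt (dist θ η) := by
  have h2 : dist θ η ≤ 2 := by
    rw [Subtype.dist_eq, dist_eq_norm]
    calc ‖(θ : E3) - (η : E3)‖ ≤ ‖(θ : E3)‖ + ‖(η : E3)‖ := norm_sub_le _ _
      _ = 2 := by rw [norm_S2, norm_S2]; norm_num
  have h0 : 0 ≤ dist θ η := dist_nonneg
  have hs := Real.sq_sqrt h0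
  have hs0 := Real.sqrt_nonneg (dist θ η)
  have h3 : Real.sqrt (dist θ η) ≤ 2 := by
    by_contra hcon
    push Not at hcon
    nlinarith
  nlinarith

/-- uniform bounds for `muc F t`, `t ≥ 0` -/
theorem tg_muc_bdd (F : Fin 3 → Y) : ∃ B, 0 ≤ B ∧ (∀ t, 0 ≤ t → ‖muc F t‖ ≤ B) ∧
    ∀ t, 0 ≤ t → ∀ θ η, |muc F t θ - muc F t η| ≤ B * Real.sqrt (dist θ η) := by
  set N : ℝ := ‖TT‖ * (2 * ‖F‖) with hN
  have hN0 : 0 ≤ N := by positivity
  have hF : ∀ T, ‖(fun j => tgSh T (F j))‖ ≤ 2 * ‖F‖ := fun T => by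
    rw [pi_norm_le_iff_of_nonneg (by positivity)]
    intro j
    exact (tgSh_norm T (F j)).trans (mul_le_mul_of_nonneg_left (norm_le_pi_norm F j) (by norm_num))
  have hTT : ∀ T j, ‖TT (fun j => tgSh T (F j)) j‖ ≤ N := fun T j =>
    (norm_le_pi_norm _ j).trans ((TT.le_opNorm _).trans
      (mul_le_mul_of_nonneg_left (hF T) (norm_nonneg _)))
  have hmu : ∀ T, 0 ≤ T → ∀ θ, muc F T θ =
      ∑ j, (θ : E3) j * TT (fun j => tgSh T (F j)) j (toOm θ) := fun T hT θ => by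
    have : ∀ j, (θ : E3) j * TT (fun j => tgSh T (F j)) j (toOm θ) =
        ((θ : E3) j * (θ : E3) j) * muc F T θ := fun j => by
      rw [TT_bdry, tg_muc_sh F hT]
      ring
    rw [Finset.sum_congr rfl (fun j _ => this j), ← Finset.sum_mul, tg_sum_sq, one_mul]
  refine ⟨9 * N, by positivity, fun t ht => ?_, fun t ht θ η => ?_⟩
  · refine (ContinuousMap.norm_le _ (by positivity)).2 (fun θ => ?_)
    rw [hmu t ht, Real.norm_eq_abs]
    refine (Finset.abs_sum_le_sum_abs _ _).trans ?_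
    have h1 : ∀ j ∈ (Finset.univ : Finset (Fin 3)),
        |(θ : E3) j * TT (fun j => tgSh t (F j)) j (toOm θ)| ≤ N := fun j _ => by
      rw [abs_mul]
      have h2 := tg_coord_abs θ j
      have h3 := ((TT (fun j => tgSh t (F j)) j).abs_apply_le (toOm θ)).trans (hTT t j)
      have h4 := abs_nonneg ((θ : E3) j)
      have h5 := abs_nonneg (TT (fun j => tgSh t (F j)) j (toOm θ))
      nlinarith
    refine (Finset.sum_le_sum h1).trans ?_
    rw [Finset.sum_const, Finset.card_univ, Fintype.card_fin, nsmul_eq_mul]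
    push_cast
    linarith
  · rw [hmu t ht, hmu t ht, ← Finset.sum_sub_distrib]
    refine (Finset.abs_sum_le_sum_abs _ _).trans ?_
    have h1 : ∀ j ∈ (Finset.univ : Finset (Fin 3)),
        |(θ : E3) j * TT (fun j => tgSh t (F j)) j (toOm θ) -
          (η : E3) j * TT (fun j => tgSh t (F j)) j (toOm η)| ≤
            3 * N * Real.sqrt (dist θ η) := fun j _ => by
      set g := TT (fun j => tgSh t (F j)) j with hg
      have e : (θ : E3) j * g (toOm θ) - (η : E3) j * g (toOm η) =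
        ((θ : E3) j - (η : E3) j) * g (toOm θ) + (η : E3) j * (g (toOm θ) - g (toOm η)) := by
        ring
      rw [e]
      refine (abs_add_le _ _).trans ?_
      rw [abs_mul, abs_mul]
      have a1 := (tg_coord_sub θ η j).trans (tg_dist_le θ η)
      have a2 := (g.abs_apply_le (toOm θ)).trans (hTT t j)
      have a3 := tg_coord_abs η j
      have a4 : |g (toOm θ) - g (toOm η)| ≤ N * Real.sqrt (dist θ η) := by
        have h := g.abs_sub_le (x := toOm θ) (y := toOm η) (by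
          show ‖(θ : E3)‖ = ‖(η : E3)‖
          rw [norm_S2, norm_S2])
        have e2 : adist (toOm θ) (toOm η) = dist θ η := by
          unfold adist
          have e1 : ∀ z : S2, dirS ((toOm z : Om) : E3) = z := fun z => dirS_S2 z
          rw [e1, e1]
        rw [e2] at h
        exact h.trans (mul_le_mul_of_nonneg_right (hTT t j) (Real.sqrt_nonneg _))
      have b0 := Real.sqrt_nonneg (dist θ η)
      have b1 := abs_nonneg ((θ : E3) j - (η : E3) j)
      have b2 := abs_nonneg (g (toOm θ))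
      have b3 := abs_nonneg ((η : E3) j)
      have b4 := abs_nonneg (g (toOm θ) - g (toOm η))
      have c1 : |(θ : E3) j - (η : E3) j| * |g (toOm θ)| ≤ (2 * Real.sqrt (dist θ η)) * N :=
        mul_le_mul a1 a2 b2 (by positivity)
      have c2 : |(η : E3) j| * |g (toOm θ) - g (toOm η)| ≤ 1 * (N * Real.sqrt (dist θ η)) :=
        mul_le_mul a3 a4 b4 zero_le_one
      linarith
    refine (Finset.sum_le_sum h1).trans ?_
    rw [Finset.sum_const, Finset.card_univ, Fintype.card_fin, nsmul_eq_mul]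
    push_cast
    have := Real.sqrt_nonneg (dist θ η)
    nlinarith

end

end Pool.Agent.BS
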