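import Pool.Agent.BS.TGradAux

/-!
# Module TGRAD, auxiliary file 2: regularised curves
-/

namespace Pool.Agent.BS

open MeasureTheory Topology Set Filter
open scoped ContDiff

noncomputable section

theorem tg_ray_log (x : E3) (h : 1 ≤ ‖x‖) : ray (Real.log ‖x‖) (dirS x) = (⟨x, h⟩ : Om) := by
  apply Subtype.ext
  rw [tg_ray_coe _ _ (Real.log_nonneg h), Real.exp_log (by linarith)]
  refine norm_smul_dirS (fun h0 => ?_)
  rw [h0, norm_zero] at h
  linarith

theorem tg_oext (f : Y) (x : E3) (h : 1 ≤ ‖x‖) : oext f x = sl f (Real.log ‖x‖) (dirS x) := by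
  rw [tg_sl_apply, tg_ray_log x h]
  unfold oext
  rw [dif_pos h]

theorem tg_nuc_sl (F : Fin 3 → Y) {t : ℝ} (ht : 0 ≤ t) : nuc F t = sl (Nu F) t := by
  ext θ
  rw [tg_sl_apply]
  exact ((TT_spec F t θ ht).1).symm

theorem tg_nuc_eq (F : Fin 3 → Y) (t : ℝ) :
    nuc F t = ∫ u in (0 : ℝ)..t, PD.Po (t - u) (muc F u) := by
  unfold nuc
  have h := intervalIntegral.integral_comp_sub_left (a := 0) (b := t)
    (fun u => PD.Po (t - u) (muc F u)) t
  simp only [sub_sub_cancel, sub_self, sub_zero] at h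
  exact h

theorem tg_po_int (F : Fin 3 → Y) (s a b : ℝ) :
    IntervalIntegrable (fun u => PD.Po (s - u) (muc F u)) volume a b :=
  (tg_po_cont₂.comp ((continuous_const.sub continuous_id).prodMk
    (tg_muc_cont F))).intervalIntegrable a b

theorem tg_po_int' (F : Fin 3 → Y) (t a b : ℝ) :
    IntervalIntegrable (fun s => PD.Po s (muc F (t - s))) volume a b :=
  (tg_po_cont₂.comp (continuous_id.prodMk
    ((tg_muc_cont F).comp (continuous_const.sub continuous_id)))).intervalIntegrable a b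

theorem tg_nuc_step (F : Fin 3 → Y) {t s : ℝ} (ht : 0 ≤ t) (hs : t ≤ s) :
    nuc F s = PD.Po (s - t) (nuc F t) + ∫ u in t..s, PD.Po (s - u) (muc F u) := by
  rw [tg_nuc_eq, tg_nuc_eq,
    ← intervalIntegral.integral_add_adjacent_intervals (tg_po_int F s 0 t) (tg_po_int F s t s)]
  congr 1
  rw [← ContinuousLinearMap.intervalIntegral_comp_comm _ (tg_po_int F t 0 t)]
  refine intervalIntegral.integral_congr (fun u hu => ?_)
  rw [uIcc_of_le ht] at hu
  show PD.Po (s - u) (muc F u) = PD.Po (s - t) (PD.Po (t - u) (muc F u))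
  have h := PD.po_add (s - t) (t - u) (by linarith) (by linarith [hu.2])
  have e : s - t + (t - u) = s - u := by ring
  rw [e] at h
  rw [h]
  rfl

theorem tg_W_deriv (F : Fin 3 → Y) (t : ℝ) :
    HasDerivAt (fun s => ∫ u in t..s, PD.Po (s - u) (muc F u)) (muc F t) t := by
  rw [hasDerivAt_iff_isLittleO, Asymptotics.isLittleO_iff]
  intro C hC
  have hcont : Continuous (fun p : ℝ × ℝ => PD.Po (p.1 - p.2) (muc F p.2)) :=
    tg_po_cont₂.comp ((continuous_fst.sub continuous_snd).prodMk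
      ((tg_muc_cont F).comp continuous_snd))
  have h1 := hcont.continuousAt (x := (t, t))
  rw [Metric.continuousAt_iff] at h1
  obtain ⟨δ, hδ, h⟩ := h1 C hC
  filter_upwards [Metric.ball_mem_nhds t hδ] with s hs
  have e : (s - t) • muc F t = ∫ _ in t..s, muc F t := by rw [intervalIntegral.integral_const]
  rw [intervalIntegral.integral_same, sub_zero, e,
    ← intervalIntegral.integral_sub (tg_po_int F s t s) intervalIntegrable_const,
    Real.norm_eq_abs]
  refine intervalIntegral.norm_integral_le_of_norm_le_const (fun u hu => ?_)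
  have hu1 : |u - t| ≤ |s - t| := abs_sub_left_of_mem_uIcc (uIoc_subset_uIcc hu)
  have hs1 : |s - t| < δ := by
    have := Metric.mem_ball.1 hs
    rwa [Real.dist_eq] at this
  have hu2 : dist (s, u) (t, t) < δ := by
    rw [Prod.dist_eq, max_lt_iff, Real.dist_eq, Real.dist_eq]
    exact ⟨hs1, lt_of_le_of_lt hu1 hs1⟩
  have h2 := h hu2
  have h3 : PD.Po (t - t) (muc F t) = muc F t := by
    rw [PD.po_nonpos (t - t) (by rw [sub_self])]
    rfl
  rw [dist_eq_norm] at h2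
  rw [← h3]
  exact h2.le

theorem tg_G_right (F : Fin 3 → Y) {ε : ℝ} (hε : 0 < ε) {t : ℝ} (ht : 0 ≤ t) :
    HasDerivWithinAt (fun s => PD.Po ε (nuc F s)) (PD.Po ε (muc F t) - PD.La ε (nuc F t))
      (Ici t) t := by
  have h1 : HasDerivAt (fun s => PD.Po (ε + (s - t)) (nuc F t)) (-(PD.La ε (nuc F t))) t := by
    have h2 : HasDerivAt (fun s : ℝ => ε + (s - t)) 1 t :=
      ((hasDerivAt_id t).sub_const t).const_add ε
    have h0 : HasDerivAt (fun τ => PD.Po τ (nuc F t)) (-(PD.La ε (nuc F t))) (ε + (t - t)) := by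
      rw [sub_self, add_zero]
      exact PD.po_deriv ε (nuc F t) hε
    have h3 := HasDerivAt.scomp t h0 h2
    rw [one_smul] at h3
    exact h3
  have h2 : HasDerivAt (fun s => PD.Po ε (∫ u in t..s, PD.Po (s - u) (muc F u)))
      (PD.Po ε (muc F t)) t :=
    (PD.Po ε).hasFDerivAt.comp_hasDerivAt t (tg_W_deriv F t)
  have h3 := (h1.add h2).hasDerivWithinAt (s := Ici t)
  rw [neg_add_eq_sub] at h3
  have key : ∀ s, t ≤ s → PD.Po ε (nuc F s) = PD.Po (ε + (s - t)) (nuc F t) +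
      PD.Po ε (∫ u in t..s, PD.Po (s - u) (muc F u)) := fun s hs => by
    rw [tg_nuc_step F ht hs, ContinuousLinearMap.map_add,
      PD.po_add ε (s - t) hε.le (by linarith)]
    rfl
  exact h3.congr (fun s hs => key s hs) (key t le_rfl)

theorem tg_G_deriv (F : Fin 3 → Y) {ε : ℝ} (hε : 0 < ε) {t : ℝ} (ht : 0 < t) :
    HasDerivAt (fun s => PD.Po ε (nuc F s)) (PD.Po ε (muc F t) - PD.La ε (nuc F t)) t := by
  set D : ℝ → C(S2, ℝ) := fun u => PD.Po ε (muc F u) - PD.La ε (sl (Nu F) u) with hD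
  have hDc : Continuous D := ((PD.Po ε).continuous.comp (tg_muc_cont F)).sub
    ((PD.La ε).continuous.comp (tg_sl_cont _))
  have hI : ∀ s, HasDerivAt (fun s => ∫ u in (0 : ℝ)..s, D u) (D s) s := fun s =>
    intervalIntegral.integral_hasDerivAt_right (hDc.intervalIntegrable _ _)
      (hDc.stronglyMeasurableAtFilter _ _) hDc.continuousAt
  have hDe : ∀ x, 0 ≤ x → D x = PD.Po ε (muc F x) - PD.La ε (nuc F x) := fun x hx => by
    rw [hD, tg_nuc_sl F hx]
  have hconst : ∀ x ∈ Icc 0 (t + 1), (fun x => PD.Po ε (nuc F x) - ∫ u in (0 : ℝ)..x, D u) x =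
      (fun x => PD.Po ε (nuc F x) - ∫ u in (0 : ℝ)..x, D u) 0 := by
    apply constant_of_has_deriv_right_zero
    · refine ContinuousOn.sub ?_ ?_
      · have h : ContinuousOn (fun x => PD.Po ε (sl (Nu F) x)) (Icc 0 (t + 1)) :=
          ((PD.Po ε).continuous.comp (tg_sl_cont _)).continuousOn
        refine h.congr (fun x hx => ?_)
        show PD.Po ε (nuc F x) = PD.Po ε (sl (Nu F) x)
        rw [tg_nuc_sl F hx.1]
      · exact (continuous_iff_continuousAt.2 (fun s => (hI s).continuousAt)).continuousOn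
    · intro x hx
      have h1 := tg_G_right F hε hx.1
      have h2 := (hI x).hasDerivWithinAt (s := Ici x)
      have h3 := h1.sub h2
      rw [← hDe x hx.1, sub_self] at h3
      exact h3
  have h4 : HasDerivAt (fun s => (PD.Po ε (nuc F 0) - ∫ u in (0 : ℝ)..0, D u) +
      ∫ u in (0 : ℝ)..s, D u) (D t) t := (hI t).const_add _
  rw [← hDe t ht.le]
  refine h4.congr_of_eventuallyEq ?_
  filter_upwards [Ioo_mem_nhds ht (lt_add_one t)] with s hs
  have h5 := hconst s ⟨hs.1.le, hs.2.le⟩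
  simp only at h5
  rw [← h5, sub_add_cancel]

/-! ### regularisation of `lnc` and `lac` -/

theorem tg_K_muc_int (F : Fin 3 → Y) {K : ℝ → (C(S2, ℝ) →L[ℝ] C(S2, ℝ))} (hK : TgK K)
    (hH : TgH K) {t : ℝ} (ht : 0 ≤ t) :
    IntervalIntegrable (fun s => K s (muc F (t - s))) volume 0 t := by
  obtain ⟨B, hB, -, hol⟩ := tg_muc_bdd F
  exact tg_K_int hK hH (c := fun s => muc F (t - s))
    ((tg_muc_cont F).comp (continuous_const.sub continuous_id)) hB ht
    (fun s _ hs => hol (t - s) (by linarith))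

theorem tg_po_K (F : Fin 3 → Y) {K : ℝ → (C(S2, ℝ) →L[ℝ] C(S2, ℝ))} (hK : TgK K)
    (hH : TgH K) (hK' : ∀ σ τ, 0 < σ → 0 ≤ τ → K (σ + τ) = (PD.Po τ).comp (K σ))
    {ε t : ℝ} (hε : 0 < ε) (ht : 0 ≤ t) :
    PD.Po ε (∫ s in (0 : ℝ)..t, K s (muc F (t - s))) = K ε (nuc F t) := by
  unfold nuc
  rw [← ContinuousLinearMap.intervalIntegral_comp_comm _ (tg_K_muc_int F hK hH ht),
    ← ContinuousLinearMap.intervalIntegral_comp_comm _ (tg_po_int' F t 0 t)]
  refine intervalIntegral.integral_congr_ae (Eventually.of_forall (fun s hs => ?_))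
  rw [uIoc_of_le ht] at hs
  have h1 := hK' s ε hs.1 hε.le
  have h2 := hK ε s hε hs.1.le
  rw [add_comm] at h2
  have h3 : (PD.Po ε).comp (K s) = (K ε).comp (PD.Po s) := h1.symm.trans h2
  exact congrArg (fun L : C(S2, ℝ) →L[ℝ] C(S2, ℝ) => L (muc F (t - s))) h3

theorem tg_po_lac (F : Fin 3 → Y) {ε t : ℝ} (hε : 0 < ε) (ht : 0 ≤ t) :
    PD.Po ε (lac F t) = PD.La ε (nuc F t) :=
  tg_po_K F tg_K_la tg_H_la PD.la_add' hε ht

theorem tg_po_lnc (F : Fin 3 → Y) (k : Fin 3) {ε t : ℝ} (hε : 0 < ε) (ht : 0 ≤ t) :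
    PD.Po ε (lnc F k t) = PD.Dk k ε (nuc F t) :=
  tg_po_K F (tg_K_dk k) (tg_H_dk k) (PD.dk_add' k) hε ht

theorem tg_lnc_perp (F : Fin 3 → Y) {t : ℝ} (ht : 0 ≤ t) (θ : S2) :
    ∑ k, lnc F k t θ * (θ : E3) k = 0 := by
  have hint : ∀ k : Fin 3, IntervalIntegrable (fun s => PD.Dk k s (muc F (t - s)) θ) volume 0 t :=
    fun k => by
      have h := tg_K_muc_int F (tg_K_dk k) (tg_H_dk k) ht
      rw [intervalIntegrable_iff] at h ⊢
      exact (ContinuousMap.evalCLM ℝ θ).integrable_comp h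
  have h1 : ∀ k : Fin 3, lnc F k t θ * (θ : E3) k =
      ∫ s in (0 : ℝ)..t, PD.Dk k s (muc F (t - s)) θ * (θ : E3) k := fun k => by
    rw [intervalIntegral.integral_mul_const]
    congr 1
    exact ((ContinuousMap.evalCLM ℝ θ).intervalIntegral_comp_comm
      (tg_K_muc_int F (tg_K_dk k) (tg_H_dk k) ht)).symm
  rw [Finset.sum_congr rfl (fun k _ => h1 k),
    ← intervalIntegral.integral_finsetSum (fun k _ => (hint k).mul_const _)]
  have h2 : ∫ s in (0 : ℝ)..t, ∑ k, PD.Dk k s (muc F (t - s)) θ * (θ : E3) k =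
      ∫ _ in (0 : ℝ)..t, (0 : ℝ) := by
    refine intervalIntegral.integral_congr_ae (Eventually.of_forall (fun s hs => ?_))
    rw [uIoc_of_le ht] at hs
    exact PD.dk_perp s (muc F (t - s)) θ hs.1
  rw [h2, intervalIntegral.integral_zero]

/-- components of a vector product -/
theorem tg_cr0 {R : Type*} [CommRing R] [Algebra ℝ R] (a b : Fin 3 → R) :
    cr a b 0 = a 1 * b 2 - a 2 * b 1 := by
  simp [cr, eps, Fin.sum_univ_three, sub_eq_add_neg, add_comm]

theorem tg_cr1 {R : Type*} [CommRing R] [Algebra ℝ R] (a b : Fin 3 → R) :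
    cr a b 1 = a 2 * b 0 - a 0 * b 2 := by
  simp [cr, eps, Fin.sum_univ_three, sub_eq_add_neg, add_comm]

theorem tg_cr2 {R : Type*} [CommRing R] [Algebra ℝ R] (a b : Fin 3 → R) :
    cr a b 2 = a 0 * b 1 - a 1 * b 0 := by
  simp [cr, eps, Fin.sum_univ_three, sub_eq_add_neg, add_comm]

theorem tg_a_eq (F : Fin 3 → Y) {t : ℝ} (ht : 0 ≤ t) (θ : S2) :
    muc F t θ - lac F t θ - nuc F t θ = ∑ j, (θ : E3) j * TT F j (ray t θ) := by
  have h1 := tg_sum_sq θ
  rw [Fin.sum_univ_three] at h1 ⊢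
  rw [(TT_spec F t θ ht).2 0, (TT_spec F t θ ht).2 1, (TT_spec F t θ ht).2 2, tg_cr0, tg_cr1,
    tg_cr2]
  linear_combination (-(muc F t θ - lac F t θ - nuc F t θ)) * h1

theorem tg_b_eq (F : Fin 3 → Y) {t : ℝ} (ht : 0 ≤ t) (k : Fin 3) (θ : S2) :
    lnc F k t θ = cr (fun a => (θ : E3) a) (fun a => TT F a (ray t θ)) k := by
  have h1 := tg_sum_sq θ
  have h2 := tg_lnc_perp F ht θ
  rw [Fin.sum_univ_three] at h1 h2
  have e0 := (TT_spec F t θ ht).2 0
  have e1 := (TT_spec F t θ ht).2 1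
  have e2 := (TT_spec F t θ ht).2 2
  rw [tg_cr0] at e0
  rw [tg_cr1] at e1
  rw [tg_cr2] at e2
  have hk : k = 0 ∨ k = 1 ∨ k = 2 := by
    fin_cases k
    · exact Or.inl rfl
    · exact Or.inr (Or.inl rfl)
    · exact Or.inr (Or.inr rfl)
  rcases hk with rfl | rfl | rfl
  · rw [tg_cr0]
    simp only [e1, e2]
    linear_combination (-(lnc F 0 t θ)) * h1 + (θ : E3) 0 * h2
  · rw [tg_cr1]
    simp only [e0, e2]
    linear_combination (-(lnc F 1 t θ)) * h1 + (θ : E3) 1 * h2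
  · rw [tg_cr2]
    simp only [e0, e1]
    linear_combination (-(lnc F 2 t θ)) * h1 + (θ : E3) 2 * h2

end

end Pool.Agent.BS
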