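import Pool.Agent.BS.TBd

/-!
# Mild solutions: auxiliary facts for TWEAK (and TGRAD)
-/

namespace Pool.Agent.BS

open MeasureTheory Topology Set Filter
open scoped ContDiff

noncomputable section

/-! ### Generalities -/

section gen

variable {E : Type*} [NormedAddCommGroup E] [NormedSpace ℝ E] [CompleteSpace E]

omit [NormedSpace ℝ E] [CompleteSpace E] in
theorem tw_gen_int {S : Set ℝ} {a1 a2 : ℝ → E} {b : Fin 3 → ℝ → E} (h1 : IntegrableOn a1 S)
    (h2 : IntegrableOn a2 S) (h3 : ∀ k, IntegrableOn (b k) S) :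
    IntegrableOn (fun s => a1 s + a2 s + ∑ k, b k s) S := by
  unfold IntegrableOn at *
  exact (h1.add h2).add (integrable_finsetSum _ (fun k _ => h3 k))

theorem tw_gen_comp (P L : E →L[ℝ] E) (D : Fin 3 → E →L[ℝ] E) {S : Set ℝ} (hS : MeasurableSet S)
    {a u : ℝ → E} {v : Fin 3 → ℝ → E} (ha : IntegrableOn a S) (hu : IntegrableOn u S)
    (hv : ∀ k, IntegrableOn (v k) S)
    (h : ∀ s ∈ S, P (a s) = P (u s) + L (u s) + ∑ k, D k (v k s)) :
    P (∫ s in S, a s) = P (∫ s in S, u s) + L (∫ s in S, u s) + ∑ k, D k (∫ s in S, v k s) := by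
  unfold IntegrableOn at *
  rw [← ContinuousLinearMap.integral_comp_comm _ ha, setIntegral_congr_fun hS h]
  have h1 := P.integrable_comp hu
  have h2 := L.integrable_comp hu
  have h3 := integrable_finsetSum Finset.univ (fun k _ => (D k).integrable_comp (hv k))
  have h12 : Integrable (fun s => P (u s) + L (u s)) (volume.restrict S) := h1.add h2
  rw [integral_add h12 h3, integral_add h1 h2, integral_finsetSum _
    (fun k _ => (D k).integrable_comp (hv k)), ContinuousLinearMap.integral_comp_comm _ hu,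
    ContinuousLinearMap.integral_comp_comm _ hu]
  congr 1
  exact Finset.sum_congr rfl (fun k _ => ContinuousLinearMap.integral_comp_comm _ (hv k))

end gen

/-! ### Slices -/

theorem tw_continuous_ray2 : Continuous (fun q : ℝ × S2 => ray q.1 q.2) :=
  Continuous.subtype_mk (f := fun q : ℝ × S2 => Real.exp (max q.1 0) • (q.2 : E3))
    (by fun_prop) _

theorem tw_sl_apply (f : Y) (t : ℝ) (θ : S2) : sl f t θ = f (ray t θ) := rfl

theorem tw_sl_continuous (f : Y) : Continuous (sl f) :=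
  (ContinuousMap.curry (⟨fun q : ℝ × S2 => f (ray q.1 q.2),
    f.continuous.comp tw_continuous_ray2⟩ : C(ℝ × S2, ℝ))).continuous

theorem tw_sl_norm (f : Y) (t : ℝ) : ‖sl f t‖ ≤ ‖f‖ :=
  (ContinuousMap.norm_le _ (norm_nonneg _)).2 (fun θ => f.abs_apply_le (ray t θ))

theorem tw_norm_ray (t : ℝ) (θ : S2) : ‖(ray t θ : E3)‖ = Real.exp (max t 0) := by
  show ‖Real.exp (max t 0) • (θ : E3)‖ = _
  rw [norm_smul, norm_S2, mul_one, Real.norm_of_nonneg (Real.exp_pos _).le]

theorem tw_dirS_ray (t : ℝ) (θ : S2) : dirS (ray t θ : E3) = θ :=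
  dirS_smul_S2 θ (Real.exp_pos _)

theorem tw_ray_coe {t : ℝ} (ht : 0 ≤ t) (θ : S2) : (ray t θ : E3) = Real.exp t • (θ : E3) := by
  show Real.exp (max t 0) • (θ : E3) = _
  rw [max_eq_left ht]

theorem tw_sl_hol (f : Y) (t : ℝ) (θ η : S2) :
    |sl f t θ - sl f t η| ≤ ‖f‖ * Real.sqrt (dist θ η) := by
  have h := f.abs_sub_le (x := ray t θ) (y := ray t η) (by rw [tw_norm_ray, tw_norm_ray])
  have h2 : adist (ray t θ) (ray t η) = dist θ η := by
    unfold adist
    rw [tw_dirS_ray, tw_dirS_ray]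
  rw [h2] at h
  exact h

/-! ### Joint continuity -/

theorem tw_po_cont2 : Continuous (fun q : ℝ × C(S2, ℝ) => PD.Po q.1 q.2) := by
  rw [continuous_iff_continuousAt]
  rintro ⟨τ, x⟩
  rw [ContinuousAt, tendsto_iff_norm_sub_tendsto_zero]
  have h1 : Tendsto (fun q : ℝ × C(S2, ℝ) => ‖q.2 - x‖ + ‖PD.Po q.1 x - PD.Po τ x‖) (𝓝 (τ, x))
      (𝓝 0) := by
    have hc : Continuous (fun q : ℝ × C(S2, ℝ) => ‖q.2 - x‖ + ‖PD.Po q.1 x - PD.Po τ x‖) := by
      have := (PD.po_cont x).comp (continuous_fst : Continuous (fun q : ℝ × C(S2, ℝ) => q.1))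
      exact ((continuous_snd.sub continuous_const).norm).add ((this.sub continuous_const).norm)
    have := hc.tendsto (τ, x)
    simpa using this
  refine squeeze_zero (fun _ => norm_nonneg _) (fun q => ?_) h1
  have h2 : PD.Po q.1 q.2 - PD.Po τ x = PD.Po q.1 (q.2 - x) + (PD.Po q.1 x - PD.Po τ x) := by
    rw [map_sub]; abel
  rw [h2]
  exact (norm_add_le _ _).trans (add_le_add (PD.po_norm _ _) le_rfl)

theorem tw_la_contOn :
    ContinuousOn (fun q : ℝ × C(S2, ℝ) => PD.La q.1 q.2) {q | 0 < q.1} := by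
  rintro ⟨τ, x⟩ (hτ : 0 < τ)
  apply ContinuousAt.continuousWithinAt
  have h1 : ∀ᶠ q : ℝ × C(S2, ℝ) in 𝓝 (τ, x),
      PD.La (τ / 2) (PD.Po (q.1 - τ / 2) q.2) = PD.La q.1 q.2 := by
    have : ∀ᶠ q : ℝ × C(S2, ℝ) in 𝓝 (τ, x), τ / 2 < q.1 :=
      continuousAt_fst.eventually (lt_mem_nhds (by show τ / 2 < τ; linarith))
    filter_upwards [this] with q hq
    have := PD.la_add (τ / 2) (q.1 - τ / 2) (by positivity) (by linarith)
    rw [add_sub_cancel] at this
    rw [this]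
    rfl
  refine ContinuousAt.congr ?_ h1
  refine (PD.La (τ / 2)).continuous.continuousAt.comp ?_
  exact (tw_po_cont2.comp ((continuous_fst.sub continuous_const).prodMk continuous_snd)).continuousAt

theorem tw_dk_contOn (k : Fin 3) :
    ContinuousOn (fun q : ℝ × C(S2, ℝ) => PD.Dk k q.1 q.2) {q | 0 < q.1} := by
  rintro ⟨τ, x⟩ (hτ : 0 < τ)
  apply ContinuousAt.continuousWithinAt
  have h1 : ∀ᶠ q : ℝ × C(S2, ℝ) in 𝓝 (τ, x),
      PD.Dk k (τ / 2) (PD.Po (q.1 - τ / 2) q.2) = PD.Dk k q.1 q.2 := by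
    have : ∀ᶠ q : ℝ × C(S2, ℝ) in 𝓝 (τ, x), τ / 2 < q.1 :=
      continuousAt_fst.eventually (lt_mem_nhds (by show τ / 2 < τ; linarith))
    filter_upwards [this] with q hq
    have := PD.dk_add k (τ / 2) (q.1 - τ / 2) (by positivity) (by linarith)
    rw [add_sub_cancel] at this
    rw [this]
    rfl
  refine ContinuousAt.congr ?_ h1
  refine (PD.Dk k (τ / 2)).continuous.continuousAt.comp ?_
  exact (tw_po_cont2.comp ((continuous_fst.sub continuous_const).prodMk continuous_snd)).continuousAt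

/-! ### Integrability -/

theorem tw_major : IntegrableOn (fun s : ℝ => (1 + (Real.sqrt s)⁻¹) * Real.exp (-s)) (Ioi 0) := by
  have h1 : IntegrableOn (fun s : ℝ => Real.exp (-s)) (Ioi 0) := integrableOn_exp_neg_Ioi 0
  have h2 : IntegrableOn (fun s : ℝ => Real.exp (-s) * s ^ ((1 / 2 : ℝ) - 1)) (Ioi 0) :=
    Real.GammaIntegral_convergent (by norm_num)
  refine (h1.add h2).congr_fun (fun s hs => ?_) measurableSet_Ioi
  have hs' : (0 : ℝ) < s := hs
  have : s ^ ((1 / 2 : ℝ) - 1) = (Real.sqrt s)⁻¹ := by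
    rw [Real.sqrt_eq_rpow, ← Real.rpow_neg hs'.le]
    norm_num
  simp only [Pi.add_apply]
  rw [this]
  ring

theorem tw_intOn_la {S : Set ℝ} (hS : MeasurableSet S) (hS0 : S ⊆ Ioi 0) {h : ℝ → C(S2, ℝ)}
    (hc : ContinuousOn h S) {A : ℝ} (hA : 0 ≤ A)
    (hh : ∀ s ∈ S, ∀ θ η, |h s θ - h s η| ≤ A * Real.sqrt (dist θ η)) :
    IntegrableOn (fun s => PD.La s (h s)) S := by
  have hm : AEStronglyMeasurable (fun s => PD.La s (h s)) (volume.restrict S) := by
    apply ContinuousOn.aestronglyMeasurable _ hS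
    exact tw_la_contOn.comp (continuousOn_id.prodMk hc) (fun s hs => hS0 hs)
  have hM : IntegrableOn (fun s : ℝ => PD.C0 * A * ((1 + (Real.sqrt s)⁻¹) * Real.exp (-s)))
      (Ioi 0) := tw_major.const_mul (PD.C0 * A)
  refine Integrable.mono' (hM.mono_set hS0) hm ?_
  refine (ae_restrict_iff' hS).2 (Eventually.of_forall (fun s hs => ?_))
  refine (PD.la_hol s (h s) A (hS0 hs) hA (hh s hs)).trans (le_of_eq (by ring))

theorem tw_intOn_dk (k : Fin 3) {S : Set ℝ} (hS : MeasurableSet S) (hS0 : S ⊆ Ioi 0)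
    {h : ℝ → C(S2, ℝ)} (hc : ContinuousOn h S) {A : ℝ} (hA : 0 ≤ A)
    (hh : ∀ s ∈ S, ∀ θ η, |h s θ - h s η| ≤ A * Real.sqrt (dist θ η)) :
    IntegrableOn (fun s => PD.Dk k s (h s)) S := by
  have hm : AEStronglyMeasurable (fun s => PD.Dk k s (h s)) (volume.restrict S) := by
    apply ContinuousOn.aestronglyMeasurable _ hS
    exact (tw_dk_contOn k).comp (continuousOn_id.prodMk hc) (fun s hs => hS0 hs)
  have hM : IntegrableOn (fun s : ℝ => PD.C0 * A * ((1 + (Real.sqrt s)⁻¹) * Real.exp (-s)))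
      (Ioi 0) := tw_major.const_mul (PD.C0 * A)
  refine Integrable.mono' (hM.mono_set hS0) hm ?_
  refine (ae_restrict_iff' hS).2 (Eventually.of_forall (fun s hs => ?_))
  refine (PD.dk_hol k s (h s) A (hS0 hs) hA (hh s hs)).trans (le_of_eq (by ring))

theorem tw_exp_hol (f : Y) (t s : ℝ) (hs : 0 ≤ s) (θ η : S2) :
    |(Real.exp (-s) • sl f (t + s)) θ - (Real.exp (-s) • sl f (t + s)) η| ≤
      ‖f‖ * Real.sqrt (dist θ η) := by
  have h1 := tw_sl_hol f (t + s) θ η
  simp only [ContinuousMap.coe_smul, Pi.smul_apply, smul_eq_mul]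
  rw [← mul_sub, abs_mul, abs_of_pos (Real.exp_pos _)]
  have h2 : Real.exp (-s) ≤ 1 := Real.exp_le_one_iff.2 (by linarith)
  calc Real.exp (-s) * |sl f (t + s) θ - sl f (t + s) η|
      ≤ 1 * (‖f‖ * Real.sqrt (dist θ η)) :=
        mul_le_mul h2 h1 (abs_nonneg _) zero_le_one
    _ = _ := one_mul _

theorem tw_exp_cont (f : Y) (t : ℝ) : Continuous (fun s => Real.exp (-s) • sl f (t + s)) := by
  have h1 := (tw_sl_continuous f).comp (continuous_const.add continuous_id : Continuous (fun s : ℝ => t + s))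
  exact (by fun_prop : Continuous (fun s : ℝ => Real.exp (-s))).smul h1

theorem tw_int_la (f : Y) (t : ℝ) :
    IntegrableOn (fun s => Real.exp (-s) • PD.La s (sl f (t + s))) (Ioi 0) := by
  refine (tw_intOn_la measurableSet_Ioi subset_rfl (tw_exp_cont f t).continuousOn
    (norm_nonneg f) (fun s hs θ η => tw_exp_hol f t s (le_of_lt hs) θ η)).congr_fun
    (fun s _ => ?_) measurableSet_Ioi
  simp only [map_smul]

theorem tw_int_dk (k : Fin 3) (f : Y) (t : ℝ) :
    IntegrableOn (fun s => Real.exp (-s) • PD.Dk k s (sl f (t + s))) (Ioi 0) := by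
  refine (tw_intOn_dk k measurableSet_Ioi subset_rfl (tw_exp_cont f t).continuousOn
    (norm_nonneg f) (fun s hs θ η => tw_exp_hol f t s (le_of_lt hs) θ η)).congr_fun
    (fun s _ => ?_) measurableSet_Ioi
  simp only [map_smul]

theorem tw_cont_po (f : Y) :
    Continuous (fun q : ℝ × ℝ => Real.exp (-q.2) • PD.Po q.2 (sl f (q.1 + q.2))) := by
  have h1 : Continuous (fun q : ℝ × ℝ => PD.Po q.2 (sl f (q.1 + q.2))) :=
    tw_po_cont2.comp (continuous_snd.prodMk ((tw_sl_continuous f).comp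
      (continuous_fst.add continuous_snd)))
  exact (by fun_prop : Continuous (fun q : ℝ × ℝ => Real.exp (-q.2))).smul h1

theorem tw_int_po (f : Y) (t : ℝ) :
    IntegrableOn (fun s => Real.exp (-s) • PD.Po s (sl f (t + s))) (Ioi 0) := by
  have hc : Continuous (fun s => Real.exp (-s) • PD.Po s (sl f (t + s))) :=
    (tw_cont_po f).comp (continuous_const.prodMk continuous_id)
  refine Integrable.mono' ((integrableOn_exp_neg_Ioi 0).mul_const ‖f‖)
    hc.aestronglyMeasurable (Eventually.of_forall (fun s => ?_))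
  rw [norm_smul, Real.norm_of_nonneg (Real.exp_pos _).le]
  exact mul_le_mul_of_nonneg_left ((PD.po_norm _ _).trans (tw_sl_norm f _)) (Real.exp_pos _).le

/-- `U_f(t) = ∫_0^∞ e^{-s} P(s) f(t+s) ds` -/
def tw_U (f : Y) (t : ℝ) : C(S2, ℝ) :=
  ∫ s in Ioi (0 : ℝ), Real.exp (-s) • PD.Po s (sl f (t + s))

theorem tw_Jc_int (F : Fin 3 → Y) (t : ℝ) :
    IntegrableOn (fun s => Real.exp (-s) • (PD.Po s (sl (frad F) (t + s)) +
    PD.La s (sl (frad F) (t + s)) + ∑ k, PD.Dk k s (sl (ftan F k) (t + s)))) (Ioi 0) := by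
  refine (tw_gen_int (tw_int_po (frad F) t) (tw_int_la (frad F) t)
    (fun k => tw_int_dk k (ftan F k) t)).congr_fun (fun s _ => ?_) measurableSet_Ioi
  simp only [smul_add, Finset.smul_sum]

theorem tw_po_la (ε s : ℝ) (hε : 0 < ε) (hs : 0 < s) (x : C(S2, ℝ)) :
    PD.Po ε (PD.La s x) = PD.La ε (PD.Po s x) := by
  have h1 := PD.la_add' s ε hs hε.le
  have h2 := PD.la_add ε s hε hs.le
  rw [add_comm] at h1
  rw [h1] at h2
  exact congrArg (fun L => L x) h2

theorem tw_po_dk (k : Fin 3) (ε s : ℝ) (hε : 0 < ε) (hs : 0 < s) (x : C(S2, ℝ)) :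
    PD.Po ε (PD.Dk k s x) = PD.Dk k ε (PD.Po s x) := by
  have h1 := PD.dk_add' k s ε hs hε.le
  have h2 := PD.dk_add k ε s hε hs.le
  rw [add_comm] at h1
  rw [h1] at h2
  exact congrArg (fun L => L x) h2

theorem tw_po_Jc (F : Fin 3 → Y) (t ε : ℝ) (hε : 0 < ε) :
    PD.Po ε (Jc F t) = PD.Po ε (tw_U (frad F) t) + PD.La ε (tw_U (frad F) t) +
      ∑ k, PD.Dk k ε (tw_U (ftan F k) t) := by
  refine tw_gen_comp (PD.Po ε) (PD.La ε) (fun k => PD.Dk k ε) measurableSet_Ioi
    (tw_Jc_int F t) (tw_int_po (frad F) t) (fun k => tw_int_po (ftan F k) t) (fun s hs => ?_)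
  simp only [map_smul, map_add, map_sum, smul_add, Finset.smul_sum, tw_po_la ε s hε hs,
    tw_po_dk _ ε s hε hs]


/-! ### The shift and the Hölder bound of `μ` -/

theorem tw_shift_mem (c : ℝ) (hc : 0 ≤ c) (x : Om) : 1 ≤ ‖Real.exp c • (x : E3)‖ := by
  rw [norm_smul, Real.norm_of_nonneg (Real.exp_pos _).le]
  have h1 : 1 ≤ Real.exp c := Real.one_le_exp hc
  have h2 := x.2
  nlinarith

/-- the function `f (e^c x)` -/
def tw_sh (c : ℝ) (hc : 0 ≤ c) (f : Y) : Y :=
  Y.mk (fun x => f ⟨Real.exp c • (x : E3), tw_shift_mem c hc x⟩)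

theorem tw_sh_adm (c : ℝ) (hc : 0 ≤ c) (f : Y) :
    Y.Adm ‖f‖ (fun x => f ⟨Real.exp c • (x : E3), tw_shift_mem c hc x⟩) := by
  refine ⟨?_, fun x => f.abs_apply_le _, fun x y hxy => ?_⟩
  · refine f.continuous.comp ?_
    exact Continuous.subtype_mk (by fun_prop) _
  · have h := f.abs_sub_le (x := ⟨Real.exp c • (x : E3), tw_shift_mem c hc x⟩)
      (y := ⟨Real.exp c • (y : E3), tw_shift_mem c hc y⟩) (by simp [norm_smul, hxy])
    have h2 : adist ⟨Real.exp c • (x : E3), tw_shift_mem c hc x⟩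
        ⟨Real.exp c • (y : E3), tw_shift_mem c hc y⟩ = adist x y := by
      unfold adist
      simp only [dirS_smul (Om_ne_zero x) (Real.exp_pos c), dirS_smul (Om_ne_zero y) (Real.exp_pos c)]
    rw [h2] at h
    exact h

theorem tw_sh_apply (c : ℝ) (hc : 0 ≤ c) (f : Y) (x : Om) :
    tw_sh c hc f x = f ⟨Real.exp c • (x : E3), tw_shift_mem c hc x⟩ :=
  Y.mk_apply (norm_nonneg f) (tw_sh_adm c hc f) x

theorem tw_sh_norm (c : ℝ) (hc : 0 ≤ c) (f : Y) : ‖tw_sh c hc f‖ ≤ 2 * ‖f‖ :=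
  Y.norm_mk_le (norm_nonneg f) (tw_sh_adm c hc f)

theorem tw_sl_sh (c : ℝ) (hc : 0 ≤ c) (f : Y) (t : ℝ) (ht : 0 ≤ t) :
    sl (tw_sh c hc f) t = sl f (c + t) := by
  ext θ
  rw [tw_sl_apply, tw_sl_apply, tw_sh_apply]
  congr 1
  apply Subtype.ext
  show Real.exp c • (ray t θ : E3) = (ray (c + t) θ : E3)
  rw [tw_ray_coe ht, tw_ray_coe (by linarith), smul_smul, Real.exp_add]

theorem tw_frad_apply (F : Fin 3 → Y) (x : Om) :
    frad F x = ∑ j, (dirS (x : E3) : E3) j * F j x := by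
  unfold frad
  rw [Y.sum_apply]
  exact Finset.sum_congr rfl (fun j _ => by rw [Y.mul_apply, thY_apply])

theorem tw_ftan_apply (F : Fin 3 → Y) (k : Fin 3) (x : Om) :
    ftan F k x = cr (fun a => (dirS (x : E3) : E3) a) (fun a => F a x) k := by
  unfold ftan cr
  rw [Y.sum_apply]
  refine Finset.sum_congr rfl (fun i _ => ?_)
  rw [Y.sum_apply]
  refine Finset.sum_congr rfl (fun j _ => ?_)
  rw [Y.smul_apply, Y.mul_apply, thY_apply]
  rfl

theorem tw_dirS_sh (c : ℝ) (hc : 0 ≤ c) (x : Om) :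
    dirS ((⟨Real.exp c • (x : E3), tw_shift_mem c hc x⟩ : Om) : E3) = dirS (x : E3) :=
  dirS_smul (Om_ne_zero x) (Real.exp_pos c)

theorem tw_frad_sh (c : ℝ) (hc : 0 ≤ c) (F : Fin 3 → Y) :
    frad (fun j => tw_sh c hc (F j)) = tw_sh c hc (frad F) := by
  ext x
  rw [tw_frad_apply, tw_sh_apply, tw_frad_apply, tw_dirS_sh c hc]
  exact Finset.sum_congr rfl (fun j _ => by rw [tw_sh_apply])

theorem tw_ftan_sh (c : ℝ) (hc : 0 ≤ c) (F : Fin 3 → Y) (k : Fin 3) :
    ftan (fun j => tw_sh c hc (F j)) k = tw_sh c hc (ftan F k) := by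
  ext x
  rw [tw_ftan_apply, tw_sh_apply, tw_ftan_apply, tw_dirS_sh c hc]
  simp only [tw_sh_apply]

theorem tw_Jc_sh (c : ℝ) (hc : 0 ≤ c) (F : Fin 3 → Y) :
    Jc (fun j => tw_sh c hc (F j)) 0 = Jc F c := by
  unfold Jc
  refine setIntegral_congr_fun measurableSet_Ioi (fun s hs => ?_)
  have hs' : (0 : ℝ) ≤ s := le_of_lt hs
  simp only [tw_frad_sh, tw_ftan_sh, zero_add, tw_sl_sh c hc _ s hs']

theorem tw_muc_sh (c : ℝ) (hc : 0 ≤ c) (F : Fin 3 → Y) :
    muc (fun j => tw_sh c hc (F j)) 0 = muc F c := by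
  unfold muc
  rw [tw_Jc_sh, tw_frad_sh, tw_sl_sh c hc _ 0 le_rfl, add_zero]

theorem tw_S2_sq (θ : S2) : ∑ j, (θ : E3) j * (θ : E3) j = 1 := by
  have h := norm_S2 θ
  have h2 : ‖(θ : E3)‖ ^ 2 = ∑ j, (θ : E3) j ^ 2 := by
    rw [EuclideanSpace.norm_sq_eq]
    simp
  rw [h, one_pow] at h2
  refine Eq.trans ?_ h2.symm
  exact Finset.sum_congr rfl (fun j _ => by ring)

/-- `μ(c)` is a slice of an element of `Y` -/
theorem tw_muc_eq (c : ℝ) (hc : 0 ≤ c) (F : Fin 3 → Y) :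
    muc F c = sl (frad (TT (fun j => tw_sh c hc (F j)))) 0 := by
  rw [← tw_muc_sh c hc F]
  ext θ
  rw [tw_sl_apply, tw_frad_apply, tw_dirS_ray]
  have h0 : ray 0 θ = toOm θ := by
    apply Subtype.ext
    rw [tw_ray_coe le_rfl, Real.exp_zero, one_smul]
    rfl
  simp only [h0, TT_bdry]
  have : ∀ j, (θ : E3) j * ((θ : E3) j * muc (fun j => tw_sh c hc (F j)) 0 θ) =
      ((θ : E3) j * (θ : E3) j) * muc (fun j => tw_sh c hc (F j)) 0 θ := fun j => by ring
  simp only [this]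
  rw [← Finset.sum_mul, tw_S2_sq, one_mul]

/-- bound for `μ` -/
def tw_A (F : Fin 3 → Y) : ℝ := (∑ j, ‖thY j‖) * (‖TT‖ * (2 * ‖F‖))

theorem tw_A_nonneg (F : Fin 3 → Y) : 0 ≤ tw_A F := by
  unfold tw_A
  positivity

theorem tw_frad_norm (F : Fin 3 → Y) : ‖frad F‖ ≤ (∑ j, ‖thY j‖) * ‖F‖ := by
  unfold frad
  refine (norm_sum_le _ _).trans ?_
  rw [Finset.sum_mul]
  refine Finset.sum_le_sum (fun j _ => ?_)
  exact (norm_mul_le _ _).trans (mul_le_mul_of_nonneg_left (norm_le_pi_norm F j) (norm_nonneg _))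

theorem tw_frad_TT_norm (c : ℝ) (hc : 0 ≤ c) (F : Fin 3 → Y) :
    ‖frad (TT (fun j => tw_sh c hc (F j)))‖ ≤ tw_A F := by
  refine (tw_frad_norm _).trans ?_
  unfold tw_A
  refine mul_le_mul_of_nonneg_left ?_ (by positivity)
  refine (TT.le_opNorm _).trans (mul_le_mul_of_nonneg_left ?_ (norm_nonneg _))
  rw [pi_norm_le_iff_of_nonneg (by positivity)]
  intro j
  refine (tw_sh_norm c hc (F j)).trans ?_
  have := norm_le_pi_norm F j
  linarith

theorem tw_muc_hol (F : Fin 3 → Y) (t : ℝ) (ht : 0 ≤ t) (θ η : S2) :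
    |muc F t θ - muc F t η| ≤ tw_A F * Real.sqrt (dist θ η) := by
  rw [tw_muc_eq t ht F]
  exact (tw_sl_hol _ 0 θ η).trans
    (mul_le_mul_of_nonneg_right (tw_frad_TT_norm t ht F) (Real.sqrt_nonneg _))

theorem tw_muc_norm (F : Fin 3 → Y) (t : ℝ) (ht : 0 ≤ t) : ‖muc F t‖ ≤ tw_A F := by
  rw [tw_muc_eq t ht F]
  exact (tw_sl_norm _ _).trans (tw_frad_TT_norm t ht F)

/-! ### Continuity of `μ` -/

theorem tw_Jc_cont (F : Fin 3 → Y) : Continuous (Jc F) := by
  unfold Jc
  set M : ℝ := ‖frad F‖ + PD.C0 * ‖frad F‖ + ∑ k, PD.C0 * ‖ftan F k‖ with hM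
  have hC := PD.C0_pos
  refine continuous_of_dominated (bound := fun s => M * ((1 + (Real.sqrt s)⁻¹) * Real.exp (-s)))
    (fun t => (tw_Jc_int F t).1) (fun t => ?_) (tw_major.const_mul M) ?_
  · refine (ae_restrict_iff' measurableSet_Ioi).2 (Eventually.of_forall (fun s hs => ?_))
    have hs' : (0 : ℝ) < s := hs
    rw [norm_smul, Real.norm_of_nonneg (Real.exp_pos _).le]
    have e1 : Real.exp (-s) ≤ 1 := Real.exp_le_one_iff.2 (by linarith)
    have e0 := Real.exp_pos (-s)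
    have r0 : 0 ≤ (Real.sqrt s)⁻¹ := by positivity
    have b1 : ‖PD.Po s (sl (frad F) (t + s))‖ ≤ ‖frad F‖ * (1 + (Real.sqrt s)⁻¹) := by
      refine ((PD.po_norm _ _).trans (tw_sl_norm _ _)).trans ?_
      nlinarith [norm_nonneg (frad F)]
    have b2 : ‖PD.La s (sl (frad F) (t + s))‖ ≤
        PD.C0 * ‖frad F‖ * (1 + (Real.sqrt s)⁻¹) := by
      refine (PD.la_hol s _ _ hs' (norm_nonneg _) (tw_sl_hol _ _)).trans ?_
      have : PD.C0 * (1 + (Real.sqrt s)⁻¹) * Real.exp (-s) * ‖frad F‖ ≤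
          PD.C0 * (1 + (Real.sqrt s)⁻¹) * 1 * ‖frad F‖ := by gcongr
      refine this.trans (le_of_eq (by ring))
    have b3 : ∀ k, ‖PD.Dk k s (sl (ftan F k) (t + s))‖ ≤
        PD.C0 * ‖ftan F k‖ * (1 + (Real.sqrt s)⁻¹) := fun k => by
      refine (PD.dk_hol k s _ _ hs' (norm_nonneg _) (tw_sl_hol _ _)).trans ?_
      have : PD.C0 * (1 + (Real.sqrt s)⁻¹) * Real.exp (-s) * ‖ftan F k‖ ≤
          PD.C0 * (1 + (Real.sqrt s)⁻¹) * 1 * ‖ftan F k‖ := by gcongr
      refine this.trans (le_of_eq (by ring))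
    have b4 : ‖PD.Po s (sl (frad F) (t + s)) + PD.La s (sl (frad F) (t + s)) +
        ∑ k, PD.Dk k s (sl (ftan F k) (t + s))‖ ≤ M * (1 + (Real.sqrt s)⁻¹) := by
      refine (norm_add_le _ _).trans ?_
      have b5 : ‖∑ k, PD.Dk k s (sl (ftan F k) (t + s))‖ ≤
          ∑ k, PD.C0 * ‖ftan F k‖ * (1 + (Real.sqrt s)⁻¹) :=
        (norm_sum_le _ _).trans (Finset.sum_le_sum (fun k _ => b3 k))
      rw [← Finset.sum_mul] at b5
      have b6 := norm_add_le (PD.Po s (sl (frad F) (t + s))) (PD.La s (sl (frad F) (t + s)))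
      rw [hM, add_mul, add_mul]
      linarith
    calc Real.exp (-s) * _ ≤ Real.exp (-s) * (M * (1 + (Real.sqrt s)⁻¹)) :=
          mul_le_mul_of_nonneg_left b4 e0.le
      _ = _ := by ring
  · refine (ae_restrict_iff' measurableSet_Ioi).2 (Eventually.of_forall (fun s _ => ?_))
    have hsl : ∀ f : Y, Continuous (fun t => sl f (t + s)) := fun f =>
      (tw_sl_continuous f).comp (continuous_id.add continuous_const)
    have hsum : Continuous (fun t => ∑ k, PD.Dk k s (sl (ftan F k) (t + s))) :=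
      continuous_finsetSum _ (fun k _ => (PD.Dk k s).continuous.comp (hsl _))
    have hall : Continuous (fun t => PD.Po s (sl (frad F) (t + s)) +
        PD.La s (sl (frad F) (t + s)) + ∑ k, PD.Dk k s (sl (ftan F k) (t + s))) :=
      (((PD.Po s).continuous.comp (hsl _)).add ((PD.La s).continuous.comp (hsl _))).add hsum
    exact hall.const_smul (Real.exp (-s))

theorem tw_muc_cont (F : Fin 3 → Y) : Continuous (muc F) := by
  unfold muc
  exact (tw_Jc_cont F).sub (tw_sl_continuous _)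

/-! ### `ν`, `Λν` and `L_k ν` -/

/-- `ν(t) = ∫_0^t P(s) μ(t-s) ds` for a general curve `μ` -/
def tw_N (μ : ℝ → C(S2, ℝ)) (t : ℝ) : C(S2, ℝ) := ∫ s in (0 : ℝ)..t, PD.Po (t - s) (μ s)

theorem tw_N_eq (μ : ℝ → C(S2, ℝ)) (t : ℝ) :
    tw_N μ t = ∫ s in (0 : ℝ)..t, PD.Po s (μ (t - s)) := by
  unfold tw_N
  have h := intervalIntegral.integral_comp_sub_left (a := 0) (b := t)
    (fun s => PD.Po s (μ (t - s))) t
  simp only [sub_sub_cancel, sub_self, sub_zero] at h
  exact h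

theorem tw_nuc_eq (F : Fin 3 → Y) (t : ℝ) : nuc F t = tw_N (muc F) t := (tw_N_eq _ _).symm

theorem tw_po_cts {μ : ℝ → C(S2, ℝ)} (hμ : Continuous μ) :
    Continuous (fun q : ℝ × ℝ => PD.Po q.1 (μ q.2)) :=
  tw_po_cont2.comp (continuous_fst.prodMk (hμ.comp continuous_snd))

theorem tw_ii_la (F : Fin 3 → Y) (t : ℝ) (ht : 0 ≤ t) :
    IntervalIntegrable (fun s => PD.La s (muc F (t - s))) volume 0 t := by
  rw [intervalIntegrable_iff_integrableOn_Ioc_of_le ht]
  refine tw_intOn_la measurableSet_Ioc (fun s hs => hs.1)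
    ((tw_muc_cont F).comp (continuous_const.sub continuous_id)).continuousOn (tw_A_nonneg F)
    (fun s hs θ η => tw_muc_hol F (t - s) (by linarith [hs.2]) θ η)

theorem tw_ii_dk (k : Fin 3) (F : Fin 3 → Y) (t : ℝ) (ht : 0 ≤ t) :
    IntervalIntegrable (fun s => PD.Dk k s (muc F (t - s))) volume 0 t := by
  rw [intervalIntegrable_iff_integrableOn_Ioc_of_le ht]
  refine tw_intOn_dk k measurableSet_Ioc (fun s hs => hs.1)
    ((tw_muc_cont F).comp (continuous_const.sub continuous_id)).continuousOn (tw_A_nonneg F)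
    (fun s hs θ η => tw_muc_hol F (t - s) (by linarith [hs.2]) θ η)

theorem tw_ii_po {μ : ℝ → C(S2, ℝ)} (hμ : Continuous μ) (t a b : ℝ) :
    IntervalIntegrable (fun s => PD.Po s (μ (t - s))) volume a b :=
  ((tw_po_cts hμ).comp (continuous_id.prodMk
    (continuous_const.sub continuous_id))).intervalIntegrable _ _

theorem tw_po_lac (F : Fin 3 → Y) (t ε : ℝ) (ht : 0 ≤ t) (hε : 0 < ε) :
    PD.Po ε (lac F t) = PD.La ε (nuc F t) := by
  unfold lac nuc
  rw [← ContinuousLinearMap.intervalIntegral_comp_comm _ (tw_ii_la F t ht),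
    ← ContinuousLinearMap.intervalIntegral_comp_comm _ (tw_ii_po (tw_muc_cont F) t 0 t)]
  refine intervalIntegral.integral_congr_ae (Eventually.of_forall (fun s hs => ?_))
  rw [uIoc_of_le ht] at hs
  exact tw_po_la ε s hε hs.1 _

theorem tw_po_lnc (k : Fin 3) (F : Fin 3 → Y) (t ε : ℝ) (ht : 0 ≤ t) (hε : 0 < ε) :
    PD.Po ε (lnc F k t) = PD.Dk k ε (nuc F t) := by
  unfold lnc nuc
  rw [← ContinuousLinearMap.intervalIntegral_comp_comm _ (tw_ii_dk k F t ht),
    ← ContinuousLinearMap.intervalIntegral_comp_comm _ (tw_ii_po (tw_muc_cont F) t 0 t)]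
  refine intervalIntegral.integral_congr_ae (Eventually.of_forall (fun s hs => ?_))
  rw [uIoc_of_le ht] at hs
  exact tw_po_dk k ε s hε hs.1 _

/-! ### Derivative of mild solutions -/

section mild

variable {μ : ℝ → C(S2, ℝ)}

theorem tw_ii_po' (hμ : Continuous μ) (u a b : ℝ) :
    IntervalIntegrable (fun s => PD.Po (u - s) (μ s)) volume a b :=
  ((tw_po_cts hμ).comp ((continuous_const.sub continuous_id).prodMk
    continuous_id)).intervalIntegrable _ _

theorem tw_mild_Q (hμ : Continuous μ) (δ t : ℝ) :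
    HasDerivAt (fun u => ∫ s in t..u, PD.Po (u - s + δ) (μ s)) (PD.Po δ (μ t)) t := by
  rw [hasDerivAt_iff_isLittleO]
  rw [Asymptotics.isLittleO_iff]
  intro c hc
  have hcont : Continuous (fun q : ℝ × ℝ => PD.Po (q.1 - q.2 + δ) (μ q.2)) :=
    tw_po_cont2.comp (((continuous_fst.sub continuous_snd).add continuous_const).prodMk
      (hμ.comp continuous_snd))
  have h1 : ∀ᶠ q : ℝ × ℝ in 𝓝 (t, t), ‖PD.Po (q.1 - q.2 + δ) (μ q.2) - PD.Po δ (μ t)‖ < c := by
    have h2 := (hcont.sub continuous_const).norm.tendsto (t, t) (f := fun q : ℝ × ℝ =>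
      ‖PD.Po (q.1 - q.2 + δ) (μ q.2) - PD.Po δ (μ t)‖)
    simp only [sub_self, zero_add, norm_zero] at h2
    exact h2.eventually (gt_mem_nhds hc)
  rw [Metric.eventually_nhds_iff] at h1
  obtain ⟨r, hr, h1⟩ := h1
  rw [Metric.eventually_nhds_iff]
  refine ⟨r, hr, fun u hu => ?_⟩
  simp only [intervalIntegral.integral_same, sub_zero]
  have hii : IntervalIntegrable (fun s => PD.Po (u - s + δ) (μ s)) volume t u :=
    (hcont.comp (continuous_const.prodMk continuous_id)).intervalIntegrable _ _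
  have e1 : (∫ s in t..u, PD.Po (u - s + δ) (μ s)) - (u - t) • PD.Po δ (μ t) =
      ∫ s in t..u, (PD.Po (u - s + δ) (μ s) - PD.Po δ (μ t)) := by
    rw [intervalIntegral.integral_sub hii (by simp), intervalIntegral.integral_const]
  rw [e1]
  refine (intervalIntegral.norm_integral_le_of_norm_le_const (C := c) (fun s hs => ?_)).trans
    (le_of_eq (by rw [Real.norm_eq_abs]))
  refine (h1 (y := (u, s)) ?_).le
  rw [Prod.dist_eq]
  refine max_lt hu ?_
  have hs' := uIoc_subset_uIcc hs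
  have := abs_sub_left_of_mem_uIcc hs'
  rw [Real.dist_eq] at hu ⊢
  exact lt_of_le_of_lt this hu

theorem tw_mild (hμ : Continuous μ) (δ t : ℝ) (hδ : 0 < δ) (ht : 0 < t) :
    HasDerivAt (fun u => PD.Po δ (tw_N μ u)) (PD.Po δ (μ t) - PD.La δ (tw_N μ t)) t := by
  have hQ := tw_mild_Q hμ δ t
  have hP : HasDerivAt (fun u => PD.Po (u - t + δ) (tw_N μ t)) (-(PD.La δ (tw_N μ t))) t := by
    have h1 := PD.po_deriv (t - t + δ) (tw_N μ t) (by simpa using hδ)
    have h2 : HasDerivAt (fun u : ℝ => u - t + δ) 1 t :=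
      ((hasDerivAt_id t).sub_const t).add_const δ
    have h3 := HasDerivAt.scomp (h := fun u : ℝ => u - t + δ)
      (g₁ := fun τ => PD.Po τ (tw_N μ t)) t h1 h2
    simpa [Function.comp_def] using h3
  have hsum := hP.add hQ
  have hfin : HasDerivAt (fun u => PD.Po (u - t + δ) (tw_N μ t) +
      ∫ s in t..u, PD.Po (u - s + δ) (μ s)) (PD.Po δ (μ t) - PD.La δ (tw_N μ t)) t := by
    refine HasDerivAt.congr_deriv hsum ?_
    abel
  refine hfin.congr_of_eventuallyEq ?_
  have h0 : ∀ᶠ u in 𝓝 t, 0 < u ∧ t - δ < u :=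
    (lt_mem_nhds ht).and (lt_mem_nhds (by linarith))
  filter_upwards [h0] with u hu
  unfold tw_N
  rw [← ContinuousLinearMap.intervalIntegral_comp_comm _ (tw_ii_po' hμ u 0 u),
    ← ContinuousLinearMap.intervalIntegral_comp_comm _ (tw_ii_po' hμ t 0 t)]
  have e1 : ∫ s in (0 : ℝ)..u, PD.Po δ (PD.Po (u - s) (μ s)) =
      ∫ s in (0 : ℝ)..u, PD.Po (u - s + δ) (μ s) := by
    refine intervalIntegral.integral_congr (fun s hs => ?_)
    rw [uIcc_of_le hu.1.le] at hs
    have := PD.po_add δ (u - s) hδ.le (by linarith [hs.2])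
    rw [add_comm (u - s) δ, this]
    rfl
  have e2 : ∫ s in (0 : ℝ)..t, PD.Po (u - t + δ) (PD.Po (t - s) (μ s)) =
      ∫ s in (0 : ℝ)..t, PD.Po (u - s + δ) (μ s) := by
    refine intervalIntegral.integral_congr (fun s hs => ?_)
    rw [uIcc_of_le ht.le] at hs
    have := PD.po_add (u - t + δ) (t - s) (by linarith [hu.2]) (by linarith [hs.2])
    have e3 : u - s + δ = u - t + δ + (t - s) := by ring
    simp only [e3, this]
    rfl
  rw [e1, e2]
  have hint : ∀ a b, IntervalIntegrable (fun s => PD.Po (u - s + δ) (μ s)) volume a b := fun a b =>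
    (tw_po_cont2.comp (((continuous_const.sub continuous_id).add continuous_const).prodMk
      hμ)).intervalIntegrable _ _
  exact (intervalIntegral.integral_add_adjacent_intervals (hint 0 t) (hint t u)).symm

/-- backward Duhamel formula -/
theorem tw_U_split (f : Y) (T τ : ℝ) (hτ : 0 ≤ τ) :
    tw_U f (T - τ) = Real.exp (-τ) • (PD.Po τ (tw_U f T) +
      tw_N (fun s => Real.exp s • sl f (T - s)) τ) := by
  have hG := tw_int_po f (T - τ)
  have hGτ : IntegrableOn (fun s => Real.exp (-s) • PD.Po s (sl f (T - τ + s))) (Ioi τ) :=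
    hG.mono_set (Ioi_subset_Ioi hτ)
  have hsplit := intervalIntegral.integral_interval_add_Ioi hG hGτ
  have e1 : tw_U f (T - τ) = ∫ s in Ioi (0 : ℝ), Real.exp (-s) • PD.Po s (sl f (T - τ + s)) := rfl
  rw [e1, ← hsplit, smul_add, add_comm]
  congr 1
  · have h1 := (measurePreserving_add_right (volume : Measure ℝ) τ).setIntegral_preimage_emb
      (measurableEmbedding_addRight τ)
      (fun s => Real.exp (-s) • PD.Po s (sl f (T - τ + s))) (Ioi τ)
    have h2 : (fun s : ℝ => s + τ) ⁻¹' Ioi τ = Ioi 0 := by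
      ext s
      simp
    rw [h2] at h1
    rw [← h1]
    have h3 : Real.exp (-τ) • PD.Po τ (tw_U f T) =
        (Real.exp (-τ) • PD.Po τ) (∫ s in Ioi (0 : ℝ), Real.exp (-s) • PD.Po s (sl f (T + s))) := rfl
    rw [h3, ← ContinuousLinearMap.integral_comp_comm _ (tw_int_po f T)]
    refine setIntegral_congr_fun measurableSet_Ioi (fun s hs => ?_)
    have hs' : (0 : ℝ) < s := hs
    have h4 := PD.po_add τ s hτ hs'.le
    have h5 : T - τ + (s + τ) = T + s := by ring
    simp only [h5, smul_apply, map_smul, smul_smul]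
    rw [add_comm s τ, h4, neg_add, Real.exp_add, mul_comm (Real.exp (-τ))]
    rfl
  · rw [tw_N_eq]
    have hc : Continuous (fun s => Real.exp s • sl f (T - s)) := by
      have h1 : Continuous (fun s => sl f (T - s)) :=
        (tw_sl_continuous f).comp (continuous_const.sub continuous_id)
      exact Real.continuous_exp.smul h1
    rw [← intervalIntegral.integral_smul]
    refine intervalIntegral.integral_congr (fun s hs => ?_)
    have h5 : T - (τ - s) = T - τ + s := by ring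
    simp only [h5, map_smul, smul_smul]
    rw [← Real.exp_add]
    congr 2
    ring

theorem tw_U_deriv (f : Y) (δ t : ℝ) (hδ : 0 < δ) :
    HasDerivAt (fun u => PD.Po δ (tw_U f u))
      (PD.Po δ (tw_U f t) + PD.La δ (tw_U f t) - PD.Po δ (sl f t)) t := by
  set T : ℝ := t + 1 with hT
  set m : ℝ → C(S2, ℝ) := fun s => Real.exp s • sl f (T - s) with hm
  have hmc : Continuous m := by
    have h1 : Continuous (fun s => sl f (T - s)) :=
      (tw_sl_continuous f).comp (continuous_const.sub continuous_id)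
    exact Real.continuous_exp.smul h1
  have hN := tw_mild hmc δ 1 hδ one_pos
  have hP : HasDerivAt (fun τ => PD.Po (τ + δ) (tw_U f T)) (-(PD.La (1 + δ) (tw_U f T))) 1 := by
    have h1 := PD.po_deriv (1 + δ) (tw_U f T) (by linarith)
    have h2 : HasDerivAt (fun u : ℝ => u + δ) 1 1 := (hasDerivAt_id (1 : ℝ)).add_const δ
    have h3 := HasDerivAt.scomp (h := fun u : ℝ => u + δ)
      (g₁ := fun τ => PD.Po τ (tw_U f T)) 1 h1 h2
    simpa [Function.comp_def] using h3
  have hexp : HasDerivAt (fun τ : ℝ => Real.exp (-τ)) (-Real.exp (-1)) 1 := by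
    have := (hasDerivAt_neg (1 : ℝ)).exp
    simpa using this
  have hg := hexp.smul (hP.add hN)
  have hU1 : tw_U f t = Real.exp (-1) • (PD.Po 1 (tw_U f T) + tw_N m 1) := by
    have := tw_U_split f T 1 zero_le_one
    rw [hT, add_sub_cancel_right] at this
    exact this
  have hg2 : HasDerivAt (fun τ => Real.exp (-τ) • (PD.Po (τ + δ) (tw_U f T) + PD.Po δ (tw_N m τ)))
      (-(PD.Po δ (tw_U f t) + PD.La δ (tw_U f t) - PD.Po δ (sl f t))) (T - t) := by
    have e0 : T - t = 1 := by rw [hT]; ring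
    rw [e0]
    refine HasDerivAt.congr_deriv hg ?_
    have e1 : PD.La (1 + δ) (tw_U f T) = PD.La δ (PD.Po 1 (tw_U f T)) := by
      rw [add_comm, PD.la_add δ 1 hδ zero_le_one]; rfl
    have e2 : PD.Po (1 + δ) (tw_U f T) = PD.Po δ (PD.Po 1 (tw_U f T)) := by
      rw [add_comm, PD.po_add δ 1 hδ.le zero_le_one]; rfl
    have e3 : PD.Po δ (m 1) = Real.exp 1 • PD.Po δ (sl f t) := by
      simp only [hm, map_smul]
      rw [hT, add_sub_cancel_right]
    have e4 : Real.exp (-1) * Real.exp 1 = 1 := by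
      rw [← Real.exp_add]; simp
    simp only [Pi.add_apply]
    rw [e1, e2, e3, hU1]
    simp only [map_smul, map_add, smul_add, smul_sub, smul_smul, e4, one_smul, neg_smul, smul_neg]
    abel
  have hlin : HasDerivAt (fun u : ℝ => T - u) (-1) t := by
    simpa using (hasDerivAt_id t).const_sub T
  have h3 := HasDerivAt.scomp (h := fun u : ℝ => T - u) t hg2 hlin
  simp only [neg_smul, one_smul, neg_neg] at h3
  refine h3.congr_of_eventuallyEq ?_
  have h0 : ∀ᶠ u in 𝓝 t, u < T := gt_mem_nhds (by rw [hT]; linarith)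
  filter_upwards [h0] with u hu
  have hs := tw_U_split f T (T - u) (by linarith)
  rw [sub_sub_cancel] at hs
  simp only [Function.comp_def]
  rw [hs, map_smul, map_add]
  congr 2
  rw [add_comm, PD.po_add δ (T - u) hδ.le (by linarith)]
  rfl

end mild

/-! ### The equation, regularised -/

theorem tw_comm (k : Fin 3) (σ τ : ℝ) (hσ : 0 < σ) (hτ : 0 < τ) (x : C(S2, ℝ)) :
    PD.Dk k σ (PD.La τ x) = PD.La τ (PD.Dk k σ x) := by
  have h1 : HasDerivAt (fun u => PD.Dk k σ (PD.Po u x)) (PD.Dk k σ (-(PD.La τ x))) τ :=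
    (PD.Dk k σ).hasFDerivAt.comp_hasDerivAt τ (PD.po_deriv τ x hτ)
  have h2 : HasDerivAt (fun u => PD.Po u (PD.Dk k σ x)) (-(PD.La τ (PD.Dk k σ x))) τ :=
    PD.po_deriv τ (PD.Dk k σ x) hτ
  have h3 : HasDerivAt (fun u => PD.Dk k σ (PD.Po u x)) (-(PD.La τ (PD.Dk k σ x))) τ := by
    refine h2.congr_of_eventuallyEq ?_
    filter_upwards [lt_mem_nhds hτ] with u hu
    have h4 := PD.dk_add' k σ u hσ hu.le
    have h5 := PD.dk_add k σ u hσ hu.le
    rw [h4] at h5
    exact congrArg (fun L => L x) h5.symm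
  have h4 := h1.unique h3
  rw [map_neg, neg_inj] at h4
  exact h4

/-- `T F + F` -/
def tw_V (F : Fin 3 → Y) : Fin 3 → Y := TT F + F

theorem tw_cr_perp (a b : Fin 3 → ℝ) : ∑ j, a j * cr a b j = 0 := by
  simp only [cr, Fin.sum_univ_three, eps]
  simp
  ring

theorem tw_p_eq (F : Fin 3 → Y) (t : ℝ) (ht : 0 ≤ t) :
    sl (frad (tw_V F)) t = Jc F t - lac F t - nuc F t := by
  ext θ
  rw [tw_sl_apply, tw_frad_apply, tw_dirS_ray]
  have h1 : ∀ j, tw_V F j (ray t θ) = (θ : E3) j * (muc F t θ - lac F t θ - nuc F t θ) -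
        cr (fun a => (θ : E3) a) (fun a => lnc F a t θ) j + F j (ray t θ) := fun j => by
    rw [← (TT_spec F t θ ht).2 j]; rfl
  simp only [h1]
  have h2 : ∑ j, (θ : E3) j * ((θ : E3) j * (muc F t θ - lac F t θ - nuc F t θ) -
        cr (fun a => (θ : E3) a) (fun a => lnc F a t θ) j + F j (ray t θ)) =
      (∑ j, (θ : E3) j * (θ : E3) j) * (muc F t θ - lac F t θ - nuc F t θ) -
      (∑ j, (θ : E3) j * cr (fun a => (θ : E3) a) (fun a => lnc F a t θ) j) +
      ∑ j, (θ : E3) j * F j (ray t θ) := by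
    simp only [Fin.sum_univ_three]
    ring
  rw [h2, tw_S2_sq, tw_cr_perp (fun a => (θ : E3) a) (fun a => lnc F a t θ)]
  have h3 : muc F t θ = Jc F t θ - frad F (ray t θ) := rfl
  rw [h3, tw_frad_apply, tw_dirS_ray]
  simp only [ContinuousMap.sub_apply]
  ring

theorem tw_lnc_perp (F : Fin 3 → Y) (t : ℝ) (ht : 0 ≤ t) (θ : S2) :
    ∑ k, lnc F k t θ * (θ : E3) k = 0 := by
  have h1 : ∀ k, lnc F k t θ = ∫ s in (0 : ℝ)..t, PD.Dk k s (muc F (t - s)) θ := fun k => by
    have h := ContinuousLinearMap.intervalIntegral_comp_comm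
      (ContinuousMap.evalCLM (M := ℝ) ℝ θ) (tw_ii_dk k F t ht)
    exact h.symm
  have hi : ∀ k, IntervalIntegrable (fun s => PD.Dk k s (muc F (t - s)) θ) volume 0 t := fun k => by
    have h0 := tw_ii_dk k F t ht
    rw [intervalIntegrable_iff] at h0 ⊢
    exact (ContinuousMap.evalCLM (M := ℝ) ℝ θ).integrable_comp h0
  simp only [h1]
  simp only [← intervalIntegral.integral_mul_const]
  rw [← intervalIntegral.integral_finsetSum (fun k _ => (hi k).mul_const _)]
  rw [intervalIntegral.integral_congr_ae (g := fun _ => 0), intervalIntegral.integral_zero]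
  refine Eventually.of_forall (fun s hs => ?_)
  rw [uIoc_of_le ht] at hs
  exact PD.dk_perp s _ θ hs.1

theorem tw_cr_cr (a b : Fin 3 → ℝ) (c : ℝ) (f : Fin 3 → ℝ) (h1 : ∑ j, a j * a j = 1)
    (h2 : ∑ j, b j * a j = 0) (k : Fin 3) :
    cr a (fun j => a j * c - cr a b j + f j) k = b k + cr a f k := by
  simp only [Fin.sum_univ_three] at h1 h2
  fin_cases k
  · simp [cr, Fin.sum_univ_three, eps]
    linear_combination (b 0) * h1 - (a 0) * h2
  · simp [cr, Fin.sum_univ_three, eps]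
    linear_combination (b 1) * h1 - (a 1) * h2
  · simp [cr, Fin.sum_univ_three, eps]
    linear_combination (b 2) * h1 - (a 2) * h2

theorem tw_q_eq (F : Fin 3 → Y) (k : Fin 3) (t : ℝ) (ht : 0 ≤ t) :
    sl (ftan (tw_V F) k) t = lnc F k t + sl (ftan F k) t := by
  ext θ
  rw [tw_sl_apply, tw_ftan_apply, tw_dirS_ray]
  have h1 : ∀ j, tw_V F j (ray t θ) = (θ : E3) j * (muc F t θ - lac F t θ - nuc F t θ) -
        cr (fun a => (θ : E3) a) (fun a => lnc F a t θ) j + F j (ray t θ) := fun j => by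
    rw [← (TT_spec F t θ ht).2 j]; rfl
  simp only [h1]
  rw [tw_cr_cr (fun a => (θ : E3) a) (fun a => lnc F a t θ) _ (fun j => F j (ray t θ))
    (tw_S2_sq θ) (tw_lnc_perp F t ht θ) k]
  show _ = lnc F k t θ + ftan F k (ray t θ)
  rw [tw_ftan_apply, tw_dirS_ray]

/-- the regularised equation -/
theorem tw_eqn (F : Fin 3 → Y) (ε t : ℝ) (hε : 0 < ε) (ht : 0 < t) :
    HasDerivAt (fun u => PD.Po ε (sl (frad (tw_V F)) u))
      (-∑ k, PD.Dk k ε (sl (ftan (tw_V F) k) t)) t := by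
  have hδ : 0 < ε / 2 := by positivity
  set δ := ε / 2 with hδdef
  have hε2 : ε = δ + δ := by rw [hδdef]; ring
  have laε : ∀ x, PD.La ε x = PD.La δ (PD.Po δ x) := fun x => by
    rw [hε2, PD.la_add δ δ hδ hδ.le]; rfl
  have dkε : ∀ k x, PD.Dk k ε x = PD.Dk k δ (PD.Po δ x) := fun k x => by
    rw [hε2, PD.dk_add k δ δ hδ hδ.le]; rfl
  set f := frad F with hf
  set g := ftan F with hg
  -- the derivatives
  have d1 := tw_U_deriv f ε t hε
  have d2 : HasDerivAt (fun u => PD.La ε (tw_U f u))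
      (PD.La δ (PD.Po δ (tw_U f t) + PD.La δ (tw_U f t) - PD.Po δ (sl f t))) t := by
    have h := (PD.La δ).hasFDerivAt.comp_hasDerivAt t (tw_U_deriv f δ t hδ)
    refine h.congr_of_eventuallyEq (Eventually.of_forall (fun u => ?_))
    exact laε _
  have d3 : ∀ k, HasDerivAt (fun u => PD.Dk k ε (tw_U (g k) u))
      (PD.Dk k δ (PD.Po δ (tw_U (g k) t) + PD.La δ (tw_U (g k) t) - PD.Po δ (sl (g k) t))) t :=
    fun k => by
    have h := (PD.Dk k δ).hasFDerivAt.comp_hasDerivAt t (tw_U_deriv (g k) δ t hδ)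
    refine h.congr_of_eventuallyEq (Eventually.of_forall (fun u => ?_))
    exact dkε k _
  have d4 := tw_mild (tw_muc_cont F) ε t hε ht
  have d5 : HasDerivAt (fun u => PD.La ε (tw_N (muc F) u))
      (PD.La δ (PD.Po δ (muc F t) - PD.La δ (tw_N (muc F) t))) t := by
    have h := (PD.La δ).hasFDerivAt.comp_hasDerivAt t (tw_mild (tw_muc_cont F) δ t hδ ht)
    refine h.congr_of_eventuallyEq (Eventually.of_forall (fun u => ?_))
    exact laε _
  have d3' : HasDerivAt (fun u => ∑ k, PD.Dk k ε (tw_U (g k) u))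
      (∑ k, PD.Dk k δ (PD.Po δ (tw_U (g k) t) + PD.La δ (tw_U (g k) t) - PD.Po δ (sl (g k) t))) t :=
    HasDerivAt.fun_sum (fun k _ => d3 k)
  have dall := (((d1.add d2).add d3').sub d5).sub d4
  have hfun : ∀ᶠ u in 𝓝 t, PD.Po ε (sl (frad (tw_V F)) u) = ((((fun u => PD.Po ε (tw_U f u)) +
      fun u => PD.La ε (tw_U f u)) + fun u => ∑ k, PD.Dk k ε (tw_U (g k) u)) -
      (fun u => PD.La ε (tw_N (muc F) u)) - fun u => PD.Po ε (tw_N (muc F) u)) u := by
    filter_upwards [lt_mem_nhds ht] with u hu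
    rw [tw_p_eq F u hu.le, map_sub, map_sub, tw_po_Jc F u ε hε, tw_po_lac F u ε hu.le hε,
      tw_nuc_eq]
    rfl
  refine HasDerivAt.congr_of_eventuallyEq ?_ hfun
  refine dall.congr_deriv ?_
  -- algebra
  have hmu : ∀ τ, PD.Po τ (muc F t) = PD.Po τ (Jc F t) - PD.Po τ (sl f t) := fun τ => by
    rw [← map_sub]; rfl
  have hq : ∀ k, PD.Dk k ε (sl (ftan (tw_V F) k) t) =
      PD.Dk k δ (PD.Dk k δ (tw_N (muc F) t)) + PD.Dk k ε (sl (g k) t) := fun k => by
    rw [tw_q_eq F k t ht.le, map_add, dkε k (lnc F k t), tw_po_lnc k F t δ ht.le hδ, tw_nuc_eq]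
  have hlap := PD.lap δ δ (tw_N (muc F) t) hδ hδ
  rw [← hε2] at hlap
  rw [hmu, hmu, tw_po_Jc F t ε hε, tw_po_Jc F t δ hδ]
  simp only [hq, Finset.sum_add_distrib, hlap]
  simp only [map_add, map_sub, map_sum, ← laε, ← dkε, ← tw_comm _ δ δ hδ hδ,
    Finset.sum_add_distrib, Finset.sum_sub_distrib]
  abel

end

end Pool.Agent.BS
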