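import Pool.Agent.BS.Poi
import Pool.Agent.BS.El

namespace Pool.Agent.BS

open MeasureTheory Topology Set Filter
open scoped ContDiff

noncomputable section

abbrev CS : Type := C(S2, ℝ)

/-- `g` is bounded by `A` and 1/2-Hoelder with constant `A` -/
structure mxH (A : ℝ) (g : CS) : Prop where
  bd : ‖g‖ ≤ A
  hol : ∀ θ η, |g θ - g η| ≤ A * Real.sqrt (dist θ η)

/-- curves -/
structure mxC (B : ℝ) (u : ℝ → CS) : Prop where
  cont : ContinuousOn u (Ici 0)
  h : ∀ t, 0 ≤ t → mxH B (u t)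

/-- kernel operators -/
structure mxK (C : ℝ) (K : ℝ → (CS →L[ℝ] CS)) : Prop where
  C_pos : 0 ≤ C
  cont : ∀ g : ℝ → CS, ContinuousOn g (Ioi 0) → ContinuousOn (fun s => K s (g s)) (Ioi 0)
  sup : ∀ s A g, 0 < s → mxH A g → ‖K s g‖ ≤ C * (1 + (Real.sqrt s)⁻¹) * A
  lip : ∀ s A g θ η, 0 < s → mxH A g → |K s g θ - K s g η| ≤ C * (s * Real.sqrt s)⁻¹ * dist θ η * A

theorem dist_S2_le (θ η : S2) : dist θ η ≤ 2 := by
  rw [Subtype.dist_eq, dist_eq_norm]
  calc ‖(θ : E3) - η‖ ≤ ‖(θ : E3)‖ + ‖(η : E3)‖ := norm_sub_le _ _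
    _ = 2 := by rw [norm_S2, norm_S2]; norm_num

theorem mxH.nonneg {A : ℝ} {g : CS} (h : mxH A g) : 0 ≤ A := (norm_nonneg _).trans h.bd

theorem mx_cont_of (K : ℝ → (CS →L[ℝ] CS)) (M : ℝ → ℝ) (hM : ContinuousOn M (Ioi 0))
    (hb : ∀ s f, 0 < s → ‖K s f‖ ≤ M s * ‖f‖) (hc : ∀ f, ContinuousOn (fun s => K s f) (Ioi 0))
    (g : ℝ → CS) (hg : ContinuousOn g (Ioi 0)) : ContinuousOn (fun s => K s (g s)) (Ioi 0) := by
  intro s₀ hs₀
  have h1 : Tendsto (fun s => K s (g s₀)) (𝓝[Ioi 0] s₀) (𝓝 (K s₀ (g s₀))) := hc (g s₀) s₀ hs₀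
  have h2 : Tendsto (fun s => M s * ‖g s - g s₀‖) (𝓝[Ioi 0] s₀) (𝓝 (M s₀ * ‖g s₀ - g s₀‖)) :=
    (hM s₀ hs₀).mul ((hg s₀ hs₀).sub tendsto_const_nhds).norm
  rw [sub_self, norm_zero, mul_zero] at h2
  have h3 : Tendsto (fun s => K s (g s - g s₀)) (𝓝[Ioi 0] s₀) (𝓝 0) := by
    refine squeeze_zero_norm' ?_ h2
    filter_upwards [self_mem_nhdsWithin] with s hs
    exact hb s _ hs
  have h4 := h3.add h1
  rw [zero_add] at h4
  refine h4.congr (fun s => ?_)
  rw [← map_add, sub_add_cancel]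

theorem sqrt_fact (s : ℝ) (hs : 0 < s) :
    (1 + s⁻¹) * Real.exp (-s) ≤ 4 * (s * Real.sqrt s)⁻¹ := by
  have h1 : 0 < Real.sqrt s := Real.sqrt_pos.2 hs
  have h2 : Real.sqrt s * Real.sqrt s = s := Real.mul_self_sqrt hs.le
  have h3 : s + 1 ≤ Real.exp s := Real.add_one_le_exp s
  have h4 : s / 2 + 1 ≤ Real.exp (s / 2) := Real.add_one_le_exp _
  have h5 : Real.exp s = Real.exp (s / 2) * Real.exp (s / 2) := by rw [← Real.exp_add]; ring_nf
  have h6 : Real.sqrt s ≤ Real.exp (s / 2) := by nlinarith [sq_nonneg (Real.sqrt s - 1)]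
  have h7 : (s + 1) * Real.sqrt s ≤ 4 * Real.exp s := by
    rw [h5]
    have : s + 1 ≤ 2 * Real.exp (s / 2) := by linarith
    nlinarith [Real.exp_pos (s / 2)]
  rw [Real.exp_neg]
  have he : 0 < Real.exp s := Real.exp_pos s
  rw [show (1 + s⁻¹) * (Real.exp s)⁻¹ = ((s + 1) * Real.sqrt s) / Real.exp s * (s * Real.sqrt s)⁻¹ by
    field_simp]
  refine mul_le_mul_of_nonneg_right ?_ (by positivity)
  rw [div_le_iff₀ he]
  exact h7

theorem sqrt_fact2 (s : ℝ) (hs : 0 < s) :
    (1 + (s / 2)⁻¹) * Real.exp (-(s / 2)) * ((1 + (Real.sqrt (s / 2))⁻¹) * Real.exp (-(s / 2))) ≤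
      4 * (s * Real.sqrt s)⁻¹ := by
  have h1 : 0 < Real.sqrt s := Real.sqrt_pos.2 hs
  have h2 : Real.sqrt s * Real.sqrt s = s := Real.mul_self_sqrt hs.le
  have h4 : s / 2 + 1 ≤ Real.exp (s / 2) := Real.add_one_le_exp _
  have hq : Real.sqrt (s / 2) = Real.sqrt s / Real.sqrt 2 := Real.sqrt_div hs.le 2
  have h8 : (Real.sqrt (s / 2))⁻¹ = Real.sqrt 2 * (Real.sqrt s)⁻¹ := by
    rw [hq, inv_div, div_eq_mul_inv]
  have h9 : Real.sqrt 2 ≤ 3 / 2 := by
    rw [show (3 / 2 : ℝ) = Real.sqrt ((3 / 2) ^ 2) by rw [Real.sqrt_sq (by norm_num)]]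
    exact Real.sqrt_le_sqrt (by norm_num)
  have h10 : Real.sqrt s ≤ (s + 1) / 2 := by nlinarith [sq_nonneg (Real.sqrt s - 1)]
  have h11 : (s + 2) * (Real.sqrt s + Real.sqrt 2) ≤
      4 * (Real.exp (s / 2) * Real.exp (s / 2)) := by
    have a1 : s + 2 ≤ 2 * Real.exp (s / 2) := by linarith
    have a2 : Real.sqrt s + Real.sqrt 2 ≤ 2 * Real.exp (s / 2) := by linarith
    have a3 : 0 ≤ Real.sqrt s + Real.sqrt 2 := by positivity
    nlinarith [Real.exp_pos (s / 2)]
  rw [h8, Real.exp_neg]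
  have he : 0 < Real.exp (s / 2) := Real.exp_pos _
  have : (1 + (s / 2)⁻¹) * (Real.exp (s / 2))⁻¹ *
      ((1 + Real.sqrt 2 * (Real.sqrt s)⁻¹) * (Real.exp (s / 2))⁻¹) =
      ((s + 2) * (Real.sqrt s + Real.sqrt 2)) / (Real.exp (s / 2) * Real.exp (s / 2)) *
        (s * Real.sqrt s)⁻¹ := by
    field_simp
  rw [this]
  refine mul_le_mul_of_nonneg_right ?_ (by positivity)
  rw [div_le_iff₀ (by positivity)]
  exact h11

theorem dk_cont (k : Fin 3) (f : CS) : ContinuousOn (fun s => PD.Dk k s f) (Ioi 0) := by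
  intro s₀ hs₀
  have hs₀' : (0 : ℝ) < s₀ := hs₀
  have h1 : ContinuousAt (fun s => PD.Dk k (s₀ / 2) (PD.Po (s - s₀ / 2) f)) s₀ :=
    ((PD.Dk k (s₀ / 2)).continuous.comp ((PD.po_cont f).comp
      (continuous_id.sub continuous_const))).continuousAt
  refine (h1.congr ?_).continuousWithinAt
  filter_upwards [lt_mem_nhds (show s₀ / 2 < s₀ by linarith)] with s hs
  rw [← ContinuousLinearMap.comp_apply, ← PD.dk_add k _ _ (by linarith) (by linarith)]
  congr 2
  ring

theorem la_cont (f : CS) : ContinuousOn (fun s => PD.La s f) (Ioi 0) := by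
  intro s₀ hs₀
  have hs₀' : (0 : ℝ) < s₀ := hs₀
  have h1 : ContinuousAt (fun s => PD.La (s₀ / 2) (PD.Po (s - s₀ / 2) f)) s₀ :=
    ((PD.La (s₀ / 2)).continuous.comp ((PD.po_cont f).comp
      (continuous_id.sub continuous_const))).continuousAt
  refine (h1.congr ?_).continuousWithinAt
  filter_upwards [lt_mem_nhds (show s₀ / 2 < s₀ by linarith)] with s hs
  rw [← ContinuousLinearMap.comp_apply, ← PD.la_add _ _ (by linarith) (by linarith)]
  congr 2
  ring

/-- decay of kernel operators -/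
def mxD (C : ℝ) (K : ℝ → (CS →L[ℝ] CS)) : Prop :=
  ∀ s A g, 0 < s → mxH A g → ‖K s g‖ ≤ C * (1 + (Real.sqrt s)⁻¹) * Real.exp (-s) * A

theorem mx_of (K : ℝ → (CS →L[ℝ] CS)) (hc : ∀ f, ContinuousOn (fun s => K s f) (Ioi 0))
    (hn : ∀ τ f, 0 < τ → ‖K τ f‖ ≤ PD.C0 * (1 + τ⁻¹) * Real.exp (-τ) * ‖f‖)
    (hh : ∀ τ (f : CS) A, 0 < τ → 0 ≤ A → (∀ θ η, |f θ - f η| ≤ A * Real.sqrt (dist θ η)) →
      ‖K τ f‖ ≤ PD.C0 * (1 + (Real.sqrt τ)⁻¹) * Real.exp (-τ) * A)
    (hf : ∀ s, 0 < s → K s = (PD.Po (s / 2)).comp (K (s / 2))) :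
    mxK (PD.C0 + 4 * PD.C0 ^ 2) K ∧ mxD (PD.C0 + 4 * PD.C0 ^ 2) K := by
  have hC := PD.C0_pos
  have hD : mxD (PD.C0 + 4 * PD.C0 ^ 2) K := by
    intro s A g hs hg
    have hA := hg.nonneg
    refine (hh s g A hs hA hg.hol).trans ?_
    have : 0 ≤ (1 + (Real.sqrt s)⁻¹) * Real.exp (-s) * A := by positivity
    nlinarith [sq_nonneg PD.C0]
  refine ⟨⟨by positivity, fun g hg => ?_, fun s A g hs hg => ?_, fun s A g θ η hs hg => ?_⟩, hD⟩
  · refine mx_cont_of K (fun s => PD.C0 * (1 + s⁻¹) * Real.exp (-s)) ?_ (fun s f hs => hn s f hs)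
      hc g hg
    refine ContinuousOn.mul (continuousOn_const.mul (continuousOn_const.add
      (continuousOn_id.inv₀ (fun x hx => ne_of_gt hx)))) (by fun_prop)
  · refine (hD s A g hs hg).trans ?_
    have hA := hg.nonneg
    have h1 : Real.exp (-s) ≤ 1 := Real.exp_le_one_iff.2 (by linarith)
    have h2 : 0 ≤ (PD.C0 + 4 * PD.C0 ^ 2) * (1 + (Real.sqrt s)⁻¹) := by positivity
    calc (PD.C0 + 4 * PD.C0 ^ 2) * (1 + (Real.sqrt s)⁻¹) * Real.exp (-s) * A
        ≤ (PD.C0 + 4 * PD.C0 ^ 2) * (1 + (Real.sqrt s)⁻¹) * 1 * A := by gcongr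
      _ = _ := by ring
  · have hA := hg.nonneg
    have hs2 : 0 < s / 2 := by linarith
    rw [hf s hs]
    have h1 := PD.po_lip (s / 2) (K (s / 2) g) θ η hs2
    have h2 := hh (s / 2) g A hs2 hA hg.hol
    have h3 := sqrt_fact2 s hs
    have hd : 0 ≤ dist θ η := dist_nonneg
    simp only [ContinuousLinearMap.comp_apply]
    refine h1.trans ?_
    calc PD.C0 * (1 + (s / 2)⁻¹) * Real.exp (-(s / 2)) * ‖K (s / 2) g‖ * dist θ η
        ≤ PD.C0 * (1 + (s / 2)⁻¹) * Real.exp (-(s / 2)) *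
          (PD.C0 * (1 + (Real.sqrt (s / 2))⁻¹) * Real.exp (-(s / 2)) * A) * dist θ η := by gcongr
      _ = PD.C0 ^ 2 * ((1 + (s / 2)⁻¹) * Real.exp (-(s / 2)) *
          ((1 + (Real.sqrt (s / 2))⁻¹) * Real.exp (-(s / 2)))) * (dist θ η * A) := by ring
      _ ≤ PD.C0 ^ 2 * (4 * (s * Real.sqrt s)⁻¹) * (dist θ η * A) := by gcongr
      _ ≤ (PD.C0 + 4 * PD.C0 ^ 2) * (s * Real.sqrt s)⁻¹ * dist θ η * A := by
          have : 0 ≤ (s * Real.sqrt s)⁻¹ * (dist θ η * A) := by positivity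
          nlinarith

theorem mx_dk (k : Fin 3) : mxK (PD.C0 + 4 * PD.C0 ^ 2) (PD.Dk k) ∧
    mxD (PD.C0 + 4 * PD.C0 ^ 2) (PD.Dk k) :=
  mx_of _ (dk_cont k) (PD.dk_norm k) (PD.dk_hol k) (fun s hs => by
    rw [← PD.dk_add' k _ _ (by linarith) (by linarith)]; congr 1; ring)

theorem mx_la : mxK (PD.C0 + 4 * PD.C0 ^ 2) PD.La ∧ mxD (PD.C0 + 4 * PD.C0 ^ 2) PD.La :=
  mx_of _ la_cont PD.la_norm PD.la_hol (fun s hs => by
    rw [← PD.la_add' _ _ (by linarith) (by linarith)]; congr 1; ring)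

theorem mx_po : mxK (1 + 4 * PD.C0) PD.Po := by
  have hC := PD.C0_pos
  refine ⟨by positivity, fun g hg => ?_, fun s A g hs hg => ?_, fun s A g θ η hs hg => ?_⟩
  · exact mx_cont_of PD.Po (fun _ => 1) continuousOn_const (fun s f _ => by
      rw [one_mul]; exact PD.po_norm s f) (fun f => (PD.po_cont f).continuousOn) g hg
  · have hA := hg.nonneg
    refine (PD.po_norm s g).trans (hg.bd.trans ?_)
    have h1 : 0 ≤ (Real.sqrt s)⁻¹ := by positivity
    have h2 : 1 ≤ (1 + 4 * PD.C0) * (1 + (Real.sqrt s)⁻¹) := by nlinarith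
    nlinarith
  · have hA := hg.nonneg
    have hd : 0 ≤ dist θ η := dist_nonneg
    have h3 := sqrt_fact s hs
    refine (PD.po_lip s g θ η hs).trans ?_
    calc PD.C0 * (1 + s⁻¹) * Real.exp (-s) * ‖g‖ * dist θ η
        ≤ PD.C0 * (1 + s⁻¹) * Real.exp (-s) * A * dist θ η := by gcongr; exact hg.bd
      _ = PD.C0 * ((1 + s⁻¹) * Real.exp (-s)) * (dist θ η * A) := by ring
      _ ≤ PD.C0 * (4 * (s * Real.sqrt s)⁻¹) * (dist θ η * A) := by gcongr
      _ ≤ (1 + 4 * PD.C0) * (s * Real.sqrt s)⁻¹ * dist θ η * A := by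
          have : 0 ≤ (s * Real.sqrt s)⁻¹ * (dist θ η * A) := by positivity
          nlinarith


theorem mx_I1 (d : ℝ) (hd : 0 ≤ d) : IntegrableOn (fun s => (Real.sqrt s)⁻¹) (Ioc 0 d) ∧
    ∫ s in Ioc 0 d, (Real.sqrt s)⁻¹ = 2 * Real.sqrt d := by
  have e : EqOn (fun s => (Real.sqrt s)⁻¹) (fun s : ℝ => s ^ (-(1 / 2) : ℝ)) (Ioc 0 d) := by
    intro s hs
    simp only
    rw [Real.sqrt_eq_rpow, ← Real.rpow_neg hs.1.le]
  have h1 : IntervalIntegrable (fun s : ℝ => s ^ (-(1 / 2) : ℝ)) volume 0 d :=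
    intervalIntegral.intervalIntegrable_rpow' (by norm_num)
  have h2 : IntegrableOn (fun s : ℝ => s ^ (-(1 / 2) : ℝ)) (Ioc 0 d) := by
    rwa [intervalIntegrable_iff_integrableOn_Ioc_of_le hd] at h1
  refine ⟨h2.congr_fun (fun s hs => (e hs).symm) measurableSet_Ioc, ?_⟩
  rw [setIntegral_congr_fun measurableSet_Ioc e, ← intervalIntegral.integral_of_le hd,
    integral_rpow (Or.inl (by norm_num))]
  rw [show (-(1 / 2) : ℝ) + 1 = 1 / 2 by norm_num, Real.zero_rpow (by norm_num),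
    ← Real.sqrt_eq_rpow]
  ring

theorem mx_I2 (d : ℝ) (hd : 0 < d) : IntegrableOn (fun s => (s * Real.sqrt s)⁻¹) (Ioi d) ∧
    ∫ s in Ioi d, (s * Real.sqrt s)⁻¹ = 2 * (Real.sqrt d)⁻¹ := by
  have e : EqOn (fun s => (s * Real.sqrt s)⁻¹) (fun s : ℝ => s ^ (-(3 / 2) : ℝ)) (Ioi d) := by
    intro s hs
    have hs0 : 0 < s := hd.trans hs
    simp only
    rw [show (-(3 / 2) : ℝ) = -(1 + 1 / 2) by norm_num, Real.rpow_neg hs0.le,
      Real.rpow_add hs0, Real.rpow_one, Real.sqrt_eq_rpow]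
  refine ⟨(integrableOn_Ioi_rpow_of_lt (by norm_num) hd).congr_fun
    (fun s hs => (e hs).symm) measurableSet_Ioi, ?_⟩
  rw [setIntegral_congr_fun measurableSet_Ioi e, integral_Ioi_rpow_of_lt (by norm_num) hd]
  rw [show (-(3 / 2) : ℝ) + 1 = -(1 / 2) by norm_num, Real.rpow_neg hd.le,
    ← Real.sqrt_eq_rpow]
  ring

theorem mx_I3 : IntegrableOn (fun s => (1 + (Real.sqrt s)⁻¹) * Real.exp (-s)) (Ioi 0) := by
  have h1 : IntegrableOn (fun s => (1 + (Real.sqrt s)⁻¹) * Real.exp (-s)) (Ioc 0 1) := by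
    have ha : IntegrableOn (fun s => 1 + (Real.sqrt s)⁻¹) (Ioc 0 1) :=
      (integrableOn_const (by simp)).add (mx_I1 1 zero_le_one).1
    refine Integrable.mono ha ?_ ?_
    · exact (ha.aestronglyMeasurable.mul (by fun_prop))
    · refine (ae_restrict_iff' measurableSet_Ioc).2 (Eventually.of_forall (fun s hs => ?_))
      have h1 : Real.exp (-s) ≤ 1 := Real.exp_le_one_iff.2 (by linarith [hs.1])
      rw [norm_mul]
      refine mul_le_of_le_one_right (norm_nonneg _) ?_
      rw [Real.norm_of_nonneg (Real.exp_pos _).le]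
      exact h1
  have h2 : IntegrableOn (fun s => (1 + (Real.sqrt s)⁻¹) * Real.exp (-s)) (Ioi 1) := by
    have ha : IntegrableOn (fun s => 2 * Real.exp (-s)) (Ioi 1) :=
      (integrableOn_exp_neg_Ioi 1).const_mul 2
    refine Integrable.mono ha ?_ ?_
    · refine ContinuousOn.aestronglyMeasurable ?_ measurableSet_Ioi
      refine ContinuousOn.mul (continuousOn_const.add (ContinuousOn.inv₀
        (Real.continuous_sqrt.continuousOn) (fun x hx => ?_))) (by fun_prop)
      exact (Real.sqrt_pos.2 (lt_trans one_pos hx)).ne'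
    · refine (ae_restrict_iff' measurableSet_Ioi).2 (Eventually.of_forall (fun s hs => ?_))
      have hs1 : (1 : ℝ) < s := hs
      have h3 : 1 ≤ Real.sqrt s := Real.one_le_sqrt.2 hs1.le
      have h4 : (Real.sqrt s)⁻¹ ≤ 1 := inv_le_one_of_one_le₀ h3
      have h5 : 0 ≤ (Real.sqrt s)⁻¹ := by positivity
      rw [norm_mul, norm_mul, Real.norm_of_nonneg (by positivity : (0 : ℝ) ≤ 1 + (Real.sqrt s)⁻¹),
        Real.norm_of_nonneg (by norm_num : (0 : ℝ) ≤ 2)]
      exact mul_le_mul_of_nonneg_right (by linarith) (norm_nonneg _)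
  have : Ioi (0 : ℝ) = Ioc 0 1 ∪ Ioi 1 := (Ioc_union_Ioi_eq_Ioi zero_le_one).symm
  rw [this]
  exact h1.union h2

/-- the constant of `mx_I3` -/
def mxI : ℝ := ∫ s in Ioi (0 : ℝ), (1 + (Real.sqrt s)⁻¹) * Real.exp (-s)

theorem mxI_nonneg : 0 ≤ mxI :=
  setIntegral_nonneg measurableSet_Ioi (fun s _ => by positivity)

/-- Hoelder estimate of an integral of kernel operators -/
theorem mx_int_hol {C B : ℝ} {K : ℝ → (CS →L[ℝ] CS)} (hK : mxK C K) {a : ℝ → ℝ} {g : ℝ → CS}
    {S : Set ℝ} (hS : MeasurableSet S) (hS0 : S ⊆ Ioi 0) (ha : ∀ s ∈ S, 0 ≤ a s ∧ a s ≤ 1)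
    (hg : ∀ s ∈ S, mxH B (g s)) (hB : 0 ≤ B)
    (hi : IntegrableOn (fun s => a s • K s (g s)) S) (θ η : S2) :
    |(∫ s in S, a s • K s (g s)) θ - (∫ s in S, a s • K s (g s)) η| ≤
      9 * C * B * Real.sqrt (dist θ η) := by
  have hC := hK.C_pos
  set d := dist θ η with hd
  have hd0 : 0 ≤ d := dist_nonneg
  have hd2 : d ≤ 2 := dist_S2_le θ η
  rcases hd0.eq_or_lt with h0 | hpos
  · have : θ = η := by rw [← dist_eq_zero, ← hd]; exact h0.symm
    rw [this, sub_self, abs_zero]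
    positivity
  let ev : S2 → (CS →L[ℝ] ℝ) := fun θ => ContinuousMap.evalCLM ℝ θ
  have e1 : ∀ θ : S2, (∫ s in S, a s • K s (g s)) θ = ∫ s in S, a s * (K s (g s)) θ := by
    intro θ
    have := (ev θ).integral_comp_comm hi
    simp only [ev, ContinuousMap.evalCLM_apply] at this
    rw [← this]
    rfl
  have i1 : ∀ θ : S2, IntegrableOn (fun s => a s * (K s (g s)) θ) S := by
    intro θ
    exact (ev θ).integrable_comp hi
  rw [e1, e1, ← integral_sub (i1 θ) (i1 η)]
  -- bounding function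
  let b1 : ℝ → ℝ := fun s => 2 * C * B * (1 + (Real.sqrt s)⁻¹)
  let b2 : ℝ → ℝ := fun s => C * B * d * (s * Real.sqrt s)⁻¹
  let b : ℝ → ℝ := fun s => (Ioc 0 d).indicator b1 s + (Ioi d).indicator b2 s
  have ib1 : IntegrableOn b1 (Ioc 0 d) :=
    (((integrableOn_const (by simp)).add (mx_I1 d hd0).1)).const_mul _
  have ib2 : IntegrableOn b2 (Ioi d) := (mx_I2 d hpos).1.const_mul _
  have ib : Integrable b :=
    (ib1.integrable_indicator measurableSet_Ioc).add (ib2.integrable_indicator measurableSet_Ioi)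
  have hb0 : ∀ s, 0 ≤ b s := by
    intro s
    refine add_nonneg (indicator_nonneg (fun s _ => ?_) s) (indicator_nonneg (fun s hs => ?_) s)
    · simp only [b1]; positivity
    · have : 0 < s := hpos.trans hs
      simp only [b2]; positivity
  have key : ∀ s ∈ S, ‖a s * (K s (g s)) θ - a s * (K s (g s)) η‖ ≤ b s := by
    intro s hs
    have hs0 : 0 < s := hS0 hs
    obtain ⟨ha0, ha1⟩ := ha s hs
    rw [← mul_sub, norm_mul, Real.norm_of_nonneg ha0]
    have hle : a s * ‖(K s (g s)) θ - (K s (g s)) η‖ ≤ ‖(K s (g s)) θ - (K s (g s)) η‖ :=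
      mul_le_of_le_one_left (norm_nonneg _) ha1
    refine hle.trans ?_
    by_cases hsd : s ≤ d
    · have hmem : s ∈ Ioc 0 d := ⟨hs0, hsd⟩
      have hnot : s ∉ Ioi d := not_lt.2 hsd
      simp only [b, indicator_of_mem hmem, indicator_of_notMem hnot, add_zero, b1]
      have h1 := hK.sup s B (g s) hs0 (hg s hs)
      have h2 : ‖(K s (g s)) θ‖ ≤ ‖K s (g s)‖ := ContinuousMap.norm_coe_le_norm _ _
      have h3 : ‖(K s (g s)) η‖ ≤ ‖K s (g s)‖ := ContinuousMap.norm_coe_le_norm _ _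
      have h4 := norm_sub_le ((K s (g s)) θ) ((K s (g s)) η)
      calc ‖(K s (g s)) θ - (K s (g s)) η‖ ≤ 2 * (C * (1 + (Real.sqrt s)⁻¹) * B) := by linarith
        _ = _ := by ring
    · have hmem : s ∈ Ioi d := not_le.1 hsd
      have hnot : s ∉ Ioc 0 d := fun h => hsd h.2
      simp only [b, indicator_of_mem hmem, indicator_of_notMem hnot, zero_add, b2]
      have h1 := hK.lip s B (g s) θ η hs0 (hg s hs)
      rw [Real.norm_eq_abs]
      refine h1.trans (le_of_eq ?_)
      rw [← hd]; ring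
  have h1 : ‖∫ s in S, (a s * (K s (g s)) θ - a s * (K s (g s)) η)‖ ≤ ∫ s in S, b s := by
    refine norm_integral_le_of_norm_le ib.integrableOn ?_
    exact (ae_restrict_iff' hS).2 (Eventually.of_forall key)
  have h2 : ∫ s in S, b s ≤ ∫ s, b s :=
    setIntegral_le_integral ib (Eventually.of_forall hb0)
  have h3 : ∫ s, b s = 2 * C * B * (d + 2 * Real.sqrt d) + C * B * d * (2 * (Real.sqrt d)⁻¹) := by
    simp only [b]
    rw [integral_add (ib1.integrable_indicator measurableSet_Ioc)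
      (ib2.integrable_indicator measurableSet_Ioi), integral_indicator measurableSet_Ioc,
      integral_indicator measurableSet_Ioi]
    simp only [b1, b2]
    have ic : IntegrableOn (fun _ : ℝ => (1 : ℝ)) (Ioc 0 d) := integrableOn_const (by simp)
    rw [integral_const_mul, integral_const_mul, (mx_I2 d hpos).2,
      integral_add ic (mx_I1 d hd0).1, (mx_I1 d hd0).2]
    simp [hd0]
  have hsq : Real.sqrt d * Real.sqrt d = d := Real.mul_self_sqrt hd0
  have hsp : 0 < Real.sqrt d := Real.sqrt_pos.2 hpos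
  have h4 : d * (Real.sqrt d)⁻¹ = Real.sqrt d := by
    rw [← div_eq_mul_inv, div_eq_iff hsp.ne', hsq]
  have h5 : d ≤ 3 / 2 * Real.sqrt d := by
    have : Real.sqrt d ≤ 3 / 2 := by
      rw [show (3 / 2 : ℝ) = Real.sqrt ((3 / 2) ^ 2) by rw [Real.sqrt_sq (by norm_num)]]
      exact Real.sqrt_le_sqrt (by norm_num; linarith)
    nlinarith
  rw [← Real.norm_eq_abs]
  refine h1.trans (h2.trans ?_)
  rw [h3]
  have h6 : C * B * d * (2 * (Real.sqrt d)⁻¹) = 2 * C * B * Real.sqrt d := by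
    rw [show C * B * d * (2 * (Real.sqrt d)⁻¹) = 2 * C * B * (d * (Real.sqrt d)⁻¹) by ring, h4]
  rw [h6]
  have h7 : 0 ≤ C * B := by positivity
  nlinarith


/-! ### Backward operator -/

theorem mx_bw_bound {C B : ℝ} {K : ℝ → (CS →L[ℝ] CS)} (hK : mxK C K) {u : ℝ → CS}
    (hu : mxC B u) {t s : ℝ} (ht : 0 ≤ t) (hs : 0 < s) :
    ‖Real.exp (-s) • K s (u (t + s))‖ ≤ C * B * ((1 + (Real.sqrt s)⁻¹) * Real.exp (-s)) := by
  rw [norm_smul, Real.norm_of_nonneg (Real.exp_pos _).le]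
  have h1 := hK.sup s B (u (t + s)) hs (hu.h _ (by linarith))
  calc Real.exp (-s) * ‖K s (u (t + s))‖ ≤ Real.exp (-s) * (C * (1 + (Real.sqrt s)⁻¹) * B) := by
        gcongr
    _ = _ := by ring

theorem mx_bw_cont {C B : ℝ} {K : ℝ → (CS →L[ℝ] CS)} (hK : mxK C K) {u : ℝ → CS}
    (hu : mxC B u) {t : ℝ} (ht : 0 ≤ t) :
    ContinuousOn (fun s => Real.exp (-s) • K s (u (t + s))) (Ioi 0) := by
  have h1 : Continuous (fun s : ℝ => t + s) := by fun_prop
  have h0 : Continuous (fun s : ℝ => Real.exp (-s)) := by fun_prop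
  refine ContinuousOn.smul h0.continuousOn (hK.cont _ ?_)
  refine hu.cont.comp h1.continuousOn (fun s hs => ?_)
  have : (0 : ℝ) < s := hs
  exact mem_Ici.2 (by linarith)

theorem mx_bw_int {C B : ℝ} {K : ℝ → (CS →L[ℝ] CS)} (hK : mxK C K) {u : ℝ → CS}
    (hu : mxC B u) {t : ℝ} (ht : 0 ≤ t) :
    IntegrableOn (fun s => Real.exp (-s) • K s (u (t + s))) (Ioi 0) := by
  refine Integrable.mono' (mx_I3.const_mul (C * B))
    ((mx_bw_cont hK hu ht).aestronglyMeasurable measurableSet_Ioi) ?_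
  exact (ae_restrict_iff' measurableSet_Ioi).2
    (Eventually.of_forall (fun s hs => mx_bw_bound hK hu ht hs))

theorem mx_bw {C B : ℝ} {K : ℝ → (CS →L[ℝ] CS)} (hK : mxK C K) {u : ℝ → CS}
    (hu : mxC B u) (hB : 0 ≤ B) :
    mxC (C * B * (mxI + 9)) (fun t => ∫ s in Ioi (0 : ℝ), Real.exp (-s) • K s (u (t + s))) := by
  have hC := hK.C_pos
  have hI := mxI_nonneg
  refine ⟨?_, fun t ht => ⟨?_, fun θ η => ?_⟩⟩
  · intro t₀ ht₀
    refine continuousWithinAt_of_dominated
      (bound := fun s => C * B * ((1 + (Real.sqrt s)⁻¹) * Real.exp (-s))) ?_ ?_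
      (mx_I3.const_mul (C * B)) ?_
    · filter_upwards [self_mem_nhdsWithin] with t ht
      exact (mx_bw_cont hK hu ht).aestronglyMeasurable measurableSet_Ioi
    · filter_upwards [self_mem_nhdsWithin] with t ht
      exact (ae_restrict_iff' measurableSet_Ioi).2
        (Eventually.of_forall (fun s hs => mx_bw_bound hK hu ht hs))
    · refine (ae_restrict_iff' measurableSet_Ioi).2 (Eventually.of_forall (fun s hs => ?_))
      have hs0 : (0 : ℝ) < s := hs
      have h0 : ContinuousWithinAt u (Ici 0) (t₀ + s) :=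
        hu.cont _ (mem_Ici.2 (by have : 0 ≤ t₀ := ht₀; linarith))
      have h1 : Continuous (fun t : ℝ => t + s) := by fun_prop
      have h2 : ContinuousWithinAt (fun t => u (t + s)) (Ici 0) t₀ :=
        ContinuousWithinAt.comp (g := u) (f := fun t => t + s) (t := Ici 0) h0
          h1.continuousWithinAt (fun t ht => by
            have : 0 ≤ t := ht
            exact mem_Ici.2 (by linarith))
      exact ((K s).continuous.continuousAt.comp_continuousWithinAt h2).const_smul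
        (Real.exp (-s))
  · have h1 : ‖∫ s in Ioi (0 : ℝ), Real.exp (-s) • K s (u (t + s))‖ ≤ C * B * mxI := by
      rw [mxI, ← integral_const_mul]
      refine norm_integral_le_of_norm_le (mx_I3.const_mul (C * B)) ?_
      exact (ae_restrict_iff' measurableSet_Ioi).2
        (Eventually.of_forall (fun s hs => mx_bw_bound hK hu ht hs))
    have h2 : 0 ≤ C * B := by positivity
    nlinarith
  · have h1 := mx_int_hol hK measurableSet_Ioi (a := fun s => Real.exp (-s))
      (g := fun s => u (t + s)) (le_refl (Ioi (0 : ℝ))) (fun s hs => ⟨(Real.exp_pos _).le,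
        Real.exp_le_one_iff.2 (by have : (0 : ℝ) < s := hs; linarith)⟩)
      (fun s hs => hu.h _ (by have : (0 : ℝ) < s := hs; linarith)) hB (mx_bw_int hK hu ht) θ η
    refine h1.trans ?_
    have h2 : 0 ≤ C * B := by positivity
    refine mul_le_mul_of_nonneg_right ?_ (Real.sqrt_nonneg _)
    nlinarith

/-! ### Forward operator -/

theorem mx_fw_cont {C B : ℝ} {K : ℝ → (CS →L[ℝ] CS)} (hK : mxK C K) {u : ℝ → CS}
    (hu : mxC B u) {t : ℝ} : ContinuousOn (fun s => K s (u (t - s))) (Ioc 0 t) := by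
  -- replace u by a continuous curve
  have h1 : ContinuousOn (fun s => u (max (t - s) 0)) (Ioi 0) :=
    hu.cont.comp (by fun_prop) (fun s _ => mem_Ici.2 (le_max_right _ _))
  refine ((hK.cont _ h1).mono (fun s hs => hs.1)).congr (fun s hs => ?_)
  simp only
  rw [max_eq_left (by linarith [hs.2])]

theorem mx_fw_bound {C B : ℝ} {K : ℝ → (CS →L[ℝ] CS)} (hK : mxK C K) {u : ℝ → CS}
    (hu : mxC B u) {t s : ℝ} (hs : 0 < s) (hst : s ≤ t) :
    ‖K s (u (t - s))‖ ≤ C * B * (1 + (Real.sqrt s)⁻¹) := by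
  have h1 := hK.sup s B (u (t - s)) hs (hu.h _ (by linarith))
  calc ‖K s (u (t - s))‖ ≤ C * (1 + (Real.sqrt s)⁻¹) * B := h1
    _ = _ := by ring

theorem mx_b_int (c t : ℝ) (ht : 0 ≤ t) :
    IntegrableOn (fun s => c * (1 + (Real.sqrt s)⁻¹)) (Ioc 0 t) := by
  have ic : IntegrableOn (fun _ : ℝ => (1 : ℝ)) (Ioc 0 t) := integrableOn_const (by simp)
  exact (ic.add (mx_I1 t ht).1).const_mul c

theorem mx_fw_int {C B : ℝ} {K : ℝ → (CS →L[ℝ] CS)} (hK : mxK C K) {u : ℝ → CS}
    (hu : mxC B u) {t : ℝ} (ht : 0 ≤ t) :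
    IntegrableOn (fun s => K s (u (t - s))) (Ioc 0 t) := by
  refine Integrable.mono' (mx_b_int (C * B) t ht)
    ((mx_fw_cont hK hu).aestronglyMeasurable measurableSet_Ioc) ?_
  exact (ae_restrict_iff' measurableSet_Ioc).2
    (Eventually.of_forall (fun s hs => mx_fw_bound hK hu hs.1 hs.2))

/-- continuity and Hoelder bound of the forward operator -/
theorem mx_fw {C B : ℝ} {K : ℝ → (CS →L[ℝ] CS)} (hK : mxK C K) {u : ℝ → CS}
    (hu : mxC B u) (hB : 0 ≤ B) :
    ContinuousOn (fun t => ∫ s in (0 : ℝ)..t, K s (u (t - s))) (Ici 0) ∧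
    ∀ t, 0 ≤ t → ∀ θ η, |(∫ s in (0 : ℝ)..t, K s (u (t - s))) θ -
      (∫ s in (0 : ℝ)..t, K s (u (t - s))) η| ≤ 9 * C * B * Real.sqrt (dist θ η) := by
  have hC := hK.C_pos
  constructor
  · -- write as an integral over a fixed set
    have e : ∀ T t : ℝ, 0 ≤ t → t ≤ T → ∫ s in (0 : ℝ)..t, K s (u (t - s)) =
        ∫ s in Ioc 0 T, (Iic t).indicator (fun s => K s (u (t - s))) s := by
      intro T t ht htT
      rw [intervalIntegral.integral_of_le ht, setIntegral_indicator measurableSet_Iic]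
      congr 2
      ext s
      simp only [mem_inter_iff, mem_Ioc, mem_Iic]
      constructor
      · rintro ⟨h1, h2⟩; exact ⟨⟨h1, h2.trans htT⟩, h2⟩
      · rintro ⟨⟨h1, _⟩, h2⟩; exact ⟨h1, h2⟩
    intro t₀ ht₀
    have ht₀' : 0 ≤ t₀ := ht₀
    set T := t₀ + 1 with hT
    have hTpos : 0 ≤ T := by linarith
    have hev : ∀ᶠ t in 𝓝[Ici 0] t₀, 0 ≤ t ∧ t ≤ T := by
      filter_upwards [self_mem_nhdsWithin, nhdsWithin_le_nhds (Iic_mem_nhds
        (show t₀ < T by linarith))] with t h1 h2 using ⟨h1, h2⟩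
    have hc : ContinuousWithinAt (fun t => ∫ s in Ioc 0 T,
        (Iic t).indicator (fun s => K s (u (t - s))) s) (Ici 0) t₀ := by
      refine continuousWithinAt_of_dominated
        (bound := fun s => C * B * (1 + (Real.sqrt s)⁻¹)) ?_ ?_ (mx_b_int (C * B) T hTpos) ?_
      · filter_upwards [hev] with t ht
        have h1 : AEStronglyMeasurable (fun s => K s (u (t - s))) (volume.restrict (Ioc 0 t)) :=
          (mx_fw_cont hK hu).aestronglyMeasurable measurableSet_Ioc
        have h2 : AEStronglyMeasurable ((Ioc 0 t).indicator (fun s => K s (u (t - s)))) volume :=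
          (aestronglyMeasurable_indicator_iff measurableSet_Ioc).2 h1
        refine (h2.mono_measure Measure.restrict_le_self).congr ?_
        refine (ae_restrict_iff' measurableSet_Ioc).2 (Eventually.of_forall (fun s hs => ?_))
        by_cases hst : s ≤ t
        · rw [indicator_of_mem (show s ∈ Ioc 0 t from ⟨hs.1, hst⟩),
            indicator_of_mem (show s ∈ Iic t from hst)]
        · rw [indicator_of_notMem (fun h => hst h.2), indicator_of_notMem (show s ∉ Iic t from hst)]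
      · filter_upwards [hev] with t ht
        refine (ae_restrict_iff' measurableSet_Ioc).2 (Eventually.of_forall (fun s hs => ?_))
        by_cases hst : s ≤ t
        · rw [indicator_of_mem (show s ∈ Iic t from hst)]
          exact mx_fw_bound hK hu hs.1 hst
        · rw [indicator_of_notMem (show s ∉ Iic t from hst), norm_zero]
          positivity
      · have hne : ∀ᵐ s : ℝ ∂(volume.restrict (Ioc 0 T)), s ≠ t₀ := by
          refine ae_restrict_of_ae ?_
          exact Measure.ae_ne volume t₀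
        filter_upwards [hne, ae_restrict_mem measurableSet_Ioc] with s hs hsm
        rcases lt_or_gt_of_ne hs with hlt | hgt
        · -- s < t₀
          have h1 : ContinuousWithinAt (fun t => K s (u (t - s))) (Ici 0) t₀ := by
            refine (K s).continuous.continuousAt.comp_continuousWithinAt ?_
            have h2 : ContinuousWithinAt u (Ici 0) (t₀ - s) :=
              hu.cont _ (mem_Ici.2 (by linarith))
            have h3 : ContinuousAt (fun t => u (max (t - s) 0)) t₀ := by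
              have h4 : ContinuousOn (fun t => u (max (t - s) 0)) univ :=
                hu.cont.comp (by fun_prop) (fun t _ => mem_Ici.2 (le_max_right _ _))
              exact (continuousOn_univ.1 h4).continuousAt
            refine ((h3.congr ?_)).continuousWithinAt
            filter_upwards [lt_mem_nhds hlt] with t ht
            rw [max_eq_left (by linarith)]
          refine h1.congr_of_eventuallyEq ?_ ?_
          · filter_upwards [nhdsWithin_le_nhds (lt_mem_nhds hlt)] with t ht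
            rw [indicator_of_mem (show s ∈ Iic t from le_of_lt ht)]
          · rw [indicator_of_mem (show s ∈ Iic t₀ from hlt.le)]
        · -- s > t₀
          have h1 : ContinuousWithinAt (fun _ : ℝ => (0 : CS)) (Ici 0) t₀ :=
            continuousWithinAt_const
          refine h1.congr_of_eventuallyEq ?_ ?_
          · filter_upwards [nhdsWithin_le_nhds (gt_mem_nhds hgt)] with t ht
            rw [indicator_of_notMem (show s ∉ Iic t from not_le.2 ht)]
          · rw [indicator_of_notMem (show s ∉ Iic t₀ from not_le.2 hgt)]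
    refine hc.congr_of_eventuallyEq ?_ (e T t₀ ht₀' (by linarith))
    filter_upwards [hev] with t ht
    exact e T t ht.1 ht.2
  · intro t ht θ η
    rw [intervalIntegral.integral_of_le ht]
    have h1 := mx_int_hol hK measurableSet_Ioc (a := fun _ => 1)
      (g := fun s => u (t - s)) (S := Ioc 0 t) (fun s hs => hs.1) (fun s _ => ⟨zero_le_one, le_rfl⟩)
      (fun s hs => hu.h _ (by linarith [hs.2])) hB (by simpa using mx_fw_int hK hu ht) θ η
    simpa using h1

/-- forward operator with decay -/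
theorem mx_fwD {C B : ℝ} {K : ℝ → (CS →L[ℝ] CS)} (hK : mxK C K) (hD : mxD C K) {u : ℝ → CS}
    (hu : mxC B u) (hB : 0 ≤ B) :
    mxC (C * B * (mxI + 9)) (fun t => ∫ s in (0 : ℝ)..t, K s (u (t - s))) := by
  have hC := hK.C_pos
  have hI := mxI_nonneg
  obtain ⟨h1, h2⟩ := mx_fw hK hu hB
  have h3 : 0 ≤ C * B := by positivity
  refine ⟨h1, fun t ht => ⟨?_, fun θ η => (h2 t ht θ η).trans ?_⟩⟩
  · have h4 : ‖∫ s in (0 : ℝ)..t, K s (u (t - s))‖ ≤ C * B * mxI := by
      rw [intervalIntegral.integral_of_le ht]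
      have h5 : ‖∫ s in Ioc 0 t, K s (u (t - s))‖ ≤
          ∫ s in Ioc 0 t, C * B * ((1 + (Real.sqrt s)⁻¹) * Real.exp (-s)) := by
        have hI3 : IntegrableOn (fun s => C * B * ((1 + (Real.sqrt s)⁻¹) * Real.exp (-s)))
          (Ioi 0) := mx_I3.const_mul (C * B)
        refine norm_integral_le_of_norm_le (hI3.mono_set (fun s hs => hs.1)) ?_
        refine (ae_restrict_iff' measurableSet_Ioc).2 (Eventually.of_forall (fun s hs => ?_))
        refine (hD s B _ hs.1 (hu.h _ (by linarith [hs.2]))).trans (le_of_eq (by ring))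
      refine h5.trans ?_
      rw [mxI, ← integral_const_mul]
      refine setIntegral_mono_set (mx_I3.const_mul (C * B)) ?_ ?_
      · exact (ae_restrict_iff' measurableSet_Ioi).2 (Eventually.of_forall (fun s hs => by
          positivity))
      · exact (show Ioc (0 : ℝ) t ⊆ Ioi 0 from fun s hs => hs.1).eventuallyLE
    nlinarith
  · refine mul_le_mul_of_nonneg_right ?_ (Real.sqrt_nonneg _)
    nlinarith


/-! ### Slices -/

theorem norm_ray (t : ℝ) (θ : S2) : ‖(ray t θ : E3)‖ = Real.exp (max t 0) := by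
  show ‖Real.exp (max t 0) • (θ : E3)‖ = _
  rw [norm_smul, norm_S2, mul_one, Real.norm_of_nonneg (Real.exp_pos _).le]

theorem dirS_ray (t : ℝ) (θ : S2) : dirS (ray t θ : E3) = θ :=
  dirS_smul_S2 θ (Real.exp_pos _)

theorem ray_log (x : Om) : ray (Real.log ‖(x : E3)‖) (dirS (x : E3)) = x := by
  have h1 : 0 < ‖(x : E3)‖ := lt_of_lt_of_le one_pos x.2
  have h2 : 0 ≤ Real.log ‖(x : E3)‖ := Real.log_nonneg x.2
  apply Subtype.ext
  show Real.exp (max (Real.log ‖(x : E3)‖) 0) • (dirS (x : E3) : E3) = x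
  rw [max_eq_left h2, Real.exp_log h1, norm_smul_dirS (Om_ne_zero x)]

theorem continuous_ray2 : Continuous (fun p : ℝ × S2 => ray p.1 p.2) :=
  Continuous.subtype_mk (f := fun p : ℝ × S2 => Real.exp (max p.1 0) • (p.2 : E3))
    (by fun_prop) _

theorem sl_cont (f : Y) : Continuous (sl f) := by
  refine ContinuousMap.continuous_of_continuous_uncurry _ ?_
  exact f.continuous.comp continuous_ray2

theorem sl_mxH (f : Y) (t : ℝ) : mxH ‖f‖ (sl f t) := by
  refine ⟨(ContinuousMap.norm_le _ (norm_nonneg _)).2 (fun θ => f.abs_apply_le _), fun θ η => ?_⟩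
  have h := f.abs_sub_le (x := ray t θ) (y := ray t η) (by rw [norm_ray, norm_ray])
  rw [adist, dirS_ray, dirS_ray] at h
  exact h

theorem sl_mxC (f : Y) : mxC ‖f‖ (sl f) := ⟨(sl_cont f).continuousOn, fun t _ => sl_mxH f t⟩

theorem mxH.add {A B : ℝ} {f g : CS} (hf : mxH A f) (hg : mxH B g) : mxH (A + B) (f + g) := by
  refine ⟨(norm_add_le _ _).trans (add_le_add hf.bd hg.bd), fun θ η => ?_⟩
  have : (f + g) θ - (f + g) η = (f θ - f η) + (g θ - g η) := by
    simp only [ContinuousMap.add_apply]; ring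
  rw [this, add_mul]
  exact (abs_add_le _ _).trans (add_le_add (hf.hol θ η) (hg.hol θ η))

theorem mxH.neg {A : ℝ} {f : CS} (hf : mxH A f) : mxH A (-f) := by
  refine ⟨by rw [norm_neg]; exact hf.bd, fun θ η => ?_⟩
  have : (-f) θ - (-f) η = -(f θ - f η) := by
    simp only [ContinuousMap.neg_apply]; ring
  rw [this, abs_neg]
  exact hf.hol θ η

theorem mxH.mono {A B : ℝ} {f : CS} (hf : mxH A f) (h : A ≤ B) : mxH B f :=
  ⟨hf.bd.trans h, fun θ η => (hf.hol θ η).trans (mul_le_mul_of_nonneg_right h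
    (Real.sqrt_nonneg _))⟩

theorem mxC.add {A B : ℝ} {u v : ℝ → CS} (hu : mxC A u) (hv : mxC B v) :
    mxC (A + B) (fun t => u t + v t) :=
  ⟨hu.cont.add hv.cont, fun t ht => (hu.h t ht).add (hv.h t ht)⟩

theorem mxC.sub {A B : ℝ} {u v : ℝ → CS} (hu : mxC A u) (hv : mxC B v) :
    mxC (A + B) (fun t => u t - v t) :=
  ⟨hu.cont.sub hv.cont, fun t ht => by
    rw [sub_eq_add_neg]; exact (hu.h t ht).add (hv.h t ht).neg⟩

theorem mxC.mono {A B : ℝ} {u : ℝ → CS} (hu : mxC A u) (h : A ≤ B) : mxC B u :=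
  ⟨hu.cont, fun t ht => (hu.h t ht).mono h⟩

theorem mxC.congr {A : ℝ} {u v : ℝ → CS} (hu : mxC A u) (h : ∀ t, 0 ≤ t → v t = u t) :
    mxC A v :=
  ⟨hu.cont.congr (fun t ht => h t ht), fun t ht => by rw [h t ht]; exact hu.h t ht⟩

/-- the common constant -/
def mxc : ℝ := 1 + 4 * PD.C0 + 4 * PD.C0 ^ 2

theorem mxc_pos : 0 < mxc := by have := PD.C0_pos; unfold mxc; positivity

theorem mxK.mono {C C' : ℝ} {K : ℝ → (CS →L[ℝ] CS)} (hK : mxK C K) (h : C ≤ C') : mxK C' K := by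
  refine ⟨hK.C_pos.trans h, hK.cont, fun s A g hs hg => ?_, fun s A g θ η hs hg => ?_⟩
  · have := hg.nonneg
    exact (hK.sup s A g hs hg).trans (by gcongr)
  · have := hg.nonneg
    have := @dist_nonneg _ _ θ η
    exact (hK.lip s A g θ η hs hg).trans (by gcongr)

theorem mxPo : mxK mxc PD.Po := mx_po.mono (by unfold mxc; nlinarith [sq_nonneg PD.C0])

theorem mxDk (k : Fin 3) : mxK mxc (PD.Dk k) :=
  (mx_dk k).1.mono (by have := PD.C0_pos; unfold mxc; linarith)

theorem mxLa : mxK mxc PD.La := mx_la.1.mono (by have := PD.C0_pos; unfold mxc; linarith)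

theorem mxD.mono {C C' : ℝ} {K : ℝ → (CS →L[ℝ] CS)} (hK : mxD C K) (h : C ≤ C') : mxD C' K := by
  intro s A g hs hg
  have := hg.nonneg
  exact (hK s A g hs hg).trans (by gcongr)

theorem mxDkD (k : Fin 3) : mxD mxc (PD.Dk k) :=
  (mx_dk k).2.mono (by have := PD.C0_pos; unfold mxc; linarith)

theorem mxLaD : mxD mxc PD.La := mx_la.2.mono (by have := PD.C0_pos; unfold mxc; linarith)

/-- `Jc` as a sum of backward operators -/
theorem Jc_eq (F : Fin 3 → Y) (t : ℝ) (ht : 0 ≤ t) :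
    Jc F t = (∫ s in Ioi (0 : ℝ), Real.exp (-s) • PD.Po s (sl (frad F) (t + s))) +
      (∫ s in Ioi (0 : ℝ), Real.exp (-s) • PD.La s (sl (frad F) (t + s))) +
      ∑ k, ∫ s in Ioi (0 : ℝ), Real.exp (-s) • PD.Dk k s (sl (ftan F k) (t + s)) := by
  have i1 : Integrable (fun s => Real.exp (-s) • PD.Po s (sl (frad F) (t + s)))
    (volume.restrict (Ioi 0)) := mx_bw_int mxPo (sl_mxC (frad F)) ht
  have i2 : Integrable (fun s => Real.exp (-s) • PD.La s (sl (frad F) (t + s)))
    (volume.restrict (Ioi 0)) := mx_bw_int mxLa (sl_mxC (frad F)) ht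
  have i3 : ∀ k, Integrable (fun s => Real.exp (-s) • PD.Dk k s (sl (ftan F k) (t + s)))
    (volume.restrict (Ioi 0)) := fun k => mx_bw_int (mxDk k) (sl_mxC (ftan F k)) ht
  unfold Jc
  rw [← integral_finsetSum _ (fun k _ => i3 k), ← integral_add i1 i2,
    ← integral_add (i1.add i2) (integrable_finsetSum _ (fun k _ => i3 k))]
  refine integral_congr_ae (Eventually.of_forall (fun s => ?_))
  simp only [smul_add, Finset.smul_sum]

/-- size of the right hand side -/
def mxN (F : Fin 3 → Y) : ℝ := ‖frad F‖ + ∑ k, ‖ftan F k‖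

theorem mxN_nonneg (F : Fin 3 → Y) : 0 ≤ mxN F := by unfold mxN; positivity

theorem Jc_mxC (F : Fin 3 → Y) : mxC (2 * mxc * (mxI + 9) * mxN F) (Jc F) := by
  have hc := mxc_pos
  have hI := mxI_nonneg
  have h1 := mx_bw mxPo (sl_mxC (frad F)) (norm_nonneg _)
  have h2 := mx_bw mxLa (sl_mxC (frad F)) (norm_nonneg _)
  have h3 := fun k => mx_bw (mxDk k) (sl_mxC (ftan F k)) (norm_nonneg _)
  have h4 := (((h1.add h2).add (h3 0)).add (h3 1)).add (h3 2)
  refine (h4.congr (fun t ht => ?_)).mono ?_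
  · rw [Jc_eq F t ht, Fin.sum_univ_three]
    simp only [add_assoc]
  · unfold mxN
    rw [Fin.sum_univ_three]
    have a1 := norm_nonneg (frad F)
    have a2 := norm_nonneg (ftan F 0)
    have a3 := norm_nonneg (ftan F 1)
    have a4 := norm_nonneg (ftan F 2)
    have h5 : 0 ≤ mxc * (mxI + 9) := by positivity
    nlinarith [mul_nonneg h5 a1, mul_nonneg h5 a2, mul_nonneg h5 a3, mul_nonneg h5 a4]

/-- constant for `muc` -/
def mxM : ℝ := 2 * mxc * (mxI + 9) + 1

theorem mxM_pos : 0 < mxM := by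
  have hc := mxc_pos
  have hI := mxI_nonneg
  unfold mxM; positivity

theorem muc_mxC (F : Fin 3 → Y) : mxC (mxM * mxN F) (muc F) := by
  refine ((Jc_mxC F).sub (sl_mxC (frad F))).mono ?_
  have h1 : ‖frad F‖ ≤ mxN F := by
    unfold mxN
    have : 0 ≤ ∑ k, ‖ftan F k‖ := by positivity
    linarith
  unfold mxM
  linarith

theorem lnc_mxC (F : Fin 3 → Y) (k : Fin 3) :
    mxC (mxc * (mxM * mxN F) * (mxI + 9)) (lnc F k) :=
  mx_fwD (mxDk k) (mxDkD k) (muc_mxC F) (mul_nonneg mxM_pos.le (mxN_nonneg F))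

theorem lac_mxC (F : Fin 3 → Y) : mxC (mxc * (mxM * mxN F) * (mxI + 9)) (lac F) :=
  mx_fwD mxLa mxLaD (muc_mxC F) (mul_nonneg mxM_pos.le (mxN_nonneg F))


/-! ### Mean values -/

/-- integration over the sphere as a continuous linear functional -/
def avgL : CS →L[ℝ] ℝ :=
  LinearMap.mkContinuous
    { toFun := fun g => ∫ θ, g θ ∂sig
      map_add' := fun f g => by
        simp only [ContinuousMap.add_apply]
        exact integral_add (f.continuous.integrable_of_hasCompactSupport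
          (HasCompactSupport.of_compactSpace _)) (g.continuous.integrable_of_hasCompactSupport
          (HasCompactSupport.of_compactSpace _))
      map_smul' := fun c f => by
        simp only [ContinuousMap.smul_apply, smul_eq_mul, RingHom.id_apply]
        exact integral_const_mul _ _ } (sig.real univ) (fun g => by
      simp only [LinearMap.coe_mk, AddHom.coe_mk]
      refine (norm_integral_le_of_norm_le_const (C := ‖g‖)
        (Eventually.of_forall (fun θ => g.norm_coe_le_norm θ))).trans (le_of_eq ?_)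
      rw [mul_comm])

theorem avgL_apply (g : CS) : avgL g = ∫ θ, g θ ∂sig := rfl

theorem avg_po (s : ℝ) (g : CS) : avgL (PD.Po s g) = avgL g := by
  have h := PD.po_symm s g 1
  rw [PD.po_one] at h
  simpa [avgL_apply] using h

theorem la_one (s : ℝ) (hs : 0 < s) : PD.La s 1 = 0 := by
  have h1 := PD.po_deriv s 1 hs
  have h2 : HasDerivAt (fun τ => PD.Po τ 1) (0 : CS) s := by
    have : (fun τ => PD.Po τ 1) = fun _ => (1 : CS) := funext (fun τ => PD.po_one τ)
    rw [this]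
    exact hasDerivAt_const s 1
  have h3 := h1.unique h2
  exact neg_eq_zero.1 h3

theorem avg_la (s : ℝ) (hs : 0 < s) (g : CS) : avgL (PD.La s g) = 0 := by
  have h := PD.la_symm s g 1 hs
  rw [la_one s hs] at h
  simpa [avgL_apply] using h

theorem dk_one (k : Fin 3) (s : ℝ) (hs : 0 < s) : PD.Dk k s 1 = 0 := by
  have h : PD.Dk k s (1 : CS) = PD.Po s 0 := by
    refine PD.dk_comm k s 1 (fun _ _ => 0) 0 hs ⟨fun _ => continuous_const, fun x _ => ?_⟩
      (fun θ => ?_)
    · have h0 : mkE (fun _ : Fin 3 => (0 : ℝ)) = 0 := by ext i; simp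
      rw [h0, smul_zero, map_zero]
      exact hasFDerivAt_const 1 x
    · simp [cr]
  rw [h, map_zero]

theorem avg_dk (k : Fin 3) (s : ℝ) (hs : 0 < s) (g : CS) : avgL (PD.Dk k s g) = 0 := by
  have h := PD.dk_skew k s g 1 hs
  rw [dk_one k s hs] at h
  simpa [avgL_apply] using h

theorem mx_h (φ : ℝ → ℝ) (hφ : Continuous φ) (B : ℝ) (hb : ∀ x, |φ x| ≤ B) (t : ℝ) :
    ∫ s in Ioi (0 : ℝ), Real.exp (-s) * φ (t + s) =
      Real.exp t * ((∫ x in Ioi (0 : ℝ), Real.exp (-x) * φ x) -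
        ∫ x in (0 : ℝ)..t, Real.exp (-x) * φ x) := by
  have hint : ∀ t : ℝ, IntegrableOn (fun s => Real.exp (-s) * φ (t + s)) (Ioi 0) := by
    intro t
    have h0 : IntegrableOn (fun s => B * Real.exp (-s)) (Ioi 0) :=
      (integrableOn_exp_neg_Ioi 0).const_mul B
    refine Integrable.mono' h0 ?_ ?_
    · exact Continuous.aestronglyMeasurable (by fun_prop)
    · refine Eventually.of_forall (fun s => ?_)
      rw [norm_mul, Real.norm_of_nonneg (Real.exp_pos _).le, mul_comm]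
      exact mul_le_mul_of_nonneg_right (hb _) (Real.exp_pos _).le
  have h1 := intervalIntegral_tendsto_integral_Ioi 0 (hint t) tendsto_id
  have h2 := intervalIntegral_tendsto_integral_Ioi 0 (by simpa using hint 0 :
    IntegrableOn (fun s => Real.exp (-s) * φ s) (Ioi 0))
    (tendsto_atTop_add_const_left atTop t tendsto_id)
  have h3 : Tendsto (fun T : ℝ => Real.exp t * ((∫ x in (0 : ℝ)..(t + T), Real.exp (-x) * φ x) -
      ∫ x in (0 : ℝ)..t, Real.exp (-x) * φ x)) atTop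
      (𝓝 (Real.exp t * ((∫ x in Ioi (0 : ℝ), Real.exp (-x) * φ x) -
        ∫ x in (0 : ℝ)..t, Real.exp (-x) * φ x))) := by
    exact (h2.sub_const _).const_mul _
  refine tendsto_nhds_unique h1 (h3.congr (fun T => ?_))
  have hc : Continuous (fun x => Real.exp (-x) * φ x) := by fun_prop
  rw [intervalIntegral.integral_interval_sub_left (hc.intervalIntegrable _ _)
    (hc.intervalIntegrable _ _)]
  have h4 := intervalIntegral.integral_comp_add_left (fun x => Real.exp (-x) * φ x) t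
    (a := 0) (b := T)
  rw [add_zero] at h4
  rw [← h4, ← intervalIntegral.integral_const_mul]
  simp only [id]
  refine intervalIntegral.integral_congr (fun s _ => ?_)
  show Real.exp t * (Real.exp (-(t + s)) * φ (t + s)) = Real.exp (-s) * φ (t + s)
  rw [neg_add, Real.exp_add, show Real.exp t * (Real.exp (-t) * Real.exp (-s) * φ (t + s)) =
    (Real.exp t * Real.exp (-t)) * (Real.exp (-s) * φ (t + s)) by ring, ← Real.exp_add,
    add_neg_cancel, Real.exp_zero, one_mul]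

theorem mx_h_deriv (φ : ℝ → ℝ) (hφ : Continuous φ) (B : ℝ) (hb : ∀ x, |φ x| ≤ B) (t : ℝ) :
    HasDerivAt (fun t => ∫ s in Ioi (0 : ℝ), Real.exp (-s) * φ (t + s))
      ((∫ s in Ioi (0 : ℝ), Real.exp (-s) * φ (t + s)) - φ t) t := by
  have e : (fun t => ∫ s in Ioi (0 : ℝ), Real.exp (-s) * φ (t + s)) = fun t =>
      Real.exp t * ((∫ x in Ioi (0 : ℝ), Real.exp (-x) * φ x) -
        ∫ x in (0 : ℝ)..t, Real.exp (-x) * φ x) := funext (mx_h φ hφ B hb)
  rw [e, mx_h φ hφ B hb t]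
  have hc : Continuous (fun x => Real.exp (-x) * φ x) := by fun_prop
  have h1 : HasDerivAt (fun t => ∫ x in (0 : ℝ)..t, Real.exp (-x) * φ x)
      (Real.exp (-t) * φ t) t := (hc.integral_hasStrictDerivAt 0 t).hasDerivAt
  have h2 := (Real.hasDerivAt_exp t).mul (h1.const_sub (∫ x in Ioi (0 : ℝ), Real.exp (-x) * φ x))
  refine h2.congr_deriv ?_
  rw [show Real.exp t * -(Real.exp (-t) * φ t) = -((Real.exp t * Real.exp (-t)) * φ t) by ring,
    ← Real.exp_add, add_neg_cancel, Real.exp_zero]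
  ring

/-- the function `h(t)` -/
def mxh (F : Fin 3 → Y) (t : ℝ) : ℝ :=
  ∫ s in Ioi (0 : ℝ), Real.exp (-s) * avgL (sl (frad F) (t + s))

theorem avg_Jc (F : Fin 3 → Y) (t : ℝ) (ht : 0 ≤ t) : avgL (Jc F t) = mxh F t := by
  have i1 := mx_bw_int mxPo (sl_mxC (frad F)) ht
  have i2 := mx_bw_int mxLa (sl_mxC (frad F)) ht
  have i3 := fun k => mx_bw_int (mxDk k) (sl_mxC (ftan F k)) ht
  rw [Jc_eq F t ht, map_add, map_add, map_sum, ← avgL.integral_comp_comm i1,
    ← avgL.integral_comp_comm i2]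
  have e2 : ∫ s in Ioi (0 : ℝ), avgL (Real.exp (-s) • PD.La s (sl (frad F) (t + s))) = 0 := by
    refine (setIntegral_congr_fun (g := fun _ => (0 : ℝ)) measurableSet_Ioi (fun s hs => ?_)).trans
      (by simp)
    show avgL (Real.exp (-s) • PD.La s (sl (frad F) (t + s))) = 0
    rw [map_smul, avg_la s hs, smul_zero]
  have e3 : ∀ k, avgL (∫ s in Ioi (0 : ℝ), Real.exp (-s) • PD.Dk k s (sl (ftan F k) (t + s))) = 0 := by
    intro k
    rw [← avgL.integral_comp_comm (i3 k)]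
    refine (setIntegral_congr_fun (g := fun _ => (0 : ℝ)) measurableSet_Ioi (fun s hs => ?_)).trans
      (by simp)
    show avgL (Real.exp (-s) • PD.Dk k s (sl (ftan F k) (t + s))) = 0
    rw [map_smul, avg_dk k s hs, smul_zero]
  rw [e2, Finset.sum_eq_zero (fun k _ => e3 k), add_zero, add_zero, mxh]
  refine setIntegral_congr_fun measurableSet_Ioi (fun s hs => ?_)
  show avgL (Real.exp (-s) • PD.Po s (sl (frad F) (t + s))) =
    Real.exp (-s) * avgL (sl (frad F) (t + s))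
  rw [map_smul, avg_po, smul_eq_mul]

theorem avg_bound (g : CS) (B : ℝ) (h : ‖g‖ ≤ B) : |avgL g| ≤ sig.real univ * B := by
  rw [← Real.norm_eq_abs, avgL_apply]
  refine (norm_integral_le_of_norm_le_const (C := B)
        (Eventually.of_forall (fun θ => (g.norm_coe_le_norm θ).trans h))).trans (le_of_eq ?_)
  rw [mul_comm]

theorem avg_sl (f : Y) (t : ℝ) : |avgL (sl f t)| ≤ sig.real univ * ‖f‖ :=
  avg_bound _ _ (sl_mxH f t).bd

theorem mxh_bound (F : Fin 3 → Y) (t : ℝ) : |mxh F t| ≤ sig.real univ * ‖frad F‖ := by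
  have h1 : ‖mxh F t‖ ≤ ∫ s in Ioi (0 : ℝ), (sig.real univ * ‖frad F‖) * Real.exp (-s) := by
    refine norm_integral_le_of_norm_le ((integrableOn_exp_neg_Ioi 0).const_mul _) ?_
    refine Eventually.of_forall (fun s => ?_)
    rw [norm_mul, Real.norm_of_nonneg (Real.exp_pos _).le, mul_comm]
    exact mul_le_mul_of_nonneg_right (avg_sl _ _) (Real.exp_pos _).le
  rw [integral_const_mul, integral_exp_neg_Ioi_zero, mul_one] at h1
  exact h1

theorem avg_nuc (F : Fin 3 → Y) (t : ℝ) (ht : 0 ≤ t) : avgL (nuc F t) = mxh F t - mxh F 0 := by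
  have hφ : Continuous (fun t => avgL (sl (frad F) t)) := avgL.continuous.comp (sl_cont _)
  have hd := mx_h_deriv _ hφ _ (avg_sl (frad F))
  have hhc : Continuous (mxh F) := continuous_iff_continuousAt.2 (fun t => (hd t).continuousAt)
  unfold nuc
  rw [intervalIntegral.integral_of_le ht,
    ← avgL.integral_comp_comm (mx_fw_int mxPo (muc_mxC F) ht),
    ← intervalIntegral.integral_of_le ht]
  have e1 : ∫ s in (0 : ℝ)..t, avgL (PD.Po s (muc F (t - s))) =
      ∫ s in (0 : ℝ)..t, (fun x => mxh F x - avgL (sl (frad F) x)) (t - s) := by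
    refine intervalIntegral.integral_congr (fun s hs => ?_)
    rw [uIcc_of_le ht] at hs
    simp only
    rw [avg_po, muc, map_sub, avg_Jc F _ (by linarith [hs.2])]
  rw [e1, intervalIntegral.integral_comp_sub_left (fun x => mxh F x - avgL (sl (frad F) x)) t,
    sub_self, sub_zero]
  exact intervalIntegral.integral_eq_sub_of_hasDerivAt (fun x _ => hd x)
    ((hhc.sub hφ).intervalIntegrable _ _)


/-! ### Bound of `nuc` -/

theorem sig_real_pos : 0 < sig.real univ := by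
  rw [measureReal_def, sig_univ, ENNReal.toReal_ofReal (by positivity)]
  positivity

theorem nuc_mxC (F : Fin 3 → Y) :
    mxC (2 * ‖frad F‖ + 18 * mxc * (mxM * mxN F)) (nuc F) := by
  have hB : 0 ≤ mxM * mxN F := mul_nonneg mxM_pos.le (mxN_nonneg F)
  have hc := mxc_pos
  obtain ⟨h1, h2⟩ := mx_fw mxPo (muc_mxC F) hB
  have hfr := norm_nonneg (frad F)
  have hcB : 0 ≤ mxc * (mxM * mxN F) := by positivity
  refine ⟨h1, fun t ht => ⟨?_, fun θ η => (h2 t ht θ η).trans ?_⟩⟩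
  · have hV := sig_real_pos
    refine (ContinuousMap.norm_le _ (by positivity)).2 (fun θ => ?_)
    have h3 : ∀ η, |nuc F t θ - nuc F t η| ≤ 9 * mxc * (mxM * mxN F) * (3 / 2) := by
      intro η
      refine (h2 t ht θ η).trans ?_
      refine mul_le_mul_of_nonneg_left ?_ (by positivity)
      rw [show (3 / 2 : ℝ) = Real.sqrt ((3 / 2) ^ 2) by rw [Real.sqrt_sq (by norm_num)]]
      exact Real.sqrt_le_sqrt ((dist_S2_le θ η).trans (by norm_num))
    have hi : Integrable (fun η => nuc F t η) sig :=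
      (nuc F t).continuous.integrable_of_hasCompactSupport (HasCompactSupport.of_compactSpace _)
    have h4 : sig.real univ * nuc F t θ = avgL (nuc F t) + ∫ η, (nuc F t θ - nuc F t η) ∂sig := by
      rw [integral_sub (integrable_const _) hi, avgL_apply, integral_const, smul_eq_mul]
      ring
    have h5 : |∫ η, (nuc F t θ - nuc F t η) ∂sig| ≤
        9 * mxc * (mxM * mxN F) * (3 / 2) * sig.real univ := by
      rw [← Real.norm_eq_abs]
      exact norm_integral_le_of_norm_le_const (Eventually.of_forall h3)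
    have h6 : |avgL (nuc F t)| ≤ 2 * (sig.real univ * ‖frad F‖) := by
      rw [avg_nuc F t ht]
      have a1 := mxh_bound F t
      have a2 := mxh_bound F 0
      have a3 := abs_sub (mxh F t) (mxh F 0)
      linarith
    have h7 : sig.real univ * |nuc F t θ| ≤ sig.real univ *
        (2 * ‖frad F‖ + 9 * mxc * (mxM * mxN F) * (3 / 2)) := by
      rw [← abs_of_pos hV, ← abs_mul, abs_of_pos hV, h4]
      refine (abs_add_le _ _).trans ?_
      linarith
    have h8 := le_of_mul_le_mul_left h7 hV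
    rw [Real.norm_eq_abs]
    nlinarith
  · refine mul_le_mul_of_nonneg_right ?_ (Real.sqrt_nonneg _)
    nlinarith

/-! ### From curves to `Y` -/

theorem mxC_adm {B : ℝ} {u : ℝ → CS} (hu : mxC B u) :
    Y.Adm B (fun x : Om => u (Real.log ‖(x : E3)‖) (dirS (x : E3))) := by
  have hlog : ∀ x : Om, 0 ≤ Real.log ‖(x : E3)‖ := fun x => Real.log_nonneg x.2
  have hc1 : Continuous (fun x : Om => Real.log ‖(x : E3)‖) := by
    refine Real.continuousOn_log.comp_continuous
      (continuous_norm.comp continuous_subtype_val) (fun x => ?_)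
    exact (norm_ne_zero_iff.2 (Om_ne_zero x))
  refine ⟨?_, fun x => ?_, fun x y hxy => ?_⟩
  · have h1 : Continuous (fun x : Om => u (Real.log ‖(x : E3)‖)) :=
      hu.cont.comp_continuous hc1 (fun x => hlog x)
    exact h1.eval continuous_dirOm
  · exact ((u _).norm_coe_le_norm _).trans (hu.h _ (hlog x)).bd
  · rw [hxy]
    exact (hu.h _ (hlog y)).hol _ _

theorem mx_lin (Q : (Fin 3 → Y) → ℝ → CS) (hadd : ∀ F G t, 0 ≤ t → Q (F + G) t = Q F t + Q G t)
    (hsmul : ∀ (c : ℝ) F t, 0 ≤ t → Q (c • F) t = c • Q F t) (C : ℝ) (hC : 0 ≤ C)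
    (hQ : ∀ F, mxC (C * ‖F‖) (Q F)) :
    ∃ L : (Fin 3 → Y) →L[ℝ] Y, ∀ F t θ, 0 ≤ t → L F (ray t θ) = Q F t θ := by
  have hval : ∀ F (x : Om), Y.mk (fun x : Om => Q F (Real.log ‖(x : E3)‖) (dirS (x : E3))) x =
      Q F (Real.log ‖(x : E3)‖) (dirS (x : E3)) := fun F x =>
    Y.mk_apply (mul_nonneg hC (norm_nonneg F)) (mxC_adm (hQ F)) x
  let L0 : (Fin 3 → Y) →ₗ[ℝ] Y :=
    { toFun := fun F => Y.mk (fun x : Om => Q F (Real.log ‖(x : E3)‖) (dirS (x : E3)))
      map_add' := fun F G => by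
        ext x
        rw [Y.add_apply, hval, hval, hval, hadd _ _ _ (Real.log_nonneg x.2)]
        rfl
      map_smul' := fun c F => by
        ext x
        rw [RingHom.id_apply, Y.smul_apply, hval, hval, hsmul _ _ _ (Real.log_nonneg x.2)]
        rfl }
  refine ⟨L0.mkContinuous (2 * C) (fun F => ?_), fun F t θ ht => ?_⟩
  · have := Y.norm_mk_le (mul_nonneg hC (norm_nonneg F)) (mxC_adm (hQ F))
    calc ‖L0 F‖ ≤ 2 * (C * ‖F‖) := this
      _ = 2 * C * ‖F‖ := by ring
  · show Y.mk (fun x : Om => Q F (Real.log ‖(x : E3)‖) (dirS (x : E3))) (ray t θ) = _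
    rw [hval, norm_ray, dirS_ray, Real.log_exp, max_eq_left ht]

/-! ### Linearity -/

/-- `frad` as a continuous linear map -/
def fradL : (Fin 3 → Y) →L[ℝ] Y :=
  ∑ j, (ContinuousLinearMap.mul ℝ Y (thY j)).comp (ContinuousLinearMap.proj j)

/-- `ftan` as a continuous linear map -/
def ftanL (k : Fin 3) : (Fin 3 → Y) →L[ℝ] Y :=
  ∑ i, ∑ j, (eps k i j) • (ContinuousLinearMap.mul ℝ Y (thY i)).comp (ContinuousLinearMap.proj j)

theorem fradL_apply (F : Fin 3 → Y) : fradL F = frad F := by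
  simp [fradL, frad]

theorem ftanL_apply (k : Fin 3) (F : Fin 3 → Y) : ftanL k F = ftan F k := by
  simp [ftanL, ftan, cr]

/-- operator norm constant -/
def mxQ : ℝ := ‖fradL‖ + ∑ k, ‖ftanL k‖

theorem mxQ_nonneg : 0 ≤ mxQ := by unfold mxQ; positivity

theorem mxN_le (F : Fin 3 → Y) : mxN F ≤ mxQ * ‖F‖ := by
  unfold mxN mxQ
  rw [add_mul, Finset.sum_mul]
  refine add_le_add ?_ (Finset.sum_le_sum (fun k _ => ?_))
  · rw [← fradL_apply]; exact fradL.le_opNorm F
  · rw [← ftanL_apply]; exact (ftanL k).le_opNorm F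

theorem frad_le (F : Fin 3 → Y) : ‖frad F‖ ≤ mxQ * ‖F‖ := by
  refine le_trans ?_ (mxN_le F)
  unfold mxN
  have : 0 ≤ ∑ k, ‖ftan F k‖ := by positivity
  linarith

theorem sl_add (f g : Y) (t : ℝ) : sl (f + g) t = sl f t + sl g t := rfl

theorem sl_smul (c : ℝ) (f : Y) (t : ℝ) : sl (c • f) t = c • sl f t := rfl

theorem frad_add (F G : Fin 3 → Y) : frad (F + G) = frad F + frad G := by
  rw [← fradL_apply, map_add, fradL_apply, fradL_apply]

theorem frad_smul (c : ℝ) (F : Fin 3 → Y) : frad (c • F) = c • frad F := by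
  rw [← fradL_apply, map_smul, fradL_apply]

theorem ftan_add (F G : Fin 3 → Y) (k : Fin 3) : ftan (F + G) k = ftan F k + ftan G k := by
  rw [← ftanL_apply, map_add, ftanL_apply, ftanL_apply]

theorem ftan_smul (c : ℝ) (F : Fin 3 → Y) (k : Fin 3) : ftan (c • F) k = c • ftan F k := by
  rw [← ftanL_apply, map_smul, ftanL_apply]

theorem bw_add {K : ℝ → (CS →L[ℝ] CS)} (hK : mxK mxc K) (f g : Y) (t : ℝ) (ht : 0 ≤ t) :
    ∫ s in Ioi (0 : ℝ), Real.exp (-s) • K s (sl (f + g) (t + s)) =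
      (∫ s in Ioi (0 : ℝ), Real.exp (-s) • K s (sl f (t + s))) +
        ∫ s in Ioi (0 : ℝ), Real.exp (-s) • K s (sl g (t + s)) := by
  have i1 : Integrable (fun s => Real.exp (-s) • K s (sl f (t + s)))
    (volume.restrict (Ioi 0)) := mx_bw_int hK (sl_mxC f) ht
  have i2 : Integrable (fun s => Real.exp (-s) • K s (sl g (t + s)))
    (volume.restrict (Ioi 0)) := mx_bw_int hK (sl_mxC g) ht
  rw [← integral_add i1 i2]
  refine integral_congr_ae (Eventually.of_forall (fun s => ?_))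
  show Real.exp (-s) • K s (sl (f + g) (t + s)) = Real.exp (-s) • K s (sl f (t + s)) +
    Real.exp (-s) • K s (sl g (t + s))
  rw [sl_add, map_add, smul_add]

theorem Jc_add (F G : Fin 3 → Y) (t : ℝ) (ht : 0 ≤ t) : Jc (F + G) t = Jc F t + Jc G t := by
  rw [Jc_eq (F + G) t ht, Jc_eq F t ht, Jc_eq G t ht, frad_add, bw_add mxPo _ _ t ht,
    bw_add mxLa _ _ t ht]
  have h : ∀ k, ∫ s in Ioi (0 : ℝ), Real.exp (-s) • PD.Dk k s (sl (ftan (F + G) k) (t + s)) =
      (∫ s in Ioi (0 : ℝ), Real.exp (-s) • PD.Dk k s (sl (ftan F k) (t + s))) +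
        ∫ s in Ioi (0 : ℝ), Real.exp (-s) • PD.Dk k s (sl (ftan G k) (t + s)) := fun k => by
    rw [ftan_add, bw_add (mxDk k) _ _ t ht]
  rw [Finset.sum_congr rfl (fun k _ => h k), Finset.sum_add_distrib]
  abel

theorem Jc_smul (c : ℝ) (F : Fin 3 → Y) (t : ℝ) : Jc (c • F) t = c • Jc F t := by
  unfold Jc
  rw [← integral_smul]
  refine integral_congr_ae (Eventually.of_forall (fun s => ?_))
  simp only [frad_smul, ftan_smul, sl_smul, map_smul, ← smul_add, ← Finset.smul_sum]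
  rw [smul_comm]

theorem muc_add (F G : Fin 3 → Y) (t : ℝ) (ht : 0 ≤ t) : muc (F + G) t = muc F t + muc G t := by
  unfold muc
  rw [Jc_add F G t ht, frad_add, sl_add]
  abel

theorem muc_smul (c : ℝ) (F : Fin 3 → Y) (t : ℝ) : muc (c • F) t = c • muc F t := by
  unfold muc
  rw [Jc_smul c F t, frad_smul, sl_smul, smul_sub]

theorem fw_add {K : ℝ → (CS →L[ℝ] CS)} (hK : mxK mxc K) (F G : Fin 3 → Y) (t : ℝ) (ht : 0 ≤ t) :
    ∫ s in (0 : ℝ)..t, K s (muc (F + G) (t - s)) =
      (∫ s in (0 : ℝ)..t, K s (muc F (t - s))) + ∫ s in (0 : ℝ)..t, K s (muc G (t - s)) := by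
  rw [intervalIntegral.integral_of_le ht, intervalIntegral.integral_of_le ht,
    intervalIntegral.integral_of_le ht, ← integral_add (mx_fw_int hK (muc_mxC F) ht)
    (mx_fw_int hK (muc_mxC G) ht)]
  refine setIntegral_congr_fun measurableSet_Ioc (fun s hs => ?_)
  show K s (muc (F + G) (t - s)) = K s (muc F (t - s)) + K s (muc G (t - s))
  rw [muc_add F G _ (by linarith [hs.2]), map_add]

theorem fw_smul {K : ℝ → (CS →L[ℝ] CS)} (c : ℝ) (F : Fin 3 → Y) (t : ℝ) :
    ∫ s in (0 : ℝ)..t, K s (muc (c • F) (t - s)) =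
      c • ∫ s in (0 : ℝ)..t, K s (muc F (t - s)) := by
  rw [← intervalIntegral.integral_smul]
  refine intervalIntegral.integral_congr (fun s _ => ?_)
  show K s (muc (c • F) (t - s)) = c • K s (muc F (t - s))
  rw [muc_smul, map_smul]

theorem exists_MuL : ∃ L : (Fin 3 → Y) →L[ℝ] Y, ∀ F t θ, 0 ≤ t → L F (ray t θ) = muc F t θ := by
  have h0 := mxM_pos
  refine mx_lin muc muc_add (fun c F t _ => muc_smul c F t) (mxM * mxQ)
    (mul_nonneg h0.le mxQ_nonneg) (fun F => (muc_mxC F).mono ?_)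
  rw [mul_assoc]
  exact mul_le_mul_of_nonneg_left (mxN_le F) h0.le

theorem exists_LaL : ∃ L : (Fin 3 → Y) →L[ℝ] Y, ∀ F t θ, 0 ≤ t → L F (ray t θ) = lac F t θ := by
  have h0 := mxM_pos
  have h1 := mxc_pos
  have h2 := mxI_nonneg
  refine mx_lin lac (fun F G t ht => fw_add mxLa F G t ht) (fun c F t _ => fw_smul c F t)
    (mxc * mxM * mxQ * (mxI + 9)) (by have := mxQ_nonneg; positivity)
    (fun F => (lac_mxC F).mono ?_)
  have := mxN_le F
  calc mxc * (mxM * mxN F) * (mxI + 9) ≤ mxc * (mxM * (mxQ * ‖F‖)) * (mxI + 9) := by gcongr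
    _ = _ := by ring

theorem exists_LnL (k : Fin 3) :
    ∃ L : (Fin 3 → Y) →L[ℝ] Y, ∀ F t θ, 0 ≤ t → L F (ray t θ) = lnc F k t θ := by
  have h0 := mxM_pos
  have h1 := mxc_pos
  have h2 := mxI_nonneg
  refine mx_lin (fun F => lnc F k) (fun F G t ht => fw_add (mxDk k) F G t ht)
    (fun c F t _ => fw_smul c F t)
    (mxc * mxM * mxQ * (mxI + 9)) (by have := mxQ_nonneg; positivity)
    (fun F => (lnc_mxC F k).mono ?_)
  have := mxN_le F
  calc mxc * (mxM * mxN F) * (mxI + 9) ≤ mxc * (mxM * (mxQ * ‖F‖)) * (mxI + 9) := by gcongr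
    _ = _ := by ring

theorem exists_NuL : ∃ L : (Fin 3 → Y) →L[ℝ] Y, ∀ F t θ, 0 ≤ t → L F (ray t θ) = nuc F t θ := by
  have h0 := mxM_pos
  have h1 := mxc_pos
  refine mx_lin nuc (fun F G t ht => fw_add mxPo F G t ht) (fun c F t _ => fw_smul c F t)
    (2 * mxQ + 18 * mxc * (mxM * mxQ)) (by have := mxQ_nonneg; positivity)
    (fun F => (nuc_mxC F).mono ?_)
  have a1 := mxN_le F
  have a2 := frad_le F
  calc 2 * ‖frad F‖ + 18 * mxc * (mxM * mxN F)
      ≤ 2 * (mxQ * ‖F‖) + 18 * mxc * (mxM * (mxQ * ‖F‖)) := by gcongr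
    _ = _ := by ring

/-- existence (boundedness on `Y`) of the solution operator `T` and of `Nu`,
`v = Nu F / |y|` solves `Δ v = - div (F / |y|^2)`, and `T F = |y|^2 ∇ v`. -/
theorem T_exists : ∃ (T : (Fin 3 → Y) →L[ℝ] (Fin 3 → Y)) (Nu : (Fin 3 → Y) →L[ℝ] Y),
    ∀ F t (θ : S2), 0 ≤ t →
      Nu F (ray t θ) = nuc F t θ ∧
      ∀ j, T F j (ray t θ) = (θ : E3) j * (muc F t θ - lac F t θ - nuc F t θ) -
        cr (fun a => (θ : E3) a) (fun a => lnc F a t θ) j := by
  obtain ⟨M, hM⟩ := exists_MuL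
  obtain ⟨A, hA⟩ := exists_LaL
  obtain ⟨N, hN⟩ := exists_NuL
  choose L hL using exists_LnL
  refine ⟨ContinuousLinearMap.pi (fun j =>
    (ContinuousLinearMap.mul ℝ Y (thY j)).comp (M - A - N) -
      ∑ a, ∑ b, (eps j a b) • (ContinuousLinearMap.mul ℝ Y (thY a)).comp (L b)), N,
    fun F t θ ht => ⟨hN F t θ ht, fun j => ?_⟩⟩
  have hth : ∀ j, thY j (ray t θ) = (θ : E3) j := fun j => by rw [thY_apply, dirS_ray]
  simp only [ContinuousLinearMap.coe_pi', sub_apply,
    ContinuousLinearMap.comp_apply, ContinuousLinearMap.mul_apply', Y.sub_apply, Y.mul_apply,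
    sum_apply, Y.sum_apply, smul_apply, Y.smul_apply,
    hth, hM F t θ ht, hA F t θ ht, hN F t θ ht, hL _ F t θ ht, cr, smul_eq_mul]

/-- the solution operator -/
def TT : (Fin 3 → Y) →L[ℝ] (Fin 3 → Y) := Classical.choose T_exists

/-- the potential part of the solution operator -/
def Nu : (Fin 3 → Y) →L[ℝ] Y := Classical.choose (Classical.choose_spec T_exists)

theorem TT_spec (F : Fin 3 → Y) (t : ℝ) (θ : S2) (ht : 0 ≤ t) :
    Nu F (ray t θ) = nuc F t θ ∧
      ∀ j, TT F j (ray t θ) = (θ : E3) j * (muc F t θ - lac F t θ - nuc F t θ) -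
        cr (fun a => (θ : E3) a) (fun a => lnc F a t θ) j :=
  Classical.choose_spec (Classical.choose_spec T_exists) F t θ ht

end

end Pool.Agent.BS
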